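import Mathlib

/-!
# Primes congruent to 1 modulo 3 are of the form a² + 3 b²
-/

set_option autoImplicit false

namespace Pool.Agent.Lib.H63.NormForm

/-- Thue's lemma -/
lemma thue {p : ℕ} (hp : p.Prime) (s : ZMod p) :
    ∃ x y : ℤ, (x ≠ 0 ∨ y ≠ 0) ∧ x ^ 2 < p ∧ y ^ 2 < p ∧ ((x : ZMod p) = s * y) := by
  have : Fact p.Prime := ⟨hp⟩
  set r := Nat.sqrt p with hr
  have hr2 : r * r < p := by
    rcases lt_or_eq_of_le (Nat.sqrt_le p) with h | h
    · exact h
    · exfalso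
      have h1 : r * r = p := h
      have : ¬ (r * r).Prime := by
        rcases Nat.lt_or_ge r 2 with h2 | h2
        · interval_cases r <;> norm_num
        · exact Nat.not_prime_mul (by omega) (by omega)
      rw [h1] at this
      exact this hp
  have hcard : (Finset.univ : Finset (ZMod p)).card <
      ((Finset.range (r + 1)) ×ˢ (Finset.range (r + 1))).card := by
    rw [Finset.card_product, Finset.card_range, Finset.card_univ, ZMod.card]
    exact Nat.lt_succ_sqrt p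
  obtain ⟨a, ha, b, hb, hab, hf⟩ := Finset.exists_ne_map_eq_of_card_lt_of_maps_to hcard
    (f := fun t : ℕ × ℕ => (t.1 : ZMod p) - s * (t.2 : ZMod p)) (fun _ _ => Finset.mem_univ _)
  simp only [Finset.mem_product, Finset.mem_range] at ha hb
  refine ⟨(a.1 : ℤ) - b.1, (a.2 : ℤ) - b.2, ?_, ?_, ?_, ?_⟩
  · by_contra hc
    push Not at hc
    apply hab
    ext
    · have := hc.1; omega
    · have := hc.2; omega
  · have h1 : |(a.1 : ℤ) - b.1| ≤ r := by rw [abs_le]; constructor <;> omega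
    have h2 : ((a.1 : ℤ) - b.1) ^ 2 ≤ (r : ℤ) ^ 2 := by
      rw [← sq_abs]; exact pow_le_pow_left₀ (abs_nonneg _) h1 2
    have h3 : (r : ℤ) ^ 2 < p := by rw [pow_two]; exact_mod_cast hr2
    linarith
  · have h1 : |(a.2 : ℤ) - b.2| ≤ r := by rw [abs_le]; constructor <;> omega
    have h2 : ((a.2 : ℤ) - b.2) ^ 2 ≤ (r : ℤ) ^ 2 := by
      rw [← sq_abs]; exact pow_le_pow_left₀ (abs_nonneg _) h1 2
    have h3 : (r : ℤ) ^ 2 < p := by rw [pow_two]; exact_mod_cast hr2
    linarith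
  · push_cast
    linear_combination hf

lemma exists_sqrt_neg_three {p : ℕ} (hp : p.Prime) (h3 : p % 3 = 1) :
    ∃ s : ZMod p, s ^ 2 = -3 := by
  have : Fact p.Prime := ⟨hp⟩
  obtain ⟨u, hu⟩ := exists_prime_orderOf_dvd_card (G := (ZMod p)ˣ) 3 (by
    rw [ZMod.card_units_eq_totient, Nat.totient_prime hp]; omega)
  have h1 : u ^ 3 = 1 := by rw [← hu]; exact pow_orderOf_eq_one u
  have h2 : u ≠ 1 := by intro h; rw [h, orderOf_one] at hu; omega
  have h4 : (u : ZMod p) ^ 3 = 1 := by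
    have := congrArg Units.val h1
    simpa using this
  have h5 : (u : ZMod p) - 1 ≠ 0 := by
    intro h; apply h2; ext; push_cast; linear_combination h
  have h6 : (u : ZMod p) ^ 2 + u + 1 = 0 := by
    have : ((u : ZMod p) - 1) * ((u : ZMod p) ^ 2 + u + 1) = 0 := by linear_combination h4
    rcases mul_eq_zero.1 this with h | h
    · exact absurd h h5
    · exact h
  exact ⟨2 * u + 1, by linear_combination 4 * h6⟩

theorem prime_eq {p : ℕ} (hp : p.Prime) (h3 : p % 3 = 1) :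
    ∃ a b : ℤ, b ≠ 0 ∧ (p : ℤ) = a ^ 2 + 3 * b ^ 2 := by
  have : Fact p.Prime := ⟨hp⟩
  obtain ⟨s, hs⟩ := exists_sqrt_neg_three hp h3
  obtain ⟨x, y, h0, hx, hy, hxy⟩ := thue hp s
  have hdvd : (p : ℤ) ∣ x ^ 2 + 3 * y ^ 2 := by
    rw [← ZMod.intCast_zmod_eq_zero_iff_dvd]
    push_cast
    rw [hxy]
    linear_combination (y : ZMod p) ^ 2 * hs
  obtain ⟨k, hk⟩ := hdvd
  have hp0 : (0 : ℤ) < p := by exact_mod_cast hp.pos
  have hpos : 0 < x ^ 2 + 3 * y ^ 2 := by
    rcases h0 with h | h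
    · have := sq_pos_of_ne_zero h |>.trans_le (le_refl _)
      have h' : 0 < x ^ 2 := by positivity
      nlinarith [sq_nonneg y]
    · have h' : 0 < y ^ 2 := by positivity
      nlinarith [sq_nonneg x]
  have hk0 : 0 < k := by
    by_contra hc
    push Not at hc
    nlinarith
  have hk4 : k < 4 := by
    by_contra hc
    push Not at hc
    nlinarith
  have hodd : p % 2 = 1 := by
    rcases hp.eq_two_or_odd with h | h
    · omega
    · exact h
  have hnsq : ∀ t : ℤ, (p : ℤ) ≠ t ^ 2 := by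
    intro t ht
    have h1 : p = t.natAbs ^ 2 := by zify; rw [sq_abs]; exact ht
    exact (Nat.Prime.not_prime_pow (le_refl 2)) (h1 ▸ hp)
  have hfin : ∃ a b : ℤ, (p : ℤ) = a ^ 2 + 3 * b ^ 2 := by
    have : k = 1 ∨ k = 2 ∨ k = 3 := by omega
    rcases this with rfl | rfl | rfl
    · exact ⟨x, y, by linarith⟩
    · exfalso
      rcases Int.emod_two_eq_zero_or_one x with h1 | h1 <;>
        rcases Int.emod_two_eq_zero_or_one y with h2 | h2
      · obtain ⟨a, ha⟩ : ∃ a, x = 2 * a := ⟨x / 2, by omega⟩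
        obtain ⟨b, hb⟩ : ∃ b, y = 2 * b := ⟨y / 2, by omega⟩
        rw [ha, hb] at hk; ring_nf at hk; omega
      · obtain ⟨a, ha⟩ : ∃ a, x = 2 * a := ⟨x / 2, by omega⟩
        obtain ⟨b, hb⟩ : ∃ b, y = 2 * b + 1 := ⟨y / 2, by omega⟩
        rw [ha, hb] at hk; ring_nf at hk; omega
      · obtain ⟨a, ha⟩ : ∃ a, x = 2 * a + 1 := ⟨x / 2, by omega⟩
        obtain ⟨b, hb⟩ : ∃ b, y = 2 * b := ⟨y / 2, by omega⟩
        rw [ha, hb] at hk; ring_nf at hk; omega
      · obtain ⟨a, ha⟩ : ∃ a, x = 2 * a + 1 := ⟨x / 2, by omega⟩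
        obtain ⟨b, hb⟩ : ∃ b, y = 2 * b + 1 := ⟨y / 2, by omega⟩
        rw [ha, hb] at hk; ring_nf at hk; omega
    · have h3x : (3 : ℤ) ∣ x := by
        have h1 : (3 : ℤ) ∣ x ^ 2 := ⟨p - y ^ 2, by linarith⟩
        exact Int.prime_three.dvd_of_dvd_pow h1
      obtain ⟨c, rfl⟩ := h3x
      exact ⟨y, c, by nlinarith⟩
  obtain ⟨a, b, hab⟩ := hfin
  refine ⟨a, b, ?_, hab⟩
  rintro rfl
  exact hnsq a (by rw [hab]; ring)

end Pool.Agent.Lib.H63.NormForm
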