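import Mathlib

/-!
# Sums of three squares

Positive definite integral ternary forms of determinant one only represent sums of three squares;
as a consequence every `n ≡ 2 (mod 4)` is a sum of three integer squares.
-/

set_option autoImplicit false

namespace Pool.Agent.Lib.H63.ThreeSquares

/-- Ternary quadratic form with matrix `[[a,d,e],[d,b,f],[e,f,c]]`. -/
def Q (a b c d e f x y z : ℤ) : ℤ :=
  a * x ^ 2 + b * y ^ 2 + c * z ^ 2 + 2 * d * (x * y) + 2 * e * (x * z) + 2 * f * (y * z)

/-- the associated bilinear form -/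
def B (a b c d e f x y z x' y' z' : ℤ) : ℤ :=
  a * x * x' + b * y * y' + c * z * z' + d * (x * y' + y * x') + e * (x * z' + z * x')
    + f * (y * z' + z * y')

/-- determinant of the matrix -/
def det3 (a b c d e f : ℤ) : ℤ := a * b * c + 2 * d * e * f - a * f ^ 2 - b * e ^ 2 - c * d ^ 2

section
variable {a b c d e f : ℤ}

/-- positivity of the form -/
lemma Q_pos (ha : 0 < a) (hab : 0 < a * b - d ^ 2) (hdet : 0 < det3 a b c d e f)
    {x y z : ℤ} (h : ¬ (x = 0 ∧ y = 0 ∧ z = 0)) : 0 < Q a b c d e f x y z := by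
  have id1 : a * (a * b - d ^ 2) * Q a b c d e f x y z =
      (a * b - d ^ 2) * (a * x + d * y + e * z) ^ 2
        + ((a * b - d ^ 2) * y + (a * f - d * e) * z) ^ 2 + a * det3 a b c d e f * z ^ 2 := by
    simp only [Q, det3]; ring
  have h1 : 0 ≤ (a * b - d ^ 2) * (a * x + d * y + e * z) ^ 2 := by positivity
  have h2 : 0 ≤ ((a * b - d ^ 2) * y + (a * f - d * e) * z) ^ 2 := by positivity
  have h3 : 0 ≤ a * det3 a b c d e f * z ^ 2 := by positivity
  have hpos : 0 < (a * b - d ^ 2) * (a * x + d * y + e * z) ^ 2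
        + ((a * b - d ^ 2) * y + (a * f - d * e) * z) ^ 2 + a * det3 a b c d e f * z ^ 2 := by
    rcases (lt_or_eq_of_le (add_nonneg (add_nonneg h1 h2) h3)) with h4 | h4
    · exact h4
    · exfalso
      have e3 : a * det3 a b c d e f * z ^ 2 = 0 := by linarith
      have e2 : ((a * b - d ^ 2) * y + (a * f - d * e) * z) ^ 2 = 0 := by linarith
      have e1 : (a * b - d ^ 2) * (a * x + d * y + e * z) ^ 2 = 0 := by linarith
      have hz : z = 0 := by
        have : z ^ 2 = 0 := by
          rcases mul_eq_zero.mp e3 with h5 | h5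
          · exfalso; nlinarith
          · exact h5
        exact pow_eq_zero_iff (two_ne_zero) |>.mp this
      subst hz
      have hy : y = 0 := by
        have : (a * b - d ^ 2) * y + (a * f - d * e) * 0 = 0 := pow_eq_zero_iff (two_ne_zero) |>.mp e2
        have h6 : (a * b - d ^ 2) * y = 0 := by linarith
        rcases mul_eq_zero.mp h6 with h7 | h7
        · exfalso; linarith
        · exact h7
      subst hy
      have hx : x = 0 := by
        rcases mul_eq_zero.mp e1 with h7 | h7
        · exfalso; linarith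
        · have h8 : a * x + d * 0 + e * 0 = 0 := pow_eq_zero_iff (two_ne_zero) |>.mp h7
          have h9 : a * x = 0 := by linarith
          rcases mul_eq_zero.mp h9 with h10 | h10
          · exfalso; linarith
          · exact h10
      exact h ⟨hx, rfl, rfl⟩
  rw [← id1] at hpos
  exact pos_of_mul_pos_of_pos_left hpos (by positivity)
where
  pos_of_mul_pos_of_pos_left {k q : ℤ} (h : 0 < k * q) (hk : 0 < k) : 0 < q := by
    by_contra hq
    have : k * q ≤ 0 := mul_nonpos_of_nonneg_of_nonpos hk.le (not_lt.mp hq)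
    linarith

end

/-- A triple of integers is primitive if it has an integer combination equal to one. -/
def Prim (x y z : ℤ) : Prop := ∃ s t u : ℤ, s * x + t * y + u * z = 1

/-- every nonzero triple is a positive multiple of a primitive one -/
lemma exists_prim {x y z : ℤ} (h : ¬ (x = 0 ∧ y = 0 ∧ z = 0)) :
    ∃ g x' y' z' : ℤ, 0 < g ∧ x = g * x' ∧ y = g * y' ∧ z = g * z' ∧ Prim x' y' z' := by
  set g1 : ℤ := (Int.gcd x y : ℤ) with hg1
  set g : ℤ := (Int.gcd g1 z : ℤ) with hg
  have hgne : g ≠ 0 := by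
    intro h0
    have : Int.gcd g1 z = 0 := by rw [hg] at h0; exact_mod_cast h0
    rw [Int.gcd_eq_zero_iff] at this
    obtain ⟨h1, h2⟩ := this
    have h3 : Int.gcd x y = 0 := by rw [hg1] at h1; exact_mod_cast h1
    rw [Int.gcd_eq_zero_iff] at h3
    exact h ⟨h3.1, h3.2, h2⟩
  have hgpos : 0 < g := lt_of_le_of_ne (by positivity) (Ne.symm hgne)
  have hgz : g ∣ z := Int.gcd_dvd_right ..
  have hgg1 : g ∣ g1 := Int.gcd_dvd_left ..
  have hgx : g ∣ x := hgg1.trans (Int.gcd_dvd_left ..)
  have hgy : g ∣ y := hgg1.trans (Int.gcd_dvd_right ..)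
  obtain ⟨x', hx'⟩ := hgx
  obtain ⟨y', hy'⟩ := hgy
  obtain ⟨z', hz'⟩ := hgz
  refine ⟨g, x', y', z', hgpos, hx', hy', hz', ?_⟩
  have b1 : g1 = x * Int.gcdA x y + y * Int.gcdB x y := Int.gcd_eq_gcd_ab x y
  have b2 : g = g1 * Int.gcdA g1 z + z * Int.gcdB g1 z := Int.gcd_eq_gcd_ab g1 z
  refine ⟨Int.gcdA x y * Int.gcdA g1 z, Int.gcdB x y * Int.gcdA g1 z, Int.gcdB g1 z, ?_⟩
  have : g * (Int.gcdA x y * Int.gcdA g1 z * x' + Int.gcdB x y * Int.gcdA g1 z * y'
      + Int.gcdB g1 z * z') = g * 1 := by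
    calc _ = (g * x') * Int.gcdA x y * Int.gcdA g1 z + (g * y') * Int.gcdB x y * Int.gcdA g1 z
          + (g * z') * Int.gcdB g1 z := by ring
      _ = (x * Int.gcdA x y + y * Int.gcdB x y) * Int.gcdA g1 z + z * Int.gcdB g1 z := by
          rw [← hx', ← hy', ← hz']; ring
      _ = g * 1 := by rw [← b1, ← b2]; ring
  exact mul_left_cancel₀ hgne this

/-- centred division: we can shift `r` by a multiple of `m` into `[-m/2, m/2]`. -/
lemma exists_shift (r m : ℤ) (hm : 0 < m) : ∃ k : ℤ, (2 * (r + k * m)) ^ 2 ≤ m ^ 2 := by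
  refine ⟨-((2 * r + m) / (2 * m)), ?_⟩
  have h1 := Int.emod_add_mul_ediv (2 * r + m) (2 * m)
  have h2 := Int.emod_nonneg (2 * r + m) (show (2 * m) ≠ 0 by omega)
  have h3 := Int.emod_lt_of_pos (2 * r + m) (show 0 < 2 * m by omega)
  set q := (2 * r + m) / (2 * m)
  set s := (2 * r + m) % (2 * m)
  have h4 : 2 * (r + -q * m) = s - m := by linarith
  rw [h4]
  nlinarith

section
variable {a b c d e f : ℤ}

lemma min_exists (P : ℤ → ℤ → ℤ → Prop) (F : ℤ → ℤ → ℤ → ℤ)
    (hF : ∀ x y z, P x y z → 0 < F x y z) (hne : ∃ x y z, P x y z) :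
    ∃ x y z, P x y z ∧ ∀ x' y' z', P x' y' z' → F x y z ≤ F x' y' z' := by
  classical
  obtain ⟨x0, y0, z0, h0⟩ := hne
  have hex : ∃ n : ℕ, ∃ x y z, P x y z ∧ F x y z = n := by
    refine ⟨(F x0 y0 z0).toNat, x0, y0, z0, h0, ?_⟩
    rw [Int.toNat_of_nonneg (hF _ _ _ h0).le]
  obtain ⟨x, y, z, hP, hn⟩ := Nat.find_spec hex
  refine ⟨x, y, z, hP, fun x' y' z' hP' => ?_⟩
  have := Nat.find_min' hex (m := (F x' y' z').toNat)
    ⟨x', y', z', hP', by rw [Int.toNat_of_nonneg (hF _ _ _ hP').le]⟩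
  rw [hn]
  have h5 : ((F x' y' z').toNat : ℤ) = F x' y' z' := Int.toNat_of_nonneg (hF _ _ _ hP').le
  rw [← h5]
  exact_mod_cast this

/-- positive definite integral ternary forms of determinant one represent one -/
lemma exists_one (ha : 0 < a) (hab : 0 < a * b - d ^ 2) (hdet : det3 a b c d e f = 1) :
    ∃ x y z : ℤ, Q a b c d e f x y z = 1 := by
  have hpos : ∀ x y z : ℤ, ¬ (x = 0 ∧ y = 0 ∧ z = 0) → 0 < Q a b c d e f x y z :=
    fun x y z h => Q_pos ha hab (by rw [hdet]; norm_num) h
  -- the adjoint form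
  have hpos' : ∀ x y z : ℤ, ¬ (x = 0 ∧ y = 0 ∧ z = 0) →
      0 < Q (a * c - e ^ 2) (b * c - f ^ 2) (a * b - d ^ 2) 0 0 0 x y z → True := fun _ _ _ _ _ => trivial
  clear hpos'
  set A := b * c - f ^ 2 with hA
  set B' := a * c - e ^ 2 with hB'
  set C := a * b - d ^ 2 with hC
  set D := e * f - c * d with hD
  set E := d * f - b * e with hE
  set F := d * e - a * f with hF
  have adj_pos : ∀ x y z : ℤ, ¬ (x = 0 ∧ y = 0 ∧ z = 0) → 0 < Q A B' C D E F x y z := by
    intro x y z h
    -- C * Q* = (E x + F y + C z)^2 + det * (binary form [b, -d; -d, a]) ...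
    have id1 : C * Q A B' C D E F x y z = (E * x + F * y + C * z) ^ 2
        + det3 a b c d e f * (b * x ^ 2 - 2 * d * (x * y) + a * y ^ 2) := by
      simp only [Q, det3, hA, hB', hC, hD, hE, hF]; ring
    rw [hdet, one_mul] at id1
    have id2 : a * (b * x ^ 2 - 2 * d * (x * y) + a * y ^ 2) = C * x ^ 2 + (a * y - d * x) ^ 2 := by
      simp only [hC]; ring
    have h1 : 0 ≤ C * x ^ 2 + (a * y - d * x) ^ 2 := by positivity
    by_cases hx : x = 0
    · subst hx
      by_cases hy : y = 0
      · subst hy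
        have hz : z ≠ 0 := fun hz => h ⟨rfl, rfl, hz⟩
        have hz2 : 0 < z ^ 2 := by positivity
        simp only [Q]
        have : 0 < C * z ^ 2 := by positivity
        nlinarith
      · have hy2 : 0 < y ^ 2 := by positivity
        have h3 : 0 < a * (b * 0 ^ 2 - 2 * d * (0 * y) + a * y ^ 2) := by
          have : 0 < a ^ 2 * y ^ 2 := by positivity
          nlinarith
        have h4 : 0 < (b * 0 ^ 2 - 2 * d * (0 * y) + a * y ^ 2) := by
          by_contra hcon
          have := mul_nonpos_of_nonneg_of_nonpos ha.le (not_lt.mp hcon)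
          linarith
        have h5 : 0 < C * Q A B' C D E F 0 y z := by rw [id1]; positivity
        by_contra hcon
        have := mul_nonpos_of_nonneg_of_nonpos hab.le (not_lt.mp hcon)
        linarith
    · have hx2 : 0 < x ^ 2 := by positivity
      have h3 : 0 < a * (b * x ^ 2 - 2 * d * (x * y) + a * y ^ 2) := by rw [id2]; nlinarith [sq_nonneg (a * y - d * x)]
      have h4 : 0 < (b * x ^ 2 - 2 * d * (x * y) + a * y ^ 2) := by
        by_contra hcon
        have := mul_nonpos_of_nonneg_of_nonpos ha.le (not_lt.mp hcon)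
        linarith
      have h5 : 0 < C * Q A B' C D E F x y z := by rw [id1]; positivity
      by_contra hcon
      have := mul_nonpos_of_nonneg_of_nonpos hab.le (not_lt.mp hcon)
      linarith
  -- minimal vector
  obtain ⟨x1, y1, z1, h1ne, h1min⟩ := min_exists (fun x y z => ¬ (x = 0 ∧ y = 0 ∧ z = 0))
    (fun x y z => Q a b c d e f x y z) hpos ⟨1, 0, 0, by simp⟩
  refine ⟨x1, y1, z1, ?_⟩
  -- it is primitive
  have h1prim : Prim x1 y1 z1 := by
    obtain ⟨g, x', y', z', hg, hx, hy, hz, hp⟩ := exists_prim h1ne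
    have hne' : ¬ (x' = 0 ∧ y' = 0 ∧ z' = 0) := by
      rintro ⟨h1, h2, h3⟩
      obtain ⟨s, t, u, hstu⟩ := hp
      rw [h1, h2, h3] at hstu; simp at hstu
    have h2 := h1min x' y' z' hne'
    have h3 : Q a b c d e f x1 y1 z1 = g ^ 2 * Q a b c d e f x' y' z' := by
      rw [hx, hy, hz]; simp only [Q]; ring
    have h4 := hpos x' y' z' hne'
    have hg1 : g = 1 := by
      by_contra hgn
      have h5 : 2 ≤ g := by omega
      have h6 : 4 ≤ g ^ 2 := by nlinarith
      rw [h3] at h2
      nlinarith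
    subst hg1
    simpa [hx, hy, hz] using hp
  obtain ⟨s1, s2, s3, hs⟩ := h1prim
  -- the orthogonal lattice, minimal vector for the adjoint form
  obtain ⟨p, q, r, ⟨hpqr, hdot⟩, hpmin⟩ := min_exists
    (fun x y z => ¬ (x = 0 ∧ y = 0 ∧ z = 0) ∧ x * x1 + y * y1 + z * z1 = 0)
    (fun x y z => Q A B' C D E F x y z) (fun x y z h => adj_pos x y z h.1) (by
      by_cases hxy : x1 = 0 ∧ y1 = 0
      · refine ⟨1, 0, 0, by simp, by simp [hxy.1]⟩
      · refine ⟨-y1, x1, 0, ?_, by ring⟩
        rintro ⟨h1, h2, _⟩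
        exact hxy ⟨h2, by linarith⟩)
  have hcprim : Prim p q r := by
    obtain ⟨g, x', y', z', hg, hx, hy, hz, hp⟩ := exists_prim hpqr
    have hne' : ¬ (x' = 0 ∧ y' = 0 ∧ z' = 0) := by
      rintro ⟨h1, h2, h3⟩
      obtain ⟨s, t, u, hstu⟩ := hp
      rw [h1, h2, h3] at hstu; simp at hstu
    have hd' : x' * x1 + y' * y1 + z' * z1 = 0 := by
      have : g * (x' * x1 + y' * y1 + z' * z1) = 0 := by
        rw [← hdot, hx, hy, hz]; ring
      rcases mul_eq_zero.mp this with h0 | h0
      · omega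
      · exact h0
    have h2 := hpmin x' y' z' ⟨hne', hd'⟩
    have h3 : Q A B' C D E F p q r = g ^ 2 * Q A B' C D E F x' y' z' := by
      rw [hx, hy, hz]; simp only [Q]; ring
    have h4 := adj_pos x' y' z' hne'
    have hg1 : g = 1 := by
      by_contra hgn
      have h5 : 2 ≤ g := by omega
      have h6 : 4 ≤ g ^ 2 := by nlinarith
      rw [h3] at h2
      nlinarith
    subst hg1
    simpa [hx, hy, hz] using hp
  obtain ⟨t1, t2, t3, ht⟩ := hcprim
  -- c2 = v1 × t
  set m := Q a b c d e f x1 y1 z1 with hm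
  set g := Q A B' C D E F p q r with hg
  have hmpos : 0 < m := hpos _ _ _ h1ne
  have hgpos : 0 < g := adj_pos _ _ _ hpqr
  -- first inequality 3 g^2 ≤ 4 m
  have ineq1 : 3 * g ^ 2 ≤ 4 * m := by
    set u := y1 * t3 - z1 * t2 with hu
    set v := z1 * t1 - x1 * t3 with hv
    set w := x1 * t2 - y1 * t1 with hw
    obtain ⟨k, hk⟩ := exists_shift (B A B' C D E F p q r u v w) g hgpos
    -- the shifted vector
    have hB : B A B' C D E F p q r (u + k * p) (v + k * q) (w + k * r)
        = B A B' C D E F p q r u v w + k * g := by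
      simp only [B, hg, Q]; ring
    have hdot2 : (u + k * p) * x1 + (v + k * q) * y1 + (w + k * r) * z1 = 0 := by
      have : (u + k * p) * x1 + (v + k * q) * y1 + (w + k * r) * z1
          = k * (p * x1 + q * y1 + r * z1) := by simp only [hu, hv, hw]; ring
      rw [this, hdot]; ring
    -- cross product (p,q,r) × (u,v,w) = (x1,y1,z1)
    have cr1 : q * (w + k * r) - r * (v + k * q) = x1 := by
      have : q * (w + k * r) - r * (v + k * q) = x1 * (t1 * p + t2 * q + t3 * r)
          - t1 * (p * x1 + q * y1 + r * z1) := by simp only [hv, hw]; ring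
      rw [this, ht, hdot]; ring
    have cr2 : r * (u + k * p) - p * (w + k * r) = y1 := by
      have : r * (u + k * p) - p * (w + k * r) = y1 * (t1 * p + t2 * q + t3 * r)
          - t2 * (p * x1 + q * y1 + r * z1) := by simp only [hu, hw]; ring
      rw [this, ht, hdot]; ring
    have cr3 : p * (v + k * q) - q * (u + k * p) = z1 := by
      have : p * (v + k * q) - q * (u + k * p) = z1 * (t1 * p + t2 * q + t3 * r)
          - t3 * (p * x1 + q * y1 + r * z1) := by simp only [hu, hv]; ring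
      rw [this, ht, hdot]; ring
    have hne2 : ¬ (u + k * p = 0 ∧ v + k * q = 0 ∧ w + k * r = 0) := by
      rintro ⟨h1, h2, h3⟩
      rw [h2, h3] at cr1; rw [h1, h3] at cr2; rw [h1, h2] at cr3
      exact h1ne ⟨by linarith, by linarith, by linarith⟩
    have hge := hpmin _ _ _ ⟨hne2, hdot2⟩
    have gram : g * Q A B' C D E F (u + k * p) (v + k * q) (w + k * r)
        - (B A B' C D E F p q r (u + k * p) (v + k * q) (w + k * r)) ^ 2
        = det3 a b c d e f * Q a b c d e f (q * (w + k * r) - r * (v + k * q))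
          (r * (u + k * p) - p * (w + k * r)) (p * (v + k * q) - q * (u + k * p)) := by
      simp only [hg, Q, B, det3, hA, hB', hC, hD, hE, hF]; ring
    rw [cr1, cr2, cr3, hdet, ← hm, hB, one_mul] at gram
    have h5 : g * g ≤ g * Q A B' C D E F (u + k * p) (v + k * q) (w + k * r) :=
      mul_le_mul_of_nonneg_left hge hgpos.le
    nlinarith
  -- second inequality 3 m^2 ≤ 4 g
  have ineq2 : 3 * m ^ 2 ≤ 4 * g := by
    -- t = c × s so that v1 × t = c
    set u := q * s3 - r * s2 with hu
    set v := r * s1 - p * s3 with hv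
    set w := p * s2 - q * s1 with hw
    obtain ⟨k, hk⟩ := exists_shift (B a b c d e f x1 y1 z1 u v w) m hmpos
    have hB : B a b c d e f x1 y1 z1 (u + k * x1) (v + k * y1) (w + k * z1)
        = B a b c d e f x1 y1 z1 u v w + k * m := by
      simp only [B, hm, Q]; ring
    have cr1 : y1 * (w + k * z1) - z1 * (v + k * y1) = p := by
      have : y1 * (w + k * z1) - z1 * (v + k * y1) = p * (s1 * x1 + s2 * y1 + s3 * z1)
          - s1 * (p * x1 + q * y1 + r * z1) := by simp only [hv, hw]; ring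
      rw [this, hs, hdot]; ring
    have cr2 : z1 * (u + k * x1) - x1 * (w + k * z1) = q := by
      have : z1 * (u + k * x1) - x1 * (w + k * z1) = q * (s1 * x1 + s2 * y1 + s3 * z1)
          - s2 * (p * x1 + q * y1 + r * z1) := by simp only [hu, hw]; ring
      rw [this, hs, hdot]; ring
    have cr3 : x1 * (v + k * y1) - y1 * (u + k * x1) = r := by
      have : x1 * (v + k * y1) - y1 * (u + k * x1) = r * (s1 * x1 + s2 * y1 + s3 * z1)
          - s3 * (p * x1 + q * y1 + r * z1) := by simp only [hu, hv]; ring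
      rw [this, hs, hdot]; ring
    have hne2 : ¬ (u + k * x1 = 0 ∧ v + k * y1 = 0 ∧ w + k * z1 = 0) := by
      rintro ⟨h1, h2, h3⟩
      rw [h2, h3] at cr1; rw [h1, h3] at cr2; rw [h1, h2] at cr3
      exact hpqr ⟨by linarith, by linarith, by linarith⟩
    have hge := h1min _ _ _ hne2
    have gram : m * Q a b c d e f (u + k * x1) (v + k * y1) (w + k * z1)
        - (B a b c d e f x1 y1 z1 (u + k * x1) (v + k * y1) (w + k * z1)) ^ 2
        = Q A B' C D E F (y1 * (w + k * z1) - z1 * (v + k * y1))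
          (z1 * (u + k * x1) - x1 * (w + k * z1)) (x1 * (v + k * y1) - y1 * (u + k * x1)) := by
      simp only [hm, Q, B, hA, hB', hC, hD, hE, hF]; ring
    rw [cr1, cr2, cr3, ← hg, hB] at gram
    have h5 : m * m ≤ m * Q a b c d e f (u + k * x1) (v + k * y1) (w + k * z1) :=
      mul_le_mul_of_nonneg_left hge hmpos.le
    nlinarith
  -- conclude
  by_contra hm1
  have hm2 : 2 ≤ m := by omega
  have h9 : 9 * m ^ 4 ≤ 16 * g ^ 2 := by
    have h10 : 0 ≤ 3 * m ^ 2 := by positivity
    nlinarith [mul_le_mul ineq2 ineq2 h10 (by positivity)]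
  have h11 : 27 * m ^ 4 ≤ 64 * m := by nlinarith
  have h12 : 8 ≤ m ^ 3 := by
    calc (8 : ℤ) = 2 ^ 3 := by norm_num
      _ ≤ m ^ 3 := pow_le_pow_left₀ (by norm_num) hm2 3
  nlinarith

end

/-- a positive integer `N` such that `-1` is a square modulo `N` is a sum of two squares -/
lemma two_squares_of_dvd {N r s : ℤ} (hN : 0 < N) (h : N * s - r ^ 2 = 1) :
    ∃ x y : ℤ, N = x ^ 2 + y ^ 2 := by
  have hsq : IsSquare (-1 : ZMod N.toNat) := by
    refine ⟨(r : ZMod N.toNat), ?_⟩
    have h1 : ((N * s - r ^ 2 : ℤ) : ZMod N.toNat) = ((1 : ℤ) : ZMod N.toNat) := by rw [h]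
    push_cast at h1
    have h2 : ((N : ℤ) : ZMod N.toNat) = 0 := by
      rw [ZMod.intCast_zmod_eq_zero_iff_dvd, Int.toNat_of_nonneg hN.le]
    rw [h2] at h1
    linear_combination h1
  obtain ⟨x, y, hxy⟩ := Nat.eq_sq_add_sq_of_isSquare_mod_neg_one hsq
  refine ⟨x, y, ?_⟩
  have h3 : (N : ℤ) = ((N.toNat : ℕ) : ℤ) := (Int.toNat_of_nonneg hN.le).symm
  rw [h3, hxy]; push_cast; ring

section
variable {a b c d e f : ℤ}

/-- positive definite integral ternary forms of determinant one represent only sums of three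
squares -/
theorem value_three_squares (ha : 0 < a) (hab : 0 < a * b - d ^ 2)
    (hdet : det3 a b c d e f = 1) (X Y Z : ℤ) :
    ∃ p q r : ℤ, Q a b c d e f X Y Z = p ^ 2 + q ^ 2 + r ^ 2 := by
  have hpos : ∀ x y z : ℤ, ¬ (x = 0 ∧ y = 0 ∧ z = 0) → 0 < Q a b c d e f x y z :=
    fun x y z h => Q_pos ha hab (by rw [hdet]; norm_num) h
  obtain ⟨x1, y1, z1, h1⟩ := exists_one ha hab hdet
  set k := B a b c d e f X Y Z x1 y1 z1 with hk
  set u := X - k * x1 with hu
  set v := Y - k * y1 with hv
  set w := Z - k * z1 with hw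
  have horth : B a b c d e f u v w x1 y1 z1 = 0 := by
    have : B a b c d e f u v w x1 y1 z1 = k - k * Q a b c d e f x1 y1 z1 := by
      simp only [hk, hu, hv, hw, B, Q]; ring
    rw [this, h1]; ring
  have hsplit : Q a b c d e f X Y Z = k ^ 2 + Q a b c d e f u v w := by
    have : Q a b c d e f X Y Z = Q a b c d e f u v w
        + 2 * k * B a b c d e f u v w x1 y1 z1 + k ^ 2 * Q a b c d e f x1 y1 z1 := by
      simp only [hu, hv, hw, B, Q]; ring
    rw [this, horth, h1]; ring
  by_cases hz : u = 0 ∧ v = 0 ∧ w = 0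
  · refine ⟨k, 0, 0, ?_⟩
    rw [hsplit, hz.1, hz.2.1, hz.2.2]
    simp only [Q]; ring
  · obtain ⟨g, u', v', w', hg, hu', hv', hw', s, t, r, hstr⟩ := exists_prim hz
    have hne' : ¬ (u' = 0 ∧ v' = 0 ∧ w' = 0) := by
      rintro ⟨h1, h2, h3⟩
      rw [h1, h2, h3] at hstr; simp at hstr
    have horth' : B a b c d e f u' v' w' x1 y1 z1 = 0 := by
      have : g * B a b c d e f u' v' w' x1 y1 z1 = 0 := by
        rw [← horth, hu', hv', hw']; simp only [B]; ring
      rcases mul_eq_zero.mp this with h0 | h0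
      · omega
      · exact h0
    -- A v1
    set A1 := a * x1 + d * y1 + e * z1 with hA1
    set A2 := d * x1 + b * y1 + f * z1 with hA2
    set A3 := e * x1 + f * y1 + c * z1 with hA3
    -- t = A v1 × s
    set t1 := A2 * r - A3 * t with ht1
    set t2 := A3 * s - A1 * r with ht2
    set t3 := A1 * t - A2 * s with ht3
    -- c = v1 × w0
    set c1 := y1 * w' - z1 * v' with hc1
    set c2 := z1 * u' - x1 * w' with hc2
    set c3 := x1 * v' - y1 * u' with hc3
    have hct : c1 * t1 + c2 * t2 + c3 * t3 = 1 := by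
      have : c1 * t1 + c2 * t2 + c3 * t3 = (s * u' + t * v' + r * w') * Q a b c d e f x1 y1 z1
          - (s * x1 + t * y1 + r * z1) * B a b c d e f u' v' w' x1 y1 z1 := by
        simp only [hc1, hc2, hc3, ht1, ht2, ht3, hA1, hA2, hA3, Q, B]; ring
      rw [this, h1, horth', hstr]; ring
    set l := B a b c d e f t1 t2 t3 x1 y1 z1 with hl
    have key : Q a b c d e f u' v' w' * Q a b c d e f (t1 - l * x1) (t2 - l * y1) (t3 - l * z1)
        - (B a b c d e f u' v' w' (t1 - l * x1) (t2 - l * y1) (t3 - l * z1)) ^ 2 = 1 := by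
      have e1 : B a b c d e f u' v' w' (t1 - l * x1) (t2 - l * y1) (t3 - l * z1)
          = B a b c d e f u' v' w' t1 t2 t3 := by
        have : B a b c d e f u' v' w' (t1 - l * x1) (t2 - l * y1) (t3 - l * z1)
          = B a b c d e f u' v' w' t1 t2 t3 - l * B a b c d e f u' v' w' x1 y1 z1 := by
          simp only [B]; ring
        rw [this, horth']; ring
      have e2 : Q a b c d e f (t1 - l * x1) (t2 - l * y1) (t3 - l * z1)
          = Q a b c d e f t1 t2 t3 - l ^ 2 := by
        have : Q a b c d e f (t1 - l * x1) (t2 - l * y1) (t3 - l * z1)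
          = Q a b c d e f t1 t2 t3 - 2 * l * B a b c d e f t1 t2 t3 x1 y1 z1
            + l ^ 2 * Q a b c d e f x1 y1 z1 := by
          simp only [B, Q]; ring
        rw [this, h1, ← hl]; ring
      rw [e1, e2]
      -- Gram determinant of v1, w0, t
      have gram : Q a b c d e f x1 y1 z1 * (Q a b c d e f u' v' w' * Q a b c d e f t1 t2 t3
            - B a b c d e f u' v' w' t1 t2 t3 ^ 2)
          - B a b c d e f u' v' w' x1 y1 z1 * (B a b c d e f u' v' w' x1 y1 z1
              * Q a b c d e f t1 t2 t3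
              - B a b c d e f u' v' w' t1 t2 t3 * B a b c d e f t1 t2 t3 x1 y1 z1)
          + B a b c d e f t1 t2 t3 x1 y1 z1 * (B a b c d e f u' v' w' x1 y1 z1
              * B a b c d e f u' v' w' t1 t2 t3
              - Q a b c d e f u' v' w' * B a b c d e f t1 t2 t3 x1 y1 z1)
          = det3 a b c d e f * (c1 * t1 + c2 * t2 + c3 * t3) ^ 2 := by
        clear_value t1 t2 t3
        simp only [hc1, hc2, hc3, Q, B, det3]; ring
      rw [h1, horth', hct, hdet, ← hl] at gram
      linarith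
    obtain ⟨x, y, hxy⟩ := two_squares_of_dvd (hpos u' v' w' hne') key
    refine ⟨k, g * x, g * y, ?_⟩
    have : Q a b c d e f u v w = g ^ 2 * Q a b c d e f u' v' w' := by
      rw [hu', hv', hw']; simp only [Q]; ring
    rw [hsplit, this, hxy]; ring

end

/-- If `-d'` is a square modulo `d' n - 1` then `n` is a sum of three squares. -/
theorem three_squares_of_sq {n d' r k : ℤ} (hd : 0 < d') (hp : 0 < d' * n - 1)
    (h : r ^ 2 + d' = k * (d' * n - 1)) : ∃ x y z : ℤ, n = x ^ 2 + y ^ 2 + z ^ 2 := by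
  have hk : 0 < k := by
    by_contra hk
    have := mul_nonpos_of_nonpos_of_nonneg (not_lt.mp hk) hp.le
    nlinarith [sq_nonneg r]
  have hdet : det3 k (d' * n - 1) n r 1 0 = 1 := by
    simp only [det3]
    linear_combination (-n) * h
  have hab : 0 < k * (d' * n - 1) - r ^ 2 := by rw [← h]; linarith
  obtain ⟨x, y, z, hxyz⟩ := value_three_squares hk hab hdet 0 0 1
  refine ⟨x, y, z, ?_⟩
  rw [← hxyz]; simp [Q]

open scoped NumberTheorySymbols in
/-- Every positive integer `n ≡ 2 (mod 4)` is a sum of three squares. -/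
theorem three_squares_two_mod_four (n : ℕ) (hn : n % 4 = 2) :
    ∃ x y z : ℤ, (n : ℤ) = x ^ 2 + y ^ 2 + z ^ 2 := by
  have hn2 : 2 ≤ n := by omega
  have hcop : (n - 1).Coprime (4 * n) := by
    have h1 : (n - 1).Coprime n := by
      have := Nat.coprime_self_sub_left (n := n) (m := 1) (by omega)
      simpa using this
    have h2 : (n - 1).Coprime 4 := by
      have : Odd (n - 1) := by rw [Nat.odd_iff]; omega
      have h3 : (n - 1).Coprime 2 := Nat.Coprime.symm (Nat.coprime_two_left.mpr this)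
      simpa using Nat.Coprime.pow_right 2 h3
    exact Nat.Coprime.mul_right h2 h1
  obtain ⟨p, hpgt, hpp, hpmod⟩ :=
    Nat.forall_exists_prime_gt_and_modEq (4 * n) (q := 4 * n) (by omega) hcop
  -- p = 4 n j + (n - 1)
  obtain ⟨j, hj⟩ : ∃ j, p = 4 * n * j + (n - 1) := by
    have h1 : p % (4 * n) = (n - 1) % (4 * n) := hpmod
    rw [Nat.mod_eq_of_lt (show n - 1 < 4 * n by omega)] at h1
    exact ⟨p / (4 * n), by rw [← h1]; exact (Nat.div_add_mod p (4 * n)).symm⟩
  set d' := 4 * j + 1 with hd'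
  have hpd : (p : ℤ) = d' * n - 1 := by
    rw [hj, hd']; push_cast [Nat.cast_sub (show 1 ≤ n by omega)]; ring
  have : Fact p.Prime := ⟨hpp⟩
  have hp4 : p % 4 = 1 := by
    have h4 : 4 * n * j = 4 * (n * j) := by ring
    rw [hj, h4]; omega
  have hsym : J(-(d' : ℤ) | p) = 1 := by
    have hpodd : Odd p := by rw [Nat.odd_iff]; omega
    have hdodd : Odd d' := by rw [Nat.odd_iff]; omega
    have e1 : J(-(d' : ℤ) | p) = J(-1 | p) * J((d' : ℤ) | p) := by
      rw [← jacobiSym.mul_left]; simp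
    have e2 : J(-1 | p) = 1 := by
      rw [jacobiSym.at_neg_one hpodd, ZMod.χ₄_nat_one_mod_four hp4]
    have e3 : J((d' : ℤ) | p) = J((p : ℤ) | d') :=
      jacobiSym.quadratic_reciprocity_one_mod_four (by omega) hpodd
    have e4 : J((p : ℤ) | d') = J(-1 | d') := by
      rw [hpd]
      apply jacobiSym.mod_left' 
      have : (d' * n - 1 : ℤ) = -1 + d' * n := by ring
      rw [this, Int.add_mul_emod_self_left]
    have e5 : J(-1 | d') = 1 := by
      rw [jacobiSym.at_neg_one hdodd, ZMod.χ₄_nat_one_mod_four (by omega)]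
    rw [e1, e2, e3, e4, e5]; norm_num
  have hsq : IsSquare ((-(d' : ℤ) : ℤ) : ZMod p) := by
    rw [← jacobiSym.legendreSym.to_jacobiSym] at hsym
    by_contra hcon
    rw [← legendreSym.eq_neg_one_iff p] at hcon
    rw [hcon] at hsym
    norm_num at hsym
  obtain ⟨r0, hr0⟩ := hsq
  -- lift to an integer
  have hlift : ∃ r : ℤ, (r : ZMod p) = r0 := ⟨r0.val, by simp⟩
  obtain ⟨r, hr⟩ := hlift
  have hdvd : (p : ℤ) ∣ r ^ 2 + d' := by
    rw [← ZMod.intCast_zmod_eq_zero_iff_dvd]
    push_cast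
    rw [hr]
    push_cast at hr0
    linear_combination (-1 : ZMod p) * hr0
  obtain ⟨k, hk⟩ := hdvd
  refine three_squares_of_sq (n := n) (d' := d') (r := r) (k := k) (by omega) ?_ ?_
  · rw [← hpd]; exact_mod_cast hpp.pos
  · rw [← hpd, hk]; ring

end Pool.Agent.Lib.H63.ThreeSquares
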