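import Mathlib
import Pool.Agent.Lib.H63.ThreeSquares

/-!
# Triangular + square + pentagonal: the lattice points `X m` and the rotation `F`

For `m = 6 n + 1` the representations `n = T_i + S_j + P_k` with `k : ℤ` correspond to integer
vectors `v = (e, p, q)` with `e² + p² + q² = 2 m`, `e` even and residues `(r, r+1, r-1)` modulo 3.
-/

set_option autoImplicit false

namespace Pool.Agent.Lib.H63.TSP

/-- `n` is a triangular number plus a square plus a pentagonal number (all indices `≥ 0`). -/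
def Rep (n : ℕ) : Prop := ∃ i j k : ℕ, n = i * (i + 1) / 2 + j ^ 2 + k * (3 * k - 1) / 2

/-- integer vectors -/
@[ext] structure V where
  e : ℤ
  p : ℤ
  q : ℤ
deriving DecidableEq

/-- the lattice points -/
def X (m : ℤ) (v : V) : Prop :=
  v.e ^ 2 + v.p ^ 2 + v.q ^ 2 = 2 * m ∧ v.e % 2 = 0 ∧ (v.p - v.e) % 3 = 1 ∧ (v.q - v.e) % 3 = 2

/-- all vectors of `X m` are bad: this is what happens when `n` is not representable -/
def Bad (m : ℤ) : Prop := ∀ v : V, X m v → 1 < v.p - v.e ∧ 1 < v.e - v.q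

/-- the involution `σ` -/
def sg (v : V) : V := ⟨-v.e, -v.q, -v.p⟩

lemma X_sg {m : ℤ} {v : V} (h : X m v) : X m (sg v) := by
  obtain ⟨h1, h2, h3, h4⟩ := h
  refine ⟨?_, ?_, ?_, ?_⟩ <;> simp only [sg]
  · linarith [h1]
  · omega
  · omega
  · omega

lemma odd_pq {m : ℤ} {v : V} (hm : m % 2 = 1) (h : X m v) : v.p % 2 = 1 ∧ v.q % 2 = 1 := by
  obtain ⟨h1, h2, -, -⟩ := h
  obtain ⟨a, ha⟩ : ∃ a, v.e = 2 * a := ⟨v.e / 2, by omega⟩
  obtain ⟨b, hb⟩ : ∃ b, m = 2 * b + 1 := ⟨m / 2, by omega⟩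
  rw [ha, hb] at h1
  rcases Int.emod_two_eq_zero_or_one v.p with hp | hp <;>
    rcases Int.emod_two_eq_zero_or_one v.q with hq | hq
  · exfalso
    obtain ⟨c, hc⟩ : ∃ c, v.p = 2 * c := ⟨v.p / 2, by omega⟩
    obtain ⟨d, hd⟩ : ∃ d, v.q = 2 * d := ⟨v.q / 2, by omega⟩
    rw [hc, hd] at h1
    ring_nf at h1; omega
  · exfalso
    obtain ⟨c, hc⟩ : ∃ c, v.p = 2 * c := ⟨v.p / 2, by omega⟩
    obtain ⟨d, hd⟩ : ∃ d, v.q = 2 * d + 1 := ⟨v.q / 2, by omega⟩
    rw [hc, hd] at h1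
    ring_nf at h1; omega
  · exfalso
    obtain ⟨c, hc⟩ : ∃ c, v.p = 2 * c + 1 := ⟨v.p / 2, by omega⟩
    obtain ⟨d, hd⟩ : ∃ d, v.q = 2 * d := ⟨v.q / 2, by omega⟩
    rw [hc, hd] at h1
    ring_nf at h1; omega
  · exact ⟨hp, hq⟩

/-- A vector with `p - e ≤ 1` gives a representation. -/
lemma rep_of_good {n : ℕ} {v : V} (h : X (6 * n + 1) v) (hg : v.p - v.e ≤ 1) : Rep n := by
  have hodd := odd_pq (by omega) h
  obtain ⟨h1, h2, h3, h4⟩ := h
  -- k
  obtain ⟨k, hk⟩ : ∃ k : ℤ, v.p - v.e = 1 - 6 * k := ⟨(1 - (v.p - v.e)) / 6, by omega⟩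
  have hk0 : 0 ≤ k := by omega
  obtain ⟨s, hs⟩ : ∃ s : ℤ, v.e + v.p + v.q = 6 * s := ⟨(v.e + v.p + v.q) / 6, by omega⟩
  -- i : |2 s - q| = 2 i + 1
  obtain ⟨i, hi⟩ : ∃ i : ℕ, (2 * s - v.q) ^ 2 = (2 * (i : ℤ) + 1) ^ 2 := by
    have hoddx : (2 * s - v.q) % 2 = 1 := by omega
    refine ⟨((2 * s - v.q).natAbs - 1) / 2, ?_⟩
    have h5 : 2 * (((2 * s - v.q).natAbs - 1) / 2) + 1 = (2 * s - v.q).natAbs := by omega
    have h6 : (2 * ((((2 * s - v.q).natAbs - 1) / 2 : ℕ) : ℤ) + 1) = ((2 * s - v.q).natAbs : ℤ) := by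
      exact_mod_cast h5
    rw [h6, Int.natAbs_sq]
  obtain ⟨k', rfl⟩ := Int.eq_ofNat_of_zero_le hk0
  refine ⟨i, s.natAbs, k', ?_⟩
  have hmain : (2 * (n : ℤ)) = i * (i + 1) + 2 * s ^ 2 + k' * (3 * k' - 1) := by
    have e1 : v.p = v.e + 1 - 6 * k' := by push_cast at hk; linarith
    have e2 : v.q = 6 * s - 2 * v.e - 1 + 6 * k' := by linarith
    rw [e2] at hi
    rw [e1, e2] at h1

    nlinarith
  have ht1 : 2 * (i * (i + 1) / 2) = i * (i + 1) := Nat.two_mul_div_two_of_even (Nat.even_mul_succ_self i)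
  have ht2 : 2 * (k' * (3 * k' - 1) / 2) = k' * (3 * k' - 1) := by
    apply Nat.two_mul_div_two_of_even
    rcases Nat.even_or_odd k' with h | h
    · exact h.mul_right _
    · apply Even.mul_left
      rw [Nat.odd_iff] at h; rw [Nat.even_iff]; omega
  have ht3 : ((k' * (3 * k' - 1) : ℕ) : ℤ) = k' * (3 * k' - 1) := by
    rcases Nat.eq_zero_or_pos k' with h | h
    · subst h; simp
    · push_cast [Nat.cast_sub (show 1 ≤ 3 * k' by omega)]; ring
  have ht4 : ((s.natAbs ^ 2 : ℕ) : ℤ) = s ^ 2 := by push_cast; exact sq_abs s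
  have hfin : 2 * n = 2 * (i * (i + 1) / 2 + s.natAbs ^ 2 + k' * (3 * k' - 1) / 2) := by
    have : 2 * (i * (i + 1) / 2 + s.natAbs ^ 2 + k' * (3 * k' - 1) / 2)
        = i * (i + 1) + 2 * s.natAbs ^ 2 + k' * (3 * k' - 1) := by
      rw [Nat.mul_add, Nat.mul_add, ht1, ht2]
    rw [this]
    zify
    rw [hmain]
    have ht3' := ht3
    push_cast at ht3' ht4 ⊢
    rw [sq_abs]
    rcases Nat.eq_zero_or_pos k' with h | h
    · subst h; simp
    · push_cast [Nat.cast_sub (show 1 ≤ 3 * k' by omega)]; ring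
  omega

lemma bad_of_not_rep {n : ℕ} (h : ¬ Rep n) : Bad (6 * n + 1) := by
  intro v hv
  constructor
  · by_contra hc
    exact h (rep_of_good hv (by omega))
  · by_contra hc
    refine h (rep_of_good (X_sg hv) ?_)
    simp only [sg]; omega

/-- `X m` is non-empty for every positive `m ≡ 1 (mod 6)`. -/
lemma X_of_sum {m x y z : ℤ} (hm : m % 6 = 1) (hx : x % 2 = 0)
    (h : x ^ 2 + y ^ 2 + z ^ 2 = 2 * m) :
    ∃ v : V, X m v ∧ v.e ^ 2 = x ^ 2 ∧ v.p ^ 2 = y ^ 2 ∧ v.q ^ 2 = z ^ 2 := by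
  -- exactly one of x, y, z is divisible by 3
  have key : ∀ t : ℤ, t ^ 2 % 3 = if t % 3 = 0 then 0 else 1 := by
    intro t
    have : t % 3 = 0 ∨ t % 3 = 1 ∨ t % 3 = 2 := by omega
    rcases this with h | h | h <;> simp [pow_two, Int.mul_emod, h]
  have kx := key x
  have ky := key y
  have kz := key z
  have hsum : (x ^ 2 + y ^ 2 + z ^ 2) % 3 = 2 := by rw [h]; omega
  have hneg : ∀ t : ℤ, t % 3 ≠ 0 → (∃ s : ℤ, s ^ 2 = t ^ 2 ∧ s % 3 = 1 ∧ (t % 2 = 0 → s % 2 = 0)) ∧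
      (∃ s : ℤ, s ^ 2 = t ^ 2 ∧ s % 3 = 2 ∧ (t % 2 = 0 → s % 2 = 0)) := by
    intro t ht
    have : t % 3 = 1 ∨ t % 3 = 2 := by omega
    rcases this with h | h
    · exact ⟨⟨t, rfl, h, fun h => h⟩, ⟨-t, by ring, by omega, fun h => by omega⟩⟩
    · exact ⟨⟨-t, by ring, by omega, fun h => by omega⟩, ⟨t, rfl, h, fun h => h⟩⟩
  by_cases h3x : x % 3 = 0
  · rw [if_pos h3x] at kx
    have h3y : y % 3 ≠ 0 := by intro h0; rw [if_pos h0] at ky; split_ifs at kz <;> omega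
    have h3z : z % 3 ≠ 0 := by intro h0; rw [if_pos h0] at kz; split_ifs at ky <;> omega
    obtain ⟨s, hs, hs3, -⟩ := (hneg y h3y).1
    obtain ⟨t, ht, ht3, -⟩ := (hneg z h3z).2
    exact ⟨⟨x, s, t⟩, ⟨by simp only; rw [hs, ht]; exact h, hx, by simp only; omega,
      by simp only; omega⟩, rfl, hs, ht⟩
  · rw [if_neg h3x] at kx
    by_cases h3y : y % 3 = 0
    · rw [if_pos h3y] at ky
      have h3z : z % 3 ≠ 0 := by intro h0; rw [if_pos h0] at kz; omega
      obtain ⟨s, hs, hs3, hs2⟩ := (hneg x h3x).2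
      obtain ⟨t, ht, ht3, -⟩ := (hneg z h3z).1
      exact ⟨⟨s, y, t⟩, ⟨by simp only; rw [hs, ht]; exact h, hs2 hx, by simp only; omega,
        by simp only; omega⟩, hs, rfl, ht⟩
    · rw [if_neg h3y] at ky
      have h3z : z % 3 = 0 := by
        by_contra h0; rw [if_neg h0] at kz; omega
      obtain ⟨s, hs, hs3, hs2⟩ := (hneg x h3x).1
      obtain ⟨t, ht, ht3, -⟩ := (hneg y h3y).2
      exact ⟨⟨s, t, z⟩, ⟨by simp only; rw [hs, ht]; exact h, hs2 hx, by simp only; omega,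
        by simp only; omega⟩, hs, ht, rfl⟩

/-- sums of three squares equal to `2 m` have an even member -/
lemma exists_even {m x y z : ℤ} (h : x ^ 2 + y ^ 2 + z ^ 2 = 2 * m) :
    x % 2 = 0 ∨ y % 2 = 0 ∨ z % 2 = 0 := by
  by_contra hc
  push Not at hc
  obtain ⟨hx, hy, hz⟩ := hc
  obtain ⟨a, ha⟩ : ∃ a, x = 2 * a + 1 := ⟨x / 2, by omega⟩
  obtain ⟨b, hb⟩ : ∃ b, y = 2 * b + 1 := ⟨y / 2, by omega⟩
  obtain ⟨c, hc⟩ : ∃ c, z = 2 * c + 1 := ⟨z / 2, by omega⟩
  rw [ha, hb, hc] at h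
  ring_nf at h; omega

theorem X_nonempty (n : ℕ) : ∃ v : V, X (6 * n + 1) v := by
  obtain ⟨x, y, z, h⟩ := ThreeSquares.three_squares_two_mod_four (12 * n + 2) (by omega)
  have h' : x ^ 2 + y ^ 2 + z ^ 2 = 2 * (6 * n + 1 : ℤ) := by rw [← h]; push_cast; ring
  rcases exists_even h' with hx | hy | hz
  · obtain ⟨v, hv, -⟩ := X_of_sum (by omega) hx h'
    exact ⟨v, hv⟩
  · obtain ⟨v, hv, -⟩ := X_of_sum (m := 6 * n + 1) (x := y) (y := x) (z := z) (by omega) hy
      (by linarith)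
    exact ⟨v, hv⟩
  · obtain ⟨v, hv, -⟩ := X_of_sum (m := 6 * n + 1) (x := z) (y := x) (z := y) (by omega) hz
      (by linarith)
    exact ⟨v, hv⟩

/-! ### the rotation -/

/-- letters -/
inductive J where
  | E | P | Q
deriving DecidableEq

/-- flip the sign of a coordinate -/
def flip : J → V → V
  | .E, v => ⟨-v.e, v.p, v.q⟩
  | .P, v => ⟨v.e, -v.p, v.q⟩
  | .Q, v => ⟨v.e, v.p, -v.q⟩

/-- coordinate -/
def co : J → V → ℤ
  | .E, v => v.e
  | .P, v => v.p
  | .Q, v => v.q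

/-- the reflection in `(1,1,1)` -/
def A (v : V) : V :=
  ⟨v.e - 2 * ((v.e + v.p + v.q) / 3), v.p - 2 * ((v.e + v.p + v.q) / 3),
    v.q - 2 * ((v.e + v.p + v.q) / 3)⟩

/-- the letter of a vector: the coordinate divisible by three -/
def letter (v : V) : J := if v.e % 3 = 0 then .E else if v.p % 3 = 0 then .P else .Q

/-- the rotation `F` -/
def F (v : V) : V := A (flip (letter v) v)

lemma X_flip {m : ℤ} {v : V} (h : X m v) (j : J) (hj : co j v % 3 = 0) : X m (flip j v) := by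
  obtain ⟨h1, h2, h3, h4⟩ := h
  cases j <;> simp only [co] at hj <;> refine ⟨?_, ?_, ?_, ?_⟩ <;> simp only [flip] <;>
    first | omega | linarith

lemma co_letter {m : ℤ} {v : V} (h : X m v) : co (letter v) v % 3 = 0 := by
  obtain ⟨-, -, h3, h4⟩ := h
  unfold letter
  split_ifs with h5 h6
  · exact h5
  · exact h6
  · simp only [co]; omega

lemma letter_eq {m : ℤ} {v : V} (h : X m v) (j : J) (hj : co j v % 3 = 0) : letter v = j := by
  obtain ⟨-, -, h3, h4⟩ := h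
  cases j <;> simp only [co] at hj <;> unfold letter
  · rw [if_pos hj]
  · rw [if_neg (by omega), if_pos hj]
  · rw [if_neg (by omega), if_neg (by omega)]

lemma letter_iff {m : ℤ} {v : V} (h : X m v) (j : J) : letter v = j ↔ co j v % 3 = 0 :=
  ⟨fun h' => h' ▸ co_letter h, letter_eq h j⟩

lemma X_sum {m : ℤ} {v : V} (h : X m v) : (v.e + v.p + v.q) % 3 = 0 := by
  obtain ⟨-, -, h3, h4⟩ := h; omega

lemma X_A {m : ℤ} {v : V} (h : X m v) : X m (A v) := by
  have hs := X_sum h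
  obtain ⟨h1, h2, h3, h4⟩ := h
  refine ⟨?_, ?_, ?_, ?_⟩ <;> simp only [A]
  · obtain ⟨s, hs'⟩ : ∃ s, v.e + v.p + v.q = 3 * s := ⟨(v.e + v.p + v.q) / 3, by omega⟩
    have h5 : (v.e + v.p + v.q) / 3 = s := by omega
    rw [h5]
    have : (v.e - 2 * s) ^ 2 + (v.p - 2 * s) ^ 2 + (v.q - 2 * s) ^ 2
        = v.e ^ 2 + v.p ^ 2 + v.q ^ 2 - 4 * s * (v.e + v.p + v.q) + 12 * s ^ 2 := by ring
    rw [this, hs', h1]; ring
  · omega
  · omega
  · omega

lemma A_A {m : ℤ} {v : V} (h : X m v) : A (A v) = v := by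
  have hs := X_sum h
  ext <;> simp only [A] <;> omega

lemma X_F {m : ℤ} {v : V} (h : X m v) : X m (F v) := X_A (X_flip h _ (co_letter h))

lemma flip_flip (j : J) (v : V) : flip j (flip j v) = v := by
  cases j <;> simp [flip]

lemma co_flip (j : J) (v : V) : co j (flip j v) = - co j v := by
  cases j <;> simp [flip, co]

lemma letter_flip {m : ℤ} {v : V} (h : X m v) : letter (flip (letter v) v) = letter v := by
  apply letter_eq (X_flip h _ (co_letter h))
  rw [co_flip]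
  have := co_letter h
  omega

/-- the inverse of `F` -/
def Finv (v : V) : V := flip (letter (A v)) (A v)

lemma X_Finv {m : ℤ} {v : V} (h : X m v) : X m (Finv v) := X_flip (X_A h) _ (co_letter (X_A h))

lemma F_Finv {m : ℤ} {v : V} (h : X m v) : F (Finv v) = v := by
  have h1 := X_A h
  unfold F Finv
  rw [letter_flip h1, flip_flip, A_A h]

lemma letter_Finv {m : ℤ} {v : V} (h : X m v) : letter (Finv v) = letter (A v) := by
  unfold Finv; exact letter_flip (X_A h)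

lemma Finv_F {m : ℤ} {v : V} (h : X m v) : Finv (F v) = v := by
  have h1 := X_flip h _ (co_letter h)
  unfold Finv F
  rw [A_A h1, letter_flip h, flip_flip]

/-- action of `σ` on letters -/
def sgJ : J → J
  | .E => .E
  | .P => .Q
  | .Q => .P

lemma co_sg (j : J) (v : V) : co (sgJ j) (sg v) = - co j v := by
  cases j <;> simp [sgJ, sg, co]

lemma letter_sg {m : ℤ} {v : V} (h : X m v) : letter (sg v) = sgJ (letter v) := by
  apply letter_eq (X_sg h)
  rw [co_sg]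
  have := co_letter h
  omega

lemma flip_sg (j : J) (v : V) : flip (sgJ j) (sg v) = sg (flip j v) := by
  cases j <;> simp [sgJ, sg, flip]

lemma A_sg {m : ℤ} {v : V} (h : X m v) : A (sg v) = sg (A v) := by
  have hs := X_sum h
  ext <;> simp only [A, sg] <;> omega

lemma F_sg {m : ℤ} {v : V} (h : X m v) : F (sg v) = sg (F v) := by
  unfold F
  rw [letter_sg h, flip_sg, A_sg (X_flip h _ (co_letter h))]

lemma sg_sg (v : V) : sg (sg v) = v := by ext <;> simp [sg]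

/-- the first `k` letters of the itinerary -/
def word : ℕ → V → List J
  | 0, _ => []
  | k + 1, v => letter v :: word k (F v)

lemma word_length (k : ℕ) (v : V) : (word k v).length = k := by
  induction k generalizing v with
  | zero => rfl
  | succ k ih => simp [word, ih]

end Pool.Agent.Lib.H63.TSP
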