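import Mathlib
import Pool.Agent.Lib.H63.TSPBasic

/-!
# A vector of `X m` is determined by its first `K` letters once `3 ^ K > 4 m`.
-/

set_option autoImplicit false

namespace Pool.Agent.Lib.H63.TSP

/-- dot product -/
def dot (u v : V) : ℤ := u.e * v.e + u.p * v.p + u.q * v.q

/-- `3 g_j⁻¹`, i.e. the transpose of the integral matrix of `3 F` on vectors of letter `j` -/
def gT (j : J) (l : V) : V :=
  flip j ⟨3 * l.e - 2 * (l.e + l.p + l.q), 3 * l.p - 2 * (l.e + l.p + l.q),
    3 * l.q - 2 * (l.e + l.p + l.q)⟩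

/-- the isotropic direction attached to a word -/
def ell : List J → V
  | [] => ⟨1, 1, 1⟩
  | [j] => flip j ⟨1, 1, 1⟩
  | j :: w => gT j (ell w)

lemma dot_gT {m : ℤ} {v : V} (h : X m v) (l : V) :
    dot (gT (letter v) l) v = 3 * dot l (F v) := by
  have hs := X_sum (X_flip h _ (co_letter h))
  unfold F
  generalize hj : letter v = j at hs
  cases j <;> simp only [gT, flip, A, dot] at hs ⊢
  · obtain ⟨s, hs'⟩ : ∃ s, -v.e + v.p + v.q = 3 * s := ⟨(-v.e + v.p + v.q) / 3, by omega⟩
    rw [hs', Int.mul_ediv_cancel_left _ (by norm_num)]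
    have e1 : v.q = 3 * s + v.e - v.p := by linarith
    rw [e1]; ring
  · obtain ⟨s, hs'⟩ : ∃ s, v.e + -v.p + v.q = 3 * s := ⟨(v.e + -v.p + v.q) / 3, by omega⟩
    rw [hs', Int.mul_ediv_cancel_left _ (by norm_num)]
    have e1 : v.q = 3 * s - v.e + v.p := by linarith
    rw [e1]; ring
  · obtain ⟨s, hs'⟩ : ∃ s, v.e + v.p + -v.q = 3 * s := ⟨(v.e + v.p + -v.q) / 3, by omega⟩
    rw [hs', Int.mul_ediv_cancel_left _ (by norm_num)]
    have e1 : v.p = 3 * s - v.e + v.q := by linarith
    rw [e1]; ring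

lemma dot_gT_self (j : J) (l : V) : dot (gT j l) (gT j l) = 9 * dot l l := by
  cases j <;> simp only [gT, flip, dot] <;> ring

/-- sum of coordinates of `ell w` is nonzero modulo three, and the first coordinate as well -/
lemma ell_unit : ∀ w : List J, w ≠ [] →
    ((ell w).e + (ell w).p + (ell w).q) % 3 ≠ 0 ∧ (ell w).e % 3 ≠ 0
  | [], h => absurd rfl h
  | [j], _ => by cases j <;> simp [ell, flip]
  | j :: k :: w, _ => by
    obtain ⟨h1, -⟩ := ell_unit (k :: w) (by simp)
    have : ell (j :: k :: w) = gT j (ell (k :: w)) := rfl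
    rw [this]
    generalize ell (k :: w) = l at h1
    cases j <;> simp only [gT, flip] <;> constructor <;> omega

lemma ell_dvd {m : ℤ} : ∀ (w : List J) (v : V), X m v → w ≠ [] → word w.length v = w →
    ((3 : ℤ) ^ w.length ∣ dot (ell w) v) ∧ ((3 : ℤ) ^ w.length ∣ dot (ell w) (ell w))
  | [], _, _, h, _ => absurd rfl h
  | [j], v, hv, _, hw => by
    simp only [List.length_singleton, word, List.cons.injEq, and_true] at hw
    subst hw
    have hs := X_sum (X_flip hv _ (co_letter hv))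
    have h0 := co_letter hv
    constructor
    · simp only [List.length_singleton, pow_one, ell]
      generalize letter v = j at hs h0
      cases j <;> simp only [flip, dot, co] at hs h0 ⊢ <;> omega
    · simp only [List.length_singleton, pow_one, ell]
      generalize letter v = j
      cases j <;> simp [flip, dot]
  | j :: k :: w, v, hv, _, hw => by
    have hw' : letter v = j ∧ word (k :: w).length (F v) = k :: w := by
      simpa [word] using hw
    obtain ⟨h1, h2⟩ := ell_dvd (k :: w) (F v) (X_F hv) (by simp) hw'.2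
    have : ell (j :: k :: w) = gT j (ell (k :: w)) := rfl
    rw [this, ← hw'.1, dot_gT hv, dot_gT_self, hw'.1]
    have hl : (j :: k :: w).length = (k :: w).length + 1 := rfl
    rw [hl, pow_succ]
    constructor
    · rw [mul_comm]; exact mul_dvd_mul_left 3 h1
    · obtain ⟨c, hc⟩ := h2
      rw [hc]
      exact ⟨3 * c, by ring⟩

lemma lagrange_dvd {N : ℤ} {l v w : V} (hl : IsCoprime l.e N) (h1 : N ∣ dot l v) (h2 : N ∣ dot l w)
    (h3 : N ∣ dot l l) : N ∣ dot v v * dot w w - dot v w ^ 2 := by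
  -- cross product of v and w
  set a := v.p * w.q - v.q * w.p with ha
  set b := v.q * w.e - v.e * w.q with hb
  set c := v.e * w.p - v.p * w.e with hc
  have id : dot v v * dot w w - dot v w ^ 2 = a ^ 2 + b ^ 2 + c ^ 2 := by
    simp only [dot, ha, hb, hc]; ring
  rw [id]
  -- l × (v × w) ≡ 0
  obtain ⟨x, hx⟩ := h1
  obtain ⟨y, hy⟩ := h2
  have hb' : N ∣ l.e * b - l.p * a := by
    have : l.e * b - l.p * a = v.q * dot l w - w.q * dot l v := by
      simp only [dot, ha, hb]; ring
    rw [this, hx, hy]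
    exact ⟨v.q * y - w.q * x, by ring⟩
  have hc' : N ∣ l.e * c - l.q * a := by
    have : l.e * c - l.q * a = w.p * dot l v - v.p * dot l w := by
      simp only [dot, ha, hc]; ring
    rw [this, hx, hy]
    exact ⟨w.p * x - v.p * y, by ring⟩
  have : N ∣ l.e ^ 2 * (a ^ 2 + b ^ 2 + c ^ 2) := by
    have e1 : l.e ^ 2 * (a ^ 2 + b ^ 2 + c ^ 2) = a ^ 2 * dot l l
        + (l.e * b - l.p * a) * (l.e * b + l.p * a) + (l.e * c - l.q * a) * (l.e * c + l.q * a) := by
      simp only [dot]; ring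
    rw [e1]
    exact dvd_add (dvd_add (h3.mul_left _) (hb'.mul_right _)) (hc'.mul_right _)
  exact (hl.symm.pow_right).dvd_of_dvd_mul_left this

lemma same_mod {m : ℤ} {v w : V} (hv : X m v) (hw : X m w) (h : letter v = letter w) :
    (v.e - w.e) % 3 = 0 ∧ (v.p - w.p) % 3 = 0 ∧ (v.q - w.q) % 3 = 0 := by
  have h1 := co_letter hv
  have h2 := co_letter hw
  rw [← h] at h2
  obtain ⟨-, -, h3, h4⟩ := hv
  obtain ⟨-, -, h5, h6⟩ := hw
  generalize letter v = j at h1 h2
  cases j <;> simp only [co] at h1 h2 <;> omega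

/-- Vectors with the same long itinerary are equal. -/
theorem inject {m : ℤ} (hm : m % 3 = 1) {K : ℕ} (hK : 4 * m < 3 ^ K) {v w : V}
    (hv : X m v) (hw : X m w) (h : word K v = word K w) : v = w := by
  have hmpos : 0 < m := by
    have := hv.1
    by_contra hc
    have h0 : v.e ^ 2 + v.p ^ 2 + v.q ^ 2 ≤ 0 := by rw [this]; linarith
    have he : v.e = 0 := by nlinarith [sq_nonneg v.e, sq_nonneg v.p, sq_nonneg v.q]
    have hp : v.p = 0 := by nlinarith [sq_nonneg v.e, sq_nonneg v.p, sq_nonneg v.q]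
    have := hv.2.2.1
    rw [he, hp] at this
    norm_num at this
  have hK1 : 1 ≤ K := by
    rcases Nat.eq_zero_or_pos K with h0 | h0
    · subst h0; simp at hK; omega
    · exact h0
  obtain ⟨K', rfl⟩ : ∃ K', K = K' + 1 := ⟨K - 1, by omega⟩
  set l := ell (word (K' + 1) v) with hl
  have hne : word (K' + 1) v ≠ [] := by simp [word]
  have hlen : (word (K' + 1) v).length = K' + 1 := word_length _ _
  obtain ⟨a1, a2⟩ := ell_dvd (word (K' + 1) v) v hv hne (by rw [hlen])
  obtain ⟨b1, -⟩ := ell_dvd (word (K' + 1) v) w hw hne (by rw [hlen, h])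
  rw [hlen] at a1 a2 b1
  have hcop : IsCoprime l.e ((3 : ℤ) ^ (K' + 1)) := by
    have hu := (ell_unit _ hne).2
    apply IsCoprime.pow_right
    rw [isCoprime_comm, Int.isCoprime_iff_gcd_eq_one]
    have : Int.gcd 3 l.e = 1 := by
      have hp : Nat.Prime 3 := by norm_num
      have h3 : ¬ (3 : ℤ) ∣ l.e := fun hd => hu (Int.emod_eq_zero_of_dvd hd)
      have := (Nat.Prime.coprime_iff_not_dvd hp (n := l.e.natAbs)).2
        (fun hd => h3 (Int.natCast_dvd.2 hd))
      simpa [Int.gcd] using this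
    exact this
  have hdvd := lagrange_dvd hcop a1 b1 a2
  have hvv : dot v v = 2 * m := by rw [← hv.1]; simp only [dot]; ring
  have hww : dot w w = 2 * m := by rw [← hw.1]; simp only [dot]; ring
  rw [hvv, hww] at hdvd
  set s := dot v w with hs
  have hlet : letter v = letter w := by simp only [word, List.cons.injEq] at h; exact h.1
  obtain ⟨d1, d2, d3⟩ := same_mod hv hw hlet
  have hs3 : (s - 2 * m) % 3 = 0 := by
    obtain ⟨x, hx⟩ : ∃ x, v.e - w.e = 3 * x := ⟨(v.e - w.e) / 3, by omega⟩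
    obtain ⟨y, hy⟩ : ∃ y, v.p - w.p = 3 * y := ⟨(v.p - w.p) / 3, by omega⟩
    obtain ⟨z, hz⟩ : ∃ z, v.q - w.q = 3 * z := ⟨(v.q - w.q) / 3, by omega⟩
    have : s - 2 * m = 3 * (-(v.e * x + v.p * y + v.q * z)) := by
      rw [← hvv, hs]; simp only [dot]
      have e1 : w.e = v.e - 3 * x := by linarith
      have e2 : w.p = v.p - 3 * y := by linarith
      have e3 : w.q = v.q - 3 * z := by linarith
      rw [e1, e2, e3]; ring
    rw [this]; exact Int.mul_emod_right 3 _
  have hcop2 : IsCoprime (2 * m + s) ((3 : ℤ) ^ (K' + 1)) := by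
    apply IsCoprime.pow_right
    rw [isCoprime_comm, Int.isCoprime_iff_gcd_eq_one]
    have h3 : ¬ (3 : ℤ) ∣ (2 * m + s) := fun hd => by
      have := Int.emod_eq_zero_of_dvd hd
      omega
    have hp : Nat.Prime 3 := by norm_num
    have := (Nat.Prime.coprime_iff_not_dvd hp (n := (2 * m + s).natAbs)).2
      (fun hd => h3 (Int.natCast_dvd.2 hd))
    simpa [Int.gcd] using this
  have hdvd2 : (3 : ℤ) ^ (K' + 1) ∣ 2 * m - s := by
    have : (2 * m) * (2 * m) - s ^ 2 = (2 * m + s) * (2 * m - s) := by ring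
    rw [this] at hdvd
    exact hcop2.symm.dvd_of_dvd_mul_left hdvd
  -- |v - w|^2 = 4 m - 2 s and |v + w|^2 = 4 m + 2 s
  have q1 : (v.e - w.e) ^ 2 + (v.p - w.p) ^ 2 + (v.q - w.q) ^ 2 = 2 * (2 * m - s) := by
    have : (v.e - w.e) ^ 2 + (v.p - w.p) ^ 2 + (v.q - w.q) ^ 2 = dot v v + dot w w - 2 * s := by
      simp only [hs, dot]; ring
    rw [this, hvv, hww]; ring
  have q2 : (v.e + w.e) ^ 2 + (v.p + w.p) ^ 2 + (v.q + w.q) ^ 2 = 2 * (2 * m + s) := by
    have : (v.e + w.e) ^ 2 + (v.p + w.p) ^ 2 + (v.q + w.q) ^ 2 = dot v v + dot w w + 2 * s := by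
      simp only [hs, dot]; ring
    rw [this, hvv, hww]; ring
  have hzero : 2 * m - s = 0 := by
    have h0 : 0 ≤ 2 * m - s := by nlinarith [sq_nonneg (v.e - w.e), sq_nonneg (v.p - w.p), sq_nonneg (v.q - w.q)]
    have h1 : 0 ≤ 2 * m + s := by nlinarith [sq_nonneg (v.e + w.e), sq_nonneg (v.p + w.p), sq_nonneg (v.q + w.q)]
    exact Int.eq_zero_of_dvd_of_nonneg_of_lt h0 (by linarith) hdvd2
  rw [hzero] at q1
  have z1 : v.e - w.e = 0 := by nlinarith [sq_nonneg (v.e - w.e), sq_nonneg (v.p - w.p), sq_nonneg (v.q - w.q)]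
  have z2 : v.p - w.p = 0 := by nlinarith [sq_nonneg (v.e - w.e), sq_nonneg (v.p - w.p), sq_nonneg (v.q - w.q)]
  have z3 : v.q - w.q = 0 := by nlinarith [sq_nonneg (v.e - w.e), sq_nonneg (v.p - w.p), sq_nonneg (v.q - w.q)]
  ext <;> linarith

end Pool.Agent.Lib.H63.TSP
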