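import Mathlib
import Pool.Agent.Lib.H63.TSPInject

/-!
# Certificates for impossible words

`rowsW w` is the list of linear forms which are positive on every vector with itinerary `w`
(under `Bad m`). A certificate is a non-negative combination of these forms that vanishes.
-/

set_option autoImplicit false

namespace Pool.Agent.Lib.H63.TSP

/-- 3×3 integer matrices, given by their rows -/
structure M3 where
  r1 : V
  r2 : V
  r3 : V
deriving DecidableEq

def vadd (u v : V) : V := ⟨u.e + v.e, u.p + v.p, u.q + v.q⟩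
def vsub (u v : V) : V := ⟨u.e - v.e, u.p - v.p, u.q - v.q⟩
def smul (c : ℤ) (v : V) : V := ⟨c * v.e, c * v.p, c * v.q⟩
def vneg (v : V) : V := ⟨-v.e, -v.p, -v.q⟩

/-- matrix times vector -/
def M3.act (M : M3) (v : V) : V := ⟨dot M.r1 v, dot M.r2 v, dot M.r3 v⟩

/-- row vector times matrix -/
def rmul (r : V) (M : M3) : V := vadd (vadd (smul r.e M.r1) (smul r.p M.r2)) (smul r.q M.r3)

/-- product -/
def M3.mul (M N : M3) : M3 := ⟨rmul M.r1 N, rmul M.r2 N, rmul M.r3 N⟩

lemma dot_rmul (r : V) (M : M3) (v : V) : dot (rmul r M) v = dot r (M.act v) := by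
  simp only [rmul, M3.act, dot, vadd, smul]; ring

lemma act_mul (M N : M3) (v : V) : (M.mul N).act v = M.act (N.act v) := by
  ext <;> simp only [M3.mul, M3.act, dot_rmul]

/-- the matrix of `3 F` on vectors of letter `j` -/
def Gm : J → M3
  | .E => ⟨⟨-1, -2, -2⟩, ⟨2, 1, -2⟩, ⟨2, -2, 1⟩⟩
  | .P => ⟨⟨1, 2, -2⟩, ⟨-2, -1, -2⟩, ⟨-2, 2, 1⟩⟩
  | .Q => ⟨⟨1, -2, 2⟩, ⟨-2, 1, 2⟩, ⟨-2, -2, -1⟩⟩

lemma Gm_act {m : ℤ} {v : V} (h : X m v) : (Gm (letter v)).act v = smul 3 (F v) := by
  have hs := X_sum (X_flip h _ (co_letter h))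
  unfold F
  generalize letter v = j at hs
  cases j <;> simp only [flip] at hs <;> ext <;> simp only [Gm, M3.act, dot, smul, A, flip] <;> omega

/-- identity matrix -/
def I3 : M3 := ⟨⟨1, 0, 0⟩, ⟨0, 1, 0⟩, ⟨0, 0, 1⟩⟩

lemma I3_act (v : V) : I3.act v = v := by ext <;> simp [I3, M3.act, dot]

/-- linear forms positive on `v0` when `s w = M v0` with `s > 0`, `w` and `flip j w` bad -/
def rowsAt (M : M3) : J → List V
  | .E => [vsub M.r2 M.r1, vsub M.r1 M.r3, vadd M.r2 M.r1, vneg (vadd M.r1 M.r3)]
  | .P => [vsub M.r2 M.r1, vsub M.r1 M.r3, vneg (vadd M.r2 M.r1), vsub M.r1 M.r3]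
  | .Q => [vsub M.r2 M.r1, vsub M.r1 M.r3, vsub M.r2 M.r1, vadd M.r1 M.r3]

lemma rowsAt_pos {m : ℤ} (hb : Bad m) {w v0 : V} (hw : X m w) {M : M3} {s : ℤ} (hs : 0 < s)
    (h : M.act v0 = smul s w) : ∀ r ∈ rowsAt M (letter w), 0 < dot r v0 := by
  have h1 := hb w hw
  have h2 := hb _ (X_flip hw _ (co_letter hw))
  have e1 : dot M.r1 v0 = s * w.e := congrArg V.e h
  have e2 : dot M.r2 v0 = s * w.p := congrArg V.p h
  have e3 : dot M.r3 v0 = s * w.q := congrArg V.q h
  have dsub : ∀ a b : V, dot (vsub a b) v0 = dot a v0 - dot b v0 := by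
    intro a b; simp only [dot, vsub]; ring
  have dadd : ∀ a b : V, dot (vadd a b) v0 = dot a v0 + dot b v0 := by
    intro a b; simp only [dot, vadd]; ring
  have dneg : ∀ a : V, dot (vneg a) v0 = - dot a v0 := by
    intro a; simp only [dot, vneg]; ring
  have hpos : ∀ x : ℤ, 1 < x → 0 < s * x := fun x hx => by positivity
  generalize letter w = j at h2
  intro r hr
  cases j <;> simp only [flip] at h2 <;> simp only [rowsAt, List.mem_cons, List.not_mem_nil, or_false] at hr
  · rcases hr with rfl | rfl | rfl | rfl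
    · rw [dsub, e1, e2, ← mul_sub]; exact hpos _ (by omega)
    · rw [dsub, e1, e3, ← mul_sub]; exact hpos _ (by omega)
    · rw [dadd, e1, e2, ← mul_add]; exact hpos _ (by omega)
    · rw [dneg, dadd, e1, e3, ← mul_add, ← mul_neg]; exact hpos _ (by omega)
  · rcases hr with rfl | rfl | rfl | rfl
    · rw [dsub, e1, e2, ← mul_sub]; exact hpos _ (by omega)
    · rw [dsub, e1, e3, ← mul_sub]; exact hpos _ (by omega)
    · rw [dneg, dadd, e1, e2, ← mul_add, ← mul_neg]; exact hpos _ (by omega)
    · rw [dsub, e1, e3, ← mul_sub]; exact hpos _ (by omega)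
  · rcases hr with rfl | rfl | rfl | rfl
    · rw [dsub, e1, e2, ← mul_sub]; exact hpos _ (by omega)
    · rw [dsub, e1, e3, ← mul_sub]; exact hpos _ (by omega)
    · rw [dsub, e1, e2, ← mul_sub]; exact hpos _ (by omega)
    · rw [dadd, e1, e3, ← mul_add]; exact hpos _ (by omega)

/-- all linear forms along a word -/
def rowsW : M3 → List J → List V
  | _, [] => []
  | M, j :: w => rowsAt M j ++ rowsW ((Gm j).mul M) w

lemma smul_act (M : M3) (c : ℤ) (v : V) : M.act (smul c v) = smul c (M.act v) := by
  ext <;> simp only [M3.act, dot, smul] <;> ring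

lemma rowsW_pos {m : ℤ} (hb : Bad m) {v0 : V} : ∀ (w : List J) (v : V) (M : M3) (s : ℤ), 0 < s →
    X m v → M.act v0 = smul s v → word w.length v = w → ∀ r ∈ rowsW M w, 0 < dot r v0
  | [], _, _, _, _, _, _, _, r, hr => by simp [rowsW] at hr
  | j :: w, v, M, s, hs, hv, hM, hw, r, hr => by
    have hw' : letter v = j ∧ word w.length (F v) = w := by simpa [word] using hw
    rw [rowsW, List.mem_append] at hr
    rcases hr with hr | hr
    · rw [← hw'.1] at hr
      exact rowsAt_pos hb hv hs hM r hr
    · refine rowsW_pos hb w (F v) _ (3 * s) (by linarith) (X_F hv) ?_ hw'.2 r hr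
      rw [act_mul, hM, smul_act, ← hw'.1, Gm_act hv]
      ext <;> simp only [smul] <;> ring

/-- zero vector -/
def V0 : V := ⟨0, 0, 0⟩

/-- the combination of rows described by a certificate -/
def combo (rows : List V) : List (ℕ × ℕ) → V
  | [] => V0
  | (i, c) :: l => vadd (smul c (rows.getD i V0)) (combo rows l)

/-- the certificate check: the combination vanishes and uses some row with a positive coefficient -/
def fark (rows : List V) (cert : List (ℕ × ℕ)) : Bool :=
  decide (combo rows cert = V0) && cert.any (fun ic => decide (ic.1 < rows.length) && decide (0 < ic.2))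

lemma fark_false {rows : List V} {cert : List (ℕ × ℕ)} (h : fark rows cert = true) {v : V}
    (hp : ∀ r ∈ rows, 0 < dot r v) : False := by
  rw [fark, Bool.and_eq_true, decide_eq_true_eq, List.any_eq_true] at h
  obtain ⟨h1, ⟨ic, hmem, hic⟩⟩ := h
  rw [Bool.and_eq_true, decide_eq_true_eq, decide_eq_true_eq] at hic
  have nonneg : ∀ i, 0 ≤ dot (rows.getD i V0) v := by
    intro i
    by_cases hi : i < rows.length
    · rw [List.getD_eq_getElem _ _ hi]
      exact (hp _ (List.getElem_mem hi)).le
    · rw [List.getD_eq_default _ _ (not_lt.mp hi)]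
      simp [dot, V0]
  have dadd : ∀ a b : V, dot (vadd a b) v = dot a v + dot b v := by
    intro a b; simp only [dot, vadd]; ring
  have dsm : ∀ (c : ℤ) (a : V), dot (smul c a) v = c * dot a v := by
    intro c a; simp only [dot, smul]; ring
  have hnn : ∀ l : List (ℕ × ℕ), 0 ≤ dot (combo rows l) v := by
    intro l
    induction l with
    | nil => simp [combo, dot, V0]
    | cons a l ih =>
      obtain ⟨i, c⟩ := a
      simp only [combo]
      rw [dadd, dsm]
      have := mul_nonneg (Int.natCast_nonneg c) (nonneg i)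
      linarith
  have hpos : ∀ l : List (ℕ × ℕ), ic ∈ l → 0 < dot (combo rows l) v := by
    intro l
    induction l with
    | nil => intro h; simp at h
    | cons a l ih =>
      intro hl
      obtain ⟨i, c⟩ := a
      simp only [combo]
      rw [dadd, dsm]
      rcases List.mem_cons.mp hl with h2 | h2
      · subst h2
        have h3 : 0 < dot (rows.getD i V0) v := by
          rw [List.getD_eq_getElem _ _ hic.1]
          exact hp _ (List.getElem_mem hic.1)
        have h4 : (0 : ℤ) < c := by exact_mod_cast hic.2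
        have := hnn l
        have := mul_pos h4 h3
        linarith
      · have := ih h2
        have := mul_nonneg (Int.natCast_nonneg c) (nonneg i)
        linarith
  have := hpos cert hmem
  rw [h1] at this
  simp [dot, V0] at this

/-- a certified word is impossible under `Bad m` -/
theorem impossible {m : ℤ} (hb : Bad m) {w : List J} {cert : List (ℕ × ℕ)}
    (h : fark (rowsW I3 w) cert = true) {v : V} (hv : X m v) : word w.length v ≠ w := by
  intro hw
  refine fark_false h (v := v) (rowsW_pos hb w v I3 1 one_pos hv ?_ hw)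
  rw [I3_act]; ext <;> simp [smul]

end Pool.Agent.Lib.H63.TSP
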