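import Mathlib
import Pool.Agent.Lib.H63.TSPInject

/-!
# Under `Bad m`: no vector of `X m` lies in the disc around `(0,1,-1)`, except on its axis
-/

set_option autoImplicit false

namespace Pool.Agent.Lib.H63.TSP

/-- under `Bad m`, a vector in the disc has letter `E` and `F` preserves `p - q` -/
lemma disc_step {m : ℤ} (hb : Bad m) {v : V} (hv : X m v) (h : 3 * m < (v.p - v.q) ^ 2) :
    letter v = .E ∧ (F v).p - (F v).q = v.p - v.q := by
  have h1 := hb v hv
  have hl : letter v = .E := by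
    have h2 := hb _ (X_flip hv _ (co_letter hv))
    have hn := hv.1
    generalize hj : letter v = j at h2
    cases j
    · rfl
    · exfalso
      simp only [flip] at h2
      obtain ⟨h3, h4⟩ := h1
      obtain ⟨h5, h6⟩ := h2
      -- q < e < -|p|
      have h7 : v.p ^ 2 ≤ v.e ^ 2 := by nlinarith
      nlinarith [sq_nonneg (2 * v.p + v.q)]
    · exfalso
      simp only [flip] at h2
      obtain ⟨h3, h4⟩ := h1
      obtain ⟨h5, h6⟩ := h2
      have h7 : v.q ^ 2 ≤ v.e ^ 2 := by nlinarith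
      nlinarith [sq_nonneg (2 * v.q + v.p)]
  refine ⟨hl, ?_⟩
  simp only [F, hl, flip, A]; ring

lemma iter_succ (k : ℕ) (v : V) : F^[k + 1] v = F^[k] (F v) := rfl

lemma X_iter {m : ℤ} {v : V} (h : X m v) (k : ℕ) : X m (F^[k] v) := by
  induction k generalizing v with
  | zero => exact h
  | succ k ih => exact ih (X_F h)

/-- vectors with constant itinerary `E` are on the axis -/
lemma axis_of_allE {m : ℤ} (hm : m % 3 = 1) {v : V} (hv : X m v)
    (h : ∀ k, letter (F^[k] v) = .E) : v.e = 0 ∧ v.p + v.q = 0 ∧ F v = v := by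
  have hw : ∀ K, ∀ u : V, (∀ k, letter (F^[k] u) = .E) → word K u = List.replicate K .E := by
    intro K
    induction K with
    | zero => intro u _; rfl
    | succ K ih =>
      intro u hu
      have : word (K + 1) u = letter u :: word K (F u) := rfl
      have h0 : letter u = .E := hu 0
      rw [this, ih (F u) (fun k => hu (k + 1)), h0]
      rfl
  obtain ⟨K, hK⟩ : ∃ K : ℕ, 4 * m < 3 ^ K := by
    obtain ⟨K, hK⟩ := pow_unbounded_of_one_lt (4 * m) (show (1 : ℤ) < 3 by norm_num)
    exact ⟨K, hK⟩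
  have heq : v = F v := inject hm hK hv (X_F hv) (by
    rw [hw K v h, hw K (F v) (fun k => h (k + 1))])
  have hl : letter v = .E := h 0
  have he : v.e = (F v).e := congrArg V.e heq
  have hp : v.p = (F v).p := congrArg V.p heq
  have hs := X_sum (X_flip hv _ (co_letter hv))
  simp only [F, hl, flip, A] at he hp hs
  refine ⟨by omega, by omega, heq.symm⟩

/-- The disc theorem. -/
theorem disc {m : ℤ} (hm : m % 3 = 1) (hb : Bad m) {v : V} (hv : X m v)
    (h : 3 * m < (v.p - v.q) ^ 2) : v.e = 0 ∧ v.p + v.q = 0 := by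
  have key : ∀ k, ∀ u : V, X m u → 3 * m < (u.p - u.q) ^ 2 → letter (F^[k] u) = .E := by
    intro k
    induction k with
    | zero => intro u hu h; exact (disc_step hb hu h).1
    | succ k ih =>
      intro u hu h
      have h1 := disc_step hb hu h
      exact ih (F u) (X_F hu) (by rw [h1.2]; exact h)
  have := axis_of_allE hm hv (fun k => key k v hv h)
  exact ⟨this.1, this.2.1⟩

/-- If `6 n + 1 = a² + 3 b² + 6 y²` with `a² > 9 (b² + 2 y²) > 0` then `n` is representable. -/
theorem rep_of_disc {n : ℕ} {a b y : ℤ} (h : (6 * n + 1 : ℤ) = a ^ 2 + 3 * b ^ 2 + 6 * y ^ 2)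
    (h0 : b ≠ 0 ∨ y ≠ 0) (h1 : 9 * (b ^ 2 + 2 * y ^ 2) < a ^ 2) : Rep n := by
  by_contra hcon
  have hb := bad_of_not_rep hcon
  -- normalise the sign of a
  have ha3 : a % 3 ≠ 0 := by
    intro h3
    obtain ⟨c, hc⟩ : ∃ c, a = 3 * c := ⟨a / 3, by omega⟩
    rw [hc] at h
    have : (6 * (n : ℤ) + 1) = 3 * (3 * c ^ 2 + b ^ 2 + 2 * y ^ 2) := by rw [h]; ring
    omega
  wlog ha : a % 3 = 1 generalizing a with H
  · exact H (a := -a) (by rw [h]; ring) (by linarith [neg_sq a]) (by omega) (by omega)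
  set v : V := ⟨-2 * b + 2 * y, a + b + 2 * y, b - a + 2 * y⟩ with hv
  have hX : X (6 * n + 1) v := by
    refine ⟨?_, ?_, ?_, ?_⟩ <;> simp only [hv]
    · rw [h]; ring
    · omega
    · omega
    · omega
  have := disc (by omega) hb hX (by
    simp only [hv]
    have : (a + b + 2 * y - (b - a + 2 * y)) ^ 2 = 4 * a ^ 2 := by ring
    rw [this, h]
    nlinarith)
  simp only [hv] at this
  have hy : y = 0 := by omega
  have hb0 : b = 0 := by omega
  rcases h0 with h0 | h0
  · exact h0 hb0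
  · exact h0 hy

/-- If `6 n + 1 = a² + 3 b²` with `b ≠ 0` then `n` is representable. -/
theorem rep_of_norm {n : ℕ} {a b : ℤ} (h : (6 * n + 1 : ℤ) = a ^ 2 + 3 * b ^ 2)
    (h0 : b ≠ 0) : Rep n := by
  by_contra hcon
  have hb := bad_of_not_rep hcon
  have ha3 : a % 3 ≠ 0 := by
    intro h3
    obtain ⟨c, hc⟩ : ∃ c, a = 3 * c := ⟨a / 3, by omega⟩
    rw [hc] at h
    have : (6 * (n : ℤ) + 1) = 3 * (3 * c ^ 2 + b ^ 2) := by rw [h]; ring
    omega
  wlog ha : a % 3 = 1 generalizing a with H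
  · exact H (a := -a) (by rw [h]; ring) (by omega) (by omega)
  set v : V := ⟨-2 * b, a + b, b - a⟩ with hv
  have hX : X (6 * n + 1) v := by
    refine ⟨?_, ?_, ?_, ?_⟩ <;> simp only [hv]
    · rw [h]; ring
    · omega
    · omega
    · omega
  have h2 := hb v hX
  simp only [hv] at h2
  refine hcon (rep_of_disc (a := a) (b := b) (y := 0) (by rw [h]; ring) (Or.inl h0) ?_)
  nlinarith

end Pool.Agent.Lib.H63.TSP
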