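import Mathlib
import Pool.Agent.Lib.H63.TSPCert
import Pool.Agent.Lib.H63.TSPDisc

/-!
# Certificates for pairs `(v, v')` of vectors of `X m` with `p v' = C v`
-/

set_option autoImplicit false

namespace Pool.Agent.Lib.H63.TSP

/-- transpose -/
def M3.tr (M : M3) : M3 :=
  ⟨⟨M.r1.e, M.r2.e, M.r3.e⟩, ⟨M.r1.p, M.r2.p, M.r3.p⟩, ⟨M.r1.q, M.r2.q, M.r3.q⟩⟩

def V.nine (v : V) : Bool := decide (v.e % 9 = 0) && decide (v.p % 9 = 0) && decide (v.q % 9 = 0)
def V.div9 (v : V) : V := ⟨v.e / 9, v.p / 9, v.q / 9⟩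
def M3.nine (M : M3) : Bool := M.r1.nine && M.r2.nine && M.r3.nine
def M3.div9 (M : M3) : M3 := ⟨M.r1.div9, M.r2.div9, M.r3.div9⟩

lemma V.nine_spec {v : V} (h : v.nine = true) : v = smul 9 v.div9 := by
  simp only [V.nine, Bool.and_eq_true, decide_eq_true_eq] at h
  ext <;> simp only [smul, V.div9] <;> omega

lemma M3.nine_act {M : M3} (h : M.nine = true) (v : V) : M.act v = smul 9 (M.div9.act v) := by
  simp only [M3.nine, Bool.and_eq_true] at h
  have h1 := V.nine_spec h.1.1
  have h2 := V.nine_spec h.1.2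
  have h3 := V.nine_spec h.2
  have key : ∀ a b : V, a = smul 9 b → dot a v = 9 * dot b v := by
    intro a b hab; rw [hab]; simp only [dot, smul]; ring
  ext <;> simp only [M3.act, smul, M3.div9]
  · exact key _ _ h1
  · exact key _ _ h2
  · exact key _ _ h3

/-- next class -/
def nxt (C : M3) (j : J) : Option (J × M3) :=
  let K := C.mul (Gm j).tr
  let a := (Gm .E).mul K
  if a.nine then some (.E, a.div9) else
    let b := (Gm .P).mul K
    if b.nine then some (.P, b.div9) else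
      let c := (Gm .Q).mul K
      if c.nine then some (.Q, c.div9) else none

lemma nxt_spec {C : M3} {j j2 : J} {C' : M3} (h : nxt C j = some (j2, C')) :
    ((Gm j2).mul (C.mul (Gm j).tr)).nine = true ∧ C' = ((Gm j2).mul (C.mul (Gm j).tr)).div9 := by
  simp only [nxt] at h
  split_ifs at h with h1 h2 h3
  · simp only [Option.some.injEq, Prod.mk.injEq] at h
    obtain ⟨rfl, rfl⟩ := h; exact ⟨h1, rfl⟩
  · simp only [Option.some.injEq, Prod.mk.injEq] at h
    obtain ⟨rfl, rfl⟩ := h; exact ⟨h2, rfl⟩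
  · simp only [Option.some.injEq, Prod.mk.injEq] at h
    obtain ⟨rfl, rfl⟩ := h; exact ⟨h3, rfl⟩

lemma Gm_tr_Gm (j : J) (v : V) : (Gm j).tr.act ((Gm j).act v) = smul 9 v := by
  cases j <;> ext <;> simp only [Gm, M3.tr, M3.act, dot, smul] <;> ring

lemma smul_smul' (a b : ℤ) (v : V) : smul a (smul b v) = smul (a * b) v := by
  ext <;> simp only [smul] <;> ring

lemma smul_inj {a : ℤ} (ha : a ≠ 0) {u v : V} (h : smul a u = smul a v) : u = v := by
  have h1 := congrArg V.e h
  have h2 := congrArg V.p h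
  have h3 := congrArg V.q h
  simp only [smul] at h1 h2 h3
  ext
  · exact mul_left_cancel₀ ha h1
  · exact mul_left_cancel₀ ha h2
  · exact mul_left_cancel₀ ha h3

/-- soundness of `nxt` -/
lemma nxt_sound {m p : ℤ} (hp3 : p % 3 ≠ 0) {v v' : V} (hv : X m v) (hv' : X m v') {C C' : M3}
    {j2 : J} (hC : C.act v = smul p v') (h : nxt C (letter v) = some (j2, C')) :
    letter v' = j2 ∧ C'.act (F v) = smul p (F v') := by
  obtain ⟨h9, rfl⟩ := nxt_spec h
  set H := (Gm j2).mul (C.mul (Gm (letter v)).tr) with hH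
  -- 3 * 9 * C' (F v) = H (G v) = 9 G_{j2} C v = 9 p G_{j2} v'
  have e1 : H.act ((Gm (letter v)).act v) = smul (9 * p) ((Gm j2).act v') := by
    rw [hH, act_mul, act_mul, Gm_tr_Gm, smul_act, smul_act, hC, smul_act, smul_smul']
  have e2 : H.act ((Gm (letter v)).act v) = smul (9 * 3) (H.div9.act (F v)) := by
    rw [Gm_act hv, smul_act, M3.nine_act h9, smul_smul']; norm_num
  have e3 : smul 3 (H.div9.act (F v)) = smul p ((Gm j2).act v') := by
    apply smul_inj (a := 9) (by norm_num)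
    rw [smul_smul', smul_smul', ← e1, e2]
  -- the letter of v'
  have hdiv : ((Gm j2).act v').e % 3 = 0 := by
    have h1 := congrArg V.e e3
    simp only [smul] at h1
    have h2 : (3 : ℤ) ∣ p * ((Gm j2).act v').e := ⟨_, h1.symm⟩
    have h3 : IsCoprime (3 : ℤ) p := by
      rw [Int.isCoprime_iff_gcd_eq_one]
      have hp : Nat.Prime 3 := by norm_num
      have h3 : ¬ (3 : ℤ) ∣ p := fun hd => hp3 (Int.emod_eq_zero_of_dvd hd)
      have := (Nat.Prime.coprime_iff_not_dvd hp (n := p.natAbs)).2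
        (fun hd => h3 (Int.natCast_dvd.2 hd))
      simpa [Int.gcd] using this
    exact Int.emod_eq_zero_of_dvd (h3.dvd_of_dvd_mul_left h2)
  have hlet : letter v' = j2 := by
    apply letter_eq hv'
    obtain ⟨-, -, h3, h4⟩ := hv'
    cases j2 <;> simp only [Gm, M3.act, dot, co] at hdiv ⊢ <;> omega
  refine ⟨hlet, ?_⟩
  apply smul_inj (a := 3) (by norm_num)
  rw [e3, ← hlet, Gm_act hv', smul_smul', smul_smul', mul_comm]

/-- labelled matrices -/
def Lab (p : ℤ) (C : M3) : Bool :=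
  decide ((C.r1.p + C.r1.q) % 2 = 0) &&
  decide (((C.r2.e - C.r1.e) + (C.r2.p - C.r1.p) + (C.r2.q - C.r1.q)) % 3 = 0) &&
  decide (((C.r2.p - C.r1.p) + 2 * (C.r2.q - C.r1.q) - p) % 3 = 0) &&
  decide (((C.r3.e - C.r1.e) + (C.r3.p - C.r1.p) + (C.r3.q - C.r1.q)) % 3 = 0) &&
  decide (((C.r3.p - C.r1.p) + 2 * (C.r3.q - C.r1.q) - 2 * p) % 3 = 0)

lemma lab_sound {m p : ℤ} (hm : m % 2 = 1) (hp2 : p % 2 = 1) (hp3 : p % 3 ≠ 0) {u U : V}
    (hu : X m u) {C : M3} (hL : Lab p C = true) (h : C.act u = smul p U)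
    (hn : U.e ^ 2 + U.p ^ 2 + U.q ^ 2 = 2 * m) : X m U := by
  obtain ⟨ho1, ho2⟩ := odd_pq hm hu
  obtain ⟨-, he, h3, h4⟩ := hu
  simp only [Lab, Bool.and_eq_true, decide_eq_true_eq] at hL
  obtain ⟨⟨⟨⟨l1, l2⟩, l3⟩, l4⟩, l5⟩ := hL
  have e1 : dot C.r1 u = p * U.e := congrArg V.e h
  have e2 : dot C.r2 u = p * U.p := congrArg V.p h
  have e3 : dot C.r3 u = p * U.q := congrArg V.q h
  simp only [dot] at e1 e2 e3
  refine ⟨hn, ?_, ?_, ?_⟩
  · -- parity
    obtain ⟨a, ha⟩ : ∃ a, u.e = 2 * a := ⟨u.e / 2, by omega⟩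
    obtain ⟨b, hb⟩ : ∃ b, u.p = 2 * b + 1 := ⟨u.p / 2, by omega⟩
    obtain ⟨c, hc⟩ : ∃ c, u.q = 2 * c + 1 := ⟨u.q / 2, by omega⟩
    obtain ⟨d, hd⟩ : ∃ d, C.r1.p + C.r1.q = 2 * d := ⟨(C.r1.p + C.r1.q) / 2, by omega⟩
    obtain ⟨k, hk⟩ : ∃ k, p = 2 * k + 1 := ⟨p / 2, by omega⟩
    have h5 : U.e = 2 * (C.r1.e * a + C.r1.p * b + C.r1.q * c + d - k * U.e) := by
      rw [ha, hb, hc, hk] at e1
      linarith
    omega
  · obtain ⟨a, ha⟩ : ∃ a, u.p = u.e + 1 + 3 * a := ⟨(u.p - u.e - 1) / 3, by omega⟩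
    obtain ⟨b, hb⟩ : ∃ b, u.q = u.e + 2 + 3 * b := ⟨(u.q - u.e - 2) / 3, by omega⟩
    obtain ⟨c, hc⟩ : ∃ c, (C.r2.e - C.r1.e) + (C.r2.p - C.r1.p) + (C.r2.q - C.r1.q) = 3 * c :=
      ⟨((C.r2.e - C.r1.e) + (C.r2.p - C.r1.p) + (C.r2.q - C.r1.q)) / 3, by omega⟩
    obtain ⟨d, hd⟩ : ∃ d, (C.r2.p - C.r1.p) + 2 * (C.r2.q - C.r1.q) - p = 3 * d :=
      ⟨((C.r2.p - C.r1.p) + 2 * (C.r2.q - C.r1.q) - p) / 3, by omega⟩
    have h5 : p * (U.p - U.e - 1) = 3 * (u.e * c + d + (C.r2.p - C.r1.p) * a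
        + (C.r2.q - C.r1.q) * b) := by
      rw [mul_sub, mul_sub, ← e1, ← e2, ha, hb]
      linear_combination (u.e) * hc + hd
    have h6 : (3 : ℤ) ∣ p * (U.p - U.e - 1) := ⟨_, h5⟩
    have h7 : IsCoprime (3 : ℤ) p := by
      rw [Int.isCoprime_iff_gcd_eq_one]
      have hp : Nat.Prime 3 := by norm_num
      have h3 : ¬ (3 : ℤ) ∣ p := fun hd => hp3 (Int.emod_eq_zero_of_dvd hd)
      have := (Nat.Prime.coprime_iff_not_dvd hp (n := p.natAbs)).2
        (fun hd => h3 (Int.natCast_dvd.2 hd))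
      simpa [Int.gcd] using this
    have := Int.emod_eq_zero_of_dvd (h7.dvd_of_dvd_mul_left h6)
    omega
  · obtain ⟨a, ha⟩ : ∃ a, u.p = u.e + 1 + 3 * a := ⟨(u.p - u.e - 1) / 3, by omega⟩
    obtain ⟨b, hb⟩ : ∃ b, u.q = u.e + 2 + 3 * b := ⟨(u.q - u.e - 2) / 3, by omega⟩
    obtain ⟨c, hc⟩ : ∃ c, (C.r3.e - C.r1.e) + (C.r3.p - C.r1.p) + (C.r3.q - C.r1.q) = 3 * c :=
      ⟨((C.r3.e - C.r1.e) + (C.r3.p - C.r1.p) + (C.r3.q - C.r1.q)) / 3, by omega⟩
    obtain ⟨d, hd⟩ : ∃ d, (C.r3.p - C.r1.p) + 2 * (C.r3.q - C.r1.q) - 2 * p = 3 * d :=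
      ⟨((C.r3.p - C.r1.p) + 2 * (C.r3.q - C.r1.q) - 2 * p) / 3, by omega⟩
    have h5 : p * (U.q - U.e - 2) = 3 * (u.e * c + d + (C.r3.p - C.r1.p) * a
        + (C.r3.q - C.r1.q) * b) := by
      rw [mul_sub, mul_sub, ← e1, ← e3, ha, hb]
      linear_combination (u.e) * hc + hd
    have h6 : (3 : ℤ) ∣ p * (U.q - U.e - 2) := ⟨_, h5⟩
    have h7 : IsCoprime (3 : ℤ) p := by
      rw [Int.isCoprime_iff_gcd_eq_one]
      have hp : Nat.Prime 3 := by norm_num
      have h3 : ¬ (3 : ℤ) ∣ p := fun hd => hp3 (Int.emod_eq_zero_of_dvd hd)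
      have := (Nat.Prime.coprime_iff_not_dvd hp (n := p.natAbs)).2
        (fun hd => h3 (Int.natCast_dvd.2 hd))
      simpa [Int.gcd] using this
    have := Int.emod_eq_zero_of_dvd (h7.dvd_of_dvd_mul_left h6)
    omega

/-- previous class -/
def prv (p : ℤ) (C : M3) (j : J) : Option (J × M3) :=
  let K := C.mul (Gm j)
  let a := (Gm .E).tr.mul K
  if a.nine && Lab p a.div9 then some (.E, a.div9) else
    let b := (Gm .P).tr.mul K
    if b.nine && Lab p b.div9 then some (.P, b.div9) else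
      let c := (Gm .Q).tr.mul K
      if c.nine && Lab p c.div9 then some (.Q, c.div9) else none

lemma prv_spec {p : ℤ} {C : M3} {j j2 : J} {C' : M3} (h : prv p C j = some (j2, C')) :
    ((Gm j2).tr.mul (C.mul (Gm j))).nine = true ∧ C' = ((Gm j2).tr.mul (C.mul (Gm j))).div9 ∧
      Lab p C' = true := by
  simp only [prv] at h
  split_ifs at h with h1 h2 h3
  · simp only [Option.some.injEq, Prod.mk.injEq] at h
    rw [Bool.and_eq_true] at h1
    obtain ⟨rfl, rfl⟩ := h; exact ⟨h1.1, rfl, h1.2⟩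
  · simp only [Option.some.injEq, Prod.mk.injEq] at h
    rw [Bool.and_eq_true] at h2
    obtain ⟨rfl, rfl⟩ := h; exact ⟨h2.1, rfl, h2.2⟩
  · simp only [Option.some.injEq, Prod.mk.injEq] at h
    rw [Bool.and_eq_true] at h3
    obtain ⟨rfl, rfl⟩ := h; exact ⟨h3.1, rfl, h3.2⟩

lemma Gm_tr_act {m : ℤ} {v : V} (h : X m v) (j : J) : (Gm j).tr.act v = smul 3 (flip j (A v)) := by
  have hs := X_sum h
  cases j <;> ext <;> simp only [Gm, M3.tr, M3.act, dot, smul, A, flip] <;> omega

lemma letter_of_flip {m : ℤ} {v : V} (h : X m v) (j : J) (h2 : X m (flip j v)) : letter v = j := by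
  apply letter_eq h
  obtain ⟨-, -, h3, h4⟩ := h
  obtain ⟨-, -, h5, h6⟩ := h2
  cases j <;> simp only [flip, co] at * <;> omega

/-- soundness of `prv` -/
lemma prv_sound {m p : ℤ} (hm : m % 2 = 1) (hp2 : p % 2 = 1) (hp3 : p % 3 ≠ 0) {v v' : V}
    (hv : X m v) (hv' : X m v') {C C' : M3}
    {j2 : J} (hC : C.act v = smul p v') (h : prv p C (letter (Finv v)) = some (j2, C')) :
    C'.act (Finv v) = smul p (Finv v') := by
  obtain ⟨h9, rfl, hL⟩ := prv_spec h
  set u := Finv v with hu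
  have hXu : X m u := X_Finv hv
  have hFu : F u = v := F_Finv hv
  set H := (Gm j2).tr.mul (C.mul (Gm (letter u))) with hH
  have e1 : H.act u = smul (9 * p) (flip j2 (A v')) := by
    rw [hH, act_mul, act_mul, Gm_act hXu, hFu, smul_act, hC, smul_act, smul_act, Gm_tr_act hv',
      smul_smul', smul_smul']
    congr 1; ring
  have e2 : H.div9.act u = smul p (flip j2 (A v')) := by
    apply smul_inj (a := 9) (by norm_num)
    rw [smul_smul', ← e1, M3.nine_act h9]
  have hXU : X m (flip j2 (A v')) := by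
    apply lab_sound hm hp2 hp3 hXu hL e2
    have := (X_A hv').1
    cases j2 <;> simp only [flip] <;> linarith
  have hl := letter_of_flip (X_A hv') j2 hXU
  rw [e2]
  unfold Finv
  rw [hl]

/-- linear forms along a word for a pair -/
def rowsP : M3 → M3 → List J → List V
  | _, _, [] => []
  | M, C, j :: w =>
    match nxt C j with
    | none => []
    | some (j2, C') => rowsAt M j ++ (rowsAt (C.mul M) j2 ++ rowsP ((Gm j).mul M) C' w)

lemma rowsP_pos {m p : ℤ} (hb : Bad m) (hp0 : 0 < p) (hp3 : p % 3 ≠ 0) {v0 : V} :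
    ∀ (w : List J) (v v' : V) (M C : M3) (s : ℤ), 0 < s →
    X m v → X m v' → C.act v = smul p v' → M.act v0 = smul s v → word w.length v = w →
    ∀ r ∈ rowsP M C w, 0 < dot r v0
  | [], _, _, _, _, _, _, _, _, _, _, _, r, hr => by simp [rowsP] at hr
  | j :: w, v, v', M, C, s, hs, hv, hv', hC, hM, hw, r, hr => by
    have hw' : letter v = j ∧ word w.length (F v) = w := by simpa [word] using hw
    rw [rowsP] at hr
    cases hn : nxt C j with
    | none => rw [hn] at hr; simp at hr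
    | some x =>
      obtain ⟨j2, C'⟩ := x
      rw [hn] at hr
      simp only [List.mem_append] at hr
      have hn' : nxt C (letter v) = some (j2, C') := by rw [hw'.1]; exact hn
      obtain ⟨hl, hC'⟩ := nxt_sound hp3 hv hv' hC hn'
      rcases hr with hr | hr | hr
      · rw [← hw'.1] at hr
        exact rowsAt_pos hb hv hs hM r hr
      · rw [← hl] at hr
        refine rowsAt_pos hb hv' (s := s * p) (by positivity) ?_ r hr
        rw [act_mul, hM, smul_act, hC, smul_smul']
      · refine rowsP_pos hb hp0 hp3 w (F v) (F v') _ C' (3 * s) (by linarith) (X_F hv) (X_F hv')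
          hC' ?_ hw'.2 r hr
        rw [act_mul, hM, smul_act, ← hw'.1, Gm_act hv, smul_smul', mul_comm]

/-- a lazier variant of `fark` -/
def farkL (rows : List V) (cert : List (ℕ × ℕ)) : Bool :=
  decide (combo rows cert = V0) && cert.any (fun ic =>
    (match rows.drop ic.1 with
      | [] => false
      | _ :: _ => true) && decide (0 < ic.2))

lemma fark_of_farkL {rows : List V} {cert : List (ℕ × ℕ)} (h : farkL rows cert = true) :
    fark rows cert = true := by
  rw [farkL, Bool.and_eq_true, List.any_eq_true] at h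
  rw [fark, Bool.and_eq_true, List.any_eq_true]
  refine ⟨h.1, ?_⟩
  obtain ⟨ic, hmem, hic⟩ := h.2
  refine ⟨ic, hmem, ?_⟩
  rw [Bool.and_eq_true] at hic ⊢
  refine ⟨?_, hic.2⟩
  have h1 := hic.1
  rw [decide_eq_true_eq]
  by_contra hc
  rw [List.drop_eq_nil_of_le (not_lt.mp hc)] at h1
  simp at h1

/-- search trees -/
inductive Tree where
  | leaf (c : List (ℕ × ℕ))
  | R (a b c : Tree)
  | L (a b c : Tree)

/-- the checker -/
def chk (p : ℤ) : Tree → M3 → List J → Bool
  | .leaf c, C, w => farkL (rowsP I3 C w) c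
  | .R a b c, C, w => chk p a C (w ++ [.E]) && chk p b C (w ++ [.P]) && chk p c C (w ++ [.Q])
  | .L a b c, C, w =>
    (match prv p C .E with
      | some x => chk p a x.2 (.E :: w)
      | none => false) &&
    (match prv p C .P with
      | some x => chk p b x.2 (.P :: w)
      | none => false) &&
    (match prv p C .Q with
      | some x => chk p c x.2 (.Q :: w)
      | none => false)

theorem chk_sound {m p : ℤ} (hb : Bad m) (hm : m % 2 = 1) (hp0 : 0 < p) (hp2 : p % 2 = 1)
    (hp3 : p % 3 ≠ 0) : ∀ (t : Tree) (C : M3) (w : List J), chk p t C w = true →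
    ∀ v v' : V, X m v → X m v' → C.act v = smul p v' → word w.length v ≠ w
  | .leaf c, C, w, h, v, v', hv, hv', hC => by
    intro hw
    refine fark_false (v := v) (fark_of_farkL h) (rowsP_pos hb hp0 hp3 w v v' I3 C 1 one_pos hv hv' hC ?_ hw)
    rw [I3_act]; ext <;> simp [smul]
  | .R a b c, C, w, h, v, v', hv, hv', hC => by
    intro hw
    simp only [chk, Bool.and_eq_true] at h
    have key : ∀ j, letter (F^[w.length] v) = j → word (w ++ [j]).length v = w ++ [j] := by
      intro j hj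
      have h1 : word (w.length + 1) v = word w.length v ++ word 1 (F^[w.length] v) := by
        have : ∀ (a b : ℕ) (v : V), word (a + b) v = word a v ++ word b (F^[a] v) := by
          intro a b
          induction a with
          | zero => intro v; simp [word]
          | succ a ih =>
            intro v
            rw [show a + 1 + b = (a + b) + 1 by ring]
            simp only [word, List.cons_append, Function.iterate_succ, Function.comp]
            rw [ih (F v)]
        exact this _ _ _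
      rw [List.length_append, List.length_singleton, h1, hw]
      simp [word, hj]
    cases hl : letter (F^[w.length] v)
    · exact chk_sound hb hm hp0 hp2 hp3 a C _ h.1.1 v v' hv hv' hC (key _ hl)
    · exact chk_sound hb hm hp0 hp2 hp3 b C _ h.1.2 v v' hv hv' hC (key _ hl)
    · exact chk_sound hb hm hp0 hp2 hp3 c C _ h.2 v v' hv hv' hC (key _ hl)
  | .L a b c, C, w, h, v, v', hv, hv', hC => by
    intro hw
    simp only [chk, Bool.and_eq_true] at h
    have key : ∀ j, letter (Finv v) = j → word (j :: w).length (Finv v) = j :: w := by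
      intro j hj
      simp only [List.length_cons, word, hj, F_Finv hv, hw]
    cases hl : letter (Finv v)
    · cases hp : prv p C .E with
      | none => rw [hp] at h; simp at h
      | some x =>
        rw [hp] at h
        obtain ⟨j2, C'⟩ := x
        exact chk_sound hb hm hp0 hp2 hp3 a C' _ h.1.1 _ _ (X_Finv hv) (X_Finv hv')
          (prv_sound hm hp2 hp3 hv hv' hC (by rw [hl]; exact hp)) (key _ hl)
    · cases hp : prv p C .P with
      | none => rw [hp] at h; simp at h
      | some x =>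
        rw [hp] at h
        obtain ⟨j2, C'⟩ := x
        exact chk_sound hb hm hp0 hp2 hp3 b C' _ h.1.2 _ _ (X_Finv hv) (X_Finv hv')
          (prv_sound hm hp2 hp3 hv hv' hC (by rw [hl]; exact hp)) (key _ hl)
    · cases hp : prv p C .Q with
      | none => rw [hp] at h; simp at h
      | some x =>
        rw [hp] at h
        obtain ⟨j2, C'⟩ := x
        exact chk_sound hb hm hp0 hp2 hp3 c C' _ h.2 _ _ (X_Finv hv) (X_Finv hv')
          (prv_sound hm hp2 hp3 hv hv' hC (by rw [hl]; exact hp)) (key _ hl)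

end Pool.Agent.Lib.H63.TSP
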