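import Mathlib
import Pool.Agent.Lib.H63.TSPPair

/-!
# Under `Bad m` every vector of `X m` is on the axis, or of one special shape, or the itineraries
contain `EEP` or `EPQP` (up to the symmetry `σ`)
-/

set_option autoImplicit false

namespace Pool.Agent.Lib.H63.TSP

lemma no_PP {m : ℤ} (hb : Bad m) {v : V} (hv : X m v) : word 2 v ≠ [.P, .P] :=
  impossible hb (w := [.P, .P]) (cert := [(0,3),(1,4),(2,2),(6,1)]) (by decide +kernel) hv

lemma no_QQ {m : ℤ} (hb : Bad m) {v : V} (hv : X m v) : word 2 v ≠ [.Q, .Q] :=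
  impossible hb (w := [.Q, .Q]) (cert := [(0,4),(1,3),(3,2),(7,1)]) (by decide +kernel) hv

lemma no_EPE {m : ℤ} (hb : Bad m) {v : V} (hv : X m v) : word 3 v ≠ [.E, .P, .E] :=
  impossible hb (w := [.E, .P, .E]) (cert := [(1,27),(3,12),(6,8),(11,1)]) (by decide +kernel) hv

lemma no_EQE {m : ℤ} (hb : Bad m) {v : V} (hv : X m v) : word 3 v ≠ [.E, .Q, .E] :=
  impossible hb (w := [.E, .Q, .E]) (cert := [(0,27),(2,12),(7,8),(10,1)]) (by decide +kernel) hv

lemma no_PEQ {m : ℤ} (hb : Bad m) {v : V} (hv : X m v) : word 3 v ≠ [.P, .E, .Q] :=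
  impossible hb (w := [.P, .E, .Q]) (cert := [(0,36),(1,15),(7,10),(11,1)]) (by decide +kernel) hv

lemma no_QEP {m : ℤ} (hb : Bad m) {v : V} (hv : X m v) : word 3 v ≠ [.Q, .E, .P] :=
  impossible hb (w := [.Q, .E, .P]) (cert := [(0,15),(1,36),(6,10),(10,1)]) (by decide +kernel) hv

lemma word_sg {m : ℤ} : ∀ (K : ℕ) {v : V}, X m v → word K (sg v) = (word K v).map sgJ
  | 0, _, _ => rfl
  | K + 1, v, hv => by
    simp only [word, List.map_cons]
    rw [letter_sg hv, F_sg hv, word_sg K (X_F hv)]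

/-- some vector has an itinerary starting with `EEP` or `EPQP` -/
def Pat (m : ℤ) : Prop := ∃ u, X m u ∧ (word 3 u = [.E, .E, .P] ∨ word 4 u = [.E, .P, .Q, .P])

lemma not_pat {m : ℤ} (h : ¬ Pat m) {u : V} (hu : X m u) :
    word 3 u ≠ [.E, .E, .P] ∧ word 3 u ≠ [.E, .E, .Q] ∧ word 4 u ≠ [.E, .P, .Q, .P] ∧
      word 4 u ≠ [.E, .Q, .P, .Q] := by
  refine ⟨fun hw => h ⟨u, hu, Or.inl hw⟩, fun hw => h ⟨sg u, X_sg hu, Or.inl ?_⟩,
    fun hw => h ⟨u, hu, Or.inr hw⟩, fun hw => h ⟨sg u, X_sg hu, Or.inr ?_⟩⟩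
  · rw [word_sg 3 hu, hw]; rfl
  · rw [word_sg 4 hu, hw]; rfl

lemma allE {m : ℤ} (h : ¬ Pat m) : ∀ (k : ℕ) (u : V), X m u → letter u = .E → letter (F u) = .E →
    letter (F^[k] u) = .E
  | 0, _, _, h1, _ => h1
  | k + 1, u, hu, h1, h2 => by
    have h3 := not_pat h hu
    have h4 : letter (F (F u)) = .E := by
      cases hl : letter (F (F u))
      · rfl
      · exact absurd (by simp [word, h1, h2, hl]) h3.1
      · exact absurd (by simp [word, h1, h2, hl]) h3.2.1
    exact allE h k (F u) (X_F hu) h2 h4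

lemma F_inj {m : ℤ} {u v : V} (hu : X m u) (hv : X m v) (h : F u = F v) : u = v := by
  rw [← Finv_F hu, ← Finv_F hv, h]

lemma F_iter_inj {m : ℤ} : ∀ (k : ℕ) {u v : V}, X m u → X m v → F^[k] u = F^[k] v → u = v
  | 0, _, _, _, _, h => h
  | k + 1, _, _, hu, hv, h => F_inj hu hv (F_iter_inj k (X_F hu) (X_F hv) h)

lemma F_fix_iter {u : V} (h : F u = u) (k : ℕ) : F^[k] u = u := by
  induction k with
  | zero => rfl
  | succ k ih => rw [iter_succ, h, ih]

/-- if `EE` occurs in the orbit of `v` then `v` is on the axis -/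
lemma axis_of_EE {m : ℤ} (hm : m % 3 = 1) (h : ¬ Pat m) {v : V} (hv : X m v) (k : ℕ)
    (h1 : letter (F^[k] v) = .E) (h2 : letter (F (F^[k] v)) = .E) :
    v.e = 0 ∧ v.p + v.q = 0 ∧ F v = v := by
  have hw := X_iter hv k
  obtain ⟨he, hpq, hF⟩ := axis_of_allE hm hw (fun j => allE h j _ hw h1 h2)
  have : v = F^[k] v := F_iter_inj k hv hw (by rw [F_fix_iter hF k])
  rw [← this] at he hpq hF
  exact ⟨he, hpq, hF⟩

/-- the class of vectors with letters `E, P` -/
lemma step_P {m : ℤ} (hm : m % 3 = 1) (hb : Bad m) (h : ¬ Pat m) {u : V} (hu : X m u)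
    (h0 : letter u = .E) (h1 : letter (F u) = .P) :
    letter (F (F u)) = .Q ∧ letter (F (F (F u))) = .E ∧ letter (F (F (F (F u)))) = .Q := by
  have hu1 := X_F hu
  have hu2 := X_F hu1
  have hu3 := X_F hu2
  have a2 : letter (F (F u)) = .Q := by
    cases hl : letter (F (F u))
    · exact absurd (by simp [word, h0, h1, hl]) (no_EPE hb hu)
    · exact absurd (by simp [word, h1, hl]) (no_PP hb hu1)
    · rfl
  have a3 : letter (F (F (F u))) = .E := by
    cases hl : letter (F (F (F u)))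
    · rfl
    · exact absurd (by simp [word, h0, h1, a2, hl]) (not_pat h hu).2.2.1
    · exact absurd (by simp [word, a2, hl]) (no_QQ hb hu2)
  refine ⟨a2, a3, ?_⟩
  cases hl : letter (F (F (F (F u))))
  · exfalso
    have := (axis_of_EE hm h hu 3 a3 hl).2.2
    rw [this, h0] at h1
    exact absurd h1 (by decide)
  · exact absurd (by simp [word, a2, a3, hl]) (no_QEP hb hu2)
  · rfl

lemma word_three (K : ℕ) (u : V) : word (K + 3) u =
    letter u :: letter (F u) :: letter (F (F u)) :: word K (F (F (F u))) := rfl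

lemma words_P {m : ℤ} (hm : m % 3 = 1) (hb : Bad m) (h : ¬ Pat m) : ∀ (K : ℕ) (u v : V),
    X m u → X m v → letter u = .E → letter (F u) = .P → letter v = .E → letter (F v) = .P →
    word (3 * K) u = word (3 * K) v
  | 0, _, _, _, _, _, _, _, _ => rfl
  | K + 1, u, v, hu, hv, u0, u1, v0, v1 => by
    obtain ⟨u2, u3, u4⟩ := step_P hm hb h hu u0 u1
    obtain ⟨v2, v3, v4⟩ := step_P hm hb h hv v0 v1
    have hu3 := X_F (X_F (X_F hu))
    have hv3 := X_F (X_F (X_F hv))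
    have ih := words_P hm hb h K (sg (F (F (F u)))) (sg (F (F (F v)))) (X_sg hu3) (X_sg hv3)
      (by rw [letter_sg hu3, u3]; rfl) (by rw [F_sg hu3, letter_sg (X_F hu3), u4]; rfl)
      (by rw [letter_sg hv3, v3]; rfl) (by rw [F_sg hv3, letter_sg (X_F hv3), v4]; rfl)
    rw [word_sg _ hu3, word_sg _ hv3] at ih
    have inj : Function.Injective sgJ := by
      intro a b hab; cases a <;> cases b <;> simp_all [sgJ]
    have ih' := (List.map_injective_iff.2 inj) ih
    rw [show 3 * (K + 1) = 3 * K + 3 by ring, word_three, word_three, u0, u1, u2, v0, v1, v2, ih']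

lemma fix_P {m : ℤ} (hm : m % 3 = 1) (hb : Bad m) (h : ¬ Pat m) {u : V} (hu : X m u)
    (u0 : letter u = .E) (u1 : letter (F u) = .P) : u.e = 0 ∧ u.p = -7 * u.q := by
  obtain ⟨u2, u3, u4⟩ := step_P hm hb h hu u0 u1
  have hu1 := X_F hu
  have hu2 := X_F hu1
  have hu3 := X_F hu2
  obtain ⟨K, hK⟩ : ∃ K : ℕ, 4 * m < 3 ^ (3 * K) := by
    obtain ⟨K, hK⟩ := pow_unbounded_of_one_lt (4 * m) (show (1 : ℤ) < 27 by norm_num)
    exact ⟨K, by rw [pow_mul]; exact hK⟩
  have heq : u = sg (F (F (F u))) := inject hm hK hu (X_sg hu3)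
    (words_P hm hb h K u _ hu (X_sg hu3) u0 u1 (by rw [letter_sg hu3, u3]; rfl)
      (by rw [F_sg hu3, letter_sg (X_F hu3), u4]; rfl))
  have g1 : (Gm .E).act u = smul 3 (F u) := by rw [← u0]; exact Gm_act hu
  have g2 : (Gm .P).act (F u) = smul 3 (F (F u)) := by rw [← u1]; exact Gm_act hu1
  have g3 : (Gm .Q).act (F (F u)) = smul 3 (F (F (F u))) := by rw [← u2]; exact Gm_act hu2
  have s1 := congrArg V.e g1
  have s2 := congrArg V.p g1
  have s3 := congrArg V.q g1
  have t1 := congrArg V.e g2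
  have t2 := congrArg V.p g2
  have t3 := congrArg V.q g2
  have r1 := congrArg V.e g3
  have r2 := congrArg V.p g3
  have r3 := congrArg V.q g3
  have q1 := congrArg V.e heq
  have q2 := congrArg V.p heq
  have q3 := congrArg V.q heq
  simp only [Gm, M3.act, dot, smul, sg] at s1 s2 s3 t1 t2 t3 r1 r2 r3 q1 q2 q3
  constructor <;> omega

/-- divisibility propagates along the inverse of `F` -/
lemma dvd_of_F {m k : ℤ} (hk : IsCoprime k 3) {v : V} (hv : X m v)
    (h : k ∣ (F v).e ∧ k ∣ (F v).p ∧ k ∣ (F v).q) : k ∣ v.e ∧ k ∣ v.p ∧ k ∣ v.q := by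
  have h1 : (Gm (letter v)).tr.act (smul 3 (F v)) = smul 9 v := by
    rw [← Gm_act hv]; exact Gm_tr_Gm _ _
  have hk9 : IsCoprime k 9 := by
    have : (9 : ℤ) = 3 ^ 2 := by norm_num
    rw [this]; exact hk.pow_right
  obtain ⟨⟨a, ha⟩, ⟨b, hb⟩, ⟨c, hc⟩⟩ := h
  have e1 := congrArg V.e h1
  have e2 := congrArg V.p h1
  have e3 := congrArg V.q h1
  simp only [M3.act, smul, dot] at e1 e2 e3
  rw [ha, hb, hc] at e1 e2 e3
  have key : ∀ x y z : ℤ, k ∣ x * (3 * (k * a)) + y * (3 * (k * b)) + z * (3 * (k * c)) :=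
    fun x y z => ⟨x * 3 * a + y * 3 * b + z * 3 * c, by ring⟩
  exact ⟨hk9.dvd_of_dvd_mul_left (e1 ▸ key _ _ _), hk9.dvd_of_dvd_mul_left (e2 ▸ key _ _ _),
    hk9.dvd_of_dvd_mul_left (e3 ▸ key _ _ _)⟩

lemma dvd_of_iter {m k : ℤ} (hk : IsCoprime k 3) : ∀ (j : ℕ) {v : V}, X m v →
    (k ∣ (F^[j] v).e ∧ k ∣ (F^[j] v).p ∧ k ∣ (F^[j] v).q) → k ∣ v.e ∧ k ∣ v.p ∧ k ∣ v.q
  | 0, _, _, h => h
  | j + 1, v, hv, h => dvd_of_F hk hv (dvd_of_iter hk j (X_F hv) h)

/-- the special shape -/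
def Sp (m : ℤ) (v : V) : Prop := ∃ k : ℤ, 25 * k ^ 2 = m ∧ k ∣ v.e ∧ k ∣ v.p ∧ k ∣ v.q

lemma sp_of_P {m : ℤ} (hm : m % 3 = 1) (hb : Bad m) (h : ¬ Pat m) {u : V} (hu : X m u)
    (u0 : letter u = .E) (u1 : letter (F u) = .P) :
    25 * u.q ^ 2 = m ∧ u.q ∣ u.e ∧ u.q ∣ u.p ∧ u.q ∣ u.q := by
  obtain ⟨h1, h2⟩ := fix_P hm hb h hu u0 u1
  refine ⟨?_, by rw [h1]; exact dvd_zero _, ⟨-7, by rw [h2]; ring⟩, dvd_refl _⟩
  have h3 := hu.1
  rw [h1, h2] at h3
  linarith [h3, show (0 : ℤ) ^ 2 + (-7 * u.q) ^ 2 + u.q ^ 2 = 2 * (25 * u.q ^ 2) by ring]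

lemma coprime_three_of_sq {m k : ℤ} (hm : m % 3 = 1) (h : 25 * k ^ 2 = m) : IsCoprime k 3 := by
  have h3 : ¬ (3 : ℤ) ∣ k := by
    rintro ⟨c, rfl⟩
    have : m = 3 * (75 * c ^ 2) := by rw [← h]; ring
    omega
  rw [isCoprime_comm]
  exact (Prime.coprime_iff_not_dvd Int.prime_three).2 h3

/-- The trichotomy. -/
theorem trichotomy {m : ℤ} (hm : m % 3 = 1) (hm2 : m % 2 = 1) (hb : Bad m) (h : ¬ Pat m) {v : V}
    (hv : X m v) : (v.e = 0 ∧ v.p + v.q = 0) ∨ Sp m v := by
  by_cases hE : ∃ k, letter (F^[k] v) = .E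
  · obtain ⟨k, hk⟩ := hE
    have hu := X_iter hv k
    cases hl : letter (F (F^[k] v))
    · left
      obtain ⟨h1, h2, -⟩ := axis_of_EE hm h hv k hk hl
      exact ⟨h1, h2⟩
    · right
      obtain ⟨h1, h2⟩ := sp_of_P hm hb h hu hk hl
      exact ⟨_, h1, dvd_of_iter (coprime_three_of_sq hm h1) k hv h2⟩
    · right
      have hs := X_sg hu
      obtain ⟨h1, h2⟩ := sp_of_P hm hb h hs (by rw [letter_sg hu, hk]; rfl)
        (by rw [F_sg hu, letter_sg (X_F hu), hl]; rfl)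
      refine ⟨_, h1, dvd_of_iter (coprime_three_of_sq hm h1) k hv ?_⟩
      obtain ⟨d1, d2, d3⟩ := h2
      refine ⟨?_, ?_, ?_⟩
      · have : (F^[k] v).e = -(sg (F^[k] v)).e := by simp [sg]
        rw [this]; exact (dvd_neg).2 d1
      · have : (F^[k] v).p = -(sg (F^[k] v)).q := by simp [sg]
        rw [this]; exact (dvd_neg).2 d3
      · have : (F^[k] v).q = -(sg (F^[k] v)).p := by simp [sg]
        rw [this]; exact (dvd_neg).2 d2
  · exfalso
    push Not at hE
    -- letters alternate between P and Q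
    have alt : ∀ u : V, X m u → (∀ k, letter (F^[k] u) ≠ .E) → letter u = .P →
        letter (F u) = .Q ∧ letter (F (F u)) = .P := by
      intro u hu hne h0
      have n1 := hne 1
      have n2 := hne 2
      simp only [Function.iterate_succ, Function.iterate_zero, Function.comp, id] at n1 n2
      have a1 : letter (F u) = .Q := by
        cases hl : letter (F u)
        · exact absurd hl n1
        · exact absurd (by simp [word, h0, hl]) (no_PP hb hu)
        · rfl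
      refine ⟨a1, ?_⟩
      cases hl : letter (F (F u))
      · exact absurd hl n2
      · rfl
      · exact absurd (by simp [word, a1, hl]) (no_QQ hb (X_F hu))
    have nxt2 : ∀ u : V, (∀ k, letter (F^[k] u) ≠ .E) → (∀ k, letter (F^[k] (F (F u))) ≠ .E) :=
      fun u hu k => hu (k + 2)
    have words : ∀ (K : ℕ) (u w : V), X m u → X m w → (∀ k, letter (F^[k] u) ≠ .E) →
        (∀ k, letter (F^[k] w) ≠ .E) → letter u = .P → letter w = .P →
        word (2 * K) u = word (2 * K) w := by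
      intro K
      induction K with
      | zero => intros; rfl
      | succ K ih =>
        intro u w hu hw nu nw u0 w0
        obtain ⟨u1, u2⟩ := alt u hu nu u0
        obtain ⟨w1, w2⟩ := alt w hw nw w0
        have := ih (F (F u)) (F (F w)) (X_F (X_F hu)) (X_F (X_F hw)) (nxt2 u nu) (nxt2 w nw) u2 w2
        rw [show 2 * (K + 1) = 2 * K + 2 by ring]
        simp only [word, u0, u1, w0, w1, this]
    -- a vector with letter P
    obtain ⟨u, hu, nu, u0⟩ : ∃ u, X m u ∧ (∀ k, letter (F^[k] u) ≠ .E) ∧ letter u = .P := by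
      cases hl : letter v
      · exact absurd hl (hE 0)
      · exact ⟨v, hv, hE, hl⟩
      · refine ⟨F v, X_F hv, fun k => hE (k + 1), ?_⟩
        cases hl2 : letter (F v)
        · exact absurd hl2 (hE 1)
        · rfl
        · exact absurd (by simp [word, hl, hl2]) (no_QQ hb hv)
    obtain ⟨u1, u2⟩ := alt u hu nu u0
    have hu1 := X_F hu
    have hu2 := X_F hu1
    obtain ⟨K, hK⟩ : ∃ K : ℕ, 4 * m < 3 ^ (2 * K) := by
      obtain ⟨K, hK⟩ := pow_unbounded_of_one_lt (4 * m) (show (1 : ℤ) < 9 by norm_num)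
      exact ⟨K, by rw [pow_mul]; exact hK⟩
    have heq : u = F (F u) := inject hm hK hu hu2 (words K u _ hu hu2 nu (nxt2 u nu) u0 u2)
    have g1 : (Gm .P).act u = smul 3 (F u) := by rw [← u0]; exact Gm_act hu
    have g2 : (Gm .Q).act (F u) = smul 3 (F (F u)) := by rw [← u1]; exact Gm_act hu1
    have hodd := odd_pq hm2 hu
    have s1 := congrArg V.e g1
    have s2 := congrArg V.p g1
    have s3 := congrArg V.q g1
    have t1 := congrArg V.e g2
    have t2 := congrArg V.p g2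
    have t3 := congrArg V.q g2
    have q1 := congrArg V.e heq
    have q2 := congrArg V.p heq
    have q3 := congrArg V.q heq
    simp only [Gm, M3.act, dot, smul] at s1 s2 s3 t1 t2 t3
    omega

end Pool.Agent.Lib.H63.TSP
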