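import Mathlib
import Pool.Agent.Lib.H63.TSPRun

/-!
# The step at a prime `p` for which `-2m` is a square modulo `p`
-/

set_option autoImplicit false

namespace Pool.Agent.Lib.H63.TSP

section iso
variable {p : ℕ} [Fact p.Prime]

/-- an isotropic vector orthogonal to a given vector of norm `-s²` -/
lemma exists_iso (hp2 : p ≠ 2) (x y z s : ZMod p) (h : x ^ 2 + y ^ 2 + z ^ 2 + s ^ 2 = 0) :
    ∃ a b c : ZMod p, (a ≠ 0 ∨ b ≠ 0 ∨ c ≠ 0) ∧ a ^ 2 + b ^ 2 + c ^ 2 = 0 ∧
      a * x + b * y + c * z = 0 := by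
  have two : (2 : ZMod p) ≠ 0 := by
    intro h2
    have h3 : ((2 : ℕ) : ZMod p) = 0 := by exact_mod_cast h2
    rw [ZMod.natCast_eq_zero_iff] at h3
    exact hp2 ((Nat.prime_dvd_prime_iff_eq (Fact.out : p.Prime) Nat.prime_two).1 h3)
  by_cases h0 : x = 0 ∧ y = 0 ∧ z = 0
  · obtain ⟨rfl, rfl, rfl⟩ := h0
    obtain ⟨a, b, hab⟩ := ZMod.sq_add_sq p (-1)
    exact ⟨1, a, b, Or.inl one_ne_zero, by linear_combination hab, by ring⟩
  by_cases h1 : s ^ 2 + x ^ 2 ≠ 0 ∨ x * y - s * z ≠ 0 ∨ x * z + s * y ≠ 0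
  · exact ⟨_, _, _, h1, by linear_combination (s ^ 2 + x ^ 2) * h,
      by linear_combination x * h⟩
  by_cases h2 : x * y + s * z ≠ 0 ∨ s ^ 2 + y ^ 2 ≠ 0 ∨ y * z - s * x ≠ 0
  · exact ⟨_, _, _, h2, by linear_combination (s ^ 2 + y ^ 2) * h,
      by linear_combination y * h⟩
  by_cases h3 : x * z - s * y ≠ 0 ∨ y * z + s * x ≠ 0 ∨ s ^ 2 + z ^ 2 ≠ 0
  · exact ⟨_, _, _, h3, by linear_combination (s ^ 2 + z ^ 2) * h,
      by linear_combination z * h⟩
  exfalso
  push Not at h1 h2 h3
  have hs : s = 0 := by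
    have h4 : (2 : ZMod p) * s ^ 2 = 0 := by
      linear_combination h1.1 + h2.2.1 + h3.2.2 - h
    rcases mul_eq_zero.1 h4 with h5 | h5
    · exact absurd h5 two
    · exact pow_eq_zero_iff (two_ne_zero) |>.1 h5
  subst hs
  apply h0
  refine ⟨?_, ?_, ?_⟩
  · exact pow_eq_zero_iff (two_ne_zero) |>.1 (by linear_combination h1.1)
  · exact pow_eq_zero_iff (two_ne_zero) |>.1 (by linear_combination h2.2.1)
  · exact pow_eq_zero_iff (two_ne_zero) |>.1 (by linear_combination h3.2.2)

/-- normalised version -/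
lemma exists_iso_norm (hp2 : p ≠ 2) (x y z s : ZMod p) (h : x ^ 2 + y ^ 2 + z ^ 2 + s ^ 2 = 0) :
    (∃ b c : ZMod p, 1 + b ^ 2 + c ^ 2 = 0 ∧ x + b * y + c * z = 0) ∨
    (∃ c : ZMod p, 1 + c ^ 2 = 0 ∧ y + c * z = 0) := by
  obtain ⟨a, b, c, h0, h1, h2⟩ := exists_iso hp2 x y z s h
  by_cases ha : a = 0
  · right
    subst ha
    have hb : b ≠ 0 := by
      rintro rfl
      have hc : c = 0 := pow_eq_zero_iff (two_ne_zero) |>.1 (by linear_combination h1)
      subst hc
      simp at h0
    refine ⟨c / b, ?_, ?_⟩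
    · field_simp; linear_combination h1
    · field_simp; linear_combination h2
  · left
    refine ⟨b / a, c / a, ?_, ?_⟩
    · field_simp; linear_combination h1
    · field_simp; linear_combination h2

end iso

/-- the data attached to a class of rotations of level `p` -/
structure Cls where
  C : M3
  /-- isotropic line modulo `p`: `(1, b, c)`, or `(0, 1, c)` when the flag is `false` -/
  fl : Bool
  b : ℕ
  c : ℕ
  t1 : Tree
  t2 : Tree

/-- the rows of `C` are multiples of `(1, b, c)` respectively `(0, 1, c)` modulo `p` -/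
def Cls.par (p : ℤ) (K : Cls) : Bool :=
  [K.C.r1, K.C.r2, K.C.r3].all fun r =>
    if K.fl then decide ((r.p - r.e * K.b) % p = 0) && decide ((r.q - r.e * K.c) % p = 0)
    else decide (r.e % p = 0) && decide ((r.q - r.p * K.c) % p = 0)

/-- `C` is `p` times a rotation or reflection -/
def orth (p : ℤ) (C : M3) : Bool :=
  decide (C.tr.mul C = ⟨⟨p ^ 2, 0, 0⟩, ⟨0, p ^ 2, 0⟩, ⟨0, 0, p ^ 2⟩⟩)

def Cls.ok (p : ℤ) (K : Cls) : Bool :=
  Lab p K.C && orth p K.C && K.par p && chk p K.t1 K.C [.E, .E, .P] &&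
    chk p K.t2 K.C [.E, .P, .Q, .P]

/-- all isotropic lines `(1, b, c)` are covered, for `b` in a range of given length -/
def scan (p : ℕ) : ℕ → ℕ → List Cls → Bool
  | 0, _, _ => true
  | k + 1, b, L =>
    if ((p * p - 1 - b * b) ^ ((p - 1) / 2)) % p = p - 1 then scan p k (b + 1) L
    else
      match L with
      | [] => false
      | K :: L' => K.fl && K.b == b && (K.c * K.c + b * b + 1) % p == 0 &&
        (if K.c = 0 then scan p k (b + 1) L'
        else
          match L' with
          | [] => false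
          | K2 :: L2 => K2.fl && K2.b == b && K2.c + K.c == p && decide (K.c < p) &&
            scan p k (b + 1) L2)

lemma scan_sound {p : ℕ} (hp : p.Prime) (hp2 : p ≠ 2) : ∀ (k b : ℕ) (L : List Cls), b + k ≤ p →
    scan p k b L = true → ∀ b', b ≤ b' → b' < b + k → ∀ c : ZMod p, 1 + (b' : ZMod p) ^ 2 + c ^ 2 = 0 →
    ∃ K ∈ L, K.fl = true ∧ K.b = b' ∧ K.c = c.val
  | 0, b, L, _, _, b', h1, h2, _, _ => by omega
  | k + 1, b, L, hbk, h, b', h1, h2, c, hc => by
    have : Fact p.Prime := ⟨hp⟩
    have hp1 : 1 < p := hp.one_lt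
    unfold scan at h
    split_ifs at h with hres
    · rcases Nat.lt_or_ge b b' with h3 | h3
      · exact scan_sound hp hp2 k (b + 1) L (by omega) h b' (by omega) (by omega) c hc
      · exfalso
        have hbb : b' = b := by omega
        subst hbb
        have hle : 1 + b' * b' ≤ p * p := by
          have : b' + 1 ≤ p := by omega
          nlinarith
        have h4 : (((p * p - 1 - b' * b' : ℕ)) : ZMod p) = c ^ 2 := by
          rw [Nat.sub_sub, Nat.cast_sub hle]
          push_cast
          rw [ZMod.natCast_self]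
          linear_combination -hc
        have h5 : (((p * p - 1 - b' * b' : ℕ)) : ZMod p) ^ ((p - 1) / 2) = -1 := by
          have h6 : ((((p * p - 1 - b' * b') ^ ((p - 1) / 2)) % p : ℕ) : ZMod p) = -1 := by
            rw [hres, Nat.cast_sub hp1.le]; simp
          rw [ZMod.natCast_mod] at h6
          rw [← h6]; push_cast; rfl
        rw [h4, ← pow_mul] at h5
        have hodd : p % 2 = 1 := by
          rcases hp.eq_two_or_odd with h | h
          · exact absurd h hp2
          · exact h
        rw [show 2 * ((p - 1) / 2) = p - 1 by omega] at h5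
        have two : (2 : ZMod p) ≠ 0 := by
          intro h2
          have h3 : ((2 : ℕ) : ZMod p) = 0 := by exact_mod_cast h2
          rw [ZMod.natCast_eq_zero_iff] at h3
          exact hp2 ((Nat.prime_dvd_prime_iff_eq hp Nat.prime_two).1 h3)
        by_cases hc0 : c = 0
        · rw [hc0, zero_pow (by omega)] at h5
          have : (1 : ZMod p) = 0 := by linear_combination h5
          exact one_ne_zero this
        · rw [ZMod.pow_card_sub_one_eq_one hc0] at h5
          exact two (by linear_combination h5)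
    · cases L with
      | nil => simp at h
      | cons K L' =>
        simp only [Bool.and_eq_true, beq_iff_eq] at h
        obtain ⟨⟨⟨hfl, hKb⟩, hsq⟩, h⟩ := h
        have hz : (K.c : ZMod p) * K.c + b * b + 1 = 0 := by
          have := (ZMod.natCast_eq_zero_iff _ p).2 (Nat.dvd_of_mod_eq_zero hsq)
          push_cast at this
          exact this
        by_cases hK0 : K.c = 0
        · rw [if_pos hK0] at h
          rcases Nat.lt_or_ge b b' with h3 | h3
          · obtain ⟨K', hK', h4⟩ :=
              scan_sound hp hp2 k (b + 1) L' (by omega) h b' (by omega) (by omega) c hc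
            exact ⟨K', List.mem_cons_of_mem _ hK', h4⟩
          · have hbb : b' = b := by omega
            subst hbb
            refine ⟨K, List.mem_cons_self, hfl, hKb, ?_⟩
            have hc0 : c = 0 := by
              rw [hK0] at hz
              apply pow_eq_zero_iff (two_ne_zero) |>.1
              push_cast at hz
              linear_combination hc - hz
            rw [hc0, hK0, ZMod.val_zero]
        · rw [if_neg hK0] at h
          cases L' with
          | nil => simp at h
          | cons K2 L2 =>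
            simp only [Bool.and_eq_true, beq_iff_eq, decide_eq_true_eq] at h
            obtain ⟨⟨⟨⟨hfl2, hKb2⟩, hsum⟩, hlt⟩, h⟩ := h
            rcases Nat.lt_or_ge b b' with h3 | h3
            · obtain ⟨K', hK', h4⟩ :=
                scan_sound hp hp2 k (b + 1) L2 (by omega) h b' (by omega) (by omega) c hc
              exact ⟨K', List.mem_cons_of_mem _ (List.mem_cons_of_mem _ hK'), h4⟩
            · have hbb : b' = b := by omega
              subst hbb
              have hcases : (c - K.c) * (c + K.c) = 0 := by linear_combination hc - hz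
              rcases mul_eq_zero.1 hcases with h5 | h5
              · refine ⟨K, List.mem_cons_self, hfl, hKb, ?_⟩
                have h6 : c = (K.c : ZMod p) := by linear_combination h5
                rw [h6, ZMod.val_natCast, Nat.mod_eq_of_lt hlt]
              · refine ⟨K2, List.mem_cons_of_mem _ List.mem_cons_self, hfl2, hKb2, ?_⟩
                have h7 : ((K2.c + K.c : ℕ) : ZMod p) = 0 := by rw [hsum]; simp
                push_cast at h7
                have h6 : c = (K2.c : ZMod p) := by linear_combination h5 - h7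
                have hlt : K2.c < p := by omega
                rw [h6, ZMod.val_natCast, Nat.mod_eq_of_lt hlt]

/-- all isotropic lines are covered: the classes of type `(0, 1, c)` come first, then those of type
`(1, b, c)` in increasing order of `b` -/
def cover (p : ℕ) (L : List Cls) : Bool :=
  match L with
  | [] => false
  | K :: L' =>
    if K.fl then decide (p % 4 = 3) && scan p p 0 L
    else
      match L' with
      | [] => false
      | K2 :: L2 => !K2.fl && (K.c * K.c + 1) % p == 0 && K2.c + K.c == p && scan p p 0 L2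

lemma orth_norm {p : ℤ} {C : M3} (h : orth p C = true) (v : V) :
    (C.act v).e ^ 2 + (C.act v).p ^ 2 + (C.act v).q ^ 2 = p ^ 2 * (v.e ^ 2 + v.p ^ 2 + v.q ^ 2) := by
  simp only [orth, decide_eq_true_eq] at h
  have h1 : dot v ((C.tr.mul C).act v) = p ^ 2 * (v.e ^ 2 + v.p ^ 2 + v.q ^ 2) := by
    rw [h]; simp only [M3.act, dot]; ring
  rw [act_mul] at h1
  rw [← h1]
  simp only [M3.act, M3.tr, dot]
  ring

lemma cover_one {p : ℕ} (hp : p.Prime) (hp2 : p ≠ 2) {L : List Cls} (hc : cover p L = true)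
    (b : ℕ) (hb : b < p) (c : ZMod p) (h : 1 + (b : ZMod p) ^ 2 + c ^ 2 = 0) :
    ∃ K ∈ L, K.fl = true ∧ K.b = b ∧ K.c = c.val := by
  cases L with
  | nil => simp [cover] at hc
  | cons K L' =>
    unfold cover at hc
    dsimp only at hc
    by_cases hK : K.fl = true
    · rw [if_pos hK, Bool.and_eq_true] at hc
      exact scan_sound hp hp2 p 0 _ (by omega) hc.2 b (by omega) (by omega) c h
    · rw [if_neg hK] at hc
      cases L' with
      | nil => simp at hc
      | cons K2 L2 =>
        simp only [Bool.and_eq_true] at hc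
        obtain ⟨K', hK', h4⟩ :=
          scan_sound hp hp2 p 0 L2 (by omega) hc.2 b (by omega) (by omega) c h
        exact ⟨K', List.mem_cons_of_mem _ (List.mem_cons_of_mem _ hK'), h4⟩

lemma cover_zero {p : ℕ} (hp : p.Prime) {L : List Cls} (hc : cover p L = true)
    (c : ZMod p) (h : 1 + c ^ 2 = 0) : ∃ K ∈ L, K.fl = false ∧ K.c = c.val := by
  have : Fact p.Prime := ⟨hp⟩
  cases L with
  | nil => simp [cover] at hc
  | cons K L' =>
    unfold cover at hc
    dsimp only at hc
    by_cases hK : K.fl = true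
    · exfalso
      rw [if_pos hK, Bool.and_eq_true, decide_eq_true_eq] at hc
      have h1 : IsSquare (-1 : ZMod p) := ⟨c, by linear_combination -h⟩
      exact (ZMod.exists_sq_eq_neg_one_iff.1 h1) hc.1
    · rw [if_neg hK] at hc
      cases L' with
      | nil => simp at hc
      | cons K2 L2 =>
        simp only [Bool.and_eq_true, beq_iff_eq, Bool.not_eq_true'] at hc
        obtain ⟨⟨⟨hfl2, hsq⟩, hsum⟩, -⟩ := hc
        have hfl : K.fl = false := by simpa using hK
        have hz : (K.c : ZMod p) * K.c + 1 = 0 := by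
          have := (ZMod.natCast_eq_zero_iff _ p).2 (Nat.dvd_of_mod_eq_zero hsq)
          push_cast at this
          exact this
        have hne : K.c ≠ 0 := by
          intro h0
          rw [h0] at hz
          simp at hz
        have hne2 : K2.c ≠ 0 := by
          intro h0
          have : K.c = p := by omega
          rw [this] at hz
          simp at hz
        have hcases : (c - K.c) * (c + K.c) = 0 := by linear_combination h - hz
        rcases mul_eq_zero.1 hcases with h5 | h5
        · refine ⟨K, List.mem_cons_self, hfl, ?_⟩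
          have h6 : c = (K.c : ZMod p) := by linear_combination h5
          have hlt : K.c < p := by omega
          rw [h6, ZMod.val_natCast, Nat.mod_eq_of_lt hlt]
        · refine ⟨K2, List.mem_cons_of_mem _ List.mem_cons_self, hfl2, ?_⟩
          have h7 : ((K2.c + K.c : ℕ) : ZMod p) = 0 := by rw [hsum]; simp
          push_cast at h7
          have h6 : c = (K2.c : ZMod p) := by linear_combination h5 - h7
          have hlt : K2.c < p := by omega
          rw [h6, ZMod.val_natCast, Nat.mod_eq_of_lt hlt]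

/-- existence of a class killing `v` modulo `p` -/
lemma exists_cls {p : ℕ} (hp : p.Prime) (hp2 : p ≠ 2) {L : List Cls} (hc : cover p L = true)
    (hpar : ∀ K ∈ L, K.par p = true) {v : V} {s : ℤ}
    (h : (p : ℤ) ∣ v.e ^ 2 + v.p ^ 2 + v.q ^ 2 + s ^ 2) :
    ∃ K ∈ L, ∃ v' : V, K.C.act v = smul p v' := by
  have : Fact p.Prime := ⟨hp⟩
  have hpos : 0 < p := hp.pos
  have key : ∀ K : Cls, ((p : ℤ) ∣ dot K.C.r1 v ∧ (p : ℤ) ∣ dot K.C.r2 v ∧
      (p : ℤ) ∣ dot K.C.r3 v) → ∃ v' : V, K.C.act v = smul p v' := by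
    rintro K ⟨⟨a, ha⟩, ⟨b, hb⟩, ⟨c, hc⟩⟩
    exact ⟨⟨a, b, c⟩, by ext <;> simp only [M3.act, smul] <;> assumption⟩
  have hz : ((v.e : ZMod p)) ^ 2 + (v.p : ZMod p) ^ 2 + (v.q : ZMod p) ^ 2 + (s : ZMod p) ^ 2 = 0 := by
    have := (ZMod.intCast_zmod_eq_zero_iff_dvd _ p).2 h
    push_cast at this
    exact this
  rcases exists_iso_norm hp2 _ _ _ _ hz with ⟨b, c, h1, h2⟩ | ⟨c, h1, h2⟩
  · have hb : ((b.val : ℕ) : ZMod p) = b := ZMod.natCast_zmod_val b
    have hcc : ((c.val : ℕ) : ZMod p) = c := ZMod.natCast_zmod_val c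
    have hmem : ∃ K ∈ L, K.fl = true ∧ K.b = b.val ∧ K.c = c.val :=
      cover_one hp hp2 hc b.val (ZMod.val_lt b) c (by rw [hb]; exact h1)
    obtain ⟨K, hK, hfl, hKb, hKc⟩ := hmem
    refine ⟨K, hK, key K ?_⟩
    have hp' := hpar K hK
    simp only [Cls.par, List.all_cons, List.all_nil, hfl, if_true, Bool.and_eq_true,
      decide_eq_true_eq, Bool.and_true] at hp'
    have row : ∀ r : V, (r.p - r.e * K.b) % (p : ℤ) = 0 → (r.q - r.e * K.c) % (p : ℤ) = 0 →
        (p : ℤ) ∣ dot r v := by
      intro r h4 h5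
      have h6 := (ZMod.intCast_zmod_eq_zero_iff_dvd _ p).2 (Int.dvd_of_emod_eq_zero h4)
      have h7 := (ZMod.intCast_zmod_eq_zero_iff_dvd _ p).2 (Int.dvd_of_emod_eq_zero h5)
      rw [← ZMod.intCast_zmod_eq_zero_iff_dvd]
      push_cast at h6 h7
      rw [hKb, hb] at h6
      rw [hKc, hcc] at h7
      simp only [dot]
      push_cast
      linear_combination (r.e : ZMod p) * h2 + (v.p : ZMod p) * h6 + (v.q : ZMod p) * h7
    exact ⟨row _ hp'.1.1 hp'.1.2, row _ hp'.2.1.1 hp'.2.1.2, row _ hp'.2.2.1 hp'.2.2.2⟩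
  · have hcc : ((c.val : ℕ) : ZMod p) = c := ZMod.natCast_zmod_val c
    have hmem : ∃ K ∈ L, K.fl = false ∧ K.c = c.val := cover_zero hp hc c h1
    obtain ⟨K, hK, hfl, hKc⟩ := hmem
    refine ⟨K, hK, key K ?_⟩
    have hp' := hpar K hK
    simp only [Cls.par, List.all_cons, List.all_nil, hfl, Bool.and_eq_true,
      decide_eq_true_eq, Bool.and_true, Bool.false_eq_true, if_false] at hp'
    have row : ∀ r : V, r.e % (p : ℤ) = 0 → (r.q - r.p * K.c) % (p : ℤ) = 0 →
        (p : ℤ) ∣ dot r v := by
      intro r h4 h5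
      have h6 := (ZMod.intCast_zmod_eq_zero_iff_dvd _ p).2 (Int.dvd_of_emod_eq_zero h4)
      have h7 := (ZMod.intCast_zmod_eq_zero_iff_dvd _ p).2 (Int.dvd_of_emod_eq_zero h5)
      rw [← ZMod.intCast_zmod_eq_zero_iff_dvd]
      push_cast at h6 h7
      rw [hKc, hcc] at h7
      simp only [dot]
      push_cast
      linear_combination (r.p : ZMod p) * h2 + (v.e : ZMod p) * h6 + (v.q : ZMod p) * h7
    exact ⟨row _ hp'.1.1 hp'.1.2, row _ hp'.2.1.1 hp'.2.1.2, row _ hp'.2.2.1 hp'.2.2.2⟩

/-- the property established by the data at `p` -/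
def PrimeOk (p : ℕ) : Prop := ∀ m : ℤ, m % 6 = 1 → Bad m → Pat m →
  IsSquare ((-2 * m : ℤ) : ZMod p) → False

theorem primeOk {p : ℕ} (hp : p.Prime) (hp2 : p ≠ 2) (hp3 : p ≠ 3) (L : List Cls)
    (hc : cover p L = true) (hok : L.all (Cls.ok p) = true) :
    PrimeOk p := by
  intro m hm hb hpat hsq
  have : Fact p.Prime := ⟨hp⟩
  have hpos : (0 : ℤ) < p := by exact_mod_cast hp.pos
  have hpodd : (p : ℤ) % 2 = 1 := by
    rcases hp.eq_two_or_odd with h | h
    · exact absurd h hp2
    · omega
  have hp3' : (p : ℤ) % 3 ≠ 0 := by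
    intro h
    apply hp3
    have : (3 : ℕ) ∣ p := by omega
    exact ((Nat.prime_dvd_prime_iff_eq Nat.prime_three hp).1 this).symm
  obtain ⟨u, hu, hw⟩ := hpat
  obtain ⟨s, hs⟩ := hsq
  have hdvd : (p : ℤ) ∣ u.e ^ 2 + u.p ^ 2 + u.q ^ 2 + (s.val : ℤ) ^ 2 := by
    rw [← ZMod.intCast_zmod_eq_zero_iff_dvd, hu.1]
    push_cast
    rw [ZMod.natCast_zmod_val]
    push_cast at hs
    linear_combination -hs
  have hall : ∀ K ∈ L, K.ok p = true := fun K hK => (List.all_eq_true.1 hok) K hK
  obtain ⟨K, hK, v', hv'⟩ := exists_cls hp hp2 hc (fun K hK => by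
    have := hall K hK
    simp only [Cls.ok, Bool.and_eq_true] at this
    exact this.1.1.2) hdvd
  have hok' := hall K hK
  simp only [Cls.ok, Bool.and_eq_true] at hok'
  obtain ⟨⟨⟨⟨k1, k2⟩, k3⟩, k4⟩, k5⟩ := hok'
  have hX' : X m v' := by
    apply lab_sound (by omega) hpodd hp3' hu k1 hv'
    have h1 := orth_norm k2 u
    rw [hv', hu.1] at h1
    simp only [smul] at h1
    have h2 : (p : ℤ) ^ 2 * (v'.e ^ 2 + v'.p ^ 2 + v'.q ^ 2) = (p : ℤ) ^ 2 * (2 * m) := by
      rw [← h1]; ring
    exact mul_left_cancel₀ (by positivity) h2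
  rcases hw with hw | hw
  · exact chk_sound hb (by omega) hpos hpodd hp3' K.t1 K.C _ k4 u v' hu hX' hv' hw
  · exact chk_sound hb (by omega) hpos hpodd hp3' K.t2 K.C _ k5 u v' hu hX' hv' hw

end Pool.Agent.Lib.H63.TSP
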