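import Mathlib
import Pool.Agent.Lib.H63.TSPPrime

/-!
# Generated certificates for the primes 47, 89, 149, 293
-/

set_option autoImplicit false

namespace Pool.Agent.Lib.H63.TSP

def L47 : List Cls := [
⟨⟨⟨-21,-42,-2⟩,⟨18,-11,42⟩,⟨-38,18,21⟩⟩,true,2,18,.leaf [(0,799),(1,47),(4,11),(5,19)],.leaf [(0,799),(1,47),(4,11),(5,19)]⟩,
⟨⟨⟨21,42,-2⟩,⟨18,-11,-42⟩,⟨-38,18,-21⟩⟩,true,2,29,.leaf [(0,2209),(4,77),(5,68),(15,12)],.leaf [(0,2491),(4,83),(5,56),(10,564)]⟩,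
⟨⟨⟨27,34,-18⟩,⟨-38,27,-6⟩,⟨6,18,43⟩⟩,true,3,15,.leaf [(1,1128),(2,1739),(4,48),(6,23)],.leaf [(1,1128),(2,1739),(4,48),(6,23)]⟩,
⟨⟨⟨27,34,18⟩,⟨-38,27,6⟩,⟨-6,-18,43⟩⟩,true,3,32,.leaf [(4,45),(6,105),(11,2209),(15,23)],.leaf [(0,30),(2,25),(6,1),(10,6)]⟩,
⟨⟨⟨27,-6,-38⟩,⟨18,43,6⟩,⟨34,-18,27⟩⟩,true,5,16,.L (.L (.leaf [(5,108),(6,54),(10,2209),(14,1)]) (.leaf [(0,48),(1,40),(2,45),(4,1)]) (.leaf [(0,39),(1,13),(3,57),(4,1)])) (.leaf [(0,216),(11,85),(15,1)]) (.leaf [(0,7),(1,42),(3,30),(4,1)]),.leaf [(3,188),(4,1),(7,4),(10,47)]⟩,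
⟨⟨⟨-27,6,-38⟩,⟨18,43,-6⟩,⟨34,-18,-27⟩⟩,true,5,31,.leaf [(4,123),(5,684),(14,82),(18,2209)],.leaf [(1,513),(3,306),(10,196),(15,1)]⟩,
⟨⟨⟨-11,42,-18⟩,⟨-18,-21,-38⟩,⟨-42,-2,21⟩⟩,true,9,23,.leaf [(4,108),(7,54),(11,2209),(15,1)],.leaf [(0,23),(2,35),(4,1),(10,5)]⟩,
⟨⟨⟨-11,42,18⟩,⟨18,21,-38⟩,⟨-42,-2,-21⟩⟩,true,9,24,.R (.leaf [(0,168),(3,49),(7,4),(27,1)]) (.leaf [(0,1425),(3,176),(7,32),(26,5)]) (.leaf [(3,13254),(7,30),(14,85),(30,1)]),.leaf [(0,75),(3,26),(7,2),(10,5)]⟩,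
⟨⟨⟨-21,-38,-18⟩,⟨-2,21,-42⟩,⟨42,-18,-11⟩⟩,true,13,21,.leaf [(0,47),(1,470),(5,10),(6,9)],.leaf [(0,47),(1,470),(5,10),(6,9)]⟩,
⟨⟨⟨-21,-38,18⟩,⟨-2,21,42⟩,⟨-42,18,-11⟩⟩,true,13,26,.leaf [(0,53),(1,29),(2,3),(5,1)],.leaf [(0,53),(1,29),(2,3),(5,1)]⟩,
⟨⟨⟨27,-18,34⟩,⟨6,43,18⟩,⟨-38,-6,27⟩⟩,true,15,3,.leaf [(0,1128),(3,1739),(5,48),(7,23)],.leaf [(0,1128),(3,1739),(5,48),(7,23)]⟩,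
⟨⟨⟨-27,18,34⟩,⟨6,43,-18⟩,⟨-38,-6,-27⟩⟩,true,15,44,.leaf [(5,513),(7,525),(10,10387),(18,1645)],.leaf [(1,216),(10,85),(14,1)]⟩,
⟨⟨⟨27,-38,-6⟩,⟨34,27,-18⟩,⟨18,6,43⟩⟩,true,16,5,.leaf [(2,2491),(5,56),(6,83),(18,188)],.leaf [(2,1175),(5,40),(6,19),(10,376)]⟩,
⟨⟨⟨27,-38,6⟩,⟨34,27,18⟩,⟨-18,-6,43⟩⟩,true,16,42,.leaf [(2,225),(11,26),(15,2),(18,5)],.leaf [(2,611),(5,56),(6,39),(10,752)]⟩,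
⟨⟨⟨-21,-2,-42⟩,⟨-38,21,18⟩,⟨18,42,-11⟩⟩,true,18,2,.leaf [(1,1786),(3,141),(4,44),(5,23)],.leaf [(1,1786),(3,141),(4,44),(5,23)]⟩,
⟨⟨⟨-21,-2,42⟩,⟨-38,21,-18⟩,⟨-18,-42,-11⟩⟩,true,18,45,.leaf [(3,85),(5,1),(18,8)],.leaf [(3,517),(5,1),(6,12),(10,188)]⟩,
⟨⟨⟨43,18,6⟩,⟨-6,27,-38⟩,⟨-18,34,27⟩⟩,true,19,22,.leaf [(0,8836),(5,121),(7,54),(15,33)],.leaf [(0,21),(2,154),(7,4),(10,33)]⟩,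
⟨⟨⟨43,18,-6⟩,⟨6,-27,-38⟩,⟨-18,34,-27⟩⟩,true,19,25,.leaf [(0,799),(1,47),(4,11),(5,19)],.leaf [(0,799),(1,47),(4,11),(5,19)]⟩,
⟨⟨⟨-21,-18,-38⟩,⟨42,-11,-18⟩,⟨-2,-42,21⟩⟩,true,21,13,.leaf [(0,470),(1,47),(4,10),(7,9)],.leaf [(0,470),(1,47),(4,10),(7,9)]⟩,
⟨⟨⟨21,18,-38⟩,⟨42,-11,18⟩,⟨-2,-42,-21⟩⟩,true,21,34,.leaf [(1,3),(2,29),(3,53),(4,1)],.leaf [(1,3),(2,29),(3,53),(4,1)]⟩,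
⟨⟨⟨43,6,18⟩,⟨-18,27,34⟩,⟨-6,-38,27⟩⟩,true,22,19,.leaf [(1,8836),(4,121),(6,54),(14,33)],.leaf [(1,351),(3,669),(10,221),(22,1)]⟩,
⟨⟨⟨43,6,-18⟩,⟨18,-27,34⟩,⟨-6,-38,-27⟩⟩,true,22,28,.leaf [(0,30),(1,52),(2,3),(4,1)],.leaf [(0,30),(1,52),(2,3),(4,1)]⟩,
⟨⟨⟨-11,-18,42⟩,⟨-42,21,-2⟩,⟨-18,-38,-21⟩⟩,true,23,9,.leaf [(5,108),(6,54),(10,2209),(14,1)],.leaf [(1,4418),(5,10),(6,85),(22,1)]⟩,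
⟨⟨⟨-11,-18,-42⟩,⟨42,-21,-2⟩,⟨-18,-38,21⟩⟩,true,23,38,.leaf [(0,2726),(3,22325),(4,502),(23,5)],.leaf [(0,1),(3,100),(4,2),(10,5)]⟩,
⟨⟨⟨-11,18,42⟩,⟨-42,-21,-2⟩,⟨18,-38,21⟩⟩,true,24,9,.leaf [(1,84),(2,11),(6,2),(18,1)],.leaf [(1,28),(2,21),(4,1),(10,18)]⟩,
⟨⟨⟨-11,18,-42⟩,⟨42,21,-2⟩,⟨18,-38,-21⟩⟩,true,24,38,.leaf [(3,69),(7,3),(10,35),(18,5)],.leaf [(1,94),(3,987),(4,28),(15,3)]⟩,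
⟨⟨⟨43,-6,18⟩,⟨-18,-27,34⟩,⟨6,-38,-27⟩⟩,true,25,19,.leaf [(1,940),(2,141),(4,25),(5,12)],.leaf [(1,940),(2,141),(4,25),(5,12)]⟩,
⟨⟨⟨43,-6,-18⟩,⟨18,27,34⟩,⟨6,-38,27⟩⟩,true,25,28,.leaf [(4,1026),(6,231),(15,364),(18,2209)],.leaf [(1,378),(3,258),(10,119),(14,1)]⟩,
⟨⟨⟨-21,18,-38⟩,⟨-42,-11,18⟩,⟨-2,42,21⟩⟩,true,26,13,.leaf [(0,29),(1,53),(3,3),(4,1)],.leaf [(0,29),(1,53),(3,3),(4,1)]⟩,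
⟨⟨⟨21,-18,-38⟩,⟨-42,-11,-18⟩,⟨-2,42,-21⟩⟩,true,26,34,.leaf [(2,470),(3,47),(4,10),(5,9)],.leaf [(2,470),(3,47),(4,10),(5,9)]⟩,
⟨⟨⟨43,-18,6⟩,⟨-6,-27,-38⟩,⟨18,34,-27⟩⟩,true,28,22,.leaf [(0,94),(2,141),(4,3),(5,4)],.leaf [(0,94),(2,141),(4,3),(5,4)]⟩,
⟨⟨⟨43,-18,-6⟩,⟨6,27,-38⟩,⟨18,34,27⟩⟩,true,28,25,.leaf [(5,351),(7,669),(14,221),(18,2209)],.leaf [(0,121),(2,54),(5,4),(10,33)]⟩,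
⟨⟨⟨21,-2,42⟩,⟨-38,-21,18⟩,⟨18,-42,-11⟩⟩,true,29,2,.leaf [(1,2209),(4,68),(5,77),(14,12)],.R (.leaf [(1,2769),(4,21),(10,1127),(35,13)]) (.leaf [(1,14820),(4,174),(10,4775),(34,13)]) (.leaf [(1,645216),(4,8220),(10,204215),(38,13)])⟩,
⟨⟨⟨21,-2,-42⟩,⟨-38,-21,-18⟩,⟨-18,42,-11⟩⟩,true,29,45,.leaf [(1,188),(2,423),(4,13),(5,4)],.leaf [(1,188),(2,423),(4,13),(5,4)]⟩,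
⟨⟨⟨-27,-38,6⟩,⟨34,-27,-18⟩,⟨18,-6,43⟩⟩,true,31,5,.leaf [(4,1071),(5,777),(15,377),(18,2209)],.leaf [(0,329),(4,77),(5,72),(10,1128)]⟩,
⟨⟨⟨-27,-38,-6⟩,⟨34,-27,18⟩,⟨-18,6,43⟩⟩,true,31,42,.leaf [(0,236034),(5,2403),(18,24158),(23,41)],.leaf [(0,2021),(4,53),(5,72),(10,564)]⟩,
⟨⟨⟨27,18,34⟩,⟨-6,43,-18⟩,⟨-38,6,27⟩⟩,true,32,3,.leaf [(5,45),(7,105),(10,2209),(14,23)],.leaf [(1,513),(3,288),(10,184),(15,1)]⟩,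
⟨⟨⟨-27,-18,34⟩,⟨-6,43,18⟩,⟨-38,6,-27⟩⟩,true,32,44,.leaf [(0,24),(1,37),(3,24),(5,1)],.leaf [(0,24),(1,37),(3,24),(5,1)]⟩,
⟨⟨⟨21,-38,18⟩,⟨-2,-21,-42⟩,⟨42,18,-11⟩⟩,true,34,21,.leaf [(0,3),(2,53),(3,29),(5,1)],.leaf [(0,3),(2,53),(3,29),(5,1)]⟩,
⟨⟨⟨21,-38,-18⟩,⟨-2,-21,42⟩,⟨-42,-18,-11⟩⟩,true,34,26,.leaf [(1,235),(3,846),(4,20),(5,17)],.leaf [(1,235),(3,846),(4,20),(5,17)]⟩,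
⟨⟨⟨-11,-42,-18⟩,⟨-18,21,-38⟩,⟨42,-2,-21⟩⟩,true,38,23,.leaf [(1,10),(2,85),(5,2),(18,1)],.leaf [(1,23),(2,35),(5,1),(10,5)]⟩,
⟨⟨⟨-11,-42,18⟩,⟨18,-21,-38⟩,⟨42,-2,21⟩⟩,true,38,24,.leaf [(2,3),(6,6),(11,100),(18,5)],.leaf [(0,30),(2,28),(6,1),(10,5)]⟩,
⟨⟨⟨27,6,-38⟩,⟨-18,43,-6⟩,⟨34,18,27⟩⟩,true,42,16,.leaf [(3,28),(4,1),(10,7),(18,6)],.leaf [(1,423),(5,18),(10,376),(15,1)]⟩,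
⟨⟨⟨-27,-6,-38⟩,⟨-18,43,6⟩,⟨34,18,-27⟩⟩,true,42,31,.leaf [(1,13536),(4,105),(14,100),(18,329)],.leaf [(1,85),(5,1),(10,24)]⟩,
⟨⟨⟨-27,34,18⟩,⟨-38,-27,-6⟩,⟨6,-18,43⟩⟩,true,44,15,.leaf [(4,864),(6,105),(11,15416),(18,1645)],.leaf [(0,19),(2,36),(4,1),(10,6)]⟩,
⟨⟨⟨-27,34,-18⟩,⟨-38,-27,6⟩,⟨-6,18,43⟩⟩,true,44,32,.leaf [(0,37),(1,24),(2,24),(4,1)],.leaf [(0,37),(1,24),(2,24),(4,1)]⟩,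
⟨⟨⟨-21,42,-2⟩,⟨-18,-11,-42⟩,⟨-38,-18,21⟩⟩,true,45,18,.leaf [(2,2021),(4,53),(7,72),(18,188)],.leaf [(2,1645),(4,49),(7,24),(10,376)]⟩,
⟨⟨⟨21,-42,-2⟩,⟨-18,-11,42⟩,⟨-38,-18,-21⟩⟩,true,45,29,.leaf [(1,376),(3,1269),(4,24),(5,31)],.leaf [(1,376),(3,1269),(4,24),(5,31)]⟩]

theorem primeOk_47 : PrimeOk 47 := primeOk (by norm_num) (by norm_num) (by norm_num) L47
  (by decide +kernel) (by decide +kernel)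

def L89 : List Cls := [
⟨⟨⟨-89,0,0⟩,⟨0,-39,-80⟩,⟨0,-80,39⟩⟩,false,0,34,.leaf [(0,5696),(2,2225),(4,19),(14,20)],.leaf [(0,1691),(4,64),(6,25),(10,1780)]⟩,
⟨⟨⟨-89,0,0⟩,⟨0,39,-80⟩,⟨0,-80,-39⟩⟩,false,0,55,.leaf [(1,5696),(3,2225),(5,19),(15,20)],.leaf [(1,540),(3,348),(10,281),(14,1)]⟩,
⟨⟨⟨-39,0,-80⟩,⟨0,-89,0⟩,⟨-80,0,39⟩⟩,true,0,34,.leaf [(0,89),(1,65),(3,15),(4,1)],.leaf [(0,89),(1,65),(3,15),(4,1)]⟩,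
⟨⟨⟨39,0,-80⟩,⟨0,-89,0⟩,⟨-80,0,-39⟩⟩,true,0,55,.leaf [(0,65),(1,80),(2,24),(4,1)],.leaf [(0,65),(1,80),(2,24),(4,1)]⟩,
⟨⟨⟨81,-8,36⟩,⟨-8,81,36⟩,⟨-36,-36,73⟩⟩,true,1,40,.leaf [(0,267),(5,4),(6,2),(14,1)],.leaf [(2,1691),(5,24),(6,47),(10,1068)]⟩,
⟨⟨⟨81,-8,-36⟩,⟨-8,81,-36⟩,⟨36,36,73⟩⟩,true,1,49,.leaf [(0,36),(1,72),(2,37),(6,1)],.leaf [(0,36),(1,72),(2,37),(6,1)]⟩,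
⟨⟨⟨-57,64,24⟩,⟨64,39,48⟩,⟨24,48,-71⟩⟩,true,2,23,.leaf [(0,356),(3,1335),(4,20),(5,9)],.leaf [(0,356),(3,1335),(4,20),(5,9)]⟩,
⟨⟨⟨-57,64,-24⟩,⟨64,39,-48⟩,⟨-24,-48,-71⟩⟩,true,2,66,.leaf [(3,7921),(4,96),(5,95),(6,80)],.leaf [(3,7921),(4,96),(5,95),(6,80)]⟩,
⟨⟨⟨81,-24,28⟩,⟨24,-17,-84⟩,⟨28,84,-9⟩⟩,true,3,41,.leaf [(0,99),(1,37),(2,9),(5,1)],.leaf [(0,99),(1,37),(2,9),(5,1)]⟩,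
⟨⟨⟨-81,24,28⟩,⟨24,-17,84⟩,⟨28,84,9⟩⟩,true,3,48,.leaf [(0,2047),(3,2670),(4,47),(5,2)],.leaf [(0,2047),(3,2670),(4,47),(5,2)]⟩,
⟨⟨⟨15,60,64⟩,⟨36,55,-60⟩,⟨-80,36,-15⟩⟩,true,4,28,.L (.leaf [(0,60),(1,94),(3,15),(5,1)]) (.leaf [(0,81),(11,24),(18,4),(26,1)]) (.leaf [(0,101),(1,11),(3,15),(4,1)]),.leaf [(1,891513),(5,16875),(26,66839),(30,35)]⟩,
⟨⟨⟨-15,-60,64⟩,⟨36,55,60⟩,⟨-80,36,15⟩⟩,true,4,61,.leaf [(0,96),(1,40),(3,9),(5,1)],.leaf [(0,96),(1,40),(3,9),(5,1)]⟩,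
⟨⟨⟨55,-60,-36⟩,⟨-36,15,-80⟩,⟨60,64,-15⟩⟩,true,7,22,.leaf [(0,623),(2,1513),(5,17),(7,7)],.leaf [(0,623),(2,1513),(5,17),(7,7)]⟩,
⟨⟨⟨55,-60,36⟩,⟨36,-15,-80⟩,⟨60,64,15⟩⟩,true,7,67,.leaf [(0,70),(1,21),(2,54),(5,1)],.leaf [(0,70),(1,21),(2,54),(5,1)]⟩,
⟨⟨⟨9,28,84⟩,⟨28,-81,24⟩,⟨84,24,-17⟩⟩,true,13,39,.leaf [(0,4094),(2,6675),(4,101),(5,60)],.leaf [(0,4094),(2,6675),(4,101),(5,60)]⟩,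
⟨⟨⟨9,28,-84⟩,⟨28,-81,-24⟩,⟨-84,-24,-17⟩⟩,true,13,50,.leaf [(0,94),(1,60),(2,15),(4,1)],.leaf [(0,94),(1,60),(2,15),(4,1)]⟩,
⟨⟨⟨-17,84,24⟩,⟨84,9,28⟩,⟨24,28,-81⟩⟩,true,16,30,.leaf [(0,2759),(3,1335),(4,45),(5,11)],.leaf [(0,2759),(3,1335),(4,45),(5,11)]⟩,
⟨⟨⟨-17,84,-24⟩,⟨-84,-9,28⟩,⟨24,28,81⟩⟩,true,16,59,.leaf [(0,39),(1,52),(2,54),(4,1)],.leaf [(0,39),(1,52),(2,54),(4,1)]⟩,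
⟨⟨⟨73,36,36⟩,⟨-36,81,-8⟩,⟨-36,-8,81⟩⟩,true,20,20,.leaf [(0,36045),(4,3321),(18,36490),(23,4)],.leaf [(1,7209),(7,108),(10,4984),(15,7)]⟩,
⟨⟨⟨73,36,-36⟩,⟨36,-81,-8⟩,⟨-36,-8,-81⟩⟩,true,20,69,.leaf [(0,54),(1,28),(2,63),(4,1)],.leaf [(0,54),(1,28),(2,63),(4,1)]⟩,
⟨⟨⟨55,-36,-60⟩,⟨60,-15,64⟩,⟨-36,-80,15⟩⟩,true,22,7,.leaf [(1,623),(3,1513),(4,17),(6,7)],.leaf [(1,623),(3,1513),(4,17),(6,7)]⟩,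
⟨⟨⟨55,-36,60⟩,⟨-60,15,64⟩,⟨-36,-80,-15⟩⟩,true,22,82,.leaf [(1,1513),(3,623),(4,7),(6,17)],.leaf [(1,1513),(3,623),(4,7),(6,17)]⟩,
⟨⟨⟨-57,24,64⟩,⟨24,-71,48⟩,⟨64,48,39⟩⟩,true,23,2,.leaf [(0,1424),(2,1335),(4,25),(5,16)],.leaf [(0,1424),(2,1335),(4,25),(5,16)]⟩,
⟨⟨⟨57,-24,64⟩,⟨24,-71,-48⟩,⟨64,48,-39⟩⟩,true,23,87,.leaf [(0,72),(1,91),(3,12),(5,1)],.leaf [(0,72),(1,91),(3,12),(5,1)]⟩,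
⟨⟨⟨-71,-48,24⟩,⟨48,-39,64⟩,⟨-24,64,57⟩⟩,true,27,31,.leaf [(0,712),(1,89),(4,8),(5,7)],.leaf [(0,712),(1,89),(4,8),(5,7)]⟩,
⟨⟨⟨-71,-48,-24⟩,⟨-48,39,64⟩,⟨-24,64,-57⟩⟩,true,27,58,.leaf [(0,623),(1,979),(4,7),(5,11)],.leaf [(0,623),(1,979),(4,7),(5,11)]⟩,
⟨⟨⟨15,64,60⟩,⟨-80,-15,36⟩,⟨36,-60,55⟩⟩,true,28,4,.leaf [(2,561),(4,9),(11,80),(18,34)],.leaf [(0,2759),(4,8),(6,87),(10,2136)]⟩,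
⟨⟨⟨15,64,-60⟩,⟨-80,-15,-36⟩,⟨-36,60,55⟩⟩,true,28,85,.leaf [(0,4),(1,24),(2,75),(4,1)],.leaf [(0,4),(1,24),(2,75),(4,1)]⟩,
⟨⟨⟨-17,24,84⟩,⟨24,-81,28⟩,⟨84,28,9⟩⟩,true,30,16,.leaf [(0,2759),(2,5340),(4,75),(5,56)],.leaf [(0,2759),(2,5340),(4,75),(5,56)]⟩,
⟨⟨⟨-17,24,-84⟩,⟨-24,81,28⟩,⟨84,28,-9⟩⟩,true,30,73,.leaf [(1,7921),(4,52),(5,39),(7,54)],.leaf [(1,7921),(4,52),(5,39),(7,54)]⟩,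
⟨⟨⟨-71,24,-48⟩,⟨-24,57,64⟩,⟨48,64,-39⟩⟩,true,31,27,.leaf [(1,3115),(3,1068),(4,40),(5,33)],.leaf [(1,3115),(3,1068),(4,40),(5,33)]⟩,
⟨⟨⟨-71,24,48⟩,⟨24,-57,64⟩,⟨48,64,39⟩⟩,true,31,62,.leaf [(0,81),(1,1),(3,15),(4,1)],.leaf [(0,81),(1,1),(3,15),(4,1)]⟩,
⟨⟨⟨-39,48,64⟩,⟨-48,-71,24⟩,⟨64,-24,57⟩⟩,true,33,44,.leaf [(2,7921),(4,119),(5,75),(7,35)],.leaf [(2,7921),(4,119),(5,75),(7,35)]⟩,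
⟨⟨⟨39,-48,64⟩,⟨-48,-71,-24⟩,⟨64,-24,-57⟩⟩,true,33,45,.leaf [(0,356),(1,979),(4,4),(5,11)],.leaf [(0,356),(1,979),(4,4),(5,11)]⟩,
⟨⟨⟨-39,-80,0⟩,⟨-80,39,0⟩,⟨0,0,-89⟩⟩,true,34,0,.leaf [(0,65),(1,89),(2,15),(5,1)],.leaf [(0,65),(1,89),(2,15),(5,1)]⟩,
⟨⟨⟨-15,-80,-36⟩,⟨64,15,-60⟩,⟨60,-36,55⟩⟩,true,35,38,.leaf [(1,23763),(5,64),(6,176),(15,49)],.R (.leaf [(1,3978),(5,21),(10,1876),(35,17)]) (.leaf [(1,22338),(5,174),(10,9577),(34,17)]) (.leaf [(5,7047),(10,95052),(22,748),(39,17)])⟩,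
⟨⟨⟨-15,-80,36⟩,⟨64,15,60⟩,⟨-60,36,55⟩⟩,true,35,51,.leaf [(0,2047),(4,7),(5,51),(11,801)],.leaf [(0,26077),(4,142),(5,348),(10,801)]⟩,
⟨⟨⟨-15,-36,-80⟩,⟨60,55,-36⟩,⟨64,-60,15⟩⟩,true,38,35,.leaf [(0,23763),(4,64),(7,176),(14,49)],.leaf [(3,6319),(4,61),(7,81),(10,2225)]⟩,
⟨⟨⟨15,36,-80⟩,⟨60,55,36⟩,⟨64,-60,-15⟩⟩,true,38,54,.leaf [(3,8010),(4,141),(10,2047),(15,2)],.leaf [(3,13),(7,1),(10,29),(26,1)]⟩,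
⟨⟨⟨9,84,28⟩,⟨84,-17,24⟩,⟨28,24,-81⟩⟩,true,39,13,.leaf [(0,9434),(2,1335),(4,109),(5,4)],.leaf [(0,9434),(2,1335),(4,109),(5,4)]⟩,
⟨⟨⟨-9,-84,28⟩,⟨84,-17,-24⟩,⟨28,24,81⟩⟩,true,39,76,.leaf [(0,5963),(2,8989),(5,109),(7,53)],.leaf [(0,5963),(2,8989),(5,109),(7,53)]⟩,
⟨⟨⟨81,36,-8⟩,⟨-36,73,-36⟩,⟨-8,36,81⟩⟩,true,40,1,.leaf [(1,267),(4,4),(7,2),(15,1)],.leaf [(1,2862),(3,1758),(10,1127),(22,1)]⟩,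
⟨⟨⟨-81,-36,-8⟩,⟨-36,73,36⟩,⟨-8,36,-81⟩⟩,true,40,88,.leaf [(0,36),(1,73),(2,36),(5,1)],.leaf [(0,36),(1,73),(2,36),(5,1)]⟩,
⟨⟨⟨81,28,-24⟩,⟨28,-9,84⟩,⟨24,-84,-17⟩⟩,true,41,3,.leaf [(0,37),(1,99),(3,9),(4,1)],.leaf [(0,37),(1,99),(3,9),(4,1)]⟩,
⟨⟨⟨81,28,24⟩,⟨28,-9,-84⟩,⟨-24,84,-17⟩⟩,true,41,86,.leaf [(0,2670),(3,2047),(5,47),(6,2)],.leaf [(0,2670),(3,2047),(5,47),(6,2)]⟩,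
⟨⟨⟨-39,64,48⟩,⟨64,57,-24⟩,⟨-48,24,-71⟩⟩,true,44,33,.leaf [(3,7921),(4,75),(5,119),(6,35)],.leaf [(3,7921),(4,75),(5,119),(6,35)]⟩,
⟨⟨⟨-39,64,-48⟩,⟨64,57,24⟩,⟨48,-24,-71⟩⟩,true,44,56,.leaf [(3,7921),(4,99),(5,23),(6,11)],.leaf [(3,7921),(4,99),(5,23),(6,11)]⟩,
⟨⟨⟨39,64,-48⟩,⟨64,-57,-24⟩,⟨-48,-24,-71⟩⟩,true,45,33,.leaf [(0,85),(1,24),(2,36),(4,1)],.leaf [(0,85),(1,24),(2,36),(4,1)]⟩,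
⟨⟨⟨39,64,48⟩,⟨64,-57,24⟩,⟨48,24,-71⟩⟩,true,45,56,.leaf [(0,8099),(2,5340),(4,119),(5,24)],.leaf [(0,8099),(2,5340),(4,119),(5,24)]⟩,
⟨⟨⟨-81,28,24⟩,⟨28,9,84⟩,⟨24,84,-17⟩⟩,true,48,3,.leaf [(0,2759),(3,6675),(4,101),(5,15)],.leaf [(0,2759),(3,6675),(4,101),(5,15)]⟩,
⟨⟨⟨-81,28,-24⟩,⟨28,9,-84⟩,⟨-24,-84,-17⟩⟩,true,48,86,.leaf [(2,3649),(3,9612),(4,9),(6,94)],.leaf [(2,3649),(3,9612),(4,9),(6,94)]⟩,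
⟨⟨⟨81,-36,-8⟩,⟨36,73,36⟩,⟨-8,-36,81⟩⟩,true,49,1,.leaf [(0,72),(1,36),(3,37),(7,1)],.leaf [(0,72),(1,36),(3,37),(7,1)]⟩,
⟨⟨⟨-81,36,-8⟩,⟨36,73,-36⟩,⟨-8,-36,-81⟩⟩,true,49,88,.leaf [(1,7921),(5,91),(15,18)],.leaf [(1,999),(3,120),(10,80),(23,1)]⟩,
⟨⟨⟨9,-84,28⟩,⟨-84,-17,-24⟩,⟨28,-24,-81⟩⟩,true,50,13,.leaf [(0,60),(1,94),(3,15),(5,1)],.leaf [(0,60),(1,94),(3,15),(5,1)]⟩,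
⟨⟨⟨-9,84,28⟩,⟨-84,-17,24⟩,⟨28,-24,81⟩⟩,true,50,76,.leaf [(0,1335),(2,9434),(4,109),(7,4)],.leaf [(0,1335),(2,9434),(4,109),(7,4)]⟩,
⟨⟨⟨-15,36,-80⟩,⟨-60,55,36⟩,⟨64,60,15⟩⟩,true,51,35,.leaf [(1,2047),(4,51),(5,7),(10,801)],.leaf [(1,7921),(4,87),(5,13),(14,9)]⟩,
⟨⟨⟨15,-36,-80⟩,⟨-60,55,-36⟩,⟨64,60,-15⟩⟩,true,51,54,.leaf [(2,4361),(4,8),(14,19),(18,178)],.leaf [(1,20648),(4,87),(5,152),(10,6675)]⟩,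
⟨⟨⟨15,-80,36⟩,⟨64,-15,-60⟩,⟨60,36,55⟩⟩,true,54,38,.leaf [(2,8010),(5,141),(11,2047),(14,2)],.leaf [(2,8366),(5,108),(6,41),(10,267)]⟩,
⟨⟨⟨15,-80,-36⟩,⟨64,-15,60⟩,⟨-60,-36,55⟩⟩,true,54,51,.L (.leaf [(0,70),(1,21),(2,54),(5,1)]) (.leaf [(0,2349),(7,12),(11,748),(26,17)]) (.leaf [(0,6675),(3,11036),(4,105),(6,26)]),.leaf [(0,27),(3,62),(5,2),(10,61)]⟩,
⟨⟨⟨39,-80,0⟩,⟨-80,-39,0⟩,⟨0,0,-89⟩⟩,true,55,0,.leaf [(1,890),(2,267),(4,13),(5,10)],.leaf [(1,890),(2,267),(4,13),(5,10)]⟩,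
⟨⟨⟨-39,-48,64⟩,⟨48,-71,-24⟩,⟨64,24,57⟩⟩,true,56,44,.leaf [(2,7921),(4,23),(5,99),(7,11)],.leaf [(2,7921),(4,23),(5,99),(7,11)]⟩,
⟨⟨⟨39,48,64⟩,⟨48,-71,24⟩,⟨64,24,-57⟩⟩,true,56,45,.leaf [(0,6764),(2,6675),(4,121),(5,40)],.leaf [(0,6764),(2,6675),(4,121),(5,40)]⟩,
⟨⟨⟨-71,-24,-48⟩,⟨-24,-57,64⟩,⟨-48,64,39⟩⟩,true,58,27,.leaf [(0,33),(1,49),(3,63),(4,1)],.leaf [(0,33),(1,49),(3,63),(4,1)]⟩,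
⟨⟨⟨-71,-24,48⟩,⟨24,57,64⟩,⟨-48,64,-39⟩⟩,true,58,62,.leaf [(0,623),(1,712),(4,1),(5,8)],.leaf [(0,623),(1,712),(4,1),(5,8)]⟩,
⟨⟨⟨-17,-24,84⟩,⟨24,81,28⟩,⟨-84,28,-9⟩⟩,true,59,16,.leaf [(0,52),(1,39),(3,54),(5,1)],.leaf [(0,52),(1,39),(3,54),(5,1)]⟩,
⟨⟨⟨-17,-24,-84⟩,⟨-24,-81,28⟩,⟨-84,28,9⟩⟩,true,59,73,.leaf [(0,57),(1,88),(3,24),(4,1)],.leaf [(0,57),(1,88),(3,24),(4,1)]⟩,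
⟨⟨⟨-15,64,-60⟩,⟨-80,15,36⟩,⟨36,60,55⟩⟩,true,61,4,.leaf [(0,40),(1,96),(2,9),(4,1)],.leaf [(0,40),(1,96),(2,9),(4,1)]⟩,
⟨⟨⟨-15,64,60⟩,⟨-80,15,-36⟩,⟨-36,-60,55⟩⟩,true,61,85,.leaf [(0,53667),(6,609),(11,712),(14,44)],.leaf [(0,4361),(4,8),(6,57),(10,534)]⟩,
⟨⟨⟨-71,48,24⟩,⟨48,39,64⟩,⟨24,64,-57⟩⟩,true,62,31,.leaf [(0,1424),(3,6675),(4,96),(5,35)],.leaf [(0,1424),(3,6675),(4,96),(5,35)]⟩,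
⟨⟨⟨-71,48,-24⟩,⟨-48,-39,64⟩,⟨24,64,57⟩⟩,true,62,58,.leaf [(0,87),(1,76),(3,12),(4,1)],.leaf [(0,87),(1,76),(3,12),(4,1)]⟩,
⟨⟨⟨-57,-24,64⟩,⟨-24,-71,-48⟩,⟨64,-48,39⟩⟩,true,66,2,.leaf [(2,7921),(4,95),(5,96),(7,80)],.leaf [(2,7921),(4,95),(5,96),(7,80)]⟩,
⟨⟨⟨57,24,64⟩,⟨-24,-71,48⟩,⟨64,-48,-39⟩⟩,true,66,87,.leaf [(0,89),(1,712),(4,7),(5,8)],.leaf [(0,89),(1,712),(4,7),(5,8)]⟩,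
⟨⟨⟨55,36,-60⟩,⟨60,15,64⟩,⟨36,-80,-15⟩⟩,true,67,7,.leaf [(0,21),(1,70),(3,54),(4,1)],.leaf [(0,21),(1,70),(3,54),(4,1)]⟩,
⟨⟨⟨55,36,60⟩,⟨-60,-15,64⟩,⟨36,-80,15⟩⟩,true,67,82,.leaf [(1,7921),(4,70),(5,21),(6,54)],.leaf [(1,7921),(4,70),(5,21),(6,54)]⟩,
⟨⟨⟨73,-36,36⟩,⟨-36,-81,-8⟩,⟨36,-8,-81⟩⟩,true,69,20,.leaf [(0,623),(1,979),(4,7),(5,11)],.leaf [(0,623),(1,979),(4,7),(5,11)]⟩,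
⟨⟨⟨73,-36,-36⟩,⟨36,81,-8⟩,⟨36,-8,81⟩⟩,true,69,69,.leaf [(0,43254),(7,3969),(18,43610),(23,5)],.leaf [(3,4806),(5,891),(10,27412),(15,7)]⟩,
⟨⟨⟨-17,-84,24⟩,⟨84,-9,28⟩,⟨-24,28,81⟩⟩,true,73,30,.leaf [(0,7921),(4,39),(5,52),(6,54)],.leaf [(0,7921),(4,39),(5,52),(6,54)]⟩,
⟨⟨⟨-17,-84,-24⟩,⟨-84,9,28⟩,⟨-24,28,-81⟩⟩,true,73,59,.leaf [(1,8989),(3,2136),(4,112),(5,93)],.leaf [(1,8989),(3,2136),(4,112),(5,93)]⟩,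
⟨⟨⟨-9,28,-84⟩,⟨28,81,24⟩,⟨84,-24,-17⟩⟩,true,76,39,.leaf [(1,5963),(3,8989),(4,109),(6,53)],.leaf [(1,5963),(3,8989),(4,109),(6,53)]⟩,
⟨⟨⟨-9,28,84⟩,⟨28,81,-24⟩,⟨-84,24,-17⟩⟩,true,76,50,.leaf [(1,1335),(3,9434),(5,109),(6,4)],.leaf [(1,1335),(3,9434),(5,109),(6,4)]⟩,
⟨⟨⟨55,60,-36⟩,⟨-36,-15,-80⟩,⟨-60,64,15⟩⟩,true,82,22,.leaf [(0,1513),(2,623),(5,7),(7,17)],.leaf [(0,1513),(2,623),(5,7),(7,17)]⟩,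
⟨⟨⟨55,60,36⟩,⟨36,15,-80⟩,⟨-60,64,-15⟩⟩,true,82,67,.leaf [(0,7921),(4,21),(5,70),(7,54)],.leaf [(0,7921),(4,21),(5,70),(7,54)]⟩,
⟨⟨⟨15,-60,64⟩,⟨-36,55,60⟩,⟨-80,-36,-15⟩⟩,true,85,28,.leaf [(0,24),(1,4),(3,75),(5,1)],.leaf [(0,24),(1,4),(3,75),(5,1)]⟩,
⟨⟨⟨-15,60,64⟩,⟨-36,55,-60⟩,⟨-80,-36,15⟩⟩,true,85,61,.leaf [(1,53667),(7,609),(10,712),(15,44)],.leaf [(1,583929),(23,315),(26,18067),(30,145)]⟩,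
⟨⟨⟨81,24,28⟩,⟨-24,-17,84⟩,⟨28,-84,-9⟩⟩,true,86,41,.leaf [(1,2670),(2,2047),(4,47),(7,2)],.leaf [(1,2670),(2,2047),(4,47),(7,2)]⟩,
⟨⟨⟨-81,-24,28⟩,⟨-24,-17,-84⟩,⟨28,-84,9⟩⟩,true,86,48,.leaf [(2,9612),(3,3649),(5,9),(7,94)],.leaf [(2,9612),(3,3649),(5,9),(7,94)]⟩,
⟨⟨⟨57,64,-24⟩,⟨64,-39,48⟩,⟨24,-48,-71⟩⟩,true,87,23,.leaf [(0,91),(1,72),(2,12),(4,1)],.leaf [(0,91),(1,72),(2,12),(4,1)]⟩,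
⟨⟨⟨57,64,24⟩,⟨64,-39,-48⟩,⟨-24,48,-71⟩⟩,true,87,66,.leaf [(0,7565),(2,1068),(4,95),(5,72)],.leaf [(0,7565),(2,1068),(4,95),(5,72)]⟩,
⟨⟨⟨-81,-8,-36⟩,⟨-8,-81,36⟩,⟨-36,36,73⟩⟩,true,88,40,.leaf [(0,73),(1,36),(3,36),(4,1)],.leaf [(0,73),(1,36),(3,36),(4,1)]⟩,
⟨⟨⟨-81,-8,36⟩,⟨-8,-81,-36⟩,⟨36,-36,73⟩⟩,true,88,49,.leaf [(0,7921),(4,91),(14,18)],.leaf [(0,55),(4,1),(10,18)]⟩]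

theorem primeOk_89 : PrimeOk 89 := primeOk (by norm_num) (by norm_num) (by norm_num) L89
  (by decide +kernel) (by decide +kernel)

def L149 : List Cls := [
⟨⟨⟨-149,0,0⟩,⟨0,51,-140⟩,⟨0,-140,-51⟩⟩,false,0,44,.leaf [(5,3105),(7,651),(14,815),(18,22201)],.leaf [(1,11664),(10,2205),(26,308),(30,1)]⟩,
⟨⟨⟨-149,0,0⟩,⟨0,-51,-140⟩,⟨0,-140,51⟩⟩,false,0,105,.leaf [(4,1593),(6,2328),(15,904),(18,22201)],.leaf [(2,2384),(4,84),(6,65),(10,5215)]⟩,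
⟨⟨⟨51,0,-140⟩,⟨0,-149,0⟩,⟨-140,0,-51⟩⟩,true,0,44,.leaf [(0,119),(1,140),(2,30),(4,1)],.leaf [(0,119),(1,140),(2,30),(4,1)]⟩,
⟨⟨⟨-51,0,-140⟩,⟨0,-149,0⟩,⟨-140,0,51⟩⟩,true,0,105,.leaf [(0,149),(1,119),(3,21),(4,1)],.leaf [(0,149),(1,119),(3,21),(4,1)]⟩,
⟨⟨⟨-147,4,24⟩,⟨4,-141,48⟩,⟨24,48,139⟩⟩,true,2,12,.leaf [(0,145),(1,9),(3,15),(4,1)],.leaf [(0,145),(1,9),(3,15),(4,1)]⟩,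
⟨⟨⟨-147,4,-24⟩,⟨4,-141,-48⟩,⟨-24,-48,139⟩⟩,true,2,137,.R (.leaf [(0,604),(3,15),(4,4),(27,3)]) (.leaf [(0,189),(3,144),(18,32),(26,1)]) (.leaf [(4,162),(15,21),(22,14),(31,1)]),.leaf [(0,275),(3,12),(4,2),(10,15)]⟩,
⟨⟨⟨141,-32,36⟩,⟨-32,21,144⟩,⟨-36,-144,13⟩⟩,true,4,70,.leaf [(4,4581),(5,1551),(15,1175),(18,22201)],.leaf [(1,3132),(3,852),(10,781),(22,1)]⟩,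
⟨⟨⟨141,-32,-36⟩,⟨-32,21,-144⟩,⟨36,144,13⟩⟩,true,4,79,.leaf [(0,22350),(2,8791),(5,180),(6,49)],.leaf [(0,22350),(2,8791),(5,180),(6,49)]⟩,
⟨⟨⟨45,76,-120⟩,⟨-140,45,-24⟩,⟨24,120,85⟩⟩,true,5,47,.leaf [(1,21456),(2,9089),(4,180),(6,29)],.leaf [(1,21456),(2,9089),(4,180),(6,29)]⟩,
⟨⟨⟨45,76,120⟩,⟨-140,45,24⟩,⟨-24,-120,85⟩⟩,true,5,102,.leaf [(4,3),(5,4),(6,2),(14,1)],.leaf [(0,72),(2,13),(6,1),(10,36)]⟩,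
⟨⟨⟨141,-48,4⟩,⟨48,139,-24⟩,⟨4,24,147⟩⟩,true,6,74,.leaf [(0,9),(2,15),(3,151),(7,1)],.leaf [(0,9),(2,15),(3,151),(7,1)]⟩,
⟨⟨⟨-141,48,4⟩,⟨48,139,24⟩,⟨4,24,-147⟩⟩,true,6,75,.leaf [(1,4917),(5,39),(10,1937),(14,11)],.leaf [(5,81),(14,24),(23,4),(31,1)]⟩,
⟨⟨⟨-59,-84,108⟩,⟨-36,123,76⟩,⟨-132,4,-69⟩⟩,true,9,31,.leaf [(0,88),(1,96),(3,81),(5,1)],.leaf [(0,88),(1,96),(3,81),(5,1)]⟩,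
⟨⟨⟨-59,-84,-108⟩,⟨36,-123,76⟩,⟨-132,4,69⟩⟩,true,9,118,.leaf [(0,39),(1,64),(3,120),(4,1)],.leaf [(0,39),(1,64),(3,120),(4,1)]⟩,
⟨⟨⟨-147,24,4⟩,⟨24,139,48⟩,⟨4,48,-141⟩⟩,true,12,2,.leaf [(0,149),(1,1639),(4,1),(5,11)],.leaf [(0,149),(1,1639),(4,1),(5,11)]⟩,
⟨⟨⟨147,-24,4⟩,⟨24,139,-48⟩,⟨4,48,141⟩⟩,true,12,147,.leaf [(3,22201),(5,9),(7,148),(15,6)],.leaf [(0,20),(3,71),(5,1),(10,52)]⟩,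
⟨⟨⟨85,-24,120⟩,⟨-120,-45,76⟩,⟨24,-140,-45⟩⟩,true,19,54,.leaf [(1,22201),(4,115),(5,69),(6,81)],.leaf [(1,22201),(4,115),(5,69),(6,81)]⟩,
⟨⟨⟨85,-24,-120⟩,⟨120,45,76⟩,⟨24,-140,45⟩⟩,true,19,95,.leaf [(3,88804),(4,393),(6,322),(14,69)],.leaf [(1,1053),(3,780),(15,5),(26,64)]⟩,
⟨⟨⟨123,76,36⟩,⟨4,-69,132⟩,⟨84,-108,-59⟩⟩,true,20,33,.leaf [(0,61),(1,96),(2,84),(4,1)],.leaf [(0,61),(1,96),(2,84),(4,1)]⟩,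
⟨⟨⟨123,76,-36⟩,⟨4,-69,-132⟩,⟨-84,108,-59⟩⟩,true,20,116,.leaf [(0,22201),(4,109),(5,192),(6,36)],.leaf [(0,22201),(4,109),(5,192),(6,36)]⟩,
⟨⟨⟨-69,-108,76⟩,⟨132,-59,36⟩,⟨4,84,123⟩⟩,true,21,68,.leaf [(0,22201),(4,191),(5,155),(7,75)],.leaf [(0,22201),(4,191),(5,155),(7,75)]⟩,
⟨⟨⟨69,108,76⟩,⟨132,-59,-36⟩,⟨4,84,-123⟩⟩,true,21,81,.leaf [(2,9089),(3,25181),(4,79),(5,171)],.leaf [(2,9089),(3,25181),(4,79),(5,171)]⟩,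
⟨⟨⟨69,-132,4⟩,⟨-108,-59,-84⟩,⟨76,36,-123⟩⟩,true,24,67,.leaf [(0,144),(1,127),(2,24),(5,1)],.leaf [(0,144),(1,127),(2,24),(5,1)]⟩,
⟨⟨⟨-69,132,4⟩,⟨-108,-59,84⟩,⟨76,36,123⟩⟩,true,24,82,.leaf [(0,116),(1,80),(2,75),(4,1)],.leaf [(0,116),(1,80),(2,75),(4,1)]⟩,
⟨⟨⟨139,48,-24⟩,⟨-48,141,4⟩,⟨24,4,147⟩⟩,true,25,62,.leaf [(7,3),(10,1639),(11,149),(14,11)],.leaf [(1,84483),(10,89549),(14,497),(23,33)]⟩,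
⟨⟨⟨139,48,24⟩,⟨48,-141,4⟩,⟨24,4,-147⟩⟩,true,25,87,.leaf [(0,9089),(2,22350),(4,171),(5,20)],.leaf [(0,9089),(2,22350),(4,171),(5,20)]⟩,
⟨⟨⟨-77,84,96⟩,⟨84,-51,112⟩,⟨96,112,-21⟩⟩,true,26,51,.leaf [(0,21605),(3,3129),(4,159),(5,5)],.leaf [(0,21605),(3,3129),(4,159),(5,5)]⟩,
⟨⟨⟨-77,84,-96⟩,⟨-84,51,112⟩,⟨96,112,21⟩⟩,true,26,98,.leaf [(0,33),(1,124),(3,84),(4,1)],.leaf [(0,33),(1,124),(3,84),(4,1)]⟩,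
⟨⟨⟨45,-140,-24⟩,⟨76,45,-120⟩,⟨120,24,85⟩⟩,true,30,69,.leaf [(1,66603),(5,289),(6,542),(14,46)],.leaf [(2,11771),(5,96),(6,23),(10,1788)]⟩,
⟨⟨⟨45,-140,24⟩,⟨76,45,120⟩,⟨-120,-24,85⟩⟩,true,30,80,.leaf [(0,22201),(4,61),(5,216),(14,30)],.leaf [(0,177),(3,98),(5,2),(10,55)]⟩,
⟨⟨⟨-59,108,-84⟩,⟨-132,-69,4⟩,⟨-36,76,123⟩⟩,true,31,9,.leaf [(0,96),(1,88),(2,81),(4,1)],.leaf [(0,96),(1,88),(2,81),(4,1)]⟩,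
⟨⟨⟨-59,108,84⟩,⟨132,69,4⟩,⟨-36,76,-123⟩⟩,true,31,140,.leaf [(0,149),(3,16092),(4,99),(5,116)],.leaf [(0,149),(3,16092),(4,99),(5,116)]⟩,
⟨⟨⟨123,36,76⟩,⟨84,-59,-108⟩,⟨4,132,-69⟩⟩,true,33,20,.leaf [(0,96),(1,61),(3,84),(5,1)],.leaf [(0,96),(1,61),(3,84),(5,1)]⟩,
⟨⟨⟨-123,-36,76⟩,⟨84,-59,108⟩,⟨4,132,69⟩⟩,true,33,129,.leaf [(0,16241),(3,5364),(4,151),(5,76)],.leaf [(0,16241),(3,5364),(4,151),(5,76)]⟩,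
⟨⟨⟨13,144,-36⟩,⟨144,-21,-32⟩,⟨-36,-32,-141⟩⟩,true,34,66,.leaf [(0,150),(1,4),(2,15),(4,1)],.leaf [(0,150),(1,4),(2,15),(4,1)]⟩,
⟨⟨⟨13,144,36⟩,⟨-144,21,-32⟩,⟨-36,-32,141⟩⟩,true,34,83,.leaf [(4,2268),(11,80311),(15,415),(18,16092)],.leaf [(0,36),(1,280),(4,1),(10,87)]⟩,
⟨⟨⟨-21,-32,144⟩,⟨-32,-141,-36⟩,⟨144,-36,13⟩⟩,true,37,57,.leaf [(1,722799),(5,5100),(15,55),(18,9536)],.leaf [(1,13708),(4,23),(5,68),(10,2235)]⟩,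
⟨⟨⟨-21,-32,-144⟩,⟨-32,-141,36⟩,⟨-144,36,13⟩⟩,true,37,92,.leaf [(0,109),(1,150),(3,30),(4,1)],.leaf [(0,109),(1,150),(3,30),(4,1)]⟩,
⟨⟨⟨21,-96,112⟩,⟨96,-77,-84⟩,⟨112,84,51⟩⟩,true,38,55,.leaf [(0,75),(1,61),(2,105),(5,1)],.leaf [(0,75),(1,61),(2,105),(5,1)]⟩,
⟨⟨⟨-21,96,112⟩,⟨96,-77,84⟩,⟨112,84,-51⟩⟩,true,38,94,.leaf [(0,21605),(2,6258),(4,163),(5,28)],.leaf [(0,21605),(2,6258),(4,163),(5,28)]⟩,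
⟨⟨⟨51,-140,0⟩,⟨-140,-51,0⟩,⟨0,0,-149⟩⟩,true,44,0,.leaf [(1,2086),(2,447),(4,17),(5,14)],.leaf [(1,2086),(2,447),(4,17),(5,14)]⟩,
⟨⟨⟨-123,4,84⟩,⟨76,69,108⟩,⟨-36,132,-59⟩⟩,true,46,72,.leaf [(0,447),(1,596),(4,1),(5,4)],.leaf [(0,447),(1,596),(4,1),(5,4)]⟩,
⟨⟨⟨-123,4,-84⟩,⟨76,69,-108⟩,⟨36,-132,-59⟩⟩,true,46,77,.leaf [(0,73),(1,109),(3,83),(6,1)],.leaf [(0,73),(1,109),(3,83),(6,1)]⟩,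
⟨⟨⟨45,-120,76⟩,⟨24,85,120⟩,⟨-140,-24,45⟩⟩,true,47,5,.leaf [(0,21456),(3,9089),(5,180),(7,29)],.leaf [(0,21456),(3,9089),(5,180),(7,29)]⟩,
⟨⟨⟨-45,120,76⟩,⟨24,85,-120⟩,⟨-140,-24,-45⟩⟩,true,47,144,.leaf [(1,107131),(5,1315),(14,540),(18,5364)],.leaf [(3,447),(4,33),(10,1639),(15,1)]⟩,
⟨⟨⟨-77,96,84⟩,⟨96,-21,112⟩,⟨84,112,-51⟩⟩,true,51,26,.leaf [(0,9238),(3,3129),(4,78),(5,7)],.leaf [(0,9238),(3,3129),(4,78),(5,7)]⟩,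
⟨⟨⟨-77,96,-84⟩,⟨-96,21,112⟩,⟨84,112,51⟩⟩,true,51,123,.leaf [(0,75),(1,145),(3,51),(4,1)],.leaf [(0,75),(1,145),(3,51),(4,1)]⟩,
⟨⟨⟨85,120,-24⟩,⟨24,-45,-140⟩,⟨-120,76,-45⟩⟩,true,54,19,.leaf [(0,22201),(4,69),(5,115),(7,81)],.leaf [(0,22201),(4,69),(5,115),(7,81)]⟩,
⟨⟨⟨85,120,24⟩,⟨-24,45,-140⟩,⟨-120,76,45⟩⟩,true,54,130,.leaf [(7,177),(11,9089),(14,9),(18,745)],.leaf [(0,393),(2,322),(7,4),(10,69)]⟩,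
⟨⟨⟨21,112,-96⟩,⟨112,51,84⟩,⟨96,-84,-77⟩⟩,true,55,38,.leaf [(0,61),(1,75),(3,105),(4,1)],.leaf [(0,61),(1,75),(3,105),(4,1)]⟩,
⟨⟨⟨21,112,96⟩,⟨112,51,-84⟩,⟨-96,84,-77⟩⟩,true,55,111,.leaf [(3,22201),(4,42),(5,173),(6,14)],.leaf [(3,22201),(4,42),(5,173),(6,14)]⟩,
⟨⟨⟨-21,144,-32⟩,⟨144,13,-36⟩,⟨-32,-36,-141⟩⟩,true,57,37,.leaf [(0,494829),(14,213),(18,42316),(23,128)],.leaf [(0,243),(3,68),(4,2),(10,19)]⟩,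
⟨⟨⟨21,-144,-32⟩,⟨144,13,36⟩,⟨-32,-36,141⟩⟩,true,57,112,.leaf [(3,22201),(4,180),(5,30),(7,139)],.leaf [(3,22201),(4,180),(5,30),(7,139)]⟩,
⟨⟨⟨-59,36,132⟩,⟨84,123,4⟩,⟨-108,76,-69⟩⟩,true,60,71,.leaf [(0,40),(1,96),(3,105),(5,1)],.leaf [(0,40),(1,96),(3,105),(5,1)]⟩,
⟨⟨⟨-59,36,-132⟩,⟨-84,-123,4⟩,⟨-108,76,69⟩⟩,true,60,78,.leaf [(1,1),(2,159),(3,135),(4,1)],.leaf [(1,1),(2,159),(3,135),(4,1)]⟩,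
⟨⟨⟨139,-24,48⟩,⟨24,147,4⟩,⟨-48,4,141⟩⟩,true,62,25,.leaf [(6,3),(10,149),(11,1639),(15,11)],.leaf [(3,621777),(5,4563),(10,248234),(22,70)]⟩,
⟨⟨⟨139,-24,-48⟩,⟨-24,-147,4⟩,⟨-48,4,-141⟩⟩,true,62,124,.leaf [(0,6),(1,52),(2,117),(4,1)],.leaf [(0,6),(1,52),(2,117),(4,1)]⟩,
⟨⟨⟨-51,-84,112⟩,⟨-84,-77,-96⟩,⟨112,-96,-21⟩⟩,true,63,65,.leaf [(1,23989),(2,1788),(5,166),(7,21)],.leaf [(1,23989),(2,1788),(5,166),(7,21)]⟩,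
⟨⟨⟨51,84,112⟩,⟨-84,-77,96⟩,⟨112,-96,21⟩⟩,true,63,84,.leaf [(2,22201),(4,161),(5,21),(7,5)],.leaf [(2,22201),(4,161),(5,21),(7,5)]⟩,
⟨⟨⟨-51,112,-84⟩,⟨112,-21,-96⟩,⟨-84,-96,-77⟩⟩,true,65,63,.leaf [(0,23989),(3,1788),(4,166),(6,21)],.leaf [(0,23989),(3,1788),(4,166),(6,21)]⟩,
⟨⟨⟨-51,112,84⟩,⟨112,-21,96⟩,⟨84,96,-77⟩⟩,true,65,86,.leaf [(0,18476),(3,3129),(4,140),(5,9)],.leaf [(0,18476),(3,3129),(4,140),(5,9)]⟩,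
⟨⟨⟨13,-36,144⟩,⟨-36,-141,-32⟩,⟨144,-32,-21⟩⟩,true,66,34,.leaf [(0,4),(1,150),(3,15),(5,1)],.leaf [(0,4),(1,150),(3,15),(5,1)]⟩,
⟨⟨⟨13,-36,-144⟩,⟨36,141,-32⟩,⟨144,-32,21⟩⟩,true,66,115,.leaf [(7,288),(10,11771),(14,23),(18,1788)],.leaf [(1,337932),(10,61835),(14,539),(23,108)]⟩,
⟨⟨⟨69,4,-132⟩,⟨76,-123,36⟩,⟨-108,-84,-59⟩⟩,true,67,24,.leaf [(0,127),(1,144),(3,24),(4,1)],.leaf [(0,127),(1,144),(3,24),(4,1)]⟩,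
⟨⟨⟨69,4,132⟩,⟨76,-123,-36⟩,⟨108,84,-59⟩⟩,true,67,125,.leaf [(0,80),(1,155),(3,36),(5,1)],.leaf [(0,80),(1,155),(3,36),(5,1)]⟩,
⟨⟨⟨-69,76,-108⟩,⟨4,123,84⟩,⟨132,36,-59⟩⟩,true,68,21,.leaf [(1,22201),(4,155),(5,191),(6,75)],.leaf [(1,22201),(4,155),(5,191),(6,75)]⟩,
⟨⟨⟨-69,76,108⟩,⟨4,123,-84⟩,⟨-132,-36,-59⟩⟩,true,68,128,.leaf [(0,25181),(1,9089),(5,79),(6,171)],.leaf [(0,25181),(1,9089),(5,79),(6,171)]⟩,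
⟨⟨⟨45,-24,-140⟩,⟨120,85,24⟩,⟨76,-120,45⟩⟩,true,69,30,.leaf [(0,66603),(4,289),(7,542),(15,46)],.leaf [(0,894),(4,1),(7,8),(10,149)]⟩,
⟨⟨⟨-45,24,-140⟩,⟨120,85,-24⟩,⟨76,-120,-45⟩⟩,true,69,119,.L (.leaf [(2,9089),(3,25181),(4,79),(5,171)]) (.leaf [(0,176),(2,65),(4,1),(11,40)]) (.leaf [(1,22201),(4,144),(5,127),(6,24)]),.leaf [(3,6109),(4,44),(7,59),(10,2980)]⟩,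
⟨⟨⟨141,36,-32⟩,⟨-36,13,-144⟩,⟨-32,144,21⟩⟩,true,70,4,.leaf [(4,1428),(5,576),(14,391),(18,22201)],.leaf [(0,3725),(4,13),(5,40),(10,894)]⟩,
⟨⟨⟨-141,-36,-32⟩,⟨-36,13,144⟩,⟨-32,144,-21⟩⟩,true,70,145,.leaf [(1,8791),(3,22350),(4,180),(5,49)],.leaf [(1,8791),(3,22350),(4,180),(5,49)]⟩,
⟨⟨⟨-59,132,36⟩,⟨-108,-69,76⟩,⟨84,4,123⟩⟩,true,71,60,.leaf [(0,96),(1,40),(2,105),(4,1)],.leaf [(0,96),(1,40),(2,105),(4,1)]⟩,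
⟨⟨⟨-59,132,-36⟩,⟨108,69,76⟩,⟨84,4,-123⟩⟩,true,71,89,.leaf [(0,63),(1,4),(3,108),(4,1)],.leaf [(0,63),(1,4),(3,108),(4,1)]⟩,
⟨⟨⟨-123,84,4⟩,⟨-36,-59,132⟩,⟨76,108,69⟩⟩,true,72,46,.leaf [(0,143),(1,92),(3,36),(4,1)],.leaf [(0,143),(1,92),(3,36),(4,1)]⟩,
⟨⟨⟨123,-84,4⟩,⟨-36,-59,-132⟩,⟨76,108,-69⟩⟩,true,72,103,.leaf [(0,156),(1,73),(2,36),(5,1)],.leaf [(0,156),(1,73),(2,36),(5,1)]⟩,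
⟨⟨⟨141,4,-48⟩,⟨4,147,24⟩,⟨48,-24,139⟩⟩,true,74,6,.leaf [(1,9),(2,151),(3,15),(6,1)],.leaf [(1,9),(2,151),(3,15),(6,1)]⟩,
⟨⟨⟨141,4,48⟩,⟨4,147,-24⟩,⟨-48,24,139⟩⟩,true,74,143,.leaf [(2,729),(6,6),(11,68),(18,19)],.leaf [(2,15794),(5,4),(6,109),(10,745)]⟩,
⟨⟨⟨-141,4,48⟩,⟨4,-147,24⟩,⟨48,24,139⟩⟩,true,75,6,.leaf [(0,4917),(4,39),(11,1937),(15,11)],.leaf [(0,142),(2,3),(4,1),(10,6)]⟩,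
⟨⟨⟨-141,4,-48⟩,⟨4,-147,-24⟩,⟨-48,-24,139⟩⟩,true,75,143,.leaf [(0,151),(1,15),(3,9),(4,1)],.leaf [(0,151),(1,15),(3,9),(4,1)]⟩,
⟨⟨⟨-123,-84,4⟩,⟨36,-59,-132⟩,⟨76,-108,69⟩⟩,true,77,46,.leaf [(0,109),(1,73),(2,83),(7,1)],.leaf [(0,109),(1,73),(2,83),(7,1)]⟩,
⟨⟨⟨123,84,4⟩,⟨36,-59,132⟩,⟨76,-108,-69⟩⟩,true,77,103,.leaf [(0,92),(1,128),(2,51),(4,1)],.leaf [(0,92),(1,128),(2,51),(4,1)]⟩,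
⟨⟨⟨-59,-132,36⟩,⟨-108,69,76⟩,⟨-84,4,-123⟩⟩,true,78,60,.leaf [(0,1),(2,135),(3,159),(5,1)],.leaf [(0,1),(2,135),(3,159),(5,1)]⟩,
⟨⟨⟨-59,-132,-36⟩,⟨108,-69,76⟩,⟨-84,4,123⟩⟩,true,78,89,.leaf [(0,22201),(4,96),(5,88),(6,81)],.leaf [(0,22201),(4,96),(5,88),(6,81)]⟩,
⟨⟨⟨141,-36,-32⟩,⟨36,13,144⟩,⟨-32,-144,21⟩⟩,true,79,4,.leaf [(1,22350),(3,8791),(4,180),(7,49)],.leaf [(1,22350),(3,8791),(4,180),(7,49)]⟩,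
⟨⟨⟨-141,36,-32⟩,⟨36,13,-144⟩,⟨-32,-144,-21⟩⟩,true,79,145,.leaf [(2,531),(7,6),(11,98),(18,55)],.leaf [(2,8791),(4,61),(7,96),(10,2980)]⟩,
⟨⟨⟨45,24,-140⟩,⟨-120,85,-24⟩,⟨76,120,45⟩⟩,true,80,30,.leaf [(1,22201),(4,216),(5,61),(15,30)],.leaf [(1,55),(2,36),(5,1),(10,60)]⟩,
⟨⟨⟨-45,-24,-140⟩,⟨-120,85,24⟩,⟨76,120,-45⟩⟩,true,80,119,.leaf [(1,47084),(4,405),(5,260),(18,1341)],.leaf [(1,49),(2,108),(5,1),(10,36)]⟩,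
⟨⟨⟨69,76,108⟩,⟨4,-123,84⟩,⟨132,-36,-59⟩⟩,true,81,21,.leaf [(0,9089),(2,21456),(4,167),(5,24)],.leaf [(0,9089),(2,21456),(4,167),(5,24)]⟩,
⟨⟨⟨69,76,-108⟩,⟨4,-123,-84⟩,⟨-132,36,-59⟩⟩,true,81,128,.leaf [(0,79),(1,24),(2,120),(4,1)],.leaf [(0,79),(1,24),(2,120),(4,1)]⟩,
⟨⟨⟨-69,4,132⟩,⟨76,123,36⟩,⟨-108,84,-59⟩⟩,true,82,24,.leaf [(0,80),(1,116),(3,75),(5,1)],.leaf [(0,80),(1,116),(3,75),(5,1)]⟩,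
⟨⟨⟨-69,4,-132⟩,⟨76,123,-36⟩,⟨108,-84,-59⟩⟩,true,82,125,.leaf [(0,127),(1,151),(3,17),(6,1)],.leaf [(0,127),(1,151),(3,17),(6,1)]⟩,
⟨⟨⟨13,36,144⟩,⟨-36,141,-32⟩,⟨-144,-32,21⟩⟩,true,83,34,.leaf [(5,2592),(10,71669),(14,1049),(18,16092)],.leaf [(3,447),(7,18),(10,1192),(23,1)]⟩,
⟨⟨⟨13,36,-144⟩,⟨36,-141,-32⟩,⟨-144,-32,-21⟩⟩,true,83,115,.leaf [(0,156),(1,112),(2,21),(4,1)],.leaf [(0,156),(1,112),(2,21),(4,1)]⟩,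
⟨⟨⟨51,112,84⟩,⟨112,21,-96⟩,⟨-84,96,-77⟩⟩,true,84,63,.leaf [(3,22201),(4,21),(5,161),(6,5)],.leaf [(3,22201),(4,21),(5,161),(6,5)]⟩,
⟨⟨⟨51,112,-84⟩,⟨112,21,96⟩,⟨84,-96,-77⟩⟩,true,84,86,.leaf [(0,91),(1,105),(3,75),(4,1)],.leaf [(0,91),(1,105),(3,75),(4,1)]⟩,
⟨⟨⟨-51,84,112⟩,⟨84,-77,96⟩,⟨112,96,-21⟩⟩,true,86,65,.leaf [(0,18476),(2,3129),(4,133),(5,16)],.leaf [(0,18476),(2,3129),(4,133),(5,16)]⟩,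
⟨⟨⟨51,-84,112⟩,⟨84,-77,-96⟩,⟨112,96,21⟩⟩,true,86,84,.leaf [(0,105),(1,91),(2,75),(5,1)],.leaf [(0,105),(1,91),(2,75),(5,1)]⟩,
⟨⟨⟨139,24,48⟩,⟨24,-147,4⟩,⟨48,4,-141⟩⟩,true,87,25,.leaf [(0,6854),(2,24585),(4,189),(5,44)],.leaf [(0,6854),(2,24585),(4,189),(5,44)]⟩,
⟨⟨⟨139,24,-48⟩,⟨-24,147,4⟩,⟨48,4,141⟩⟩,true,87,124,.leaf [(4,567),(11,74053),(15,601),(18,4917)],.leaf [(1,599427),(7,3873),(14,1526),(22,70)]⟩,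
⟨⟨⟨-59,-36,132⟩,⟨84,-123,4⟩,⟨108,76,69⟩⟩,true,89,71,.leaf [(0,3725),(2,16092),(4,63),(5,128)],.leaf [(0,3725),(2,16092),(4,63),(5,128)]⟩,
⟨⟨⟨-59,-36,-132⟩,⟨-84,123,4⟩,⟨108,76,-69⟩⟩,true,89,78,.leaf [(1,22201),(4,88),(5,96),(7,81)],.leaf [(1,22201),(4,88),(5,96),(7,81)]⟩,
⟨⟨⟨-21,-144,-32⟩,⟨-144,13,36⟩,⟨-32,36,-141⟩⟩,true,92,37,.leaf [(1,24883),(3,4470),(4,180),(5,157)],.leaf [(1,24883),(3,4470),(4,180),(5,157)]⟩,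
⟨⟨⟨21,144,-32⟩,⟨-144,13,-36⟩,⟨-32,36,141⟩⟩,true,92,112,.leaf [(1,36),(2,1405),(4,10),(18,19)],.leaf [(1,72),(2,112),(4,1),(10,19)]⟩,
⟨⟨⟨-21,112,96⟩,⟨112,-51,84⟩,⟨96,84,-77⟩⟩,true,94,38,.leaf [(0,24734),(2,3129),(4,173),(5,12)],.leaf [(0,24734),(2,3129),(4,173),(5,12)]⟩,
⟨⟨⟨-21,112,-96⟩,⟨112,-51,-84⟩,⟨-96,-84,-77⟩⟩,true,94,111,.leaf [(0,154),(1,12),(2,9),(4,1)],.leaf [(0,154),(1,12),(2,9),(4,1)]⟩,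
⟨⟨⟨85,-120,-24⟩,⟨24,45,-140⟩,⟨120,76,45⟩⟩,true,95,19,.leaf [(2,88804),(5,393),(7,322),(15,69)],.leaf [(0,253),(2,462),(5,4),(10,69)]⟩,
⟨⟨⟨85,-120,24⟩,⟨-24,-45,-140⟩,⟨120,76,-45⟩⟩,true,95,130,.leaf [(0,115),(1,69),(2,81),(5,1)],.leaf [(0,115),(1,69),(2,81),(5,1)]⟩,
⟨⟨⟨-77,-96,84⟩,⟨96,21,112⟩,⟨-84,112,51⟩⟩,true,98,26,.leaf [(0,7748),(1,2533),(4,28),(5,53)],.leaf [(0,7748),(1,2533),(4,28),(5,53)]⟩,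
⟨⟨⟨-77,-96,-84⟩,⟨-96,-21,112⟩,⟨-84,112,-51⟩⟩,true,98,123,.leaf [(1,20860),(3,17433),(4,208),(5,75)],.leaf [(1,20860),(3,17433),(4,208),(5,75)]⟩,
⟨⟨⟨45,120,76⟩,⟨-24,85,-120⟩,⟨-140,24,45⟩⟩,true,102,5,.leaf [(4,4),(5,3),(7,2),(15,1)],.L (.leaf [(4,2268),(11,80311),(15,415),(18,16092)]) (.leaf [(0,1639),(1,149),(4,11),(5,1)]) (.leaf [(0,1043),(1,2533),(4,7),(5,17)])⟩,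
⟨⟨⟨-45,-120,76⟩,⟨-24,85,120⟩,⟨-140,24,-45⟩⟩,true,102,144,.leaf [(0,144),(1,85),(3,36),(5,1)],.leaf [(0,144),(1,85),(3,36),(5,1)]⟩,
⟨⟨⟨123,4,-84⟩,⟨76,-69,108⟩,⟨-36,-132,-59⟩⟩,true,103,72,.leaf [(0,73),(1,156),(3,36),(4,1)],.leaf [(0,73),(1,156),(3,36),(4,1)]⟩,
⟨⟨⟨123,4,84⟩,⟨76,-69,-108⟩,⟨36,132,-59⟩⟩,true,103,77,.leaf [(0,128),(1,92),(3,51),(5,1)],.leaf [(0,128),(1,92),(3,51),(5,1)]⟩,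
⟨⟨⟨-51,-140,0⟩,⟨-140,51,0⟩,⟨0,0,-149⟩⟩,true,105,0,.leaf [(0,119),(1,149),(2,21),(5,1)],.leaf [(0,119),(1,149),(2,21),(5,1)]⟩,
⟨⟨⟨21,96,112⟩,⟨-96,-77,84⟩,⟨112,-84,51⟩⟩,true,111,55,.leaf [(2,22201),(4,173),(5,42),(7,14)],.leaf [(2,22201),(4,173),(5,42),(7,14)]⟩,
⟨⟨⟨-21,-96,112⟩,⟨-96,-77,-84⟩,⟨112,-84,-51⟩⟩,true,111,94,.leaf [(0,12),(1,154),(3,9),(5,1)],.leaf [(0,12),(1,154),(3,9),(5,1)]⟩,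
⟨⟨⟨21,-32,-144⟩,⟨-32,141,-36⟩,⟨144,36,13⟩⟩,true,112,57,.leaf [(2,22201),(4,30),(5,180),(6,139)],.leaf [(2,22201),(4,30),(5,180),(6,139)]⟩,
⟨⟨⟨21,-32,144⟩,⟨-32,141,36⟩,⟨-144,-36,13⟩⟩,true,112,92,.L (.L (.leaf [(1,24883),(3,4470),(4,180),(5,157)]) (.leaf [(0,174),(1,68),(2,17),(6,1)]) (.leaf [(0,71),(1,71),(4,1),(19,15)])) (.leaf [(0,91),(1,21),(2,135),(5,1)]) (.leaf [(0,196),(1,150),(3,81),(5,1)]),.leaf [(3,9089),(5,59),(6,9),(10,745)]⟩,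
⟨⟨⟨13,-144,-36⟩,⟨144,21,-32⟩,⟨36,-32,141⟩⟩,true,115,66,.leaf [(2,2682),(6,3),(15,8),(18,149)],.leaf [(0,1),(2,270),(5,4),(10,177)]⟩,
⟨⟨⟨13,-144,36⟩,⟨-144,-21,-32⟩,⟨36,-32,-141⟩⟩,true,115,83,.leaf [(0,112),(1,156),(3,21),(5,1)],.leaf [(0,112),(1,156),(3,21),(5,1)]⟩,
⟨⟨⟨123,-36,76⟩,⟨-84,-59,108⟩,⟨4,-132,-69⟩⟩,true,116,20,.leaf [(1,22201),(4,192),(5,109),(7,36)],.leaf [(1,22201),(4,192),(5,109),(7,36)]⟩,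
⟨⟨⟨-123,36,76⟩,⟨-84,-59,-108⟩,⟨4,-132,69⟩⟩,true,116,129,.leaf [(1,84),(2,96),(3,61),(7,1)],.leaf [(1,84),(2,96),(3,61),(7,1)]⟩,
⟨⟨⟨-59,-108,-84⟩,⟨-132,69,4⟩,⟨36,76,-123⟩⟩,true,118,9,.leaf [(0,64),(1,39),(2,120),(5,1)],.leaf [(0,64),(1,39),(2,120),(5,1)]⟩,
⟨⟨⟨-59,-108,84⟩,⟨132,-69,4⟩,⟨36,76,123⟩⟩,true,118,140,.leaf [(0,8791),(2,14304),(5,88),(6,39)],.leaf [(0,8791),(2,14304),(5,88),(6,39)]⟩,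
⟨⟨⟨-45,-140,24⟩,⟨76,-45,-120⟩,⟨120,-24,85⟩⟩,true,119,69,.leaf [(2,3725),(5,40),(6,13),(18,298)],.leaf [(1,159),(2,61),(5,1),(10,55)]⟩,
⟨⟨⟨-45,-140,-24⟩,⟨76,-45,120⟩,⟨-120,24,85⟩⟩,true,119,80,.leaf [(0,2916),(18,301),(22,1)],.leaf [(0,24287),(4,89),(5,216),(10,2682)]⟩,
⟨⟨⟨-77,-84,96⟩,⟨84,51,112⟩,⟨-96,112,21⟩⟩,true,123,51,.leaf [(0,745),(3,894),(4,9),(5,10)],.leaf [(0,745),(3,894),(4,9),(5,10)]⟩,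
⟨⟨⟨-77,-84,-96⟩,⟨-84,-51,112⟩,⟨-96,112,-21⟩⟩,true,123,98,.leaf [(1,19519),(3,18774),(4,196),(5,33)],.leaf [(1,19519),(3,18774),(4,196),(5,33)]⟩,
⟨⟨⟨139,-48,-24⟩,⟨-48,-141,4⟩,⟨-24,4,-147⟩⟩,true,124,62,.leaf [(1,8791),(2,17433),(4,169),(5,33)],.leaf [(1,8791),(2,17433),(4,169),(5,33)]⟩,
⟨⟨⟨139,-48,24⟩,⟨48,141,4⟩,⟨-24,4,147⟩⟩,true,124,87,.leaf [(3,108),(10,130),(14,1),(18,15)],.leaf [(3,14751),(5,135),(10,9685),(14,13)]⟩,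
⟨⟨⟨69,132,4⟩,⟨108,-59,84⟩,⟨76,-36,-123⟩⟩,true,125,67,.leaf [(0,155),(1,80),(2,36),(4,1)],.leaf [(0,155),(1,80),(2,36),(4,1)]⟩,
⟨⟨⟨-69,-132,4⟩,⟨108,-59,-84⟩,⟨76,-36,123⟩⟩,true,125,82,.leaf [(0,151),(1,127),(2,17),(7,1)],.leaf [(0,151),(1,127),(2,17),(7,1)]⟩,
⟨⟨⟨-69,108,76⟩,⟨-132,-59,-36⟩,⟨4,-84,123⟩⟩,true,128,68,.leaf [(0,9089),(1,25181),(4,79),(7,171)],.leaf [(0,9089),(1,25181),(4,79),(7,171)]⟩,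
⟨⟨⟨69,-108,76⟩,⟨-132,-59,36⟩,⟨4,-84,-123⟩⟩,true,128,81,.leaf [(0,24),(1,79),(3,120),(5,1)],.leaf [(0,24),(1,79),(3,120),(5,1)]⟩,
⟨⟨⟨-123,76,-36⟩,⟨4,69,132⟩,⟨84,108,-59⟩⟩,true,129,33,.leaf [(0,7),(1,24),(3,144),(4,1)],.leaf [(0,7),(1,24),(3,144),(4,1)]⟩,
⟨⟨⟨-123,76,36⟩,⟨4,69,-132⟩,⟨-84,-108,-59⟩⟩,true,129,116,.leaf [(0,84),(2,61),(3,96),(6,1)],.leaf [(0,84),(2,61),(3,96),(6,1)]⟩,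
⟨⟨⟨85,24,120⟩,⟨-120,45,76⟩,⟨-24,-140,45⟩⟩,true,130,54,.leaf [(4,81),(6,228),(10,11473),(18,1192)],.leaf [(1,1566),(3,726),(10,539),(14,1)]⟩,
⟨⟨⟨85,24,-120⟩,⟨120,-45,76⟩,⟨-24,-140,-45⟩⟩,true,130,95,.leaf [(0,69),(1,115),(3,81),(4,1)],.leaf [(0,69),(1,115),(3,81),(4,1)]⟩,
⟨⟨⟨-147,-24,4⟩,⟨-24,139,-48⟩,⟨4,-48,-141⟩⟩,true,137,2,.leaf [(1,11771),(5,95),(14,5),(18,149)],.leaf [(1,229311),(7,1017),(10,91784),(15,32)]⟩,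
⟨⟨⟨147,24,4⟩,⟨-24,139,48⟩,⟨4,-48,141⟩⟩,true,137,147,.leaf [(2,149),(3,1639),(4,1),(7,11)],.leaf [(2,149),(3,1639),(4,1),(7,11)]⟩,
⟨⟨⟨-59,84,108⟩,⟨-36,-123,76⟩,⟨132,4,69⟩⟩,true,140,31,.leaf [(0,149),(2,5364),(4,39),(5,32)],.leaf [(0,149),(2,5364),(4,39),(5,32)]⟩,
⟨⟨⟨-59,84,-108⟩,⟨36,123,76⟩,⟨132,4,-69⟩⟩,true,140,118,.leaf [(1,8791),(3,14304),(4,88),(7,39)],.leaf [(1,8791),(3,14304),(4,88),(7,39)]⟩,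
⟨⟨⟨141,48,4⟩,⟨-48,139,24⟩,⟨4,-24,147⟩⟩,true,143,74,.leaf [(3,13708),(4,23),(7,68),(18,745)],.leaf [(1,1026),(3,666),(10,283),(14,1)]⟩,
⟨⟨⟨-141,-48,4⟩,⟨-48,139,-24⟩,⟨4,-24,-147⟩⟩,true,143,75,.leaf [(0,15),(1,151),(2,9),(5,1)],.leaf [(0,15),(1,151),(2,9),(5,1)]⟩,
⟨⟨⟨-45,76,120⟩,⟨-140,-45,-24⟩,⟨24,-120,85⟩⟩,true,144,47,.leaf [(0,301),(4,1),(18,36)],.leaf [(2,7301),(4,84),(6,23),(10,3576)]⟩,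
⟨⟨⟨-45,76,-120⟩,⟨-140,-45,24⟩,⟨-24,120,85⟩⟩,true,144,102,.leaf [(0,85),(1,144),(2,36),(4,1)],.leaf [(0,85),(1,144),(2,36),(4,1)]⟩,
⟨⟨⟨-141,-32,-36⟩,⟨-32,-21,144⟩,⟨-36,144,13⟩⟩,true,145,70,.leaf [(1,596),(3,2235),(4,16),(5,1)],.leaf [(1,596),(3,2235),(4,16),(5,1)]⟩,
⟨⟨⟨-141,-32,36⟩,⟨-32,-21,-144⟩,⟨36,-144,13⟩⟩,true,145,79,.leaf [(3,55),(5,1),(10,12),(18,20)],.leaf [(1,1566),(3,1014),(10,587),(14,1)]⟩,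
⟨⟨⟨147,4,-24⟩,⟨4,141,48⟩,⟨24,-48,139⟩⟩,true,147,12,.leaf [(2,22201),(4,9),(6,148),(14,6)],.leaf [(1,36),(2,130),(6,1),(10,15)]⟩,
⟨⟨⟨147,4,24⟩,⟨4,141,-48⟩,⟨-24,48,139⟩⟩,true,147,137,.leaf [(2,1639),(3,149),(5,1),(6,11)],.leaf [(2,1639),(3,149),(5,1),(6,11)]⟩]

theorem primeOk_149 : PrimeOk 149 := primeOk (by norm_num) (by norm_num) (by norm_num) L149
  (by decide +kernel) (by decide +kernel)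

def L293 : List Cls := [
⟨⟨⟨-293,0,0⟩,⟨0,-285,-68⟩,⟨0,-68,285⟩⟩,false,0,138,.leaf [(0,3809),(4,187),(6,106),(11,19924)],.leaf [(0,78524),(4,289),(6,4),(10,4981)]⟩,
⟨⟨⟨-293,0,0⟩,⟨0,285,-68⟩,⟨0,-68,-285⟩⟩,false,0,155,.leaf [(1,3809),(5,187),(7,106),(10,19924)],.leaf [(1,54791),(3,31058),(5,13),(14,68)]⟩,
⟨⟨⟨-285,0,-68⟩,⟨0,-293,0⟩,⟨-68,0,285⟩⟩,true,0,138,.leaf [(0,293),(1,38),(3,30),(4,1)],.leaf [(0,293),(1,38),(3,30),(4,1)]⟩,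
⟨⟨⟨285,0,-68⟩,⟨0,-293,0⟩,⟨-68,0,-285⟩⟩,true,0,155,.leaf [(0,38),(1,68),(2,255),(4,1)],.leaf [(0,38),(1,68),(2,255),(4,1)]⟩,
⟨⟨⟨3,-284,72⟩,⟨292,-3,-24⟩,⟨24,72,283⟩⟩,true,3,24,.leaf [(2,282745),(5,610),(15,262),(18,2637)],.leaf [(0,459),(2,754),(5,4),(10,211)]⟩,
⟨⟨⟨3,-284,-72⟩,⟨292,-3,24⟩,⟨-24,-72,283⟩⟩,true,3,269,.leaf [(4,3),(5,4),(6,2),(14,1)],.leaf [(1,339),(3,154),(5,1),(10,212)]⟩,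
⟨⟨⟨285,-32,60⟩,⟨-32,165,240⟩,⟨-60,-240,157⟩⟩,true,4,139,.leaf [(4,3),(5,4),(6,2),(14,1)],.leaf [(1,508941),(6,1203),(10,231763),(15,77)]⟩,
⟨⟨⟨285,-32,-60⟩,⟨-32,165,-240⟩,⟨60,240,157⟩⟩,true,4,154,.leaf [(2,4981),(3,2930),(5,10),(6,17)],.leaf [(2,4981),(3,2930),(5,10),(6,17)]⟩,
⟨⟨⟨123,-264,-32⟩,⟨72,67,-276⟩,⟨256,108,93⟩⟩,true,5,45,.leaf [(0,40727),(2,1465),(5,61),(7,125)],.leaf [(0,40727),(2,1465),(5,61),(7,125)]⟩,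
⟨⟨⟨-123,264,-32⟩,⟨72,67,276⟩,⟨256,108,-93⟩⟩,true,5,248,.leaf [(0,42),(2,155),(3,308),(4,1)],.leaf [(0,42),(2,155),(3,308),(4,1)]⟩,
⟨⟨⟨291,-12,-32⟩,⟨12,-221,192⟩,⟨-32,-192,-219⟩⟩,true,6,16,.leaf [(0,77),(1,224),(2,132),(4,1)],.leaf [(0,77),(1,224),(2,132),(4,1)]⟩,
⟨⟨⟨-291,12,-32⟩,⟨12,-221,-192⟩,⟨-32,-192,219⟩⟩,true,6,277,.leaf [(2,33695),(3,12892),(4,55),(7,116)],.leaf [(2,33695),(3,12892),(4,55),(7,116)]⟩,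
⟨⟨⟨-3,-24,292⟩,⟨72,283,24⟩,⟨-284,72,3⟩⟩,true,8,98,.leaf [(0,96),(1,52),(3,237),(5,1)],.leaf [(0,96),(1,52),(3,237),(5,1)]⟩,
⟨⟨⟨3,24,292⟩,⟨72,283,-24⟩,⟨-284,72,-3⟩⟩,true,8,195,.leaf [(0,48),(1,28),(3,267),(5,1)],.leaf [(0,48),(1,28),(3,267),(5,1)]⟩,
⟨⟨⟨67,-276,-72⟩,⟨-108,-93,256⟩,⟨-264,-32,-123⟩⟩,true,9,117,.leaf [(1,586),(3,879),(4,4),(5,3)],.leaf [(1,586),(3,879),(4,4),(5,3)]⟩,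
⟨⟨⟨67,-276,72⟩,⟨108,93,256⟩,⟨-264,-32,123⟩⟩,true,9,176,.leaf [(0,17873),(3,4688),(5,56),(6,23)],.leaf [(0,17873),(3,4688),(5,56),(6,23)]⟩,
⟨⟨⟨21,252,148⟩,⟨12,-149,252⟩,⟨292,-12,-21⟩⟩,true,12,21,.leaf [(0,248),(1,104),(2,153),(4,1)],.leaf [(0,248),(1,104),(2,153),(4,1)]⟩,
⟨⟨⟨-21,-252,148⟩,⟨12,-149,-252⟩,⟨292,-12,21⟩⟩,true,12,272,.leaf [(0,27),(1,127),(2,213),(5,1)],.leaf [(0,27),(1,127),(2,213),(5,1)]⟩,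
⟨⟨⟨-93,256,108⟩,⟨-32,-123,264⟩,⟨276,72,67⟩⟩,true,13,65,.leaf [(0,298),(1,156),(2,81),(4,1)],.leaf [(0,298),(1,156),(2,81),(4,1)]⟩,
⟨⟨⟨-93,256,-108⟩,⟨-32,-123,-264⟩,⟨-276,-72,67⟩⟩,true,13,228,.leaf [(0,8497),(2,4981),(4,31),(6,13)],.leaf [(0,8497),(2,4981),(4,31),(6,13)]⟩,
⟨⟨⟨-21,292,12⟩,⟨148,21,-252⟩,⟨-252,-12,-149⟩⟩,true,14,125,.leaf [(0,85849),(4,340),(5,240),(6,213)],.leaf [(0,85849),(4,340),(5,240),(6,213)]⟩,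
⟨⟨⟨-21,292,-12⟩,⟨148,21,252⟩,⟨252,12,-149⟩⟩,true,14,168,.leaf [(0,271),(1,183),(3,81),(4,1)],.leaf [(0,271),(1,183),(3,81),(4,1)]⟩,
⟨⟨⟨3,-248,156⟩,⟨184,123,192⟩,⟨-228,96,157⟩⟩,true,15,52,.leaf [(0,26663),(1,586),(4,19),(5,98)],.leaf [(0,26663),(1,586),(4,19),(5,98)]⟩,
⟨⟨⟨3,-248,-156⟩,⟨184,123,-192⟩,⟨228,-96,157⟩⟩,true,15,241,.leaf [(1,257547),(5,286),(6,836),(15,73)],.leaf [(1,1608570),(5,4425),(10,746564),(23,41)]⟩,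
⟨⟨⟨291,-32,-12⟩,⟨-32,-219,-192⟩,⟨12,192,-221⟩⟩,true,16,6,.leaf [(0,33988),(1,16115),(4,44),(5,115)],.leaf [(0,33988),(1,16115),(4,44),(5,115)]⟩,
⟨⟨⟨291,-32,12⟩,⟨-32,-219,192⟩,⟨-12,-192,-221⟩⟩,true,16,287,.leaf [(0,22),(1,180),(2,165),(4,1)],.leaf [(0,22),(1,180),(2,165),(4,1)]⟩,
⟨⟨⟨157,-240,-60⟩,⟨240,165,-32⟩,⟨60,-32,285⟩⟩,true,19,78,.leaf [(6,21),(11,2930),(15,10),(18,293)],.leaf [(0,265),(2,222),(5,4),(10,345)]⟩,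
⟨⟨⟨157,-240,60⟩,⟨-240,-165,-32⟩,⟨60,-32,-285⟩⟩,true,19,215,.leaf [(1,20),(2,208),(3,325),(5,1)],.leaf [(1,20),(2,208),(3,325),(5,1)]⟩,
⟨⟨⟨21,148,252⟩,⟨292,-21,-12⟩,⟨12,252,-149⟩⟩,true,21,12,.leaf [(2,3809),(3,6446),(4,9),(5,22)],.leaf [(2,3809),(3,6446),(4,9),(5,22)]⟩,
⟨⟨⟨21,148,-252⟩,⟨292,-21,12⟩,⟨-12,-252,-149⟩⟩,true,21,281,.leaf [(0,88),(2,81),(3,264),(4,1)],.leaf [(0,88),(2,81),(3,264),(4,1)]⟩,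
⟨⟨⟨-123,-192,184⟩,⟨96,157,228⟩,⟨-248,156,-3⟩⟩,true,23,39,.leaf [(0,330),(1,187),(2,18),(5,1)],.leaf [(0,330),(1,187),(2,18),(5,1)]⟩,
⟨⟨⟨123,192,184⟩,⟨96,157,-228⟩,⟨-248,156,3⟩⟩,true,23,254,.leaf [(0,17226),(3,12708),(18,2783),(22,1)],.leaf [(4,111),(5,1341),(10,85849),(23,185)]⟩,
⟨⟨⟨3,72,-284⟩,⟨24,283,72⟩,⟨292,-24,-3⟩⟩,true,24,3,.leaf [(3,43364),(4,86),(14,11),(18,2637)],.leaf [(1,2970),(3,1935),(10,1228),(15,1)]⟩,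
⟨⟨⟨-3,-72,-284⟩,⟨24,283,-72⟩,⟨292,-24,3⟩⟩,true,24,290,.leaf [(4,4),(5,3),(7,2),(15,1)],.leaf [(4,29),(5,465),(7,769),(10,85849)]⟩,
⟨⟨⟨-5,168,-240⟩,⟨168,-195,-140⟩,⟨-240,-140,-93⟩⟩,true,25,48,.leaf [(0,318),(1,100),(2,45),(4,1)],.leaf [(0,318),(1,100),(2,45),(4,1)]⟩,
⟨⟨⟨-5,168,240⟩,⟨-168,195,-140⟩,⟨-240,-140,93⟩⟩,true,25,245,.leaf [(1,1266639),(5,6825),(14,3265),(18,72371)],.leaf [(3,611784),(7,4752),(22,617),(26,12013)]⟩,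
⟨⟨⟨-149,228,108⟩,⟨108,171,-212⟩,⟨-228,-68,-171⟩⟩,true,26,74,.leaf [(3,85849),(5,153),(7,220),(15,26)],.leaf [(0,243),(3,434),(7,2),(10,77)]⟩,
⟨⟨⟨-149,228,-108⟩,⟨-108,-171,-212⟩,⟨-228,-68,171⟩⟩,true,26,219,.leaf [(4,864),(7,108),(11,85849),(15,19)],.leaf [(0,194),(2,179),(4,1),(10,26)]⟩,
⟨⟨⟨157,-156,192⟩,⟨-228,-3,184⟩,⟨-96,-248,-123⟩⟩,true,27,102,.leaf [(1,85849),(4,202),(5,27),(6,210)],.leaf [(1,85849),(4,202),(5,27),(6,210)]⟩,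
⟨⟨⟨157,-156,-192⟩,⟨228,3,184⟩,⟨-96,-248,123⟩⟩,true,27,191,.leaf [(3,198068),(4,447),(6,206),(18,7911)],.leaf [(3,99620),(4,186),(6,245),(10,7911)]⟩,
⟨⟨⟨-123,72,256⟩,⟨264,67,108⟩,⟨-32,276,-93⟩⟩,true,28,67,.leaf [(2,27835),(3,38383),(4,59),(5,135)],.leaf [(2,27835),(3,38383),(4,59),(5,135)]⟩,
⟨⟨⟨123,-72,256⟩,⟨264,67,-108⟩,⟨-32,276,93⟩⟩,true,28,226,.leaf [(0,333),(1,163),(2,15),(5,1)],.leaf [(0,333),(1,163),(2,15),(5,1)]⟩,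
⟨⟨⟨67,-108,-264⟩,⟨-276,-93,-32⟩,⟨-72,256,-123⟩⟩,true,29,136,.leaf [(1,33109),(2,20217),(4,181),(5,63)],.leaf [(1,33109),(2,20217),(4,181),(5,63)]⟩,
⟨⟨⟨67,-108,264⟩,⟨276,93,-32⟩,⟨-72,256,123⟩⟩,true,29,157,.leaf [(0,322),(1,141),(2,42),(5,1)],.leaf [(0,322),(1,141),(2,42),(5,1)]⟩,
⟨⟨⟨93,-140,240⟩,⟨-140,195,168⟩,⟨-240,-168,-5⟩⟩,true,30,116,.leaf [(0,59772),(3,3809),(5,119),(15,58)],.leaf [(3,109289),(5,645),(6,62),(26,2930)]⟩,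
⟨⟨⟨93,-140,-240⟩,⟨-140,195,-168⟩,⟨240,168,-5⟩⟩,true,30,177,.leaf [(1,85849),(4,275),(5,245),(6,303)],.leaf [(1,85849),(4,275),(5,245),(6,303)]⟩,
⟨⟨⟨-131,-252,72⟩,⟨252,-99,112⟩,⟨-72,112,261⟩⟩,true,31,33,.leaf [(0,85849),(4,207),(5,184),(6,144)],.leaf [(0,85849),(4,207),(5,184),(6,144)]⟩,
⟨⟨⟨-131,-252,-72⟩,⟨-252,99,112⟩,⟨-72,112,-261⟩⟩,true,31,260,.leaf [(0,58),(2,306),(3,189),(5,1)],.leaf [(0,58),(2,306),(3,189),(5,1)]⟩,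
⟨⟨⟨-131,72,-252⟩,⟨-72,261,112⟩,⟨252,112,-99⟩⟩,true,33,31,.leaf [(1,85849),(4,184),(5,207),(7,144)],.leaf [(1,85849),(4,184),(5,207),(7,144)]⟩,
⟨⟨⟨-131,72,252⟩,⟨72,-261,112⟩,⟨252,112,99⟩⟩,true,33,262,.leaf [(2,48052),(3,8497),(4,124),(5,169)],.leaf [(2,48052),(3,8497),(4,124),(5,169)]⟩,
⟨⟨⟨229,168,-72⟩,⟨72,-189,-212⟩,⟨-168,148,-189⟩⟩,true,34,111,.leaf [(0,38090),(2,879),(4,117),(5,140)],.leaf [(0,38090),(2,879),(4,117),(5,140)]⟩,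
⟨⟨⟨229,168,72⟩,⟨-72,189,-212⟩,⟨-168,148,189⟩⟩,true,34,182,.leaf [(5,4563),(7,3945),(14,2585),(18,85849)],.leaf [(0,249),(2,754),(7,4),(10,261)]⟩,
⟨⟨⟨-93,-32,276⟩,⟨256,-123,72⟩,⟨108,264,67⟩⟩,true,35,101,.leaf [(0,55670),(2,23733),(4,209),(5,204)],.leaf [(0,55670),(2,23733),(4,209),(5,204)]⟩,
⟨⟨⟨-93,-32,-276⟩,⟨256,-123,-72⟩,⟨-108,-264,67⟩⟩,true,35,192,.leaf [(0,12013),(3,45708),(4,178),(6,27)],.leaf [(0,12013),(3,45708),(4,178),(6,27)]⟩,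
⟨⟨⟨-219,-192,-32⟩,⟨192,-221,12⟩,⟨-32,-12,291⟩⟩,true,37,55,.leaf [(0,85849),(4,413),(5,203),(7,183)],.leaf [(0,85849),(4,413),(5,203),(7,183)]⟩,
⟨⟨⟨219,192,-32⟩,⟨192,-221,-12⟩,⟨-32,-12,-291⟩⟩,true,37,238,.leaf [(0,203),(1,20),(2,210),(4,1)],.leaf [(0,203),(1,20),(2,210),(4,1)]⟩,
⟨⟨⟨-123,184,-192⟩,⟨-248,-3,156⟩,⟨96,228,157⟩⟩,true,39,23,.leaf [(0,187),(1,330),(3,18),(4,1)],.leaf [(0,187),(1,330),(3,18),(4,1)]⟩,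
⟨⟨⟨-123,184,192⟩,⟨-248,-3,-156⟩,⟨-96,-228,157⟩⟩,true,39,270,.leaf [(0,17415),(3,14715),(18,3163),(23,1)],.leaf [(0,249),(3,380),(6,2),(10,113)]⟩,
⟨⟨⟨123,-32,-264⟩,⟨256,93,108⟩,⟨72,-276,67⟩⟩,true,45,5,.leaf [(1,40727),(3,1465),(4,61),(6,125)],.leaf [(1,40727),(3,1465),(4,61),(6,125)]⟩,
⟨⟨⟨123,-32,264⟩,⟨256,93,-108⟩,⟨-72,276,67⟩⟩,true,45,288,.leaf [(0,308),(1,155),(3,42),(5,1)],.leaf [(0,308),(1,155),(3,42),(5,1)]⟩,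
⟨⟨⟨-5,-240,168⟩,⟨-240,-93,-140⟩,⟨168,-140,-195⟩⟩,true,48,25,.leaf [(0,100),(1,318),(3,45),(5,1)],.leaf [(0,100),(1,318),(3,45),(5,1)]⟩,
⟨⟨⟨-5,-240,-168⟩,⟨240,93,-140⟩,⟨168,-140,195⟩⟩,true,48,268,.leaf [(4,7749),(6,3948),(15,3328),(18,85849)],.leaf [(0,48),(3,88),(6,1),(10,99)]⟩,
⟨⟨⟨-221,12,-192⟩,⟨12,-291,-32⟩,⟨-192,-32,219⟩⟩,true,49,95,.leaf [(0,303),(1,115),(3,45),(4,1)],.leaf [(0,303),(1,115),(3,45),(4,1)]⟩,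
⟨⟨⟨-221,12,192⟩,⟨-12,291,-32⟩,⟨-192,-32,-219⟩⟩,true,49,198,.leaf [(1,110),(3,125),(5,1),(10,44)],.leaf [(3,171698),(5,459),(7,440),(23,11)]⟩,
⟨⟨⟨157,96,-228⟩,⟨192,123,184⟩,⟨156,-248,3⟩⟩,true,51,62,.leaf [(1,121),(3,183),(4,1),(10,27)],.leaf [(1,38969),(3,95811),(4,551),(22,27)]⟩,
⟨⟨⟨157,96,228⟩,⟨-192,-123,184⟩,⟨156,-248,-3⟩⟩,true,51,231,.leaf [(1,85849),(4,232),(5,159),(6,144)],.leaf [(1,85849),(4,232),(5,159),(6,144)]⟩,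
⟨⟨⟨3,156,-248⟩,⟨-228,157,96⟩,⟨184,192,123⟩⟩,true,52,15,.leaf [(1,10255),(3,1758),(4,36),(5,1)],.leaf [(1,10255),(3,1758),(4,36),(5,1)]⟩,
⟨⟨⟨-3,-156,-248⟩,⟨-228,157,-96⟩,⟨184,192,-123⟩⟩,true,52,278,.leaf [(4,5352),(5,7272),(14,1675),(18,85849)],.leaf [(2,238502),(4,197),(5,924),(10,21389)]⟩,
⟨⟨⟨-219,-32,-192⟩,⟨-32,291,-12⟩,⟨192,12,-221⟩⟩,true,55,37,.leaf [(1,85849),(4,203),(5,413),(6,183)],.leaf [(1,85849),(4,203),(5,413),(6,183)]⟩,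
⟨⟨⟨-219,-32,192⟩,⟨-32,291,12⟩,⟨-192,-12,-221⟩⟩,true,55,256,.leaf [(0,20),(1,230),(3,183),(5,1)],.leaf [(0,20),(1,230),(3,183),(5,1)]⟩,
⟨⟨⟨283,-24,72⟩,⟨72,-3,-284⟩,⟨24,292,3⟩⟩,true,61,110,.leaf [(0,316),(1,63),(3,6),(5,1)],.leaf [(0,316),(1,63),(3,6),(5,1)]⟩,
⟨⟨⟨283,-24,-72⟩,⟨-72,3,-284⟩,⟨24,292,-3⟩⟩,true,61,183,.leaf [(0,6739),(2,7325),(5,25),(7,23)],.leaf [(0,6739),(2,7325),(5,25),(7,23)]⟩,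
⟨⟨⟨157,-228,96⟩,⟨156,3,-248⟩,⟨192,184,123⟩⟩,true,62,51,.leaf [(0,121),(2,183),(5,1),(11,27)],.leaf [(0,727),(2,894),(5,4),(10,27)]⟩,
⟨⟨⟨157,-228,-96⟩,⟨-156,-3,-248⟩,⟨192,184,-123⟩⟩,true,62,242,.leaf [(0,202),(1,27),(2,210),(5,1)],.leaf [(0,202),(1,27),(2,210),(5,1)]⟩,
⟨⟨⟨171,-68,228⟩,⟨-212,-171,108⟩,⟨108,-228,-149⟩⟩,true,63,99,.leaf [(1,85849),(4,80),(5,197),(15,60)],.leaf [(1,671556),(4,1383),(10,220922),(14,97)]⟩,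
⟨⟨⟨171,-68,-228⟩,⟨-212,-171,-108⟩,⟨-108,228,-149⟩⟩,true,63,194,.leaf [(1,2930),(2,6153),(4,31),(5,10)],.leaf [(1,2930),(2,6153),(4,31),(5,10)]⟩,
⟨⟨⟨-93,108,256⟩,⟨276,67,72⟩,⟨-32,264,-123⟩⟩,true,65,13,.leaf [(0,26077),(3,21096),(4,149),(5,128)],.leaf [(0,26077),(3,21096),(4,149),(5,128)]⟩,
⟨⟨⟨93,-108,256⟩,⟨276,67,-72⟩,⟨-32,264,123⟩⟩,true,65,280,.leaf [(0,315),(1,133),(2,57),(5,1)],.leaf [(0,315),(1,133),(2,57),(5,1)]⟩,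
⟨⟨⟨189,168,148⟩,⟨-72,229,-168⟩,⟨-212,72,189⟩⟩,true,66,100,.leaf [(5,693),(7,249),(10,85849),(14,371)],.leaf [(1,2943),(3,1818),(10,1012),(15,1)]⟩,
⟨⟨⟨-189,-168,148⟩,⟨-72,229,168⟩,⟨-212,72,-189⟩⟩,true,66,193,.leaf [(0,240),(1,277),(3,60),(5,1)],.leaf [(0,240),(1,277),(3,60),(5,1)]⟩,
⟨⟨⟨-123,256,72⟩,⟨-32,-93,276⟩,⟨264,108,67⟩⟩,true,67,28,.leaf [(0,322),(1,204),(2,27),(4,1)],.leaf [(0,322),(1,204),(2,27),(4,1)]⟩,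
⟨⟨⟨-123,256,-72⟩,⟨-32,-93,-276⟩,⟨-264,-108,67⟩⟩,true,67,265,.leaf [(0,9083),(2,3809),(4,29),(6,17)],.leaf [(0,9083),(2,3809),(4,29),(6,17)]⟩,
⟨⟨⟨261,72,112⟩,⟨-72,-131,252⟩,⟨112,-252,-99⟩⟩,true,71,143,.leaf [(0,5),(1,140),(2,198),(4,1)],.leaf [(0,5),(1,140),(2,198),(4,1)]⟩,
⟨⟨⟨-261,-72,112⟩,⟨-72,-131,-252⟩,⟨112,-252,99⟩⟩,true,71,150,.leaf [(1,18),(2,324),(3,193),(7,1)],.leaf [(1,18),(2,324),(3,193),(7,1)]⟩,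
⟨⟨⟨-165,-32,-240⟩,⟨-32,-285,60⟩,⟨-240,60,157⟩⟩,true,73,108,.leaf [(0,253),(1,210),(3,90),(4,1)],.leaf [(0,253),(1,210),(3,90),(4,1)]⟩,
⟨⟨⟨-165,-32,240⟩,⟨-32,-285,-60⟩,⟨240,-60,157⟩⟩,true,73,185,.leaf [(4,6579),(5,5421),(15,1853),(18,85849)],.leaf [(2,135952),(4,783),(5,472),(10,48931)]⟩,
⟨⟨⟨-149,108,228⟩,⟨-228,-171,-68⟩,⟨108,-212,171⟩⟩,true,74,26,.leaf [(2,85849),(4,153),(6,220),(14,26)],.leaf [(2,2051),(4,9),(6,2),(10,586)]⟩,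
⟨⟨⟨-149,108,-228⟩,⟨228,171,-68⟩,⟨108,-212,-171⟩⟩,true,74,267,.leaf [(3,12013),(7,178),(10,15236),(15,9)],.leaf [(1,1296),(3,1320),(10,785),(14,1)]⟩,
⟨⟨⟨-149,252,-12⟩,⟨12,21,292⟩,⟨252,148,-21⟩⟩,true,75,122,.leaf [(0,44),(2,187),(3,304),(4,1)],.leaf [(0,44),(2,187),(3,304),(4,1)]⟩,
⟨⟨⟨-149,252,12⟩,⟨-12,-21,292⟩,⟨252,148,21⟩⟩,true,75,171,.leaf [(0,273),(1,208),(3,72),(4,1)],.leaf [(0,273),(1,208),(3,72),(4,1)]⟩,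
⟨⟨⟨-3,-228,184⟩,⟨-156,157,192⟩,⟨-248,-96,-123⟩⟩,true,76,134,.leaf [(0,35),(2,97),(3,307),(5,1)],.leaf [(0,35),(2,97),(3,307),(5,1)]⟩,
⟨⟨⟨3,228,184⟩,⟨-156,157,-192⟩,⟨-248,-96,123⟩⟩,true,76,159,.leaf [(4,4),(5,3),(7,2),(15,1)],.leaf [(1,264627),(10,67365),(26,5081),(31,5)]⟩,
⟨⟨⟨157,-60,-240⟩,⟨60,285,-32⟩,⟨240,-32,165⟩⟩,true,78,19,.leaf [(7,480),(10,37211),(14,103),(18,5860)],.leaf [(1,1265760),(10,658957),(14,1201),(22,180)]⟩,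
⟨⟨⟨157,-60,240⟩,⟨-60,-285,-32⟩,⟨240,-32,-165⟩⟩,true,78,274,.leaf [(0,2051),(1,4981),(4,7),(5,17)],.leaf [(0,2051),(1,4981),(4,7),(5,17)]⟩,
⟨⟨⟨195,168,-140⟩,⟨-168,-5,-240⟩,⟨-140,240,93⟩⟩,true,82,127,.leaf [(2,171698),(4,926),(5,345),(15,145)],.leaf [(0,46294),(4,263),(5,536),(10,37797)]⟩,
⟨⟨⟨-195,-168,-140⟩,⟨-168,-5,240⟩,⟨-140,240,-93⟩⟩,true,82,166,.leaf [(1,72664),(3,74715),(4,408),(5,163)],.leaf [(1,72664),(3,74715),(4,408),(5,163)]⟩,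
⟨⟨⟨99,112,-252⟩,⟨112,-261,-72⟩,⟨-252,-72,-131⟩⟩,true,84,104,.leaf [(0,283),(1,180),(2,90),(4,1)],.leaf [(0,283),(1,180),(2,90),(4,1)]⟩,
⟨⟨⟨99,112,252⟩,⟨112,-261,72⟩,⟨252,72,-131⟩⟩,true,84,189,.leaf [(0,56549),(2,79110),(4,383),(5,180)],.leaf [(0,56549),(2,79110),(4,383),(5,180)]⟩,
⟨⟨⟨171,-212,108⟩,⟨-68,-171,-228⟩,⟨228,108,-149⟩⟩,true,93,124,.leaf [(0,3),(2,317),(3,257),(5,1)],.leaf [(0,3),(2,317),(3,257),(5,1)]⟩,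
⟨⟨⟨171,-212,-108⟩,⟨-68,-171,228⟩,⟨-228,-108,-149⟩⟩,true,93,169,.leaf [(1,22561),(3,14064),(4,104),(5,41)],.leaf [(1,22561),(3,14064),(4,104),(5,41)]⟩,
⟨⟨⟨-221,-192,12⟩,⟨-192,219,-32⟩,⟨12,-32,-291⟩⟩,true,95,49,.leaf [(0,115),(1,303),(2,45),(5,1)],.leaf [(0,115),(1,303),(2,45),(5,1)]⟩,
⟨⟨⟨-221,-192,-12⟩,⟨192,-219,-32⟩,⟨12,-32,291⟩⟩,true,95,244,.leaf [(0,81),(2,154),(6,1),(11,44)],.leaf [(0,180),(2,220),(6,1),(10,11)]⟩,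
⟨⟨⟨-3,292,-24⟩,⟨-284,3,72⟩,⟨72,24,283⟩⟩,true,98,8,.leaf [(0,52),(1,96),(2,237),(4,1)],.leaf [(0,52),(1,96),(2,237),(4,1)]⟩,
⟨⟨⟨-3,292,24⟩,⟨-284,3,-72⟩,⟨-72,-24,283⟩⟩,true,98,285,.leaf [(0,586),(2,293),(4,1),(6,2)],.leaf [(0,586),(2,293),(4,1),(6,2)]⟩,
⟨⟨⟨171,228,-68⟩,⟨108,-149,-228⟩,⟨-212,108,-171⟩⟩,true,99,63,.leaf [(0,85849),(4,197),(5,80),(14,60)],.leaf [(0,128041),(4,503),(5,440),(10,8790)]⟩,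
⟨⟨⟨-171,-228,-68⟩,⟨108,-149,228⟩,⟨-212,108,171⟩⟩,true,99,230,.leaf [(0,8204),(3,879),(4,28),(5,31)],.leaf [(0,8204),(3,879),(4,28),(5,31)]⟩,
⟨⟨⟨189,148,168⟩,⟨-212,189,72⟩,⟨-72,-168,229⟩⟩,true,100,66,.leaf [(4,693),(6,249),(11,85849),(15,371)],.leaf [(0,120),(2,157),(6,1),(10,60)]⟩,
⟨⟨⟨189,148,-168⟩,⟨-212,189,-72⟩,⟨72,168,229⟩⟩,true,100,227,.leaf [(2,85849),(4,300),(5,240),(6,277)],.leaf [(2,85849),(4,300),(5,240),(6,277)]⟩,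
⟨⟨⟨-93,276,-32⟩,⟨108,67,264⟩,⟨256,72,-123⟩⟩,true,101,35,.leaf [(0,57),(2,152),(3,296),(4,1)],.leaf [(0,57),(2,152),(3,296),(4,1)]⟩,
⟨⟨⟨93,-276,-32⟩,⟨108,67,-264⟩,⟨256,72,123⟩⟩,true,101,258,.leaf [(0,51275),(2,12013),(5,91),(7,155)],.leaf [(0,51275),(2,12013),(5,91),(7,155)]⟩,
⟨⟨⟨157,192,-156⟩,⟨-96,-123,-248⟩,⟨-228,184,-3⟩⟩,true,102,27,.leaf [(0,85849),(4,27),(5,202),(7,210)],.leaf [(0,85849),(4,27),(5,202),(7,210)]⟩,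
⟨⟨⟨157,192,156⟩,⟨96,123,-248⟩,⟨-228,184,3⟩⟩,true,102,266,.leaf [(0,161443),(5,133),(7,327),(18,7911)],.leaf [(0,282745),(5,610),(7,786),(10,7911)]⟩,
⟨⟨⟨99,-252,112⟩,⟨-252,-131,-72⟩,⟨112,-72,-261⟩⟩,true,104,84,.leaf [(0,180),(1,283),(3,90),(5,1)],.leaf [(0,180),(1,283),(3,90),(5,1)]⟩,
⟨⟨⟨-99,252,112⟩,⟨-252,-131,72⟩,⟨112,-72,261⟩⟩,true,104,209,.leaf [(0,39555),(2,96104),(4,373),(7,40)],.leaf [(0,39555),(2,96104),(4,373),(7,40)]⟩,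
⟨⟨⟨-165,-240,-32⟩,⟨-240,157,60⟩,⟨-32,60,-285⟩⟩,true,108,73,.leaf [(0,210),(1,253),(2,90),(5,1)],.leaf [(0,210),(1,253),(2,90),(5,1)]⟩,
⟨⟨⟨165,240,-32⟩,⟨-240,157,-60⟩,⟨-32,60,285⟩⟩,true,108,220,.leaf [(1,257547),(4,707),(7,283),(14,167)],.leaf [(1,229419),(4,468),(10,57428),(15,23)]⟩,
⟨⟨⟨283,72,-24⟩,⟨24,3,292⟩,⟨72,-284,-3⟩⟩,true,110,61,.leaf [(0,63),(1,316),(2,6),(4,1)],.leaf [(0,63),(1,316),(2,6),(4,1)]⟩,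
⟨⟨⟨283,72,24⟩,⟨-24,-3,292⟩,⟨72,-284,3⟩⟩,true,110,232,.leaf [(0,18),(1,268),(2,57),(4,1)],.leaf [(0,18),(1,268),(2,57),(4,1)]⟩,
⟨⟨⟨229,-72,168⟩,⟨-168,-189,148⟩,⟨72,-212,-189⟩⟩,true,111,34,.leaf [(0,293),(1,29593),(4,109),(5,89)],.leaf [(0,293),(1,29593),(4,109),(5,89)]⟩,
⟨⟨⟨229,-72,-168⟩,⟨168,189,148⟩,⟨72,-212,189⟩⟩,true,111,259,.leaf [(3,343396),(4,249),(6,754),(14,261)],.leaf [(1,4563),(3,3945),(10,2585),(22,1)]⟩,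
⟨⟨⟨189,72,-212⟩,⟨-168,229,-72⟩,⟨148,168,189⟩⟩,true,112,126,.leaf [(3,15236),(4,2),(14,11),(18,879)],.leaf [(1,6153),(5,105),(10,11720),(15,2)]⟩,
⟨⟨⟨-189,-72,-212⟩,⟨-168,229,72⟩,⟨148,168,-189⟩⟩,true,112,167,.leaf [(1,38383),(4,135),(5,151),(18,879)],.leaf [(1,114563),(4,180),(5,299),(10,17580)]⟩,
⟨⟨⟨93,240,-140⟩,⟨-240,-5,-168⟩,⟨-140,168,195⟩⟩,true,116,30,.leaf [(1,59772),(2,3809),(4,119),(14,58)],.leaf [(1,204),(2,187),(4,1),(10,58)]⟩,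
⟨⟨⟨-93,-240,-140⟩,⟨-240,-5,168⟩,⟨-140,168,-195⟩⟩,true,116,263,.leaf [(2,18752),(3,16115),(4,40),(5,69)],.leaf [(2,18752),(3,16115),(4,40),(5,69)]⟩,
⟨⟨⟨67,-72,-276⟩,⟨-264,-123,-32⟩,⟨-108,256,-93⟩⟩,true,117,9,.leaf [(1,17873),(2,7032),(4,80),(5,9)],.leaf [(1,17873),(2,7032),(4,80),(5,9)]⟩,
⟨⟨⟨67,-72,276⟩,⟨264,123,-32⟩,⟨-108,256,93⟩⟩,true,117,284,.leaf [(0,328),(1,168),(3,15),(5,1)],.leaf [(0,328),(1,168),(3,15),(5,1)]⟩,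
⟨⟨⟨-149,-12,252⟩,⟨252,-21,148⟩,⟨12,292,21⟩⟩,true,122,75,.leaf [(0,19631),(3,5274),(4,87),(5,62)],.leaf [(0,19631),(3,5274),(4,87),(5,62)]⟩,
⟨⟨⟨-149,-12,-252⟩,⟨-252,21,148⟩,⟨12,292,-21⟩⟩,true,122,218,.leaf [(1,75301),(3,38676),(4,304),(5,33)],.leaf [(1,75301),(3,38676),(4,304),(5,33)]⟩,
⟨⟨⟨171,108,-212⟩,⟨228,-149,108⟩,⟨-68,-228,-171⟩⟩,true,124,93,.leaf [(1,3),(2,257),(3,317),(4,1)],.leaf [(1,3),(2,257),(3,317),(4,1)]⟩,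
⟨⟨⟨-171,-108,-212⟩,⟨228,-149,-108⟩,⟨-68,-228,171⟩⟩,true,124,200,.leaf [(0,53619),(3,22561),(4,267),(7,127)],.leaf [(0,53619),(3,22561),(4,267),(7,127)]⟩,
⟨⟨⟨-21,12,292⟩,⟨-252,-149,-12⟩,⟨148,-252,21⟩⟩,true,125,14,.leaf [(1,85849),(4,240),(5,340),(7,213)],.leaf [(1,85849),(4,240),(5,340),(7,213)]⟩,
⟨⟨⟨21,-12,292⟩,⟨-252,-149,12⟩,⟨148,-252,-21⟩⟩,true,125,279,.leaf [(1,85849),(4,264),(5,352),(7,183)],.leaf [(1,85849),(4,264),(5,352),(7,183)]⟩,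
⟨⟨⟨189,-212,72⟩,⟨148,189,168⟩,⟨-168,-72,229⟩⟩,true,126,112,.leaf [(2,729),(11,434),(15,2),(18,77)],.leaf [(4,93),(5,1012),(6,806),(10,85849)]⟩,
⟨⟨⟨189,-212,-72⟩,⟨148,189,-168⟩,⟨168,72,229⟩⟩,true,126,181,.leaf [(2,128041),(5,440),(6,503),(18,2930)],.leaf [(2,37211),(5,160),(6,103),(10,5860)]⟩,
⟨⟨⟨195,-140,168⟩,⟨-140,93,240⟩,⟨-168,-240,-5⟩⟩,true,127,82,.leaf [(3,171698),(4,345),(5,926),(14,145)],.leaf [(1,1188),(3,1023),(10,752),(15,1)]⟩,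
⟨⟨⟨195,-140,-168⟩,⟨-140,93,-240⟩,⟨168,240,-5⟩⟩,true,127,211,.leaf [(0,74715),(2,72664),(5,408),(6,163)],.leaf [(0,74715),(2,72664),(5,408),(6,163)]⟩,
⟨⟨⟨123,-248,-96⟩,⟨184,3,228⟩,⟨-192,-156,157⟩⟩,true,129,135,.leaf [(3,6012360),(4,9801),(18,514508),(22,221)],.leaf [(3,9669),(5,51),(10,5567),(14,1)]⟩,
⟨⟨⟨123,-248,96⟩,⟨184,3,-228⟩,⟨192,156,157⟩⟩,true,129,158,.leaf [(0,5274),(2,33109),(5,132),(6,61)],.leaf [(0,5274),(2,33109),(5,132),(6,61)]⟩,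
⟨⟨⟨-3,184,-228⟩,⟨-248,-123,-96⟩,⟨-156,192,157⟩⟩,true,134,76,.leaf [(1,35),(2,307),(3,97),(4,1)],.leaf [(1,35),(2,307),(3,97),(4,1)]⟩,
⟨⟨⟨-3,184,228⟩,⟨-248,-123,96⟩,⟨156,-192,157⟩⟩,true,134,217,.leaf [(4,5211),(11,397601),(15,767),(18,72371)],.leaf [(1,8),(2,272),(4,1),(10,35)]⟩,
⟨⟨⟨123,-96,-248⟩,⟨-192,157,-156⟩,⟨184,228,3⟩⟩,true,135,129,.leaf [(2,747),(11,380),(14,2),(18,113)],.leaf [(2,209495),(4,275),(5,1044),(10,59186)]⟩,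
⟨⟨⟨-123,96,-248⟩,⟨-192,157,156⟩,⟨184,228,-3⟩⟩,true,135,164,.leaf [(1,33109),(3,5274),(4,132),(5,61)],.leaf [(1,33109),(3,5274),(4,132),(5,61)]⟩,
⟨⟨⟨67,-264,-108⟩,⟨-72,-123,256⟩,⟨-276,-32,-93⟩⟩,true,136,29,.leaf [(1,33109),(3,49224),(4,232),(5,141)],.leaf [(1,33109),(3,49224),(4,232),(5,141)]⟩,
⟨⟨⟨67,-264,108⟩,⟨72,123,256⟩,⟨-276,-32,93⟩⟩,true,136,264,.leaf [(0,16408),(3,6739),(5,61),(6,16)],.leaf [(0,16408),(3,6739),(5,61),(6,16)]⟩,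
⟨⟨⟨-285,-68,0⟩,⟨-68,285,0⟩,⟨0,0,-293⟩⟩,true,138,0,.leaf [(0,38),(1,293),(2,30),(5,1)],.leaf [(0,38),(1,293),(2,30),(5,1)]⟩,
⟨⟨⟨285,60,-32⟩,⟨-60,157,-240⟩,⟨-32,240,165⟩⟩,true,139,4,.leaf [(4,4),(5,3),(7,2),(15,1)],.leaf [(0,193),(3,274),(5,2),(10,167)]⟩,
⟨⟨⟨-285,-60,-32⟩,⟨-60,157,240⟩,⟨-32,240,-165⟩⟩,true,139,289,.leaf [(0,2930),(1,4981),(4,10),(5,17)],.leaf [(0,2930),(1,4981),(4,10),(5,17)]⟩,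
⟨⟨⟨261,112,72⟩,⟨112,-99,-252⟩,⟨-72,252,-131⟩⟩,true,143,71,.leaf [(0,4981),(1,293),(4,11),(5,19)],.leaf [(0,4981),(1,293),(4,11),(5,19)]⟩,
⟨⟨⟨261,112,-72⟩,⟨112,-99,252⟩,⟨72,-252,-131⟩⟩,true,143,222,.leaf [(0,193),(1,324),(2,18),(4,1)],.leaf [(0,193),(1,324),(2,18),(4,1)]⟩,
⟨⟨⟨-261,112,-72⟩,⟨112,99,-252⟩,⟨-72,-252,-131⟩⟩,true,150,71,.leaf [(0,18),(2,193),(3,324),(6,1)],.leaf [(0,18),(2,193),(3,324),(6,1)]⟩,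
⟨⟨⟨-261,112,72⟩,⟨112,99,252⟩,⟨72,252,-131⟩⟩,true,150,222,.leaf [(0,8497),(3,39555),(4,169),(5,45)],.leaf [(0,8497),(3,39555),(4,169),(5,45)]⟩,
⟨⟨⟨285,-60,-32⟩,⟨60,157,240⟩,⟨-32,-240,165⟩⟩,true,154,4,.leaf [(2,2930),(3,4981),(4,10),(7,17)],.leaf [(2,2930),(3,4981),(4,10),(7,17)]⟩,
⟨⟨⟨-285,60,-32⟩,⟨60,157,-240⟩,⟨-32,-240,-165⟩⟩,true,154,289,.leaf [(2,1465),(5,6),(7,10),(18,293)],.leaf [(1,471),(2,13),(7,1),(10,167)]⟩,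
⟨⟨⟨285,-68,0⟩,⟨-68,-285,0⟩,⟨0,0,-293⟩⟩,true,155,0,.leaf [(1,1172),(2,4395),(4,19),(5,4)],.leaf [(1,1172),(2,4395),(4,19),(5,4)]⟩,
⟨⟨⟨67,264,-108⟩,⟨-72,123,256⟩,⟨276,-32,93⟩⟩,true,157,29,.leaf [(0,141),(1,322),(3,42),(4,1)],.leaf [(0,141),(1,322),(3,42),(4,1)]⟩,
⟨⟨⟨67,264,108⟩,⟨72,-123,256⟩,⟨276,-32,-93⟩⟩,true,157,264,.leaf [(0,270),(1,148),(2,117),(4,1)],.leaf [(0,270),(1,148),(2,117),(4,1)]⟩,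
⟨⟨⟨123,96,-248⟩,⟨192,157,156⟩,⟨184,-228,3⟩⟩,true,158,129,.leaf [(1,5274),(3,33109),(4,132),(7,61)],.leaf [(1,5274),(3,33109),(4,132),(7,61)]⟩,
⟨⟨⟨-123,-96,-248⟩,⟨192,157,-156⟩,⟨184,-228,-3⟩⟩,true,158,164,.leaf [(0,4438071),(7,6633),(18,442723),(23,227)],.leaf [(0,87900),(4,263),(7,568),(10,29593)]⟩,
⟨⟨⟨3,184,228⟩,⟨-248,123,-96⟩,⟨-156,-192,157⟩⟩,true,159,76,.leaf [(4,3),(5,4),(6,2),(14,1)],.leaf [(4,849),(5,592),(6,836),(10,85849)]⟩,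
⟨⟨⟨3,184,-228⟩,⟨-248,123,96⟩,⟨156,192,157⟩⟩,true,159,217,.leaf [(0,61),(1,318),(3,6),(4,1)],.leaf [(0,61),(1,318),(3,6),(4,1)]⟩,
⟨⟨⟨-123,-248,96⟩,⟨184,-3,228⟩,⟨-192,156,157⟩⟩,true,164,135,.leaf [(0,4981),(1,293),(4,11),(5,19)],.leaf [(0,4981),(1,293),(4,11),(5,19)]⟩,
⟨⟨⟨-123,-248,-96⟩,⟨184,-3,-228⟩,⟨192,-156,157⟩⟩,true,164,158,.leaf [(1,138882),(5,1270),(6,1055),(18,29593)],.leaf [(1,419283),(5,957),(10,151481),(14,73)]⟩,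
⟨⟨⟨-195,-140,-168⟩,⟨-140,-93,240⟩,⟨-168,240,-5⟩⟩,true,166,82,.leaf [(1,63874),(3,83505),(4,380),(5,47)],.leaf [(1,63874),(3,83505),(4,380),(5,47)]⟩,
⟨⟨⟨-195,-140,168⟩,⟨-140,-93,-240⟩,⟨168,-240,-5⟩⟩,true,166,211,.leaf [(1,495),(5,3),(10,55),(18,49)],.leaf [(1,2403),(3,2013),(10,1007),(14,1)]⟩,
⟨⟨⟨-189,-212,-72⟩,⟨148,-189,168⟩,⟨-168,72,229⟩⟩,true,167,112,.leaf [(0,4860),(18,637),(22,1)],.leaf [(0,17287),(4,61),(5,72),(10,1758)]⟩,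
⟨⟨⟨-189,-212,72⟩,⟨148,-189,-168⟩,⟨168,-72,229⟩⟩,true,167,181,.leaf [(2,579),(5,6),(11,274),(18,167)],.leaf [(4,1026),(5,744),(10,85849),(14,17)]⟩,
⟨⟨⟨-21,-12,292⟩,⟨252,-149,12⟩,⟨148,252,21⟩⟩,true,168,14,.leaf [(0,68855),(2,42192),(4,271),(5,280)],.leaf [(0,68855),(2,42192),(4,271),(5,280)]⟩,
⟨⟨⟨21,12,292⟩,⟨252,-149,-12⟩,⟨148,252,-21⟩⟩,true,168,279,.leaf [(2,24905),(3,19631),(4,25),(5,87)],.leaf [(2,24905),(3,19631),(4,25),(5,87)]⟩,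
⟨⟨⟨171,-108,-212⟩,⟨-228,-149,-108⟩,⟨-68,228,-171⟩⟩,true,169,93,.leaf [(1,22561),(2,53619),(4,267),(5,127)],.leaf [(1,22561),(2,53619),(4,267),(5,127)]⟩,
⟨⟨⟨-171,108,-212⟩,⟨-228,-149,108⟩,⟨-68,228,171⟩⟩,true,169,200,.leaf [(0,257),(1,317),(3,3),(4,1)],.leaf [(0,257),(1,317),(3,3),(4,1)]⟩,
⟨⟨⟨-149,12,252⟩,⟨252,21,148⟩,⟨-12,292,-21⟩⟩,true,171,75,.leaf [(0,208),(1,273),(2,72),(5,1)],.leaf [(0,208),(1,273),(2,72),(5,1)]⟩,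
⟨⟨⟨-149,12,-252⟩,⟨-252,-21,148⟩,⟨-12,292,21⟩⟩,true,171,218,.leaf [(0,33),(1,268),(3,132),(4,1)],.leaf [(0,33),(1,268),(3,132),(4,1)]⟩,
⟨⟨⟨67,72,-276⟩,⟨-264,123,-32⟩,⟨108,256,93⟩⟩,true,176,9,.leaf [(1,17873),(2,4688),(4,56),(7,23)],.leaf [(1,17873),(2,4688),(4,56),(7,23)]⟩,
⟨⟨⟨67,72,276⟩,⟨264,-123,-32⟩,⟨108,256,-93⟩⟩,true,176,284,.leaf [(0,94346),(2,34281),(4,369),(5,308)],.leaf [(0,94346),(2,34281),(4,369),(5,308)]⟩,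
⟨⟨⟨93,-240,-140⟩,⟨240,-5,168⟩,⟨-140,-168,195⟩⟩,true,177,30,.leaf [(0,85849),(4,245),(5,275),(7,303)],.leaf [(0,85849),(4,245),(5,275),(7,303)]⟩,
⟨⟨⟨-93,240,-140⟩,⟨240,-5,-168⟩,⟨-140,-168,-195⟩⟩,true,177,263,.leaf [(4,558),(11,99620),(14,245),(18,7911)],.leaf [(0,216),(3,88),(4,1),(10,29)]⟩,
⟨⟨⟨189,-72,-212⟩,⟨168,229,72⟩,⟨148,-168,189⟩⟩,true,181,126,.leaf [(3,2014668),(4,4149),(18,220922),(22,97)],.leaf [(3,2930),(4,7),(7,10),(10,293)]⟩,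
⟨⟨⟨-189,72,-212⟩,⟨168,229,-72⟩,⟨148,-168,-189⟩⟩,true,181,167,.leaf [(3,1845900),(5,10827),(18,518024),(23,55)],.leaf [(4,270),(7,900),(10,85849),(14,43)]⟩,
⟨⟨⟨229,72,168⟩,⟨-168,189,148⟩,⟨-72,-212,189⟩⟩,true,182,34,.leaf [(3,300032),(4,276),(6,533),(18,34281)],.leaf [(1,2538),(3,1122),(10,731),(14,1)]⟩,
⟨⟨⟨229,72,-168⟩,⟨168,-189,148⟩,⟨-72,-212,-189⟩⟩,true,182,259,.leaf [(0,258),(1,316),(2,3),(4,1)],.leaf [(0,258),(1,316),(2,3),(4,1)]⟩,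
⟨⟨⟨283,-72,-24⟩,⟨24,-3,292⟩,⟨-72,-284,3⟩⟩,true,183,61,.leaf [(1,6739),(3,7325),(4,25),(6,23)],.leaf [(1,6739),(3,7325),(4,25),(6,23)]⟩,
⟨⟨⟨283,-72,24⟩,⟨-24,3,292⟩,⟨-72,-284,-3⟩⟩,true,183,232,.leaf [(1,7325),(3,6739),(4,23),(6,25)],.leaf [(1,7325),(3,6739),(4,23),(6,25)]⟩,
⟨⟨⟨-165,240,-32⟩,⟨240,157,-60⟩,⟨-32,-60,-285⟩⟩,true,185,73,.L (.leaf [(0,303),(1,115),(3,45),(4,1)]) (.leaf [(0,169),(1,411),(2,213),(5,1)]) (.leaf [(1,61530),(3,49517),(5,279),(6,20)]),.leaf [(3,95811),(4,303),(10,26077),(15,1)]⟩,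
⟨⟨⟨165,-240,-32⟩,⟨240,157,60⟩,⟨-32,-60,285⟩⟩,true,185,220,.leaf [(0,90),(2,210),(3,253),(7,1)],.leaf [(0,90),(2,210),(3,253),(7,1)]⟩,
⟨⟨⟨99,252,112⟩,⟨252,-131,72⟩,⟨112,72,-261⟩⟩,true,189,84,.leaf [(0,96104),(2,39555),(4,373),(5,40)],.leaf [(0,96104),(2,39555),(4,373),(5,40)]⟩,
⟨⟨⟨-99,-252,112⟩,⟨252,-131,-72⟩,⟨112,72,261⟩⟩,true,189,209,.leaf [(0,85849),(4,383),(5,248),(7,288)],.leaf [(0,85849),(4,383),(5,248),(7,288)]⟩,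
⟨⟨⟨157,-192,-156⟩,⟨-96,123,-248⟩,⟨228,184,3⟩⟩,true,191,27,.leaf [(2,780259),(5,2010),(7,1882),(18,7911)],.leaf [(2,226489),(5,633),(7,451),(10,7911)]⟩,
⟨⟨⟨157,-192,156⟩,⟨96,-123,-248⟩,⟨228,184,-3⟩⟩,true,191,266,.leaf [(0,73),(2,303),(3,159),(5,1)],.leaf [(0,73),(2,303),(3,159),(5,1)]⟩,
⟨⟨⟨-93,-276,-32⟩,⟨-108,67,-264⟩,⟨256,-72,-123⟩⟩,true,192,35,.leaf [(1,12013),(2,45708),(5,178),(7,27)],.leaf [(1,12013),(2,45708),(5,178),(7,27)]⟩,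
⟨⟨⟨93,276,-32⟩,⟨-108,67,264⟩,⟨256,-72,123⟩⟩,true,192,258,.leaf [(0,152),(1,296),(2,57),(4,1)],.leaf [(0,152),(1,296),(2,57),(4,1)]⟩,
⟨⟨⟨-189,148,-168⟩,⟨-212,-189,72⟩,⟨-72,168,229⟩⟩,true,193,66,.leaf [(0,277),(1,240),(2,60),(4,1)],.leaf [(0,277),(1,240),(2,60),(4,1)]⟩,
⟨⟨⟨-189,148,168⟩,⟨-212,-189,-72⟩,⟨72,-168,229⟩⟩,true,193,227,.leaf [(0,637),(4,1),(18,60)],.leaf [(0,97),(2,180),(4,1),(10,60)]⟩,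
⟨⟨⟨171,-228,-68⟩,⟨-108,-149,228⟩,⟨-212,-108,-171⟩⟩,true,194,63,.leaf [(1,23440),(3,20217),(4,120),(5,79)],.leaf [(1,23440),(3,20217),(4,120),(5,79)]⟩,
⟨⟨⟨-171,228,-68⟩,⟨-108,-149,-228⟩,⟨-212,-108,171⟩⟩,true,194,230,.leaf [(2,17287),(4,61),(7,72),(18,586)],.leaf [(2,78817),(4,301),(7,240),(10,5860)]⟩,
⟨⟨⟨3,292,24⟩,⟨-284,-3,72⟩,⟨72,-24,283⟩⟩,true,195,8,.leaf [(0,28),(1,48),(2,267),(4,1)],.leaf [(0,28),(1,48),(2,267),(4,1)]⟩,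
⟨⟨⟨3,292,-24⟩,⟨-284,-3,-72⟩,⟨-72,24,283⟩⟩,true,195,285,.leaf [(0,293),(2,586),(4,2),(6,1)],.leaf [(0,293),(2,586),(4,2),(6,1)]⟩,
⟨⟨⟨-221,192,12⟩,⟨-192,-219,-32⟩,⟨-12,-32,291⟩⟩,true,198,49,.leaf [(0,110),(2,125),(4,1),(11,44)],.leaf [(0,209),(2,191),(4,1),(10,11)]⟩,
⟨⟨⟨-221,192,-12⟩,⟨192,219,-32⟩,⟨-12,-32,-291⟩⟩,true,198,244,.leaf [(1,1465),(3,2051),(5,5),(7,7)],.leaf [(1,1465),(3,2051),(5,5),(7,7)]⟩,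
⟨⟨⟨-171,-212,-108⟩,⟨-68,171,-228⟩,⟨228,-108,-149⟩⟩,true,200,124,.leaf [(1,53619),(2,22561),(5,267),(6,127)],.leaf [(1,53619),(2,22561),(5,267),(6,127)]⟩,
⟨⟨⟨-171,-212,108⟩,⟨-68,171,228⟩,⟨-228,108,-149⟩⟩,true,200,169,.leaf [(0,317),(1,257),(2,3),(5,1)],.leaf [(0,317),(1,257),(2,3),(5,1)]⟩,
⟨⟨⟨-99,112,252⟩,⟨112,261,-72⟩,⟨-252,72,-131⟩⟩,true,209,104,.leaf [(1,39555),(3,96104),(5,373),(6,40)],.leaf [(1,39555),(3,96104),(5,373),(6,40)]⟩,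
⟨⟨⟨-99,112,-252⟩,⟨112,261,72⟩,⟨252,-72,-131⟩⟩,true,209,189,.leaf [(1,85849),(4,248),(5,383),(6,288)],.leaf [(1,85849),(4,248),(5,383),(6,288)]⟩,
⟨⟨⟨195,-168,-140⟩,⟨168,-5,240⟩,⟨-140,-240,93⟩⟩,true,211,127,.leaf [(1,74715),(3,72664),(4,408),(7,163)],.leaf [(1,74715),(3,72664),(4,408),(7,163)]⟩,
⟨⟨⟨-195,168,-140⟩,⟨168,-5,-240⟩,⟨-140,-240,-93⟩⟩,true,211,166,.leaf [(0,486),(7,3),(11,115),(18,146)],.leaf [(2,41899),(4,253),(7,324),(10,25198)]⟩,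
⟨⟨⟨157,60,-240⟩,⟨60,-285,-32⟩,⟨-240,-32,-165⟩⟩,true,215,19,.leaf [(0,20),(2,325),(3,208),(4,1)],.leaf [(0,20),(2,325),(3,208),(4,1)]⟩,
⟨⟨⟨157,60,240⟩,⟨-60,285,-32⟩,⟨-240,-32,165⟩⟩,true,215,274,.leaf [(5,4320),(10,351893),(14,2249),(18,52740)],.leaf [(3,240),(10,197),(14,1),(26,20)]⟩,
⟨⟨⟨-3,228,184⟩,⟨156,157,-192⟩,⟨-248,96,-123⟩⟩,true,217,134,.leaf [(5,216),(10,9376),(14,91),(18,3809)],.leaf [(3,1758),(4,57),(10,5567),(15,2)]⟩,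
⟨⟨⟨3,-228,184⟩,⟨156,157,192⟩,⟨-248,96,123⟩⟩,true,217,159,.leaf [(0,318),(1,61),(2,6),(5,1)],.leaf [(0,318),(1,61),(2,6),(5,1)]⟩,
⟨⟨⟨-149,-252,-12⟩,⟨12,-21,292⟩,⟨-252,148,21⟩⟩,true,218,122,.leaf [(0,33695),(1,12892),(4,55),(5,116)],.leaf [(0,33695),(1,12892),(4,55),(5,116)]⟩,
⟨⟨⟨-149,-252,12⟩,⟨-12,21,292⟩,⟨-252,148,-21⟩⟩,true,218,171,.leaf [(0,33988),(1,16115),(4,44),(5,115)],.leaf [(0,33988),(1,16115),(4,44),(5,115)]⟩,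
⟨⟨⟨-149,-108,228⟩,⟨-228,171,-68⟩,⟨-108,-212,-171⟩⟩,true,219,26,.leaf [(5,864),(6,108),(10,85849),(14,19)],.leaf [(1,5925339),(5,18765),(26,223559),(30,289)]⟩,
⟨⟨⟨-149,-108,-228⟩,⟨228,-171,-68⟩,⟨-108,-212,171⟩⟩,true,219,267,.leaf [(6,810),(15,900),(18,85849),(22,43)],.leaf [(0,49),(3,628),(4,2),(10,77)]⟩,
⟨⟨⟨165,-32,240⟩,⟨-32,285,60⟩,⟨-240,-60,157⟩⟩,true,220,108,.leaf [(0,257547),(5,707),(6,283),(15,167)],.leaf [(0,148551),(5,772),(6,866),(10,48931)]⟩,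
⟨⟨⟨165,-32,-240⟩,⟨-32,285,-60⟩,⟨240,60,157⟩⟩,true,220,185,.leaf [(1,90),(2,253),(3,210),(6,1)],.leaf [(1,90),(2,253),(3,210),(6,1)]⟩,
⟨⟨⟨261,-72,112⟩,⟨72,-131,-252⟩,⟨112,252,-99⟩⟩,true,222,143,.leaf [(0,324),(1,193),(3,18),(5,1)],.leaf [(0,324),(1,193),(3,18),(5,1)]⟩,
⟨⟨⟨-261,72,112⟩,⟨72,-131,252⟩,⟨112,252,99⟩⟩,true,222,150,.leaf [(0,203),(1,5),(3,135),(4,1)],.leaf [(0,203),(1,5),(3,135),(4,1)]⟩,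
⟨⟨⟨123,256,-72⟩,⟨-32,93,276⟩,⟨264,-108,67⟩⟩,true,226,28,.leaf [(0,163),(1,333),(3,15),(4,1)],.leaf [(0,163),(1,333),(3,15),(4,1)]⟩,
⟨⟨⟨123,256,72⟩,⟨-32,93,-276⟩,⟨-264,108,67⟩⟩,true,226,265,.leaf [(0,85849),(4,190),(5,372),(6,315)],.leaf [(0,85849),(4,190),(5,372),(6,315)]⟩,
⟨⟨⟨189,-168,148⟩,⟨72,229,168⟩,⟨-212,-72,189⟩⟩,true,227,100,.leaf [(3,85849),(4,240),(5,300),(7,277)],.leaf [(3,85849),(4,240),(5,300),(7,277)]⟩,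
⟨⟨⟨-189,168,148⟩,⟨72,229,-168⟩,⟨-212,-72,-189⟩⟩,true,227,193,.leaf [(1,79403),(5,587),(14,180),(18,3516)],.leaf [(1,3213),(3,1746),(10,1156),(15,1)]⟩,
⟨⟨⟨-93,-108,256⟩,⟨-276,67,-72⟩,⟨-32,-264,-123⟩⟩,true,228,13,.leaf [(1,8497),(3,4981),(5,31),(7,13)],.leaf [(1,8497),(3,4981),(5,31),(7,13)]⟩,
⟨⟨⟨93,108,256⟩,⟨-276,67,72⟩,⟨-32,-264,123⟩⟩,true,228,280,.leaf [(1,85849),(4,348),(5,178),(7,333)],.leaf [(1,85849),(4,348),(5,178),(7,333)]⟩,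
⟨⟨⟨-171,-68,-228⟩,⟨-212,171,108⟩,⟨108,228,-149⟩⟩,true,230,99,.leaf [(1,79696),(3,879),(4,296),(5,239)],.leaf [(1,79696),(3,879),(4,296),(5,239)]⟩,
⟨⟨⟨-171,-68,228⟩,⟨-212,171,-108⟩,⟨-108,-228,-149⟩⟩,true,230,194,.leaf [(3,114563),(5,299),(6,180),(18,5860)],.leaf [(3,8497),(5,1),(6,30),(10,2930)]⟩,
⟨⟨⟨157,228,96⟩,⟨156,-3,-248⟩,⟨-192,184,-123⟩⟩,true,231,51,.leaf [(0,85849),(4,159),(5,232),(7,144)],.leaf [(0,85849),(4,159),(5,232),(7,144)]⟩,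
⟨⟨⟨157,228,-96⟩,⟨-156,3,-248⟩,⟨-192,184,123⟩⟩,true,231,242,.leaf [(0,156),(2,148),(7,1),(11,27)],.leaf [(0,867),(2,754),(7,4),(10,27)]⟩,
⟨⟨⟨283,24,72⟩,⟨72,3,-284⟩,⟨-24,292,-3⟩⟩,true,232,110,.leaf [(0,268),(1,18),(3,57),(5,1)],.leaf [(0,268),(1,18),(3,57),(5,1)]⟩,
⟨⟨⟨283,24,-72⟩,⟨-72,-3,-284⟩,⟨-24,292,3⟩⟩,true,232,183,.leaf [(0,7325),(2,6739),(5,23),(7,25)],.leaf [(0,7325),(2,6739),(5,23),(7,25)]⟩,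
⟨⟨⟨219,-32,192⟩,⟨-32,-291,-12⟩,⟨192,-12,-221⟩⟩,true,238,37,.leaf [(0,2930),(1,4981),(4,10),(5,17)],.leaf [(0,2930),(1,4981),(4,10),(5,17)]⟩,
⟨⟨⟨219,-32,-192⟩,⟨-32,-291,12⟩,⟨-192,12,-221⟩⟩,true,238,256,.leaf [(1,98),(2,259),(3,106),(4,1)],.leaf [(1,98),(2,259),(3,106),(4,1)]⟩,
⟨⟨⟨3,-156,-248⟩,⟨228,157,-96⟩,⟨184,-192,123⟩⟩,true,241,15,.leaf [(0,257547),(4,286),(7,836),(14,73)],.leaf [(0,252273),(4,322),(7,1076),(10,21389)]⟩,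
⟨⟨⟨-3,156,-248⟩,⟨228,157,96⟩,⟨184,-192,-123⟩⟩,true,241,278,.leaf [(1,1758),(3,10255),(4,36),(7,1)],.leaf [(1,1758),(3,10255),(4,36),(7,1)]⟩,
⟨⟨⟨157,-96,-228⟩,⟨192,-123,184⟩,⟨-156,-248,-3⟩⟩,true,242,62,.leaf [(0,27),(1,202),(3,210),(4,1)],.leaf [(0,27),(1,202),(3,210),(4,1)]⟩,
⟨⟨⟨157,-96,228⟩,⟨-192,123,184⟩,⟨-156,-248,3⟩⟩,true,242,231,.leaf [(1,156),(3,148),(6,1),(10,27)],.leaf [(1,1509),(3,335),(6,5),(26,27)]⟩,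
⟨⟨⟨-221,-12,-192⟩,⟨12,291,-32⟩,⟨192,-32,-219⟩⟩,true,244,95,.leaf [(1,81),(3,154),(7,1),(10,44)],.leaf [(1,171698),(5,517),(7,382),(23,11)]⟩,
⟨⟨⟨-221,-12,192⟩,⟨-12,-291,-32⟩,⟨192,-32,219⟩⟩,true,244,198,.leaf [(0,1465),(2,2051),(4,5),(6,7)],.leaf [(0,1465),(2,2051),(4,5),(6,7)]⟩,
⟨⟨⟨-5,240,168⟩,⟨-240,93,-140⟩,⟨-168,-140,195⟩⟩,true,245,25,.R (.leaf [(0,56124),(4,117),(18,7529),(27,160)]) (.leaf [(0,4878),(4,9),(18,653),(26,10)]) (.R (.leaf [(0,45927),(18,1935),(34,215),(38,1)]) (.leaf [(0,62517996),(4,122193),(18,8302741),(39,160)]) (.leaf [(0,35604),(4,63),(18,4859),(35,32)])),.leaf [(4,168),(6,59),(7,808),(10,85849)]⟩,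
⟨⟨⟨-5,240,-168⟩,⟨240,-93,-140⟩,⟨-168,-140,-195⟩⟩,true,245,268,.leaf [(0,303),(1,28),(2,30),(4,1)],.leaf [(0,303),(1,28),(2,30),(4,1)]⟩,
⟨⟨⟨-123,-32,264⟩,⟨256,-93,108⟩,⟨72,276,67⟩⟩,true,248,5,.leaf [(0,52154),(2,7911),(4,197),(5,156)],.leaf [(0,52154),(2,7911),(4,197),(5,156)]⟩,
⟨⟨⟨-123,-32,-264⟩,⟨256,-93,-108⟩,⟨-72,-276,67⟩⟩,true,248,288,.leaf [(0,1465),(3,59772),(4,190),(6,81)],.leaf [(0,1465),(3,59772),(4,190),(6,81)]⟩,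
⟨⟨⟨123,184,192⟩,⟨-248,3,156⟩,⟨96,-228,157⟩⟩,true,254,23,.leaf [(1,92),(2,2375),(4,10),(18,113)],.leaf [(1,416),(2,68),(4,1),(10,113)]⟩,
⟨⟨⟨123,184,-192⟩,⟨-248,3,-156⟩,⟨-96,228,157⟩⟩,true,254,270,.leaf [(1,3516),(2,6739),(4,30),(6,7)],.leaf [(1,3516),(2,6739),(4,30),(6,7)]⟩,
⟨⟨⟨-219,192,-32⟩,⟨-192,-221,-12⟩,⟨-32,12,291⟩⟩,true,256,55,.leaf [(0,230),(1,20),(2,183),(4,1)],.leaf [(0,230),(1,20),(2,183),(4,1)]⟩,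
⟨⟨⟨219,-192,-32⟩,⟨-192,-221,12⟩,⟨-32,12,-291⟩⟩,true,256,238,.leaf [(1,59479),(2,44829),(4,357),(5,169)],.leaf [(1,59479),(2,44829),(4,357),(5,169)]⟩,
⟨⟨⟨93,-32,-276⟩,⟨256,123,72⟩,⟨108,-264,67⟩⟩,true,258,101,.leaf [(1,51275),(3,12013),(4,91),(6,155)],.leaf [(1,51275),(3,12013),(4,91),(6,155)]⟩,
⟨⟨⟨93,-32,276⟩,⟨256,123,-72⟩,⟨-108,264,67⟩⟩,true,258,192,.leaf [(0,296),(1,152),(3,57),(5,1)],.leaf [(0,296),(1,152),(3,57),(5,1)]⟩,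
⟨⟨⟨229,-168,-72⟩,⟨72,189,-212⟩,⟨168,148,189⟩⟩,true,259,111,.leaf [(2,343396),(5,249),(7,754),(15,261)],.leaf [(0,493),(2,510),(5,4),(10,261)]⟩,
⟨⟨⟨229,-168,72⟩,⟨-72,-189,-212⟩,⟨168,148,-189⟩⟩,true,259,182,.leaf [(0,31937),(1,26077),(4,1),(5,101)],.leaf [(0,31937),(1,26077),(4,1),(5,101)]⟩,
⟨⟨⟨-131,-72,-252⟩,⟨-72,-261,112⟩,⟨-252,112,99⟩⟩,true,260,31,.leaf [(1,58),(2,189),(3,306),(4,1)],.leaf [(1,58),(2,189),(3,306),(4,1)]⟩,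
⟨⟨⟨-131,-72,252⟩,⟨72,261,112⟩,⟨-252,112,-99⟩⟩,true,260,262,.leaf [(1,23),(2,184),(3,328),(5,1)],.leaf [(1,23),(2,184),(3,328),(5,1)]⟩,
⟨⟨⟨-131,252,72⟩,⟨252,99,112⟩,⟨72,112,-261⟩⟩,true,262,33,.leaf [(0,16994),(3,39555),(4,198),(5,95)],.leaf [(0,16994),(3,39555),(4,198),(5,95)]⟩,
⟨⟨⟨-131,252,-72⟩,⟨-252,-99,112⟩,⟨72,112,261⟩⟩,true,262,260,.leaf [(0,23),(2,328),(3,184),(4,1)],.leaf [(0,23),(2,328),(3,184),(4,1)]⟩,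
⟨⟨⟨-93,-140,-240⟩,⟨-140,-195,168⟩,⟨-240,168,-5⟩⟩,true,263,116,.leaf [(0,55),(1,255),(3,153),(4,1)],.leaf [(0,55),(1,255),(3,153),(4,1)]⟩,
⟨⟨⟨-93,-140,240⟩,⟨-140,-195,-168⟩,⟨240,-168,-5⟩⟩,true,263,177,.leaf [(5,1899),(10,226489),(15,451),(18,7911)],.leaf [(1,2428677),(10,1059488),(15,2012),(23,33)]⟩,
⟨⟨⟨67,108,-264⟩,⟨-276,93,-32⟩,⟨72,256,123⟩⟩,true,264,136,.leaf [(1,16408),(2,6739),(4,61),(7,16)],.leaf [(1,16408),(2,6739),(4,61),(7,16)]⟩,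
⟨⟨⟨67,108,264⟩,⟨276,-93,-32⟩,⟨72,256,-123⟩⟩,true,264,157,.leaf [(0,100499),(2,21096),(4,387),(5,296)],.leaf [(0,100499),(2,21096),(4,387),(5,296)]⟩,
⟨⟨⟨-123,-72,256⟩,⟨-264,67,-108⟩,⟨-32,-276,-93⟩⟩,true,265,67,.leaf [(1,9083),(3,3809),(5,29),(7,17)],.leaf [(1,9083),(3,3809),(5,29),(7,17)]⟩,
⟨⟨⟨123,72,256⟩,⟨-264,67,108⟩,⟨-32,-276,93⟩⟩,true,265,226,.leaf [(1,85849),(4,372),(5,190),(7,315)],.leaf [(1,85849),(4,372),(5,190),(7,315)]⟩,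
⟨⟨⟨157,156,192⟩,⟨-228,3,184⟩,⟨96,-248,123⟩⟩,true,266,102,.leaf [(1,816884),(4,1955),(6,2130),(18,7911)],.leaf [(1,43364),(4,86),(6,33),(10,7911)]⟩,
⟨⟨⟨157,156,-192⟩,⟨228,-3,184⟩,⟨96,-248,-123⟩⟩,true,266,191,.leaf [(1,73),(2,159),(3,303),(4,1)],.leaf [(1,73),(2,159),(3,303),(4,1)]⟩,
⟨⟨⟨-149,-228,108⟩,⟨108,-171,-212⟩,⟨228,-68,171⟩⟩,true,267,74,.leaf [(2,12013),(6,178),(11,15236),(14,9)],.leaf [(0,153),(2,220),(6,1),(10,26)]⟩,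
⟨⟨⟨-149,-228,-108⟩,⟨-108,171,-212⟩,⟨228,-68,-171⟩⟩,true,267,219,.leaf [(1,938),(2,1985),(5,10),(18,77)],.leaf [(1,371),(2,83),(5,1),(10,77)]⟩,
⟨⟨⟨-5,-168,-240⟩,⟨168,195,-140⟩,⟨240,-140,93⟩⟩,true,268,48,.R (.leaf [(3,15417),(7,36),(18,2152),(27,41)]) (.leaf [(3,24489),(7,63),(18,3643),(26,41)]) (.leaf [(3,4825710),(7,13275),(18,746564),(31,41)]),.leaf [(1,366543),(5,468),(23,163),(26,9376)]⟩,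
⟨⟨⟨-5,-168,240⟩,⟨-168,-195,-140⟩,⟨240,-140,-93⟩⟩,true,268,245,.leaf [(0,28),(1,303),(3,30),(5,1)],.leaf [(0,28),(1,303),(3,30),(5,1)]⟩,
⟨⟨⟨3,-72,-284⟩,⟨-24,283,-72⟩,⟨292,24,-3⟩⟩,true,269,3,.leaf [(4,4),(5,3),(7,2),(15,1)],.L (.leaf [(2,27835),(3,38383),(4,59),(5,135)]) (.leaf [(0,42192),(1,8497),(5,124),(15,15)]) (.leaf [(0,5),(1,270),(3,122),(6,1)])⟩,
⟨⟨⟨-3,72,-284⟩,⟨-24,283,72⟩,⟨292,24,3⟩⟩,true,269,290,.leaf [(1,204),(3,2420),(4,5),(18,211)],.leaf [(1,162),(3,1098),(10,259),(14,1)]⟩,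
⟨⟨⟨-123,192,184⟩,⟨-96,157,-228⟩,⟨-248,-156,-3⟩⟩,true,270,39,.leaf [(1,2262),(2,205),(7,10),(18,113)],.leaf [(1,253152),(4,1089),(10,174335),(14,140)]⟩,
⟨⟨⟨123,-192,184⟩,⟨-96,157,228⟩,⟨-248,-156,3⟩⟩,true,270,254,.leaf [(0,3516),(3,6739),(5,30),(7,7)],.leaf [(0,3516),(3,6739),(5,30),(7,7)]⟩,
⟨⟨⟨-21,148,-252⟩,⟨292,21,-12⟩,⟨12,-252,-149⟩⟩,true,272,12,.leaf [(0,127),(1,27),(3,213),(4,1)],.leaf [(0,127),(1,27),(3,213),(4,1)]⟩,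
⟨⟨⟨-21,148,252⟩,⟨292,21,12⟩,⟨-12,252,-149⟩⟩,true,272,281,.leaf [(2,3223),(3,5860),(4,9),(5,20)],.leaf [(2,3223),(3,5860),(4,9),(5,20)]⟩,
⟨⟨⟨157,240,-60⟩,⟨240,-165,-32⟩,⟨-60,-32,-285⟩⟩,true,274,78,.leaf [(0,258),(1,28),(2,147),(4,1)],.leaf [(0,258),(1,28),(2,147),(4,1)]⟩,
⟨⟨⟨157,240,60⟩,⟨-240,165,-32⟩,⟨-60,-32,285⟩⟩,true,274,215,.leaf [(4,3780),(11,231763),(15,979),(18,52740)],.leaf [(0,91),(1,610),(7,2),(10,325)]⟩,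
⟨⟨⟨-291,-32,12⟩,⟨-32,219,-192⟩,⟨12,-192,-221⟩⟩,true,277,6,.leaf [(2,12892),(3,33695),(5,55),(6,116)],.leaf [(2,12892),(3,33695),(5,55),(6,116)]⟩,
⟨⟨⟨-291,-32,-12⟩,⟨-32,219,192⟩,⟨-12,192,-221⟩⟩,true,277,287,.leaf [(0,2051),(1,4981),(4,7),(5,17)],.leaf [(0,2051),(1,4981),(4,7),(5,17)]⟩,
⟨⟨⟨-3,-248,-156⟩,⟨184,-123,192⟩,⟨-228,-96,157⟩⟩,true,278,52,.L (.leaf [(0,73),(2,303),(3,159),(5,1)]) (.leaf [(0,7317),(7,12),(11,2164),(26,41)]) (.leaf [(0,65925),(3,120716),(4,330),(6,137)]),.leaf [(3,51568),(4,111),(5,232),(10,21389)]⟩,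
⟨⟨⟨-3,-248,156⟩,⟨184,-123,-192⟩,⟨228,96,157⟩⟩,true,278,241,.leaf [(0,1758),(2,10255),(5,36),(6,1)],.leaf [(0,1758),(2,10255),(5,36),(6,1)]⟩,
⟨⟨⟨21,292,-12⟩,⟨148,-21,-252⟩,⟨-252,12,-149⟩⟩,true,279,125,.leaf [(0,85849),(4,352),(5,264),(6,183)],.leaf [(0,85849),(4,352),(5,264),(6,183)]⟩,
⟨⟨⟨21,292,12⟩,⟨148,-21,252⟩,⟨252,-12,-149⟩⟩,true,279,168,.leaf [(0,313),(1,213),(3,27),(4,1)],.leaf [(0,313),(1,213),(3,27),(4,1)]⟩,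
⟨⟨⟨93,256,-108⟩,⟨-32,123,264⟩,⟨276,-72,67⟩⟩,true,280,65,.leaf [(0,133),(1,315),(3,57),(4,1)],.leaf [(0,133),(1,315),(3,57),(4,1)]⟩,
⟨⟨⟨93,256,108⟩,⟨-32,123,-264⟩,⟨-276,72,67⟩⟩,true,280,228,.leaf [(0,85849),(4,178),(5,348),(6,333)],.leaf [(0,85849),(4,178),(5,348),(6,333)]⟩,
⟨⟨⟨21,-252,148⟩,⟨-12,-149,-252⟩,⟨292,12,-21⟩⟩,true,281,21,.leaf [(1,88),(2,264),(3,81),(5,1)],.leaf [(1,88),(2,264),(3,81),(5,1)]⟩,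
⟨⟨⟨-21,252,148⟩,⟨-12,-149,252⟩,⟨292,12,21⟩⟩,true,281,272,.leaf [(0,257),(1,104),(2,144),(4,1)],.leaf [(0,257),(1,104),(2,144),(4,1)]⟩,
⟨⟨⟨67,276,-72⟩,⟨-108,93,256⟩,⟨264,-32,123⟩⟩,true,284,117,.leaf [(0,168),(1,328),(2,15),(4,1)],.leaf [(0,168),(1,328),(2,15),(4,1)]⟩,
⟨⟨⟨67,276,72⟩,⟨108,-93,256⟩,⟨264,-32,-123⟩⟩,true,284,176,.leaf [(0,297),(1,184),(2,72),(4,1)],.leaf [(0,297),(1,184),(2,72),(4,1)]⟩,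
⟨⟨⟨-3,24,292⟩,⟨-72,283,-24⟩,⟨-284,-72,3⟩⟩,true,285,98,.leaf [(1,586),(3,293),(5,1),(7,2)],.leaf [(1,586),(3,293),(5,1),(7,2)]⟩,
⟨⟨⟨3,-24,292⟩,⟨-72,283,24⟩,⟨-284,-72,-3⟩⟩,true,285,195,.leaf [(1,293),(3,586),(5,2),(7,1)],.leaf [(1,293),(3,586),(5,2),(7,1)]⟩,
⟨⟨⟨291,12,-32⟩,⟨-12,-221,-192⟩,⟨-32,192,-219⟩⟩,true,287,16,.leaf [(0,33695),(1,12892),(4,55),(5,116)],.leaf [(0,33695),(1,12892),(4,55),(5,116)]⟩,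
⟨⟨⟨-291,-12,-32⟩,⟨-12,-221,192⟩,⟨-32,192,219⟩⟩,true,287,277,.leaf [(0,209),(1,77),(3,147),(4,1)],.leaf [(0,209),(1,77),(3,147),(4,1)]⟩,
⟨⟨⟨123,264,-32⟩,⟨-72,67,276⟩,⟨256,-108,93⟩⟩,true,288,45,.leaf [(0,155),(1,308),(2,42),(4,1)],.leaf [(0,155),(1,308),(2,42),(4,1)]⟩,
⟨⟨⟨-123,-264,-32⟩,⟨-72,67,-276⟩,⟨256,-108,-93⟩⟩,true,288,248,.leaf [(1,1465),(2,59772),(5,190),(7,81)],.leaf [(1,1465),(2,59772),(5,190),(7,81)]⟩,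
⟨⟨⟨-285,-32,-60⟩,⟨-32,-165,240⟩,⟨-60,240,157⟩⟩,true,289,139,.leaf [(0,43),(2,90),(3,300),(4,1)],.leaf [(0,43),(2,90),(3,300),(4,1)]⟩,
⟨⟨⟨-285,-32,60⟩,⟨-32,-165,-240⟩,⟨60,-240,157⟩⟩,true,289,154,.leaf [(3,18459),(5,315),(18,11720),(23,2)],.leaf [(0,28),(3,120),(4,1),(10,105)]⟩,
⟨⟨⟨-3,-284,-72⟩,⟨292,3,-24⟩,⟨24,-72,283⟩⟩,true,290,24,.leaf [(4,3),(5,4),(6,2),(14,1)],.leaf [(1,366),(3,127),(5,1),(10,212)]⟩,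
⟨⟨⟨-3,-284,72⟩,⟨292,3,24⟩,⟨-24,72,283⟩⟩,true,290,269,.leaf [(0,2442),(2,37),(5,4),(18,211)],.leaf [(0,543),(2,670),(5,4),(10,211)]⟩]

theorem primeOk_293 : PrimeOk 293 := primeOk (by norm_num) (by norm_num) (by norm_num) L293
  (by decide +kernel) (by decide +kernel)

end Pool.Agent.Lib.H63.TSP
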