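import Mathlib
import Pool.Agent.Lib.H63.TSPPrime

/-!
# Generated certificates for the primes 17, 131, 151, 283
-/

set_option autoImplicit false

namespace Pool.Agent.Lib.H63.TSP

def L17 : List Cls := [
⟨⟨⟨-17,0,0⟩,⟨0,15,-8⟩,⟨0,-8,-15⟩⟩,false,0,4,.leaf [(3,1819),(5,33),(7,52),(18,136)],.leaf [(1,135),(3,222),(10,100),(23,1)]⟩,
⟨⟨⟨-17,0,0⟩,⟨0,-15,-8⟩,⟨0,-8,15⟩⟩,false,0,13,.leaf [(2,45),(6,6),(11,20),(18,7)],.leaf [(0,221),(4,16),(6,1),(10,34)]⟩,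
⟨⟨⟨15,0,-8⟩,⟨0,-17,0⟩,⟨-8,0,-15⟩⟩,true,0,4,.leaf [(0,5),(1,8),(2,12),(4,1)],.leaf [(0,5),(1,8),(2,12),(4,1)]⟩,
⟨⟨⟨-15,0,-8⟩,⟨0,-17,0⟩,⟨-8,0,15⟩⟩,true,0,13,.leaf [(0,17),(1,5),(3,3),(4,1)],.leaf [(0,17),(1,5),(3,3),(4,1)]⟩,
⟨⟨⟨9,-8,12⟩,⟨-8,9,12⟩,⟨-12,-12,1⟩⟩,true,1,7,.L (.leaf [(0,1),(1,12),(3,12),(4,1)]) (.leaf [(0,5508),(5,567),(18,1564),(23,1)]) (.leaf [(0,20),(1,18),(3,5),(7,1)]),.leaf [(1,6885),(5,1323),(26,935),(30,1)]⟩,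
⟨⟨⟨9,-8,-12⟩,⟨-8,9,-12⟩,⟨12,12,1⟩⟩,true,1,10,.leaf [(0,204),(2,289),(5,24),(6,13)],.leaf [(0,204),(2,289),(5,24),(6,13)]⟩,
⟨⟨⟨15,-8,0⟩,⟨-8,-15,0⟩,⟨0,0,-17⟩⟩,true,4,0,.leaf [(1,34),(2,51),(4,5),(5,2)],.leaf [(1,34),(2,51),(4,5),(5,2)]⟩,
⟨⟨⟨1,-12,-12⟩,⟨12,9,-8⟩,⟨12,-8,9⟩⟩,true,5,5,.leaf [(0,4131),(14,171),(18,1292),(23,8)],.leaf [(5,27),(6,90),(10,578),(15,5)]⟩,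
⟨⟨⟨1,-12,12⟩,⟨-12,-9,-8⟩,⟨12,-8,-9⟩⟩,true,5,12,.leaf [(0,4),(1,18),(3,3),(5,1)],.leaf [(0,4),(1,18),(3,3),(5,1)]⟩,
⟨⟨⟨9,12,-8⟩,⟨-12,1,-12⟩,⟨-8,12,9⟩⟩,true,7,1,.leaf [(2,663),(4,48),(14,1),(18,34)],.leaf [(0,2),(1,32),(4,1),(10,9)]⟩,
⟨⟨⟨-9,-12,-8⟩,⟨-12,1,12⟩,⟨-8,12,-9⟩⟩,true,7,16,.leaf [(1,289),(3,204),(4,24),(5,13)],.leaf [(1,289),(3,204),(4,24),(5,13)]⟩,
⟨⟨⟨9,-12,-8⟩,⟨12,1,12⟩,⟨-8,-12,9⟩⟩,true,10,1,.leaf [(1,204),(3,289),(4,24),(7,13)],.leaf [(1,204),(3,289),(4,24),(7,13)]⟩,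
⟨⟨⟨-9,12,-8⟩,⟨12,1,-12⟩,⟨-8,-12,-9⟩⟩,true,10,16,.leaf [(0,867),(3,85),(4,61),(15,7)],.leaf [(2,5),(3,20),(4,1),(10,6)]⟩,
⟨⟨⟨1,12,-12⟩,⟨12,-9,-8⟩,⟨-12,-8,-9⟩⟩,true,12,5,.leaf [(0,18),(1,4),(2,3),(4,1)],.leaf [(0,18),(1,4),(2,3),(4,1)]⟩,
⟨⟨⟨1,12,12⟩,⟨-12,9,-8⟩,⟨-12,-8,9⟩⟩,true,12,12,.leaf [(0,4131),(15,99),(18,935),(23,5)],.leaf [(4,27),(7,36),(10,289),(15,4)]⟩,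
⟨⟨⟨-15,-8,0⟩,⟨-8,15,0⟩,⟨0,0,-17⟩⟩,true,13,0,.leaf [(0,5),(1,17),(2,3),(5,1)],.leaf [(0,5),(1,17),(2,3),(5,1)]⟩,
⟨⟨⟨-9,-8,-12⟩,⟨-8,-9,12⟩,⟨-12,12,1⟩⟩,true,16,7,.leaf [(0,1),(1,12),(3,12),(4,1)],.leaf [(0,1),(1,12),(3,12),(4,1)]⟩,
⟨⟨⟨-9,-8,12⟩,⟨-8,-9,-12⟩,⟨12,-12,1⟩⟩,true,16,10,.leaf [(1,867),(2,85),(5,61),(14,7)],.leaf [(1,37179),(15,855),(26,1768),(30,8)]⟩]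

theorem primeOk_17 : PrimeOk 17 := primeOk (by norm_num) (by norm_num) (by norm_num) L17
  (by decide +kernel) (by decide +kernel)

def L131 : List Cls := [
⟨⟨⟨81,-50,-90⟩,⟨-50,81,-90⟩,⟨90,90,31⟩⟩,true,1,28,.leaf [(0,11790),(2,17161),(5,180),(6,121)],.leaf [(0,11790),(2,17161),(5,180),(6,121)]⟩,
⟨⟨⟨81,-50,90⟩,⟨-50,81,90⟩,⟨-90,-90,31⟩⟩,true,1,103,.leaf [(0,393),(5,4),(6,2),(14,1)],.leaf [(5,147),(6,399),(10,17161),(15,23)]⟩,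
⟨⟨⟨-129,6,22⟩,⟨6,-113,66⟩,⟨22,66,111⟩⟩,true,3,11,.leaf [(0,119),(1,14),(3,30),(4,1)],.leaf [(0,119),(1,14),(3,30),(4,1)]⟩,
⟨⟨⟨129,-6,22⟩,⟨6,-113,-66⟩,⟨22,66,-111⟩⟩,true,3,120,.leaf [(0,6812),(1,4585),(4,28),(5,53)],.leaf [(0,6812),(1,4585),(4,28),(5,53)]⟩,
⟨⟨⟨49,-66,-102⟩,⟨-114,-63,-14⟩,⟨-42,94,-81⟩⟩,true,4,30,.leaf [(1,9301),(2,5895),(4,115),(5,39)],.leaf [(1,9301),(2,5895),(4,115),(5,39)]⟩,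
⟨⟨⟨49,-66,102⟩,⟨114,63,-14⟩,⟨-42,94,81⟩⟩,true,4,101,.leaf [(0,136),(1,21),(2,24),(5,1)],.leaf [(0,136),(1,21),(2,24),(5,1)]⟩,
⟨⟨⟨49,114,42⟩,⟨66,-63,94⟩,⟨102,-14,-81⟩⟩,true,5,57,.leaf [(0,123),(1,52),(2,54),(4,1)],.leaf [(0,123),(1,52),(2,54),(4,1)]⟩,
⟨⟨⟨49,114,-42⟩,⟨-66,63,94⟩,⟨102,-14,81⟩⟩,true,5,74,.leaf [(0,36),(1,136),(2,15),(4,1)],.leaf [(0,36),(1,136),(2,15),(4,1)]⟩,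
⟨⟨⟨15,90,94⟩,⟨6,-95,90⟩,⟨130,-6,-15⟩⟩,true,6,15,.leaf [(0,9170),(2,10611),(4,109),(5,4)],.leaf [(0,9170),(2,10611),(4,109),(5,4)]⟩,
⟨⟨⟨-15,-90,94⟩,⟨6,-95,-90⟩,⟨130,-6,15⟩⟩,true,6,116,.leaf [(0,9),(1,79),(2,75),(5,1)],.leaf [(0,9),(1,79),(2,75),(5,1)]⟩,
⟨⟨⟨129,-14,-18⟩,⟨-14,33,-126⟩,⟨18,126,31⟩⟩,true,7,9,.leaf [(2,655),(3,524),(5,4),(6,5)],.leaf [(2,655),(3,524),(5,4),(6,5)]⟩,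
⟨⟨⟨129,-14,18⟩,⟨-14,33,126⟩,⟨-18,-126,31⟩⟩,true,7,122,.leaf [(6,9),(10,262),(15,4),(18,131)],.leaf [(1,165060),(6,870),(10,72181),(14,101)]⟩,
⟨⟨⟨129,-18,-14⟩,⟨18,31,126⟩,⟨-14,-126,33⟩⟩,true,9,7,.leaf [(2,524),(3,655),(4,4),(7,5)],.leaf [(2,524),(3,655),(4,4),(7,5)]⟩,
⟨⟨⟨-129,18,-14⟩,⟨18,31,-126⟩,⟨-14,-126,-33⟩⟩,true,9,124,.leaf [(2,1965),(7,12),(11,524),(14,5)],.leaf [(2,262),(4,3),(7,4),(10,131)]⟩,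
⟨⟨⟨-129,22,6⟩,⟨22,111,66⟩,⟨6,66,-113⟩⟩,true,11,3,.leaf [(0,131),(1,655),(4,1),(5,5)],.leaf [(0,131),(1,655),(4,1),(5,5)]⟩,
⟨⟨⟨-129,22,-6⟩,⟨22,111,-66⟩,⟨-6,-66,-113⟩⟩,true,11,128,.leaf [(2,4585),(3,6812),(5,28),(6,53)],.leaf [(2,4585),(3,6812),(5,28),(6,53)]⟩,
⟨⟨⟨111,22,66⟩,⟨22,-129,6⟩,⟨66,6,-113⟩⟩,true,12,36,.leaf [(0,6419),(2,19650),(4,179),(5,60)],.leaf [(0,6419),(2,19650),(4,179),(5,60)]⟩,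
⟨⟨⟨111,22,-66⟩,⟨22,-129,-6⟩,⟨-66,-6,-113⟩⟩,true,12,95,.leaf [(0,61),(1,60),(2,90),(4,1)],.leaf [(0,61),(1,60),(2,90),(4,1)]⟩,
⟨⟨⟨31,-90,-90⟩,⟨90,81,-50⟩,⟨90,-50,81⟩⟩,true,14,14,.leaf [(0,381996),(14,1485),(18,93665),(23,104)],.leaf [(5,162),(6,297),(10,17161),(15,22)]⟩,
⟨⟨⟨31,-90,90⟩,⟨-90,-81,-50⟩,⟨90,-50,-81⟩⟩,true,14,117,.leaf [(1,95),(2,40),(3,76),(5,1)],.leaf [(1,95),(2,40),(3,76),(5,1)]⟩,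
⟨⟨⟨15,94,90⟩,⟨130,-15,-6⟩,⟨6,90,-95⟩⟩,true,15,6,.leaf [(2,917),(3,2096),(4,9),(5,16)],.leaf [(2,917),(3,2096),(4,9),(5,16)]⟩,
⟨⟨⟨15,94,-90⟩,⟨130,-15,6⟩,⟨-6,-90,-95⟩⟩,true,15,125,.leaf [(0,64),(2,45),(3,96),(4,1)],.leaf [(0,64),(2,45),(3,96),(4,1)]⟩,
⟨⟨⟨81,-14,-102⟩,⟨94,63,66⟩,⟨42,-114,49⟩⟩,true,16,23,.leaf [(1,68644),(4,317),(6,422),(14,7)],.leaf [(1,5240),(4,4),(6,25),(10,917)]⟩,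
⟨⟨⟨81,-14,102⟩,⟨94,63,-66⟩,⟨-42,114,49⟩⟩,true,16,108,.leaf [(0,99),(2,29),(3,53),(5,1)],.leaf [(0,99),(2,29),(3,53),(5,1)]⟩,
⟨⟨⟨-33,126,-14⟩,⟨126,31,-18⟩,⟨-14,-18,-129⟩⟩,true,20,56,.leaf [(3,15720),(4,12),(14,25),(18,917)],.leaf [(0,78),(3,64),(4,1),(10,17)]⟩,
⟨⟨⟨33,-126,-14⟩,⟨126,31,18⟩,⟨-14,-18,129⟩⟩,true,20,75,.leaf [(2,131),(3,262),(4,1),(7,2)],.leaf [(2,131),(3,262),(4,1),(7,2)]⟩,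
⟨⟨⟨-95,6,-90⟩,⟨-90,-15,94⟩,⟨-6,130,15⟩⟩,true,22,63,.leaf [(0,21),(1,100),(3,84),(4,1)],.leaf [(0,21),(1,100),(3,84),(4,1)]⟩,
⟨⟨⟨-95,6,90⟩,⟨90,15,94⟩,⟨-6,130,-15⟩⟩,true,22,68,.leaf [(0,1310),(1,1179),(4,6),(5,11)],.leaf [(0,1310),(1,1179),(4,6),(5,11)]⟩,
⟨⟨⟨81,-102,-14⟩,⟨42,49,-114⟩,⟨94,66,63⟩⟩,true,23,16,.leaf [(0,68644),(5,317),(7,422),(15,7)],.leaf [(0,58819),(5,278),(7,362),(10,917)]⟩,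
⟨⟨⟨-81,102,-14⟩,⟨42,49,114⟩,⟨94,66,-63⟩⟩,true,23,115,.leaf [(0,53),(1,29),(3,99),(4,1)],.leaf [(0,53),(1,29),(3,99),(4,1)]⟩,
⟨⟨⟨63,66,94⟩,⟨-114,49,42⟩,⟨-14,-102,81⟩⟩,true,26,41,.leaf [(1,5895),(2,3013),(4,65),(7,53)],.leaf [(1,5895),(2,3013),(4,65),(7,53)]⟩,
⟨⟨⟨-63,-66,94⟩,⟨-114,49,-42⟩,⟨-14,-102,-81⟩⟩,true,26,90,.leaf [(1,1703),(3,786),(5,14),(7,3)],.leaf [(1,1703),(3,786),(5,14),(7,3)]⟩,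
⟨⟨⟨81,-90,-50⟩,⟨90,31,90⟩,⟨-50,-90,81⟩⟩,true,28,1,.leaf [(1,11790),(3,17161),(4,180),(7,121)],.leaf [(1,11790),(3,17161),(4,180),(7,121)]⟩,
⟨⟨⟨-81,90,-50⟩,⟨90,31,-90⟩,⟨-50,-90,-81⟩⟩,true,28,130,.leaf [(0,51483),(3,5764),(4,481),(15,76)],.leaf [(0,21),(3,112),(4,1),(10,38)]⟩,
⟨⟨⟨31,-18,126⟩,⟨-18,-129,-14⟩,⟨126,-14,-33⟩⟩,true,29,59,.leaf [(0,131),(1,655),(4,1),(5,5)],.leaf [(0,131),(1,655),(4,1),(5,5)]⟩,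
⟨⟨⟨31,-18,-126⟩,⟨18,129,-14⟩,⟨126,-14,33⟩⟩,true,29,72,.leaf [(1,17161),(4,160),(7,45),(15,48)],.leaf [(1,286497),(14,2673),(26,43099),(31,7)]⟩,
⟨⟨⟨49,-102,-66⟩,⟨-42,-81,94⟩,⟨-114,-14,-63⟩⟩,true,30,4,.leaf [(1,9301),(3,4716),(4,88),(5,21)],.leaf [(1,9301),(3,4716),(4,88),(5,21)]⟩,
⟨⟨⟨49,-102,66⟩,⟨42,81,94⟩,⟨-114,-14,63⟩⟩,true,30,127,.leaf [(0,524),(3,655),(5,5),(6,4)],.leaf [(0,524),(3,655),(5,5),(6,4)]⟩,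
⟨⟨⟨63,114,-14⟩,⟨-66,49,102⟩,⟨94,-42,81⟩⟩,true,33,58,.leaf [(1,90),(2,65),(3,26),(4,1)],.leaf [(1,90),(2,65),(3,26),(4,1)]⟩,
⟨⟨⟨-63,-114,-14⟩,⟨-66,49,-102⟩,⟨94,-42,-81⟩⟩,true,33,73,.leaf [(1,2227),(2,4716),(5,46),(7,9)],.leaf [(1,2227),(2,4716),(5,46),(7,9)]⟩,
⟨⟨⟨-15,130,6⟩,⟨94,15,-90⟩,⟨-90,-6,-95⟩⟩,true,35,52,.leaf [(0,17161),(4,154),(5,84),(6,75)],.leaf [(0,17161),(4,154),(5,84),(6,75)]⟩,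
⟨⟨⟨-15,130,-6⟩,⟨94,15,90⟩,⟨90,6,-95⟩⟩,true,35,79,.leaf [(0,64),(2,51),(3,96),(4,1)],.leaf [(0,64),(2,51),(3,96),(4,1)]⟩,
⟨⟨⟨111,66,22⟩,⟨66,-113,6⟩,⟨22,6,-129⟩⟩,true,36,12,.leaf [(0,10349),(2,15720),(4,151),(5,16)],.leaf [(0,10349),(2,15720),(4,151),(5,16)]⟩,
⟨⟨⟨-111,-66,22⟩,⟨66,-113,-6⟩,⟨22,6,129⟩⟩,true,36,119,.leaf [(0,17161),(4,179),(5,59),(7,75)],.leaf [(0,17161),(4,179),(5,59),(7,75)]⟩,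
⟨⟨⟨-113,-66,6⟩,⟨66,-111,22⟩,⟨-6,22,129⟩⟩,true,40,44,.leaf [(0,17161),(4,126),(5,28),(6,51)],.leaf [(0,17161),(4,126),(5,28),(6,51)]⟩,
⟨⟨⟨-113,-66,-6⟩,⟨-66,111,22⟩,⟨-6,22,-129⟩⟩,true,40,87,.leaf [(1,71),(2,88),(3,52),(5,1)],.leaf [(1,71),(2,88),(3,52),(5,1)]⟩,
⟨⟨⟨63,94,66⟩,⟨-14,81,-102⟩,⟨-114,42,49⟩⟩,true,41,26,.leaf [(0,5895),(3,3013),(5,65),(6,53)],.leaf [(0,5895),(3,3013),(5,65),(6,53)]⟩,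
⟨⟨⟨63,94,-66⟩,⟨-14,81,102⟩,⟨114,-42,49⟩⟩,true,41,105,.leaf [(0,13),(1,129),(3,39),(4,1)],.leaf [(0,13),(1,129),(3,39),(4,1)]⟩,
⟨⟨⟨-113,6,-66⟩,⟨-6,129,22⟩,⟨66,22,-111⟩⟩,true,44,40,.leaf [(1,17161),(4,28),(5,126),(7,51)],.leaf [(1,17161),(4,28),(5,126),(7,51)]⟩,
⟨⟨⟨-113,6,66⟩,⟨6,-129,22⟩,⟨66,22,111⟩⟩,true,44,91,.leaf [(0,262),(2,131),(4,2),(6,1)],.leaf [(0,262),(2,131),(4,2),(6,1)]⟩,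
⟨⟨⟨81,-42,94⟩,⟨102,49,-66⟩,⟨-14,114,63⟩⟩,true,48,61,.leaf [(0,141),(1,31),(2,15),(5,1)],.leaf [(0,141),(1,31),(2,15),(5,1)]⟩,
⟨⟨⟨-81,42,94⟩,⟨102,49,66⟩,⟨-14,114,-63⟩⟩,true,48,70,.leaf [(0,72),(1,148),(3,9),(5,1)],.leaf [(0,72),(1,148),(3,9),(5,1)]⟩,
⟨⟨⟨-15,6,130⟩,⟨-90,-95,-6⟩,⟨94,-90,15⟩⟩,true,52,35,.leaf [(1,17161),(4,84),(5,154),(7,75)],.leaf [(1,17161),(4,84),(5,154),(7,75)]⟩,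
⟨⟨⟨15,-6,130⟩,⟨-90,-95,6⟩,⟨94,-90,-15⟩⟩,true,52,96,.leaf [(1,17161),(4,96),(5,160),(7,51)],.leaf [(1,17161),(4,96),(5,160),(7,51)]⟩,
⟨⟨⟨-33,-14,126⟩,⟨-14,-129,-18⟩,⟨126,-18,31⟩⟩,true,56,20,.leaf [(2,176457),(5,834),(15,362),(18,917)],.leaf [(1,10349),(4,19),(5,55),(10,1965)]⟩,
⟨⟨⟨-33,-14,-126⟩,⟨-14,-129,18⟩,⟨-126,18,31⟩⟩,true,56,111,.leaf [(1,5),(2,115),(3,139),(4,1)],.leaf [(1,5),(2,115),(3,139),(4,1)]⟩,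
⟨⟨⟨49,42,114⟩,⟨102,-81,-14⟩,⟨66,94,-63⟩⟩,true,57,5,.leaf [(2,16637),(3,17816),(4,71),(5,152)],.leaf [(2,16637),(3,17816),(4,71),(5,152)]⟩,
⟨⟨⟨49,42,-114⟩,⟨-102,81,-14⟩,⟨66,94,63⟩⟩,true,57,126,.leaf [(1,655),(2,524),(4,4),(7,5)],.leaf [(1,655),(2,524),(4,4),(7,5)]⟩,
⟨⟨⟨63,-14,114⟩,⟨94,81,-42⟩,⟨-66,102,49⟩⟩,true,58,33,.leaf [(0,90),(2,26),(3,65),(5,1)],.leaf [(0,90),(2,26),(3,65),(5,1)]⟩,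
⟨⟨⟨63,-14,-114⟩,⟨94,81,42⟩,⟨66,-102,49⟩⟩,true,58,98,.leaf [(1,15065),(3,2227),(4,67),(6,95)],.leaf [(1,15065),(3,2227),(4,67),(6,95)]⟩,
⟨⟨⟨31,126,-18⟩,⟨126,-33,-14⟩,⟨-18,-14,-129⟩⟩,true,59,29,.leaf [(0,129),(1,4),(2,30),(4,1)],.leaf [(0,129),(1,4),(2,30),(4,1)]⟩,
⟨⟨⟨31,126,18⟩,⟨-126,33,-14⟩,⟨-18,-14,129⟩⟩,true,59,102,.leaf [(2,17161),(4,69),(7,64),(14,24)],.leaf [(0,44),(1,125),(7,1),(10,68)]⟩,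
⟨⟨⟨81,94,-42⟩,⟨-14,63,114⟩,⟨102,-66,49⟩⟩,true,61,48,.leaf [(0,31),(1,141),(3,15),(4,1)],.leaf [(0,31),(1,141),(3,15),(4,1)]⟩,
⟨⟨⟨81,94,42⟩,⟨-14,63,-114⟩,⟨-102,66,49⟩⟩,true,61,83,.leaf [(0,81),(1,72),(2,76),(6,1)],.leaf [(0,81),(1,72),(2,76),(6,1)]⟩,
⟨⟨⟨-95,-90,6⟩,⟨-6,15,130⟩,⟨-90,94,-15⟩⟩,true,63,22,.leaf [(0,6812),(1,4585),(4,28),(5,53)],.leaf [(0,6812),(1,4585),(4,28),(5,53)]⟩,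
⟨⟨⟨-95,-90,-6⟩,⟨6,-15,130⟩,⟨-90,94,15⟩⟩,true,63,109,.leaf [(0,6943),(1,3668),(4,35),(5,52)],.leaf [(0,6943),(1,3668),(4,35),(5,52)]⟩,
⟨⟨⟨-95,90,6⟩,⟨-6,-15,130⟩,⟨90,94,15⟩⟩,true,68,22,.leaf [(0,105),(1,70),(3,54),(4,1)],.leaf [(0,105),(1,70),(3,54),(4,1)]⟩,
⟨⟨⟨-95,90,-6⟩,⟨6,15,130⟩,⟨90,94,-15⟩⟩,true,68,109,.leaf [(0,75),(1,55),(3,81),(4,1)],.leaf [(0,75),(1,55),(3,81),(4,1)]⟩,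
⟨⟨⟨-81,94,42⟩,⟨-14,-63,114⟩,⟨102,66,49⟩⟩,true,70,48,.leaf [(0,148),(1,72),(2,9),(4,1)],.leaf [(0,148),(1,72),(2,9),(4,1)]⟩,
⟨⟨⟨-81,94,-42⟩,⟨-14,-63,-114⟩,⟨-102,-66,49⟩⟩,true,70,83,.leaf [(0,1834),(2,393),(4,13),(6,6)],.leaf [(0,1834),(2,393),(4,13),(6,6)]⟩,
⟨⟨⟨31,-126,-18⟩,⟨126,33,-14⟩,⟨18,-14,129⟩⟩,true,72,29,.leaf [(0,17161),(5,160),(6,45),(14,48)],.leaf [(0,69),(3,64),(6,1),(10,24)]⟩,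
⟨⟨⟨31,-126,18⟩,⟨-126,-33,-14⟩,⟨18,-14,-129⟩⟩,true,72,102,.leaf [(0,131),(1,262),(4,1),(5,2)],.leaf [(0,131),(1,262),(4,1),(5,2)]⟩,
⟨⟨⟨-63,-14,-114⟩,⟨94,-81,-42⟩,⟨-66,-102,49⟩⟩,true,73,33,.leaf [(0,2227),(3,4716),(4,46),(6,9)],.leaf [(0,2227),(3,4716),(4,46),(6,9)]⟩,
⟨⟨⟨-63,-14,114⟩,⟨94,-81,42⟩,⟨66,102,49⟩⟩,true,73,98,.leaf [(0,6812),(2,5895),(4,65),(5,72)],.leaf [(0,6812),(2,5895),(4,65),(5,72)]⟩,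
⟨⟨⟨49,-42,114⟩,⟨102,81,-14⟩,⟨-66,94,63⟩⟩,true,74,5,.leaf [(0,136),(1,36),(3,15),(5,1)],.leaf [(0,136),(1,36),(3,15),(5,1)]⟩,
⟨⟨⟨49,-42,-114⟩,⟨-102,-81,-14⟩,⟨-66,94,-63⟩⟩,true,74,126,.leaf [(1,4847),(2,2358),(4,50),(5,3)],.leaf [(1,4847),(2,2358),(4,50),(5,3)]⟩,
⟨⟨⟨33,-14,-126⟩,⟨-14,129,-18⟩,⟨126,18,31⟩⟩,true,75,20,.leaf [(2,262),(3,131),(5,1),(6,2)],.leaf [(2,262),(3,131),(5,1),(6,2)]⟩,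
⟨⟨⟨33,-14,126⟩,⟨-14,129,18⟩,⟨-126,-18,31⟩⟩,true,75,111,.leaf [(0,51483),(5,365),(6,265),(15,41)],.leaf [(3,10349),(5,75),(6,14),(10,1310)]⟩,
⟨⟨⟨-15,-6,130⟩,⟨90,-95,6⟩,⟨94,90,15⟩⟩,true,79,35,.leaf [(2,20960),(3,10349),(4,64),(5,159)],.leaf [(2,20960),(3,10349),(4,64),(5,159)]⟩,
⟨⟨⟨15,6,130⟩,⟨90,-95,-6⟩,⟨94,90,-15⟩⟩,true,79,96,.leaf [(2,10087),(3,6550),(4,35),(5,78)],.leaf [(2,10087),(3,6550),(4,35),(5,78)]⟩,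
⟨⟨⟨81,42,94⟩,⟨-102,49,66⟩,⟨-14,-114,63⟩⟩,true,83,61,.leaf [(0,72),(1,81),(3,76),(7,1)],.leaf [(0,72),(1,81),(3,76),(7,1)]⟩,
⟨⟨⟨-81,-42,94⟩,⟨-102,49,-66⟩,⟨-14,-114,-63⟩⟩,true,83,70,.leaf [(1,1834),(3,393),(5,13),(7,6)],.leaf [(1,1834),(3,393),(5,13),(7,6)]⟩,
⟨⟨⟨-113,-6,-66⟩,⟨-6,-129,22⟩,⟨-66,22,111⟩⟩,true,87,40,.leaf [(0,71),(2,52),(3,88),(4,1)],.leaf [(0,71),(2,52),(3,88),(4,1)]⟩,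
⟨⟨⟨-113,-6,66⟩,⟨6,129,22⟩,⟨-66,22,-111⟩⟩,true,87,91,.leaf [(1,98),(2,28),(3,79),(5,1)],.leaf [(1,98),(2,28),(3,79),(5,1)]⟩,
⟨⟨⟨-63,94,-66⟩,⟨-14,-81,-102⟩,⟨-114,-42,49⟩⟩,true,90,26,.leaf [(0,1703),(2,786),(4,14),(6,3)],.leaf [(0,1703),(2,786),(4,14),(6,3)]⟩,
⟨⟨⟨-63,94,66⟩,⟨-14,-81,102⟩,⟨114,42,49⟩⟩,true,90,105,.leaf [(0,94),(2,81),(3,36),(4,1)],.leaf [(0,94),(2,81),(3,36),(4,1)]⟩,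
⟨⟨⟨-113,66,6⟩,⟨66,111,22⟩,⟨6,22,-129⟩⟩,true,91,44,.leaf [(1,262),(3,131),(5,2),(7,1)],.leaf [(1,262),(3,131),(5,2),(7,1)]⟩,
⟨⟨⟨-113,66,-6⟩,⟨-66,-111,22⟩,⟨6,22,129⟩⟩,true,91,87,.leaf [(0,98),(2,79),(3,28),(4,1)],.leaf [(0,98),(2,79),(3,28),(4,1)]⟩,
⟨⟨⟨111,-66,22⟩,⟨-66,-113,-6⟩,⟨22,-6,-129⟩⟩,true,95,12,.leaf [(0,655),(1,917),(4,5),(5,7)],.leaf [(0,655),(1,917),(4,5),(5,7)]⟩,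
⟨⟨⟨-111,66,22⟩,⟨-66,-113,6⟩,⟨22,-6,129⟩⟩,true,95,119,.leaf [(0,15720),(2,10349),(4,151),(7,16)],.leaf [(0,15720),(2,10349),(4,151),(7,16)]⟩,
⟨⟨⟨15,130,-6⟩,⟨94,-15,-90⟩,⟨-90,6,-95⟩⟩,true,96,52,.leaf [(0,17161),(4,160),(5,96),(6,51)],.leaf [(0,17161),(4,160),(5,96),(6,51)]⟩,
⟨⟨⟨15,130,6⟩,⟨94,-15,90⟩,⟨90,-6,-95⟩⟩,true,96,79,.leaf [(0,145),(1,75),(3,9),(4,1)],.leaf [(0,145),(1,75),(3,9),(4,1)]⟩,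
⟨⟨⟨63,-114,-14⟩,⟨66,49,-102⟩,⟨94,42,81⟩⟩,true,98,58,.leaf [(0,15065),(2,2227),(5,67),(7,95)],.leaf [(0,15065),(2,2227),(5,67),(7,95)]⟩,
⟨⟨⟨-63,114,-14⟩,⟨66,49,102⟩,⟨94,42,-81⟩⟩,true,98,73,.leaf [(0,65),(1,26),(3,90),(4,1)],.leaf [(0,65),(1,26),(3,90),(4,1)]⟩,
⟨⟨⟨49,102,-66⟩,⟨-42,81,94⟩,⟨114,-14,63⟩⟩,true,101,4,.leaf [(0,21),(1,136),(3,24),(4,1)],.leaf [(0,21),(1,136),(3,24),(4,1)]⟩,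
⟨⟨⟨49,102,66⟩,⟨42,-81,94⟩,⟨114,-14,-63⟩⟩,true,101,127,.leaf [(0,102),(1,28),(2,81),(4,1)],.leaf [(0,102),(1,28),(2,81),(4,1)]⟩,
⟨⟨⟨31,18,126⟩,⟨-18,129,-14⟩,⟨-126,-14,33⟩⟩,true,102,59,.leaf [(3,17161),(5,69),(6,64),(15,24)],.leaf [(1,4233789),(5,82620),(26,470552),(31,95)]⟩,
⟨⟨⟨31,18,-126⟩,⟨18,-129,-14⟩,⟨-126,-14,-33⟩⟩,true,102,72,.leaf [(0,123),(1,112),(2,24),(4,1)],.leaf [(0,123),(1,112),(2,24),(4,1)]⟩,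
⟨⟨⟨81,90,-50⟩,⟨-90,31,-90⟩,⟨-50,90,81⟩⟩,true,103,1,.leaf [(1,393),(4,4),(7,2),(15,1)],.leaf [(1,51876),(4,222),(10,17161),(14,17)]⟩,
⟨⟨⟨-81,-90,-50⟩,⟨-90,31,90⟩,⟨-50,90,-81⟩⟩,true,103,130,.leaf [(1,17161),(3,11790),(4,180),(5,121)],.leaf [(1,17161),(3,11790),(4,180),(5,121)]⟩,
⟨⟨⟨63,-66,94⟩,⟨114,49,-42⟩,⟨-14,102,81⟩⟩,true,105,41,.leaf [(0,129),(1,13),(2,39),(5,1)],.leaf [(0,129),(1,13),(2,39),(5,1)]⟩,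
⟨⟨⟨-63,66,94⟩,⟨114,49,42⟩,⟨-14,102,-81⟩⟩,true,105,90,.leaf [(0,3013),(3,5895),(4,65),(5,53)],.leaf [(0,3013),(3,5895),(4,65),(5,53)]⟩,
⟨⟨⟨81,102,-14⟩,⟨-42,49,114⟩,⟨94,-66,63⟩⟩,true,108,16,.leaf [(1,99),(2,53),(3,29),(4,1)],.leaf [(1,99),(2,53),(3,29),(4,1)]⟩,
⟨⟨⟨-81,-102,-14⟩,⟨-42,49,-114⟩,⟨94,-66,-63⟩⟩,true,108,115,.leaf [(2,152353),(5,978),(7,670),(18,917)],.leaf [(2,47815),(5,285),(7,229),(10,917)]⟩,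
⟨⟨⟨-95,-6,-90⟩,⟨-90,15,94⟩,⟨6,130,-15⟩⟩,true,109,63,.leaf [(1,12445),(3,11004),(4,136),(5,21)],.leaf [(1,12445),(3,11004),(4,136),(5,21)]⟩,
⟨⟨⟨-95,-6,90⟩,⟨90,-15,94⟩,⟨6,130,15⟩⟩,true,109,68,.leaf [(0,6550),(3,3537),(4,78),(5,43)],.leaf [(0,6550),(3,3537),(4,78),(5,43)]⟩,
⟨⟨⟨-33,-126,-14⟩,⟨-126,31,18⟩,⟨-14,18,-129⟩⟩,true,111,56,.leaf [(0,131),(1,262),(4,1),(5,2)],.leaf [(0,131),(1,262),(4,1),(5,2)]⟩,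
⟨⟨⟨33,126,-14⟩,⟨-126,31,-18⟩,⟨-14,18,129⟩⟩,true,111,75,.leaf [(1,51483),(4,365),(7,265),(14,41)],.leaf [(1,132),(2,61),(4,1),(10,34)]⟩,
⟨⟨⟨-81,-14,102⟩,⟨94,-63,66⟩,⟨42,114,49⟩⟩,true,115,23,.leaf [(0,6026),(2,1179),(4,53),(5,36)],.leaf [(0,6026),(2,1179),(4,53),(5,36)]⟩,
⟨⟨⟨-81,-14,-102⟩,⟨94,-63,-66⟩,⟨-42,-114,49⟩⟩,true,115,108,.leaf [(3,39824),(4,183),(6,176),(18,917)],.leaf [(3,16244),(4,102),(6,53),(10,917)]⟩,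
⟨⟨⟨-15,94,-90⟩,⟨130,15,-6⟩,⟨6,-90,-95⟩⟩,true,116,6,.leaf [(0,79),(1,9),(3,75),(4,1)],.leaf [(0,79),(1,9),(3,75),(4,1)]⟩,
⟨⟨⟨-15,94,90⟩,⟨130,15,6⟩,⟨-6,90,-95⟩⟩,true,116,125,.leaf [(2,655),(3,1834),(4,9),(5,14)],.leaf [(2,655),(3,1834),(4,9),(5,14)]⟩,
⟨⟨⟨31,90,-90⟩,⟨90,-81,-50⟩,⟨-90,-50,-81⟩⟩,true,117,14,.leaf [(0,95),(2,76),(3,40),(4,1)],.leaf [(0,95),(2,76),(3,40),(4,1)]⟩,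
⟨⟨⟨31,90,90⟩,⟨-90,81,-50⟩,⟨-90,-50,81⟩⟩,true,117,117,.leaf [(0,95499),(15,945),(18,50435),(23,11)],.leaf [(4,81),(7,351),(10,17161),(15,13)]⟩,
⟨⟨⟨-111,22,-66⟩,⟨22,129,6⟩,⟨66,-6,-113⟩⟩,true,119,36,.leaf [(1,17161),(4,59),(5,179),(6,75)],.leaf [(1,17161),(4,59),(5,179),(6,75)]⟩,
⟨⟨⟨-111,22,66⟩,⟨22,129,-6⟩,⟨-66,6,-113⟩⟩,true,119,95,.leaf [(1,15720),(3,10349),(5,151),(6,16)],.leaf [(1,15720),(3,10349),(5,151),(6,16)]⟩,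
⟨⟨⟨129,22,-6⟩,⟨22,-111,66⟩,⟨6,-66,-113⟩⟩,true,120,3,.leaf [(0,49),(1,72),(2,84),(4,1)],.leaf [(0,49),(1,72),(2,84),(4,1)]⟩,
⟨⟨⟨129,22,6⟩,⟨22,-111,-66⟩,⟨-6,66,-113⟩⟩,true,120,128,.leaf [(0,6943),(1,3668),(4,35),(5,52)],.leaf [(0,6943),(1,3668),(4,35),(5,52)]⟩,
⟨⟨⟨129,18,-14⟩,⟨-18,31,-126⟩,⟨-14,126,33⟩⟩,true,122,7,.L (.leaf [(0,36),(1,136),(2,15),(4,1)]) (.leaf [(0,1179),(1,1310),(4,11),(5,6)]) (.leaf [(1,14472),(5,63),(19,2275),(26,80)]),.leaf [(0,22925),(4,70),(5,268),(10,5109)]⟩,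
⟨⟨⟨-129,-18,-14⟩,⟨-18,31,126⟩,⟨-14,126,-33⟩⟩,true,122,124,.leaf [(0,524),(1,655),(4,4),(5,5)],.leaf [(0,524),(1,655),(4,4),(5,5)]⟩,
⟨⟨⟨-129,-14,18⟩,⟨-14,-33,-126⟩,⟨18,-126,31⟩⟩,true,124,9,.leaf [(3,1965),(6,12),(10,524),(15,5)],.L (.L (.leaf [(0,36),(1,136),(2,15),(4,1)]) (.leaf [(0,1179),(1,1310),(4,11),(5,6)]) (.leaf [(1,14472),(5,63),(19,2275),(26,80)])) (.leaf [(0,101),(1,140),(2,150),(4,1)]) (.leaf [(0,630),(1,972),(10,175),(14,1)])⟩,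
⟨⟨⟨-129,-14,-18⟩,⟨-14,-33,126⟩,⟨-18,126,31⟩⟩,true,124,122,.leaf [(1,5),(2,19),(3,139),(4,1)],.leaf [(1,5),(2,19),(3,139),(4,1)]⟩,
⟨⟨⟨15,-90,94⟩,⟨-6,-95,-90⟩,⟨130,6,-15⟩⟩,true,125,15,.leaf [(1,64),(2,96),(3,45),(5,1)],.leaf [(1,64),(2,96),(3,45),(5,1)]⟩,
⟨⟨⟨-15,90,94⟩,⟨-6,-95,90⟩,⟨130,6,15⟩⟩,true,125,116,.leaf [(0,7205),(2,7074),(4,79),(5,4)],.leaf [(0,7205),(2,7074),(4,79),(5,4)]⟩,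
⟨⟨⟨49,-114,42⟩,⟨66,63,94⟩,⟨-102,-14,81⟩⟩,true,126,57,.leaf [(0,655),(3,524),(5,4),(6,5)],.leaf [(0,655),(3,524),(5,4),(6,5)]⟩,
⟨⟨⟨49,-114,-42⟩,⟨-66,-63,94⟩,⟨-102,-14,-81⟩⟩,true,126,74,.leaf [(1,9694),(3,5895),(4,100),(5,51)],.leaf [(1,9694),(3,5895),(4,100),(5,51)]⟩,
⟨⟨⟨49,66,-102⟩,⟨-114,63,-14⟩,⟨42,94,81⟩⟩,true,127,30,.leaf [(1,524),(2,655),(4,5),(7,4)],.leaf [(1,524),(2,655),(4,5),(7,4)]⟩,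
⟨⟨⟨49,66,102⟩,⟨114,-63,-14⟩,⟨42,94,-81⟩⟩,true,127,101,.leaf [(0,19781),(2,7074),(4,183),(5,116)],.leaf [(0,19781),(2,7074),(4,183),(5,116)]⟩,
⟨⟨⟨-129,-6,22⟩,⟨-6,-113,-66⟩,⟨22,-66,111⟩⟩,true,128,11,.leaf [(2,6812),(3,4585),(4,28),(7,53)],.leaf [(2,6812),(3,4585),(4,28),(7,53)]⟩,
⟨⟨⟨129,6,22⟩,⟨-6,-113,66⟩,⟨22,-66,-111⟩⟩,true,128,120,.leaf [(0,14),(1,44),(2,105),(4,1)],.leaf [(0,14),(1,44),(2,105),(4,1)]⟩,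
⟨⟨⟨-81,-50,90⟩,⟨-50,-81,-90⟩,⟨90,-90,31⟩⟩,true,130,28,.leaf [(1,51483),(2,5764),(5,481),(14,76)],.leaf [(4,36),(5,15),(15,10),(23,1)]⟩,
⟨⟨⟨-81,-50,-90⟩,⟨-50,-81,90⟩,⟨-90,90,31⟩⟩,true,130,103,.leaf [(0,31),(1,90),(3,90),(4,1)],.leaf [(0,31),(1,90),(3,90),(4,1)]⟩]

theorem primeOk_131 : PrimeOk 131 := primeOk (by norm_num) (by norm_num) (by norm_num) L131
  (by decide +kernel) (by decide +kernel)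

def L151 : List Cls := [
⟨⟨⟨99,42,106⟩,⟨-2,141,-54⟩,⟨-114,34,93⟩⟩,true,5,27,.leaf [(0,453),(5,62),(6,91),(11,3926)],.leaf [(0,36240),(5,280),(6,221),(10,1963)]⟩,
⟨⟨⟨-99,-42,106⟩,⟨-2,141,54⟩,⟨-114,34,-93⟩⟩,true,5,124,.leaf [(0,76),(1,130),(3,69),(5,1)],.leaf [(0,76),(1,130),(3,69),(5,1)]⟩,
⟨⟨⟨-99,114,-2⟩,⟨106,93,54⟩,⟨42,34,-141⟩⟩,true,8,29,.leaf [(3,22801),(4,180),(5,99),(6,20)],.leaf [(3,22801),(4,180),(5,99),(6,20)]⟩,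
⟨⟨⟨99,-114,-2⟩,⟨106,93,-54⟩,⟨42,34,141⟩⟩,true,8,122,.leaf [(2,22801),(5,99),(6,107),(15,23)],.leaf [(2,14194),(5,132),(6,89),(10,3473)]⟩,
⟨⟨⟨51,6,142⟩,⟨34,-147,-6⟩,⟨138,34,-51⟩⟩,true,9,62,.leaf [(0,3473),(1,8305),(4,13),(5,53)],.leaf [(0,3473),(1,8305),(4,13),(5,53)]⟩,
⟨⟨⟨-51,-6,142⟩,⟨34,-147,6⟩,⟨138,34,51⟩⟩,true,9,89,.leaf [(0,151),(2,18120),(4,91),(5,136)],.leaf [(0,151),(2,18120),(4,91),(5,136)]⟩,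
⟨⟨⟨61,6,-138⟩,⟨-114,-83,-54⟩,⟨-78,126,-29⟩⟩,true,10,72,.leaf [(1,6191),(2,6795),(4,75),(5,1)],.leaf [(1,6191),(2,6795),(4,75),(5,1)]⟩,
⟨⟨⟨61,6,138⟩,⟨-114,-83,54⟩,⟨78,-126,-29⟩⟩,true,10,79,.leaf [(1,22801),(4,99),(5,107),(6,69)],.leaf [(1,22801),(4,99),(5,107),(6,69)]⟩,
⟨⟨⟨-93,34,114⟩,⟨-54,-141,-2⟩,⟨106,-42,99⟩⟩,true,11,28,.leaf [(2,22801),(4,195),(5,159),(7,95)],.leaf [(2,22801),(4,195),(5,159),(7,95)]⟩,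
⟨⟨⟨-93,34,-114⟩,⟨54,141,-2⟩,⟨106,-42,-99⟩⟩,true,11,123,.leaf [(3,22801),(4,200),(5,30),(15,37)],.leaf [(1,486),(3,606),(10,343),(14,1)]⟩,
⟨⟨⟨-51,-110,90⟩,⟨-90,99,70⟩,⟨-110,-30,-99⟩⟩,true,14,16,.leaf [(0,80),(1,105),(3,84),(5,1)],.leaf [(0,80),(1,105),(3,84),(5,1)]⟩,
⟨⟨⟨-51,-110,-90⟩,⟨90,-99,70⟩,⟨-110,-30,99⟩⟩,true,14,135,.leaf [(3,22801),(4,160),(5,15),(7,4)],.leaf [(3,22801),(4,160),(5,15),(7,4)]⟩,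
⟨⟨⟨-83,114,54⟩,⟨-6,61,-138⟩,⟨-126,-78,-29⟩⟩,true,15,23,.leaf [(0,5373),(3,2601),(18,697),(23,1)],.leaf [(3,10872),(4,486),(10,26123),(14,1)]⟩,
⟨⟨⟨-83,114,-54⟩,⟨-6,61,138⟩,⟨126,78,-29⟩⟩,true,15,128,.leaf [(0,53),(1,84),(3,108),(4,1)],.leaf [(0,53),(1,84),(3,108),(4,1)]⟩,
⟨⟨⟨-51,90,-110⟩,⟨-110,-99,-30⟩,⟨-90,70,99⟩⟩,true,16,14,.leaf [(0,105),(1,80),(2,84),(4,1)],.leaf [(0,105),(1,80),(2,84),(4,1)]⟩,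
⟨⟨⟨51,-90,-110⟩,⟨-110,-99,30⟩,⟨-90,70,-99⟩⟩,true,16,137,.leaf [(1,20234),(2,2265),(4,145),(5,6)],.leaf [(1,20234),(2,2265),(4,145),(5,6)]⟩,
⟨⟨⟨99,-30,-110⟩,⟨70,-99,90⟩,⟨-90,-110,-51⟩⟩,true,18,66,.leaf [(0,69),(1,149),(3,51),(4,1)],.leaf [(0,69),(1,149),(3,51),(4,1)]⟩,
⟨⟨⟨-99,30,-110⟩,⟨70,-99,-90⟩,⟨-90,-110,51⟩⟩,true,18,85,.leaf [(0,5889),(3,3020),(4,51),(6,10)],.leaf [(0,5889),(3,3020),(4,51),(6,10)]⟩,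
⟨⟨⟨93,106,-54⟩,⟨-114,99,-2⟩,⟨34,42,141⟩⟩,true,19,53,.leaf [(1,68403),(4,620),(7,250),(15,71)],.leaf [(1,86976),(4,444),(10,5587),(14,67)]⟩,
⟨⟨⟨93,106,54⟩,⟨114,-99,-2⟩,⟨34,42,-141⟩⟩,true,19,98,.leaf [(0,21895),(2,14496),(4,195),(5,56)],.leaf [(0,21895),(2,14496),(4,195),(5,56)]⟩,
⟨⟨⟨61,-78,114⟩,⟨-138,-29,54⟩,⟨-6,-126,-83⟩⟩,true,21,39,.leaf [(1,22801),(4,108),(5,77),(6,84)],.leaf [(1,22801),(4,108),(5,77),(6,84)]⟩,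
⟨⟨⟨61,-78,-114⟩,⟨-138,-29,-54⟩,⟨6,126,-83⟩⟩,true,21,112,.leaf [(1,1963),(2,6795),(4,57),(5,47)],.leaf [(1,1963),(2,6795),(4,57),(5,47)]⟩,
⟨⟨⟨-83,54,114⟩,⟨-126,-29,-78⟩,⟨-6,-138,61⟩⟩,true,23,15,.leaf [(1,756),(2,245),(6,10),(18,99)],.leaf [(1,112),(2,7),(4,1),(10,76)]⟩,
⟨⟨⟨-83,54,-114⟩,⟨-126,-29,78⟩,⟨6,138,61⟩⟩,true,23,136,.leaf [(0,83),(1,159),(3,33),(4,1)],.leaf [(0,83),(1,159),(3,33),(4,1)]⟩,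
⟨⟨⟨141,42,34⟩,⟨-2,99,-114⟩,⟨-54,106,93⟩⟩,true,26,57,.leaf [(2,8305),(3,3473),(5,13),(6,53)],.leaf [(2,8305),(3,3473),(5,13),(6,53)]⟩,
⟨⟨⟨-141,-42,34⟩,⟨-2,99,114⟩,⟨-54,106,-93⟩⟩,true,26,94,.leaf [(0,1057),(1,1510),(4,3),(5,10)],.leaf [(0,1057),(1,1510),(4,3),(5,10)]⟩,
⟨⟨⟨99,106,42⟩,⟨-114,93,34⟩,⟨-2,-54,141⟩⟩,true,27,5,.leaf [(1,453),(4,62),(7,91),(10,3926)],.leaf [(1,68403),(4,548),(7,403),(15,26)]⟩,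
⟨⟨⟨99,106,-42⟩,⟨114,-93,34⟩,⟨-2,-54,-141⟩⟩,true,27,146,.leaf [(0,145),(1,76),(2,54),(4,1)],.leaf [(0,145),(1,76),(2,54),(4,1)]⟩,
⟨⟨⟨-93,114,34⟩,⟨106,99,-42⟩,⟨-54,-2,-141⟩⟩,true,28,11,.leaf [(3,22801),(4,159),(5,195),(6,95)],.leaf [(3,22801),(4,159),(5,195),(6,95)]⟩,
⟨⟨⟨93,-114,34⟩,⟨106,99,42⟩,⟨-54,-2,141⟩⟩,true,28,140,.leaf [(2,4983),(6,3),(11,151),(15,11)],.leaf [(0,14496),(5,184),(6,35),(10,5587)]⟩,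
⟨⟨⟨-99,-2,114⟩,⟨42,-141,34⟩,⟨106,54,93⟩⟩,true,29,8,.leaf [(2,22801),(4,99),(5,180),(7,20)],.leaf [(2,22801),(4,99),(5,180),(7,20)]⟩,
⟨⟨⟨-99,-2,-114⟩,⟨-42,141,34⟩,⟨106,54,-93⟩⟩,true,29,143,.leaf [(1,45602),(4,428),(5,467),(15,69)],.leaf [(1,91959),(5,96),(10,30200),(23,29)]⟩,
⟨⟨⟨-141,-2,-54⟩,⟨-42,99,106⟩,⟨34,114,-93⟩⟩,true,30,55,.leaf [(0,453),(1,1510),(4,7),(5,10)],.leaf [(0,453),(1,1510),(4,7),(5,10)]⟩,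
⟨⟨⟨-141,-2,54⟩,⟨42,-99,106⟩,⟨34,114,93⟩⟩,true,30,96,.leaf [(0,14194),(3,5889),(4,126),(5,17)],.leaf [(0,14194),(3,5889),(4,126),(5,17)]⟩,
⟨⟨⟨-83,-6,-126⟩,⟨114,61,-78⟩,⟨54,-138,-29⟩⟩,true,31,47,.R (.leaf [(0,108),(3,117),(18,20),(27,1)]) (.leaf [(3,263),(7,1),(18,23),(26,1)]) (.R (.leaf [(3,3645),(18,510),(31,1),(34,22)]) (.leaf [(3,2531817),(18,324348),(31,391),(39,22)]) (.leaf [(3,110079),(18,13620),(31,17),(35,110)])),.leaf [(1,972),(3,900),(10,485),(14,1)]⟩,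
⟨⟨⟨-83,-6,126⟩,⟨114,61,78⟩,⟨-54,138,-29⟩⟩,true,31,104,.leaf [(0,135),(1,155),(2,9),(5,1)],.leaf [(0,135),(1,155),(2,9),(5,1)]⟩,
⟨⟨⟨-45,70,-126⟩,⟨-126,45,70⟩,⟨70,126,45⟩⟩,true,32,33,.leaf [(0,25),(1,151),(3,45),(4,1)],.leaf [(0,25),(1,151),(3,45),(4,1)]⟩,
⟨⟨⟨-45,70,126⟩,⟨126,-45,70⟩,⟨70,126,-45⟩⟩,true,32,118,.leaf [(0,22801),(4,171),(5,56)],.leaf [(0,22801),(4,171),(5,56)]⟩,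
⟨⟨⟨-45,-126,70⟩,⟨70,45,126⟩,⟨-126,70,45⟩⟩,true,33,32,.leaf [(0,2869),(1,755),(4,5),(5,19)],.leaf [(0,2869),(1,755),(4,5),(5,19)]⟩,
⟨⟨⟨45,126,70⟩,⟨70,45,-126⟩,⟨-126,70,-45⟩⟩,true,33,119,.leaf [(3,22801),(5,171),(6,56)],.leaf [(3,22801),(5,171),(6,56)]⟩,
⟨⟨⟨-29,-138,54⟩,⟨-78,61,114⟩,⟨-126,-6,-83⟩⟩,true,36,45,.leaf [(0,132),(1,86),(3,51),(5,1)],.leaf [(0,132),(1,86),(3,51),(5,1)]⟩,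
⟨⟨⟨-29,-138,-54⟩,⟨-78,61,-114⟩,⟨126,6,-83⟩⟩,true,36,106,.leaf [(0,9),(1,29),(2,135),(5,1)],.leaf [(0,9),(1,29),(2,135),(5,1)]⟩,
⟨⟨⟨61,114,-78⟩,⟨-6,-83,-126⟩,⟨-138,54,-29⟩⟩,true,39,21,.leaf [(0,22801),(4,77),(5,108),(7,84)],.leaf [(0,22801),(4,77),(5,108),(7,84)]⟩,
⟨⟨⟨61,114,78⟩,⟨-6,-83,126⟩,⟨138,-54,-29⟩⟩,true,39,130,.leaf [(0,89),(1,48),(2,108),(4,1)],.leaf [(0,89),(1,48),(2,108),(4,1)]⟩,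
⟨⟨⟨-99,70,90⟩,⟨-30,99,-110⟩,⟨-110,-90,-51⟩⟩,true,42,54,.leaf [(1,138),(2,115),(7,2),(18,15)],.leaf [(1,262287),(7,1038),(10,51340),(15,55)]⟩,
⟨⟨⟨-99,70,-90⟩,⟨30,-99,-110⟩,⟨-110,-90,51⟩⟩,true,42,97,.leaf [(0,1812),(4,28),(7,5),(11,755)],.leaf [(0,144),(2,20),(4,1),(10,5)]⟩,
⟨⟨⟨-29,54,-138⟩,⟨-126,-83,-6⟩,⟨-78,114,61⟩⟩,true,45,36,.leaf [(0,86),(1,132),(2,51),(4,1)],.leaf [(0,86),(1,132),(2,51),(4,1)]⟩,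
⟨⟨⟨-29,54,138⟩,⟨-126,-83,6⟩,⟨78,-114,61⟩⟩,true,45,115,.leaf [(1,1661),(2,151),(5,1),(6,11)],.leaf [(1,1661),(2,151),(5,1),(6,11)]⟩,
⟨⟨⟨-29,-126,78⟩,⟨54,-83,-114⟩,⟨138,6,61⟩⟩,true,46,65,.leaf [(1,151),(2,1661),(5,11),(6,1)],.leaf [(1,151),(2,1661),(5,11),(6,1)]⟩,
⟨⟨⟨-29,-126,-78⟩,⟨54,-83,114⟩,⟨-138,-6,61⟩⟩,true,46,86,.leaf [(1,1208),(3,15855),(4,120),(5,43)],.leaf [(1,1208),(3,15855),(4,120),(5,43)]⟩,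
⟨⟨⟨-83,-126,-6⟩,⟨54,-29,-138⟩,⟨114,-78,61⟩⟩,true,47,31,.leaf [(1,187),(5,5),(11,170),(18,88)],.leaf [(0,27),(2,92),(6,1),(10,36)]⟩,
⟨⟨⟨-83,-126,6⟩,⟨54,-29,138⟩,⟨-114,78,61⟩⟩,true,47,120,.leaf [(0,8758),(1,1661),(4,38),(5,61)],.leaf [(0,8758),(1,1661),(4,38),(5,61)]⟩,
⟨⟨⟨51,34,138⟩,⟨6,-147,34⟩,⟨142,-6,-51⟩⟩,true,51,56,.leaf [(0,6040),(2,24009),(4,189),(5,104)],.leaf [(0,6040),(2,24009),(4,189),(5,104)]⟩,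
⟨⟨⟨51,34,-138⟩,⟨-6,147,34⟩,⟨142,-6,51⟩⟩,true,51,95,.leaf [(4,513),(10,22801),(15,56)],.leaf [(1,405),(3,723),(10,205),(14,1)]⟩,
⟨⟨⟨93,-54,106⟩,⟨34,141,42⟩,⟨-114,-2,99⟩⟩,true,53,19,.leaf [(0,68403),(5,620),(6,250),(14,71)],.leaf [(0,38505),(5,428),(6,310),(10,10721)]⟩,
⟨⟨⟨-93,54,106⟩,⟨34,141,-42⟩,⟨-114,-2,-99⟩⟩,true,53,132,.leaf [(1,14496),(3,21895),(5,195),(6,56)],.leaf [(1,14496),(3,21895),(5,195),(6,56)]⟩,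
⟨⟨⟨-99,90,70⟩,⟨-110,-51,-90⟩,⟨-30,-110,99⟩⟩,true,54,42,.leaf [(0,6507),(3,3384),(18,928),(22,1)],.leaf [(0,3),(3,340),(6,2),(10,75)]⟩,
⟨⟨⟨99,-90,70⟩,⟨-110,-51,90⟩,⟨-30,-110,-99⟩⟩,true,54,109,.leaf [(4,351),(5,459),(10,22801),(15,17)],.leaf [(4,36),(5,15),(15,10),(23,1)]⟩,
⟨⟨⟨-141,-54,-2⟩,⟨34,-93,114⟩,⟨-42,106,99⟩⟩,true,55,30,.leaf [(0,4681),(3,8154),(4,79),(5,10)],.leaf [(0,4681),(3,8154),(4,79),(5,10)]⟩,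
⟨⟨⟨141,54,-2⟩,⟨34,-93,-114⟩,⟨-42,106,-99⟩⟩,true,55,121,.leaf [(0,8758),(1,1661),(4,38),(5,61)],.leaf [(0,8758),(1,1661),(4,38),(5,61)]⟩,
⟨⟨⟨51,138,34⟩,⟨142,-51,-6⟩,⟨6,34,-147⟩⟩,true,56,51,.leaf [(0,24160),(2,5889),(4,181),(5,40)],.leaf [(0,24160),(2,5889),(4,181),(5,40)]⟩,
⟨⟨⟨-51,-138,34⟩,⟨142,-51,6⟩,⟨6,34,147⟩⟩,true,56,100,.leaf [(0,315),(5,3),(11,119),(18,55)],.leaf [(0,117),(2,458),(5,4),(10,113)]⟩,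
⟨⟨⟨141,34,42⟩,⟨-54,93,106⟩,⟨-2,-114,99⟩⟩,true,57,26,.leaf [(2,3473),(3,8305),(4,13),(7,53)],.leaf [(2,3473),(3,8305),(4,13),(7,53)]⟩,
⟨⟨⟨141,34,-42⟩,⟨54,-93,106⟩,⟨-2,-114,-99⟩⟩,true,57,125,.leaf [(0,94),(1,148),(2,33),(4,1)],.leaf [(0,94),(1,148),(2,33),(4,1)]⟩,
⟨⟨⟨51,142,6⟩,⟨138,-51,34⟩,⟨34,-6,-147⟩⟩,true,62,9,.leaf [(0,154),(1,28),(2,39),(4,1)],.leaf [(0,154),(1,28),(2,39),(4,1)]⟩,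
⟨⟨⟨51,142,-6⟩,⟨-138,51,34⟩,⟨34,-6,147⟩⟩,true,62,142,.leaf [(1,5889),(2,151),(4,45),(7,29)],.leaf [(1,5889),(2,151),(4,45),(7,29)]⟩,
⟨⟨⟨-29,78,-126⟩,⟨138,61,6⟩,⟨54,-114,-83⟩⟩,true,65,46,.leaf [(0,151),(3,1661),(4,11),(7,1)],.leaf [(0,151),(3,1661),(4,11),(7,1)]⟩,
⟨⟨⟨-29,78,126⟩,⟨138,61,-6⟩,⟨-54,114,-83⟩⟩,true,65,105,.leaf [(2,3473),(3,11627),(4,37),(5,79)],.leaf [(2,3473),(3,11627),(4,37),(5,79)]⟩,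
⟨⟨⟨99,-110,-30⟩,⟨-90,-51,-110⟩,⟨70,90,-99⟩⟩,true,66,18,.leaf [(0,149),(1,69),(2,51),(5,1)],.leaf [(0,149),(1,69),(2,51),(5,1)]⟩,
⟨⟨⟨99,-110,30⟩,⟨90,51,-110⟩,⟨70,90,99⟩⟩,true,66,133,.leaf [(0,7097),(2,1963),(5,43),(7,23)],.leaf [(0,7097),(2,1963),(5,43),(7,23)]⟩,
⟨⟨⟨147,34,6⟩,⟨6,-51,142⟩,⟨34,-138,-51⟩⟩,true,67,74,.leaf [(1,96),(2,85),(3,40),(4,1)],.leaf [(1,96),(2,85),(3,40),(4,1)]⟩,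
⟨⟨⟨147,34,-6⟩,⟨-6,51,142⟩,⟨34,-138,51⟩⟩,true,67,77,.leaf [(2,4832),(3,8305),(4,40),(7,53)],.leaf [(2,4832),(3,8305),(4,40),(7,53)]⟩,
⟨⟨⟨61,-138,6⟩,⟨-78,-29,126⟩,⟨-114,-54,-83⟩⟩,true,72,10,.leaf [(1,6191),(3,13590),(4,84),(5,109)],.leaf [(1,6191),(3,13590),(4,84),(5,109)]⟩,
⟨⟨⟨61,-138,-6⟩,⟨-78,-29,-126⟩,⟨114,54,-83⟩⟩,true,72,141,.leaf [(0,108),(1,77),(2,84),(5,1)],.leaf [(0,108),(1,77),(2,84),(5,1)]⟩,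
⟨⟨⟨147,6,34⟩,⟨34,-51,-138⟩,⟨6,142,-51⟩⟩,true,74,67,.leaf [(0,96),(2,40),(3,85),(5,1)],.leaf [(0,96),(2,40),(3,85),(5,1)]⟩,
⟨⟨⟨-147,-6,34⟩,⟨34,-51,138⟩,⟨6,142,51⟩⟩,true,74,84,.leaf [(0,4379),(3,7248),(4,71),(5,8)],.leaf [(0,4379),(3,7248),(4,71),(5,8)]⟩,
⟨⟨⟨147,-6,34⟩,⟨34,51,-138⟩,⟨-6,142,51⟩⟩,true,77,67,.leaf [(2,8305),(3,4832),(5,40),(6,53)],.leaf [(2,8305),(3,4832),(5,40),(6,53)]⟩,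
⟨⟨⟨-147,6,34⟩,⟨34,51,138⟩,⟨-6,142,-51⟩⟩,true,77,84,.leaf [(0,6040),(1,8003),(4,32),(5,55)],.leaf [(0,6040),(1,8003),(4,32),(5,55)]⟩,
⟨⟨⟨61,138,6⟩,⟨78,-29,-126⟩,⟨-114,54,-83⟩⟩,true,79,10,.leaf [(0,22801),(4,107),(5,99),(7,69)],.leaf [(0,22801),(4,107),(5,99),(7,69)]⟩,
⟨⟨⟨61,138,-6⟩,⟨78,-29,126⟩,⟨114,-54,-83⟩⟩,true,79,141,.leaf [(0,158),(1,132),(2,9),(4,1)],.leaf [(0,158),(1,132),(2,9),(4,1)]⟩,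
⟨⟨⟨-147,34,-6⟩,⟨6,51,142⟩,⟨34,138,-51⟩⟩,true,84,74,.leaf [(0,4832),(1,8305),(4,40),(5,53)],.leaf [(0,4832),(1,8305),(4,40),(5,53)]⟩,
⟨⟨⟨-147,34,6⟩,⟨-6,-51,142⟩,⟨34,138,51⟩⟩,true,84,77,.leaf [(0,85),(1,40),(3,96),(4,1)],.leaf [(0,85),(1,40),(3,96),(4,1)]⟩,
⟨⟨⟨-99,-110,30⟩,⟨-90,51,-110⟩,⟨70,-90,-99⟩⟩,true,85,18,.leaf [(1,5889),(2,3020),(5,51),(7,10)],.leaf [(1,5889),(2,3020),(5,51),(7,10)]⟩,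
⟨⟨⟨-99,-110,-30⟩,⟨90,-51,-110⟩,⟨70,-90,99⟩⟩,true,85,133,.leaf [(0,120),(1,69),(2,80),(7,1)],.leaf [(0,120),(1,69),(2,80),(7,1)]⟩,
⟨⟨⟨-29,-78,-126⟩,⟨-138,61,-6⟩,⟨54,114,-83⟩⟩,true,86,46,.leaf [(2,6191),(3,302),(4,19),(5,46)],.leaf [(2,6191),(3,302),(4,19),(5,46)]⟩,
⟨⟨⟨-29,-78,126⟩,⟨-138,61,6⟩,⟨-54,-114,-83⟩⟩,true,86,105,.leaf [(1,6946),(3,1359),(5,17),(6,36)],.leaf [(1,6946),(3,1359),(5,17),(6,36)]⟩,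
⟨⟨⟨-51,142,-6⟩,⟨138,51,34⟩,⟨34,6,-147⟩⟩,true,89,9,.leaf [(0,151),(3,5889),(4,45),(5,29)],.leaf [(0,151),(3,5889),(4,45),(5,29)]⟩,
⟨⟨⟨-51,142,6⟩,⟨-138,-51,34⟩,⟨34,6,147⟩⟩,true,89,142,.leaf [(0,67),(1,28),(2,126),(4,1)],.leaf [(0,67),(1,28),(2,126),(4,1)]⟩,
⟨⟨⟨-141,34,-42⟩,⟨-54,-93,106⟩,⟨-2,114,99⟩⟩,true,94,26,.leaf [(0,127),(1,94),(3,54),(4,1)],.leaf [(0,127),(1,94),(3,54),(4,1)]⟩,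
⟨⟨⟨-141,34,42⟩,⟨54,93,106⟩,⟨-2,114,-99⟩⟩,true,94,125,.leaf [(0,3473),(1,8305),(4,13),(5,53)],.leaf [(0,3473),(1,8305),(4,13),(5,53)]⟩,
⟨⟨⟨51,-138,34⟩,⟨142,51,-6⟩,⟨-6,34,147⟩⟩,true,95,51,.leaf [(5,513),(11,22801),(14,56)],.leaf [(0,345),(2,230),(5,4),(10,113)]⟩,
⟨⟨⟨-51,138,34⟩,⟨142,51,6⟩,⟨-6,34,-147⟩⟩,true,95,100,.leaf [(3,22801),(4,159),(5,153),(6,11)],.leaf [(3,22801),(4,159),(5,153),(6,11)]⟩,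
⟨⟨⟨-141,54,-2⟩,⟨34,93,114⟩,⟨42,106,-99⟩⟩,true,96,30,.leaf [(1,302),(3,453),(4,4),(5,3)],.leaf [(1,302),(3,453),(4,4),(5,3)]⟩,
⟨⟨⟨141,-54,-2⟩,⟨34,93,-114⟩,⟨42,106,99⟩⟩,true,96,121,.leaf [(2,1510),(3,453),(5,7),(6,10)],.leaf [(2,1510),(3,453),(5,7),(6,10)]⟩,
⟨⟨⟨-99,-90,70⟩,⟨-110,51,-90⟩,⟨30,-110,-99⟩⟩,true,97,42,.leaf [(1,1812),(5,28),(6,5),(10,755)],.leaf [(3,22801),(5,137),(6,183),(14,17)]⟩,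
⟨⟨⟨99,90,70⟩,⟨-110,51,90⟩,⟨30,-110,99⟩⟩,true,97,109,.leaf [(2,274971),(4,3114),(15,500),(18,8305)],.leaf [(2,2416),(4,9),(6,20),(10,755)]⟩,
⟨⟨⟨93,54,106⟩,⟨34,-141,42⟩,⟨114,-2,-99⟩⟩,true,98,19,.leaf [(0,11476),(2,24915),(4,205),(5,64)],.leaf [(0,11476),(2,24915),(4,205),(5,64)]⟩,
⟨⟨⟨-93,-54,106⟩,⟨34,-141,-42⟩,⟨114,-2,99⟩⟩,true,98,132,.leaf [(2,45602),(4,285),(5,508),(14,71)],.leaf [(2,30200),(4,303),(5,280),(10,10721)]⟩,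
⟨⟨⟨-51,34,-138⟩,⟨6,147,34⟩,⟨142,6,-51⟩⟩,true,100,56,.leaf [(4,27),(10,2416),(14,20),(18,755)],.leaf [(1,1431),(3,984),(10,616),(15,1)]⟩,
⟨⟨⟨-51,34,138⟩,⟨-6,-147,34⟩,⟨142,6,51⟩⟩,true,100,95,.leaf [(2,22801),(4,153),(5,159),(7,11)],.leaf [(2,22801),(4,153),(5,159),(7,11)]⟩,
⟨⟨⟨-83,126,-6⟩,⟨-54,-29,138⟩,⟨114,78,61⟩⟩,true,104,31,.leaf [(0,155),(1,135),(3,9),(4,1)],.leaf [(0,155),(1,135),(3,9),(4,1)]⟩,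
⟨⟨⟨-83,126,6⟩,⟨-54,-29,-138⟩,⟨-114,-78,61⟩⟩,true,104,120,.leaf [(0,22801),(4,263),(15,69),(23,3)],.leaf [(0,56),(2,63),(4,1),(10,36)]⟩,
⟨⟨⟨-29,126,78⟩,⟨-54,-83,114⟩,⟨138,-6,61⟩⟩,true,105,65,.leaf [(0,110),(1,36),(2,99),(4,1)],.leaf [(0,110),(1,36),(2,99),(4,1)]⟩,
⟨⟨⟨-29,126,-78⟩,⟨-54,-83,-114⟩,⟨-138,6,61⟩⟩,true,105,86,.leaf [(0,6946),(2,1359),(4,17),(7,36)],.leaf [(0,6946),(2,1359),(4,17),(7,36)]⟩,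
⟨⟨⟨-29,-54,-138⟩,⟨126,-83,6⟩,⟨-78,-114,61⟩⟩,true,106,36,.leaf [(0,29),(1,9),(3,135),(4,1)],.leaf [(0,29),(1,9),(3,135),(4,1)]⟩,
⟨⟨⟨-29,-54,138⟩,⟨126,-83,-6⟩,⟨78,114,61⟩⟩,true,106,115,.leaf [(2,6946),(3,2869),(4,2),(5,41)],.leaf [(2,6946),(3,2869),(4,2),(5,41)]⟩,
⟨⟨⟨99,70,-90⟩,⟨-30,-99,-110⟩,⟨-110,90,-51⟩⟩,true,109,54,.leaf [(4,459),(5,351),(11,22801),(14,17)],.leaf [(0,15),(2,149),(4,1),(10,5)]⟩,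
⟨⟨⟨99,70,90⟩,⟨30,99,-110⟩,⟨-110,90,51⟩⟩,true,109,97,.leaf [(5,972),(10,54662),(14,637),(18,9513)],.leaf [(3,28539),(5,81),(10,8305),(14,35)]⟩,
⟨⟨⟨61,-114,-78⟩,⟨6,-83,126⟩,⟨-138,-54,-29⟩⟩,true,112,21,.leaf [(1,3926),(3,6795),(4,60),(5,31)],.leaf [(1,3926),(3,6795),(4,60),(5,31)]⟩,
⟨⟨⟨61,-114,78⟩,⟨6,-83,-126⟩,⟨138,54,-29⟩⟩,true,112,130,.leaf [(1,8),(2,168),(3,99),(5,1)],.leaf [(1,8),(2,168),(3,99),(5,1)]⟩,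
⟨⟨⟨-29,138,54⟩,⟨78,61,-114⟩,⟨-126,6,-83⟩⟩,true,115,45,.leaf [(0,1661),(3,151),(4,1),(7,11)],.leaf [(0,1661),(3,151),(4,1),(7,11)]⟩,
⟨⟨⟨-29,138,-54⟩,⟨78,61,114⟩,⟨126,-6,-83⟩⟩,true,115,106,.leaf [(0,77),(1,69),(3,99),(4,1)],.leaf [(0,77),(1,69),(3,99),(4,1)]⟩,
⟨⟨⟨-45,126,70⟩,⟨70,-45,126⟩,⟨126,70,-45⟩⟩,true,118,32,.leaf [(0,171),(1,56),(4,1)],.leaf [(0,171),(1,56),(4,1)]⟩,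
⟨⟨⟨45,-126,70⟩,⟨70,-45,-126⟩,⟨126,70,45⟩⟩,true,118,119,.leaf [(0,70),(1,25),(2,126),(5,1)],.leaf [(0,70),(1,25),(2,126),(5,1)]⟩,
⟨⟨⟨45,70,126⟩,⟨-126,-45,70⟩,⟨70,-126,45⟩⟩,true,119,33,.leaf [(2,22801),(4,171),(7,56)],.leaf [(2,22801),(4,171),(7,56)]⟩,
⟨⟨⟨45,70,-126⟩,⟨126,45,70⟩,⟨70,-126,-45⟩⟩,true,119,118,.leaf [(0,25),(1,70),(3,126),(4,1)],.leaf [(0,25),(1,70),(3,126),(4,1)]⟩,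
⟨⟨⟨-83,6,-126⟩,⟨-114,61,78⟩,⟨54,138,-29⟩⟩,true,120,47,.leaf [(1,1510),(3,453),(4,12),(5,5)],.leaf [(1,1510),(3,453),(4,12),(5,5)]⟩,
⟨⟨⟨-83,6,126⟩,⟨-114,61,-78⟩,⟨-54,-138,-29⟩⟩,true,120,104,.leaf [(1,129709),(5,1715),(14,465),(18,3171)],.leaf [(1,270),(3,597),(10,100),(15,1)]⟩,
⟨⟨⟨141,-2,54⟩,⟨-42,-99,106⟩,⟨34,-114,-93⟩⟩,true,121,55,.leaf [(1,6191),(2,4983),(4,71),(5,17)],.leaf [(1,6191),(2,4983),(4,71),(5,17)]⟩,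
⟨⟨⟨141,-2,-54⟩,⟨42,99,106⟩,⟨34,-114,93⟩⟩,true,121,96,.leaf [(2,453),(3,1510),(4,7),(7,10)],.leaf [(2,453),(3,1510),(4,7),(7,10)]⟩,
⟨⟨⟨99,-2,-114⟩,⟨42,141,34⟩,⟨106,-54,93⟩⟩,true,122,8,.leaf [(3,22801),(4,99),(7,107),(14,23)],.leaf [(3,13439),(4,9),(7,85),(10,3473)]⟩,
⟨⟨⟨99,-2,114⟩,⟨-42,-141,34⟩,⟨106,-54,-93⟩⟩,true,122,143,.leaf [(0,453),(1,1510),(4,7),(5,10)],.leaf [(0,453),(1,1510),(4,7),(5,10)]⟩,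
⟨⟨⟨-93,-114,34⟩,⟨106,-99,-42⟩,⟨54,-2,141⟩⟩,true,123,11,.leaf [(2,22801),(4,30),(5,200),(14,37)],.leaf [(4,498),(5,508),(6,125),(10,22801)]⟩,
⟨⟨⟨93,114,34⟩,⟨106,-99,42⟩,⟨54,-2,-141⟩⟩,true,123,140,.leaf [(0,117),(1,8),(2,96),(4,1)],.leaf [(0,117),(1,8),(2,96),(4,1)]⟩,
⟨⟨⟨-99,106,-42⟩,⟨-114,-93,34⟩,⟨-2,54,141⟩⟩,true,124,5,.leaf [(0,130),(1,76),(2,69),(4,1)],.leaf [(0,130),(1,76),(2,69),(4,1)]⟩,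
⟨⟨⟨-99,106,42⟩,⟨114,93,34⟩,⟨-2,54,-141⟩⟩,true,124,146,.leaf [(4,135),(5,513),(10,22801),(15,5)],.leaf [(3,22801),(4,44),(5,273),(23,26)]⟩,
⟨⟨⟨141,-42,34⟩,⟨-2,-99,-114⟩,⟨54,106,-93⟩⟩,true,125,57,.leaf [(0,9211),(1,5738),(4,11),(5,58)],.leaf [(0,9211),(1,5738),(4,11),(5,58)]⟩,
⟨⟨⟨-141,42,34⟩,⟨-2,-99,114⟩,⟨54,106,93⟩⟩,true,125,94,.leaf [(0,141),(1,41),(3,39),(4,1)],.leaf [(0,141),(1,41),(3,39),(4,1)]⟩,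
⟨⟨⟨-83,-54,114⟩,⟨126,-29,78⟩,⟨-6,138,61⟩⟩,true,128,15,.leaf [(0,84),(1,53),(2,108),(5,1)],.leaf [(0,84),(1,53),(2,108),(5,1)]⟩,
⟨⟨⟨-83,-54,-114⟩,⟨126,-29,-78⟩,⟨6,-138,61⟩⟩,true,128,136,.leaf [(0,22801),(4,56),(6,63),(14,36)],.leaf [(3,755),(6,82),(7,15),(10,3926)]⟩,
⟨⟨⟨61,78,114⟩,⟨138,-29,-54⟩,⟨-6,126,-83⟩⟩,true,130,39,.leaf [(0,27784),(2,1359),(4,197),(5,168)],.leaf [(0,27784),(2,1359),(4,197),(5,168)]⟩,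
⟨⟨⟨61,78,-114⟩,⟨138,-29,54⟩,⟨6,-126,-83⟩⟩,true,130,112,.leaf [(0,8),(2,99),(3,168),(4,1)],.leaf [(0,8),(2,99),(3,168),(4,1)]⟩,
⟨⟨⟨-93,106,54⟩,⟨-114,-99,-2⟩,⟨34,-42,141⟩⟩,true,132,53,.leaf [(0,14496),(2,21895),(4,195),(7,56)],.leaf [(0,14496),(2,21895),(4,195),(7,56)]⟩,
⟨⟨⟨-93,106,-54⟩,⟨114,99,-2⟩,⟨34,-42,-141⟩⟩,true,132,98,.leaf [(3,45602),(4,508),(5,285),(15,71)],.leaf [(3,36240),(4,207),(10,8909),(14,20)]⟩,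
⟨⟨⟨99,30,-110⟩,⟨70,99,90⟩,⟨90,-110,51⟩⟩,true,133,66,.leaf [(1,7097),(3,1963),(4,43),(6,23)],.leaf [(1,7097),(3,1963),(4,43),(6,23)]⟩,
⟨⟨⟨-99,-30,-110⟩,⟨70,99,-90⟩,⟨90,-110,-51⟩⟩,true,133,85,.leaf [(0,69),(1,120),(3,80),(6,1)],.leaf [(0,69),(1,120),(3,80),(6,1)]⟩,
⟨⟨⟨-51,-90,-110⟩,⟨-110,99,-30⟩,⟨90,70,-99⟩⟩,true,135,14,.leaf [(2,22801),(4,15),(5,160),(6,4)],.leaf [(2,22801),(4,15),(5,160),(6,4)]⟩,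
⟨⟨⟨51,90,-110⟩,⟨-110,99,30⟩,⟨90,70,99⟩⟩,true,135,137,.leaf [(1,24160),(2,1359),(4,164),(6,15)],.leaf [(1,24160),(2,1359),(4,164),(6,15)]⟩,
⟨⟨⟨-83,-114,54⟩,⟨6,61,138⟩,⟨-126,78,-29⟩⟩,true,136,23,.leaf [(0,159),(1,83),(2,33),(5,1)],.leaf [(0,159),(1,83),(2,33),(5,1)]⟩,
⟨⟨⟨-83,-114,-54⟩,⟨6,61,-138⟩,⟨126,-78,-29⟩⟩,true,136,128,.leaf [(1,22801),(5,56),(7,63),(15,36)],.leaf [(1,843939),(10,324348),(23,391),(31,22)]⟩,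
⟨⟨⟨51,-110,-90⟩,⟨-90,-99,70⟩,⟨-110,30,-99⟩⟩,true,137,16,.leaf [(1,20234),(3,2265),(4,140),(5,11)],.leaf [(1,20234),(3,2265),(4,140),(5,11)]⟩,
⟨⟨⟨51,-110,90⟩,⟨90,99,70⟩,⟨-110,30,99⟩⟩,true,137,135,.leaf [(0,24160),(3,1359),(5,164),(7,15)],.leaf [(0,24160),(3,1359),(5,164),(7,15)]⟩,
⟨⟨⟨93,34,-114⟩,⟨-54,141,-2⟩,⟨106,42,99⟩⟩,true,140,28,.leaf [(3,4983),(7,3),(10,151),(14,11)],.leaf [(1,37908),(10,5715),(26,254),(30,5)]⟩,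
⟨⟨⟨93,34,114⟩,⟨54,-141,-2⟩,⟨106,42,-99⟩⟩,true,140,123,.leaf [(0,14194),(2,24009),(4,213),(5,116)],.leaf [(0,14194),(2,24009),(4,213),(5,116)]⟩,
⟨⟨⟨61,-6,-138⟩,⟨114,-83,54⟩,⟨-78,-126,-29⟩⟩,true,141,72,.leaf [(0,77),(1,108),(3,84),(4,1)],.leaf [(0,77),(1,108),(3,84),(4,1)]⟩,
⟨⟨⟨61,-6,138⟩,⟨114,-83,-54⟩,⟨78,126,-29⟩⟩,true,141,79,.leaf [(0,132),(1,158),(3,9),(5,1)],.leaf [(0,132),(1,158),(3,9),(5,1)]⟩,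
⟨⟨⟨51,-6,142⟩,⟨34,147,-6⟩,⟨-138,34,51⟩⟩,true,142,62,.leaf [(0,5889),(3,151),(5,45),(6,29)],.leaf [(0,5889),(3,151),(5,45),(6,29)]⟩,
⟨⟨⟨-51,6,142⟩,⟨34,147,6⟩,⟨-138,34,-51⟩⟩,true,142,89,.leaf [(0,28),(1,67),(3,126),(5,1)],.leaf [(0,28),(1,67),(3,126),(5,1)]⟩,
⟨⟨⟨-99,-114,-2⟩,⟨106,-93,54⟩,⟨-42,34,141⟩⟩,true,143,29,.leaf [(0,45602),(4,467),(5,428),(14,69)],.leaf [(0,47867),(4,410),(5,452),(10,10419)]⟩,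
⟨⟨⟨99,114,-2⟩,⟨106,-93,-54⟩,⟨-42,34,-141⟩⟩,true,143,122,.leaf [(0,16459),(2,8154),(4,139),(5,52)],.leaf [(0,16459),(2,8154),(4,139),(5,52)]⟩,
⟨⟨⟨99,-42,106⟩,⟨-2,-141,-54⟩,⟨114,34,-93⟩⟩,true,146,27,.leaf [(0,1057),(1,1510),(4,3),(5,10)],.leaf [(0,1057),(1,1510),(4,3),(5,10)]⟩,
⟨⟨⟨-99,42,106⟩,⟨-2,-141,54⟩,⟨114,34,93⟩⟩,true,146,124,.leaf [(4,513),(5,135),(11,22801),(14,5)],.leaf [(2,70517),(4,429),(5,508),(10,3926)]⟩]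

theorem primeOk_151 : PrimeOk 151 := primeOk (by norm_num) (by norm_num) (by norm_num) L151
  (by decide +kernel) (by decide +kernel)

def L283 : List Cls := [
⟨⟨⟨121,-162,-198⟩,⟨-162,121,-198⟩,⟨198,198,-41⟩⟩,true,1,127,.leaf [(0,11603),(2,80089),(5,239),(7,157)],.leaf [(0,11603),(2,80089),(5,239),(7,157)]⟩,
⟨⟨⟨121,-162,198⟩,⟨-162,121,198⟩,⟨-198,-198,-41⟩⟩,true,1,156,.leaf [(0,41),(1,239),(3,157),(6,1)],.leaf [(0,41),(1,239),(3,157),(6,1)]⟩,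
⟨⟨⟨105,210,-158⟩,⟨-50,183,210⟩,⟨258,-50,105⟩⟩,true,2,109,.leaf [(0,27),(1,275),(3,93),(4,1)],.leaf [(0,27),(1,275),(3,93),(4,1)]⟩,
⟨⟨⟨-105,-210,-158⟩,⟨-50,183,-210⟩,⟨258,-50,-105⟩⟩,true,2,174,.leaf [(1,4245),(2,4528),(5,31),(6,16)],.leaf [(1,4245),(2,4528),(5,31),(6,16)]⟩,
⟨⟨⟨183,166,-138⟩,⟨-198,57,-194⟩,⟨-86,222,153⟩⟩,true,4,41,.leaf [(2,80089),(4,485),(5,222),(15,86)],.leaf [(4,521),(5,1005),(7,85),(10,80089)]⟩,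
⟨⟨⟨183,166,138⟩,⟨198,-57,-194⟩,⟨-86,222,-153⟩⟩,true,4,242,.leaf [(0,56),(1,39),(3,252),(5,1)],.leaf [(0,56),(1,39),(3,252),(5,1)]⟩,
⟨⟨⟨265,-90,42⟩,⟨-90,-167,210⟩,⟨-42,-210,-185⟩⟩,true,5,92,.leaf [(1,47261),(2,9339),(4,207),(5,55)],.leaf [(1,47261),(2,9339),(4,207),(5,55)]⟩,
⟨⟨⟨265,-90,-42⟩,⟨-90,-167,-210⟩,⟨42,210,-185⟩⟩,true,5,191,.leaf [(0,30847),(1,12452),(4,11),(5,100)],.leaf [(0,30847),(1,12452),(4,11),(5,100)]⟩,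
⟨⟨⟨-23,-138,-246⟩,⟨-6,247,-138⟩,⟨282,-6,-23⟩⟩,true,6,23,.leaf [(7,828),(10,67354),(14,17),(18,11603)],.leaf [(1,139519),(5,284),(10,49808),(15,11)]⟩,
⟨⟨⟨-23,-138,246⟩,⟨-6,247,138⟩,⟨-282,6,-23⟩⟩,true,6,260,.leaf [(0,67),(2,77),(3,269),(5,1)],.leaf [(0,67),(2,77),(3,269),(5,1)]⟩,
⟨⟨⟨-153,-222,-86⟩,⟨-194,57,198⟩,⟨-138,166,-183⟩⟩,true,7,69,.leaf [(2,39337),(3,34243),(4,69),(5,151)],.leaf [(2,39337),(3,34243),(4,69),(5,151)]⟩,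
⟨⟨⟨153,222,-86⟩,⟨-194,57,-198⟩,⟨-138,166,183⟩⟩,true,7,214,.leaf [(0,90843),(1,86032),(4,23),(6,312)],.leaf [(0,90843),(1,86032),(4,23),(6,312)]⟩,
⟨⟨⟨103,258,54⟩,⟨174,-23,-222⟩,⟨-198,114,-167⟩⟩,true,8,28,.leaf [(0,80089),(4,197),(5,177),(7,135)],.leaf [(0,80089),(4,197),(5,177),(7,135)]⟩,
⟨⟨⟨103,258,-54⟩,⟨174,-23,222⟩,⟨198,-114,-167⟩⟩,true,8,255,.leaf [(0,281),(1,243),(3,33),(4,1)],.leaf [(0,281),(1,243),(3,33),(4,1)]⟩,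
⟨⟨⟨-9,202,-198⟩,⟨-282,9,22⟩,⟨22,198,201⟩⟩,true,9,22,.leaf [(0,70),(1,220),(2,123),(4,1)],.leaf [(0,70),(1,220),(2,123),(4,1)]⟩,
⟨⟨⟨-9,202,198⟩,⟨282,-9,22⟩,⟨22,198,-201⟩⟩,true,9,261,.leaf [(0,44431),(3,13584),(4,213),(5,128)],.leaf [(0,44431),(3,13584),(4,213),(5,128)]⟩,
⟨⟨⟨57,-222,166⟩,⟨-194,-153,-138⟩,⟨198,-86,-183⟩⟩,true,11,132,.leaf [(0,136),(1,313),(3,36),(5,1)],.leaf [(0,136),(1,313),(3,36),(5,1)]⟩,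
⟨⟨⟨-57,222,166⟩,⟨-194,-153,138⟩,⟨198,-86,183⟩⟩,true,11,151,.leaf [(0,49),(2,214),(4,1),(11,28)],.leaf [(0,112),(2,256),(4,1),(10,7)]⟩,
⟨⟨⟨-153,-138,-194⟩,⟨-86,-183,198⟩,⟨-222,166,57⟩⟩,true,12,103,.leaf [(0,45),(1,185),(3,207),(4,1)],.leaf [(0,45),(1,185),(3,207),(4,1)]⟩,
⟨⟨⟨153,138,-194⟩,⟨-86,-183,-198⟩,⟨-222,166,-57⟩⟩,true,12,180,.leaf [(0,3962),(2,27451),(4,98),(6,1)],.leaf [(0,3962),(2,27451),(4,98),(6,1)]⟩,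
⟨⟨⟨105,-50,-258⟩,⟨-210,-183,-50⟩,⟨-158,210,-105⟩⟩,true,13,135,.leaf [(0,13),(1,208),(2,120),(4,1)],.leaf [(0,13),(1,208),(2,120),(4,1)]⟩,
⟨⟨⟨105,-50,258⟩,⟨210,183,-50⟩,⟨-158,210,105⟩⟩,true,13,148,.leaf [(0,260),(1,75),(3,78),(5,1)],.leaf [(0,260),(1,75),(3,78),(5,1)]⟩,
⟨⟨⟨231,-162,22⟩,⟨-158,-231,-42⟩,⟨42,22,-279⟩⟩,true,14,54,.leaf [(0,6509),(1,7641),(4,17),(5,29)],.leaf [(0,6509),(1,7641),(4,17),(5,29)]⟩,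
⟨⟨⟨-231,162,22⟩,⟨-158,-231,42⟩,⟨42,22,279⟩⟩,true,14,229,.leaf [(0,243),(1,20),(2,150),(4,1)],.leaf [(0,243),(1,20),(2,150),(4,1)]⟩,
⟨⟨⟨-183,-198,-86⟩,⟨166,-57,-222⟩,⟨138,-194,153⟩⟩,true,15,118,.leaf [(1,14433),(5,545),(6,286),(18,14150)],.leaf [(1,359127),(5,369),(10,46412),(15,274)]⟩,
⟨⟨⟨183,198,-86⟩,⟨166,-57,222⟩,⟨138,-194,-153⟩⟩,true,15,165,.leaf [(0,255),(1,290),(3,18),(4,1)],.leaf [(0,255),(1,290),(3,18),(4,1)]⟩,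
⟨⟨⟨87,238,126⟩,⟨126,-153,202⟩,⟨238,-6,-153⟩⟩,true,19,60,.leaf [(0,253),(1,76),(2,138),(4,1)],.leaf [(0,253),(1,76),(2,138),(4,1)]⟩,
⟨⟨⟨87,238,-126⟩,⟨-126,153,202⟩,⟨238,-6,153⟩⟩,true,19,223,.leaf [(0,85),(1,313),(3,15),(4,1)],.leaf [(0,85),(1,313),(3,15),(4,1)]⟩,
⟨⟨⟨87,42,-266⟩,⟨-266,57,-78⟩,⟨42,274,57⟩⟩,true,20,62,.leaf [(1,89428),(2,4245),(4,311),(6,90)],.leaf [(1,89428),(2,4245),(4,311),(6,90)]⟩,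
⟨⟨⟨-87,-42,-266⟩,⟨-266,57,78⟩,⟨42,274,-57⟩⟩,true,20,221,.leaf [(1,78674),(3,9339),(4,316),(5,99)],.leaf [(1,78674),(3,9339),(4,316),(5,99)]⟩,
⟨⟨⟨-9,-198,202⟩,⟨22,201,198⟩,⟨-282,22,9⟩⟩,true,22,9,.leaf [(0,220),(1,70),(3,123),(5,1)],.leaf [(0,220),(1,70),(3,123),(5,1)]⟩,
⟨⟨⟨9,198,202⟩,⟨22,201,-198⟩,⟨-282,22,-9⟩⟩,true,22,274,.leaf [(0,97069),(1,44431),(5,217),(6,339)],.leaf [(0,97069),(1,44431),(5,217),(6,339)]⟩,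
⟨⟨⟨-23,-246,-138⟩,⟨282,-23,-6⟩,⟨-6,-138,247⟩⟩,true,23,6,.leaf [(4,2646),(6,609),(15,1612),(18,80089)],.leaf [(0,60562),(4,5),(6,264),(10,9339)]⟩,
⟨⟨⟨-23,-246,138⟩,⟨282,-23,6⟩,⟨6,138,247⟩⟩,true,23,277,.leaf [(0,54336),(2,30281),(5,144),(6,109)],.leaf [(0,54336),(2,30281),(5,144),(6,109)]⟩,
⟨⟨⟨103,54,258⟩,⟨-198,-167,114⟩,⟨174,-222,-23⟩⟩,true,28,8,.leaf [(1,80089),(4,177),(5,197),(6,135)],.leaf [(1,80089),(4,177),(5,197),(6,135)]⟩,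
⟨⟨⟨103,54,-258⟩,⟨-198,-167,-114⟩,⟨-174,222,-23⟩⟩,true,28,275,.leaf [(0,32),(1,144),(2,189),(4,1)],.leaf [(0,32),(1,144),(2,189),(4,1)]⟩,
⟨⟨⟨-9,22,282⟩,⟨198,-201,22⟩,⟨202,198,-9⟩⟩,true,29,63,.leaf [(0,58015),(2,52638),(4,291),(5,260)],.leaf [(0,58015),(2,52638),(4,291),(5,260)]⟩,
⟨⟨⟨-9,22,-282⟩,⟨-198,201,22⟩,⟨202,198,9⟩⟩,true,29,220,.leaf [(4,4677),(5,7596),(14,1582),(18,80089)],.leaf [(1,361),(2,13),(5,1),(10,163)]⟩,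
⟨⟨⟨153,238,-6⟩,⟨-126,87,238⟩,⟨202,-126,153⟩⟩,true,33,61,.leaf [(0,58),(1,244),(2,93),(4,1)],.leaf [(0,58),(1,244),(2,93),(4,1)]⟩,
⟨⟨⟨153,238,6⟩,⟨126,-87,238⟩,⟨202,-126,-153⟩⟩,true,33,222,.leaf [(0,265),(1,232),(2,60),(4,1)],.leaf [(0,265),(1,232),(2,60),(4,1)]⟩,
⟨⟨⟨-23,258,-114⟩,⟨174,103,198⟩,⟨222,-54,-167⟩⟩,true,38,128,.leaf [(0,20),(2,135),(3,312),(4,1)],.leaf [(0,20),(2,135),(3,312),(4,1)]⟩,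
⟨⟨⟨-23,258,114⟩,⟨174,103,-198⟩,⟨-222,54,-167⟩⟩,true,38,155,.leaf [(0,80089),(4,71),(5,33),(7,243)],.leaf [(0,80089),(4,71),(5,33),(7,243)]⟩,
⟨⟨⟨-201,-198,22⟩,⟨22,9,282⟩,⟨-198,202,9⟩⟩,true,39,90,.leaf [(0,6509),(1,3679),(4,13),(5,23)],.leaf [(0,6509),(1,3679),(4,13),(5,23)]⟩,
⟨⟨⟨201,198,22⟩,⟨22,9,-282⟩,⟨-198,202,-9⟩⟩,true,39,193,.leaf [(0,80089),(4,205),(5,400),(6,192)],.leaf [(0,80089),(4,205),(5,400),(6,192)]⟩,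
⟨⟨⟨-185,-42,210⟩,⟨42,265,90⟩,⟨-210,90,-167⟩⟩,true,40,83,.leaf [(0,132),(1,242),(3,135),(5,1)],.leaf [(0,132),(1,242),(3,135),(5,1)]⟩,
⟨⟨⟨-185,-42,-210⟩,⟨42,265,-90⟩,⟨210,-90,-167⟩⟩,true,40,200,.leaf [(1,80089),(5,143),(7,201),(15,33)],.leaf [(1,2079),(3,3948),(10,1048),(23,1)]⟩,
⟨⟨⟨183,-138,166⟩,⟨-86,153,222⟩,⟨-198,-194,57⟩⟩,true,41,4,.leaf [(3,80089),(4,222),(5,485),(14,86)],.leaf [(1,68769),(5,10530),(26,103012),(31,35)]⟩,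
⟨⟨⟨-183,138,166⟩,⟨-86,153,-222⟩,⟨-198,-194,-57⟩⟩,true,41,279,.leaf [(0,291),(1,39),(3,17),(6,1)],.leaf [(0,291),(1,39),(3,17),(6,1)]⟩,
⟨⟨⟨-167,-222,-54⟩,⟨114,-23,-258⟩,⟨198,-174,103⟩⟩,true,42,102,.leaf [(0,333),(1,71),(5,1),(18,57)],.leaf [(0,18),(2,149),(6,1),(10,78)]⟩,
⟨⟨⟨-167,-222,54⟩,⟨114,-23,258⟩,⟨-198,174,103⟩⟩,true,42,181,.leaf [(0,10471),(1,2830),(4,23),(5,38)],.leaf [(0,10471),(1,2830),(4,23),(5,38)]⟩,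
⟨⟨⟨247,114,78⟩,⟨-78,247,-114⟩,⟨-114,78,247⟩⟩,true,44,45,.leaf [(0,320356),(5,325),(7,118),(15,325)],.leaf [(0,37073),(5,650),(7,794),(10,91975)]⟩,
⟨⟨⟨247,114,-78⟩,⟨-78,247,114⟩,⟨114,-78,247⟩⟩,true,44,238,.leaf [(2,1089267),(4,8730),(15,2452),(18,59713)],.leaf [(1,104427),(7,2001),(10,133859),(22,211)]⟩,
⟨⟨⟨247,78,114⟩,⟨-114,247,78⟩,⟨-78,-114,247⟩⟩,true,45,44,.leaf [(1,320356),(4,325),(6,118),(14,325)],.leaf [(1,1377),(3,1362),(10,796),(15,1)]⟩,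
⟨⟨⟨247,78,-114⟩,⟨-114,247,-78⟩,⟨78,114,247⟩⟩,true,45,239,.leaf [(2,753),(7,6),(11,266),(18,133)],.leaf [(1,399),(2,59),(7,1),(10,133)]⟩,
⟨⟨⟨247,6,-138⟩,⟨138,-23,246⟩,⟨-6,-282,-23⟩⟩,true,47,51,.leaf [(0,29),(1,261),(3,123),(4,1)],.leaf [(0,29),(1,261),(3,123),(4,1)]⟩,
⟨⟨⟨247,6,138⟩,⟨138,-23,-246⟩,⟨6,282,-23⟩⟩,true,47,232,.leaf [(0,276),(1,98),(3,63),(5,1)],.leaf [(0,276),(1,98),(3,63),(5,1)]⟩,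
⟨⟨⟨247,-138,6⟩,⟨-6,-23,-282⟩,⟨138,246,-23⟩⟩,true,51,47,.leaf [(0,261),(1,29),(2,123),(5,1)],.leaf [(0,261),(1,29),(2,123),(5,1)]⟩,
⟨⟨⟨247,-138,-6⟩,⟨-6,-23,282⟩,⟨-138,-246,-23⟩⟩,true,51,236,.leaf [(1,1981),(3,1415),(4,7),(6,5)],.leaf [(1,1981),(3,1415),(4,7),(6,5)]⟩,
⟨⟨⟨231,22,-162⟩,⟨42,-279,22⟩,⟨-158,-42,-231⟩⟩,true,54,14,.leaf [(1,36),(2,301),(3,148),(4,1)],.leaf [(1,36),(2,301),(3,148),(4,1)]⟩,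
⟨⟨⟨231,22,162⟩,⟨-42,279,22⟩,⟨-158,-42,231⟩⟩,true,54,269,.leaf [(0,20),(1,170),(3,223),(7,1)],.leaf [(0,20),(1,170),(3,223),(7,1)]⟩,
⟨⟨⟨87,126,238⟩,⟨238,-153,-6⟩,⟨126,202,-153⟩⟩,true,60,19,.leaf [(0,88579),(2,39054),(4,391),(5,244)],.leaf [(0,88579),(2,39054),(4,391),(5,244)]⟩,
⟨⟨⟨-87,-126,238⟩,⟨238,-153,6⟩,⟨126,202,153⟩⟩,true,60,264,.leaf [(0,15),(2,313),(3,85),(5,1)],.leaf [(0,15),(2,313),(3,85),(5,1)]⟩,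
⟨⟨⟨153,-6,238⟩,⟨202,153,-126⟩,⟨-126,238,87⟩⟩,true,61,33,.leaf [(0,244),(1,58),(3,93),(5,1)],.leaf [(0,244),(1,58),(3,93),(5,1)]⟩,
⟨⟨⟨-153,6,238⟩,⟨202,153,126⟩,⟨-126,238,-87⟩⟩,true,61,250,.leaf [(0,232),(1,292),(3,33),(5,1)],.leaf [(0,232),(1,292),(3,33),(5,1)]⟩,
⟨⟨⟨87,-266,42⟩,⟨42,57,274⟩,⟨-266,-78,57⟩⟩,true,62,20,.leaf [(0,89428),(3,4245),(5,311),(7,90)],.leaf [(0,89428),(3,4245),(5,311),(7,90)]⟩,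
⟨⟨⟨87,-266,-42⟩,⟨-42,-57,274⟩,⟨-266,-78,-57⟩⟩,true,62,263,.leaf [(1,6509),(3,56034),(4,188),(5,209)],.leaf [(1,6509),(3,56034),(4,188),(5,209)]⟩,
⟨⟨⟨-9,282,22⟩,⟨202,-9,198⟩,⟨198,22,-201⟩⟩,true,63,29,.leaf [(0,291),(1,128),(3,48),(4,1)],.leaf [(0,291),(1,128),(3,48),(4,1)]⟩,
⟨⟨⟨9,-282,22⟩,⟨202,-9,-198⟩,⟨198,22,201⟩⟩,true,63,254,.leaf [(2,80089),(5,261),(6,29),(15,41)],.leaf [(2,67354),(5,276),(6,17),(10,11603)]⟩,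
⟨⟨⟨103,-174,-198⟩,⟨-258,-23,-114⟩,⟨54,222,-167⟩⟩,true,67,86,.leaf [(2,41035),(3,5377),(4,119),(5,149)],.leaf [(2,41035),(3,5377),(4,119),(5,149)]⟩,
⟨⟨⟨103,-174,198⟩,⟨-258,-23,114⟩,⟨-54,-222,-167⟩⟩,true,67,197,.leaf [(1,31696),(3,55185),(5,197),(6,48)],.leaf [(1,31696),(3,55185),(5,197),(6,48)]⟩,
⟨⟨⟨-153,-86,-222⟩,⟨-138,-183,166⟩,⟨-194,198,57⟩⟩,true,69,7,.leaf [(0,97),(1,235),(3,153),(4,1)],.leaf [(0,97),(1,235),(3,153),(4,1)]⟩,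
⟨⟨⟨-153,-86,222⟩,⟨138,183,166⟩,⟨-194,198,-57⟩⟩,true,69,276,.leaf [(0,284),(1,261),(3,18),(5,1)],.leaf [(0,284),(1,261),(3,18),(5,1)]⟩,
⟨⟨⟨57,-198,-194⟩,⟨166,183,-138⟩,⟨222,-86,153⟩⟩,true,71,81,.leaf [(1,80089),(4,8),(5,69),(6,312)],.leaf [(1,80089),(4,8),(5,69),(6,312)]⟩,
⟨⟨⟨-57,198,-194⟩,⟨166,183,138⟩,⟨222,-86,-153⟩⟩,true,71,202,.leaf [(0,15),(1,62),(3,270),(4,1)],.leaf [(0,15),(1,62),(3,270),(4,1)]⟩,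
⟨⟨⟨-167,210,90⟩,⟨-210,-185,42⟩,⟨90,-42,265⟩⟩,true,75,113,.leaf [(0,1132),(2,3113),(4,11),(6,4)],.leaf [(0,1132),(2,3113),(4,11),(6,4)]⟩,
⟨⟨⟨-167,210,-90⟩,⟨-210,-185,-42⟩,⟨-90,42,265⟩⟩,true,75,170,.leaf [(0,200),(1,48),(2,195),(4,1)],.leaf [(0,200),(1,48),(2,195),(4,1)]⟩,
⟨⟨⟨231,-42,-158⟩,⟨22,279,-42⟩,⟨162,22,231⟩⟩,true,77,101,.leaf [(1,108),(2,237),(3,92),(6,1)],.leaf [(1,108),(2,237),(3,92),(6,1)]⟩,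
⟨⟨⟨-231,42,-158⟩,⟨22,279,42⟩,⟨162,22,-231⟩⟩,true,77,182,.leaf [(3,80089),(4,261),(5,69),(6,197)],.leaf [(3,80089),(4,261),(5,69),(6,197)]⟩,
⟨⟨⟨-41,198,198⟩,⟨-198,121,-162⟩,⟨-198,-162,121⟩⟩,true,78,78,.leaf [(0,206307),(15,432),(18,56600),(22,25)],.leaf [(4,567),(7,1404),(10,160178),(14,91)]⟩,
⟨⟨⟨-41,198,-198⟩,⟨-198,121,162⟩,⟨198,162,121⟩⟩,true,78,205,.leaf [(0,77),(1,297),(3,63),(4,1)],.leaf [(0,77),(1,297),(3,63),(4,1)]⟩,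
⟨⟨⟨57,-194,-198⟩,⟨222,153,-86⟩,⟨166,-138,183⟩⟩,true,81,71,.leaf [(0,80089),(4,69),(5,8),(7,312)],.leaf [(0,80089),(4,69),(5,8),(7,312)]⟩,
⟨⟨⟨57,-194,198⟩,⟨-222,-153,-86⟩,⟨166,-138,-183⟩⟩,true,81,212,.leaf [(0,56),(1,273),(3,108),(5,1)],.leaf [(0,56),(1,273),(3,108),(5,1)]⟩,
⟨⟨⟨-185,210,-42⟩,⟨-210,-167,90⟩,⟨42,90,265⟩⟩,true,83,40,.leaf [(0,242),(1,132),(2,135),(4,1)],.leaf [(0,242),(1,132),(2,135),(4,1)]⟩,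
⟨⟨⟨-185,210,42⟩,⟨-210,-167,-90⟩,⟨-42,-90,265⟩⟩,true,83,243,.leaf [(4,2079),(6,3948),(15,1048),(18,80089)],.leaf [(0,143),(2,201),(4,1),(10,33)]⟩,
⟨⟨⟨103,-198,-174⟩,⟨54,-167,222⟩,⟨-258,-114,-23⟩⟩,true,86,67,.leaf [(1,10754),(3,17829),(4,84),(5,31)],.leaf [(1,10754),(3,17829),(4,84),(5,31)]⟩,
⟨⟨⟨103,-198,174⟩,⟨54,-167,-222⟩,⟨258,114,-23⟩⟩,true,86,216,.leaf [(1,20),(2,312),(3,177),(5,1)],.leaf [(1,20),(2,312),(3,177),(5,1)]⟩,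
⟨⟨⟨-183,210,-50⟩,⟨-50,-105,-258⟩,⟨-210,-158,105⟩⟩,true,87,141,.leaf [(0,15),(2,90),(3,308),(6,1)],.leaf [(0,15),(2,90),(3,308),(6,1)]⟩,
⟨⟨⟨183,-210,-50⟩,⟨-50,-105,258⟩,⟨-210,-158,-105⟩⟩,true,87,142,.leaf [(4,945),(5,360),(10,80089),(15,8)],.leaf [(3,2523),(5,9),(10,533),(26,13)]⟩,
⟨⟨⟨-57,78,-266⟩,⟨274,57,-42⟩,⟨42,-266,-87⟩⟩,true,88,99,.leaf [(0,12735),(3,87164),(4,330),(6,43)],.leaf [(0,12735),(3,87164),(4,330),(6,43)]⟩,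
⟨⟨⟨57,-78,-266⟩,⟨274,57,42⟩,⟨42,-266,87⟩⟩,true,88,184,.leaf [(4,585),(6,624),(10,80089),(14,10)],.L (.leaf [(0,80089),(5,124),(6,202),(14,67)]) (.leaf [(0,77),(1,144),(2,336),(4,1)]) (.leaf [(0,305),(1,330),(3,198),(4,1)])⟩,
⟨⟨⟨-201,22,-198⟩,⟨-198,9,202⟩,⟨22,282,9⟩⟩,true,90,39,.leaf [(0,13),(1,205),(3,195),(4,1)],.leaf [(0,13),(1,205),(3,195),(4,1)]⟩,
⟨⟨⟨-201,22,198⟩,⟨198,-9,202⟩,⟨22,282,-9⟩⟩,true,90,244,.leaf [(0,58015),(3,39054),(4,345),(5,182)],.leaf [(0,58015),(3,39054),(4,345),(5,182)]⟩,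
⟨⟨⟨-167,-198,-114⟩,⟨54,103,-258⟩,⟨222,-174,-23⟩⟩,true,91,121,.leaf [(5,4644),(7,2388),(14,953),(18,80089)],.leaf [(1,137538),(6,411),(10,60845),(15,50)]⟩,
⟨⟨⟨-167,-198,114⟩,⟨54,103,258⟩,⟨-222,174,-23⟩⟩,true,91,162,.leaf [(0,10754),(1,6509),(4,10),(5,37)],.leaf [(0,10754),(1,6509),(4,10),(5,37)]⟩,
⟨⟨⟨265,42,-90⟩,⟨-42,-185,-210⟩,⟨-90,210,-167⟩⟩,true,92,5,.leaf [(0,28300),(1,3113),(4,44),(5,109)],.leaf [(0,28300),(1,3113),(4,44),(5,109)]⟩,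
⟨⟨⟨265,42,90⟩,⟨-42,-185,210⟩,⟨90,-210,-167⟩⟩,true,92,278,.leaf [(0,20),(1,120),(2,207),(4,1)],.leaf [(0,20),(1,120),(2,207),(4,1)]⟩,
⟨⟨⟨-57,-266,78⟩,⟨42,-87,-266⟩,⟨274,-42,57⟩⟩,true,99,88,.leaf [(1,12735),(2,87164),(5,330),(7,43)],.leaf [(1,12735),(2,87164),(5,330),(7,43)]⟩,
⟨⟨⟨-57,-266,-78⟩,⟨-42,87,-266⟩,⟨274,-42,-57⟩⟩,true,99,195,.leaf [(2,85749),(5,441),(11,3113),(14,53)],.leaf [(0,915),(2,182),(7,4),(10,135)]⟩,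
⟨⟨⟨231,-158,-42⟩,⟨162,231,22⟩,⟨22,-42,279⟩⟩,true,101,77,.leaf [(0,108),(2,92),(3,237),(7,1)],.leaf [(0,108),(2,92),(3,237),(7,1)]⟩,
⟨⟨⟨231,-158,42⟩,⟨-162,-231,22⟩,⟨22,-42,-279⟩⟩,true,101,206,.leaf [(0,4811),(1,8207),(4,23),(5,27)],.leaf [(0,4811),(1,8207),(4,23),(5,27)]⟩,
⟨⟨⟨-167,-54,-222⟩,⟨198,103,-174⟩,⟨114,-258,-23⟩⟩,true,102,42,.leaf [(0,7398),(3,8055),(18,1258),(23,1)],.leaf [(1,1755),(3,1701),(10,875),(14,1)]⟩,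
⟨⟨⟨-167,-54,222⟩,⟨198,103,174⟩,⟨-114,258,-23⟩⟩,true,102,241,.leaf [(0,7),(2,305),(3,245),(5,1)],.leaf [(0,7),(2,305),(3,245),(5,1)]⟩,
⟨⟨⟨-153,-194,-138⟩,⟨-222,57,166⟩,⟨-86,198,-183⟩⟩,true,103,12,.leaf [(2,21791),(3,14150),(4,35),(5,78)],.leaf [(2,21791),(3,14150),(4,35),(5,78)]⟩,
⟨⟨⟨-153,-194,138⟩,⟨222,-57,166⟩,⟨-86,198,183⟩⟩,true,103,271,.leaf [(0,80089),(4,279),(5,302),(7,18)],.leaf [(0,80089),(4,279),(5,302),(7,18)]⟩,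
⟨⟨⟨57,42,274⟩,⟨-266,87,42⟩,⟨-78,-266,57⟩⟩,true,105,119,.L (.leaf [(5,27),(7,12),(14,8),(23,1)]) (.leaf [(0,152),(1,384),(2,261),(4,1)]) (.leaf [(0,40752),(1,71599),(5,107),(7,192)]),.leaf [(0,30),(3,80),(6,1),(10,99)]⟩,
⟨⟨⟨-57,-42,274⟩,⟨-266,87,-42⟩,⟨-78,-266,-57⟩⟩,true,105,164,.leaf [(3,80089),(5,200),(6,48),(15,65)],.leaf [(3,213948),(6,1026),(10,111785),(14,55)]⟩,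
⟨⟨⟨-23,-174,222⟩,⟨-258,103,54⟩,⟨-114,-198,-167⟩⟩,true,106,138,.leaf [(1,17263),(3,16980),(5,71),(6,24)],.leaf [(1,17263),(3,16980),(5,71),(6,24)]⟩,
⟨⟨⟨-23,-174,-222⟩,⟨-258,103,-54⟩,⟨114,198,-167⟩⟩,true,106,145,.leaf [(1,2830),(2,19527),(4,45),(5,86)],.leaf [(1,2830),(2,19527),(4,45),(5,86)]⟩,
⟨⟨⟨105,-158,210⟩,⟨258,105,-50⟩,⟨-50,210,183⟩⟩,true,109,2,.leaf [(0,275),(1,27),(2,93),(5,1)],.leaf [(0,275),(1,27),(2,93),(5,1)]⟩,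
⟨⟨⟨105,-158,-210⟩,⟨-258,-105,-50⟩,⟨-50,210,-183⟩⟩,true,109,281,.leaf [(1,4528),(2,4245),(4,31),(5,16)],.leaf [(1,4528),(2,4245),(4,31),(5,16)]⟩,
⟨⟨⟨-23,-6,-282⟩,⟨-138,247,6⟩,⟨246,138,-23⟩⟩,true,111,123,.leaf [(1,80089),(4,144),(5,77),(7,192)],.leaf [(1,80089),(4,144),(5,77),(7,192)]⟩,
⟨⟨⟨-23,-6,282⟩,⟨-138,247,-6⟩,⟨-246,-138,-23⟩⟩,true,111,160,.leaf [(3,40752),(6,639),(10,44431),(15,128)],.leaf [(1,2646),(3,609),(10,1612),(23,1)]⟩,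
⟨⟨⟨-167,90,210⟩,⟨90,265,-42⟩,⟨-210,42,-185⟩⟩,true,113,75,.leaf [(1,1132),(3,3113),(5,11),(7,4)],.leaf [(1,1132),(3,3113),(5,11),(7,4)]⟩,
⟨⟨⟨-167,90,-210⟩,⟨90,265,42⟩,⟨210,-42,-185⟩⟩,true,113,208,.leaf [(1,3113),(3,1132),(5,4),(7,11)],.leaf [(1,3113),(3,1132),(5,4),(7,11)]⟩,
⟨⟨⟨153,202,126⟩,⟨6,-153,238⟩,⟨238,-126,-87⟩⟩,true,116,134,.leaf [(0,48),(2,307),(3,112),(4,1)],.leaf [(0,48),(2,307),(3,112),(4,1)]⟩,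
⟨⟨⟨153,202,-126⟩,⟨-6,153,238⟩,⟨238,-126,87⟩⟩,true,116,149,.leaf [(0,49),(1,286),(3,78),(4,1)],.leaf [(0,49),(1,286),(3,78),(4,1)]⟩,
⟨⟨⟨-183,-86,-198⟩,⟨138,153,-194⟩,⟨166,-222,-57⟩⟩,true,118,15,.leaf [(0,35),(5,1),(11,1),(18,35)],.leaf [(0,11886),(4,65),(7,112),(10,7075)]⟩,
⟨⟨⟨-183,-86,198⟩,⟨-138,-153,-194⟩,⟨166,-222,57⟩⟩,true,118,268,.leaf [(2,80089),(4,291),(5,252),(7,308)],.leaf [(2,80089),(4,291),(5,252),(7,308)]⟩,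
⟨⟨⟨57,274,42⟩,⟨-78,57,-266⟩,⟨-266,42,87⟩⟩,true,119,105,.leaf [(4,4992),(5,8352),(14,2785),(18,80089)],.leaf [(1,144),(2,104),(4,1),(10,113)]⟩,
⟨⟨⟨57,274,-42⟩,⟨78,-57,-266⟩,⟨-266,42,-87⟩⟩,true,119,178,.leaf [(0,160178),(4,1050),(5,811),(15,195)],.leaf [(0,33677),(4,222),(5,124),(10,11037)]⟩,
⟨⟨⟨-167,-114,-198⟩,⟨222,-23,-174⟩,⟨54,-258,103⟩⟩,true,121,91,.leaf [(4,3780),(6,3543),(15,2296),(18,80089)],.leaf [(4,51),(6,890),(7,100),(10,80089)]⟩,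
⟨⟨⟨-167,-114,198⟩,⟨222,-23,174⟩,⟨-54,258,103⟩⟩,true,121,192,.leaf [(0,82),(2,290),(3,95),(5,1)],.leaf [(0,82),(2,290),(3,95),(5,1)]⟩,
⟨⟨⟨-23,-282,-6⟩,⟨246,-23,138⟩,⟨-138,6,247⟩⟩,true,123,111,.leaf [(0,80089),(4,77),(5,144),(6,192)],.leaf [(0,80089),(4,77),(5,144),(6,192)]⟩,
⟨⟨⟨-23,-282,6⟩,⟨246,-23,-138⟩,⟨138,-6,247⟩⟩,true,123,172,.leaf [(0,80089),(5,124),(6,202),(14,67)],.leaf [(0,231),(2,41),(6,1),(10,33)]⟩,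
⟨⟨⟨121,-198,-162⟩,⟨198,-41,198⟩,⟨-162,-198,121⟩⟩,true,127,1,.leaf [(1,11603),(3,80089),(4,239),(6,157)],.leaf [(1,11603),(3,80089),(4,239),(6,157)]⟩,
⟨⟨⟨121,-198,162⟩,⟨198,-41,-198⟩,⟨162,198,121⟩⟩,true,127,282,.leaf [(0,198),(1,41),(2,198),(5,1)],.leaf [(0,198),(1,41),(2,198),(5,1)]⟩,
⟨⟨⟨-23,-114,258⟩,⟨222,-167,-54⟩,⟨174,198,103⟩⟩,true,128,38,.leaf [(1,20),(2,312),(3,135),(5,1)],.leaf [(1,20),(2,312),(3,135),(5,1)]⟩,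
⟨⟨⟨-23,-114,-258⟩,⟨222,-167,54⟩,⟨-174,-198,103⟩⟩,true,128,245,.leaf [(1,7),(2,53),(3,305),(4,1)],.leaf [(1,7),(2,53),(3,305),(4,1)]⟩,
⟨⟨⟨279,42,22⟩,⟨22,-231,162⟩,⟨42,-158,-231⟩⟩,true,131,136,.leaf [(1,62),(2,273),(3,78),(4,1)],.leaf [(1,62),(2,273),(3,78),(4,1)]⟩,
⟨⟨⟨-279,-42,22⟩,⟨22,-231,-162⟩,⟨42,-158,231⟩⟩,true,131,147,.leaf [(3,637599),(4,531),(15,551),(18,59713)],.leaf [(0,115),(3,112),(4,1),(10,74)]⟩,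
⟨⟨⟨57,166,-222⟩,⟨198,-183,-86⟩,⟨-194,-138,-153⟩⟩,true,132,11,.leaf [(0,313),(1,136),(2,36),(4,1)],.leaf [(0,313),(1,136),(2,36),(4,1)]⟩,
⟨⟨⟨57,166,222⟩,⟨-198,183,-86⟩,⟨-194,-138,153⟩⟩,true,132,272,.leaf [(1,186),(3,77),(7,1),(10,28)],.leaf [(1,246210),(3,104993),(7,901),(14,28)]⟩,
⟨⟨⟨153,126,202⟩,⟨238,-87,-126⟩,⟨6,238,-153⟩⟩,true,134,116,.leaf [(1,48),(2,112),(3,307),(5,1)],.leaf [(1,48),(2,112),(3,307),(5,1)]⟩,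
⟨⟨⟨-153,-126,202⟩,⟨238,-87,126⟩,⟨6,238,153⟩⟩,true,134,167,.leaf [(0,78),(2,286),(3,49),(5,1)],.leaf [(0,78),(2,286),(3,49),(5,1)]⟩,
⟨⟨⟨105,-258,-50⟩,⟨-158,-105,210⟩,⟨-210,-50,-183⟩⟩,true,135,13,.leaf [(2,3113),(3,7358),(4,15),(5,26)],.leaf [(2,3113),(3,7358),(4,15),(5,26)]⟩,
⟨⟨⟨-105,258,-50⟩,⟨-158,-105,-210⟩,⟨-210,-50,183⟩⟩,true,135,270,.leaf [(0,3679),(2,2264),(4,13),(6,8)],.leaf [(0,3679),(2,2264),(4,13),(6,8)]⟩,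
⟨⟨⟨279,22,42⟩,⟨42,-231,-158⟩,⟨22,162,-231⟩⟩,true,136,131,.leaf [(0,6509),(1,3679),(4,13),(5,23)],.leaf [(0,6509),(1,3679),(4,13),(5,23)]⟩,
⟨⟨⟨279,22,-42⟩,⟨-42,231,-158⟩,⟨22,162,231⟩⟩,true,136,152,.leaf [(3,80089),(5,42),(7,245),(15,50)],.leaf [(0,85),(3,234),(5,2),(10,195)]⟩,
⟨⟨⟨-23,222,-174⟩,⟨-114,-167,-198⟩,⟨-258,54,103⟩⟩,true,138,106,.leaf [(0,17263),(2,16980),(4,71),(7,24)],.leaf [(0,17263),(2,16980),(4,71),(7,24)]⟩,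
⟨⟨⟨-23,222,174⟩,⟨-114,-167,198⟩,⟨258,-54,103⟩⟩,true,138,177,.leaf [(0,161),(1,24),(2,228),(4,1)],.leaf [(0,161),(1,24),(2,228),(4,1)]⟩,
⟨⟨⟨-183,-50,210⟩,⟨-210,105,-158⟩,⟨-50,-258,-105⟩⟩,true,141,87,.leaf [(1,15),(2,308),(3,90),(7,1)],.leaf [(1,15),(2,308),(3,90),(7,1)]⟩,
⟨⟨⟨-183,-50,-210⟩,⟨210,-105,-158⟩,⟨-50,-258,105⟩⟩,true,141,196,.leaf [(0,19527),(4,113),(7,91),(11,3679)],.leaf [(0,264039),(4,1082),(7,676),(10,3679)]⟩,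
⟨⟨⟨183,-50,-210⟩,⟨-210,-105,-158⟩,⟨-50,258,-105⟩⟩,true,142,87,.leaf [(4,360),(5,945),(11,80089),(14,8)],.leaf [(2,242248),(4,977),(5,624),(10,3679)]⟩,
⟨⟨⟨183,-50,210⟩,⟨210,105,-158⟩,⟨-50,258,105⟩⟩,true,142,196,.leaf [(0,308),(1,90),(3,15),(5,1)],.leaf [(0,308),(1,90),(3,15),(5,1)]⟩,
⟨⟨⟨-23,-222,-174⟩,⟨114,-167,198⟩,⟨-258,-54,103⟩⟩,true,145,106,.leaf [(1,5660),(3,41601),(4,168),(5,55)],.leaf [(1,5660),(3,41601),(4,168),(5,55)]⟩,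
⟨⟨⟨-23,-222,174⟩,⟨114,-167,-198⟩,⟨258,54,103⟩⟩,true,145,177,.leaf [(0,33),(1,71),(2,243),(5,1)],.leaf [(0,33),(1,71),(2,243),(5,1)]⟩,
⟨⟨⟨-279,22,-42⟩,⟨42,231,-158⟩,⟨22,-162,-231⟩⟩,true,147,131,.leaf [(2,1017951),(5,8244),(14,2482),(18,59713)],.leaf [(1,1994301),(7,4863),(10,790985),(22,55)]⟩,
⟨⟨⟨-279,22,42⟩,⟨-42,-231,-158⟩,⟨22,-162,231⟩⟩,true,147,152,.leaf [(2,6509),(3,3679),(4,13),(7,23)],.leaf [(2,6509),(3,3679),(4,13),(7,23)]⟩,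
⟨⟨⟨105,258,-50⟩,⟨-158,105,210⟩,⟨210,-50,183⟩⟩,true,148,13,.leaf [(0,75),(1,260),(2,78),(4,1)],.leaf [(0,75),(1,260),(2,78),(4,1)]⟩,
⟨⟨⟨-105,-258,-50⟩,⟨-158,105,-210⟩,⟨210,-50,-183⟩⟩,true,148,270,.leaf [(0,13),(1,133),(2,195),(5,1)],.leaf [(0,13),(1,133),(2,195),(5,1)]⟩,
⟨⟨⟨153,-126,202⟩,⟨238,87,-126⟩,⟨-6,238,153⟩⟩,true,149,116,.leaf [(0,286),(1,49),(2,78),(5,1)],.leaf [(0,286),(1,49),(2,78),(5,1)]⟩,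
⟨⟨⟨-153,126,202⟩,⟨238,87,126⟩,⟨-6,238,-153⟩⟩,true,149,167,.leaf [(0,35941),(3,52638),(4,307),(5,214)],.leaf [(0,35941),(3,52638),(4,307),(5,214)]⟩,
⟨⟨⟨-57,166,222⟩,⟨198,183,-86⟩,⟨-194,138,-153⟩⟩,true,151,11,.leaf [(1,49),(3,214),(5,1),(10,28)],.leaf [(1,25753),(3,45280),(5,190),(15,7)]⟩,
⟨⟨⟨-57,166,-222⟩,⟨-198,-183,-86⟩,⟨-194,138,153⟩⟩,true,151,272,.leaf [(0,36),(2,313),(3,136),(4,1)],.leaf [(0,36),(2,313),(3,136),(4,1)]⟩,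
⟨⟨⟨279,-42,22⟩,⟨22,231,162⟩,⟨-42,-158,231⟩⟩,true,152,136,.leaf [(2,80089),(4,42),(6,245),(14,50)],.leaf [(1,408),(2,41),(6,1),(10,148)]⟩,
⟨⟨⟨-279,42,22⟩,⟨22,231,-162⟩,⟨-42,-158,-231⟩⟩,true,152,147,.leaf [(2,3679),(3,6509),(5,13),(6,23)],.leaf [(2,3679),(3,6509),(5,13),(6,23)]⟩,
⟨⟨⟨-23,114,258⟩,⟨-222,-167,54⟩,⟨174,-198,103⟩⟩,true,155,38,.leaf [(1,80089),(4,33),(5,71),(6,243)],.leaf [(1,80089),(4,33),(5,71),(6,243)]⟩,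
⟨⟨⟨-23,114,-258⟩,⟨-222,-167,-54⟩,⟨-174,198,103⟩⟩,true,155,245,.leaf [(1,61),(2,281),(3,143),(4,1)],.leaf [(1,61),(2,281),(3,143),(4,1)]⟩,
⟨⟨⟨121,198,-162⟩,⟨-198,-41,-198⟩,⟨-162,198,121⟩⟩,true,156,1,.leaf [(0,239),(1,41),(2,157),(7,1)],.leaf [(0,239),(1,41),(2,157),(7,1)]⟩,
⟨⟨⟨121,198,162⟩,⟨-198,-41,198⟩,⟨162,-198,121⟩⟩,true,156,282,.leaf [(1,10188),(2,11603),(4,63),(6,22)],.leaf [(1,10188),(2,11603),(4,63),(6,22)]⟩,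
⟨⟨⟨-23,282,-6⟩,⟨-246,-23,-138⟩,⟨-138,-6,247⟩⟩,true,160,111,.leaf [(2,40752),(7,639),(11,44431),(14,128)],.leaf [(0,8),(2,264),(4,1),(10,33)]⟩,
⟨⟨⟨-23,282,6⟩,⟨-246,-23,138⟩,⟨138,6,247⟩⟩,true,160,172,.leaf [(1,25),(2,305),(3,107),(4,1)],.leaf [(1,25),(2,305),(3,107),(4,1)]⟩,
⟨⟨⟨-167,114,-198⟩,⟨-222,-23,174⟩,⟨54,258,103⟩⟩,true,162,91,.leaf [(0,137),(1,282),(3,90),(4,1)],.leaf [(0,137),(1,282),(3,90),(4,1)]⟩,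
⟨⟨⟨-167,114,198⟩,⟨-222,-23,-174⟩,⟨-54,-258,103⟩⟩,true,162,192,.leaf [(2,71),(6,1),(10,32),(18,26)],.leaf [(1,163008),(4,819),(10,116879),(14,4)]⟩,
⟨⟨⟨-57,274,-42⟩,⟨-78,-57,-266⟩,⟨-266,-42,87⟩⟩,true,164,105,.leaf [(2,80089),(4,200),(7,48),(14,65)],.leaf [(2,68486),(4,355),(7,132),(10,18395)]⟩,
⟨⟨⟨-57,274,42⟩,⟨78,57,-266⟩,⟨-266,-42,-87⟩⟩,true,164,178,.leaf [(4,3183),(5,7704),(14,2692),(18,80089)],.leaf [(4,1085),(5,231),(7,355),(10,80089)]⟩,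
⟨⟨⟨183,-86,198⟩,⟨138,-153,-194⟩,⟨166,222,-57⟩⟩,true,165,15,.leaf [(0,290),(1,255),(2,18),(5,1)],.leaf [(0,290),(1,255),(2,18),(5,1)]⟩,
⟨⟨⟨183,-86,-198⟩,⟨-138,153,-194⟩,⟨166,222,57⟩⟩,true,165,268,.leaf [(4,3291),(5,1872),(14,232),(18,80089)],.leaf [(4,485),(5,915),(7,631),(10,80089)]⟩,
⟨⟨⟨-153,202,-126⟩,⟨6,153,238⟩,⟨238,126,-87⟩⟩,true,167,134,.leaf [(1,78),(2,49),(3,286),(4,1)],.leaf [(1,78),(2,49),(3,286),(4,1)]⟩,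
⟨⟨⟨-153,202,126⟩,⟨-6,-153,238⟩,⟨238,126,87⟩⟩,true,167,149,.leaf [(0,307),(1,112),(2,48),(4,1)],.leaf [(0,307),(1,112),(2,48),(4,1)]⟩,
⟨⟨⟨-167,-90,210⟩,⟨-90,265,42⟩,⟨-210,-42,-185⟩⟩,true,170,75,.leaf [(0,48),(1,200),(3,195),(5,1)],.leaf [(0,48),(1,200),(3,195),(5,1)]⟩,
⟨⟨⟨-167,-90,-210⟩,⟨-90,265,-42⟩,⟨210,42,-185⟩⟩,true,170,208,.leaf [(1,80089),(4,48),(5,200),(7,195)],.leaf [(1,80089),(4,48),(5,200),(7,195)]⟩,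
⟨⟨⟨-23,6,-282⟩,⟨138,247,-6⟩,⟨246,-138,-23⟩⟩,true,172,123,.leaf [(1,80089),(4,124),(7,202),(15,67)],.leaf [(1,5400),(3,4587),(10,1744),(23,1)]⟩,
⟨⟨⟨-23,6,282⟩,⟨138,247,6⟩,⟨-246,138,-23⟩⟩,true,172,160,.leaf [(0,25),(2,107),(3,305),(5,1)],.leaf [(0,25),(2,107),(3,305),(5,1)]⟩,
⟨⟨⟨-105,-158,-210⟩,⟨258,-105,-50⟩,⟨-50,-210,183⟩⟩,true,174,2,.leaf [(0,4245),(3,4528),(4,31),(7,16)],.leaf [(0,4245),(3,4528),(4,31),(7,16)]⟩,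
⟨⟨⟨-105,-158,210⟩,⟨-258,105,-50⟩,⟨-50,-210,-183⟩⟩,true,174,281,.leaf [(1,21791),(3,14716),(5,92),(7,13)],.leaf [(1,21791),(3,14716),(5,92),(7,13)]⟩,
⟨⟨⟨-23,174,222⟩,⟨258,103,-54⟩,⟨-114,198,-167⟩⟩,true,177,138,.leaf [(0,17263),(3,50091),(4,161),(5,243)],.leaf [(0,17263),(3,50091),(4,161),(5,243)]⟩,
⟨⟨⟨-23,174,-222⟩,⟨258,103,54⟩,⟨114,-198,-167⟩⟩,true,177,145,.leaf [(0,71),(1,33),(3,243),(4,1)],.leaf [(0,71),(1,33),(3,243),(4,1)]⟩,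
⟨⟨⟨57,-42,274⟩,⟨-266,-87,42⟩,⟨78,-266,-57⟩⟩,true,178,119,.leaf [(1,160178),(4,811),(5,1050),(14,195)],.leaf [(1,19683),(10,3105),(26,437),(31,1)]⟩,
⟨⟨⟨-57,42,274⟩,⟨-266,-87,-42⟩,⟨78,-266,57⟩⟩,true,178,164,.leaf [(4,2691),(5,2424),(15,8),(18,80089)],.leaf [(1,227532),(4,645),(10,104710),(14,23)]⟩,
⟨⟨⟨153,-194,138⟩,⟨-222,-57,166⟩,⟨-86,-198,-183⟩⟩,true,180,12,.leaf [(1,3962),(3,27451),(5,98),(7,1)],.leaf [(1,3962),(3,27451),(5,98),(7,1)]⟩,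
⟨⟨⟨153,-194,-138⟩,⟨222,57,166⟩,⟨-86,-198,183⟩⟩,true,180,271,.leaf [(0,21791),(1,14150),(4,35),(7,78)],.leaf [(0,21791),(1,14150),(4,35),(7,78)]⟩,
⟨⟨⟨-167,54,-222⟩,⟨-198,103,174⟩,⟨114,258,-23⟩⟩,true,181,42,.leaf [(1,45563),(3,25470),(4,204),(5,49)],.leaf [(1,45563),(3,25470),(4,204),(5,49)]⟩,
⟨⟨⟨-167,54,222⟩,⟨-198,103,-174⟩,⟨-114,-258,-23⟩⟩,true,181,241,.leaf [(1,51),(2,100),(3,890),(15,1)],.leaf [(1,184437),(10,50400),(26,2576),(31,5)]⟩,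
⟨⟨⟨-231,-158,42⟩,⟨162,-231,22⟩,⟨22,42,279⟩⟩,true,182,77,.leaf [(2,80089),(4,69),(5,261),(7,197)],.leaf [(2,80089),(4,69),(5,261),(7,197)]⟩,
⟨⟨⟨-231,-158,-42⟩,⟨-162,231,22⟩,⟨22,42,-279⟩⟩,true,182,206,.leaf [(0,92),(1,237),(2,108),(5,1)],.leaf [(0,92),(1,237),(2,108),(5,1)]⟩,
⟨⟨⟨57,-266,-78⟩,⟨42,87,-266⟩,⟨274,42,57⟩⟩,true,184,88,.leaf [(5,585),(7,624),(11,80089),(15,10)],.leaf [(0,47),(2,1050),(5,4),(10,135)]⟩,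
⟨⟨⟨57,-266,78⟩,⟨-42,-87,-266⟩,⟨274,42,-57⟩⟩,true,184,195,.leaf [(1,22),(2,308),(3,113),(5,1)],.leaf [(1,22),(2,308),(3,113),(5,1)]⟩,
⟨⟨⟨265,-42,-90⟩,⟨42,-185,210⟩,⟨-90,-210,-167⟩⟩,true,191,5,.leaf [(0,110),(1,300),(2,33),(4,1)],.leaf [(0,110),(1,300),(2,33),(4,1)]⟩,
⟨⟨⟨265,-42,90⟩,⟨42,-185,-210⟩,⟨90,210,-167⟩⟩,true,191,278,.leaf [(0,10754),(1,6509),(4,10),(5,37)],.leaf [(0,10754),(1,6509),(4,10),(5,37)]⟩,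
⟨⟨⟨-167,198,-114⟩,⟨-54,103,258⟩,⟨222,174,-23⟩⟩,true,192,121,.leaf [(1,82),(2,95),(3,290),(4,1)],.leaf [(1,82),(2,95),(3,290),(4,1)]⟩,
⟨⟨⟨-167,198,114⟩,⟨-54,103,-258⟩,⟨-222,-174,-23⟩⟩,true,192,162,.L (.leaf [(4,51354),(15,6900),(22,3565),(26,80089)]) (.leaf [(2,121690),(4,386),(5,585),(11,13301)]) (.leaf [(0,11037),(1,17546),(4,43),(7,18)]),.leaf [(3,30564),(4,2133),(10,206590),(14,5)]⟩,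
⟨⟨⟨201,22,198⟩,⟨-198,-9,202⟩,⟨22,-282,9⟩⟩,true,193,39,.leaf [(1,80089),(4,400),(5,205),(7,192)],.leaf [(1,80089),(4,400),(5,205),(7,192)]⟩,
⟨⟨⟨201,22,-198⟩,⟨198,9,202⟩,⟨22,-282,-9⟩⟩,true,193,244,.leaf [(0,13),(1,208),(3,192),(4,1)],.leaf [(0,13),(1,208),(3,192),(4,1)]⟩,
⟨⟨⟨-57,-78,-266⟩,⟨274,-57,-42⟩,⟨-42,-266,87⟩⟩,true,195,99,.leaf [(3,85749),(4,441),(10,3113),(15,53)],.leaf [(1,3024),(3,1440),(10,1085),(14,1)]⟩,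
⟨⟨⟨57,78,-266⟩,⟨274,-57,42⟩,⟨-42,-266,-87⟩⟩,true,195,184,.leaf [(0,22),(2,113),(3,308),(4,1)],.leaf [(0,22),(2,113),(3,308),(4,1)]⟩,
⟨⟨⟨-183,-210,-50⟩,⟨-50,105,-258⟩,⟨210,-158,-105⟩⟩,true,196,141,.leaf [(1,19527),(5,113),(6,91),(10,3679)],.leaf [(1,480534),(5,2033),(6,1300),(23,13)]⟩,
⟨⟨⟨183,210,-50⟩,⟨-50,105,258⟩,⟨210,-158,105⟩⟩,true,196,142,.leaf [(0,90),(1,308),(2,15),(4,1)],.leaf [(0,90),(1,308),(2,15),(4,1)]⟩,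
⟨⟨⟨103,198,-174⟩,⟨-54,-167,-222⟩,⟨-258,114,-23⟩⟩,true,197,67,.leaf [(0,31696),(2,55185),(4,197),(7,48)],.leaf [(0,31696),(2,55185),(4,197),(7,48)]⟩,
⟨⟨⟨103,198,174⟩,⟨-54,-167,222⟩,⟨258,-114,-23⟩⟩,true,197,216,.leaf [(0,80),(2,285),(3,48),(4,1)],.leaf [(0,80),(2,285),(3,48),(4,1)]⟩,
⟨⟨⟨-185,-210,-42⟩,⟨210,-167,-90⟩,⟨42,-90,265⟩⟩,true,200,40,.leaf [(0,80089),(4,143),(6,201),(14,33)],.leaf [(0,168),(2,176),(6,1),(10,33)]⟩,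
⟨⟨⟨-185,-210,42⟩,⟨210,-167,90⟩,⟨-42,90,265⟩⟩,true,200,243,.leaf [(0,80089),(4,242),(5,132),(6,135)],.leaf [(0,80089),(4,242),(5,132),(6,135)]⟩,
⟨⟨⟨-57,-194,198⟩,⟨222,-153,-86⟩,⟨166,138,183⟩⟩,true,202,71,.leaf [(0,62),(1,15),(2,270),(5,1)],.leaf [(0,62),(1,15),(2,270),(5,1)]⟩,
⟨⟨⟨-57,-194,-198⟩,⟨-222,153,-86⟩,⟨166,138,-183⟩⟩,true,202,212,.leaf [(0,2264),(2,29715),(4,15),(5,112)],.leaf [(0,2264),(2,29715),(4,15),(5,112)]⟩,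
⟨⟨⟨-41,-198,198⟩,⟨198,121,162⟩,⟨-198,162,121⟩⟩,true,205,78,.leaf [(0,297),(1,77),(2,63),(5,1)],.leaf [(0,297),(1,77),(2,63),(5,1)]⟩,
⟨⟨⟨-41,-198,-198⟩,⟨198,121,-162⟩,⟨198,-162,121⟩⟩,true,205,205,.leaf [(0,206307),(14,459),(18,62543),(22,13)],.leaf [(5,324),(6,675),(10,80089),(14,50)]⟩,
⟨⟨⟨231,42,-158⟩,⟨22,-279,-42⟩,⟨-162,22,-231⟩⟩,true,206,101,.leaf [(1,2),(2,321),(3,114),(4,1)],.leaf [(1,2),(2,321),(3,114),(4,1)]⟩,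
⟨⟨⟨-231,-42,-158⟩,⟨22,-279,42⟩,⟨-162,22,231⟩⟩,true,206,182,.leaf [(0,237),(1,92),(3,108),(4,1)],.leaf [(0,237),(1,92),(3,108),(4,1)]⟩,
⟨⟨⟨-167,-210,90⟩,⟨210,-185,-42⟩,⟨90,42,265⟩⟩,true,208,113,.leaf [(0,3113),(2,1132),(4,4),(6,11)],.leaf [(0,3113),(2,1132),(4,4),(6,11)]⟩,
⟨⟨⟨-167,-210,-90⟩,⟨210,-185,42⟩,⟨-90,-42,265⟩⟩,true,208,170,.leaf [(0,80089),(4,200),(5,48),(6,195)],.leaf [(0,80089),(4,200),(5,48),(6,195)]⟩,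
⟨⟨⟨57,198,-194⟩,⟨166,-183,-138⟩,⟨-222,-86,-153⟩⟩,true,212,81,.leaf [(0,273),(1,56),(2,108),(4,1)],.leaf [(0,273),(1,56),(2,108),(4,1)]⟩,
⟨⟨⟨-57,-198,-194⟩,⟨166,-183,138⟩,⟨-222,-86,153⟩⟩,true,212,202,.leaf [(1,2264),(3,29715),(4,112),(5,15)],.leaf [(1,2264),(3,29715),(4,112),(5,15)]⟩,
⟨⟨⟨153,-86,222⟩,⟨-138,183,166⟩,⟨-194,-198,57⟩⟩,true,214,7,.leaf [(0,86032),(1,90843),(5,23),(7,312)],.leaf [(0,86032),(1,90843),(5,23),(7,312)]⟩,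
⟨⟨⟨153,-86,-222⟩,⟨138,-183,166⟩,⟨-194,-198,-57⟩⟩,true,214,276,.leaf [(0,97),(1,250),(3,138),(4,1)],.leaf [(0,97),(1,250),(3,138),(4,1)]⟩,
⟨⟨⟨103,174,-198⟩,⟨258,-23,114⟩,⟨54,-222,-167⟩⟩,true,216,86,.leaf [(0,20),(2,177),(3,312),(4,1)],.leaf [(0,20),(2,177),(3,312),(4,1)]⟩,
⟨⟨⟨103,174,198⟩,⟨258,-23,-114⟩,⟨-54,222,-167⟩⟩,true,216,197,.leaf [(2,7924),(3,24055),(4,20),(5,83)],.leaf [(2,7924),(3,24055),(4,20),(5,83)]⟩,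
⟨⟨⟨-9,-282,22⟩,⟨202,9,198⟩,⟨-198,22,201⟩⟩,true,220,29,.leaf [(0,11886),(4,915),(15,476),(18,27451)],.leaf [(3,203477),(4,576),(5,745),(10,58864)]⟩,
⟨⟨⟨9,282,22⟩,⟨202,9,-198⟩,⟨-198,22,-201⟩⟩,true,220,254,.leaf [(0,80089),(4,343),(5,220),(6,150)],.leaf [(0,80089),(4,343),(5,220),(6,150)]⟩,
⟨⟨⟨-87,-266,-42⟩,⟨42,-57,274⟩,⟨-266,78,57⟩⟩,true,221,20,.leaf [(0,28300),(1,3113),(4,44),(5,109)],.leaf [(0,28300),(1,3113),(4,44),(5,109)]⟩,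
⟨⟨⟨-87,-266,42⟩,⟨-42,57,274⟩,⟨-266,78,-57⟩⟩,true,221,263,.leaf [(0,311),(1,99),(2,33),(5,1)],.leaf [(0,311),(1,99),(2,33),(5,1)]⟩,
⟨⟨⟨153,6,238⟩,⟨202,-153,-126⟩,⟨126,238,-87⟩⟩,true,222,33,.leaf [(0,232),(1,265),(3,60),(5,1)],.leaf [(0,232),(1,265),(3,60),(5,1)]⟩,
⟨⟨⟨-153,-6,238⟩,⟨202,-153,126⟩,⟨126,238,87⟩⟩,true,222,250,.leaf [(2,88579),(3,35941),(4,93),(5,307)],.leaf [(2,88579),(3,35941),(4,93),(5,307)]⟩,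
⟨⟨⟨87,-126,238⟩,⟨238,153,-6⟩,⟨-126,202,153⟩⟩,true,223,19,.leaf [(0,313),(1,85),(2,15),(5,1)],.leaf [(0,313),(1,85),(2,15),(5,1)]⟩,
⟨⟨⟨-87,126,238⟩,⟨238,153,6⟩,⟨-126,202,-153⟩⟩,true,223,264,.leaf [(0,76),(1,214),(3,177),(5,1)],.leaf [(0,76),(1,214),(3,177),(5,1)]⟩,
⟨⟨⟨-231,22,162⟩,⟨42,279,22⟩,⟨-158,42,-231⟩⟩,true,229,14,.leaf [(0,20),(1,243),(3,150),(5,1)],.leaf [(0,20),(1,243),(3,150),(5,1)]⟩,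
⟨⟨⟨-231,22,-162⟩,⟨-42,-279,22⟩,⟨-158,42,231⟩⟩,true,229,269,.leaf [(0,301),(1,148),(3,36),(4,1)],.leaf [(0,301),(1,148),(3,36),(4,1)]⟩,
⟨⟨⟨247,138,6⟩,⟨6,-23,282⟩,⟨138,-246,-23⟩⟩,true,232,47,.leaf [(0,98),(1,276),(2,63),(4,1)],.leaf [(0,98),(1,276),(2,63),(4,1)]⟩,
⟨⟨⟨247,138,-6⟩,⟨6,-23,-282⟩,⟨-138,246,-23⟩⟩,true,232,236,.leaf [(0,80089),(4,29),(5,261),(7,123)],.leaf [(0,80089),(4,29),(5,261),(7,123)]⟩,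
⟨⟨⟨247,-6,-138⟩,⟨-138,-23,-246⟩,⟨-6,282,-23⟩⟩,true,236,51,.leaf [(0,1981),(2,1415),(5,7),(7,5)],.leaf [(0,1981),(2,1415),(5,7),(7,5)]⟩,
⟨⟨⟨247,-6,138⟩,⟨-138,-23,246⟩,⟨6,-282,-23⟩⟩,true,236,232,.leaf [(1,80089),(4,261),(5,29),(6,123)],.leaf [(1,80089),(4,261),(5,29),(6,123)]⟩,
⟨⟨⟨247,-78,114⟩,⟨114,247,-78⟩,⟨-78,114,247⟩⟩,true,238,44,.leaf [(3,566283),(5,369),(14,473),(18,59713)],.leaf [(0,251),(3,266),(5,2),(10,133)]⟩,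
⟨⟨⟨247,-78,-114⟩,⟨114,247,78⟩,⟨78,-114,247⟩⟩,true,238,239,.leaf [(3,2264),(6,4),(10,283),(14,3)],.leaf [(1,2187),(3,948),(10,952),(15,1)]⟩,
⟨⟨⟨247,-114,78⟩,⟨78,247,114⟩,⟨-114,-78,247⟩⟩,true,239,45,.R (.leaf [(0,108),(3,117),(18,20),(27,1)]) (.leaf [(0,189),(3,144),(18,32),(26,1)]) (.leaf [(0,18009),(3,2196),(18,2294),(30,1)]),.leaf [(3,127350),(5,702),(10,16697),(14,175)]⟩,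
⟨⟨⟨247,-114,-78⟩,⟨78,247,-114⟩,⟨114,78,247⟩⟩,true,239,238,.leaf [(2,2264),(7,4),(11,283),(15,3)],.leaf [(0,325),(2,118),(5,4),(10,325)]⟩,
⟨⟨⟨-167,222,-54⟩,⟨-114,-23,258⟩,⟨198,174,103⟩⟩,true,241,102,.leaf [(1,7),(2,245),(3,305),(4,1)],.leaf [(1,7),(2,245),(3,305),(4,1)]⟩,
⟨⟨⟨-167,222,54⟩,⟨-114,-23,-258⟩,⟨-198,-174,103⟩⟩,true,241,181,.leaf [(0,51),(2,890),(3,100),(14,1)],.leaf [(0,71),(2,96),(4,1),(10,78)]⟩,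
⟨⟨⟨183,138,166⟩,⟨-86,-153,222⟩,⟨198,-194,-57⟩⟩,true,242,4,.leaf [(0,39),(1,56),(2,252),(4,1)],.leaf [(0,39),(1,56),(2,252),(4,1)]⟩,
⟨⟨⟨-183,-138,166⟩,⟨-86,-153,-222⟩,⟨198,-194,57⟩⟩,true,242,279,.leaf [(5,2745),(6,1455),(15,631),(18,80089)],.leaf [(1,10521657),(15,12744),(26,443744),(31,175)]⟩,
⟨⟨⟨-185,42,210⟩,⟨-42,265,-90⟩,⟨-210,-90,-167⟩⟩,true,243,83,.leaf [(5,4806),(7,1254),(14,2147),(18,80089)],.leaf [(1,2592),(3,1857),(10,928),(15,1)]⟩,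
⟨⟨⟨-185,42,-210⟩,⟨-42,265,90⟩,⟨210,90,-167⟩⟩,true,243,200,.leaf [(1,80089),(4,132),(5,242),(7,135)],.leaf [(1,80089),(4,132),(5,242),(7,135)]⟩,
⟨⟨⟨-201,198,22⟩,⟨22,-9,282⟩,⟨198,202,-9⟩⟩,true,244,90,.leaf [(0,85),(2,122),(3,260),(4,1)],.leaf [(0,85),(2,122),(3,260),(4,1)]⟩,
⟨⟨⟨201,-198,22⟩,⟨22,-9,-282⟩,⟨198,202,9⟩⟩,true,244,193,.leaf [(0,208),(1,13),(2,192),(5,1)],.leaf [(0,208),(1,13),(2,192),(5,1)]⟩,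
⟨⟨⟨-23,-258,-114⟩,⟨-174,103,-198⟩,⟨222,54,-167⟩⟩,true,245,128,.leaf [(0,7),(2,305),(3,53),(5,1)],.leaf [(0,7),(2,305),(3,53),(5,1)]⟩,
⟨⟨⟨-23,-258,114⟩,⟨-174,103,198⟩,⟨-222,-54,-167⟩⟩,true,245,155,.leaf [(0,61),(2,143),(3,281),(5,1)],.leaf [(0,61),(2,143),(3,281),(5,1)]⟩,
⟨⟨⟨-153,238,6⟩,⟨-126,-87,238⟩,⟨202,126,153⟩⟩,true,250,61,.leaf [(0,292),(1,232),(2,33),(4,1)],.leaf [(0,292),(1,232),(2,33),(4,1)]⟩,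
⟨⟨⟨-153,238,-6⟩,⟨126,87,238⟩,⟨202,126,-153⟩⟩,true,250,222,.leaf [(0,93),(2,58),(3,244),(4,1)],.leaf [(0,93),(2,58),(3,244),(4,1)]⟩,
⟨⟨⟨9,22,-282⟩,⟨198,201,22⟩,⟨202,-198,-9⟩⟩,true,254,63,.leaf [(3,80089),(4,261),(7,29),(14,41)],.leaf [(0,189),(3,70),(7,2),(10,163)]⟩,
⟨⟨⟨9,22,282⟩,⟨-198,-201,22⟩,⟨202,-198,9⟩⟩,true,254,220,.leaf [(1,80089),(4,220),(5,343),(7,150)],.leaf [(1,80089),(4,220),(5,343),(7,150)]⟩,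
⟨⟨⟨103,-54,258⟩,⟨198,-167,-114⟩,⟨174,222,-23⟩⟩,true,255,8,.leaf [(0,243),(1,281),(2,33),(5,1)],.leaf [(0,243),(1,281),(2,33),(5,1)]⟩,
⟨⟨⟨103,-54,-258⟩,⟨198,-167,114⟩,⟨-174,-222,-23⟩⟩,true,255,275,.leaf [(1,82),(2,113),(3,290),(4,1)],.leaf [(1,82),(2,113),(3,290),(4,1)]⟩,
⟨⟨⟨-23,246,-138⟩,⟨-282,-23,6⟩,⟨-6,138,247⟩⟩,true,260,6,.leaf [(1,67),(2,269),(3,77),(4,1)],.leaf [(1,67),(2,269),(3,77),(4,1)]⟩,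
⟨⟨⟨-23,246,138⟩,⟨-282,-23,-6⟩,⟨6,-138,247⟩⟩,true,260,277,.leaf [(4,5400),(6,4587),(15,1744),(18,80089)],.leaf [(1,124),(2,202),(4,1),(10,67)]⟩,
⟨⟨⟨-9,198,202⟩,⟨22,-201,198⟩,⟨282,22,-9⟩⟩,true,261,9,.leaf [(0,44431),(2,39054),(4,211),(5,4)],.leaf [(0,44431),(2,39054),(4,211),(5,4)]⟩,
⟨⟨⟨9,-198,202⟩,⟨22,-201,-198⟩,⟨282,22,9⟩⟩,true,261,274,.leaf [(0,70),(1,193),(2,150),(5,1)],.leaf [(0,70),(1,193),(2,150),(5,1)]⟩,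
⟨⟨⟨87,-42,-266⟩,⟨-266,-57,-78⟩,⟨-42,274,-57⟩⟩,true,263,62,.leaf [(1,6509),(2,25470),(4,118),(5,75)],.leaf [(1,6509),(2,25470),(4,118),(5,75)]⟩,
⟨⟨⟨-87,42,-266⟩,⟨-266,-57,78⟩,⟨-42,274,57⟩⟩,true,263,221,.leaf [(0,99),(1,311),(3,33),(4,1)],.leaf [(0,99),(1,311),(3,33),(4,1)]⟩,
⟨⟨⟨-87,238,-126⟩,⟨126,153,202⟩,⟨238,6,-153⟩⟩,true,264,60,.leaf [(1,15),(2,85),(3,313),(4,1)],.leaf [(1,15),(2,85),(3,313),(4,1)]⟩,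
⟨⟨⟨-87,238,126⟩,⟨-126,-153,202⟩,⟨238,6,153⟩⟩,true,264,223,.leaf [(0,214),(1,76),(2,177),(4,1)],.leaf [(0,214),(1,76),(2,177),(4,1)]⟩,
⟨⟨⟨-183,198,-86⟩,⟨166,57,-222⟩,⟨-138,-194,-153⟩⟩,true,268,118,.leaf [(3,80089),(4,252),(5,291),(6,308)],.leaf [(3,80089),(4,252),(5,291),(6,308)]⟩,
⟨⟨⟨183,-198,-86⟩,⟨166,57,222⟩,⟨-138,-194,153⟩⟩,true,268,165,.leaf [(4,7875),(5,2640),(15,2576),(18,80089)],.leaf [(3,19527),(5,111),(10,10754),(14,10)]⟩,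
⟨⟨⟨231,162,22⟩,⟨-158,231,-42⟩,⟨-42,22,279⟩⟩,true,269,54,.leaf [(0,170),(1,20),(2,223),(6,1)],.leaf [(0,170),(1,20),(2,223),(6,1)]⟩,
⟨⟨⟨-231,-162,22⟩,⟨-158,231,42⟩,⟨-42,22,-279⟩⟩,true,269,229,.leaf [(0,148),(1,301),(2,36),(5,1)],.leaf [(0,148),(1,301),(2,36),(5,1)]⟩,
⟨⟨⟨-105,-50,258⟩,⟨-210,183,-50⟩,⟨-158,-210,-105⟩⟩,true,270,135,.leaf [(1,3679),(3,2264),(5,13),(7,8)],.leaf [(1,3679),(3,2264),(5,13),(7,8)]⟩,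
⟨⟨⟨-105,-50,-258⟩,⟨210,-183,-50⟩,⟨-158,-210,105⟩⟩,true,270,148,.leaf [(0,133),(1,13),(3,195),(4,1)],.leaf [(0,133),(1,13),(3,195),(4,1)]⟩,
⟨⟨⟨-153,138,-194⟩,⟨-86,183,198⟩,⟨222,166,-57⟩⟩,true,271,103,.leaf [(1,80089),(4,302),(5,279),(6,18)],.leaf [(1,80089),(4,302),(5,279),(6,18)]⟩,
⟨⟨⟨153,-138,-194⟩,⟨-86,183,-198⟩,⟨222,166,57⟩⟩,true,271,180,.leaf [(0,14150),(1,21791),(5,35),(6,78)],.leaf [(0,14150),(1,21791),(5,35),(6,78)]⟩,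
⟨⟨⟨57,222,166⟩,⟨-194,153,-138⟩,⟨-198,-86,183⟩⟩,true,272,132,.leaf [(0,186),(2,77),(6,1),(11,28)],.leaf [(0,249),(2,119),(6,1),(10,7)]⟩,
⟨⟨⟨-57,-222,166⟩,⟨-194,153,138⟩,⟨-198,-86,-183⟩⟩,true,272,151,.leaf [(1,36),(2,136),(3,313),(5,1)],.leaf [(1,36),(2,136),(3,313),(5,1)]⟩,
⟨⟨⟨9,202,198⟩,⟨-282,-9,22⟩,⟨22,-198,201⟩⟩,true,274,22,.leaf [(0,44431),(1,97069),(4,217),(7,339)],.leaf [(0,44431),(1,97069),(4,217),(7,339)]⟩,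
⟨⟨⟨9,202,-198⟩,⟨282,9,22⟩,⟨22,-198,-201⟩⟩,true,274,261,.leaf [(0,193),(1,70),(3,150),(4,1)],.leaf [(0,193),(1,70),(3,150),(4,1)]⟩,
⟨⟨⟨103,-258,54⟩,⟨-174,-23,222⟩,⟨-198,-114,-167⟩⟩,true,275,28,.leaf [(2,5660),(3,23489),(4,28),(5,85)],.leaf [(2,5660),(3,23489),(4,28),(5,85)]⟩,
⟨⟨⟨103,-258,-54⟩,⟨-174,-23,-222⟩,⟨198,114,-167⟩⟩,true,275,255,.leaf [(0,82),(2,290),(3,113),(5,1)],.leaf [(0,82),(2,290),(3,113),(5,1)]⟩,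
⟨⟨⟨-153,222,-86⟩,⟨-194,-57,198⟩,⟨138,166,183⟩⟩,true,276,69,.leaf [(0,261),(1,284),(2,18),(4,1)],.leaf [(0,261),(1,284),(2,18),(4,1)]⟩,
⟨⟨⟨153,-222,-86⟩,⟨-194,-57,-198⟩,⟨138,166,-183⟩⟩,true,276,214,.leaf [(0,250),(1,97),(2,138),(5,1)],.leaf [(0,250),(1,97),(2,138),(5,1)]⟩,
⟨⟨⟨-23,138,-246⟩,⟨6,247,138⟩,⟨282,6,-23⟩⟩,true,277,23,.leaf [(1,54336),(3,30281),(4,144),(7,109)],.leaf [(1,54336),(3,30281),(4,144),(7,109)]⟩,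
⟨⟨⟨-23,138,246⟩,⟨6,247,-138⟩,⟨-282,-6,-23⟩⟩,true,277,260,.leaf [(5,2700),(7,1020),(14,1721),(18,80089)],.leaf [(0,33),(3,173),(7,1),(10,99)]⟩,
⟨⟨⟨265,90,42⟩,⟨90,-167,-210⟩,⟨-42,210,-185⟩⟩,true,278,92,.leaf [(0,10471),(1,2830),(4,23),(5,38)],.leaf [(0,10471),(1,2830),(4,23),(5,38)]⟩,
⟨⟨⟨265,90,-42⟩,⟨90,-167,210⟩,⟨42,-210,-185⟩⟩,true,278,191,.leaf [(0,167),(1,252),(2,90),(4,1)],.leaf [(0,167),(1,252),(2,90),(4,1)]⟩,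
⟨⟨⟨-183,166,138⟩,⟨-198,-57,-194⟩,⟨-86,-222,153⟩⟩,true,279,41,.leaf [(0,39),(1,291),(2,17),(7,1)],.leaf [(0,39),(1,291),(2,17),(7,1)]⟩,
⟨⟨⟨-183,166,-138⟩,⟨198,57,-194⟩,⟨-86,-222,-153⟩⟩,true,279,242,.leaf [(0,4745061),(7,13284),(18,774854),(22,223)],.leaf [(4,917),(5,186),(7,934),(10,80089)]⟩,
⟨⟨⟨105,-210,-158⟩,⟨-50,-183,210⟩,⟨-258,-50,-105⟩⟩,true,281,109,.leaf [(1,36224),(3,21225),(4,160),(5,27)],.leaf [(1,36224),(3,21225),(4,160),(5,27)]⟩,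
⟨⟨⟨-105,210,-158⟩,⟨-50,-183,-210⟩,⟨-258,-50,105⟩⟩,true,281,174,.leaf [(0,21791),(2,14716),(4,92),(6,13)],.leaf [(0,21791),(2,14716),(4,92),(6,13)]⟩,
⟨⟨⟨121,162,-198⟩,⟨162,121,198⟩,⟨198,-198,-41⟩⟩,true,282,127,.leaf [(0,41),(1,198),(3,198),(4,1)],.leaf [(0,41),(1,198),(3,198),(4,1)]⟩,
⟨⟨⟨121,162,198⟩,⟨162,121,-198⟩,⟨-198,198,-41⟩⟩,true,282,156,.leaf [(0,10188),(3,11603),(5,63),(7,22)],.leaf [(0,10188),(3,11603),(5,63),(7,22)]⟩]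

theorem primeOk_283 : PrimeOk 283 := primeOk (by norm_num) (by norm_num) (by norm_num) L283
  (by decide +kernel) (by decide +kernel)

end Pool.Agent.Lib.H63.TSP
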