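import Mathlib
import Pool.Agent.Lib.H63.TSPPrime

/-!
# Generated certificates for the primes 7, 29, 109, 157, 281
-/

set_option autoImplicit false

namespace Pool.Agent.Lib.H63.TSP

def L7 : List Cls := [
⟨⟨⟨-3,-6,-2⟩,⟨-2,3,-6⟩,⟨6,-2,-3⟩⟩,true,2,3,.leaf [(1,21),(2,14),(5,5),(6,2)],.leaf [(1,21),(2,14),(5,5),(6,2)]⟩,
⟨⟨⟨3,6,-2⟩,⟨-2,3,6⟩,⟨6,-2,3⟩⟩,true,2,4,.leaf [(0,3),(1,8),(4,1)],.leaf [(0,3),(1,8),(4,1)]⟩,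
⟨⟨⟨-3,-2,-6⟩,⟨6,-3,-2⟩,⟨-2,-6,3⟩⟩,true,3,2,.leaf [(0,21),(3,14),(4,5),(7,2)],.leaf [(0,21),(3,14),(4,5),(7,2)]⟩,
⟨⟨⟨-3,-2,6⟩,⟨-6,3,-2⟩,⟨-2,-6,-3⟩⟩,true,3,5,.leaf [(1,14),(3,7),(5,2),(7,1)],.leaf [(1,14),(3,7),(5,2),(7,1)]⟩,
⟨⟨⟨3,-2,6⟩,⟨6,3,-2⟩,⟨-2,6,3⟩⟩,true,4,2,.leaf [(0,8),(1,3),(5,1)],.leaf [(0,8),(1,3),(5,1)]⟩,
⟨⟨⟨3,-2,-6⟩,⟨-6,-3,-2⟩,⟨-2,6,-3⟩⟩,true,4,5,.leaf [(1,14),(2,21),(4,5),(5,2)],.leaf [(1,14),(2,21),(4,5),(5,2)]⟩,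
⟨⟨⟨-3,6,-2⟩,⟨-2,-3,-6⟩,⟨-6,-2,3⟩⟩,true,5,3,.leaf [(0,14),(2,7),(4,2),(6,1)],.leaf [(0,14),(2,7),(4,2),(6,1)]⟩,
⟨⟨⟨3,-6,-2⟩,⟨-2,-3,6⟩,⟨-6,-2,-3⟩⟩,true,5,4,.leaf [(1,14),(3,21),(4,4),(5,3)],.leaf [(1,14),(3,21),(4,4),(5,3)]⟩]

theorem primeOk_7 : PrimeOk 7 := primeOk (by norm_num) (by norm_num) (by norm_num) L7
  (by decide +kernel) (by decide +kernel)

def L29 : List Cls := [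
⟨⟨⟨-29,0,0⟩,⟨0,-21,-20⟩,⟨0,-20,21⟩⟩,false,0,12,.leaf [(0,725),(2,116),(4,16),(14,5)],.leaf [(0,464),(4,25),(6,4),(10,145)]⟩,
⟨⟨⟨-29,0,0⟩,⟨0,21,-20⟩,⟨0,-20,-21⟩⟩,false,0,17,.leaf [(1,725),(3,116),(5,16),(15,5)],.leaf [(1,81),(3,51),(10,59),(14,1)]⟩,
⟨⟨⟨-21,0,-20⟩,⟨0,-29,0⟩,⟨-20,0,21⟩⟩,true,0,12,.leaf [(0,29),(1,14),(3,6),(4,1)],.leaf [(0,29),(1,14),(3,6),(4,1)]⟩,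
⟨⟨⟨21,0,-20⟩,⟨0,-29,0⟩,⟨-20,0,-21⟩⟩,true,0,17,.leaf [(1,6),(2,29),(3,14),(4,1)],.leaf [(1,6),(2,29),(3,14),(4,1)]⟩,
⟨⟨⟨-21,16,-12⟩,⟨16,3,-24⟩,⟨-12,-24,-11⟩⟩,true,2,13,.leaf [(0,667),(3,348),(4,25),(6,18)],.leaf [(0,667),(3,348),(4,25),(6,18)]⟩,
⟨⟨⟨-21,16,12⟩,⟨16,3,24⟩,⟨12,24,-11⟩⟩,true,2,16,.leaf [(0,232),(3,261),(4,16),(5,3)],.leaf [(0,232),(3,261),(4,16),(5,3)]⟩,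
⟨⟨⟨-3,-24,16⟩,⟨24,-11,-12⟩,⟨16,12,21⟩⟩,true,8,14,.leaf [(0,377),(2,1015),(5,37),(7,5)],.leaf [(0,377),(2,1015),(5,37),(7,5)]⟩,
⟨⟨⟨3,24,16⟩,⟨24,-11,12⟩,⟨16,12,-21⟩⟩,true,8,15,.leaf [(0,986),(2,261),(4,37),(5,4)],.leaf [(0,986),(2,261),(4,37),(5,4)]⟩,
⟨⟨⟨-11,-12,24⟩,⟨12,21,16⟩,⟨-24,16,-3⟩⟩,true,9,11,.leaf [(0,28),(1,21),(3,6),(5,1)],.leaf [(0,28),(1,21),(3,6),(5,1)]⟩,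
⟨⟨⟨-11,-12,-24⟩,⟨-12,-21,16⟩,⟨-24,16,3⟩⟩,true,9,18,.leaf [(0,9),(1,25),(3,15),(4,1)],.leaf [(0,9),(1,25),(3,15),(4,1)]⟩,
⟨⟨⟨-11,24,-12⟩,⟨-24,-3,16⟩,⟨12,16,21⟩⟩,true,11,9,.leaf [(0,21),(1,28),(2,6),(4,1)],.leaf [(0,21),(1,28),(2,6),(4,1)]⟩,
⟨⟨⟨-11,24,12⟩,⟨24,3,16⟩,⟨12,16,-21⟩⟩,true,11,20,.leaf [(0,464),(3,261),(4,24),(5,5)],.leaf [(0,464),(3,261),(4,24),(5,5)]⟩,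
⟨⟨⟨-21,-20,0⟩,⟨-20,21,0⟩,⟨0,0,-29⟩⟩,true,12,0,.leaf [(0,14),(1,29),(2,6),(5,1)],.leaf [(0,14),(1,29),(2,6),(5,1)]⟩,
⟨⟨⟨-21,-12,16⟩,⟨-12,-11,-24⟩,⟨16,-24,3⟩⟩,true,13,2,.leaf [(1,667),(2,348),(5,25),(7,18)],.leaf [(1,667),(2,348),(5,25),(7,18)]⟩,
⟨⟨⟨21,12,16⟩,⟨-12,-11,24⟩,⟨16,-24,-3⟩⟩,true,13,27,.leaf [(1,261),(2,725),(4,31),(7,1)],.leaf [(1,261),(2,725),(4,31),(7,1)]⟩,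
⟨⟨⟨-3,16,-24⟩,⟨16,21,12⟩,⟨24,-12,-11⟩⟩,true,14,8,.leaf [(1,377),(3,1015),(4,37),(6,5)],.leaf [(1,377),(3,1015),(4,37),(6,5)]⟩,
⟨⟨⟨-3,16,24⟩,⟨16,21,-12⟩,⟨-24,12,-11⟩⟩,true,14,21,.leaf [(1,261),(3,986),(5,37),(6,4)],.leaf [(1,261),(3,986),(5,37),(6,4)]⟩,
⟨⟨⟨3,16,24⟩,⟨16,-21,12⟩,⟨24,12,-11⟩⟩,true,15,8,.leaf [(0,725),(2,522),(4,35),(5,12)],.leaf [(0,725),(2,522),(4,35),(5,12)]⟩,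
⟨⟨⟨3,16,-24⟩,⟨16,-21,-12⟩,⟨-24,-12,-11⟩⟩,true,15,21,.leaf [(0,31),(1,12),(2,6),(4,1)],.leaf [(0,31),(1,12),(2,6),(4,1)]⟩,
⟨⟨⟨-21,12,16⟩,⟨12,-11,24⟩,⟨16,24,3⟩⟩,true,16,2,.leaf [(0,725),(3,261),(4,31),(5,1)],.leaf [(0,725),(3,261),(4,31),(5,1)]⟩,
⟨⟨⟨21,-12,16⟩,⟨12,-11,-24⟩,⟨16,24,-3⟩⟩,true,16,27,.leaf [(0,30),(1,19),(2,6),(5,1)],.leaf [(0,30),(1,19),(2,6),(5,1)]⟩,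
⟨⟨⟨21,-20,0⟩,⟨-20,-21,0⟩,⟨0,0,-29⟩⟩,true,17,0,.leaf [(1,116),(2,87),(4,7),(5,4)],.leaf [(1,116),(2,87),(4,7),(5,4)]⟩,
⟨⟨⟨-11,-24,-12⟩,⟨-24,3,16⟩,⟨-12,16,-21⟩⟩,true,18,9,.leaf [(2,464),(3,377),(4,8),(5,17)],.leaf [(2,464),(3,377),(4,8),(5,17)]⟩,
⟨⟨⟨-11,-24,12⟩,⟨24,-3,16⟩,⟨-12,16,21⟩⟩,true,18,20,.leaf [(0,841),(4,21),(5,28),(6,6)],.leaf [(0,841),(4,21),(5,28),(6,6)]⟩,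
⟨⟨⟨-11,12,24⟩,⟨12,-21,16⟩,⟨24,16,3⟩⟩,true,20,11,.leaf [(0,464),(2,261),(4,21),(5,8)],.leaf [(0,464),(2,261),(4,21),(5,8)]⟩,
⟨⟨⟨-11,12,-24⟩,⟨-12,21,16⟩,⟨24,16,-3⟩⟩,true,20,18,.leaf [(1,841),(4,28),(5,21),(7,6)],.leaf [(1,841),(4,28),(5,21),(7,6)]⟩,
⟨⟨⟨-3,24,16⟩,⟨-24,-11,12⟩,⟨16,-12,21⟩⟩,true,21,14,.leaf [(0,261),(2,986),(4,37),(7,4)],.leaf [(0,261),(2,986),(4,37),(7,4)]⟩,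
⟨⟨⟨3,-24,16⟩,⟨-24,-11,-12⟩,⟨16,-12,-21⟩⟩,true,21,15,.leaf [(0,12),(1,31),(3,6),(5,1)],.leaf [(0,12),(1,31),(3,6),(5,1)]⟩,
⟨⟨⟨21,16,12⟩,⟨16,-3,-24⟩,⟨-12,24,-11⟩⟩,true,27,13,.leaf [(0,261),(3,725),(5,31),(6,1)],.leaf [(0,261),(3,725),(5,31),(6,1)]⟩,
⟨⟨⟨21,16,-12⟩,⟨16,-3,24⟩,⟨12,-24,-11⟩⟩,true,27,16,.leaf [(0,19),(1,30),(3,6),(4,1)],.leaf [(0,19),(1,30),(3,6),(4,1)]⟩]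

theorem primeOk_29 : PrimeOk 29 := primeOk (by norm_num) (by norm_num) (by norm_num) L29
  (by decide +kernel) (by decide +kernel)

def L109 : List Cls := [
⟨⟨⟨109,0,0⟩,⟨0,91,60⟩,⟨0,-60,91⟩⟩,false,0,33,.leaf [(3,6976),(6,71),(10,2289),(14,28)],.leaf [(1,540),(3,345),(10,304),(15,1)]⟩,
⟨⟨⟨109,0,0⟩,⟨0,91,-60⟩,⟨0,60,91⟩⟩,false,0,76,.leaf [(2,6976),(7,71),(11,2289),(15,28)],.leaf [(0,16241),(5,338),(7,98),(10,9919)]⟩,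
⟨⟨⟨91,0,60⟩,⟨0,109,0⟩,⟨-60,0,91⟩⟩,true,0,33,.leaf [(5,756),(10,46870),(14,635),(18,4469)],.leaf [(3,124914),(5,999),(10,39676),(15,91)]⟩,
⟨⟨⟨91,0,-60⟩,⟨0,109,0⟩,⟨60,0,91⟩⟩,true,0,76,.leaf [(2,77826),(4,1071),(15,440),(18,545)],.leaf [(1,96228),(10,27270),(26,1639),(30,5)]⟩,
⟨⟨⟨91,-36,-48⟩,⟨-36,37,-96⟩,⟨48,96,19⟩⟩,true,2,39,.leaf [(2,11881),(5,42),(7,98),(14,1)],.leaf [(2,33899),(5,129),(7,283),(10,109)]⟩,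
⟨⟨⟨91,-36,48⟩,⟨-36,37,96⟩,⟨-48,-96,19⟩⟩,true,2,70,.leaf [(1,42),(3,98),(6,1),(10,1)],.leaf [(1,14061),(3,30847),(6,311),(14,1)]⟩,
⟨⟨⟨51,-72,64⟩,⟨-8,69,84⟩,⟨-96,-44,27⟩⟩,true,5,44,.R (.leaf [(0,108),(3,117),(18,20),(27,1)]) (.leaf [(0,189),(3,144),(18,32),(26,1)]) (.leaf [(0,8127),(3,7893),(18,1247),(31,1)]),.leaf [(0,15),(3,238),(5,2),(10,41)]⟩,
⟨⟨⟨-51,72,64⟩,⟨-8,69,-84⟩,⟨-96,-44,-27⟩⟩,true,5,65,.leaf [(0,11881),(4,49),(5,52),(6,126)],.leaf [(0,11881),(4,49),(5,52),(6,126)]⟩,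
⟨⟨⟨-27,84,64⟩,⟨-44,-69,72⟩,⟨96,-8,51⟩⟩,true,9,38,.leaf [(0,72),(1,8),(2,81),(4,1)],.leaf [(0,72),(1,8),(2,81),(4,1)]⟩,
⟨⟨⟨27,-84,64⟩,⟨-44,-69,-72⟩,⟨96,-8,-51⟩⟩,true,9,71,.leaf [(1,54),(2,76),(3,61),(5,1)],.leaf [(1,54),(2,76),(3,61),(5,1)]⟩,
⟨⟨⟨69,-44,72⟩,⟨-84,-27,64⟩,⟨-8,-96,-51⟩⟩,true,12,20,.leaf [(1,545),(3,4033),(5,35),(7,13)],.leaf [(1,545),(3,4033),(5,35),(7,13)]⟩,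
⟨⟨⟨69,-44,-72⟩,⟨84,27,64⟩,⟨-8,-96,51⟩⟩,true,12,89,.leaf [(1,5559),(3,11990),(4,140),(7,71)],.leaf [(1,5559),(3,11990),(4,140),(7,71)]⟩,
⟨⟨⟨69,-84,-8⟩,⟨-44,-27,-96⟩,⟨72,64,-51⟩⟩,true,13,22,.leaf [(0,94),(1,43),(2,54),(5,1)],.leaf [(0,94),(1,43),(2,54),(5,1)]⟩,
⟨⟨⟨-69,84,-8⟩,⟨-44,-27,96⟩,⟨72,64,51⟩⟩,true,13,87,.leaf [(0,111),(1,95),(3,9),(4,1)],.leaf [(0,111),(1,95),(3,9),(4,1)]⟩,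
⟨⟨⟨19,48,96⟩,⟨-48,91,-36⟩,⟨-96,-36,37⟩⟩,true,14,28,.leaf [(0,280),(1,88),(3,115),(15,1)],.leaf [(1,837),(3,831),(10,71),(22,1)]⟩,
⟨⟨⟨19,48,-96⟩,⟨-48,91,36⟩,⟨96,36,37⟩⟩,true,14,81,.leaf [(1,12099),(3,1526),(4,84),(7,43)],.leaf [(1,12099),(3,1526),(4,84),(7,43)]⟩,
⟨⟨⟨99,28,36⟩,⟨-12,99,-44⟩,⟨-44,36,93⟩⟩,true,19,40,.leaf [(3,291357),(7,1701),(18,18203),(22,13)],.leaf [(3,57225),(5,567),(10,20056),(15,40)]⟩,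
⟨⟨⟨99,28,-36⟩,⟨12,-99,-44⟩,⟨-44,36,-93⟩⟩,true,19,69,.leaf [(0,1744),(2,5559),(4,57),(5,8)],.leaf [(0,1744),(2,5559),(4,57),(5,8)]⟩,
⟨⟨⟨69,72,-44⟩,⟨-8,-51,-96⟩,⟨-84,64,-27⟩⟩,true,20,12,.leaf [(0,545),(2,4033),(4,35),(6,13)],.leaf [(0,545),(2,4033),(4,35),(6,13)]⟩,
⟨⟨⟨-69,-72,-44⟩,⟨-8,-51,96⟩,⟨-84,64,27⟩⟩,true,20,97,.leaf [(1,4469),(3,13080),(4,136),(5,21)],.leaf [(1,4469),(3,13080),(4,136),(5,21)]⟩,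
⟨⟨⟨69,-8,-84⟩,⟨72,-51,64⟩,⟨-44,-96,-27⟩⟩,true,22,13,.leaf [(0,43),(1,94),(3,54),(4,1)],.leaf [(0,43),(1,94),(3,54),(4,1)]⟩,
⟨⟨⟨69,-8,84⟩,⟨-72,51,64⟩,⟨-44,-96,27⟩⟩,true,22,96,.leaf [(1,109),(3,1853),(5,13),(7,11)],.leaf [(1,109),(3,1853),(5,13),(7,11)]⟩,
⟨⟨⟨99,-12,-44⟩,⟨28,99,36⟩,⟨36,-44,93⟩⟩,true,23,48,.leaf [(2,11881),(6,95),(15,8)],.leaf [(1,72),(2,71),(6,1),(10,16)]⟩,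
⟨⟨⟨-99,12,-44⟩,⟨28,99,-36⟩,⟨36,-44,-93⟩⟩,true,23,61,.leaf [(1,11881),(4,5),(5,129),(6,69)],.leaf [(1,11881),(4,5),(5,129),(6,69)]⟩,
⟨⟨⟨93,36,-44⟩,⟨-44,99,-12⟩,⟨36,28,99⟩⟩,true,25,30,.leaf [(1,6976),(2,6867),(4,71),(6,84)],.leaf [(1,6976),(2,6867),(4,71),(6,84)]⟩,
⟨⟨⟨-93,-36,-44⟩,⟨-44,99,12⟩,⟨36,28,-99⟩⟩,true,25,79,.leaf [(1,6540),(2,7739),(5,116),(6,5)],.leaf [(1,6540),(2,7739),(5,116),(6,5)]⟩,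
⟨⟨⟨19,96,48⟩,⟨-96,37,-36⟩,⟨-48,-36,91⟩⟩,true,28,14,.leaf [(0,88),(1,280),(2,115),(14,1)],.leaf [(0,35),(1,62),(7,2),(10,85)]⟩,
⟨⟨⟨19,96,-48⟩,⟨-96,37,36⟩,⟨48,36,91⟩⟩,true,28,95,.leaf [(0,14),(1,84),(2,45),(4,1)],.leaf [(0,14),(1,84),(2,45),(4,1)]⟩,
⟨⟨⟨93,-44,36⟩,⟨36,99,28⟩,⟨-44,-12,99⟩⟩,true,30,25,.leaf [(0,6976),(3,6867),(5,71),(7,84)],.leaf [(0,6976),(3,6867),(5,71),(7,84)]⟩,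
⟨⟨⟨93,-44,-36⟩,⟨-36,-99,28⟩,⟨-44,-12,-99⟩⟩,true,30,84,.leaf [(1,7739),(2,6540),(4,116),(5,5)],.leaf [(1,7739),(2,6540),(4,116),(5,5)]⟩,
⟨⟨⟨91,60,0⟩,⟨-60,91,0⟩,⟨0,0,109⟩⟩,true,33,0,.leaf [(4,27),(11,763),(15,11),(18,109)],.leaf [(1,116739),(7,714),(10,47960),(23,5)]⟩,
⟨⟨⟨37,96,36⟩,⟨-96,19,48⟩,⟨36,-48,91⟩⟩,true,35,54,.leaf [(1,47524),(4,235),(6,286),(14,55)],.leaf [(1,100),(2,55),(4,1),(10,22)]⟩,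
⟨⟨⟨37,96,-36⟩,⟨-96,19,-48⟩,⟨-36,48,91⟩⟩,true,35,55,.leaf [(2,3),(7,3),(11,121),(18,11)],.leaf [(0,231),(2,290),(7,4),(10,55)]⟩,
⟨⟨⟨-27,64,84⟩,⟨96,51,-8⟩,⟨-44,72,-69⟩⟩,true,38,9,.leaf [(2,872),(3,5777),(4,32),(5,57)],.leaf [(2,872),(3,5777),(4,32),(5,57)]⟩,
⟨⟨⟨-27,64,-84⟩,⟨-96,-51,-8⟩,⟨-44,72,69⟩⟩,true,38,100,.leaf [(0,61),(1,76),(2,54),(4,1)],.leaf [(0,61),(1,76),(2,54),(4,1)]⟩,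
⟨⟨⟨91,-48,-36⟩,⟨48,19,96⟩,⟨-36,-96,37⟩⟩,true,39,2,.leaf [(3,11881),(4,42),(6,98),(15,1)],.leaf [(3,9592),(4,33),(6,80),(10,109)]⟩,
⟨⟨⟨91,-48,36⟩,⟨48,19,-96⟩,⟨36,96,37⟩⟩,true,39,107,.leaf [(0,97),(2,43),(5,1),(11,1)],.leaf [(0,397),(2,178),(5,4),(10,1)]⟩,
⟨⟨⟨99,36,28⟩,⟨-44,93,36⟩,⟨-12,-44,99⟩⟩,true,40,19,.leaf [(2,99),(6,6),(11,220),(18,41)],.leaf [(2,1417),(4,3),(6,14),(10,218)]⟩,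
⟨⟨⟨-99,-36,28⟩,⟨-44,93,-36⟩,⟨-12,-44,-99⟩⟩,true,40,90,.leaf [(1,5559),(3,1744),(5,57),(6,8)],.leaf [(1,5559),(3,1744),(5,57),(6,8)]⟩,
⟨⟨⟨-27,-44,-96⟩,⟨-84,69,-8⟩,⟨64,72,-51⟩⟩,true,42,52,.leaf [(1,88399),(4,1210),(5,925),(18,5886)],.leaf [(1,12971),(4,53),(5,77),(10,2943)]⟩,
⟨⟨⟨-27,-44,96⟩,⟨84,-69,-8⟩,⟨64,72,51⟩⟩,true,42,57,.leaf [(2,1417),(3,436),(4,1),(5,12)],.leaf [(2,1417),(3,436),(4,1),(5,12)]⟩,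
⟨⟨⟨51,-96,-8⟩,⟨64,27,84⟩,⟨-72,-44,69⟩⟩,true,43,49,.leaf [(0,11881),(4,76),(5,184),(14,39)],.leaf [(0,15),(3,71),(5,1),(10,37)]⟩,
⟨⟨⟨-51,96,-8⟩,⟨64,27,-84⟩,⟨-72,-44,-69⟩⟩,true,43,60,.leaf [(0,11881),(4,106),(5,28),(6,69)],.leaf [(0,11881),(4,106),(5,28),(6,69)]⟩,
⟨⟨⟨51,64,-72⟩,⟨-96,27,-44⟩,⟨-8,84,69⟩⟩,true,44,5,.leaf [(1,444),(2,575),(4,10),(18,41)],.leaf [(1,82404),(4,453),(10,17113),(15,4)]⟩,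
⟨⟨⟨51,64,72⟩,⟨96,-27,-44⟩,⟨-8,84,-69⟩⟩,true,44,104,.leaf [(0,14170),(2,981),(4,141),(5,116)],.leaf [(0,14170),(2,981),(4,141),(5,116)]⟩,
⟨⟨⟨-35,60,-84⟩,⟨84,-35,-60⟩,⟨-60,-84,-35⟩⟩,true,45,46,.leaf [(0,95),(3,24),(4,1)],.leaf [(0,95),(3,24),(4,1)]⟩,
⟨⟨⟨-35,60,84⟩,⟨84,-35,60⟩,⟨60,84,-35⟩⟩,true,45,63,.leaf [(0,11881),(4,119),(5,24)],.leaf [(0,11881),(4,119),(5,24)]⟩,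
⟨⟨⟨-35,-84,60⟩,⟨-60,-35,-84⟩,⟨84,-60,-35⟩⟩,true,46,45,.leaf [(1,95),(2,24),(5,1)],.leaf [(1,95),(2,24),(5,1)]⟩,
⟨⟨⟨-35,-84,-60⟩,⟨-60,-35,84⟩,⟨-84,60,-35⟩⟩,true,46,64,.leaf [(1,10355),(3,9156),(4,144),(5,49)],.leaf [(1,10355),(3,9156),(4,144),(5,49)]⟩,
⟨⟨⟨99,-44,-12⟩,⟨36,93,-44⟩,⟨28,36,99⟩⟩,true,48,23,.leaf [(3,11881),(7,95),(14,8)],.leaf [(3,119),(7,1),(10,8)]⟩,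
⟨⟨⟨99,-44,12⟩,⟨-36,-93,-44⟩,⟨28,36,-99⟩⟩,true,48,86,.leaf [(0,4033),(1,3488),(4,17),(5,40)],.leaf [(0,4033),(1,3488),(4,17),(5,40)]⟩,
⟨⟨⟨51,-8,-96⟩,⟨-72,69,-44⟩,⟨64,84,27⟩⟩,true,49,43,.leaf [(1,11881),(4,184),(5,76),(15,39)],.leaf [(1,19075),(4,70),(5,151),(10,8502)]⟩,
⟨⟨⟨51,-8,96⟩,⟨72,-69,-44⟩,⟨64,84,-27⟩⟩,true,49,66,.leaf [(0,92),(1,114),(3,9),(5,1)],.leaf [(0,92),(1,114),(3,9),(5,1)]⟩,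
⟨⟨⟨-27,-96,-44⟩,⟨64,-51,72⟩,⟨-84,-8,69⟩⟩,true,52,42,.L (.leaf [(0,21),(1,50),(3,90),(4,1)]) (.leaf [(0,123),(2,47),(7,1),(11,17)]) (.leaf [(0,136),(1,25),(3,96),(5,1)]),.leaf [(3,3052),(4,27),(5,20),(10,545)]⟩,
⟨⟨⟨27,96,-44⟩,⟨64,-51,-72⟩,⟨-84,-8,-69⟩⟩,true,52,67,.leaf [(0,11881),(4,130),(5,76),(6,15)],.leaf [(0,11881),(4,130),(5,76),(6,15)]⟩,
⟨⟨⟨37,36,96⟩,⟨36,91,-48⟩,⟨-96,48,19⟩⟩,true,54,35,.leaf [(0,47524),(5,235),(7,286),(15,55)],.leaf [(0,1),(3,121),(5,1),(10,11)]⟩,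
⟨⟨⟨37,36,-96⟩,⟨36,91,48⟩,⟨96,-48,19⟩⟩,true,54,74,.leaf [(1,11881),(4,1),(7,121),(14,11)],.leaf [(1,648),(3,165),(10,280),(15,1)]⟩,
⟨⟨⟨37,-36,96⟩,⟨-36,91,48⟩,⟨-96,-48,19⟩⟩,true,55,35,.leaf [(3,300),(6,3),(10,55),(18,22)],.leaf [(1,1090),(3,4251),(5,65),(14,12)]⟩,
⟨⟨⟨37,-36,-96⟩,⟨-36,91,-48⟩,⟨96,48,19⟩⟩,true,55,74,.leaf [(1,429),(2,115),(7,5),(18,11)],.leaf [(1,65),(2,39),(5,1),(10,45)]⟩,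
⟨⟨⟨-27,96,-44⟩,⟨64,51,72⟩,⟨84,-8,-69⟩⟩,true,57,42,.leaf [(0,45),(1,35),(3,81),(4,1)],.leaf [(0,45),(1,35),(3,81),(4,1)]⟩,
⟨⟨⟨27,-96,-44⟩,⟨64,51,-72⟩,⟨84,-8,69⟩⟩,true,57,67,.leaf [(2,11881),(5,148),(6,97),(14,18)],.leaf [(1,51),(2,47),(5,1),(10,41)]⟩,
⟨⟨⟨-51,-8,96⟩,⟨-72,-69,-44⟩,⟨64,-84,27⟩⟩,true,60,43,.leaf [(1,11881),(4,28),(5,106),(7,69)],.leaf [(1,11881),(4,28),(5,106),(7,69)]⟩,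
⟨⟨⟨-51,-8,-96⟩,⟨72,69,-44⟩,⟨64,-84,-27⟩⟩,true,60,66,.leaf [(0,9),(3,129),(11,97),(14,1)],.leaf [(3,2398),(4,27),(7,38),(10,1417)]⟩,
⟨⟨⟨-99,-44,12⟩,⟨36,-93,-44⟩,⟨28,-36,99⟩⟩,true,61,23,.leaf [(0,11881),(4,129),(5,5),(7,69)],.leaf [(0,11881),(4,129),(5,5),(7,69)]⟩,
⟨⟨⟨-99,-44,-12⟩,⟨-36,93,-44⟩,⟨28,-36,-99⟩⟩,true,61,86,.leaf [(2,107256),(5,1800),(14,467),(18,545)],.leaf [(1,93),(2,29),(7,1),(10,51)]⟩,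
⟨⟨⟨-35,84,60⟩,⟨60,-35,84⟩,⟨84,60,-35⟩⟩,true,63,45,.leaf [(0,119),(1,24),(4,1)],.leaf [(0,119),(1,24),(4,1)]⟩,
⟨⟨⟨-35,84,-60⟩,⟨60,-35,-84⟩,⟨-84,-60,-35⟩⟩,true,63,64,.leaf [(0,11881),(4,95),(7,24)],.leaf [(0,11881),(4,95),(7,24)]⟩,
⟨⟨⟨-35,-60,-84⟩,⟨-84,-35,60⟩,⟨-60,84,-35⟩⟩,true,64,46,.leaf [(1,12971),(3,6540),(4,144),(5,25)],.leaf [(1,12971),(3,6540),(4,144),(5,25)]⟩,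
⟨⟨⟨-35,-60,84⟩,⟨-84,-35,-60⟩,⟨60,-84,-35⟩⟩,true,64,63,.leaf [(1,11881),(5,95),(6,24)],.leaf [(1,11881),(5,95),(6,24)]⟩,
⟨⟨⟨-51,64,72⟩,⟨-96,-27,-44⟩,⟨-8,-84,69⟩⟩,true,65,5,.leaf [(1,11881),(4,52),(5,49),(7,126)],.leaf [(1,11881),(4,52),(5,49),(7,126)]⟩,
⟨⟨⟨-51,64,-72⟩,⟨96,27,-44⟩,⟨-8,-84,-69⟩⟩,true,65,104,.leaf [(4,99),(11,9592),(14,80),(18,109)],.leaf [(0,33),(3,220),(4,2),(10,41)]⟩,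
⟨⟨⟨51,96,-8⟩,⟨64,-27,84⟩,⟨72,-44,-69⟩⟩,true,66,49,.leaf [(0,114),(1,92),(2,9),(4,1)],.leaf [(0,114),(1,92),(2,9),(4,1)]⟩,
⟨⟨⟨-51,-96,-8⟩,⟨64,-27,-84⟩,⟨72,-44,69⟩⟩,true,66,60,.leaf [(1,9),(2,129),(10,97),(15,1)],.leaf [(1,55917),(5,315),(10,19075),(14,11)]⟩,
⟨⟨⟨27,-44,96⟩,⟨-84,-69,-8⟩,⟨64,-72,-51⟩⟩,true,67,52,.leaf [(1,11881),(4,76),(5,130),(7,15)],.leaf [(1,11881),(4,76),(5,130),(7,15)]⟩,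
⟨⟨⟨27,-44,-96⟩,⟨84,69,-8⟩,⟨64,-72,51⟩⟩,true,67,57,.leaf [(3,11881),(4,148),(7,97),(15,18)],.leaf [(0,6213),(4,10),(7,68),(10,545)]⟩,
⟨⟨⟨99,-36,28⟩,⟨-44,-93,36⟩,⟨12,-44,-99⟩⟩,true,69,19,.leaf [(1,5777),(2,5559),(4,103),(5,39)],.leaf [(1,5777),(2,5559),(4,103),(5,39)]⟩,
⟨⟨⟨-99,36,28⟩,⟨-44,-93,-36⟩,⟨12,-44,99⟩⟩,true,69,90,.L (.L (.L (.leaf [(0,84),(1,14),(3,45),(5,1)]) (.leaf [(1,6540),(2,6431),(4,54),(6,25)]) (.leaf [(1,75),(3,35),(4,1),(10,43)])) (.leaf [(0,12426),(2,1199),(5,132),(6,73)]) (.leaf [(0,144),(1,44),(3,45),(5,1)])) (.leaf [(0,110),(1,141),(2,90),(5,1)]) (.leaf [(0,91),(1,10),(3,126),(4,1)]),.leaf [(0,9265),(4,100),(6,37),(10,1526)]⟩,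
⟨⟨⟨91,48,-36⟩,⟨-48,19,-96⟩,⟨-36,96,37⟩⟩,true,70,2,.leaf [(0,42),(2,98),(7,1),(11,1)],.leaf [(0,177),(2,398),(7,4),(10,1)]⟩,
⟨⟨⟨91,48,36⟩,⟨-48,19,96⟩,⟨36,-96,37⟩⟩,true,70,107,.leaf [(1,111616),(4,940),(6,415),(18,109)],.leaf [(1,1744),(4,13),(6,4),(10,109)]⟩,
⟨⟨⟨27,64,-84⟩,⟨96,-51,-8⟩,⟨-44,-72,-69⟩⟩,true,71,9,.leaf [(0,54),(2,61),(3,76),(4,1)],.leaf [(0,54),(2,61),(3,76),(4,1)]⟩,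
⟨⟨⟨27,64,84⟩,⟨-96,51,-8⟩,⟨-44,-72,69⟩⟩,true,71,100,.leaf [(0,872),(1,5777),(4,32),(7,57)],.leaf [(0,872),(1,5777),(4,32),(7,57)]⟩,
⟨⟨⟨37,-96,36⟩,⟨96,19,-48⟩,⟨36,48,91⟩⟩,true,74,54,.leaf [(0,11881),(5,1),(6,121),(15,11)],.leaf [(0,235),(2,286),(5,4),(10,55)]⟩,
⟨⟨⟨37,-96,-36⟩,⟨96,19,48⟩,⟨-36,-48,91⟩⟩,true,74,55,.leaf [(0,1485),(3,2439),(18,445),(23,1)],.leaf [(0,66),(3,56),(6,1),(10,11)]⟩,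
⟨⟨⟨91,-60,0⟩,⟨60,91,0⟩,⟨0,0,109⟩⟩,true,76,0,.leaf [(3,61149),(5,639),(14,290),(18,1090)],.leaf [(0,25),(3,31),(5,1),(10,35)]⟩,
⟨⟨⟨-93,-44,-36⟩,⟨36,-99,28⟩,⟨-44,12,99⟩⟩,true,79,25,.leaf [(0,6540),(3,7739),(4,116),(7,5)],.leaf [(0,6540),(3,7739),(4,116),(7,5)]⟩,
⟨⟨⟨-93,-44,36⟩,⟨-36,99,28⟩,⟨-44,12,-99⟩⟩,true,79,84,.leaf [(1,64),(2,56),(3,71),(5,1)],.leaf [(1,64),(2,56),(3,71),(5,1)]⟩,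
⟨⟨⟨19,-96,48⟩,⟨96,37,36⟩,⟨-48,36,91⟩⟩,true,81,14,.leaf [(0,12099),(2,1526),(5,84),(6,43)],.leaf [(0,12099),(2,1526),(5,84),(6,43)]⟩,
⟨⟨⟨19,-96,-48⟩,⟨96,37,-36⟩,⟨48,-36,91⟩⟩,true,81,95,.leaf [(2,18639),(6,30),(15,68),(18,545)],.leaf [(0,24),(3,56),(6,1),(10,35)]⟩,
⟨⟨⟨93,-36,-44⟩,⟨-44,-99,-12⟩,⟨-36,28,-99⟩⟩,true,84,30,.leaf [(1,5123),(2,9156),(4,124),(5,21)],.leaf [(1,5123),(2,9156),(4,124),(5,21)]⟩,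
⟨⟨⟨-93,36,-44⟩,⟨-44,-99,12⟩,⟨-36,28,99⟩⟩,true,84,79,.leaf [(0,64),(2,71),(3,56),(4,1)],.leaf [(0,64),(2,71),(3,56),(4,1)]⟩,
⟨⟨⟨99,12,-44⟩,⟨28,-99,36⟩,⟨-36,-44,-93⟩⟩,true,86,48,.leaf [(0,60),(1,80),(2,51),(4,1)],.leaf [(0,60),(1,80),(2,51),(4,1)]⟩,
⟨⟨⟨-99,-12,-44⟩,⟨28,-99,-36⟩,⟨-36,-44,93⟩⟩,true,86,61,.L (.leaf [(1,95),(2,24),(5,1)]) (.leaf [(0,35),(1,144),(2,84),(4,1)]) (.leaf [(0,119),(1,24),(4,1)]),.leaf [(0,79),(3,40),(4,1),(10,8)]⟩,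
⟨⟨⟨-69,-8,84⟩,⟨72,51,64⟩,⟨-44,96,-27⟩⟩,true,87,13,.leaf [(0,95),(1,111),(2,9),(5,1)],.leaf [(0,95),(1,111),(2,9),(5,1)]⟩,
⟨⟨⟨-69,-8,-84⟩,⟨-72,-51,64⟩,⟨-44,96,27⟩⟩,true,87,96,.leaf [(0,43),(1,97),(3,51),(4,1)],.leaf [(0,43),(1,97),(3,51),(4,1)]⟩,
⟨⟨⟨69,-72,-44⟩,⟨-8,51,-96⟩,⟨84,64,27⟩⟩,true,89,12,.leaf [(0,5559),(2,11990),(5,140),(6,71)],.leaf [(0,5559),(2,11990),(5,140),(6,71)]⟩,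
⟨⟨⟨-69,72,-44⟩,⟨-8,51,96⟩,⟨84,64,-27⟩⟩,true,89,97,.leaf [(0,21),(1,50),(3,90),(4,1)],.leaf [(0,21),(1,50),(3,90),(4,1)]⟩,
⟨⟨⟨-99,28,-36⟩,⟨-12,-99,-44⟩,⟨-44,-36,93⟩⟩,true,90,40,.leaf [(0,5559),(2,1744),(4,57),(7,8)],.leaf [(0,5559),(2,1744),(4,57),(7,8)]⟩,
⟨⟨⟨-99,28,36⟩,⟨12,99,-44⟩,⟨-44,-36,-93⟩⟩,true,90,69,.leaf [(1,184101),(5,3165),(14,665),(18,4469)],.leaf [(1,208953),(7,903),(10,37496),(23,88)]⟩,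
⟨⟨⟨19,-48,96⟩,⟨48,91,36⟩,⟨-96,36,37⟩⟩,true,95,28,.leaf [(0,84),(1,14),(3,45),(5,1)],.leaf [(0,84),(1,14),(3,45),(5,1)]⟩,
⟨⟨⟨19,-48,-96⟩,⟨48,91,-36⟩,⟨96,-36,37⟩⟩,true,95,81,.leaf [(3,153),(7,3),(10,47),(18,41)],.leaf [(1,1090),(5,5),(10,436),(15,1)]⟩,
⟨⟨⟨69,84,-8⟩,⟨-44,27,-96⟩,⟨-72,64,51⟩⟩,true,96,22,.leaf [(0,109),(2,1853),(4,13),(6,11)],.leaf [(0,109),(2,1853),(4,13),(6,11)]⟩,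
⟨⟨⟨-69,-84,-8⟩,⟨-44,27,96⟩,⟨-72,64,-51⟩⟩,true,96,87,.leaf [(1,218),(3,327),(4,4),(5,3)],.leaf [(1,218),(3,327),(4,4),(5,3)]⟩,
⟨⟨⟨-69,-44,-72⟩,⟨-84,27,64⟩,⟨-8,96,-51⟩⟩,true,97,20,.leaf [(1,11990),(3,5559),(4,140),(5,71)],.leaf [(1,11990),(3,5559),(4,140),(5,71)]⟩,
⟨⟨⟨-69,-44,72⟩,⟨84,-27,64⟩,⟨-8,96,51⟩⟩,true,97,89,.leaf [(0,50),(1,21),(2,90),(5,1)],.leaf [(0,50),(1,21),(2,90),(5,1)]⟩,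
⟨⟨⟨-27,-84,64⟩,⟨-44,69,72⟩,⟨-96,-8,-51⟩⟩,true,100,38,.leaf [(0,76),(1,61),(3,54),(5,1)],.leaf [(0,76),(1,61),(3,54),(5,1)]⟩,
⟨⟨⟨27,84,64⟩,⟨-44,69,-72⟩,⟨-96,-8,51⟩⟩,true,100,71,.leaf [(0,5777),(1,872),(5,32),(6,57)],.leaf [(0,5777),(1,872),(5,32),(6,57)]⟩,
⟨⟨⟨51,72,64⟩,⟨-8,-69,84⟩,⟨96,-44,-27⟩⟩,true,104,44,.leaf [(0,51),(1,20),(2,90),(4,1)],.leaf [(0,51),(1,20),(2,90),(4,1)]⟩,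
⟨⟨⟨-51,-72,64⟩,⟨-8,-69,-84⟩,⟨96,-44,27⟩⟩,true,104,65,.leaf [(5,387),(10,33899),(15,283),(18,109)],.leaf [(1,97119),(5,567),(10,18203),(14,13)]⟩,
⟨⟨⟨91,36,-48⟩,⟨36,37,96⟩,⟨48,-96,19⟩⟩,true,107,39,.leaf [(1,97),(3,43),(4,1),(10,1)],.leaf [(1,512),(3,200),(4,5),(26,1)]⟩,
⟨⟨⟨91,36,48⟩,⟨36,37,-96⟩,⟨-48,96,19⟩⟩,true,107,70,.leaf [(0,18857),(5,149),(7,71),(18,109)],.leaf [(0,41747),(5,350),(7,158),(10,109)]⟩]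

theorem primeOk_109 : PrimeOk 109 := primeOk (by norm_num) (by norm_num) (by norm_num) L109
  (by decide +kernel) (by decide +kernel)

def L157 : List Cls := [
⟨⟨⟨157,0,0⟩,⟨0,85,-132⟩,⟨0,132,85⟩⟩,false,0,28,.leaf [(5,333),(7,228),(11,24649),(15,52)],.leaf [(0,69551),(5,578),(7,50),(10,13345)]⟩,
⟨⟨⟨157,0,0⟩,⟨0,85,132⟩,⟨0,-132,85⟩⟩,false,0,129,.leaf [(4,333),(6,228),(10,24649),(14,52)],.leaf [(3,471),(6,3),(10,785),(15,5)]⟩,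
⟨⟨⟨85,0,-132⟩,⟨0,157,0⟩,⟨132,0,85⟩⟩,true,0,28,.leaf [(2,24649),(4,63),(7,77),(15,55)],.R (.leaf [(1,729),(10,315),(26,7),(35,5)]) (.leaf [(10,27),(26,626),(31,4),(34,17)]) (.leaf [(14,81),(26,172543),(31,1103),(39,29)])⟩,
⟨⟨⟨85,0,132⟩,⟨0,157,0⟩,⟨-132,0,85⟩⟩,true,0,129,.leaf [(5,1404),(10,70807),(14,821),(18,11618)],.leaf [(3,57462),(5,297),(10,10676),(15,17)]⟩,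
⟨⟨⟨-75,-68,-120⟩,⟨-132,75,40⟩,⟨40,120,-93⟩⟩,true,3,33,.leaf [(2,2669),(3,314),(4,5),(5,18)],.leaf [(2,2669),(3,314),(4,5),(5,18)]⟩,
⟨⟨⟨-75,-68,120⟩,⟨132,-75,40⟩,⟨40,120,93⟩⟩,true,3,124,.leaf [(0,23),(2,165),(3,27),(5,1)],.leaf [(0,23),(2,165),(3,27),(5,1)]⟩,
⟨⟨⟨139,-72,-12⟩,⟨-72,-131,-48⟩,⟨12,48,-149⟩⟩,true,4,53,.leaf [(0,2512),(1,2041),(4,8),(5,17)],.leaf [(0,2512),(1,2041),(4,8),(5,17)]⟩,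
⟨⟨⟨139,-72,12⟩,⟨-72,-131,48⟩,⟨-12,-48,-149⟩⟩,true,4,104,.leaf [(1,7693),(2,5652),(4,84),(5,29)],.leaf [(1,7693),(2,5652),(4,84),(5,29)]⟩,
⟨⟨⟨-149,48,-12⟩,⟨-48,-131,72⟩,⟨12,72,139⟩⟩,true,6,77,.leaf [(0,179),(1,81),(3,3),(4,1)],.leaf [(0,179),(1,81),(3,3),(4,1)]⟩,
⟨⟨⟨-149,48,12⟩,⟨-48,-131,-72⟩,⟨-12,-72,139⟩⟩,true,6,80,.leaf [(2,126),(11,137),(15,1),(18,6)],.leaf [(0,119),(2,39),(4,1),(10,21)]⟩,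
⟨⟨⟨51,-12,148⟩,⟨-68,-141,12⟩,⟨132,-68,-51⟩⟩,true,9,46,.leaf [(0,157),(1,8792),(4,29),(5,64)],.leaf [(0,157),(1,8792),(4,29),(5,64)]⟩,
⟨⟨⟨-51,12,148⟩,⟨-68,-141,-12⟩,⟨132,-68,51⟩⟩,true,9,111,.leaf [(1,49298),(4,199),(5,510),(14,87)],.leaf [(1,42233),(4,163),(5,141),(10,13659)]⟩,
⟨⟨⟨-99,-48,112⟩,⟨112,21,108⟩,⟨-48,148,21⟩⟩,true,10,29,.leaf [(0,118),(1,91),(2,78),(5,1)],.leaf [(0,118),(1,91),(2,78),(5,1)]⟩,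
⟨⟨⟨99,48,112⟩,⟨112,21,-108⟩,⟨-48,148,-21⟩⟩,true,10,128,.leaf [(0,100),(1,43),(3,90),(5,1)],.leaf [(0,100),(1,43),(3,90),(5,1)]⟩,
⟨⟨⟨75,40,132⟩,⟨-120,93,40⟩,⟨-68,-120,75⟩⟩,true,11,52,.leaf [(0,80),(1,140),(3,67),(7,1)],.leaf [(0,80),(1,140),(3,67),(7,1)]⟩,
⟨⟨⟨75,40,-132⟩,⟨120,-93,40⟩,⟨-68,-120,-75⟩⟩,true,11,105,.leaf [(0,3),(2,130),(3,172),(4,1)],.leaf [(0,3),(2,130),(3,172),(4,1)]⟩,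
⟨⟨⟨13,156,12⟩,⟨-12,13,-156⟩,⟨-156,12,13⟩⟩,true,12,13,.leaf [(0,4239),(7,198),(11,7850),(14,25)],.leaf [(0,597),(2,50),(7,4),(10,25)]⟩,
⟨⟨⟨13,156,-12⟩,⟨-12,13,156⟩,⟨156,-12,13⟩⟩,true,12,144,.leaf [(0,143),(1,168),(4,1)],.leaf [(0,143),(1,168),(4,1)]⟩,
⟨⟨⟨13,12,156⟩,⟨-156,13,12⟩,⟨-12,-156,13⟩⟩,true,13,12,.leaf [(1,4239),(6,198),(10,7850),(15,25)],.leaf [(1,221841),(6,1137),(15,125),(22,25)]⟩,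
⟨⟨⟨13,12,-156⟩,⟨-156,13,-12⟩,⟨12,156,13⟩⟩,true,13,145,.leaf [(1,1727),(2,157),(4,11),(7,1)],.leaf [(1,1727),(2,157),(4,11),(7,1)]⟩,
⟨⟨⟨13,-132,-84⟩,⟨-84,-77,108⟩,⟨-132,36,-77⟩⟩,true,14,66,.leaf [(1,20096),(3,11775),(4,168),(5,55)],.leaf [(1,20096),(3,11775),(4,168),(5,55)]⟩,
⟨⟨⟨13,-132,84⟩,⟨-84,-77,-108⟩,⟨132,-36,-77⟩⟩,true,14,91,.leaf [(1,92),(2,96),(3,69),(5,1)],.leaf [(1,92),(2,96),(3,69),(5,1)]⟩,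
⟨⟨⟨117,-12,-104⟩,⟨76,117,72⟩,⟨72,-104,93⟩⟩,true,16,34,.leaf [(1,24649),(4,161),(6,81),(15,21)],.leaf [(1,4396),(4,11),(6,18),(10,471)]⟩,
⟨⟨⟨-117,12,-104⟩,⟨76,117,-72⟩,⟨72,-104,-93⟩⟩,true,16,123,.leaf [(0,129),(1,132),(3,44),(6,1)],.leaf [(0,129),(1,132),(3,44),(6,1)]⟩,
⟨⟨⟨-93,-104,72⟩,⟨-72,117,76⟩,⟨-104,12,-117⟩⟩,true,18,60,.leaf [(0,116),(1,147),(3,42),(5,1)],.leaf [(0,116),(1,147),(3,42),(5,1)]⟩,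
⟨⟨⟨-93,-104,-72⟩,⟨72,-117,76⟩,⟨-104,12,117⟩⟩,true,18,97,.leaf [(0,2355),(3,24806),(4,167),(7,2)],.leaf [(0,2355),(3,24806),(4,167),(7,2)]⟩,
⟨⟨⟨93,40,120⟩,⟨120,-75,-68⟩,⟨40,132,-75⟩⟩,true,19,57,.leaf [(0,92),(1,117),(3,78),(5,1)],.leaf [(0,92),(1,117),(3,78),(5,1)]⟩,
⟨⟨⟨93,40,-120⟩,⟨-120,75,-68⟩,⟨40,132,75⟩⟩,true,19,100,.leaf [(1,456),(2,70),(4,5),(18,49)],.leaf [(1,17113),(4,67),(5,133),(10,9891)]⟩,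
⟨⟨⟨21,148,-48⟩,⟨108,21,112⟩,⟨112,-48,-99⟩⟩,true,22,65,.leaf [(0,127),(1,100),(3,60),(4,1)],.leaf [(0,127),(1,100),(3,60),(4,1)]⟩,
⟨⟨⟨21,148,48⟩,⟨-108,-21,112⟩,⟨112,-48,99⟩⟩,true,22,92,.leaf [(0,52),(1,64),(2,117),(4,1)],.leaf [(0,52),(1,64),(2,117),(4,1)]⟩,
⟨⟨⟨-77,36,-132⟩,⟨108,-77,-84⟩,⟨-84,-132,13⟩⟩,true,24,69,.leaf [(0,24649),(4,245),(22,12)],.leaf [(0,107),(3,72),(4,1),(10,6)]⟩,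
⟨⟨⟨-77,36,132⟩,⟨108,-77,84⟩,⟨84,132,13⟩⟩,true,24,88,.leaf [(0,16171),(2,1884),(4,119),(5,48)],.leaf [(0,16171),(2,1884),(4,119),(5,48)]⟩,
⟨⟨⟨-131,48,72⟩,⟨-48,-149,12⟩,⟨72,-12,139⟩⟩,true,26,39,.leaf [(0,785),(2,1099),(4,7),(6,5)],.leaf [(0,785),(2,1099),(4,7),(6,5)]⟩,
⟨⟨⟨-131,48,-72⟩,⟨-48,-149,-12⟩,⟨-72,12,139⟩⟩,true,26,118,.leaf [(0,170),(1,60),(2,27),(4,1)],.leaf [(0,170),(1,60),(2,27),(4,1)]⟩,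
⟨⟨⟨85,-132,0⟩,⟨132,85,0⟩,⟨0,0,157⟩⟩,true,28,0,.leaf [(3,24649),(5,63),(6,77),(14,55)],.leaf [(0,9),(3,340),(6,2),(10,85)]⟩,
⟨⟨⟨-99,112,-48⟩,⟨-48,21,148⟩,⟨112,108,21⟩⟩,true,29,10,.leaf [(0,91),(1,118),(3,78),(4,1)],.leaf [(0,91),(1,118),(3,78),(4,1)]⟩,
⟨⟨⟨-99,112,48⟩,⟨48,-21,148⟩,⟨112,108,-21⟩⟩,true,29,147,.leaf [(0,133),(1,43),(3,57),(4,1)],.leaf [(0,133),(1,43),(3,57),(4,1)]⟩,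
⟨⟨⟨-75,-120,-68⟩,⟨40,-93,120⟩,⟨-132,40,75⟩⟩,true,33,3,.leaf [(1,3140),(3,23079),(4,160),(5,27)],.leaf [(1,3140),(3,23079),(4,160),(5,27)]⟩,
⟨⟨⟨75,120,-68⟩,⟨40,-93,-120⟩,⟨-132,40,-75⟩⟩,true,33,154,.leaf [(0,24649),(4,175),(5,172),(6,42)],.leaf [(0,24649),(4,175),(5,172),(6,42)]⟩,
⟨⟨⟨117,-104,-12⟩,⟨72,93,-104⟩,⟨76,72,117⟩⟩,true,34,16,.leaf [(0,24649),(5,161),(7,81),(14,21)],.leaf [(0,62015),(5,322),(7,270),(10,3297)]⟩,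
⟨⟨⟨117,-104,12⟩,⟨-72,-93,-104⟩,⟨76,72,-117⟩⟩,true,34,141,.leaf [(0,173),(1,129),(2,3),(5,1)],.leaf [(0,173),(1,129),(2,3),(5,1)]⟩,
⟨⟨⟨-141,-68,12⟩,⟨-12,51,148⟩,⟨-68,132,-51⟩⟩,true,35,40,.leaf [(0,8635),(1,8792),(4,35),(5,64)],.leaf [(0,8635),(1,8792),(4,35),(5,64)]⟩,
⟨⟨⟨-141,-68,-12⟩,⟨12,-51,148⟩,⟨-68,132,51⟩⟩,true,35,117,.leaf [(0,10048),(1,5495),(4,56),(5,55)],.leaf [(0,10048),(1,5495),(4,56),(5,55)]⟩,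
⟨⟨⟨-131,72,48⟩,⟨72,139,-12⟩,⟨-48,12,-149⟩⟩,true,39,26,.leaf [(1,785),(3,1099),(5,7),(7,5)],.leaf [(1,785),(3,1099),(5,7),(7,5)]⟩,
⟨⟨⟨-131,72,-48⟩,⟨72,139,12⟩,⟨48,-12,-149⟩⟩,true,39,131,.leaf [(1,1099),(3,785),(5,5),(7,7)],.leaf [(1,1099),(3,785),(5,5),(7,7)]⟩,
⟨⟨⟨-141,12,-68⟩,⟨-68,-51,132⟩,⟨-12,148,51⟩⟩,true,40,35,.leaf [(0,63),(1,95),(3,105),(4,1)],.leaf [(0,63),(1,95),(3,105),(4,1)]⟩,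
⟨⟨⟨141,-12,-68⟩,⟨-68,-51,-132⟩,⟨-12,148,-51⟩⟩,true,40,122,.leaf [(0,30144),(2,785),(5,200),(6,17)],.leaf [(0,30144),(2,785),(5,200),(6,17)]⟩,
⟨⟨⟨51,148,-12⟩,⟨132,-51,-68⟩,⟨-68,12,-141⟩⟩,true,46,9,.leaf [(0,17584),(2,471),(4,129),(5,56)],.leaf [(0,17584),(2,471),(4,129),(5,56)]⟩,
⟨⟨⟨51,148,12⟩,⟨-132,51,-68⟩,⟨-68,12,141⟩⟩,true,46,148,.leaf [(1,73947),(4,284),(7,259),(14,92)],.leaf [(1,252),(2,14),(4,1),(10,83)]⟩,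
⟨⟨⟨-21,112,-108⟩,⟨-48,99,112⟩,⟨148,48,21⟩⟩,true,47,50,.leaf [(0,13),(1,130),(3,90),(4,1)],.leaf [(0,13),(1,130),(3,90),(4,1)]⟩,
⟨⟨⟨-21,112,108⟩,⟨48,-99,112⟩,⟨148,48,-21⟩⟩,true,47,107,.leaf [(0,142),(1,4),(2,69),(4,1)],.leaf [(0,142),(1,4),(2,69),(4,1)]⟩,
⟨⟨⟨-117,76,-72⟩,⟨-12,-117,-104⟩,⟨-104,-72,93⟩⟩,true,49,61,.leaf [(2,3140),(4,20),(7,23),(11,157)],.leaf [(2,26690),(4,143),(7,188),(10,157)]⟩,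
⟨⟨⟨-117,76,72⟩,⟨12,117,-104⟩,⟨-104,-72,-93⟩⟩,true,49,96,.leaf [(1,403647),(5,5235),(14,1490),(18,11618)],.leaf [(1,1377),(3,450),(23,1),(26,20)]⟩,
⟨⟨⟨-21,-108,112⟩,⟨148,21,48⟩,⟨-48,112,99⟩⟩,true,50,47,.leaf [(0,130),(1,13),(2,90),(5,1)],.leaf [(0,130),(1,13),(2,90),(5,1)]⟩,
⟨⟨⟨21,108,112⟩,⟨148,21,-48⟩,⟨-48,112,-99⟩⟩,true,50,110,.leaf [(0,6751),(3,9420),(4,73),(5,100)],.leaf [(0,6751),(3,9420),(4,73),(5,100)]⟩,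
⟨⟨⟨51,-68,132⟩,⟨-12,-141,-68⟩,⟨148,12,-51⟩⟩,true,51,58,.leaf [(0,80),(1,180),(3,3),(5,1)],.leaf [(0,80),(1,180),(3,3),(5,1)]⟩,
⟨⟨⟨51,-68,-132⟩,⟨12,141,-68⟩,⟨148,12,51⟩⟩,true,51,99,.R (.leaf [(0,90),(3,993),(14,2),(27,5)]) (.leaf [(0,189),(3,144),(18,32),(26,1)]) (.leaf [(5,162),(14,21),(23,14),(30,1)]),.leaf [(3,143),(7,1),(10,56)]⟩,
⟨⟨⟨75,132,40⟩,⟨-68,75,-120⟩,⟨-120,40,93⟩⟩,true,52,11,.leaf [(0,140),(1,80),(2,67),(6,1)],.leaf [(0,140),(1,80),(2,67),(6,1)]⟩,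
⟨⟨⟨-75,-132,40⟩,⟨-68,75,120⟩,⟨-120,40,-93⟩⟩,true,52,146,.leaf [(0,172),(1,130),(3,3),(5,1)],.leaf [(0,172),(1,130),(3,3),(5,1)]⟩,
⟨⟨⟨139,-12,-72⟩,⟨12,-149,48⟩,⟨-72,-48,-131⟩⟩,true,53,4,.leaf [(0,65),(1,120),(2,72),(4,1)],.leaf [(0,65),(1,120),(2,72),(4,1)]⟩,
⟨⟨⟨139,-12,72⟩,⟨12,-149,-48⟩,⟨72,48,-131⟩⟩,true,53,153,.leaf [(0,8635),(1,8792),(4,35),(5,64)],.leaf [(0,8635),(1,8792),(4,35),(5,64)]⟩,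
⟨⟨⟨-77,84,108⟩,⟨132,13,84⟩,⟨36,132,-77⟩⟩,true,56,72,.leaf [(0,16171),(3,10833),(4,173),(5,81)],.leaf [(0,16171),(3,10833),(4,173),(5,81)]⟩,
⟨⟨⟨-77,84,-108⟩,⟨132,13,-84⟩,⟨-36,-132,-77⟩⟩,true,56,85,.leaf [(3,24649),(4,96),(7,101),(15,12)],.leaf [(3,25277),(4,84),(7,85),(10,1884)]⟩,
⟨⟨⟨93,120,40⟩,⟨40,-75,132⟩,⟨120,-68,-75⟩⟩,true,57,19,.leaf [(0,117),(1,92),(2,78),(4,1)],.leaf [(0,117),(1,92),(2,78),(4,1)]⟩,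
⟨⟨⟨-93,-120,40⟩,⟨40,-75,-132⟩,⟨120,-68,75⟩⟩,true,57,138,.leaf [(1,73947),(5,655),(6,386),(14,130)],.leaf [(5,9),(10,98596),(15,626),(23,17)]⟩,
⟨⟨⟨51,132,-68⟩,⟨148,-51,12⟩,⟨-12,-68,-141⟩⟩,true,58,51,.leaf [(0,180),(1,80),(2,3),(4,1)],.leaf [(0,180),(1,80),(2,3),(4,1)]⟩,
⟨⟨⟨-51,-132,-68⟩,⟨148,-51,-12⟩,⟨-12,-68,141⟩⟩,true,58,106,.leaf [(4,3),(5,4),(6,2),(14,1)],.leaf [(1,1413),(5,39),(10,2512),(15,4)]⟩,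
⟨⟨⟨-93,72,-104⟩,⟨-104,-117,12⟩,⟨-72,76,117⟩⟩,true,60,18,.leaf [(0,147),(1,116),(2,42),(4,1)],.leaf [(0,147),(1,116),(2,42),(4,1)]⟩,
⟨⟨⟨93,-72,-104⟩,⟨-104,-117,-12⟩,⟨-72,76,-117⟩⟩,true,60,139,.leaf [(1,15386),(2,11775),(4,163),(5,30)],.leaf [(1,15386),(2,11775),(4,163),(5,30)]⟩,
⟨⟨⟨-117,-72,76⟩,⟨-104,93,-72⟩,⟨-12,-104,-117⟩⟩,true,61,49,.leaf [(3,3140),(5,20),(6,23),(10,157)],.leaf [(3,24649),(5,130),(6,172),(15,1)]⟩,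
⟨⟨⟨117,72,76⟩,⟨-104,93,72⟩,⟨-12,-104,117⟩⟩,true,61,108,.leaf [(2,33598),(4,372),(6,113),(18,4553)],.leaf [(0,39),(2,89),(6,1),(10,37)]⟩,
⟨⟨⟨21,-48,148⟩,⟨112,-99,-48⟩,⟨108,112,21⟩⟩,true,65,22,.leaf [(0,100),(1,127),(2,60),(5,1)],.leaf [(0,100),(1,127),(2,60),(5,1)]⟩,
⟨⟨⟨-21,48,148⟩,⟨112,-99,48⟩,⟨108,112,-21⟩⟩,true,65,135,.leaf [(0,20410),(2,10833),(4,169),(5,100)],.leaf [(0,20410),(2,10833),(4,169),(5,100)]⟩,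
⟨⟨⟨13,-84,-132⟩,⟨-132,-77,36⟩,⟨-84,108,-77⟩⟩,true,66,14,.leaf [(1,29516),(3,2355),(4,192),(5,7)],.leaf [(1,29516),(3,2355),(4,192),(5,7)]⟩,
⟨⟨⟨13,-84,132⟩,⟨-132,-77,-36⟩,⟨84,-108,-77⟩⟩,true,66,143,.leaf [(1,25120),(3,10833),(5,161),(6,24)],.leaf [(1,25120),(3,10833),(5,161),(6,24)]⟩,
⟨⟨⟨-77,-132,36⟩,⟨-84,13,-132⟩,⟨108,-84,-77⟩⟩,true,69,24,.leaf [(1,589),(2,270),(5,5),(18,6)],.leaf [(1,161),(2,36),(5,1),(10,12)]⟩,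
⟨⟨⟨-77,-132,-36⟩,⟨-84,13,132⟩,⟨-108,84,-77⟩⟩,true,69,133,.leaf [(1,19625),(3,22608),(4,216),(5,145)],.leaf [(1,19625),(3,22608),(4,216),(5,145)]⟩,
⟨⟨⟨-77,108,84⟩,⟨36,-77,132⟩,⟨132,84,13⟩⟩,true,72,56,.leaf [(0,173),(1,48),(2,12),(4,1)],.leaf [(0,173),(1,48),(2,12),(4,1)]⟩,
⟨⟨⟨-77,108,-84⟩,⟨36,-77,-132⟩,⟨-132,-84,13⟩⟩,true,72,101,.leaf [(0,245),(4,1),(18,12)],.leaf [(0,35011),(4,185),(7,72),(10,942)]⟩,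
⟨⟨⟨-149,-12,48⟩,⟨12,139,72⟩,⟨-48,72,-131⟩⟩,true,77,6,.leaf [(0,4553),(1,10048),(4,1),(5,56)],.leaf [(0,4553),(1,10048),(4,1),(5,56)]⟩,
⟨⟨⟨-149,-12,-48⟩,⟨12,139,-72⟩,⟨48,-72,-131⟩⟩,true,77,151,.leaf [(7,288),(10,55735),(14,299),(18,1884)],.leaf [(3,30144),(10,33127),(14,187),(22,4)]⟩,
⟨⟨⟨-149,12,48⟩,⟨-12,139,-72⟩,⟨-48,-72,-131⟩⟩,true,80,6,.leaf [(3,288),(10,101),(14,1),(18,12)],.leaf [(7,156),(10,24649),(14,169),(23,4)]⟩,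
⟨⟨⟨-149,12,-48⟩,⟨-12,139,72⟩,⟨48,72,-131⟩⟩,true,80,151,.leaf [(0,157),(1,8792),(4,29),(5,64)],.leaf [(0,157),(1,8792),(4,29),(5,64)]⟩,
⟨⟨⟨-77,-108,84⟩,⟨-36,-77,-132⟩,⟨132,-84,13⟩⟩,true,85,56,.leaf [(2,24649),(5,96),(6,101),(14,12)],.leaf [(2,55735),(5,96),(6,299),(10,1884)]⟩,
⟨⟨⟨-77,-108,-84⟩,⟨-36,-77,132⟩,⟨-132,84,13⟩⟩,true,85,101,.leaf [(1,14444),(3,24021),(4,192),(5,31)],.leaf [(1,14444),(3,24021),(4,192),(5,31)]⟩,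
⟨⟨⟨-77,132,36⟩,⟨84,13,132⟩,⟨108,84,-77⟩⟩,true,88,24,.leaf [(0,92),(2,27),(3,96),(4,1)],.leaf [(0,92),(2,27),(3,96),(4,1)]⟩,
⟨⟨⟨-77,132,-36⟩,⟨84,13,-132⟩,⟨-108,-84,-77⟩⟩,true,88,133,.leaf [(0,13188),(3,13345),(7,161),(14,12)],.leaf [(0,42),(3,137),(7,1),(10,6)]⟩,
⟨⟨⟨13,84,-132⟩,⟨132,-77,-36⟩,⟨-84,-108,-77⟩⟩,true,91,14,.leaf [(0,92),(2,69),(3,96),(4,1)],.leaf [(0,92),(2,69),(3,96),(4,1)]⟩,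
⟨⟨⟨13,84,132⟩,⟨132,-77,36⟩,⟨84,108,-77⟩⟩,true,91,143,.leaf [(2,6280),(3,6751),(4,32),(5,47)],.leaf [(2,6280),(3,6751),(4,32),(5,47)]⟩,
⟨⟨⟨21,48,148⟩,⟨112,99,-48⟩,⟨-108,112,-21⟩⟩,true,92,22,.leaf [(0,64),(1,52),(3,117),(5,1)],.leaf [(0,64),(1,52),(3,117),(5,1)]⟩,
⟨⟨⟨-21,-48,148⟩,⟨112,99,48⟩,⟨-108,112,21⟩⟩,true,92,135,.leaf [(0,160),(1,100),(3,27),(5,1)],.leaf [(0,160),(1,100),(3,27),(5,1)]⟩,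
⟨⟨⟨-117,72,76⟩,⟨-104,-93,-72⟩,⟨12,-104,117⟩⟩,true,96,49,.L (.L (.leaf [(0,8635),(1,8792),(4,35),(5,64)]) (.leaf [(0,148),(1,160),(2,165),(4,1)]) (.L (.leaf [(0,168),(1,143),(5,1)]) (.leaf [(0,143),(1,168),(2,168),(4,1)]) (.leaf [(1,1884),(3,22451),(4,144),(7,1)]))) (.leaf [(0,170),(1,195),(2,78),(5,1)]) (.leaf [(0,368),(3,472),(4,3),(10,23)]),.leaf [(0,52),(2,76),(4,1),(10,37)]⟩,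
⟨⟨⟨117,-72,76⟩,⟨-104,-93,72⟩,⟨12,-104,-117⟩⟩,true,96,108,.leaf [(1,13345),(4,101),(5,81),(10,471)],.leaf [(1,49298),(4,355),(5,270),(14,3)]⟩,
⟨⟨⟨-93,-72,-104⟩,⟨-104,117,12⟩,⟨72,76,-117⟩⟩,true,97,18,.leaf [(1,2355),(2,24806),(5,167),(6,2)],.leaf [(1,2355),(2,24806),(5,167),(6,2)]⟩,
⟨⟨⟨93,72,-104⟩,⟨-104,117,-12⟩,⟨72,76,117⟩⟩,true,97,139,.leaf [(1,23236),(2,7065),(4,158),(6,75)],.leaf [(1,23236),(2,7065),(4,158),(6,75)]⟩,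
⟨⟨⟨51,-132,-68⟩,⟨148,51,12⟩,⟨12,-68,141⟩⟩,true,99,51,.leaf [(1,45),(2,429),(15,1),(18,5)],.leaf [(1,3),(2,11),(5,1),(10,53)]⟩,
⟨⟨⟨-51,132,-68⟩,⟨148,51,-12⟩,⟨12,-68,-141⟩⟩,true,99,106,.leaf [(3,24649),(4,192),(5,129),(6,56)],.leaf [(3,24649),(4,192),(5,129),(6,56)]⟩,
⟨⟨⟨93,-120,40⟩,⟨40,75,132⟩,⟨-120,-68,75⟩⟩,true,100,19,.L (.leaf [(0,63),(1,95),(3,105),(4,1)]) (.leaf [(0,1971),(7,6),(11,898),(26,23)]) (.leaf [(0,160),(1,148),(3,165),(5,1)]),.leaf [(0,3),(3,161),(5,1),(10,49)]⟩,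
⟨⟨⟨-93,120,40⟩,⟨40,75,-132⟩,⟨-120,-68,-75⟩⟩,true,100,138,.leaf [(0,78),(2,117),(3,92),(6,1)],.leaf [(0,78),(2,117),(3,92),(6,1)]⟩,
⟨⟨⟨-77,-84,108⟩,⟨-132,13,-84⟩,⟨36,-132,-77⟩⟩,true,101,72,.leaf [(1,204571),(5,995),(6,540),(18,1884)],.leaf [(1,5495),(5,7),(6,18),(10,942)]⟩,
⟨⟨⟨-77,-84,-108⟩,⟨-132,13,84⟩,⟨-36,132,-77⟩⟩,true,101,85,.leaf [(1,27161),(3,11304),(4,216),(5,97)],.leaf [(1,27161),(3,11304),(4,216),(5,97)]⟩,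
⟨⟨⟨139,12,-72⟩,⟨-12,-149,-48⟩,⟨-72,48,-131⟩⟩,true,104,4,.leaf [(1,7),(2,161),(3,17),(4,1)],.leaf [(1,7),(2,161),(3,17),(4,1)]⟩,
⟨⟨⟨139,12,72⟩,⟨-12,-149,48⟩,⟨72,-48,-131⟩⟩,true,104,153,.leaf [(0,5495),(1,10048),(4,55),(5,56)],.leaf [(0,5495),(1,10048),(4,55),(5,56)]⟩,
⟨⟨⟨75,-132,40⟩,⟨-68,-75,-120⟩,⟨120,40,-93⟩⟩,true,105,11,.leaf [(1,3),(2,172),(3,130),(5,1)],.leaf [(1,3),(2,172),(3,130),(5,1)]⟩,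
⟨⟨⟨-75,132,40⟩,⟨-68,-75,120⟩,⟨120,40,93⟩⟩,true,105,146,.leaf [(0,147),(1,80),(2,60),(4,1)],.leaf [(0,147),(1,80),(2,60),(4,1)]⟩,
⟨⟨⟨-51,-68,-132⟩,⟨-12,141,-68⟩,⟨148,-12,-51⟩⟩,true,106,58,.leaf [(4,4),(5,3),(7,2),(15,1)],.leaf [(0,1099),(5,2),(7,30),(10,1413)]⟩,
⟨⟨⟨-51,-68,132⟩,⟨12,-141,-68⟩,⟨148,-12,51⟩⟩,true,106,99,.leaf [(2,24649),(4,129),(5,192),(7,56)],.leaf [(2,24649),(4,129),(5,192),(7,56)]⟩,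
⟨⟨⟨-21,108,112⟩,⟨148,-21,48⟩,⟨48,112,-99⟩⟩,true,107,47,.leaf [(0,9263),(3,942),(4,71),(5,26)],.leaf [(0,9263),(3,942),(4,71),(5,26)]⟩,
⟨⟨⟨21,-108,112⟩,⟨148,-21,-48⟩,⟨48,112,99⟩⟩,true,107,110,.leaf [(0,90),(2,130),(3,13),(5,1)],.leaf [(0,90),(2,130),(3,13),(5,1)]⟩,
⟨⟨⟨117,76,72⟩,⟨-12,117,-104⟩,⟨-104,72,93⟩⟩,true,108,61,.R (.leaf [(3,5805),(7,18),(18,496),(27,23)]) (.leaf [(3,81),(18,1103),(23,7),(26,29)]) (.leaf [(7,27),(18,98596),(23,626),(31,17)]),.leaf [(1,1485),(3,840),(10,472),(15,1)]⟩,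
⟨⟨⟨117,76,-72⟩,⟨12,-117,-104⟩,⟨-104,72,-93⟩⟩,true,108,96,.leaf [(0,13345),(4,81),(5,101),(11,471)],.leaf [(0,83995),(4,450),(5,596),(10,471)]⟩,
⟨⟨⟨21,112,108⟩,⟨-48,-99,112⟩,⟨148,-48,21⟩⟩,true,110,50,.leaf [(0,73),(1,4),(2,138),(4,1)],.leaf [(0,73),(1,4),(2,138),(4,1)]⟩,
⟨⟨⟨21,112,-108⟩,⟨48,99,112⟩,⟨148,-48,-21⟩⟩,true,110,107,.leaf [(1,90),(2,13),(3,130),(4,1)],.leaf [(1,90),(2,13),(3,130),(4,1)]⟩,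
⟨⟨⟨-51,148,12⟩,⟨132,51,-68⟩,⟨-68,-12,-141⟩⟩,true,111,9,.leaf [(0,49298),(4,510),(5,199),(15,87)],.leaf [(0,111),(3,172),(4,2),(10,83)]⟩,
⟨⟨⟨-51,148,-12⟩,⟨-132,-51,-68⟩,⟨-68,-12,141⟩⟩,true,111,148,.leaf [(0,471),(2,17584),(4,129),(7,56)],.leaf [(0,471),(2,17584),(4,129),(7,56)]⟩,
⟨⟨⟨-141,-12,-68⟩,⟨-68,51,132⟩,⟨12,148,-51⟩⟩,true,117,35,.leaf [(1,14444),(3,16485),(4,160),(5,63)],.leaf [(1,14444),(3,16485),(4,160),(5,63)]⟩,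
⟨⟨⟨141,12,-68⟩,⟨-68,51,-132⟩,⟨12,148,51⟩⟩,true,117,122,.leaf [(2,24649),(4,165),(5,160),(6,148)],.leaf [(2,24649),(4,165),(5,160),(6,148)]⟩,
⟨⟨⟨-131,-72,48⟩,⟨-72,139,12⟩,⟨-48,-12,-149⟩⟩,true,118,26,.leaf [(0,60),(1,170),(3,27),(5,1)],.leaf [(0,60),(1,170),(3,27),(5,1)]⟩,
⟨⟨⟨-131,-72,-48⟩,⟨-72,139,-12⟩,⟨48,12,-149⟩⟩,true,118,131,.leaf [(1,98),(2,84),(3,3),(5,1)],.leaf [(1,98),(2,84),(3,3),(5,1)]⟩,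
⟨⟨⟨141,-68,-12⟩,⟨-12,-51,148⟩,⟨-68,-132,-51⟩⟩,true,122,40,.leaf [(1,30144),(3,785),(4,200),(7,17)],.leaf [(1,30144),(3,785),(4,200),(7,17)]⟩,
⟨⟨⟨141,-68,12⟩,⟨12,51,148⟩,⟨-68,-132,51⟩⟩,true,122,117,.leaf [(3,24649),(4,160),(5,165),(7,148)],.leaf [(3,24649),(4,160),(5,165),(7,148)]⟩,
⟨⟨⟨-117,-104,12⟩,⟨72,-93,-104⟩,⟨76,-72,117⟩⟩,true,123,16,.leaf [(0,132),(1,129),(2,44),(7,1)],.leaf [(0,132),(1,129),(2,44),(7,1)]⟩,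
⟨⟨⟨-117,-104,-12⟩,⟨-72,93,-104⟩,⟨76,-72,-117⟩⟩,true,123,141,.leaf [(2,24649),(5,165),(7,77),(14,21)],.leaf [(2,39407),(5,141),(7,217),(10,3297)]⟩,
⟨⟨⟨-75,120,-68⟩,⟨40,93,120⟩,⟨132,40,-75⟩⟩,true,124,3,.leaf [(0,27),(1,50),(3,138),(4,1)],.leaf [(0,27),(1,50),(3,138),(4,1)]⟩,
⟨⟨⟨75,-120,-68⟩,⟨40,93,-120⟩,⟨132,40,75⟩⟩,true,124,154,.leaf [(0,314),(1,2669),(5,5),(6,18)],.leaf [(0,314),(1,2669),(5,5),(6,18)]⟩,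
⟨⟨⟨99,112,48⟩,⟨-48,-21,148⟩,⟨112,-108,21⟩⟩,true,128,10,.leaf [(0,43),(1,100),(2,90),(4,1)],.leaf [(0,43),(1,100),(2,90),(4,1)]⟩,
⟨⟨⟨99,112,-48⟩,⟨48,21,148⟩,⟨112,-108,-21⟩⟩,true,128,147,.leaf [(0,91),(1,169),(3,27),(4,1)],.leaf [(0,91),(1,169),(3,27),(4,1)]⟩,
⟨⟨⟨85,132,0⟩,⟨-132,85,0⟩,⟨0,0,157⟩⟩,true,129,0,.leaf [(4,2646),(11,91217),(15,877),(18,11618)],.leaf [(1,63),(2,77),(7,1),(10,55)]⟩,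
⟨⟨⟨-131,-48,72⟩,⟨48,-149,-12⟩,⟨72,12,139⟩⟩,true,131,39,.leaf [(0,1099),(2,785),(4,5),(6,7)],.leaf [(0,1099),(2,785),(4,5),(6,7)]⟩,
⟨⟨⟨-131,-48,-72⟩,⟨48,-149,12⟩,⟨-72,-12,139⟩⟩,true,131,118,.leaf [(0,98),(2,3),(3,84),(4,1)],.leaf [(0,98),(2,3),(3,84),(4,1)]⟩,
⟨⟨⟨-77,-36,-132⟩,⟨-108,-77,84⟩,⟨-84,132,13⟩⟩,true,133,69,.leaf [(0,41),(1,144),(3,72),(4,1)],.leaf [(0,41),(1,144),(3,72),(4,1)]⟩,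
⟨⟨⟨-77,-36,132⟩,⟨-108,-77,-84⟩,⟨84,-132,13⟩⟩,true,133,88,.leaf [(1,13188),(2,13345),(6,161),(15,12)],.leaf [(1,96),(2,101),(6,1),(10,12)]⟩,
⟨⟨⟨-21,148,48⟩,⟨108,-21,112⟩,⟨112,48,-99⟩⟩,true,135,65,.leaf [(0,169),(1,52),(3,12),(4,1)],.leaf [(0,169),(1,52),(3,12),(4,1)]⟩,
⟨⟨⟨-21,148,-48⟩,⟨-108,21,112⟩,⟨112,48,99⟩⟩,true,135,92,.leaf [(0,100),(1,160),(2,27),(4,1)],.leaf [(0,100),(1,160),(2,27),(4,1)]⟩,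
⟨⟨⟨-93,40,-120⟩,⟨120,75,-68⟩,⟨40,-132,-75⟩⟩,true,138,57,.leaf [(0,73947),(4,655),(7,386),(15,130)],.leaf [(3,5024),(4,53),(7,56),(10,3297)]⟩,
⟨⟨⟨-93,40,120⟩,⟨-120,-75,-68⟩,⟨40,-132,75⟩⟩,true,138,100,.leaf [(1,78),(2,92),(3,117),(7,1)],.leaf [(1,78),(2,92),(3,117),(7,1)]⟩,
⟨⟨⟨93,-104,-72⟩,⟨-72,-117,76⟩,⟨-104,-12,-117⟩⟩,true,139,60,.leaf [(1,24806),(2,2355),(4,167),(5,2)],.leaf [(1,24806),(2,2355),(4,167),(5,2)]⟩,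
⟨⟨⟨93,-104,72⟩,⟨72,117,76⟩,⟨-104,-12,117⟩⟩,true,139,97,.leaf [(0,23236),(3,7065),(5,158),(7,75)],.leaf [(0,23236),(3,7065),(5,158),(7,75)]⟩,
⟨⟨⟨117,12,-104⟩,⟨76,-117,72⟩,⟨-72,-104,-93⟩⟩,true,141,34,.leaf [(0,129),(1,173),(3,3),(4,1)],.leaf [(0,129),(1,173),(3,3),(4,1)]⟩,
⟨⟨⟨-117,-12,-104⟩,⟨76,-117,-72⟩,⟨-72,-104,93⟩⟩,true,141,123,.leaf [(3,24649),(4,165),(6,77),(15,21)],.leaf [(3,53380),(4,255),(6,182),(10,3297)]⟩,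
⟨⟨⟨13,132,-84⟩,⟨84,-77,-108⟩,⟨-132,-36,-77⟩⟩,true,143,66,.leaf [(0,25120),(2,10833),(4,161),(7,24)],.leaf [(0,25120),(2,10833),(4,161),(7,24)]⟩,
⟨⟨⟨13,132,84⟩,⟨84,-77,108⟩,⟨132,36,-77⟩⟩,true,143,91,.leaf [(0,152),(1,24),(2,57),(4,1)],.leaf [(0,152),(1,24),(2,57),(4,1)]⟩,
⟨⟨⟨13,-12,156⟩,⟨156,13,-12⟩,⟨-12,156,13⟩⟩,true,144,12,.leaf [(0,168),(1,143),(5,1)],.leaf [(0,168),(1,143),(5,1)]⟩,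
⟨⟨⟨13,-12,-156⟩,⟨156,13,12⟩,⟨12,-156,13⟩⟩,true,144,145,.leaf [(3,126699),(4,693),(15,25),(18,3925)],.leaf [(1,27),(3,558),(10,92),(15,1)]⟩,
⟨⟨⟨13,-156,12⟩,⟨12,13,156⟩,⟨-156,-12,13⟩⟩,true,145,13,.leaf [(0,1727),(3,157),(5,11),(6,1)],.leaf [(0,1727),(3,157),(5,11),(6,1)]⟩,
⟨⟨⟨13,-156,-12⟩,⟨12,13,-156⟩,⟨156,12,13⟩⟩,true,145,144,.leaf [(2,1137),(5,9),(11,125),(18,25)],.leaf [(0,25),(2,622),(5,4),(10,25)]⟩,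
⟨⟨⟨-75,40,-132⟩,⟨-120,-93,40⟩,⟨-68,120,75⟩⟩,true,146,52,.leaf [(0,130),(1,172),(2,3),(4,1)],.leaf [(0,130),(1,172),(2,3),(4,1)]⟩,
⟨⟨⟨-75,40,132⟩,⟨120,93,40⟩,⟨-68,120,-75⟩⟩,true,146,105,.leaf [(0,80),(1,147),(3,60),(5,1)],.leaf [(0,80),(1,147),(3,60),(5,1)]⟩,
⟨⟨⟨-99,48,112⟩,⟨112,-21,108⟩,⟨48,148,-21⟩⟩,true,147,29,.leaf [(2,10205),(3,9263),(4,45),(5,71)],.leaf [(2,10205),(3,9263),(4,45),(5,71)]⟩,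
⟨⟨⟨99,-48,112⟩,⟨112,-21,-108⟩,⟨48,148,21⟩⟩,true,147,128,.leaf [(0,169),(1,91),(2,27),(5,1)],.leaf [(0,169),(1,91),(2,27),(5,1)]⟩,
⟨⟨⟨51,12,148⟩,⟨-68,141,12⟩,⟨-132,-68,51⟩⟩,true,148,46,.leaf [(0,73947),(5,284),(6,259),(15,92)],.leaf [(3,14758),(5,98),(6,81),(10,4553)]⟩,
⟨⟨⟨-51,-12,148⟩,⟨-68,141,-12⟩,⟨-132,-68,-51⟩⟩,true,148,111,.leaf [(1,471),(3,17584),(5,129),(6,56)],.leaf [(1,471),(3,17584),(5,129),(6,56)]⟩,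
⟨⟨⟨-149,-48,-12⟩,⟨48,-131,-72⟩,⟨12,-72,139⟩⟩,true,151,77,.leaf [(6,252),(11,25277),(15,85),(18,1884)],.leaf [(0,18),(2,140),(6,1),(10,21)]⟩,
⟨⟨⟨-149,-48,12⟩,⟨48,-131,72⟩,⟨-12,72,139⟩⟩,true,151,80,.leaf [(0,8635),(3,471),(4,65),(5,27)],.leaf [(0,8635),(3,471),(4,65),(5,27)]⟩,
⟨⟨⟨139,72,-12⟩,⟨72,-131,48⟩,⟨12,-48,-149⟩⟩,true,153,53,.leaf [(0,98),(1,60),(2,105),(4,1)],.leaf [(0,98),(1,60),(2,105),(4,1)]⟩,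
⟨⟨⟨139,72,12⟩,⟨72,-131,-48⟩,⟨-12,48,-149⟩⟩,true,153,104,.leaf [(0,14758),(2,16485),(4,161),(5,60)],.leaf [(0,14758),(2,16485),(4,161),(5,60)]⟩,
⟨⟨⟨75,-68,120⟩,⟨-132,-75,40⟩,⟨40,-120,-93⟩⟩,true,154,33,.leaf [(1,24649),(4,172),(5,175),(7,42)],.leaf [(1,24649),(4,172),(5,175),(7,42)]⟩,
⟨⟨⟨75,-68,-120⟩,⟨132,75,40⟩,⟨40,-120,93⟩⟩,true,154,124,.leaf [(0,2669),(1,314),(4,5),(7,18)],.leaf [(0,2669),(1,314),(4,5),(7,18)]⟩]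

theorem primeOk_157 : PrimeOk 157 := primeOk (by norm_num) (by norm_num) (by norm_num) L157
  (by decide +kernel) (by decide +kernel)

def L281 : List Cls := [
⟨⟨⟨-281,0,0⟩,⟨0,231,160⟩,⟨0,160,-231⟩⟩,false,0,53,.leaf [(0,1405),(1,4496),(4,5),(5,16)],.leaf [(0,1405),(1,4496),(4,5),(5,16)]⟩,
⟨⟨⟨-281,0,0⟩,⟨0,-231,160⟩,⟨0,160,231⟩⟩,false,0,228,.leaf [(0,231),(1,55),(3,105),(4,1)],.leaf [(0,231),(1,55),(3,105),(4,1)]⟩,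
⟨⟨⟨231,0,160⟩,⟨0,-281,0⟩,⟨160,0,-231⟩⟩,true,0,53,.leaf [(0,3091),(1,4496),(4,11),(5,16)],.leaf [(0,3091),(1,4496),(4,11),(5,16)]⟩,
⟨⟨⟨-231,0,160⟩,⟨0,-281,0⟩,⟨160,0,231⟩⟩,true,0,228,.leaf [(2,78961),(4,281),(5,336),(7,176)],.leaf [(2,78961),(4,281),(5,336),(7,176)]⟩,
⟨⟨⟨81,-200,-180⟩,⟨-200,81,-180⟩,⟨180,180,-119⟩⟩,true,1,29,.leaf [(0,50580),(2,78961),(5,360),(6,61)],.leaf [(0,50580),(2,78961),(5,360),(6,61)]⟩,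
⟨⟨⟨81,-200,180⟩,⟨-200,81,180⟩,⟨-180,-180,-119⟩⟩,true,1,252,.leaf [(1,9),(2,20),(3,290),(5,1)],.leaf [(1,9),(2,20),(3,290),(5,1)]⟩,
⟨⟨⟨-183,196,84⟩,⟨196,111,168⟩,⟨84,168,-209⟩⟩,true,2,41,.leaf [(0,2810),(3,7587),(4,38),(5,15)],.leaf [(0,2810),(3,7587),(4,38),(5,15)]⟩,
⟨⟨⟨-183,196,-84⟩,⟨196,111,-168⟩,⟨-84,-168,-209⟩⟩,true,2,240,.leaf [(3,78961),(4,294),(5,293),(6,266)],.leaf [(3,78961),(4,294),(5,293),(6,266)]⟩,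
⟨⟨⟨-249,96,88⟩,⟨96,7,264⟩,⟨88,264,-39⟩⟩,true,3,73,.leaf [(0,8711),(3,15174),(4,79),(5,10)],.leaf [(0,8711),(3,15174),(4,79),(5,10)]⟩,
⟨⟨⟨249,-96,88⟩,⟨96,7,-264⟩,⟨88,264,39⟩⟩,true,3,208,.leaf [(0,285),(1,49),(2,75),(5,1)],.leaf [(0,285),(1,49),(2,75),(5,1)]⟩,
⟨⟨⟨249,-128,-24⟩,⟨-128,-231,-96⟩,⟨24,96,-263⟩⟩,true,4,71,.leaf [(0,6182),(1,4777),(4,10),(5,23)],.leaf [(0,6182),(1,4777),(4,10),(5,23)]⟩,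
⟨⟨⟨249,-128,24⟩,⟨-128,-231,96⟩,⟨-24,-96,-263⟩⟩,true,4,210,.leaf [(1,50299),(2,33720),(4,296),(5,101)],.leaf [(1,50299),(2,33720),(4,296),(5,101)]⟩,
⟨⟨⟨273,-56,36⟩,⟨-56,-111,252⟩,⟨-36,-252,-119⟩⟩,true,7,136,.leaf [(1,33439),(2,1686),(4,134),(5,29)],.leaf [(1,33439),(2,1686),(4,134),(5,29)]⟩,
⟨⟨⟨273,-56,-36⟩,⟨-56,-111,-252⟩,⟨36,252,-119⟩⟩,true,7,145,.leaf [(0,15455),(1,3934),(4,1),(5,50)],.leaf [(0,15455),(1,3934),(4,1),(5,50)]⟩,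
⟨⟨⟨79,228,-144⟩,⟨252,-9,124⟩,⟨96,-164,-207⟩⟩,true,10,112,.leaf [(0,71),(2,166),(3,268),(4,1)],.leaf [(0,71),(2,166),(3,268),(4,1)]⟩,
⟨⟨⟨79,228,144⟩,⟨-252,9,124⟩,⟨96,-164,207⟩⟩,true,10,169,.leaf [(1,32),(2,1260),(4,5),(18,33)],.leaf [(1,244),(2,153),(4,1),(10,66)]⟩,
⟨⟨⟨-201,-164,-108⟩,⟨196,-177,-96⟩,⟨-12,-144,241⟩⟩,true,12,97,.leaf [(0,6744),(4,21),(10,1967),(14,8)],.leaf [(3,16017),(4,54),(10,3934),(23,1)]⟩,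
⟨⟨⟨-201,-164,108⟩,⟨196,-177,96⟩,⟨12,144,241⟩⟩,true,12,184,.leaf [(4,108),(5,630),(11,78961),(15,175)],.leaf [(0,57),(2,1042),(5,4),(10,133)]⟩,
⟨⟨⟨9,-164,228⟩,⟨124,207,144⟩,⟨-252,96,79⟩⟩,true,13,119,.leaf [(0,260),(1,74),(3,75),(5,1)],.leaf [(0,260),(1,74),(3,75),(5,1)]⟩,
⟨⟨⟨9,-164,-228⟩,⟨124,207,-144⟩,⟨252,-96,79⟩⟩,true,13,162,.leaf [(1,78961),(4,71),(5,173),(6,339)],.leaf [(1,78961),(4,71),(5,173),(6,339)]⟩,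
⟨⟨⟨25,144,240⟩,⟨-240,135,-56⟩,⟨-144,-200,135⟩⟩,true,17,122,.leaf [(3,12364),(4,21),(6,46),(18,2529)],.leaf [(1,230420),(4,305),(10,74746),(14,89)]⟩,
⟨⟨⟨25,144,-240⟩,⟨240,-135,-56⟩,⟨-144,-200,-135⟩⟩,true,17,159,.leaf [(0,279),(1,124),(3,60),(4,1)],.leaf [(0,279),(1,124),(3,60),(4,1)]⟩,
⟨⟨⟨79,96,252⟩,⟨-144,-207,124⟩,⟨228,-164,-9⟩⟩,true,19,85,.leaf [(2,78961),(4,295),(5,64),(6,56)],.leaf [(2,78961),(4,295),(5,64),(6,56)]⟩,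
⟨⟨⟨79,96,-252⟩,⟨144,207,124⟩,⟨228,-164,9⟩⟩,true,19,196,.leaf [(4,540),(7,432),(10,78961),(14,19)],.L (.leaf [(0,34844),(3,7587),(4,148),(5,19)]) (.leaf [(0,166071),(4,519),(11,75308),(15,28)]) (.leaf [(0,1967),(1,6463),(4,7),(5,23)])⟩,
⟨⟨⟨177,-144,-164⟩,⟨96,241,-108⟩,⟨196,12,201⟩⟩,true,23,34,.leaf [(3,7025),(7,29),(11,1967),(15,5)],.leaf [(0,81),(3,241),(7,1),(10,51)]⟩,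
⟨⟨⟨-177,144,-164⟩,⟨96,241,108⟩,⟨196,12,-201⟩⟩,true,23,247,.leaf [(4,591),(5,4788),(14,874),(18,78961)],.leaf [(3,8149),(4,31),(10,281),(15,3)]⟩,
⟨⟨⟨207,-164,-96⟩,⟨124,9,252⟩,⟨-144,-228,79⟩⟩,true,25,138,.leaf [(3,2112),(4,9),(10,472),(18,217)],.leaf [(1,2943),(3,1365),(10,1085),(14,1)]⟩,
⟨⟨⟨207,-164,96⟩,⟨124,9,-252⟩,⟨144,228,79⟩⟩,true,25,143,.leaf [(0,236),(1,17),(2,156),(5,1)],.leaf [(0,236),(1,17),(2,156),(5,1)]⟩,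
⟨⟨⟨9,252,124⟩,⟨-228,79,-144⟩,⟨-164,-96,207⟩⟩,true,28,45,.leaf [(1,256272),(4,805),(7,1280),(18,12083)],.leaf [(1,59853),(4,146),(7,7),(10,24166)]⟩,
⟨⟨⟨-9,-252,124⟩,⟨-228,79,144⟩,⟨-164,-96,-207⟩⟩,true,28,236,.leaf [(1,10),(2,156),(3,321),(5,1)],.leaf [(1,10),(2,156),(3,321),(5,1)]⟩,
⟨⟨⟨81,-180,-200⟩,⟨180,-119,180⟩,⟨-200,-180,81⟩⟩,true,29,1,.leaf [(1,50580),(3,78961),(4,360),(7,61)],.leaf [(1,50580),(3,78961),(4,360),(7,61)]⟩,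
⟨⟨⟨-81,180,-200⟩,⟨180,-119,-180⟩,⟨-200,-180,-81⟩⟩,true,29,280,.leaf [(0,290),(1,20),(2,9),(4,1)],.leaf [(0,290),(1,20),(2,9),(4,1)]⟩,
⟨⟨⟨-47,276,24⟩,⟨84,-9,268⟩,⟨264,52,-81⟩⟩,true,30,137,.leaf [(0,285),(1,199),(3,45),(4,1)],.leaf [(0,285),(1,199),(3,45),(4,1)]⟩,
⟨⟨⟨-47,276,-24⟩,⟨-84,9,268⟩,⟨264,52,81⟩⟩,true,30,144,.leaf [(0,261),(1,292),(2,6),(4,1)],.leaf [(0,261),(1,292),(2,6),(4,1)]⟩,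
⟨⟨⟨-119,-36,252⟩,⟨-36,-273,-56⟩,⟨252,-56,111⟩⟩,true,31,64,.leaf [(2,78961),(4,175),(5,196),(6,134)],.leaf [(2,78961),(4,175),(5,196),(6,134)]⟩,
⟨⟨⟨-119,-36,-252⟩,⟨36,273,-56⟩,⟨252,-56,-111⟩⟩,true,31,217,.leaf [(1,93573),(7,1392),(10,103408),(15,23)],.leaf [(10,265545),(14,2133),(26,56762),(31,20)]⟩,
⟨⟨⟨-135,-240,-56⟩,⟨-144,25,240⟩,⟨-200,144,-135⟩⟩,true,33,92,.leaf [(1,60415),(3,74184),(4,384),(5,265)],.leaf [(1,60415),(3,74184),(4,384),(5,265)]⟩,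
⟨⟨⟨135,240,-56⟩,⟨-144,25,-240⟩,⟨-200,144,135⟩⟩,true,33,189,.leaf [(2,177873),(4,741),(14,112),(18,10678)],.leaf [(0,91),(1,988),(4,2),(10,339)]⟩,
⟨⟨⟨177,-164,-144⟩,⟨196,201,12⟩,⟨96,-108,241⟩⟩,true,34,23,.leaf [(2,7025),(6,29),(10,1967),(14,5)],.leaf [(1,73341),(5,1383),(10,150616),(15,68)]⟩,
⟨⟨⟨177,-164,144⟩,⟨196,201,-12⟩,⟨-96,108,241⟩⟩,true,34,258,.leaf [(5,270),(6,453),(11,37654),(18,12083)],.leaf [(0,203163),(5,820),(6,2),(10,19951)]⟩,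
⟨⟨⟨9,52,-276⟩,⟨268,81,24⟩,⟨84,-264,-47⟩⟩,true,37,63,.leaf [(1,10397),(3,36811),(4,133),(6,29)],.leaf [(1,10397),(3,36811),(4,133),(6,29)]⟩,
⟨⟨⟨9,52,276⟩,⟨268,81,-24⟩,⟨-84,264,-47⟩⟩,true,37,218,.leaf [(1,9),(2,212),(3,314),(5,1)],.leaf [(1,9),(2,212),(3,314),(5,1)]⟩,
⟨⟨⟨81,268,-24⟩,⟨52,9,276⟩,⟨264,-84,-47⟩⟩,true,38,135,.leaf [(0,259),(1,294),(3,6),(4,1)],.leaf [(0,259),(1,294),(3,6),(4,1)]⟩,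
⟨⟨⟨81,268,24⟩,⟨52,9,-276⟩,⟨-264,84,-47⟩⟩,true,38,146,.leaf [(0,78961),(4,289),(5,348),(6,246)],.leaf [(0,78961),(4,289),(5,348),(6,246)]⟩,
⟨⟨⟨111,-56,252⟩,⟨-56,-273,-36⟩,⟨252,-36,-119⟩⟩,true,40,101,.leaf [(0,1405),(1,4496),(4,5),(5,16)],.leaf [(0,1405),(1,4496),(4,5),(5,16)]⟩,
⟨⟨⟨111,-56,-252⟩,⟨-56,-273,36⟩,⟨-252,36,-119⟩⟩,true,40,180,.leaf [(0,169),(1,288),(2,48),(4,1)],.leaf [(0,169),(1,288),(2,48),(4,1)]⟩,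
⟨⟨⟨-183,84,196⟩,⟨84,-209,168⟩,⟨196,168,111⟩⟩,true,41,2,.leaf [(0,19670),(2,7587),(4,85),(5,28)],.leaf [(0,19670),(2,7587),(4,85),(5,28)]⟩,
⟨⟨⟨183,-84,196⟩,⟨84,-209,-168⟩,⟨196,168,-111⟩⟩,true,41,279,.leaf [(0,252),(1,286),(3,21),(5,1)],.leaf [(0,252),(1,286),(3,21),(5,1)]⟩,
⟨⟨⟨201,12,196⟩,⟨-108,241,96⟩,⟨-164,-144,177⟩⟩,true,42,124,.leaf [(0,132),(1,234),(3,139),(7,1)],.leaf [(0,132),(1,234),(3,139),(7,1)]⟩,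
⟨⟨⟨-201,-12,196⟩,⟨-108,241,-96⟩,⟨-164,-144,-177⟩⟩,true,42,157,.leaf [(1,4777),(3,281),(5,13),(7,11)],.leaf [(1,4777),(3,281),(5,13),(7,11)]⟩,
⟨⟨⟨9,124,252⟩,⟨-164,207,-96⟩,⟨-228,-144,79⟩⟩,true,45,28,.leaf [(0,204849),(6,405),(18,14050),(23,4)],.leaf [(0,107904),(5,176),(6,505),(10,12083)]⟩,
⟨⟨⟨9,124,-252⟩,⟨-164,207,96⟩,⟨228,144,79⟩⟩,true,45,253,.leaf [(1,78961),(4,335),(5,149),(6,75)],.leaf [(1,78961),(4,335),(5,149),(6,75)]⟩,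
⟨⟨⟨-209,84,168⟩,⟨84,-183,196⟩,⟨168,196,111⟩⟩,true,48,96,.leaf [(0,267),(1,1),(3,27),(4,1)],.leaf [(0,267),(1,1),(3,27),(4,1)]⟩,
⟨⟨⟨-209,84,-168⟩,⟨-84,183,196⟩,⟨168,196,-111⟩⟩,true,48,185,.leaf [(1,29224),(3,5901),(4,112),(5,99)],.leaf [(1,29224),(3,5901),(4,112),(5,99)]⟩,
⟨⟨⟨-39,-264,88⟩,⟨-264,7,-96⟩,⟨88,-96,-249⟩⟩,true,50,77,.leaf [(0,168),(1,316),(3,21),(5,1)],.leaf [(0,168),(1,316),(3,21),(5,1)]⟩,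
⟨⟨⟨39,264,88⟩,⟨-264,7,96⟩,⟨88,-96,249⟩⟩,true,50,204,.leaf [(1,7587),(2,34844),(4,148),(7,19)],.leaf [(1,7587),(2,34844),(4,148),(7,19)]⟩,
⟨⟨⟨231,160,0⟩,⟨160,-231,0⟩,⟨0,0,-281⟩⟩,true,53,0,.leaf [(0,160),(2,231),(4,1)],.leaf [(0,160),(2,231),(4,1)]⟩,
⟨⟨⟨-47,84,264⟩,⟨276,-9,52⟩,⟨24,268,-81⟩⟩,true,58,102,.leaf [(2,34282),(3,41869),(4,58),(5,157)],.leaf [(2,34282),(3,41869),(4,58),(5,157)]⟩,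
⟨⟨⟨-47,84,-264⟩,⟨-276,9,52⟩,⟨24,268,81⟩⟩,true,58,179,.leaf [(0,75),(1,310),(3,6),(4,1)],.leaf [(0,75),(1,310),(3,6),(4,1)]⟩,
⟨⟨⟨9,268,84⟩,⟨52,81,-264⟩,⟨-276,24,-47⟩⟩,true,61,103,.leaf [(3,78961),(4,9),(5,323),(6,221)],.leaf [(3,78961),(4,9),(5,323),(6,221)]⟩,
⟨⟨⟨9,268,-84⟩,⟨52,81,264⟩,⟨276,-24,-47⟩⟩,true,61,178,.leaf [(1,59),(2,187),(3,289),(4,1)],.leaf [(1,59),(2,187),(3,289),(4,1)]⟩,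
⟨⟨⟨9,-276,52⟩,⟨84,-47,-264⟩,⟨268,24,81⟩⟩,true,63,37,.leaf [(0,10397),(2,36811),(5,133),(7,29)],.leaf [(0,10397),(2,36811),(5,133),(7,29)]⟩,
⟨⟨⟨-9,276,52⟩,⟨84,-47,264⟩,⟨268,24,-81⟩⟩,true,63,244,.leaf [(0,314),(1,212),(2,9),(4,1)],.leaf [(0,314),(1,212),(2,9),(4,1)]⟩,
⟨⟨⟨-119,252,-36⟩,⟨252,111,-56⟩,⟨-36,-56,-273⟩⟩,true,64,31,.leaf [(3,78961),(4,196),(5,175),(7,134)],.leaf [(3,78961),(4,196),(5,175),(7,134)]⟩,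
⟨⟨⟨-119,252,36⟩,⟨-252,-111,-56⟩,⟨-36,-56,273⟩⟩,true,64,250,.leaf [(2,102846),(4,531),(11,25852),(14,23)],.leaf [(0,92),(2,248),(4,1),(10,23)]⟩,
⟨⟨⟨231,-128,96⟩,⟨-128,-249,-24⟩,⟨96,-24,-263⟩⟩,true,70,88,.leaf [(0,3653),(1,5620),(4,13),(5,20)],.leaf [(0,3653),(1,5620),(4,13),(5,20)]⟩,
⟨⟨⟨231,-128,-96⟩,⟨-128,-249,24⟩,⟨-96,24,-263⟩⟩,true,70,193,.leaf [(1,48613),(2,48051),(4,323),(5,59)],.leaf [(1,48613),(2,48051),(4,323),(5,59)]⟩,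
⟨⟨⟨249,-24,-128⟩,⟨24,-263,96⟩,⟨-128,-96,-231⟩⟩,true,71,4,.leaf [(0,119),(1,224),(2,120),(4,1)],.leaf [(0,119),(1,224),(2,120),(4,1)]⟩,
⟨⟨⟨-249,24,-128⟩,⟨24,-263,-96⟩,⟨-128,-96,231⟩⟩,true,71,277,.leaf [(0,287),(1,23),(3,9),(4,1)],.leaf [(0,287),(1,23),(3,9),(4,1)]⟩,
⟨⟨⟨-249,88,96⟩,⟨88,-39,264⟩,⟨96,264,7⟩⟩,true,73,3,.leaf [(0,42431),(3,53109),(4,305),(5,21)],.leaf [(0,42431),(3,53109),(4,305),(5,21)]⟩,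
⟨⟨⟨-249,88,-96⟩,⟨88,-39,-264⟩,⟨-96,-264,7⟩⟩,true,73,278,.leaf [(0,25009),(3,47208),(4,124),(6,189)],.leaf [(0,25009),(3,47208),(4,124),(6,189)]⟩,
⟨⟨⟨-207,-144,124⟩,⟨96,79,252⟩,⟨-164,228,-9⟩⟩,true,74,108,.leaf [(0,30067),(1,20513),(4,47),(5,109)],.leaf [(0,30067),(1,20513),(4,47),(5,109)]⟩,
⟨⟨⟨207,144,124⟩,⟨96,79,-252⟩,⟨-164,228,9⟩⟩,true,74,173,.leaf [(0,17631),(3,14220),(18,3026),(22,1)],.leaf [(0,41),(3,287),(5,1),(10,43)]⟩,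
⟨⟨⟨135,144,-200⟩,⟨-240,25,-144⟩,⟨-56,240,135⟩⟩,true,76,113,.leaf [(1,96),(2,169),(4,1),(18,10)],.leaf [(1,456),(2,19),(4,1),(10,100)]⟩,
⟨⟨⟨-135,-144,-200⟩,⟨-240,25,144⟩,⟨-56,240,-135⟩⟩,true,76,168,.leaf [(1,87391),(3,33720),(4,384),(5,169)],.leaf [(1,87391),(3,33720),(4,384),(5,169)]⟩,
⟨⟨⟨-39,88,-264⟩,⟨88,-249,-96⟩,⟨-264,-96,7⟩⟩,true,77,50,.leaf [(0,316),(1,168),(2,21),(4,1)],.leaf [(0,316),(1,168),(2,21),(4,1)]⟩,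
⟨⟨⟨-39,88,264⟩,⟨88,-249,96⟩,⟨264,96,7⟩⟩,true,77,231,.leaf [(0,34844),(2,53109),(4,257),(5,168)],.leaf [(0,34844),(2,53109),(4,257),(5,168)]⟩,
⟨⟨⟨81,-264,52⟩,⟨24,-47,-276⟩,⟨268,84,9⟩⟩,true,80,129,.leaf [(0,59),(2,289),(3,43),(5,1)],.leaf [(0,59),(2,289),(3,43),(5,1)]⟩,
⟨⟨⟨-81,264,52⟩,⟨24,-47,276⟩,⟨268,84,-9⟩⟩,true,80,152,.leaf [(0,311),(1,215),(3,9),(4,1)],.leaf [(0,311),(1,215),(3,9),(4,1)]⟩,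
⟨⟨⟨241,12,-144⟩,⟨-108,201,-164⟩,⟨96,196,177⟩⟩,true,84,116,.leaf [(2,609489),(7,2460),(14,2),(18,19951)],.leaf [(0,337),(2,78),(5,4),(10,321)]⟩,
⟨⟨⟨241,12,144⟩,⟨108,-201,-164⟩,⟨96,196,-177⟩⟩,true,84,165,.leaf [(0,30067),(1,20513),(4,47),(5,109)],.leaf [(0,30067),(1,20513),(4,47),(5,109)]⟩,
⟨⟨⟨79,252,96⟩,⟨228,-9,-164⟩,⟨-144,124,-207⟩⟩,true,85,19,.leaf [(3,78961),(4,64),(5,295),(7,56)],.leaf [(3,78961),(4,64),(5,295),(7,56)]⟩,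
⟨⟨⟨79,252,-96⟩,⟨-228,9,-164⟩,⟨-144,124,207⟩⟩,true,85,262,.leaf [(2,78961),(4,186),(7,112),(14,33)],.leaf [(0,771),(2,622),(7,4),(10,111)]⟩,
⟨⟨⟨241,-108,96⟩,⟨12,201,196⟩,⟨-144,-164,177⟩⟩,true,87,110,.leaf [(4,297),(6,504),(10,78961),(14,172)],.leaf [(1,162),(3,1125),(23,5),(26,436)]⟩,
⟨⟨⟨241,-108,-96⟩,⟨-12,-201,196⟩,⟨-144,-164,-177⟩⟩,true,87,171,.leaf [(0,66),(1,292),(2,27),(4,1)],.leaf [(0,66),(1,292),(2,27),(4,1)]⟩,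
⟨⟨⟨231,96,-128⟩,⟨96,-263,-24⟩,⟨-128,-24,-249⟩⟩,true,88,70,.leaf [(0,60),(2,299),(3,104),(4,1)],.leaf [(0,60),(2,299),(3,104),(4,1)]⟩,
⟨⟨⟨-231,-96,-128⟩,⟨96,-263,24⟩,⟨-128,-24,249⟩⟩,true,88,211,.leaf [(0,12645),(3,11521),(4,75),(7,1)],.leaf [(0,12645),(3,11521),(4,75),(7,1)]⟩,
⟨⟨⟨-135,-56,-240⟩,⟨-200,-135,144⟩,⟨-144,240,25⟩⟩,true,92,33,.leaf [(0,79),(1,264),(3,120),(4,1)],.leaf [(0,79),(1,264),(3,120),(4,1)]⟩,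
⟨⟨⟨-135,-56,240⟩,⟨-200,-135,-144⟩,⟨144,-240,25⟩⟩,true,92,248,.leaf [(3,141),(5,3),(10,197),(18,71)],.leaf [(1,587571),(4,2847),(10,408293),(23,53)]⟩,
⟨⟨⟨7,96,264⟩,⟨96,-249,88⟩,⟨264,88,-39⟩⟩,true,94,118,.leaf [(0,42431),(2,60696),(4,303),(5,176)],.leaf [(0,42431),(2,60696),(4,303),(5,176)]⟩,
⟨⟨⟨7,96,-264⟩,⟨-96,249,88⟩,⟨264,88,39⟩⟩,true,94,163,.leaf [(1,79804),(3,19389),(4,184),(7,153)],.leaf [(1,79804),(3,19389),(4,184),(7,153)]⟩,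
⟨⟨⟨-263,24,96⟩,⟨-24,249,-128⟩,⟨-96,-128,-231⟩⟩,true,95,99,.leaf [(3,663),(5,9),(10,703),(18,133)],.R (.leaf [(1,150903),(26,10304),(31,35),(35,440)]) (.leaf [(1,98415),(26,6280),(31,19),(34,88)]) (.leaf [(1,3687282),(26,298141),(31,970),(38,55)])⟩,
⟨⟨⟨-263,24,-96⟩,⟨24,-249,-128⟩,⟨-96,-128,231⟩⟩,true,95,182,.leaf [(0,497370),(4,1779),(11,7868),(14,55)],.leaf [(0,62663),(4,232),(6,7),(10,2248)]⟩,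
⟨⟨⟨-209,168,84⟩,⟨168,111,196⟩,⟨84,196,-183⟩⟩,true,96,48,.leaf [(0,9835),(3,30348),(4,147),(5,52)],.leaf [(0,9835),(3,30348),(4,147),(5,52)]⟩,
⟨⟨⟨-209,168,-84⟩,⟨-168,-111,196⟩,⟨84,196,183⟩⟩,true,96,233,.leaf [(0,279),(1,259),(3,21),(4,1)],.leaf [(0,279),(1,259),(3,21),(4,1)]⟩,
⟨⟨⟨-201,-108,-164⟩,⟨-12,241,-144⟩,⟨196,-96,-177⟩⟩,true,97,12,.leaf [(1,6744),(5,21),(11,1967),(15,8)],.leaf [(2,5339),(4,19),(7,100),(10,8430)]⟩,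
⟨⟨⟨201,108,-164⟩,⟨-12,241,144⟩,⟨196,-96,177⟩⟩,true,97,269,.leaf [(3,78961),(4,166),(7,237),(14,34)],.leaf [(1,2781),(3,1656),(10,1168),(15,1)]⟩,
⟨⟨⟨-263,96,24⟩,⟨-96,-231,-128⟩,⟨-24,-128,249⟩⟩,true,99,95,.leaf [(2,459),(6,3),(11,64),(18,62)],.leaf [(0,209),(2,80),(4,1),(10,38)]⟩,
⟨⟨⟨-263,96,-24⟩,⟨96,231,-128⟩,⟨-24,-128,-249⟩⟩,true,99,186,.leaf [(3,288),(10,232),(14,1),(18,29)],.leaf [(1,4215),(3,49456),(7,175),(15,8)]⟩,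
⟨⟨⟨111,252,-56⟩,⟨252,-119,-36⟩,⟨-56,-36,-273⟩⟩,true,101,40,.leaf [(0,266),(1,20),(2,105),(4,1)],.leaf [(0,266),(1,20),(2,105),(4,1)]⟩,
⟨⟨⟨-111,-252,-56⟩,⟨252,-119,36⟩,⟨-56,-36,273⟩⟩,true,101,241,.leaf [(0,78961),(4,371),(5,266),(7,246)],.leaf [(0,78961),(4,371),(5,266),(7,246)]⟩,
⟨⟨⟨-47,264,84⟩,⟨24,-81,268⟩,⟨276,52,-9⟩⟩,true,102,58,.leaf [(0,300),(1,184),(2,45),(4,1)],.leaf [(0,300),(1,184),(2,45),(4,1)]⟩,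
⟨⟨⟨-47,264,-84⟩,⟨-24,81,268⟩,⟨276,52,9⟩⟩,true,102,223,.leaf [(0,183),(1,256),(3,96),(4,1)],.leaf [(0,183),(1,256),(3,96),(4,1)]⟩,
⟨⟨⟨9,84,268⟩,⟨-276,-47,24⟩,⟨52,-264,81⟩⟩,true,103,61,.leaf [(2,78961),(4,323),(5,9),(7,221)],.leaf [(2,78961),(4,323),(5,9),(7,221)]⟩,
⟨⟨⟨-9,-84,268⟩,⟨-276,-47,-24⟩,⟨52,-264,-81⟩⟩,true,103,220,.leaf [(1,7025),(3,5901),(5,29),(7,15)],.leaf [(1,7025),(3,5901),(5,29),(7,15)]⟩,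
⟨⟨⟨-207,124,-144⟩,⟨-164,-9,228⟩,⟨96,252,79⟩⟩,true,108,74,.leaf [(1,98),(2,133),(3,274),(4,1)],.leaf [(1,98),(2,133),(3,274),(4,1)]⟩,
⟨⟨⟨-207,124,144⟩,⟨-164,-9,-228⟩,⟨-96,-252,79⟩⟩,true,108,207,.leaf [(3,79804),(6,184),(11,6463),(15,51)],.leaf [(0,72),(3,256),(6,1),(10,43)]⟩,
⟨⟨⟨177,-96,196⟩,⟨144,241,-12⟩,⟨-164,108,201⟩⟩,true,109,117,.leaf [(2,3372),(3,9835),(5,18),(7,25)],.leaf [(2,3372),(3,9835),(5,18),(7,25)]⟩,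
⟨⟨⟨-177,96,196⟩,⟨144,241,12⟩,⟨-164,108,-201⟩⟩,true,109,164,.leaf [(0,12),(1,211),(3,186),(5,1)],.leaf [(0,12),(1,211),(3,186),(5,1)]⟩,
⟨⟨⟨241,96,-108⟩,⟨-144,177,-164⟩,⟨12,196,201⟩⟩,true,110,87,.leaf [(5,297),(7,504),(11,78961),(15,172)],.leaf [(2,94135),(5,15),(7,349),(10,9273)]⟩,
⟨⟨⟨241,96,108⟩,⟨144,-177,-164⟩,⟨12,196,-201⟩⟩,true,110,194,.leaf [(0,30629),(1,13207),(4,73),(5,107)],.leaf [(0,30629),(1,13207),(4,73),(5,107)]⟩,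
⟨⟨⟨79,-144,228⟩,⟨96,-207,-164⟩,⟨252,124,-9⟩⟩,true,112,10,.leaf [(1,71),(2,268),(3,166),(5,1)],.leaf [(1,71),(2,268),(3,166),(5,1)]⟩,
⟨⟨⟨79,-144,-228⟩,⟨-96,207,-164⟩,⟨252,124,9⟩⟩,true,112,271,.leaf [(2,315844),(5,771),(7,622),(15,111)],.leaf [(1,47),(2,197),(5,1),(10,71)]⟩,
⟨⟨⟨135,-200,144⟩,⟨-56,135,240⟩,⟨-240,-144,25⟩⟩,true,113,76,.L (.L (.leaf [(1,9832752),(4,8748),(34,79523),(38,71)]) (.leaf [(0,3132),(1,1431),(11,742),(15,1)]) (.leaf [(0,20513),(1,30067),(4,109),(5,47)])) (.leaf [(0,173),(1,392),(2,156),(4,1)]) (.leaf [(0,13207),(1,30629),(4,107),(5,73)]),.leaf [(0,6),(3,319),(5,1),(10,50)]⟩,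
⟨⟨⟨135,-200,-144⟩,⟨-56,135,-240⟩,⟨240,144,25⟩⟩,true,113,205,.leaf [(0,33720),(2,87391),(5,384),(6,169)],.leaf [(0,33720),(2,87391),(5,384),(6,169)]⟩,
⟨⟨⟨241,-144,12⟩,⟨96,177,196⟩,⟨-108,-164,201⟩⟩,true,116,84,.leaf [(4,23085),(15,5832),(18,315844),(22,511)],.leaf [(1,1620),(3,708),(10,335),(14,1)]⟩,
⟨⟨⟨241,-144,-12⟩,⟨-96,-177,196⟩,⟨-108,-164,-201⟩⟩,true,116,197,.leaf [(1,62944),(2,7587),(4,259),(5,48)],.leaf [(1,62944),(2,7587),(4,259),(5,48)]⟩,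
⟨⟨⟨177,196,-96⟩,⟨-164,201,108⟩,⟨144,-12,241⟩⟩,true,117,109,.leaf [(2,9835),(3,3372),(4,18),(6,25)],.leaf [(2,9835),(3,3372),(4,18),(6,25)]⟩,
⟨⟨⟨177,196,96⟩,⟨-164,201,-108⟩,⟨-144,12,241⟩⟩,true,117,172,.leaf [(0,198),(1,12),(2,199),(6,1)],.leaf [(0,198),(1,12),(2,199),(6,1)]⟩,
⟨⟨⟨7,264,96⟩,⟨264,-39,88⟩,⟨96,88,-249⟩⟩,true,118,94,.leaf [(0,95540),(2,7587),(4,345),(5,8)],.leaf [(0,95540),(2,7587),(4,345),(5,8)]⟩,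
⟨⟨⟨7,264,-96⟩,⟨-264,39,88⟩,⟨96,88,249⟩⟩,true,118,187,.leaf [(0,69),(1,184),(2,156),(4,1)],.leaf [(0,69),(1,184),(2,156),(4,1)]⟩,
⟨⟨⟨9,228,-164⟩,⟨-252,79,96⟩,⟨124,144,207⟩⟩,true,119,13,.leaf [(0,74),(1,260),(2,75),(4,1)],.leaf [(0,74),(1,260),(2,75),(4,1)]⟩,
⟨⟨⟨-9,-228,-164⟩,⟨-252,79,-96⟩,⟨124,144,-207⟩⟩,true,119,268,.leaf [(2,84862),(3,19951),(4,98),(5,309)],.leaf [(2,84862),(3,19951),(4,98),(5,309)]⟩,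
⟨⟨⟨-111,168,196⟩,⟨-168,-209,84⟩,⟨196,-84,183⟩⟩,true,120,140,.leaf [(2,78961),(4,377),(5,216),(7,104)],.leaf [(2,78961),(4,377),(5,216),(7,104)]⟩,
⟨⟨⟨111,-168,196⟩,⟨-168,-209,-84⟩,⟨196,-84,-183⟩⟩,true,120,141,.leaf [(0,1967),(1,5620),(4,7),(5,20)],.leaf [(0,1967),(1,5620),(4,7),(5,20)]⟩,
⟨⟨⟨25,240,144⟩,⟨-144,135,-200⟩,⟨-240,-56,135⟩⟩,true,122,17,.leaf [(2,323712),(7,528),(14,505),(18,12083)],.leaf [(0,213),(3,62),(7,2),(10,155)]⟩,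
⟨⟨⟨25,240,-144⟩,⟨144,-135,-200⟩,⟨-240,-56,-135⟩⟩,true,122,264,.leaf [(0,80085),(2,34844),(4,279),(7,56)],.leaf [(0,80085),(2,34844),(4,279),(7,56)]⟩,
⟨⟨⟨201,196,12⟩,⟨-164,177,-144⟩,⟨-108,96,241⟩⟩,true,124,42,.leaf [(0,234),(1,132),(2,139),(6,1)],.leaf [(0,234),(1,132),(2,139),(6,1)]⟩,
⟨⟨⟨201,196,-12⟩,⟨-164,177,144⟩,⟨108,-96,241⟩⟩,true,124,239,.leaf [(1,3372),(2,37373),(4,102),(6,95)],.leaf [(1,3372),(2,37373),(4,102),(6,95)]⟩,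
⟨⟨⟨-119,180,180⟩,⟨-180,81,-200⟩,⟨-180,-200,81⟩⟩,true,126,126,.leaf [(3,5058),(6,63),(18,1967),(23,2)],.leaf [(1,1686),(4,21),(10,1967),(15,2)]⟩,
⟨⟨⟨-119,180,-180⟩,⟨180,-81,-200⟩,⟨-180,-200,-81⟩⟩,true,126,155,.R (.leaf [(0,108),(3,117),(18,20),(27,1)]) (.leaf [(0,189),(3,144),(18,32),(26,1)]) (.leaf [(4,108),(7,117),(22,20),(31,1)]),.leaf [(0,493),(3,76),(4,2),(10,29)]⟩,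
⟨⟨⟨81,52,-264⟩,⟨268,9,84⟩,⟨24,-276,-47⟩⟩,true,129,80,.leaf [(1,59),(2,43),(3,289),(4,1)],.leaf [(1,59),(2,43),(3,289),(4,1)]⟩,
⟨⟨⟨81,52,264⟩,⟨268,9,-84⟩,⟨-24,276,-47⟩⟩,true,129,201,.leaf [(0,9),(2,215),(3,311),(5,1)],.leaf [(0,9),(2,215),(3,311),(5,1)]⟩,
⟨⟨⟨81,-24,268⟩,⟨264,-47,-84⟩,⟨52,276,9⟩⟩,true,135,38,.leaf [(0,294),(1,259),(2,6),(5,1)],.leaf [(0,294),(1,259),(2,6),(5,1)]⟩,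
⟨⟨⟨-81,24,268⟩,⟨264,-47,84⟩,⟨52,276,-9⟩⟩,true,135,243,.leaf [(0,81209),(3,2529),(4,331),(5,229)],.leaf [(0,81209),(3,2529),(4,331),(5,229)]⟩,
⟨⟨⟨273,36,-56⟩,⟨-36,-119,-252⟩,⟨-56,252,-111⟩⟩,true,136,7,.leaf [(0,14050),(1,281),(4,14),(5,55)],.leaf [(0,14050),(1,281),(4,14),(5,55)]⟩,
⟨⟨⟨-273,-36,-56⟩,⟨-36,-119,252⟩,⟨-56,252,111⟩⟩,true,136,274,.leaf [(0,6),(2,77),(3,308),(4,1)],.leaf [(0,6),(2,77),(3,308),(4,1)]⟩,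
⟨⟨⟨-47,24,276⟩,⟨264,-81,52⟩,⟨84,268,-9⟩⟩,true,137,30,.leaf [(2,43555),(3,35968),(4,43),(5,160)],.leaf [(2,43555),(3,35968),(4,43),(5,160)]⟩,
⟨⟨⟨-47,24,-276⟩,⟨-264,81,52⟩,⟨84,268,9⟩⟩,true,137,251,.leaf [(1,62101),(3,1686),(4,244),(5,57)],.leaf [(1,62101),(3,1686),(4,244),(5,57)]⟩,
⟨⟨⟨207,-96,-164⟩,⟨-144,79,-228⟩,⟨124,252,9⟩⟩,true,138,25,.leaf [(2,216),(11,256),(14,1),(18,43)],.leaf [(0,689),(2,530),(5,4),(10,173)]⟩,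
⟨⟨⟨-207,96,-164⟩,⟨-144,79,228⟩,⟨124,252,-9⟩⟩,true,138,256,.leaf [(0,17),(1,173),(3,219),(4,1)],.leaf [(0,17),(1,173),(3,219),(4,1)]⟩,
⟨⟨⟨-111,196,168⟩,⟨196,183,-84⟩,⟨-168,84,-209⟩⟩,true,140,120,.leaf [(3,78961),(4,216),(5,377),(6,104)],.leaf [(3,78961),(4,216),(5,377),(6,104)]⟩,
⟨⟨⟨-111,196,-168⟩,⟨196,183,84⟩,⟨168,-84,-209⟩⟩,true,140,161,.leaf [(3,78961),(4,300),(5,41),(6,20)],.leaf [(3,78961),(4,300),(5,41),(6,20)]⟩,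
⟨⟨⟨111,196,-168⟩,⟨196,-183,-84⟩,⟨-168,-84,-209⟩⟩,true,141,120,.leaf [(0,274),(1,84),(2,105),(4,1)],.leaf [(0,274),(1,84),(2,105),(4,1)]⟩,
⟨⟨⟨111,196,168⟩,⟨196,-183,84⟩,⟨168,84,-209⟩⟩,true,141,161,.leaf [(0,80366),(2,53109),(4,377),(5,84)],.leaf [(0,80366),(2,53109),(4,377),(5,84)]⟩,
⟨⟨⟨207,96,-164⟩,⟨144,79,228⟩,⟨124,-252,9⟩⟩,true,143,25,.leaf [(0,17),(1,236),(3,156),(4,1)],.leaf [(0,17),(1,236),(3,156),(4,1)]⟩,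
⟨⟨⟨-207,-96,-164⟩,⟨144,79,-228⟩,⟨124,-252,-9⟩⟩,true,143,256,.leaf [(2,18),(7,3),(11,319),(18,50)],.leaf [(0,357),(2,862),(7,4),(10,173)]⟩,
⟨⟨⟨-47,-24,276⟩,⟨264,81,52⟩,⟨-84,268,9⟩⟩,true,144,30,.leaf [(0,292),(1,261),(3,6),(5,1)],.leaf [(0,292),(1,261),(3,6),(5,1)]⟩,
⟨⟨⟨-47,-24,-276⟩,⟨-264,-81,52⟩,⟨-84,268,-9⟩⟩,true,144,251,.leaf [(0,57),(1,301),(3,27),(4,1)],.leaf [(0,57),(1,301),(3,27),(4,1)]⟩,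
⟨⟨⟨273,-36,-56⟩,⟨36,-119,252⟩,⟨-56,-252,-111⟩⟩,true,145,7,.leaf [(0,77),(1,308),(2,6),(4,1)],.leaf [(0,77),(1,308),(2,6),(4,1)]⟩,
⟨⟨⟨-273,36,-56⟩,⟨36,-119,-252⟩,⟨-56,-252,111⟩⟩,true,145,274,.leaf [(2,14050),(3,281),(4,14),(7,55)],.leaf [(2,14050),(3,281),(4,14),(7,55)]⟩,
⟨⟨⟨81,24,268⟩,⟨-264,-47,84⟩,⟨52,-276,9⟩⟩,true,146,38,.leaf [(1,78961),(4,348),(5,289),(7,246)],.leaf [(1,78961),(4,348),(5,289),(7,246)]⟩,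
⟨⟨⟨-81,-24,268⟩,⟨-264,-47,-84⟩,⟨52,-276,-9⟩⟩,true,146,243,.leaf [(1,8149),(3,4215),(5,25),(7,21)],.leaf [(1,8149),(3,4215),(5,25),(7,21)]⟩,
⟨⟨⟨-81,52,264⟩,⟨268,-9,84⟩,⟨24,276,-47⟩⟩,true,152,80,.leaf [(0,35968),(3,7587),(4,160),(5,117)],.leaf [(0,35968),(3,7587),(4,160),(5,117)]⟩,
⟨⟨⟨-81,52,-264⟩,⟨268,-9,-84⟩,⟨-24,-276,-47⟩⟩,true,152,201,.leaf [(0,19951),(3,70812),(4,289),(6,54)],.leaf [(0,19951),(3,70812),(4,289),(6,54)]⟩,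
⟨⟨⟨-119,-180,180⟩,⟨-180,-81,-200⟩,⟨180,-200,-81⟩⟩,true,155,126,.leaf [(1,750551),(5,2755),(6,55),(18,8149)],.leaf [(1,96),(2,232),(6,1),(10,29)]⟩,
⟨⟨⟨-119,-180,-180⟩,⟨180,81,-200⟩,⟨180,-200,81⟩⟩,true,155,155,.leaf [(5,729),(14,675),(18,78961),(23,25)],.leaf [(1,22761),(6,216),(10,24728),(15,11)]⟩,
⟨⟨⟨-201,196,-12⟩,⟨-164,-177,-144⟩,⟨-108,-96,241⟩⟩,true,157,42,.leaf [(0,4777),(2,281),(4,13),(6,11)],.leaf [(0,4777),(2,281),(4,13),(6,11)]⟩,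
⟨⟨⟨-201,196,12⟩,⟨-164,-177,144⟩,⟨108,96,241⟩⟩,true,157,239,.leaf [(0,271),(1,132),(2,102),(4,1)],.leaf [(0,271),(1,132),(2,102),(4,1)]⟩,
⟨⟨⟨25,-240,144⟩,⟨-144,-135,-200⟩,⟨240,-56,-135⟩⟩,true,159,17,.leaf [(0,124),(1,279),(2,60),(5,1)],.leaf [(0,124),(1,279),(2,60),(5,1)]⟩,
⟨⟨⟨25,-240,-144⟩,⟨144,135,-200⟩,⟨240,-56,135⟩⟩,true,159,264,.leaf [(0,227),(1,521),(2,497),(15,1)],.leaf [(0,29),(1,798),(5,2),(10,339)]⟩,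
⟨⟨⟨-111,-168,196⟩,⟨168,-209,-84⟩,⟨196,84,183⟩⟩,true,161,140,.leaf [(2,78961),(4,41),(5,300),(7,20)],.leaf [(2,78961),(4,41),(5,300),(7,20)]⟩,
⟨⟨⟨111,168,196⟩,⟨168,-209,84⟩,⟨196,84,-183⟩⟩,true,161,141,.leaf [(0,72779),(2,60696),(4,379),(5,112)],.leaf [(0,72779),(2,60696),(4,379),(5,112)]⟩,
⟨⟨⟨9,-228,-164⟩,⟨252,79,-96⟩,⟨124,-144,207⟩⟩,true,162,13,.leaf [(0,78961),(4,173),(5,71),(7,339)],.leaf [(0,78961),(4,173),(5,71),(7,339)]⟩,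
⟨⟨⟨-9,228,-164⟩,⟨252,79,96⟩,⟨124,-144,-207⟩⟩,true,162,268,.leaf [(0,75),(2,74),(3,260),(4,1)],.leaf [(0,75),(2,74),(3,260),(4,1)]⟩,
⟨⟨⟨7,-264,96⟩,⟨264,39,88⟩,⟨-96,88,249⟩⟩,true,163,94,.leaf [(0,79804),(2,19389),(5,184),(6,153)],.leaf [(0,79804),(2,19389),(5,184),(6,153)]⟩,
⟨⟨⟨7,-264,-96⟩,⟨-264,-39,88⟩,⟨-96,88,-249⟩⟩,true,163,187,.leaf [(1,85705),(3,13488),(4,352),(5,225)],.leaf [(1,85705),(3,13488),(4,352),(5,225)]⟩,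
⟨⟨⟨-177,196,96⟩,⟨-164,-201,108⟩,⟨144,12,241⟩⟩,true,164,109,.leaf [(0,211),(1,12),(2,186),(4,1)],.leaf [(0,211),(1,12),(2,186),(4,1)]⟩,
⟨⟨⟨-177,196,-96⟩,⟨-164,-201,-108⟩,⟨-144,-12,241⟩⟩,true,164,172,.leaf [(0,3653),(2,3091),(4,17),(6,1)],.leaf [(0,3653),(2,3091),(4,17),(6,1)]⟩,
⟨⟨⟨241,144,12⟩,⟨96,-177,196⟩,⟨108,-164,-201⟩⟩,true,165,84,.leaf [(1,4),(2,321),(3,180),(4,1)],.leaf [(1,4),(2,321),(3,180),(4,1)]⟩,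
⟨⟨⟨241,144,-12⟩,⟨-96,177,196⟩,⟨108,-164,201⟩⟩,true,165,197,.leaf [(1,72217),(4,280),(15,5),(18,2248)],.leaf [(1,243),(3,360),(10,400),(15,1)]⟩,
⟨⟨⟨-135,-200,-144⟩,⟨-56,-135,240⟩,⟨-240,144,25⟩⟩,true,168,76,.leaf [(1,43555),(3,77556),(4,344),(5,65)],.leaf [(1,43555),(3,77556),(4,344),(5,65)]⟩,
⟨⟨⟨-135,-200,144⟩,⟨-56,-135,-240⟩,⟨240,-144,25⟩⟩,true,168,205,.leaf [(1,159),(2,106),(5,1),(18,10)],.leaf [(1,174501),(5,411),(10,30067),(14,11)]⟩,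
⟨⟨⟨79,144,228⟩,⟨96,207,-164⟩,⟨-252,124,9⟩⟩,true,169,10,.L (.leaf [(0,168),(1,316),(3,21),(5,1)]) (.leaf [(0,2412),(1,591),(11,638),(15,1)]) (.leaf [(0,41588),(1,5339),(4,124),(7,27)]),.leaf [(0,153145),(5,190),(7,702),(10,31191)]⟩,
⟨⟨⟨79,144,-228⟩,⟨-96,-207,-164⟩,⟨-252,124,-9⟩⟩,true,169,271,.leaf [(0,56),(2,295),(3,64),(4,1)],.leaf [(0,56),(2,295),(3,64),(4,1)]⟩,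
⟨⟨⟨241,-96,-108⟩,⟨-144,-177,-164⟩,⟨-12,196,-201⟩⟩,true,171,87,.leaf [(0,8711),(1,2529),(4,3),(5,29)],.leaf [(0,8711),(1,2529),(4,3),(5,29)]⟩,
⟨⟨⟨241,-96,108⟩,⟨144,177,-164⟩,⟨-12,196,201⟩⟩,true,171,194,.leaf [(0,1323),(11,76),(14,1),(18,114)],.leaf [(0,997),(2,78),(5,4),(10,93)]⟩,
⟨⟨⟨177,96,196⟩,⟨-144,241,12⟩,⟨-164,-108,201⟩⟩,true,172,117,.leaf [(0,12),(1,198),(3,199),(7,1)],.leaf [(0,12),(1,198),(3,199),(7,1)]⟩,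
⟨⟨⟨-177,-96,196⟩,⟨-144,241,-12⟩,⟨-164,-108,-201⟩⟩,true,172,164,.leaf [(1,3653),(3,3091),(5,17),(7,1)],.leaf [(1,3653),(3,3091),(5,17),(7,1)]⟩,
⟨⟨⟨207,124,144⟩,⟨-164,9,228⟩,⟨96,-252,79⟩⟩,true,173,74,.leaf [(1,592),(2,790),(4,5),(18,43)],.leaf [(1,428),(2,29),(4,1),(10,86)]⟩,
⟨⟨⟨207,124,-144⟩,⟨-164,9,-228⟩,⟨-96,252,79⟩⟩,true,173,207,.leaf [(0,78961),(4,46),(5,348),(6,219)],.leaf [(0,78961),(4,46),(5,348),(6,219)]⟩,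
⟨⟨⟨9,-84,268⟩,⟨276,-47,-24⟩,⟨52,264,81⟩⟩,true,178,61,.leaf [(0,59),(2,289),(3,187),(5,1)],.leaf [(0,59),(2,289),(3,187),(5,1)]⟩,
⟨⟨⟨-9,84,268⟩,⟨276,-47,24⟩,⟨52,264,-81⟩⟩,true,178,220,.leaf [(2,14893),(3,17422),(4,23),(5,66)],.leaf [(2,14893),(3,17422),(4,23),(5,66)]⟩,
⟨⟨⟨-47,-264,84⟩,⟨24,81,268⟩,⟨-276,52,9⟩⟩,true,179,58,.leaf [(0,310),(1,75),(2,6),(5,1)],.leaf [(0,310),(1,75),(2,6),(5,1)]⟩,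
⟨⟨⟨-47,-264,-84⟩,⟨-24,-81,268⟩,⟨-276,52,-9⟩⟩,true,179,223,.leaf [(1,24166),(3,73341),(4,316),(5,183)],.leaf [(1,24166),(3,73341),(4,316),(5,183)]⟩,
⟨⟨⟨111,-252,-56⟩,⟨-252,-119,36⟩,⟨-56,36,-273⟩⟩,true,180,40,.leaf [(2,9835),(3,10678),(4,17),(5,42)],.leaf [(2,9835),(3,10678),(4,17),(5,42)]⟩,
⟨⟨⟨-111,252,-56⟩,⟨-252,-119,-36⟩,⟨-56,36,273⟩⟩,true,180,241,.leaf [(0,125),(1,20),(2,246),(4,1)],.leaf [(0,125),(1,20),(2,246),(4,1)]⟩,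
⟨⟨⟨-263,-96,24⟩,⟨-96,231,-128⟩,⟨24,-128,-249⟩⟩,true,182,95,.leaf [(1,497370),(5,1779),(10,7868),(15,55)],.leaf [(1,947532),(5,3885),(14,56),(23,55)]⟩,
⟨⟨⟨-263,-96,-24⟩,⟨96,-231,-128⟩,⟨24,-128,249⟩⟩,true,182,186,.leaf [(2,207),(6,3),(11,256),(18,50)],.leaf [(0,42),(2,247),(6,1),(10,38)]⟩,
⟨⟨⟨-201,108,-164⟩,⟨12,241,144⟩,⟨196,96,-177⟩⟩,true,184,12,.leaf [(4,630),(5,108),(10,78961),(14,175)],.leaf [(4,15),(5,36),(14,10),(22,1)]⟩,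
⟨⟨⟨201,-108,-164⟩,⟨12,241,-144⟩,⟨196,96,177⟩⟩,true,184,269,.leaf [(3,8149),(7,25),(11,1405),(15,7)],.leaf [(4,347),(5,960),(7,352),(10,78961)]⟩,
⟨⟨⟨-209,-168,84⟩,⟨168,-111,196⟩,⟨-84,196,183⟩⟩,true,185,48,.leaf [(0,3934),(1,281),(4,14),(5,13)],.leaf [(0,3934),(1,281),(4,14),(5,13)]⟩,
⟨⟨⟨-209,-168,-84⟩,⟨-168,111,196⟩,⟨-84,196,-183⟩⟩,true,185,233,.leaf [(0,3653),(1,5620),(4,13),(5,20)],.leaf [(0,3653),(1,5620),(4,13),(5,20)]⟩,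
⟨⟨⟨-263,-24,96⟩,⟨-24,-249,-128⟩,⟨96,-128,231⟩⟩,true,186,99,.leaf [(2,1479),(6,6),(11,76),(18,29)],.leaf [(0,7025),(4,40),(6,1),(10,2248)]⟩,
⟨⟨⟨-263,-24,-96⟩,⟨24,249,-128⟩,⟨96,-128,-231⟩⟩,true,186,182,.leaf [(3,419533),(5,132),(7,871),(18,29224)],.leaf [(1,5697),(3,1047),(10,2021),(22,1)]⟩,
⟨⟨⟨7,-96,264⟩,⟨96,249,88⟩,⟨-264,88,39⟩⟩,true,187,118,.leaf [(0,184),(1,69),(3,156),(5,1)],.leaf [(0,184),(1,69),(3,156),(5,1)]⟩,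
⟨⟨⟨7,-96,-264⟩,⟨-96,-249,88⟩,⟨-264,88,-39⟩⟩,true,187,163,.leaf [(0,153),(1,304),(3,48),(4,1)],.leaf [(0,153),(1,304),(3,48),(4,1)]⟩,
⟨⟨⟨135,-56,240⟩,⟨-200,135,144⟩,⟨-144,-240,25⟩⟩,true,189,33,.L (.leaf [(0,35968),(3,247842),(5,1165),(23,33)]) (.leaf [(0,13851),(11,3033),(18,703),(23,1)]) (.leaf [(0,67721),(3,91887),(4,339),(5,173)]),.L (.L (.leaf [(0,168),(1,316),(3,21),(5,1)]) (.leaf [(0,2412),(1,591),(11,638),(15,1)]) (.leaf [(0,41588),(1,5339),(4,124),(7,27)])) (.leaf [(5,243),(11,6225),(18,7663),(34,215)]) (.leaf [(0,67721),(3,91887),(4,339),(5,173)])⟩,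
⟨⟨⟨135,-56,-240⟩,⟨-200,135,-144⟩,⟨144,240,25⟩⟩,true,189,248,.leaf [(2,78961),(4,264),(5,384),(6,199)],.leaf [(2,78961),(4,264),(5,384),(6,199)]⟩,
⟨⟨⟨231,-96,-128⟩,⟨-96,-263,24⟩,⟨-128,24,-249⟩⟩,true,193,70,.leaf [(1,11521),(2,12645),(4,75),(5,1)],.leaf [(1,11521),(2,12645),(4,75),(5,1)]⟩,
⟨⟨⟨-231,96,-128⟩,⟨-96,-263,-24⟩,⟨-128,24,249⟩⟩,true,193,211,.leaf [(0,299),(1,104),(2,60),(4,1)],.leaf [(0,299),(1,104),(2,60),(4,1)]⟩,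
⟨⟨⟨241,108,96⟩,⟨12,-201,196⟩,⟨144,-164,-177⟩⟩,true,194,110,.leaf [(1,10),(2,309),(3,90),(4,1)],.leaf [(1,10),(2,309),(3,90),(4,1)]⟩,
⟨⟨⟨241,108,-96⟩,⟨-12,201,196⟩,⟨144,-164,177⟩⟩,true,194,171,.leaf [(1,112),(4,1),(10,53),(18,8)],.leaf [(1,729),(3,342),(10,532),(15,1)]⟩,
⟨⟨⟨79,-252,96⟩,⟨228,9,-164⟩,⟨144,124,207⟩⟩,true,196,19,.leaf [(5,540),(6,432),(11,78961),(15,19)],.leaf [(0,511),(2,882),(5,4),(10,111)]⟩,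
⟨⟨⟨79,-252,-96⟩,⟨-228,-9,-164⟩,⟨144,124,-207⟩⟩,true,196,262,.leaf [(0,211),(1,111),(2,165),(5,1)],.leaf [(0,211),(1,111),(2,165),(5,1)]⟩,
⟨⟨⟨241,-12,-144⟩,⟨-108,-201,-164⟩,⟨-96,196,-177⟩⟩,true,197,116,.leaf [(0,8149),(1,843),(4,9),(5,31)],.leaf [(0,8149),(1,843),(4,9),(5,31)]⟩,
⟨⟨⟨241,-12,144⟩,⟨108,201,-164⟩,⟨-96,196,177⟩⟩,true,197,165,.R (.leaf [(0,55323),(14,39),(18,3160),(27,80)]) (.leaf [(0,4536),(14,3),(18,280),(26,5)]) (.R (.R (.leaf [(0,583929),(18,50313),(31,31),(43,263)]) (.leaf [(0,2453814),(18,233103),(31,148),(42,263)]) (.leaf [(0,490408506),(18,48383142),(31,28739),(47,263)])) (.leaf [(0,19683),(18,1758),(31,4),(34,263)]) (.leaf [(0,603612),(18,59172),(31,35),(35,263)])),.leaf [(0,158203),(5,658),(7,258),(10,26133)]⟩,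
⟨⟨⟨81,264,52⟩,⟨-24,-47,276⟩,⟨268,-84,9⟩⟩,true,201,129,.leaf [(1,9),(2,311),(3,215),(4,1)],.leaf [(1,9),(2,311),(3,215),(4,1)]⟩,
⟨⟨⟨-81,-264,52⟩,⟨-24,-47,-276⟩,⟨268,-84,-9⟩⟩,true,201,152,.leaf [(1,19951),(2,70812),(5,289),(7,54)],.leaf [(1,19951),(2,70812),(5,289),(7,54)]⟩,
⟨⟨⟨39,88,264⟩,⟨88,249,-96⟩,⟨-264,96,7⟩⟩,true,204,50,.leaf [(0,7587),(3,34844),(5,148),(6,19)],.leaf [(0,7587),(3,34844),(5,148),(6,19)]⟩,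
⟨⟨⟨39,88,-264⟩,⟨88,249,96⟩,⟨264,-96,7⟩⟩,true,204,231,.leaf [(1,76151),(3,72217),(4,337),(6,161)],.leaf [(1,76151),(3,72217),(4,337),(6,161)]⟩,
⟨⟨⟨135,-144,-200⟩,⟨240,25,144⟩,⟨-56,-240,135⟩⟩,true,205,113,.leaf [(1,33720),(3,87391),(4,384),(7,169)],.leaf [(1,33720),(3,87391),(4,384),(7,169)]⟩,
⟨⟨⟨-135,144,-200⟩,⟨240,25,-144⟩,⟨-56,-240,-135⟩⟩,true,205,168,.leaf [(0,12285),(3,12924),(18,2450),(22,1)],.leaf [(0,69),(3,256),(4,1),(10,50)]⟩,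
⟨⟨⟨-207,144,124⟩,⟨-96,79,-252⟩,⟨-164,-228,-9⟩⟩,true,207,108,.leaf [(2,79804),(7,184),(10,6463),(14,51)],.leaf [(1,766287),(7,1683),(10,142748),(15,2)]⟩,
⟨⟨⟨207,-144,124⟩,⟨-96,79,252⟩,⟨-164,-228,9⟩⟩,true,207,173,.leaf [(1,78961),(4,348),(5,46),(7,219)],.leaf [(1,78961),(4,348),(5,46),(7,219)]⟩,
⟨⟨⟨249,88,-96⟩,⟨88,39,264⟩,⟨96,-264,7⟩⟩,true,208,3,.leaf [(0,49),(1,285),(3,75),(4,1)],.leaf [(0,49),(1,285),(3,75),(4,1)]⟩,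
⟨⟨⟨249,88,96⟩,⟨88,39,-264⟩,⟨-96,264,7⟩⟩,true,208,278,.leaf [(0,15174),(3,8711),(5,79),(6,10)],.leaf [(0,15174),(3,8711),(5,79),(6,10)]⟩,
⟨⟨⟨249,24,-128⟩,⟨-24,-263,-96⟩,⟨-128,96,-231⟩⟩,true,210,4,.leaf [(1,9),(2,287),(3,23),(4,1)],.leaf [(1,9),(2,287),(3,23),(4,1)]⟩,
⟨⟨⟨-249,-24,-128⟩,⟨-24,-263,96⟩,⟨-128,96,231⟩⟩,true,210,277,.leaf [(0,239),(1,119),(3,105),(4,1)],.leaf [(0,239),(1,119),(3,105),(4,1)]⟩,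
⟨⟨⟨-231,-128,-96⟩,⟨-128,249,-24⟩,⟨96,24,-263⟩⟩,true,211,88,.leaf [(1,12645),(2,11521),(5,75),(6,1)],.leaf [(1,12645),(2,11521),(5,75),(6,1)]⟩,
⟨⟨⟨-231,-128,96⟩,⟨-128,249,24⟩,⟨-96,-24,-263⟩⟩,true,211,193,.leaf [(0,104),(1,299),(3,60),(5,1)],.leaf [(0,104),(1,299),(3,60),(5,1)]⟩,
⟨⟨⟨-119,-252,-36⟩,⟨252,-111,-56⟩,⟨36,-56,273⟩⟩,true,217,31,.leaf [(0,93573),(6,1392),(11,103408),(14,23)],.leaf [(0,225),(2,115),(6,1),(10,23)]⟩,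
⟨⟨⟨-119,-252,36⟩,⟨-252,111,-56⟩,⟨36,-56,-273⟩⟩,true,217,250,.leaf [(0,175),(1,309),(2,21),(5,1)],.leaf [(0,175),(1,309),(2,21),(5,1)]⟩,
⟨⟨⟨9,276,52⟩,⟨-84,-47,264⟩,⟨268,-24,81⟩⟩,true,218,37,.leaf [(0,9),(2,314),(3,212),(4,1)],.leaf [(0,9),(2,314),(3,212),(4,1)]⟩,
⟨⟨⟨-9,-276,52⟩,⟨-84,-47,-264⟩,⟨268,-24,-81⟩⟩,true,218,244,.leaf [(1,79),(2,252),(3,54),(5,1)],.leaf [(1,79),(2,252),(3,54),(5,1)]⟩,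
⟨⟨⟨-9,268,-84⟩,⟨52,-81,-264⟩,⟨-276,-24,-47⟩⟩,true,220,103,.leaf [(0,7025),(2,5901),(4,29),(6,15)],.leaf [(0,7025),(2,5901),(4,29),(6,15)]⟩,
⟨⟨⟨-9,268,84⟩,⟨52,-81,264⟩,⟨276,24,-47⟩⟩,true,220,178,.leaf [(0,295),(1,180),(2,54),(4,1)],.leaf [(0,295),(1,180),(2,54),(4,1)]⟩,
⟨⟨⟨-47,-84,264⟩,⟨276,9,52⟩,⟨-24,268,81⟩⟩,true,223,102,.leaf [(0,256),(1,183),(2,96),(5,1)],.leaf [(0,256),(1,183),(2,96),(5,1)]⟩,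
⟨⟨⟨-47,-84,-264⟩,⟨-276,-9,52⟩,⟨-24,268,-81⟩⟩,true,223,179,.leaf [(1,89920),(3,7587),(4,352),(5,75)],.leaf [(1,89920),(3,7587),(4,352),(5,75)]⟩,
⟨⟨⟨-231,160,0⟩,⟨160,231,0⟩,⟨0,0,-281⟩⟩,true,228,0,.leaf [(3,78961),(4,336),(5,281),(6,176)],.leaf [(3,78961),(4,336),(5,281),(6,176)]⟩,
⟨⟨⟨-39,264,88⟩,⟨264,7,96⟩,⟨88,96,-249⟩⟩,true,231,77,.leaf [(0,34844),(3,7587),(4,148),(5,19)],.leaf [(0,34844),(3,7587),(4,148),(5,19)]⟩,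
⟨⟨⟨39,-264,88⟩,⟨264,7,-96⟩,⟨88,96,249⟩⟩,true,231,204,.leaf [(0,76151),(2,72217),(5,337),(7,161)],.leaf [(0,76151),(2,72217),(5,337),(7,161)]⟩,
⟨⟨⟨-209,-84,168⟩,⟨84,183,196⟩,⟨-168,196,-111⟩⟩,true,233,96,.leaf [(0,3653),(1,3934),(4,1),(5,14)],.leaf [(0,3653),(1,3934),(4,1),(5,14)]⟩,
⟨⟨⟨-209,-84,-168⟩,⟨-84,-183,196⟩,⟨-168,196,111⟩⟩,true,233,185,.leaf [(1,70),(2,99),(3,294),(4,1)],.leaf [(1,70),(2,99),(3,294),(4,1)]⟩,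
⟨⟨⟨-9,124,-252⟩,⟨-164,-207,-96⟩,⟨-228,144,79⟩⟩,true,236,28,.leaf [(0,10),(2,321),(3,156),(4,1)],.leaf [(0,10),(2,321),(3,156),(4,1)]⟩,
⟨⟨⟨-9,124,252⟩,⟨-164,-207,96⟩,⟨228,-144,79⟩⟩,true,236,253,.leaf [(2,242222),(4,1197),(5,800),(18,12083)],.leaf [(2,200353),(4,837),(5,196),(10,24166)]⟩,
⟨⟨⟨201,-12,196⟩,⟨108,241,-96⟩,⟨-164,144,177⟩⟩,true,239,124,.leaf [(0,3372),(3,37373),(5,102),(7,95)],.leaf [(0,3372),(3,37373),(5,102),(7,95)]⟩,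
⟨⟨⟨-201,12,196⟩,⟨108,241,96⟩,⟨-164,144,-177⟩⟩,true,239,157,.leaf [(0,132),(1,271),(3,102),(5,1)],.leaf [(0,132),(1,271),(3,102),(5,1)]⟩,
⟨⟨⟨-183,-84,196⟩,⟨-84,-209,-168⟩,⟨196,-168,111⟩⟩,true,240,2,.leaf [(2,78961),(4,293),(5,294),(7,266)],.leaf [(2,78961),(4,293),(5,294),(7,266)]⟩,
⟨⟨⟨183,84,196⟩,⟨-84,-209,168⟩,⟨196,-168,-111⟩⟩,true,240,279,.leaf [(0,281),(1,3934),(4,13),(5,14)],.leaf [(0,281),(1,3934),(4,13),(5,14)]⟩,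
⟨⟨⟨-111,-56,-252⟩,⟨-56,273,-36⟩,⟨252,36,-119⟩⟩,true,241,101,.leaf [(1,78961),(4,266),(5,371),(6,246)],.leaf [(1,78961),(4,266),(5,371),(6,246)]⟩,
⟨⟨⟨-111,-56,252⟩,⟨-56,273,36⟩,⟨-252,-36,-119⟩⟩,true,241,180,.leaf [(0,20),(1,125),(3,246),(5,1)],.leaf [(0,20),(1,125),(3,246),(5,1)]⟩,
⟨⟨⟨-81,268,24⟩,⟨52,-9,276⟩,⟨264,84,-47⟩⟩,true,243,135,.leaf [(0,277),(1,198),(3,54),(4,1)],.leaf [(0,277),(1,198),(3,54),(4,1)]⟩,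
⟨⟨⟨-81,268,-24⟩,⟨52,-9,-276⟩,⟨-264,-84,-47⟩⟩,true,243,146,.leaf [(0,8149),(2,4215),(4,25),(6,21)],.leaf [(0,8149),(2,4215),(4,25),(6,21)]⟩,
⟨⟨⟨-9,52,276⟩,⟨268,-81,24⟩,⟨84,264,-47⟩⟩,true,244,63,.leaf [(0,81209),(2,15174),(4,323),(5,252)],.leaf [(0,81209),(2,15174),(4,323),(5,252)]⟩,
⟨⟨⟨-9,52,-276⟩,⟨268,-81,-24⟩,⟨-84,-264,-47⟩⟩,true,244,218,.leaf [(0,79),(2,54),(3,252),(4,1)],.leaf [(0,79),(2,54),(3,252),(4,1)]⟩,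
⟨⟨⟨-177,-164,144⟩,⟨196,-201,12⟩,⟨96,108,241⟩⟩,true,247,23,.leaf [(2,158203),(5,658),(15,86),(18,8711)],.leaf [(0,85424),(4,545),(5,336),(10,26133)]⟩,
⟨⟨⟨-177,-164,-144⟩,⟨196,-201,-12⟩,⟨-96,-108,241⟩⟩,true,247,258,.leaf [(0,5901),(4,24),(10,2248),(14,7)],.leaf [(4,2169),(5,4830),(10,394805),(23,14)]⟩,
⟨⟨⟨-135,240,-56⟩,⟨144,25,-240⟩,⟨-200,-144,-135⟩⟩,true,248,92,.leaf [(2,558),(11,112),(14,1),(18,33)],.leaf [(0,153),(3,64),(4,1),(10,62)]⟩,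
⟨⟨⟨135,-240,-56⟩,⟨144,25,240⟩,⟨-200,-144,135⟩⟩,true,248,189,.leaf [(3,78961),(4,384),(5,264),(7,199)],.leaf [(3,78961),(4,384),(5,264),(7,199)]⟩,
⟨⟨⟨-119,36,252⟩,⟨-36,273,-56⟩,⟨-252,-56,-111⟩⟩,true,250,64,.leaf [(3,102846),(5,531),(10,25852),(15,23)],.leaf [(5,109350),(7,181521),(26,2210908),(31,415)]⟩,
⟨⟨⟨-119,36,-252⟩,⟨36,-273,-56⟩,⟨-252,-56,111⟩⟩,true,250,217,.leaf [(0,309),(1,175),(3,21),(4,1)],.leaf [(0,309),(1,175),(3,21),(4,1)]⟩,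
⟨⟨⟨-47,-276,24⟩,⟨84,9,268⟩,⟨-264,52,81⟩⟩,true,251,137,.leaf [(0,14050),(1,281),(4,14),(5,55)],.leaf [(0,14050),(1,281),(4,14),(5,55)]⟩,
⟨⟨⟨-47,-276,-24⟩,⟨-84,-9,268⟩,⟨-264,52,-81⟩⟩,true,251,144,.leaf [(1,32596),(3,78399),(4,328),(5,267)],.leaf [(1,32596),(3,78399),(4,328),(5,267)]⟩,
⟨⟨⟨81,180,-200⟩,⟨-180,-119,-180⟩,⟨-200,180,81⟩⟩,true,252,1,.leaf [(0,9),(2,290),(3,20),(4,1)],.leaf [(0,9),(2,290),(3,20),(4,1)]⟩,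
⟨⟨⟨-81,-180,-200⟩,⟨-180,-119,180⟩,⟨-200,180,-81⟩⟩,true,252,280,.leaf [(1,78961),(3,50580),(4,360),(5,61)],.leaf [(1,78961),(3,50580),(4,360),(5,61)]⟩,
⟨⟨⟨9,-252,124⟩,⟨228,79,144⟩,⟨-164,96,207⟩⟩,true,253,45,.leaf [(0,78961),(4,149),(5,335),(7,75)],.leaf [(0,78961),(4,149),(5,335),(7,75)]⟩,
⟨⟨⟨-9,252,124⟩,⟨228,79,-144⟩,⟨-164,96,-207⟩⟩,true,253,236,.L (.L (.leaf [(5,729),(14,111),(19,3091),(34,1967)]) (.leaf [(0,325),(1,321),(2,141),(5,1)]) (.leaf [(0,189),(1,259),(3,279),(4,1)])) (.leaf [(1,3372),(2,40745),(4,102),(6,95)]) (.leaf [(0,51704),(3,111557),(5,321),(7,124)]),.leaf [(3,37654),(4,151),(5,90),(10,12083)]⟩,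
⟨⟨⟨-207,-164,96⟩,⟨124,-9,252⟩,⟨-144,228,79⟩⟩,true,256,138,.leaf [(0,30629),(1,13207),(4,73),(5,107)],.leaf [(0,30629),(1,13207),(4,73),(5,107)]⟩,
⟨⟨⟨-207,-164,-96⟩,⟨124,-9,-252⟩,⟨144,-228,79⟩⟩,true,256,143,.leaf [(1,57),(3,2375),(6,5),(18,173)],.leaf [(1,2781),(3,1959),(10,1067),(14,1)]⟩,
⟨⟨⟨177,144,-164⟩,⟨-96,241,108⟩,⟨196,-12,201⟩⟩,true,258,34,.leaf [(4,2511),(7,588),(10,200353),(18,24166)],.leaf [(3,78961),(4,74),(7,149),(14,62)]⟩,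
⟨⟨⟨-177,-144,-164⟩,⟨-96,241,-108⟩,⟨196,-12,-201⟩⟩,true,258,247,.leaf [(1,5901),(5,24),(11,2248),(15,7)],.leaf [(1,15),(2,61),(7,1),(10,95)]⟩,
⟨⟨⟨79,-96,252⟩,⟨-144,207,124⟩,⟨-228,-164,9⟩⟩,true,262,85,.leaf [(3,78961),(5,186),(6,112),(15,33)],.leaf [(1,24166),(3,55357),(5,353),(14,68)]⟩,
⟨⟨⟨79,-96,-252⟩,⟨144,-207,124⟩,⟨-228,-164,-9⟩⟩,true,262,196,.leaf [(0,111),(1,211),(3,165),(4,1)],.leaf [(0,111),(1,211),(3,165),(4,1)]⟩,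
⟨⟨⟨25,-144,240⟩,⟨-240,-135,-56⟩,⟨144,-200,-135⟩⟩,true,264,122,.leaf [(1,80085),(3,34844),(5,279),(6,56)],.leaf [(1,80085),(3,34844),(5,279),(6,56)]⟩,
⟨⟨⟨25,-144,-240⟩,⟨240,135,-56⟩,⟨144,-200,135⟩⟩,true,264,159,.leaf [(0,521),(1,227),(3,497),(14,1)],.leaf [(1,225261),(10,65475),(26,5303),(31,5)]⟩,
⟨⟨⟨-9,-164,-228⟩,⟨124,-207,144⟩,⟨-252,-96,79⟩⟩,true,268,119,.leaf [(1,98),(2,43),(3,274),(4,1)],.leaf [(1,98),(2,43),(3,274),(4,1)]⟩,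
⟨⟨⟨-9,-164,228⟩,⟨124,-207,-144⟩,⟨252,96,79⟩⟩,true,268,162,.leaf [(1,75),(2,260),(3,74),(5,1)],.leaf [(1,75),(2,260),(3,74),(5,1)]⟩,
⟨⟨⟨201,-164,108⟩,⟨196,177,-96⟩,⟨-12,144,241⟩⟩,true,269,97,.leaf [(2,78961),(5,166),(6,237),(15,34)],.leaf [(0,909),(2,190),(5,4),(10,133)]⟩,
⟨⟨⟨201,-164,-108⟩,⟨196,177,96⟩,⟨12,-144,241⟩⟩,true,269,184,.leaf [(2,8149),(6,25),(10,1405),(14,7)],.leaf [(5,867),(6,129),(10,78961),(15,59)]⟩,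
⟨⟨⟨79,-228,-144⟩,⟨252,9,124⟩,⟨-96,-164,207⟩⟩,true,271,112,.leaf [(3,315844),(4,771),(6,622),(14,111)],.leaf [(0,186),(3,112),(6,1),(10,33)]⟩,
⟨⟨⟨79,-228,144⟩,⟨-252,-9,124⟩,⟨-96,-164,-207⟩⟩,true,271,169,.leaf [(1,56),(2,64),(3,295),(5,1)],.leaf [(1,56),(2,64),(3,295),(5,1)]⟩,
⟨⟨⟨-273,-56,-36⟩,⟨-56,111,252⟩,⟨-36,252,-119⟩⟩,true,274,136,.leaf [(0,3091),(1,4496),(4,11),(5,16)],.leaf [(0,3091),(1,4496),(4,11),(5,16)]⟩,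
⟨⟨⟨-273,-56,36⟩,⟨-56,111,-252⟩,⟨36,-252,-119⟩⟩,true,274,145,.leaf [(2,281),(3,14050),(5,14),(6,55)],.leaf [(2,281),(3,14050),(5,14),(6,55)]⟩,
⟨⟨⟨-249,-128,24⟩,⟨-128,231,-96⟩,⟨24,-96,-263⟩⟩,true,277,71,.leaf [(0,23),(1,287),(2,9),(5,1)],.leaf [(0,23),(1,287),(2,9),(5,1)]⟩,
⟨⟨⟨-249,-128,-24⟩,⟨-128,231,96⟩,⟨-24,96,-263⟩⟩,true,277,210,.leaf [(0,119),(1,239),(2,105),(5,1)],.leaf [(0,119),(1,239),(2,105),(5,1)]⟩,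
⟨⟨⟨-249,-96,88⟩,⟨-96,7,-264⟩,⟨88,-264,-39⟩⟩,true,278,73,.leaf [(1,25009),(2,47208),(5,124),(7,189)],.leaf [(1,25009),(2,47208),(5,124),(7,189)]⟩,
⟨⟨⟨249,96,88⟩,⟨-96,7,264⟩,⟨88,-264,39⟩⟩,true,278,208,.leaf [(1,15174),(2,8711),(4,79),(7,10)],.leaf [(1,15174),(2,8711),(4,79),(7,10)]⟩,
⟨⟨⟨183,196,-84⟩,⟨196,-111,168⟩,⟨84,-168,-209⟩⟩,true,279,41,.leaf [(0,286),(1,252),(2,21),(4,1)],.leaf [(0,286),(1,252),(2,21),(4,1)]⟩,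
⟨⟨⟨183,196,84⟩,⟨196,-111,-168⟩,⟨-84,168,-209⟩⟩,true,279,240,.leaf [(0,76994),(2,5901),(4,293),(5,252)],.leaf [(0,76994),(2,5901),(4,293),(5,252)]⟩,
⟨⟨⟨-81,-200,180⟩,⟨-200,-81,-180⟩,⟨180,-180,-119⟩⟩,true,280,29,.leaf [(0,20),(1,290),(3,9),(5,1)],.leaf [(0,20),(1,290),(3,9),(5,1)]⟩,
⟨⟨⟨-81,-200,-180⟩,⟨-200,-81,180⟩,⟨-180,180,-119⟩⟩,true,280,252,.leaf [(1,81490),(3,48051),(4,380),(5,119)],.leaf [(1,81490),(3,48051),(4,380),(5,119)]⟩]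

theorem primeOk_281 : PrimeOk 281 := primeOk (by norm_num) (by norm_num) (by norm_num) L281
  (by decide +kernel) (by decide +kernel)

end Pool.Agent.Lib.H63.TSP
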