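import Mathlib
import Pool.Agent.Lib.H63.TSPPrime

/-!
# Generated certificates for the primes 41, 101, 163, 277
-/

set_option autoImplicit false

namespace Pool.Agent.Lib.H63.TSP

def L41 : List Cls := [
⟨⟨⟨-41,0,0⟩,⟨0,9,40⟩,⟨0,40,-9⟩⟩,false,0,9,.leaf [(0,164),(1,205),(4,4),(5,5)],.leaf [(0,164),(1,205),(4,4),(5,5)]⟩,
⟨⟨⟨-41,0,0⟩,⟨0,-9,40⟩,⟨0,40,9⟩⟩,false,0,32,.leaf [(0,9),(1,4),(3,36),(4,1)],.leaf [(0,9),(1,4),(3,36),(4,1)]⟩,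
⟨⟨⟨9,0,40⟩,⟨0,-41,0⟩,⟨40,0,-9⟩⟩,true,0,9,.leaf [(0,41),(1,205),(4,1),(5,5)],.leaf [(0,41),(1,205),(4,1),(5,5)]⟩,
⟨⟨⟨-9,0,40⟩,⟨0,-41,0⟩,⟨40,0,9⟩⟩,true,0,32,.leaf [(2,1681),(4,41),(5,45),(7,5)],.leaf [(2,1681),(4,41),(5,45),(7,5)]⟩,
⟨⟨⟨9,-32,-24⟩,⟨-32,9,-24⟩,⟨24,24,-23⟩⟩,true,1,11,.leaf [(0,984),(2,1681),(5,48),(6,1)],.leaf [(0,984),(2,1681),(5,48),(6,1)]⟩,
⟨⟨⟨9,-32,24⟩,⟨-32,9,24⟩,⟨-24,-24,-23⟩⟩,true,1,30,.leaf [(1,3),(2,8),(3,44),(5,1)],.leaf [(1,3),(2,8),(3,44),(5,1)]⟩,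
⟨⟨⟨-39,4,12⟩,⟨4,-33,24⟩,⟨12,24,31⟩⟩,true,2,6,.leaf [(0,37),(1,3),(3,9),(4,1)],.leaf [(0,37),(1,3),(3,9),(4,1)]⟩,
⟨⟨⟨-39,4,-12⟩,⟨4,-33,-24⟩,⟨-12,-24,31⟩⟩,true,2,35,.leaf [(0,287),(3,615),(4,35),(15,9)],.leaf [(0,65),(3,12),(4,2),(10,9)]⟩,
⟨⟨⟨33,-24,4⟩,⟨24,31,-12⟩,⟨4,12,39⟩⟩,true,3,20,.leaf [(0,3),(2,9),(3,43),(7,1)],.leaf [(0,3),(2,9),(3,43),(7,1)]⟩,
⟨⟨⟨-33,24,4⟩,⟨24,31,12⟩,⟨4,12,-39⟩⟩,true,3,21,.leaf [(4,45),(5,108),(10,1681),(14,10)],.leaf [(4,2187),(10,2214),(26,3280),(30,1)]⟩,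
⟨⟨⟨-39,12,4⟩,⟨12,31,24⟩,⟨4,24,-33⟩⟩,true,6,2,.leaf [(0,41),(1,205),(4,1),(5,5)],.leaf [(0,41),(1,205),(4,1),(5,5)]⟩,
⟨⟨⟨39,-12,4⟩,⟨12,31,-24⟩,⟨4,24,33⟩⟩,true,6,39,.leaf [(0,902),(3,533),(5,55),(14,14)],.leaf [(0,3157),(5,110),(7,2),(10,779)]⟩,
⟨⟨⟨31,12,24⟩,⟨12,-39,4⟩,⟨24,4,-33⟩⟩,true,7,14,.leaf [(0,902),(2,1845),(4,57),(5,20)],.leaf [(0,902),(2,1845),(4,57),(5,20)]⟩,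
⟨⟨⟨31,12,-24⟩,⟨-12,39,4⟩,⟨24,4,33⟩⟩,true,7,27,.leaf [(2,1681),(4,57),(7,7),(15,21)],.leaf [(1,1107),(7,21),(10,164),(14,4)]⟩,
⟨⟨⟨9,40,0⟩,⟨40,-9,0⟩,⟨0,0,-41⟩⟩,true,9,0,.leaf [(0,40),(2,9),(4,1)],.leaf [(0,40),(2,9),(4,1)]⟩,
⟨⟨⟨9,-24,-32⟩,⟨24,-23,24⟩,⟨-32,-24,9⟩⟩,true,11,1,.leaf [(1,984),(3,1681),(4,48),(7,1)],.leaf [(1,984),(3,1681),(4,48),(7,1)]⟩,
⟨⟨⟨-9,24,-32⟩,⟨24,-23,-24⟩,⟨-32,-24,-9⟩⟩,true,11,40,.leaf [(0,44),(1,8),(2,3),(4,1)],.leaf [(0,44),(1,8),(2,3),(4,1)]⟩,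
⟨⟨⟨31,24,12⟩,⟨24,-33,4⟩,⟨12,4,-39⟩⟩,true,14,7,.leaf [(0,1271),(2,1476),(4,51),(5,8)],.leaf [(0,1271),(2,1476),(4,51),(5,8)]⟩,
⟨⟨⟨31,24,-12⟩,⟨-24,33,4⟩,⟨12,4,39⟩⟩,true,14,34,.leaf [(1,246),(2,205),(7,10),(14,3)],.leaf [(1,57),(2,7),(7,1),(10,21)]⟩,
⟨⟨⟨-23,24,24⟩,⟨-24,9,-32⟩,⟨-24,-32,9⟩⟩,true,15,15,.leaf [(3,369),(6,45),(18,205),(23,1)],.leaf [(1,123),(4,15),(10,205),(15,1)]⟩,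
⟨⟨⟨-23,24,-24⟩,⟨24,-9,-32⟩,⟨-24,-32,-9⟩⟩,true,15,26,.leaf [(0,902),(3,779),(4,58),(15,11)],.leaf [(0,55),(3,28),(4,2),(10,11)]⟩,
⟨⟨⟨33,4,-24⟩,⟨4,39,12⟩,⟨24,-12,31⟩⟩,true,20,3,.leaf [(1,3),(2,43),(3,9),(6,1)],.leaf [(1,3),(2,43),(3,9),(6,1)]⟩,
⟨⟨⟨33,4,24⟩,⟨4,39,-12⟩,⟨-24,12,31⟩⟩,true,20,38,.leaf [(5,123),(6,135),(11,1681),(14,5)],.leaf [(2,40),(6,1),(10,3)]⟩,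
⟨⟨⟨-33,4,24⟩,⟨4,-39,12⟩,⟨24,12,31⟩⟩,true,21,3,.leaf [(4,108),(5,45),(11,1681),(15,10)],.leaf [(0,37),(2,3),(4,1),(10,3)]⟩,
⟨⟨⟨-33,4,-24⟩,⟨4,-39,-12⟩,⟨-24,-12,31⟩⟩,true,21,38,.leaf [(0,43),(1,9),(3,3),(4,1)],.leaf [(0,43),(1,9),(3,3),(4,1)]⟩,
⟨⟨⟨-23,-24,24⟩,⟨-24,-9,-32⟩,⟨24,-32,-9⟩⟩,true,26,15,.leaf [(1,902),(2,779),(5,58),(14,11)],.leaf [(1,36),(2,22),(6,1),(10,11)]⟩,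
⟨⟨⟨-23,-24,-24⟩,⟨24,9,-32⟩,⟨24,-32,9⟩⟩,true,26,26,.leaf [(5,243),(14,63),(18,1681),(23,7)],.leaf [(1,1107),(6,18),(10,410),(15,5)]⟩,
⟨⟨⟨31,-24,12⟩,⟨24,33,4⟩,⟨-12,4,39⟩⟩,true,27,7,.leaf [(3,1681),(5,57),(6,7),(14,21)],.leaf [(0,35),(3,30),(5,2),(10,21)]⟩,
⟨⟨⟨31,-24,-12⟩,⟨-24,-33,4⟩,⟨-12,4,-39⟩⟩,true,27,34,.leaf [(1,1189),(2,861),(4,49),(5,15)],.leaf [(1,1189),(2,861),(4,49),(5,15)]⟩,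
⟨⟨⟨9,24,-32⟩,⟨-24,-23,-24⟩,⟨-32,24,9⟩⟩,true,30,1,.leaf [(0,3),(2,44),(3,8),(4,1)],.leaf [(0,3),(2,44),(3,8),(4,1)]⟩,
⟨⟨⟨-9,-24,-32⟩,⟨-24,-23,24⟩,⟨-32,24,-9⟩⟩,true,30,40,.leaf [(1,1681),(3,984),(4,48),(5,1)],.leaf [(1,1681),(3,984),(4,48),(5,1)]⟩,
⟨⟨⟨-9,40,0⟩,⟨40,9,0⟩,⟨0,0,-41⟩⟩,true,32,0,.leaf [(3,1681),(4,45),(5,41),(6,5)],.leaf [(3,1681),(4,45),(5,41),(6,5)]⟩,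
⟨⟨⟨31,-12,24⟩,⟨12,39,4⟩,⟨-24,4,33⟩⟩,true,34,14,.leaf [(0,246),(3,205),(6,10),(15,3)],.leaf [(0,4),(3,39),(5,1),(10,12)]⟩,
⟨⟨⟨31,-12,-24⟩,⟨-12,-39,4⟩,⟨-24,4,-33⟩⟩,true,34,27,.leaf [(0,6),(1,28),(2,21),(4,1)],.leaf [(0,6),(1,28),(2,21),(4,1)]⟩,
⟨⟨⟨-39,-12,4⟩,⟨-12,31,-24⟩,⟨4,-24,-33⟩⟩,true,35,2,.leaf [(1,287),(2,615),(5,35),(14,9)],.leaf [(1,27),(2,22),(7,1),(10,14)]⟩,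
⟨⟨⟨39,12,4⟩,⟨-12,31,24⟩,⟨4,-24,33⟩⟩,true,35,39,.leaf [(2,41),(3,205),(4,1),(7,5)],.leaf [(2,41),(3,205),(4,1),(7,5)]⟩,
⟨⟨⟨33,24,4⟩,⟨-24,31,12⟩,⟨4,-12,39⟩⟩,true,38,20,.leaf [(4,123),(7,135),(10,1681),(15,5)],.leaf [(7,729),(23,63),(26,1681),(30,7)]⟩,
⟨⟨⟨-33,-24,4⟩,⟨-24,31,-12⟩,⟨4,-12,-39⟩⟩,true,38,21,.leaf [(0,9),(1,43),(2,3),(5,1)],.leaf [(0,9),(1,43),(2,3),(5,1)]⟩,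
⟨⟨⟨39,4,-12⟩,⟨4,33,24⟩,⟨12,-24,31⟩⟩,true,39,6,.leaf [(1,902),(2,533),(4,55),(15,14)],.leaf [(1,24),(2,28),(6,1),(10,9)]⟩,
⟨⟨⟨39,4,12⟩,⟨4,33,-24⟩,⟨-12,24,31⟩⟩,true,39,35,.leaf [(2,205),(3,41),(5,1),(6,5)],.leaf [(2,205),(3,41),(5,1),(6,5)]⟩,
⟨⟨⟨-9,-32,24⟩,⟨-32,-9,-24⟩,⟨24,-24,-23⟩⟩,true,40,11,.leaf [(0,8),(1,44),(3,3),(5,1)],.leaf [(0,8),(1,44),(3,3),(5,1)]⟩,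
⟨⟨⟨-9,-32,-24⟩,⟨-32,-9,24⟩,⟨-24,24,-23⟩⟩,true,40,30,.leaf [(1,1804),(3,861),(4,56),(5,23)],.leaf [(1,1804),(3,861),(4,56),(5,23)]⟩]

theorem primeOk_41 : PrimeOk 41 := primeOk (by norm_num) (by norm_num) (by norm_num) L41
  (by decide +kernel) (by decide +kernel)

def L101 : List Cls := [
⟨⟨⟨-101,0,0⟩,⟨0,99,-20⟩,⟨0,-20,-99⟩⟩,false,0,10,.leaf [(1,1919),(5,70),(7,31),(10,2020)],.leaf [(1,606),(3,9595),(7,94),(15,5)]⟩,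
⟨⟨⟨-101,0,0⟩,⟨0,-99,-20⟩,⟨0,-20,99⟩⟩,false,0,91,.leaf [(0,1919),(4,70),(6,31),(11,2020)],.leaf [(2,9494),(4,6),(6,95),(10,505)]⟩,
⟨⟨⟨99,0,-20⟩,⟨0,-101,0⟩,⟨-20,0,-99⟩⟩,true,0,10,.leaf [(0,11),(1,20),(2,90),(4,1)],.leaf [(0,11),(1,20),(2,90),(4,1)]⟩,
⟨⟨⟨-99,0,-20⟩,⟨0,-101,0⟩,⟨-20,0,99⟩⟩,true,0,91,.leaf [(0,101),(1,11),(3,9),(4,1)],.leaf [(0,101),(1,11),(3,9),(4,1)]⟩,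
⟨⟨⟨-93,16,-36⟩,⟨16,-69,-72⟩,⟨-36,-72,61⟩⟩,true,2,46,.leaf [(3,10201),(4,99),(6,55),(15,25)],.leaf [(0,70),(3,24),(4,1),(10,15)]⟩,
⟨⟨⟨-93,16,36⟩,⟨16,-69,72⟩,⟨36,72,61⟩⟩,true,2,55,.leaf [(0,85),(1,6),(3,30),(4,1)],.leaf [(0,85),(1,6),(3,30),(4,1)]⟩,
⟨⟨⟨-21,-84,52⟩,⟨36,43,84⟩,⟨-92,36,21⟩⟩,true,4,36,.leaf [(0,111),(1,31),(2,9),(5,1)],.leaf [(0,111),(1,31),(2,9),(5,1)]⟩,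
⟨⟨⟨21,84,52⟩,⟨36,43,-84⟩,⟨-92,36,-21⟩⟩,true,4,65,.leaf [(4,861),(5,1548),(14,706),(18,10201)],.leaf [(4,329),(5,51),(7,7),(10,10201)]⟩,
⟨⟨⟨-99,12,16⟩,⟨12,-29,96⟩,⟨16,96,27⟩⟩,true,6,8,.leaf [(0,41),(1,5),(3,75),(4,1)],.leaf [(0,41),(1,5),(3,75),(4,1)]⟩,
⟨⟨⟨99,-12,16⟩,⟨12,-29,-96⟩,⟨16,96,-27⟩⟩,true,6,93,.leaf [(0,108),(1,34),(3,9),(5,1)],.leaf [(0,108),(1,34),(3,9),(5,1)]⟩,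
⟨⟨⟨-99,16,12⟩,⟨16,27,96⟩,⟨12,96,-29⟩⟩,true,8,6,.leaf [(0,505),(1,707),(4,5),(5,7)],.leaf [(0,505),(1,707),(4,5),(5,7)]⟩,
⟨⟨⟨-99,16,-12⟩,⟨16,27,-96⟩,⟨-12,-96,-29⟩⟩,true,8,95,.leaf [(0,43),(1,34),(3,74),(6,1)],.leaf [(0,43),(1,34),(3,74),(6,1)]⟩,
⟨⟨⟨43,84,-36⟩,⟨-36,-21,-92⟩,⟨-84,52,21⟩⟩,true,9,25,.leaf [(0,1919),(2,505),(5,5),(7,19)],.leaf [(0,1919),(2,505),(5,5),(7,19)]⟩,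
⟨⟨⟨43,84,36⟩,⟨36,21,-92⟩,⟨-84,52,-21⟩⟩,true,9,76,.leaf [(0,10201),(4,15),(5,55),(7,81)],.leaf [(0,10201),(4,15),(5,55),(7,81)]⟩,
⟨⟨⟨99,-20,0⟩,⟨-20,-99,0⟩,⟨0,0,-101⟩⟩,true,10,0,.leaf [(1,202),(2,909),(4,11),(5,2)],.leaf [(1,202),(2,909),(4,11),(5,2)]⟩,
⟨⟨⟨61,-36,-72⟩,⟨-36,-93,16⟩,⟨-72,16,-69⟩⟩,true,11,22,.leaf [(0,24),(1,88),(2,33),(4,1)],.leaf [(0,24),(1,88),(2,33),(4,1)]⟩,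
⟨⟨⟨61,-36,72⟩,⟨36,93,16⟩,⟨-72,16,69⟩⟩,true,11,79,.leaf [(0,303),(3,1313),(6,17),(15,3)],.leaf [(0,65),(3,162),(5,2),(10,39)]⟩,
⟨⟨⟨-21,-92,-36⟩,⟨52,21,-84⟩,⟨84,-36,43⟩⟩,true,14,45,.leaf [(1,12423),(5,151),(6,176),(18,808)],.leaf [(1,100899),(5,627),(10,37168),(14,8)]⟩,
⟨⟨⟨-21,-92,36⟩,⟨52,21,84⟩,⟨-84,36,43⟩⟩,true,14,56,.leaf [(0,1212),(1,101),(4,4),(5,13)],.leaf [(0,1212),(1,101),(4,4),(5,13)]⟩,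
⟨⟨⟨3,-56,84⟩,⟨-56,69,48⟩,⟨-84,-48,-29⟩⟩,true,15,28,.leaf [(0,8),(1,17),(3,96),(5,1)],.leaf [(0,8),(1,17),(3,96),(5,1)]⟩,
⟨⟨⟨3,-56,-84⟩,⟨-56,69,-48⟩,⟨84,48,-29⟩⟩,true,15,73,.leaf [(2,10201),(4,33),(5,132),(6,46)],.leaf [(2,10201),(4,33),(5,132),(6,46)]⟩,
⟨⟨⟨-29,12,96⟩,⟨12,-99,16⟩,⟨96,16,27⟩⟩,true,17,35,.leaf [(0,404),(2,7575),(4,69),(5,80)],.leaf [(0,404),(2,7575),(4,69),(5,80)]⟩,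
⟨⟨⟨-29,12,-96⟩,⟨-12,99,16⟩,⟨96,16,-27⟩⟩,true,17,66,.leaf [(1,10201),(4,28),(5,42),(7,81)],.leaf [(1,10201),(4,28),(5,42),(7,81)]⟩,
⟨⟨⟨-29,84,-48⟩,⟨84,-3,-56⟩,⟨-48,-56,-69⟩⟩,true,18,33,.leaf [(0,202),(3,101),(4,2),(7,1)],.leaf [(0,202),(3,101),(4,2),(7,1)]⟩,
⟨⟨⟨-29,84,48⟩,⟨-84,3,-56⟩,⟨-48,-56,69⟩⟩,true,18,68,.leaf [(4,378),(6,897),(15,28),(18,10201)],.leaf [(1,52),(2,42),(4,1),(10,39)]⟩,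
⟨⟨⟨61,-72,-36⟩,⟨-72,-69,16⟩,⟨-36,16,-93⟩⟩,true,22,11,.leaf [(2,4040),(3,4343),(4,32),(5,47)],.leaf [(2,4040),(3,4343),(4,32),(5,47)]⟩,
⟨⟨⟨61,-72,36⟩,⟨72,69,16⟩,⟨-36,16,93⟩⟩,true,22,90,.leaf [(3,10201),(5,75),(6,55),(14,33)],.leaf [(0,143),(3,18),(5,2),(10,33)]⟩,
⟨⟨⟨69,72,16⟩,⟨-72,61,36⟩,⟨16,-36,93⟩⟩,true,23,50,.leaf [(1,1212),(4,43),(7,44),(10,1111)],.leaf [(1,30603),(4,368),(7,220),(15,11)]⟩,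
⟨⟨⟨-69,-72,16⟩,⟨-72,61,-36⟩,⟨16,-36,-93⟩⟩,true,23,51,.leaf [(0,30),(1,109),(2,6),(5,1)],.leaf [(0,30),(1,109),(2,6),(5,1)]⟩,
⟨⟨⟨43,-36,84⟩,⟨-84,21,52⟩,⟨-36,-92,-21⟩⟩,true,25,9,.leaf [(1,1919),(3,505),(4,5),(6,19)],.leaf [(1,1919),(3,505),(4,5),(6,19)]⟩,
⟨⟨⟨43,-36,-84⟩,⟨84,-21,52⟩,⟨-36,-92,21⟩⟩,true,25,92,.leaf [(1,505),(3,1919),(4,19),(6,5)],.leaf [(1,505),(3,1919),(4,19),(6,5)]⟩,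
⟨⟨⟨27,96,16⟩,⟨96,-29,12⟩,⟨16,12,-99⟩⟩,true,26,38,.leaf [(0,11009),(2,3030),(4,115),(5,4)],.leaf [(0,11009),(2,3030),(4,115),(5,4)]⟩,
⟨⟨⟨-27,-96,16⟩,⟨96,-29,-12⟩,⟨16,12,99⟩⟩,true,26,63,.leaf [(0,10201),(4,125),(5,95),(7,99)],.leaf [(0,10201),(4,125),(5,95),(7,99)]⟩,
⟨⟨⟨69,-56,48⟩,⟨-56,3,84⟩,⟨-48,-84,-29⟩⟩,true,27,49,.leaf [(3,19291),(5,97),(15,22),(18,1212)],.leaf [(1,945),(3,483),(10,395),(14,1)]⟩,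
⟨⟨⟨69,-56,-48⟩,⟨-56,3,-84⟩,⟨48,84,-29⟩⟩,true,27,52,.leaf [(0,9999),(2,7474),(5,132),(6,19)],.leaf [(0,9999),(2,7474),(5,132),(6,19)]⟩,
⟨⟨⟨3,84,-56⟩,⟨-84,-29,-48⟩,⟨-56,48,69⟩⟩,true,28,15,.leaf [(0,17),(1,8),(2,96),(4,1)],.leaf [(0,17),(1,8),(2,96),(4,1)]⟩,
⟨⟨⟨-3,-84,-56⟩,⟨-84,-29,48⟩,⟨-56,48,-69⟩⟩,true,28,86,.leaf [(1,1010),(3,303),(4,12),(5,5)],.leaf [(1,1010),(3,303),(4,12),(5,5)]⟩,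
⟨⟨⟨-29,-48,84⟩,⟨-48,-69,-56⟩,⟨84,-56,-3⟩⟩,true,33,18,.leaf [(1,202),(2,101),(5,2),(6,1)],.leaf [(1,202),(2,101),(5,2),(6,1)]⟩,
⟨⟨⟨-29,-48,-84⟩,⟨48,69,-56⟩,⟨84,-56,3⟩⟩,true,33,83,.leaf [(3,4141),(5,24),(7,37),(18,808)],.leaf [(1,378),(3,897),(10,28),(23,1)]⟩,
⟨⟨⟨-29,96,12⟩,⟨96,27,16⟩,⟨12,16,-99⟩⟩,true,35,17,.leaf [(0,202),(3,1515),(4,18),(5,13)],.leaf [(0,202),(3,1515),(4,18),(5,13)]⟩,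
⟨⟨⟨-29,96,-12⟩,⟨-96,-27,16⟩,⟨12,16,99⟩⟩,true,35,84,.leaf [(0,42),(1,28),(2,81),(4,1)],.leaf [(0,42),(1,28),(2,81),(4,1)]⟩,
⟨⟨⟨-21,52,-84⟩,⟨-92,21,36⟩,⟨36,84,43⟩⟩,true,36,4,.leaf [(0,31),(1,111),(3,9),(4,1)],.leaf [(0,31),(1,111),(3,9),(4,1)]⟩,
⟨⟨⟨-21,52,84⟩,⟨-92,21,-36⟩,⟨-36,-84,43⟩⟩,true,36,97,.leaf [(4,3),(5,4),(6,2),(14,1)],.leaf [(0,51),(3,40),(6,1),(10,22)]⟩,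
⟨⟨⟨27,16,96⟩,⟨16,-99,12⟩,⟨96,12,-29⟩⟩,true,38,26,.leaf [(0,3434),(2,10605),(4,125),(5,84)],.leaf [(0,3434),(2,10605),(4,125),(5,84)]⟩,
⟨⟨⟨27,16,-96⟩,⟨16,-99,-12⟩,⟨-96,-12,-29⟩⟩,true,38,75,.leaf [(0,94),(1,84),(2,21),(4,1)],.leaf [(0,94),(1,84),(2,21),(4,1)]⟩,
⟨⟨⟨-21,-36,-92⟩,⟨84,43,-36⟩,⟨52,-84,21⟩⟩,true,45,14,.leaf [(0,122715),(7,612),(18,9898),(22,5)],.leaf [(0,13029),(4,89),(7,184),(10,2020)]⟩,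
⟨⟨⟨21,36,-92⟩,⟨84,43,36⟩,⟨52,-84,-21⟩⟩,true,45,87,.leaf [(1,909),(3,4444),(4,48),(7,7)],.leaf [(1,909),(3,4444),(4,48),(7,7)]⟩,
⟨⟨⟨-93,-36,16⟩,⟨-36,61,-72⟩,⟨16,-72,-69⟩⟩,true,46,2,.leaf [(2,10201),(5,99),(7,55),(14,25)],.leaf [(1,19291),(5,97),(7,66),(10,3636)]⟩,
⟨⟨⟨93,36,16⟩,⟨-36,61,72⟩,⟨16,-72,69⟩⟩,true,46,99,.leaf [(2,202),(3,707),(4,2),(7,7)],.leaf [(2,202),(3,707),(4,2),(7,7)]⟩,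
⟨⟨⟨69,48,-56⟩,⟨-48,-29,-84⟩,⟨-56,84,3⟩⟩,true,49,27,.leaf [(2,70),(4,1),(11,8),(18,5)],.leaf [(0,20705),(4,178),(5,388),(10,6969)]⟩,
⟨⟨⟨-69,-48,-56⟩,⟨-48,-29,84⟩,⟨-56,84,-3⟩⟩,true,49,74,.leaf [(1,7474),(3,9999),(4,132),(5,19)],.leaf [(1,7474),(3,9999),(4,132),(5,19)]⟩,
⟨⟨⟨69,16,72⟩,⟨16,93,-36⟩,⟨-72,36,61⟩⟩,true,50,23,.leaf [(0,1212),(5,43),(6,44),(11,1111)],.leaf [(0,33027),(5,388),(6,242),(10,1111)]⟩,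
⟨⟨⟨69,16,-72⟩,⟨16,93,36⟩,⟨72,-36,61⟩⟩,true,50,78,.leaf [(1,6),(2,109),(3,30),(6,1)],.leaf [(1,6),(2,109),(3,30),(6,1)]⟩,
⟨⟨⟨-69,16,-72⟩,⟨16,-93,-36⟩,⟨-72,-36,61⟩⟩,true,51,23,.leaf [(0,109),(1,30),(3,6),(4,1)],.leaf [(0,109),(1,30),(3,6),(4,1)]⟩,
⟨⟨⟨-69,16,72⟩,⟨16,-93,36⟩,⟨72,36,61⟩⟩,true,51,78,.leaf [(4,324),(5,126),(11,10201),(15,7)],.leaf [(2,2828),(4,21),(5,32),(10,101)]⟩,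
⟨⟨⟨69,-48,-56⟩,⟨48,-29,84⟩,⟨-56,-84,3⟩⟩,true,52,27,.leaf [(1,9999),(3,7474),(4,132),(7,19)],.leaf [(1,9999),(3,7474),(4,132),(7,19)]⟩,
⟨⟨⟨-69,48,-56⟩,⟨48,-29,-84⟩,⟨-56,-84,-3⟩⟩,true,52,74,.leaf [(0,34239),(4,145),(7,164),(18,3434)],.leaf [(2,8080),(4,79),(7,120),(10,2323)]⟩,
⟨⟨⟨-93,36,16⟩,⟨36,61,72⟩,⟨16,72,-69⟩⟩,true,55,2,.leaf [(0,202),(1,707),(4,2),(5,7)],.leaf [(0,202),(1,707),(4,2),(5,7)]⟩,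
⟨⟨⟨93,-36,16⟩,⟨36,61,-72⟩,⟨16,72,69⟩⟩,true,55,99,.leaf [(0,6129),(3,4716),(18,1070),(22,1)],.leaf [(0,26563),(5,290),(7,62),(10,2525)]⟩,
⟨⟨⟨-21,36,-92⟩,⟨-84,43,36⟩,⟨52,84,21⟩⟩,true,56,14,.leaf [(1,4444),(3,909),(4,48),(5,7)],.leaf [(1,4444),(3,909),(4,48),(5,7)]⟩,
⟨⟨⟨21,-36,-92⟩,⟨-84,43,-36⟩,⟨52,84,-21⟩⟩,true,56,87,.leaf [(2,29593),(4,373),(5,408),(18,2020)],.leaf [(2,24947),(4,107),(5,312),(10,4040)]⟩,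
⟨⟨⟨-27,16,-96⟩,⟨16,99,12⟩,⟨96,-12,-29⟩⟩,true,63,26,.leaf [(1,10201),(4,95),(5,125),(6,99)],.leaf [(1,10201),(4,95),(5,125),(6,99)]⟩,
⟨⟨⟨-27,16,96⟩,⟨16,99,-12⟩,⟨-96,12,-29⟩⟩,true,63,75,.leaf [(1,3030),(3,11009),(5,115),(6,4)],.leaf [(1,3030),(3,11009),(5,115),(6,4)]⟩,
⟨⟨⟨21,52,84⟩,⟨-92,-21,36⟩,⟨36,-84,43⟩⟩,true,65,4,.leaf [(4,1827),(5,1254),(15,266),(18,10201)],.leaf [(1,128),(2,29),(4,1),(10,44)]⟩,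
⟨⟨⟨21,52,-84⟩,⟨-92,-21,-36⟩,⟨-36,84,43⟩⟩,true,65,97,.leaf [(0,4),(1,48),(2,69),(4,1)],.leaf [(0,4),(1,48),(2,69),(4,1)]⟩,
⟨⟨⟨-29,-96,12⟩,⟨96,-27,16⟩,⟨-12,16,99⟩⟩,true,66,17,.leaf [(0,10201),(4,42),(5,28),(6,81)],.leaf [(0,10201),(4,42),(5,28),(6,81)]⟩,
⟨⟨⟨-29,-96,-12⟩,⟨-96,27,16⟩,⟨-12,16,-99⟩⟩,true,66,84,.leaf [(0,91),(1,87),(2,21),(5,1)],.leaf [(0,91),(1,87),(2,21),(5,1)]⟩,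
⟨⟨⟨-29,48,84⟩,⟨-48,69,-56⟩,⟨-84,-56,3⟩⟩,true,68,18,.leaf [(5,2538),(7,1218),(14,1097),(18,10201)],.R (.leaf [(1,729),(10,315),(26,7),(35,5)]) (.leaf [(1,2916),(10,855),(26,58),(34,5)]) (.leaf [(1,151632),(10,49725),(26,1996),(38,5)])⟩,
⟨⟨⟨-29,48,-84⟩,⟨48,-69,-56⟩,⟨-84,-56,-3⟩⟩,true,68,83,.leaf [(0,111),(1,28),(2,6),(4,1)],.leaf [(0,111),(1,28),(2,6),(4,1)]⟩,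
⟨⟨⟨3,-84,-56⟩,⟨84,-29,48⟩,⟨-56,-48,69⟩⟩,true,73,15,.leaf [(3,10201),(4,132),(5,33),(7,46)],.leaf [(3,10201),(4,132),(5,33),(7,46)]⟩,
⟨⟨⟨-3,84,-56⟩,⟨84,-29,-48⟩,⟨-56,-48,-69⟩⟩,true,73,86,.leaf [(0,104),(1,8),(2,9),(4,1)],.leaf [(0,104),(1,8),(2,9),(4,1)]⟩,
⟨⟨⟨-69,-56,-48⟩,⟨-56,-3,84⟩,⟨-48,84,-29⟩⟩,true,74,49,.leaf [(1,8383),(3,9090),(4,140),(5,53)],.leaf [(1,8383),(3,9090),(4,140),(5,53)]⟩,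
⟨⟨⟨-69,-56,48⟩,⟨-56,-3,-84⟩,⟨48,-84,-29⟩⟩,true,74,52,.leaf [(1,963),(5,15),(10,110),(18,62)],.leaf [(1,891),(3,681),(10,389),(14,1)]⟩,
⟨⟨⟨27,-96,16⟩,⟨-96,-29,-12⟩,⟨16,-12,-99⟩⟩,true,75,38,.leaf [(0,84),(1,94),(3,21),(5,1)],.leaf [(0,84),(1,94),(3,21),(5,1)]⟩,
⟨⟨⟨-27,96,16⟩,⟨-96,-29,12⟩,⟨16,-12,99⟩⟩,true,75,63,.leaf [(0,3030),(2,11009),(4,115),(7,4)],.leaf [(0,3030),(2,11009),(4,115),(7,4)]⟩,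
⟨⟨⟨43,36,84⟩,⟨-84,-21,52⟩,⟨36,-92,21⟩⟩,true,76,9,.leaf [(1,10201),(4,55),(5,15),(6,81)],.leaf [(1,10201),(4,55),(5,15),(6,81)]⟩,
⟨⟨⟨43,36,-84⟩,⟨84,21,52⟩,⟨36,-92,-21⟩⟩,true,76,92,.leaf [(0,15),(1,55),(3,81),(4,1)],.leaf [(0,15),(1,55),(3,81),(4,1)]⟩,
⟨⟨⟨69,-72,16⟩,⟨72,61,-36⟩,⟨16,36,93⟩⟩,true,78,50,.leaf [(0,6),(2,30),(3,109),(7,1)],.leaf [(0,6),(2,30),(3,109),(7,1)]⟩,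
⟨⟨⟨-69,72,16⟩,⟨72,61,36⟩,⟨16,36,-93⟩⟩,true,78,51,.leaf [(4,126),(5,324),(10,10201),(14,7)],.leaf [(3,102010),(4,1135),(5,726),(22,11)]⟩,
⟨⟨⟨61,72,-36⟩,⟨-72,69,16⟩,⟨36,16,93⟩⟩,true,79,11,.leaf [(1,303),(2,1313),(7,17),(14,3)],.leaf [(1,75),(2,55),(7,1),(10,33)]⟩,
⟨⟨⟨61,72,36⟩,⟨72,-69,16⟩,⟨36,16,-93⟩⟩,true,79,90,.leaf [(0,9494),(2,7575),(4,129),(5,20)],.leaf [(0,9494),(2,7575),(4,129),(5,20)]⟩,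
⟨⟨⟨-29,-84,-48⟩,⟨84,3,-56⟩,⟨48,-56,69⟩⟩,true,83,33,.leaf [(2,39087),(6,267),(15,184),(18,2020)],.leaf [(0,42),(2,13),(6,1),(10,26)]⟩,
⟨⟨⟨-29,-84,48⟩,⟨-84,-3,-56⟩,⟨48,-56,-69⟩⟩,true,83,68,.leaf [(0,28),(1,111),(3,6),(5,1)],.leaf [(0,28),(1,111),(3,6),(5,1)]⟩,
⟨⟨⟨-29,-12,96⟩,⟨12,99,16⟩,⟨-96,16,-27⟩⟩,true,84,35,.leaf [(0,28),(1,42),(3,81),(5,1)],.leaf [(0,28),(1,42),(3,81),(5,1)]⟩,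
⟨⟨⟨-29,-12,-96⟩,⟨-12,-99,16⟩,⟨-96,16,27⟩⟩,true,84,66,.leaf [(0,87),(1,91),(3,21),(4,1)],.leaf [(0,87),(1,91),(3,21),(4,1)]⟩,
⟨⟨⟨-3,-56,-84⟩,⟨-56,-69,48⟩,⟨-84,48,-29⟩⟩,true,86,28,.leaf [(0,13),(1,99),(3,33),(4,1)],.leaf [(0,13),(1,99),(3,33),(4,1)]⟩,
⟨⟨⟨-3,-56,84⟩,⟨-56,-69,-48⟩,⟨84,-48,-29⟩⟩,true,86,73,.leaf [(0,8),(1,104),(3,9),(5,1)],.leaf [(0,8),(1,104),(3,9),(5,1)]⟩,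
⟨⟨⟨21,-92,36⟩,⟨52,-21,-84⟩,⟨84,36,43⟩⟩,true,87,45,.leaf [(0,909),(2,4444),(5,48),(6,7)],.leaf [(0,909),(2,4444),(5,48),(6,7)]⟩,
⟨⟨⟨21,-92,-36⟩,⟨52,-21,84⟩,⟨-84,-36,43⟩⟩,true,87,56,.L (.L (.leaf [(1,225836),(4,130),(6,289),(34,2525)]) (.leaf [(0,102),(2,43),(6,1),(11,36)]) (.leaf [(0,707),(1,202),(4,7),(5,2)])) (.leaf [(0,50),(1,140),(2,69),(4,1)]) (.leaf [(0,132),(1,46),(3,99),(5,1)]),.leaf [(3,11413),(4,48),(5,133),(10,4040)]⟩,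
⟨⟨⟨61,36,-72⟩,⟨-36,93,16⟩,⟨72,16,69⟩⟩,true,90,22,.leaf [(2,10201),(4,75),(7,55),(15,33)],.leaf [(1,159),(2,13),(7,1),(10,39)]⟩,
⟨⟨⟨61,36,72⟩,⟨36,-93,16⟩,⟨72,16,-69⟩⟩,true,90,79,.leaf [(0,6464),(2,10605),(4,141),(5,56)],.leaf [(0,6464),(2,10605),(4,141),(5,56)]⟩,
⟨⟨⟨-99,-20,0⟩,⟨-20,99,0⟩,⟨0,0,-101⟩⟩,true,91,0,.leaf [(0,11),(1,101),(2,9),(5,1)],.leaf [(0,11),(1,101),(2,9),(5,1)]⟩,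
⟨⟨⟨43,-84,-36⟩,⟨-36,21,-92⟩,⟨84,52,-21⟩⟩,true,92,25,.leaf [(0,505),(2,1919),(5,19),(7,5)],.leaf [(0,505),(2,1919),(5,19),(7,5)]⟩,
⟨⟨⟨43,-84,36⟩,⟨36,-21,-92⟩,⟨84,52,21⟩⟩,true,92,76,.leaf [(0,55),(1,15),(2,81),(5,1)],.leaf [(0,55),(1,15),(2,81),(5,1)]⟩,
⟨⟨⟨99,16,-12⟩,⟨16,-27,96⟩,⟨12,-96,-29⟩⟩,true,93,6,.leaf [(0,34),(1,108),(2,9),(4,1)],.leaf [(0,34),(1,108),(2,9),(4,1)]⟩,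
⟨⟨⟨99,16,12⟩,⟨16,-27,-96⟩,⟨-12,96,-29⟩⟩,true,93,95,.leaf [(0,1212),(1,101),(4,4),(5,13)],.leaf [(0,1212),(1,101),(4,4),(5,13)]⟩,
⟨⟨⟨-99,-12,16⟩,⟨-12,-29,-96⟩,⟨16,-96,27⟩⟩,true,95,8,.leaf [(0,34),(1,43),(2,74),(7,1)],.leaf [(0,34),(1,43),(2,74),(7,1)]⟩,
⟨⟨⟨99,12,16⟩,⟨-12,-29,96⟩,⟨16,-96,-27⟩⟩,true,95,93,.leaf [(0,5),(1,80),(2,36),(4,1)],.leaf [(0,5),(1,80),(2,36),(4,1)]⟩,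
⟨⟨⟨-21,84,52⟩,⟨-36,43,-84⟩,⟨-92,-36,21⟩⟩,true,97,36,.leaf [(4,4),(5,3),(7,2),(15,1)],.leaf [(4,7047),(10,153015),(23,350),(31,14)]⟩,
⟨⟨⟨21,-84,52⟩,⟨-36,43,84⟩,⟨-92,-36,-21⟩⟩,true,97,65,.leaf [(0,48),(1,4),(3,69),(5,1)],.leaf [(0,48),(1,4),(3,69),(5,1)]⟩,
⟨⟨⟨93,16,36⟩,⟨16,69,-72⟩,⟨-36,72,61⟩⟩,true,99,46,.leaf [(2,707),(3,202),(5,2),(6,7)],.leaf [(2,707),(3,202),(5,2),(6,7)]⟩,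
⟨⟨⟨93,16,-36⟩,⟨16,69,72⟩,⟨36,-72,61⟩⟩,true,99,55,.leaf [(1,4040),(4,40),(6,19),(18,101)],.leaf [(1,84),(2,55),(6,1),(10,30)]⟩]

theorem primeOk_101 : PrimeOk 101 := primeOk (by norm_num) (by norm_num) (by norm_num) L101
  (by decide +kernel) (by decide +kernel)

def L163 : List Cls := [
⟨⟨⟨1,-162,18⟩,⟨-162,1,18⟩,⟨-18,-18,-161⟩⟩,true,1,18,.leaf [(1,8),(2,144),(3,171),(5,1)],.leaf [(1,8),(2,144),(3,171),(5,1)]⟩,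
⟨⟨⟨1,-162,-18⟩,⟨-162,1,-18⟩,⟨18,18,-161⟩⟩,true,1,145,.leaf [(0,153),(1,143),(2,27),(5,1)],.leaf [(0,153),(1,143),(2,27),(5,1)]⟩,
⟨⟨⟨63,126,82⟩,⟨-98,-33,126⟩,⟨114,-98,63⟩⟩,true,2,22,.leaf [(0,21),(1,44),(2,138),(4,1)],.leaf [(0,21),(1,44),(2,138),(4,1)]⟩,
⟨⟨⟨-63,-126,82⟩,⟨-98,-33,-126⟩,⟨114,-98,-63⟩⟩,true,2,141,.leaf [(1,3423),(2,326),(5,23),(6,2)],.leaf [(1,3423),(2,326),(5,23),(6,2)]⟩,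
⟨⟨⟨111,118,18⟩,⟨102,-81,-98⟩,⟨-62,78,-129⟩⟩,true,4,31,.leaf [(0,21679),(2,2934),(4,147),(5,116)],.leaf [(0,21679),(2,2934),(4,147),(5,116)]⟩,
⟨⟨⟨111,118,-18⟩,⟨-102,81,-98⟩,⟨-62,78,129⟩⟩,true,4,132,.leaf [(1,108),(2,18),(10,131),(14,1)],.L (.L (.leaf [(0,132),(1,152),(2,33),(4,1)]) (.leaf [(0,81),(11,24),(18,4),(26,1)]) (.leaf [(0,345),(1,1260),(10,262),(14,1)])) (.leaf [(0,1630),(1,1467),(4,10),(5,1)]) (.leaf [(0,279),(1,999),(10,155),(15,1)])⟩,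
⟨⟨⟨-17,-102,-126⟩,⟨-6,127,-102⟩,⟨162,-6,-17⟩⟩,true,6,17,.leaf [(1,252),(2,615),(14,2),(18,41)],.leaf [(1,275),(5,1),(10,96)]⟩,
⟨⟨⟨-17,-102,126⟩,⟨-6,127,102⟩,⟨-162,6,-17⟩⟩,true,6,146,.leaf [(0,108),(1,53),(3,90),(5,1)],.leaf [(0,108),(1,53),(3,90),(5,1)]⟩,
⟨⟨⟨-81,-78,118⟩,⟨-98,129,18⟩,⟨-102,-62,-111⟩⟩,true,7,73,.leaf [(1,96),(2,16),(3,133),(5,1)],.leaf [(1,96),(2,16),(3,133),(5,1)]⟩,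
⟨⟨⟨81,78,118⟩,⟨-98,129,-18⟩,⟨-102,-62,111⟩⟩,true,7,90,.leaf [(0,79707),(5,500),(6,586),(14,95)],.leaf [(0,3423),(5,20),(6,34),(10,815)]⟩,
⟨⟨⟨-161,18,18⟩,⟨-18,1,-162⟩,⟨-18,-162,1⟩⟩,true,9,9,.leaf [(0,277263),(6,1863),(18,59984),(22,28)],.leaf [(3,123228),(4,1539),(10,105298),(14,119)]⟩,
⟨⟨⟨-161,18,-18⟩,⟨-18,1,162⟩,⟨18,162,1⟩⟩,true,9,154,.leaf [(0,17),(1,27),(3,153),(4,1)],.leaf [(0,17),(1,27),(3,153),(4,1)]⟩,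
⟨⟨⟨-15,-150,-62⟩,⟨10,-63,150⟩,⟨-162,10,15⟩⟩,true,10,15,.leaf [(1,5216),(3,22005),(4,160),(5,87)],.leaf [(1,5216),(3,22005),(4,160),(5,87)]⟩,
⟨⟨⟨15,150,-62⟩,⟨10,-63,-150⟩,⟨-162,10,-15⟩⟩,true,10,148,.leaf [(0,6194),(2,7009),(4,53),(6,22)],.leaf [(0,6194),(2,7009),(4,53),(6,22)]⟩,
⟨⟨⟨33,-126,-98⟩,⟨-98,63,-114⟩,⟨126,82,-63⟩⟩,true,11,81,.leaf [(0,12225),(2,29666),(5,212),(6,35)],.leaf [(0,12225),(2,29666),(5,212),(6,35)]⟩,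
⟨⟨⟨-33,126,-98⟩,⟨-98,63,114⟩,⟨126,82,63⟩⟩,true,11,82,.leaf [(0,63),(1,170),(3,42),(4,1)],.leaf [(0,63),(1,170),(3,42),(4,1)]⟩,
⟨⟨⟨-143,-66,42⟩,⟨-78,127,-66⟩,⟨-6,-78,-143⟩⟩,true,13,51,.leaf [(1,131),(3,6),(5,1),(10,12)],.leaf [(1,20375),(3,3912),(5,124),(15,3)]⟩,
⟨⟨⟨-143,-66,-42⟩,⟨-78,127,66⟩,⟨6,78,-143⟩⟩,true,13,112,.leaf [(0,48),(1,101),(2,96),(5,1)],.leaf [(0,48),(1,101),(2,96),(5,1)]⟩,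
⟨⟨⟨-15,-62,-150⟩,⟨-162,15,10⟩,⟨10,150,-63⟩⟩,true,15,10,.leaf [(1,2608),(2,1467),(4,25),(5,16)],.leaf [(1,2608),(2,1467),(4,25),(5,16)]⟩,
⟨⟨⟨-15,-62,150⟩,⟨162,-15,10⟩,⟨10,150,63⟩⟩,true,15,153,.leaf [(0,137),(1,87),(2,75),(5,1)],.leaf [(0,137),(1,87),(2,75),(5,1)]⟩,
⟨⟨⟨-143,-6,-78⟩,⟨42,-143,-66⟩,⟨-66,-78,127⟩⟩,true,16,45,.leaf [(0,26569),(4,158),(6,24),(14,3)],.leaf [(0,20212),(4,125),(6,24),(10,489)]⟩,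
⟨⟨⟨-143,-6,78⟩,⟨42,-143,66⟩,⟨66,78,127⟩⟩,true,16,118,.leaf [(0,26569),(4,167),(5,12),(6,18)],.leaf [(0,26569),(4,167),(5,12),(6,18)]⟩,
⟨⟨⟨-17,-126,-102⟩,⟨162,-17,-6⟩,⟨-6,-102,127⟩⟩,true,17,6,.leaf [(0,2376),(3,4437),(18,664),(23,1)],.leaf [(0,231),(3,4),(6,2),(10,55)]⟩,
⟨⟨⟨-17,-126,102⟩,⟨162,-17,6⟩,⟨6,102,127⟩⟩,true,17,157,.leaf [(0,14670),(2,13529),(5,108),(6,25)],.leaf [(0,14670),(2,13529),(5,108),(6,25)]⟩,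
⟨⟨⟨1,18,-162⟩,⟨-18,-161,-18⟩,⟨-162,18,1⟩⟩,true,18,1,.leaf [(0,8),(2,171),(3,144),(4,1)],.leaf [(0,8),(2,171),(3,144),(4,1)]⟩,
⟨⟨⟨1,18,162⟩,⟨-18,-161,18⟩,⟨162,-18,1⟩⟩,true,18,162,.leaf [(2,26569),(4,171),(5,144),(6,8)],.leaf [(2,26569),(4,171),(5,144),(6,8)]⟩,
⟨⟨⟨111,-62,102⟩,⟨18,-129,-98⟩,⟨118,78,-81⟩⟩,true,20,67,.leaf [(0,140),(1,165),(3,18),(5,1)],.leaf [(0,140),(1,165),(3,18),(5,1)]⟩,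
⟨⟨⟨111,-62,-102⟩,⟨-18,129,-98⟩,⟨118,78,81⟩⟩,true,20,96,.leaf [(5,477),(7,93),(11,26569),(15,109)],.leaf [(0,83),(2,294),(5,4),(10,183)]⟩,
⟨⟨⟨129,-62,-78⟩,⟨18,-111,118⟩,⟨-98,-102,-81⟩⟩,true,21,79,.leaf [(0,49),(1,178),(3,18),(4,1)],.leaf [(0,49),(1,178),(3,18),(4,1)]⟩,
⟨⟨⟨129,-62,78⟩,⟨-18,111,118⟩,⟨-98,-102,81⟩⟩,true,21,84,.leaf [(3,26569),(4,100),(5,162),(7,145)],.leaf [(3,26569),(4,100),(5,162),(7,145)]⟩,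
⟨⟨⟨63,82,126⟩,⟨114,63,-98⟩,⟨-98,126,-33⟩⟩,true,22,2,.leaf [(0,44),(1,21),(3,138),(5,1)],.leaf [(0,44),(1,21),(3,138),(5,1)]⟩,
⟨⟨⟨63,82,-126⟩,⟨-114,-63,-98⟩,⟨-98,126,33⟩⟩,true,22,161,.leaf [(1,326),(2,3423),(4,23),(5,2)],.leaf [(1,326),(2,3423),(4,23),(5,2)]⟩,
⟨⟨⟨127,78,-66⟩,⟨66,-143,-42⟩,⟨-78,6,-143⟩⟩,true,25,29,.leaf [(0,92),(1,24),(2,129),(4,1)],.leaf [(0,92),(1,24),(2,129),(4,1)]⟩,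
⟨⟨⟨127,78,66⟩,⟨66,-143,42⟩,⟨78,-6,-143⟩⟩,true,25,134,.leaf [(0,16300),(2,27873),(4,209),(5,24)],.leaf [(0,16300),(2,27873),(4,209),(5,24)]⟩,
⟨⟨⟨127,6,-102⟩,⟨102,-17,126⟩,⟨-6,-162,-17⟩⟩,true,27,30,.leaf [(0,23),(1,138),(3,90),(4,1)],.leaf [(0,23),(1,138),(3,90),(4,1)]⟩,
⟨⟨⟨127,6,102⟩,⟨102,-17,-126⟩,⟨6,162,-17⟩⟩,true,27,133,.leaf [(0,156),(1,77),(3,42),(5,1)],.leaf [(0,156),(1,77),(3,42),(5,1)]⟩,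
⟨⟨⟨127,-66,78⟩,⟨-78,-143,6⟩,⟨66,-42,-143⟩⟩,true,29,25,.leaf [(0,4727),(1,9943),(4,43),(5,59)],.leaf [(0,4727),(1,9943),(4,43),(5,59)]⟩,
⟨⟨⟨127,-66,-78⟩,⟨-78,-143,-6⟩,⟨-66,42,-143⟩⟩,true,29,138,.leaf [(1,14996),(2,17115),(4,183),(5,28)],.leaf [(1,14996),(2,17115),(4,183),(5,28)]⟩,
⟨⟨⟨127,-102,6⟩,⟨-6,-17,-162⟩,⟨102,126,-17⟩⟩,true,30,27,.leaf [(0,138),(1,23),(2,90),(5,1)],.leaf [(0,138),(1,23),(2,90),(5,1)]⟩,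
⟨⟨⟨127,-102,-6⟩,⟨-6,-17,162⟩,⟨-102,-126,-17⟩⟩,true,30,136,.leaf [(1,1141),(3,815),(4,7),(6,5)],.leaf [(1,1141),(3,815),(4,7),(6,5)]⟩,
⟨⟨⟨111,18,118⟩,⟨-62,-129,78⟩,⟨102,-98,-81⟩⟩,true,31,4,.leaf [(0,163),(1,1630),(4,9),(5,10)],.leaf [(0,163),(1,1630),(4,9),(5,10)]⟩,
⟨⟨⟨-111,-18,118⟩,⟨-62,-129,-78⟩,⟨102,-98,81⟩⟩,true,31,159,.leaf [(2,815),(5,10),(15,2),(18,163)],.leaf [(1,25265),(4,208),(5,93),(10,15648)]⟩,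
⟨⟨⟨81,-98,-102⟩,⟨78,129,-62⟩,⟨118,-18,111⟩⟩,true,33,41,.leaf [(0,84108),(3,22331),(7,586),(15,37)],.leaf [(0,195),(3,166),(7,2),(10,37)]⟩,
⟨⟨⟨81,-98,102⟩,⟨-78,-129,-62⟩,⟨118,-18,-111⟩⟩,true,33,122,.leaf [(0,5216),(1,9943),(4,16),(5,59)],.leaf [(0,5216),(1,9943),(4,16),(5,59)]⟩,
⟨⟨⟨-63,114,-98⟩,⟨82,-63,-126⟩,⟨-126,-98,-33⟩⟩,true,37,74,.leaf [(0,1304),(2,163),(4,8),(6,1)],.leaf [(0,1304),(2,163),(4,8),(6,1)]⟩,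
⟨⟨⟨63,-114,-98⟩,⟨82,-63,126⟩,⟨-126,-98,33⟩⟩,true,37,89,.leaf [(3,22005),(4,189),(10,8639),(15,25)],.leaf [(3,6357),(5,9),(10,11084),(22,20)]⟩,
⟨⟨⟨-17,6,162⟩,⟨102,127,6⟩,⟨-126,102,-17⟩⟩,true,38,48,.leaf [(0,96),(1,83),(3,96),(5,1)],.leaf [(0,96),(1,83),(3,96),(5,1)]⟩,
⟨⟨⟨-17,6,-162⟩,⟨102,127,-6⟩,⟨126,-102,-17⟩⟩,true,38,115,.leaf [(3,26569),(4,48),(7,83),(14,48)],.leaf [(1,1215),(3,264),(10,400),(15,1)]⟩,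
⟨⟨⟨81,-102,-98⟩,⟨118,111,-18⟩,⟨78,-62,129⟩⟩,true,41,33,.leaf [(1,84108),(2,22331),(6,586),(14,37)],.leaf [(1,1467),(5,93),(10,5216),(23,2)]⟩,
⟨⟨⟨-81,102,-98⟩,⟨118,111,18⟩,⟨78,-62,-129⟩⟩,true,41,130,.leaf [(3,26569),(4,183),(5,51),(6,47)],.leaf [(3,26569),(4,183),(5,51),(6,47)]⟩,
⟨⟨⟨-143,-78,-6⟩,⟨-66,127,-78⟩,⟨42,-66,-143⟩⟩,true,45,16,.leaf [(1,26569),(5,158),(7,24),(15,3)],.leaf [(1,7661),(5,37),(10,326),(14,2)]⟩,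
⟨⟨⟨-143,-78,6⟩,⟨-66,127,78⟩,⟨-42,66,-143⟩⟩,true,45,147,.leaf [(0,96),(1,149),(2,48),(5,1)],.leaf [(0,96),(1,149),(2,48),(5,1)]⟩,
⟨⟨⟨-17,162,6⟩,⟨-126,-17,102⟩,⟨102,6,127⟩⟩,true,48,38,.leaf [(0,83),(1,96),(2,96),(4,1)],.leaf [(0,83),(1,96),(2,96),(4,1)]⟩,
⟨⟨⟨-17,162,-6⟩,⟨-126,-17,-102⟩,⟨-102,-6,127⟩⟩,true,48,125,.leaf [(2,615),(4,18),(11,908),(18,205)],.leaf [(0,11),(2,144),(4,1),(10,24)]⟩,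
⟨⟨⟨-63,10,-150⟩,⟨150,15,-62⟩,⟨10,-162,-15⟩⟩,true,49,80,.leaf [(0,79707),(4,460),(7,296),(14,55)],.leaf [(0,55257),(4,410),(7,436),(10,8965)]⟩,
⟨⟨⟨-63,10,150⟩,⟨-150,-15,-62⟩,⟨10,-162,15⟩⟩,true,49,83,.leaf [(1,33),(2,152),(3,132),(7,1)],.leaf [(1,33),(2,152),(3,132),(7,1)]⟩,
⟨⟨⟨-143,42,-66⟩,⟨-6,-143,-78⟩,⟨-78,-66,127⟩⟩,true,51,13,.leaf [(0,131),(2,6),(4,1),(11,12)],.leaf [(0,158),(2,24),(4,1),(10,3)]⟩,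
⟨⟨⟨-143,42,66⟩,⟨-6,-143,78⟩,⟨78,66,127⟩⟩,true,51,150,.leaf [(0,167),(1,12),(2,18),(4,1)],.leaf [(0,167),(1,12),(2,18),(4,1)]⟩,
⟨⟨⟨15,10,162⟩,⟨-150,63,10⟩,⟨-62,-150,15⟩⟩,true,55,76,.leaf [(1,1141),(3,1304),(5,7),(7,8)],.leaf [(1,1141),(3,1304),(5,7),(7,8)]⟩,
⟨⟨⟨15,10,-162⟩,⟨150,-63,10⟩,⟨-62,-150,-15⟩⟩,true,55,87,.leaf [(0,73),(1,55),(3,117),(4,1)],.leaf [(0,73),(1,55),(3,117),(4,1)]⟩,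
⟨⟨⟨129,18,-98⟩,⟨-62,-111,-102⟩,⟨-78,118,-81⟩⟩,true,57,70,.leaf [(2,26569),(4,180),(5,40),(6,7)],.leaf [(2,26569),(4,180),(5,40),(6,7)]⟩,
⟨⟨⟨-129,-18,-98⟩,⟨-62,-111,102⟩,⟨-78,118,81⟩⟩,true,57,93,.leaf [(0,93),(1,113),(3,87),(4,1)],.leaf [(0,93),(1,113),(3,87),(4,1)]⟩,
⟨⟨⟨33,-42,154⟩,⟨154,-33,-42⟩,⟨42,154,33⟩⟩,true,58,59,.leaf [(0,154),(1,121),(2,42),(5,1)],.leaf [(0,154),(1,121),(2,42),(5,1)]⟩,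
⟨⟨⟨-33,42,154⟩,⟨154,-33,42⟩,⟨42,154,-33⟩⟩,true,58,104,.leaf [(0,26569),(4,187),(5,112)],.leaf [(0,26569),(4,187),(5,112)]⟩,
⟨⟨⟨33,154,-42⟩,⟨42,33,154⟩,⟨154,-42,-33⟩⟩,true,59,58,.leaf [(0,121),(1,154),(3,42),(4,1)],.leaf [(0,121),(1,154),(3,42),(4,1)]⟩,
⟨⟨⟨33,154,42⟩,⟨-42,-33,154⟩,⟨154,-42,33⟩⟩,true,59,105,.leaf [(2,187),(3,112),(4,1)],.leaf [(2,187),(3,112),(4,1)]⟩,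
⟨⟨⟨111,102,-62⟩,⟨118,-81,78⟩,⟨18,-98,-129⟩⟩,true,67,20,.leaf [(0,165),(1,140),(2,18),(4,1)],.leaf [(0,165),(1,140),(2,18),(4,1)]⟩,
⟨⟨⟨-111,-102,-62⟩,⟨118,-81,-78⟩,⟨18,-98,129⟩⟩,true,67,143,.L (.leaf [(0,132),(1,152),(2,33),(4,1)]) (.leaf [(0,81),(11,24),(18,4),(26,1)]) (.leaf [(0,345),(1,1260),(10,262),(14,1)]),.leaf [(4,24057),(22,3852),(26,345397),(31,8)]⟩,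
⟨⟨⟨129,-98,18⟩,⟨-78,-81,118⟩,⟨-62,-102,-111⟩⟩,true,70,57,.leaf [(3,26569),(4,40),(5,180),(7,7)],.leaf [(3,26569),(4,40),(5,180),(7,7)]⟩,
⟨⟨⟨129,-98,-18⟩,⟨78,81,118⟩,⟨-62,-102,111⟩⟩,true,70,106,.leaf [(2,7009),(3,9617),(4,29),(7,61)],.leaf [(2,7009),(3,9617),(4,29),(7,61)]⟩,
⟨⟨⟨-81,118,-78⟩,⟨-102,-111,-62⟩,⟨-98,18,129⟩⟩,true,73,7,.leaf [(0,96),(2,133),(3,16),(4,1)],.leaf [(0,96),(2,133),(3,16),(4,1)]⟩,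
⟨⟨⟨-81,118,78⟩,⟨102,111,-62⟩,⟨-98,18,-129⟩⟩,true,73,156,.leaf [(3,1983),(5,9),(10,125),(18,155)],.leaf [(3,15648),(4,177),(10,9943),(15,16)]⟩,
⟨⟨⟨-63,-98,114⟩,⟨-126,-33,-98⟩,⟨82,-126,-63⟩⟩,true,74,37,.leaf [(1,1304),(3,163),(5,8),(7,1)],.leaf [(1,1304),(3,163),(5,8),(7,1)]⟩,
⟨⟨⟨-63,-98,-114⟩,⟨126,33,-98⟩,⟨82,-126,63⟩⟩,true,74,126,.leaf [(0,489),(4,13),(7,68),(11,3260)],.leaf [(0,8313),(4,41),(7,64),(10,652)]⟩,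
⟨⟨⟨15,162,10⟩,⟨-62,15,-150⟩,⟨-150,10,63⟩⟩,true,76,55,.leaf [(0,1141),(2,1304),(4,7),(6,8)],.leaf [(0,1141),(2,1304),(4,7),(6,8)]⟩,
⟨⟨⟨-15,-162,10⟩,⟨-62,15,150⟩,⟨-150,10,-63⟩⟩,true,76,108,.leaf [(2,815),(3,2282),(4,9),(5,14)],.leaf [(2,815),(3,2282),(4,9),(5,14)]⟩,
⟨⟨⟨129,-78,-62⟩,⟨-98,-81,-102⟩,⟨18,118,-111⟩⟩,true,79,21,.leaf [(0,178),(1,49),(2,18),(5,1)],.leaf [(0,178),(1,49),(2,18),(5,1)]⟩,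
⟨⟨⟨-129,78,-62⟩,⟨-98,-81,102⟩,⟨18,118,111⟩⟩,true,79,142,.leaf [(0,159),(1,146),(3,18),(4,1)],.leaf [(0,159),(1,146),(3,18),(4,1)]⟩,
⟨⟨⟨-63,-150,10⟩,⟨10,-15,-162⟩,⟨150,-62,15⟩⟩,true,80,49,.leaf [(1,79707),(5,460),(6,296),(15,55)],.leaf [(1,38631),(5,145),(6,23),(10,8965)]⟩,
⟨⟨⟨63,150,10⟩,⟨10,-15,162⟩,⟨150,-62,-15⟩⟩,true,80,114,.leaf [(0,132),(1,152),(2,33),(4,1)],.leaf [(0,132),(1,152),(2,33),(4,1)]⟩,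
⟨⟨⟨33,-98,-126⟩,⟨126,-63,82⟩,⟨-98,-114,63⟩⟩,true,81,11,.leaf [(1,12225),(3,29666),(4,212),(7,35)],.leaf [(1,12225),(3,29666),(4,212),(7,35)]⟩,
⟨⟨⟨33,-98,126⟩,⟨-126,63,82⟩,⟨-98,-114,-63⟩⟩,true,81,152,.leaf [(1,1793),(3,8476),(5,53),(7,4)],.leaf [(1,1793),(3,8476),(5,53),(7,4)]⟩,
⟨⟨⟨-33,-98,126⟩,⟨126,63,82⟩,⟨-98,114,63⟩⟩,true,82,11,.leaf [(0,170),(1,63),(2,42),(5,1)],.leaf [(0,170),(1,63),(2,42),(5,1)]⟩,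
⟨⟨⟨-33,-98,-126⟩,⟨-126,-63,82⟩,⟨-98,114,-63⟩⟩,true,82,152,.leaf [(1,29666),(3,12225),(4,212),(5,35)],.leaf [(1,29666),(3,12225),(4,212),(5,35)]⟩,
⟨⟨⟨-63,150,10⟩,⟨10,15,-162⟩,⟨-150,-62,-15⟩⟩,true,83,49,.leaf [(0,33),(2,132),(3,152),(6,1)],.leaf [(0,33),(2,132),(3,152),(6,1)]⟩,
⟨⟨⟨63,-150,10⟩,⟨10,15,162⟩,⟨-150,-62,15⟩⟩,true,83,114,.leaf [(3,53138),(4,399),(5,490),(14,55)],.leaf [(3,51182),(4,111),(5,310),(10,8965)]⟩,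
⟨⟨⟨129,78,-62⟩,⟨-98,81,-102⟩,⟨-18,118,111⟩⟩,true,84,21,.leaf [(2,26569),(4,162),(5,100),(6,145)],.leaf [(2,26569),(4,162),(5,100),(6,145)]⟩,
⟨⟨⟨-129,-78,-62⟩,⟨-98,81,102⟩,⟨-18,118,-111⟩⟩,true,84,142,.leaf [(0,4727),(1,9943),(4,43),(5,59)],.leaf [(0,4727),(1,9943),(4,43),(5,59)]⟩,
⟨⟨⟨15,-162,10⟩,⟨-62,-15,-150⟩,⟨150,10,-63⟩⟩,true,87,55,.leaf [(0,55),(1,73),(2,117),(5,1)],.leaf [(0,55),(1,73),(2,117),(5,1)]⟩,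
⟨⟨⟨-15,162,10⟩,⟨-62,-15,150⟩,⟨150,10,63⟩⟩,true,87,108,.leaf [(1,5),(2,177),(3,135),(4,1)],.leaf [(1,5),(2,177),(3,135),(4,1)]⟩,
⟨⟨⟨63,-98,-114⟩,⟨-126,33,-98⟩,⟨82,126,-63⟩⟩,true,89,37,.leaf [(2,22005),(5,189),(11,8639),(14,25)],.leaf [(2,86227),(4,359),(5,624),(10,6520)]⟩,
⟨⟨⟨63,-98,114⟩,⟨126,-33,-98⟩,⟨82,126,63⟩⟩,true,89,126,.leaf [(0,128),(1,51),(2,96),(5,1)],.leaf [(0,128),(1,51),(2,96),(5,1)]⟩,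
⟨⟨⟨81,118,78⟩,⟨-102,111,-62⟩,⟨-98,-18,129⟩⟩,true,90,7,.leaf [(1,79707),(4,500),(7,586),(15,95)],.leaf [(1,199512),(4,516),(10,49063),(14,151)]⟩,
⟨⟨⟨81,118,-78⟩,⟨102,-111,-62⟩,⟨-98,-18,-129⟩⟩,true,90,156,.leaf [(0,133),(1,16),(2,96),(4,1)],.leaf [(0,133),(1,16),(2,96),(4,1)]⟩,
⟨⟨⟨-129,-98,-18⟩,⟨-78,81,118⟩,⟨-62,102,-111⟩⟩,true,93,57,.leaf [(0,7009),(1,9617),(4,29),(5,61)],.leaf [(0,7009),(1,9617),(4,29),(5,61)]⟩,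
⟨⟨⟨-129,-98,18⟩,⟨78,-81,118⟩,⟨-62,102,111⟩⟩,true,93,106,.leaf [(0,1630),(1,163),(4,10),(5,9)],.leaf [(0,1630),(1,163),(4,10),(5,9)]⟩,
⟨⟨⟨111,-102,-62⟩,⟨118,81,78⟩,⟨-18,-98,129⟩⟩,true,96,20,.leaf [(4,477),(6,93),(10,26569),(14,109)],.R (.leaf [(1,24786),(22,21),(26,497),(35,142)]) (.leaf [(1,469476),(22,285),(26,12283),(34,710)]) (.leaf [(1,19368801),(22,7032),(31,3053),(39,284)])⟩,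
⟨⟨⟨-111,102,-62⟩,⟨118,81,-78⟩,⟨-18,-98,-129⟩⟩,true,96,143,.leaf [(3,26569),(4,180),(5,147),(6,140)],.leaf [(3,26569),(4,180),(5,147),(6,140)]⟩,
⟨⟨⟨-33,154,42⟩,⟨42,-33,154⟩,⟨154,42,-33⟩⟩,true,104,58,.leaf [(0,187),(1,112),(4,1)],.leaf [(0,187),(1,112),(4,1)]⟩,
⟨⟨⟨-33,154,-42⟩,⟨-42,33,154⟩,⟨154,42,33⟩⟩,true,104,105,.leaf [(0,121),(1,163),(3,33),(4,1)],.leaf [(0,121),(1,163),(3,33),(4,1)]⟩,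
⟨⟨⟨33,42,154⟩,⟨154,33,-42⟩,⟨-42,154,-33⟩⟩,true,105,59,.leaf [(2,112),(3,187),(5,1)],.leaf [(2,112),(3,187),(5,1)]⟩,
⟨⟨⟨-33,-42,154⟩,⟨154,33,42⟩,⟨-42,154,33⟩⟩,true,105,104,.leaf [(0,163),(1,121),(2,33),(5,1)],.leaf [(0,163),(1,121),(2,33),(5,1)]⟩,
⟨⟨⟨129,-18,-98⟩,⟨-62,111,-102⟩,⟨78,118,81⟩⟩,true,106,70,.leaf [(2,9617),(3,7009),(5,29),(6,61)],.leaf [(2,9617),(3,7009),(5,29),(6,61)]⟩,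
⟨⟨⟨-129,18,-98⟩,⟨-62,111,102⟩,⟨78,118,-81⟩⟩,true,106,93,.leaf [(1,15485),(3,2934),(4,100),(5,93)],.leaf [(1,15485),(3,2934),(4,100),(5,93)]⟩,
⟨⟨⟨-15,10,-162⟩,⟨-150,-63,10⟩,⟨-62,150,15⟩⟩,true,108,76,.leaf [(0,55),(1,172),(2,18),(4,1)],.leaf [(0,55),(1,172),(2,18),(4,1)]⟩,
⟨⟨⟨-15,10,162⟩,⟨150,63,10⟩,⟨-62,150,-15⟩⟩,true,108,87,.leaf [(0,5),(2,135),(3,177),(5,1)],.leaf [(0,5),(2,135),(3,177),(5,1)]⟩,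
⟨⟨⟨-143,-42,-66⟩,⟨6,-143,78⟩,⟨-78,66,127⟩⟩,true,112,13,.leaf [(0,101),(1,48),(3,96),(4,1)],.leaf [(0,101),(1,48),(3,96),(4,1)]⟩,
⟨⟨⟨-143,-42,66⟩,⟨6,-143,-78⟩,⟨78,-66,127⟩⟩,true,112,150,.leaf [(2,10269),(6,69),(11,326),(15,2)],.leaf [(0,21),(2,161),(6,1),(10,3)]⟩,
⟨⟨⟨63,10,150⟩,⟨150,-15,-62⟩,⟨10,162,-15⟩⟩,true,114,80,.leaf [(0,152),(1,132),(3,33),(5,1)],.leaf [(0,152),(1,132),(3,33),(5,1)]⟩,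
⟨⟨⟨63,10,-150⟩,⟨-150,15,-62⟩,⟨10,162,15⟩⟩,true,114,83,.leaf [(2,53138),(4,490),(5,399),(15,55)],.leaf [(2,42706),(4,245),(5,348),(10,8965)]⟩,
⟨⟨⟨-17,-162,6⟩,⟨126,-17,-102⟩,⟨102,-6,127⟩⟩,true,115,38,.leaf [(2,26569),(5,48),(6,83),(15,48)],.leaf [(0,120),(2,35),(6,1),(10,24)]⟩,
⟨⟨⟨-17,-162,-6⟩,⟨126,-17,102⟩,⟨-102,6,127⟩⟩,true,115,125,.leaf [(0,26569),(4,53),(5,108),(6,90)],.leaf [(0,26569),(4,53),(5,108),(6,90)]⟩,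
⟨⟨⟨-143,78,-6⟩,⟨66,127,78⟩,⟨42,66,-143⟩⟩,true,118,16,.leaf [(1,26569),(4,12),(5,167),(7,18)],.leaf [(1,26569),(4,12),(5,167),(7,18)]⟩,
⟨⟨⟨-143,78,6⟩,⟨66,127,-78⟩,⟨-42,-66,-143⟩⟩,true,118,147,.leaf [(3,26569),(5,21),(7,161),(15,3)],.leaf [(3,40913),(5,6),(7,235),(10,1956)]⟩,
⟨⟨⟨81,102,-98⟩,⟨118,-111,-18⟩,⟨-78,-62,-129⟩⟩,true,122,33,.leaf [(0,165),(1,80),(2,48),(4,1)],.leaf [(0,165),(1,80),(2,48),(4,1)]⟩,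
⟨⟨⟨-81,-102,-98⟩,⟨118,-111,18⟩,⟨-78,-62,129⟩⟩,true,122,130,.leaf [(0,4644),(3,5112),(18,817),(22,1)],.leaf [(3,4332),(4,27),(10,338),(26,19)]⟩,
⟨⟨⟨-17,-6,162⟩,⟨-102,127,-6⟩,⟨-126,-102,-17⟩⟩,true,125,48,.leaf [(3,336),(6,3),(10,88),(18,55)],.leaf [(1,864),(10,275),(14,1)]⟩,
⟨⟨⟨-17,-6,-162⟩,⟨-102,127,6⟩,⟨126,102,-17⟩⟩,true,125,115,.leaf [(1,26569),(4,108),(5,53),(7,90)],.leaf [(1,26569),(4,108),(5,53),(7,90)]⟩,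
⟨⟨⟨-63,-114,-98⟩,⟨82,63,-126⟩,⟨126,-98,33⟩⟩,true,126,74,.leaf [(1,489),(5,13),(6,68),(10,3260)],.leaf [(1,79707),(5,319),(6,464),(15,40)]⟩,
⟨⟨⟨63,114,-98⟩,⟨82,63,126⟩,⟨126,-98,-33⟩⟩,true,126,89,.leaf [(0,51),(1,128),(3,96),(4,1)],.leaf [(0,51),(1,128),(3,96),(4,1)]⟩,
⟨⟨⟨-81,-98,102⟩,⟨78,-129,-62⟩,⟨118,18,111⟩⟩,true,130,41,.leaf [(2,26569),(4,51),(5,183),(7,47)],.leaf [(2,26569),(4,51),(5,183),(7,47)]⟩,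
⟨⟨⟨-81,-98,-102⟩,⟨-78,129,-62⟩,⟨118,18,-111⟩⟩,true,130,122,.leaf [(1,684),(2,237),(14,2),(18,31)],.leaf [(1,157),(2,79),(5,1),(10,37)]⟩,
⟨⟨⟨111,-18,118⟩,⟨-62,129,78⟩,⟨-102,-98,81⟩⟩,true,132,4,.leaf [(0,108),(3,18),(11,131),(15,1)],.leaf [(3,1141),(5,17),(6,24),(10,1304)]⟩,
⟨⟨⟨-111,18,118⟩,⟨-62,129,-78⟩,⟨-102,-98,-81⟩⟩,true,132,159,.leaf [(1,2934),(3,21679),(5,147),(6,116)],.leaf [(1,2934),(3,21679),(5,147),(6,116)]⟩,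
⟨⟨⟨127,102,6⟩,⟨6,-17,162⟩,⟨102,-126,-17⟩⟩,true,133,27,.leaf [(0,77),(1,156),(2,42),(4,1)],.leaf [(0,77),(1,156),(2,42),(4,1)]⟩,
⟨⟨⟨127,102,-6⟩,⟨6,-17,-162⟩,⟨-102,126,-17⟩⟩,true,133,136,.leaf [(0,26569),(4,23),(5,138),(7,90)],.leaf [(0,26569),(4,23),(5,138),(7,90)]⟩,
⟨⟨⟨127,66,78⟩,⟨78,-143,-6⟩,⟨66,42,-143⟩⟩,true,134,25,.leaf [(0,19234),(2,24939),(4,221),(5,84)],.leaf [(0,19234),(2,24939),(4,221),(5,84)]⟩,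
⟨⟨⟨127,66,-78⟩,⟨78,-143,6⟩,⟨-66,-42,-143⟩⟩,true,134,138,.leaf [(0,122),(1,84),(2,87),(4,1)],.leaf [(0,122),(1,84),(2,87),(4,1)]⟩,
⟨⟨⟨127,-6,-102⟩,⟨-102,-17,-126⟩,⟨-6,162,-17⟩⟩,true,136,30,.leaf [(0,1141),(2,815),(5,7),(7,5)],.leaf [(0,1141),(2,815),(5,7),(7,5)]⟩,
⟨⟨⟨127,-6,102⟩,⟨-102,-17,126⟩,⟨6,-162,-17⟩⟩,true,136,133,.leaf [(1,26569),(4,138),(5,23),(6,90)],.leaf [(1,26569),(4,138),(5,23),(6,90)]⟩,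
⟨⟨⟨127,-78,-66⟩,⟨-66,-143,42⟩,⟨-78,-6,-143⟩⟩,true,138,29,.leaf [(1,19886),(2,12225),(4,177),(5,10)],.leaf [(1,19886),(2,12225),(4,177),(5,10)]⟩,
⟨⟨⟨127,-78,66⟩,⟨-66,-143,-42⟩,⟨78,6,-143⟩⟩,true,138,134,.leaf [(0,7009),(1,9617),(4,29),(5,61)],.leaf [(0,7009),(1,9617),(4,29),(5,61)]⟩,
⟨⟨⟨-63,82,-126⟩,⟨114,-63,-98⟩,⟨-98,-126,-33⟩⟩,true,141,2,.leaf [(0,3423),(3,326),(4,23),(7,2)],.leaf [(0,3423),(3,326),(4,23),(7,2)]⟩,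
⟨⟨⟨-63,82,126⟩,⟨-114,63,-98⟩,⟨-98,-126,33⟩⟩,true,141,161,.leaf [(0,21),(1,159),(2,23),(7,1)],.leaf [(0,21),(1,159),(2,23),(7,1)]⟩,
⟨⟨⟨-129,-62,78⟩,⟨18,111,118⟩,⟨-98,102,-81⟩⟩,true,142,79,.leaf [(0,1467),(1,1630),(4,1),(5,10)],.leaf [(0,1467),(1,1630),(4,1),(5,10)]⟩,
⟨⟨⟨-129,-62,-78⟩,⟨-18,-111,118⟩,⟨-98,102,81⟩⟩,true,142,84,.leaf [(0,49),(1,67),(3,129),(4,1)],.leaf [(0,49),(1,67),(3,129),(4,1)]⟩,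
⟨⟨⟨-111,-62,-102⟩,⟨18,129,-98⟩,⟨118,-78,-81⟩⟩,true,143,67,.leaf [(1,322),(2,505),(5,10),(18,133)],.leaf [(0,61),(1,133),(7,1),(10,79)]⟩,
⟨⟨⟨-111,-62,102⟩,⟨-18,-129,-98⟩,⟨118,-78,81⟩⟩,true,143,96,.leaf [(2,26569),(4,147),(5,180),(7,140)],.leaf [(2,26569),(4,147),(5,180),(7,140)]⟩,
⟨⟨⟨1,-18,-162⟩,⟨18,-161,18⟩,⟨-162,-18,1⟩⟩,true,145,1,.leaf [(0,143),(1,153),(3,27),(4,1)],.leaf [(0,143),(1,153),(3,27),(4,1)]⟩,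
⟨⟨⟨1,-18,162⟩,⟨18,-161,-18⟩,⟨162,18,1⟩⟩,true,145,162,.leaf [(0,18),(1,161),(2,18),(5,1)],.leaf [(0,18),(1,161),(2,18),(5,1)]⟩,
⟨⟨⟨-17,126,-102⟩,⟨-162,-17,6⟩,⟨-6,102,127⟩⟩,true,146,6,.leaf [(0,53),(1,108),(2,90),(4,1)],.leaf [(0,53),(1,108),(2,90),(4,1)]⟩,
⟨⟨⟨-17,126,102⟩,⟨-162,-17,-6⟩,⟨6,-102,127⟩⟩,true,146,157,.leaf [(2,26569),(4,120),(6,35),(14,24)],.leaf [(1,112),(2,88),(4,1),(10,55)]⟩,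
⟨⟨⟨-143,6,-78⟩,⟨-42,-143,66⟩,⟨-66,78,127⟩⟩,true,147,45,.leaf [(0,149),(1,96),(3,48),(4,1)],.leaf [(0,149),(1,96),(3,48),(4,1)]⟩,
⟨⟨⟨-143,6,78⟩,⟨-42,-143,-66⟩,⟨66,-78,127⟩⟩,true,147,118,.leaf [(2,26569),(4,21),(6,161),(14,3)],.leaf [(2,14833),(4,21),(6,89),(10,489)]⟩,
⟨⟨⟨15,-62,150⟩,⟨-162,-15,10⟩,⟨10,-150,-63⟩⟩,true,148,10,.leaf [(1,6194),(3,7009),(5,53),(7,22)],.leaf [(1,6194),(3,7009),(5,53),(7,22)]⟩,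
⟨⟨⟨15,-62,-150⟩,⟨162,15,10⟩,⟨10,-150,63⟩⟩,true,148,153,.leaf [(0,1467),(3,2608),(4,25),(7,16)],.leaf [(0,1467),(3,2608),(4,25),(7,16)]⟩,
⟨⟨⟨-143,66,42⟩,⟨78,127,66⟩,⟨-6,78,-143⟩⟩,true,150,51,.leaf [(0,12),(1,167),(3,18),(5,1)],.leaf [(0,12),(1,167),(3,18),(5,1)]⟩,
⟨⟨⟨-143,66,-42⟩,⟨78,127,-66⟩,⟨6,-78,-143⟩⟩,true,150,112,.leaf [(3,10269),(7,69),(10,326),(14,2)],.leaf [(1,3423),(3,14507),(7,91),(15,3)]⟩,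
⟨⟨⟨33,126,-98⟩,⟨-98,-63,-114⟩,⟨-126,82,63⟩⟩,true,152,81,.leaf [(0,1793),(2,8476),(4,53),(6,4)],.leaf [(0,1793),(2,8476),(4,53),(6,4)]⟩,
⟨⟨⟨-33,-126,-98⟩,⟨-98,-63,114⟩,⟨-126,82,-63⟩⟩,true,152,82,.leaf [(1,24776),(3,17115),(4,208),(5,63)],.leaf [(1,24776),(3,17115),(4,208),(5,63)]⟩,
⟨⟨⟨-15,150,-62⟩,⟨10,63,150⟩,⟨162,10,-15⟩⟩,true,153,15,.leaf [(0,87),(1,137),(3,75),(4,1)],.leaf [(0,87),(1,137),(3,75),(4,1)]⟩,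
⟨⟨⟨15,-150,-62⟩,⟨10,63,-150⟩,⟨162,10,15⟩⟩,true,153,148,.leaf [(1,1467),(2,2608),(5,25),(6,16)],.leaf [(1,1467),(2,2608),(5,25),(6,16)]⟩,
⟨⟨⟨-161,-18,18⟩,⟨18,1,162⟩,⟨-18,162,1⟩⟩,true,154,9,.leaf [(0,3097),(1,2771),(4,17),(5,19)],.leaf [(0,3097),(1,2771),(4,17),(5,19)]⟩,
⟨⟨⟨-161,-18,-18⟩,⟨18,1,-162⟩,⟨18,-162,1⟩⟩,true,154,154,.leaf [(3,858195),(5,8991),(18,241240),(22,104)],.leaf [(1,211248),(6,999),(10,102527),(14,136)]⟩,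
⟨⟨⟨-81,78,118⟩,⟨-98,-129,18⟩,⟨102,-62,111⟩⟩,true,156,73,.leaf [(2,585),(11,166),(15,2),(18,37)],.leaf [(2,77588),(4,639),(5,280),(10,15485)]⟩,
⟨⟨⟨81,-78,118⟩,⟨-98,-129,-18⟩,⟨102,-62,-111⟩⟩,true,156,90,.leaf [(0,2608),(1,9617),(4,32),(5,61)],.leaf [(0,2608),(1,9617),(4,32),(5,61)]⟩,
⟨⟨⟨-17,102,-126⟩,⟨6,127,102⟩,⟨162,6,-17⟩⟩,true,157,17,.leaf [(1,14670),(3,13529),(4,108),(7,25)],.leaf [(1,14670),(3,13529),(4,108),(7,25)]⟩,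
⟨⟨⟨-17,102,126⟩,⟨6,127,-102⟩,⟨-162,-6,-17⟩⟩,true,157,146,.leaf [(3,26569),(5,120),(7,35),(15,24)],.leaf [(0,48),(3,83),(7,1),(10,48)]⟩,
⟨⟨⟨-111,118,-18⟩,⟨102,81,-98⟩,⟨-62,-78,-129⟩⟩,true,159,31,.L (.leaf [(0,131),(2,6),(4,1),(11,12)]) (.leaf [(0,975),(4,6),(18,8),(26,5)]) (.leaf [(0,9617),(1,2608),(4,61),(5,32)]),.leaf [(3,4401),(4,30),(10,1630),(15,1)]⟩,
⟨⟨⟨-111,118,18⟩,⟨-102,-81,-98⟩,⟨-62,-78,129⟩⟩,true,159,132,.leaf [(0,2934),(2,21679),(4,147),(7,116)],.leaf [(0,2934),(2,21679),(4,147),(7,116)]⟩,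
⟨⟨⟨63,-126,82⟩,⟨-98,33,126⟩,⟨-114,-98,-63⟩⟩,true,161,22,.leaf [(2,163),(3,13855),(4,15),(5,91)],.leaf [(2,163),(3,13855),(4,15),(5,91)]⟩,
⟨⟨⟨-63,126,82⟩,⟨-98,33,-126⟩,⟨-114,-98,63⟩⟩,true,161,141,.leaf [(0,159),(1,21),(3,23),(6,1)],.leaf [(0,159),(1,21),(3,23),(6,1)]⟩,
⟨⟨⟨1,162,18⟩,⟨162,1,-18⟩,⟨-18,18,-161⟩⟩,true,162,18,.leaf [(3,26569),(4,144),(5,171),(7,8)],.leaf [(3,26569),(4,144),(5,171),(7,8)]⟩,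
⟨⟨⟨1,162,-18⟩,⟨162,1,18⟩,⟨18,-18,-161⟩⟩,true,162,145,.leaf [(0,161),(1,18),(3,18),(4,1)],.leaf [(0,161),(1,18),(3,18),(4,1)]⟩]

theorem primeOk_163 : PrimeOk 163 := primeOk (by norm_num) (by norm_num) (by norm_num) L163
  (by decide +kernel) (by decide +kernel)

def L277 : List Cls := [
⟨⟨⟨277,0,0⟩,⟨0,115,252⟩,⟨0,-252,115⟩⟩,false,0,60,.leaf [(3,831),(6,3),(10,1385),(15,5)],.leaf [(1,2727),(3,1557),(10,893),(14,1)]⟩,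
⟨⟨⟨277,0,0⟩,⟨0,115,-252⟩,⟨0,252,115⟩⟩,false,0,217,.leaf [(2,831),(7,3),(11,1385),(14,5)],.leaf [(0,247361),(5,1058),(7,50),(10,31855)]⟩,
⟨⟨⟨115,0,252⟩,⟨0,277,0⟩,⟨-252,0,115⟩⟩,true,0,60,.R (.leaf [(0,108),(3,117),(18,20),(27,1)]) (.leaf [(0,189),(3,144),(18,32),(26,1)]) (.R (.leaf [(0,1633689),(18,153846),(34,9023),(39,4)]) (.R (.leaf [(0,189),(3,387),(18,77),(43,1)]) (.leaf [(3,8748),(18,855),(34,58),(42,5)]) (.leaf [(3,41553),(18,5985),(34,1069),(47,1)])) (.leaf [(0,459),(3,315),(18,79),(35,1)])),.leaf [(3,121326),(5,378),(10,15235),(22,5)]⟩,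
⟨⟨⟨115,0,-252⟩,⟨0,277,0⟩,⟨252,0,115⟩⟩,true,0,217,.leaf [(1,366),(2,115),(7,2),(18,23)],.leaf [(1,2071683),(7,8184),(14,920),(23,115)]⟩,
⟨⟨⟨-147,-164,168⟩,⟨-228,147,-56⟩,⟨-56,-168,-213⟩⟩,true,3,78,.leaf [(1,19667),(3,11911),(5,83),(7,1)],.leaf [(1,19667),(3,11911),(5,83),(7,1)]⟩,
⟨⟨⟨-147,-164,-168⟩,⟨228,-147,-56⟩,⟨-56,-168,213⟩⟩,true,3,199,.leaf [(0,4155),(3,3878),(4,29),(7,14)],.leaf [(0,4155),(3,3878),(4,29),(7,14)]⟩,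
⟨⟨⟨147,232,36⟩,⟨216,-117,-128⟩,⟨-92,96,-243⟩⟩,true,11,102,.leaf [(0,66757),(2,8310),(4,279),(5,164)],.leaf [(0,66757),(2,8310),(4,279),(5,164)]⟩,
⟨⟨⟨147,232,-36⟩,⟨-216,117,-128⟩,⟨-92,96,243⟩⟩,true,11,175,.leaf [(2,60940),(4,367),(7,40),(18,6371)],.leaf [(1,770337),(4,1614),(10,218830),(15,55)]⟩,
⟨⟨⟨187,132,-156⟩,⟨-204,133,-132⟩,⟨12,204,187⟩⟩,true,17,131,.leaf [(2,31024),(7,140),(11,4155),(15,1)],.leaf [(2,250685),(4,243),(7,760),(10,4432)]⟩,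
⟨⟨⟨187,132,156⟩,⟨-204,133,132⟩,⟨-12,-204,187⟩⟩,true,17,146,.leaf [(4,6291),(6,2634),(15,1636),(18,76729)],.R (.leaf [(1,729),(10,315),(26,7),(35,5)]) (.leaf [(1,2916),(10,855),(26,58),(34,5)]) (.leaf [(1,13851),(10,5985),(26,1069),(39,1)])⟩,
⟨⟨⟨-83,168,204⟩,⟨264,43,72⟩,⟨12,216,-173⟩⟩,true,18,101,.leaf [(0,40996),(3,32409),(4,260),(5,177)],.leaf [(0,40996),(3,32409),(4,260),(5,177)]⟩,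
⟨⟨⟨-83,168,-204⟩,⟨264,43,-72⟩,⟨-12,-216,-173⟩⟩,true,18,176,.leaf [(0,1385),(3,3601),(4,13),(7,5)],.leaf [(0,1385),(3,3601),(4,13),(7,5)]⟩,
⟨⟨⟨243,-92,-96⟩,⟨36,-147,232⟩,⟨-128,-216,-117⟩⟩,true,19,68,.leaf [(0,55),(1,295),(3,33),(4,1)],.leaf [(0,55),(1,295),(3,33),(4,1)]⟩,
⟨⟨⟨243,-92,96⟩,⟨-36,147,232⟩,⟨-128,-216,117⟩⟩,true,19,209,.leaf [(3,76729),(4,196),(5,273),(7,262)],.leaf [(3,76729),(4,196),(5,273),(7,262)]⟩,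
⟨⟨⟨43,72,264⟩,⟨216,-173,12⟩,⟨168,204,-83⟩⟩,true,21,77,.leaf [(2,17174),(3,14681),(4,34),(5,67)],.leaf [(2,17174),(3,14681),(4,34),(5,67)]⟩,
⟨⟨⟨43,72,-264⟩,⟨216,-173,-12⟩,⟨-168,-204,-83⟩⟩,true,21,200,.leaf [(0,245),(1,162),(3,90),(4,1)],.leaf [(0,245),(1,162),(3,90),(4,1)]⟩,
⟨⟨⟨-173,72,-204⟩,⟨216,43,-168⟩,⟨-12,-264,-83⟩⟩,true,22,30,.leaf [(0,76729),(4,92),(7,72),(14,81)],.leaf [(3,1611309),(4,10044),(15,2237),(23,22)]⟩,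
⟨⟨⟨-173,72,204⟩,⟨216,43,168⟩,⟨12,264,-83⟩⟩,true,22,247,.leaf [(0,23822),(3,22437),(4,166),(5,99)],.leaf [(0,23822),(3,22437),(4,166),(5,99)]⟩,
⟨⟨⟨133,-132,204⟩,⟨204,187,-12⟩,⟨-132,156,187⟩⟩,true,24,114,.leaf [(0,285),(1,17),(2,3),(5,1)],.leaf [(0,285),(1,17),(2,3),(5,1)]⟩,
⟨⟨⟨133,-132,-204⟩,⟨204,187,12⟩,⟨132,-156,187⟩⟩,true,24,163,.leaf [(4,7425),(6,3138),(15,2980),(18,76729)],.leaf [(1,2565),(3,870),(10,76),(23,1)]⟩,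
⟨⟨⟨147,-56,228⟩,⟨168,213,-56⟩,⟨-164,168,147⟩⟩,true,26,92,.leaf [(0,31024),(3,12465),(5,140),(7,3)],.leaf [(0,31024),(3,12465),(5,140),(7,3)]⟩,
⟨⟨⟨147,-56,-228⟩,⟨-168,-213,-56⟩,⟨-164,168,-147⟩⟩,true,26,185,.leaf [(0,7),(1,172),(2,150),(4,1)],.leaf [(0,7),(1,172),(2,150),(4,1)]⟩,
⟨⟨⟨-173,-204,72⟩,⟨-12,-83,-264⟩,⟨216,-168,43⟩⟩,true,30,22,.leaf [(1,76729),(5,92),(6,72),(15,81)],.leaf [(1,81161),(5,121),(6,63),(10,22437)]⟩,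
⟨⟨⟨-173,-204,-72⟩,⟨-12,-83,264⟩,⟨-216,168,43⟩⟩,true,30,255,.leaf [(1,22991),(3,88086),(4,372),(5,121)],.leaf [(1,22991),(3,88086),(4,372),(5,121)]⟩,
⟨⟨⟨-237,132,-56⟩,⟨124,243,48⟩,⟨72,16,-267⟩⟩,true,31,54,.leaf [(1,76729),(4,41),(5,339),(6,117)],.leaf [(1,76729),(4,41),(5,339),(6,117)]⟩,
⟨⟨⟨237,-132,-56⟩,⟨124,243,-48⟩,⟨72,16,267⟩⟩,true,31,223,.leaf [(2,76729),(5,117),(6,251),(15,29)],.leaf [(1,396),(2,38),(6,1),(10,73)]⟩,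
⟨⟨⟨-213,-168,-56⟩,⟨-56,147,-228⟩,⟨168,-164,-147⟩⟩,true,32,103,.leaf [(1,54015),(5,245),(6,139),(10,1939)],.leaf [(1,230187),(5,889),(6,467),(22,7)]⟩,
⟨⟨⟨213,168,-56⟩,⟨-56,147,228⟩,⟨168,-164,147⟩⟩,true,32,174,.leaf [(0,18),(1,284),(2,3),(4,1)],.leaf [(0,18),(1,284),(2,3),(4,1)]⟩,
⟨⟨⟨-243,48,124⟩,⟨16,267,-72⟩,⟨-132,-56,-237⟩⟩,true,34,134,.leaf [(1,59832),(3,48475),(5,315),(6,104)],.leaf [(1,59832),(3,48475),(5,315),(6,104)]⟩,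
⟨⟨⟨243,-48,124⟩,⟨16,267,72⟩,⟨-132,-56,237⟩⟩,true,34,143,.leaf [(0,372),(2,92),(6,1),(18,49)],.leaf [(2,1385),(5,4),(6,9),(10,554)]⟩,
⟨⟨⟨69,268,-12⟩,⟨252,-69,-92⟩,⟨-92,12,-261⟩⟩,true,36,48,.leaf [(0,60940),(2,2493),(4,249),(5,80)],.leaf [(0,60940),(2,2493),(4,249),(5,80)]⟩,
⟨⟨⟨69,268,12⟩,⟨-252,69,-92⟩,⟨-92,12,261⟩⟩,true,36,229,.leaf [(2,76729),(4,339),(7,41),(15,39)],.leaf [(1,348),(2,86),(4,1),(10,113)]⟩,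
⟨⟨⟨-117,232,96⟩,⟨216,147,-92⟩,⟨-128,36,-243⟩⟩,true,43,56,.leaf [(4,402),(5,4140),(14,1675),(18,76729)],.leaf [(3,1560),(4,9),(10,845),(26,16)]⟩,
⟨⟨⟨-117,232,-96⟩,⟨-216,-147,-92⟩,⟨-128,36,243⟩⟩,true,43,221,.leaf [(0,142),(1,4),(2,237),(4,1)],.leaf [(0,142),(1,4),(2,237),(4,1)]⟩,
⟨⟨⟨243,132,16⟩,⟨124,-237,72⟩,⟨48,-56,-267⟩⟩,true,45,81,.leaf [(0,97),(2,272),(3,56),(4,1)],.leaf [(0,97),(2,272),(3,56),(4,1)]⟩,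
⟨⟨⟨-243,-132,16⟩,⟨124,-237,-72⟩,⟨48,-56,267⟩⟩,true,45,196,.leaf [(4,3),(5,4),(6,2),(14,1)],.leaf [(4,894),(5,964),(6,245),(10,76729)]⟩,
⟨⟨⟨69,-12,268⟩,⟨-92,-261,12⟩,⟨252,-92,-69⟩⟩,true,48,36,.leaf [(0,277),(1,9141),(4,13),(5,37)],.leaf [(0,277),(1,9141),(4,13),(5,37)]⟩,
⟨⟨⟨-69,12,268⟩,⟨-92,-261,-12⟩,⟨252,-92,69⟩⟩,true,48,241,.leaf [(1,554831),(4,475),(5,2805),(18,32409)],.leaf [(1,120218),(4,217),(5,258),(10,32409)]⟩,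
⟨⟨⟨43,168,216⟩,⟨264,-83,12⟩,⟨72,204,-173⟩⟩,true,49,63,.leaf [(0,92518),(2,12465),(4,389),(5,204)],.leaf [(0,92518),(2,12465),(4,389),(5,204)]⟩,
⟨⟨⟨43,168,-216⟩,⟨264,-83,-12⟩,⟨-72,-204,-173⟩⟩,true,49,214,.leaf [(0,251),(1,117),(3,87),(4,1)],.leaf [(0,251),(1,117),(3,87),(4,1)]⟩,
⟨⟨⟨21,-272,48⟩,⟨48,51,268⟩,⟨-272,-12,51⟩⟩,true,53,121,.leaf [(0,87532),(3,831),(5,317),(7,18)],.leaf [(0,87532),(3,831),(5,317),(7,18)]⟩,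
⟨⟨⟨21,-272,-48⟩,⟨-48,-51,268⟩,⟨-272,-12,-51⟩⟩,true,53,156,.leaf [(1,1385),(3,4986),(4,20),(5,17)],.leaf [(1,1385),(3,4986),(4,20),(5,17)]⟩,
⟨⟨⟨-237,-56,132⟩,⟨72,-267,16⟩,⟨124,48,243⟩⟩,true,54,31,.leaf [(0,76729),(4,339),(5,41),(7,117)],.leaf [(0,76729),(4,339),(5,41),(7,117)]⟩,
⟨⟨⟨-237,-56,-132⟩,⟨-72,267,16⟩,⟨124,48,-243⟩⟩,true,54,246,.leaf [(1,153458),(4,524),(5,821),(15,87)],.leaf [(1,403),(2,31),(5,1),(10,73)]⟩,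
⟨⟨⟨-173,180,120⟩,⟨180,205,-48⟩,⟨-120,48,-245⟩⟩,true,55,129,.leaf [(1,3047),(3,5263),(5,19),(7,11)],.leaf [(1,3047),(3,5263),(5,19),(7,11)]⟩,
⟨⟨⟨-173,180,-120⟩,⟨180,205,48⟩,⟨120,-48,-245⟩⟩,true,55,148,.leaf [(1,5263),(3,3047),(5,11),(7,19)],.leaf [(1,5263),(3,3047),(5,11),(7,19)]⟩,
⟨⟨⟨-117,96,232⟩,⟨-128,-243,36⟩,⟨216,-92,147⟩⟩,true,56,43,.leaf [(4,5121),(5,4692),(15,1268),(18,76729)],.leaf [(2,200825),(4,957),(5,460),(10,37118)]⟩,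
⟨⟨⟨117,-96,232⟩,⟨-128,-243,-36⟩,⟨216,-92,-147⟩⟩,true,56,234,.leaf [(0,3601),(1,14681),(4,23),(5,55)],.leaf [(0,3601),(1,14681),(4,23),(5,55)]⟩,
⟨⟨⟨-267,16,72⟩,⟨48,243,124⟩,⟨-56,132,-237⟩⟩,true,57,118,.leaf [(0,3601),(1,10249),(4,1),(5,33)],.leaf [(0,3601),(1,10249),(4,1),(5,33)]⟩,
⟨⟨⟨-267,16,-72⟩,⟨-48,-243,124⟩,⟨-56,132,237⟩⟩,true,57,159,.leaf [(0,259),(1,118),(3,78),(4,1)],.leaf [(0,259),(1,118),(3,78),(4,1)]⟩,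
⟨⟨⟨-147,-216,-92⟩,⟨232,-117,-96⟩,⟨36,-128,243⟩⟩,true,58,76,.leaf [(4,4959),(5,3936),(15,1928),(18,76729)],.leaf [(4,1647),(5,2340),(10,153458),(14,181)]⟩,
⟨⟨⟨147,216,-92⟩,⟨232,-117,96⟩,⟨36,-128,-243⟩⟩,true,58,201,.leaf [(0,303),(1,188),(2,30),(4,1)],.leaf [(0,303),(1,188),(2,30),(4,1)]⟩,
⟨⟨⟨115,252,0⟩,⟨-252,115,0⟩,⟨0,0,277⟩⟩,true,60,0,.leaf [(1,92),(2,389),(4,2),(18,23)],.leaf [(1,3),(2,182),(7,1),(10,70)]⟩,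
⟨⟨⟨267,-56,48⟩,⟨-72,-237,124⟩,⟨16,-132,-243⟩⟩,true,61,106,.leaf [(1,29639),(2,39057),(4,233),(5,41)],.leaf [(1,29639),(2,39057),(4,233),(5,41)]⟩,
⟨⟨⟨267,-56,-48⟩,⟨72,237,124⟩,⟨16,-132,243⟩⟩,true,61,171,.leaf [(2,3601),(3,14681),(4,23),(7,55)],.leaf [(2,3601),(3,14681),(4,23),(7,55)]⟩,
⟨⟨⟨43,216,168⟩,⟨72,-173,204⟩,⟨264,12,-83⟩⟩,true,63,49,.leaf [(0,227),(1,36),(2,162),(4,1)],.leaf [(0,227),(1,36),(2,162),(4,1)]⟩,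
⟨⟨⟨43,216,-168⟩,⟨72,-173,-204⟩,⟨-264,-12,-83⟩⟩,true,63,228,.leaf [(0,60109),(2,44874),(4,251),(7,36)],.leaf [(0,60109),(2,44874),(4,251),(7,36)]⟩,
⟨⟨⟨51,268,48⟩,⟨-12,51,-272⟩,⟨-272,48,21⟩⟩,true,65,115,.leaf [(0,11583),(3,10260),(18,1898),(22,1)],.leaf [(0,67),(1,280),(4,1),(10,150)]⟩,
⟨⟨⟨51,268,-48⟩,⟨12,-51,-272⟩,⟨-272,48,-21⟩⟩,true,65,162,.leaf [(2,12465),(4,87),(11,3878),(15,14)],.leaf [(0,84),(2,179),(4,1),(10,56)]⟩,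
⟨⟨⟨-173,216,12⟩,⟨72,43,264⟩,⟨204,168,-83⟩⟩,true,66,96,.leaf [(0,83),(2,90),(3,252),(4,1)],.leaf [(0,83),(2,90),(3,252),(4,1)]⟩,
⟨⟨⟨-173,216,-12⟩,⟨72,43,-264⟩,⟨-204,-168,-83⟩⟩,true,66,181,.leaf [(3,68973),(7,213),(11,277),(15,43)],.leaf [(0,92),(3,72),(4,1),(10,81)]⟩,
⟨⟨⟨243,-96,-92⟩,⟨-128,-117,-216⟩,⟨36,232,-147⟩⟩,true,68,19,.leaf [(0,295),(1,55),(2,33),(5,1)],.leaf [(0,295),(1,55),(2,33),(5,1)]⟩,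
⟨⟨⟨-243,96,-92⟩,⟨-128,-117,216⟩,⟨36,232,147⟩⟩,true,68,258,.leaf [(0,10),(2,203),(3,308),(4,1)],.leaf [(0,10),(2,203),(3,308),(4,1)]⟩,
⟨⟨⟨261,-12,-92⟩,⟨-92,-69,-252⟩,⟨-12,268,-69⟩⟩,true,70,75,.leaf [(0,92241),(2,2216),(5,344),(6,23)],.leaf [(0,92241),(2,2216),(5,344),(6,23)]⟩,
⟨⟨⟨-261,12,-92⟩,⟨-92,-69,252⟩,⟨-12,268,69⟩⟩,true,70,202,.leaf [(1,47),(2,81),(3,297),(4,1)],.leaf [(1,47),(2,81),(3,297),(4,1)]⟩,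
⟨⟨⟨-245,120,-48⟩,⟨-120,-173,180⟩,⟨48,180,205⟩⟩,true,73,137,.leaf [(0,293),(1,198),(3,30),(4,1)],.leaf [(0,293),(1,198),(3,30),(4,1)]⟩,
⟨⟨⟨-245,120,48⟩,⟨-120,-173,-180⟩,⟨-48,-180,205⟩⟩,true,73,140,.leaf [(2,92),(6,1),(11,24),(18,27)],.leaf [(0,152),(2,84),(4,1),(10,57)]⟩,
⟨⟨⟨187,-12,204⟩,⟨156,187,-132⟩,⟨-132,204,133⟩⟩,true,74,127,.leaf [(0,108584),(3,37949),(5,467),(15,8)],.leaf [(0,208),(3,103),(5,1),(10,8)]⟩,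
⟨⟨⟨187,-12,-204⟩,⟨156,187,132⟩,⟨132,-204,133⟩⟩,true,74,150,.leaf [(1,80607),(4,705),(15,205),(18,5263)],.leaf [(1,188811),(10,52965),(26,4793),(31,5)]⟩,
⟨⟨⟨261,-92,-12⟩,⟨-12,-69,268⟩,⟨-92,-252,-69⟩⟩,true,75,70,.leaf [(1,92241),(3,2216),(4,344),(7,23)],.leaf [(1,92241),(3,2216),(4,344),(7,23)]⟩,
⟨⟨⟨261,-92,12⟩,⟨12,69,268⟩,⟨-92,-252,69⟩⟩,true,75,207,.leaf [(3,76729),(4,280),(5,288),(7,265)],.leaf [(3,76729),(4,280),(5,288),(7,265)]⟩,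
⟨⟨⟨-147,-92,-216⟩,⟨36,243,-128⟩,⟨232,-96,-117⟩⟩,true,76,58,.leaf [(4,1725),(5,4140),(14,394),(18,76729)],.leaf [(0,79),(1,103),(7,1),(10,109)]⟩,
⟨⟨⟨-147,-92,216⟩,⟨-36,-243,-128⟩,⟨232,-96,117⟩⟩,true,76,219,.leaf [(2,76729),(4,279),(5,327),(7,191)],.leaf [(2,76729),(4,279),(5,327),(7,191)]⟩,
⟨⟨⟨43,264,72⟩,⟨168,-83,204⟩,⟨216,12,-173⟩⟩,true,77,21,.leaf [(0,302),(1,132),(2,45),(4,1)],.leaf [(0,302),(1,132),(2,45),(4,1)]⟩,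
⟨⟨⟨43,264,-72⟩,⟨168,-83,-204⟩,⟨-216,-12,-173⟩⟩,true,77,256,.leaf [(0,76729),(4,251),(5,117),(7,87)],.leaf [(0,76729),(4,251),(5,117),(7,87)]⟩,
⟨⟨⟨-147,168,-164⟩,⟨-56,-213,-168⟩,⟨-228,-56,147⟩⟩,true,78,3,.leaf [(0,19667),(2,11911),(4,83),(6,1)],.leaf [(0,19667),(2,11911),(4,83),(6,1)]⟩,
⟨⟨⟨147,-168,-164⟩,⟨-56,-213,168⟩,⟨-228,-56,-147⟩⟩,true,78,274,.leaf [(0,45),(1,290),(3,42),(4,1)],.leaf [(0,45),(1,290),(3,42),(4,1)]⟩,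
⟨⟨⟨237,124,72⟩,⟨-132,243,16⟩,⟨-56,-48,267⟩⟩,true,80,109,.leaf [(4,747),(7,999),(10,76729),(15,77)],.leaf [(1,2052),(3,1164),(10,559),(14,1)]⟩,
⟨⟨⟨237,124,-72⟩,⟨132,-243,16⟩,⟨-56,-48,-267⟩⟩,true,80,168,.leaf [(0,87),(2,280),(3,88),(4,1)],.leaf [(0,87),(2,280),(3,88),(4,1)]⟩,
⟨⟨⟨243,16,132⟩,⟨48,-267,-56⟩,⟨124,72,-237⟩⟩,true,81,45,.leaf [(0,8864),(1,9141),(4,24),(5,37)],.leaf [(0,8864),(1,9141),(4,24),(5,37)]⟩,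
⟨⟨⟨243,16,-132⟩,⟨-48,267,-56⟩,⟨124,72,237⟩⟩,true,81,232,.leaf [(3,10803),(7,15),(10,1385),(14,13)],.L (.leaf [(0,3601),(1,10249),(4,1),(5,33)]) (.leaf [(0,337),(1,196),(2,78),(4,1)]) (.leaf [(0,259),(1,337),(3,141),(4,1)])⟩,
⟨⟨⟨51,-272,12⟩,⟨-48,-21,-272⟩,⟨268,48,-51⟩⟩,true,87,98,.leaf [(0,83),(1,63),(2,237),(5,1)],.leaf [(0,83),(1,63),(2,237),(5,1)]⟩,
⟨⟨⟨51,-272,-12⟩,⟨48,21,-272⟩,⟨268,48,51⟩⟩,true,87,179,.leaf [(0,6371),(2,2493),(5,13),(7,21)],.leaf [(0,6371),(2,2493),(5,13),(7,21)]⟩,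
⟨⟨⟨69,-92,252⟩,⟨-12,-261,-92⟩,⟨268,12,-69⟩⟩,true,91,100,.leaf [(0,104),(1,312),(3,9),(5,1)],.leaf [(0,104),(1,312),(3,9),(5,1)]⟩,
⟨⟨⟨69,-92,-252⟩,⟨12,261,-92⟩,⟨268,12,69⟩⟩,true,91,177,.leaf [(0,1076976),(14,1359),(18,225755),(23,40)],.leaf [(2,4709),(5,93),(7,73),(10,10803)]⟩,
⟨⟨⟨147,228,-56⟩,⟨-164,147,168⟩,⟨168,-56,213⟩⟩,true,92,26,.leaf [(1,31024),(2,12465),(4,140),(6,3)],.leaf [(1,31024),(2,12465),(4,140),(6,3)]⟩,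
⟨⟨⟨-147,-228,-56⟩,⟨-164,147,-168⟩,⟨168,-56,-213⟩⟩,true,92,251,.leaf [(0,7),(1,157),(2,165),(5,1)],.leaf [(0,7),(1,157),(2,165),(5,1)]⟩,
⟨⟨⟨205,-48,180⟩,⟨48,-245,-120⟩,⟨180,120,-173⟩⟩,true,93,136,.leaf [(0,25207),(1,27977),(4,35),(5,109)],.leaf [(0,25207),(1,27977),(4,35),(5,109)]⟩,
⟨⟨⟨205,-48,-180⟩,⟨48,-245,120⟩,⟨-180,-120,-173⟩⟩,true,93,141,.leaf [(0,170),(1,300),(2,27),(4,1)],.leaf [(0,170),(1,300),(2,27),(4,1)]⟩,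
⟨⟨⟨-243,-128,-36⟩,⟨-96,117,232⟩,⟨-92,216,-147⟩⟩,true,94,113,.leaf [(0,11080),(1,14681),(4,32),(5,55)],.leaf [(0,11080),(1,14681),(4,32),(5,55)]⟩,
⟨⟨⟨-243,-128,36⟩,⟨96,-117,232⟩,⟨-92,216,147⟩⟩,true,94,164,.leaf [(0,30193),(1,9695),(4,101),(5,91)],.leaf [(0,30193),(1,9695),(4,101),(5,91)]⟩,
⟨⟨⟨-173,12,216⟩,⟨204,-83,168⟩,⟨72,264,43⟩⟩,true,96,66,.leaf [(0,14681),(3,2493),(4,67),(5,33)],.leaf [(0,14681),(3,2493),(4,67),(5,33)]⟩,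
⟨⟨⟨-173,12,-216⟩,⟨204,-83,-168⟩,⟨-72,-264,43⟩⟩,true,96,211,.leaf [(0,6399),(3,3348),(18,1178),(22,1)],.leaf [(0,73),(3,564),(4,2),(10,117)]⟩,
⟨⟨⟨51,12,-272⟩,⟨268,-51,48⟩,⟨-48,-272,-21⟩⟩,true,98,87,.leaf [(0,63),(1,83),(3,237),(4,1)],.leaf [(0,63),(1,83),(3,237),(4,1)]⟩,
⟨⟨⟨-51,-12,-272⟩,⟨268,-51,-48⟩,⟨-48,-272,21⟩⟩,true,98,190,.leaf [(0,7479),(3,62048),(4,237),(6,28)],.leaf [(0,7479),(3,62048),(4,237),(6,28)]⟩,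
⟨⟨⟨69,252,-92⟩,⟨268,-69,12⟩,⟨-12,-92,-261⟩⟩,true,100,91,.leaf [(0,312),(1,104),(2,9),(4,1)],.leaf [(0,312),(1,104),(2,9),(4,1)]⟩,
⟨⟨⟨-69,-252,-92⟩,⟨268,-69,-12⟩,⟨-12,-92,261⟩⟩,true,100,186,.leaf [(1,345973),(4,950),(15,805),(18,23822)],.leaf [(0,35),(1,434),(5,2),(10,285)]⟩,
⟨⟨⟨-83,204,168⟩,⟨12,-173,216⟩,⟨264,72,43⟩⟩,true,101,18,.leaf [(0,260),(1,48),(2,117),(4,1)],.leaf [(0,260),(1,48),(2,117),(4,1)]⟩,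
⟨⟨⟨-83,204,-168⟩,⟨12,-173,-216⟩,⟨-264,-72,43⟩⟩,true,101,259,.leaf [(0,40996),(2,12465),(4,125),(7,48)],.leaf [(0,40996),(2,12465),(4,125),(7,48)]⟩,
⟨⟨⟨147,36,232⟩,⟨-92,-243,96⟩,⟨216,-128,-117⟩⟩,true,102,11,.leaf [(1,4432),(2,4155),(4,29),(5,24)],.leaf [(1,4432),(2,4155),(4,29),(5,24)]⟩,
⟨⟨⟨-147,-36,232⟩,⟨-92,-243,-96⟩,⟨216,-128,117⟩⟩,true,102,266,.leaf [(4,5769),(5,4881),(15,1397),(18,76729)],.leaf [(1,43489),(4,131),(5,87),(10,19113)]⟩,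
⟨⟨⟨-213,-56,-168⟩,⟨168,-147,-164⟩,⟨-56,-228,147⟩⟩,true,103,32,.leaf [(0,54015),(4,245),(7,139),(11,1939)],.leaf [(0,263427),(4,1106),(7,580),(10,1939)]⟩,
⟨⟨⟨-213,-56,168⟩,⟨-168,147,-164⟩,⟨-56,-228,-147⟩⟩,true,103,245,.leaf [(1,3),(2,284),(3,18),(7,1)],.leaf [(1,3),(2,284),(3,18),(7,1)]⟩,
⟨⟨⟨267,48,-56⟩,⟨16,-243,-132⟩,⟨-72,124,-237⟩⟩,true,106,61,.leaf [(0,29362),(1,13019),(4,74),(5,103)],.leaf [(0,29362),(1,13019),(4,74),(5,103)]⟩,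
⟨⟨⟨-267,-48,-56⟩,⟨16,-243,132⟩,⟨-72,124,237⟩⟩,true,106,216,.leaf [(0,195),(1,50),(3,138),(4,1)],.leaf [(0,195),(1,50),(3,138),(4,1)]⟩,
⟨⟨⟨237,72,124⟩,⟨-56,267,-48⟩,⟨-132,16,243⟩⟩,true,109,80,.leaf [(5,747),(6,999),(11,76729),(14,77)],.leaf [(0,60),(2,260),(6,1),(10,19)]⟩,
⟨⟨⟨-237,-72,124⟩,⟨-56,267,48⟩,⟨-132,16,-243⟩⟩,true,109,197,.leaf [(0,88),(1,280),(3,87),(5,1)],.leaf [(0,88),(1,280),(3,87),(5,1)]⟩,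
⟨⟨⟨-117,-128,216⟩,⟨96,-243,-92⟩,⟨232,36,147⟩⟩,true,110,126,.leaf [(2,76729),(4,147),(5,330),(7,62)],.leaf [(2,76729),(4,147),(5,330),(7,62)]⟩,
⟨⟨⟨-117,-128,-216⟩,⟨-96,243,-92⟩,⟨232,36,-147⟩⟩,true,110,151,.leaf [(4,3822),(5,6516),(14,1183),(18,76729)],.leaf [(1,439),(2,37),(5,1),(10,127)]⟩,
⟨⟨⟨-243,-36,-128⟩,⟨-92,-147,216⟩,⟨-96,232,117⟩⟩,true,113,94,.leaf [(1,41),(2,111),(3,303),(4,1)],.leaf [(1,41),(2,111),(3,303),(4,1)]⟩,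
⟨⟨⟨243,36,-128⟩,⟨-92,-147,-216⟩,⟨-96,232,-117⟩⟩,true,113,183,.leaf [(0,76729),(4,88),(5,328),(6,33)],.leaf [(0,76729),(4,88),(5,328),(6,33)]⟩,
⟨⟨⟨133,204,-132⟩,⟨-132,187,156⟩,⟨204,-12,187⟩⟩,true,114,24,.leaf [(0,17),(1,285),(3,3),(4,1)],.leaf [(0,17),(1,285),(3,3),(4,1)]⟩,
⟨⟨⟨133,204,132⟩,⟨-132,187,-156⟩,⟨-204,12,187⟩⟩,true,114,253,.leaf [(5,6264),(7,4224),(14,3011),(18,76729)],.leaf [(2,115),(3,85),(7,1),(10,101)]⟩,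
⟨⟨⟨51,48,268⟩,⟨-272,21,48⟩,⟨-12,-272,51⟩⟩,true,115,65,.leaf [(2,639),(10,206),(15,4),(18,333)],.leaf [(4,432),(6,693),(10,76729),(15,56)]⟩,
⟨⟨⟨-51,-48,268⟩,⟨-272,21,-48⟩,⟨-12,-272,-51⟩⟩,true,115,212,.leaf [(3,1317),(5,3),(10,37),(18,127)],.leaf [(1,702),(3,1323),(10,404),(15,1)]⟩,
⟨⟨⟨133,-84,-228⟩,⟨228,133,84⟩,⟨84,-228,133⟩⟩,true,116,117,.leaf [(4,5886),(6,2319),(15,2596),(18,76729)],.leaf [(3,16620),(6,63),(10,9418),(22,5)]⟩,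
⟨⟨⟨133,-84,228⟩,⟨228,133,-84⟩,⟨-84,228,133⟩⟩,true,116,160,.leaf [(0,312),(1,95),(5,1)],.leaf [(0,312),(1,95),(5,1)]⟩,
⟨⟨⟨133,-228,-84⟩,⟨84,133,-228⟩,⟨228,84,133⟩⟩,true,117,116,.leaf [(5,1809),(7,3423),(14,653),(18,76729)],.leaf [(0,217),(2,814),(5,4),(10,217)]⟩,
⟨⟨⟨133,-228,84⟩,⟨84,133,228⟩,⟨-228,-84,133⟩⟩,true,117,161,.leaf [(0,1385),(3,1939),(5,5),(6,7)],.leaf [(0,1385),(3,1939),(5,5),(6,7)]⟩,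
⟨⟨⟨-267,72,16⟩,⟨-56,-237,132⟩,⟨48,124,243⟩⟩,true,118,57,.leaf [(0,309),(1,107),(3,9),(4,1)],.leaf [(0,309),(1,107),(3,9),(4,1)]⟩,
⟨⟨⟨267,-72,16⟩,⟨-56,-237,-132⟩,⟨48,124,-243⟩⟩,true,118,220,.leaf [(0,277),(2,1662),(4,7),(5,4)],.leaf [(0,277),(2,1662),(4,7),(5,4)]⟩,
⟨⟨⟨-83,12,-264⟩,⟨204,-173,-72⟩,⟨-168,-216,43⟩⟩,true,120,130,.leaf [(0,185),(1,45),(3,147),(4,1)],.leaf [(0,185),(1,45),(3,147),(4,1)]⟩,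
⟨⟨⟨-83,12,264⟩,⟨204,-173,72⟩,⟨168,216,43⟩⟩,true,120,147,.leaf [(2,46259),(3,23822),(4,67),(5,166)],.leaf [(2,46259),(3,23822),(4,67),(5,166)]⟩,
⟨⟨⟨21,48,-272⟩,⟨-272,51,-12⟩,⟨48,268,51⟩⟩,true,121,53,.leaf [(1,87532),(2,831),(4,317),(6,18)],.leaf [(1,87532),(2,831),(4,317),(6,18)]⟩,
⟨⟨⟨-21,-48,-272⟩,⟨-272,51,12⟩,⟨48,268,-51⟩⟩,true,121,224,.leaf [(2,76729),(4,234),(5,316),(6,13)],.leaf [(2,76729),(4,234),(5,316),(6,13)]⟩,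
⟨⟨⟨-117,216,-128⟩,⟨232,147,36⟩,⟨96,-92,-243⟩⟩,true,126,110,.leaf [(3,76729),(4,330),(5,147),(6,62)],.leaf [(3,76729),(4,330),(5,147),(6,62)]⟩,
⟨⟨⟨117,-216,-128⟩,⟨232,147,-36⟩,⟨96,-92,243⟩⟩,true,126,167,.leaf [(1,73959),(5,11),(6,361),(18,4709)],.leaf [(1,81),(2,11),(5,1),(10,113)]⟩,
⟨⟨⟨187,204,-12⟩,⟨-132,133,204⟩,⟨156,-132,187⟩⟩,true,127,74,.leaf [(1,108584),(2,37949),(4,467),(14,8)],.leaf [(1,280),(2,55),(4,1),(10,16)]⟩,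
⟨⟨⟨187,204,12⟩,⟨-132,133,-204⟩,⟨-156,132,187⟩⟩,true,127,203,.leaf [(0,2202),(2,137),(7,4),(18,199)],.leaf [(0,411),(2,734),(7,4),(10,199)]⟩,
⟨⟨⟨-173,120,180⟩,⟨-120,-245,48⟩,⟨180,-48,205⟩⟩,true,129,55,.leaf [(0,3047),(2,5263),(4,19),(6,11)],.leaf [(0,3047),(2,5263),(4,19),(6,11)]⟩,
⟨⟨⟨-173,120,-180⟩,⟨-120,-245,-48⟩,⟨-180,48,205⟩⟩,true,129,222,.leaf [(0,275),(1,132),(2,90),(4,1)],.leaf [(0,275),(1,132),(2,90),(4,1)]⟩,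
⟨⟨⟨-83,-264,12⟩,⟨-168,43,-216⟩,⟨204,-72,-173⟩⟩,true,130,120,.leaf [(0,45),(1,185),(2,147),(5,1)],.leaf [(0,45),(1,185),(2,147),(5,1)]⟩,
⟨⟨⟨-83,-264,-12⟩,⟨-168,43,216⟩,⟨-204,72,-173⟩⟩,true,130,157,.leaf [(2,29362),(3,41827),(4,74),(5,155)],.leaf [(2,29362),(3,41827),(4,74),(5,155)]⟩,
⟨⟨⟨187,-156,132⟩,⟨12,187,204⟩,⟨-204,-132,133⟩⟩,true,131,17,.leaf [(3,31024),(6,140),(10,4155),(14,1)],.leaf [(3,76729),(5,63),(6,248),(15,8)]⟩,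
⟨⟨⟨187,-156,-132⟩,⟨12,187,-204⟩,⟨204,132,133⟩⟩,true,131,260,.leaf [(2,477),(11,460),(14,2),(18,115)],.leaf [(2,641),(5,3),(7,1),(10,199)]⟩,
⟨⟨⟨-243,124,48⟩,⟨-132,-237,-56⟩,⟨16,-72,267⟩⟩,true,134,34,.leaf [(0,59832),(2,48475),(4,315),(7,104)],.leaf [(0,59832),(2,48475),(4,315),(7,104)]⟩,
⟨⟨⟨-243,124,-48⟩,⟨132,237,-56⟩,⟨16,-72,-267⟩⟩,true,134,243,.leaf [(3,153458),(4,1084),(5,735),(15,233)],.leaf [(1,1053),(3,579),(10,649),(14,1)]⟩,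
⟨⟨⟨205,180,-48⟩,⟨180,-173,120⟩,⟨48,-120,-245⟩⟩,true,136,93,.leaf [(0,80),(2,273),(3,168),(4,1)],.leaf [(0,80),(2,273),(3,168),(4,1)]⟩,
⟨⟨⟨205,180,48⟩,⟨180,-173,-120⟩,⟨-48,120,-245⟩⟩,true,136,184,.leaf [(0,64264),(2,29085),(4,293),(5,168)],.leaf [(0,64264),(2,29085),(4,293),(5,168)]⟩,
⟨⟨⟨-245,-48,120⟩,⟨48,205,180⟩,⟨-120,180,-173⟩⟩,true,137,73,.leaf [(0,20498),(1,30193),(4,10),(5,101)],.leaf [(0,20498),(1,30193),(4,10),(5,101)]⟩,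
⟨⟨⟨-245,-48,-120⟩,⟨48,205,-180⟩,⟨120,-180,-173⟩⟩,true,137,204,.leaf [(1,2178),(3,3450),(14,5),(18,467)],.leaf [(1,405),(3,711),(10,467),(14,1)]⟩,
⟨⟨⟨-245,48,120⟩,⟨-48,205,-180⟩,⟨-120,-180,-173⟩⟩,true,140,73,.leaf [(3,3093),(5,9),(10,247),(18,361)],.leaf [(1,1053),(3,207),(10,563),(14,1)]⟩,
⟨⟨⟨-245,48,-120⟩,⟨-48,205,180⟩,⟨120,180,-173⟩⟩,true,140,204,.leaf [(0,2770),(1,27977),(4,74),(5,109)],.leaf [(0,2770),(1,27977),(4,74),(5,109)]⟩,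
⟨⟨⟨205,-180,-48⟩,⟨-180,-173,-120⟩,⟨48,120,-245⟩⟩,true,141,93,.leaf [(0,300),(1,170),(3,27),(5,1)],.leaf [(0,300),(1,170),(3,27),(5,1)]⟩,
⟨⟨⟨205,-180,48⟩,⟨-180,-173,120⟩,⟨-48,-120,-245⟩⟩,true,141,184,.leaf [(2,6925),(3,34348),(4,5),(5,116)],.leaf [(2,6925),(3,34348),(4,5),(5,116)]⟩,
⟨⟨⟨243,124,-48⟩,⟨-132,237,-56⟩,⟨16,72,267⟩⟩,true,143,34,.leaf [(3,43489),(4,131),(7,87),(18,6371)],.leaf [(1,2619),(3,1920),(10,1000),(15,1)]⟩,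
⟨⟨⟨243,124,48⟩,⟨132,-237,-56⟩,⟨16,72,-267⟩⟩,true,143,243,.leaf [(0,48475),(2,59832),(4,315),(5,104)],.leaf [(0,48475),(2,59832),(4,315),(5,104)]⟩,
⟨⟨⟨187,156,132⟩,⟨-12,187,-204⟩,⟨-204,132,133⟩⟩,true,146,17,.leaf [(5,2619),(7,2541),(14,1883),(18,76729)],.leaf [(0,345),(2,542),(7,4),(10,265)]⟩,
⟨⟨⟨187,156,-132⟩,⟨-12,187,204⟩,⟨204,-132,133⟩⟩,true,146,260,.leaf [(1,18005),(4,80),(7,11),(10,2216)],.leaf [(1,76729),(4,280),(7,55),(15,16)]⟩,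
⟨⟨⟨-83,264,12⟩,⟨168,43,216⟩,⟨204,72,-173⟩⟩,true,147,120,.leaf [(0,221),(1,87),(3,117),(4,1)],.leaf [(0,221),(1,87),(3,117),(4,1)]⟩,
⟨⟨⟨-83,264,-12⟩,⟨168,43,-216⟩,⟨-204,-72,-173⟩⟩,true,147,157,.leaf [(0,3601),(3,1385),(4,5),(7,13)],.leaf [(0,3601),(3,1385),(4,5),(7,13)]⟩,
⟨⟨⟨-173,-120,180⟩,⟨120,-245,-48⟩,⟨180,48,205⟩⟩,true,148,55,.leaf [(0,5263),(2,3047),(4,11),(6,19)],.leaf [(0,5263),(2,3047),(4,11),(6,19)]⟩,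
⟨⟨⟨-173,-120,-180⟩,⟨120,-245,48⟩,⟨-180,-48,205⟩⟩,true,148,222,.leaf [(0,95),(2,30),(3,228),(4,1)],.leaf [(0,95),(2,30),(3,228),(4,1)]⟩,
⟨⟨⟨187,-204,-12⟩,⟨132,133,-204⟩,⟨156,132,187⟩⟩,true,150,74,.leaf [(0,681420),(5,1200),(14,13),(18,57893)],.leaf [(0,535),(2,610),(5,4),(10,199)]⟩,
⟨⟨⟨187,-204,12⟩,⟨132,133,204⟩,⟨-156,-132,187⟩⟩,true,150,203,.leaf [(0,67311),(3,210520),(6,905),(14,16)],.leaf [(0,63),(3,248),(6,1),(10,8)]⟩,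
⟨⟨⟨-117,-216,-128⟩,⟨232,-147,36⟩,⟨-96,-92,243⟩⟩,true,151,110,.leaf [(4,2745),(5,1920),(15,1544),(18,76729)],.leaf [(3,3601),(4,27),(5,53),(10,4709)]⟩,
⟨⟨⟨117,216,-128⟩,⟨232,-147,-36⟩,⟨-96,-92,-243⟩⟩,true,151,167,.leaf [(0,285),(1,92),(2,78),(4,1)],.leaf [(0,285),(1,92),(2,78),(4,1)]⟩,
⟨⟨⟨21,-48,-272⟩,⟨-272,-51,-12⟩,⟨-48,268,-51⟩⟩,true,156,53,.leaf [(1,18005),(2,4986),(4,82),(5,15)],.leaf [(1,18005),(2,4986),(4,82),(5,15)]⟩,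
⟨⟨⟨-21,48,-272⟩,⟨-272,-51,12⟩,⟨-48,268,51⟩⟩,true,156,224,.leaf [(0,66),(1,284),(2,33),(4,1)],.leaf [(0,66),(1,284),(2,33),(4,1)]⟩,
⟨⟨⟨-83,-12,-264⟩,⟨-204,-173,72⟩,⟨-168,216,43⟩⟩,true,157,130,.leaf [(0,161),(1,309),(3,27),(4,1)],.leaf [(0,161),(1,309),(3,27),(4,1)]⟩,
⟨⟨⟨-83,-12,264⟩,⟨-204,-173,-72⟩,⟨168,-216,43⟩⟩,true,157,147,.leaf [(1,3601),(2,1385),(5,5),(6,13)],.leaf [(1,3601),(2,1385),(5,5),(6,13)]⟩,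
⟨⟨⟨-267,-72,16⟩,⟨-56,237,132⟩,⟨-48,124,-243⟩⟩,true,159,57,.leaf [(0,6371),(1,15235),(4,13),(5,53)],.leaf [(0,6371),(1,15235),(4,13),(5,53)]⟩,
⟨⟨⟨267,72,16⟩,⟨-56,237,-132⟩,⟨-48,124,243⟩⟩,true,159,220,.leaf [(2,10249),(3,3601),(5,1),(6,33)],.leaf [(2,10249),(3,3601),(5,1),(6,33)]⟩,
⟨⟨⟨133,228,-84⟩,⟨-84,133,228⟩,⟨228,-84,133⟩⟩,true,160,116,.leaf [(0,95),(1,312),(4,1)],.leaf [(0,95),(1,312),(4,1)]⟩,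
⟨⟨⟨133,228,84⟩,⟨-84,133,-228⟩,⟨-228,84,133⟩⟩,true,160,161,.leaf [(2,17451),(7,60),(14,34),(18,1385)],.leaf [(0,597),(2,434),(7,4),(10,217)]⟩,
⟨⟨⟨133,84,-228⟩,⟨-228,133,-84⟩,⟨84,228,133⟩⟩,true,161,117,.leaf [(1,1385),(2,1939),(4,5),(7,7)],.leaf [(1,1385),(2,1939),(4,5),(7,7)]⟩,
⟨⟨⟨133,84,228⟩,⟨-228,133,84⟩,⟨-84,-228,133⟩⟩,true,161,160,.leaf [(3,1044),(6,3),(10,86),(18,113)],.R (.leaf [(1,729),(10,315),(26,7),(35,5)]) (.leaf [(1,2916),(10,855),(26,58),(34,5)]) (.leaf [(1,44469),(10,12411),(26,1687),(39,1)])⟩,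
⟨⟨⟨51,-48,268⟩,⟨-272,-21,48⟩,⟨12,-272,-51⟩⟩,true,162,65,.leaf [(3,12465),(5,87),(10,3878),(14,14)],.leaf [(1,9126),(3,5109),(10,3316),(23,1)]⟩,
⟨⟨⟨-51,48,268⟩,⟨-272,-21,-48⟩,⟨12,-272,51⟩⟩,true,162,212,.leaf [(5,855),(6,285),(15,841),(18,76729)],.leaf [(4,756),(6,495),(10,76729),(15,80)]⟩,
⟨⟨⟨133,-204,-132⟩,⟨132,187,-156⟩,⟨204,12,187⟩⟩,true,163,24,.leaf [(5,756),(7,2604),(14,107),(18,76729)],.leaf [(1,29),(2,129),(5,1),(10,87)]⟩,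
⟨⟨⟨133,-204,132⟩,⟨132,187,156⟩,⟨-204,-12,187⟩⟩,true,163,253,.leaf [(0,277),(3,1385),(5,1),(6,5)],.leaf [(0,277),(3,1385),(5,1),(6,5)]⟩,
⟨⟨⟨-243,36,-128⟩,⟨-92,147,216⟩,⟨96,232,-117⟩⟩,true,164,94,.leaf [(1,37118),(3,29085),(4,196),(5,111)],.leaf [(1,37118),(3,29085),(4,196),(5,111)]⟩,
⟨⟨⟨243,-36,-128⟩,⟨-92,147,-216⟩,⟨96,232,117⟩⟩,true,164,183,.leaf [(2,14681),(3,11080),(5,32),(6,55)],.leaf [(2,14681),(3,11080),(5,32),(6,55)]⟩,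
⟨⟨⟨117,-128,-216⟩,⟨96,243,-92⟩,⟨232,-36,147⟩⟩,true,167,126,.R (.leaf [(0,108),(3,117),(18,20),(27,1)]) (.leaf [(0,189),(3,144),(18,32),(26,1)]) (.leaf [(0,45981),(3,42705),(18,8425),(31,1)]),.leaf [(0,201),(3,370),(7,2),(10,127)]⟩,
⟨⟨⟨117,-128,216⟩,⟨-96,-243,-92⟩,⟨232,-36,-147⟩⟩,true,167,151,.leaf [(0,6371),(1,15235),(4,13),(5,53)],.leaf [(0,6371),(1,15235),(4,13),(5,53)]⟩,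
⟨⟨⟨237,-72,124⟩,⟨-56,-267,-48⟩,⟨132,16,-243⟩⟩,true,168,80,.leaf [(1,277),(2,13296),(4,56),(5,27)],.leaf [(1,277),(2,13296),(4,56),(5,27)]⟩,
⟨⟨⟨-237,72,124⟩,⟨-56,-267,48⟩,⟨132,16,243⟩⟩,true,168,197,.leaf [(0,24930),(4,171),(11,7756),(14,5)],.leaf [(0,241),(2,79),(4,1),(10,19)]⟩,
⟨⟨⟨267,-48,-56⟩,⟨16,243,-132⟩,⟨72,124,237⟩⟩,true,171,61,.leaf [(2,14681),(3,3601),(5,23),(6,55)],.leaf [(2,14681),(3,3601),(5,23),(6,55)]⟩,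
⟨⟨⟨-267,48,-56⟩,⟨16,243,132⟩,⟨72,124,-237⟩⟩,true,171,216,.leaf [(0,277),(1,9141),(4,13),(5,37)],.leaf [(0,277),(1,9141),(4,13),(5,37)]⟩,
⟨⟨⟨213,-56,168⟩,⟨168,147,-164⟩,⟨-56,228,147⟩⟩,true,174,32,.leaf [(0,284),(1,18),(3,3),(5,1)],.leaf [(0,284),(1,18),(3,3),(5,1)]⟩,
⟨⟨⟨213,-56,-168⟩,⟨-168,-147,-164⟩,⟨-56,228,-147⟩⟩,true,174,245,.leaf [(2,50968),(4,224),(5,135),(11,1939)],.leaf [(2,260380),(4,1085),(5,576),(10,1939)]⟩,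
⟨⟨⟨147,-36,232⟩,⟨-92,243,96⟩,⟨-216,-128,117⟩⟩,true,175,11,.leaf [(0,5211),(3,4896),(18,1228),(22,1)],.leaf [(0,80607),(5,524),(6,910),(10,59555)]⟩,
⟨⟨⟨-147,36,232⟩,⟨-92,243,-96⟩,⟨-216,-128,-117⟩⟩,true,175,266,.leaf [(1,8310),(3,66757),(5,279),(6,164)],.leaf [(1,8310),(3,66757),(5,279),(6,164)]⟩,
⟨⟨⟨-83,-204,168⟩,⟨-12,-173,-216⟩,⟨264,-72,43⟩⟩,true,176,18,.leaf [(1,1385),(2,3601),(5,13),(6,5)],.leaf [(1,1385),(2,3601),(5,13),(6,5)]⟩,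
⟨⟨⟨-83,-204,-168⟩,⟨-12,-173,216⟩,⟨-264,72,43⟩⟩,true,176,259,.leaf [(1,37118),(3,62325),(4,276),(5,31)],.leaf [(1,37118),(3,62325),(4,276),(5,31)]⟩,
⟨⟨⟨69,-252,-92⟩,⟨268,69,12⟩,⟨12,-92,261⟩⟩,true,177,91,.leaf [(1,402),(3,730),(6,5),(18,183)],.leaf [(2,65),(3,27),(5,1),(10,95)]⟩,
⟨⟨⟨-69,252,-92⟩,⟨268,69,-12⟩,⟨12,-92,-261⟩⟩,true,177,186,.leaf [(3,76729),(4,333),(5,249),(6,77)],.leaf [(3,76729),(4,333),(5,249),(6,77)]⟩,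
⟨⟨⟨51,-12,-272⟩,⟨268,51,48⟩,⟨48,-272,21⟩⟩,true,179,87,.leaf [(1,6371),(3,2493),(4,13),(6,21)],.leaf [(1,6371),(3,2493),(4,13),(6,21)]⟩,
⟨⟨⟨-51,12,-272⟩,⟨268,51,-48⟩,⟨48,-272,-21⟩⟩,true,179,190,.leaf [(0,63),(1,300),(3,20),(6,1)],.leaf [(0,63),(1,300),(3,20),(6,1)]⟩,
⟨⟨⟨-173,-12,216⟩,⟨-204,-83,-168⟩,⟨72,-264,43⟩⟩,true,181,66,.leaf [(2,68973),(6,213),(10,277),(14,43)],.leaf [(1,2378322),(6,5037),(10,533779),(23,22)]⟩,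
⟨⟨⟨-173,-12,-216⟩,⟨-204,-83,168⟩,⟨-72,264,43⟩⟩,true,181,211,.leaf [(0,71),(1,243),(3,141),(4,1)],.leaf [(0,71),(1,243),(3,141),(4,1)]⟩,
⟨⟨⟨243,-128,36⟩,⟨-96,-117,232⟩,⟨-92,-216,-147⟩⟩,true,183,113,.leaf [(1,76729),(4,328),(5,88),(7,33)],.leaf [(1,76729),(4,328),(5,88),(7,33)]⟩,
⟨⟨⟨243,-128,-36⟩,⟨96,117,232⟩,⟨-92,-216,147⟩⟩,true,183,164,.leaf [(2,11080),(3,14681),(4,32),(7,55)],.leaf [(2,11080),(3,14681),(4,32),(7,55)]⟩,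
⟨⟨⟨205,48,180⟩,⟨-48,-245,120⟩,⟨180,-120,-173⟩⟩,true,184,136,.leaf [(0,9695),(1,30193),(4,91),(5,101)],.leaf [(0,9695),(1,30193),(4,91),(5,101)]⟩,
⟨⟨⟨205,48,-180⟩,⟨-48,-245,-120⟩,⟨-180,120,-173⟩⟩,true,184,141,.leaf [(0,50),(1,60),(2,243),(4,1)],.leaf [(0,50),(1,60),(2,243),(4,1)]⟩,
⟨⟨⟨147,-228,-56⟩,⟨-164,-147,168⟩,⟨-168,-56,-213⟩⟩,true,185,26,.leaf [(2,3601),(3,7756),(4,15),(5,28)],.leaf [(2,3601),(3,7756),(4,15),(5,28)]⟩,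
⟨⟨⟨-147,228,-56⟩,⟨-164,-147,-168⟩,⟨-168,-56,213⟩⟩,true,185,251,.leaf [(0,554),(2,277),(4,2),(6,1)],.leaf [(0,554),(2,277),(4,2),(6,1)]⟩,
⟨⟨⟨-69,-92,-252⟩,⟨-12,261,-92⟩,⟨268,-12,-69⟩⟩,true,186,100,.leaf [(0,184205),(5,556),(14,95),(18,23822)],.leaf [(1,5263),(5,19),(7,28),(10,4432)]⟩,
⟨⟨⟨-69,-92,252⟩,⟨12,-261,-92⟩,⟨268,-12,69⟩⟩,true,186,177,.leaf [(2,76729),(4,249),(5,333),(7,77)],.leaf [(2,76729),(4,249),(5,333),(7,77)]⟩,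
⟨⟨⟨-51,-272,-12⟩,⟨-48,21,-272⟩,⟨268,-48,-51⟩⟩,true,190,98,.leaf [(1,7479),(2,62048),(5,237),(7,28)],.leaf [(1,7479),(2,62048),(5,237),(7,28)]⟩,
⟨⟨⟨-51,-272,12⟩,⟨48,-21,-272⟩,⟨268,-48,51⟩⟩,true,190,179,.leaf [(0,300),(1,63),(2,20),(7,1)],.leaf [(0,300),(1,63),(2,20),(7,1)]⟩,
⟨⟨⟨-243,16,-132⟩,⟨48,267,-56⟩,⟨124,-72,-237⟩⟩,true,196,45,.leaf [(4,4),(5,3),(7,2),(15,1)],.leaf [(1,62325),(7,411),(10,68696),(14,80)]⟩,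
⟨⟨⟨-243,16,132⟩,⟨-48,-267,-56⟩,⟨124,-72,237⟩⟩,true,196,232,.leaf [(2,76729),(4,315),(5,297),(7,245)],.leaf [(2,76729),(4,315),(5,297),(7,245)]⟩,
⟨⟨⟨-237,124,-72⟩,⟨-132,-243,16⟩,⟨-56,48,267⟩⟩,true,197,109,.leaf [(0,280),(1,88),(2,87),(4,1)],.leaf [(0,280),(1,88),(2,87),(4,1)]⟩,
⟨⟨⟨-237,124,72⟩,⟨132,243,16⟩,⟨-56,48,-267⟩⟩,true,197,168,.leaf [(1,24930),(5,171),(10,7756),(15,5)],.leaf [(1,230187),(5,1425),(14,223),(22,25)]⟩,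
⟨⟨⟨-147,-168,-164⟩,⟨-56,213,-168⟩,⟨228,-56,-147⟩⟩,true,199,3,.leaf [(1,4155),(2,3878),(5,29),(6,14)],.leaf [(1,4155),(2,3878),(5,29),(6,14)]⟩,
⟨⟨⟨147,168,-164⟩,⟨-56,213,168⟩,⟨228,-56,147⟩⟩,true,199,274,.leaf [(1,34625),(3,7479),(4,127),(6,15)],.leaf [(1,34625),(3,7479),(4,127),(6,15)]⟩,
⟨⟨⟨43,-264,72⟩,⟨-168,-83,-204⟩,⟨216,-12,-173⟩⟩,true,200,21,.leaf [(0,162),(1,245),(2,90),(5,1)],.leaf [(0,162),(1,245),(2,90),(5,1)]⟩,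
⟨⟨⟨43,-264,-72⟩,⟨-168,-83,204⟩,⟨-216,12,-173⟩⟩,true,200,256,.leaf [(1,52907),(3,41550),(4,276),(5,181)],.leaf [(1,52907),(3,41550),(4,276),(5,181)]⟩,
⟨⟨⟨147,-92,216⟩,⟨36,-243,-128⟩,⟨232,96,-117⟩⟩,true,201,58,.leaf [(0,188),(1,303),(3,30),(5,1)],.leaf [(0,188),(1,303),(3,30),(5,1)]⟩,
⟨⟨⟨147,-92,-216⟩,⟨-36,243,-128⟩,⟨232,96,117⟩⟩,true,201,219,.leaf [(0,269244),(14,153),(18,36287),(23,16)],.leaf [(4,233),(5,834),(7,502),(10,76729)]⟩,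
⟨⟨⟨-261,-92,12⟩,⟨-12,69,268⟩,⟨-92,252,-69⟩⟩,true,202,70,.leaf [(0,8864),(1,9141),(4,24),(5,37)],.leaf [(0,8864),(1,9141),(4,24),(5,37)]⟩,
⟨⟨⟨-261,-92,-12⟩,⟨12,-69,268⟩,⟨-92,252,69⟩⟩,true,202,207,.leaf [(0,10249),(1,6648),(4,33),(5,32)],.leaf [(0,10249),(1,6648),(4,33),(5,32)]⟩,
⟨⟨⟨187,12,204⟩,⟨-156,187,132⟩,⟨-132,-204,133⟩⟩,true,203,127,.leaf [(3,9),(10,182),(15,1),(18,70)],.leaf [(1,2268),(3,756),(10,641),(14,1)]⟩,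
⟨⟨⟨187,12,-204⟩,⟨-156,187,-132⟩,⟨132,204,133⟩⟩,true,203,150,.leaf [(1,67311),(2,210520),(7,905),(15,16)],.leaf [(1,135),(2,200),(7,1),(10,16)]⟩,
⟨⟨⟨-245,-120,-48⟩,⟨120,-173,-180⟩,⟨48,-180,205⟩⟩,true,204,137,.leaf [(0,540),(2,38),(6,1),(18,57)],.leaf [(0,27),(2,209),(6,1),(10,57)]⟩,
⟨⟨⟨-245,-120,48⟩,⟨120,-173,180⟩,⟨-48,180,205⟩⟩,true,204,140,.leaf [(0,3601),(3,831),(4,17),(5,9)],.leaf [(0,3601),(3,831),(4,17),(5,9)]⟩,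
⟨⟨⟨261,12,-92⟩,⟨-92,69,-252⟩,⟨12,268,69⟩⟩,true,207,75,.leaf [(2,76729),(4,288),(5,280),(6,265)],.leaf [(2,76729),(4,288),(5,280),(6,265)]⟩,
⟨⟨⟨-261,-12,-92⟩,⟨-92,69,252⟩,⟨12,268,-69⟩⟩,true,207,202,.leaf [(1,34625),(3,59832),(4,280),(5,81)],.leaf [(1,34625),(3,59832),(4,280),(5,81)]⟩,
⟨⟨⟨243,96,-92⟩,⟨-128,117,-216⟩,⟨-36,232,147⟩⟩,true,209,19,.leaf [(2,76729),(4,273),(5,196),(6,262)],.leaf [(2,76729),(4,273),(5,196),(6,262)]⟩,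
⟨⟨⟨-243,-96,-92⟩,⟨-128,117,216⟩,⟨-36,232,-147⟩⟩,true,209,258,.leaf [(0,8864),(1,15235),(4,40),(5,53)],.leaf [(0,8864),(1,15235),(4,40),(5,53)]⟩,
⟨⟨⟨-173,-216,12⟩,⟨-72,43,-264⟩,⟨204,-168,-83⟩⟩,true,211,96,.leaf [(1,1418),(2,1065),(5,10),(18,117)],.leaf [(1,396),(2,11),(6,1),(10,162)]⟩,
⟨⟨⟨-173,-216,-12⟩,⟨-72,43,264⟩,⟨-204,168,-83⟩⟩,true,211,181,.leaf [(0,28531),(1,20498),(4,47),(5,106)],.leaf [(0,28531),(1,20498),(4,47),(5,106)]⟩,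
⟨⟨⟨-51,268,-48⟩,⟨-12,-51,-272⟩,⟨-272,-48,21⟩⟩,true,212,115,.leaf [(4,81),(7,159),(11,3601),(18,4709)],.leaf [(0,123),(2,140),(4,1),(10,56)]⟩,
⟨⟨⟨-51,268,48⟩,⟨12,51,-272⟩,⟨-272,-48,-21⟩⟩,true,212,162,.leaf [(3,756),(7,3),(11,35),(18,160)],.leaf [(2,117),(3,80),(4,1),(10,100)]⟩,
⟨⟨⟨43,-216,168⟩,⟨-72,-173,-204⟩,⟨264,-12,-83⟩⟩,true,214,49,.leaf [(0,117),(1,251),(2,87),(5,1)],.leaf [(0,117),(1,251),(2,87),(5,1)]⟩,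
⟨⟨⟨43,-216,-168⟩,⟨-72,-173,204⟩,⟨-264,12,-83⟩⟩,true,214,228,.leaf [(1,47090),(3,34071),(4,228),(5,43)],.leaf [(1,47090),(3,34071),(4,228),(5,43)]⟩,
⟨⟨⟨-267,-56,-48⟩,⟨-72,237,124⟩,⟨16,132,-243⟩⟩,true,216,106,.leaf [(0,3601),(1,14681),(4,23),(5,55)],.leaf [(0,3601),(1,14681),(4,23),(5,55)]⟩,
⟨⟨⟨-267,-56,48⟩,⟨72,-237,124⟩,⟨16,132,243⟩⟩,true,216,171,.leaf [(0,32686),(3,2493),(4,138),(5,41)],.leaf [(0,32686),(3,2493),(4,138),(5,41)]⟩,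
⟨⟨⟨115,-252,0⟩,⟨252,115,0⟩,⟨0,0,277⟩⟩,true,217,0,.R (.leaf [(0,108),(3,117),(18,20),(27,1)]) (.leaf [(0,189),(3,144),(18,32),(26,1)]) (.R (.leaf [(0,190269),(18,19233),(34,1333),(38,1)]) (.leaf [(0,129411),(3,78777),(18,20179),(39,1)]) (.leaf [(0,459),(3,315),(18,79),(35,1)])),.leaf [(0,159),(3,460),(6,2),(10,115)]⟩,
⟨⟨⟨-147,216,-92⟩,⟨232,117,-96⟩,⟨-36,-128,-243⟩⟩,true,219,76,.leaf [(3,76729),(4,327),(5,279),(6,191)],.leaf [(3,76729),(4,327),(5,279),(6,191)]⟩,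
⟨⟨⟨147,-216,-92⟩,⟨232,117,96⟩,⟨-36,-128,243⟩⟩,true,219,201,.leaf [(4,597),(5,1216),(6,2948),(18,76729)],.leaf [(3,52353),(5,774),(10,78668),(15,13)]⟩,
⟨⟨⟨267,16,-72⟩,⟨48,-243,124⟩,⟨-56,-132,-237⟩⟩,true,220,118,.leaf [(1,78),(2,259),(3,118),(4,1)],.leaf [(1,78),(2,259),(3,118),(4,1)]⟩,
⟨⟨⟨267,16,72⟩,⟨-48,243,124⟩,⟨-56,-132,237⟩⟩,true,220,159,.leaf [(2,3601),(3,10249),(4,1),(7,33)],.leaf [(2,3601),(3,10249),(4,1),(7,33)]⟩,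
⟨⟨⟨-117,-96,232⟩,⟨-128,243,36⟩,⟨-216,-92,-147⟩⟩,true,221,43,.leaf [(0,4),(1,142),(3,237),(5,1)],.leaf [(0,4),(1,142),(3,237),(5,1)]⟩,
⟨⟨⟨117,96,232⟩,⟨-128,243,-36⟩,⟨-216,-92,147⟩⟩,true,221,234,.leaf [(5,90),(6,684),(11,76729),(15,95)],.leaf [(0,96396),(5,328),(6,521),(10,18559)]⟩,
⟨⟨⟨-173,-180,120⟩,⟨-180,205,48⟩,⟨-120,-48,-245⟩⟩,true,222,129,.leaf [(0,132),(1,275),(3,90),(5,1)],.leaf [(0,132),(1,275),(3,90),(5,1)]⟩,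
⟨⟨⟨-173,-180,-120⟩,⟨-180,205,-48⟩,⟨120,48,-245⟩⟩,true,222,148,.leaf [(1,95),(2,228),(3,30),(5,1)],.leaf [(1,95),(2,228),(3,30),(5,1)]⟩,
⟨⟨⟨237,-56,-132⟩,⟨72,267,16⟩,⟨124,-48,243⟩⟩,true,223,31,.leaf [(3,76729),(4,117),(7,251),(14,29)],.leaf [(0,135),(3,514),(7,2),(10,73)]⟩,
⟨⟨⟨237,-56,132⟩,⟨-72,-267,16⟩,⟨124,-48,-243⟩⟩,true,223,246,.leaf [(0,8864),(1,15235),(4,40),(5,53)],.leaf [(0,8864),(1,15235),(4,40),(5,53)]⟩,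
⟨⟨⟨-21,-272,-48⟩,⟨48,-51,268⟩,⟨-272,12,51⟩⟩,true,224,121,.leaf [(3,76729),(4,316),(5,234),(7,13)],.leaf [(3,76729),(4,316),(5,234),(7,13)]⟩,
⟨⟨⟨-21,-272,48⟩,⟨-48,51,268⟩,⟨-272,12,-51⟩⟩,true,224,156,.leaf [(0,284),(1,66),(3,33),(5,1)],.leaf [(0,284),(1,66),(3,33),(5,1)]⟩,
⟨⟨⟨43,-168,216⟩,⟨-264,-83,-12⟩,⟨72,-204,-173⟩⟩,true,228,63,.leaf [(1,60109),(3,44874),(5,251),(6,36)],.leaf [(1,60109),(3,44874),(5,251),(6,36)]⟩,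
⟨⟨⟨43,-168,-216⟩,⟨-264,-83,12⟩,⟨-72,204,-173⟩⟩,true,228,214,.leaf [(2,18559),(3,9418),(4,53),(5,62)],.leaf [(2,18559),(3,9418),(4,53),(5,62)]⟩,
⟨⟨⟨69,12,268⟩,⟨-92,261,12⟩,⟨-252,-92,69⟩⟩,true,229,36,.leaf [(3,76729),(5,339),(6,41),(14,39)],.leaf [(0,5817),(5,20),(6,34),(10,1385)]⟩,
⟨⟨⟨-69,-12,268⟩,⟨-92,261,-12⟩,⟨-252,-92,-69⟩⟩,true,229,241,.leaf [(1,2493),(3,60940),(5,249),(6,80)],.leaf [(1,2493),(3,60940),(5,249),(6,80)]⟩,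
⟨⟨⟨243,-132,16⟩,⟨124,237,72⟩,⟨-48,-56,267⟩⟩,true,232,81,.leaf [(2,10803),(6,15),(11,1385),(15,13)],.leaf [(4,174),(5,1060),(6,575),(10,76729)]⟩,
⟨⟨⟨-243,132,16⟩,⟨124,237,-72⟩,⟨-48,-56,-267⟩⟩,true,232,196,.leaf [(3,76729),(4,297),(5,315),(6,245)],.leaf [(3,76729),(4,297),(5,315),(6,245)]⟩,
⟨⟨⟨117,232,-96⟩,⟨216,-147,-92⟩,⟨-128,-36,-243⟩⟩,true,234,56,.leaf [(0,241),(1,4),(2,138),(4,1)],.leaf [(0,241),(1,4),(2,138),(4,1)]⟩,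
⟨⟨⟨117,232,96⟩,⟨-216,147,-92⟩,⟨-128,-36,243⟩⟩,true,234,221,.leaf [(4,90),(7,684),(10,76729),(14,95)],.L (.leaf [(4,2565),(6,870),(15,76),(18,76729)]) (.leaf [(0,856761),(1,463144),(6,1463),(38,16)]) (.leaf [(0,288),(1,20),(3,3),(5,1)])⟩,
⟨⟨⟨-69,268,12⟩,⟨252,69,-92⟩,⟨-92,-12,-261⟩⟩,true,241,48,.R (.leaf [(0,108),(3,117),(18,20),(27,1)]) (.leaf [(0,189),(3,144),(18,32),(26,1)]) (.leaf [(5,162),(14,21),(23,14),(30,1)]),.leaf [(0,285),(3,244),(4,2),(10,113)]⟩,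
⟨⟨⟨-69,268,-12⟩,⟨-252,-69,-92⟩,⟨-92,-12,261⟩⟩,true,241,229,.leaf [(0,2493),(2,60940),(4,249),(7,80)],.leaf [(0,2493),(2,60940),(4,249),(7,80)]⟩,
⟨⟨⟨-243,-48,124⟩,⟨16,-267,-72⟩,⟨132,-56,237⟩⟩,true,243,134,.leaf [(2,153458),(4,735),(5,1084),(14,233)],.leaf [(0,60940),(4,367),(5,40),(10,19113)]⟩,
⟨⟨⟨243,48,124⟩,⟨16,-267,72⟩,⟨132,-56,-237⟩⟩,true,243,143,.leaf [(0,16066),(2,92241),(4,361),(5,52)],.leaf [(0,16066),(2,92241),(4,361),(5,52)]⟩,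
⟨⟨⟨-213,168,-56⟩,⟨-56,-147,-228⟩,⟨-168,-164,147⟩⟩,true,245,103,.leaf [(0,3),(2,18),(3,284),(6,1)],.leaf [(0,3),(2,18),(3,284),(6,1)]⟩,
⟨⟨⟨213,-168,-56⟩,⟨-56,-147,228⟩,⟨-168,-164,-147⟩⟩,true,245,174,.leaf [(3,50968),(4,135),(5,224),(10,1939)],.leaf [(3,153458),(4,351),(5,658),(14,7)]⟩,
⟨⟨⟨-237,-132,-56⟩,⟨124,-243,48⟩,⟨-72,16,267⟩⟩,true,246,54,.leaf [(0,153458),(4,821),(5,524),(14,87)],.leaf [(0,149),(3,500),(4,2),(10,73)]⟩,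
⟨⟨⟨237,132,-56⟩,⟨124,-243,-48⟩,⟨-72,16,-267⟩⟩,true,246,223,.leaf [(0,135),(1,8),(2,240),(4,1)],.leaf [(0,135),(1,8),(2,240),(4,1)]⟩,
⟨⟨⟨-173,204,72⟩,⟨12,-83,264⟩,⟨216,168,43⟩⟩,true,247,22,.leaf [(0,287),(1,147),(3,45),(4,1)],.leaf [(0,287),(1,147),(3,45),(4,1)]⟩,
⟨⟨⟨-173,204,-72⟩,⟨12,-83,-264⟩,⟨-216,-168,43⟩⟩,true,247,255,.leaf [(0,1863),(3,3780),(18,770),(22,1)],.leaf [(3,177557),(4,90),(7,529),(10,44874)]⟩,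
⟨⟨⟨-147,-56,-228⟩,⟨168,-213,-56⟩,⟨-164,-168,147⟩⟩,true,251,92,.leaf [(0,157),(1,7),(3,165),(4,1)],.leaf [(0,157),(1,7),(3,165),(4,1)]⟩,
⟨⟨⟨-147,-56,228⟩,⟨-168,213,-56⟩,⟨-164,-168,-147⟩⟩,true,251,185,.leaf [(1,554),(3,277),(5,2),(7,1)],.leaf [(1,554),(3,277),(5,2),(7,1)]⟩,
⟨⟨⟨133,132,204⟩,⟨-204,187,12⟩,⟨-132,-156,187⟩⟩,true,253,114,.leaf [(4,2565),(6,870),(15,76),(18,76729)],.leaf [(1,114453),(10,20835),(26,1919),(31,5)]⟩,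
⟨⟨⟨133,132,-204⟩,⟨-204,187,-12⟩,⟨132,156,187⟩⟩,true,253,163,.leaf [(1,277),(2,1385),(4,1),(7,5)],.leaf [(1,277),(2,1385),(4,1),(7,5)]⟩,
⟨⟨⟨-173,-72,-204⟩,⟨-216,43,168⟩,⟨-12,264,-83⟩⟩,true,255,30,.leaf [(1,72020),(3,39057),(4,336),(5,115)],.leaf [(1,72020),(3,39057),(4,336),(5,115)]⟩,
⟨⟨⟨-173,-72,204⟩,⟨-216,43,-168⟩,⟨12,-264,-83⟩⟩,true,255,247,.leaf [(1,504),(2,550),(6,5),(18,81)],.leaf [(1,568404),(6,1062),(10,155951),(14,133)]⟩,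
⟨⟨⟨43,-72,264⟩,⟨-216,-173,-12⟩,⟨168,-204,-83⟩⟩,true,256,77,.leaf [(1,76729),(4,117),(5,251),(6,87)],.leaf [(1,76729),(4,117),(5,251),(6,87)]⟩,
⟨⟨⟨43,-72,-264⟩,⟨-216,-173,12⟩,⟨-168,204,-83⟩⟩,true,256,200,.leaf [(0,59),(1,276),(2,42),(4,1)],.leaf [(0,59),(1,276),(2,42),(4,1)]⟩,
⟨⟨⟨-243,-92,96⟩,⟨36,147,232⟩,⟨-128,216,-117⟩⟩,true,258,68,.leaf [(0,25207),(1,27977),(4,35),(5,109)],.leaf [(0,25207),(1,27977),(4,35),(5,109)]⟩,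
⟨⟨⟨-243,-92,-96⟩,⟨-36,-147,232⟩,⟨-128,216,117⟩⟩,true,258,209,.leaf [(0,55),(1,88),(3,240),(4,1)],.leaf [(0,55),(1,88),(3,240),(4,1)]⟩,
⟨⟨⟨-83,-168,204⟩,⟨-264,43,-72⟩,⟨12,-216,-173⟩⟩,true,259,101,.leaf [(1,40996),(3,12465),(5,125),(6,48)],.leaf [(1,40996),(3,12465),(5,125),(6,48)]⟩,
⟨⟨⟨-83,-168,-204⟩,⟨-264,43,72⟩,⟨-12,216,-173⟩⟩,true,259,176,.leaf [(1,91964),(3,7479),(4,384),(5,211)],.leaf [(1,91964),(3,7479),(4,384),(5,211)]⟩,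
⟨⟨⟨187,-132,-156⟩,⟨204,133,132⟩,⟨12,-204,187⟩⟩,true,260,131,.leaf [(3,747900),(4,3483),(18,37949),(22,250)],.leaf [(1,1863),(3,1377),(10,551),(14,1)]⟩,
⟨⟨⟨187,-132,156⟩,⟨204,133,-132⟩,⟨-12,204,187⟩⟩,true,260,146,.leaf [(0,18005),(5,80),(6,11),(11,2216)],.leaf [(0,129359),(5,392),(6,137),(10,2216)]⟩,
⟨⟨⟨-147,232,-36⟩,⟨216,117,-128⟩,⟨-92,-96,-243⟩⟩,true,266,102,.leaf [(4,294),(5,4788),(14,1573),(18,76729)],.leaf [(0,30),(3,248),(4,1),(10,85)]⟩,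
⟨⟨⟨-147,232,36⟩,⟨-216,-117,-128⟩,⟨-92,-96,243⟩⟩,true,266,175,.leaf [(0,8310),(2,66757),(4,279),(7,164)],.leaf [(0,8310),(2,66757),(4,279),(7,164)]⟩,
⟨⟨⟨147,-164,-168⟩,⟨-228,-147,-56⟩,⟨-56,168,-213⟩⟩,true,274,78,.leaf [(1,3878),(2,4155),(4,29),(5,14)],.leaf [(1,3878),(2,4155),(4,29),(5,14)]⟩,
⟨⟨⟨147,-164,168⟩,⟨228,147,-56⟩,⟨-56,168,213⟩⟩,true,274,199,.leaf [(0,34625),(2,7479),(5,127),(7,15)],.leaf [(0,34625),(2,7479),(5,127),(7,15)]⟩]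

theorem primeOk_277 : PrimeOk 277 := primeOk (by norm_num) (by norm_num) (by norm_num) L277
  (by decide +kernel) (by decide +kernel)

end Pool.Agent.Lib.H63.TSP
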