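import Mathlib
import Pool.Agent.Lib.H63.TSPPrime

/-!
# Generated certificates for the primes 5, 31, 107, 167, 271
-/

set_option autoImplicit false

namespace Pool.Agent.Lib.H63.TSP

def L5 : List Cls := [
⟨⟨⟨-5,0,0⟩,⟨0,-3,4⟩,⟨0,4,3⟩⟩,false,0,2,.leaf [(0,3),(1,1),(3,3),(4,1)],.leaf [(0,3),(1,1),(3,3),(4,1)]⟩,
⟨⟨⟨-5,0,0⟩,⟨0,3,4⟩,⟨0,4,-3⟩⟩,false,0,3,.leaf [(0,5),(1,10),(4,1),(5,2)],.leaf [(0,5),(1,10),(4,1),(5,2)]⟩,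
⟨⟨⟨-3,0,4⟩,⟨0,-5,0⟩,⟨4,0,3⟩⟩,true,0,2,.leaf [(2,25),(4,5),(5,6),(7,2)],.leaf [(2,25),(4,5),(5,6),(7,2)]⟩,
⟨⟨⟨3,0,4⟩,⟨0,-5,0⟩,⟨4,0,-3⟩⟩,true,0,3,.leaf [(0,5),(1,10),(4,1),(5,2)],.leaf [(0,5),(1,10),(4,1),(5,2)]⟩,
⟨⟨⟨-3,4,0⟩,⟨4,3,0⟩,⟨0,0,-5⟩⟩,true,2,0,.leaf [(3,25),(4,6),(5,5),(6,2)],.leaf [(3,25),(4,6),(5,5),(6,2)]⟩,
⟨⟨⟨3,4,0⟩,⟨4,-3,0⟩,⟨0,0,-5⟩⟩,true,3,0,.leaf [(0,4),(2,3),(4,1)],.leaf [(0,4),(2,3),(4,1)]⟩]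

theorem primeOk_5 : PrimeOk 5 := primeOk (by norm_num) (by norm_num) (by norm_num) L5
  (by decide +kernel) (by decide +kernel)

def L31 : List Cls := [
⟨⟨⟨21,22,-6⟩,⟨18,-21,-14⟩,⟨-14,6,-27⟩⟩,true,4,13,.leaf [(0,496),(2,279),(4,21),(5,8)],.leaf [(0,496),(2,279),(4,21),(5,8)]⟩,
⟨⟨⟨21,22,6⟩,⟨-18,21,-14⟩,⟨-14,6,27⟩⟩,true,4,18,.leaf [(1,2883),(4,116),(7,97),(15,26)],.leaf [(1,4464),(4,57),(10,589),(14,28)]⟩,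
⟨⟨⟨-5,6,-30⟩,⟨30,-5,-6⟩,⟨-6,-30,-5⟩⟩,true,5,6,.leaf [(0,11),(3,24),(4,1)],.leaf [(0,11),(3,24),(4,1)]⟩,
⟨⟨⟨-5,6,30⟩,⟨30,-5,6⟩,⟨6,30,-5⟩⟩,true,5,25,.leaf [(0,961),(4,35),(5,24)],.leaf [(0,961),(4,35),(5,24)]⟩,
⟨⟨⟨-5,-30,6⟩,⟨-6,-5,-30⟩,⟨30,-6,-5⟩⟩,true,6,5,.leaf [(1,11),(2,24),(5,1)],.leaf [(1,11),(2,24),(5,1)]⟩,
⟨⟨⟨-5,-30,-6⟩,⟨-6,-5,30⟩,⟨-30,6,-5⟩⟩,true,6,26,.leaf [(1,341),(3,930),(4,36),(5,25)],.leaf [(1,341),(3,930),(4,36),(5,25)]⟩,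
⟨⟨⟨-21,18,-14⟩,⟨22,21,-6⟩,⟨6,-14,-27⟩⟩,true,8,11,.leaf [(3,961),(4,36),(5,21),(6,20)],.leaf [(3,961),(4,36),(5,21),(6,20)]⟩,
⟨⟨⟨21,-18,-14⟩,⟨22,21,6⟩,⟨6,-14,27⟩⟩,true,8,20,.leaf [(2,961),(6,11),(15,8)],.leaf [(5,108),(6,18),(10,961),(14,5)]⟩,
⟨⟨⟨-21,-14,18⟩,⟨6,-27,-14⟩,⟨22,-6,21⟩⟩,true,11,8,.leaf [(2,961),(4,21),(5,36),(7,20)],.leaf [(2,961),(4,21),(5,36),(7,20)]⟩,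
⟨⟨⟨-21,-14,-18⟩,⟨-6,27,-14⟩,⟨22,-6,-21⟩⟩,true,11,23,.leaf [(1,47),(2,80),(5,5),(18,8)],.leaf [(1,713),(5,11),(7,8),(10,248)]⟩,
⟨⟨⟨-27,-14,-6⟩,⟨6,-21,22⟩,⟨-14,18,21⟩⟩,true,12,14,.leaf [(0,7),(1,1),(3,27),(4,1)],.leaf [(0,7),(1,1),(3,27),(4,1)]⟩,
⟨⟨⟨-27,-14,6⟩,⟨-6,21,22⟩,⟨-14,18,-21⟩⟩,true,12,17,.leaf [(0,93),(1,124),(4,1),(5,4)],.leaf [(0,93),(1,124),(4,1),(5,4)]⟩,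
⟨⟨⟨21,-6,22⟩,⟨-14,-27,6⟩,⟨18,-14,-21⟩⟩,true,13,4,.leaf [(0,31),(1,124),(4,3),(5,4)],.leaf [(0,31),(1,124),(4,3),(5,4)]⟩,
⟨⟨⟨-21,6,22⟩,⟨-14,-27,-6⟩,⟨18,-14,21⟩⟩,true,13,27,.leaf [(11,35),(15,1),(18,8)],.leaf [(2,155),(4,9),(5,4),(10,62)]⟩,
⟨⟨⟨-27,-6,-14⟩,⟨-14,21,18⟩,⟨6,22,-21⟩⟩,true,14,12,.leaf [(0,31),(1,124),(4,3),(5,4)],.leaf [(0,31),(1,124),(4,3),(5,4)]⟩,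
⟨⟨⟨27,6,-14⟩,⟨-14,21,-18⟩,⟨6,22,21⟩⟩,true,14,19,.leaf [(2,124),(3,93),(5,1),(6,4)],.leaf [(2,124),(3,93),(5,1),(6,4)]⟩,
⟨⟨⟨-27,6,-14⟩,⟨-14,-21,18⟩,⟨-6,22,21⟩⟩,true,17,12,.leaf [(0,27),(1,23),(3,9),(4,1)],.leaf [(0,27),(1,23),(3,9),(4,1)]⟩,
⟨⟨⟨27,-6,-14⟩,⟨-14,-21,-18⟩,⟨-6,22,-21⟩⟩,true,17,19,.leaf [(0,155),(1,31),(4,1),(5,5)],.leaf [(0,155),(1,31),(4,1),(5,5)]⟩,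
⟨⟨⟨21,6,22⟩,⟨-14,27,6⟩,⟨-18,-14,21⟩⟩,true,18,4,.leaf [(0,2883),(5,116),(6,97),(14,26)],.leaf [(0,744),(5,40),(6,59),(10,403)]⟩,
⟨⟨⟨-21,-6,22⟩,⟨-14,27,-6⟩,⟨-18,-14,-21⟩⟩,true,18,27,.leaf [(1,279),(3,496),(5,21),(6,8)],.leaf [(1,279),(3,496),(5,21),(6,8)]⟩,
⟨⟨⟨27,-14,6⟩,⟨6,21,22⟩,⟨-14,-18,21⟩⟩,true,19,14,.leaf [(2,93),(3,124),(4,1),(7,4)],.leaf [(2,93),(3,124),(4,1),(7,4)]⟩,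
⟨⟨⟨27,-14,-6⟩,⟨-6,-21,22⟩,⟨-14,-18,-21⟩⟩,true,19,17,.leaf [(0,1),(1,28),(2,6),(4,1)],.leaf [(0,1),(1,28),(2,6),(4,1)]⟩,
⟨⟨⟨21,-14,-18⟩,⟨6,27,-14⟩,⟨22,6,21⟩⟩,true,20,8,.leaf [(3,961),(7,11),(14,8)],.leaf [(3,35),(7,1),(10,8)]⟩,
⟨⟨⟨21,-14,18⟩,⟨-6,-27,-14⟩,⟨22,6,-21⟩⟩,true,20,23,.leaf [(0,93),(1,124),(4,1),(5,4)],.leaf [(0,93),(1,124),(4,1),(5,4)]⟩,
⟨⟨⟨-21,-18,-14⟩,⟨22,-21,-6⟩,⟨-6,-14,27⟩⟩,true,23,11,.leaf [(0,513),(3,576),(18,76),(22,1)],.leaf [(4,63),(5,105),(10,961),(23,1)]⟩,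
⟨⟨⟨21,18,-14⟩,⟨22,-21,6⟩,⟨-6,-14,-27⟩⟩,true,23,20,.leaf [(0,30),(1,20),(2,9),(4,1)],.leaf [(0,30),(1,20),(2,9),(4,1)]⟩,
⟨⟨⟨-5,30,6⟩,⟨6,-5,30⟩,⟨30,6,-5⟩⟩,true,25,5,.leaf [(0,35),(1,24),(4,1)],.leaf [(0,35),(1,24),(4,1)]⟩,
⟨⟨⟨-5,30,-6⟩,⟨6,-5,-30⟩,⟨-30,-6,-5⟩⟩,true,25,26,.leaf [(0,961),(4,11),(7,24)],.leaf [(0,961),(4,11),(7,24)]⟩,
⟨⟨⟨-5,-6,-30⟩,⟨-30,-5,6⟩,⟨-6,30,-5⟩⟩,true,26,6,.leaf [(1,1085),(3,186),(4,36),(5,1)],.leaf [(1,1085),(3,186),(4,36),(5,1)]⟩,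
⟨⟨⟨-5,-6,30⟩,⟨-30,-5,-6⟩,⟨6,-30,-5⟩⟩,true,26,25,.leaf [(1,961),(5,11),(6,24)],.leaf [(1,961),(5,11),(6,24)]⟩,
⟨⟨⟨-21,22,6⟩,⟨18,21,-14⟩,⟨-14,-6,-27⟩⟩,true,27,13,.leaf [(3,489),(5,9),(10,2),(18,50)],.leaf [(3,279),(4,12),(10,124),(15,1)]⟩,
⟨⟨⟨-21,22,-6⟩,⟨-18,-21,-14⟩,⟨-14,-6,27⟩⟩,true,27,18,.leaf [(0,279),(2,496),(4,21),(7,8)],.leaf [(0,279),(2,496),(4,21),(7,8)]⟩]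

theorem primeOk_31 : PrimeOk 31 := primeOk (by norm_num) (by norm_num) (by norm_num) L31
  (by decide +kernel) (by decide +kernel)

def L107 : List Cls := [
⟨⟨⟨9,-98,-42⟩,⟨-98,9,-42⟩,⟨42,42,-89⟩⟩,true,1,31,.leaf [(0,77),(1,47),(2,63),(5,1)],.leaf [(0,77),(1,47),(2,63),(5,1)]⟩,
⟨⟨⟨9,-98,42⟩,⟨-98,9,42⟩,⟨-42,-42,-89⟩⟩,true,1,76,.leaf [(0,56),(1,68),(3,63),(5,1)],.leaf [(0,56),(1,68),(3,63),(5,1)]⟩,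
⟨⟨⟨-39,-78,-62⟩,⟨18,-71,78⟩,⟨-98,18,39⟩⟩,true,2,40,.leaf [(1,3424),(3,9309),(4,96),(5,7)],.leaf [(1,3424),(3,9309),(4,96),(5,7)]⟩,
⟨⟨⟨39,78,-62⟩,⟨18,-71,-78⟩,⟨-98,18,-39⟩⟩,true,2,67,.leaf [(0,24),(2,61),(4,1),(11,16)],.leaf [(0,60),(2,85),(4,1),(10,4)]⟩,
⟨⟨⟨73,78,6⟩,⟨66,-57,-62⟩,⟨-42,46,-87⟩⟩,true,4,25,.leaf [(0,8774),(2,1605),(4,93),(5,68)],.leaf [(0,8774),(2,1605),(4,93),(5,68)]⟩,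
⟨⟨⟨73,78,-6⟩,⟨-66,57,-62⟩,⟨-42,46,87⟩⟩,true,4,82,.leaf [(2,99189),(7,1092),(14,278),(18,1819)],.leaf [(0,105),(2,310),(7,4),(10,81)]⟩,
⟨⟨⟨-105,10,18⟩,⟨10,-57,90⟩,⟨18,90,55⟩⟩,true,5,9,.leaf [(0,67),(1,12),(3,60),(4,1)],.leaf [(0,67),(1,12),(3,60),(4,1)]⟩,
⟨⟨⟨-105,10,-18⟩,⟨10,-57,-90⟩,⟨-18,-90,55⟩⟩,true,5,98,.leaf [(0,2349),(3,864),(18,232),(22,1)],.leaf [(0,37),(3,48),(4,1),(10,30)]⟩,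
⟨⟨⟨-57,-78,46⟩,⟨-66,73,42⟩,⟨-62,-6,-87⟩⟩,true,7,48,.leaf [(0,72),(1,100),(3,33),(5,1)],.leaf [(0,72),(1,100),(3,33),(5,1)]⟩,
⟨⟨⟨57,78,46⟩,⟨-66,73,-42⟩,⟨-62,-6,87⟩⟩,true,7,59,.leaf [(1,28569),(4,860),(7,565),(18,7276)],.leaf [(1,11556),(4,45),(10,2675),(14,14)]⟩,
⟨⟨⟨-39,-98,18⟩,⟨-62,39,78⟩,⟨-78,18,-71⟩⟩,true,8,16,.leaf [(0,116),(1,83),(3,6),(5,1)],.leaf [(0,116),(1,83),(3,6),(5,1)]⟩,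
⟨⟨⟨-39,-98,-18⟩,⟨-62,39,-78⟩,⟨78,-18,-71⟩⟩,true,8,91,.leaf [(0,8),(1,53),(2,72),(5,1)],.leaf [(0,8),(1,53),(2,72),(5,1)]⟩,
⟨⟨⟨-105,18,10⟩,⟨18,55,90⟩,⟨10,90,-57⟩⟩,true,9,5,.leaf [(0,107),(1,214),(4,1),(5,2)],.leaf [(0,107),(1,214),(4,1),(5,2)]⟩,
⟨⟨⟨105,-18,10⟩,⟨18,55,-90⟩,⟨10,90,57⟩⟩,true,9,102,.L (.L (.leaf [(1,598023),(7,2619),(30,92),(34,5564)]) (.leaf [(0,105),(1,133),(2,33),(5,1)]) (.leaf [(0,696),(5,9),(10,56),(19,29)])) (.leaf [(0,118),(1,108),(2,93),(4,1)]) (.leaf [(0,199),(3,293),(5,3),(10,31)]),.leaf [(0,34561),(5,374),(7,26),(10,3959)]⟩,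
⟨⟨⟨-87,6,-62⟩,⟨-42,73,66⟩,⟨46,78,-57⟩⟩,true,11,29,.leaf [(1,7276),(3,1605),(4,72),(5,67)],.leaf [(1,7276),(3,1605),(4,72),(5,67)]⟩,
⟨⟨⟨87,-6,-62⟩,⟨-42,73,-66⟩,⟨46,78,57⟩⟩,true,11,78,.leaf [(3,4280),(4,35),(14,4),(18,749)],.leaf [(0,131),(2,86),(5,4),(10,119)]⟩,
⟨⟨⟨55,18,-90⟩,⟨-18,105,10⟩,⟨90,10,57⟩⟩,true,12,47,.leaf [(1,11449),(4,7),(7,117),(14,21)],.leaf [(1,42372),(7,276),(10,9737),(22,7)]⟩,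
⟨⟨⟨55,18,90⟩,⟨18,-105,10⟩,⟨90,10,-57⟩⟩,true,12,60,.leaf [(0,4601),(2,12840),(4,147),(5,80)],.leaf [(0,4601),(2,12840),(4,147),(5,80)]⟩,
⟨⟨⟨-87,46,-42⟩,⟨-62,-57,66⟩,⟨6,78,73⟩⟩,true,13,30,.leaf [(0,103),(1,93),(3,15),(4,1)],.leaf [(0,103),(1,93),(3,15),(4,1)]⟩,
⟨⟨⟨-87,46,42⟩,⟨-62,-57,-66⟩,⟨-6,-78,73⟩⟩,true,13,77,.L (.leaf [(5,7695),(14,2184),(19,45796),(23,77)]) (.leaf [(0,93),(1,16),(2,72),(4,1)]) (.leaf [(0,209),(3,268),(4,3),(10,38)]),.leaf [(0,5885),(4,80),(6,39),(10,1926)]⟩,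
⟨⟨⟨-39,18,-98⟩,⟨-78,-71,18⟩,⟨-62,78,39⟩⟩,true,16,8,.leaf [(0,83),(1,116),(2,6),(4,1)],.leaf [(0,83),(1,116),(2,6),(4,1)]⟩,
⟨⟨⟨39,-18,-98⟩,⟨-78,-71,-18⟩,⟨-62,78,-39⟩⟩,true,16,99,.leaf [(0,8),(1,80),(2,45),(4,1)],.leaf [(0,8),(1,80),(2,45),(4,1)]⟩,
⟨⟨⟨-71,78,-18⟩,⟨-18,-39,-98⟩,⟨-78,-62,39⟩⟩,true,20,53,.leaf [(0,6561),(3,5427),(18,1129),(23,1)],.leaf [(0,65),(2,32),(4,1),(10,20)]⟩,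
⟨⟨⟨-71,78,18⟩,⟨18,39,-98⟩,⟨-78,-62,-39⟩⟩,true,20,54,.R (.leaf [(0,108),(3,117),(18,20),(27,1)]) (.leaf [(0,189),(3,144),(18,32),(26,1)]) (.leaf [(0,6939),(3,2961),(18,1219),(31,1)]),.leaf [(3,14445),(4,297),(10,11663),(15,5)]⟩,
⟨⟨⟨73,6,78⟩,⟨-42,-87,46⟩,⟨66,-62,-57⟩⟩,true,25,4,.leaf [(0,107),(1,856),(4,7),(5,8)],.leaf [(0,107),(1,856),(4,7),(5,8)]⟩,
⟨⟨⟨73,6,-78⟩,⟨42,87,46⟩,⟨66,-62,57⟩⟩,true,25,103,.leaf [(1,104),(3,840),(4,5),(18,81)],.leaf [(1,621),(3,180),(10,280),(15,1)]⟩,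
⟨⟨⟨-57,66,-62⟩,⟨78,73,6⟩,⟨46,-42,-87⟩⟩,true,27,33,.leaf [(3,504),(10,7),(14,1),(18,60)],.leaf [(1,540),(3,396),(10,307),(14,1)]⟩,
⟨⟨⟨57,-66,-62⟩,⟨78,73,-6⟩,⟨46,-42,87⟩⟩,true,27,74,.leaf [(0,93),(2,15),(3,25),(7,1)],.leaf [(0,93),(2,15),(3,25),(7,1)]⟩,
⟨⟨⟨-87,-62,6⟩,⟨46,-57,78⟩,⟨-42,66,73⟩⟩,true,29,11,.leaf [(0,856),(1,107),(4,8),(5,7)],.leaf [(0,856),(1,107),(4,8),(5,7)]⟩,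
⟨⟨⟨-87,-62,-6⟩,⟨46,-57,-78⟩,⟨42,-66,73⟩⟩,true,29,96,.leaf [(4,3),(5,4),(6,2),(14,1)],.leaf [(10,7704),(22,96),(26,3317),(30,1)]⟩,
⟨⟨⟨-87,-42,46⟩,⟨6,73,78⟩,⟨-62,66,-57⟩⟩,true,30,13,.leaf [(0,749),(1,856),(4,1),(5,8)],.leaf [(0,749),(1,856),(4,1),(5,8)]⟩,
⟨⟨⟨87,42,46⟩,⟨6,73,-78⟩,⟨-62,66,57⟩⟩,true,30,94,.leaf [(3,90201),(5,981),(14,316),(18,4708)],.leaf [(3,52965),(5,459),(10,13696),(15,10)]⟩,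
⟨⟨⟨9,-42,-98⟩,⟨42,-89,42⟩,⟨-98,-42,9⟩⟩,true,31,1,.leaf [(0,47),(1,77),(3,63),(4,1)],.leaf [(0,47),(1,77),(3,63),(4,1)]⟩,
⟨⟨⟨-9,42,-98⟩,⟨42,-89,-42⟩,⟨-98,-42,-9⟩⟩,true,31,106,.leaf [(0,63),(2,68),(3,56),(4,1)],.leaf [(0,63),(2,68),(3,56),(4,1)]⟩,
⟨⟨⟨-57,-62,66⟩,⟨46,-87,-42⟩,⟨78,6,73⟩⟩,true,33,27,.leaf [(2,103683),(5,1122),(15,26),(18,3959)],.leaf [(2,9523),(4,141),(5,148),(10,4066)]⟩,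
⟨⟨⟨-57,-62,-66⟩,⟨46,-87,42⟩,⟨-78,-6,73⟩⟩,true,33,80,.leaf [(0,25),(1,15),(3,93),(4,1)],.leaf [(0,25),(1,15),(3,93),(4,1)]⟩,
⟨⟨⟨-89,42,42⟩,⟨-42,9,-98⟩,⟨-42,-98,9⟩⟩,true,38,38,.leaf [(0,8667),(6,27),(18,428),(23,8)],.leaf [(3,34347),(4,405),(15,187),(22,11)]⟩,
⟨⟨⟨-89,42,-42⟩,⟨42,-9,-98⟩,⟨-42,-98,-9⟩⟩,true,38,69,.leaf [(3,65163),(4,819),(15,289),(18,1819)],.leaf [(0,17),(3,80),(4,1),(10,34)]⟩,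
⟨⟨⟨73,-42,-66⟩,⟨-6,87,-62⟩,⟨78,46,57⟩⟩,true,39,46,.leaf [(1,963),(5,9),(11,1070),(15,8)],.leaf [(1,16585),(5,65),(7,68),(10,5992)]⟩,
⟨⟨⟨73,-42,66⟩,⟨6,-87,-62⟩,⟨78,46,-57⟩⟩,true,39,61,.leaf [(0,88),(1,108),(3,15),(5,1)],.leaf [(0,88),(1,108),(3,15),(5,1)]⟩,
⟨⟨⟨-39,-62,-78⟩,⟨-98,39,18⟩,⟨18,78,-71⟩⟩,true,40,2,.leaf [(1,1712),(2,321),(4,19),(5,16)],.leaf [(1,1712),(2,321),(4,19),(5,16)]⟩,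
⟨⟨⟨-39,-62,78⟩,⟨-98,39,-18⟩,⟨-18,-78,-71⟩⟩,true,40,105,.leaf [(1,45),(3,40),(5,1),(10,16)],.leaf [(1,33705),(3,24824),(5,413),(14,16)]⟩,
⟨⟨⟨-57,-90,10⟩,⟨-90,55,-18⟩,⟨10,-18,-105⟩⟩,true,41,43,.leaf [(1,55),(2,72),(3,60),(5,1)],.leaf [(1,55),(2,72),(3,60),(5,1)]⟩,
⟨⟨⟨57,90,10⟩,⟨-90,55,18⟩,⟨10,-18,105⟩⟩,true,41,64,.leaf [(1,85386),(4,995),(7,610),(18,1819)],.leaf [(1,104004),(4,558),(10,23219),(14,17)]⟩,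
⟨⟨⟨-57,10,-90⟩,⟨10,-105,-18⟩,⟨-90,-18,55⟩⟩,true,43,41,.leaf [(0,55),(2,60),(3,72),(4,1)],.leaf [(0,55),(2,60),(3,72),(4,1)]⟩,
⟨⟨⟨-57,10,90⟩,⟨10,-105,18⟩,⟨90,18,55⟩⟩,true,43,66,.leaf [(2,80785),(4,558),(5,940),(18,1819)],.leaf [(2,28462),(4,243),(5,292),(10,1819)]⟩,
⟨⟨⟨73,-66,-42⟩,⟨78,57,46⟩,⟨-6,-62,87⟩⟩,true,46,39,.leaf [(0,963),(4,9),(10,1070),(14,8)],.leaf [(3,564),(6,9),(10,166),(26,17)]⟩,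
⟨⟨⟨73,-66,42⟩,⟨-78,-57,46⟩,⟨-6,-62,-87⟩⟩,true,46,68,.leaf [(1,23),(2,4),(3,106),(5,1)],.leaf [(1,23),(2,4),(3,106),(5,1)]⟩,
⟨⟨⟨55,-90,18⟩,⟨90,57,10⟩,⟨-18,10,105⟩⟩,true,47,12,.leaf [(0,11449),(5,7),(6,117),(15,21)],.leaf [(0,12),(3,112),(6,1),(10,21)]⟩,
⟨⟨⟨55,-90,-18⟩,⟨-90,-57,10⟩,⟨-18,10,-105⟩⟩,true,47,95,.leaf [(1,2033),(2,642),(4,26),(5,15)],.leaf [(1,2033),(2,642),(4,26),(5,15)]⟩,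
⟨⟨⟨-57,46,-78⟩,⟨-62,-87,-6⟩,⟨-66,42,73⟩⟩,true,48,7,.leaf [(0,100),(1,72),(2,33),(4,1)],.leaf [(0,100),(1,72),(2,33),(4,1)]⟩,
⟨⟨⟨-57,46,78⟩,⟨-62,-87,6⟩,⟨66,-42,73⟩⟩,true,48,100,.leaf [(2,11449),(4,183),(5,160),(14,34)],.leaf [(2,31993),(4,417),(5,184),(10,7276)]⟩,
⟨⟨⟨-71,-18,78⟩,⟨-78,39,-62⟩,⟨-18,-98,-39⟩⟩,true,53,20,.leaf [(1,19581),(5,345),(14,76),(18,428)],.leaf [(1,216),(3,771),(10,448),(23,1)]⟩,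
⟨⟨⟨-71,-18,-78⟩,⟨78,-39,-62⟩,⟨-18,-98,39⟩⟩,true,53,87,.leaf [(4,216),(6,771),(15,448),(18,11449)],.leaf [(0,2033),(4,25),(6,64),(10,2140)]⟩,
⟨⟨⟨-71,18,78⟩,⟨-78,-39,-62⟩,⟨18,-98,39⟩⟩,true,54,20,.leaf [(1,192),(2,245),(6,5),(18,28)],.leaf [(1,40),(2,12),(4,1),(10,45)]⟩,
⟨⟨⟨-71,18,-78⟩,⟨78,39,-62⟩,⟨18,-98,-39⟩⟩,true,54,87,.R (.leaf [(0,108),(3,117),(18,20),(27,1)]) (.leaf [(0,189),(3,144),(18,32),(26,1)]) (.leaf [(3,110745),(7,549),(18,8132),(30,4)]),.leaf [(1,3745),(3,1284),(4,40),(15,21)]⟩,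
⟨⟨⟨57,46,78⟩,⟨-62,87,-6⟩,⟨-66,-42,73⟩⟩,true,59,7,.leaf [(0,459),(6,3),(11,40),(18,44)],.leaf [(0,13161),(5,128),(6,211),(10,3638)]⟩,
⟨⟨⟨57,46,-78⟩,⟨-62,87,6⟩,⟨66,42,73⟩⟩,true,59,100,.leaf [(1,11556),(2,749),(4,105),(6,38)],.leaf [(1,11556),(2,749),(4,105),(6,38)]⟩,
⟨⟨⟨55,90,18⟩,⟨90,-57,10⟩,⟨18,10,-105⟩⟩,true,60,12,.leaf [(0,11021),(2,6420),(4,123),(5,8)],.leaf [(0,11021),(2,6420),(4,123),(5,8)]⟩,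
⟨⟨⟨55,90,-18⟩,⟨-90,57,10⟩,⟨18,10,105⟩⟩,true,60,95,.leaf [(2,10914),(4,171),(15,32),(18,107)],.leaf [(1,33),(2,70),(7,1),(10,30)]⟩,
⟨⟨⟨73,66,-42⟩,⟨78,-57,46⟩,⟨6,-62,-87⟩⟩,true,61,39,.leaf [(0,108),(1,88),(2,15),(4,1)],.leaf [(0,108),(1,88),(2,15),(4,1)]⟩,
⟨⟨⟨73,66,42⟩,⟨-78,57,46⟩,⟨6,-62,87⟩⟩,true,61,68,.leaf [(2,510),(4,9),(10,79),(18,70)],.leaf [(1,1284),(4,15),(10,535),(15,4)]⟩,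
⟨⟨⟨57,10,90⟩,⟨10,105,-18⟩,⟨-90,18,55⟩⟩,true,64,41,.leaf [(0,30174),(5,148),(6,173),(18,1819)],.leaf [(0,33063),(5,364),(6,278),(10,1819)]⟩,
⟨⟨⟨57,10,-90⟩,⟨10,105,18⟩,⟨90,-18,55⟩⟩,true,64,66,.leaf [(1,12),(2,115),(3,60),(6,1)],.leaf [(1,12),(2,115),(3,60),(6,1)]⟩,
⟨⟨⟨-57,90,10⟩,⟨90,55,18⟩,⟨10,18,-105⟩⟩,true,66,43,.leaf [(3,34775),(4,203),(5,225),(18,1819)],.leaf [(3,10058),(4,89),(5,18),(10,1819)]⟩,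
⟨⟨⟨57,-90,10⟩,⟨90,55,-18⟩,⟨10,18,105⟩⟩,true,66,64,.leaf [(0,12),(2,60),(3,115),(7,1)],.leaf [(0,12),(2,60),(3,115),(7,1)]⟩,
⟨⟨⟨39,-62,78⟩,⟨-98,-39,18⟩,⟨18,-78,-71⟩⟩,true,67,2,.leaf [(1,24),(3,61),(5,1),(10,16)],.leaf [(3,34347),(5,135),(15,40),(22,16)]⟩,
⟨⟨⟨39,-62,-78⟩,⟨-98,-39,-18⟩,⟨-18,78,-71⟩⟩,true,67,105,.leaf [(1,1070),(2,963),(4,19),(5,10)],.leaf [(1,1070),(2,963),(4,19),(5,10)]⟩,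
⟨⟨⟨73,42,-66⟩,⟨-6,-87,-62⟩,⟨-78,46,-57⟩⟩,true,68,46,.leaf [(0,27),(1,4),(2,102),(4,1)],.leaf [(0,27),(1,4),(2,102),(4,1)]⟩,
⟨⟨⟨73,42,66⟩,⟨6,87,-62⟩,⟨-78,46,57⟩⟩,true,68,61,.leaf [(0,1269),(3,2448),(18,296),(22,1)],.leaf [(3,17869),(5,156),(7,61),(10,5992)]⟩,
⟨⟨⟨-89,-42,42⟩,⟨-42,-9,-98⟩,⟨42,-98,-9⟩⟩,true,69,38,.leaf [(2,146697),(5,2556),(14,782),(18,1819)],.L (.leaf [(3,34347),(5,1683),(14,97),(38,17)]) (.leaf [(0,83),(1,80),(2,120),(4,1)]) (.leaf [(1,2907),(7,15),(10,995),(18,17)])⟩,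
⟨⟨⟨-89,-42,-42⟩,⟨42,9,-98⟩,⟨42,-98,9⟩⟩,true,69,69,.leaf [(0,963),(5,261),(18,3103),(23,1)],.leaf [(1,43335),(6,519),(10,27071),(23,11)]⟩,
⟨⟨⟨57,-62,-66⟩,⟨46,87,-42⟩,⟨78,-6,73⟩⟩,true,74,27,.leaf [(1,93),(2,25),(3,15),(6,1)],.leaf [(1,93),(2,25),(3,15),(6,1)]⟩,
⟨⟨⟨57,-62,66⟩,⟨46,87,42⟩,⟨-78,6,73⟩⟩,true,74,80,.L (.L (.leaf [(4,84564),(15,35163),(27,239359),(34,5564)]) (.leaf [(1,176),(2,112),(5,3),(11,77)]) (.leaf [(1,180),(3,7),(5,1),(10,56)])) (.leaf [(1,17227),(4,204),(5,49),(11,3210)]) (.leaf [(0,72),(1,127),(3,60),(5,1)]),.leaf [(0,8346),(5,128),(6,67),(10,2033)]⟩,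
⟨⟨⟨9,42,-98⟩,⟨-42,-89,-42⟩,⟨-98,42,9⟩⟩,true,76,1,.leaf [(0,68),(1,56),(2,63),(4,1)],.leaf [(0,68),(1,56),(2,63),(4,1)]⟩,
⟨⟨⟨-9,-42,-98⟩,⟨-42,-89,42⟩,⟨-98,42,-9⟩⟩,true,76,106,.leaf [(1,63),(2,47),(3,77),(4,1)],.leaf [(1,63),(2,47),(3,77),(4,1)]⟩,
⟨⟨⟨-87,42,46⟩,⟨-6,73,-78⟩,⟨-62,-66,-57⟩⟩,true,77,13,.leaf [(2,101436),(5,1008),(14,545),(18,749)],.leaf [(1,141561),(7,729),(10,35096),(15,44)]⟩,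
⟨⟨⟨87,-42,46⟩,⟨-6,73,78⟩,⟨-62,-66,57⟩⟩,true,77,94,.leaf [(3,11449),(4,72),(5,105),(7,100)],.leaf [(3,11449),(4,72),(5,105),(7,100)]⟩,
⟨⟨⟨87,-62,-6⟩,⟨46,57,78⟩,⟨-42,-66,73⟩⟩,true,78,11,.leaf [(2,60348),(4,1197),(15,496),(18,5243)],.leaf [(5,31104),(10,775215),(26,81320),(30,133)]⟩,
⟨⟨⟨87,-62,6⟩,⟨46,57,-78⟩,⟨42,66,73⟩⟩,true,78,96,.leaf [(0,1605),(2,7276),(5,72),(6,67)],.leaf [(0,1605),(2,7276),(5,72),(6,67)]⟩,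
⟨⟨⟨-57,-66,-62⟩,⟨-78,73,-6⟩,⟨46,42,-87⟩⟩,true,80,33,.leaf [(0,15),(1,25),(2,93),(5,1)],.leaf [(0,15),(1,25),(2,93),(5,1)]⟩,
⟨⟨⟨57,66,-62⟩,⟨-78,73,6⟩,⟨46,42,87⟩⟩,true,80,74,.leaf [(1,95979),(4,1130),(7,115),(18,4066)],.leaf [(1,103041),(4,696),(14,56),(23,29)]⟩,
⟨⟨⟨73,-6,78⟩,⟨-42,87,46⟩,⟨-66,-62,57⟩⟩,true,82,4,.leaf [(3,312012),(6,1674),(18,23219),(22,17)],.leaf [(1,675),(3,141),(10,155),(14,1)]⟩,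
⟨⟨⟨73,-6,-78⟩,⟨42,-87,46⟩,⟨-66,-62,-57⟩⟩,true,82,103,.leaf [(0,81),(1,118),(3,6),(4,1)],.leaf [(0,81),(1,118),(3,6),(4,1)]⟩,
⟨⟨⟨-71,-78,-18⟩,⟨-18,39,-98⟩,⟨78,-62,-39⟩⟩,true,87,53,.leaf [(2,77682),(5,1440),(14,217),(18,5243)],.leaf [(1,36915),(5,183),(10,8132),(22,4)]⟩,
⟨⟨⟨-71,-78,18⟩,⟨18,-39,-98⟩,⟨78,-62,39⟩⟩,true,87,54,.leaf [(1,98),(2,545),(5,10),(18,77)],.leaf [(0,12),(2,85),(6,1),(10,20)]⟩,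
⟨⟨⟨-39,-18,-98⟩,⟨78,-71,-18⟩,⟨-62,-78,39⟩⟩,true,91,8,.leaf [(0,53),(1,8),(3,72),(4,1)],.leaf [(0,53),(1,8),(3,72),(4,1)]⟩,
⟨⟨⟨39,18,-98⟩,⟨78,-71,18⟩,⟨-62,-78,-39⟩⟩,true,91,99,.leaf [(0,89),(1,83),(3,33),(4,1)],.leaf [(0,89),(1,83),(3,33),(4,1)]⟩,
⟨⟨⟨87,46,42⟩,⟨-62,57,66⟩,⟨6,-78,73⟩⟩,true,94,30,.leaf [(2,65163),(4,1197),(15,256),(18,2354)],.leaf [(2,2782),(4,6),(6,37),(10,963)]⟩,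
⟨⟨⟨87,46,-42⟩,⟨-62,57,-66⟩,⟨-6,78,73⟩⟩,true,94,77,.leaf [(2,11449),(4,105),(5,72),(6,100)],.leaf [(2,11449),(4,105),(5,72),(6,100)]⟩,
⟨⟨⟨55,-18,-90⟩,⟨-18,-105,10⟩,⟨-90,10,-57⟩⟩,true,95,47,.leaf [(1,43),(2,87),(3,57),(4,1)],.leaf [(1,43),(2,87),(3,57),(4,1)]⟩,
⟨⟨⟨55,-18,90⟩,⟨18,105,10⟩,⟨-90,10,57⟩⟩,true,95,60,.leaf [(3,29532),(5,396),(14,91),(18,749)],.leaf [(0,7),(3,117),(5,1),(10,21)]⟩,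
⟨⟨⟨-87,-6,-62⟩,⟨42,73,-66⟩,⟨46,-78,-57⟩⟩,true,96,29,.leaf [(4,4),(5,3),(7,2),(15,1)],.leaf [(1,33),(2,46),(7,1),(10,38)]⟩,
⟨⟨⟨87,6,-62⟩,⟨42,73,66⟩,⟨46,-78,57⟩⟩,true,96,78,.leaf [(1,1605),(3,7276),(4,72),(7,67)],.leaf [(1,1605),(3,7276),(4,72),(7,67)]⟩,
⟨⟨⟨-105,-18,10⟩,⟨-18,55,-90⟩,⟨10,-90,-57⟩⟩,true,98,5,.leaf [(2,89131),(5,402),(7,910),(18,3959)],.leaf [(1,21),(2,91),(7,1),(10,17)]⟩,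
⟨⟨⟨105,18,10⟩,⟨-18,55,90⟩,⟨10,-90,57⟩⟩,true,98,102,.leaf [(2,107),(3,214),(4,1),(7,2)],.leaf [(2,107),(3,214),(4,1),(7,2)]⟩,
⟨⟨⟨39,-98,-18⟩,⟨-62,-39,78⟩,⟨-78,-18,-71⟩⟩,true,99,16,.leaf [(2,749),(3,1712),(4,9),(5,16)],.leaf [(2,749),(3,1712),(4,9),(5,16)]⟩,
⟨⟨⟨39,-98,18⟩,⟨-62,-39,-78⟩,⟨78,18,-71⟩⟩,true,99,91,.leaf [(0,83),(1,89),(2,33),(5,1)],.leaf [(0,83),(1,89),(2,33),(5,1)]⟩,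
⟨⟨⟨-57,78,46⟩,⟨66,73,-42⟩,⟨-62,6,-87⟩⟩,true,100,48,.leaf [(3,11449),(4,160),(5,183),(15,34)],.L (.L (.leaf [(2,67041),(5,324),(26,2554),(42,11)]) (.leaf [(1,17227),(4,204),(5,49),(11,3210)]) (.leaf [(0,72),(1,127),(3,60),(5,1)])) (.leaf [(1,140),(2,175),(4,3),(11,68)]) (.leaf [(0,11449),(4,133),(5,105),(7,33)])⟩,
⟨⟨⟨57,-78,46⟩,⟨66,73,42⟩,⟨-62,6,87⟩⟩,true,100,59,.leaf [(0,11556),(3,749),(5,105),(7,38)],.leaf [(0,11556),(3,749),(5,105),(7,38)]⟩,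
⟨⟨⟨105,10,-18⟩,⟨10,57,90⟩,⟨18,-90,55⟩⟩,true,102,9,.leaf [(2,204477),(4,3366),(15,1148),(18,1819)],.leaf [(1,168),(2,7),(6,1),(10,60)]⟩,
⟨⟨⟨105,10,18⟩,⟨10,57,-90⟩,⟨-18,90,55⟩⟩,true,102,98,.leaf [(2,214),(3,107),(5,1),(6,2)],.leaf [(2,214),(3,107),(5,1),(6,2)]⟩,
⟨⟨⟨73,-78,6⟩,⟨66,57,-62⟩,⟨42,46,87⟩⟩,true,103,25,.leaf [(0,639),(2,30),(14,1),(18,70)],.leaf [(0,229),(2,186),(5,4),(10,81)]⟩,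
⟨⟨⟨73,-78,-6⟩,⟨-66,-57,-62⟩,⟨42,46,-87⟩⟩,true,103,82,.leaf [(0,118),(1,81),(2,6),(5,1)],.leaf [(0,118),(1,81),(2,6),(5,1)]⟩,
⟨⟨⟨-39,78,-62⟩,⟨-18,-71,-78⟩,⟨-98,-18,39⟩⟩,true,105,40,.leaf [(0,45),(2,40),(4,1),(11,16)],.leaf [(0,81),(2,64),(4,1),(10,4)]⟩,
⟨⟨⟨39,-78,-62⟩,⟨-18,-71,78⟩,⟨-98,-18,-39⟩⟩,true,105,67,.leaf [(1,5350),(3,2889),(4,60),(5,7)],.leaf [(1,5350),(3,2889),(4,60),(5,7)]⟩,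
⟨⟨⟨-9,-98,42⟩,⟨-98,-9,-42⟩,⟨42,-42,-89⟩⟩,true,106,31,.leaf [(1,63),(2,56),(3,68),(5,1)],.leaf [(1,63),(2,56),(3,68),(5,1)]⟩,
⟨⟨⟨-9,-98,-42⟩,⟨-98,-9,42⟩,⟨-42,42,-89⟩⟩,true,106,76,.leaf [(1,12733),(3,3210),(4,140),(5,89)],.leaf [(1,12733),(3,3210),(4,140),(5,89)]⟩]

theorem primeOk_107 : PrimeOk 107 := primeOk (by norm_num) (by norm_num) (by norm_num) L107
  (by decide +kernel) (by decide +kernel)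

def L167 : List Cls := [
⟨⟨⟨51,102,-122⟩,⟨18,-131,-102⟩,⟨-158,18,-51⟩⟩,true,2,50,.leaf [(0,90),(2,143),(3,20),(4,1)],.leaf [(0,90),(2,143),(3,20),(4,1)]⟩,
⟨⟨⟨-51,-102,-122⟩,⟨18,-131,102⟩,⟨-158,18,51⟩⟩,true,2,117,.leaf [(0,29),(1,92),(3,132),(4,1)],.leaf [(0,29),(1,92),(3,132),(4,1)]⟩,
⟨⟨⟨3,-158,54⟩,⟨166,-3,-18⟩,⟨18,54,157⟩⟩,true,3,18,.leaf [(0,261),(5,3),(11,145),(18,41)],.leaf [(0,291),(2,454),(5,4),(10,103)]⟩,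
⟨⟨⟨3,-158,-54⟩,⟨166,-3,18⟩,⟨-18,-54,157⟩⟩,true,3,149,.R (.leaf [(6,3186),(18,70307),(22,239),(27,668)]) (.leaf [(6,1323),(18,29225),(22,95),(26,167)]) (.leaf [(6,1269),(18,27889),(22,91),(30,1)]),.leaf [(1,144),(3,61),(5,1),(10,104)]⟩,
⟨⟨⟨67,-66,138⟩,⟨-102,93,94⟩,⟨-114,-122,-3⟩⟩,true,4,22,.leaf [(1,66),(3,58),(6,1),(10,27)],.leaf [(1,6237),(3,1260),(23,5),(26,256)]⟩,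
⟨⟨⟨67,-66,-138⟩,⟨102,-93,94⟩,⟨-114,-122,3⟩⟩,true,4,145,.leaf [(1,85),(2,27),(3,147),(4,1)],.leaf [(1,85),(2,27),(3,147),(4,1)]⟩,
⟨⟨⟨45,58,150⟩,⟨-158,45,30⟩,⟨-30,-150,67⟩⟩,true,5,59,.leaf [(4,3),(5,4),(6,2),(14,1)],.leaf [(0,6179),(4,5),(6,108),(10,5010)]⟩,
⟨⟨⟨45,58,-150⟩,⟨-158,45,-30⟩,⟨30,150,67⟩⟩,true,5,108,.leaf [(2,27889),(4,198),(5,180),(6,85)],.leaf [(2,27889),(4,198),(5,180),(6,85)]⟩,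
⟨⟨⟨-3,-18,166⟩,⟨54,157,18⟩,⟨-158,54,3⟩⟩,true,6,56,.leaf [(0,72),(1,40),(3,123),(5,1)],.leaf [(0,72),(1,40),(3,123),(5,1)]⟩,
⟨⟨⟨3,18,166⟩,⟨54,157,-18⟩,⟨-158,54,-3⟩⟩,true,6,111,.leaf [(0,36),(1,22),(3,147),(5,1)],.leaf [(0,36),(1,22),(3,147),(5,1)]⟩,
⟨⟨⟨67,102,114⟩,⟨66,93,-122⟩,⟨-138,94,-3⟩⟩,true,9,69,.leaf [(0,27889),(5,31),(7,93),(14,27)],.leaf [(0,76987),(5,250),(7,426),(10,4509)]⟩,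
⟨⟨⟨67,102,-114⟩,⟨-66,-93,-122⟩,⟨-138,94,3⟩⟩,true,9,98,.leaf [(0,4509),(2,18704),(4,111),(7,8)],.leaf [(0,4509),(2,18704),(4,111),(7,8)]⟩,
⟨⟨⟨51,-158,18⟩,⟨-122,-51,-102⟩,⟨102,18,-131⟩⟩,true,10,20,.leaf [(0,137),(1,149),(2,39),(5,1)],.leaf [(0,137),(1,149),(2,39),(5,1)]⟩,
⟨⟨⟨51,-158,-18⟩,⟨-122,-51,102⟩,⟨-102,-18,-131⟩⟩,true,10,147,.leaf [(2,1837),(3,3340),(4,9),(5,20)],.leaf [(2,1837),(3,3340),(4,9),(5,20)]⟩,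
⟨⟨⟨-77,78,-126⟩,⟨54,147,58⟩,⟨138,-14,-93⟩⟩,true,12,32,.leaf [(1,27889),(4,4),(5,93),(7,138)],.leaf [(1,27889),(4,4),(5,93),(7,138)]⟩,
⟨⟨⟨-77,78,126⟩,⟨-54,-147,58⟩,⟨138,-14,93⟩⟩,true,12,135,.leaf [(2,27889),(4,163),(5,124),(6,38)],.leaf [(2,27889),(4,163),(5,124),(6,38)]⟩,
⟨⟨⟨-147,-54,58⟩,⟨78,-77,126⟩,⟨-14,138,93⟩⟩,true,14,53,.leaf [(0,16199),(3,7515),(4,145),(5,67)],.leaf [(0,16199),(3,7515),(4,145),(5,67)]⟩,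
⟨⟨⟨147,54,58⟩,⟨78,-77,-126⟩,⟨-14,138,-93⟩⟩,true,14,114,.leaf [(0,5177),(1,1336),(4,19),(5,32)],.leaf [(0,5177),(1,1336),(4,19),(5,32)]⟩,
⟨⟨⟨3,-122,114⟩,⟨94,-93,-102⟩,⟨138,66,67⟩⟩,true,15,38,.leaf [(0,3),(2,185),(3,47),(5,1)],.leaf [(0,3),(2,185),(3,47),(5,1)]⟩,
⟨⟨⟨3,-122,-114⟩,⟨94,-93,102⟩,⟨-138,-66,67⟩⟩,true,15,129,.leaf [(3,12024),(4,108),(10,2839),(14,1)],.leaf [(3,471),(5,9),(10,539),(26,7)]⟩,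
⟨⟨⟨-147,-14,78⟩,⟨58,93,126⟩,⟨-54,138,-77⟩⟩,true,16,54,.leaf [(0,501),(1,668),(4,1),(5,4)],.leaf [(0,501),(1,668),(4,1),(5,4)]⟩,
⟨⟨⟨-147,-14,-78⟩,⟨58,93,-126⟩,⟨54,-138,-77⟩⟩,true,16,113,.leaf [(0,79),(1,97),(3,107),(6,1)],.leaf [(0,79),(1,97),(3,107),(6,1)]⟩,
⟨⟨⟨67,-30,150⟩,⟨-150,-45,58⟩,⟨30,-158,-45⟩⟩,true,17,82,.leaf [(1,27889),(4,100),(5,75),(6,108)],.leaf [(1,27889),(4,100),(5,75),(6,108)]⟩,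
⟨⟨⟨67,-30,-150⟩,⟨150,45,58⟩,⟨30,-158,45⟩⟩,true,17,85,.leaf [(4,2241),(10,54442),(15,724),(18,15197)],.leaf [(1,1485),(3,1131),(10,557),(14,1)]⟩,
⟨⟨⟨3,54,-158⟩,⟨18,157,54⟩,⟨166,-18,-3⟩⟩,true,18,3,.leaf [(3,672),(4,3),(10,44),(18,53)],.leaf [(1,432),(3,792),(10,283),(14,1)]⟩,
⟨⟨⟨-3,-54,-158⟩,⟨18,157,-54⟩,⟨166,-18,3⟩⟩,true,18,164,.L (.L (.leaf [(0,133),(1,180),(3,12),(4,1)]) (.leaf [(0,137),(1,215),(2,45),(5,1)]) (.L (.leaf [(0,4509),(2,18704),(4,111),(7,8)]) (.leaf [(0,157),(1,117),(2,165),(5,1)]) (.leaf [(0,196),(1,78),(3,189),(5,1)]))) (.leaf [(0,8684),(1,13527),(4,92),(15,9)]) (.leaf [(0,13),(1,168),(3,48),(4,1)]),.leaf [(2,1837),(5,45),(7,61),(10,4175)]⟩,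
⟨⟨⟨51,18,-158⟩,⟨102,-131,18⟩,⟨-122,-102,-51⟩⟩,true,20,10,.leaf [(0,149),(1,137),(3,39),(4,1)],.leaf [(0,149),(1,137),(3,39),(4,1)]⟩,
⟨⟨⟨-51,-18,-158⟩,⟨102,-131,-18⟩,⟨-122,-102,51⟩⟩,true,20,157,.leaf [(0,113),(1,50),(3,90),(4,1)],.leaf [(0,113),(1,50),(3,90),(4,1)]⟩,
⟨⟨⟨67,138,-66⟩,⟨-114,-3,-122⟩,⟨-102,94,93⟩⟩,true,22,4,.leaf [(0,66),(2,58),(7,1),(11,27)],.leaf [(0,507),(2,394),(7,4),(10,27)]⟩,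
⟨⟨⟨67,138,66⟩,⟨114,3,-122⟩,⟨-102,94,-93⟩⟩,true,22,163,.leaf [(0,27889),(4,111),(5,118),(7,78)],.leaf [(0,27889),(4,111),(5,118),(7,78)]⟩,
⟨⟨⟨-131,-102,-18⟩,⟨-18,51,-158⟩,⟨102,-122,-51⟩⟩,true,25,83,.leaf [(1,27889),(5,98),(7,20),(15,35)],.leaf [(1,102204),(6,591),(10,58951),(14,86)]⟩,
⟨⟨⟨-131,-102,18⟩,⟨18,-51,-158⟩,⟨102,-122,51⟩⟩,true,25,84,.leaf [(1,242),(2,515),(5,10),(18,143)],.leaf [(1,60),(2,103),(6,1),(10,50)]⟩,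
⟨⟨⟨157,54,18⟩,⟨-18,-3,166⟩,⟨54,-158,3⟩⟩,true,28,65,.leaf [(0,15),(1,148),(2,42),(4,1)],.leaf [(0,15),(1,148),(2,42),(4,1)]⟩,
⟨⟨⟨157,54,-18⟩,⟨18,3,166⟩,⟨54,-158,-3⟩⟩,true,28,102,.leaf [(0,48),(1,184),(2,3),(4,1)],.leaf [(0,48),(1,184),(2,3),(4,1)]⟩,
⟨⟨⟨-77,-126,78⟩,⟨138,-93,-14⟩,⟨54,58,147⟩⟩,true,32,12,.leaf [(0,27889),(4,93),(5,4),(6,138)],.leaf [(0,27889),(4,93),(5,4),(6,138)]⟩,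
⟨⟨⟨-77,-126,-78⟩,⟨-138,93,-14⟩,⟨54,58,-147⟩⟩,true,32,155,.leaf [(1,8),(2,184),(3,61),(5,1)],.leaf [(1,8),(2,184),(3,61),(5,1)]⟩,
⟨⟨⟨-77,54,-138⟩,⟨-78,-147,-14⟩,⟨-126,58,93⟩⟩,true,34,43,.leaf [(0,162),(1,124),(2,39),(4,1)],.leaf [(0,162),(1,124),(2,39),(4,1)]⟩,
⟨⟨⟨-77,54,138⟩,⟨78,147,-14⟩,⟨-126,58,-93⟩⟩,true,34,124,.leaf [(0,4),(1,93),(3,138),(5,1)],.leaf [(0,4),(1,93),(3,138),(5,1)]⟩,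
⟨⟨⟨-93,66,-122⟩,⟨-102,67,114⟩,⟨94,138,3⟩⟩,true,37,48,.leaf [(1,8851),(3,8016),(4,72),(5,1)],.leaf [(1,8851),(3,8016),(4,72),(5,1)]⟩,
⟨⟨⟨93,-66,-122⟩,⟨-102,67,-114⟩,⟨94,138,-3⟩⟩,true,37,119,.leaf [(2,423),(11,236),(14,2),(18,53)],.leaf [(2,75317),(4,287),(5,648),(10,18704)]⟩,
⟨⟨⟨3,114,-122⟩,⟨138,67,66⟩,⟨94,-102,-93⟩⟩,true,38,15,.leaf [(1,3),(2,47),(3,185),(4,1)],.leaf [(1,3),(2,47),(3,185),(4,1)]⟩,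
⟨⟨⟨-3,-114,-122⟩,⟨138,67,-66⟩,⟨94,-102,93⟩⟩,true,38,152,.leaf [(0,8517),(4,19),(7,77),(11,1169)],.leaf [(0,92685),(4,250),(7,644),(10,1169)]⟩,
⟨⟨⟨-93,102,94⟩,⟨-66,67,-138⟩,⟨-122,-114,3⟩⟩,true,42,78,.leaf [(1,1182),(2,385),(7,10),(18,53)],.leaf [(1,54108),(4,801),(10,59285),(14,50)]⟩,
⟨⟨⟨93,-102,94⟩,⟨-66,67,138⟩,⟨-122,-114,-3⟩⟩,true,42,89,.leaf [(3,27889),(4,72),(5,192),(7,67)],.leaf [(3,27889),(4,72),(5,192),(7,67)]⟩,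
⟨⟨⟨-77,-138,54⟩,⟨-126,93,58⟩,⟨-78,-14,-147⟩⟩,true,43,34,.leaf [(0,124),(1,162),(3,39),(5,1)],.leaf [(0,124),(1,162),(3,39),(5,1)]⟩,
⟨⟨⟨-77,-138,-54⟩,⟨126,-93,58⟩,⟨-78,-14,147⟩⟩,true,43,133,.leaf [(0,27889),(4,111),(5,64),(6,108)],.leaf [(0,27889),(4,111),(5,64),(6,108)]⟩,
⟨⟨⟨-3,-138,94⟩,⟨114,67,102⟩,⟨-122,66,93⟩⟩,true,46,80,.leaf [(0,162),(1,1),(2,42),(5,1)],.leaf [(0,162),(1,1),(2,42),(5,1)]⟩,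
⟨⟨⟨3,138,94⟩,⟨114,67,-102⟩,⟨-122,66,-93⟩⟩,true,46,87,.leaf [(0,27889),(4,323),(5,257),(15,69)],.leaf [(0,12),(3,40),(4,1),(10,59)]⟩,
⟨⟨⟨-93,138,-14⟩,⟨-126,-77,78⟩,⟨58,54,147⟩⟩,true,47,63,.leaf [(0,137),(1,92),(2,78),(4,1)],.leaf [(0,137),(1,92),(2,78),(4,1)]⟩,
⟨⟨⟨93,-138,-14⟩,⟨-126,-77,-78⟩,⟨58,54,-147⟩⟩,true,47,104,.leaf [(0,180),(1,133),(2,12),(5,1)],.leaf [(0,180),(1,133),(2,12),(5,1)]⟩,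
⟨⟨⟨-93,-122,66⟩,⟨94,3,138⟩,⟨-102,114,67⟩⟩,true,48,37,.leaf [(0,5177),(1,1336),(4,19),(5,32)],.leaf [(0,5177),(1,1336),(4,19),(5,32)]⟩,
⟨⟨⟨-93,-122,-66⟩,⟨94,3,-138⟩,⟨102,-114,67⟩⟩,true,48,130,.leaf [(1,83667),(5,553),(6,584),(14,112)],.leaf [(1,187875),(5,465),(10,41416),(15,152)]⟩,
⟨⟨⟨51,-122,102⟩,⟨-158,-51,18⟩,⟨18,-102,-131⟩⟩,true,50,2,.leaf [(1,90),(2,20),(3,143),(5,1)],.leaf [(1,90),(2,20),(3,143),(5,1)]⟩,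
⟨⟨⟨51,-122,-102⟩,⟨-158,-51,-18⟩,⟨-18,102,-131⟩⟩,true,50,165,.leaf [(1,2338),(2,1503),(4,23),(5,14)],.leaf [(1,2338),(2,1503),(4,23),(5,14)]⟩,
⟨⟨⟨-147,58,-54⟩,⟨-14,93,138⟩,⟨78,126,-77⟩⟩,true,53,14,.leaf [(1,6346),(3,7515),(4,68),(5,35)],.leaf [(1,6346),(3,7515),(4,68),(5,35)]⟩,
⟨⟨⟨-147,58,54⟩,⟨-14,93,-138⟩,⟨-78,-126,-77⟩⟩,true,53,153,.leaf [(2,1336),(3,5177),(5,19),(6,32)],.leaf [(2,1336),(3,5177),(5,19),(6,32)]⟩,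
⟨⟨⟨-147,78,-14⟩,⟨-54,-77,138⟩,⟨58,126,93⟩⟩,true,54,16,.leaf [(0,155),(1,107),(3,45),(4,1)],.leaf [(0,155),(1,107),(3,45),(4,1)]⟩,
⟨⟨⟨147,-78,-14⟩,⟨-54,-77,-138⟩,⟨58,126,-93⟩⟩,true,54,151,.leaf [(0,186),(1,79),(2,18),(5,1)],.leaf [(0,186),(1,79),(2,18),(5,1)]⟩,
⟨⟨⟨45,-30,-158⟩,⟨150,67,30⟩,⟨58,-150,45⟩⟩,true,55,67,.leaf [(3,27889),(4,204),(7,97),(15,6)],.leaf [(3,17869),(4,114),(7,67),(10,1002)]⟩,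
⟨⟨⟨-45,30,-158⟩,⟨150,67,-30⟩,⟨58,-150,-45⟩⟩,true,55,100,.leaf [(0,83667),(4,349),(7,224),(14,100)],.leaf [(3,5177),(4,32),(7,21),(10,1336)]⟩,
⟨⟨⟨-3,166,-18⟩,⟨-158,3,54⟩,⟨54,18,157⟩⟩,true,56,6,.leaf [(0,40),(1,72),(2,123),(4,1)],.leaf [(0,40),(1,72),(2,123),(4,1)]⟩,
⟨⟨⟨-3,166,18⟩,⟨-158,3,-54⟩,⟨-54,-18,157⟩⟩,true,56,161,.leaf [(0,334),(2,167),(4,1),(6,2)],.leaf [(0,334),(2,167),(4,1),(6,2)]⟩,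
⟨⟨⟨45,150,58⟩,⟨-30,67,-150⟩,⟨-158,30,45⟩⟩,true,59,5,.leaf [(4,4),(5,3),(7,2),(15,1)],.leaf [(4,423),(10,27889),(14,91),(22,1)]⟩,
⟨⟨⟨-45,-150,58⟩,⟨-30,67,150⟩,⟨-158,30,-45⟩⟩,true,59,162,.leaf [(0,180),(1,85),(3,18),(5,1)],.leaf [(0,180),(1,85),(3,18),(5,1)]⟩,
⟨⟨⟨-93,-14,138⟩,⟨58,147,54⟩,⟨-126,78,-77⟩⟩,true,63,47,.leaf [(0,92),(1,137),(3,78),(5,1)],.leaf [(0,92),(1,137),(3,78),(5,1)]⟩,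
⟨⟨⟨-93,-14,-138⟩,⟨58,147,-54⟩,⟨126,-78,-77⟩⟩,true,63,120,.leaf [(0,133),(1,145),(3,47),(6,1)],.leaf [(0,133),(1,145),(3,47),(6,1)]⟩,
⟨⟨⟨157,18,54⟩,⟨54,3,-158⟩,⟨-18,166,-3⟩⟩,true,65,28,.leaf [(0,148),(1,15),(3,42),(5,1)],.leaf [(0,148),(1,15),(3,42),(5,1)]⟩,
⟨⟨⟨157,18,-54⟩,⟨-54,-3,-158⟩,⟨-18,166,3⟩⟩,true,65,139,.leaf [(0,3173),(2,2839),(5,17),(7,19)],.leaf [(0,3173),(2,2839),(5,17),(7,19)]⟩,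
⟨⟨⟨-93,-126,58⟩,⟨138,-77,54⟩,⟨-14,78,147⟩⟩,true,66,73,.leaf [(0,27889),(4,215),(5,170),(7,78)],.leaf [(0,27889),(4,215),(5,170),(7,78)]⟩,
⟨⟨⟨93,126,58⟩,⟨138,-77,-54⟩,⟨-14,78,-147⟩⟩,true,66,94,.leaf [(0,28724),(2,7515),(4,205),(5,112)],.leaf [(0,28724),(2,7515),(4,205),(5,112)]⟩,
⟨⟨⟨45,-158,-30⟩,⟨58,45,-150⟩,⟨150,30,67⟩⟩,true,67,55,.leaf [(2,27889),(5,204),(6,97),(14,6)],.leaf [(2,12191),(5,84),(6,23),(10,1002)]⟩,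
⟨⟨⟨45,-158,30⟩,⟨58,45,150⟩,⟨-150,-30,67⟩⟩,true,67,112,.leaf [(0,27889),(4,37),(5,216),(14,24)],.leaf [(0,102),(3,67),(5,1),(10,26)]⟩,
⟨⟨⟨67,114,102⟩,⟨-138,-3,94⟩,⟨66,-122,93⟩⟩,true,69,9,.leaf [(1,27889),(4,31),(6,93),(15,27)],.leaf [(1,30728),(4,104),(6,69),(10,4509)]⟩,
⟨⟨⟨67,114,-102⟩,⟨138,3,94⟩,⟨66,-122,-93⟩⟩,true,69,158,.leaf [(1,7),(2,111),(3,189),(4,1)],.leaf [(1,7),(2,111),(3,189),(4,1)]⟩,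
⟨⟨⟨-93,58,-126⟩,⟨-14,147,78⟩,⟨138,54,-77⟩⟩,true,73,66,.leaf [(1,27889),(4,170),(5,215),(6,78)],.leaf [(1,27889),(4,170),(5,215),(6,78)]⟩,
⟨⟨⟨-93,58,126⟩,⟨-14,147,-78⟩,⟨-138,-54,-77⟩⟩,true,73,101,.leaf [(1,7515),(3,28724),(5,205),(6,112)],.leaf [(1,7515),(3,28724),(5,205),(6,112)]⟩,
⟨⟨⟨-93,94,102⟩,⟨-122,3,-114⟩,⟨-66,-138,67⟩⟩,true,78,42,.leaf [(0,9801),(3,7803),(18,1753),(23,1)],.leaf [(0,141),(3,236),(6,2),(10,53)]⟩,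
⟨⟨⟨-93,94,-102⟩,⟨-122,3,114⟩,⟨66,138,67⟩⟩,true,78,125,.leaf [(0,91),(1,168),(3,48),(4,1)],.leaf [(0,91),(1,168),(3,48),(4,1)]⟩,
⟨⟨⟨-3,94,-138⟩,⟨-122,93,66⟩,⟨114,102,67⟩⟩,true,80,46,.leaf [(0,1),(1,162),(3,42),(4,1)],.leaf [(0,1),(1,162),(3,42),(4,1)]⟩,
⟨⟨⟨-3,94,138⟩,⟨-122,93,-66⟩,⟨-114,-102,67⟩⟩,true,80,121,.leaf [(3,27889),(5,93),(6,4),(15,46)],.leaf [(0,81663),(5,124),(6,614),(10,8851)]⟩,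
⟨⟨⟨67,150,-30⟩,⟨30,-45,-158⟩,⟨-150,58,-45⟩⟩,true,82,17,.leaf [(0,27889),(4,75),(5,100),(7,108)],.leaf [(0,27889),(4,75),(5,100),(7,108)]⟩,
⟨⟨⟨67,150,30⟩,⟨-30,45,-158⟩,⟨-150,58,45⟩⟩,true,82,150,.leaf [(0,111556),(5,175),(7,582),(15,75)],.leaf [(0,507),(2,250),(7,4),(10,75)]⟩,
⟨⟨⟨-131,-18,-102⟩,⟨102,-51,-122⟩,⟨-18,-158,51⟩⟩,true,83,25,.leaf [(0,27889),(4,98),(6,20),(14,35)],.leaf [(0,2672),(4,49),(6,100),(10,5845)]⟩,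
⟨⟨⟨-131,-18,102⟩,⟨-102,51,-122⟩,⟨-18,-158,-51⟩⟩,true,83,142,.leaf [(1,18036),(6,141),(10,1837),(15,44)],.leaf [(1,1215),(3,609),(10,563),(14,1)]⟩,
⟨⟨⟨-131,18,-102⟩,⟨102,51,-122⟩,⟨18,-158,-51⟩⟩,true,84,25,.leaf [(0,5319),(3,2988),(18,926),(22,1)],.leaf [(1,9519),(4,6),(10,334),(15,19)]⟩,
⟨⟨⟨-131,18,102⟩,⟨-102,-51,-122⟩,⟨18,-158,51⟩⟩,true,84,142,.leaf [(1,24),(2,88),(6,1),(18,11)],.leaf [(1,28),(2,6),(4,1),(10,63)]⟩,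
⟨⟨⟨67,-150,-30⟩,⟨30,45,-158⟩,⟨150,58,45⟩⟩,true,85,17,.leaf [(5,2700),(11,124916),(14,323),(18,15197)],.leaf [(0,175),(2,582),(5,4),(10,75)]⟩,
⟨⟨⟨67,-150,30⟩,⟨-30,-45,-158⟩,⟨150,58,-45⟩⟩,true,85,150,.leaf [(0,25),(2,183),(3,75),(5,1)],.leaf [(0,25),(2,183),(3,75),(5,1)]⟩,
⟨⟨⟨3,94,138⟩,⟨-122,-93,66⟩,⟨114,-102,67⟩⟩,true,87,46,.leaf [(1,27889),(4,257),(5,323),(14,69)],.leaf [(2,82498),(4,543),(5,52),(10,8851)]⟩,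
⟨⟨⟨3,94,-138⟩,⟨-122,-93,-66⟩,⟨-114,102,67⟩⟩,true,87,121,.leaf [(1,5),(2,187),(3,67),(4,1)],.leaf [(1,5),(2,187),(3,67),(4,1)]⟩,
⟨⟨⟨93,94,-102⟩,⟨-122,-3,-114⟩,⟨-66,138,67⟩⟩,true,89,42,.leaf [(2,27889),(4,192),(5,72),(6,67)],.leaf [(2,27889),(4,192),(5,72),(6,67)]⟩,
⟨⟨⟨93,94,102⟩,⟨-122,-3,114⟩,⟨66,-138,67⟩⟩,true,89,125,.leaf [(1,332),(2,1235),(4,10),(18,53)],.leaf [(1,224),(2,44),(4,1),(10,53)]⟩,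
⟨⟨⟨93,58,126⟩,⟨-14,-147,78⟩,⟨138,-54,-77⟩⟩,true,94,66,.leaf [(0,6179),(2,30060),(4,203),(5,48)],.leaf [(0,6179),(2,30060),(4,203),(5,48)]⟩,
⟨⟨⟨93,58,-126⟩,⟨-14,-147,-78⟩,⟨-138,54,-77⟩⟩,true,94,101,.leaf [(0,73),(1,48),(2,132),(4,1)],.leaf [(0,73),(1,48),(2,132),(4,1)]⟩,
⟨⟨⟨67,-114,102⟩,⟨-138,3,94⟩,⟨-66,-122,-93⟩⟩,true,98,9,.leaf [(1,4509),(3,18704),(5,111),(6,8)],.leaf [(1,4509),(3,18704),(5,111),(6,8)]⟩,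
⟨⟨⟨67,-114,-102⟩,⟨138,-3,94⟩,⟨-66,-122,93⟩⟩,true,98,158,.leaf [(3,468936),(4,1782),(18,32899),(22,19)],.leaf [(3,52772),(4,186),(6,215),(10,4509)]⟩,
⟨⟨⟨-45,-158,30⟩,⟨58,-45,-150⟩,⟨150,-30,67⟩⟩,true,100,55,.leaf [(1,83667),(5,349),(6,224),(15,100)],.leaf [(1,171),(2,76),(5,1),(10,52)]⟩,
⟨⟨⟨-45,-158,-30⟩,⟨58,-45,150⟩,⟨-150,30,67⟩⟩,true,100,112,.leaf [(0,27889),(4,31),(5,162),(15,18)],.leaf [(0,29726),(4,83),(5,216),(10,1503)]⟩,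
⟨⟨⟨-93,126,58⟩,⟨-138,-77,-54⟩,⟨-14,-78,147⟩⟩,true,101,73,.leaf [(0,7515),(2,28724),(4,205),(7,112)],.leaf [(0,7515),(2,28724),(4,205),(7,112)]⟩,
⟨⟨⟨93,-126,58⟩,⟨-138,-77,54⟩,⟨-14,-78,-147⟩⟩,true,101,94,.leaf [(0,48),(1,73),(3,132),(5,1)],.leaf [(0,48),(1,73),(3,132),(5,1)]⟩,
⟨⟨⟨157,-18,54⟩,⟨54,-3,-158⟩,⟨18,166,3⟩⟩,true,102,28,.leaf [(0,184),(1,48),(3,3),(5,1)],.leaf [(0,184),(1,48),(3,3),(5,1)]⟩,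
⟨⟨⟨157,-18,-54⟩,⟨-54,3,-158⟩,⟨18,166,-3⟩⟩,true,102,139,.leaf [(0,2839),(2,3173),(5,19),(7,17)],.leaf [(0,2839),(2,3173),(5,19),(7,17)]⟩,
⟨⟨⟨93,-14,-138⟩,⟨58,-147,54⟩,⟨-126,-78,-77⟩⟩,true,104,47,.leaf [(0,133),(1,180),(3,12),(4,1)],.leaf [(0,133),(1,180),(3,12),(4,1)]⟩,
⟨⟨⟨93,-14,138⟩,⟨58,-147,-54⟩,⟨126,78,-77⟩⟩,true,104,120,.leaf [(0,92),(1,170),(3,45),(5,1)],.leaf [(0,92),(1,170),(3,45),(5,1)]⟩,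
⟨⟨⟨45,-150,58⟩,⟨30,67,150⟩,⟨-158,-30,45⟩⟩,true,108,5,.leaf [(3,27889),(4,180),(5,198),(7,85)],.leaf [(3,27889),(4,180),(5,198),(7,85)]⟩,
⟨⟨⟨-45,150,58⟩,⟨30,67,-150⟩,⟨-158,-30,-45⟩⟩,true,108,162,.leaf [(3,4175),(4,40),(7,139),(18,2672)],.leaf [(1,66),(3,58),(4,1),(10,83)]⟩,
⟨⟨⟨3,166,18⟩,⟨-158,-3,54⟩,⟨54,-18,157⟩⟩,true,111,6,.leaf [(0,22),(1,36),(2,147),(4,1)],.leaf [(0,22),(1,36),(2,147),(4,1)]⟩,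
⟨⟨⟨3,166,-18⟩,⟨-158,-3,-54⟩,⟨-54,18,157⟩⟩,true,111,161,.leaf [(0,167),(2,334),(4,2),(6,1)],.leaf [(0,167),(2,334),(4,2),(6,1)]⟩,
⟨⟨⟨45,30,-158⟩,⟨-150,67,-30⟩,⟨58,150,45⟩⟩,true,112,67,.leaf [(1,27889),(4,216),(5,37),(15,24)],.leaf [(1,23213),(4,72),(5,89),(10,8016)]⟩,
⟨⟨⟨-45,-30,-158⟩,⟨-150,67,30⟩,⟨58,150,-45⟩⟩,true,112,100,.leaf [(1,27889),(4,162),(5,31),(14,18)],.leaf [(1,15364),(4,81),(5,52),(10,1503)]⟩,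
⟨⟨⟨-147,-78,-14⟩,⟨54,-77,-138⟩,⟨58,-126,93⟩⟩,true,113,16,.leaf [(0,97),(1,79),(2,107),(7,1)],.leaf [(0,97),(1,79),(2,107),(7,1)]⟩,
⟨⟨⟨147,78,-14⟩,⟨54,-77,138⟩,⟨58,-126,-93⟩⟩,true,113,151,.leaf [(0,107),(1,152),(2,48),(4,1)],.leaf [(0,107),(1,152),(2,48),(4,1)]⟩,
⟨⟨⟨147,58,54⟩,⟨-14,-93,138⟩,⟨78,-126,-77⟩⟩,true,114,14,.leaf [(0,37),(1,84),(2,114),(4,1)],.leaf [(0,37),(1,84),(2,114),(4,1)]⟩,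
⟨⟨⟨147,58,-54⟩,⟨-14,-93,-138⟩,⟨-78,126,-77⟩⟩,true,114,153,.leaf [(0,27889),(4,97),(5,204),(6,18)],.leaf [(0,27889),(4,97),(5,204),(6,18)]⟩,
⟨⟨⟨-51,-122,-102⟩,⟨-158,51,18⟩,⟨18,102,-131⟩⟩,true,117,2,.leaf [(1,3340),(2,501),(4,23),(5,20)],.leaf [(1,3340),(2,501),(4,23),(5,20)]⟩,
⟨⟨⟨-51,-122,102⟩,⟨-158,51,-18⟩,⟨-18,-102,-131⟩⟩,true,117,165,.leaf [(0,20),(1,143),(3,90),(5,1)],.leaf [(0,20),(1,143),(3,90),(5,1)]⟩,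
⟨⟨⟨93,-122,-66⟩,⟨94,-3,138⟩,⟨-102,-114,67⟩⟩,true,119,37,.leaf [(3,2256),(4,9),(10,91),(18,196)],.leaf [(3,9519),(5,93),(10,5344),(14,8)]⟩,
⟨⟨⟨93,-122,66⟩,⟨94,-3,-138⟩,⟨102,114,67⟩⟩,true,119,130,.leaf [(0,8016),(2,8851),(5,72),(6,1)],.leaf [(0,8016),(2,8851),(5,72),(6,1)]⟩,
⟨⟨⟨-93,-138,-14⟩,⟨126,-77,-78⟩,⟨58,-54,147⟩⟩,true,120,63,.leaf [(0,145),(1,133),(2,47),(7,1)],.leaf [(0,145),(1,133),(2,47),(7,1)]⟩,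
⟨⟨⟨93,138,-14⟩,⟨126,-77,78⟩,⟨58,-54,-147⟩⟩,true,120,104,.leaf [(0,170),(1,92),(2,45),(4,1)],.leaf [(0,170),(1,92),(2,45),(4,1)]⟩,
⟨⟨⟨-3,138,94⟩,⟨-114,67,-102⟩,⟨-122,-66,93⟩⟩,true,121,80,.leaf [(2,27889),(4,93),(7,4),(14,46)],.leaf [(1,202905),(4,1080),(10,98864),(15,47)]⟩,
⟨⟨⟨3,-138,94⟩,⟨-114,67,102⟩,⟨-122,-66,-93⟩⟩,true,121,87,.leaf [(0,5),(2,67),(3,187),(5,1)],.leaf [(0,5),(2,67),(3,187),(5,1)]⟩,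
⟨⟨⟨-77,138,54⟩,⟨-126,-93,58⟩,⟨78,-14,147⟩⟩,true,124,34,.leaf [(0,93),(1,4),(2,138),(4,1)],.leaf [(0,93),(1,4),(2,138),(4,1)]⟩,
⟨⟨⟨-77,138,-54⟩,⟨126,93,58⟩,⟨78,-14,-147⟩⟩,true,124,133,.leaf [(3,27889),(4,184),(5,61),(7,8)],.leaf [(3,27889),(4,184),(5,61),(7,8)]⟩,
⟨⟨⟨-93,-102,94⟩,⟨66,67,138⟩,⟨-122,114,3⟩⟩,true,125,78,.leaf [(0,5344),(1,3173),(4,8),(5,31)],.leaf [(0,5344),(1,3173),(4,8),(5,31)]⟩,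
⟨⟨⟨93,102,94⟩,⟨66,67,-138⟩,⟨-122,114,-3⟩⟩,true,125,89,.leaf [(0,4185),(3,4635),(18,713),(23,1)],.leaf [(4,435),(5,369),(10,27889),(23,29)]⟩,
⟨⟨⟨3,-114,-122⟩,⟨-138,67,-66⟩,⟨94,102,-93⟩⟩,true,129,15,.leaf [(2,12024),(5,108),(11,2839),(15,1)],.leaf [(2,85838),(4,221),(5,588),(10,1169)]⟩,
⟨⟨⟨-3,114,-122⟩,⟨-138,67,66⟩,⟨94,102,93⟩⟩,true,129,152,.leaf [(0,47),(1,185),(3,3),(4,1)],.leaf [(0,47),(1,185),(3,3),(4,1)]⟩,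
⟨⟨⟨-93,-66,-122⟩,⟨102,67,-114⟩,⟨94,-138,3⟩⟩,true,130,48,.leaf [(0,83667),(4,553),(7,584),(15,112)],.leaf [(0,30561),(4,203),(7,328),(10,9352)]⟩,
⟨⟨⟨93,66,-122⟩,⟨102,67,114⟩,⟨94,-138,-3⟩⟩,true,130,119,.leaf [(1,8016),(3,8851),(4,72),(7,1)],.leaf [(1,8016),(3,8851),(4,72),(7,1)]⟩,
⟨⟨⟨-77,-54,-138⟩,⟨-78,147,-14⟩,⟨126,58,-93⟩⟩,true,133,43,.leaf [(1,27889),(4,64),(5,111),(7,108)],.leaf [(1,27889),(4,64),(5,111),(7,108)]⟩,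
⟨⟨⟨-77,-54,138⟩,⟨78,-147,-14⟩,⟨126,58,93⟩⟩,true,133,124,.leaf [(2,27889),(4,61),(5,184),(6,8)],.leaf [(2,27889),(4,61),(5,184),(6,8)]⟩,
⟨⟨⟨-77,126,78⟩,⟨138,93,-14⟩,⟨-54,58,-147⟩⟩,true,135,12,.leaf [(3,27889),(4,124),(5,163),(7,38)],.leaf [(3,27889),(4,124),(5,163),(7,38)]⟩,
⟨⟨⟨-77,126,-78⟩,⟨-138,-93,-14⟩,⟨-54,58,147⟩⟩,true,135,155,.leaf [(0,47),(2,172),(3,64),(4,1)],.leaf [(0,47),(2,172),(3,64),(4,1)]⟩,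
⟨⟨⟨157,-54,18⟩,⟨-18,3,166⟩,⟨-54,-158,-3⟩⟩,true,139,65,.leaf [(1,3173),(3,2839),(4,17),(6,19)],.leaf [(1,3173),(3,2839),(4,17),(6,19)]⟩,
⟨⟨⟨157,-54,-18⟩,⟨18,-3,166⟩,⟨-54,-158,3⟩⟩,true,139,102,.leaf [(1,2839),(3,3173),(4,19),(6,17)],.leaf [(1,2839),(3,3173),(4,19),(6,17)]⟩,
⟨⟨⟨-131,102,-18⟩,⟨-18,-51,-158⟩,⟨-102,-122,51⟩⟩,true,142,83,.leaf [(0,18036),(7,141),(11,1837),(14,44)],.leaf [(0,98),(2,20),(4,1),(10,35)]⟩,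
⟨⟨⟨-131,102,18⟩,⟨18,51,-158⟩,⟨-102,-122,-51⟩⟩,true,142,84,.leaf [(0,5481),(3,5472),(18,1172),(22,1)],.leaf [(3,31563),(4,351),(10,17201),(15,35)]⟩,
⟨⟨⟨67,-138,-66⟩,⟨-114,3,-122⟩,⟨102,94,-93⟩⟩,true,145,4,.leaf [(0,85),(2,147),(3,27),(5,1)],.leaf [(0,85),(2,147),(3,27),(5,1)]⟩,
⟨⟨⟨67,-138,66⟩,⟨114,-3,-122⟩,⟨102,94,93⟩⟩,true,145,163,.leaf [(0,31),(2,93),(5,1),(11,27)],.leaf [(0,367),(2,534),(5,4),(10,27)]⟩,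
⟨⟨⟨51,-18,-158⟩,⟨-102,-131,-18⟩,⟨-122,102,-51⟩⟩,true,147,10,.leaf [(0,50),(1,140),(2,63),(4,1)],.leaf [(0,50),(1,140),(2,63),(4,1)]⟩,
⟨⟨⟨-51,18,-158⟩,⟨-102,-131,18⟩,⟨-122,102,51⟩⟩,true,147,157,.leaf [(0,137),(1,176),(2,12),(4,1)],.leaf [(0,137),(1,176),(2,12),(4,1)]⟩,
⟨⟨⟨3,-54,-158⟩,⟨-18,157,-54⟩,⟨166,18,-3⟩⟩,true,149,3,.leaf [(2,6179),(4,5),(14,36),(18,1670)],.leaf [(4,41),(5,285),(7,445),(10,27889)]⟩,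
⟨⟨⟨-3,54,-158⟩,⟨-18,157,54⟩,⟨166,18,3⟩⟩,true,149,164,.leaf [(3,30728),(4,104),(14,23),(18,1503)],.leaf [(1,1512),(3,1089),(10,664),(15,1)]⟩,
⟨⟨⟨67,30,150⟩,⟨-150,45,58⟩,⟨-30,-158,45⟩⟩,true,150,82,.leaf [(1,111556),(4,175),(6,582),(14,75)],.R (.leaf [(10,1350),(26,85),(30,1),(35,4)]) (.leaf [(10,1269),(26,91),(30,1),(34,1)]) (.leaf [(10,220941),(26,15865),(30,175),(38,1)])⟩,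
⟨⟨⟨67,30,-150⟩,⟨150,-45,58⟩,⟨-30,-158,-45⟩⟩,true,150,85,.leaf [(1,25),(2,75),(3,183),(4,1)],.leaf [(1,25),(2,75),(3,183),(4,1)]⟩,
⟨⟨⟨147,-14,-78⟩,⟨58,-93,126⟩,⟨-54,-138,-77⟩⟩,true,151,54,.leaf [(0,79),(1,186),(3,18),(4,1)],.leaf [(0,79),(1,186),(3,18),(4,1)]⟩,
⟨⟨⟨147,-14,78⟩,⟨58,-93,-126⟩,⟨54,138,-77⟩⟩,true,151,113,.leaf [(0,152),(1,107),(3,48),(5,1)],.leaf [(0,152),(1,107),(3,48),(5,1)]⟩,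
⟨⟨⟨-3,-122,-114⟩,⟨94,93,-102⟩,⟨138,-66,67⟩⟩,true,152,38,.leaf [(1,8517),(5,19),(6,77),(10,1169)],.leaf [(1,83667),(5,157),(6,539),(22,7)]⟩,
⟨⟨⟨-3,-122,114⟩,⟨94,93,102⟩,⟨-138,66,67⟩⟩,true,152,129,.leaf [(0,185),(1,47),(2,3),(5,1)],.leaf [(0,185),(1,47),(2,3),(5,1)]⟩,
⟨⟨⟨-147,54,58⟩,⟨-78,-77,-126⟩,⟨-14,-138,93⟩⟩,true,153,53,.leaf [(2,5177),(3,1336),(4,19),(7,32)],.leaf [(2,5177),(3,1336),(4,19),(7,32)]⟩,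
⟨⟨⟨147,-54,58⟩,⟨-78,-77,126⟩,⟨-14,-138,-93⟩⟩,true,153,114,.leaf [(1,27889),(4,204),(5,97),(7,18)],.leaf [(1,27889),(4,204),(5,97),(7,18)]⟩,
⟨⟨⟨-77,-78,-126⟩,⟨54,-147,58⟩,⟨-138,-14,93⟩⟩,true,155,32,.leaf [(0,8),(2,61),(3,184),(4,1)],.leaf [(0,8),(2,61),(3,184),(4,1)]⟩,
⟨⟨⟨-77,-78,126⟩,⟨-54,147,58⟩,⟨-138,-14,-93⟩⟩,true,155,135,.leaf [(1,47),(2,64),(3,172),(5,1)],.leaf [(1,47),(2,64),(3,172),(5,1)]⟩,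
⟨⟨⟨-51,-158,-18⟩,⟨-122,51,-102⟩,⟨102,-18,-131⟩⟩,true,157,20,.leaf [(0,50),(1,113),(2,90),(5,1)],.leaf [(0,50),(1,113),(2,90),(5,1)]⟩,
⟨⟨⟨-51,-158,18⟩,⟨-122,51,102⟩,⟨-102,18,-131⟩⟩,true,157,147,.leaf [(0,176),(1,137),(3,12),(5,1)],.leaf [(0,176),(1,137),(3,12),(5,1)]⟩,
⟨⟨⟨67,-102,114⟩,⟨66,-93,-122⟩,⟨138,94,3⟩⟩,true,158,69,.leaf [(0,7),(2,189),(3,111),(5,1)],.leaf [(0,7),(2,189),(3,111),(5,1)]⟩,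
⟨⟨⟨67,-102,-114⟩,⟨-66,93,-122⟩,⟨138,94,-3⟩⟩,true,158,98,.leaf [(2,280393),(5,1362),(7,1138),(18,4509)],.leaf [(2,54943),(5,309),(7,139),(10,4509)]⟩,
⟨⟨⟨-3,18,166⟩,⟨-54,157,-18⟩,⟨-158,-54,3⟩⟩,true,161,56,.leaf [(1,334),(3,167),(5,1),(7,2)],.leaf [(1,334),(3,167),(5,1),(7,2)]⟩,
⟨⟨⟨3,-18,166⟩,⟨-54,157,18⟩,⟨-158,-54,-3⟩⟩,true,161,111,.leaf [(1,167),(3,334),(5,2),(7,1)],.leaf [(1,167),(3,334),(5,2),(7,1)]⟩,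
⟨⟨⟨-45,58,-150⟩,⟨-158,-45,30⟩,⟨-30,150,67⟩⟩,true,162,59,.leaf [(0,85),(1,180),(2,18),(4,1)],.leaf [(0,85),(1,180),(2,18),(4,1)]⟩,
⟨⟨⟨-45,58,150⟩,⟨-158,-45,-30⟩,⟨30,-150,67⟩⟩,true,162,108,.leaf [(5,882),(6,231),(15,466),(18,27889)],.leaf [(2,1837),(4,39),(6,25),(10,2505)]⟩,
⟨⟨⟨67,66,138⟩,⟨-102,-93,94⟩,⟨114,-122,3⟩⟩,true,163,22,.leaf [(1,27889),(4,118),(5,111),(6,78)],.leaf [(1,27889),(4,118),(5,111),(6,78)]⟩,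
⟨⟨⟨67,66,-138⟩,⟨102,93,94⟩,⟨114,-122,-3⟩⟩,true,163,145,.leaf [(1,31),(3,93),(4,1),(10,27)],.leaf [(1,17368),(3,11523),(4,184),(15,27)]⟩,
⟨⟨⟨-3,-158,-54⟩,⟨166,3,-18⟩,⟨18,-54,157⟩⟩,true,164,18,.leaf [(1,464928),(4,2865),(15,1720),(18,15197)],.leaf [(1,165),(3,40),(5,1),(10,104)]⟩,
⟨⟨⟨-3,-158,54⟩,⟨166,3,18⟩,⟨-18,54,157⟩⟩,true,164,149,.leaf [(2,76987),(5,250),(15,142),(18,1503)],.leaf [(0,351),(2,394),(5,4),(10,103)]⟩,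
⟨⟨⟨51,-102,-122⟩,⟨-18,-131,102⟩,⟨-158,-18,-51⟩⟩,true,165,50,.leaf [(0,29),(1,161),(3,63),(4,1)],.leaf [(0,29),(1,161),(3,63),(4,1)]⟩,
⟨⟨⟨-51,102,-122⟩,⟨-18,-131,-102⟩,⟨-158,-18,51⟩⟩,true,165,117,.leaf [(0,143),(1,20),(2,90),(4,1)],.leaf [(0,143),(1,20),(2,90),(4,1)]⟩]

theorem primeOk_167 : PrimeOk 167 := primeOk (by norm_num) (by norm_num) (by norm_num) L167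
  (by decide +kernel) (by decide +kernel)

def L271 : List Cls := [
⟨⟨⟨171,42,-206⟩,⟨-98,-219,-126⟩,⟨-186,154,-123⟩⟩,true,5,40,.leaf [(0,36),(1,80),(2,225),(4,1)],.leaf [(0,36),(1,80),(2,225),(4,1)]⟩,
⟨⟨⟨-171,-42,-206⟩,⟨-98,-219,126⟩,⟨-186,154,123⟩⟩,true,5,231,.leaf [(1,41),(2,177),(3,291),(4,1)],.leaf [(1,41),(2,177),(3,291),(4,1)]⟩,
⟨⟨⟨219,126,-98⟩,⟨154,-123,186⟩,⟨42,-206,-171⟩⟩,true,8,54,.leaf [(0,234),(1,284),(2,15),(4,1)],.leaf [(0,234),(1,284),(2,15),(4,1)]⟩,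
⟨⟨⟨-219,-126,-98⟩,⟨154,-123,-186⟩,⟨42,-206,171⟩⟩,true,8,217,.leaf [(0,44715),(4,129),(10,6233),(14,47)],.leaf [(3,17886),(10,8401),(15,22),(22,3)]⟩,
⟨⟨⟨-21,-210,-170⟩,⟨10,-171,210⟩,⟨-270,10,21⟩⟩,true,10,21,.leaf [(1,29810),(3,46341),(4,220),(5,39)],.leaf [(1,29810),(3,46341),(4,220),(5,39)]⟩,
⟨⟨⟨21,210,-170⟩,⟨10,-171,-210⟩,⟨-270,10,-21⟩⟩,true,10,250,.leaf [(0,3523),(2,3794),(4,19),(6,2)],.leaf [(0,3523),(2,3794),(4,19),(6,2)]⟩,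
⟨⟨⟨-213,154,-66⟩,⟨-66,21,262⟩,⟨154,222,21⟩⟩,true,12,111,.leaf [(1,24),(2,133),(3,304),(4,1)],.leaf [(1,24),(2,133),(3,304),(4,1)]⟩,
⟨⟨⟨-213,154,66⟩,⟨66,-21,262⟩,⟨154,222,-21⟩⟩,true,12,160,.leaf [(0,175),(1,46),(3,150),(4,1)],.leaf [(0,175),(1,46),(3,150),(4,1)]⟩,
⟨⟨⟨-69,118,-234⟩,⟨162,-171,-134⟩,⟨-206,-174,-27⟩⟩,true,14,133,.leaf [(0,289),(1,79),(3,21),(4,1)],.leaf [(0,289),(1,79),(3,21),(4,1)]⟩,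
⟨⟨⟨-69,118,234⟩,⟨-162,171,-134⟩,⟨-206,-174,27⟩⟩,true,14,138,.leaf [(1,20054),(3,1897),(5,14),(7,73)],.leaf [(1,20054),(3,1897),(5,14),(7,73)]⟩,
⟨⟨⟨-27,-134,-234⟩,⟨-174,-171,118⟩,⟨-206,162,-69⟩⟩,true,15,99,.leaf [(0,37),(1,268),(3,84),(4,1)],.leaf [(0,37),(1,268),(3,84),(4,1)]⟩,
⟨⟨⟨-27,-134,234⟩,⟨174,171,118⟩,⟨-206,162,69⟩⟩,true,15,172,.leaf [(0,296),(1,141),(3,24),(5,1)],.leaf [(0,296),(1,141),(3,24),(5,1)]⟩,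
⟨⟨⟨181,186,-78⟩,⟨174,-197,-66⟩,⟨-102,-6,-251⟩⟩,true,16,37,.leaf [(0,194),(1,12),(2,189),(4,1)],.leaf [(0,194),(1,12),(2,189),(4,1)]⟩,
⟨⟨⟨181,186,78⟩,⟨174,-197,66⟩,⟨102,6,-251⟩⟩,true,16,234,.leaf [(0,61246),(2,62601),(4,329),(5,12)],.leaf [(0,61246),(2,62601),(4,329),(5,12)]⟩,
⟨⟨⟨-197,174,-66⟩,⟨186,181,-78⟩,⟨-6,-102,-251⟩⟩,true,17,87,.leaf [(1,2439),(3,5962),(5,6),(7,23)],.leaf [(1,2439),(3,5962),(5,6),(7,23)]⟩,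
⟨⟨⟨-197,174,66⟩,⟨186,181,78⟩,⟨6,102,-251⟩⟩,true,17,184,.leaf [(1,5962),(3,2439),(5,23),(7,6)],.leaf [(1,5962),(3,2439),(5,23),(7,6)]⟩,
⟨⟨⟨-171,174,118⟩,⟨-134,27,-234⟩,⟨-162,-206,69⟩⟩,true,18,115,.leaf [(0,201),(1,6),(3,110),(6,1)],.leaf [(0,201),(1,6),(3,110),(6,1)]⟩,
⟨⟨⟨171,-174,118⟩,⟨-134,27,234⟩,⟨-162,-206,-69⟩⟩,true,18,156,.leaf [(3,206231),(4,477),(5,349),(18,21409)],.leaf [(1,2538),(3,1170),(10,1025),(14,1)]⟩,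
⟨⟨⟨165,154,-150⟩,⟨210,-75,154⟩,⟨46,-210,-165⟩⟩,true,19,73,.leaf [(0,229),(1,244),(3,60),(4,1)],.leaf [(0,229),(1,244),(3,60),(4,1)]⟩,
⟨⟨⟨165,154,150⟩,⟨-210,75,154⟩,⟨46,-210,165⟩⟩,true,19,198,.leaf [(1,47154),(2,31165),(4,291),(7,146)],.leaf [(1,47154),(2,31165),(4,291),(7,146)]⟩,
⟨⟨⟨181,-174,102⟩,⟨-186,-197,-6⟩,⟨78,-66,-251⟩⟩,true,20,35,.leaf [(0,10298),(1,23035),(4,58),(5,83)],.leaf [(0,10298),(1,23035),(4,58),(5,83)]⟩,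
⟨⟨⟨181,-174,-102⟩,⟨-186,-197,6⟩,⟨-78,66,-251⟩⟩,true,20,236,.leaf [(1,26287),(2,17886),(4,162),(5,59)],.leaf [(1,26287),(2,17886),(4,162),(5,59)]⟩,
⟨⟨⟨-21,-170,-210⟩,⟨-270,21,10⟩,⟨10,210,-171⟩⟩,true,21,10,.leaf [(1,5962),(2,2439),(4,31),(5,22)],.leaf [(1,5962),(2,2439),(4,31),(5,22)]⟩,
⟨⟨⟨-21,-170,210⟩,⟨270,-21,10⟩,⟨10,210,171⟩⟩,true,21,261,.leaf [(0,194),(1,39),(2,186),(5,1)],.leaf [(0,194),(1,39),(2,186),(5,1)]⟩,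
⟨⟨⟨-251,-102,-6⟩,⟨-78,181,186⟩,⟨-66,174,-197⟩⟩,true,22,81,.leaf [(0,1897),(1,3252),(4,5),(5,12)],.leaf [(0,1897),(1,3252),(4,5),(5,12)]⟩,
⟨⟨⟨-251,-102,6⟩,⟨-78,181,-186⟩,⟨66,-174,-197⟩⟩,true,22,190,.leaf [(1,73441),(5,233),(7,3),(15,27)],.leaf [(1,9485),(5,19),(10,1355),(22,1)]⟩,
⟨⟨⟨171,210,10⟩,⟨10,-21,270⟩,⟨210,-170,-21⟩⟩,true,25,27,.leaf [(0,165),(1,260),(2,66),(4,1)],.leaf [(0,165),(1,260),(2,66),(4,1)]⟩,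
⟨⟨⟨-171,-210,10⟩,⟨10,-21,-270⟩,⟨210,-170,21⟩⟩,true,25,244,.leaf [(1,449589),(5,2785),(6,1280),(18,36856)],.leaf [(1,460971),(5,999),(10,80216),(15,136)]⟩,
⟨⟨⟨-165,46,210⟩,⟨150,-165,154⟩,⟨154,210,75⟩⟩,true,26,48,.leaf [(0,31165),(2,6504),(4,135),(5,56)],.leaf [(0,31165),(2,6504),(4,135),(5,56)]⟩,
⟨⟨⟨-165,46,-210⟩,⟨-150,165,154⟩,⟨154,210,-75⟩⟩,true,26,223,.leaf [(1,39566),(3,4065),(4,164),(5,119)],.leaf [(1,39566),(3,4065),(4,164),(5,119)]⟩,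
⟨⟨⟨171,10,210⟩,⟨210,-21,-170⟩,⟨10,270,-21⟩⟩,true,27,25,.leaf [(0,260),(1,165),(3,66),(5,1)],.leaf [(0,260),(1,165),(3,66),(5,1)]⟩,
⟨⟨⟨171,10,-210⟩,⟨-210,21,-170⟩,⟨10,270,21⟩⟩,true,27,246,.leaf [(2,73441),(4,461),(5,348),(15,68)],.leaf [(2,149863),(4,611),(5,744),(10,36856)]⟩,
⟨⟨⟨-171,90,190⟩,⟨190,171,90⟩,⟨-90,190,-171⟩⟩,true,28,29,.leaf [(0,19),(3,261),(4,1),(5,1)],.leaf [(0,19),(3,261),(4,1),(5,1)]⟩,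
⟨⟨⟨171,-90,190⟩,⟨190,171,-90⟩,⟨-90,190,171⟩⟩,true,28,242,.leaf [(0,280),(1,19),(5,1)],.leaf [(0,280),(1,19),(5,1)]⟩,
⟨⟨⟨-171,190,90⟩,⟨-90,-171,190⟩,⟨190,90,171⟩⟩,true,29,28,.leaf [(0,271),(1,100),(2,90),(4,1)],.leaf [(0,271),(1,100),(2,90),(4,1)]⟩,
⟨⟨⟨-171,190,-90⟩,⟨90,171,190⟩,⟨190,90,-171⟩⟩,true,29,243,.leaf [(2,19),(3,280),(4,1)],.leaf [(2,19),(3,280),(4,1)]⟩,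
⟨⟨⟨-251,78,-66⟩,⟨102,181,-174⟩,⟨-6,-186,-197⟩⟩,true,31,78,.leaf [(3,129809),(5,363),(7,16),(18,19512)],.leaf [(1,1890),(3,777),(10,460),(15,1)]⟩,
⟨⟨⟨-251,78,66⟩,⟨102,181,174⟩,⟨6,186,-197⟩⟩,true,31,193,.leaf [(0,8401),(1,26558),(4,17),(5,94)],.leaf [(0,8401),(1,26558),(4,17),(5,94)]⟩,
⟨⟨⟨69,-162,-206⟩,⟨118,-171,174⟩,⟨-234,-134,27⟩⟩,true,33,52,.leaf [(0,9),(1,170),(3,210),(4,1)],.leaf [(0,9),(1,170),(3,210),(4,1)]⟩,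
⟨⟨⟨-69,162,-206⟩,⟨118,-171,-174⟩,⟨-234,-134,-27⟩⟩,true,33,219,.leaf [(0,276),(1,32),(2,57),(4,1)],.leaf [(0,276),(1,32),(2,57),(4,1)]⟩,
⟨⟨⟨-123,154,-186⟩,⟨-126,-219,-98⟩,⟨-206,42,171⟩⟩,true,34,61,.leaf [(0,229),(1,88),(2,144),(4,1)],.leaf [(0,229),(1,88),(2,144),(4,1)]⟩,
⟨⟨⟨-123,154,186⟩,⟨126,219,-98⟩,⟨-206,42,-171⟩⟩,true,34,210,.leaf [(3,317070),(5,2781),(10,170188),(15,143)],.leaf [(10,12195),(23,15),(26,271),(31,1)]⟩,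
⟨⟨⟨181,102,-174⟩,⟨78,-251,-66⟩,⟨-186,-6,-197⟩⟩,true,35,20,.leaf [(0,71),(2,282),(3,108),(4,1)],.leaf [(0,71),(2,282),(3,108),(4,1)]⟩,
⟨⟨⟨181,102,174⟩,⟨78,-251,66⟩,⟨186,6,-197⟩⟩,true,35,251,.leaf [(0,40921),(2,79674),(4,371),(5,108)],.leaf [(0,40921),(2,79674),(4,371),(5,108)]⟩,
⟨⟨⟨181,-78,186⟩,⟨-102,-251,-6⟩,⟨174,-66,-197⟩⟩,true,37,16,.leaf [(0,1355),(1,3252),(4,7),(5,12)],.leaf [(0,1355),(1,3252),(4,7),(5,12)]⟩,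
⟨⟨⟨181,-78,-186⟩,⟨-102,-251,6⟩,⟨-174,66,-197⟩⟩,true,37,255,.leaf [(0,41),(1,192),(2,132),(4,1)],.leaf [(0,41),(1,192),(2,132),(4,1)]⟩,
⟨⟨⟨171,-206,42⟩,⟨-186,-123,154⟩,⟨-98,-126,-219⟩⟩,true,40,5,.leaf [(2,4607),(3,19241),(4,11),(5,69)],.leaf [(2,4607),(3,19241),(4,11),(5,69)]⟩,
⟨⟨⟨171,-206,-42⟩,⟨186,123,154⟩,⟨-98,-126,219⟩⟩,true,40,266,.leaf [(0,114),(2,218),(3,177),(7,1)],.leaf [(0,114),(2,218),(3,177),(7,1)]⟩,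
⟨⟨⟨69,262,6⟩,⟨258,-69,46⟩,⟨46,-6,-267⟩⟩,true,47,59,.leaf [(0,280),(1,40),(2,51),(4,1)],.leaf [(0,280),(1,40),(2,51),(4,1)]⟩,
⟨⟨⟨69,262,-6⟩,⟨-258,69,46⟩,⟨46,-6,267⟩⟩,true,47,212,.leaf [(1,13821),(2,1084),(4,60),(7,41)],.leaf [(1,13821),(2,1084),(4,60),(7,41)]⟩,
⟨⟨⟨-165,210,46⟩,⟨154,75,210⟩,⟨150,154,-165⟩⟩,true,48,26,.leaf [(0,6233),(3,8130),(4,47),(5,2)],.leaf [(0,6233),(3,8130),(4,47),(5,2)]⟩,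
⟨⟨⟨165,-210,46⟩,⟨154,75,-210⟩,⟨150,154,165⟩⟩,true,48,245,.leaf [(0,4065),(2,39566),(5,164),(6,119)],.leaf [(0,4065),(2,39566),(5,164),(6,119)]⟩,
⟨⟨⟨123,-206,126⟩,⟨-186,-171,-98⟩,⟨154,-42,-219⟩⟩,true,49,120,.leaf [(0,164),(1,270),(3,75),(5,1)],.leaf [(0,164),(1,270),(3,75),(5,1)]⟩,
⟨⟨⟨123,-206,-126⟩,⟨186,171,-98⟩,⟨154,-42,219⟩⟩,true,49,151,.leaf [(0,248),(1,32),(3,61),(7,1)],.leaf [(0,248),(1,32),(3,61),(7,1)]⟩,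
⟨⟨⟨69,-206,-162⟩,⟨-234,27,-134⟩,⟨118,174,-171⟩⟩,true,52,33,.leaf [(1,3523),(2,28455),(4,85),(5,127)],.leaf [(1,3523),(2,28455),(4,85),(5,127)]⟩,
⟨⟨⟨69,-206,162⟩,⟨234,-27,-134⟩,⟨118,174,171⟩⟩,true,52,238,.leaf [(0,6233),(2,7859),(5,37),(7,1)],.leaf [(0,6233),(2,7859),(5,37),(7,1)]⟩,
⟨⟨⟨219,-98,126⟩,⟨42,-171,-206⟩,⟨154,186,-123⟩⟩,true,54,8,.leaf [(0,542),(2,813),(4,3),(5,4)],.leaf [(0,542),(2,813),(4,3),(5,4)]⟩,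
⟨⟨⟨219,-98,-126⟩,⟨-42,171,-206⟩,⟨154,186,123⟩⟩,true,54,263,.leaf [(3,15447),(7,39),(11,542),(15,14)],.leaf [(0,449),(2,438),(5,4),(10,249)]⟩,
⟨⟨⟨75,210,154⟩,⟨154,-165,150⟩,⟨210,46,-165⟩⟩,true,57,96,.leaf [(0,71815),(2,47154),(4,319),(5,4)],.leaf [(0,71815),(2,47154),(4,319),(5,4)]⟩,
⟨⟨⟨-75,-210,154⟩,⟨154,-165,-150⟩,⟨210,46,165⟩⟩,true,57,175,.leaf [(1,5691),(2,90514),(5,359),(14,10)],.leaf [(1,69),(2,236),(5,1),(10,20)]⟩,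
⟨⟨⟨171,162,-134⟩,⟨118,69,234⟩,⟨174,-206,-27⟩⟩,true,58,126,.leaf [(0,93),(1,257),(3,111),(4,1)],.leaf [(0,93),(1,257),(3,111),(4,1)]⟩,
⟨⟨⟨-171,-162,-134⟩,⟨118,69,-234⟩,⟨174,-206,27⟩⟩,true,58,145,.leaf [(5,303),(6,861),(10,73441),(15,31)],.leaf [(1,2538),(3,1890),(10,1055),(14,1)]⟩,
⟨⟨⟨69,6,262⟩,⟨46,-267,-6⟩,⟨258,46,-69⟩⟩,true,59,47,.leaf [(0,8401),(1,26558),(4,17),(5,94)],.leaf [(0,8401),(1,26558),(4,17),(5,94)]⟩,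
⟨⟨⟨-69,-6,262⟩,⟨46,-267,6⟩,⟨258,46,69⟩⟩,true,59,224,.leaf [(2,38753),(3,542),(4,117),(5,158)],.leaf [(2,38753),(3,542),(4,117),(5,158)]⟩,
⟨⟨⟨-123,-186,154⟩,⟨-206,171,42⟩,⟨-126,-98,-219⟩⟩,true,61,34,.leaf [(0,88),(1,229),(3,144),(5,1)],.leaf [(0,88),(1,229),(3,144),(5,1)]⟩,
⟨⟨⟨123,186,154⟩,⟨-206,171,-42⟩,⟨-126,-98,219⟩⟩,true,61,237,.leaf [(0,444),(2,53),(6,1),(18,28)],.leaf [(0,192),(2,137),(6,1),(10,28)]⟩,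
⟨⟨⟨91,222,-126⟩,⟨102,91,234⟩,⟨234,-126,-53⟩⟩,true,62,82,.leaf [(0,131),(1,240),(3,120),(4,1)],.leaf [(0,131),(1,240),(3,120),(4,1)]⟩,
⟨⟨⟨91,222,126⟩,⟨102,91,-234⟩,⟨-234,126,-53⟩⟩,true,62,189,.leaf [(0,3252),(3,271),(5,6),(7,11)],.leaf [(0,3252),(3,271),(5,6),(7,11)]⟩,
⟨⟨⟨21,10,270⟩,⟨-210,171,10⟩,⟨-170,-210,21⟩⟩,true,65,129,.leaf [(1,2710),(3,2981),(5,10),(7,11)],.leaf [(1,2710),(3,2981),(5,10),(7,11)]⟩,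
⟨⟨⟨21,10,-270⟩,⟨210,-171,10⟩,⟨-170,-210,-21⟩⟩,true,65,142,.leaf [(0,45),(2,136),(3,280),(4,1)],.leaf [(0,45),(2,136),(3,280),(4,1)]⟩,
⟨⟨⟨-197,6,-186⟩,⟨66,-251,-78⟩,⟨-174,-102,181⟩⟩,true,66,122,.leaf [(0,257),(1,51),(3,57),(4,1)],.leaf [(0,257),(1,51),(3,57),(4,1)]⟩,
⟨⟨⟨-197,6,186⟩,⟨66,-251,78⟩,⟨174,102,181⟩⟩,true,66,149,.leaf [(2,73441),(4,135),(5,276),(6,50)],.leaf [(2,73441),(4,135),(5,276),(6,50)]⟩,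
⟨⟨⟨219,154,42⟩,⟨126,-123,-206⟩,⟨-98,186,-171⟩⟩,true,70,93,.leaf [(0,26287),(1,1355),(4,83),(5,103)],.leaf [(0,26287),(1,1355),(4,83),(5,103)]⟩,
⟨⟨⟨219,154,-42⟩,⟨-126,123,-206⟩,⟨-98,186,171⟩⟩,true,70,178,.leaf [(4,36),(10,15176),(14,61),(18,2439)],.leaf [(4,495),(5,648),(10,73441),(14,80)]⟩,
⟨⟨⟨165,-150,154⟩,⟨46,-165,-210⟩,⟨210,154,-75⟩⟩,true,73,19,.leaf [(0,244),(1,229),(2,60),(5,1)],.leaf [(0,244),(1,229),(2,60),(5,1)]⟩,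
⟨⟨⟨-165,150,154⟩,⟨46,-165,210⟩,⟨210,154,75⟩⟩,true,73,252,.leaf [(0,291),(1,56),(2,24),(4,1)],.leaf [(0,291),(1,56),(2,24),(4,1)]⟩,
⟨⟨⟨-53,-234,126⟩,⟨126,91,222⟩,⟨-234,102,91⟩⟩,true,76,105,.leaf [(0,276),(1,35),(2,60),(5,1)],.leaf [(0,276),(1,35),(2,60),(5,1)]⟩,
⟨⟨⟨-53,-234,-126⟩,⟨126,91,-222⟩,⟨234,-102,91⟩⟩,true,76,166,.leaf [(0,188),(1,671),(2,308),(15,1)],.leaf [(0,21),(2,35),(6,1),(10,87)]⟩,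
⟨⟨⟨21,262,-66⟩,⟨222,21,154⟩,⟨154,-66,-213⟩⟩,true,77,113,.leaf [(0,241),(1,130),(3,90),(4,1)],.leaf [(0,241),(1,130),(3,90),(4,1)]⟩,
⟨⟨⟨21,262,66⟩,⟨-222,-21,154⟩,⟨154,-66,213⟩⟩,true,77,158,.leaf [(0,64),(1,88),(2,219),(4,1)],.leaf [(0,64),(1,88),(2,219),(4,1)]⟩,
⟨⟨⟨-251,-66,78⟩,⟨-6,-197,-186⟩,⟨102,-174,181⟩⟩,true,78,31,.leaf [(4,5643),(6,5046),(15,2716),(18,73441)],.leaf [(2,15176),(4,12),(6,61),(10,2439)]⟩,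
⟨⟨⟨-251,-66,-78⟩,⟨-6,-197,186⟩,⟨-102,174,181⟩⟩,true,78,240,.leaf [(0,56),(2,75),(3,264),(4,1)],.leaf [(0,56),(2,75),(3,264),(4,1)]⟩,
⟨⟨⟨91,234,-102⟩,⟨-126,-53,-234⟩,⟨-222,126,91⟩⟩,true,80,118,.leaf [(0,251),(1,11),(2,109),(7,1)],.leaf [(0,251),(1,11),(2,109),(7,1)]⟩,
⟨⟨⟨91,234,102⟩,⟨-126,-53,234⟩,⟨222,-126,91⟩⟩,true,80,153,.leaf [(1,31),(2,287),(3,101),(4,1)],.leaf [(1,31),(2,287),(3,101),(4,1)]⟩,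
⟨⟨⟨-251,-6,-102⟩,⟨-66,-197,174⟩,⟨-78,186,181⟩⟩,true,81,22,.leaf [(0,50),(2,141),(3,276),(4,1)],.leaf [(0,50),(2,141),(3,276),(4,1)]⟩,
⟨⟨⟨-251,-6,102⟩,⟨-66,-197,-174⟩,⟨78,-186,181⟩⟩,true,81,249,.leaf [(2,163413),(6,612),(11,8672),(14,79)],.leaf [(0,119),(2,3),(4,1),(10,69)]⟩,
⟨⟨⟨91,-126,222⟩,⟨234,-53,-126⟩,⟨102,234,91⟩⟩,true,82,62,.leaf [(0,240),(1,131),(2,120),(5,1)],.leaf [(0,240),(1,131),(2,120),(5,1)]⟩,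
⟨⟨⟨91,-126,-222⟩,⟨234,-53,126⟩,⟨-102,-234,91⟩⟩,true,82,209,.leaf [(1,2981),(3,52303),(4,179),(6,73)],.leaf [(1,2981),(3,52303),(4,179),(6,73)]⟩,
⟨⟨⟨-21,154,-222⟩,⟨-66,213,154⟩,⟨262,66,21⟩⟩,true,83,88,.leaf [(1,63),(3,77),(4,1),(10,59)],.leaf [(1,170730),(3,160703),(4,940),(15,59)]⟩,
⟨⟨⟨-21,154,222⟩,⟨66,-213,154⟩,⟨262,66,-21⟩⟩,true,83,183,.leaf [(0,42547),(2,40650),(4,243),(5,68)],.leaf [(0,42547),(2,40650),(4,243),(5,68)]⟩,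
⟨⟨⟨-197,-66,174⟩,⟨-6,-251,-102⟩,⟨186,-78,181⟩⟩,true,87,17,.leaf [(0,2439),(2,5962),(4,6),(6,23)],.leaf [(0,2439),(2,5962),(4,6),(6,23)]⟩,
⟨⟨⟨-197,-66,-174⟩,⟨-6,-251,102⟩,⟨-186,78,181⟩⟩,true,87,254,.leaf [(0,50),(2,135),(3,276),(4,1)],.leaf [(0,50),(2,135),(3,276),(4,1)]⟩,
⟨⟨⟨-21,-222,154⟩,⟨262,21,66⟩,⟨-66,154,213⟩⟩,true,88,83,.leaf [(0,63),(2,77),(5,1),(11,59)],.leaf [(0,783),(2,662),(5,4),(10,59)]⟩,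
⟨⟨⟨21,222,154⟩,⟨262,21,-66⟩,⟨-66,154,-213⟩⟩,true,88,188,.leaf [(0,6233),(3,12195),(4,53),(5,65)],.leaf [(0,6233),(3,12195),(4,53),(5,65)]⟩,
⟨⟨⟨69,46,258⟩,⟨6,-267,46⟩,⟨262,-6,-69⟩⟩,true,91,98,.leaf [(0,14905),(2,76422),(4,327),(5,212)],.leaf [(0,14905),(2,76422),(4,327),(5,212)]⟩,
⟨⟨⟨69,46,-258⟩,⟨-6,267,46⟩,⟨262,-6,69⟩⟩,true,91,173,.leaf [(3,73441),(4,120),(7,11),(14,80)],.leaf [(1,8775),(3,4305),(10,3143),(22,1)]⟩,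
⟨⟨⟨219,42,154⟩,⟨-98,-171,186⟩,⟨126,-206,-123⟩⟩,true,93,70,.leaf [(1,11924),(2,4065),(4,61),(5,36)],.leaf [(1,11924),(2,4065),(4,61),(5,36)]⟩,
⟨⟨⟨-219,-42,154⟩,⟨-98,-171,-186⟩,⟨126,-206,123⟩⟩,true,93,201,.leaf [(4,3),(5,4),(6,2),(14,1)],.leaf [(1,92),(3,84),(4,1),(10,129)]⟩,
⟨⟨⟨-171,186,-98⟩,⟨-206,-123,126⟩,⟨42,154,219⟩⟩,true,94,102,.leaf [(0,249),(1,224),(2,60),(4,1)],.leaf [(0,249),(1,224),(2,60),(4,1)]⟩,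
⟨⟨⟨171,-186,-98⟩,⟨-206,-123,-126⟩,⟨42,154,-219⟩⟩,true,94,169,.leaf [(0,295),(1,121),(2,45),(5,1)],.leaf [(0,295),(1,121),(2,45),(5,1)]⟩,
⟨⟨⟨75,154,210⟩,⟨210,-165,46⟩,⟨154,150,-165⟩⟩,true,96,57,.leaf [(0,78319),(2,40650),(4,375),(5,164)],.leaf [(0,78319),(2,40650),(4,375),(5,164)]⟩,
⟨⟨⟨75,154,-210⟩,⟨-210,165,46⟩,⟨154,150,165⟩⟩,true,96,214,.leaf [(2,327),(4,3),(10,220),(18,28)],.leaf [(1,1296),(3,1551),(10,664),(15,1)]⟩,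
⟨⟨⟨69,258,46⟩,⟨262,-69,-6⟩,⟨6,46,-267⟩⟩,true,98,91,.leaf [(0,77506),(2,13821),(4,313),(5,52)],.leaf [(0,77506),(2,13821),(4,313),(5,52)]⟩,
⟨⟨⟨-69,-258,46⟩,⟨262,-69,6⟩,⟨6,46,267⟩⟩,true,98,180,.leaf [(0,73441),(4,451),(5,520),(14,120)],.leaf [(0,237),(2,758),(5,4),(10,221)]⟩,
⟨⟨⟨-27,-234,-134⟩,⟨-206,-69,162⟩,⟨-174,118,-171⟩⟩,true,99,15,.leaf [(1,6775),(3,3252),(4,32),(5,15)],.leaf [(1,6775),(3,3252),(4,32),(5,15)]⟩,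
⟨⟨⟨27,234,-134⟩,⟨-206,-69,-162⟩,⟨-174,118,171⟩⟩,true,99,256,.leaf [(0,3794),(2,19783),(4,74),(6,7)],.leaf [(0,3794),(2,19783),(4,74),(6,7)]⟩,
⟨⟨⟨-171,-98,186⟩,⟨42,219,154⟩,⟨-206,126,-123⟩⟩,true,102,94,.leaf [(0,224),(1,249),(3,60),(5,1)],.leaf [(0,224),(1,249),(3,60),(5,1)]⟩,
⟨⟨⟨-171,-98,-186⟩,⟨-42,-219,154⟩,⟨-206,126,123⟩⟩,true,102,177,.leaf [(1,45),(2,121),(3,295),(4,1)],.leaf [(1,45),(2,121),(3,295),(4,1)]⟩,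
⟨⟨⟨-53,126,-234⟩,⟨-234,91,102⟩,⟨126,222,91⟩⟩,true,105,76,.leaf [(0,35),(1,276),(3,60),(4,1)],.leaf [(0,35),(1,276),(3,60),(4,1)]⟩,
⟨⟨⟨-53,126,234⟩,⟨-234,91,-102⟩,⟨-126,-222,91⟩⟩,true,105,195,.leaf [(2,73441),(4,21),(6,35),(14,87)],.leaf [(4,9909),(10,514087),(15,2294),(23,38)]⟩,
⟨⟨⟨-27,-206,174⟩,⟨234,69,118⟩,⟨-134,162,171⟩⟩,true,108,114,.leaf [(0,239),(1,3),(2,129),(5,1)],.leaf [(0,239),(1,3),(2,129),(5,1)]⟩,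
⟨⟨⟨-27,-206,-174⟩,⟨-234,-69,118⟩,⟨-134,162,-171⟩⟩,true,108,157,.leaf [(1,84281),(3,22764),(4,368),(5,137)],.leaf [(1,84281),(3,22764),(4,368),(5,137)]⟩,
⟨⟨⟨-213,-66,154⟩,⟨154,21,222⟩,⟨-66,262,21⟩⟩,true,111,12,.leaf [(0,7859),(1,5149),(4,19),(5,29)],.leaf [(0,7859),(1,5149),(4,19),(5,29)]⟩,
⟨⟨⟨213,66,154⟩,⟨154,21,-222⟩,⟨-66,262,-21⟩⟩,true,111,259,.leaf [(0,196),(1,46),(3,129),(5,1)],.leaf [(0,196),(1,46),(3,129),(5,1)]⟩,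
⟨⟨⟨21,-66,262⟩,⟨154,-213,-66⟩,⟨222,154,21⟩⟩,true,113,77,.leaf [(0,130),(1,241),(2,90),(5,1)],.leaf [(0,130),(1,241),(2,90),(5,1)]⟩,
⟨⟨⟨-21,66,262⟩,⟨154,-213,66⟩,⟨222,154,-21⟩⟩,true,113,194,.leaf [(0,49051),(2,47154),(4,283),(5,196)],.leaf [(0,49051),(2,47154),(4,283),(5,196)]⟩,
⟨⟨⟨-27,174,-206⟩,⟨-134,171,162⟩,⟨234,118,69⟩⟩,true,114,108,.leaf [(0,3),(1,239),(3,129),(4,1)],.leaf [(0,3),(1,239),(3,129),(4,1)]⟩,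
⟨⟨⟨27,-174,-206⟩,⟨-134,171,-162⟩,⟨234,118,-69⟩⟩,true,114,163,.leaf [(2,73441),(4,84),(5,352),(6,121)],.leaf [(2,73441),(4,84),(5,352),(6,121)]⟩,
⟨⟨⟨-171,118,174⟩,⟨-162,69,-206⟩,⟨-134,-234,27⟩⟩,true,115,18,.leaf [(0,6),(1,201),(2,110),(7,1)],.leaf [(0,6),(1,201),(2,110),(7,1)]⟩,
⟨⟨⟨-171,118,-174⟩,⟨162,-69,-206⟩,⟨-134,-234,-27⟩⟩,true,115,253,.leaf [(4,753),(7,393),(11,73441),(14,109)],.leaf [(2,56639),(4,193),(7,336),(10,18428)]⟩,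
⟨⟨⟨91,-102,234⟩,⟨-222,91,126⟩,⟨-126,-234,-53⟩⟩,true,118,80,.leaf [(0,11),(1,251),(3,109),(6,1)],.leaf [(0,11),(1,251),(3,109),(6,1)]⟩,
⟨⟨⟨91,-102,-234⟩,⟨-222,91,-126⟩,⟨126,234,-53⟩⟩,true,118,191,.leaf [(2,73441),(4,131),(5,251),(7,109)],.leaf [(2,73441),(4,131),(5,251),(7,109)]⟩,
⟨⟨⟨123,126,-206⟩,⟨154,-219,-42⟩,⟨-186,-98,-171⟩⟩,true,120,49,.leaf [(0,270),(1,164),(2,75),(4,1)],.leaf [(0,270),(1,164),(2,75),(4,1)]⟩,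
⟨⟨⟨-123,-126,-206⟩,⟨154,-219,42⟩,⟨-186,-98,171⟩⟩,true,120,222,.leaf [(0,93),(1,32),(3,216),(4,1)],.leaf [(0,93),(1,32),(3,216),(4,1)]⟩,
⟨⟨⟨-197,-186,6⟩,⟨-174,181,-102⟩,⟨66,-78,-251⟩⟩,true,122,66,.leaf [(0,51),(1,257),(2,57),(5,1)],.leaf [(0,51),(1,257),(2,57),(5,1)]⟩,
⟨⟨⟨-197,-186,-6⟩,⟨-174,181,102⟩,⟨-66,78,-251⟩⟩,true,122,205,.leaf [(0,189),(1,245),(2,75),(5,1)],.leaf [(0,189),(1,245),(2,75),(5,1)]⟩,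
⟨⟨⟨267,46,6⟩,⟨6,-69,262⟩,⟨46,-258,-69⟩⟩,true,124,134,.leaf [(0,55),(1,256),(2,60),(4,1)],.leaf [(0,55),(1,256),(2,60),(4,1)]⟩,
⟨⟨⟨267,46,-6⟩,⟨-6,69,262⟩,⟨46,-258,69⟩⟩,true,124,137,.leaf [(1,54471),(3,3794),(4,212),(7,23)],.leaf [(1,54471),(3,3794),(4,212),(7,23)]⟩,
⟨⟨⟨171,-134,162⟩,⟨174,-27,-206⟩,⟨118,234,69⟩⟩,true,126,58,.leaf [(0,257),(1,93),(2,111),(5,1)],.leaf [(0,257),(1,93),(2,111),(5,1)]⟩,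
⟨⟨⟨171,-134,-162⟩,⟨-174,27,-206⟩,⟨118,234,-69⟩⟩,true,126,213,.leaf [(2,7317),(5,27),(11,3523),(14,11)],.leaf [(0,749),(2,630),(5,4),(10,93)]⟩,
⟨⟨⟨21,270,10⟩,⟨-170,21,-210⟩,⟨-210,10,171⟩⟩,true,129,65,.leaf [(0,2710),(2,2981),(4,10),(6,11)],.leaf [(0,2710),(2,2981),(4,10),(6,11)]⟩,
⟨⟨⟨-21,-270,10⟩,⟨-170,21,210⟩,⟨-210,10,-171⟩⟩,true,129,206,.leaf [(2,2981),(3,5420),(4,9),(5,20)],.leaf [(2,2981),(3,5420),(4,9),(5,20)]⟩,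
⟨⟨⟨-69,-234,118⟩,⟨-206,-27,-174⟩,⟨162,-134,-171⟩⟩,true,133,14,.leaf [(0,79),(1,289),(2,21),(5,1)],.leaf [(0,79),(1,289),(2,21),(5,1)]⟩,
⟨⟨⟨69,234,118⟩,⟨-206,-27,174⟩,⟨162,-134,171⟩⟩,true,133,257,.leaf [(0,21),(1,56),(2,240),(4,1)],.leaf [(0,21),(1,56),(2,240),(4,1)]⟩,
⟨⟨⟨267,6,46⟩,⟨46,-69,-258⟩,⟨6,262,-69⟩⟩,true,134,124,.leaf [(0,256),(1,55),(3,60),(5,1)],.leaf [(0,256),(1,55),(3,60),(5,1)]⟩,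
⟨⟨⟨-267,-6,46⟩,⟨46,-69,258⟩,⟨6,262,69⟩⟩,true,134,147,.leaf [(0,21409),(3,54471),(4,259),(5,19)],.leaf [(0,21409),(3,54471),(4,259),(5,19)]⟩,
⟨⟨⟨267,-6,46⟩,⟨46,69,-258⟩,⟨-6,262,69⟩⟩,true,137,124,.leaf [(0,54471),(2,3794),(5,212),(6,23)],.leaf [(0,54471),(2,3794),(5,212),(6,23)]⟩,
⟨⟨⟨-267,6,46⟩,⟨46,69,258⟩,⟨-6,262,-69⟩⟩,true,137,147,.leaf [(0,542),(3,38211),(4,158),(5,41)],.leaf [(0,542),(3,38211),(4,158),(5,41)]⟩,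
⟨⟨⟨-69,234,118⟩,⟨-206,27,-174⟩,⟨-162,-134,171⟩⟩,true,138,14,.leaf [(0,20054),(2,1897),(4,14),(6,73)],.leaf [(0,20054),(2,1897),(4,14),(6,73)]⟩,
⟨⟨⟨69,-234,118⟩,⟨-206,27,174⟩,⟨-162,-134,-171⟩⟩,true,138,257,.leaf [(2,24119),(3,86720),(4,21),(5,296)],.leaf [(2,24119),(3,86720),(4,21),(5,296)]⟩,
⟨⟨⟨21,-270,10⟩,⟨-170,-21,-210⟩,⟨210,10,-171⟩⟩,true,142,65,.leaf [(1,45),(2,280),(3,136),(5,1)],.leaf [(1,45),(2,280),(3,136),(5,1)]⟩,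
⟨⟨⟨-21,270,10⟩,⟨-170,-21,210⟩,⟨210,10,171⟩⟩,true,142,206,.leaf [(1,29),(2,291),(3,171),(4,1)],.leaf [(1,29),(2,291),(3,171),(4,1)]⟩,
⟨⟨⟨-171,-134,-162⟩,⟨174,27,-206⟩,⟨118,-234,69⟩⟩,true,145,58,.leaf [(4,303),(7,861),(11,73441),(14,31)],.leaf [(0,537),(2,842),(7,4),(10,93)]⟩,
⟨⟨⟨-171,-134,162⟩,⟨-174,-27,-206⟩,⟨118,-234,-69⟩⟩,true,145,213,.leaf [(1,54471),(2,8672),(5,204),(7,79)],.leaf [(1,54471),(2,8672),(5,204),(7,79)]⟩,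
⟨⟨⟨-267,46,-6⟩,⟨6,69,262⟩,⟨46,258,-69⟩⟩,true,147,134,.leaf [(0,18157),(1,26558),(4,77),(5,94)],.leaf [(0,18157),(1,26558),(4,77),(5,94)]⟩,
⟨⟨⟨-267,46,6⟩,⟨-6,-69,262⟩,⟨46,258,69⟩⟩,true,147,137,.leaf [(0,60),(2,55),(3,256),(4,1)],.leaf [(0,60),(2,55),(3,256),(4,1)]⟩,
⟨⟨⟨-197,186,6⟩,⟨174,181,102⟩,⟨66,78,-251⟩⟩,true,149,66,.leaf [(3,73441),(4,276),(5,135),(7,50)],.leaf [(3,73441),(4,276),(5,135),(7,50)]⟩,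
⟨⟨⟨-197,186,-6⟩,⟨174,181,-102⟩,⟨-66,-78,-251⟩⟩,true,149,205,.leaf [(3,73441),(4,72),(5,93),(7,224)],.leaf [(3,73441),(4,72),(5,93),(7,224)]⟩,
⟨⟨⟨123,-126,-206⟩,⟨154,219,-42⟩,⟨186,-98,171⟩⟩,true,151,49,.leaf [(0,32),(1,248),(2,61),(6,1)],.leaf [(0,32),(1,248),(2,61),(6,1)]⟩,
⟨⟨⟨-123,126,-206⟩,⟨154,219,42⟩,⟨186,-98,-171⟩⟩,true,151,222,.leaf [(1,1355),(3,32249),(4,115),(6,31)],.leaf [(1,1355),(3,32249),(4,115),(6,31)]⟩,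
⟨⟨⟨91,102,234⟩,⟨222,91,-126⟩,⟨-126,234,-53⟩⟩,true,153,80,.leaf [(0,31),(2,101),(3,287),(5,1)],.leaf [(0,31),(2,101),(3,287),(5,1)]⟩,
⟨⟨⟨91,102,-234⟩,⟨222,91,126⟩,⟨126,-234,-53⟩⟩,true,153,191,.leaf [(0,11),(1,120),(3,240),(4,1)],.leaf [(0,11),(1,120),(3,240),(4,1)]⟩,
⟨⟨⟨171,118,-174⟩,⟨-162,-69,-206⟩,⟨-134,234,27⟩⟩,true,156,18,.leaf [(2,569371),(4,2450),(5,36),(18,21409)],.leaf [(0,68021),(4,189),(5,520),(10,27642)]⟩,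
⟨⟨⟨171,118,174⟩,⟨162,69,-206⟩,⟨-134,234,-27⟩⟩,true,156,253,.leaf [(0,116),(1,6),(3,195),(5,1)],.leaf [(0,116),(1,6),(3,195),(5,1)]⟩,
⟨⟨⟨-27,-174,-206⟩,⟨-134,-171,162⟩,⟨-234,118,-69⟩⟩,true,157,108,.leaf [(1,68834),(3,38211),(4,292),(5,3)],.leaf [(1,68834),(3,38211),(4,292),(5,3)]⟩,
⟨⟨⟨27,174,-206⟩,⟨-134,-171,-162⟩,⟨-234,118,69⟩⟩,true,157,163,.leaf [(0,70),(2,275),(3,44),(4,1)],.leaf [(0,70),(2,275),(3,44),(4,1)]⟩,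
⟨⟨⟨21,66,262⟩,⟨154,213,-66⟩,⟨-222,154,-21⟩⟩,true,158,77,.leaf [(0,88),(1,64),(3,219),(5,1)],.leaf [(0,88),(1,64),(3,219),(5,1)]⟩,
⟨⟨⟨-21,-66,262⟩,⟨154,213,66⟩,⟨-222,154,21⟩⟩,true,158,194,.leaf [(0,90),(2,130),(3,241),(5,1)],.leaf [(0,90),(2,130),(3,241),(5,1)]⟩,
⟨⟨⟨-213,66,154⟩,⟨154,-21,222⟩,⟨66,262,-21⟩⟩,true,160,12,.leaf [(0,49051),(3,40650),(4,325),(5,106)],.leaf [(0,49051),(3,40650),(4,325),(5,106)]⟩,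
⟨⟨⟨213,-66,154⟩,⟨154,-21,-222⟩,⟨66,262,21⟩⟩,true,160,259,.leaf [(0,304),(1,133),(2,24),(5,1)],.leaf [(0,304),(1,133),(2,24),(5,1)]⟩,
⟨⟨⟨27,-206,-174⟩,⟨234,-69,118⟩,⟨-134,-162,171⟩⟩,true,163,114,.leaf [(3,73441),(4,352),(5,84),(7,121)],.leaf [(3,73441),(4,352),(5,84),(7,121)]⟩,
⟨⟨⟨27,-206,174⟩,⟨-234,69,118⟩,⟨-134,-162,-171⟩⟩,true,163,157,.leaf [(1,70),(2,44),(3,275),(5,1)],.leaf [(1,70),(2,44),(3,275),(5,1)]⟩,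
⟨⟨⟨-53,-126,-234⟩,⟨234,91,-102⟩,⟨126,-222,91⟩⟩,true,166,76,.leaf [(0,671),(1,188),(3,308),(14,1)],.leaf [(1,2319489),(10,521404),(15,1637),(23,38)]⟩,
⟨⟨⟨-53,-126,234⟩,⟨234,91,102⟩,⟨-126,222,91⟩⟩,true,166,195,.leaf [(0,282),(1,143),(2,66),(5,1)],.leaf [(0,282),(1,143),(2,66),(5,1)]⟩,
⟨⟨⟨171,-98,-186⟩,⟨42,-219,154⟩,⟨-206,-126,-123⟩⟩,true,169,94,.leaf [(0,121),(1,295),(3,45),(4,1)],.leaf [(0,121),(1,295),(3,45),(4,1)]⟩,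
⟨⟨⟨171,-98,186⟩,⟨-42,219,154⟩,⟨-206,-126,123⟩⟩,true,169,177,.leaf [(0,224),(1,284),(3,25),(7,1)],.leaf [(0,224),(1,284),(3,25),(7,1)]⟩,
⟨⟨⟨-27,234,-134⟩,⟨-206,69,162⟩,⟨174,118,171⟩⟩,true,172,15,.leaf [(0,141),(1,296),(2,24),(4,1)],.leaf [(0,141),(1,296),(2,24),(4,1)]⟩,
⟨⟨⟨27,-234,-134⟩,⟨-206,69,-162⟩,⟨174,118,-171⟩⟩,true,172,256,.leaf [(0,84),(2,268),(3,37),(5,1)],.leaf [(0,84),(2,268),(3,37),(5,1)]⟩,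
⟨⟨⟨69,-258,46⟩,⟨262,69,-6⟩,⟨-6,46,267⟩⟩,true,173,91,.leaf [(2,73441),(5,120),(6,11),(15,80)],.leaf [(0,537),(2,458),(5,4),(10,221)]⟩,
⟨⟨⟨-69,258,46⟩,⟨262,69,6⟩,⟨-6,46,-267⟩⟩,true,173,180,.leaf [(3,73441),(4,282),(5,273),(6,14)],.leaf [(3,73441),(4,282),(5,273),(6,14)]⟩,
⟨⟨⟨-75,154,-210⟩,⟨210,165,46⟩,⟨154,-150,-165⟩⟩,true,175,57,.leaf [(0,5691),(3,90514),(4,359),(15,10)],.leaf [(1,1809),(3,1371),(10,919),(14,1)]⟩,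
⟨⟨⟨-75,154,210⟩,⟨-210,-165,46⟩,⟨154,-150,165⟩⟩,true,175,214,.leaf [(2,73441),(4,375),(5,150),(7,146)],.leaf [(2,73441),(4,375),(5,150),(7,146)]⟩,
⟨⟨⟨-171,-186,-98⟩,⟨-206,123,126⟩,⟨-42,154,-219⟩⟩,true,177,102,.leaf [(0,45),(2,295),(3,121),(5,1)],.leaf [(0,45),(2,295),(3,121),(5,1)]⟩,
⟨⟨⟨171,186,-98⟩,⟨-206,123,-126⟩,⟨-42,154,219⟩⟩,true,177,169,.leaf [(0,284),(1,224),(2,25),(6,1)],.leaf [(0,284),(1,224),(2,25),(6,1)]⟩,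
⟨⟨⟨219,-42,154⟩,⟨-98,171,186⟩,⟨-126,-206,123⟩⟩,true,178,70,.leaf [(4,5553),(5,1227),(15,1091),(18,73441)],.leaf [(1,468288),(6,1692),(10,256637),(14,37)]⟩,
⟨⟨⟨-219,42,154⟩,⟨-98,171,-186⟩,⟨-126,-206,-123⟩⟩,true,178,201,.leaf [(2,1355),(3,26287),(5,83),(6,103)],.leaf [(2,1355),(3,26287),(5,83),(6,103)]⟩,
⟨⟨⟨-69,46,-258⟩,⟨6,267,46⟩,⟨262,6,-69⟩⟩,true,180,98,.leaf [(1,73441),(4,520),(5,451),(15,120)],.leaf [(1,135),(3,957),(10,289),(14,1)]⟩,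
⟨⟨⟨-69,46,258⟩,⟨-6,-267,46⟩,⟨262,6,69⟩⟩,true,180,173,.leaf [(2,73441),(4,273),(5,282),(7,14)],.leaf [(2,73441),(4,273),(5,282),(7,14)]⟩,
⟨⟨⟨-21,222,154⟩,⟨262,-21,66⟩,⟨66,154,-213⟩⟩,true,183,83,.leaf [(0,42547),(3,6504),(4,193),(5,64)],.leaf [(0,42547),(3,6504),(4,193),(5,64)]⟩,
⟨⟨⟨21,-222,154⟩,⟨262,-21,-66⟩,⟨66,154,213⟩⟩,true,183,188,.leaf [(0,18),(2,122),(5,1),(11,59)],.leaf [(0,603),(2,842),(5,4),(10,59)]⟩,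
⟨⟨⟨-197,66,174⟩,⟨6,-251,102⟩,⟨186,78,181⟩⟩,true,184,17,.leaf [(0,5962),(2,2439),(4,23),(6,6)],.leaf [(0,5962),(2,2439),(4,23),(6,6)]⟩,
⟨⟨⟨-197,66,-174⟩,⟨6,-251,-102⟩,⟨-186,-78,181⟩⟩,true,184,254,.leaf [(0,296),(1,72),(2,21),(4,1)],.leaf [(0,296),(1,72),(2,21),(4,1)]⟩,
⟨⟨⟨21,154,222⟩,⟨-66,-213,154⟩,⟨262,-66,21⟩⟩,true,188,88,.leaf [(0,12466),(2,46341),(4,201),(5,68)],.leaf [(0,12466),(2,46341),(4,201),(5,68)]⟩,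
⟨⟨⟨21,154,-222⟩,⟨66,213,154⟩,⟨262,-66,-21⟩⟩,true,188,183,.leaf [(1,18),(3,122),(4,1),(10,59)],.leaf [(1,165852),(3,212735),(4,1072),(15,59)]⟩,
⟨⟨⟨91,126,222⟩,⟨-234,-53,126⟩,⟨102,-234,91⟩⟩,true,189,62,.leaf [(1,3252),(2,271),(4,6),(6,11)],.leaf [(1,3252),(2,271),(4,6),(6,11)]⟩,
⟨⟨⟨91,126,-222⟩,⟨-234,-53,-126⟩,⟨-102,234,91⟩⟩,true,189,209,.leaf [(2,73441),(4,287),(5,101),(7,31)],.leaf [(2,73441),(4,287),(5,101),(7,31)]⟩,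
⟨⟨⟨-251,6,-102⟩,⟨66,-197,-174⟩,⟨-78,-186,181⟩⟩,true,190,22,.leaf [(0,73441),(4,233),(6,3),(14,27)],.leaf [(2,1897),(4,3),(6,11),(10,813)]⟩,
⟨⟨⟨-251,6,102⟩,⟨66,-197,174⟩,⟨78,186,181⟩⟩,true,190,249,.leaf [(0,47425),(3,13821),(4,215),(5,21)],.leaf [(0,47425),(3,13821),(4,215),(5,21)]⟩,
⟨⟨⟨91,-234,-102⟩,⟨126,-53,234⟩,⟨-222,-126,91⟩⟩,true,191,118,.leaf [(3,73441),(4,251),(5,131),(6,109)],.leaf [(3,73441),(4,251),(5,131),(6,109)]⟩,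
⟨⟨⟨91,-234,102⟩,⟨126,-53,-234⟩,⟨222,126,91⟩⟩,true,191,153,.leaf [(0,120),(1,11),(2,240),(5,1)],.leaf [(0,120),(1,11),(2,240),(5,1)]⟩,
⟨⟨⟨-251,66,78⟩,⟨6,-197,186⟩,⟨102,174,181⟩⟩,true,193,31,.leaf [(0,263),(1,57),(3,51),(4,1)],.leaf [(0,263),(1,57),(3,51),(4,1)]⟩,
⟨⟨⟨-251,66,-78⟩,⟨6,-197,-186⟩,⟨-102,-174,181⟩⟩,true,193,240,.leaf [(0,614628),(6,1368),(18,87533),(22,5)],.leaf [(0,233),(2,3),(4,1),(10,27)]⟩,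
⟨⟨⟨-21,262,66⟩,⟨222,-21,154⟩,⟨154,66,-213⟩⟩,true,194,113,.leaf [(0,283),(1,64),(3,24),(4,1)],.leaf [(0,283),(1,64),(3,24),(4,1)]⟩,
⟨⟨⟨-21,262,-66⟩,⟨-222,21,154⟩,⟨154,66,213⟩⟩,true,194,158,.leaf [(1,90),(2,241),(3,130),(4,1)],.leaf [(1,90),(2,241),(3,130),(4,1)]⟩,
⟨⟨⟨-53,234,126⟩,⟨-126,91,-222⟩,⟨-234,-102,91⟩⟩,true,195,105,.leaf [(3,73441),(5,21),(7,35),(15,87)],.leaf [(0,39),(3,155),(7,1),(10,93)]⟩,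
⟨⟨⟨-53,234,-126⟩,⟨-126,91,222⟩,⟨234,102,91⟩⟩,true,195,166,.leaf [(0,143),(1,282),(3,66),(4,1)],.leaf [(0,143),(1,282),(3,66),(4,1)]⟩,
⟨⟨⟨165,150,154⟩,⟨46,165,-210⟩,⟨-210,154,75⟩⟩,true,198,19,.leaf [(0,47154),(3,31165),(5,291),(6,146)],.leaf [(0,47154),(3,31165),(5,291),(6,146)]⟩,
⟨⟨⟨-165,-150,154⟩,⟨46,165,210⟩,⟨-210,154,-75⟩⟩,true,198,252,.leaf [(0,289),(1,229),(2,15),(5,1)],.leaf [(0,289),(1,229),(2,15),(5,1)]⟩,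
⟨⟨⟨-219,154,-42⟩,⟨126,123,-206⟩,⟨-98,-186,-171⟩⟩,true,201,93,.leaf [(4,4),(5,3),(7,2),(15,1)],.leaf [(4,852),(7,672),(10,73441),(14,25)]⟩,
⟨⟨⟨-219,154,42⟩,⟨-126,-123,-206⟩,⟨-98,-186,171⟩⟩,true,201,178,.leaf [(2,26287),(3,1355),(4,83),(7,103)],.leaf [(2,26287),(3,1355),(4,83),(7,103)]⟩,
⟨⟨⟨-197,-6,-186⟩,⟨-66,-251,78⟩,⟨-174,102,181⟩⟩,true,205,122,.leaf [(0,245),(1,189),(3,75),(4,1)],.leaf [(0,245),(1,189),(3,75),(4,1)]⟩,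
⟨⟨⟨-197,-6,186⟩,⟨-66,-251,-78⟩,⟨174,-102,181⟩⟩,true,205,149,.leaf [(2,73441),(4,93),(5,72),(6,224)],.leaf [(2,73441),(4,93),(5,72),(6,224)]⟩,
⟨⟨⟨-21,10,-270⟩,⟨-210,-171,10⟩,⟨-170,210,21⟩⟩,true,206,129,.leaf [(0,136),(1,280),(2,45),(4,1)],.leaf [(0,136),(1,280),(2,45),(4,1)]⟩,
⟨⟨⟨-21,10,270⟩,⟨210,171,10⟩,⟨-170,210,-21⟩⟩,true,206,142,.leaf [(0,29),(2,171),(3,291),(5,1)],.leaf [(0,29),(2,171),(3,291),(5,1)]⟩,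
⟨⟨⟨91,-222,-126⟩,⟨-102,91,-234⟩,⟨234,126,-53⟩⟩,true,209,82,.leaf [(0,2981),(2,52303),(5,179),(7,73)],.leaf [(0,2981),(2,52303),(5,179),(7,73)]⟩,
⟨⟨⟨91,-222,126⟩,⟨-102,91,234⟩,⟨-234,-126,-53⟩⟩,true,209,189,.leaf [(3,73441),(4,101),(5,287),(6,31)],.leaf [(3,73441),(4,101),(5,287),(6,31)]⟩,
⟨⟨⟨-123,186,154⟩,⟨-206,-171,42⟩,⟨126,-98,219⟩⟩,true,210,34,.leaf [(2,317070),(4,2781),(11,170188),(14,143)],.leaf [(0,109),(2,220),(4,1),(10,28)]⟩,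
⟨⟨⟨123,-186,154⟩,⟨-206,-171,-42⟩,⟨126,-98,-219⟩⟩,true,210,237,.leaf [(0,88),(1,232),(3,141),(5,1)],.leaf [(0,88),(1,232),(3,141),(5,1)]⟩,
⟨⟨⟨69,-6,262⟩,⟨46,267,-6⟩,⟨-258,46,69⟩⟩,true,212,47,.leaf [(0,13821),(3,1084),(5,60),(6,41)],.leaf [(0,13821),(3,1084),(5,60),(6,41)]⟩,
⟨⟨⟨-69,6,262⟩,⟨46,267,6⟩,⟨-258,46,-69⟩⟩,true,212,224,.leaf [(0,40),(1,91),(3,240),(5,1)],.leaf [(0,40),(1,91),(3,240),(5,1)]⟩,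
⟨⟨⟨171,-162,-134⟩,⟨118,-69,234⟩,⟨-174,-206,27⟩⟩,true,213,126,.leaf [(3,7317),(4,27),(10,3523),(15,11)],.leaf [(4,36),(5,15),(15,10),(23,1)]⟩,
⟨⟨⟨-171,162,-134⟩,⟨118,-69,-234⟩,⟨-174,-206,-27⟩⟩,true,213,145,.leaf [(0,54471),(3,8672),(4,204),(6,79)],.leaf [(0,54471),(3,8672),(4,204),(6,79)]⟩,
⟨⟨⟨75,-210,154⟩,⟨154,165,150⟩,⟨-210,46,165⟩⟩,true,214,96,.L (.leaf [(0,21409),(3,54471),(4,259),(5,19)]) (.leaf [(0,316),(1,115),(2,60),(5,1)]) (.leaf [(0,256),(1,316),(3,201),(5,1)]),.leaf [(0,246),(3,29),(5,1),(10,10)]⟩,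
⟨⟨⟨-75,210,154⟩,⟨154,165,-150⟩,⟨-210,46,-165⟩⟩,true,214,175,.leaf [(3,73441),(4,150),(5,375),(6,146)],.leaf [(3,73441),(4,150),(5,375),(6,146)]⟩,
⟨⟨⟨-219,-98,-126⟩,⟨42,171,-206⟩,⟨154,-186,-123⟩⟩,true,217,8,.leaf [(1,44715),(5,129),(11,6233),(15,47)],.leaf [(0,269),(1,698),(7,2),(10,299)]⟩,
⟨⟨⟨-219,-98,126⟩,⟨-42,-171,-206⟩,⟨154,-186,123⟩⟩,true,217,263,.leaf [(1,15),(2,284),(3,234),(7,1)],.leaf [(1,15),(2,284),(3,234),(7,1)]⟩,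
⟨⟨⟨-69,-206,162⟩,⟨-234,-27,-134⟩,⟨118,-174,-171⟩⟩,true,219,33,.leaf [(0,32),(1,276),(3,57),(5,1)],.leaf [(0,32),(1,276),(3,57),(5,1)]⟩,
⟨⟨⟨-69,-206,-162⟩,⟨234,27,-134⟩,⟨118,-174,171⟩⟩,true,219,238,.leaf [(0,73441),(4,207),(5,26),(7,318)],.leaf [(0,73441),(4,207),(5,26),(7,318)]⟩,
⟨⟨⟨-123,-206,-126⟩,⟨-186,171,-98⟩,⟨154,42,-219⟩⟩,true,222,120,.leaf [(0,32),(1,93),(2,216),(5,1)],.leaf [(0,32),(1,93),(2,216),(5,1)]⟩,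
⟨⟨⟨-123,-206,126⟩,⟨186,-171,-98⟩,⟨154,42,219⟩⟩,true,222,151,.leaf [(0,1355),(2,32249),(5,115),(7,31)],.leaf [(0,1355),(2,32249),(5,115),(7,31)]⟩,
⟨⟨⟨-165,-210,46⟩,⟨154,-75,210⟩,⟨-150,154,165⟩⟩,true,223,26,.leaf [(0,7046),(3,813),(4,26),(5,29)],.leaf [(0,7046),(3,813),(4,26),(5,29)]⟩,
⟨⟨⟨165,210,46⟩,⟨154,-75,-210⟩,⟨-150,154,-165⟩⟩,true,223,245,.leaf [(0,73441),(4,289),(5,304),(6,60)],.leaf [(0,73441),(4,289),(5,304),(6,60)]⟩,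
⟨⟨⟨-69,262,-6⟩,⟨258,69,46⟩,⟨46,6,-267⟩⟩,true,224,59,.leaf [(0,1084),(3,13821),(4,60),(5,41)],.leaf [(0,1084),(3,13821),(4,60),(5,41)]⟩,
⟨⟨⟨-69,262,6⟩,⟨-258,-69,46⟩,⟨46,6,267⟩⟩,true,224,212,.leaf [(0,91),(1,40),(2,240),(4,1)],.leaf [(0,91),(1,40),(2,240),(4,1)]⟩,
⟨⟨⟨-171,-206,-42⟩,⟨-186,123,154⟩,⟨-98,126,-219⟩⟩,true,231,5,.leaf [(0,41),(2,291),(3,177),(5,1)],.leaf [(0,41),(2,291),(3,177),(5,1)]⟩,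
⟨⟨⟨-171,-206,42⟩,⟨186,-123,154⟩,⟨-98,126,219⟩⟩,true,231,266,.leaf [(0,73441),(4,309),(5,284),(7,60)],.leaf [(0,73441),(4,309),(5,284),(7,60)]⟩,
⟨⟨⟨181,78,186⟩,⟨102,-251,6⟩,⟨174,66,-197⟩⟩,true,234,16,.leaf [(0,47425),(2,76422),(4,383),(5,180)],.leaf [(0,47425),(2,76422),(4,383),(5,180)]⟩,
⟨⟨⟨181,78,-186⟩,⟨102,-251,-6⟩,⟨-174,-66,-197⟩⟩,true,234,255,.leaf [(0,35),(2,294),(3,180),(4,1)],.leaf [(0,35),(2,294),(3,180),(4,1)]⟩,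
⟨⟨⟨181,-102,-174⟩,⟨-78,-251,66⟩,⟨-186,6,-197⟩⟩,true,236,20,.leaf [(0,65),(1,240),(2,84),(4,1)],.leaf [(0,65),(1,240),(2,84),(4,1)]⟩,
⟨⟨⟨181,-102,174⟩,⟨-78,-251,-66⟩,⟨186,-6,-197⟩⟩,true,236,251,.leaf [(0,1897),(1,3252),(4,5),(5,12)],.leaf [(0,1897),(1,3252),(4,5),(5,12)]⟩,
⟨⟨⟨123,154,186⟩,⟨-126,219,-98⟩,⟨-206,-42,171⟩⟩,true,237,61,.leaf [(3,207),(7,3),(10,236),(18,20)],.leaf [(1,2781),(3,1884),(10,1072),(15,1)]⟩,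
⟨⟨⟨123,154,-186⟩,⟨126,-219,-98⟩,⟨-206,-42,-171⟩⟩,true,237,210,.leaf [(0,232),(1,88),(2,141),(4,1)],.leaf [(0,232),(1,88),(2,141),(4,1)]⟩,
⟨⟨⟨69,162,-206⟩,⟨118,171,174⟩,⟨234,-134,-27⟩⟩,true,238,52,.leaf [(1,6233),(3,7859),(4,37),(6,1)],.leaf [(1,6233),(3,7859),(4,37),(6,1)]⟩,
⟨⟨⟨-69,-162,-206⟩,⟨118,171,-174⟩,⟨234,-134,27⟩⟩,true,238,219,.leaf [(1,73441),(4,26),(5,207),(6,318)],.leaf [(1,73441),(4,26),(5,207),(6,318)]⟩,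
⟨⟨⟨-251,-78,-66⟩,⟨-102,181,174⟩,⟨-6,186,-197⟩⟩,true,240,78,.leaf [(0,1355),(1,3252),(4,7),(5,12)],.leaf [(0,1355),(1,3252),(4,7),(5,12)]⟩,
⟨⟨⟨-251,-78,66⟩,⟨-102,181,-174⟩,⟨6,-186,-197⟩⟩,true,240,193,.leaf [(1,5149),(5,35),(14,5),(18,271)],.leaf [(1,1944),(3,1479),(10,616),(15,1)]⟩,
⟨⟨⟨171,190,-90⟩,⟨-90,171,190⟩,⟨190,-90,171⟩⟩,true,242,28,.leaf [(0,19),(1,280),(4,1)],.leaf [(0,19),(1,280),(4,1)]⟩,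
⟨⟨⟨171,190,90⟩,⟨90,-171,190⟩,⟨190,-90,-171⟩⟩,true,242,243,.leaf [(0,90),(2,271),(3,100),(4,1)],.leaf [(0,90),(2,271),(3,100),(4,1)]⟩,
⟨⟨⟨-171,-90,190⟩,⟨190,-171,90⟩,⟨90,190,171⟩⟩,true,243,29,.leaf [(2,280),(3,19),(5,1)],.leaf [(2,280),(3,19),(5,1)]⟩,
⟨⟨⟨171,90,190⟩,⟨190,-171,-90⟩,⟨90,190,-171⟩⟩,true,243,242,.leaf [(2,5149),(3,7588),(4,9),(5,28)],.leaf [(2,5149),(3,7588),(4,9),(5,28)]⟩,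
⟨⟨⟨-171,10,-210⟩,⟨210,21,-170⟩,⟨10,-270,-21⟩⟩,true,244,25,.leaf [(0,864),(7,3),(11,149),(18,136)],.leaf [(0,78861),(4,421),(7,392),(10,18428)]⟩,
⟨⟨⟨-171,10,210⟩,⟨-210,-21,-170⟩,⟨10,-270,21⟩⟩,true,244,246,.leaf [(1,66),(2,260),(3,165),(7,1)],.leaf [(1,66),(2,260),(3,165),(7,1)]⟩,
⟨⟨⟨165,46,-210⟩,⟨150,165,154⟩,⟨154,-210,75⟩⟩,true,245,48,.leaf [(1,4065),(3,39566),(4,164),(7,119)],.leaf [(1,4065),(3,39566),(4,164),(7,119)]⟩,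
⟨⟨⟨165,46,210⟩,⟨-150,-165,154⟩,⟨154,-210,-75⟩⟩,true,245,223,.leaf [(1,73441),(4,304),(5,289),(7,60)],.leaf [(1,73441),(4,304),(5,289),(7,60)]⟩,
⟨⟨⟨171,-210,10⟩,⟨10,21,270⟩,⟨-210,-170,21⟩⟩,true,246,27,.leaf [(3,73441),(4,348),(5,461),(14,68)],.leaf [(3,413817),(5,1413),(10,101896),(23,16)]⟩,
⟨⟨⟨-171,210,10⟩,⟨10,21,-270⟩,⟨-210,-170,-21⟩⟩,true,246,244,.leaf [(0,66),(2,165),(3,260),(6,1)],.leaf [(0,66),(2,165),(3,260),(6,1)]⟩,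
⟨⟨⟨-251,102,-6⟩,⟨78,181,-186⟩,⟨-66,-174,-197⟩⟩,true,249,81,.leaf [(3,163413),(7,612),(10,8672),(15,79)],.leaf [(1,5643),(3,5046),(10,2716),(23,1)]⟩,
⟨⟨⟨-251,102,6⟩,⟨78,181,186⟩,⟨66,174,-197⟩⟩,true,249,190,.leaf [(0,4607),(1,25474),(4,31),(5,98)],.leaf [(0,4607),(1,25474),(4,31),(5,98)]⟩,
⟨⟨⟨21,-170,210⟩,⟨-270,-21,10⟩,⟨10,-210,-171⟩⟩,true,250,10,.leaf [(1,3523),(3,3794),(5,19),(7,2)],.leaf [(1,3523),(3,3794),(5,19),(7,2)]⟩,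
⟨⟨⟨21,-170,-210⟩,⟨270,21,10⟩,⟨10,-210,171⟩⟩,true,250,261,.leaf [(0,2439),(3,5962),(4,31),(7,22)],.leaf [(0,2439),(3,5962),(4,31),(7,22)]⟩,
⟨⟨⟨181,174,102⟩,⟨186,-197,6⟩,⟨78,66,-251⟩⟩,true,251,35,.leaf [(0,66124),(2,54471),(4,353),(5,96)],.leaf [(0,66124),(2,54471),(4,353),(5,96)]⟩,
⟨⟨⟨181,174,-102⟩,⟨186,-197,-6⟩,⟨-78,-66,-251⟩⟩,true,251,236,.leaf [(0,236),(1,96),(2,135),(4,1)],.leaf [(0,236),(1,96),(2,135),(4,1)]⟩,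
⟨⟨⟨-165,154,150⟩,⟨210,75,154⟩,⟨46,210,-165⟩⟩,true,252,73,.leaf [(0,31165),(3,47154),(4,291),(5,146)],.leaf [(0,31165),(3,47154),(4,291),(5,146)]⟩,
⟨⟨⟨-165,154,-150⟩,⟨-210,-75,154⟩,⟨46,210,165⟩⟩,true,252,198,.leaf [(0,229),(1,289),(3,15),(4,1)],.leaf [(0,229),(1,289),(3,15),(4,1)]⟩,
⟨⟨⟨-171,-174,118⟩,⟨-134,-27,-234⟩,⟨162,-206,-69⟩⟩,true,253,115,.leaf [(5,753),(6,393),(10,73441),(15,109)],.leaf [(1,2160),(3,1800),(10,971),(14,1)]⟩,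
⟨⟨⟨171,174,118⟩,⟨-134,-27,234⟩,⟨162,-206,69⟩⟩,true,253,156,.leaf [(0,6),(1,116),(2,195),(4,1)],.leaf [(0,6),(1,116),(2,195),(4,1)]⟩,
⟨⟨⟨-197,-174,-66⟩,⟨-186,181,78⟩,⟨-6,102,-251⟩⟩,true,254,87,.leaf [(1,50),(2,276),(3,135),(5,1)],.leaf [(1,50),(2,276),(3,135),(5,1)]⟩,
⟨⟨⟨-197,-174,66⟩,⟨-186,181,-78⟩,⟨6,-102,-251⟩⟩,true,254,184,.leaf [(0,72),(1,296),(3,21),(5,1)],.leaf [(0,72),(1,296),(3,21),(5,1)]⟩,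
⟨⟨⟨181,-186,-78⟩,⟨-174,-197,66⟩,⟨-102,6,-251⟩⟩,true,255,37,.leaf [(1,15989),(2,5691),(4,81),(5,25)],.leaf [(1,15989),(2,5691),(4,81),(5,25)]⟩,
⟨⟨⟨181,-186,78⟩,⟨-174,-197,-66⟩,⟨102,-6,-251⟩⟩,true,255,234,.leaf [(0,15718),(1,22493),(4,38),(5,85)],.leaf [(0,15718),(1,22493),(4,38),(5,85)]⟩,
⟨⟨⟨27,-134,234⟩,⟨-174,171,118⟩,⟨-206,-162,-69⟩⟩,true,256,99,.leaf [(1,3794),(3,19783),(5,74),(7,7)],.leaf [(1,3794),(3,19783),(5,74),(7,7)]⟩,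
⟨⟨⟨27,-134,-234⟩,⟨174,-171,118⟩,⟨-206,-162,69⟩⟩,true,256,172,.leaf [(1,84),(2,37),(3,268),(4,1)],.leaf [(1,84),(2,37),(3,268),(4,1)]⟩,
⟨⟨⟨69,118,234⟩,⟨162,171,-134⟩,⟨-206,174,-27⟩⟩,true,257,133,.leaf [(0,56),(1,21),(3,240),(5,1)],.leaf [(0,56),(1,21),(3,240),(5,1)]⟩,
⟨⟨⟨69,118,-234⟩,⟨-162,-171,-134⟩,⟨-206,174,27⟩⟩,true,257,138,.leaf [(1,21),(2,289),(3,79),(4,1)],.leaf [(1,21),(2,289),(3,79),(4,1)]⟩,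
⟨⟨⟨213,154,66⟩,⟨-66,-21,262⟩,⟨154,-222,21⟩⟩,true,259,111,.leaf [(0,46),(1,196),(2,129),(4,1)],.leaf [(0,46),(1,196),(2,129),(4,1)]⟩,
⟨⟨⟨213,154,-66⟩,⟨66,21,262⟩,⟨154,-222,-21⟩⟩,true,259,160,.leaf [(0,133),(1,304),(3,24),(4,1)],.leaf [(0,133),(1,304),(3,24),(4,1)]⟩,
⟨⟨⟨-21,210,-170⟩,⟨10,171,210⟩,⟨270,10,-21⟩⟩,true,261,21,.leaf [(0,39),(1,194),(3,186),(4,1)],.leaf [(0,39),(1,194),(3,186),(4,1)]⟩,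
⟨⟨⟨21,-210,-170⟩,⟨10,171,-210⟩,⟨270,10,21⟩⟩,true,261,250,.leaf [(1,2439),(2,5962),(5,31),(6,22)],.leaf [(1,2439),(2,5962),(5,31),(6,22)]⟩,
⟨⟨⟨219,-126,-98⟩,⟨154,123,186⟩,⟨-42,-206,171⟩⟩,true,263,54,.leaf [(2,15447),(6,39),(10,542),(14,14)],.leaf [(1,2349),(3,855),(22,1),(26,19)]⟩,
⟨⟨⟨-219,126,-98⟩,⟨154,123,-186⟩,⟨-42,-206,-171⟩⟩,true,263,217,.leaf [(0,15),(2,234),(3,284),(6,1)],.leaf [(0,15),(2,234),(3,284),(6,1)]⟩,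
⟨⟨⟨171,-42,-206⟩,⟨-98,219,-126⟩,⟨186,154,123⟩⟩,true,266,40,.leaf [(1,114),(2,177),(3,218),(6,1)],.leaf [(1,114),(2,177),(3,218),(6,1)]⟩,
⟨⟨⟨-171,42,-206⟩,⟨-98,219,126⟩,⟨186,154,-123⟩⟩,true,266,231,.leaf [(1,73441),(4,284),(5,309),(6,60)],.leaf [(1,73441),(4,284),(5,309),(6,60)]⟩]

theorem primeOk_271 : PrimeOk 271 := primeOk (by norm_num) (by norm_num) (by norm_num) L271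
  (by decide +kernel) (by decide +kernel)

end Pool.Agent.Lib.H63.TSP
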