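import Mathlib
import Pool.Agent.Lib.H63.TSPPrime

/-!
# Generated certificates for the primes 53, 83, 173, 269
-/

set_option autoImplicit false

namespace Pool.Agent.Lib.H63.TSP

def L53 : List Cls := [
⟨⟨⟨-53,0,0⟩,⟨0,45,28⟩,⟨0,28,-45⟩⟩,false,0,23,.leaf [(0,106),(1,371),(4,2),(5,7)],.leaf [(0,106),(1,371),(4,2),(5,7)]⟩,
⟨⟨⟨-53,0,0⟩,⟨0,-45,28⟩,⟨0,28,45⟩⟩,false,0,30,.leaf [(0,45),(1,10),(3,18),(4,1)],.leaf [(0,45),(1,10),(3,18),(4,1)]⟩,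
⟨⟨⟨45,0,28⟩,⟨0,-53,0⟩,⟨28,0,-45⟩⟩,true,0,23,.leaf [(0,265),(1,371),(4,5),(5,7)],.leaf [(0,265),(1,371),(4,5),(5,7)]⟩,
⟨⟨⟨-45,0,28⟩,⟨0,-53,0⟩,⟨28,0,45⟩⟩,true,0,30,.leaf [(2,2809),(4,53),(5,63),(7,35)],.leaf [(2,2809),(4,53),(5,63),(7,35)]⟩,
⟨⟨⟨27,28,36⟩,⟨-44,27,12⟩,⟨-12,-36,37⟩⟩,true,3,19,.leaf [(2,285),(4,18),(11,52),(18,95)],.leaf [(0,24),(2,19),(6,1),(10,12)]⟩,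
⟨⟨⟨27,28,-36⟩,⟨-44,27,-12⟩,⟨12,36,37⟩⟩,true,3,34,.leaf [(2,2809),(4,60),(5,48),(6,43)],.leaf [(2,2809),(4,60),(5,48),(6,43)]⟩,
⟨⟨⟨51,-8,-12⟩,⟨-8,21,-48⟩,⟨12,48,19⟩⟩,true,4,6,.leaf [(2,371),(3,265),(5,5),(6,7)],.leaf [(2,371),(3,265),(5,5),(6,7)]⟩,
⟨⟨⟨51,-8,12⟩,⟨-8,21,48⟩,⟨-12,-48,19⟩⟩,true,4,47,.leaf [(1,24),(4,3),(10,32),(18,11)],.leaf [(1,26712),(6,357),(10,11713),(14,32)]⟩,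
⟨⟨⟨51,-12,-8⟩,⟨12,19,48⟩,⟨-8,-48,21⟩⟩,true,6,4,.leaf [(2,265),(3,371),(4,5),(7,7)],.leaf [(2,265),(3,371),(4,5),(7,7)]⟩,
⟨⟨⟨-51,12,-8⟩,⟨12,19,-48⟩,⟨-8,-48,-21⟩⟩,true,6,49,.leaf [(2,265),(5,6),(7,10),(18,53)],.leaf [(2,265),(4,25),(7,24),(10,424)]⟩,
⟨⟨⟨19,12,-48⟩,⟨12,-51,-8⟩,⟨-48,-8,-21⟩⟩,true,9,17,.leaf [(0,8),(2,55),(3,40),(4,1)],.leaf [(0,8),(2,55),(3,40),(4,1)]⟩,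
⟨⟨⟨19,12,48⟩,⟨-12,51,-8⟩,⟨-48,-8,21⟩⟩,true,9,36,.leaf [(5,864),(10,10547),(14,401),(18,1908)],.leaf [(3,5088),(10,795),(14,25),(22,4)]⟩,
⟨⟨⟨37,36,-12⟩,⟨12,-27,-44⟩,⟨-36,28,-27⟩⟩,true,11,14,.leaf [(0,2809),(4,39),(5,52),(7,12)],.leaf [(0,2809),(4,39),(5,52),(7,12)]⟩,
⟨⟨⟨37,36,12⟩,⟨-12,27,-44⟩,⟨-36,28,27⟩⟩,true,11,39,.leaf [(7,42),(11,742),(14,5),(18,159)],.leaf [(0,87),(2,130),(7,4),(10,39)]⟩,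
⟨⟨⟨-21,-8,-48⟩,⟨-8,-51,12⟩,⟨-48,12,19⟩⟩,true,13,25,.leaf [(1,2),(2,43),(3,58),(4,1)],.leaf [(1,2),(2,43),(3,58),(4,1)]⟩,
⟨⟨⟨-21,-8,48⟩,⟨-8,-51,-12⟩,⟨48,-12,19⟩⟩,true,13,28,.leaf [(1,189),(2,35),(5,5),(18,11)],.leaf [(2,265),(4,9),(5,4),(10,106)]⟩,
⟨⟨⟨37,-12,36⟩,⟨-36,-27,28⟩,⟨12,-44,-27⟩⟩,true,14,11,.leaf [(1,2809),(4,52),(5,39),(6,12)],.leaf [(1,2809),(4,52),(5,39),(6,12)]⟩,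
⟨⟨⟨37,-12,-36⟩,⟨36,27,28⟩,⟨12,-44,27⟩⟩,true,14,42,.leaf [(3,11236),(4,87),(6,130),(14,39)],.leaf [(1,945),(3,258),(10,196),(23,1)]⟩,
⟨⟨⟨19,-48,12⟩,⟨-48,-21,-8⟩,⟨12,-8,-51⟩⟩,true,17,9,.leaf [(1,8),(2,40),(3,55),(5,1)],.leaf [(1,8),(2,40),(3,55),(5,1)]⟩,
⟨⟨⟨19,-48,-12⟩,⟨48,21,-8⟩,⟨12,-8,51⟩⟩,true,17,44,.leaf [(2,126),(11,7),(15,1),(18,6)],.leaf [(2,8),(3,56),(6,1),(10,19)]⟩,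
⟨⟨⟨27,-44,12⟩,⟨28,27,36⟩,⟨-36,-12,37⟩⟩,true,18,24,.leaf [(0,2754),(3,2619),(18,502),(23,1)],.leaf [(0,18),(3,31),(5,1),(10,14)]⟩,
⟨⟨⟨27,-44,-12⟩,⟨28,27,-36⟩,⟨36,12,37⟩⟩,true,18,29,.leaf [(2,2809),(5,52),(6,39),(15,4)],.leaf [(1,3975),(5,29),(6,55),(10,689)]⟩,
⟨⟨⟨27,36,28⟩,⟨-12,37,-36⟩,⟨-44,12,27⟩⟩,true,19,3,.leaf [(3,261),(7,3),(10,4),(18,28)],.leaf [(1,216),(10,25),(14,1)]⟩,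
⟨⟨⟨-27,-36,28⟩,⟨-12,37,36⟩,⟨-44,12,-27⟩⟩,true,19,50,.leaf [(0,5),(2,43),(3,55),(5,1)],.leaf [(0,5),(2,43),(3,55),(5,1)]⟩,
⟨⟨⟨45,28,0⟩,⟨28,-45,0⟩,⟨0,0,-53⟩⟩,true,23,0,.leaf [(0,28),(2,45),(4,1)],.leaf [(0,28),(2,45),(4,1)]⟩,
⟨⟨⟨27,12,-44⟩,⟨-36,37,-12⟩,⟨28,36,27⟩⟩,true,24,18,.leaf [(2,1325),(4,35),(14,12),(18,212)],.leaf [(1,25),(5,1),(10,24)]⟩,
⟨⟨⟨-27,-12,-44⟩,⟨-36,37,12⟩,⟨28,36,-27⟩⟩,true,24,35,.leaf [(1,24539),(4,540),(5,485),(18,636)],.leaf [(1,31),(2,36),(5,1),(10,12)]⟩,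
⟨⟨⟨-21,-48,-8⟩,⟨-48,19,12⟩,⟨-8,12,-51⟩⟩,true,25,13,.leaf [(0,2),(2,58),(3,43),(5,1)],.leaf [(0,2),(2,58),(3,43),(5,1)]⟩,
⟨⟨⟨21,48,-8⟩,⟨-48,19,-12⟩,⟨-8,12,51⟩⟩,true,25,40,.leaf [(1,8427),(4,212),(7,151),(15,26)],.leaf [(1,84),(2,7),(4,1),(10,22)]⟩,
⟨⟨⟨-21,48,-8⟩,⟨48,19,-12⟩,⟨-8,-12,-51⟩⟩,true,28,13,.L (.leaf [(0,265),(1,371),(4,5),(5,7)]) (.leaf [(0,66),(2,7),(6,1),(11,28)]) (.leaf [(0,53),(1,35),(3,63),(4,1)]),.leaf [(0,18),(3,40),(4,1),(10,11)]⟩,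
⟨⟨⟨21,-48,-8⟩,⟨48,19,12⟩,⟨-8,-12,51⟩⟩,true,28,40,.leaf [(0,15),(2,45),(3,43),(7,1)],.leaf [(0,15),(2,45),(3,43),(7,1)]⟩,
⟨⟨⟨27,-12,-44⟩,⟨36,37,12⟩,⟨28,-36,27⟩⟩,true,29,18,.leaf [(3,2809),(4,52),(7,39),(14,4)],.leaf [(0,42),(3,7),(7,1),(10,6)]⟩,
⟨⟨⟨-27,12,-44⟩,⟨36,37,-12⟩,⟨28,-36,-27⟩⟩,true,29,35,.leaf [(0,3213),(3,2772),(18,578),(22,1)],.leaf [(3,53),(4,4),(7,13),(10,212)]⟩,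
⟨⟨⟨-45,28,0⟩,⟨28,45,0⟩,⟨0,0,-53⟩⟩,true,30,0,.leaf [(3,2809),(4,63),(5,53),(6,35)],.leaf [(3,2809),(4,63),(5,53),(6,35)]⟩,
⟨⟨⟨27,-36,28⟩,⟨12,37,36⟩,⟨-44,-12,27⟩⟩,true,34,3,.leaf [(3,2809),(4,48),(5,60),(7,43)],.leaf [(3,2809),(4,48),(5,60),(7,43)]⟩,
⟨⟨⟨-27,36,28⟩,⟨12,37,-36⟩,⟨-44,-12,-27⟩⟩,true,34,50,.leaf [(1,3286),(5,130),(14,45),(18,159)],.leaf [(1,567),(3,306),(10,196),(15,1)]⟩,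
⟨⟨⟨-27,-44,-12⟩,⟨28,-27,36⟩,⟨-36,12,37⟩⟩,true,35,24,.leaf [(0,972),(18,115),(22,1)],.leaf [(0,2915),(4,47),(5,72),(10,318)]⟩,
⟨⟨⟨-27,-44,12⟩,⟨28,-27,-36⟩,⟨36,-12,37⟩⟩,true,35,29,.leaf [(2,1219),(5,56),(6,23),(18,212)],.leaf [(1,87),(2,4),(5,1),(10,28)]⟩,
⟨⟨⟨19,48,12⟩,⟨-48,21,-8⟩,⟨-12,-8,51⟩⟩,true,36,9,.leaf [(4,189),(11,2173),(15,43),(18,477)],.leaf [(0,3),(2,94),(7,4),(10,63)]⟩,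
⟨⟨⟨19,48,-12⟩,⟨48,-21,-8⟩,⟨-12,-8,-51⟩⟩,true,36,44,.leaf [(0,51),(1,4),(2,18),(4,1)],.leaf [(0,51),(1,4),(2,18),(4,1)]⟩,
⟨⟨⟨37,12,36⟩,⟨-36,27,28⟩,⟨-12,-44,27⟩⟩,true,39,11,.leaf [(3,252),(6,3),(10,7),(18,22)],.leaf [(1,513),(3,231),(10,161),(14,1)]⟩,
⟨⟨⟨37,12,-36⟩,⟨36,-27,28⟩,⟨-12,-44,-27⟩⟩,true,39,42,.leaf [(0,39),(1,52),(3,12),(4,1)],.leaf [(0,39),(1,52),(3,12),(4,1)]⟩,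
⟨⟨⟨21,-8,48⟩,⟨-8,51,12⟩,⟨-48,-12,19⟩⟩,true,40,25,.leaf [(0,8427),(5,212),(6,151),(14,26)],.leaf [(3,742),(5,14),(6,5),(10,159)]⟩,
⟨⟨⟨21,-8,-48⟩,⟨-8,51,-12⟩,⟨48,12,19⟩⟩,true,40,28,.leaf [(1,15),(2,43),(3,45),(6,1)],.leaf [(1,15),(2,43),(3,45),(6,1)]⟩,
⟨⟨⟨37,-36,-12⟩,⟨12,27,-44⟩,⟨36,28,27⟩⟩,true,42,14,.leaf [(2,11236),(5,87),(7,130),(15,39)],.leaf [(0,91),(2,126),(5,4),(10,39)]⟩,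
⟨⟨⟨37,-36,12⟩,⟨-12,-27,-44⟩,⟨36,28,-27⟩⟩,true,42,39,.leaf [(0,52),(1,39),(2,12),(5,1)],.leaf [(0,52),(1,39),(2,12),(5,1)]⟩,
⟨⟨⟨19,-12,-48⟩,⟨12,51,-8⟩,⟨48,-8,21⟩⟩,true,44,17,.leaf [(3,11925),(7,87),(14,55),(18,689)],.L (.leaf [(0,115),(4,1),(18,12)]) (.L (.leaf [(1,2809),(4,52),(5,39),(6,12)]) (.leaf [(0,12),(1,64),(2,51),(4,1)]) (.leaf [(1,265),(3,689),(4,13),(6,5)])) (.leaf [(0,1),(1,48),(3,24),(4,1)])⟩,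
⟨⟨⟨19,-12,48⟩,⟨-12,-51,-8⟩,⟨48,-8,-21⟩⟩,true,44,36,.leaf [(0,106),(1,371),(4,2),(5,7)],.leaf [(0,106),(1,371),(4,2),(5,7)]⟩,
⟨⟨⟨51,12,-8⟩,⟨-12,19,-48⟩,⟨-8,48,21⟩⟩,true,47,4,.leaf [(0,27189),(4,639),(18,6148),(22,2)],.leaf [(0,1219),(4,23),(5,56),(10,636)]⟩,
⟨⟨⟨-51,-12,-8⟩,⟨-12,19,48⟩,⟨-8,48,-21⟩⟩,true,47,49,.leaf [(0,265),(1,371),(4,5),(5,7)],.leaf [(0,265),(1,371),(4,5),(5,7)]⟩,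
⟨⟨⟨-51,-8,12⟩,⟨-8,-21,-48⟩,⟨12,-48,19⟩⟩,true,49,6,.leaf [(3,25),(5,1),(18,8)],.leaf [(3,636),(4,27),(10,530),(14,1)]⟩,
⟨⟨⟨-51,-8,-12⟩,⟨-8,-21,48⟩,⟨-12,48,19⟩⟩,true,49,47,.leaf [(1,2),(2,13),(3,58),(4,1)],.leaf [(1,2),(2,13),(3,58),(4,1)]⟩,
⟨⟨⟨-27,28,-36⟩,⟨-44,-27,12⟩,⟨-12,36,37⟩⟩,true,50,19,.leaf [(1,5),(2,55),(3,43),(4,1)],.leaf [(1,5),(2,55),(3,43),(4,1)]⟩,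
⟨⟨⟨-27,28,36⟩,⟨-44,-27,-12⟩,⟨12,-36,37⟩⟩,true,50,34,.leaf [(0,115),(4,1),(18,12)],.leaf [(0,7),(2,36),(4,1),(10,12)]⟩]

theorem primeOk_53 : PrimeOk 53 := primeOk (by norm_num) (by norm_num) (by norm_num) L53
  (by decide +kernel) (by decide +kernel)

def L83 : List Cls := [
⟨⟨⟨81,-2,-18⟩,⟨-2,81,-18⟩,⟨18,18,79⟩⟩,true,1,9,.leaf [(0,18),(1,36),(2,61),(6,1)],.leaf [(0,18),(1,36),(2,61),(6,1)]⟩,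
⟨⟨⟨81,-2,18⟩,⟨-2,81,18⟩,⟨-18,-18,79⟩⟩,true,1,74,.leaf [(2,7885),(6,97),(11,332),(14,10)],.leaf [(2,2075),(5,12),(6,35),(10,498)]⟩,
⟨⟨⟨33,66,-38⟩,⟨18,-47,-66⟩,⟨-74,18,-33⟩⟩,true,2,24,.leaf [(4,612),(5,243),(11,13778),(15,17)],.leaf [(0,42),(2,64),(4,1),(10,7)]⟩,
⟨⟨⟨-33,-66,-38⟩,⟨18,-47,66⟩,⟨-74,18,33⟩⟩,true,2,59,.leaf [(1,1162),(3,6225),(4,84),(5,19)],.leaf [(1,1162),(3,6225),(4,84),(5,19)]⟩,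
⟨⟨⟨33,-18,-74⟩,⟨-66,-47,-18⟩,⟨-38,66,-33⟩⟩,true,7,38,.leaf [(1,2905),(2,2241),(4,57),(5,7)],.leaf [(1,2905),(2,2241),(4,57),(5,7)]⟩,
⟨⟨⟨-33,18,-74⟩,⟨-66,-47,18⟩,⟨-38,66,33⟩⟩,true,7,45,.leaf [(0,62),(1,92),(2,3),(4,1)],.leaf [(0,62),(1,92),(2,3),(4,1)]⟩,
⟨⟨⟨81,-18,-2⟩,⟨18,79,18⟩,⟨-2,-18,81⟩⟩,true,9,1,.leaf [(0,36),(1,18),(3,61),(7,1)],.leaf [(0,36),(1,18),(3,61),(7,1)]⟩,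
⟨⟨⟨-81,18,-2⟩,⟨18,79,-18⟩,⟨-2,-18,-81⟩⟩,true,9,82,.leaf [(1,6889),(5,88),(15,9)],.leaf [(1,1647),(3,570),(10,380),(23,1)]⟩,
⟨⟨⟨-63,34,42⟩,⟨-2,63,-54⟩,⟨-54,-42,-47⟩⟩,true,10,27,.leaf [(1,2739),(3,6806),(5,97),(6,76)],.leaf [(1,2739),(3,6806),(5,97),(6,76)]⟩,
⟨⟨⟨-63,34,-42⟩,⟨-2,63,54⟩,⟨54,42,-47⟩⟩,true,10,56,.leaf [(1,6889),(4,68),(5,101),(6,12)],.leaf [(1,6889),(4,68),(5,101),(6,12)]⟩,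
⟨⟨⟨63,-54,-2⟩,⟨-42,-47,-54⟩,⟨34,42,-63⟩⟩,true,11,25,.leaf [(0,93),(1,61),(2,3),(5,1)],.leaf [(0,93),(1,61),(2,3),(5,1)]⟩,
⟨⟨⟨-63,54,-2⟩,⟨-42,-47,54⟩,⟨34,42,63⟩⟩,true,11,58,.leaf [(0,89),(1,56),(2,12),(4,1)],.leaf [(0,89),(1,56),(2,12),(4,1)]⟩,
⟨⟨⟨-47,-66,-18⟩,⟨-18,33,-74⟩,⟨66,-38,-33⟩⟩,true,12,41,.leaf [(1,6889),(5,50),(7,35),(15,14)],.leaf [(1,16932),(5,132),(10,4067),(14,7)]⟩,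
⟨⟨⟨-47,-66,18⟩,⟨18,-33,-74⟩,⟨66,-38,33⟩⟩,true,12,42,.leaf [(2,35939),(5,588),(6,50),(18,2905)],.leaf [(0,21),(2,64),(6,1),(10,14)]⟩,
⟨⟨⟨-47,42,-54⟩,⟨-54,-63,-2⟩,⟨-42,34,63⟩⟩,true,15,40,.leaf [(0,75),(1,52),(2,30),(4,1)],.leaf [(0,75),(1,52),(2,30),(4,1)]⟩,
⟨⟨⟨-47,42,54⟩,⟨54,63,-2⟩,⟨-42,34,-63⟩⟩,true,15,43,.leaf [(1,1079),(3,1162),(5,19),(7,2)],.leaf [(1,1079),(3,1162),(5,19),(7,2)]⟩,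
⟨⟨⟨-33,-30,70⟩,⟨-30,-65,-42⟩,⟨70,-42,15⟩⟩,true,16,18,.leaf [(2,6889),(4,95),(5,93),(7,65)],.leaf [(2,6889),(4,95),(5,93),(7,65)]⟩,
⟨⟨⟨33,30,70⟩,⟨-30,-65,42⟩,⟨70,-42,-15⟩⟩,true,16,65,.leaf [(2,6889),(4,95),(5,30),(7,2)],.leaf [(2,6889),(4,95),(5,30),(7,2)]⟩,
⟨⟨⟨-33,70,-30⟩,⟨70,15,-42⟩,⟨-30,-42,-65⟩⟩,true,18,16,.leaf [(3,6889),(4,93),(5,95),(6,65)],.leaf [(3,6889),(4,93),(5,95),(6,65)]⟩,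
⟨⟨⟨-33,70,30⟩,⟨70,15,42⟩,⟨30,42,-65⟩⟩,true,18,67,.leaf [(0,3071),(3,2490),(4,65),(5,18)],.leaf [(0,3071),(3,2490),(4,65),(5,18)]⟩,
⟨⟨⟨-15,70,-42⟩,⟨70,33,30⟩,⟨42,-30,-65⟩⟩,true,23,36,.leaf [(0,37),(1,12),(3,60),(4,1)],.leaf [(0,37),(1,12),(3,60),(4,1)]⟩,
⟨⟨⟨-15,70,42⟩,⟨70,33,-30⟩,⟨-42,30,-65⟩⟩,true,23,47,.leaf [(3,6889),(4,60),(5,107),(6,20)],.leaf [(3,6889),(4,60),(5,107),(6,20)]⟩,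
⟨⟨⟨33,-38,66⟩,⟨-74,-33,18⟩,⟨18,-66,-47⟩⟩,true,24,2,.leaf [(4,243),(5,612),(10,13778),(14,17)],.leaf [(5,8748),(15,7812),(26,75779),(30,31)]⟩,
⟨⟨⟨33,-38,-66⟩,⟨-74,-33,-18⟩,⟨-18,66,-47⟩⟩,true,24,81,.leaf [(1,664),(2,747),(4,17),(5,8)],.leaf [(1,664),(2,747),(4,17),(5,8)]⟩,
⟨⟨⟨63,-2,-54⟩,⟨34,-63,42⟩,⟨-42,-54,-47⟩⟩,true,25,11,.leaf [(0,61),(1,93),(3,3),(4,1)],.leaf [(0,61),(1,93),(3,3),(4,1)]⟩,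
⟨⟨⟨63,-2,54⟩,⟨34,-63,-42⟩,⟨42,54,-47⟩⟩,true,25,72,.leaf [(0,56),(1,68),(3,33),(5,1)],.leaf [(0,56),(1,68),(3,33),(5,1)]⟩,
⟨⟨⟨-65,-30,42⟩,⟨30,33,70⟩,⟨-42,70,-15⟩⟩,true,26,30,.leaf [(0,166),(3,1245),(4,18),(5,13)],.leaf [(0,166),(3,1245),(4,18),(5,13)]⟩,
⟨⟨⟨-65,-30,-42⟩,⟨-30,-33,70⟩,⟨-42,70,15⟩⟩,true,26,53,.leaf [(0,3),(1,40),(3,72),(4,1)],.leaf [(0,3),(1,40),(3,72),(4,1)]⟩,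
⟨⟨⟨-63,42,34⟩,⟨-54,-47,-42⟩,⟨-2,-54,63⟩⟩,true,27,10,.leaf [(0,2739),(2,6806),(4,97),(7,76)],.leaf [(0,2739),(2,6806),(4,97),(7,76)]⟩,
⟨⟨⟨63,-42,34⟩,⟨-54,-47,42⟩,⟨-2,-54,-63⟩⟩,true,27,73,.leaf [(1,6889),(4,96),(5,64),(7,3)],.leaf [(1,6889),(4,96),(5,64),(7,3)]⟩,
⟨⟨⟨-65,42,-30⟩,⟨-42,-15,70⟩,⟨30,70,33⟩⟩,true,30,26,.leaf [(0,57),(1,67),(3,33),(4,1)],.leaf [(0,57),(1,67),(3,33),(4,1)]⟩,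
⟨⟨⟨-65,42,30⟩,⟨42,15,70⟩,⟨30,70,-33⟩⟩,true,30,57,.leaf [(0,3071),(3,4980),(4,93),(5,20)],.leaf [(0,3071),(3,4980),(4,93),(5,20)]⟩,
⟨⟨⟨-15,-42,70⟩,⟨42,-65,-30⟩,⟨70,30,33⟩⟩,true,36,23,.leaf [(0,12),(1,37),(2,60),(5,1)],.leaf [(0,12),(1,37),(2,60),(5,1)]⟩,
⟨⟨⟨15,42,70⟩,⟨42,-65,30⟩,⟨70,30,-33⟩⟩,true,36,60,.leaf [(0,5561),(2,4980),(4,103),(5,40)],.leaf [(0,5561),(2,4980),(4,103),(5,40)]⟩,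
⟨⟨⟨79,18,18⟩,⟨-18,81,-2⟩,⟨-18,-2,81⟩⟩,true,37,37,.leaf [(3,134460),(4,4617),(18,55195),(23,28)],.leaf [(1,47061),(7,513),(10,25232),(15,56)]⟩,
⟨⟨⟨79,18,-18⟩,⟨18,-81,-2⟩,⟨-18,-2,-81⟩⟩,true,37,46,.leaf [(0,27),(1,16),(2,72),(4,1)],.leaf [(0,27),(1,16),(2,72),(4,1)]⟩,
⟨⟨⟨33,-74,-18⟩,⟨-38,-33,66⟩,⟨-66,-18,-47⟩⟩,true,38,7,.leaf [(2,415),(3,1162),(4,9),(5,14)],.leaf [(2,415),(3,1162),(4,9),(5,14)]⟩,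
⟨⟨⟨33,-74,18⟩,⟨-38,-33,-66⟩,⟨66,18,-47⟩⟩,true,38,76,.leaf [(1,3),(2,92),(3,62),(5,1)],.leaf [(1,3),(2,92),(3,62),(5,1)]⟩,
⟨⟨⟨-47,-54,42⟩,⟨-42,63,34⟩,⟨-54,-2,-63⟩⟩,true,40,15,.leaf [(0,52),(1,75),(3,30),(5,1)],.leaf [(0,52),(1,75),(3,30),(5,1)]⟩,
⟨⟨⟨-47,-54,-42⟩,⟨42,-63,34⟩,⟨-54,-2,63⟩⟩,true,40,68,.leaf [(0,747),(3,4316),(4,57),(6,2)],.leaf [(0,747),(3,4316),(4,57),(6,2)]⟩,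
⟨⟨⟨-47,-18,-66⟩,⟨66,-33,-38⟩,⟨-18,-74,33⟩⟩,true,41,12,.leaf [(0,6889),(4,50),(6,35),(14,14)],.leaf [(3,6308),(4,66),(6,5),(10,1245)]⟩,
⟨⟨⟨-47,-18,66⟩,⟨-66,33,-38⟩,⟨-18,-74,-33⟩⟩,true,41,71,.leaf [(1,24651),(6,357),(10,415),(15,65)],.leaf [(1,540),(3,204),(10,245),(14,1)]⟩,
⟨⟨⟨-47,18,-66⟩,⟨66,33,-38⟩,⟨18,-74,-33⟩⟩,true,42,12,.leaf [(3,50796),(7,396),(18,4067),(22,7)],.leaf [(1,332),(3,249),(4,8),(15,3)]⟩,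
⟨⟨⟨-47,18,66⟩,⟨-66,-33,-38⟩,⟨18,-74,33⟩⟩,true,42,71,.leaf [(1,84),(2,65),(6,2),(18,7)],.leaf [(1,40),(2,15),(4,1),(10,36)]⟩,
⟨⟨⟨-47,54,42⟩,⟨-42,-63,34⟩,⟨54,-2,63⟩⟩,true,43,15,.leaf [(0,1079),(2,1162),(4,19),(6,2)],.leaf [(0,1079),(2,1162),(4,19),(6,2)]⟩,
⟨⟨⟨-47,54,-42⟩,⟨42,63,34⟩,⟨54,-2,-63⟩⟩,true,43,68,.leaf [(1,166),(3,4731),(4,52),(7,9)],.leaf [(1,166),(3,4731),(4,52),(7,9)]⟩,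
⟨⟨⟨-33,-74,18⟩,⟨-38,33,66⟩,⟨-66,18,-47⟩⟩,true,45,7,.leaf [(0,92),(1,62),(3,3),(5,1)],.leaf [(0,92),(1,62),(3,3),(5,1)]⟩,
⟨⟨⟨-33,-74,-18⟩,⟨-38,33,-66⟩,⟨66,-18,-47⟩⟩,true,45,76,.leaf [(1,2241),(2,2905),(5,57),(6,7)],.leaf [(1,2241),(2,2905),(5,57),(6,7)]⟩,
⟨⟨⟨79,-18,18⟩,⟨-18,-81,-2⟩,⟨18,-2,-81⟩⟩,true,46,37,.leaf [(0,332),(1,415),(4,4),(5,5)],.leaf [(0,332),(1,415),(4,4),(5,5)]⟩,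
⟨⟨⟨79,-18,-18⟩,⟨18,81,-2⟩,⟨18,-2,81⟩⟩,true,46,46,.leaf [(0,201690),(7,3807),(18,54614),(23,35)],.leaf [(3,2241),(5,81),(10,2656),(15,4)]⟩,
⟨⟨⟨-15,42,70⟩,⟨-42,-65,30⟩,⟨70,-30,33⟩⟩,true,47,23,.leaf [(2,6889),(4,107),(5,60),(7,20)],.leaf [(2,6889),(4,107),(5,60),(7,20)]⟩,
⟨⟨⟨15,-42,70⟩,⟨-42,-65,-30⟩,⟨70,-30,-33⟩⟩,true,47,60,.leaf [(0,12),(1,85),(3,18),(5,1)],.leaf [(0,12),(1,85),(3,18),(5,1)]⟩,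
⟨⟨⟨-65,-42,-30⟩,⟨-42,15,70⟩,⟨-30,70,-33⟩⟩,true,53,26,.leaf [(1,5395),(3,5976),(4,112),(5,57)],.leaf [(1,5395),(3,5976),(4,112),(5,57)]⟩,
⟨⟨⟨-65,-42,30⟩,⟨42,-15,70⟩,⟨-30,70,33⟩⟩,true,53,57,.leaf [(0,2573),(1,913),(4,25),(5,29)],.leaf [(0,2573),(1,913),(4,25),(5,29)]⟩,
⟨⟨⟨-63,-42,34⟩,⟨54,-47,42⟩,⟨-2,54,63⟩⟩,true,56,10,.leaf [(0,6889),(4,101),(5,68),(7,12)],.leaf [(0,6889),(4,101),(5,68),(7,12)]⟩,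
⟨⟨⟨63,42,34⟩,⟨54,-47,-42⟩,⟨-2,54,-63⟩⟩,true,56,73,.leaf [(0,6806),(2,2739),(4,97),(5,76)],.leaf [(0,6806),(2,2739),(4,97),(5,76)]⟩,
⟨⟨⟨-65,30,42⟩,⟨30,-33,70⟩,⟨42,70,15⟩⟩,true,57,30,.leaf [(0,5561),(3,2490),(4,87),(5,2)],.leaf [(0,5561),(3,2490),(4,87),(5,2)]⟩,
⟨⟨⟨-65,30,-42⟩,⟨-30,33,70⟩,⟨42,70,-15⟩⟩,true,57,53,.leaf [(1,1660),(3,2739),(4,40),(5,3)],.leaf [(1,1660),(3,2739),(4,40),(5,3)]⟩,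
⟨⟨⟨-63,-2,54⟩,⟨34,63,42⟩,⟨-42,54,-47⟩⟩,true,58,11,.leaf [(0,56),(1,89),(3,12),(5,1)],.leaf [(0,56),(1,89),(3,12),(5,1)]⟩,
⟨⟨⟨-63,-2,-54⟩,⟨34,63,-42⟩,⟨42,-54,-47⟩⟩,true,58,72,.leaf [(0,61),(1,64),(3,32),(6,1)],.leaf [(0,61),(1,64),(3,32),(6,1)]⟩,
⟨⟨⟨-33,-38,-66⟩,⟨-74,33,18⟩,⟨18,66,-47⟩⟩,true,59,2,.leaf [(1,1162),(2,249),(4,17),(5,14)],.leaf [(1,1162),(2,249),(4,17),(5,14)]⟩,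
⟨⟨⟨-33,-38,66⟩,⟨-74,33,-18⟩,⟨-18,-66,-47⟩⟩,true,59,81,.leaf [(3,2241),(5,171),(10,4316),(15,2)],.leaf [(5,15876),(6,25245),(26,68890),(30,77)]⟩,
⟨⟨⟨15,70,42⟩,⟨70,-33,30⟩,⟨42,30,-65⟩⟩,true,60,36,.leaf [(0,8051),(2,2490),(4,107),(5,12)],.leaf [(0,8051),(2,2490),(4,107),(5,12)]⟩,
⟨⟨⟨15,70,-42⟩,⟨70,-33,-30⟩,⟨-42,-30,-65⟩⟩,true,60,47,.leaf [(0,85),(1,12),(2,18),(4,1)],.leaf [(0,85),(1,12),(2,18),(4,1)]⟩,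
⟨⟨⟨33,70,30⟩,⟨70,-15,-42⟩,⟨-30,42,-65⟩⟩,true,65,16,.leaf [(3,6889),(4,30),(5,95),(6,2)],.leaf [(3,6889),(4,30),(5,95),(6,2)]⟩,
⟨⟨⟨33,70,-30⟩,⟨70,-15,42⟩,⟨30,-42,-65⟩⟩,true,65,67,.leaf [(0,85),(1,60),(3,12),(4,1)],.leaf [(0,85),(1,60),(3,12),(4,1)]⟩,
⟨⟨⟨-33,30,70⟩,⟨30,-65,42⟩,⟨70,42,15⟩⟩,true,67,18,.leaf [(0,3071),(2,2490),(4,55),(5,28)],.leaf [(0,3071),(2,2490),(4,55),(5,28)]⟩,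
⟨⟨⟨33,-30,70⟩,⟨30,-65,-42⟩,⟨70,42,-15⟩⟩,true,67,65,.leaf [(0,60),(1,85),(2,12),(5,1)],.leaf [(0,60),(1,85),(2,12),(5,1)]⟩,
⟨⟨⟨-47,-42,-54⟩,⟨-54,63,-2⟩,⟨42,34,-63⟩⟩,true,68,40,.leaf [(1,747),(2,4316),(5,57),(7,2)],.leaf [(1,747),(2,4316),(5,57),(7,2)]⟩,
⟨⟨⟨-47,-42,54⟩,⟨54,-63,-2⟩,⟨42,34,63⟩⟩,true,68,43,.leaf [(0,166),(2,4731),(5,52),(6,9)],.leaf [(0,166),(2,4731),(5,52),(6,9)]⟩,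
⟨⟨⟨-47,66,-18⟩,⟨-18,-33,-74⟩,⟨-66,-38,33⟩⟩,true,71,41,.leaf [(0,24651),(7,357),(11,415),(14,65)],.leaf [(0,50),(2,35),(4,1),(10,14)]⟩,
⟨⟨⟨-47,66,18⟩,⟨18,33,-74⟩,⟨-66,-38,-33⟩⟩,true,71,42,.leaf [(0,1836),(3,2232),(18,449),(22,1)],.leaf [(0,21),(3,170),(7,2),(10,35)]⟩,
⟨⟨⟨63,54,-2⟩,⟨42,-47,54⟩,⟨34,-42,-63⟩⟩,true,72,25,.leaf [(0,68),(1,56),(2,33),(4,1)],.leaf [(0,68),(1,56),(2,33),(4,1)]⟩,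
⟨⟨⟨-63,-54,-2⟩,⟨42,-47,-54⟩,⟨34,-42,63⟩⟩,true,72,58,.leaf [(0,64),(1,61),(2,32),(7,1)],.leaf [(0,64),(1,61),(2,32),(7,1)]⟩,
⟨⟨⟨63,34,-42⟩,⟨-2,-63,-54⟩,⟨-54,42,-47⟩⟩,true,73,27,.leaf [(0,6889),(4,64),(5,96),(6,3)],.leaf [(0,6889),(4,64),(5,96),(6,3)]⟩,
⟨⟨⟨63,34,42⟩,⟨-2,-63,54⟩,⟨54,-42,-47⟩⟩,true,73,56,.leaf [(0,22),(1,12),(2,75),(4,1)],.leaf [(0,22),(1,12),(2,75),(4,1)]⟩,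
⟨⟨⟨81,18,-2⟩,⟨-18,79,-18⟩,⟨-2,18,81⟩⟩,true,74,1,.leaf [(3,7885),(7,97),(10,332),(15,10)],.L (.leaf [(0,18),(1,79),(2,18),(5,1)]) (.L (.leaf [(0,18),(1,79),(2,18),(5,1)]) (.leaf [(0,132),(1,160),(6,1),(10,35)]) (.leaf [(3,47310),(5,1647),(14,380),(19,6889)])) (.leaf [(1,6889),(5,70),(15,9)])⟩,
⟨⟨⟨-81,-18,-2⟩,⟨-18,79,18⟩,⟨-2,18,-81⟩⟩,true,74,82,.leaf [(0,18),(1,79),(2,18),(5,1)],.leaf [(0,18),(1,79),(2,18),(5,1)]⟩,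
⟨⟨⟨33,18,-74⟩,⟨66,-47,18⟩,⟨-38,-66,-33⟩⟩,true,76,38,.leaf [(0,3),(2,62),(3,92),(4,1)],.leaf [(0,3),(2,62),(3,92),(4,1)]⟩,
⟨⟨⟨-33,-18,-74⟩,⟨66,-47,-18⟩,⟨-38,-66,33⟩⟩,true,76,45,.leaf [(0,2241),(3,2905),(4,57),(7,7)],.leaf [(0,2241),(3,2905),(4,57),(7,7)]⟩,
⟨⟨⟨33,-66,-38⟩,⟨-18,-47,66⟩,⟨-74,-18,-33⟩⟩,true,81,24,.leaf [(1,2656),(3,2241),(4,48),(5,19)],.leaf [(1,2656),(3,2241),(4,48),(5,19)]⟩,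
⟨⟨⟨-33,66,-38⟩,⟨-18,-47,-66⟩,⟨-74,-18,33⟩⟩,true,81,59,.leaf [(2,2241),(4,171),(11,4316),(14,2)],.leaf [(0,57),(2,49),(4,1),(10,7)]⟩,
⟨⟨⟨-81,-2,18⟩,⟨-2,-81,-18⟩,⟨18,-18,79⟩⟩,true,82,9,.leaf [(0,6889),(4,88),(14,9)],.leaf [(0,70),(4,1),(10,9)]⟩,
⟨⟨⟨-81,-2,-18⟩,⟨-2,-81,18⟩,⟨-18,18,79⟩⟩,true,82,74,.leaf [(0,79),(1,18),(3,18),(4,1)],.leaf [(0,79),(1,18),(3,18),(4,1)]⟩]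

theorem primeOk_83 : PrimeOk 83 := primeOk (by norm_num) (by norm_num) (by norm_num) L83
  (by decide +kernel) (by decide +kernel)

def L173 : List Cls := [
⟨⟨⟨-173,0,0⟩,⟨0,165,52⟩,⟨0,52,-165⟩⟩,false,0,80,.leaf [(0,346),(1,2249),(4,2),(5,13)],.leaf [(0,346),(1,2249),(4,2),(5,13)]⟩,
⟨⟨⟨-173,0,0⟩,⟨0,-165,52⟩,⟨0,52,165⟩⟩,false,0,93,.leaf [(0,165),(1,22),(3,30),(4,1)],.leaf [(0,165),(1,22),(3,30),(4,1)]⟩,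
⟨⟨⟨165,0,52⟩,⟨0,-173,0⟩,⟨52,0,-165⟩⟩,true,0,80,.leaf [(0,1903),(1,2249),(4,11),(5,13)],.leaf [(0,1903),(1,2249),(4,11),(5,13)]⟩,
⟨⟨⟨-165,0,52⟩,⟨0,-173,0⟩,⟨52,0,165⟩⟩,true,0,93,.leaf [(0,33735),(2,3806),(4,217),(7,52)],.leaf [(0,33735),(2,3806),(4,217),(7,52)]⟩,
⟨⟨⟨27,-92,144⟩,⟨-164,27,48⟩,⟨-48,-144,-83⟩⟩,true,3,63,.leaf [(3,163),(5,1),(10,22),(18,6)],.leaf [(1,1620),(3,924),(10,695),(14,1)]⟩,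
⟨⟨⟨27,-92,-144⟩,⟨-164,27,-48⟩,⟨48,144,-83⟩⟩,true,3,110,.leaf [(1,865),(2,16089),(4,77),(5,107)],.leaf [(1,865),(2,16089),(4,77),(5,107)]⟩,
⟨⟨⟨-165,48,-20⟩,⟨48,115,-120⟩,⟨-20,-120,-123⟩⟩,true,6,84,.leaf [(2,5709),(5,72),(14,25),(18,346)],.leaf [(1,322299),(7,1107),(10,114872),(15,56)]⟩,
⟨⟨⟨165,-48,-20⟩,⟨48,115,120⟩,⟨-20,-120,123⟩⟩,true,6,89,.leaf [(2,173),(3,346),(4,1),(7,2)],.leaf [(2,173),(3,346),(4,1),(7,2)]⟩,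
⟨⟨⟨-83,-48,-144⟩,⟨144,27,-92⟩,⟨48,-164,27⟩⟩,true,11,33,.leaf [(0,3633),(3,29237),(7,161),(14,65)],.leaf [(6,405),(10,29929),(15,40),(22,16)]⟩,
⟨⟨⟨-83,-48,144⟩,⟨-144,-27,-92⟩,⟨48,-164,-27⟩⟩,true,11,140,.leaf [(1,29929),(5,275),(6,2),(14,50)],.leaf [(1,252),(2,25),(6,1),(10,50)]⟩,
⟨⟨⟨115,-120,48⟩,⟨-120,-123,-20⟩,⟨48,-20,-165⟩⟩,true,14,29,.leaf [(0,1730),(1,2941),(4,10),(5,17)],.leaf [(0,1730),(1,2941),(4,10),(5,17)]⟩,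
⟨⟨⟨115,-120,-48⟩,⟨120,123,-20⟩,⟨48,-20,165⟩⟩,true,14,144,.leaf [(0,865),(3,13494),(5,82),(14,45)],.leaf [(0,121),(2,66),(5,4),(10,213)]⟩,
⟨⟨⟨-123,108,-56⟩,⟨84,133,72⟩,⟨88,24,-147⟩⟩,true,16,75,.leaf [(3,59858),(4,476),(5,159),(15,41)],.leaf [(1,33),(3,55),(4,1),(26,5)]⟩,
⟨⟨⟨123,-108,-56⟩,⟨84,133,-72⟩,⟨88,24,147⟩⟩,true,16,98,.L (.leaf [(1,865),(2,13494),(4,82),(15,45)]) (.leaf [(0,133),(1,243),(2,105),(5,1)]) (.leaf [(0,213),(1,190),(3,90),(4,1)]),.leaf [(0,75),(3,127),(7,1),(10,9)]⟩,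
⟨⟨⟨27,-60,160⟩,⟨-60,-155,-48⟩,⟨160,-48,-45⟩⟩,true,17,70,.leaf [(0,12),(1,175),(3,30),(5,1)],.leaf [(0,12),(1,175),(3,30),(5,1)]⟩,
⟨⟨⟨-27,60,160⟩,⟨-60,-155,48⟩,⟨160,-48,45⟩⟩,true,17,103,.leaf [(2,29929),(4,215),(5,147),(7,35)],.leaf [(2,29929),(4,215),(5,147),(7,35)]⟩,
⟨⟨⟨99,52,132⟩,⟨-92,-99,108⟩,⟨108,-132,-29⟩⟩,true,18,59,.leaf [(2,129923),(4,837),(5,56),(18,2768)],.leaf [(1,104),(2,119),(4,1),(10,32)]⟩,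
⟨⟨⟨99,52,-132⟩,⟨-92,-99,-108⟩,⟨-108,132,-29⟩⟩,true,18,114,.leaf [(1,346),(2,3633),(4,23),(5,2)],.leaf [(1,346),(2,3633),(4,23),(5,2)]⟩,
⟨⟨⟨123,88,84⟩,⟨-56,147,-72⟩,⟨-108,24,133⟩⟩,true,19,26,.leaf [(0,54),(2,133),(6,1),(11,12)],.leaf [(0,81),(2,151),(6,1),(10,3)]⟩,
⟨⟨⟨123,88,-84⟩,⟨-56,147,72⟩,⟨108,-24,133⟩⟩,true,19,147,.leaf [(1,14532),(2,4325),(4,90),(6,41)],.leaf [(1,14532),(2,4325),(4,90),(6,41)]⟩,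
⟨⟨⟨133,-108,24⟩,⟨84,123,88⟩,⟨-72,-56,147⟩⟩,true,20,34,.R (.leaf [(0,108),(3,117),(18,20),(27,1)]) (.leaf [(0,189),(3,144),(18,32),(26,1)]) (.leaf [(0,24030),(3,23481),(18,4330),(31,1)]),.leaf [(3,79407),(5,594),(10,40136),(15,17)]⟩,
⟨⟨⟨133,-108,-24⟩,⟨-84,-123,88⟩,⟨-72,-56,-147⟩⟩,true,20,139,.leaf [(1,5363),(2,1038),(4,38),(5,9)],.leaf [(1,5363),(2,1038),(4,38),(5,9)]⟩,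
⟨⟨⟨27,48,-164⟩,⟨-144,-83,-48⟩,⟨-92,144,27⟩⟩,true,21,58,.leaf [(0,38),(1,116),(2,93),(4,1)],.leaf [(0,38),(1,116),(2,93),(4,1)]⟩,
⟨⟨⟨-27,-48,-164⟩,⟨-144,-83,48⟩,⟨-92,144,-27⟩⟩,true,21,115,.leaf [(0,35),(1,182),(3,30),(4,1)],.leaf [(0,35),(1,182),(3,30),(4,1)]⟩,
⟨⟨⟨45,-48,160⟩,⟨48,-155,-60⟩,⟨160,60,-27⟩⟩,true,22,42,.leaf [(0,90),(1,187),(2,18),(5,1)],.leaf [(0,90),(1,187),(2,18),(5,1)]⟩,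
⟨⟨⟨-45,48,160⟩,⟨48,-155,60⟩,⟨160,60,27⟩⟩,true,22,131,.leaf [(0,10034),(2,18165),(4,133),(5,100)],.leaf [(0,10034),(2,18165),(4,133),(5,100)]⟩,
⟨⟨⟨123,84,88⟩,⟨-108,133,24⟩,⟨-56,-72,147⟩⟩,true,26,19,.leaf [(1,54),(3,133),(7,1),(10,12)],.leaf [(1,594),(3,485),(7,5),(26,12)]⟩,
⟨⟨⟨-123,-84,88⟩,⟨-108,133,-24⟩,⟨-56,-72,-147⟩⟩,true,26,154,.leaf [(0,12),(1,157),(3,78),(5,1)],.leaf [(0,12),(1,157),(3,78),(5,1)]⟩,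
⟨⟨⟨-101,-132,-48⟩,⟨-132,69,88⟩,⟨-48,88,-141⟩⟩,true,27,57,.leaf [(0,130),(1,93),(2,90),(5,1)],.leaf [(0,130),(1,93),(2,90),(5,1)]⟩,
⟨⟨⟨-101,-132,48⟩,⟨132,-69,88⟩,⟨-48,88,141⟩⟩,true,27,116,.leaf [(0,29929),(4,153),(5,136),(6,48)],.leaf [(0,29929),(4,153),(5,136),(6,48)]⟩,
⟨⟨⟨115,48,-120⟩,⟨48,-165,-20⟩,⟨-120,-20,-123⟩⟩,true,29,14,.leaf [(0,123),(1,100),(2,90),(4,1)],.leaf [(0,123),(1,100),(2,90),(4,1)]⟩,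
⟨⟨⟨115,48,120⟩,⟨-48,165,-20⟩,⟨-120,-20,123⟩⟩,true,29,159,.leaf [(0,28026),(6,33),(10,1903),(15,56)],.leaf [(5,27),(7,12),(14,8),(23,1)]⟩,
⟨⟨⟨-147,88,-24⟩,⟨-56,-123,-108⟩,⟨-72,-84,133⟩⟩,true,30,39,.leaf [(0,29929),(4,154),(6,84),(14,3)],.leaf [(0,22490),(4,119),(6,60),(10,519)]⟩,
⟨⟨⟨-147,88,24⟩,⟨-56,-123,108⟩,⟨72,84,133⟩⟩,true,30,134,.leaf [(0,193),(1,84),(2,18),(4,1)],.leaf [(0,193),(1,84),(2,18),(4,1)]⟩,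
⟨⟨⟨69,132,88⟩,⟨132,-101,48⟩,⟨88,48,-141⟩⟩,true,32,79,.leaf [(0,31832),(2,18165),(4,229),(5,40)],.leaf [(0,31832),(2,18165),(4,229),(5,40)]⟩,
⟨⟨⟨-69,-132,88⟩,⟨132,-101,-48⟩,⟨88,48,141⟩⟩,true,32,94,.leaf [(0,5363),(2,40309),(5,229),(7,53)],.leaf [(0,5363),(2,40309),(5,229),(7,53)]⟩,
⟨⟨⟨-83,-144,-48⟩,⟨48,27,-164⟩,⟨144,-92,27⟩⟩,true,33,11,.leaf [(1,3633),(2,29237),(6,161),(15,65)],.leaf [(1,48),(2,52),(6,1),(10,65)]⟩,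
⟨⟨⟨-83,-144,48⟩,⟨-48,-27,-164⟩,⟨144,-92,-27⟩⟩,true,33,162,.leaf [(2,29929),(5,252),(6,25),(14,50)],.leaf [(1,275),(2,2),(5,1),(10,50)]⟩,
⟨⟨⟨133,24,-108⟩,⟨-72,147,-56⟩,⟨84,88,123⟩⟩,true,34,20,.leaf [(1,9),(2,142),(7,1),(18,6)],.leaf [(1,225),(2,52),(7,1),(10,60)]⟩,
⟨⟨⟨133,24,108⟩,⟨72,-147,-56⟩,⟨84,88,-123⟩⟩,true,34,153,.leaf [(0,1730),(1,1557),(4,6),(5,11)],.leaf [(0,1730),(1,1557),(4,6),(5,11)]⟩,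
⟨⟨⟨123,-20,-120⟩,⟨-20,165,-48⟩,⟨120,48,115⟩⟩,true,35,37,.leaf [(1,63),(2,145),(3,105),(6,1)],.leaf [(1,63),(2,145),(3,105),(6,1)]⟩,
⟨⟨⟨123,-20,120⟩,⟨-20,165,48⟩,⟨-120,-48,115⟩⟩,true,35,136,.leaf [(0,294273),(6,837),(18,34946),(22,2)],.leaf [(0,21279),(5,248),(6,271),(10,11072)]⟩,
⟨⟨⟨123,-120,-20⟩,⟨120,115,48⟩,⟨-20,-48,165⟩⟩,true,37,35,.leaf [(0,63),(2,105),(3,145),(7,1)],.leaf [(0,63),(2,105),(3,145),(7,1)]⟩,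
⟨⟨⟨-123,120,-20⟩,⟨120,115,-48⟩,⟨-20,-48,-165⟩⟩,true,37,138,.leaf [(3,2361),(5,9),(10,32),(18,296)],.leaf [(3,43596),(4,270),(10,18857),(14,41)]⟩,
⟨⟨⟨-147,-24,88⟩,⟨-72,133,-84⟩,⟨-56,-108,-123⟩⟩,true,39,30,.leaf [(1,29929),(5,154),(7,84),(15,3)],.leaf [(1,22663),(5,79),(7,66),(10,2076)]⟩,
⟨⟨⟨147,24,88⟩,⟨-72,133,84⟩,⟨-56,-108,123⟩⟩,true,39,143,.leaf [(1,18),(2,84),(3,193),(7,1)],.leaf [(1,18),(2,84),(3,193),(7,1)]⟩,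
⟨⟨⟨45,160,-48⟩,⟨160,-27,60⟩,⟨48,-60,-155⟩⟩,true,42,22,.leaf [(0,187),(1,90),(3,18),(4,1)],.leaf [(0,187),(1,90),(3,18),(4,1)]⟩,
⟨⟨⟨45,160,48⟩,⟨160,-27,-60⟩,⟨-48,60,-155⟩⟩,true,42,151,.leaf [(3,29929),(4,105),(5,203),(6,5)],.leaf [(3,29929),(4,105),(5,203),(6,5)]⟩,
⟨⟨⟨-29,108,132⟩,⟨-132,-99,52⟩,⟨108,-92,99⟩⟩,true,44,73,.leaf [(2,29929),(4,163),(5,16),(6,68)],.leaf [(2,29929),(4,163),(5,16),(6,68)]⟩,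
⟨⟨⟨-29,108,-132⟩,⟨132,99,52⟩,⟨108,-92,-99⟩⟩,true,44,100,.leaf [(1,7),(2,9),(3,177),(4,1)],.leaf [(1,7),(2,9),(3,177),(4,1)]⟩,
⟨⟨⟨-141,88,-48⟩,⟨88,69,-132⟩,⟨-48,-132,-101⟩⟩,true,46,85,.leaf [(0,15),(2,142),(3,180),(6,1)],.leaf [(0,15),(2,142),(3,180),(6,1)]⟩,
⟨⟨⟨-141,88,48⟩,⟨88,69,132⟩,⟨48,132,-101⟩⟩,true,46,88,.leaf [(0,6401),(3,25431),(4,191),(5,63)],.leaf [(0,6401),(3,25431),(4,191),(5,63)]⟩,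
⟨⟨⟨99,-92,108⟩,⟨52,-99,-132⟩,⟨132,108,-29⟩⟩,true,48,64,.leaf [(0,152),(1,137),(2,48),(5,1)],.leaf [(0,152),(1,137),(2,48),(5,1)]⟩,
⟨⟨⟨99,-92,-108⟩,⟨52,-99,132⟩,⟨-132,-108,-29⟩⟩,true,48,109,.leaf [(0,7),(1,147),(3,93),(4,1)],.leaf [(0,7),(1,147),(3,93),(4,1)]⟩,
⟨⟨⟨133,-84,-72⟩,⟨-108,-123,-56⟩,⟨-24,88,-147⟩⟩,true,54,71,.leaf [(1,10207),(2,23874),(4,202),(5,93)],.leaf [(1,10207),(2,23874),(4,202),(5,93)]⟩,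
⟨⟨⟨133,-84,72⟩,⟨108,123,-56⟩,⟨-24,88,147⟩⟩,true,54,102,.leaf [(0,29929),(5,82),(6,105),(15,30)],.leaf [(0,8477),(5,56),(6,3),(10,1038)]⟩,
⟨⟨⟨-155,-48,60⟩,⟨48,45,160⟩,⟨-60,160,-27⟩⟩,true,55,61,.leaf [(0,1730),(1,1557),(4,6),(5,11)],.leaf [(0,1730),(1,1557),(4,6),(5,11)]⟩,
⟨⟨⟨-155,-48,-60⟩,⟨-48,-45,160⟩,⟨-60,160,27⟩⟩,true,55,112,.leaf [(1,11764),(3,33735),(4,208),(5,3)],.leaf [(1,11764),(3,33735),(4,208),(5,3)]⟩,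
⟨⟨⟨147,-72,-56⟩,⟨24,133,-108⟩,⟨88,84,123⟩⟩,true,56,82,.leaf [(3,29929),(5,150),(7,25),(14,84)],.leaf [(0,55879),(5,494),(7,194),(10,18857)]⟩,
⟨⟨⟨-147,72,-56⟩,⟨24,133,108⟩,⟨88,84,-123⟩⟩,true,56,91,.leaf [(1,1730),(4,33),(5,38),(10,1557)],.leaf [(1,29929),(4,66),(5,139),(14,18)]⟩,
⟨⟨⟨-101,-48,-132⟩,⟨-48,-141,88⟩,⟨-132,88,69⟩⟩,true,57,27,.leaf [(0,93),(1,130),(3,90),(4,1)],.leaf [(0,93),(1,130),(3,90),(4,1)]⟩,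
⟨⟨⟨-101,-48,132⟩,⟨48,141,88⟩,⟨-132,88,-69⟩⟩,true,57,146,.leaf [(0,136),(1,153),(3,48),(5,1)],.leaf [(0,136),(1,153),(3,48),(5,1)]⟩,
⟨⟨⟨27,-164,48⟩,⟨-92,27,144⟩,⟨-144,-48,-83⟩⟩,true,58,21,.leaf [(2,8650),(3,34081),(4,78),(5,203)],.leaf [(2,8650),(3,34081),(4,78),(5,203)]⟩,
⟨⟨⟨27,-164,-48⟩,⟨-92,27,-144⟩,⟨144,48,-83⟩⟩,true,58,152,.leaf [(0,65),(1,35),(2,147),(5,1)],.leaf [(0,65),(1,35),(2,147),(5,1)]⟩,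
⟨⟨⟨99,132,52⟩,⟨108,-29,-132⟩,⟨-92,108,-99⟩⟩,true,59,18,.L (.leaf [(0,153),(1,136),(2,48),(4,1)]) (.leaf [(0,168),(1,40),(2,105),(4,1)]) (.leaf [(0,220),(1,183),(3,90),(5,1)]),.leaf [(3,26815),(4,40),(5,153),(10,2768)]⟩,
⟨⟨⟨-99,-132,52⟩,⟨108,-29,132⟩,⟨-92,108,99⟩⟩,true,59,155,.leaf [(0,3460),(3,519),(4,20),(5,23)],.leaf [(0,3460),(3,519),(4,20),(5,23)]⟩,
⟨⟨⟨-155,60,-48⟩,⟨-60,-27,160⟩,⟨48,160,45⟩⟩,true,61,55,.leaf [(1,13),(2,87),(3,195),(4,1)],.leaf [(1,13),(2,87),(3,195),(4,1)]⟩,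
⟨⟨⟨-155,60,48⟩,⟨60,27,160⟩,⟨48,160,-45⟩⟩,true,61,118,.leaf [(0,10034),(3,25431),(4,198),(5,35)],.leaf [(0,10034),(3,25431),(4,198),(5,35)]⟩,
⟨⟨⟨27,144,-92⟩,⟨-48,-83,-144⟩,⟨-164,48,27⟩⟩,true,63,3,.leaf [(2,82),(4,1),(11,40),(18,3)],.leaf [(0,63),(2,151),(4,1),(10,13)]⟩,
⟨⟨⟨-27,-144,-92⟩,⟨-48,-83,144⟩,⟨-164,48,-27⟩⟩,true,63,170,.leaf [(1,18511),(3,22836),(4,192),(5,61)],.leaf [(1,18511),(3,22836),(4,192),(5,61)]⟩,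
⟨⟨⟨99,108,-92⟩,⟨132,-29,108⟩,⟨52,-132,-99⟩⟩,true,64,48,.leaf [(0,137),(1,152),(3,48),(4,1)],.leaf [(0,137),(1,152),(3,48),(4,1)]⟩,
⟨⟨⟨-99,-108,-92⟩,⟨132,-29,-108⟩,⟨52,-132,99⟩⟩,true,64,125,.leaf [(0,93),(2,147),(3,7),(7,1)],.leaf [(0,93),(2,147),(3,7),(7,1)]⟩,
⟨⟨⟨27,160,-60⟩,⟨160,-45,-48⟩,⟨-60,-48,-155⟩⟩,true,70,17,.leaf [(0,175),(1,12),(2,30),(4,1)],.leaf [(0,175),(1,12),(2,30),(4,1)]⟩,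
⟨⟨⟨27,160,60⟩,⟨160,-45,48⟩,⟨60,48,-155⟩⟩,true,70,156,.leaf [(0,35465),(2,7266),(4,215),(5,12)],.leaf [(0,35465),(2,7266),(4,215),(5,12)]⟩,
⟨⟨⟨133,-72,-84⟩,⟨-24,-147,88⟩,⟨-108,-56,-123⟩⟩,true,71,54,.leaf [(0,45),(1,172),(2,30),(4,1)],.leaf [(0,45),(1,172),(2,30),(4,1)]⟩,
⟨⟨⟨133,-72,84⟩,⟨24,147,88⟩,⟨-108,-56,123⟩⟩,true,71,119,.leaf [(0,6291),(3,4608),(18,908),(22,1)],.leaf [(3,116775),(5,621),(10,40136),(15,50)]⟩,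
⟨⟨⟨-29,132,108⟩,⟨108,99,-92⟩,⟨-132,52,-99⟩⟩,true,73,44,.leaf [(3,29929),(4,16),(5,163),(7,68)],.leaf [(3,29929),(4,16),(5,163),(7,68)]⟩,
⟨⟨⟨-29,132,-108⟩,⟨-108,-99,-92⟩,⟨-132,52,99⟩⟩,true,73,129,.leaf [(0,84),(1,16),(2,147),(4,1)],.leaf [(0,84),(1,16),(2,147),(4,1)]⟩,
⟨⟨⟨-123,-56,108⟩,⟨88,-147,24⟩,⟨84,72,133⟩⟩,true,75,16,.leaf [(2,59858),(4,159),(5,476),(14,41)],.leaf [(0,7612),(4,67),(5,24),(10,1557)]⟩,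
⟨⟨⟨-123,-56,-108⟩,⟨88,-147,-24⟩,⟨-84,-72,133⟩⟩,true,75,157,.leaf [(0,865),(3,5709),(4,55),(15,9)],.leaf [(0,82),(3,120),(4,1),(10,9)]⟩,
⟨⟨⟨69,88,132⟩,⟨88,-141,48⟩,⟨132,48,-101⟩⟩,true,79,32,.leaf [(0,24566),(2,25431),(4,233),(5,84)],.leaf [(0,24566),(2,25431),(4,233),(5,84)]⟩,
⟨⟨⟨69,88,-132⟩,⟨88,-141,-48⟩,⟨-132,-48,-101⟩⟩,true,79,141,.leaf [(0,166),(1,84),(2,63),(4,1)],.leaf [(0,166),(1,84),(2,63),(4,1)]⟩,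
⟨⟨⟨165,52,0⟩,⟨52,-165,0⟩,⟨0,0,-173⟩⟩,true,80,0,.leaf [(0,52),(2,165),(4,1)],.leaf [(0,52),(2,165),(4,1)]⟩,
⟨⟨⟨147,-56,-72⟩,⟨88,123,84⟩,⟨24,-108,133⟩⟩,true,82,56,.leaf [(2,29929),(4,150),(6,25),(15,84)],.leaf [(1,854793),(6,2859),(10,214001),(23,23)]⟩,
⟨⟨⟨147,-56,72⟩,⟨88,123,-84⟩,⟨-24,108,133⟩⟩,true,82,117,.leaf [(5,609),(6,315),(11,29929),(14,5)],.leaf [(2,30275),(5,108),(6,203),(10,1038)]⟩,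
⟨⟨⟨-165,-20,48⟩,⟨-20,-123,-120⟩,⟨48,-120,115⟩⟩,true,84,6,.leaf [(3,136497),(4,234),(15,211),(18,10034)],.leaf [(0,101),(3,84),(4,2),(10,105)]⟩,
⟨⟨⟨-165,-20,-48⟩,⟨-20,-123,120⟩,⟨-48,120,115⟩⟩,true,84,167,.leaf [(0,40),(2,63),(3,168),(4,1)],.leaf [(0,40),(2,63),(3,168),(4,1)]⟩,
⟨⟨⟨-141,-48,88⟩,⟨-48,-101,-132⟩,⟨88,-132,69⟩⟩,true,85,46,.leaf [(1,15),(2,180),(3,142),(7,1)],.leaf [(1,15),(2,180),(3,142),(7,1)]⟩,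
⟨⟨⟨141,48,88⟩,⟨-48,-101,132⟩,⟨88,-132,-69⟩⟩,true,85,127,.leaf [(0,2),(1,44),(2,147),(4,1)],.leaf [(0,2),(1,44),(2,147),(4,1)]⟩,
⟨⟨⟨-141,48,88⟩,⟨48,-101,132⟩,⟨88,132,69⟩⟩,true,88,46,.leaf [(0,149),(1,2),(3,42),(4,1)],.leaf [(0,149),(1,2),(3,42),(4,1)]⟩,
⟨⟨⟨141,-48,88⟩,⟨48,-101,-132⟩,⟨88,132,-69⟩⟩,true,88,127,.leaf [(0,180),(1,142),(3,15),(5,1)],.leaf [(0,180),(1,142),(3,15),(5,1)]⟩,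
⟨⟨⟨165,-20,-48⟩,⟨-20,123,-120⟩,⟨48,120,115⟩⟩,true,89,6,.leaf [(2,346),(3,173),(5,1),(6,2)],.leaf [(2,346),(3,173),(5,1),(6,2)]⟩,
⟨⟨⟨165,-20,48⟩,⟨-20,123,120⟩,⟨-48,-120,115⟩⟩,true,89,167,.leaf [(4,3),(5,4),(6,2),(14,1)],.leaf [(1,110547),(6,444),(10,46364),(15,1)]⟩,
⟨⟨⟨-147,-56,72⟩,⟨88,-123,84⟩,⟨24,108,133⟩⟩,true,91,56,.leaf [(0,1730),(4,38),(5,33),(11,1557)],.leaf [(0,48440),(4,335),(5,168),(10,1557)]⟩,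
⟨⟨⟨-147,-56,-72⟩,⟨88,-123,-84⟩,⟨-24,-108,133⟩⟩,true,91,117,.leaf [(0,3483),(3,2700),(18,430),(22,1)],.leaf [(0,22),(3,168),(4,1),(10,45)]⟩,
⟨⟨⟨-165,52,0⟩,⟨52,165,0⟩,⟨0,0,-173⟩⟩,true,93,0,.leaf [(1,33735),(3,3806),(5,217),(6,52)],.leaf [(1,33735),(3,3806),(5,217),(6,52)]⟩,
⟨⟨⟨-69,88,-132⟩,⟨88,141,48⟩,⟨132,-48,-101⟩⟩,true,94,32,.leaf [(1,5363),(3,40309),(4,229),(6,53)],.leaf [(1,5363),(3,40309),(4,229),(6,53)]⟩,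
⟨⟨⟨-69,88,132⟩,⟨88,141,-48⟩,⟨-132,48,-101⟩⟩,true,94,141,.leaf [(1,18165),(3,31832),(5,229),(6,40)],.leaf [(1,18165),(3,31832),(5,229),(6,40)]⟩,
⟨⟨⟨123,-56,-108⟩,⟨88,147,24⟩,⟨84,-72,133⟩⟩,true,98,16,.leaf [(1,456),(2,500),(6,5),(18,9)],.leaf [(1,156),(2,73),(6,1),(10,18)]⟩,
⟨⟨⟨123,-56,108⟩,⟨88,147,-24⟩,⟨-84,72,133⟩⟩,true,98,157,.leaf [(5,645),(6,441),(11,29929),(14,35)],.leaf [(0,84597),(5,604),(6,158),(10,7093)]⟩,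
⟨⟨⟨-29,-132,108⟩,⟨108,-99,-92⟩,⟨132,52,99⟩⟩,true,100,44,.leaf [(0,7),(2,177),(3,9),(5,1)],.leaf [(0,7),(2,177),(3,9),(5,1)]⟩,
⟨⟨⟨-29,-132,-108⟩,⟨-108,99,-92⟩,⟨132,52,-99⟩⟩,true,100,129,.leaf [(2,29929),(4,9),(5,177),(7,7)],.leaf [(2,29929),(4,9),(5,177),(7,7)]⟩,
⟨⟨⟨133,72,-84⟩,⟨-24,147,88⟩,⟨108,-56,123⟩⟩,true,102,54,.leaf [(1,29929),(4,82),(7,105),(14,30)],.leaf [(1,487341),(7,1335),(10,117640),(23,58)]⟩,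
⟨⟨⟨133,72,84⟩,⟨24,-147,88⟩,⟨108,-56,-123⟩⟩,true,102,119,.leaf [(0,57),(1,4),(2,162),(4,1)],.leaf [(0,57),(1,4),(2,162),(4,1)]⟩,
⟨⟨⟨-27,160,60⟩,⟨160,45,-48⟩,⟨-60,48,-155⟩⟩,true,103,17,.leaf [(3,29929),(4,147),(5,215),(6,35)],.leaf [(3,29929),(4,147),(5,215),(6,35)]⟩,
⟨⟨⟨-27,160,-60⟩,⟨160,45,48⟩,⟨60,-48,-155⟩⟩,true,103,156,.leaf [(0,115),(1,18),(3,90),(4,1)],.leaf [(0,115),(1,18),(3,90),(4,1)]⟩,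
⟨⟨⟨99,-108,-92⟩,⟨-132,-29,-108⟩,⟨52,132,-99⟩⟩,true,109,48,.leaf [(0,147),(1,7),(2,93),(5,1)],.leaf [(0,147),(1,7),(2,93),(5,1)]⟩,
⟨⟨⟨-99,108,-92⟩,⟨-132,-29,108⟩,⟨52,132,99⟩⟩,true,109,125,.leaf [(0,137),(1,185),(3,15),(4,1)],.leaf [(0,137),(1,185),(3,15),(4,1)]⟩,
⟨⟨⟨27,-144,-92⟩,⟨48,-83,144⟩,⟨-164,-48,27⟩⟩,true,110,3,.leaf [(1,865),(3,14532),(4,96),(5,61)],.leaf [(1,865),(3,14532),(4,96),(5,61)]⟩,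
⟨⟨⟨-27,144,-92⟩,⟨48,-83,-144⟩,⟨-164,-48,-27⟩⟩,true,110,170,.leaf [(0,14013),(4,657),(11,33908),(14,2)],.leaf [(0,138),(2,76),(4,1),(10,13)]⟩,
⟨⟨⟨-155,-60,-48⟩,⟨-60,27,160⟩,⟨-48,160,-45⟩⟩,true,112,55,.leaf [(1,16954),(3,28545),(4,220),(5,87)],.leaf [(1,16954),(3,28545),(4,220),(5,87)]⟩,
⟨⟨⟨-155,-60,48⟩,⟨60,-27,160⟩,⟨-48,160,45⟩⟩,true,112,118,.leaf [(0,1903),(1,1038),(4,9),(5,10)],.leaf [(0,1903),(1,1038),(4,9),(5,10)]⟩,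
⟨⟨⟨99,-132,52⟩,⟨-108,-29,132⟩,⟨-92,-108,-99⟩⟩,true,114,18,.leaf [(1,1384),(3,16089),(4,24),(5,103)],.leaf [(1,1384),(3,16089),(4,24),(5,103)]⟩,
⟨⟨⟨-99,132,52⟩,⟨-108,-29,-132⟩,⟨-92,-108,99⟩⟩,true,114,155,.leaf [(2,29929),(4,153),(7,136),(14,16)],.leaf [(2,11245),(4,93),(7,40),(10,2768)]⟩,
⟨⟨⟨-27,-164,-48⟩,⟨-92,-27,144⟩,⟨-144,48,-83⟩⟩,true,115,21,.leaf [(1,21625),(3,23874),(4,212),(5,137)],.leaf [(1,21625),(3,23874),(4,212),(5,137)]⟩,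
⟨⟨⟨-27,-164,48⟩,⟨-92,-27,-144⟩,⟨144,-48,-83⟩⟩,true,115,152,.leaf [(0,38),(1,131),(2,78),(5,1)],.leaf [(0,38),(1,131),(2,78),(5,1)]⟩,
⟨⟨⟨-101,48,-132⟩,⟨-48,141,88⟩,⟨132,88,-69⟩⟩,true,116,27,.leaf [(1,29929),(4,136),(5,153),(7,48)],.leaf [(1,29929),(4,136),(5,153),(7,48)]⟩,
⟨⟨⟨-101,48,132⟩,⟨48,-141,88⟩,⟨132,88,69⟩⟩,true,116,146,.leaf [(0,6401),(2,7266),(4,63),(5,44)],.leaf [(0,6401),(2,7266),(4,63),(5,44)]⟩,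
⟨⟨⟨147,72,-56⟩,⟨-24,133,108⟩,⟨88,-84,123⟩⟩,true,117,82,.leaf [(4,609),(7,315),(10,29929),(15,5)],.leaf [(3,139),(7,1),(10,22),(26,2)]⟩,
⟨⟨⟨-147,-72,-56⟩,⟨-24,133,-108⟩,⟨88,-84,-123⟩⟩,true,117,91,.leaf [(1,103),(2,33),(5,1),(18,9)],.leaf [(2,47575),(5,15),(7,427),(10,18857)]⟩,
⟨⟨⟨-155,48,60⟩,⟨48,-45,160⟩,⟨60,160,27⟩⟩,true,118,61,.leaf [(0,3460),(3,3633),(4,36),(5,1)],.leaf [(0,3460),(3,3633),(4,36),(5,1)]⟩,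
⟨⟨⟨-155,48,-60⟩,⟨-48,45,160⟩,⟨60,160,-27⟩⟩,true,118,112,.leaf [(0,3),(1,58),(3,162),(4,1)],.leaf [(0,3),(1,58),(3,162),(4,1)]⟩,
⟨⟨⟨133,84,-72⟩,⟨-108,123,-56⟩,⟨24,88,147⟩⟩,true,119,71,.leaf [(1,85),(4,1),(11,9),(18,15)],.leaf [(1,45),(2,142),(7,1),(10,30)]⟩,
⟨⟨⟨133,84,72⟩,⟨108,-123,-56⟩,⟨24,88,-147⟩⟩,true,119,102,.leaf [(0,27161),(2,18684),(4,219),(5,128)],.leaf [(0,27161),(2,18684),(4,219),(5,128)]⟩,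
⟨⟨⟨-99,-92,-108⟩,⟨52,99,-132⟩,⟨132,-108,-29⟩⟩,true,125,64,.leaf [(1,93),(2,7),(3,147),(6,1)],.leaf [(1,93),(2,7),(3,147),(6,1)]⟩,
⟨⟨⟨-99,-92,108⟩,⟨52,99,132⟩,⟨-132,108,-29⟩⟩,true,125,109,.leaf [(0,185),(1,137),(2,15),(5,1)],.leaf [(0,185),(1,137),(2,15),(5,1)]⟩,
⟨⟨⟨141,88,48⟩,⟨88,-69,-132⟩,⟨-48,132,-101⟩⟩,true,127,85,.leaf [(0,10553),(1,865),(4,49),(5,65)],.leaf [(0,10553),(1,865),(4,49),(5,65)]⟩,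
⟨⟨⟨141,88,-48⟩,⟨88,-69,132⟩,⟨48,-132,-101⟩⟩,true,127,88,.leaf [(0,142),(1,180),(2,15),(4,1)],.leaf [(0,142),(1,180),(2,15),(4,1)]⟩,
⟨⟨⟨-29,-108,132⟩,⟨-132,99,52⟩,⟨-108,-92,-99⟩⟩,true,129,73,.leaf [(0,16),(1,84),(3,147),(5,1)],.leaf [(0,16),(1,84),(3,147),(5,1)]⟩,
⟨⟨⟨-29,-108,-132⟩,⟨132,-99,52⟩,⟨-108,-92,99⟩⟩,true,129,100,.leaf [(3,29929),(4,177),(5,9),(6,7)],.leaf [(3,29929),(4,177),(5,9),(6,7)]⟩,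
⟨⟨⟨-45,160,48⟩,⟨160,27,60⟩,⟨48,60,-155⟩⟩,true,131,22,.leaf [(0,5017),(3,3633),(4,49),(5,15)],.leaf [(0,5017),(3,3633),(4,49),(5,15)]⟩,
⟨⟨⟨-45,160,-48⟩,⟨160,27,-60⟩,⟨-48,-60,-155⟩⟩,true,131,151,.leaf [(3,29929),(4,198),(5,203),(6,98)],.leaf [(3,29929),(4,198),(5,203),(6,98)]⟩,
⟨⟨⟨-147,24,88⟩,⟨72,133,84⟩,⟨-56,108,-123⟩⟩,true,134,30,.leaf [(0,84),(1,193),(3,18),(5,1)],.leaf [(0,84),(1,193),(3,18),(5,1)]⟩,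
⟨⟨⟨147,-24,88⟩,⟨72,133,-84⟩,⟨-56,108,123⟩⟩,true,134,143,.leaf [(3,29929),(5,114),(7,133),(14,12)],.leaf [(3,47575),(5,150),(7,211),(10,2076)]⟩,
⟨⟨⟨123,120,-20⟩,⟨-120,115,-48⟩,⟨-20,48,165⟩⟩,true,136,35,.leaf [(1,139611),(4,1880),(7,715),(18,22144)],.leaf [(1,112104),(4,387),(10,7439),(14,128)]⟩,
⟨⟨⟨-123,-120,-20⟩,⟨-120,115,48⟩,⟨-20,48,-165⟩⟩,true,136,138,.leaf [(0,105),(1,145),(2,63),(5,1)],.leaf [(0,105),(1,145),(2,63),(5,1)]⟩,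
⟨⟨⟨-123,-20,120⟩,⟨-20,-165,-48⟩,⟨120,-48,115⟩⟩,true,138,37,.leaf [(2,71795),(4,291),(5,920),(18,11072)],.leaf [(2,46537),(4,537),(5,328),(10,22144)]⟩,
⟨⟨⟨-123,-20,-120⟩,⟨-20,-165,48⟩,⟨-120,48,115⟩⟩,true,138,136,.leaf [(0,145),(1,105),(3,63),(4,1)],.leaf [(0,145),(1,105),(3,63),(4,1)]⟩,
⟨⟨⟨133,-24,-108⟩,⟨-72,-147,-56⟩,⟨-84,88,-123⟩⟩,true,139,20,.leaf [(1,9169),(2,22836),(4,172),(5,15)],.leaf [(1,9169),(2,22836),(4,172),(5,15)]⟩,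
⟨⟨⟨133,-24,108⟩,⟨72,147,-56⟩,⟨-84,88,123⟩⟩,true,139,153,.leaf [(3,331641),(14,444),(18,46364),(23,1)],.leaf [(0,82),(3,105),(5,1),(10,30)]⟩,
⟨⟨⟨-83,144,-48⟩,⟨48,-27,-164⟩,⟨-144,-92,-27⟩⟩,true,140,11,.leaf [(0,29929),(4,275),(7,2),(15,50)],.leaf [(0,27),(3,175),(7,1),(10,25)]⟩,
⟨⟨⟨-83,144,48⟩,⟨-48,27,-164⟩,⟨-144,-92,27⟩⟩,true,140,162,.leaf [(2,405),(11,40),(14,1),(18,16)],.leaf [(0,23),(2,41),(4,1),(10,53)]⟩,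
⟨⟨⟨69,-132,88⟩,⟨-132,-101,-48⟩,⟨88,-48,-141⟩⟩,true,141,79,.leaf [(0,84),(1,166),(3,63),(5,1)],.leaf [(0,84),(1,166),(3,63),(5,1)]⟩,
⟨⟨⟨-69,132,88⟩,⟨-132,-101,48⟩,⟨88,-48,141⟩⟩,true,141,94,.leaf [(0,18165),(2,31832),(4,229),(7,40)],.leaf [(0,18165),(2,31832),(4,229),(7,40)]⟩,
⟨⟨⟨147,88,24⟩,⟨-56,123,-108⟩,⟨-72,84,133⟩⟩,true,143,39,.leaf [(0,18),(2,193),(3,84),(6,1)],.leaf [(0,18),(2,193),(3,84),(6,1)]⟩,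
⟨⟨⟨147,88,-24⟩,⟨-56,123,108⟩,⟨72,-84,133⟩⟩,true,143,134,.leaf [(2,29929),(4,114),(6,133),(15,12)],.leaf [(2,16262),(4,39),(6,86),(10,519)]⟩,
⟨⟨⟨115,-48,-120⟩,⟨48,165,-20⟩,⟨120,-20,123⟩⟩,true,144,14,.leaf [(1,865),(2,13494),(4,82),(15,45)],.leaf [(1,3915),(3,2442),(10,1124),(23,1)]⟩,
⟨⟨⟨115,-48,120⟩,⟨-48,-165,-20⟩,⟨120,-20,-123⟩⟩,true,144,159,.leaf [(0,173),(1,346),(4,1),(5,2)],.leaf [(0,173),(1,346),(4,1),(5,2)]⟩,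
⟨⟨⟨-101,132,-48⟩,⟨-132,-69,88⟩,⟨48,88,141⟩⟩,true,146,57,.leaf [(0,153),(1,136),(2,48),(4,1)],.leaf [(0,153),(1,136),(2,48),(4,1)]⟩,
⟨⟨⟨-101,132,48⟩,⟨132,69,88⟩,⟨48,88,-141⟩⟩,true,146,116,.leaf [(0,6401),(3,18165),(4,147),(5,65)],.leaf [(0,6401),(3,18165),(4,147),(5,65)]⟩,
⟨⟨⟨123,-84,88⟩,⟨108,133,-24⟩,⟨-56,72,147⟩⟩,true,147,19,.leaf [(0,14532),(3,4325),(5,90),(7,41)],.leaf [(0,14532),(3,4325),(5,90),(7,41)]⟩,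
⟨⟨⟨-123,84,88⟩,⟨108,133,24⟩,⟨-56,72,-147⟩⟩,true,147,154,.leaf [(1,121),(3,66),(5,1),(10,12)],.leaf [(1,20587),(3,10380),(5,136),(15,3)]⟩,
⟨⟨⟨45,48,160⟩,⟨-48,-155,60⟩,⟨160,-60,-27⟩⟩,true,151,42,.leaf [(2,29929),(4,203),(5,105),(7,5)],.leaf [(2,29929),(4,203),(5,105),(7,5)]⟩,
⟨⟨⟨-45,-48,160⟩,⟨-48,-155,-60⟩,⟨160,-60,27⟩⟩,true,151,131,.leaf [(2,29929),(4,203),(5,198),(7,98)],.leaf [(2,29929),(4,203),(5,198),(7,98)]⟩,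
⟨⟨⟨27,-48,-164⟩,⟨144,-83,48⟩,⟨-92,-144,27⟩⟩,true,152,58,.leaf [(0,35),(1,65),(3,147),(4,1)],.leaf [(0,35),(1,65),(3,147),(4,1)]⟩,
⟨⟨⟨-27,48,-164⟩,⟨144,-83,-48⟩,⟨-92,-144,-27⟩⟩,true,152,115,.leaf [(0,131),(1,38),(3,78),(4,1)],.leaf [(0,131),(1,38),(3,78),(4,1)]⟩,
⟨⟨⟨133,108,24⟩,⟨84,-123,88⟩,⟨72,-56,-147⟩⟩,true,153,34,.leaf [(0,59),(2,172),(3,64),(4,1)],.leaf [(0,59),(2,172),(3,64),(4,1)]⟩,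
⟨⟨⟨133,108,-24⟩,⟨-84,123,88⟩,⟨72,-56,147⟩⟩,true,153,139,.leaf [(2,230955),(4,2817),(15,680),(18,10034)],.leaf [(1,191511),(7,699),(10,54322),(14,86)]⟩,
⟨⟨⟨-123,88,-84⟩,⟨-56,-147,-72⟩,⟨-108,-24,133⟩⟩,true,154,26,.leaf [(0,157),(1,12),(2,78),(4,1)],.leaf [(0,157),(1,12),(2,78),(4,1)]⟩,
⟨⟨⟨-123,88,84⟩,⟨-56,-147,72⟩,⟨108,24,133⟩⟩,true,154,147,.leaf [(0,121),(2,66),(4,1),(11,12)],.leaf [(0,148),(2,84),(4,1),(10,3)]⟩,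
⟨⟨⟨-99,52,-132⟩,⟨-92,99,108⟩,⟨108,132,-29⟩⟩,true,155,59,.leaf [(1,11764),(3,2595),(4,80),(5,47)],.leaf [(1,11764),(3,2595),(4,80),(5,47)]⟩,
⟨⟨⟨-99,52,132⟩,⟨-92,99,-108⟩,⟨-108,-132,-29⟩⟩,true,155,114,.leaf [(3,29929),(5,153),(6,136),(15,16)],.leaf [(0,135),(3,40),(6,1),(10,16)]⟩,
⟨⟨⟨27,60,160⟩,⟨60,-155,48⟩,⟨160,48,-45⟩⟩,true,156,70,.leaf [(0,17300),(2,25431),(4,205),(5,112)],.leaf [(0,17300),(2,25431),(4,205),(5,112)]⟩,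
⟨⟨⟨-27,-60,160⟩,⟨60,-155,-48⟩,⟨160,48,45⟩⟩,true,156,103,.leaf [(0,18),(1,115),(2,90),(5,1)],.leaf [(0,18),(1,115),(2,90),(5,1)]⟩,
⟨⟨⟨-123,-108,-56⟩,⟨-84,133,-72⟩,⟨88,-24,-147⟩⟩,true,157,75,.leaf [(1,865),(2,5709),(5,55),(14,9)],.leaf [(1,163),(2,66),(5,1),(10,18)]⟩,
⟨⟨⟨123,108,-56⟩,⟨-84,133,72⟩,⟨88,-24,147⟩⟩,true,157,98,.leaf [(4,645),(7,441),(10,29929),(15,35)],.R (.leaf [(1,729),(10,315),(26,7),(35,5)]) (.leaf [(1,2916),(10,855),(26,58),(34,5)]) (.R (.leaf [(1,5832),(10,1305),(26,116),(42,5)]) (.leaf [(7,297),(10,89787),(23,55),(46,5)]) (.leaf [(1,8019),(10,2250),(26,182),(43,5)]))⟩,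
⟨⟨⟨115,120,48⟩,⟨-120,123,-20⟩,⟨-48,-20,165⟩⟩,true,159,29,.leaf [(1,28026),(7,33),(11,1903),(14,56)],.leaf [(0,5),(1,167),(7,1),(10,95)]⟩,
⟨⟨⟨115,120,-48⟩,⟨120,-123,-20⟩,⟨-48,-20,-165⟩⟩,true,159,144,.leaf [(0,138),(1,28),(2,105),(4,1)],.leaf [(0,138),(1,28),(2,105),(4,1)]⟩,
⟨⟨⟨-83,48,-144⟩,⟨144,-27,-92⟩,⟨-48,-164,-27⟩⟩,true,162,33,.leaf [(3,29929),(4,252),(7,25),(15,50)],.leaf [(0,50),(3,152),(4,1),(10,25)]⟩,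
⟨⟨⟨-83,48,144⟩,⟨-144,27,-92⟩,⟨-48,-164,27⟩⟩,true,162,140,.leaf [(6,279),(10,11245),(15,40),(18,2768)],.leaf [(1,1755),(3,825),(10,677),(14,1)]⟩,
⟨⟨⟨-165,-48,-20⟩,⟨-48,115,120⟩,⟨-20,120,-123⟩⟩,true,167,84,.leaf [(0,173),(1,346),(4,1),(5,2)],.leaf [(0,173),(1,346),(4,1),(5,2)]⟩,
⟨⟨⟨165,48,-20⟩,⟨-48,115,-120⟩,⟨-20,120,123⟩⟩,true,167,89,.leaf [(4,4),(5,3),(7,2),(15,1)],.leaf [(0,8),(3,113),(5,1),(10,64)]⟩,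
⟨⟨⟨-27,-92,-144⟩,⟨-164,-27,48⟩,⟨-48,144,-83⟩⟩,true,170,63,.leaf [(1,36157),(3,5190),(4,236),(5,65)],.leaf [(1,36157),(3,5190),(4,236),(5,65)]⟩,
⟨⟨⟨-27,-92,144⟩,⟨-164,-27,-48⟩,⟨48,-144,-83⟩⟩,true,170,110,.leaf [(1,14013),(5,657),(10,33908),(15,2)],.R (.leaf [(1,16038),(10,9471),(22,7),(35,82)]) (.leaf [(1,40824),(10,24846),(22,29),(34,41)]) (.leaf [(1,5656581),(5,48339),(22,2681),(38,41)])⟩]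

theorem primeOk_173 : PrimeOk 173 := primeOk (by norm_num) (by norm_num) (by norm_num) L173
  (by decide +kernel) (by decide +kernel)

def L269 : List Cls := [
⟨⟨⟨-269,0,0⟩,⟨0,69,-260⟩,⟨0,-260,-69⟩⟩,false,0,82,.leaf [(5,5454),(7,1110),(14,1385),(18,72361)],.leaf [(1,2808),(3,4191),(10,1576),(23,1)]⟩,
⟨⟨⟨-269,0,0⟩,⟨0,-69,-260⟩,⟨0,-260,69⟩⟩,false,0,187,.leaf [(4,2808),(6,4191),(15,1576),(18,72361)],.leaf [(0,1076),(4,169),(6,100),(10,17485)]⟩,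
⟨⟨⟨69,0,-260⟩,⟨0,-269,0⟩,⟨-260,0,-69⟩⟩,true,0,82,.leaf [(0,230),(1,260),(2,39),(4,1)],.leaf [(0,230),(1,260),(2,39),(4,1)]⟩,
⟨⟨⟨-69,0,-260⟩,⟨0,-269,0⟩,⟨-260,0,69⟩⟩,true,0,187,.leaf [(0,269),(1,230),(3,30),(4,1)],.leaf [(0,269),(1,230),(3,30),(4,1)]⟩,
⟨⟨⟨-219,100,120⟩,⟨100,-69,240⟩,⟨120,240,19⟩⟩,true,2,110,.leaf [(0,10222),(3,7263),(4,58),(5,3)],.leaf [(0,10222),(3,7263),(4,58),(5,3)]⟩,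
⟨⟨⟨-219,100,-120⟩,⟨100,-69,-240⟩,⟨-120,-240,19⟩⟩,true,2,159,.leaf [(0,27169),(3,32280),(4,136),(6,135)],.leaf [(0,27169),(3,32280),(4,136),(6,135)]⟩,
⟨⟨⟨-261,48,-44⟩,⟨48,19,-264⟩,⟨-44,-264,-27⟩⟩,true,6,129,.leaf [(2,72361),(4,41),(7,281),(15,27)],.leaf [(2,27976),(4,83),(7,152),(10,7263)]⟩,
⟨⟨⟨261,-48,-44⟩,⟨48,19,264⟩,⟨-44,-264,27⟩⟩,true,6,140,.leaf [(1,73437),(3,21520),(4,312),(7,67)],.leaf [(1,73437),(3,21520),(4,312),(7,67)]⟩,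
⟨⟨⟨-261,64,-12⟩,⟨64,243,-96⟩,⟨-12,-96,-251⟩⟩,true,8,133,.leaf [(3,72361),(4,252),(5,263),(6,284)],.leaf [(3,72361),(4,252),(5,263),(6,284)]⟩,
⟨⟨⟨-261,64,12⟩,⟨64,243,96⟩,⟨12,96,-251⟩⟩,true,8,136,.leaf [(0,269),(1,3766),(4,1),(5,14)],.leaf [(0,269),(1,3766),(4,1),(5,14)]⟩,
⟨⟨⟨-189,-36,-188⟩,⟨-84,253,36⟩,⟨172,84,-189⟩⟩,true,13,38,.leaf [(1,2333844),(4,1785),(14,2990),(18,32011)],.leaf [(1,481),(5,1),(10,120)]⟩,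
⟨⟨⟨189,36,-188⟩,⟨-84,253,-36⟩,⟨172,84,189⟩⟩,true,13,231,.leaf [(3,492),(4,3),(10,101),(18,110)],.leaf [(1,269),(3,29052),(5,47),(14,48)]⟩,
⟨⟨⟨-147,216,64⟩,⟨24,91,-252⟩,⟨-224,-132,-69⟩⟩,true,15,124,.leaf [(4,4),(5,3),(7,2),(15,1)],.leaf [(4,941),(5,69),(7,253),(10,72361)]⟩,
⟨⟨⟨147,-216,64⟩,⟨24,91,252⟩,⟨-224,-132,69⟩⟩,true,15,145,.leaf [(3,72361),(4,276),(5,321),(7,166)],.leaf [(3,72361),(4,276),(5,321),(7,166)]⟩,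
⟨⟨⟨243,96,64⟩,⟨96,-251,12⟩,⟨64,12,-261⟩⟩,true,17,101,.leaf [(0,2690),(2,5649),(4,25),(5,4)],.leaf [(0,2690),(2,5649),(4,25),(5,4)]⟩,
⟨⟨⟨-243,-96,64⟩,⟨96,-251,-12⟩,⟨64,12,261⟩⟩,true,17,168,.leaf [(0,72361),(4,347),(5,74),(7,126)],.leaf [(0,72361),(4,347),(5,74),(7,126)]⟩,
⟨⟨⟨91,24,-252⟩,⟨216,-147,64⟩,⟨-132,-224,-69⟩⟩,true,18,80,.leaf [(1,10),(2,171),(3,306),(4,1)],.leaf [(1,10),(2,171),(3,306),(4,1)]⟩,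
⟨⟨⟨91,24,252⟩,⟨-216,147,64⟩,⟨-132,-224,69⟩⟩,true,18,189,.leaf [(1,342),(3,3),(15,1),(18,68)],.leaf [(1,270),(3,1017),(10,340),(15,1)]⟩,
⟨⟨⟨-123,84,-224⟩,⟨-84,-251,-48⟩,⟨-224,48,141⟩⟩,true,19,39,.leaf [(0,275),(1,176),(2,60),(4,1)],.leaf [(0,275),(1,176),(2,60),(4,1)]⟩,
⟨⟨⟨123,-84,-224⟩,⟨-84,-251,48⟩,⟨-224,48,-141⟩⟩,true,19,230,.leaf [(0,116),(1,272),(2,51),(4,1)],.leaf [(0,116),(1,272),(2,51),(4,1)]⟩,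
⟨⟨⟨-51,-264,-8⟩,⟨-216,37,156⟩,⟨-152,36,-219⟩⟩,true,21,74,.leaf [(2,13181),(3,16409),(4,19),(5,63)],.leaf [(2,13181),(3,16409),(4,19),(5,63)]⟩,
⟨⟨⟨51,264,-8⟩,⟨-216,37,-156⟩,⟨-152,36,219⟩⟩,true,21,195,.leaf [(2,72361),(4,347),(7,74),(15,42)],.leaf [(1,228),(2,133),(4,1),(10,94)]⟩,
⟨⟨⟨19,-120,-240⟩,⟨-120,-219,100⟩,⟨-240,100,-69⟩⟩,true,22,44,.leaf [(0,99),(1,289),(3,51),(4,1)],.leaf [(0,99),(1,289),(3,51),(4,1)]⟩,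
⟨⟨⟨19,-120,240⟩,⟨120,219,100⟩,⟨-240,100,69⟩⟩,true,22,225,.leaf [(0,220),(1,66),(3,105),(5,1)],.leaf [(0,220),(1,66),(3,105),(5,1)]⟩,
⟨⟨⟨141,208,-96⟩,⟨208,-69,156⟩,⟨96,-156,-197⟩⟩,true,32,68,.leaf [(0,277),(1,231),(3,21),(4,1)],.leaf [(0,277),(1,231),(3,21),(4,1)]⟩,
⟨⟨⟨141,208,96⟩,⟨208,-69,-156⟩,⟨-96,156,-197⟩⟩,true,32,201,.leaf [(3,72361),(4,54),(5,293),(6,2)],.leaf [(3,72361),(4,54),(5,293),(6,2)]⟩,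
⟨⟨⟨-219,36,-152⟩,⟨156,37,-216⟩,⟨-8,-264,-51⟩⟩,true,33,40,.leaf [(0,478551),(4,301),(7,944),(18,52724)],.leaf [(2,39274),(4,67),(7,228),(10,12643)]⟩,
⟨⟨⟨219,-36,-152⟩,⟨156,37,216⟩,⟨-8,-264,51⟩⟩,true,33,229,.leaf [(1,53262),(3,49765),(4,300),(7,73)],.leaf [(1,53262),(3,49765),(4,300),(7,73)]⟩,
⟨⟨⟨141,-48,-224⟩,⟨48,-251,84⟩,⟨-224,-84,-123⟩⟩,true,34,69,.leaf [(0,203),(1,302),(3,6),(4,1)],.leaf [(0,203),(1,302),(3,6),(4,1)]⟩,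
⟨⟨⟨-141,48,-224⟩,⟨48,-251,-84⟩,⟨-224,-84,123⟩⟩,true,34,200,.leaf [(0,299),(1,125),(3,15),(4,1)],.leaf [(0,299),(1,125),(3,15),(4,1)]⟩,
⟨⟨⟨195,100,-156⟩,⟨-44,-195,-180⟩,⟨-180,156,-125⟩⟩,true,35,53,.leaf [(0,269),(2,3766),(4,14),(6,1)],.leaf [(0,269),(2,3766),(4,14),(6,1)]⟩,
⟨⟨⟨195,100,156⟩,⟨-44,-195,180⟩,⟨180,-156,-125⟩⟩,true,35,216,.leaf [(0,40),(1,24),(2,255),(4,1)],.leaf [(0,40),(1,24),(2,255),(4,1)]⟩,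
⟨⟨⟨-69,-132,-224⟩,⟨-252,91,24⟩,⟨64,216,-147⟩⟩,true,37,128,.leaf [(1,11029),(2,12105),(4,69),(5,79)],.leaf [(1,11029),(2,12105),(4,69),(5,79)]⟩,
⟨⟨⟨69,132,-224⟩,⟨-252,91,-24⟩,⟨64,216,147⟩⟩,true,37,141,.leaf [(1,216),(2,61),(4,1),(18,4)],.leaf [(1,360),(2,1),(4,1),(10,40)]⟩,
⟨⟨⟨-189,-188,-36⟩,⟨172,-189,84⟩,⟨-84,36,253⟩⟩,true,38,13,.leaf [(0,1721331),(5,4320),(18,162476),(22,209)],.leaf [(0,64829),(4,329),(5,360),(10,16140)]⟩,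
⟨⟨⟨-189,-188,36⟩,⟨172,-189,-84⟩,⟨84,-36,253⟩⟩,true,38,256,.leaf [(4,4743),(5,3927),(15,1811),(18,72361)],.leaf [(0,4573),(4,85),(5,72),(10,6456)]⟩,
⟨⟨⟨-123,-224,84⟩,⟨-224,141,48⟩,⟨-84,-48,-251⟩⟩,true,39,19,.leaf [(0,176),(1,275),(3,60),(5,1)],.leaf [(0,176),(1,275),(3,60),(5,1)]⟩,
⟨⟨⟨-123,-224,-84⟩,⟨-224,141,-48⟩,⟨84,48,-251⟩⟩,true,39,250,.leaf [(1,51),(2,272),(3,116),(5,1)],.leaf [(1,51),(2,272),(3,116),(5,1)]⟩,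
⟨⟨⟨-219,-152,36⟩,⟨-8,-51,-264⟩,⟨156,-216,37⟩⟩,true,40,33,.leaf [(1,78279),(5,665),(6,115),(18,13181)],.leaf [(1,2430),(3,1878),(10,965),(14,1)]⟩,
⟨⟨⟨-219,-152,-36⟩,⟨-8,-51,264⟩,⟨-156,216,37⟩⟩,true,40,236,.leaf [(0,4842),(1,2959),(4,14),(5,17)],.leaf [(0,4842),(1,2959),(4,14),(5,17)]⟩,
⟨⟨⟨69,208,-156⟩,⟨208,-141,-96⟩,⟨-156,-96,-197⟩⟩,true,42,103,.leaf [(0,274),(1,60),(2,75),(4,1)],.leaf [(0,274),(1,60),(2,75),(4,1)]⟩,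
⟨⟨⟨69,208,156⟩,⟨208,-141,96⟩,⟨156,96,-197⟩⟩,true,42,166,.leaf [(0,80162),(2,36315),(4,353),(5,60)],.leaf [(0,80162),(2,36315),(4,353),(5,60)]⟩,
⟨⟨⟨19,-240,-120⟩,⟨-240,-69,100⟩,⟨-120,100,-219⟩⟩,true,44,22,.leaf [(2,15602),(3,14795),(4,38),(5,65)],.leaf [(2,15602),(3,14795),(4,38),(5,65)]⟩,
⟨⟨⟨19,-240,120⟩,⟨240,69,100⟩,⟨-120,100,219⟩⟩,true,44,247,.leaf [(0,6725),(2,1614),(5,20),(6,9)],.leaf [(0,6725),(2,1614),(5,20),(6,9)]⟩,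
⟨⟨⟨19,48,264⟩,⟨-48,261,-44⟩,⟨-264,-44,27⟩⟩,true,45,113,.leaf [(0,12933),(3,12816),(18,2396),(22,1)],.leaf [(1,2349),(3,1872),(10,952),(15,1)]⟩,
⟨⟨⟨19,48,-264⟩,⟨48,-261,-44⟩,⟨-264,-44,-27⟩⟩,true,45,156,.leaf [(0,279),(1,220),(2,30),(4,1)],.leaf [(0,279),(1,220),(2,30),(4,1)]⟩,
⟨⟨⟨-197,156,96⟩,⟨156,69,208⟩,⟨96,208,-141⟩⟩,true,47,91,.leaf [(0,29321),(3,50841),(4,291),(5,77)],.leaf [(0,29321),(3,50841),(4,291),(5,77)]⟩,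
⟨⟨⟨-197,156,-96⟩,⟨-156,-69,208⟩,⟨96,208,141⟩⟩,true,47,178,.leaf [(0,225),(1,244),(3,60),(4,1)],.leaf [(0,225),(1,244),(3,60),(4,1)]⟩,
⟨⟨⟨27,-264,-44⟩,⟨264,19,48⟩,⟨-44,-48,261⟩⟩,true,50,98,.leaf [(3,72361),(4,312),(5,39),(7,256)],.leaf [(3,72361),(4,312),(5,39),(7,256)]⟩,
⟨⟨⟨-27,264,-44⟩,⟨264,19,-48⟩,⟨-44,-48,-261⟩⟩,true,50,171,.leaf [(0,144722),(4,574),(5,13),(15,21)],.leaf [(0,465),(3,92),(4,2),(10,25)]⟩,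
⟨⟨⟨195,-156,100⟩,⟨-180,-125,156⟩,⟨-44,-180,-195⟩⟩,true,53,35,.leaf [(1,269),(3,3766),(5,14),(7,1)],.leaf [(1,269),(3,3766),(5,14),(7,1)]⟩,
⟨⟨⟨-195,156,100⟩,⟨-180,-125,-156⟩,⟨-44,-180,195⟩⟩,true,53,234,.leaf [(0,16140),(2,72899),(4,295),(7,256)],.leaf [(0,16140),(2,72899),(4,295),(7,256)]⟩,
⟨⟨⟨69,-240,100⟩,⟨240,19,-120⟩,⟨100,120,219⟩⟩,true,55,134,.leaf [(0,69671),(2,59449),(5,319),(7,119)],.leaf [(0,69671),(2,59449),(5,319),(7,119)]⟩,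
⟨⟨⟨-69,240,100⟩,⟨240,19,120⟩,⟨100,120,-219⟩⟩,true,55,135,.leaf [(0,18292),(3,7263),(4,92),(5,17)],.leaf [(0,18292),(3,7263),(4,92),(5,17)]⟩,
⟨⟨⟨-51,-152,-216⟩,⟨-8,-219,156⟩,⟨-264,36,37⟩⟩,true,61,115,.leaf [(0,67),(1,198),(3,174),(4,1)],.leaf [(0,67),(1,198),(3,174),(4,1)]⟩,
⟨⟨⟨-51,-152,216⟩,⟨-8,-219,-156⟩,⟨264,-36,37⟩⟩,true,61,154,.leaf [(1,29859),(2,18830),(5,161),(14,2)],.leaf [(1,219),(2,106),(5,1),(10,10)]⟩,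
⟨⟨⟨253,84,36⟩,⟨-36,189,-188⟩,⟨-84,172,189⟩⟩,true,62,65,.leaf [(0,289444),(5,625),(7,174),(15,225)],.leaf [(2,8339),(5,3),(7,41),(10,2421)]⟩,
⟨⟨⟨253,84,-36⟩,⟨36,-189,-188⟩,⟨-84,172,-189⟩⟩,true,62,204,.leaf [(0,27707),(1,6187),(4,67),(5,107)],.leaf [(0,27707),(1,6187),(4,67),(5,107)]⟩,
⟨⟨⟨-195,-180,-44⟩,⟨156,-125,-180⟩,⟨100,-156,195⟩⟩,true,63,123,.leaf [(0,196),(1,151),(2,140),(7,1)],.leaf [(0,196),(1,151),(2,140),(7,1)]⟩,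
⟨⟨⟨195,180,-44⟩,⟨156,-125,180⟩,⟨100,-156,-195⟩⟩,true,63,146,.leaf [(0,245),(1,224),(2,60),(4,1)],.leaf [(0,245),(1,224),(2,60),(4,1)]⟩,
⟨⟨⟨37,216,156⟩,⟨-264,51,-8⟩,⟨-36,-152,219⟩⟩,true,64,106,.leaf [(4,4671),(6,3480),(15,1240),(18,72361)],.leaf [(1,436),(2,15),(4,1),(10,150)]⟩,
⟨⟨⟨37,216,-156⟩,⟨264,-51,-8⟩,⟨-36,-152,-219⟩⟩,true,64,163,.leaf [(0,267),(1,94),(3,54),(4,1)],.leaf [(0,267),(1,94),(3,54),(4,1)]⟩,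
⟨⟨⟨253,36,84⟩,⟨-84,189,172⟩,⟨-36,-188,189⟩⟩,true,65,62,.leaf [(1,289444),(4,625),(6,174),(14,225)],.leaf [(1,37179),(10,8640),(26,808),(31,1)]⟩,
⟨⟨⟨253,36,-84⟩,⟨84,-189,172⟩,⟨-36,-188,-189⟩⟩,true,65,207,.leaf [(0,156),(1,256),(2,69),(4,1)],.leaf [(0,156),(1,256),(2,69),(4,1)]⟩,
⟨⟨⟨-125,-180,-156⟩,⟨156,-195,100⟩,⟨-180,-44,195⟩⟩,true,66,111,.leaf [(0,4035),(3,36584),(4,144),(6,5)],.leaf [(0,4035),(3,36584),(4,144),(6,5)]⟩,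
⟨⟨⟨-125,-180,156⟩,⟨-156,195,100⟩,⟨-180,-44,-195⟩⟩,true,66,158,.leaf [(1,80),(2,136),(3,271),(5,1)],.leaf [(1,80),(2,136),(3,271),(5,1)]⟩,
⟨⟨⟨141,-96,208⟩,⟨96,-197,-156⟩,⟨208,156,-69⟩⟩,true,68,32,.leaf [(0,231),(1,277),(2,21),(5,1)],.leaf [(0,231),(1,277),(2,21),(5,1)]⟩,
⟨⟨⟨-141,96,208⟩,⟨96,-197,156⟩,⟨208,156,69⟩⟩,true,68,237,.leaf [(0,29321),(2,14526),(4,139),(5,52)],.leaf [(0,29321),(2,14526),(4,139),(5,52)]⟩,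
⟨⟨⟨141,-224,-48⟩,⟨-224,-123,-84⟩,⟨48,84,-251⟩⟩,true,69,34,.leaf [(0,302),(1,203),(2,6),(5,1)],.leaf [(0,302),(1,203),(2,6),(5,1)]⟩,
⟨⟨⟨141,-224,48⟩,⟨-224,-123,84⟩,⟨-48,-84,-251⟩⟩,true,69,235,.leaf [(1,33625),(3,1614),(4,140),(5,101)],.leaf [(1,33625),(3,1614),(4,140),(5,101)]⟩,
⟨⟨⟨-51,-8,-264⟩,⟨-152,-219,36⟩,⟨-216,156,37⟩⟩,true,74,21,.leaf [(0,205),(1,300),(2,6),(4,1)],.leaf [(0,205),(1,300),(2,6),(4,1)]⟩,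
⟨⟨⟨-51,-8,264⟩,⟨-152,-219,-36⟩,⟨216,-156,37⟩⟩,true,74,248,.leaf [(4,6957),(5,4863),(15,1559),(18,72361)],.leaf [(1,80),(2,116),(4,1),(10,95)]⟩,
⟨⟨⟨69,64,-252⟩,⟨-224,147,-24⟩,⟨132,216,91⟩⟩,true,75,125,.leaf [(1,72361),(4,281),(5,41),(6,81)],.leaf [(1,72361),(4,281),(5,41),(6,81)]⟩,
⟨⟨⟨69,64,252⟩,⟨-224,147,24⟩,⟨-132,-216,91⟩⟩,true,75,144,.leaf [(0,16038),(3,14013),(18,2914),(23,1)],.leaf [(3,4573),(5,13),(6,30),(10,2690)]⟩,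
⟨⟨⟨37,-36,-264⟩,⟨156,219,-8⟩,⟨216,-152,51⟩⟩,true,79,131,.leaf [(3,144722),(4,123),(7,158),(14,173)],.leaf [(1,111537),(10,36585),(26,3281),(31,5)]⟩,
⟨⟨⟨37,-36,264⟩,⟨-156,-219,-8⟩,⟨216,-152,-51⟩⟩,true,79,138,.leaf [(1,72361),(4,94),(5,267),(6,54)],.leaf [(1,72361),(4,94),(5,267),(6,54)]⟩,
⟨⟨⟨91,-252,24⟩,⟨-132,-69,-224⟩,⟨216,64,-147⟩⟩,true,80,18,.leaf [(0,10),(2,306),(3,171),(5,1)],.leaf [(0,10),(2,306),(3,171),(5,1)]⟩,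
⟨⟨⟨91,-252,-24⟩,⟨132,69,-224⟩,⟨216,64,147⟩⟩,true,80,251,.leaf [(2,4842),(6,594),(11,46537),(15,139)],.leaf [(0,211),(2,882),(5,4),(10,171)]⟩,
⟨⟨⟨69,-260,0⟩,⟨-260,-69,0⟩,⟨0,0,-269⟩⟩,true,82,0,.leaf [(1,5380),(2,807),(4,23),(5,20)],.leaf [(1,5380),(2,807),(4,23),(5,20)]⟩,
⟨⟨⟨-251,-84,-48⟩,⟨84,-123,-224⟩,⟨48,-224,141⟩⟩,true,85,87,.leaf [(4,3942),(6,4263),(15,2212),(18,72361)],.leaf [(2,19637),(4,48),(6,143),(10,11836)]⟩,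
⟨⟨⟨-251,-84,48⟩,⟨-84,123,-224⟩,⟨48,-224,-141⟩⟩,true,85,182,.leaf [(1,146),(3,155),(5,1),(18,28)],.leaf [(1,1404),(3,1089),(10,352),(15,1)]⟩,
⟨⟨⟨-251,-48,-84⟩,⟨48,141,-224⟩,⟨84,-224,-123⟩⟩,true,87,85,.leaf [(5,4887),(7,957),(14,1073),(18,72361)],.leaf [(1,1998),(3,3831),(10,1156),(23,1)]⟩,
⟨⟨⟨-251,-48,84⟩,⟨-48,-141,-224⟩,⟨84,-224,123⟩⟩,true,87,184,.leaf [(2,27169),(6,136),(11,10760),(14,45)],.leaf [(0,32),(1,488),(6,1),(10,157)]⟩,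
⟨⟨⟨-147,-24,-224⟩,⟨-216,91,132⟩,⟨64,252,-69⟩⟩,true,88,104,.leaf [(1,2690),(3,807),(4,12),(5,5)],.leaf [(1,2690),(3,807),(4,12),(5,5)]⟩,
⟨⟨⟨147,24,-224⟩,⟨-216,91,-132⟩,⟨64,252,69⟩⟩,true,88,165,.leaf [(2,144722),(4,974),(5,813),(15,181)],.leaf [(2,104372),(4,329),(5,768),(10,48689)]⟩,
⟨⟨⟨-251,-12,96⟩,⟨12,261,64⟩,⟨-96,64,-243⟩⟩,true,89,95,.leaf [(0,76),(1,285),(3,54),(5,1)],.leaf [(0,76),(1,285),(3,54),(5,1)]⟩,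
⟨⟨⟨-251,-12,-96⟩,⟨-12,-261,64⟩,⟨-96,64,243⟩⟩,true,89,174,.leaf [(0,249),(1,85),(3,75),(4,1)],.leaf [(0,249),(1,85),(3,75),(4,1)]⟩,
⟨⟨⟨-197,96,156⟩,⟨96,-141,208⟩,⟨156,208,69⟩⟩,true,91,47,.leaf [(0,32818),(3,7263),(4,138),(5,1)],.leaf [(0,32818),(3,7263),(4,138),(5,1)]⟩,
⟨⟨⟨-197,96,-156⟩,⟨-96,141,208⟩,⟨156,208,-69⟩⟩,true,91,222,.leaf [(1,20713),(3,16140),(4,112),(5,45)],.leaf [(1,20713),(3,16140),(4,112),(5,45)]⟩,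
⟨⟨⟨189,172,84⟩,⟨-188,189,36⟩,⟨-36,-84,253⟩⟩,true,92,120,.leaf [(2,63),(6,3),(11,280),(18,20)],.leaf [(0,150),(2,181),(6,1),(10,30)]⟩,
⟨⟨⟨189,172,-84⟩,⟨-188,189,-36⟩,⟨36,84,253⟩⟩,true,92,149,.leaf [(1,32280),(2,58373),(4,240),(6,173)],.leaf [(1,32280),(2,58373),(4,240),(6,173)]⟩,
⟨⟨⟨-251,96,-12⟩,⟨-96,-243,64⟩,⟨12,64,261⟩⟩,true,95,89,.leaf [(0,285),(1,76),(2,54),(4,1)],.leaf [(0,285),(1,76),(2,54),(4,1)]⟩,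
⟨⟨⟨-251,96,12⟩,⟨96,243,64⟩,⟨12,64,-261⟩⟩,true,95,180,.leaf [(1,1345),(3,269),(5,5),(7,1)],.leaf [(1,1345),(3,269),(5,5),(7,1)]⟩,
⟨⟨⟨219,-8,156⟩,⟨-152,51,216⟩,⟨-36,-264,37⟩⟩,true,97,126,.leaf [(4,7227),(5,2613),(15,1541),(18,72361)],.leaf [(1,980505),(6,5181),(10,647483),(23,155)]⟩,
⟨⟨⟨219,-8,-156⟩,⟨-152,51,-216⟩,⟨36,264,37⟩⟩,true,97,143,.leaf [(2,72361),(4,306),(5,300),(6,205)],.leaf [(2,72361),(4,306),(5,300),(6,205)]⟩,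
⟨⟨⟨27,-44,-264⟩,⟨-44,261,-48⟩,⟨264,48,19⟩⟩,true,98,50,.leaf [(2,72361),(4,39),(5,312),(6,256)],.leaf [(2,72361),(4,39),(5,312),(6,256)]⟩,
⟨⟨⟨27,-44,264⟩,⟨-44,261,48⟩,⟨-264,-48,19⟩⟩,true,98,219,.leaf [(0,217083),(5,728),(6,595),(15,80)],.leaf [(0,10491),(5,40),(6,59),(10,2152)]⟩,
⟨⟨⟨91,132,-216⟩,⟨252,-69,64⟩,⟨-24,-224,-147⟩⟩,true,99,107,.leaf [(0,41),(2,160),(3,280),(4,1)],.leaf [(0,41),(2,160),(3,280),(4,1)]⟩,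
⟨⟨⟨91,132,216⟩,⟨-252,69,64⟩,⟨-24,-224,147⟩⟩,true,99,162,.leaf [(4,513),(6,1293),(10,97109),(18,26093)],.leaf [(1,265772),(4,479),(10,79086),(14,51)]⟩,
⟨⟨⟨243,64,96⟩,⟨64,-261,12⟩,⟨96,12,-251⟩⟩,true,101,17,.leaf [(0,29321),(2,79086),(4,347),(5,84)],.leaf [(0,29321),(2,79086),(4,347),(5,84)]⟩,
⟨⟨⟨243,64,-96⟩,⟨64,-261,-12⟩,⟨-96,-12,-251⟩⟩,true,101,252,.leaf [(0,31),(2,294),(3,84),(4,1)],.leaf [(0,31),(2,294),(3,84),(4,1)]⟩,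
⟨⟨⟨69,-156,208⟩,⟨-156,-197,-96⟩,⟨208,-96,-141⟩⟩,true,103,42,.leaf [(0,60),(1,274),(3,75),(5,1)],.leaf [(0,60),(1,274),(3,75),(5,1)]⟩,
⟨⟨⟨-69,156,208⟩,⟨-156,-197,96⟩,⟨208,-96,141⟩⟩,true,103,227,.leaf [(2,72361),(4,353),(5,189),(7,77)],.leaf [(2,72361),(4,353),(5,189),(7,77)]⟩,
⟨⟨⟨-147,-224,-24⟩,⟨64,-69,252⟩,⟨-216,132,91⟩⟩,true,104,88,.leaf [(0,2690),(3,18561),(4,86),(5,45)],.leaf [(0,2690),(3,18561),(4,86),(5,45)]⟩,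
⟨⟨⟨-147,-224,24⟩,⟨64,-69,-252⟩,⟨216,-132,91⟩⟩,true,104,181,.leaf [(1,397851),(5,2975),(6,1765),(18,48689)],.leaf [(1,762615),(5,1671),(10,206323),(14,77)]⟩,
⟨⟨⟨37,156,216⟩,⟨-36,219,-152⟩,⟨-264,-8,51⟩⟩,true,106,64,.leaf [(5,3672),(7,2064),(14,2099),(18,72361)],.leaf [(0,123),(3,158),(7,2),(10,173)]⟩,
⟨⟨⟨37,156,-216⟩,⟨36,-219,-152⟩,⟨-264,-8,-51⟩⟩,true,106,205,.leaf [(0,219),(1,64),(2,156),(4,1)],.leaf [(0,219),(1,64),(2,156),(4,1)]⟩,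
⟨⟨⟨91,-216,132⟩,⟨-24,-147,-224⟩,⟨252,64,-69⟩⟩,true,107,99,.leaf [(1,41),(2,280),(3,160),(5,1)],.leaf [(1,41),(2,280),(3,160),(5,1)]⟩,
⟨⟨⟨91,-216,-132⟩,⟨24,147,-224⟩,⟨252,64,69⟩⟩,true,107,170,.leaf [(2,1215),(11,92),(14,2),(18,69)],.leaf [(2,207937),(5,927),(7,37),(10,45999)]⟩,
⟨⟨⟨-219,120,100⟩,⟨120,19,240⟩,⟨100,240,-69⟩⟩,true,110,2,.leaf [(0,36584),(3,50841),(4,304),(5,49)],.leaf [(0,36584),(3,50841),(4,304),(5,49)]⟩,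
⟨⟨⟨219,-120,100⟩,⟨120,19,-240⟩,⟨100,240,69⟩⟩,true,110,267,.leaf [(0,255),(1,31),(2,105),(5,1)],.leaf [(0,255),(1,31),(2,105),(5,1)]⟩,
⟨⟨⟨-125,-156,-180⟩,⟨-180,195,-44⟩,⟨156,100,-195⟩⟩,true,111,66,.leaf [(1,4035),(2,36584),(5,144),(7,5)],.leaf [(1,4035),(2,36584),(5,144),(7,5)]⟩,
⟨⟨⟨-125,-156,180⟩,⟨180,-195,-44⟩,⟨156,100,195⟩⟩,true,111,203,.leaf [(0,8608),(2,1883),(4,17),(6,28)],.leaf [(0,8608),(2,1883),(4,17),(6,28)]⟩,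
⟨⟨⟨19,264,48⟩,⟨-264,27,-44⟩,⟨-48,-44,261⟩⟩,true,113,45,.leaf [(1,197),(4,2),(11,181),(18,50)],.leaf [(0,84),(1,520),(4,1),(10,153)]⟩,
⟨⟨⟨19,264,-48⟩,⟨264,-27,-44⟩,⟨-48,-44,-261⟩⟩,true,113,224,.leaf [(0,270),(1,4),(2,21),(4,1)],.leaf [(0,270),(1,4),(2,21),(4,1)]⟩,
⟨⟨⟨-51,-216,-152⟩,⟨-264,37,36⟩,⟨-8,156,-219⟩⟩,true,115,61,.leaf [(1,46537),(2,1614),(4,198),(5,139)],.leaf [(1,46537),(2,1614),(4,198),(5,139)]⟩,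
⟨⟨⟨51,216,-152⟩,⟨-264,37,-36⟩,⟨-8,156,219⟩⟩,true,115,208,.leaf [(1,10491),(2,15602),(4,86),(15,1)],.leaf [(1,156),(2,169),(4,1),(10,10)]⟩,
⟨⟨⟨189,84,172⟩,⟨-36,253,-84⟩,⟨-188,36,189⟩⟩,true,120,92,.leaf [(3,603),(7,3),(10,160),(18,40)],.leaf [(1,1269),(3,171),(10,193),(14,1)]⟩,
⟨⟨⟨-189,-84,172⟩,⟨-36,253,84⟩,⟨-188,36,-189⟩⟩,true,120,177,.leaf [(0,120),(1,241),(3,120),(5,1)],.leaf [(0,120),(1,241),(3,120),(5,1)]⟩,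
⟨⟨⟨-195,-44,-180⟩,⟨100,195,-156⟩,⟨156,-180,-125⟩⟩,true,123,63,.leaf [(0,151),(1,196),(3,140),(6,1)],.leaf [(0,151),(1,196),(3,140),(6,1)]⟩,
⟨⟨⟨-195,-44,180⟩,⟨100,195,156⟩,⟨-156,180,-125⟩⟩,true,123,206,.leaf [(0,224),(1,284),(3,21),(5,1)],.leaf [(0,224),(1,284),(3,21),(5,1)]⟩,
⟨⟨⟨-147,64,216⟩,⟨-224,-69,-132⟩,⟨24,-252,91⟩⟩,true,124,15,.leaf [(4,3),(5,4),(6,2),(14,1)],.leaf [(4,768),(5,88),(6,395),(10,72361)]⟩,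
⟨⟨⟨-147,64,-216⟩,⟨-224,-69,132⟩,⟨-24,252,91⟩⟩,true,124,254,.leaf [(0,133),(1,279),(3,69),(4,1)],.leaf [(0,133),(1,279),(3,69),(4,1)]⟩,
⟨⟨⟨69,-252,64⟩,⟨132,91,216⟩,⟨-224,-24,147⟩⟩,true,125,75,.leaf [(0,72361),(4,41),(5,281),(7,81)],.leaf [(0,72361),(4,41),(5,281),(7,81)]⟩,
⟨⟨⟨-69,252,64⟩,⟨132,91,-216⟩,⟨-224,-24,-147⟩⟩,true,125,194,.leaf [(4,2148),(5,6192),(14,2281),(18,72361)],.leaf [(0,81),(3,40),(4,1),(10,80)]⟩,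
⟨⟨⟨219,156,-8⟩,⟨-36,37,-264⟩,⟨-152,216,51⟩⟩,true,126,97,.leaf [(4,2931),(5,2628),(14,1294),(18,72361)],.leaf [(4,983),(5,825),(7,253),(10,72361)]⟩,
⟨⟨⟨-219,-156,-8⟩,⟨-36,37,264⟩,⟨-152,216,-51⟩⟩,true,126,172,.leaf [(0,4573),(1,3766),(4,11),(5,18)],.leaf [(0,4573),(1,3766),(4,11),(5,18)]⟩,
⟨⟨⟨-69,-224,-132⟩,⟨64,-147,216⟩,⟨-252,24,91⟩⟩,true,128,37,.leaf [(1,11029),(3,58104),(4,248),(5,77)],.leaf [(1,11029),(3,58104),(4,248),(5,77)]⟩,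
⟨⟨⟨-69,-224,132⟩,⟨64,-147,-216⟩,⟨252,-24,91⟩⟩,true,128,232,.leaf [(1,1614),(2,4573),(5,22),(14,1)],.leaf [(1,201),(2,160),(5,1),(10,40)]⟩,
⟨⟨⟨-261,-44,48⟩,⟨-44,-27,-264⟩,⟨48,-264,19⟩⟩,true,129,6,.leaf [(3,72361),(5,41),(6,281),(14,27)],.leaf [(1,1080),(3,843),(10,200),(15,1)]⟩,
⟨⟨⟨-261,-44,-48⟩,⟨-44,-27,264⟩,⟨-48,264,19⟩⟩,true,129,263,.leaf [(1,15871),(3,79086),(4,308),(5,17)],.leaf [(1,15871),(3,79086),(4,308),(5,17)]⟩,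
⟨⟨⟨37,-264,-36⟩,⟨216,51,-152⟩,⟨156,-8,219⟩⟩,true,131,79,.leaf [(2,144722),(5,123),(6,158),(15,173)],.leaf [(0,19),(2,750),(5,4),(10,255)]⟩,
⟨⟨⟨37,-264,36⟩,⟨-216,-51,-152⟩,⟨156,-8,-219⟩⟩,true,131,190,.leaf [(0,196),(1,255),(2,60),(5,1)],.leaf [(0,196),(1,255),(2,60),(5,1)]⟩,
⟨⟨⟨-261,-12,64⟩,⟨-12,-251,-96⟩,⟨64,-96,243⟩⟩,true,133,8,.leaf [(2,72361),(4,263),(5,252),(7,284)],.leaf [(2,72361),(4,263),(5,252),(7,284)]⟩,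
⟨⟨⟨261,12,64⟩,⟨-12,-251,96⟩,⟨64,-96,-243⟩⟩,true,133,261,.leaf [(0,11),(1,32),(2,252),(4,1)],.leaf [(0,11),(1,32),(2,252),(4,1)]⟩,
⟨⟨⟨69,100,-240⟩,⟨100,219,120⟩,⟨240,-120,19⟩⟩,true,134,55,.leaf [(1,69671),(3,59449),(4,319),(6,119)],.leaf [(1,69671),(3,59449),(4,319),(6,119)]⟩,
⟨⟨⟨69,100,240⟩,⟨100,219,-120⟩,⟨-240,120,19⟩⟩,true,134,214,.leaf [(0,7263),(3,18292),(5,92),(6,17)],.leaf [(0,7263),(3,18292),(5,92),(6,17)]⟩,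
⟨⟨⟨-69,100,240⟩,⟨100,-219,120⟩,⟨240,120,19⟩⟩,true,135,55,.leaf [(0,36584),(2,36315),(4,221),(5,120)],.leaf [(0,36584),(2,36315),(4,221),(5,120)]⟩,
⟨⟨⟨-69,100,-240⟩,⟨100,-219,-120⟩,⟨-240,-120,19⟩⟩,true,135,214,.leaf [(0,304),(1,120),(2,15),(4,1)],.leaf [(0,304),(1,120),(2,15),(4,1)]⟩,
⟨⟨⟨-261,12,64⟩,⟨12,-251,96⟩,⟨64,96,243⟩⟩,true,136,8,.leaf [(0,263),(1,11),(3,21),(4,1)],.leaf [(0,263),(1,11),(3,21),(4,1)]⟩,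
⟨⟨⟨261,-12,64⟩,⟨12,-251,-96⟩,⟨64,96,-243⟩⟩,true,136,261,.leaf [(0,4573),(1,3766),(4,11),(5,18)],.leaf [(0,4573),(1,3766),(4,11),(5,18)]⟩,
⟨⟨⟨37,264,-36⟩,⟨216,-51,-152⟩,⟨-156,-8,-219⟩⟩,true,138,79,.leaf [(0,72361),(4,267),(5,94),(7,54)],.leaf [(0,72361),(4,267),(5,94),(7,54)]⟩,
⟨⟨⟨37,264,36⟩,⟨-216,51,-152⟩,⟨-156,-8,219⟩⟩,true,138,190,.leaf [(0,356),(2,92),(4,1),(18,47)],.leaf [(0,495),(2,274),(7,4),(10,255)]⟩,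
⟨⟨⟨261,-44,-48⟩,⟨-44,27,-264⟩,⟨48,264,19⟩⟩,true,140,6,.leaf [(0,73437),(2,21520),(5,312),(6,67)],.leaf [(0,73437),(2,21520),(5,312),(6,67)]⟩,
⟨⟨⟨261,-44,48⟩,⟨-44,27,264⟩,⟨-48,-264,19⟩⟩,true,140,263,.leaf [(4,8739),(5,3162),(15,2294),(18,72361)],.leaf [(1,6129),(3,1995),(10,1615),(22,1)]⟩,
⟨⟨⟨69,-224,132⟩,⟨64,147,216⟩,⟨-252,-24,91⟩⟩,true,141,37,.leaf [(3,3240),(18,481),(22,1)],.leaf [(0,180),(3,121),(5,1),(10,20)]⟩,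
⟨⟨⟨69,-224,-132⟩,⟨64,147,-216⟩,⟨252,24,91⟩⟩,true,141,232,.leaf [(1,12105),(2,11029),(5,69),(6,79)],.leaf [(1,12105),(2,11029),(5,69),(6,79)]⟩,
⟨⟨⟨219,-156,-8⟩,⟨36,37,264⟩,⟨-152,-216,51⟩⟩,true,143,97,.leaf [(3,72361),(4,300),(5,306),(7,205)],.leaf [(3,72361),(4,300),(5,306),(7,205)]⟩,
⟨⟨⟨-219,156,-8⟩,⟨36,37,-264⟩,⟨-152,-216,-51⟩⟩,true,143,172,.leaf [(2,72361),(4,179),(7,305),(15,63)],.leaf [(4,1055),(5,222),(7,490),(10,72361)]⟩,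
⟨⟨⟨69,252,64⟩,⟨-132,91,-216⟩,⟨-224,24,147⟩⟩,true,144,75,.leaf [(2,4573),(4,85),(7,72),(18,2152)],.leaf [(1,360),(2,1),(4,1),(10,160)]⟩,
⟨⟨⟨-69,-252,64⟩,⟨-132,91,216⟩,⟨-224,24,-147⟩⟩,true,144,194,.leaf [(0,276),(1,166),(3,45),(5,1)],.leaf [(0,276),(1,166),(3,45),(5,1)]⟩,
⟨⟨⟨147,64,-216⟩,⟨-224,69,-132⟩,⟨24,252,91⟩⟩,true,145,15,.leaf [(2,72361),(4,321),(5,276),(6,166)],.leaf [(2,72361),(4,321),(5,276),(6,166)]⟩,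
⟨⟨⟨147,64,216⟩,⟨-224,69,132⟩,⟨-24,-252,91⟩⟩,true,145,254,.leaf [(4,3),(5,4),(6,2),(14,1)],.leaf [(4,48),(5,136),(6,869),(10,72361)]⟩,
⟨⟨⟨195,-44,180⟩,⟨100,-195,-156⟩,⟨156,180,-125⟩⟩,true,146,63,.leaf [(0,224),(1,245),(3,60),(5,1)],.leaf [(0,224),(1,245),(3,60),(5,1)]⟩,
⟨⟨⟨195,-44,-180⟩,⟨100,-195,156⟩,⟨-156,-180,-125⟩⟩,true,146,206,.leaf [(0,151),(1,291),(3,45),(4,1)],.leaf [(0,151),(1,291),(3,45),(4,1)]⟩,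
⟨⟨⟨189,-84,172⟩,⟨36,253,84⟩,⟨-188,-36,189⟩⟩,true,149,92,.leaf [(0,32280),(3,58373),(5,240),(7,173)],.leaf [(0,32280),(3,58373),(5,240),(7,173)]⟩,
⟨⟨⟨-189,84,172⟩,⟨36,253,-84⟩,⟨-188,-36,-189⟩⟩,true,149,177,.leaf [(5,3321),(7,1785),(10,324145),(18,32011)],.leaf [(1,1080),(10,481),(14,1)]⟩,
⟨⟨⟨-51,216,-152⟩,⟨264,37,-36⟩,⟨-8,-156,-219⟩⟩,true,154,61,.leaf [(0,29859),(3,18830),(4,161),(15,2)],.leaf [(0,174),(3,136),(4,1),(10,5)]⟩,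
⟨⟨⟨51,-216,-152⟩,⟨264,37,36⟩,⟨-8,-156,219⟩⟩,true,154,208,.leaf [(0,72361),(4,227),(5,173),(7,321)],.leaf [(0,72361),(4,227),(5,173),(7,321)]⟩,
⟨⟨⟨19,-264,48⟩,⟨-264,-27,-44⟩,⟨48,-44,-261⟩⟩,true,156,45,.leaf [(0,220),(1,279),(3,30),(5,1)],.leaf [(0,220),(1,279),(3,30),(5,1)]⟩,
⟨⟨⟨19,-264,-48⟩,⟨264,27,-44⟩,⟨48,-44,261⟩⟩,true,156,224,.R (.leaf [(0,108),(3,117),(18,20),(27,1)]) (.leaf [(0,189),(3,144),(18,32),(26,1)]) (.leaf [(0,26946),(3,25911),(18,4438),(31,1)]),.leaf [(0,405),(3,92),(6,2),(10,69)]⟩,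
⟨⟨⟨-125,156,-180⟩,⟨-180,-195,-44⟩,⟨-156,100,195⟩⟩,true,158,66,.leaf [(0,80),(2,271),(3,136),(4,1)],.leaf [(0,80),(2,271),(3,136),(4,1)]⟩,
⟨⟨⟨-125,156,180⟩,⟨180,195,-44⟩,⟨-156,100,-195⟩⟩,true,158,203,.leaf [(1,4573),(3,7532),(5,32),(7,7)],.leaf [(1,4573),(3,7532),(5,32),(7,7)]⟩,
⟨⟨⟨-219,-120,100⟩,⟨-120,19,-240⟩,⟨100,-240,-69⟩⟩,true,159,2,.leaf [(1,27169),(2,32280),(5,136),(7,135)],.leaf [(1,27169),(2,32280),(5,136),(7,135)]⟩,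
⟨⟨⟨219,120,100⟩,⟨-120,19,240⟩,⟨100,-240,69⟩⟩,true,159,267,.leaf [(1,50841),(2,36584),(4,304),(7,49)],.leaf [(1,50841),(2,36584),(4,304),(7,49)]⟩,
⟨⟨⟨91,216,132⟩,⟨-24,147,-224⟩,⟨-252,64,69⟩⟩,true,162,99,.leaf [(5,3105),(7,1659),(14,1895),(18,72361)],.leaf [(0,195025),(5,238),(7,990),(10,45999)]⟩,
⟨⟨⟨91,216,-132⟩,⟨24,-147,-224⟩,⟨-252,64,-69⟩⟩,true,162,170,.leaf [(0,50034),(2,48689),(4,201),(7,92)],.leaf [(0,50034),(2,48689),(4,201),(7,92)]⟩,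
⟨⟨⟨37,-156,216⟩,⟨-36,-219,-152⟩,⟨264,-8,-51⟩⟩,true,163,64,.leaf [(0,94),(1,267),(2,54),(5,1)],.leaf [(0,94),(1,267),(2,54),(5,1)]⟩,
⟨⟨⟨37,-156,-216⟩,⟨36,219,-152⟩,⟨264,-8,51⟩⟩,true,163,205,.leaf [(2,19),(7,4),(10,250),(18,85)],.leaf [(1,605250),(5,1521),(10,250708),(15,25)]⟩,
⟨⟨⟨147,-224,24⟩,⟨64,69,252⟩,⟨-216,-132,91⟩⟩,true,165,88,.leaf [(3,144722),(4,813),(5,974),(14,181)],.leaf [(3,159517),(4,15),(5,577),(10,48689)]⟩,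
⟨⟨⟨147,-224,-24⟩,⟨64,69,-252⟩,⟨216,132,91⟩⟩,true,165,181,.leaf [(0,807),(2,2690),(5,12),(6,5)],.leaf [(0,807),(2,2690),(5,12),(6,5)]⟩,
⟨⟨⟨69,156,208⟩,⟨156,-197,96⟩,⟨208,96,-141⟩⟩,true,166,42,.leaf [(0,65636),(2,50841),(4,349),(5,112)],.leaf [(0,65636),(2,50841),(4,349),(5,112)]⟩,
⟨⟨⟨-69,-156,208⟩,⟨156,-197,-96⟩,⟨208,96,141⟩⟩,true,166,227,.leaf [(0,21),(1,67),(2,231),(5,1)],.leaf [(0,21),(1,67),(2,231),(5,1)]⟩,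
⟨⟨⟨-243,64,-96⟩,⟨64,261,12⟩,⟨96,-12,-251⟩⟩,true,168,17,.leaf [(1,72361),(4,74),(5,347),(6,126)],.leaf [(1,72361),(4,74),(5,347),(6,126)]⟩,
⟨⟨⟨-243,64,96⟩,⟨64,261,-12⟩,⟨-96,12,-251⟩⟩,true,168,252,.leaf [(1,5649),(3,2690),(5,25),(6,4)],.leaf [(1,5649),(3,2690),(5,25),(6,4)]⟩,
⟨⟨⟨91,-132,-216⟩,⟨252,69,64⟩,⟨24,-224,147⟩⟩,true,170,107,.leaf [(0,11664),(3,12231),(18,2344),(23,1)],.leaf [(3,8070),(6,69),(10,6187),(15,10)]⟩,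
⟨⟨⟨91,-132,216⟩,⟨-252,-69,64⟩,⟨24,-224,-147⟩⟩,true,170,162,.leaf [(1,50034),(3,48689),(5,201),(6,92)],.leaf [(1,50034),(3,48689),(5,201),(6,92)]⟩,
⟨⟨⟨-27,-44,264⟩,⟨-44,-261,-48⟩,⟨264,-48,19⟩⟩,true,171,50,.leaf [(1,144722),(4,13),(5,574),(14,21)],.leaf [(1,52993),(4,29),(5,161),(10,5649)]⟩,
⟨⟨⟨-27,-44,-264⟩,⟨-44,-261,48⟩,⟨-264,48,19⟩⟩,true,171,219,.leaf [(0,217),(1,273),(3,39),(4,1)],.leaf [(0,217),(1,273),(3,39),(4,1)]⟩,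
⟨⟨⟨-219,-8,-156⟩,⟨-152,-51,216⟩,⟨-36,264,37⟩⟩,true,172,126,.leaf [(0,43),(1,174),(3,198),(4,1)],.leaf [(0,43),(1,174),(3,198),(4,1)]⟩,
⟨⟨⟨-219,-8,156⟩,⟨-152,-51,-216⟩,⟨36,-264,37⟩⟩,true,172,143,.leaf [(3,72361),(5,179),(6,305),(14,63)],.leaf [(3,72361),(4,30),(6,106),(15,73)]⟩,
⟨⟨⟨-251,-96,-12⟩,⟨-96,243,64⟩,⟨-12,64,-261⟩⟩,true,174,89,.leaf [(0,85),(1,249),(2,75),(5,1)],.leaf [(0,85),(1,249),(2,75),(5,1)]⟩,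
⟨⟨⟨-251,-96,12⟩,⟨96,-243,64⟩,⟨-12,64,261⟩⟩,true,174,180,.leaf [(0,72361),(4,285),(5,76),(6,54)],.leaf [(0,72361),(4,285),(5,76),(6,54)]⟩,
⟨⟨⟨-189,172,-84⟩,⟨-188,-189,36⟩,⟨-36,84,253⟩⟩,true,177,120,.leaf [(0,241),(1,120),(2,120),(4,1)],.leaf [(0,241),(1,120),(2,120),(4,1)]⟩,
⟨⟨⟨-189,172,84⟩,⟨-188,-189,-36⟩,⟨36,-84,253⟩⟩,true,177,149,.leaf [(4,5022),(6,357),(11,491732),(18,32011)],.leaf [(0,151),(2,180),(4,1),(10,30)]⟩,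
⟨⟨⟨-197,-96,156⟩,⟨96,141,208⟩,⟨-156,208,-69⟩⟩,true,178,47,.leaf [(0,24748),(1,22865),(4,20),(5,97)],.leaf [(0,24748),(1,22865),(4,20),(5,97)]⟩,
⟨⟨⟨-197,-96,-156⟩,⟨-96,-141,208⟩,⟨-156,208,69⟩⟩,true,178,222,.leaf [(0,45),(1,154),(3,210),(4,1)],.leaf [(0,45),(1,154),(3,210),(4,1)]⟩,
⟨⟨⟨-251,12,96⟩,⟨12,-261,64⟩,⟨96,64,243⟩⟩,true,180,95,.leaf [(0,1345),(2,269),(4,5),(6,1)],.leaf [(0,1345),(2,269),(4,5),(6,1)]⟩,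
⟨⟨⟨-251,12,-96⟩,⟨-12,261,64⟩,⟨96,64,-243⟩⟩,true,180,174,.leaf [(1,72361),(4,76),(5,285),(7,54)],.leaf [(1,72361),(4,76),(5,285),(7,54)]⟩,
⟨⟨⟨-147,24,-224⟩,⟨216,91,-132⟩,⟨64,-252,-69⟩⟩,true,181,104,.L (.leaf [(0,72899),(2,16140),(4,295),(5,256)]) (.leaf [(0,200),(1,56),(2,231),(4,1)]) (.leaf [(1,64291),(3,40619),(4,281),(6,31)]),.leaf [(0,105717),(4,622),(7,860),(10,48689)]⟩,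
⟨⟨⟨147,-24,-224⟩,⟨216,91,132⟩,⟨64,-252,69⟩⟩,true,181,165,.leaf [(1,807),(3,2690),(4,12),(7,5)],.leaf [(1,807),(3,2690),(4,12),(7,5)]⟩,
⟨⟨⟨-251,48,-84⟩,⟨48,-141,-224⟩,⟨-84,-224,123⟩⟩,true,182,85,.leaf [(0,8883),(3,8064),(18,1844),(22,1)],.leaf [(0,253),(3,220),(4,2),(10,125)]⟩,
⟨⟨⟨-251,48,84⟩,⟨-48,141,-224⟩,⟨-84,-224,-123⟩⟩,true,182,184,.leaf [(5,6507),(7,1713),(14,2129),(18,72361)],.leaf [(1,163296),(10,39375),(26,4108),(30,5)]⟩,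
⟨⟨⟨-251,84,-48⟩,⟨84,123,-224⟩,⟨-48,-224,-141⟩⟩,true,184,87,.leaf [(3,27169),(7,136),(10,10760),(15,45)],.leaf [(1,1701),(3,987),(10,857),(14,1)]⟩,
⟨⟨⟨-251,84,48⟩,⟨-84,-123,-224⟩,⟨-48,-224,141⟩⟩,true,184,182,.leaf [(4,1998),(6,3831),(15,1156),(18,72361)],.leaf [(0,119),(2,20),(4,1),(10,68)]⟩,
⟨⟨⟨-69,-260,0⟩,⟨-260,69,0⟩,⟨0,0,-269⟩⟩,true,187,0,.leaf [(0,230),(1,269),(2,30),(5,1)],.leaf [(0,230),(1,269),(2,30),(5,1)]⟩,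
⟨⟨⟨91,252,24⟩,⟨-132,69,-224⟩,⟨-216,64,147⟩⟩,true,189,18,.leaf [(0,476),(2,17),(4,1),(18,62)],.leaf [(0,711),(2,382),(7,4),(10,171)]⟩,
⟨⟨⟨91,252,-24⟩,⟨132,-69,-224⟩,⟨-216,64,-147⟩⟩,true,189,251,.leaf [(0,72361),(4,201),(5,160),(7,120)],.leaf [(0,72361),(4,201),(5,160),(7,120)]⟩,
⟨⟨⟨37,36,-264⟩,⟨156,-219,-8⟩,⟨-216,-152,-51⟩⟩,true,190,131,.leaf [(0,255),(1,196),(3,60),(4,1)],.leaf [(0,255),(1,196),(3,60),(4,1)]⟩,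
⟨⟨⟨37,36,264⟩,⟨-156,219,-8⟩,⟨-216,-152,51⟩⟩,true,190,138,.leaf [(1,9),(3,451),(6,1),(18,51)],.leaf [(1,1404),(3,1593),(10,688),(15,1)]⟩,
⟨⟨⟨-69,64,252⟩,⟨-224,-147,-24⟩,⟨132,-216,91⟩⟩,true,194,125,.leaf [(4,3825),(5,3396),(15,500),(18,72361)],.leaf [(1,164),(2,101),(4,1),(10,110)]⟩,
⟨⟨⟨-69,64,-252⟩,⟨-224,-147,24⟩,⟨-132,216,91⟩⟩,true,194,144,.leaf [(0,166),(1,276),(2,45),(4,1)],.leaf [(0,166),(1,276),(2,45),(4,1)]⟩,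
⟨⟨⟨51,-8,264⟩,⟨-152,219,36⟩,⟨-216,-156,37⟩⟩,true,195,21,.leaf [(3,72361),(5,347),(6,74),(14,42)],.leaf [(0,18561),(5,44),(6,166),(10,9953)]⟩,
⟨⟨⟨51,-8,-264⟩,⟨-152,219,-36⟩,⟨216,156,37⟩⟩,true,195,248,.leaf [(1,72361),(4,305),(5,179),(6,189)],.leaf [(1,72361),(4,305),(5,179),(6,189)]⟩,
⟨⟨⟨-141,-224,48⟩,⟨-224,123,-84⟩,⟨48,-84,-251⟩⟩,true,200,34,.leaf [(0,125),(1,299),(2,15),(5,1)],.leaf [(0,125),(1,299),(2,15),(5,1)]⟩,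
⟨⟨⟨-141,-224,-48⟩,⟨-224,123,84⟩,⟨-48,84,-251⟩⟩,true,200,235,.leaf [(0,269),(1,538),(4,1),(5,2)],.leaf [(0,269),(1,538),(4,1),(5,2)]⟩,
⟨⟨⟨141,96,208⟩,⟨-96,-197,156⟩,⟨208,-156,-69⟩⟩,true,201,32,.leaf [(2,72361),(4,293),(5,54),(7,2)],.leaf [(2,72361),(4,293),(5,54),(7,2)]⟩,
⟨⟨⟨-141,-96,208⟩,⟨-96,-197,-156⟩,⟨208,-156,69⟩⟩,true,201,237,.leaf [(2,72361),(4,293),(5,291),(7,239)],.leaf [(2,72361),(4,293),(5,291),(7,239)]⟩,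
⟨⟨⟨-125,180,-156⟩,⟨156,195,100⟩,⟨180,-44,-195⟩⟩,true,203,111,.leaf [(1,8608),(3,1883),(5,17),(7,28)],.leaf [(1,8608),(3,1883),(5,17),(7,28)]⟩,
⟨⟨⟨-125,180,156⟩,⟨-156,-195,100⟩,⟨180,-44,195⟩⟩,true,203,158,.leaf [(0,4573),(2,7532),(4,32),(6,7)],.leaf [(0,4573),(2,7532),(4,32),(6,7)]⟩,
⟨⟨⟨253,-36,84⟩,⟨-84,-189,172⟩,⟨36,-188,-189⟩⟩,true,204,62,.leaf [(1,27976),(2,18561),(4,169),(5,48)],.leaf [(1,27976),(2,18561),(4,169),(5,48)]⟩,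
⟨⟨⟨253,-36,-84⟩,⟨84,189,172⟩,⟨36,-188,189⟩⟩,true,204,207,.leaf [(4,6210),(6,1491),(15,2092),(18,72361)],.leaf [(1,1836),(3,1284),(10,527),(14,1)]⟩,
⟨⟨⟨37,-216,156⟩,⟨-264,-51,-8⟩,⟨36,-152,-219⟩⟩,true,205,106,.leaf [(0,64),(1,219),(3,156),(5,1)],.leaf [(0,64),(1,219),(3,156),(5,1)]⟩,
⟨⟨⟨37,-216,-156⟩,⟨264,51,-8⟩,⟨36,-152,219⟩⟩,true,205,163,.L (.leaf [(5,37827),(14,5511),(23,2171),(26,72361)]) (.leaf [(1,27976),(2,60525),(4,219),(5,64)]) (.leaf [(0,18561),(1,21251),(5,41),(6,45)]),.leaf [(0,90),(3,136),(6,1),(10,75)]⟩,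
⟨⟨⟨-195,180,-44⟩,⟨-156,-125,180⟩,⟨100,156,195⟩⟩,true,206,123,.leaf [(0,284),(1,224),(2,21),(4,1)],.leaf [(0,284),(1,224),(2,21),(4,1)]⟩,
⟨⟨⟨195,-180,-44⟩,⟨-156,-125,-180⟩,⟨100,156,-195⟩⟩,true,206,146,.leaf [(0,291),(1,151),(2,45),(5,1)],.leaf [(0,291),(1,151),(2,45),(5,1)]⟩,
⟨⟨⟨253,-84,36⟩,⟨-36,-189,-188⟩,⟨84,172,-189⟩⟩,true,207,65,.leaf [(0,28783),(1,18023),(4,23),(5,103)],.leaf [(0,28783),(1,18023),(4,23),(5,103)]⟩,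
⟨⟨⟨253,-84,-36⟩,⟨36,189,-188⟩,⟨84,172,189⟩⟩,true,207,204,.leaf [(5,2133),(7,3891),(14,1301),(18,72361)],.leaf [(0,625),(2,174),(5,4),(10,225)]⟩,
⟨⟨⟨51,-152,216⟩,⟨-8,219,156⟩,⟨-264,-36,37⟩⟩,true,208,115,.leaf [(0,10491),(3,15602),(5,86),(14,1)],.leaf [(0,111),(3,199),(5,1),(10,5)]⟩,
⟨⟨⟨51,-152,-216⟩,⟨-8,219,-156⟩,⟨264,36,37⟩⟩,true,208,154,.leaf [(1,72361),(4,173),(5,227),(6,321)],.leaf [(1,72361),(4,173),(5,227),(6,321)]⟩,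
⟨⟨⟨69,240,100⟩,⟨-240,19,120⟩,⟨100,-120,219⟩⟩,true,214,134,.leaf [(1,7263),(2,18292),(4,92),(7,17)],.leaf [(1,7263),(2,18292),(4,92),(7,17)]⟩,
⟨⟨⟨-69,-240,100⟩,⟨-240,19,-120⟩,⟨100,-120,-219⟩⟩,true,214,135,.leaf [(0,120),(1,304),(3,15),(5,1)],.leaf [(0,120),(1,304),(3,15),(5,1)]⟩,
⟨⟨⟨195,156,100⟩,⟨180,-125,-156⟩,⟨-44,180,-195⟩⟩,true,216,35,.leaf [(0,72899),(2,16140),(4,295),(5,256)],.leaf [(0,72899),(2,16140),(4,295),(5,256)]⟩,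
⟨⟨⟨-195,-156,100⟩,⟨180,-125,156⟩,⟨-44,180,195⟩⟩,true,216,234,.leaf [(0,72361),(4,305),(5,245),(7,21)],.leaf [(0,72361),(4,305),(5,245),(7,21)]⟩,
⟨⟨⟨27,264,-44⟩,⟨-264,19,-48⟩,⟨-44,48,261⟩⟩,true,219,98,.leaf [(1,217083),(4,728),(7,595),(14,80)],.leaf [(1,96),(2,220),(4,1),(10,25)]⟩,
⟨⟨⟨-27,-264,-44⟩,⟨-264,19,48⟩,⟨-44,48,-261⟩⟩,true,219,171,.leaf [(2,39812),(3,35777),(4,28),(5,153)],.leaf [(2,39812),(3,35777),(4,28),(5,153)]⟩,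
⟨⟨⟨-197,-156,96⟩,⟨156,-69,208⟩,⟨-96,208,141⟩⟩,true,222,91,.leaf [(0,26093),(1,5380),(4,85),(5,92)],.leaf [(0,26093),(1,5380),(4,85),(5,92)]⟩,
⟨⟨⟨-197,-156,-96⟩,⟨-156,69,208⟩,⟨-96,208,-141⟩⟩,true,222,178,.leaf [(1,64291),(3,56490),(4,364),(5,225)],.leaf [(1,64291),(3,56490),(4,364),(5,225)]⟩,
⟨⟨⟨19,-48,264⟩,⟨-48,-261,-44⟩,⟨264,-44,-27⟩⟩,true,224,113,.leaf [(0,4),(1,270),(3,21),(5,1)],.leaf [(0,4),(1,270),(3,21),(5,1)]⟩,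
⟨⟨⟨19,-48,-264⟩,⟨48,261,-44⟩,⟨264,-44,27⟩⟩,true,224,156,.leaf [(2,211),(7,4),(10,294),(18,57)],.leaf [(1,2781),(3,1296),(10,1048),(15,1)]⟩,
⟨⟨⟨19,240,-120⟩,⟨-240,69,100⟩,⟨120,100,219⟩⟩,true,225,22,.leaf [(0,66),(1,220),(2,105),(4,1)],.leaf [(0,66),(1,220),(2,105),(4,1)]⟩,
⟨⟨⟨19,240,120⟩,⟨240,-69,100⟩,⟨120,100,-219⟩⟩,true,225,247,.leaf [(0,87425),(2,14526),(4,339),(5,20)],.leaf [(0,87425),(2,14526),(4,339),(5,20)]⟩,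
⟨⟨⟨-69,208,156⟩,⟨208,141,-96⟩,⟨-156,96,-197⟩⟩,true,227,103,.leaf [(3,72361),(4,189),(5,353),(6,77)],.leaf [(3,72361),(4,189),(5,353),(6,77)]⟩,
⟨⟨⟨-69,208,-156⟩,⟨208,141,96⟩,⟨156,-96,-197⟩⟩,true,227,166,.leaf [(0,67),(1,21),(3,231),(4,1)],.leaf [(0,67),(1,21),(3,231),(4,1)]⟩,
⟨⟨⟨219,-152,-36⟩,⟨-8,51,-264⟩,⟨156,216,37⟩⟩,true,229,33,.leaf [(0,53262),(2,49765),(5,300),(6,73)],.leaf [(0,53262),(2,49765),(5,300),(6,73)]⟩,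
⟨⟨⟨219,-152,36⟩,⟨-8,51,264⟩,⟨-156,-216,37⟩⟩,true,229,236,.leaf [(4,6363),(5,1281),(15,1769),(18,72361)],.leaf [(1,268272),(10,77580),(26,5311),(30,5)]⟩,
⟨⟨⟨123,-224,-84⟩,⟨-224,-141,48⟩,⟨-84,48,-251⟩⟩,true,230,19,.leaf [(1,67519),(2,13719),(4,323),(5,149)],.leaf [(1,67519),(2,13719),(4,323),(5,149)]⟩,
⟨⟨⟨123,-224,84⟩,⟨-224,-141,-48⟩,⟨84,-48,-251⟩⟩,true,230,250,.leaf [(0,269),(1,538),(4,1),(5,2)],.leaf [(0,269),(1,538),(4,1),(5,2)]⟩,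
⟨⟨⟨189,-188,36⟩,⟨172,189,84⟩,⟨-84,-36,253⟩⟩,true,231,13,.leaf [(2,243),(6,3),(11,40),(18,80)],.leaf [(4,237),(5,1060),(6,590),(10,72361)]⟩,
⟨⟨⟨189,-188,-36⟩,⟨172,189,-84⟩,⟨84,36,253⟩⟩,true,231,256,.leaf [(2,72361),(5,160),(6,201),(15,40)],.leaf [(2,34163),(5,200),(6,123),(10,10760)]⟩,
⟨⟨⟨-69,132,-224⟩,⟨252,91,-24⟩,⟨64,-216,-147⟩⟩,true,232,128,.leaf [(0,1614),(3,4573),(4,22),(15,1)],.leaf [(0,21),(3,280),(4,1),(10,20)]⟩,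
⟨⟨⟨69,-132,-224⟩,⟨252,91,24⟩,⟨64,-216,147⟩⟩,true,232,141,.leaf [(0,12105),(3,11029),(4,69),(7,79)],.leaf [(0,12105),(3,11029),(4,69),(7,79)]⟩,
⟨⟨⟨-195,100,156⟩,⟨-44,195,-180⟩,⟨-180,-156,-125⟩⟩,true,234,53,.leaf [(1,16140),(3,72899),(5,295),(6,256)],.leaf [(1,16140),(3,72899),(5,295),(6,256)]⟩,
⟨⟨⟨-195,100,-156⟩,⟨-44,195,180⟩,⟨180,156,-125⟩⟩,true,234,216,.leaf [(1,72361),(4,245),(5,305),(6,21)],.leaf [(1,72361),(4,245),(5,305),(6,21)]⟩,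
⟨⟨⟨141,48,-224⟩,⟨-48,-251,-84⟩,⟨-224,84,-123⟩⟩,true,235,69,.leaf [(1,15),(2,299),(3,125),(4,1)],.leaf [(1,15),(2,299),(3,125),(4,1)]⟩,
⟨⟨⟨-141,-48,-224⟩,⟨-48,-251,84⟩,⟨-224,84,123⟩⟩,true,235,200,.leaf [(1,6),(2,203),(3,302),(4,1)],.leaf [(1,6),(2,203),(3,302),(4,1)]⟩,
⟨⟨⟨-219,-36,-152⟩,⟨-156,37,216⟩,⟨-8,264,-51⟩⟩,true,236,40,.leaf [(1,49765),(3,53262),(4,300),(5,73)],.leaf [(1,49765),(3,53262),(4,300),(5,73)]⟩,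
⟨⟨⟨219,36,-152⟩,⟨-156,37,-216⟩,⟨-8,264,51⟩⟩,true,236,229,.leaf [(4,3939),(5,3492),(14,1174),(18,72361)],.leaf [(0,707),(2,2),(5,4),(10,203)]⟩,
⟨⟨⟨-141,208,96⟩,⟨208,69,156⟩,⟨96,156,-197⟩⟩,true,237,68,.leaf [(0,29321),(3,36315),(4,239),(5,75)],.leaf [(0,29321),(3,36315),(4,239),(5,75)]⟩,
⟨⟨⟨-141,208,-96⟩,⟨208,69,-156⟩,⟨-96,-156,-197⟩⟩,true,237,201,.leaf [(3,72361),(4,291),(5,293),(6,239)],.leaf [(3,72361),(4,291),(5,293),(6,239)]⟩,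
⟨⟨⟨19,120,-240⟩,⟨-120,219,100⟩,⟨240,100,69⟩⟩,true,247,44,.leaf [(1,6725),(3,1614),(4,20),(7,9)],.leaf [(1,6725),(3,1614),(4,20),(7,9)]⟩,
⟨⟨⟨19,120,240⟩,⟨120,-219,100⟩,⟨240,100,-69⟩⟩,true,247,225,.leaf [(0,51110),(2,50841),(4,309),(5,140)],.leaf [(0,51110),(2,50841),(4,309),(5,140)]⟩,
⟨⟨⟨-51,264,-8⟩,⟨216,37,-156⟩,⟨-152,-36,-219⟩⟩,true,248,74,.leaf [(0,205785),(4,75),(14,131),(18,26093)],.leaf [(0,180),(3,40),(4,1),(10,47)]⟩,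
⟨⟨⟨51,-264,-8⟩,⟨216,37,156⟩,⟨-152,-36,219⟩⟩,true,248,195,.leaf [(0,72361),(4,179),(5,305),(7,189)],.leaf [(0,72361),(4,179),(5,305),(7,189)]⟩,
⟨⟨⟨-123,-84,-224⟩,⟨84,-251,48⟩,⟨-224,-48,141⟩⟩,true,250,39,.leaf [(0,51),(2,116),(3,272),(4,1)],.leaf [(0,51),(2,116),(3,272),(4,1)]⟩,
⟨⟨⟨123,84,-224⟩,⟨84,-251,-48⟩,⟨-224,-48,-141⟩⟩,true,250,230,.leaf [(0,236),(1,176),(2,99),(4,1)],.leaf [(0,236),(1,176),(2,99),(4,1)]⟩,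
⟨⟨⟨91,-24,-252⟩,⟨216,147,64⟩,⟨132,-224,69⟩⟩,true,251,80,.leaf [(3,4842),(7,594),(10,46537),(14,139)],.leaf [(1,5643),(3,2994),(10,1444),(23,1)]⟩,
⟨⟨⟨91,-24,252⟩,⟨-216,-147,64⟩,⟨132,-224,-69⟩⟩,true,251,189,.leaf [(1,72361),(4,160),(5,201),(6,120)],.leaf [(1,72361),(4,160),(5,201),(6,120)]⟩,
⟨⟨⟨243,-96,64⟩,⟨-96,-251,-12⟩,⟨64,-12,-261⟩⟩,true,252,101,.leaf [(0,3766),(1,5111),(4,14),(5,19)],.leaf [(0,3766),(1,5111),(4,14),(5,19)]⟩,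
⟨⟨⟨-243,96,64⟩,⟨-96,-251,12⟩,⟨64,-12,261⟩⟩,true,252,168,.leaf [(0,5649),(2,2690),(4,25),(7,4)],.leaf [(0,5649),(2,2690),(4,25),(7,4)]⟩,
⟨⟨⟨-147,-216,64⟩,⟨-24,91,252⟩,⟨-224,132,-69⟩⟩,true,254,124,.leaf [(0,28783),(1,18023),(4,23),(5,103)],.leaf [(0,28783),(1,18023),(4,23),(5,103)]⟩,
⟨⟨⟨147,216,64⟩,⟨-24,91,-252⟩,⟨-224,132,69⟩⟩,true,254,145,.leaf [(4,4),(5,3),(7,2),(15,1)],.leaf [(4,861),(5,504),(10,72361),(14,32)]⟩,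
⟨⟨⟨-189,36,-188⟩,⟨84,253,-36⟩,⟨172,-84,-189⟩⟩,true,256,38,.leaf [(4,1455),(5,5436),(14,970),(18,72361)],.leaf [(1,2889),(3,1782),(10,1132),(15,1)]⟩,
⟨⟨⟨189,-36,-188⟩,⟨84,253,36⟩,⟨172,-84,189⟩⟩,true,256,231,.leaf [(3,72361),(4,160),(7,201),(14,40)],.leaf [(3,26093),(4,20),(7,93),(10,5380)]⟩,
⟨⟨⟨261,64,12⟩,⟨64,-243,-96⟩,⟨-12,96,-251⟩⟩,true,261,133,.leaf [(0,30935),(2,53262),(4,263),(5,108)],.leaf [(0,30935),(2,53262),(4,263),(5,108)]⟩,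
⟨⟨⟨261,64,-12⟩,⟨64,-243,96⟩,⟨12,-96,-251⟩⟩,true,261,136,.leaf [(0,1),(2,306),(3,108),(4,1)],.leaf [(0,1),(2,306),(3,108),(4,1)]⟩,
⟨⟨⟨-261,-48,-44⟩,⟨-48,19,264⟩,⟨-44,264,-27⟩⟩,true,263,129,.leaf [(1,21520),(3,73437),(4,312),(5,67)],.leaf [(1,21520),(3,73437),(4,312),(5,67)]⟩,
⟨⟨⟨261,48,-44⟩,⟨-48,19,-264⟩,⟨-44,264,27⟩⟩,true,263,140,.leaf [(4,2139),(5,144),(14,460),(18,72361)],.leaf [(0,129389),(4,178),(5,676),(10,21789)]⟩,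
⟨⟨⟨219,100,-120⟩,⟨100,69,240⟩,⟨120,-240,19⟩⟩,true,267,110,.leaf [(0,31),(1,255),(3,105),(4,1)],.leaf [(0,31),(1,255),(3,105),(4,1)]⟩,
⟨⟨⟨219,100,120⟩,⟨100,69,-240⟩,⟨-120,240,19⟩⟩,true,267,159,.leaf [(0,50841),(3,36584),(5,304),(6,49)],.leaf [(0,50841),(3,36584),(5,304),(6,49)]⟩]

theorem primeOk_269 : PrimeOk 269 := primeOk (by norm_num) (by norm_num) (by norm_num) L269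
  (by decide +kernel) (by decide +kernel)

end Pool.Agent.Lib.H63.TSP
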