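import Mathlib
import Pool.Agent.Lib.H63.TSPPrime

/-!
# Generated certificates for the primes 61, 79, 179, 263
-/

set_option autoImplicit false

namespace Pool.Agent.Lib.H63.TSP

def L61 : List Cls := [
⟨⟨⟨61,0,0⟩,⟨0,-11,-60⟩,⟨0,60,-11⟩⟩,false,0,11,.leaf [(0,671),(1,61),(4,1),(5,11)],.leaf [(0,671),(1,61),(4,1),(5,11)]⟩,
⟨⟨⟨61,0,0⟩,⟨0,-11,60⟩,⟨0,-60,-11⟩⟩,false,0,50,.leaf [(0,5),(1,60),(2,6),(4,1)],.leaf [(0,5),(1,60),(2,6),(4,1)]⟩,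
⟨⟨⟨-11,0,-60⟩,⟨0,61,0⟩,⟨60,0,-11⟩⟩,true,0,11,.leaf [(1,3721),(5,11),(7,60)],.leaf [(1,3721),(5,11),(7,60)]⟩,
⟨⟨⟨-11,0,60⟩,⟨0,61,0⟩,⟨-60,0,-11⟩⟩,true,0,50,.leaf [(1,11),(3,60),(5,1)],.leaf [(1,11),(3,60),(5,1)]⟩,
⟨⟨⟨43,-36,24⟩,⟨-36,-11,48⟩,⟨-24,-48,-29⟩⟩,true,2,19,.leaf [(1,3721),(4,54),(5,5),(6,30)],.leaf [(1,3721),(4,54),(5,5),(6,30)]⟩,
⟨⟨⟨43,-36,-24⟩,⟨-36,-11,-48⟩,⟨24,48,-29⟩⟩,true,2,42,.leaf [(0,54),(1,5),(2,30),(5,1)],.leaf [(0,54),(1,5),(2,30),(5,1)]⟩,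
⟨⟨⟨3,24,-56⟩,⟨-56,-21,-12⟩,⟨-24,52,21⟩⟩,true,8,22,.leaf [(0,15),(1,44),(2,30),(4,1)],.leaf [(0,15),(1,44),(2,30),(4,1)]⟩,
⟨⟨⟨-3,-24,-56⟩,⟨-56,-21,12⟩,⟨-24,52,-21⟩⟩,true,8,39,.leaf [(1,4514),(3,549),(4,76),(5,3)],.leaf [(1,4514),(3,549),(4,76),(5,3)]⟩,
⟨⟨⟨-11,-60,0⟩,⟨60,-11,0⟩,⟨0,0,61⟩⟩,true,11,0,.leaf [(0,3721),(4,11),(6,60)],.leaf [(0,3721),(4,11),(6,60)]⟩,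
⟨⟨⟨-45,-36,-20⟩,⟨-20,45,-36⟩,⟨36,-20,-45⟩⟩,true,13,14,.leaf [(1,549),(2,244),(5,13),(6,4)],.leaf [(1,549),(2,244),(5,13),(6,4)]⟩,
⟨⟨⟨45,36,-20⟩,⟨-20,45,36⟩,⟨36,-20,45⟩⟩,true,13,47,.leaf [(1,976),(2,549),(4,20),(6,9)],.leaf [(1,976),(2,549),(4,20),(6,9)]⟩,
⟨⟨⟨-45,-20,-36⟩,⟨36,-45,-20⟩,⟨-20,-36,45⟩⟩,true,14,13,.leaf [(0,549),(3,244),(4,13),(7,4)],.leaf [(0,549),(3,244),(4,13),(7,4)]⟩,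
⟨⟨⟨-45,-20,36⟩,⟨-36,45,-20⟩,⟨-20,-36,-45⟩⟩,true,14,48,.leaf [(1,427),(3,122),(5,7),(7,2)],.leaf [(1,427),(3,122),(5,7),(7,2)]⟩,
⟨⟨⟨-29,24,-48⟩,⟨-24,43,36⟩,⟨48,36,-11⟩⟩,true,16,29,.leaf [(1,3721),(4,60),(5,50),(7,9)],.leaf [(1,3721),(4,60),(5,50),(7,9)]⟩,
⟨⟨⟨-29,24,48⟩,⟨-24,43,-36⟩,⟨-48,-36,-11⟩⟩,true,16,32,.leaf [(5,1485),(7,615),(14,623),(18,3721)],.leaf [(1,324),(3,327),(10,112),(15,1)]⟩,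
⟨⟨⟨21,52,-24⟩,⟨-12,-21,-56⟩,⟨-56,24,3⟩⟩,true,17,25,.leaf [(2,1647),(4,39),(11,244),(15,4)],.leaf [(0,12),(2,53),(4,1),(10,8)]⟩,
⟨⟨⟨21,52,24⟩,⟨12,21,-56⟩,⟨-56,24,-3⟩⟩,true,17,36,.leaf [(4,636),(5,1008),(14,439),(18,3721)],.leaf [(0,61),(4,21),(5,8),(10,366)]⟩,
⟨⟨⟨-21,-12,-56⟩,⟨52,21,-24⟩,⟨24,-56,3⟩⟩,true,18,23,.leaf [(0,9),(1,60),(3,20),(6,1)],.leaf [(0,9),(1,60),(3,20),(6,1)]⟩,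
⟨⟨⟨21,12,-56⟩,⟨52,21,24⟩,⟨24,-56,-3⟩⟩,true,18,38,.leaf [(1,427),(3,549),(4,11),(6,3)],.leaf [(1,427),(3,549),(4,11),(6,3)]⟩,
⟨⟨⟨43,24,-36⟩,⟨-24,-29,-48⟩,⟨-36,48,-11⟩⟩,true,19,2,.leaf [(0,3721),(4,5),(5,54),(7,30)],.leaf [(0,3721),(4,5),(5,54),(7,30)]⟩,
⟨⟨⟨43,24,36⟩,⟨-24,-29,48⟩,⟨36,-48,-11⟩⟩,true,19,59,.leaf [(1,732),(2,2867),(4,54),(6,1)],.leaf [(1,732),(2,2867),(4,54),(6,1)]⟩,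
⟨⟨⟨-11,-48,36⟩,⟨48,-29,-24⟩,⟨36,24,43⟩⟩,true,21,30,.leaf [(0,549),(2,854),(5,12),(6,7)],.leaf [(0,549),(2,854),(5,12),(6,7)]⟩,
⟨⟨⟨-11,-48,-36⟩,⟨48,-29,24⟩,⟨-36,-24,43⟩⟩,true,21,31,.leaf [(0,427),(3,732),(4,14),(6,9)],.leaf [(0,427),(3,732),(4,14),(6,9)]⟩,
⟨⟨⟨3,-56,24⟩,⟨-24,21,52⟩,⟨-56,-12,-21⟩⟩,true,22,8,.leaf [(0,44),(1,15),(3,30),(5,1)],.leaf [(0,44),(1,15),(3,30),(5,1)]⟩,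
⟨⟨⟨3,-56,-24⟩,⟨24,-21,52⟩,⟨-56,-12,21⟩⟩,true,22,53,.leaf [(3,3721),(4,76),(5,45),(7,10)],.leaf [(3,3721),(4,76),(5,45),(7,10)]⟩,
⟨⟨⟨-21,-56,-12⟩,⟨24,3,-56⟩,⟨52,-24,21⟩⟩,true,23,18,.leaf [(0,60),(1,9),(2,20),(7,1)],.leaf [(0,60),(1,9),(2,20),(7,1)]⟩,
⟨⟨⟨-21,-56,12⟩,⟨-24,-3,-56⟩,⟨52,-24,-21⟩⟩,true,23,43,.leaf [(1,1647),(2,1952),(5,51),(7,4)],.leaf [(1,1647),(2,1952),(5,51),(7,4)]⟩,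
⟨⟨⟨21,-24,52⟩,⟨-56,3,24⟩,⟨-12,-56,-21⟩⟩,true,25,17,.leaf [(3,1647),(5,39),(10,244),(14,4)],.leaf [(1,502335),(5,15651),(22,1675),(30,37)]⟩,
⟨⟨⟨-21,24,52⟩,⟨-56,3,-24⟩,⟨-12,-56,21⟩⟩,true,25,44,.leaf [(3,3721),(5,11),(15,20)],.leaf [(0,15),(3,100),(6,2),(10,39)]⟩,
⟨⟨⟨-29,-48,24⟩,⟨48,-11,36⟩,⟨-24,36,43⟩⟩,true,29,16,.leaf [(0,3721),(4,50),(5,60),(6,9)],.leaf [(0,3721),(4,50),(5,60),(6,9)]⟩,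
⟨⟨⟨-29,-48,-24⟩,⟨48,-11,-36⟩,⟨24,-36,43⟩⟩,true,29,45,.leaf [(0,732),(2,61),(6,8),(14,3)],.leaf [(0,24),(2,20),(6,1),(10,15)]⟩,
⟨⟨⟨-11,36,-48⟩,⟨36,43,24⟩,⟨48,-24,-29⟩⟩,true,30,21,.leaf [(1,549),(3,854),(4,12),(7,7)],.leaf [(1,549),(3,854),(4,12),(7,7)]⟩,
⟨⟨⟨-11,36,48⟩,⟨36,43,-24⟩,⟨-48,24,-29⟩⟩,true,30,40,.leaf [(1,61),(3,305),(5,5),(7,1)],.leaf [(1,61),(3,305),(5,5),(7,1)]⟩,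
⟨⟨⟨-11,-36,-48⟩,⟨-36,43,-24⟩,⟨48,24,-29⟩⟩,true,31,21,.leaf [(1,427),(2,732),(5,14),(7,9)],.leaf [(1,427),(2,732),(5,14),(7,9)]⟩,
⟨⟨⟨-11,-36,48⟩,⟨-36,43,24⟩,⟨-48,-24,-29⟩⟩,true,31,40,.leaf [(0,12),(1,26),(3,51),(5,1)],.leaf [(0,12),(1,26),(3,51),(5,1)]⟩,
⟨⟨⟨-29,48,24⟩,⟨-48,-11,-36⟩,⟨-24,-36,43⟩⟩,true,32,16,.leaf [(4,297),(6,672),(15,88),(18,3721)],.leaf [(0,5),(2,39),(4,1),(10,15)]⟩,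
⟨⟨⟨-29,48,-24⟩,⟨-48,-11,36⟩,⟨24,36,43⟩⟩,true,32,45,.leaf [(0,50),(1,60),(2,9),(4,1)],.leaf [(0,50),(1,60),(2,9),(4,1)]⟩,
⟨⟨⟨21,24,52⟩,⟨-56,-3,24⟩,⟨12,-56,21⟩⟩,true,36,17,.leaf [(4,1125),(5,651),(15,155),(18,3721)],.leaf [(2,244),(4,9),(6,32),(10,671)]⟩,
⟨⟨⟨-21,-24,52⟩,⟨-56,-3,-24⟩,⟨12,-56,-21⟩⟩,true,36,44,.leaf [(1,549),(3,1708),(5,17),(15,8)],.leaf [(1,567),(3,405),(10,245),(14,1)]⟩,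
⟨⟨⟨21,-56,12⟩,⟨24,-3,-56⟩,⟨52,24,21⟩⟩,true,38,18,.leaf [(0,427),(2,549),(5,11),(7,3)],.leaf [(0,427),(2,549),(5,11),(7,3)]⟩,
⟨⟨⟨21,-56,-12⟩,⟨-24,3,-56⟩,⟨52,24,-21⟩⟩,true,38,43,.leaf [(0,29),(1,9),(2,51),(5,1)],.leaf [(0,29),(1,9),(2,51),(5,1)]⟩,
⟨⟨⟨-3,-56,-24⟩,⟨-24,-21,52⟩,⟨-56,12,-21⟩⟩,true,39,8,.leaf [(1,2318),(3,2745),(4,68),(5,35)],.leaf [(1,2318),(3,2745),(4,68),(5,35)]⟩,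
⟨⟨⟨-3,-56,24⟩,⟨24,21,52⟩,⟨-56,12,21⟩⟩,true,39,53,.leaf [(0,62),(1,3),(2,6),(5,1)],.leaf [(0,62),(1,3),(2,6),(5,1)]⟩,
⟨⟨⟨-11,48,36⟩,⟨-48,-29,24⟩,⟨36,-24,43⟩⟩,true,40,30,.leaf [(0,61),(2,305),(4,5),(6,1)],.leaf [(0,61),(2,305),(4,5),(6,1)]⟩,
⟨⟨⟨-11,48,-36⟩,⟨-48,-29,-24⟩,⟨-36,24,43⟩⟩,true,40,31,.leaf [(0,26),(1,12),(2,51),(4,1)],.leaf [(0,26),(1,12),(2,51),(4,1)]⟩,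
⟨⟨⟨43,-24,-36⟩,⟨24,-29,48⟩,⟨-36,-48,-11⟩⟩,true,42,2,.leaf [(0,5),(1,54),(3,30),(4,1)],.leaf [(0,5),(1,54),(3,30),(4,1)]⟩,
⟨⟨⟨43,-24,36⟩,⟨24,-29,-48⟩,⟨36,48,-11⟩⟩,true,42,59,.leaf [(0,63),(1,47),(2,9),(5,1)],.leaf [(0,63),(1,47),(2,9),(5,1)]⟩,
⟨⟨⟨-21,12,-56⟩,⟨52,-21,-24⟩,⟨-24,-56,-3⟩⟩,true,43,23,.leaf [(0,1647),(3,1952),(4,51),(6,4)],.leaf [(0,1647),(3,1952),(4,51),(6,4)]⟩,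
⟨⟨⟨21,-12,-56⟩,⟨52,-21,24⟩,⟨-24,-56,3⟩⟩,true,43,38,.leaf [(0,9),(1,29),(3,51),(4,1)],.leaf [(0,9),(1,29),(3,51),(4,1)]⟩,
⟨⟨⟨-21,52,24⟩,⟨-12,21,-56⟩,⟨-56,-24,3⟩⟩,true,44,25,.leaf [(2,3721),(4,11),(14,20)],.leaf [(2,11),(4,1),(10,20)]⟩,
⟨⟨⟨-21,52,-24⟩,⟨12,-21,-56⟩,⟨-56,-24,-3⟩⟩,true,44,36,.leaf [(0,549),(2,1708),(4,17),(14,8)],.leaf [(0,45),(2,20),(4,1),(10,8)]⟩,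
⟨⟨⟨-29,-24,-48⟩,⟨24,43,-36⟩,⟨48,-36,-11⟩⟩,true,45,29,.leaf [(1,732),(3,61),(7,8),(15,3)],.leaf [(1,297),(3,672),(10,88),(23,1)]⟩,
⟨⟨⟨-29,-24,48⟩,⟨24,43,36⟩,⟨-48,36,-11⟩⟩,true,45,32,.leaf [(0,60),(1,50),(3,9),(5,1)],.leaf [(0,60),(1,50),(3,9),(5,1)]⟩,
⟨⟨⟨45,-20,36⟩,⟨36,45,-20⟩,⟨-20,36,45⟩⟩,true,47,13,.leaf [(0,976),(3,549),(5,20),(7,9)],.leaf [(0,976),(3,549),(5,20),(7,9)]⟩,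
⟨⟨⟨45,-20,-36⟩,⟨-36,-45,-20⟩,⟨-20,36,-45⟩⟩,true,47,48,.leaf [(1,244),(2,549),(4,13),(5,4)],.leaf [(1,244),(2,549),(4,13),(5,4)]⟩,
⟨⟨⟨-45,36,-20⟩,⟨-20,-45,-36⟩,⟨-36,-20,45⟩⟩,true,48,14,.leaf [(0,427),(2,122),(4,7),(6,2)],.leaf [(0,427),(2,122),(4,7),(6,2)]⟩,
⟨⟨⟨45,-36,-20⟩,⟨-20,-45,36⟩,⟨-36,-20,-45⟩⟩,true,48,47,.leaf [(1,56),(2,9),(4,1)],.leaf [(1,56),(2,9),(4,1)]⟩,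
⟨⟨⟨-11,60,0⟩,⟨-60,-11,0⟩,⟨0,0,61⟩⟩,true,50,0,.leaf [(0,11),(2,60),(4,1)],.leaf [(0,11),(2,60),(4,1)]⟩,
⟨⟨⟨3,-24,-56⟩,⟨-56,21,-12⟩,⟨24,52,-21⟩⟩,true,53,22,.leaf [(2,3721),(4,45),(5,76),(6,10)],.leaf [(2,3721),(4,45),(5,76),(6,10)]⟩,
⟨⟨⟨-3,24,-56⟩,⟨-56,21,12⟩,⟨24,52,21⟩⟩,true,53,39,.leaf [(0,3),(1,62),(3,6),(4,1)],.leaf [(0,3),(1,62),(3,6),(4,1)]⟩,
⟨⟨⟨43,36,24⟩,⟨36,-11,-48⟩,⟨-24,48,-29⟩⟩,true,59,19,.leaf [(0,732),(3,2867),(5,54),(7,1)],.leaf [(0,732),(3,2867),(5,54),(7,1)]⟩,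
⟨⟨⟨43,36,-24⟩,⟨36,-11,48⟩,⟨24,-48,-29⟩⟩,true,59,42,.leaf [(0,47),(1,63),(3,9),(4,1)],.leaf [(0,47),(1,63),(3,9),(4,1)]⟩]

theorem primeOk_61 : PrimeOk 61 := primeOk (by norm_num) (by norm_num) (by norm_num) L61
  (by decide +kernel) (by decide +kernel)

def L79 : List Cls := [
⟨⟨⟨21,-74,-18⟩,⟨-66,-27,34⟩,⟨-38,6,-69⟩⟩,true,4,33,.leaf [(1,5372),(3,1185),(4,80),(5,47)],.leaf [(1,5372),(3,1185),(4,80),(5,47)]⟩,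
⟨⟨⟨21,-74,18⟩,⟨66,27,34⟩,⟨-38,6,69⟩⟩,true,4,46,.leaf [(0,6241),(4,39),(5,89),(7,45)],.leaf [(0,6241),(4,39),(5,89),(7,45)]⟩,
⟨⟨⟨-11,-66,-42⟩,⟨-6,43,-66⟩,⟨78,-6,-11⟩⟩,true,6,11,.leaf [(1,79),(2,1896),(5,20),(15,3)],.leaf [(1,89),(2,30),(5,1),(10,30)]⟩,
⟨⟨⟨-11,-66,42⟩,⟨-6,43,66⟩,⟨-78,6,-11⟩⟩,true,6,68,.leaf [(0,72),(1,29),(3,24),(5,1)],.leaf [(0,72),(1,29),(3,24),(5,1)]⟩,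
⟨⟨⟨-27,-6,-74⟩,⟨34,69,-18⟩,⟨66,-38,-21⟩⟩,true,9,32,.leaf [(0,63),(1,81),(3,11),(6,1)],.leaf [(0,63),(1,81),(3,11),(6,1)]⟩,
⟨⟨⟨27,6,-74⟩,⟨34,69,18⟩,⟨66,-38,21⟩⟩,true,9,47,.leaf [(1,2291),(3,1185),(4,25),(6,21)],.leaf [(1,2291),(3,1185),(4,25),(6,21)]⟩,
⟨⟨⟨-11,-42,-66⟩,⟨78,-11,-6⟩,⟨-6,-66,43⟩⟩,true,11,6,.leaf [(0,79),(3,1896),(4,20),(14,3)],.leaf [(0,63),(3,28),(6,2),(10,43)]⟩,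
⟨⟨⟨-11,-42,66⟩,⟨78,-11,6⟩,⟨6,66,43⟩⟩,true,11,73,.leaf [(0,57),(1,23),(2,51),(5,1)],.leaf [(0,57),(1,23),(2,51),(5,1)]⟩,
⟨⟨⟨-69,-38,-6⟩,⟨18,-21,-74⟩,⟨34,-66,27⟩⟩,true,12,31,.leaf [(0,45),(1,21),(2,59),(7,1)],.leaf [(0,45),(1,21),(2,59),(7,1)]⟩,
⟨⟨⟨-69,-38,6⟩,⟨-18,21,-74⟩,⟨34,-66,-27⟩⟩,true,12,48,.leaf [(2,24964),(5,153),(7,278),(15,3)],.leaf [(2,20303),(5,117),(7,229),(10,237)]⟩,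
⟨⟨⟨43,6,-66⟩,⟨66,-11,42⟩,⟨-6,-78,-11⟩⟩,true,13,15,.leaf [(0,17),(1,51),(3,57),(4,1)],.leaf [(0,17),(1,51),(3,57),(4,1)]⟩,
⟨⟨⟨43,6,66⟩,⟨66,-11,-42⟩,⟨6,78,-11⟩⟩,true,13,64,.leaf [(0,72),(1,56),(3,21),(5,1)],.leaf [(0,72),(1,56),(3,21),(5,1)]⟩,
⟨⟨⟨-69,-18,34⟩,⟨-38,21,-66⟩,⟨6,-74,-27⟩⟩,true,14,35,.leaf [(3,6241),(5,29),(6,72),(15,8)],.leaf [(3,25596),(6,279),(10,4187),(14,10)]⟩,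
⟨⟨⟨69,18,34⟩,⟨-38,21,66⟩,⟨6,-74,27⟩⟩,true,14,44,.leaf [(2,6241),(4,69),(6,35),(14,17)],.L (.leaf [(0,1),(2,86),(3,68),(4,1)]) (.leaf [(0,6241),(4,16),(5,40),(14,15)]) (.leaf [(0,52),(1,46),(3,93),(5,1)])⟩,
⟨⟨⟨43,-66,6⟩,⟨-6,-11,-78⟩,⟨66,42,-11⟩⟩,true,15,13,.leaf [(0,51),(1,17),(2,57),(5,1)],.leaf [(0,51),(1,17),(2,57),(5,1)]⟩,
⟨⟨⟨43,-66,-6⟩,⟨-6,-11,78⟩,⟨-66,-42,-11⟩⟩,true,15,66,.leaf [(3,6241),(4,56),(5,77),(6,16)],.leaf [(3,6241),(4,56),(5,77),(6,16)]⟩,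
⟨⟨⟨21,-38,66⟩,⟨18,69,34⟩,⟨-74,6,27⟩⟩,true,17,37,.leaf [(0,4108),(3,4029),(5,89),(7,6)],.leaf [(0,4108),(3,4029),(5,89),(7,6)]⟩,
⟨⟨⟨21,-38,-66⟩,⟨-18,-69,34⟩,⟨-74,6,-27⟩⟩,true,17,42,.leaf [(0,31),(1,85),(3,15),(4,1)],.leaf [(0,31),(1,85),(3,15),(4,1)]⟩,
⟨⟨⟨-27,-66,34⟩,⟨-74,21,-18⟩,⟨6,-38,-69⟩⟩,true,20,28,.leaf [(0,28),(1,82),(3,21),(5,1)],.leaf [(0,28),(1,82),(3,21),(5,1)]⟩,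
⟨⟨⟨27,66,34⟩,⟨-74,21,18⟩,⟨6,-38,69⟩⟩,true,20,51,.leaf [(4,270),(6,90),(11,6241),(15,89)],.leaf [(0,54),(2,20),(6,1),(10,13)]⟩,
⟨⟨⟨-11,6,78⟩,⟨66,43,6⟩,⟨-42,66,-11⟩⟩,true,21,36,.leaf [(0,1),(2,59),(3,89),(5,1)],.leaf [(0,1),(2,59),(3,89),(5,1)]⟩,
⟨⟨⟨-11,6,-78⟩,⟨66,43,-6⟩,⟨42,-66,-11⟩⟩,true,21,43,.leaf [(3,89),(7,1),(10,10),(18,10)],.leaf [(1,459),(3,477),(10,227),(14,1)]⟩,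
⟨⟨⟨-21,70,-30⟩,⟨-30,21,70⟩,⟨70,30,21⟩⟩,true,23,24,.leaf [(0,49),(1,79),(3,21),(4,1)],.leaf [(0,49),(1,79),(3,21),(4,1)]⟩,
⟨⟨⟨-21,70,30⟩,⟨30,-21,70⟩,⟨70,30,-21⟩⟩,true,23,55,.leaf [(0,91),(1,40),(4,1)],.leaf [(0,91),(1,40),(4,1)]⟩,
⟨⟨⟨-21,-30,70⟩,⟨70,21,30⟩,⟨-30,70,21⟩⟩,true,24,23,.leaf [(0,79),(1,49),(2,21),(5,1)],.leaf [(0,79),(1,49),(2,21),(5,1)]⟩,
⟨⟨⟨21,30,70⟩,⟨70,21,-30⟩,⟨-30,70,-21⟩⟩,true,24,56,.leaf [(2,40),(3,91),(5,1)],.leaf [(2,40),(3,91),(5,1)]⟩,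
⟨⟨⟨-27,34,-66⟩,⟨6,-69,-38⟩,⟨-74,-18,21⟩⟩,true,28,20,.leaf [(0,82),(1,28),(2,21),(4,1)],.leaf [(0,82),(1,28),(2,21),(4,1)]⟩,
⟨⟨⟨-27,34,66⟩,⟨-6,69,-38⟩,⟨-74,-18,-21⟩⟩,true,28,59,.leaf [(1,6241),(5,28),(7,73),(15,8)],.leaf [(1,513),(3,75),(10,175),(14,1)]⟩,
⟨⟨⟨-69,-6,-38⟩,⟨34,27,-66⟩,⟨18,-74,-21⟩⟩,true,31,12,.leaf [(0,21),(1,45),(3,59),(6,1)],.leaf [(0,21),(1,45),(3,59),(6,1)]⟩,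
⟨⟨⟨69,6,-38⟩,⟨34,27,66⟩,⟨18,-74,21⟩⟩,true,31,67,.leaf [(1,632),(4,16),(6,3),(10,237)],.leaf [(1,6241),(4,77),(6,33),(15,3)]⟩,
⟨⟨⟨-27,-74,-6⟩,⟨66,-21,-38⟩,⟨34,-18,69⟩⟩,true,32,9,.leaf [(0,81),(1,63),(2,11),(7,1)],.leaf [(0,81),(1,63),(2,11),(7,1)]⟩,
⟨⟨⟨-27,-74,6⟩,⟨-66,21,-38⟩,⟨34,-18,-69⟩⟩,true,32,70,.leaf [(0,35),(1,75),(2,21),(5,1)],.leaf [(0,35),(1,75),(2,21),(5,1)]⟩,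
⟨⟨⟨21,-18,-74⟩,⟨-38,-69,6⟩,⟨-66,34,-27⟩⟩,true,33,4,.leaf [(0,36),(1,80),(2,15),(4,1)],.leaf [(0,36),(1,80),(2,15),(4,1)]⟩,
⟨⟨⟨-21,18,-74⟩,⟨-38,-69,-6⟩,⟨-66,34,27⟩⟩,true,33,75,.leaf [(0,1),(2,86),(3,68),(4,1)],.leaf [(0,1),(2,86),(3,68),(4,1)]⟩,
⟨⟨⟨-69,34,-18⟩,⟨6,-27,-74⟩,⟨-38,-66,21⟩⟩,true,35,14,.leaf [(2,6241),(4,29),(7,72),(14,8)],.leaf [(2,4661),(4,49),(7,72),(10,632)]⟩,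
⟨⟨⟨-69,34,18⟩,⟨-6,27,-74⟩,⟨-38,-66,-21⟩⟩,true,35,65,.leaf [(1,711),(2,1264),(7,20),(15,3)],.leaf [(1,63279),(7,435),(10,16195),(14,7)]⟩,
⟨⟨⟨-11,78,6⟩,⟨-42,-11,66⟩,⟨66,6,43⟩⟩,true,36,21,.leaf [(1,1),(2,89),(3,59),(4,1)],.leaf [(1,1),(2,89),(3,59),(4,1)]⟩,
⟨⟨⟨-11,78,-6⟩,⟨-42,-11,-66⟩,⟨-66,-6,43⟩⟩,true,36,58,.leaf [(0,6241),(4,89),(7,30),(15,30)],.leaf [(0,14),(2,60),(4,1),(10,15)]⟩,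
⟨⟨⟨21,66,-38⟩,⟨-74,27,6⟩,⟨18,34,69⟩⟩,true,37,17,.leaf [(1,4108),(2,4029),(4,89),(6,6)],.leaf [(1,4108),(2,4029),(4,89),(6,6)]⟩,
⟨⟨⟨-21,-66,-38⟩,⟨-74,27,-6⟩,⟨18,34,-69⟩⟩,true,37,62,.leaf [(0,46),(1,31),(2,54),(5,1)],.leaf [(0,46),(1,31),(2,54),(5,1)]⟩,
⟨⟨⟨21,-66,-38⟩,⟨-74,-27,6⟩,⟨-18,34,-69⟩⟩,true,42,17,.leaf [(1,1027),(2,237),(4,17),(5,9)],.leaf [(1,1027),(2,237),(4,17),(5,9)]⟩,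
⟨⟨⟨-21,66,-38⟩,⟨-74,-27,-6⟩,⟨-18,34,69⟩⟩,true,42,62,.leaf [(0,4),(2,89),(3,32),(4,1)],.leaf [(0,4),(2,89),(3,32),(4,1)]⟩,
⟨⟨⟨-11,-78,6⟩,⟨42,-11,-66⟩,⟨66,-6,43⟩⟩,true,43,21,.leaf [(2,627),(5,18),(11,286),(18,95)],.leaf [(0,45),(2,29),(6,1),(10,15)]⟩,
⟨⟨⟨-11,-78,-6⟩,⟨42,-11,66⟩,⟨-66,6,43⟩⟩,true,43,58,.leaf [(0,6241),(4,29),(5,72),(6,24)],.leaf [(0,6241),(4,29),(5,72),(6,24)]⟩,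
⟨⟨⟨69,34,18⟩,⟨6,27,-74⟩,⟨-38,66,21⟩⟩,true,44,14,.leaf [(3,6241),(5,69),(7,35),(15,17)],.leaf [(0,25),(3,150),(5,2),(10,39)]⟩,
⟨⟨⟨69,34,-18⟩,⟨-6,-27,-74⟩,⟨-38,66,-21⟩⟩,true,44,65,.leaf [(0,2607),(5,3),(11,79),(14,11)],.leaf [(0,7979),(4,75),(5,136),(10,948)]⟩,
⟨⟨⟨21,18,-74⟩,⟨-38,69,6⟩,⟨66,34,27⟩⟩,true,46,4,.leaf [(1,6241),(4,89),(5,39),(6,45)],.leaf [(1,6241),(4,89),(5,39),(6,45)]⟩,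
⟨⟨⟨-21,-18,-74⟩,⟨-38,69,-6⟩,⟨66,34,-27⟩⟩,true,46,75,.leaf [(1,6241),(4,89),(5,93),(6,57)],.leaf [(1,6241),(4,89),(5,93),(6,57)]⟩,
⟨⟨⟨27,-74,6⟩,⟨66,21,-38⟩,⟨34,18,69⟩⟩,true,47,9,.leaf [(0,2291),(2,1185),(5,25),(7,21)],.leaf [(0,2291),(2,1185),(5,25),(7,21)]⟩,
⟨⟨⟨27,-74,-6⟩,⟨-66,-21,-38⟩,⟨34,18,-69⟩⟩,true,47,70,.leaf [(0,74),(1,63),(2,18),(5,1)],.leaf [(0,74),(1,63),(2,18),(5,1)]⟩,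
⟨⟨⟨-69,6,-38⟩,⟨34,-27,-66⟩,⟨-18,-74,21⟩⟩,true,48,12,.leaf [(3,24964),(4,153),(6,278),(14,3)],.leaf [(3,2212),(4,18),(6,17),(10,237)]⟩,
⟨⟨⟨69,-6,-38⟩,⟨34,-27,66⟩,⟨-18,-74,-21⟩⟩,true,48,67,.leaf [(0,21),(1,80),(3,24),(4,1)],.leaf [(0,21),(1,80),(3,24),(4,1)]⟩,
⟨⟨⟨27,34,66⟩,⟨6,69,-38⟩,⟨-74,18,21⟩⟩,true,51,20,.leaf [(5,270),(7,90),(10,6241),(14,89)],.leaf [(1,2457),(3,1551),(10,1001),(22,1)]⟩,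
⟨⟨⟨27,34,-66⟩,⟨-6,-69,-38⟩,⟨-74,18,-21⟩⟩,true,51,59,.leaf [(0,49),(1,28),(2,54),(4,1)],.leaf [(0,49),(1,28),(2,54),(4,1)]⟩,
⟨⟨⟨-21,30,70⟩,⟨70,-21,30⟩,⟨30,70,-21⟩⟩,true,55,23,.leaf [(0,6241),(4,91),(5,40)],.leaf [(0,6241),(4,91),(5,40)]⟩,
⟨⟨⟨21,-30,70⟩,⟨70,-21,-30⟩,⟨30,70,21⟩⟩,true,55,56,.leaf [(0,70),(1,49),(2,30),(5,1)],.leaf [(0,70),(1,49),(2,30),(5,1)]⟩,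
⟨⟨⟨21,70,30⟩,⟨-30,-21,70⟩,⟨70,-30,21⟩⟩,true,56,24,.leaf [(2,91),(3,40),(4,1)],.leaf [(2,91),(3,40),(4,1)]⟩,
⟨⟨⟨21,70,-30⟩,⟨30,21,70⟩,⟨70,-30,-21⟩⟩,true,56,55,.leaf [(0,49),(1,70),(3,30),(4,1)],.leaf [(0,49),(1,70),(3,30),(4,1)]⟩,
⟨⟨⟨-11,-6,78⟩,⟨-66,43,-6⟩,⟨-42,-66,-11⟩⟩,true,58,36,.leaf [(1,6241),(5,89),(6,30),(14,30)],.leaf [(1,189),(3,372),(10,112),(15,1)]⟩,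
⟨⟨⟨-11,-6,-78⟩,⟨-66,43,6⟩,⟨42,66,-11⟩⟩,true,58,43,.leaf [(1,6241),(4,72),(5,29),(7,24)],.leaf [(1,6241),(4,72),(5,29),(7,24)]⟩,
⟨⟨⟨-27,66,34⟩,⟨-74,-21,-18⟩,⟨-6,-38,69⟩⟩,true,59,28,.leaf [(0,6241),(4,28),(6,73),(14,8)],.leaf [(0,7),(2,67),(4,1),(10,13)]⟩,
⟨⟨⟨27,-66,34⟩,⟨-74,-21,18⟩,⟨-6,-38,-69⟩⟩,true,59,51,.leaf [(0,28),(1,49),(3,54),(5,1)],.leaf [(0,28),(1,49),(3,54),(5,1)]⟩,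
⟨⟨⟨-21,-38,-66⟩,⟨18,-69,34⟩,⟨-74,-6,27⟩⟩,true,62,37,.leaf [(0,31),(1,46),(3,54),(4,1)],.leaf [(0,31),(1,46),(3,54),(4,1)]⟩,
⟨⟨⟨-21,-38,66⟩,⟨-18,69,34⟩,⟨-74,-6,-27⟩⟩,true,62,42,.leaf [(1,4),(2,32),(3,89),(5,1)],.leaf [(1,4),(2,32),(3,89),(5,1)]⟩,
⟨⟨⟨43,66,6⟩,⟨6,-11,78⟩,⟨66,-42,-11⟩⟩,true,64,13,.leaf [(0,56),(1,72),(2,21),(4,1)],.leaf [(0,56),(1,72),(2,21),(4,1)]⟩,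
⟨⟨⟨43,66,-6⟩,⟨6,-11,-78⟩,⟨-66,42,-11⟩⟩,true,64,66,.leaf [(0,6241),(4,17),(5,51),(7,57)],.leaf [(0,6241),(4,17),(5,51),(7,57)]⟩,
⟨⟨⟨-69,18,34⟩,⟨-38,-21,-66⟩,⟨-6,-74,27⟩⟩,true,65,35,.leaf [(0,711),(3,1264),(6,20),(14,3)],.leaf [(0,790),(4,55),(6,4),(10,1343)]⟩,
⟨⟨⟨69,-18,34⟩,⟨-38,-21,66⟩,⟨-6,-74,-27⟩⟩,true,65,44,.leaf [(1,2607),(4,3),(10,79),(15,11)],.leaf [(1,5135),(4,46),(10,790),(23,1)]⟩,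
⟨⟨⟨43,-6,-66⟩,⟨-66,-11,-42⟩,⟨-6,78,-11⟩⟩,true,66,15,.leaf [(2,6241),(4,77),(5,56),(7,16)],.leaf [(2,6241),(4,77),(5,56),(7,16)]⟩,
⟨⟨⟨43,-6,66⟩,⟨-66,-11,42⟩,⟨6,-78,-11⟩⟩,true,66,64,.leaf [(1,6241),(4,51),(5,17),(6,57)],.leaf [(1,6241),(4,51),(5,17),(6,57)]⟩,
⟨⟨⟨69,-38,6⟩,⟨18,21,-74⟩,⟨34,66,27⟩⟩,true,67,31,.leaf [(0,632),(5,16),(7,3),(11,237)],.leaf [(0,23147),(5,262),(7,138),(10,237)]⟩,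
⟨⟨⟨69,-38,-6⟩,⟨-18,-21,-74⟩,⟨34,66,-27⟩⟩,true,67,48,.leaf [(0,80),(1,21),(2,24),(5,1)],.leaf [(0,80),(1,21),(2,24),(5,1)]⟩,
⟨⟨⟨-11,42,-66⟩,⟨-78,-11,6⟩,⟨-6,66,43⟩⟩,true,68,6,.leaf [(0,29),(1,72),(2,24),(4,1)],.leaf [(0,29),(1,72),(2,24),(4,1)]⟩,
⟨⟨⟨-11,42,66⟩,⟨-78,-11,-6⟩,⟨6,-66,43⟩⟩,true,68,73,.leaf [(2,1580),(6,1),(15,8),(18,79)],.leaf [(1,100),(2,10),(4,1),(10,43)]⟩,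
⟨⟨⟨-27,6,-74⟩,⟨34,-69,-18⟩,⟨-66,-38,21⟩⟩,true,70,32,.leaf [(0,75),(1,35),(3,21),(4,1)],.leaf [(0,75),(1,35),(3,21),(4,1)]⟩,
⟨⟨⟨27,-6,-74⟩,⟨34,-69,18⟩,⟨-66,-38,-21⟩⟩,true,70,47,.leaf [(0,63),(1,74),(3,18),(4,1)],.leaf [(0,63),(1,74),(3,18),(4,1)]⟩,
⟨⟨⟨-11,66,-42⟩,⟨6,43,66⟩,⟨78,6,-11⟩⟩,true,73,11,.leaf [(0,23),(1,57),(3,51),(4,1)],.leaf [(0,23),(1,57),(3,51),(4,1)]⟩,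
⟨⟨⟨-11,66,42⟩,⟨6,43,-66⟩,⟨-78,-6,-11⟩⟩,true,73,68,.leaf [(0,3348),(3,1683),(18,484),(23,1)],.leaf [(0,45),(3,29),(7,1),(10,15)]⟩,
⟨⟨⟨-21,-74,18⟩,⟨-66,27,34⟩,⟨-38,-6,-69⟩⟩,true,75,33,.leaf [(1,1),(2,68),(3,86),(5,1)],.leaf [(1,1),(2,68),(3,86),(5,1)]⟩,
⟨⟨⟨-21,-74,-18⟩,⟨66,-27,34⟩,⟨-38,-6,69⟩⟩,true,75,46,.leaf [(0,6241),(4,93),(5,89),(7,57)],.leaf [(0,6241),(4,93),(5,89),(7,57)]⟩]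

theorem primeOk_79 : PrimeOk 79 := primeOk (by norm_num) (by norm_num) (by norm_num) L79
  (by decide +kernel) (by decide +kernel)

def L179 : List Cls := [
⟨⟨⟨81,-98,-126⟩,⟨-98,81,-126⟩,⟨126,126,-17⟩⟩,true,1,78,.leaf [(0,22554),(2,32041),(5,252),(6,109)],.leaf [(0,22554),(2,32041),(5,252),(6,109)]⟩,
⟨⟨⟨81,-98,126⟩,⟨-98,81,126⟩,⟨-126,-126,-17⟩⟩,true,1,101,.leaf [(0,9129),(3,32041),(5,235),(14,23)],.leaf [(1,999),(3,798),(10,548),(15,1)]⟩,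
⟨⟨⟨177,-6,-26⟩,⟨6,-161,78⟩,⟨-26,-78,-159⟩⟩,true,3,13,.leaf [(1,60),(2,155),(3,44),(4,1)],.leaf [(1,60),(2,155),(3,44),(4,1)]⟩,
⟨⟨⟨-177,6,-26⟩,⟨6,-161,-78⟩,⟨-26,-78,159⟩⟩,true,3,166,.leaf [(2,12172),(3,6623),(4,44),(7,67)],.leaf [(2,12172),(3,6623),(4,44),(7,67)]⟩,
⟨⟨⟨1,-174,42⟩,⟨-114,-33,-134⟩,⟨138,-26,-111⟩⟩,true,5,42,.leaf [(0,82),(1,153),(2,66),(5,1)],.leaf [(0,82),(1,153),(2,66),(5,1)]⟩,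
⟨⟨⟨1,-174,-42⟩,⟨114,33,-134⟩,⟨138,-26,111⟩⟩,true,5,137,.leaf [(0,145),(5,1),(11,37),(18,29)],.leaf [(0,84),(2,13),(6,1),(10,44)]⟩,
⟨⟨⟨15,90,154⟩,⟨54,145,-90⟩,⟨-170,54,-15⟩⟩,true,6,58,.leaf [(3,2148),(5,180),(10,5549),(14,49)],.leaf [(1,1836),(3,819),(10,616),(15,1)]⟩,
⟨⟨⟨-15,-90,154⟩,⟨54,145,90⟩,⟨-170,54,15⟩⟩,true,6,121,.leaf [(0,144),(1,64),(3,75),(5,1)],.leaf [(0,144),(1,64),(3,75),(5,1)]⟩,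
⟨⟨⟨127,-6,126⟩,⟨54,-159,-62⟩,⟨114,82,-111⟩⟩,true,7,32,.leaf [(0,3401),(1,3759),(4,9),(5,23)],.leaf [(0,3401),(1,3759),(4,9),(5,23)]⟩,
⟨⟨⟨127,-6,-126⟩,⟨-54,159,-62⟩,⟨114,82,111⟩⟩,true,7,147,.leaf [(1,90),(2,227),(7,2),(18,15)],.leaf [(1,35),(2,20),(5,1),(10,68)]⟩,
⟨⟨⟨33,-174,-26⟩,⟨114,1,138⟩,⟨-134,-42,111⟩⟩,true,11,86,.leaf [(0,32041),(4,113),(5,206),(7,114)],.leaf [(0,32041),(4,113),(5,206),(7,114)]⟩,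
⟨⟨⟨-33,174,-26⟩,⟨114,1,-138⟩,⟨-134,-42,-111⟩⟩,true,11,93,.leaf [(0,64082),(4,598),(5,277),(15,93)],.leaf [(0,81803),(4,634),(5,52),(10,16647)]⟩,
⟨⟨⟨177,-26,-6⟩,⟨-26,-159,-78⟩,⟨6,78,-161⟩⟩,true,13,3,.leaf [(0,11993),(1,7876),(4,37),(5,68)],.leaf [(0,11993),(1,7876),(4,37),(5,68)]⟩,
⟨⟨⟨177,-26,6⟩,⟨-26,-159,78⟩,⟨-6,-78,-161⟩⟩,true,13,176,.leaf [(0,1),(1,72),(2,132),(4,1)],.leaf [(0,1),(1,72),(2,132),(4,1)]⟩,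
⟨⟨⟨159,78,-26⟩,⟨78,-161,-6⟩,⟨-26,-6,-177⟩⟩,true,14,55,.leaf [(0,89),(1,20),(2,150),(4,1)],.leaf [(0,89),(1,20),(2,150),(4,1)]⟩,
⟨⟨⟨-159,-78,-26⟩,⟨78,-161,6⟩,⟨-26,-6,177⟩⟩,true,14,124,.leaf [(0,32041),(4,239),(5,89),(7,69)],.leaf [(0,32041),(4,239),(5,89),(7,69)]⟩,
⟨⟨⟨63,-66,154⟩,⟨-66,-161,-42⟩,⟨154,-42,-81⟩⟩,true,16,82,.leaf [(0,358),(1,1253),(4,2),(5,7)],.leaf [(0,358),(1,1253),(4,2),(5,7)]⟩,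
⟨⟨⟨-63,66,154⟩,⟨-66,-161,42⟩,⟨154,-42,81⟩⟩,true,16,97,.leaf [(2,32041),(4,227),(5,168),(7,56)],.leaf [(2,32041),(4,227),(5,168),(7,56)]⟩,
⟨⟨⟨-111,82,114⟩,⟨-62,-159,54⟩,⟨126,-6,127⟩⟩,true,17,28,.leaf [(2,3222),(4,162),(11,9845),(15,5)],.leaf [(0,130),(2,96),(4,1),(10,15)]⟩,
⟨⟨⟨-111,82,-114⟩,⟨-62,-159,-54⟩,⟨-126,6,127⟩⟩,true,17,151,.leaf [(0,175),(1,60),(2,66),(4,1)],.leaf [(0,175),(1,60),(2,66),(4,1)]⟩,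
⟨⟨⟨159,-62,54⟩,⟨82,111,-114⟩,⟨6,126,127⟩⟩,true,21,51,.leaf [(2,3759),(3,358),(5,14),(6,23)],.leaf [(2,3759),(3,358),(5,14),(6,23)]⟩,
⟨⟨⟨159,-62,-54⟩,⟨82,111,114⟩,⟨-6,-126,127⟩⟩,true,21,128,.leaf [(2,47972),(4,24),(6,461),(18,5907)],.leaf [(1,399528),(6,1212),(10,111517),(14,77)]⟩,
⟨⟨⟨-159,82,6⟩,⟨-62,-111,-126⟩,⟨-54,-114,127⟩⟩,true,22,54,.leaf [(0,32041),(4,160),(6,96),(14,15)],.leaf [(0,20048),(4,125),(6,48),(10,2685)]⟩,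
⟨⟨⟨-159,82,-6⟩,⟨-62,-111,126⟩,⟨54,114,127⟩⟩,true,22,125,.leaf [(0,193),(1,114),(3,18),(4,1)],.leaf [(0,193),(1,114),(3,18),(4,1)]⟩,
⟨⟨⟨81,154,-42⟩,⟨154,-63,66⟩,⟨42,-66,-161⟩⟩,true,24,26,.leaf [(0,199),(1,108),(2,18),(4,1)],.leaf [(0,199),(1,108),(2,18),(4,1)]⟩,
⟨⟨⟨81,154,42⟩,⟨154,-63,-66⟩,⟨-42,66,-161⟩⟩,true,24,153,.leaf [(0,31325),(2,3222),(4,203),(5,108)],.leaf [(0,31325),(2,3222),(4,203),(5,108)]⟩,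
⟨⟨⟨81,-42,154⟩,⟨42,-161,-66⟩,⟨154,66,-63⟩⟩,true,26,24,.leaf [(0,108),(1,199),(3,18),(5,1)],.leaf [(0,108),(1,199),(3,18),(5,1)]⟩,
⟨⟨⟨-81,42,154⟩,⟨42,-161,66⟩,⟨154,66,63⟩⟩,true,26,155,.leaf [(0,5549),(2,15036),(4,91),(5,88)],.leaf [(0,5549),(2,15036),(4,91),(5,88)]⟩,
⟨⟨⟨-111,114,82⟩,⟨126,127,-6⟩,⟨-62,54,-159⟩⟩,true,28,17,.leaf [(3,3222),(5,162),(10,9845),(14,5)],.leaf [(4,30537),(5,15552),(26,160205),(30,116)]⟩,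
⟨⟨⟨111,-114,82⟩,⟨126,127,6⟩,⟨-62,54,159⟩⟩,true,28,162,.leaf [(2,2148),(3,4117),(5,6),(7,19)],.leaf [(2,2148),(3,4117),(5,6),(7,19)]⟩,
⟨⟨⟨145,54,90⟩,⟨-90,-15,154⟩,⟨54,-170,15⟩⟩,true,30,50,.leaf [(1,32041),(4,169),(5,39),(6,75)],.leaf [(1,32041),(4,169),(5,39),(6,75)]⟩,
⟨⟨⟨145,54,-90⟩,⟨90,15,154⟩,⟨54,-170,-15⟩⟩,true,30,129,.leaf [(0,39),(1,169),(3,75),(4,1)],.leaf [(0,39),(1,169),(3,75),(4,1)]⟩,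
⟨⟨⟨127,126,-6⟩,⟨114,-111,82⟩,⟨54,-62,-159⟩⟩,true,32,7,.leaf [(0,156),(1,88),(2,81),(4,1)],.leaf [(0,156),(1,88),(2,81),(4,1)]⟩,
⟨⟨⟨127,126,6⟩,⟨-114,111,82⟩,⟨54,-62,159⟩⟩,true,32,172,.leaf [(1,3580),(2,1074),(4,19),(14,3)],.R (.leaf [(1,29889),(10,10857),(22,7),(35,121)]) (.leaf [(1,172044),(10,47487),(22,58),(34,121)]) (.leaf [(1,25576236),(10,6580398),(22,8407),(38,121)])⟩,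
⟨⟨⟨-111,-126,-62⟩,⟨-114,127,-54⟩,⟨82,6,-159⟩⟩,true,35,57,.leaf [(0,18),(1,97),(2,114),(5,1)],.leaf [(0,18),(1,97),(2,114),(5,1)]⟩,
⟨⟨⟨111,126,-62⟩,⟨-114,127,54⟩,⟨82,6,159⟩⟩,true,35,122,.leaf [(1,96123),(4,668),(7,190),(15,41)],.L (.leaf [(0,358),(1,3759),(4,14),(5,23)]) (.leaf [(0,7785963),(6,3618),(31,1876),(38,401)]) (.leaf [(1,295),(3,6),(5,1),(10,60)])⟩,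
⟨⟨⟨-33,-114,-134⟩,⟨-174,1,42⟩,⟨-26,138,-111⟩⟩,true,36,80,.leaf [(2,19511),(3,9308),(4,67),(5,108)],.leaf [(2,19511),(3,9308),(4,67),(5,108)]⟩,
⟨⟨⟨33,114,-134⟩,⟨-174,1,-42⟩,⟨-26,138,111⟩⟩,true,36,99,.leaf [(1,10740),(2,11993),(4,110),(14,1)],.leaf [(1,96),(2,112),(4,1),(10,1)]⟩,
⟨⟨⟨-17,-126,-126⟩,⟨126,81,-98⟩,⟨126,-98,81⟩⟩,true,39,39,.leaf [(0,260982),(14,1593),(18,116171),(23,44)],.leaf [(5,81),(6,513),(10,32041),(15,19)]⟩,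
⟨⟨⟨-17,-126,126⟩,⟨-126,-81,-98⟩,⟨126,-98,-81⟩⟩,true,39,140,.leaf [(0,28),(1,189),(3,18),(5,1)],.leaf [(0,28),(1,189),(3,18),(5,1)]⟩,
⟨⟨⟨1,-138,-114⟩,⟨42,111,-134⟩,⟨174,-26,33⟩⟩,true,41,65,.leaf [(5,2538),(7,2154),(14,629),(18,32041)],.leaf [(1,269),(2,8),(5,1),(10,104)]⟩,
⟨⟨⟨1,-138,114⟩,⟨-42,-111,-134⟩,⟨174,-26,-33⟩⟩,true,41,114,.leaf [(0,43),(1,147),(2,69),(5,1)],.leaf [(0,43),(1,147),(2,69),(5,1)]⟩,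
⟨⟨⟨1,42,-174⟩,⟨138,-111,-26⟩,⟨-114,-134,-33⟩⟩,true,42,5,.leaf [(0,153),(1,82),(3,66),(4,1)],.leaf [(0,153),(1,82),(3,66),(4,1)]⟩,
⟨⟨⟨1,42,174⟩,⟨-138,111,-26⟩,⟨-114,-134,33⟩⟩,true,42,174,.leaf [(1,32041),(5,269),(6,8),(14,104)],.R (.leaf [(1,729),(10,315),(26,7),(35,5)]) (.leaf [(1,2916),(10,855),(26,58),(34,5)]) (.leaf [(1,274104),(10,88065),(26,3532),(38,5)])⟩,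
⟨⟨⟨127,114,-54⟩,⟨-126,111,-62⟩,⟨-6,82,159⟩⟩,true,46,63,.leaf [(2,77),(7,2),(11,110),(18,25)],.leaf [(0,45),(2,634),(7,4),(10,105)]⟩,
⟨⟨⟨127,114,54⟩,⟨126,-111,-62⟩,⟨-6,82,-159⟩⟩,true,46,116,.leaf [(0,29714),(2,14499),(4,213),(5,116)],.leaf [(0,29714),(2,14499),(4,213),(5,116)]⟩,
⟨⟨⟨-111,-26,138⟩,⟨-134,-33,-114⟩,⟨42,-174,1⟩⟩,true,47,81,.leaf [(3,145),(5,1),(10,23),(18,25)],.leaf [(1,1755),(3,1257),(10,689),(14,1)]⟩,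
⟨⟨⟨-111,-26,-138⟩,⟨-134,-33,114⟩,⟨-42,174,1⟩⟩,true,47,98,.leaf [(0,7),(1,141),(3,111),(4,1)],.leaf [(0,7),(1,141),(3,111),(4,1)]⟩,
⟨⟨⟨-111,42,-134⟩,⟨138,1,-114⟩,⟨-26,-174,-33⟩⟩,true,48,77,.leaf [(0,96123),(4,739),(7,362),(15,82)],.leaf [(0,31146),(4,269),(7,208),(10,7339)]⟩,
⟨⟨⟨111,-42,-134⟩,⟨138,1,114⟩,⟨-26,-174,33⟩⟩,true,48,102,.leaf [(1,19869),(3,29356),(4,216),(7,43)],.leaf [(1,19869),(3,29356),(4,216),(7,43)]⟩,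
⟨⟨⟨145,90,54⟩,⟨54,15,-170⟩,⟨-90,154,-15⟩⟩,true,50,30,.leaf [(0,32041),(4,39),(5,169),(7,75)],.leaf [(0,32041),(4,39),(5,169),(7,75)]⟩,
⟨⟨⟨145,90,-54⟩,⟨-54,-15,-170⟩,⟨-90,154,15⟩⟩,true,50,149,.leaf [(0,4117),(2,2327),(5,13),(7,23)],.leaf [(0,4117),(2,2327),(5,13),(7,23)]⟩,
⟨⟨⟨159,54,-62⟩,⟨6,127,126⟩,⟨82,-114,111⟩⟩,true,51,21,.leaf [(2,358),(3,3759),(4,14),(7,23)],.leaf [(2,358),(3,3759),(4,14),(7,23)]⟩,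
⟨⟨⟨-159,-54,-62⟩,⟨6,127,-126⟩,⟨82,-114,-111⟩⟩,true,51,158,.leaf [(2,350661),(5,4068),(14,994),(18,13783)],.leaf [(2,68557),(5,9),(7,553),(10,23807)]⟩,
⟨⟨⟨-159,6,82⟩,⟨-54,127,-114⟩,⟨-62,-126,-111⟩⟩,true,54,22,.leaf [(1,32041),(5,160),(7,96),(15,15)],.leaf [(1,231),(2,55),(7,1),(10,65)]⟩,
⟨⟨⟨159,-6,82⟩,⟨-54,127,114⟩,⟨-62,-126,111⟩⟩,true,54,157,.leaf [(2,2506),(3,4117),(4,2),(7,21)],.leaf [(2,2506),(3,4117),(4,2),(7,21)]⟩,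
⟨⟨⟨159,-26,78⟩,⟨-26,-177,-6⟩,⟨78,-6,-161⟩⟩,true,55,14,.leaf [(0,895),(1,1253),(4,5),(5,7)],.leaf [(0,895),(1,1253),(4,5),(5,7)]⟩,
⟨⟨⟨159,-26,-78⟩,⟨-26,-177,6⟩,⟨-78,6,-161⟩⟩,true,55,165,.leaf [(0,25),(1,84),(2,126),(4,1)],.leaf [(0,25),(1,84),(2,126),(4,1)]⟩,
⟨⟨⟨-161,-66,42⟩,⟨66,-63,154⟩,⟨-42,154,81⟩⟩,true,56,62,.leaf [(0,4117),(1,1611),(4,21),(5,19)],.leaf [(0,4117),(1,1611),(4,21),(5,19)]⟩,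
⟨⟨⟨-161,-66,-42⟩,⟨-66,63,154⟩,⟨-42,154,-81⟩⟩,true,56,117,.leaf [(0,895),(1,1253),(4,5),(5,7)],.leaf [(0,895),(1,1253),(4,5),(5,7)]⟩,
⟨⟨⟨-111,-62,-126⟩,⟨82,-159,6⟩,⟨-114,-54,127⟩⟩,true,57,35,.leaf [(0,97),(1,18),(3,114),(4,1)],.leaf [(0,97),(1,18),(3,114),(4,1)]⟩,
⟨⟨⟨-111,-62,126⟩,⟨82,-159,-6⟩,⟨114,54,127⟩⟩,true,57,144,.leaf [(2,64082),(4,195),(5,500),(14,41)],.leaf [(0,32936),(4,341),(5,96),(10,11277)]⟩,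
⟨⟨⟨15,154,90⟩,⟨-170,-15,54⟩,⟨54,-90,145⟩⟩,true,58,6,.leaf [(2,2148),(4,180),(11,5549),(15,49)],.leaf [(0,19511),(4,8),(6,177),(10,6444)]⟩,
⟨⟨⟨15,154,-90⟩,⟨-170,-15,-54⟩,⟨-54,90,145⟩⟩,true,58,173,.leaf [(0,10),(1,36),(2,159),(4,1)],.leaf [(0,10),(1,36),(2,159),(4,1)]⟩,
⟨⟨⟨-161,6,78⟩,⟨-6,177,-26⟩,⟨-78,-26,-159⟩⟩,true,60,64,.leaf [(1,80),(3,29),(5,1),(10,32)],.leaf [(1,537),(3,19690),(7,67),(14,20)]⟩,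
⟨⟨⟨-161,6,-78⟩,⟨6,-177,-26⟩,⟨-78,-26,159⟩⟩,true,60,115,.leaf [(0,183),(1,34),(3,18),(4,1)],.leaf [(0,183),(1,34),(3,18),(4,1)]⟩,
⟨⟨⟨-161,42,-66⟩,⟨-42,81,154⟩,⟨66,154,-63⟩⟩,true,62,56,.leaf [(1,10024),(3,14499),(4,112),(5,39)],.leaf [(1,10024),(3,14499),(4,112),(5,39)]⟩,
⟨⟨⟨-161,42,66⟩,⟨42,-81,154⟩,⟨66,154,63⟩⟩,true,62,123,.leaf [(0,123),(1,4),(3,84),(4,1)],.leaf [(0,123),(1,4),(3,84),(4,1)]⟩,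
⟨⟨⟨127,-54,114⟩,⟨-6,159,82⟩,⟨-126,-62,111⟩⟩,true,63,46,.R (.leaf [(3,993),(6,3),(18,55),(27,5)]) (.leaf [(0,189),(3,144),(18,32),(26,1)]) (.L (.L (.leaf [(1,53240328),(22,2853),(34,624173),(46,44)]) (.leaf [(0,1512),(1,612),(11,295),(15,1)]) (.leaf [(0,7876),(1,11993),(4,68),(5,37)])) (.leaf [(1,583),(2,143),(4,3),(11,19)]) (.leaf [(0,60),(1,175),(3,126),(5,1)])),.leaf [(1,1269),(3,918),(10,628),(15,1)]⟩,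
⟨⟨⟨127,-54,-114⟩,⟨6,-159,82⟩,⟨-126,-62,-111⟩⟩,true,63,133,.leaf [(0,90),(1,196),(2,15),(4,1)],.leaf [(0,90),(1,196),(2,15),(4,1)]⟩,
⟨⟨⟨-161,78,6⟩,⟨-78,-159,-26⟩,⟨-6,-26,177⟩⟩,true,64,60,.leaf [(0,80),(2,29),(4,1),(11,32)],.leaf [(0,152),(2,77),(4,1),(10,8)]⟩,
⟨⟨⟨-161,78,-6⟩,⟨78,159,-26⟩,⟨-6,-26,-177⟩⟩,true,64,119,.leaf [(1,179),(3,358),(5,1),(7,2)],.leaf [(1,179),(3,358),(5,1),(7,2)]⟩,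
⟨⟨⟨1,-114,-138⟩,⟨174,33,-26⟩,⟨42,-134,111⟩⟩,true,65,41,.leaf [(4,3132),(6,1527),(15,1576),(18,32041)],.leaf [(0,33),(3,188),(6,2),(10,129)]⟩,
⟨⟨⟨1,-114,138⟩,⟨-174,-33,-26⟩,⟨42,-134,-111⟩⟩,true,65,138,.leaf [(1,24165),(3,14678),(5,147),(6,20)],.leaf [(1,24165),(3,14678),(5,147),(6,20)]⟩,
⟨⟨⟨-15,54,-170⟩,⟨-90,145,54⟩,⟨154,90,15⟩⟩,true,68,71,.leaf [(4,333),(10,19511),(14,17),(18,1611)],.leaf [(1,293560),(5,1096),(10,108295),(22,41)]⟩,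
⟨⟨⟨15,-54,-170⟩,⟨-90,145,-54⟩,⟨154,90,-15⟩⟩,true,68,108,.leaf [(4,2427),(5,3168),(14,496),(18,32041)],.leaf [(1,145),(2,69),(5,1),(10,75)]⟩,
⟨⟨⟨-15,-170,54⟩,⟨154,15,90⟩,⟨-90,54,145⟩⟩,true,71,68,.leaf [(0,882),(5,3),(11,25),(18,62)],.leaf [(0,90037),(4,298),(5,708),(10,13425)]⟩,
⟨⟨⟨-15,-170,-54⟩,⟨154,15,-90⟩,⟨90,-54,145⟩⟩,true,71,111,.leaf [(1,18795),(5,235),(6,326),(18,4654)],.leaf [(1,177),(2,22),(5,1),(10,94)]⟩,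
⟨⟨⟨-111,-134,42⟩,⟨-26,-33,-174⟩,⟨138,-114,1⟩⟩,true,77,48,.leaf [(1,96123),(5,739),(6,362),(14,82)],.leaf [(1,162711),(5,609),(10,20764),(15,74)]⟩,
⟨⟨⟨-111,-134,-42⟩,⟨-26,-33,174⟩,⟨-138,114,1⟩⟩,true,77,131,.leaf [(1,12709),(3,36516),(4,248),(5,101)],.leaf [(1,12709),(3,36516),(4,248),(5,101)]⟩,
⟨⟨⟨81,-126,-98⟩,⟨126,-17,126⟩,⟨-98,-126,81⟩⟩,true,78,1,.leaf [(1,22554),(3,32041),(4,252),(7,109)],.leaf [(1,22554),(3,32041),(4,252),(7,109)]⟩,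
⟨⟨⟨-81,126,-98⟩,⟨126,-17,-126⟩,⟨-98,-126,-81⟩⟩,true,78,178,.leaf [(0,96123),(3,6802),(4,613),(15,46)],.leaf [(0,120),(3,64),(4,1),(10,23)]⟩,
⟨⟨⟨-33,-134,-114⟩,⟨-26,-111,138⟩,⟨-174,42,1⟩⟩,true,80,36,.leaf [(1,18616),(3,23091),(4,176),(5,23)],.leaf [(1,18616),(3,23091),(4,176),(5,23)]⟩,
⟨⟨⟨-33,-134,114⟩,⟨-26,-111,-138⟩,⟨174,-42,1⟩⟩,true,80,143,.leaf [(1,37053),(2,29356),(5,322),(15,1)],.leaf [(1,117),(2,91),(5,1),(10,1)]⟩,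
⟨⟨⟨-111,138,-26⟩,⟨42,1,-174⟩,⟨-134,-114,-33⟩⟩,true,81,47,.leaf [(2,36337),(4,22),(7,588),(18,9487)],.leaf [(0,21480),(4,221),(7,16),(10,8413)]⟩,
⟨⟨⟨111,-138,-26⟩,⟨42,1,174⟩,⟨-134,-114,33⟩⟩,true,81,132,.leaf [(3,32041),(4,216),(5,201),(7,100)],.leaf [(3,32041),(4,216),(5,201),(7,100)]⟩,
⟨⟨⟨63,154,-66⟩,⟨154,-81,-42⟩,⟨-66,-42,-161⟩⟩,true,82,16,.leaf [(0,175),(1,24),(2,60),(4,1)],.leaf [(0,175),(1,24),(2,60),(4,1)]⟩,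
⟨⟨⟨63,154,66⟩,⟨154,-81,42⟩,⟨66,42,-161⟩⟩,true,82,163,.leaf [(0,35621),(2,15036),(4,227),(5,24)],.leaf [(0,35621),(2,15036),(4,227),(5,24)]⟩,
⟨⟨⟨33,-26,-174⟩,⟨-134,111,-42⟩,⟨114,138,1⟩⟩,true,86,11,.leaf [(1,32041),(4,206),(5,113),(6,114)],.leaf [(1,32041),(4,206),(5,113),(6,114)]⟩,
⟨⟨⟨33,-26,174⟩,⟨-134,111,42⟩,⟨-114,-138,1⟩⟩,true,86,168,.leaf [(0,96123),(5,92),(6,79),(15,164)],.leaf [(0,27),(3,16),(6,1),(10,58)]⟩,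
⟨⟨⟨-33,-26,174⟩,⟨-134,-111,-42⟩,⟨114,-138,1⟩⟩,true,93,11,.leaf [(1,64082),(4,277),(5,598),(14,93)],.leaf [(4,486),(10,32041),(15,124),(22,31)]⟩,
⟨⟨⟨-33,-26,-174⟩,⟨-134,-111,42⟩,⟨-114,138,1⟩⟩,true,93,168,.leaf [(0,85),(1,201),(3,15),(4,1)],.leaf [(0,85),(1,201),(3,15),(4,1)]⟩,
⟨⟨⟨-63,154,66⟩,⟨154,81,-42⟩,⟨-66,42,-161⟩⟩,true,97,16,.leaf [(3,32041),(4,168),(5,227),(6,56)],.leaf [(3,32041),(4,168),(5,227),(6,56)]⟩,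
⟨⟨⟨-63,154,-66⟩,⟨154,81,42⟩,⟨66,-42,-161⟩⟩,true,97,163,.leaf [(3,32041),(4,210),(5,95),(6,14)],.leaf [(3,32041),(4,210),(5,95),(6,14)]⟩,
⟨⟨⟨-111,-138,-26⟩,⟨-42,1,174⟩,⟨-134,114,-33⟩⟩,true,98,47,.leaf [(0,11993),(1,7876),(4,37),(5,68)],.leaf [(0,11993),(1,7876),(4,37),(5,68)]⟩,
⟨⟨⟨111,138,-26⟩,⟨-42,1,-174⟩,⟨-134,114,33⟩⟩,true,98,132,.leaf [(0,288),(2,34),(4,1),(18,37)],.leaf [(4,653),(5,555),(7,175),(10,32041)]⟩,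
⟨⟨⟨33,-134,114⟩,⟨-26,111,138⟩,⟨-174,-42,1⟩⟩,true,99,36,.leaf [(0,10740),(3,11993),(5,110),(15,1)],.leaf [(0,183),(3,230),(5,2),(10,1)]⟩,
⟨⟨⟨33,-134,-114⟩,⟨-26,111,-138⟩,⟨174,42,1⟩⟩,true,99,143,.leaf [(0,9308),(1,19511),(5,67),(6,108)],.leaf [(0,9308),(1,19511),(5,67),(6,108)]⟩,
⟨⟨⟨81,126,-98⟩,⟨-126,-17,-126⟩,⟨-98,126,81⟩⟩,true,101,1,.leaf [(1,9129),(2,32041),(4,235),(15,23)],.leaf [(1,156),(2,97),(4,1),(10,46)]⟩,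
⟨⟨⟨-81,-126,-98⟩,⟨-126,-17,126⟩,⟨-98,126,-81⟩⟩,true,101,178,.leaf [(1,32041),(3,22554),(4,252),(5,109)],.leaf [(1,32041),(3,22554),(4,252),(5,109)]⟩,
⟨⟨⟨111,-134,-42⟩,⟨-26,33,-174⟩,⟨138,114,1⟩⟩,true,102,48,.leaf [(0,19869),(2,29356),(5,216),(6,43)],.leaf [(0,19869),(2,29356),(5,216),(6,43)]⟩,
⟨⟨⟨111,-134,42⟩,⟨-26,33,174⟩,⟨-138,-114,1⟩⟩,true,102,131,.leaf [(3,693),(10,55),(15,1),(18,65)],.leaf [(3,12351),(5,63),(10,2506),(14,2)]⟩,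
⟨⟨⟨15,-170,-54⟩,⟨154,-15,90⟩,⟨-90,-54,145⟩⟩,true,108,68,.leaf [(4,3447),(5,1254),(15,1394),(18,32041)],.leaf [(0,36337),(4,22),(5,588),(10,28461)]⟩,
⟨⟨⟨15,-170,54⟩,⟨154,-15,-90⟩,⟨90,54,145⟩⟩,true,108,111,.leaf [(2,32041),(5,169),(6,39),(15,25)],.leaf [(2,32936),(5,224),(6,69),(10,4475)]⟩,
⟨⟨⟨-15,-54,-170⟩,⟨90,145,-54⟩,⟨154,-90,15⟩⟩,true,111,71,.leaf [(0,10665),(3,9144),(18,1940),(22,1)],.leaf [(0,31146),(4,5),(7,304),(10,11635)]⟩,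
⟨⟨⟨15,54,-170⟩,⟨90,145,54⟩,⟨154,-90,-15⟩⟩,true,111,108,.leaf [(3,32041),(4,169),(7,39),(14,25)],.leaf [(3,56385),(7,630),(10,43676),(15,29)]⟩,
⟨⟨⟨1,114,-138⟩,⟨174,-33,-26⟩,⟨-42,-134,-111⟩⟩,true,114,41,.leaf [(0,147),(1,43),(3,69),(4,1)],.leaf [(0,147),(1,43),(3,69),(4,1)]⟩,
⟨⟨⟨1,114,138⟩,⟨-174,33,-26⟩,⟨-42,-134,111⟩⟩,true,114,138,.leaf [(2,1251),(10,22),(15,4),(18,153)],.leaf [(1,8592),(4,87),(10,5191),(15,16)]⟩,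
⟨⟨⟨-161,-78,6⟩,⟨-78,159,-26⟩,⟨6,-26,-177⟩⟩,true,115,60,.leaf [(0,34),(1,183),(2,18),(5,1)],.leaf [(0,34),(1,183),(2,18),(5,1)]⟩,
⟨⟨⟨-161,-78,-6⟩,⟨78,-159,-26⟩,⟨6,-26,177⟩⟩,true,115,119,.leaf [(2,11993),(4,3),(6,110),(11,3580)],.leaf [(0,69),(2,160),(6,1),(10,8)]⟩,
⟨⟨⟨127,54,114⟩,⟨-6,-159,82⟩,⟨126,-62,-111⟩⟩,true,116,46,.leaf [(0,7160),(2,37053),(4,225),(5,32)],.leaf [(0,7160),(2,37053),(4,225),(5,32)]⟩,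
⟨⟨⟨127,54,-114⟩,⟨6,159,82⟩,⟨126,-62,111⟩⟩,true,116,133,.leaf [(1,36695),(4,356),(15,65),(18,716)],.leaf [(1,486),(3,726),(10,143),(14,1)]⟩,
⟨⟨⟨-161,-42,-66⟩,⟨-42,-81,154⟩,⟨-66,154,63⟩⟩,true,117,56,.leaf [(0,39),(1,70),(3,150),(4,1)],.leaf [(0,39),(1,70),(3,150),(4,1)]⟩,
⟨⟨⟨-161,-42,66⟩,⟨42,81,154⟩,⟨-66,154,-63⟩⟩,true,117,123,.leaf [(0,3401),(1,3759),(4,9),(5,23)],.leaf [(0,3401),(1,3759),(4,9),(5,23)]⟩,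
⟨⟨⟨-161,-6,78⟩,⟨-6,-177,-26⟩,⟨78,-26,159⟩⟩,true,119,64,.leaf [(0,179),(2,358),(4,1),(6,2)],.leaf [(0,179),(2,358),(4,1),(6,2)]⟩,
⟨⟨⟨-161,-6,-78⟩,⟨6,177,-26⟩,⟨78,-26,-159⟩⟩,true,119,115,.leaf [(3,11993),(5,3),(7,110),(10,3580)],.leaf [(1,32041),(5,80),(7,29),(14,32)]⟩,
⟨⟨⟨-15,154,-90⟩,⟨-170,15,54⟩,⟨54,90,145⟩⟩,true,121,6,.leaf [(0,64),(1,144),(2,75),(4,1)],.leaf [(0,64),(1,144),(2,75),(4,1)]⟩,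
⟨⟨⟨-15,154,90⟩,⟨-170,15,-54⟩,⟨-54,-90,145⟩⟩,true,121,173,.leaf [(0,46),(4,1),(11,52),(18,23)],.leaf [(2,6086),(4,42),(6,11),(10,1611)]⟩,
⟨⟨⟨111,-62,126⟩,⟨82,159,6⟩,⟨-114,54,127⟩⟩,true,122,35,.leaf [(0,96123),(5,668),(6,190),(14,41)],.leaf [(0,81087),(5,580),(6,218),(10,7339)]⟩,
⟨⟨⟨111,-62,-126⟩,⟨82,159,-6⟩,⟨114,-54,127⟩⟩,true,122,144,.leaf [(0,18),(1,132),(2,79),(6,1)],.leaf [(0,18),(1,132),(2,79),(6,1)]⟩,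
⟨⟨⟨-161,66,42⟩,⟨66,63,154⟩,⟨42,154,-81⟩⟩,true,123,62,.leaf [(0,5549),(3,30072),(4,207),(5,56)],.leaf [(0,5549),(3,30072),(4,207),(5,56)]⟩,
⟨⟨⟨-161,66,-42⟩,⟨-66,-63,154⟩,⟨42,154,81⟩⟩,true,123,117,.leaf [(0,129),(1,115),(3,81),(4,1)],.leaf [(0,129),(1,115),(3,81),(4,1)]⟩,
⟨⟨⟨-159,-26,-78⟩,⟨-26,177,-6⟩,⟨78,6,-161⟩⟩,true,124,14,.leaf [(1,32041),(4,89),(5,239),(6,69)],.leaf [(1,32041),(4,89),(5,239),(6,69)]⟩,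
⟨⟨⟨-159,-26,78⟩,⟨-26,177,6⟩,⟨-78,-6,-161⟩⟩,true,124,165,.leaf [(0,20),(1,170),(3,69),(5,1)],.leaf [(0,20),(1,170),(3,69),(5,1)]⟩,
⟨⟨⟨-159,-6,82⟩,⟨54,127,114⟩,⟨-62,126,-111⟩⟩,true,125,22,.leaf [(0,2506),(1,4117),(4,2),(5,21)],.leaf [(0,2506),(1,4117),(4,2),(5,21)]⟩,
⟨⟨⟨159,6,82⟩,⟨54,127,-114⟩,⟨-62,126,111⟩⟩,true,125,157,.leaf [(0,5481),(3,3609),(18,725),(23,1)],.leaf [(0,175),(3,202),(5,2),(10,65)]⟩,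
⟨⟨⟨159,-54,-62⟩,⟨-6,127,-126⟩,⟨82,114,111⟩⟩,true,128,21,.leaf [(0,11313),(3,9036),(18,1946),(22,1)],.leaf [(0,9487),(5,86),(7,26),(10,3401)]⟩,
⟨⟨⟨-159,54,-62⟩,⟨-6,127,126⟩,⟨82,114,-111⟩⟩,true,128,158,.leaf [(0,358),(1,3759),(4,14),(5,23)],.leaf [(0,358),(1,3759),(4,14),(5,23)]⟩,
⟨⟨⟨145,-90,54⟩,⟨54,-15,-170⟩,⟨90,154,15⟩⟩,true,129,30,.leaf [(0,169),(1,39),(2,75),(5,1)],.leaf [(0,169),(1,39),(2,75),(5,1)]⟩,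
⟨⟨⟨145,-90,-54⟩,⟨-54,15,-170⟩,⟨90,154,-15⟩⟩,true,129,149,.leaf [(0,2327),(2,4117),(5,23),(7,13)],.leaf [(0,2327),(2,4117),(5,23),(7,13)]⟩,
⟨⟨⟨-111,-42,-134⟩,⟨-138,1,114⟩,⟨-26,174,-33⟩⟩,true,131,77,.leaf [(1,29356),(3,19869),(4,216),(5,43)],.leaf [(1,29356),(3,19869),(4,216),(5,43)]⟩,
⟨⟨⟨111,42,-134⟩,⟨-138,1,-114⟩,⟨-26,174,33⟩⟩,true,131,102,.leaf [(2,20048),(4,125),(14,16),(18,895)],.leaf [(2,52805),(4,371),(5,396),(10,14678)]⟩,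
⟨⟨⟨111,-26,-138⟩,⟨-134,33,-114⟩,⟨42,174,1⟩⟩,true,132,81,.leaf [(2,32041),(4,201),(5,216),(6,100)],.leaf [(2,32041),(4,201),(5,216),(6,100)]⟩,
⟨⟨⟨111,-26,138⟩,⟨-134,33,114⟩,⟨-42,-174,1⟩⟩,true,132,98,.leaf [(1,81),(10,590),(15,5),(18,214)],.leaf [(1,1863),(3,1185),(10,755),(14,1)]⟩,
⟨⟨⟨127,-114,-54⟩,⟨-126,-111,-62⟩,⟨6,82,-159⟩⟩,true,133,63,.leaf [(0,196),(1,90),(3,15),(5,1)],.leaf [(0,196),(1,90),(3,15),(5,1)]⟩,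
⟨⟨⟨127,-114,54⟩,⟨126,111,-62⟩,⟨6,82,159⟩⟩,true,133,116,.leaf [(3,96123),(5,801),(14,313),(22,11)],.leaf [(0,529),(2,150),(5,4),(10,105)]⟩,
⟨⟨⟨1,-42,-174⟩,⟨138,111,-26⟩,⟨114,-134,33⟩⟩,true,137,5,.leaf [(3,807),(7,3),(10,8),(18,104)],.leaf [(1,1161),(3,144),(10,352),(15,1)]⟩,
⟨⟨⟨1,-42,174⟩,⟨-138,-111,-26⟩,⟨114,-134,-33⟩⟩,true,137,174,.leaf [(1,32041),(4,43),(5,147),(6,69)],.leaf [(1,32041),(4,43),(5,147),(6,69)]⟩,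
⟨⟨⟨1,138,-114⟩,⟨42,-111,-134⟩,⟨-174,-26,-33⟩⟩,true,138,65,.leaf [(0,24165),(2,14678),(4,147),(7,20)],.leaf [(0,24165),(2,14678),(4,147),(7,20)]⟩,
⟨⟨⟨1,138,114⟩,⟨-42,111,-134⟩,⟨-174,-26,33⟩⟩,true,138,114,.L (.leaf [(4,28512),(15,4560),(22,1615),(26,32041)]) (.leaf [(0,24344),(4,8),(11,7339),(15,23)]) (.leaf [(0,224),(1,29),(3,120),(5,1)]),.leaf [(0,60),(3,61),(7,1),(10,52)]⟩,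
⟨⟨⟨-17,126,-126⟩,⟨126,-81,-98⟩,⟨-126,-98,-81⟩⟩,true,140,39,.leaf [(0,189),(1,28),(2,18),(4,1)],.leaf [(0,189),(1,28),(2,18),(4,1)]⟩,
⟨⟨⟨-17,126,126⟩,⟨-126,81,-98⟩,⟨-126,-98,81⟩⟩,true,140,140,.leaf [(0,652455),(15,837),(18,105431),(23,95)],.leaf [(4,405),(7,297),(10,32041),(15,55)]⟩,
⟨⟨⟨-33,114,-134⟩,⟨174,1,-42⟩,⟨-26,-138,-111⟩⟩,true,143,80,.leaf [(0,37053),(3,29356),(4,322),(14,1)],.leaf [(0,225),(3,188),(4,2),(10,1)]⟩,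
⟨⟨⟨33,-114,-134⟩,⟨174,1,42⟩,⟨-26,-138,111⟩⟩,true,143,99,.leaf [(0,19511),(1,9308),(4,67),(7,108)],.leaf [(0,19511),(1,9308),(4,67),(7,108)]⟩,
⟨⟨⟨-111,126,-62⟩,⟨114,127,54⟩,⟨82,-6,-159⟩⟩,true,144,57,.leaf [(3,64082),(4,500),(5,195),(15,41)],.leaf [(1,5697),(3,2667),(10,2003),(22,1)]⟩,
⟨⟨⟨111,-126,-62⟩,⟨114,127,-54⟩,⟨82,-6,159⟩⟩,true,144,122,.leaf [(0,132),(1,18),(3,79),(7,1)],.leaf [(0,132),(1,18),(3,79),(7,1)]⟩,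
⟨⟨⟨127,-126,-6⟩,⟨114,111,82⟩,⟨-54,-62,159⟩⟩,true,147,7,.leaf [(0,6534),(3,3636),(18,869),(22,1)],.leaf [(3,125658),(5,1161),(10,80908),(15,13)]⟩,
⟨⟨⟨127,-126,6⟩,⟨-114,-111,82⟩,⟨-54,-62,-159⟩⟩,true,147,172,.leaf [(1,6086),(2,537),(4,41),(5,18)],.leaf [(1,6086),(2,537),(4,41),(5,18)]⟩,
⟨⟨⟨145,-54,90⟩,⟨-90,15,154⟩,⟨-54,-170,-15⟩⟩,true,149,50,.leaf [(1,4117),(3,2327),(4,13),(6,23)],.leaf [(1,4117),(3,2327),(4,13),(6,23)]⟩,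
⟨⟨⟨145,-54,-90⟩,⟨90,-15,154⟩,⟨-54,-170,15⟩⟩,true,149,129,.leaf [(1,2327),(3,4117),(4,23),(6,13)],.leaf [(1,2327),(3,4117),(4,23),(6,13)]⟩,
⟨⟨⟨-111,-114,82⟩,⟨-126,127,6⟩,⟨-62,-54,-159⟩⟩,true,151,17,.leaf [(0,60),(1,175),(3,66),(5,1)],.leaf [(0,60),(1,175),(3,66),(5,1)]⟩,
⟨⟨⟨111,114,82⟩,⟨-126,127,-6⟩,⟨-62,-54,159⟩⟩,true,151,162,.leaf [(4,285),(7,630),(10,32041),(15,14)],.leaf [(7,1458),(23,450),(26,32041),(30,25)]⟩,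
⟨⟨⟨81,42,154⟩,⟨-42,-161,66⟩,⟨154,-66,-63⟩⟩,true,153,24,.leaf [(0,358),(1,3759),(4,14),(5,23)],.leaf [(0,358),(1,3759),(4,14),(5,23)]⟩,
⟨⟨⟨-81,-42,154⟩,⟨-42,-161,-66⟩,⟨154,-66,63⟩⟩,true,153,155,.leaf [(1,36337),(2,4296),(5,199),(7,84)],.leaf [(1,36337),(2,4296),(5,199),(7,84)]⟩,
⟨⟨⟨-81,154,42⟩,⟨154,63,66⟩,⟨42,66,-161⟩⟩,true,155,26,.leaf [(0,5549),(3,15036),(4,119),(5,60)],.leaf [(0,5549),(3,15036),(4,119),(5,60)]⟩,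
⟨⟨⟨-81,154,-42⟩,⟨154,63,-66⟩,⟨-42,-66,-161⟩⟩,true,155,153,.leaf [(0,36337),(3,4296),(4,199),(6,84)],.leaf [(0,36337),(3,4296),(4,199),(6,84)]⟩,
⟨⟨⟨159,82,-6⟩,⟨-62,111,-126⟩,⟨-54,114,127⟩⟩,true,157,54,.leaf [(2,4117),(3,2506),(5,2),(6,21)],.leaf [(2,4117),(3,2506),(5,2),(6,21)]⟩,
⟨⟨⟨159,82,6⟩,⟨-62,111,126⟩,⟨54,-114,127⟩⟩,true,157,125,.leaf [(1,292),(2,7),(4,2),(18,13)],.leaf [(2,3043),(4,3),(6,19),(10,537)]⟩,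
⟨⟨⟨-159,-62,-54⟩,⟨82,-111,-114⟩,⟨6,-126,127⟩⟩,true,158,51,.leaf [(4,405),(10,88247),(15,632),(18,10740)],.leaf [(3,32220),(4,135),(10,13783),(15,28)]⟩,
⟨⟨⟨-159,-62,54⟩,⟨82,-111,114⟩,⟨-6,126,127⟩⟩,true,158,128,.leaf [(0,9487),(3,1611),(4,67),(5,33)],.leaf [(0,9487),(3,1611),(4,67),(5,33)]⟩,
⟨⟨⟨111,82,-114⟩,⟨-62,159,54⟩,⟨126,6,127⟩⟩,true,162,28,.leaf [(2,4117),(3,2148),(4,6),(6,19)],.leaf [(2,4117),(3,2148),(4,6),(6,19)]⟩,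
⟨⟨⟨111,82,114⟩,⟨-62,159,-54⟩,⟨-126,-6,127⟩⟩,true,162,151,.leaf [(5,285),(6,630),(11,32041),(14,14)],.leaf [(0,81),(2,145),(6,1),(10,15)]⟩,
⟨⟨⟨63,66,154⟩,⟨66,-161,42⟩,⟨154,42,-81⟩⟩,true,163,82,.leaf [(0,20585),(2,30072),(4,235),(5,112)],.leaf [(0,20585),(2,30072),(4,235),(5,112)]⟩,
⟨⟨⟨-63,-66,154⟩,⟨66,-161,-42⟩,⟨154,42,81⟩⟩,true,163,97,.leaf [(2,32041),(4,95),(5,210),(7,14)],.leaf [(2,32041),(4,95),(5,210),(7,14)]⟩,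
⟨⟨⟨159,-78,-26⟩,⟨-78,-161,6⟩,⟨-26,6,-177⟩⟩,true,165,55,.leaf [(1,15931),(2,22554),(4,210),(5,61)],.leaf [(1,15931),(2,22554),(4,210),(5,61)]⟩,
⟨⟨⟨-159,78,-26⟩,⟨-78,-161,-6⟩,⟨-26,6,177⟩⟩,true,165,124,.leaf [(0,170),(1,20),(2,69),(4,1)],.leaf [(0,170),(1,20),(2,69),(4,1)]⟩,
⟨⟨⟨-177,-26,6⟩,⟨-26,159,-78⟩,⟨6,-78,-161⟩⟩,true,166,3,.leaf [(2,6623),(3,12172),(5,44),(6,67)],.leaf [(2,6623),(3,12172),(5,44),(6,67)]⟩,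
⟨⟨⟨-177,-26,-6⟩,⟨-26,159,78⟩,⟨-6,78,-161⟩⟩,true,166,176,.leaf [(0,358),(1,1253),(4,2),(5,7)],.leaf [(0,358),(1,1253),(4,2),(5,7)]⟩,
⟨⟨⟨33,174,-26⟩,⟨-114,1,-138⟩,⟨-134,42,111⟩⟩,true,168,86,.leaf [(1,96123),(4,92),(7,79),(14,164)],.leaf [(1,60),(2,130),(4,1),(10,43)]⟩,
⟨⟨⟨-33,-174,-26⟩,⟨-114,1,138⟩,⟨-134,42,-111⟩⟩,true,168,93,.leaf [(2,12530),(3,18437),(4,58),(5,105)],.leaf [(2,12530),(3,18437),(4,58),(5,105)]⟩,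
⟨⟨⟨127,6,126⟩,⟨54,159,-62⟩,⟨-114,82,111⟩⟩,true,172,32,.leaf [(0,3580),(3,1074),(5,19),(15,3)],.leaf [(0,77),(3,330),(5,2),(10,75)]⟩,
⟨⟨⟨127,6,-126⟩,⟨-54,-159,-62⟩,⟨-114,82,-111⟩⟩,true,172,147,.leaf [(0,24),(1,64),(2,141),(4,1)],.leaf [(0,24),(1,64),(2,141),(4,1)]⟩,
⟨⟨⟨15,-90,154⟩,⟨-54,145,90⟩,⟨-170,-54,-15⟩⟩,true,173,58,.leaf [(0,36),(1,10),(3,159),(5,1)],.leaf [(0,36),(1,10),(3,159),(5,1)]⟩,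
⟨⟨⟨-15,90,154⟩,⟨-54,145,-90⟩,⟨-170,-54,15⟩⟩,true,173,121,.leaf [(1,1863),(7,15),(10,230),(18,62)],.leaf [(1,1431),(3,369),(10,451),(14,1)]⟩,
⟨⟨⟨1,174,42⟩,⟨-114,33,-134⟩,⟨-138,-26,111⟩⟩,true,174,42,.leaf [(0,32041),(4,269),(7,8),(15,104)],.leaf [(0,417),(2,22),(7,4),(10,153)]⟩,
⟨⟨⟨1,174,-42⟩,⟨114,-33,-134⟩,⟨-138,-26,-111⟩⟩,true,174,137,.leaf [(0,32041),(4,147),(5,43),(7,69)],.leaf [(0,32041),(4,147),(5,43),(7,69)]⟩,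
⟨⟨⟨177,6,-26⟩,⟨-6,-161,-78⟩,⟨-26,78,-159⟩⟩,true,176,13,.leaf [(0,12172),(1,6623),(4,44),(5,67)],.leaf [(0,12172),(1,6623),(4,44),(5,67)]⟩,
⟨⟨⟨-177,-6,-26⟩,⟨-6,-161,78⟩,⟨-26,78,159⟩⟩,true,176,166,.leaf [(0,155),(1,44),(3,60),(4,1)],.leaf [(0,155),(1,44),(3,60),(4,1)]⟩,
⟨⟨⟨-81,-98,126⟩,⟨-98,-81,-126⟩,⟨126,-126,-17⟩⟩,true,178,78,.leaf [(1,96123),(2,6802),(5,613),(14,46)],.leaf [(1,288369),(5,1500),(15,88),(23,25)]⟩,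
⟨⟨⟨-81,-98,-126⟩,⟨-98,-81,126⟩,⟨-126,126,-17⟩⟩,true,178,101,.leaf [(1,28819),(3,25776),(4,224),(5,17)],.leaf [(1,28819),(3,25776),(4,224),(5,17)]⟩]

theorem primeOk_179 : PrimeOk 179 := primeOk (by norm_num) (by norm_num) (by norm_num) L179
  (by decide +kernel) (by decide +kernel)

def L263 : List Cls := [
⟨⟨⟨99,198,142⟩,⟨162,61,-198⟩,⟨-182,162,-99⟩⟩,true,2,28,.leaf [(3,69169),(4,40),(5,300),(15,19)],.leaf [(3,36557),(4,110),(5,141),(10,9994)]⟩,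
⟨⟨⟨-99,-198,142⟩,⟨162,61,198⟩,⟨-182,162,99⟩⟩,true,2,235,.leaf [(0,8153),(1,2104),(4,13),(5,32)],.leaf [(0,8153),(1,2104),(4,13),(5,32)]⟩,
⟨⟨⟨147,178,126⟩,⟨214,-147,-42⟩,⟨42,126,-227⟩⟩,true,3,76,.leaf [(0,73640),(2,32349),(4,353),(5,168)],.leaf [(0,73640),(2,32349),(4,353),(5,168)]⟩,
⟨⟨⟨147,178,-126⟩,⟨214,-147,42⟩,⟨-42,-126,-227⟩⟩,true,3,187,.leaf [(0,280),(1,168),(2,45),(4,1)],.leaf [(0,280),(1,168),(2,45),(4,1)]⟩,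
⟨⟨⟨-93,-218,-114⟩,⟨-146,147,-162⟩,⟨198,6,-173⟩⟩,true,8,120,.leaf [(1,7101),(2,24722),(5,111),(6,2)],.leaf [(1,7101),(2,24722),(5,111),(6,2)]⟩,
⟨⟨⟨-93,-218,114⟩,⟨-146,147,162⟩,⟨-198,-6,-173⟩⟩,true,8,143,.leaf [(0,212),(1,197),(3,90),(5,1)],.leaf [(0,212),(1,197),(3,90),(5,1)]⟩,
⟨⟨⟨-83,42,-246⟩,⟨-114,-237,-2⟩,⟨-222,106,93⟩⟩,true,9,60,.leaf [(0,2),(2,277),(3,244),(4,1)],.leaf [(0,2),(2,277),(3,244),(4,1)]⟩,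
⟨⟨⟨-83,42,246⟩,⟨114,237,-2⟩,⟨-222,106,-93⟩⟩,true,9,203,.leaf [(1,68),(2,64),(3,271),(5,1)],.leaf [(1,68),(2,64),(3,271),(5,1)]⟩,
⟨⟨⟨-83,222,114⟩,⟨246,93,-2⟩,⟨-42,106,-237⟩⟩,true,10,62,.leaf [(3,69169),(4,244),(5,277),(7,2)],.leaf [(3,69169),(4,244),(5,277),(7,2)]⟩,
⟨⟨⟨-83,222,-114⟩,⟨-246,-93,-2⟩,⟨-42,106,237⟩⟩,true,10,201,.leaf [(0,20),(2,295),(3,112),(4,1)],.leaf [(0,20),(2,295),(3,112),(4,1)]⟩,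
⟨⟨⟨-93,106,222⟩,⟨-2,237,-114⟩,⟨-246,-42,-83⟩⟩,true,13,57,.leaf [(1,11046),(3,77585),(5,343),(6,148)],.leaf [(1,11046),(3,77585),(5,343),(6,148)]⟩,
⟨⟨⟨-93,106,-222⟩,⟨-2,237,114⟩,⟨246,42,-83⟩⟩,true,13,206,.leaf [(1,69169),(4,287),(5,329),(6,171)],.leaf [(1,69169),(4,287),(5,329),(6,171)]⟩,
⟨⟨⟨61,-198,-162⟩,⟨-162,99,-182⟩,⟨198,142,-99⟩⟩,true,14,131,.leaf [(0,1841),(2,7627),(5,29),(7,7)],.leaf [(0,1841),(2,7627),(5,29),(7,7)]⟩,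
⟨⟨⟨61,-198,162⟩,⟨162,-99,-182⟩,⟨198,142,99⟩⟩,true,14,132,.leaf [(0,70),(2,270),(3,63),(5,1)],.leaf [(0,70),(2,270),(3,63),(5,1)]⟩,
⟨⟨⟨147,-162,-146⟩,⟨6,-173,198⟩,⟨-218,-114,-93⟩⟩,true,15,33,.leaf [(0,11),(1,248),(3,96),(4,1)],.leaf [(0,11),(1,248),(3,96),(4,1)]⟩,
⟨⟨⟨-147,162,-146⟩,⟨6,-173,-198⟩,⟨-218,-114,93⟩⟩,true,15,230,.leaf [(0,114),(2,13),(4,1),(11,52)],.leaf [(0,231),(2,91),(4,1),(10,13)]⟩,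
⟨⟨⟨-237,-110,-30⟩,⟨70,-195,162⟩,⟨-90,138,205⟩⟩,true,16,100,.leaf [(0,2104),(3,2367),(4,16),(5,3)],.leaf [(0,2104),(3,2367),(4,16),(5,3)]⟩,
⟨⟨⟨-237,-110,30⟩,⟨70,-195,-162⟩,⟨90,-138,205⟩⟩,true,16,163,.leaf [(4,3),(5,4),(6,2),(14,1)],.leaf [(3,4440),(4,27),(10,2480),(26,37)]⟩,
⟨⟨⟨99,142,198⟩,⟨-182,-99,162⟩,⟨162,-198,61⟩⟩,true,28,2,.leaf [(2,69169),(4,300),(5,40),(14,19)],.leaf [(1,116),(2,203),(4,1),(10,38)]⟩,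
⟨⟨⟨99,142,-198⟩,⟨-182,-99,-162⟩,⟨-162,198,61⟩⟩,true,28,261,.leaf [(1,526),(2,7101),(4,29),(5,2)],.leaf [(1,526),(2,7101),(4,29),(5,2)]⟩,
⟨⟨⟨189,-42,178⟩,⟨18,259,42⟩,⟨-182,-18,189⟩⟩,true,29,90,.leaf [(0,15780),(3,63383),(5,210),(7,179)],.leaf [(0,15780),(3,63383),(5,210),(7,179)]⟩,
⟨⟨⟨-189,42,178⟩,⟨18,259,-42⟩,⟨-182,-18,-189⟩⟩,true,29,173,.leaf [(1,37),(3,90),(5,1),(10,60)],.leaf [(1,69169),(5,202),(7,180),(15,15)]⟩,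
⟨⟨⟨205,-162,-30⟩,⟨138,195,-110⟩,⟨90,70,237⟩⟩,true,30,64,.leaf [(0,362151),(14,192),(18,32612),(22,31)],.leaf [(0,427),(2,234),(5,4),(10,267)]⟩,
⟨⟨⟨205,-162,30⟩,⟨-138,-195,-110⟩,⟨90,70,-237⟩⟩,true,30,199,.leaf [(0,20777),(1,19462),(4,25),(5,86)],.leaf [(0,20777),(1,19462),(4,25),(5,86)]⟩,
⟨⟨⟨141,-222,-2⟩,⟨-42,-29,258⟩,⟨-218,-138,-51⟩⟩,true,32,69,.leaf [(3,69169),(4,216),(5,312),(7,43)],.leaf [(3,69169),(4,216),(5,312),(7,43)]⟩,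
⟨⟨⟨-141,222,-2⟩,⟨-42,-29,-258⟩,⟨-218,-138,51⟩⟩,true,32,194,.leaf [(2,69169),(4,132),(7,112),(14,61)],.leaf [(2,41554),(4,279),(7,148),(10,16043)]⟩,
⟨⟨⟨147,-146,-162⟩,⟨-218,-93,-114⟩,⟨6,198,-173⟩⟩,true,33,15,.leaf [(1,13939),(2,50496),(4,248),(5,185)],.leaf [(1,13939),(2,50496),(4,248),(5,185)]⟩,
⟨⟨⟨147,-146,162⟩,⟨-218,-93,114⟩,⟨-6,-198,-173⟩⟩,true,33,248,.leaf [(4,594),(5,936),(10,69169),(14,13)],.leaf [(4,36),(5,15),(15,10),(23,1)]⟩,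
⟨⟨⟨-173,-6,-198⟩,⟨162,147,-146⟩,⟨114,-218,-93⟩⟩,true,35,103,.leaf [(3,1910169),(7,4095),(18,147280),(23,68)],.leaf [(1,4401),(3,471),(10,1673),(22,1)]⟩,
⟨⟨⟨-173,-6,198⟩,⟨-162,-147,-146⟩,⟨114,-218,93⟩⟩,true,35,160,.leaf [(1,156),(2,371),(6,2),(18,13)],.leaf [(1,312),(2,88),(6,1),(10,65)]⟩,
⟨⟨⟨51,258,-2⟩,⟨138,-29,-222⟩,⟨-218,42,-141⟩⟩,true,36,67,.leaf [(0,69169),(4,467),(5,335),(15,75)],.leaf [(0,15254),(4,97),(5,40),(10,3945)]⟩,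
⟨⟨⟨-51,-258,-2⟩,⟨138,-29,222⟩,⟨-218,42,141⟩⟩,true,36,196,.leaf [(0,69169),(4,167),(5,317),(7,57)],.leaf [(0,69169),(4,167),(5,317),(7,57)]⟩,
⟨⟨⟨237,90,70⟩,⟨-30,205,-162⟩,⟨-110,138,195⟩⟩,true,37,58,.leaf [(5,1404),(10,205666),(14,1129),(18,3419)],.leaf [(3,305343),(5,1215),(10,103096),(15,58)]⟩,
⟨⟨⟨-237,-90,70⟩,⟨-30,205,162⟩,⟨-110,138,-195⟩⟩,true,37,205,.leaf [(0,6049),(1,9205),(4,5),(5,33)],.leaf [(0,6049),(1,9205),(4,5),(5,33)]⟩,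
⟨⟨⟨189,-182,-18⟩,⟨178,189,-42⟩,⟨42,18,259⟩⟩,true,38,50,.leaf [(2,15254),(5,40),(6,97),(18,1315)],.leaf [(2,31823),(5,220),(6,139),(10,13150)]⟩,
⟨⟨⟨189,-182,18⟩,⟨178,189,42⟩,⟨-42,-18,259⟩⟩,true,38,213,.leaf [(2,69169),(5,10),(6,87),(15,70)],.leaf [(4,291),(5,1060),(6,470),(10,69169)]⟩,
⟨⟨⟨-227,42,-126⟩,⟨-126,-147,178⟩,⟨-42,214,147⟩⟩,true,45,128,.leaf [(1,7),(2,189),(3,297),(4,1)],.leaf [(1,7),(2,189),(3,297),(4,1)]⟩,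
⟨⟨⟨-227,42,126⟩,⟨126,147,178⟩,⟨-42,214,-147⟩⟩,true,45,135,.leaf [(0,263),(3,10257),(4,45),(5,29)],.leaf [(0,263),(3,10257),(4,45),(5,29)]⟩,
⟨⟨⟨-99,-182,162⟩,⟨142,99,198⟩,⟨-198,162,61⟩⟩,true,47,94,.leaf [(0,272),(1,101),(2,72),(5,1)],.leaf [(0,272),(1,101),(2,72),(5,1)]⟩,
⟨⟨⟨-99,-182,-162⟩,⟨142,99,-198⟩,⟨198,-162,61⟩⟩,true,47,169,.leaf [(1,789),(5,17),(6,115),(10,9205)],.leaf [(1,207507),(5,481),(6,740),(15,70)]⟩,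
⟨⟨⟨-147,-218,6⟩,⟨-146,93,-198⟩,⟨162,-114,-173⟩⟩,true,48,59,.leaf [(1,34716),(2,17095),(5,180),(6,13)],.leaf [(1,34716),(2,17095),(5,180),(6,13)]⟩,
⟨⟨⟨-147,-218,-6⟩,⟨-146,93,198⟩,⟨-162,114,-173⟩⟩,true,48,204,.leaf [(0,257),(1,167),(2,75),(5,1)],.leaf [(0,257),(1,167),(2,75),(5,1)]⟩,
⟨⟨⟨189,-18,-182⟩,⟨42,259,18⟩,⟨178,-42,189⟩⟩,true,50,38,.L (.leaf [(4,10098),(6,5649),(15,1564),(26,69169)]) (.leaf [(0,265),(1,327),(2,237),(5,1)]) (.leaf [(0,333),(1,268),(3,108),(4,1)]),.leaf [(3,63909),(7,207),(10,14465),(14,5)]⟩,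
⟨⟨⟨-189,18,-182⟩,⟨42,259,-18⟩,⟨178,-42,-189⟩⟩,true,50,225,.leaf [(1,432),(10,860),(14,5),(18,273)],.leaf [(1,405),(3,819),(10,445),(14,1)]⟩,
⟨⟨⟨-29,-222,138⟩,⟨42,-141,-218⟩,⟨258,-2,51⟩⟩,true,53,95,.leaf [(0,10),(1,87),(2,210),(5,1)],.leaf [(0,10),(1,87),(2,210),(5,1)]⟩,
⟨⟨⟨-29,-222,-138⟩,⟨-42,141,-218⟩,⟨258,-2,-51⟩⟩,true,53,168,.leaf [(1,69169),(5,56),(7,209),(15,44)],.leaf [(1,221),(2,143),(5,1),(10,77)]⟩,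
⟨⟨⟨-93,222,106⟩,⟨-246,-83,-42⟩,⟨-2,-114,237⟩⟩,true,57,13,.leaf [(0,11046),(2,77585),(4,343),(7,148)],.leaf [(0,11046),(2,77585),(4,343),(7,148)]⟩,
⟨⟨⟨93,-222,106⟩,⟨-246,-83,42⟩,⟨-2,-114,-237⟩⟩,true,57,250,.leaf [(1,70),(2,108),(3,273),(5,1)],.leaf [(1,70),(2,108),(3,273),(5,1)]⟩,
⟨⟨⟨237,70,90⟩,⟨-110,195,138⟩,⟨-30,-162,205⟩⟩,true,58,37,.leaf [(4,1755),(11,214082),(15,1214),(18,3419)],.leaf [(2,11309),(4,3),(6,56),(10,3156)]⟩,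
⟨⟨⟨237,70,-90⟩,⟨-110,195,-138⟩,⟨30,162,205⟩⟩,true,58,226,.leaf [(2,9205),(3,6049),(5,5),(6,33)],.leaf [(2,9205),(3,6049),(5,5),(6,33)]⟩,
⟨⟨⟨-147,6,-218⟩,⟨162,-173,-114⟩,⟨-146,-198,93⟩⟩,true,59,48,.leaf [(0,34716),(3,17095),(4,180),(7,13)],.leaf [(0,34716),(3,17095),(4,180),(7,13)]⟩,
⟨⟨⟨147,-6,-218⟩,⟨162,-173,114⟩,⟨-146,-198,-93⟩⟩,true,59,215,.leaf [(0,167),(1,242),(3,90),(4,1)],.leaf [(0,167),(1,242),(3,90),(4,1)]⟩,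
⟨⟨⟨-83,-246,42⟩,⟨-222,93,106⟩,⟨-114,-2,-237⟩⟩,true,60,9,.leaf [(1,2),(2,244),(3,277),(5,1)],.leaf [(1,2),(2,244),(3,277),(5,1)]⟩,
⟨⟨⟨-83,-246,-42⟩,⟨222,-93,106⟩,⟨-114,-2,237⟩⟩,true,60,254,.leaf [(0,69169),(4,132),(5,112),(6,183)],.leaf [(0,69169),(4,132),(5,112),(6,183)]⟩,
⟨⟨⟨-51,-218,-138⟩,⟨-2,141,-222⟩,⟨258,-42,-29⟩⟩,true,61,111,.leaf [(0,20251),(1,80215),(5,245),(6,297)],.leaf [(0,20251),(1,80215),(5,245),(6,297)]⟩,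
⟨⟨⟨-51,-218,138⟩,⟨-2,141,222⟩,⟨-258,42,-29⟩⟩,true,61,152,.leaf [(0,260),(1,110),(3,57),(5,1)],.leaf [(0,260),(1,110),(3,57),(5,1)]⟩,
⟨⟨⟨-83,114,222⟩,⟨-42,-237,106⟩,⟨246,-2,93⟩⟩,true,62,10,.leaf [(2,69169),(4,277),(5,244),(6,2)],.leaf [(2,69169),(4,277),(5,244),(6,2)]⟩,
⟨⟨⟨-83,114,-222⟩,⟨42,237,106⟩,⟨246,-2,-93⟩⟩,true,62,253,.leaf [(1,69169),(4,64),(5,132),(7,207)],.leaf [(1,69169),(4,64),(5,132),(7,207)]⟩,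
⟨⟨⟨205,-30,-162⟩,⟨90,237,70⟩,⟨138,-110,195⟩⟩,true,64,30,.leaf [(1,57),(3,22),(7,1),(18,28)],.leaf [(1,1998),(3,837),(10,868),(15,1)]⟩,
⟨⟨⟨205,-30,162⟩,⟨-90,-237,70⟩,⟨138,-110,-195⟩⟩,true,64,233,.leaf [(0,3156),(1,9205),(4,28),(5,33)],.leaf [(0,3156),(1,9205),(4,28),(5,33)]⟩,
⟨⟨⟨51,-2,258⟩,⟨-218,-141,42⟩,⟨138,-222,-29⟩⟩,true,67,36,.leaf [(1,69169),(4,335),(5,467),(14,75)],.leaf [(4,9369),(10,484183),(15,2737),(31,17)]⟩,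
⟨⟨⟨51,-2,-258⟩,⟨-218,-141,-42⟩,⟨-138,222,-29⟩⟩,true,67,227,.leaf [(0,43),(1,216),(2,96),(4,1)],.leaf [(0,43),(1,216),(2,96),(4,1)]⟩,
⟨⟨⟨-195,-110,-138⟩,⟨70,-237,90⟩,⟨-162,30,205⟩⟩,true,68,114,.leaf [(0,82),(2,45),(3,228),(4,1)],.leaf [(0,82),(2,45),(3,228),(4,1)]⟩,
⟨⟨⟨-195,-110,138⟩,⟨70,-237,-90⟩,⟨162,-30,205⟩⟩,true,68,149,.leaf [(4,5013),(5,4404),(15,1652),(18,69169)],.leaf [(0,3419),(4,38),(5,12),(10,2367)]⟩,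
⟨⟨⟨141,-2,-222⟩,⟨-218,-51,-138⟩,⟨-42,258,-29⟩⟩,true,69,32,.leaf [(2,69169),(4,312),(5,216),(6,43)],.leaf [(2,69169),(4,312),(5,216),(6,43)]⟩,
⟨⟨⟨141,-2,222⟩,⟨-218,-51,138⟩,⟨42,-258,-29⟩⟩,true,69,231,.leaf [(4,6579),(5,2883),(15,1247),(18,69169)],.leaf [(1,51759),(10,4545),(26,1717),(31,5)]⟩,
⟨⟨⟨-93,-198,-146⟩,⟨114,-173,162⟩,⟨-218,-6,147⟩⟩,true,70,126,.leaf [(1,4471),(3,47340),(4,192),(5,25)],.leaf [(1,4471),(3,47340),(4,192),(5,25)]⟩,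
⟨⟨⟨93,198,-146⟩,⟨114,-173,-162⟩,⟨-218,-6,-147⟩⟩,true,70,137,.leaf [(0,48392),(4,256),(5,151),(11,3945)],.leaf [(0,47077),(4,206),(5,140),(10,789)]⟩,
⟨⟨⟨205,90,-138⟩,⟨30,-237,-110⟩,⟨-162,70,-195⟩⟩,true,71,84,.leaf [(0,90),(1,28),(2,237),(4,1)],.leaf [(0,90),(1,28),(2,237),(4,1)]⟩,
⟨⟨⟨205,90,138⟩,⟨-30,237,-110⟩,⟨-162,70,195⟩⟩,true,71,179,.L (.leaf [(4,27297),(15,6468),(22,1078),(26,69169)]) (.leaf [(0,337),(2,90),(4,1),(11,60)]) (.leaf [(0,52337),(5,171),(7,107),(10,2893)]),.leaf [(5,201),(6,173),(7,811),(10,69169)]⟩,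
⟨⟨⟨195,-162,70⟩,⟨138,205,90⟩,⟨-110,-30,237⟩⟩,true,72,115,.leaf [(3,69169),(4,228),(5,183),(7,310)],.leaf [(3,69169),(4,228),(5,183),(7,310)]⟩,
⟨⟨⟨-195,162,70⟩,⟨138,205,-90⟩,⟨-110,-30,-237⟩⟩,true,72,148,.leaf [(3,69169),(4,472),(5,453),(15,106)],.leaf [(1,8208),(3,5160),(10,2945),(22,1)]⟩,
⟨⟨⟨-29,-42,258⟩,⟨-222,141,-2⟩,⟨-138,-218,-51⟩⟩,true,74,109,.leaf [(5,189),(6,735),(10,69169),(15,95)],.leaf [(1,1863),(3,429),(10,689),(14,1)]⟩,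
⟨⟨⟨-29,-42,-258⟩,⟨222,-141,-2⟩,⟨-138,-218,51⟩⟩,true,74,154,.leaf [(0,99),(1,52),(3,204),(4,1)],.leaf [(0,99),(1,52),(3,204),(4,1)]⟩,
⟨⟨⟨147,126,178⟩,⟨42,-227,126⟩,⟨214,-42,-147⟩⟩,true,76,3,.leaf [(0,2630),(2,5523),(4,25),(5,4)],.leaf [(0,2630),(2,5523),(4,25),(5,4)]⟩,
⟨⟨⟨-147,-126,178⟩,⟨42,-227,-126⟩,⟨214,-42,147⟩⟩,true,76,260,.leaf [(2,69169),(4,185),(5,315),(7,143)],.leaf [(2,69169),(4,185),(5,315),(7,143)]⟩,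
⟨⟨⟨-93,-246,-2⟩,⟨222,-83,-114⟩,⟨106,-42,237⟩⟩,true,79,99,.leaf [(0,268),(1,235),(2,20),(7,1)],.leaf [(0,268),(1,235),(2,20),(7,1)]⟩,
⟨⟨⟨93,246,-2⟩,⟨222,-83,114⟩,⟨106,-42,-237⟩⟩,true,79,164,.leaf [(0,287),(1,116),(2,42),(4,1)],.leaf [(0,287),(1,116),(2,42),(4,1)]⟩,
⟨⟨⟨237,-2,114⟩,⟨106,-93,-222⟩,⟨42,246,-83⟩⟩,true,81,117,.leaf [(0,248),(1,125),(3,72),(5,1)],.leaf [(0,248),(1,125),(3,72),(5,1)]⟩,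
⟨⟨⟨237,-2,-114⟩,⟨106,-93,222⟩,⟨-42,-246,-83⟩⟩,true,81,146,.leaf [(0,91),(1,279),(3,57),(4,1)],.leaf [(0,91),(1,279),(3,57),(4,1)]⟩,
⟨⟨⟨205,-138,90⟩,⟨-162,-195,70⟩,⟨30,-110,-237⟩⟩,true,84,71,.leaf [(1,9731),(2,3945),(4,53),(5,33)],.leaf [(1,9731),(2,3945),(4,53),(5,33)]⟩,
⟨⟨⟨205,-138,-90⟩,⟨162,195,70⟩,⟨30,-110,237⟩⟩,true,84,192,.leaf [(4,5319),(6,906),(15,1828),(18,69169)],.leaf [(3,69169),(5,33),(6,157),(14,75)]⟩,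
⟨⟨⟨-237,106,42⟩,⟨-2,93,-246⟩,⟨-114,-222,-83⟩⟩,true,85,123,.leaf [(0,199),(1,82),(3,122),(6,1)],.leaf [(0,199),(1,82),(3,122),(6,1)]⟩,
⟨⟨⟨-237,106,-42⟩,⟨-2,93,246⟩,⟨114,222,-83⟩⟩,true,85,140,.leaf [(0,13),(1,33),(3,255),(4,1)],.leaf [(0,13),(1,33),(3,255),(4,1)]⟩,
⟨⟨⟨-147,214,-42⟩,⟨178,147,126⟩,⟨126,42,-227⟩⟩,true,88,113,.leaf [(0,1841),(3,32349),(4,143),(5,45)],.leaf [(0,1841),(3,32349),(4,143),(5,45)]⟩,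
⟨⟨⟨-147,214,42⟩,⟨178,147,-126⟩,⟨-126,-42,-227⟩⟩,true,88,150,.leaf [(3,69169),(4,255),(5,353),(6,203)],.leaf [(3,69169),(4,255),(5,353),(6,203)]⟩,
⟨⟨⟨189,178,-42⟩,⟨-182,189,-18⟩,⟨18,42,259⟩⟩,true,90,29,.leaf [(1,15780),(2,63383),(4,210),(6,179)],.leaf [(1,15780),(2,63383),(4,210),(6,179)]⟩,
⟨⟨⟨189,178,42⟩,⟨-182,189,18⟩,⟨-18,-42,259⟩⟩,true,90,234,.leaf [(0,30),(2,97),(6,1),(11,60)],.leaf [(0,165),(2,187),(6,1),(10,15)]⟩,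
⟨⟨⟨-99,162,-182⟩,⟨-198,61,162⟩,⟨142,198,99⟩⟩,true,94,47,.leaf [(0,101),(1,272),(3,72),(4,1)],.leaf [(0,101),(1,272),(3,72),(4,1)]⟩,
⟨⟨⟨99,-162,-182⟩,⟨-198,61,-162⟩,⟨142,198,-99⟩⟩,true,94,216,.leaf [(2,198828),(5,2187),(11,145702),(15,49)],.leaf [(2,225917),(4,551),(5,1020),(10,18410)]⟩,
⟨⟨⟨-29,138,-222⟩,⟨258,51,-2⟩,⟨42,-218,-141⟩⟩,true,95,53,.leaf [(0,87),(1,10),(3,210),(4,1)],.leaf [(0,87),(1,10),(3,210),(4,1)]⟩,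
⟨⟨⟨-29,138,222⟩,⟨-258,-51,-2⟩,⟨42,-218,141⟩⟩,true,95,210,.leaf [(1,18),(2,1365),(15,2),(18,49)],.leaf [(1,304),(2,57),(4,1),(10,132)]⟩,
⟨⟨⟨-93,-2,-246⟩,⟨106,237,-42⟩,⟨222,-114,-83⟩⟩,true,99,79,.leaf [(0,235),(1,268),(3,20),(6,1)],.leaf [(0,235),(1,268),(3,20),(6,1)]⟩,
⟨⟨⟨-93,-2,246⟩,⟨106,237,42⟩,⟨-222,114,-83⟩⟩,true,99,184,.leaf [(1,42),(2,116),(3,287),(5,1)],.leaf [(1,42),(2,116),(3,287),(5,1)]⟩,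
⟨⟨⟨-237,-30,-110⟩,⟨-90,205,138⟩,⟨70,162,-195⟩⟩,true,100,16,.leaf [(0,1315),(1,8679),(4,23),(5,35)],.leaf [(0,1315),(1,8679),(4,23),(5,35)]⟩,
⟨⟨⟨237,30,-110⟩,⟨-90,205,-138⟩,⟨70,162,195⟩⟩,true,100,247,.leaf [(3,325068),(5,396),(14,359),(18,19199)],.leaf [(0,47),(3,35),(5,1),(10,85)]⟩,
⟨⟨⟨-173,-198,-6⟩,⟨114,-93,-218⟩,⟨162,-146,147⟩⟩,true,103,35,.leaf [(2,300609),(6,1329),(15,376),(18,6838)],.leaf [(0,60),(2,175),(6,1),(10,56)]⟩,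
⟨⟨⟨-173,-198,6⟩,⟨-114,93,-218⟩,⟨162,-146,-147⟩⟩,true,103,228,.leaf [(2,579126),(5,4248),(14,895),(18,19199)],.leaf [(1,11695347),(10,2976108),(23,2753),(31,2)]⟩,
⟨⟨⟨-141,-218,-42⟩,⟨-2,51,-258⟩,⟨222,-138,-29⟩⟩,true,106,129,.leaf [(1,207507),(5,961),(6,716),(14,52)],.leaf [(1,636723),(5,1365),(10,147280),(15,68)]⟩,
⟨⟨⟨-141,-218,42⟩,⟨-2,51,258⟩,⟨-222,138,-29⟩⟩,true,106,134,.leaf [(0,13939),(1,7364),(4,17),(5,52)],.leaf [(0,13939),(1,7364),(4,17),(5,52)]⟩,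
⟨⟨⟨-173,162,114⟩,⟨-6,147,-218⟩,⟨-198,-146,-93⟩⟩,true,107,124,.leaf [(5,4401),(7,471),(14,1673),(18,69169)],.leaf [(3,349527),(7,1143),(10,98888),(23,26)]⟩,
⟨⟨⟨-173,162,-114⟩,⟨6,-147,-218⟩,⟨-198,-146,93⟩⟩,true,107,139,.leaf [(0,830028),(4,4839),(15,728),(22,13)],.leaf [(0,41291),(4,142),(7,52),(10,3419)]⟩,
⟨⟨⟨-29,258,-42⟩,⟨-138,-51,-218⟩,⟨-222,-2,141⟩⟩,true,109,74,.leaf [(4,189),(7,735),(11,69169),(14,95)],.leaf [(0,56),(2,209),(4,1),(10,44)]⟩,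
⟨⟨⟨-29,258,42⟩,⟨138,51,-218⟩,⟨-222,-2,-141⟩⟩,true,109,189,.leaf [(0,69169),(4,87),(5,10),(7,210)],.leaf [(0,69169),(4,87),(5,10),(7,210)]⟩,
⟨⟨⟨-51,-138,-218⟩,⟨258,-29,-42⟩,⟨-2,-222,141⟩⟩,true,111,61,.leaf [(0,80215),(1,20251),(4,245),(7,297)],.leaf [(0,80215),(1,20251),(4,245),(7,297)]⟩,
⟨⟨⟨51,138,-218⟩,⟨258,-29,42⟩,⟨-2,-222,-141⟩⟩,true,111,202,.leaf [(0,57),(2,110),(3,260),(4,1)],.leaf [(0,57),(2,110),(3,260),(4,1)]⟩,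
⟨⟨⟨-147,-42,214⟩,⟨126,-227,42⟩,⟨178,126,147⟩⟩,true,113,88,.leaf [(2,10520),(3,263),(4,16),(5,45)],.leaf [(2,10520),(3,263),(4,16),(5,45)]⟩,
⟨⟨⟨147,42,214⟩,⟨126,-227,-42⟩,⟨178,126,-147⟩⟩,true,113,175,.leaf [(0,18673),(1,22355),(4,41),(5,91)],.leaf [(0,18673),(1,22355),(4,41),(5,91)]⟩,
⟨⟨⟨-195,-138,-110⟩,⟨-162,205,30⟩,⟨70,90,-237⟩⟩,true,114,68,.leaf [(1,82),(2,228),(3,45),(5,1)],.leaf [(1,82),(2,228),(3,45),(5,1)]⟩,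
⟨⟨⟨195,138,-110⟩,⟨-162,205,-30⟩,⟨70,90,237⟩⟩,true,114,195,.leaf [(1,207507),(4,1076),(7,331),(15,170)],.leaf [(1,7965),(3,5187),(10,3305),(22,1)]⟩,
⟨⟨⟨195,70,-162⟩,⟨-110,237,-30⟩,⟨138,90,205⟩⟩,true,115,72,.leaf [(2,69169),(4,183),(5,228),(6,310)],.leaf [(2,69169),(4,183),(5,228),(6,310)]⟩,
⟨⟨⟨195,70,162⟩,⟨-110,237,30⟩,⟨-138,-90,205⟩⟩,true,115,191,.leaf [(0,16569),(2,32612),(6,119),(14,24)],.leaf [(0,63),(2,196),(6,1),(10,48)]⟩,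
⟨⟨⟨237,114,-2⟩,⟨42,-83,246⟩,⟨106,-222,-93⟩⟩,true,117,81,.leaf [(0,125),(1,248),(2,72),(4,1)],.leaf [(0,125),(1,248),(2,72),(4,1)]⟩,
⟨⟨⟨-237,-114,-2⟩,⟨42,-83,-246⟩,⟨106,-222,93⟩⟩,true,117,182,.leaf [(0,57),(2,279),(3,91),(7,1)],.leaf [(0,57),(2,279),(3,91),(7,1)]⟩,
⟨⟨⟨-93,-114,-218⟩,⟨198,-173,6⟩,⟨-146,-162,147⟩⟩,true,120,8,.leaf [(0,7101),(3,24722),(4,111),(7,2)],.leaf [(0,7101),(3,24722),(4,111),(7,2)]⟩,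
⟨⟨⟨93,114,-218⟩,⟨198,-173,-6⟩,⟨-146,-162,-147⟩⟩,true,120,255,.leaf [(0,287),(1,197),(3,15),(4,1)],.leaf [(0,287),(1,197),(3,15),(4,1)]⟩,
⟨⟨⟨259,42,18⟩,⟨-18,189,-182⟩,⟨-42,178,189⟩⟩,true,121,127,.leaf [(5,3024),(7,3864),(14,1871),(18,69169)],.leaf [(0,137023),(5,874),(7,330),(10,54441)]⟩,
⟨⟨⟨259,42,-18⟩,⟨18,-189,-182⟩,⟨-42,178,-189⟩⟩,true,121,136,.leaf [(0,13676),(1,4471),(4,28),(5,53)],.leaf [(0,13676),(1,4471),(4,28),(5,53)]⟩,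
⟨⟨⟨-237,42,106⟩,⟨-114,-83,-222⟩,⟨-2,-246,93⟩⟩,true,123,85,.leaf [(0,82),(1,199),(2,122),(7,1)],.leaf [(0,82),(1,199),(2,122),(7,1)]⟩,
⟨⟨⟨237,-42,106⟩,⟨-114,-83,222⟩,⟨-2,-246,-93⟩⟩,true,123,178,.leaf [(1,69169),(4,336),(5,148),(7,57)],.leaf [(1,69169),(4,336),(5,148),(7,57)]⟩,
⟨⟨⟨-173,114,162⟩,⟨-198,-93,-146⟩,⟨-6,-218,147⟩⟩,true,124,107,.leaf [(4,4266),(6,4479),(15,1612),(18,69169)],.leaf [(2,12361),(4,96),(6,7),(10,7364)]⟩,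
⟨⟨⟨-173,114,-162⟩,⟨198,93,-146⟩,⟨-6,-218,-147⟩⟩,true,124,156,.L (.L (.leaf [(1,603585),(4,2898),(23,425),(34,526)]) (.leaf [(1,140705),(4,375),(6,383),(11,2893)]) (.leaf [(0,60),(1,217),(3,210),(5,1)])) (.leaf [(0,81),(11,24),(18,4),(26,1)]) (.leaf [(0,9205),(1,6049),(4,33),(5,5)]),.leaf [(3,177525),(4,864),(10,23144),(15,125)]⟩,
⟨⟨⟨-93,-146,-198⟩,⟨-218,147,-6⟩,⟨114,162,-173⟩⟩,true,126,70,.leaf [(1,4471),(2,23670),(4,38),(5,113)],.leaf [(1,4471),(2,23670),(4,38),(5,113)]⟩,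
⟨⟨⟨-93,-146,198⟩,⟨-218,147,6⟩,⟨-114,-162,-173⟩⟩,true,126,193,.leaf [(3,3419),(5,17),(6,9),(10,263)],.leaf [(3,69169),(5,307),(6,207),(14,5)]⟩,
⟨⟨⟨259,18,42⟩,⟨-42,189,178⟩,⟨-18,-182,189⟩⟩,true,127,121,.leaf [(4,5481),(6,1086),(15,1468),(18,69169)],.leaf [(1,2025),(3,1095),(10,557),(14,1)]⟩,
⟨⟨⟨259,18,-42⟩,⟨42,-189,178⟩,⟨-18,-182,-189⟩⟩,true,127,142,.leaf [(0,105),(1,220),(2,102),(4,1)],.leaf [(0,105),(1,220),(2,102),(4,1)]⟩,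
⟨⟨⟨-227,-126,42⟩,⟨-42,147,214⟩,⟨-126,178,-147⟩⟩,true,128,45,.leaf [(0,7364),(1,8679),(4,12),(5,35)],.leaf [(0,7364),(1,8679),(4,12),(5,35)]⟩,
⟨⟨⟨-227,-126,-42⟩,⟨42,-147,214⟩,⟨-126,178,147⟩⟩,true,128,218,.leaf [(0,21),(1,4),(3,252),(4,1)],.leaf [(0,21),(1,4),(3,252),(4,1)]⟩,
⟨⟨⟨-141,-42,-218⟩,⟨222,-29,-138⟩,⟨-2,-258,51⟩⟩,true,129,106,.leaf [(0,207507),(4,961),(7,716),(15,52)],.leaf [(0,100203),(4,443),(7,376),(10,6838)]⟩,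
⟨⟨⟨141,42,-218⟩,⟨222,-29,138⟩,⟨-2,-258,-51⟩⟩,true,129,157,.leaf [(0,71),(1,173),(3,183),(4,1)],.leaf [(0,71),(1,173),(3,183),(4,1)]⟩,
⟨⟨⟨61,-162,-198⟩,⟨198,-99,142⟩,⟨-162,-182,99⟩⟩,true,131,14,.leaf [(1,1841),(3,7627),(4,29),(6,7)],.leaf [(1,1841),(3,7627),(4,29),(6,7)]⟩,
⟨⟨⟨61,-162,198⟩,⟨-198,99,142⟩,⟨-162,-182,-99⟩⟩,true,131,249,.leaf [(1,7101),(3,18410),(5,63),(6,20)],.leaf [(1,7101),(3,18410),(5,63),(6,20)]⟩,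
⟨⟨⟨61,162,-198⟩,⟨198,99,142⟩,⟨162,-182,-99⟩⟩,true,132,14,.leaf [(1,70),(2,63),(3,270),(4,1)],.leaf [(1,70),(2,63),(3,270),(4,1)]⟩,
⟨⟨⟨61,162,198⟩,⟨-198,-99,142⟩,⟨162,-182,99⟩⟩,true,132,249,.leaf [(1,5260),(2,16569),(4,70),(6,27)],.leaf [(1,5260),(2,16569),(4,70),(6,27)]⟩,
⟨⟨⟨-141,42,-218⟩,⟨-222,-29,138⟩,⟨-2,258,51⟩⟩,true,134,106,.leaf [(0,71),(1,254),(3,102),(4,1)],.leaf [(0,71),(1,254),(3,102),(4,1)]⟩,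
⟨⟨⟨141,-42,-218⟩,⟨-222,-29,-138⟩,⟨-2,258,-51⟩⟩,true,134,157,.leaf [(2,228547),(4,1111),(5,696),(18,6838)],.leaf [(2,178577),(4,719),(5,672),(10,13676)]⟩,
⟨⟨⟨-227,126,42⟩,⟨-42,-147,214⟩,⟨126,178,147⟩⟩,true,135,45,.leaf [(0,273),(1,130),(3,42),(4,1)],.leaf [(0,273),(1,130),(3,42),(4,1)]⟩,
⟨⟨⟨-227,126,-42⟩,⟨42,147,214⟩,⟨126,178,-147⟩⟩,true,135,218,.leaf [(0,3682),(1,22355),(4,50),(5,91)],.leaf [(0,3682),(1,22355),(4,50),(5,91)]⟩,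
⟨⟨⟨259,-18,42⟩,⟨-42,-189,178⟩,⟨18,-182,-189⟩⟩,true,136,121,.leaf [(0,3),(1,136),(2,168),(4,1)],.leaf [(0,3),(1,136),(2,168),(4,1)]⟩,
⟨⟨⟨259,-18,-42⟩,⟨42,189,178⟩,⟨18,-182,189⟩⟩,true,136,142,.leaf [(4,513),(6,207),(10,69169),(14,139)],.leaf [(1,5481),(3,1086),(10,1468),(23,1)]⟩,
⟨⟨⟨93,-146,198⟩,⟨-218,-147,-6⟩,⟨114,-162,-173⟩⟩,true,137,70,.leaf [(1,48392),(4,151),(5,256),(10,3945)],.leaf [(1,69169),(4,152),(5,272),(15,15)]⟩,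
⟨⟨⟨93,-146,-198⟩,⟨-218,-147,6⟩,⟨-114,162,-173⟩⟩,true,137,193,.leaf [(1,48655),(2,16569),(4,245),(5,53)],.leaf [(1,48655),(2,16569),(4,245),(5,53)]⟩,
⟨⟨⟨-173,-114,162⟩,⟨-198,93,-146⟩,⟨6,-218,-147⟩⟩,true,139,107,.leaf [(1,1257666),(5,7230),(14,1105),(18,3419)],.R (.leaf [(10,2025),(23,3),(26,157),(35,11)]) (.leaf [(10,7209),(23,12),(26,694),(34,11)]) (.leaf [(10,1576422),(23,2676),(26,149647),(38,11)])⟩,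
⟨⟨⟨-173,-114,-162⟩,⟨198,-93,-146⟩,⟨6,-218,147⟩⟩,true,139,156,.R (.leaf [(0,108),(3,117),(18,20),(27,1)]) (.leaf [(0,189),(3,144),(18,32),(26,1)]) (.leaf [(0,4239),(3,14616),(18,2144),(30,1)]),.leaf [(0,3419),(4,13),(6,28),(10,2104)]⟩,
⟨⟨⟨-237,-42,106⟩,⟨114,-83,222⟩,⟨-2,246,93⟩⟩,true,140,85,.leaf [(0,38924),(3,32349),(4,268),(5,97)],.leaf [(0,38924),(3,32349),(4,268),(5,97)]⟩,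
⟨⟨⟨237,42,106⟩,⟨114,-83,-222⟩,⟨-2,246,-93⟩⟩,true,140,178,.leaf [(0,204),(1,82),(3,117),(5,1)],.leaf [(0,204),(1,82),(3,117),(5,1)]⟩,
⟨⟨⟨259,-42,18⟩,⟨-18,-189,-182⟩,⟨42,178,-189⟩⟩,true,142,127,.leaf [(0,13939),(1,7364),(4,17),(5,52)],.leaf [(0,13939),(1,7364),(4,17),(5,52)]⟩,
⟨⟨⟨259,-42,-18⟩,⟨18,189,-182⟩,⟨42,178,189⟩⟩,true,142,136,.leaf [(5,513),(7,207),(11,69169),(15,139)],.leaf [(0,667),(2,6),(5,4),(10,207)]⟩,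
⟨⟨⟨-93,114,-218⟩,⟨-198,-173,-6⟩,⟨-146,162,147⟩⟩,true,143,8,.leaf [(0,197),(1,212),(2,90),(4,1)],.leaf [(0,197),(1,212),(2,90),(4,1)]⟩,
⟨⟨⟨93,-114,-218⟩,⟨-198,-173,6⟩,⟨-146,162,-147⟩⟩,true,143,255,.leaf [(1,24722),(2,7101),(4,111),(5,2)],.leaf [(1,24722),(2,7101),(4,111),(5,2)]⟩,
⟨⟨⟨237,-114,-2⟩,⟨-42,-83,-246⟩,⟨106,222,-93⟩⟩,true,146,81,.leaf [(0,279),(1,91),(2,57),(5,1)],.leaf [(0,279),(1,91),(2,57),(5,1)]⟩,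
⟨⟨⟨-237,114,-2⟩,⟨-42,-83,246⟩,⟨106,222,93⟩⟩,true,146,182,.leaf [(0,72),(2,125),(3,248),(4,1)],.leaf [(0,72),(2,125),(3,248),(4,1)]⟩,
⟨⟨⟨-195,70,162⟩,⟨-110,-237,-30⟩,⟨138,-90,205⟩⟩,true,148,72,.leaf [(2,69169),(4,453),(5,472),(14,106)],.leaf [(0,148),(2,111),(4,1),(10,48)]⟩,
⟨⟨⟨-195,70,-162⟩,⟨-110,-237,30⟩,⟨-138,90,205⟩⟩,true,148,191,.leaf [(0,292),(1,192),(2,15),(4,1)],.leaf [(0,292),(1,192),(2,15),(4,1)]⟩,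
⟨⟨⟨-195,138,-110⟩,⟨162,205,-30⟩,⟨70,-90,-237⟩⟩,true,149,68,.leaf [(4,546),(5,5004),(14,1183),(18,69169)],.leaf [(1,2808),(3,1377),(10,1048),(15,1)]⟩,
⟨⟨⟨195,-138,-110⟩,⟨162,205,30⟩,⟨70,-90,237⟩⟩,true,149,195,.leaf [(0,228),(1,45),(3,82),(7,1)],.leaf [(0,228),(1,45),(3,82),(7,1)]⟩,
⟨⟨⟨-147,42,214⟩,⟨-126,-227,-42⟩,⟨178,-126,147⟩⟩,true,150,88,.leaf [(2,69169),(4,353),(5,255),(7,203)],.leaf [(2,69169),(4,353),(5,255),(7,203)]⟩,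
⟨⟨⟨147,-42,214⟩,⟨-126,-227,42⟩,⟨178,-126,-147⟩⟩,true,150,175,.leaf [(0,1315),(1,8679),(4,23),(5,35)],.leaf [(0,1315),(1,8679),(4,23),(5,35)]⟩,
⟨⟨⟨-51,138,-218⟩,⟨-258,-29,42⟩,⟨-2,222,141⟩⟩,true,152,61,.leaf [(0,110),(1,260),(2,57),(4,1)],.leaf [(0,110),(1,260),(2,57),(4,1)]⟩,
⟨⟨⟨51,-138,-218⟩,⟨-258,-29,-42⟩,⟨-2,222,-141⟩⟩,true,152,202,.leaf [(1,20251),(2,25248),(4,168),(5,121)],.leaf [(1,20251),(2,25248),(4,168),(5,121)]⟩,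
⟨⟨⟨-29,-258,-42⟩,⟨-138,51,-218⟩,⟨222,-2,-141⟩⟩,true,154,74,.leaf [(0,52),(1,99),(2,204),(5,1)],.leaf [(0,52),(1,99),(2,204),(5,1)]⟩,
⟨⟨⟨-29,-258,42⟩,⟨138,-51,-218⟩,⟨222,-2,141⟩⟩,true,154,189,.leaf [(2,2625),(5,18),(11,802),(18,245)],.leaf [(0,165),(2,100),(6,1),(10,44)]⟩,
⟨⟨⟨-173,-162,114⟩,⟨-6,-147,-218⟩,⟨198,-146,93⟩⟩,true,156,124,.leaf [(2,723),(6,6),(11,364),(18,65)],.leaf [(2,15254),(5,12),(6,53),(10,1315)]⟩,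
⟨⟨⟨-173,-162,-114⟩,⟨6,147,-218⟩,⟨198,-146,-93⟩⟩,true,156,139,.leaf [(1,271),(2,550),(5,5),(18,94)],.leaf [(1,305343),(5,567),(10,61016),(15,86)]⟩,
⟨⟨⟨141,-218,42⟩,⟨-2,-51,-258⟩,⟨222,138,-29⟩⟩,true,157,129,.leaf [(0,173),(1,71),(2,183),(5,1)],.leaf [(0,173),(1,71),(2,183),(5,1)]⟩,
⟨⟨⟨141,-218,-42⟩,⟨-2,-51,258⟩,⟨-222,-138,-29⟩⟩,true,157,134,.leaf [(3,245905),(4,660),(5,523),(18,13676)],.leaf [(3,13939),(4,3),(5,49),(10,3419)]⟩,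
⟨⟨⟨-173,198,-6⟩,⟨114,93,-218⟩,⟨-162,-146,-147⟩⟩,true,160,35,.R (.leaf [(0,108),(3,117),(18,20),(27,1)]) (.leaf [(0,189),(3,144),(18,32),(26,1)]) (.R (.leaf [(0,2407887),(18,239022),(34,13685),(39,4)]) (.R (.leaf [(18,2025),(31,3),(34,157),(43,11)]) (.leaf [(18,7209),(31,12),(34,694),(42,11)]) (.leaf [(18,1576422),(31,2676),(34,149647),(46,11)])) (.leaf [(0,391473),(18,61053),(31,35),(35,367)])),.leaf [(0,39),(3,566),(7,2),(10,65)]⟩,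
⟨⟨⟨-173,198,6⟩,⟨-114,-93,-218⟩,⟨-162,-146,147⟩⟩,true,160,228,.leaf [(0,6390),(2,129),(15,4),(18,731)],.leaf [(0,119),(2,116),(4,1),(10,56)]⟩,
⟨⟨⟨-237,30,-110⟩,⟨90,205,-138⟩,⟨70,-162,-195⟩⟩,true,163,16,.leaf [(4,4),(5,3),(7,2),(15,1)],.leaf [(7,7209),(10,830028),(23,694),(31,11)]⟩,
⟨⟨⟨237,-30,-110⟩,⟨90,205,138⟩,⟨70,-162,195⟩⟩,true,163,247,.leaf [(2,1315),(3,8679),(4,23),(7,35)],.leaf [(2,1315),(3,8679),(4,23),(7,35)]⟩,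
⟨⟨⟨93,-2,246⟩,⟨106,-237,-42⟩,⟨222,114,-83⟩⟩,true,164,79,.leaf [(0,116),(1,287),(3,42),(5,1)],.leaf [(0,116),(1,287),(3,42),(5,1)]⟩,
⟨⟨⟨93,-2,-246⟩,⟨106,-237,42⟩,⟨-222,-114,-83⟩⟩,true,164,184,.leaf [(0,235),(1,255),(3,33),(4,1)],.leaf [(0,235),(1,255),(3,33),(4,1)]⟩,
⟨⟨⟨-29,-138,-222⟩,⟨258,-51,-2⟩,⟨-42,-218,141⟩⟩,true,168,53,.leaf [(0,69169),(4,56),(6,209),(14,44)],.leaf [(0,123),(3,40),(6,1),(10,66)]⟩,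
⟨⟨⟨-29,-138,222⟩,⟨-258,51,-2⟩,⟨-42,-218,-141⟩⟩,true,168,210,.leaf [(1,35505),(3,13676),(5,87),(6,80)],.leaf [(1,35505),(3,13676),(5,87),(6,80)]⟩,
⟨⟨⟨-99,-162,-182⟩,⟨198,61,-162⟩,⟨142,-198,99⟩⟩,true,169,47,.leaf [(0,789),(4,17),(7,115),(11,9205)],.leaf [(0,107304),(4,317),(7,520),(10,9205)]⟩,
⟨⟨⟨99,162,-182⟩,⟨198,61,162⟩,⟨142,-198,-99⟩⟩,true,169,216,.leaf [(1,72),(2,101),(3,272),(4,1)],.leaf [(1,72),(2,101),(3,272),(4,1)]⟩,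
⟨⟨⟨-189,178,42⟩,⟨-182,-189,-18⟩,⟨18,-42,259⟩⟩,true,173,29,.leaf [(0,37),(2,90),(4,1),(11,60)],.leaf [(0,172),(2,180),(4,1),(10,15)]⟩,
⟨⟨⟨-189,178,-42⟩,⟨-182,-189,18⟩,⟨-18,42,259⟩⟩,true,173,234,.leaf [(0,217),(1,60),(2,150),(4,1)],.leaf [(0,217),(1,60),(2,150),(4,1)]⟩,
⟨⟨⟨147,214,42⟩,⟨178,-147,126⟩,⟨126,-42,-227⟩⟩,true,175,113,.leaf [(0,238),(1,84),(2,123),(4,1)],.leaf [(0,238),(1,84),(2,123),(4,1)]⟩,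
⟨⟨⟨147,214,-42⟩,⟨178,-147,-126⟩,⟨-126,42,-227⟩⟩,true,175,150,.leaf [(0,40502),(2,11835),(4,185),(5,84)],.leaf [(0,40502),(2,11835),(4,185),(5,84)]⟩,
⟨⟨⟨237,106,-42⟩,⟨-2,-93,-246⟩,⟨-114,222,-83⟩⟩,true,178,123,.leaf [(0,69169),(4,148),(5,336),(6,57)],.leaf [(0,69169),(4,148),(5,336),(6,57)]⟩,
⟨⟨⟨237,106,42⟩,⟨-2,-93,246⟩,⟨114,-222,-83⟩⟩,true,178,140,.leaf [(0,82),(1,204),(2,117),(4,1)],.leaf [(0,82),(1,204),(2,117),(4,1)]⟩,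
⟨⟨⟨205,138,90⟩,⟨-162,195,70⟩,⟨-30,-110,237⟩⟩,true,179,71,.leaf [(1,344),(2,270),(4,5),(18,111)],.leaf [(1,7101),(7,54),(10,7364),(15,11)]⟩,
⟨⟨⟨205,138,-90⟩,⟨162,-195,70⟩,⟨-30,-110,-237⟩⟩,true,179,192,.leaf [(0,65),(2,268),(3,160),(4,1)],.leaf [(0,65),(2,268),(3,160),(4,1)]⟩,
⟨⟨⟨-237,-2,-114⟩,⟨106,93,-222⟩,⟨42,-246,-83⟩⟩,true,182,117,.leaf [(1,57),(2,91),(3,279),(6,1)],.leaf [(1,57),(2,91),(3,279),(6,1)]⟩,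
⟨⟨⟨-237,-2,114⟩,⟨106,93,222⟩,⟨-42,246,-83⟩⟩,true,182,146,.leaf [(0,2104),(3,13413),(4,64),(5,33)],.leaf [(0,2104),(3,13413),(4,64),(5,33)]⟩,
⟨⟨⟨-93,246,-2⟩,⟨-222,-83,114⟩,⟨106,42,237⟩⟩,true,184,99,.leaf [(0,42),(2,287),(3,116),(4,1)],.leaf [(0,42),(2,287),(3,116),(4,1)]⟩,
⟨⟨⟨93,-246,-2⟩,⟨-222,-83,-114⟩,⟨106,42,-237⟩⟩,true,184,164,.leaf [(0,255),(1,235),(2,33),(5,1)],.leaf [(0,255),(1,235),(2,33),(5,1)]⟩,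
⟨⟨⟨147,-126,178⟩,⟨-42,-227,-126⟩,⟨214,42,-147⟩⟩,true,187,3,.leaf [(0,168),(1,280),(3,45),(5,1)],.leaf [(0,168),(1,280),(3,45),(5,1)]⟩,
⟨⟨⟨-147,126,178⟩,⟨-42,-227,126⟩,⟨214,42,147⟩⟩,true,187,260,.leaf [(2,69169),(4,269),(5,273),(7,17)],.leaf [(2,69169),(4,269),(5,273),(7,17)]⟩,
⟨⟨⟨-29,42,258⟩,⟨-222,-141,-2⟩,⟨138,-218,51⟩⟩,true,189,109,.leaf [(1,69169),(4,10),(5,87),(6,210)],.leaf [(1,69169),(4,10),(5,87),(6,210)]⟩,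
⟨⟨⟨-29,42,-258⟩,⟨222,141,-2⟩,⟨138,-218,-51⟩⟩,true,189,154,.leaf [(3,663),(7,3),(10,143),(18,77)],.leaf [(1,27615),(4,57),(10,4997),(15,35)]⟩,
⟨⟨⟨195,162,70⟩,⟨-138,205,-90⟩,⟨-110,30,237⟩⟩,true,191,115,.leaf [(1,16569),(3,32612),(7,119),(15,24)],.leaf [(1,7317),(3,5115),(10,3185),(22,1)]⟩,
⟨⟨⟨-195,-162,70⟩,⟨-138,205,90⟩,⟨-110,30,-237⟩⟩,true,191,148,.leaf [(0,192),(1,292),(3,15),(5,1)],.leaf [(0,192),(1,292),(3,15),(5,1)]⟩,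
⟨⟨⟨205,-90,-138⟩,⟨30,237,-110⟩,⟨162,70,195⟩⟩,true,192,84,.leaf [(5,3267),(7,4125),(14,1295),(18,69169)],.leaf [(1,51548),(4,95),(5,564),(10,59175)]⟩,
⟨⟨⟨205,-90,138⟩,⟨-30,-237,-110⟩,⟨162,70,-195⟩⟩,true,192,179,.leaf [(0,7364),(1,8679),(4,12),(5,35)],.leaf [(0,7364),(1,8679),(4,12),(5,35)]⟩,
⟨⟨⟨-93,198,-146⟩,⟨-114,-173,-162⟩,⟨-218,6,147⟩⟩,true,193,126,.leaf [(2,3419),(4,17),(7,9),(11,263)],.leaf [(2,79426),(4,343),(7,228),(10,1315)]⟩,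
⟨⟨⟨93,-198,-146⟩,⟨-114,-173,162⟩,⟨-218,6,-147⟩⟩,true,193,137,.leaf [(1,48655),(3,14202),(4,204),(5,25)],.leaf [(1,48655),(3,14202),(4,204),(5,25)]⟩,
⟨⟨⟨-141,-2,222⟩,⟨-218,51,-138⟩,⟨-42,-258,-29⟩⟩,true,194,32,.leaf [(3,69169),(5,132),(6,112),(15,61)],.leaf [(3,215397),(6,861),(10,71273),(23,11)]⟩,
⟨⟨⟨-141,-2,-222⟩,⟨-218,51,138⟩,⟨42,258,-29⟩⟩,true,194,231,.leaf [(1,56545),(3,26826),(4,260),(5,53)],.leaf [(1,56545),(3,26826),(4,260),(5,53)]⟩,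
⟨⟨⟨195,-110,138⟩,⟨70,237,90⟩,⟨-162,-30,205⟩⟩,true,195,114,.leaf [(0,207507),(5,1076),(6,331),(14,170)],.leaf [(0,44184),(5,392),(6,277),(10,22355)]⟩,
⟨⟨⟨195,-110,-138⟩,⟨70,237,-90⟩,⟨162,30,205⟩⟩,true,195,149,.leaf [(0,45),(1,228),(2,82),(6,1)],.leaf [(0,45),(1,228),(2,82),(6,1)]⟩,
⟨⟨⟨-51,-2,-258⟩,⟨-218,141,42⟩,⟨138,222,-29⟩⟩,true,196,36,.leaf [(1,69169),(4,317),(5,167),(6,57)],.leaf [(1,69169),(4,317),(5,167),(6,57)]⟩,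
⟨⟨⟨-51,-2,258⟩,⟨-218,141,-42⟩,⟨-138,-222,-29⟩⟩,true,196,227,.leaf [(0,15228),(3,11475),(18,2668),(23,1)],.leaf [(0,105),(3,260),(6,2),(10,173)]⟩,
⟨⟨⟨205,30,-162⟩,⟨90,-237,70⟩,⟨-138,-110,-195⟩⟩,true,199,30,.leaf [(0,192),(1,232),(2,75),(4,1)],.leaf [(0,192),(1,232),(2,75),(4,1)]⟩,
⟨⟨⟨205,30,162⟩,⟨-90,237,70⟩,⟨-138,-110,195⟩⟩,true,199,233,.leaf [(5,540),(6,270),(10,69169),(14,337)],.leaf [(1,163296),(10,54765),(26,3148),(30,5)]⟩,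
⟨⟨⟨-83,-114,222⟩,⟨-42,237,106⟩,⟨-246,-2,-93⟩⟩,true,201,10,.leaf [(1,20),(2,112),(3,295),(5,1)],.leaf [(1,20),(2,112),(3,295),(5,1)]⟩,
⟨⟨⟨-83,-114,-222⟩,⟨42,-237,106⟩,⟨-246,-2,93⟩⟩,true,201,253,.leaf [(1,40),(2,123),(3,288),(4,1)],.leaf [(1,40),(2,123),(3,288),(4,1)]⟩,
⟨⟨⟨51,-218,138⟩,⟨-2,-141,-222⟩,⟨258,42,-29⟩⟩,true,202,111,.leaf [(1,57),(2,260),(3,110),(5,1)],.leaf [(1,57),(2,260),(3,110),(5,1)]⟩,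
⟨⟨⟨51,-218,-138⟩,⟨-2,-141,222⟩,⟨-258,-42,-29⟩⟩,true,202,152,.leaf [(1,1841),(3,3156),(4,16),(5,7)],.leaf [(1,1841),(3,3156),(4,16),(5,7)]⟩,
⟨⟨⟨-83,246,42⟩,⟨-222,-93,106⟩,⟨114,-2,237⟩⟩,true,203,9,.leaf [(0,68),(2,271),(3,64),(4,1)],.leaf [(0,68),(2,271),(3,64),(4,1)]⟩,
⟨⟨⟨-83,246,-42⟩,⟨222,93,106⟩,⟨114,-2,-237⟩⟩,true,203,254,.leaf [(0,5260),(3,5523),(4,36),(5,1)],.leaf [(0,5260),(3,5523),(4,36),(5,1)]⟩,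
⟨⟨⟨-147,-6,-218⟩,⟨-162,-173,114⟩,⟨-146,198,93⟩⟩,true,204,48,.leaf [(0,167),(1,257),(3,75),(4,1)],.leaf [(0,167),(1,257),(3,75),(4,1)]⟩,
⟨⟨⟨147,6,-218⟩,⟨-162,-173,-114⟩,⟨-146,198,-93⟩⟩,true,204,215,.leaf [(1,17095),(2,34716),(4,180),(5,13)],.leaf [(1,17095),(2,34716),(4,180),(5,13)]⟩,
⟨⟨⟨-237,70,-90⟩,⟨-110,-195,138⟩,⟨-30,162,205⟩⟩,true,205,37,.leaf [(0,265),(1,183),(3,45),(4,1)],.leaf [(0,265),(1,183),(3,45),(4,1)]⟩,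
⟨⟨⟨-237,70,90⟩,⟨-110,-195,-138⟩,⟨30,-162,205⟩⟩,true,205,226,.leaf [(0,7732989),(15,4491),(18,825557),(23,233)],.leaf [(0,41291),(4,236),(6,69),(10,12624)]⟩,
⟨⟨⟨-93,-222,106⟩,⟨246,-83,42⟩,⟨-2,114,237⟩⟩,true,206,13,.leaf [(0,69169),(4,329),(5,287),(7,171)],.leaf [(0,69169),(4,329),(5,287),(7,171)]⟩,
⟨⟨⟨93,222,106⟩,⟨246,-83,-42⟩,⟨-2,114,-237⟩⟩,true,206,250,.leaf [(0,77585),(2,11046),(4,343),(5,148)],.leaf [(0,77585),(2,11046),(4,343),(5,148)]⟩,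
⟨⟨⟨-29,222,138⟩,⟨42,141,-218⟩,⟨-258,-2,-51⟩⟩,true,210,95,.leaf [(0,3861),(3,6876),(18,1118),(22,1)],.leaf [(0,363),(3,134),(7,2),(10,77)]⟩,
⟨⟨⟨-29,222,-138⟩,⟨-42,-141,-218⟩,⟨-258,-2,51⟩⟩,true,210,168,.leaf [(0,35505),(2,13676),(4,87),(7,80)],.leaf [(0,35505),(2,13676),(4,87),(7,80)]⟩,
⟨⟨⟨189,18,-182⟩,⟨-42,259,-18⟩,⟨178,42,189⟩⟩,true,213,38,.leaf [(3,69169),(4,10),(7,87),(14,70)],.leaf [(1,2673),(3,1818),(10,1012),(15,1)]⟩,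
⟨⟨⟨-189,-18,-182⟩,⟨-42,259,18⟩,⟨178,42,-189⟩⟩,true,213,225,.leaf [(4,3390),(5,7812),(14,1705),(18,69169)],.leaf [(1,42343),(5,94),(10,10520),(15,5)]⟩,
⟨⟨⟨147,-218,-6⟩,⟨-146,-93,-198⟩,⟨162,114,-173⟩⟩,true,215,59,.leaf [(0,242),(1,167),(2,90),(5,1)],.leaf [(0,242),(1,167),(2,90),(5,1)]⟩,
⟨⟨⟨147,-218,6⟩,⟨-146,-93,198⟩,⟨-162,-114,-173⟩⟩,true,215,204,.leaf [(1,17095),(3,25248),(4,104),(5,125)],.leaf [(1,17095),(3,25248),(4,104),(5,125)]⟩,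
⟨⟨⟨99,-182,-162⟩,⟨142,-99,198⟩,⟨-198,-162,61⟩⟩,true,216,94,.leaf [(3,198828),(4,2187),(10,145702),(14,49)],.leaf [(3,69169),(4,312),(5,172),(23,7)]⟩,
⟨⟨⟨99,-182,162⟩,⟨142,-99,-198⟩,⟨198,162,61⟩⟩,true,216,169,.leaf [(0,72),(2,272),(3,101),(5,1)],.leaf [(0,72),(2,272),(3,101),(5,1)]⟩,
⟨⟨⟨-227,-42,-126⟩,⟨-126,147,178⟩,⟨42,214,-147⟩⟩,true,218,128,.leaf [(1,53389),(3,28404),(4,256),(5,189)],.leaf [(1,53389),(3,28404),(4,256),(5,189)]⟩,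
⟨⟨⟨-227,-42,126⟩,⟨126,-147,178⟩,⟨42,214,147⟩⟩,true,218,135,.leaf [(0,3682),(3,789),(4,18),(5,7)],.leaf [(0,3682),(3,789),(4,18),(5,7)]⟩,
⟨⟨⟨-189,-182,18⟩,⟨178,-189,-42⟩,⟨42,-18,259⟩⟩,true,225,50,.leaf [(0,1044),(5,3),(11,67),(18,164)],.leaf [(0,6838),(4,79),(5,72),(10,5523)]⟩,
⟨⟨⟨-189,-182,-18⟩,⟨178,-189,42⟩,⟨-42,18,259⟩⟩,true,225,213,.leaf [(4,1557),(5,1641),(15,1157),(18,69169)],.leaf [(0,54704),(4,347),(5,360),(10,19725)]⟩,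
⟨⟨⟨237,-90,70⟩,⟨30,205,162⟩,⟨-110,-138,195⟩⟩,true,226,58,.leaf [(2,6049),(3,9205),(4,5),(7,33)],.leaf [(2,6049),(3,9205),(4,5),(7,33)]⟩,
⟨⟨⟨-237,90,70⟩,⟨30,205,-162⟩,⟨-110,-138,-195⟩⟩,true,226,205,.leaf [(7,780),(10,25511),(14,183),(18,18410)],.leaf [(1,248535),(7,405),(10,88894),(14,82)]⟩,
⟨⟨⟨51,-258,-2⟩,⟨-138,-29,222⟩,⟨-218,-42,-141⟩⟩,true,227,67,.leaf [(1,29719),(3,50496),(4,216),(5,229)],.leaf [(1,29719),(3,50496),(4,216),(5,229)]⟩,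
⟨⟨⟨-51,258,-2⟩,⟨-138,-29,-222⟩,⟨-218,-42,141⟩⟩,true,227,196,.leaf [(2,54704),(4,347),(7,360),(18,6575)],.leaf [(2,53389),(4,277),(7,60),(10,13150)]⟩,
⟨⟨⟨-173,6,-198⟩,⟨162,-147,-146⟩,⟨-114,-218,93⟩⟩,true,228,103,.R (.leaf [(3,6237),(15,6),(18,944),(27,19)]) (.leaf [(3,19521),(15,21),(18,3190),(26,38)]) (.R (.leaf [(15,1539),(18,157011),(31,107),(34,2893)]) (.leaf [(15,7209),(18,830028),(31,694),(39,11)]) (.leaf [(15,5994),(18,703788),(31,569),(35,2893)])),.leaf [(0,241),(3,364),(4,2),(10,65)]⟩,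
⟨⟨⟨-173,6,198⟩,⟨-162,147,-146⟩,⟨-114,-218,-93⟩⟩,true,228,160,.leaf [(1,91),(3,2260),(5,5),(18,224)],.leaf [(1,1053),(3,1278),(10,364),(15,1)]⟩,
⟨⟨⟨-147,-146,162⟩,⟨-218,93,-114⟩,⟨6,-198,-173⟩⟩,true,230,15,.leaf [(1,114),(3,13),(5,1),(10,52)],.leaf [(3,69169),(5,197),(6,212),(15,30)]⟩,
⟨⟨⟨-147,-146,-162⟩,⟨-218,93,114⟩,⟨-6,198,-173⟩⟩,true,230,248,.leaf [(2,77848),(3,29719),(4,96),(5,293)],.leaf [(2,77848),(3,29719),(4,96),(5,293)]⟩,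
⟨⟨⟨141,222,-2⟩,⟨42,-29,-258⟩,⟨-218,138,-51⟩⟩,true,231,69,.leaf [(4,2067),(5,3276),(14,1642),(18,69169)],.leaf [(0,115457),(4,886),(5,700),(10,48129)]⟩,
⟨⟨⟨-141,-222,-2⟩,⟨42,-29,258⟩,⟨-218,138,51⟩⟩,true,231,194,.leaf [(0,13676),(1,4471),(4,28),(5,53)],.leaf [(0,13676),(1,4471),(4,28),(5,53)]⟩,
⟨⟨⟨205,162,-30⟩,⟨138,-195,-110⟩,⟨-90,70,-237⟩⟩,true,233,64,.leaf [(0,38135),(2,28404),(4,207),(5,80)],.leaf [(0,38135),(2,28404),(4,207),(5,80)]⟩,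
⟨⟨⟨205,162,30⟩,⟨-138,195,-110⟩,⟨-90,70,237⟩⟩,true,233,199,.leaf [(4,540),(7,270),(11,69169),(15,337)],.leaf [(1,33),(2,157),(7,1),(10,75)]⟩,
⟨⟨⟨189,42,178⟩,⟨-18,259,-42⟩,⟨-182,18,189⟩⟩,true,234,90,.leaf [(1,30),(3,97),(7,1),(10,60)],.leaf [(1,10257),(3,9731),(7,53),(15,3)]⟩,
⟨⟨⟨-189,-42,178⟩,⟨-18,259,42⟩,⟨-182,18,-189⟩⟩,true,234,173,.leaf [(0,60),(1,217),(3,150),(5,1)],.leaf [(0,60),(1,217),(3,150),(5,1)]⟩,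
⟨⟨⟨-99,142,-198⟩,⟨-182,99,162⟩,⟨162,198,61⟩⟩,true,235,2,.leaf [(0,43),(1,243),(3,117),(4,1)],.leaf [(0,43),(1,243),(3,117),(4,1)]⟩,
⟨⟨⟨-99,142,198⟩,⟨-182,99,-162⟩,⟨-162,-198,61⟩⟩,true,235,261,.leaf [(0,207507),(5,44),(6,805),(14,38)],.leaf [(0,222),(3,40),(6,1),(10,19)]⟩,
⟨⟨⟨237,-110,30⟩,⟨70,195,162⟩,⟨-90,-138,205⟩⟩,true,247,100,.leaf [(2,347160),(4,2547),(15,1000),(18,19199)],.leaf [(5,468),(6,507),(10,69169),(22,38)]⟩,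
⟨⟨⟨237,-110,-30⟩,⟨70,195,-162⟩,⟨90,138,205⟩⟩,true,247,163,.leaf [(2,8679),(3,1315),(5,23),(6,35)],.leaf [(2,8679),(3,1315),(5,23),(6,35)]⟩,
⟨⟨⟨147,162,-146⟩,⟨-6,-173,-198⟩,⟨-218,114,-93⟩⟩,true,248,33,.leaf [(4,936),(5,594),(11,69169),(15,13)],.leaf [(0,78),(2,244),(4,1),(10,13)]⟩,
⟨⟨⟨-147,-162,-146⟩,⟨-6,-173,198⟩,⟨-218,114,93⟩⟩,true,248,230,.leaf [(1,96),(2,11),(3,248),(4,1)],.leaf [(1,96),(2,11),(3,248),(4,1)]⟩,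
⟨⟨⟨61,198,-162⟩,⟨-162,-99,-182⟩,⟨-198,142,99⟩⟩,true,249,131,.leaf [(0,7101),(2,18410),(4,63),(7,20)],.leaf [(0,7101),(2,18410),(4,63),(7,20)]⟩,
⟨⟨⟨61,198,162⟩,⟨162,99,-182⟩,⟨-198,142,-99⟩⟩,true,249,132,.leaf [(0,5260),(3,16569),(5,70),(7,27)],.leaf [(0,5260),(3,16569),(5,70),(7,27)]⟩,
⟨⟨⟨93,106,-222⟩,⟨-2,-237,-114⟩,⟨-246,42,-83⟩⟩,true,250,57,.leaf [(0,70),(2,273),(3,108),(4,1)],.leaf [(0,70),(2,273),(3,108),(4,1)]⟩,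
⟨⟨⟨93,106,222⟩,⟨-2,-237,114⟩,⟨246,-42,-83⟩⟩,true,250,206,.leaf [(0,21566),(2,67065),(4,305),(5,108)],.leaf [(0,21566),(2,67065),(4,305),(5,108)]⟩,
⟨⟨⟨-83,-222,114⟩,⟨246,-93,-2⟩,⟨42,106,237⟩⟩,true,253,62,.leaf [(0,69169),(4,132),(5,64),(6,207)],.leaf [(0,69169),(4,132),(5,64),(6,207)]⟩,
⟨⟨⟨-83,-222,-114⟩,⟨-246,93,-2⟩,⟨42,106,-237⟩⟩,true,253,201,.leaf [(0,40),(2,288),(3,123),(5,1)],.leaf [(0,40),(2,288),(3,123),(5,1)]⟩,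
⟨⟨⟨-83,-42,-246⟩,⟨-114,237,-2⟩,⟨222,106,-93⟩⟩,true,254,60,.leaf [(1,69169),(4,112),(5,132),(7,183)],.leaf [(1,69169),(4,112),(5,132),(7,183)]⟩,
⟨⟨⟨-83,-42,246⟩,⟨114,-237,-2⟩,⟨222,106,93⟩⟩,true,254,203,.leaf [(2,15517),(3,2104),(4,31),(5,64)],.leaf [(2,15517),(3,2104),(4,31),(5,64)]⟩,
⟨⟨⟨93,-218,114⟩,⟨-146,-147,-162⟩,⟨198,-6,-173⟩⟩,true,255,120,.leaf [(0,197),(1,287),(2,15),(5,1)],.leaf [(0,197),(1,287),(2,15),(5,1)]⟩,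
⟨⟨⟨93,-218,-114⟩,⟨-146,-147,162⟩,⟨-198,6,-173⟩⟩,true,255,143,.leaf [(1,49444),(3,16569),(4,224),(5,71)],.leaf [(1,49444),(3,16569),(4,224),(5,71)]⟩,
⟨⟨⟨-147,178,-126⟩,⟨214,147,-42⟩,⟨42,-126,-227⟩⟩,true,260,76,.leaf [(3,69169),(4,315),(5,185),(6,143)],.leaf [(3,69169),(4,315),(5,185),(6,143)]⟩,
⟨⟨⟨-147,178,126⟩,⟨214,147,42⟩,⟨-42,126,-227⟩⟩,true,260,187,.leaf [(3,69169),(4,273),(5,269),(6,17)],.leaf [(3,69169),(4,273),(5,269),(6,17)]⟩,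
⟨⟨⟨99,-198,142⟩,⟨-162,61,198⟩,⟨-182,-162,-99⟩⟩,true,261,28,.leaf [(1,526),(3,63909),(4,36),(5,259)],.leaf [(1,526),(3,63909),(4,36),(5,259)]⟩,
⟨⟨⟨-99,198,142⟩,⟨-162,61,-198⟩,⟨-182,-162,99⟩⟩,true,261,235,.leaf [(1,207507),(4,44),(7,805),(15,38)],.leaf [(1,192),(2,4),(4,1),(10,133)]⟩]

theorem primeOk_263 : PrimeOk 263 := primeOk (by norm_num) (by norm_num) (by norm_num) L263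
  (by decide +kernel) (by decide +kernel)

end Pool.Agent.Lib.H63.TSP
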