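import Mathlib
import Pool.Agent.Lib.H63.TSPPrime

/-!
# Generated certificates for the primes 37, 103, 181, 257
-/

set_option autoImplicit false

namespace Pool.Agent.Lib.H63.TSP

def L37 : List Cls := [
⟨⟨⟨37,0,0⟩,⟨0,-35,12⟩,⟨0,-12,-35⟩⟩,false,0,6,.leaf [(1,7),(2,35),(3,5),(4,1)],.leaf [(1,7),(2,35),(3,5),(4,1)]⟩,
⟨⟨⟨37,0,0⟩,⟨0,-35,-12⟩,⟨0,12,-35⟩⟩,false,0,31,.leaf [(0,259),(1,185),(4,5),(5,7)],.leaf [(0,259),(1,185),(4,5),(5,7)]⟩,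
⟨⟨⟨-35,0,12⟩,⟨0,37,0⟩,⟨-12,0,-35⟩⟩,true,0,6,.leaf [(1,35),(3,12),(5,1)],.leaf [(1,35),(3,12),(5,1)]⟩,
⟨⟨⟨-35,0,-12⟩,⟨0,37,0⟩,⟨12,0,-35⟩⟩,true,0,31,.leaf [(1,1369),(5,35),(7,12)],.leaf [(1,1369),(5,35),(7,12)]⟩,
⟨⟨⟨-3,28,-24⟩,⟨36,-3,-8⟩,⟨-8,-24,-27⟩⟩,true,3,8,.leaf [(0,31),(1,4),(3,12),(4,1)],.leaf [(0,31),(1,4),(3,12),(4,1)]⟩,
⟨⟨⟨-3,28,24⟩,⟨-36,3,-8⟩,⟨-8,-24,27⟩⟩,true,3,29,.leaf [(1,222),(2,185),(4,9),(7,10)],.leaf [(1,222),(2,185),(4,9),(7,10)]⟩,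
⟨⟨⟨-27,-24,-8⟩,⟨-8,-3,36⟩,⟨-24,28,-3⟩⟩,true,5,14,.leaf [(1,629),(3,1554),(4,52),(5,21)],.leaf [(1,629),(3,1554),(4,52),(5,21)]⟩,
⟨⟨⟨27,24,-8⟩,⟨-8,-3,-36⟩,⟨-24,28,3⟩⟩,true,5,23,.leaf [(2,1369),(4,33),(5,4),(6,22)],.leaf [(2,1369),(4,33),(5,4),(6,22)]⟩,
⟨⟨⟨-35,12,0⟩,⟨-12,-35,0⟩,⟨0,0,37⟩⟩,true,6,0,.leaf [(0,35),(2,12),(4,1)],.leaf [(0,35),(2,12),(4,1)]⟩,
⟨⟨⟨-3,-24,28⟩,⟨-8,-27,-24⟩,⟨36,-8,-3⟩⟩,true,8,3,.leaf [(0,4),(1,31),(2,12),(5,1)],.leaf [(0,4),(1,31),(2,12),(5,1)]⟩,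
⟨⟨⟨3,24,28⟩,⟨-8,-27,24⟩,⟨36,-8,3⟩⟩,true,8,34,.leaf [(0,370),(2,777),(4,25),(5,4)],.leaf [(0,370),(2,777),(4,25),(5,4)]⟩,
⟨⟨⟨-21,12,28⟩,⟨28,21,12⟩,⟨-12,28,-21⟩⟩,true,10,11,.leaf [(0,7),(3,33),(4,1),(5,1)],.leaf [(0,7),(3,33),(4,1),(5,1)]⟩,
⟨⟨⟨21,-12,28⟩,⟨28,21,-12⟩,⟨-12,28,21⟩⟩,true,10,26,.leaf [(0,40),(1,7),(5,1)],.leaf [(0,40),(1,7),(5,1)]⟩,
⟨⟨⟨-21,28,12⟩,⟨-12,-21,28⟩,⟨28,12,21⟩⟩,true,11,10,.leaf [(0,37),(1,16),(2,12),(4,1)],.leaf [(0,37),(1,16),(2,12),(4,1)]⟩,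
⟨⟨⟨-21,28,-12⟩,⟨12,21,28⟩,⟨28,12,-21⟩⟩,true,11,27,.leaf [(2,7),(3,40),(4,1)],.leaf [(2,7),(3,40),(4,1)]⟩,
⟨⟨⟨-3,-36,-8⟩,⟨28,3,-24⟩,⟨24,-8,27⟩⟩,true,12,15,.leaf [(2,1369),(5,52),(6,22),(14,9)],.leaf [(1,33),(2,11),(5,1),(10,17)]⟩,
⟨⟨⟨3,36,-8⟩,⟨28,3,24⟩,⟨24,-8,-27⟩⟩,true,12,22,.leaf [(0,33),(1,20),(3,12),(4,1)],.leaf [(0,33),(1,20),(3,12),(4,1)]⟩,
⟨⟨⟨-27,-8,-24⟩,⟨-24,-3,28⟩,⟨-8,36,-3⟩⟩,true,14,5,.leaf [(1,1073),(3,1110),(4,44),(5,5)],.leaf [(1,1073),(3,1110),(4,44),(5,5)]⟩,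
⟨⟨⟨-27,-8,24⟩,⟨24,3,28⟩,⟨-8,36,3⟩⟩,true,14,32,.leaf [(0,407),(1,259),(4,7),(5,11)],.leaf [(0,407),(1,259),(4,7),(5,11)]⟩,
⟨⟨⟨-3,-8,-36⟩,⟨24,27,-8⟩,⟨28,-24,3⟩⟩,true,15,12,.leaf [(3,1369),(4,52),(7,22),(15,9)],.leaf [(3,851),(4,17),(7,29),(10,333)]⟩,
⟨⟨⟨-3,-8,36⟩,⟨-24,-27,-8⟩,⟨28,-24,-3⟩⟩,true,15,25,.leaf [(1,1369),(4,16),(5,43),(7,12)],.leaf [(1,1369),(4,16),(5,43),(7,12)]⟩,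
⟨⟨⟨3,-8,36⟩,⟨24,-27,-8⟩,⟨28,24,3⟩⟩,true,22,12,.leaf [(0,20),(1,33),(2,12),(5,1)],.leaf [(0,20),(1,33),(2,12),(5,1)]⟩,
⟨⟨⟨3,-8,-36⟩,⟨-24,27,-8⟩,⟨28,24,-3⟩⟩,true,22,25,.leaf [(1,2738),(4,140),(5,89),(15,27)],.leaf [(1,19),(2,19),(5,1),(10,13)]⟩,
⟨⟨⟨27,-8,24⟩,⟨-24,3,28⟩,⟨-8,-36,-3⟩⟩,true,23,5,.leaf [(3,1369),(4,4),(5,33),(7,22)],.leaf [(3,1369),(4,4),(5,33),(7,22)]⟩,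
⟨⟨⟨27,-8,-24⟩,⟨24,-3,28⟩,⟨-8,-36,3⟩⟩,true,23,32,.leaf [(1,1110),(3,1073),(4,44),(7,5)],.leaf [(1,1110),(3,1073),(4,44),(7,5)]⟩,
⟨⟨⟨-3,36,-8⟩,⟨28,-3,-24⟩,⟨-24,-8,-27⟩⟩,true,25,15,.leaf [(0,1369),(4,43),(5,16),(6,12)],.leaf [(0,1369),(4,43),(5,16),(6,12)]⟩,
⟨⟨⟨3,-36,-8⟩,⟨28,-3,24⟩,⟨-24,-8,27⟩⟩,true,25,22,.leaf [(0,2738),(4,89),(5,140),(14,27)],.leaf [(0,2183),(4,2),(5,116),(10,999)]⟩,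
⟨⟨⟨21,28,-12⟩,⟨-12,21,28⟩,⟨28,-12,21⟩⟩,true,26,10,.leaf [(0,7),(1,40),(4,1)],.leaf [(0,7),(1,40),(4,1)]⟩,
⟨⟨⟨21,28,12⟩,⟨12,-21,28⟩,⟨28,-12,-21⟩⟩,true,26,27,.leaf [(0,28),(1,16),(2,21),(4,1)],.leaf [(0,28),(1,16),(2,21),(4,1)]⟩,
⟨⟨⟨-21,-12,28⟩,⟨28,-21,12⟩,⟨12,28,21⟩⟩,true,27,11,.leaf [(2,40),(3,7),(5,1)],.leaf [(2,40),(3,7),(5,1)]⟩,
⟨⟨⟨21,12,28⟩,⟨28,-21,-12⟩,⟨12,28,-21⟩⟩,true,27,26,.leaf [(2,259),(3,370),(4,3),(5,10)],.leaf [(2,259),(3,370),(4,3),(5,10)]⟩,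
⟨⟨⟨-3,24,28⟩,⟨-8,27,-24⟩,⟨-36,-8,3⟩⟩,true,29,3,.leaf [(0,222),(3,185),(5,9),(6,10)],.leaf [(0,222),(3,185),(5,9),(6,10)]⟩,
⟨⟨⟨3,-24,28⟩,⟨-8,27,24⟩,⟨-36,-8,-3⟩⟩,true,29,34,.leaf [(0,16),(1,4),(3,27),(5,1)],.leaf [(0,16),(1,4),(3,27),(5,1)]⟩,
⟨⟨⟨-35,-12,0⟩,⟨12,-35,0⟩,⟨0,0,37⟩⟩,true,31,0,.leaf [(0,1369),(4,35),(6,12)],.leaf [(0,1369),(4,35),(6,12)]⟩,
⟨⟨⟨-27,24,-8⟩,⟨-8,3,36⟩,⟨24,28,3⟩⟩,true,32,14,.leaf [(1,2),(2,21),(3,42),(4,1)],.leaf [(1,2),(2,21),(3,42),(4,1)]⟩,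
⟨⟨⟨27,-24,-8⟩,⟨-8,3,-36⟩,⟨24,28,-3⟩⟩,true,32,23,.leaf [(0,1110),(2,1073),(5,44),(6,5)],.leaf [(0,1110),(2,1073),(5,44),(6,5)]⟩,
⟨⟨⟨3,28,24⟩,⟨36,3,-8⟩,⟨-8,24,-27⟩⟩,true,34,8,.leaf [(0,185),(3,222),(4,9),(5,10)],.leaf [(0,185),(3,222),(4,9),(5,10)]⟩,
⟨⟨⟨3,28,-24⟩,⟨-36,-3,-8⟩,⟨-8,24,27⟩⟩,true,34,29,.leaf [(0,4),(1,16),(2,27),(4,1)],.leaf [(0,4),(1,16),(2,27),(4,1)]⟩]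

theorem primeOk_37 : PrimeOk 37 := primeOk (by norm_num) (by norm_num) (by norm_num) L37
  (by decide +kernel) (by decide +kernel)

def L103 : List Cls := [
⟨⟨⟨-45,-90,22⟩,⟨-50,3,-90⟩,⟨78,-50,-45⟩⟩,true,2,43,.leaf [(1,1545),(2,412),(5,19),(6,4)],.leaf [(1,1545),(2,412),(5,19),(6,4)]⟩,
⟨⟨⟨45,90,22⟩,⟨-50,3,90⟩,⟨78,-50,45⟩⟩,true,2,60,.leaf [(0,30),(1,68),(2,57),(4,1)],.leaf [(0,30),(1,68),(2,57),(4,1)]⟩,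
⟨⟨⟨-3,94,-42⟩,⟨102,-3,-14⟩,⟨-14,-42,-93⟩⟩,true,3,14,.leaf [(0,97),(1,10),(3,18),(4,1)],.leaf [(0,97),(1,10),(3,18),(4,1)]⟩,
⟨⟨⟨-3,94,42⟩,⟨-102,3,-14⟩,⟨-14,-42,93⟩⟩,true,3,89,.leaf [(1,2472),(2,1339),(4,33),(7,32)],.leaf [(1,2472),(2,1339),(4,33),(7,32)]⟩,
⟨⟨⟨13,78,66⟩,⟨-6,67,-78⟩,⟨-102,6,13⟩⟩,true,6,13,.R (.leaf [(0,108),(3,117),(18,20),(27,1)]) (.leaf [(0,189),(3,144),(18,32),(26,1)]) (.leaf [(0,4185),(3,5445),(18,1189),(31,1)]),.leaf [(0,63),(3,5),(7,1),(10,21)]⟩,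
⟨⟨⟨13,78,-66⟩,⟨-6,67,78⟩,⟨102,-6,13⟩⟩,true,6,90,.leaf [(0,11),(1,87),(3,57),(4,1)],.leaf [(0,11),(1,87),(3,57),(4,1)]⟩,
⟨⟨⟨13,-102,6⟩,⟨66,13,78⟩,⟨-78,-6,67⟩⟩,true,8,48,.leaf [(0,10609),(4,5),(5,72),(6,48)],.leaf [(0,10609),(4,5),(5,72),(6,48)]⟩,
⟨⟨⟨13,-102,-6⟩,⟨66,13,-78⟩,⟨78,6,67⟩⟩,true,8,55,.leaf [(0,670),(2,127),(5,4),(18,73)],.leaf [(0,63),(2,5),(6,1),(10,21)]⟩,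
⟨⟨⟨-77,54,-42⟩,⟨-18,-77,-66⟩,⟨-66,-42,67⟩⟩,true,10,38,.leaf [(0,35),(4,1),(11,24)],.leaf [(0,89),(2,36),(4,1),(10,6)]⟩,
⟨⟨⟨-77,54,42⟩,⟨-18,-77,66⟩,⟨66,42,67⟩⟩,true,10,65,.leaf [(0,83),(2,48),(3,24),(4,1)],.leaf [(0,83),(2,48),(3,24),(4,1)]⟩,
⟨⟨⟨-45,78,-50⟩,⟨22,-45,-90⟩,⟨-90,-50,3⟩⟩,true,12,24,.leaf [(0,721),(2,206),(4,7),(6,2)],.leaf [(0,721),(2,206),(4,7),(6,2)]⟩,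
⟨⟨⟨45,-78,-50⟩,⟨22,-45,90⟩,⟨-90,-50,-3⟩⟩,true,12,79,.leaf [(3,2781),(4,270),(10,8858),(15,1)],.leaf [(3,10609),(4,147),(5,65),(22,7)]⟩,
⟨⟨⟨13,66,78⟩,⟨-102,13,6⟩,⟨-6,-78,67⟩⟩,true,13,6,.leaf [(2,819),(10,86),(15,4),(18,73)],.leaf [(1,51912),(4,288),(10,17819),(14,7)]⟩,
⟨⟨⟨13,66,-78⟩,⟨-102,13,-6⟩,⟨6,78,67⟩⟩,true,13,97,.leaf [(0,5),(1,72),(2,48),(4,1)],.leaf [(0,5),(1,72),(2,48),(4,1)]⟩,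
⟨⟨⟨-3,-42,94⟩,⟨-14,-93,-42⟩,⟨102,-14,-3⟩⟩,true,14,3,.leaf [(0,10),(1,97),(2,18),(5,1)],.leaf [(0,10),(1,97),(2,18),(5,1)]⟩,
⟨⟨⟨3,42,94⟩,⟨-14,-93,42⟩,⟨102,-14,3⟩⟩,true,14,100,.leaf [(0,103),(2,618),(4,7),(5,4)],.leaf [(0,103),(2,618),(4,7),(5,4)]⟩,
⟨⟨⟨67,78,6⟩,⟨-6,13,-102⟩,⟨-78,66,13⟩⟩,true,15,17,.leaf [(0,30),(2,38),(7,1),(11,19)],.leaf [(0,291),(2,266),(7,4),(10,19)]⟩,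
⟨⟨⟨67,78,-6⟩,⟨-6,13,102⟩,⟨78,-66,13⟩⟩,true,15,86,.leaf [(1,58),(2,65),(3,50),(4,1)],.leaf [(1,58),(2,65),(3,50),(4,1)]⟩,
⟨⟨⟨67,42,-66⟩,⟨66,-77,18⟩,⟨-42,-54,-77⟩⟩,true,16,19,.leaf [(0,101),(1,84),(2,18),(4,1)],.leaf [(0,101),(1,84),(2,18),(4,1)]⟩,
⟨⟨⟨67,42,66⟩,⟨66,-77,-18⟩,⟨42,54,-77⟩⟩,true,16,84,.leaf [(0,9991),(2,8034),(4,143),(5,84)],.leaf [(0,9991),(2,8034),(4,143),(5,84)]⟩,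
⟨⟨⟨67,6,78⟩,⟨-78,13,66⟩,⟨-6,-102,13⟩⟩,true,17,15,.leaf [(1,30),(3,38),(6,1),(10,19)],.leaf [(1,10609),(4,19),(6,49),(15,19)]⟩,
⟨⟨⟨67,6,-78⟩,⟨-78,13,-66⟩,⟨6,102,13⟩⟩,true,17,88,.leaf [(2,10609),(4,65),(5,50),(7,58)],.leaf [(2,10609),(4,65),(5,50),(7,58)]⟩,
⟨⟨⟨67,-66,42⟩,⟨-42,-77,-54⟩,⟨66,18,-77⟩⟩,true,19,16,.leaf [(0,515),(1,618),(4,1),(5,6)],.leaf [(0,515),(1,618),(4,1),(5,6)]⟩,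
⟨⟨⟨67,-66,-42⟩,⟨-42,-77,54⟩,⟨-66,-18,-77⟩⟩,true,19,87,.leaf [(1,10403),(2,1236),(4,108),(5,1)],.leaf [(1,10403),(2,1236),(4,108),(5,1)]⟩,
⟨⟨⟨93,-14,42⟩,⟨-42,3,94⟩,⟨-14,-102,-3⟩⟩,true,22,37,.leaf [(1,10609),(4,136),(5,37),(7,48)],.leaf [(1,10609),(4,136),(5,37),(7,48)]⟩,
⟨⟨⟨93,-14,-42⟩,⟨42,-3,94⟩,⟨-14,-102,3⟩⟩,true,22,66,.leaf [(1,10197),(3,5150),(4,116),(7,11)],.leaf [(1,10197),(3,5150),(4,116),(7,11)]⟩,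
⟨⟨⟨-45,-50,78⟩,⟨-90,3,-50⟩,⟨22,-90,-45⟩⟩,true,24,12,.leaf [(1,721),(3,206),(5,7),(7,2)],.leaf [(1,721),(3,206),(5,7),(7,2)]⟩,
⟨⟨⟨-45,-50,-78⟩,⟨90,-3,-50⟩,⟨22,-90,45⟩⟩,true,24,91,.leaf [(0,2472),(4,32),(7,49),(11,721)],.leaf [(0,34917),(4,326),(7,364),(10,721)]⟩,
⟨⟨⟨-3,-90,-50⟩,⟨-50,45,-78⟩,⟨90,22,-45⟩⟩,true,30,51,.leaf [(0,1236),(2,12875),(5,128),(6,5)],.leaf [(0,1236),(2,12875),(5,128),(6,5)]⟩,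
⟨⟨⟨3,90,-50⟩,⟨-50,45,78⟩,⟨90,22,45⟩⟩,true,30,52,.leaf [(1,68),(2,45),(3,60),(4,1)],.leaf [(1,68),(2,45),(3,60),(4,1)]⟩,
⟨⟨⟨-77,-18,-66⟩,⟨54,-77,-42⟩,⟨-42,-66,67⟩⟩,true,31,45,.leaf [(0,10609),(4,35),(15,24)],.leaf [(0,6283),(4,59),(6,36),(10,618)]⟩,
⟨⟨⟨-77,-18,66⟩,⟨54,-77,42⟩,⟨42,66,67⟩⟩,true,31,58,.leaf [(2,10609),(4,18),(5,108),(6,5)],.leaf [(2,10609),(4,18),(5,108),(6,5)]⟩,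
⟨⟨⟨-3,-102,-14⟩,⟨94,3,-42⟩,⟨42,-14,93⟩⟩,true,34,39,.leaf [(1,5871),(2,5768),(5,19),(15,32)],.leaf [(1,21),(2,56),(5,1),(10,32)]⟩,
⟨⟨⟨3,102,-14⟩,⟨94,3,42⟩,⟨42,-14,-93⟩⟩,true,34,64,.leaf [(0,99),(1,32),(3,24),(4,1)],.leaf [(0,99),(1,32),(3,24),(4,1)]⟩,
⟨⟨⟨93,42,-14⟩,⟨-14,-3,-102⟩,⟨-42,94,3⟩⟩,true,37,22,.leaf [(0,10609),(4,37),(5,136),(6,48)],.leaf [(0,10609),(4,37),(5,136),(6,48)]⟩,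
⟨⟨⟨-93,-42,-14⟩,⟨-14,-3,102⟩,⟨-42,94,-3⟩⟩,true,37,81,.leaf [(0,1339),(1,1133),(4,11),(5,13)],.leaf [(0,1339),(1,1133),(4,11),(5,13)]⟩,
⟨⟨⟨-77,-42,54⟩,⟨-66,67,-42⟩,⟨-18,-66,-77⟩⟩,true,38,10,.leaf [(1,35),(5,1),(10,24)],.leaf [(1,10609),(5,155),(14,24)]⟩,
⟨⟨⟨-77,-42,-54⟩,⟨-66,67,42⟩,⟨18,66,-77⟩⟩,true,38,93,.leaf [(0,18),(1,23),(2,90),(5,1)],.leaf [(0,18),(1,23),(2,90),(5,1)]⟩,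
⟨⟨⟨-3,-14,-102⟩,⟨42,93,-14⟩,⟨94,-42,3⟩⟩,true,39,34,.leaf [(0,5871),(3,5768),(4,19),(14,32)],.leaf [(0,45),(3,70),(7,2),(10,67)]⟩,
⟨⟨⟨-3,-14,102⟩,⟨-42,-93,-14⟩,⟨94,-42,-3⟩⟩,true,39,69,.leaf [(1,10609),(4,28),(5,115),(7,18)],.leaf [(1,10609),(4,28),(5,115),(7,18)]⟩,
⟨⟨⟨-45,22,-90⟩,⟨78,-45,-50⟩,⟨-50,-90,3⟩⟩,true,43,2,.leaf [(0,1545),(3,412),(4,19),(7,4)],.leaf [(0,1545),(3,412),(4,19),(7,4)]⟩,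
⟨⟨⟨-45,22,90⟩,⟨-78,45,-50⟩,⟨-50,-90,-3⟩⟩,true,43,101,.leaf [(0,30),(1,87),(2,38),(7,1)],.leaf [(0,30),(1,87),(2,38),(7,1)]⟩,
⟨⟨⟨-77,-66,-18⟩,⟨-42,67,-66⟩,⟨54,-42,-77⟩⟩,true,45,31,.leaf [(1,10609),(5,35),(14,24)],.leaf [(1,155),(5,1),(10,24)]⟩,
⟨⟨⟨-77,-66,18⟩,⟨-42,67,66⟩,⟨-54,42,-77⟩⟩,true,45,72,.leaf [(0,90),(1,95),(2,18),(5,1)],.leaf [(0,90),(1,95),(2,18),(5,1)]⟩,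
⟨⟨⟨99,22,18⟩,⟨18,-99,22⟩,⟨22,-18,-99⟩⟩,true,46,47,.leaf [(0,22),(1,4),(2,99),(4,1)],.leaf [(0,22),(1,4),(2,99),(4,1)]⟩,
⟨⟨⟨99,22,-18⟩,⟨-18,99,22⟩,⟨22,-18,99⟩⟩,true,46,56,.leaf [(3,10609),(4,28),(7,115),(15,6)],.leaf [(1,675),(3,489),(10,193),(14,1)]⟩,
⟨⟨⟨99,18,22⟩,⟨22,-99,-18⟩,⟨18,22,-99⟩⟩,true,47,46,.leaf [(0,4120),(2,10197),(4,121),(5,40)],.leaf [(0,4120),(2,10197),(4,121),(5,40)]⟩,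
⟨⟨⟨-99,-18,22⟩,⟨22,-99,18⟩,⟨18,22,99⟩⟩,true,47,57,.leaf [(0,10609),(4,130),(5,40),(14,9)],.leaf [(0,13390),(4,157),(5,40),(10,927)]⟩,
⟨⟨⟨13,6,-102⟩,⟨-78,67,-6⟩,⟨66,78,13⟩⟩,true,48,8,.leaf [(1,10609),(4,72),(5,5),(7,48)],.leaf [(1,10609),(4,72),(5,5),(7,48)]⟩,
⟨⟨⟨13,6,102⟩,⟨-78,67,6⟩,⟨-66,-78,13⟩⟩,true,48,95,.leaf [(3,21218),(5,39),(6,124),(15,67)],.leaf [(1,1350),(3,465),(10,724),(23,1)]⟩,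
⟨⟨⟨-3,-50,-90⟩,⟨90,-45,22⟩,⟨-50,-78,45⟩⟩,true,51,30,.leaf [(1,1236),(3,12875),(4,128),(7,5)],.leaf [(1,1236),(3,12875),(4,128),(7,5)]⟩,
⟨⟨⟨-3,-50,90⟩,⟨-90,45,22⟩,⟨-50,-78,-45⟩⟩,true,51,73,.leaf [(1,1751),(3,2884),(5,32),(7,7)],.leaf [(1,1751),(3,2884),(5,32),(7,7)]⟩,
⟨⟨⟨3,-50,90⟩,⟨90,45,22⟩,⟨-50,78,45⟩⟩,true,52,30,.leaf [(0,68),(2,60),(3,45),(5,1)],.leaf [(0,68),(2,60),(3,45),(5,1)]⟩,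
⟨⟨⟨3,-50,-90⟩,⟨-90,-45,22⟩,⟨-50,78,-45⟩⟩,true,52,73,.leaf [(1,12875),(3,1236),(4,128),(5,5)],.leaf [(1,12875),(3,1236),(4,128),(5,5)]⟩,
⟨⟨⟨13,-6,-102⟩,⟨78,67,6⟩,⟨66,-78,13⟩⟩,true,55,8,.leaf [(3,89),(7,1),(10,14),(18,14)],.leaf [(1,513),(3,603),(10,239),(14,1)]⟩,
⟨⟨⟨13,-6,102⟩,⟨78,67,-6⟩,⟨-66,78,13⟩⟩,true,55,95,.leaf [(0,84),(1,47),(3,42),(5,1)],.leaf [(0,84),(1,47),(3,42),(5,1)]⟩,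
⟨⟨⟨99,-18,22⟩,⟨22,99,-18⟩,⟨-18,22,99⟩⟩,true,56,46,.leaf [(2,10609),(5,28),(6,115),(14,6)],.leaf [(2,6901),(5,28),(6,79),(10,618)]⟩,
⟨⟨⟨-99,18,22⟩,⟨22,99,18⟩,⟨-18,22,-99⟩⟩,true,56,57,.leaf [(1,99),(2,4),(3,22),(5,1)],.leaf [(1,99),(2,4),(3,22),(5,1)]⟩,
⟨⟨⟨-99,22,-18⟩,⟨18,99,22⟩,⟨22,18,-99⟩⟩,true,57,47,.leaf [(1,10609),(4,40),(5,130),(15,9)],.leaf [(1,16995),(5,147),(10,1030),(22,2)]⟩,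
⟨⟨⟨-99,22,18⟩,⟨-18,-99,22⟩,⟨22,18,99⟩⟩,true,57,56,.leaf [(0,99),(2,22),(3,4),(4,1)],.leaf [(0,99),(2,22),(3,4),(4,1)]⟩,
⟨⟨⟨-77,66,-18⟩,⟨42,67,66⟩,⟨54,42,-77⟩⟩,true,58,31,.leaf [(3,10609),(4,108),(5,18),(7,5)],.leaf [(3,10609),(4,108),(5,18),(7,5)]⟩,
⟨⟨⟨-77,66,18⟩,⟨42,67,-66⟩,⟨-54,-42,-77⟩⟩,true,58,72,.leaf [(3,10609),(5,30),(7,95),(15,6)],.leaf [(3,24617),(5,24),(7,211),(10,2472)]⟩,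
⟨⟨⟨45,22,90⟩,⟨78,45,-50⟩,⟨-50,90,3⟩⟩,true,60,2,.leaf [(0,68),(1,30),(3,57),(5,1)],.leaf [(0,68),(1,30),(3,57),(5,1)]⟩,
⟨⟨⟨45,22,-90⟩,⟨-78,-45,-50⟩,⟨-50,90,-3⟩⟩,true,60,101,.leaf [(1,412),(2,1545),(4,19),(5,4)],.leaf [(1,412),(2,1545),(4,19),(5,4)]⟩,
⟨⟨⟨3,-14,102⟩,⟨42,-93,-14⟩,⟨94,42,3⟩⟩,true,64,34,.leaf [(0,3811),(2,10506),(4,99),(5,116)],.leaf [(0,3811),(2,10506),(4,99),(5,116)]⟩,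
⟨⟨⟨3,-14,-102⟩,⟨-42,93,-14⟩,⟨94,42,-3⟩⟩,true,64,69,.leaf [(4,1221),(5,1764),(14,238),(18,10609)],.leaf [(1,313635),(5,2055),(10,127411),(22,11)]⟩,
⟨⟨⟨-77,42,54⟩,⟨66,67,42⟩,⟨-18,66,-77⟩⟩,true,65,10,.leaf [(1,83),(2,24),(3,48),(5,1)],.leaf [(1,83),(2,24),(3,48),(5,1)]⟩,
⟨⟨⟨-77,42,-54⟩,⟨66,67,-42⟩,⟨18,-66,-77⟩⟩,true,65,93,.leaf [(3,4635),(7,57),(10,412),(14,4)],.leaf [(1,1545),(3,1648),(7,20),(15,3)]⟩,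
⟨⟨⟨93,-42,-14⟩,⟨-14,3,-102⟩,⟨42,94,-3⟩⟩,true,66,22,.leaf [(0,10197),(2,5150),(5,116),(6,11)],.leaf [(0,10197),(2,5150),(5,116),(6,11)]⟩,
⟨⟨⟨-93,42,-14⟩,⟨-14,3,102⟩,⟨42,94,3⟩⟩,true,66,81,.leaf [(0,39),(1,38),(3,78),(4,1)],.leaf [(0,39),(1,38),(3,78),(4,1)]⟩,
⟨⟨⟨-3,102,-14⟩,⟨94,-3,-42⟩,⟨-42,-14,-93⟩⟩,true,69,39,.leaf [(0,10609),(4,115),(5,28),(6,18)],.leaf [(0,10609),(4,115),(5,28),(6,18)]⟩,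
⟨⟨⟨3,-102,-14⟩,⟨94,-3,42⟩,⟨-42,-14,93⟩⟩,true,69,64,.leaf [(4,2151),(5,822),(15,842),(18,10609)],.leaf [(0,15965),(4,86),(5,380),(10,8961)]⟩,
⟨⟨⟨-77,18,-66⟩,⟨-54,-77,42⟩,⟨-42,66,67⟩⟩,true,72,45,.leaf [(0,95),(1,90),(3,18),(4,1)],.leaf [(0,95),(1,90),(3,18),(4,1)]⟩,
⟨⟨⟨-77,18,66⟩,⟨-54,-77,-42⟩,⟨42,-66,67⟩⟩,true,72,58,.leaf [(2,10609),(4,30),(6,95),(14,6)],.leaf [(2,2060),(4,15),(6,16),(10,309)]⟩,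
⟨⟨⟨-3,90,-50⟩,⟨-50,-45,-78⟩,⟨-90,22,45⟩⟩,true,73,51,.leaf [(0,1751),(2,2884),(4,32),(6,7)],.leaf [(0,1751),(2,2884),(4,32),(6,7)]⟩,
⟨⟨⟨3,-90,-50⟩,⟨-50,-45,78⟩,⟨-90,22,-45⟩⟩,true,73,52,.leaf [(1,7931),(3,6180),(4,112),(5,45)],.leaf [(1,7931),(3,6180),(4,112),(5,45)]⟩,
⟨⟨⟨45,-50,-78⟩,⟨-90,-3,-50⟩,⟨22,90,-45⟩⟩,true,79,12,.leaf [(2,2781),(5,270),(11,8858),(14,1)],.leaf [(2,32548),(4,293),(5,336),(10,721)]⟩,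
⟨⟨⟨45,-50,78⟩,⟨90,3,-50⟩,⟨22,90,45⟩⟩,true,79,91,.leaf [(0,98),(1,33),(2,42),(5,1)],.leaf [(0,98),(1,33),(2,42),(5,1)]⟩,
⟨⟨⟨-93,-14,-42⟩,⟨-42,-3,94⟩,⟨-14,102,-3⟩⟩,true,81,37,.leaf [(1,5150),(3,10197),(4,116),(5,11)],.leaf [(1,5150),(3,10197),(4,116),(5,11)]⟩,
⟨⟨⟨-93,-14,42⟩,⟨42,3,94⟩,⟨-14,102,3⟩⟩,true,81,66,.leaf [(0,1751),(1,1339),(4,13),(5,17)],.leaf [(0,1751),(1,1339),(4,13),(5,17)]⟩,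
⟨⟨⟨67,66,42⟩,⟨42,-77,54⟩,⟨66,-18,-77⟩⟩,true,84,16,.leaf [(0,65),(1,12),(2,78),(4,1)],.leaf [(0,65),(1,12),(2,78),(4,1)]⟩,
⟨⟨⟨67,66,-42⟩,⟨42,-77,-54⟩,⟨-66,18,-77⟩⟩,true,84,87,.leaf [(0,2575),(2,1854),(4,35),(5,12)],.leaf [(0,2575),(2,1854),(4,35),(5,12)]⟩,
⟨⟨⟨67,-6,78⟩,⟨78,13,-66⟩,⟨-6,102,13⟩⟩,true,86,15,.leaf [(0,58),(2,50),(3,65),(5,1)],.leaf [(0,58),(2,50),(3,65),(5,1)]⟩,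
⟨⟨⟨67,-6,-78⟩,⟨78,13,66⟩,⟨6,-102,13⟩⟩,true,86,88,.leaf [(1,19),(3,49),(4,1),(10,19)],.leaf [(3,10609),(4,30),(6,38),(15,19)]⟩,
⟨⟨⟨67,-42,-66⟩,⟨-66,-77,-18⟩,⟨-42,54,-77⟩⟩,true,87,19,.leaf [(1,5459),(2,6180),(4,108),(5,25)],.leaf [(1,5459),(2,6180),(4,108),(5,25)]⟩,
⟨⟨⟨67,-42,66⟩,⟨-66,-77,18⟩,⟨42,-54,-77⟩⟩,true,87,84,.leaf [(0,103),(1,618),(4,5),(5,6)],.leaf [(0,103),(1,618),(4,5),(5,6)]⟩,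
⟨⟨⟨67,-78,6⟩,⟨6,13,102⟩,⟨-78,-66,13⟩⟩,true,88,17,.leaf [(3,10609),(4,50),(5,65),(6,58)],.leaf [(3,10609),(4,50),(5,65),(6,58)]⟩,
⟨⟨⟨67,-78,-6⟩,⟨6,13,-102⟩,⟨78,66,13⟩⟩,true,88,86,.leaf [(0,19),(2,49),(5,1),(11,19)],.leaf [(0,247),(2,310),(5,4),(10,19)]⟩,
⟨⟨⟨-3,42,94⟩,⟨-14,93,-42⟩,⟨-102,-14,3⟩⟩,true,89,3,.leaf [(0,2472),(3,1339),(5,33),(6,32)],.leaf [(0,2472),(3,1339),(5,33),(6,32)]⟩,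
⟨⟨⟨3,-42,94⟩,⟨-14,93,42⟩,⟨-102,-14,-3⟩⟩,true,89,100,.leaf [(0,28),(1,10),(3,87),(5,1)],.leaf [(0,28),(1,10),(3,87),(5,1)]⟩,
⟨⟨⟨13,-66,78⟩,⟨102,13,-6⟩,⟨-6,78,67⟩⟩,true,90,6,.leaf [(0,87),(1,11),(2,57),(5,1)],.leaf [(0,87),(1,11),(2,57),(5,1)]⟩,
⟨⟨⟨13,-66,-78⟩,⟨102,13,6⟩,⟨6,-78,67⟩⟩,true,90,97,.leaf [(4,1350),(6,465),(15,724),(18,10609)],.leaf [(0,39),(3,124),(6,2),(10,67)]⟩,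
⟨⟨⟨-45,-78,-50⟩,⟨22,45,-90⟩,⟨90,-50,-3⟩⟩,true,91,24,.leaf [(1,2472),(5,32),(6,49),(10,721)],.leaf [(1,31827),(5,286),(6,308),(15,7)]⟩,
⟨⟨⟨45,78,-50⟩,⟨22,45,90⟩,⟨90,-50,3⟩⟩,true,91,79,.leaf [(0,33),(1,98),(3,42),(4,1)],.leaf [(0,33),(1,98),(3,42),(4,1)]⟩,
⟨⟨⟨-77,-54,-42⟩,⟨18,-77,66⟩,⟨-66,42,67⟩⟩,true,93,38,.leaf [(0,23),(1,18),(3,90),(4,1)],.leaf [(0,23),(1,18),(3,90),(4,1)]⟩,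
⟨⟨⟨-77,-54,42⟩,⟨18,-77,-66⟩,⟨66,-42,67⟩⟩,true,93,65,.leaf [(2,4635),(6,57),(11,412),(15,4)],.leaf [(0,30),(2,95),(6,1),(10,6)]⟩,
⟨⟨⟨13,102,6⟩,⟨-66,13,-78⟩,⟨-78,6,67⟩⟩,true,95,48,.leaf [(2,21218),(4,39),(7,124),(14,67)],.leaf [(0,273),(2,86),(7,4),(10,73)]⟩,
⟨⟨⟨13,102,-6⟩,⟨-66,13,78⟩,⟨78,-6,67⟩⟩,true,95,55,.leaf [(0,47),(1,84),(2,42),(4,1)],.leaf [(0,47),(1,84),(2,42),(4,1)]⟩,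
⟨⟨⟨13,-78,66⟩,⟨6,67,78⟩,⟨-102,-6,13⟩⟩,true,97,13,.leaf [(0,72),(1,5),(3,48),(5,1)],.leaf [(0,72),(1,5),(3,48),(5,1)]⟩,
⟨⟨⟨13,-78,-66⟩,⟨6,67,-78⟩,⟨102,6,13⟩⟩,true,97,90,.leaf [(5,1890),(7,1578),(14,581),(18,10609)],.leaf [(1,89),(2,42),(5,1),(10,42)]⟩,
⟨⟨⟨3,94,42⟩,⟨102,3,-14⟩,⟨-14,42,-93⟩⟩,true,100,14,.leaf [(0,1339),(3,2472),(4,33),(5,32)],.leaf [(0,1339),(3,2472),(4,33),(5,32)]⟩,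
⟨⟨⟨3,94,-42⟩,⟨-102,-3,-14⟩,⟨-14,42,93⟩⟩,true,100,89,.leaf [(0,10),(1,28),(2,87),(4,1)],.leaf [(0,10),(1,28),(2,87),(4,1)]⟩,
⟨⟨⟨-45,90,22⟩,⟨-50,-3,-90⟩,⟨-78,-50,45⟩⟩,true,101,43,.leaf [(0,87),(1,30),(3,38),(6,1)],.leaf [(0,87),(1,30),(3,38),(6,1)]⟩,
⟨⟨⟨45,-90,22⟩,⟨-50,-3,90⟩,⟨-78,-50,-45⟩⟩,true,101,60,.leaf [(1,824),(3,7725),(4,40),(5,87)],.leaf [(1,824),(3,7725),(4,40),(5,87)]⟩]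

theorem primeOk_103 : PrimeOk 103 := primeOk (by norm_num) (by norm_num) (by norm_num) L103
  (by decide +kernel) (by decide +kernel)

def L181 : List Cls := [
⟨⟨⟨181,0,0⟩,⟨0,19,180⟩,⟨0,-180,19⟩⟩,false,0,19,.leaf [(1,18824),(4,152),(6,29),(10,3439)],.leaf [(1,130682),(3,362),(4,701),(14,19)]⟩,
⟨⟨⟨181,0,0⟩,⟨0,19,-180⟩,⟨0,180,19⟩⟩,false,0,162,.leaf [(0,18824),(5,152),(7,29),(11,3439)],.leaf [(0,126881),(5,722),(7,2),(10,3439)]⟩,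
⟨⟨⟨19,0,180⟩,⟨0,181,0⟩,⟨-180,0,19⟩⟩,true,0,19,.R (.leaf [(0,108),(3,117),(18,20),(27,1)]) (.leaf [(0,189),(3,144),(18,32),(26,1)]) (.leaf [(5,108),(6,117),(23,20),(30,1)]),.leaf [(3,692868),(5,3753),(10,27512),(23,19)]⟩,
⟨⟨⟨19,0,-180⟩,⟨0,181,0⟩,⟨180,0,19⟩⟩,true,0,162,.leaf [(1,1686),(2,95),(7,10),(18,19)],.leaf [(1,884547),(7,5259),(14,209),(22,19)]⟩,
⟨⟨⟨109,-144,12⟩,⟨-144,-107,24⟩,⟨-12,-24,-179⟩⟩,true,2,30,.leaf [(1,29141),(2,8688),(4,216),(5,139)],.leaf [(1,29141),(2,8688),(4,216),(5,139)]⟩,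
⟨⟨⟨109,-144,-12⟩,⟨-144,-107,-24⟩,⟨12,24,-179⟩⟩,true,2,151,.leaf [(0,168),(1,119),(3,48),(5,1)],.leaf [(0,168),(1,119),(3,48),(5,1)]⟩,
⟨⟨⟨-179,12,24⟩,⟨-12,109,-144⟩,⟨-24,-144,-107⟩⟩,true,6,12,.leaf [(1,9231),(3,19910),(7,70),(15,33)],.leaf [(1,2160),(3,2769),(10,1288),(23,1)]⟩,
⟨⟨⟨-179,12,-24⟩,⟨-12,109,144⟩,⟨24,144,-107⟩⟩,true,6,169,.leaf [(0,905),(1,2172),(4,7),(5,12)],.leaf [(0,905),(1,2172),(4,7),(5,12)]⟩,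
⟨⟨⟨21,168,64⟩,⟨-152,51,-84⟩,⟨-96,-44,147⟩⟩,true,8,72,.leaf [(0,185),(1,20),(2,34),(6,1)],.leaf [(0,185),(1,20),(2,34),(6,1)]⟩,
⟨⟨⟨-21,-168,64⟩,⟨-152,51,84⟩,⟨-96,-44,-147⟩⟩,true,8,109,.leaf [(1,6),(2,124),(3,205),(5,1)],.leaf [(1,6),(2,124),(3,205),(5,1)]⟩,
⟨⟨⟨51,-84,-152⟩,⟨-44,147,-96⟩,⟨168,64,21⟩⟩,true,9,68,.leaf [(2,32761),(4,48),(5,232),(6,151)],.leaf [(2,32761),(4,48),(5,232),(6,151)]⟩,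
⟨⟨⟨-51,84,-152⟩,⟨-44,147,96⟩,⟨168,64,-21⟩⟩,true,9,113,.leaf [(1,1267),(3,1629),(4,11),(6,3)],.leaf [(1,1267),(3,1629),(4,11),(6,3)]⟩,
⟨⟨⟨21,-152,-96⟩,⟨168,51,-44⟩,⟨64,-84,147⟩⟩,true,10,73,.leaf [(0,186),(1,51),(2,50),(7,1)],.leaf [(0,186),(1,51),(2,50),(7,1)]⟩,
⟨⟨⟨21,-152,96⟩,⟨-168,-51,-44⟩,⟨64,-84,-147⟩⟩,true,10,108,.leaf [(0,68),(1,177),(3,66),(5,1)],.leaf [(0,68),(1,177),(3,66),(5,1)]⟩,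
⟨⟨⟨75,-80,-144⟩,⟨144,-45,100⟩,⟨-80,-156,45⟩⟩,true,11,56,.leaf [(1,19005),(3,35114),(4,236),(7,35)],.leaf [(1,19005),(3,35114),(4,236),(7,35)]⟩,
⟨⟨⟨75,-80,144⟩,⟨-144,45,100⟩,⟨-80,-156,-45⟩⟩,true,11,125,.leaf [(1,1991),(3,11041),(5,59),(7,19)],.leaf [(1,1991),(3,11041),(5,59),(7,19)]⟩,
⟨⟨⟨-179,24,12⟩,⟨-24,-107,-144⟩,⟨-12,-144,109⟩⟩,true,12,6,.leaf [(0,9231),(2,19910),(6,70),(14,33)],.leaf [(0,13756),(4,143),(6,12),(10,5973)]⟩,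
⟨⟨⟨-179,24,-12⟩,⟨-24,-107,144⟩,⟨12,144,109⟩⟩,true,12,175,.leaf [(0,131),(1,66),(3,90),(4,1)],.leaf [(0,131),(1,66),(3,90),(4,1)]⟩,
⟨⟨⟨91,-84,132⟩,⟨156,37,-84⟩,⟨12,156,91⟩⟩,true,13,83,.leaf [(0,180),(1,41),(2,60),(5,1)],.leaf [(0,180),(1,41),(2,60),(5,1)]⟩,
⟨⟨⟨91,-84,-132⟩,⟨156,37,84⟩,⟨-12,-156,91⟩⟩,true,13,98,.leaf [(3,19548),(4,81),(18,1267),(22,2)],.leaf [(3,97740),(6,513),(10,29141),(14,10)]⟩,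
⟨⟨⟨37,156,-84⟩,⟨-84,91,132⟩,⟨156,12,91⟩⟩,true,14,76,.leaf [(0,65),(1,201),(3,15),(4,1)],.leaf [(0,65),(1,201),(3,15),(4,1)]⟩,
⟨⟨⟨37,156,84⟩,⟨-84,91,-132⟩,⟨-156,-12,91⟩⟩,true,14,105,.leaf [(0,102),(2,94),(3,521),(15,1)],.leaf [(2,71),(3,117),(7,1),(10,73)]⟩,
⟨⟨⟨-107,24,144⟩,⟨-24,-179,12⟩,⟨144,-12,109⟩⟩,true,15,90,.leaf [(2,32761),(4,126),(5,132),(6,77)],.leaf [(2,32761),(4,126),(5,132),(6,77)]⟩,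
⟨⟨⟨-107,24,-144⟩,⟨-24,-179,-12⟩,⟨-144,12,109⟩⟩,true,15,91,.leaf [(0,203),(1,126),(3,6),(4,1)],.leaf [(0,203),(1,126),(3,6),(4,1)]⟩,
⟨⟨⟨-51,168,-44⟩,⟨-152,-21,96⟩,⟨84,64,147⟩⟩,true,18,47,.leaf [(0,114),(1,140),(2,75),(4,1)],.leaf [(0,114),(1,140),(2,75),(4,1)]⟩,
⟨⟨⟨51,-168,-44⟩,⟨-152,-21,-96⟩,⟨84,64,-147⟩⟩,true,18,134,.leaf [(0,151),(1,103),(2,81),(5,1)],.leaf [(0,151),(1,103),(2,81),(5,1)]⟩,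
⟨⟨⟨19,180,0⟩,⟨-180,19,0⟩,⟨0,0,181⟩⟩,true,19,0,.leaf [(1,76),(2,1705),(4,10),(18,19)],.leaf [(1,76),(2,142),(4,1),(10,19)]⟩,
⟨⟨⟨-147,-44,96⟩,⟨-84,-51,-152⟩,⟨64,-168,21⟩⟩,true,20,88,.leaf [(2,42716),(3,24435),(5,6),(7,205)],.leaf [(2,42716),(3,24435),(5,6),(7,205)]⟩,
⟨⟨⟨-147,-44,-96⟩,⟨84,51,-152⟩,⟨64,-168,-21⟩⟩,true,20,93,.leaf [(0,98283),(4,250),(7,92),(14,151)],.leaf [(0,141),(2,590),(7,4),(10,117)]⟩,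
⟨⟨⟨19,-144,-108⟩,⟨144,-53,96⟩,⟨-108,-96,109⟩⟩,true,21,61,.leaf [(0,181),(3,2172),(4,11),(6,6)],.leaf [(0,181),(3,2172),(4,11),(6,6)]⟩,
⟨⟨⟨19,-144,108⟩,⟨144,-53,-96⟩,⟨108,96,109⟩⟩,true,21,120,.leaf [(0,1086),(2,1991),(5,12),(6,1)],.leaf [(0,1086),(2,1991),(5,12),(6,1)]⟩,
⟨⟨⟨-117,24,136⟩,⟨136,51,108⟩,⟨-24,172,-51⟩⟩,true,23,70,.leaf [(0,121),(1,187),(2,27),(5,1)],.leaf [(0,121),(1,187),(2,27),(5,1)]⟩,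
⟨⟨⟨117,-24,136⟩,⟨136,51,-108⟩,⟨-24,172,51⟩⟩,true,23,111,.leaf [(0,196),(1,70),(3,15),(5,1)],.leaf [(0,196),(1,70),(3,15),(5,1)]⟩,
⟨⟨⟨91,12,-156⟩,⟨132,91,84⟩,⟨84,-156,37⟩⟩,true,24,50,.leaf [(3,73848),(4,684),(10,27331),(14,49)],.leaf [(1,393132),(4,4683),(15,1180),(22,77)]⟩,
⟨⟨⟨91,12,156⟩,⟨132,91,-84⟩,⟨-84,156,37⟩⟩,true,24,131,.leaf [(0,144),(1,44),(3,75),(5,1)],.leaf [(0,144),(1,44),(3,75),(5,1)]⟩,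
⟨⟨⟨109,12,-144⟩,⟨-12,-179,-24⟩,⟨-144,24,-107⟩⟩,true,30,2,.leaf [(0,95),(1,120),(2,96),(4,1)],.leaf [(0,95),(1,120),(2,96),(4,1)]⟩,
⟨⟨⟨109,12,144⟩,⟨-12,-179,24⟩,⟨144,-24,-107⟩⟩,true,30,179,.leaf [(0,905),(1,2172),(4,7),(5,12)],.leaf [(0,905),(1,2172),(4,7),(5,12)]⟩,
⟨⟨⟨-45,144,100⟩,⟨-80,75,-144⟩,⟨-156,-80,45⟩⟩,true,33,38,.leaf [(0,194),(1,44),(2,25),(6,1)],.leaf [(0,194),(1,44),(2,25),(6,1)]⟩,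
⟨⟨⟨45,-144,100⟩,⟨-80,75,144⟩,⟨-156,-80,-45⟩⟩,true,33,143,.leaf [(0,64),(1,4),(3,141),(5,1)],.leaf [(0,64),(1,4),(3,141),(5,1)]⟩,
⟨⟨⟨-45,100,144⟩,⟨-156,45,-80⟩,⟨-80,-144,75⟩⟩,true,38,33,.leaf [(0,44),(1,194),(3,25),(7,1)],.leaf [(0,44),(1,194),(3,25),(7,1)]⟩,
⟨⟨⟨-45,100,-144⟩,⟨156,-45,-80⟩,⟨-80,-144,-75⟩⟩,true,38,148,.leaf [(0,145),(1,4),(3,60),(4,1)],.leaf [(0,145),(1,4),(3,60),(4,1)]⟩,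
⟨⟨⟨-45,-80,156⟩,⟨-144,-75,-80⟩,⟨100,-144,-45⟩⟩,true,42,81,.leaf [(1,1267),(3,362),(5,7),(7,2)],.leaf [(1,1267),(3,362),(5,7),(7,2)]⟩,
⟨⟨⟨-45,-80,-156⟩,⟨144,75,-80⟩,⟨100,-144,45⟩⟩,true,42,100,.leaf [(0,98283),(4,277),(7,452),(14,70)],.leaf [(0,44526),(4,169),(7,344),(10,6335)]⟩,
⟨⟨⟨-53,96,144⟩,⟨-96,109,-108⟩,⟨-144,-108,19⟩⟩,true,46,69,.leaf [(0,232),(1,157),(3,400),(15,1)],.leaf [(1,4428),(3,2643),(10,2032),(23,1)]⟩,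
⟨⟨⟨-53,96,-144⟩,⟨-96,109,108⟩,⟨144,108,19⟩⟩,true,46,112,.leaf [(1,32761),(4,204),(5,119),(7,6)],.leaf [(1,32761),(4,204),(5,119),(7,6)]⟩,
⟨⟨⟨-51,-44,168⟩,⟨84,147,64⟩,⟨-152,96,-21⟩⟩,true,47,18,.leaf [(0,140),(1,114),(3,75),(5,1)],.leaf [(0,140),(1,114),(3,75),(5,1)]⟩,
⟨⟨⟨-51,-44,-168⟩,⟨-84,-147,64⟩,⟨-152,96,21⟩⟩,true,47,163,.leaf [(0,103),(1,184),(3,48),(4,1)],.leaf [(0,103),(1,184),(3,48),(4,1)]⟩,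
⟨⟨⟨165,-44,-60⟩,⟨-60,-165,-44⟩,⟨-44,60,-165⟩⟩,true,48,49,.leaf [(1,724),(2,2715),(4,19),(5,4)],.leaf [(1,724),(2,2715),(4,19),(5,4)]⟩,
⟨⟨⟨165,-44,60⟩,⟨60,165,-44⟩,⟨-44,60,165⟩⟩,true,48,132,.leaf [(0,2896),(3,19005),(5,44),(7,105)],.leaf [(0,2896),(3,19005),(5,44),(7,105)]⟩,
⟨⟨⟨165,-60,-44⟩,⟨-44,-165,60⟩,⟨-60,-44,-165⟩⟩,true,49,48,.leaf [(1,104),(2,105),(4,1)],.leaf [(1,104),(2,105),(4,1)]⟩,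
⟨⟨⟨-165,60,-44⟩,⟨-44,-165,-60⟩,⟨-60,-44,165⟩⟩,true,49,133,.leaf [(0,2353),(2,362),(4,13),(6,2)],.leaf [(0,2353),(2,362),(4,13),(6,2)]⟩,
⟨⟨⟨91,-156,12⟩,⟨84,37,-156⟩,⟨132,84,91⟩⟩,true,50,24,.leaf [(2,73848),(5,684),(11,27331),(15,49)],.leaf [(0,319),(2,562),(5,4),(10,79)]⟩,
⟨⟨⟨91,-156,-12⟩,⟨84,37,156⟩,⟨-132,-84,91⟩⟩,true,50,157,.leaf [(3,32761),(4,101),(5,41),(6,139)],.leaf [(3,32761),(4,101),(5,41),(6,139)]⟩,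
⟨⟨⟨75,-144,-80⟩,⟨-80,45,-156⟩,⟨144,100,-45⟩⟩,true,56,11,.leaf [(0,19005),(2,35114),(5,236),(6,35)],.leaf [(0,19005),(2,35114),(5,236),(6,35)]⟩,
⟨⟨⟨-75,144,-80⟩,⟨-80,45,156⟩,⟨144,100,45⟩⟩,true,56,170,.leaf [(0,99),(1,170),(3,66),(4,1)],.leaf [(0,99),(1,170),(3,66),(4,1)]⟩,
⟨⟨⟨109,96,108⟩,⟨-96,-53,144⟩,⟨108,-144,19⟩⟩,true,59,89,.leaf [(1,6516),(2,16109),(4,111),(6,10)],.leaf [(1,6516),(2,16109),(4,111),(6,10)]⟩,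
⟨⟨⟨109,96,-108⟩,⟨-96,-53,-144⟩,⟨-108,144,19⟩⟩,true,59,92,.leaf [(0,1810),(2,20091),(4,89),(7,36)],.leaf [(0,1810),(2,20091),(4,89),(7,36)]⟩,
⟨⟨⟨19,-108,-144⟩,⟨-108,109,-96⟩,⟨144,96,-53⟩⟩,true,61,21,.leaf [(1,181),(2,2172),(5,11),(7,6)],.leaf [(1,181),(2,2172),(5,11),(7,6)]⟩,
⟨⟨⟨19,-108,144⟩,⟨-108,109,96⟩,⟨-144,-96,-53⟩⟩,true,61,160,.leaf [(0,12),(1,23),(3,174),(5,1)],.leaf [(0,12),(1,23),(3,174),(5,1)]⟩,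
⟨⟨⟨147,64,-84⟩,⟨-96,21,-152⟩,⟨-44,168,51⟩⟩,true,62,77,.leaf [(4,2733),(5,2736),(14,964),(18,32761)],.leaf [(2,3439),(4,35),(5,36),(10,1810)]⟩,
⟨⟨⟨147,64,84⟩,⟨96,-21,-152⟩,⟨-44,168,-51⟩⟩,true,62,104,.leaf [(0,80),(2,24),(3,135),(5,1)],.leaf [(0,80),(2,24),(3,135),(5,1)]⟩,
⟨⟨⟨51,136,108⟩,⟨24,-117,136⟩,⟨172,-24,-51⟩⟩,true,63,66,.leaf [(0,99),(2,154),(3,28),(4,1)],.leaf [(0,99),(2,154),(3,28),(4,1)]⟩,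
⟨⟨⟨51,136,-108⟩,⟨-24,117,136⟩,⟨172,-24,51⟩⟩,true,63,115,.leaf [(0,19),(1,169),(3,75),(4,1)],.leaf [(0,19),(1,169),(3,75),(4,1)]⟩,
⟨⟨⟨51,108,136⟩,⟨172,-51,-24⟩,⟨24,136,-117⟩⟩,true,66,63,.leaf [(2,1991),(3,3620),(4,9),(5,20)],.leaf [(2,1991),(3,3620),(4,9),(5,20)]⟩,
⟨⟨⟨-51,-108,136⟩,⟨172,-51,24⟩,⟨24,136,117⟩⟩,true,66,118,.leaf [(0,94),(1,19),(2,150),(5,1)],.leaf [(0,94),(1,19),(2,150),(5,1)]⟩,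
⟨⟨⟨51,-152,-84⟩,⟨168,21,64⟩,⟨-44,-96,147⟩⟩,true,68,9,.leaf [(3,32761),(4,232),(5,48),(7,151)],.leaf [(3,32761),(4,232),(5,48),(7,151)]⟩,
⟨⟨⟨51,-152,84⟩,⟨-168,-21,64⟩,⟨-44,-96,-147⟩⟩,true,68,172,.leaf [(0,56),(1,96),(3,135),(5,1)],.leaf [(0,56),(1,96),(3,135),(5,1)]⟩,
⟨⟨⟨-53,144,96⟩,⟨-144,19,-108⟩,⟨-96,-108,109⟩⟩,true,69,46,.leaf [(0,157),(1,232),(2,400),(14,1)],.leaf [(1,136),(2,40),(4,1),(10,85)]⟩,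
⟨⟨⟨-53,144,-96⟩,⟨-144,19,108⟩,⟨96,108,109⟩⟩,true,69,135,.leaf [(0,119),(1,204),(2,6),(4,1)],.leaf [(0,119),(1,204),(2,6),(4,1)]⟩,
⟨⟨⟨-117,136,24⟩,⟨-24,-51,172⟩,⟨136,108,51⟩⟩,true,70,23,.leaf [(0,187),(1,121),(3,27),(4,1)],.leaf [(0,187),(1,121),(3,27),(4,1)]⟩,
⟨⟨⟨-117,136,-24⟩,⟨24,51,172⟩,⟨136,108,-51⟩⟩,true,70,158,.leaf [(0,85),(1,70),(3,126),(4,1)],.leaf [(0,85),(1,70),(3,126),(4,1)]⟩,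
⟨⟨⟨21,64,168⟩,⟨-96,147,-44⟩,⟨-152,-84,51⟩⟩,true,72,8,.leaf [(0,20),(1,185),(3,34),(7,1)],.leaf [(0,20),(1,185),(3,34),(7,1)]⟩,
⟨⟨⟨21,64,-168⟩,⟨96,-147,-44⟩,⟨-152,-84,-51⟩⟩,true,72,173,.leaf [(0,205),(1,124),(2,6),(4,1)],.leaf [(0,205),(1,124),(2,6),(4,1)]⟩,
⟨⟨⟨21,-96,-152⟩,⟨64,147,-84⟩,⟨168,-44,51⟩⟩,true,73,10,.leaf [(0,51),(1,186),(3,50),(6,1)],.leaf [(0,51),(1,186),(3,50),(6,1)]⟩,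
⟨⟨⟨-21,96,-152⟩,⟨64,147,84⟩,⟨168,-44,-51⟩⟩,true,73,171,.leaf [(1,7059),(3,13213),(4,81),(6,17)],.leaf [(1,7059),(3,13213),(4,81),(6,17)]⟩,
⟨⟨⟨51,24,172⟩,⟨136,-117,-24⟩,⟨108,136,-51⟩⟩,true,75,85,.leaf [(2,35476),(3,30589),(4,84),(5,211)],.leaf [(2,35476),(3,30589),(4,84),(5,211)]⟩,
⟨⟨⟨-51,-24,172⟩,⟨136,-117,24⟩,⟨108,136,51⟩⟩,true,75,96,.leaf [(2,19910),(3,8507),(4,30),(5,107)],.leaf [(2,19910),(3,8507),(4,30),(5,107)]⟩,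
⟨⟨⟨37,-84,156⟩,⟨156,91,12⟩,⟨-84,132,91⟩⟩,true,76,14,.leaf [(0,201),(1,65),(2,15),(5,1)],.leaf [(0,201),(1,65),(2,15),(5,1)]⟩,
⟨⟨⟨37,-84,-156⟩,⟨156,91,-12⟩,⟨84,-132,91⟩⟩,true,76,167,.leaf [(0,909),(3,204),(10,203),(14,2)],.leaf [(1,1026),(3,39),(10,316),(15,1)]⟩,
⟨⟨⟨147,-84,64⟩,⟨-44,51,168⟩,⟨-96,-152,21⟩⟩,true,77,62,.leaf [(4,4095),(5,795),(15,1007),(18,32761)],.leaf [(3,6516),(5,36),(10,1267),(14,5)]⟩,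
⟨⟨⟨-147,84,64⟩,⟨-44,51,-168⟩,⟨-96,-152,-21⟩⟩,true,77,119,.leaf [(0,135),(1,24),(3,80),(6,1)],.leaf [(0,135),(1,24),(3,80),(6,1)]⟩,
⟨⟨⟨-45,156,-80⟩,⟨100,-45,-144⟩,⟨-144,-80,-75⟩⟩,true,81,42,.leaf [(0,1267),(2,362),(4,7),(6,2)],.leaf [(0,1267),(2,362),(4,7),(6,2)]⟩,
⟨⟨⟨45,-156,-80⟩,⟨100,-45,144⟩,⟨-144,-80,75⟩⟩,true,81,139,.leaf [(4,2043),(5,102),(15,986),(18,32761)],.leaf [(3,24797),(4,18),(5,193),(10,12670)]⟩,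
⟨⟨⟨91,132,-84⟩,⟨12,91,156⟩,⟨156,-84,37⟩⟩,true,83,13,.leaf [(0,41),(1,180),(3,60),(4,1)],.leaf [(0,41),(1,180),(3,60),(4,1)]⟩,
⟨⟨⟨91,132,84⟩,⟨12,91,-156⟩,⟨-156,84,37⟩⟩,true,83,168,.leaf [(0,131044),(5,319),(7,562),(15,79)],.leaf [(0,98645),(5,302),(7,590),(10,14299)]⟩,
⟨⟨⟨51,172,24⟩,⟨108,-51,136⟩,⟨136,-24,-117⟩⟩,true,85,75,.leaf [(0,196),(1,112),(2,27),(4,1)],.leaf [(0,196),(1,112),(2,27),(4,1)]⟩,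
⟨⟨⟨51,172,-24⟩,⟨-108,51,136⟩,⟨136,-24,117⟩⟩,true,85,106,.leaf [(0,61),(1,160),(2,60),(4,1)],.leaf [(0,61),(1,160),(2,60),(4,1)]⟩,
⟨⟨⟨-147,96,-44⟩,⟨64,21,-168⟩,⟨-84,-152,-51⟩⟩,true,88,20,.leaf [(2,24435),(3,42716),(4,6),(6,205)],.leaf [(2,24435),(3,42716),(4,6),(6,205)]⟩,
⟨⟨⟨147,-96,-44⟩,⟨64,21,168⟩,⟨-84,-152,51⟩⟩,true,88,161,.leaf [(3,65522),(4,615),(5,670),(14,151)],.leaf [(1,5643),(3,3642),(10,2068),(23,1)]⟩,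
⟨⟨⟨109,108,96⟩,⟨108,19,-144⟩,⟨-96,144,-53⟩⟩,true,89,59,.leaf [(0,6516),(3,16109),(5,111),(7,10)],.leaf [(0,6516),(3,16109),(5,111),(7,10)]⟩,
⟨⟨⟨109,108,-96⟩,⟨108,19,144⟩,⟨96,-144,-53⟩⟩,true,89,122,.leaf [(0,89),(1,165),(3,75),(4,1)],.leaf [(0,89),(1,165),(3,75),(4,1)]⟩,
⟨⟨⟨-107,144,24⟩,⟨144,109,-12⟩,⟨-24,12,-179⟩⟩,true,90,15,.leaf [(3,32761),(4,132),(5,126),(7,77)],.leaf [(3,32761),(4,132),(5,126),(7,77)]⟩,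
⟨⟨⟨-107,144,-24⟩,⟨144,109,12⟩,⟨24,-12,-179⟩⟩,true,90,166,.leaf [(3,32761),(4,156),(5,90),(7,65)],.leaf [(3,32761),(4,156),(5,90),(7,65)]⟩,
⟨⟨⟨-107,-144,24⟩,⟨-144,109,12⟩,⟨-24,-12,-179⟩⟩,true,91,15,.leaf [(0,126),(1,203),(2,6),(5,1)],.leaf [(0,126),(1,203),(2,6),(5,1)]⟩,
⟨⟨⟨-107,-144,-24⟩,⟨-144,109,-12⟩,⟨24,12,-179⟩⟩,true,91,166,.leaf [(0,90),(1,155),(2,66),(5,1)],.leaf [(0,90),(1,155),(2,66),(5,1)]⟩,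
⟨⟨⟨109,-108,96⟩,⟨-108,19,144⟩,⟨-96,-144,-53⟩⟩,true,92,59,.leaf [(1,1810),(3,20091),(5,89),(6,36)],.leaf [(1,1810),(3,20091),(5,89),(6,36)]⟩,
⟨⟨⟨109,-108,-96⟩,⟨-108,19,-144⟩,⟨96,144,-53⟩⟩,true,92,122,.leaf [(0,16109),(2,22987),(5,149),(7,43)],.leaf [(0,16109),(2,22987),(5,149),(7,43)]⟩,
⟨⟨⟨-147,-96,-44⟩,⟨64,-21,-168⟩,⟨84,-152,51⟩⟩,true,93,20,.leaf [(1,98283),(5,250),(6,92),(15,151)],.leaf [(1,1809),(3,1251),(10,683),(14,1)]⟩,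
⟨⟨⟨147,96,-44⟩,⟨64,-21,168⟩,⟨84,-152,-51⟩⟩,true,93,161,.leaf [(0,117),(1,206),(3,6),(4,1)],.leaf [(0,117),(1,206),(3,6),(4,1)]⟩,
⟨⟨⟨-51,172,-24⟩,⟨108,51,136⟩,⟨136,24,-117⟩⟩,true,96,75,.leaf [(0,121),(1,61),(3,99),(4,1)],.leaf [(0,121),(1,61),(3,99),(4,1)]⟩,
⟨⟨⟨-51,172,24⟩,⟨-108,-51,136⟩,⟨136,24,117⟩⟩,true,96,106,.leaf [(0,139),(1,112),(2,84),(4,1)],.leaf [(0,139),(1,112),(2,84),(4,1)]⟩,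
⟨⟨⟨91,-132,-84⟩,⟨-12,91,-156⟩,⟨156,84,37⟩⟩,true,98,13,.leaf [(2,909),(11,76),(14,2),(18,19)],.leaf [(2,521),(5,3),(7,1),(10,79)]⟩,
⟨⟨⟨91,-132,84⟩,⟨-12,91,156⟩,⟨-156,-84,37⟩⟩,true,98,168,.leaf [(3,32761),(4,44),(5,119),(6,100)],.leaf [(3,32761),(4,44),(5,119),(6,100)]⟩,
⟨⟨⟨-45,-156,-80⟩,⟨100,45,-144⟩,⟨144,-80,75⟩⟩,true,100,42,.leaf [(1,98283),(5,277),(6,452),(15,70)],.leaf [(1,317655),(5,1179),(10,119822),(14,58)]⟩,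
⟨⟨⟨45,156,-80⟩,⟨100,45,144⟩,⟨144,-80,-75⟩⟩,true,100,139,.leaf [(0,111),(1,140),(3,84),(4,1)],.leaf [(0,111),(1,140),(3,84),(4,1)]⟩,
⟨⟨⟨147,84,64⟩,⟨-44,-51,168⟩,⟨96,-152,-21⟩⟩,true,104,62,.leaf [(1,80),(2,135),(3,24),(4,1)],.leaf [(1,80),(2,135),(3,24),(4,1)]⟩,
⟨⟨⟨-147,-84,64⟩,⟨-44,-51,-168⟩,⟨96,-152,21⟩⟩,true,104,119,.leaf [(1,6516),(3,6697),(5,8),(15,17)],.leaf [(1,1620),(3,1260),(10,641),(14,1)]⟩,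
⟨⟨⟨37,84,156⟩,⟨-156,91,-12⟩,⟨-84,-132,91⟩⟩,true,105,14,.leaf [(1,102),(2,521),(3,94),(14,1)],.leaf [(1,54),(3,651),(10,148),(15,1)]⟩,
⟨⟨⟨37,84,-156⟩,⟨-156,91,12⟩,⟨84,132,91⟩⟩,true,105,167,.leaf [(1,905),(2,181),(4,5),(7,1)],.leaf [(1,905),(2,181),(4,5),(7,1)]⟩,
⟨⟨⟨51,-24,172⟩,⟨136,117,-24⟩,⟨-108,136,51⟩⟩,true,106,85,.leaf [(0,160),(1,61),(3,60),(5,1)],.leaf [(0,160),(1,61),(3,60),(5,1)]⟩,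
⟨⟨⟨-51,24,172⟩,⟨136,117,24⟩,⟨-108,136,-51⟩⟩,true,106,96,.leaf [(0,112),(1,139),(3,84),(5,1)],.leaf [(0,112),(1,139),(3,84),(5,1)]⟩,
⟨⟨⟨21,96,-152⟩,⟨64,-147,-84⟩,⟨-168,-44,-51⟩⟩,true,108,10,.leaf [(0,177),(1,68),(2,66),(4,1)],.leaf [(0,177),(1,68),(2,66),(4,1)]⟩,
⟨⟨⟨-21,-96,-152⟩,⟨64,-147,84⟩,⟨-168,-44,51⟩⟩,true,108,171,.leaf [(1,50),(2,51),(3,186),(4,1)],.leaf [(1,50),(2,51),(3,186),(4,1)]⟩,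
⟨⟨⟨-21,64,-168⟩,⟨-96,-147,-44⟩,⟨-152,84,51⟩⟩,true,109,8,.leaf [(0,6),(2,205),(3,124),(4,1)],.leaf [(0,6),(2,205),(3,124),(4,1)]⟩,
⟨⟨⟨-21,64,168⟩,⟨96,147,-44⟩,⟨-152,84,-51⟩⟩,true,109,173,.leaf [(0,20),(1,54),(3,165),(5,1)],.leaf [(0,20),(1,54),(3,165),(5,1)]⟩,
⟨⟨⟨117,136,-24⟩,⟨-24,51,172⟩,⟨136,-108,51⟩⟩,true,111,23,.leaf [(0,70),(1,196),(2,15),(4,1)],.leaf [(0,70),(1,196),(2,15),(4,1)]⟩,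
⟨⟨⟨117,136,24⟩,⟨24,-51,172⟩,⟨136,-108,-51⟩⟩,true,111,158,.leaf [(0,121),(1,148),(2,66),(4,1)],.leaf [(0,121),(1,148),(2,66),(4,1)]⟩,
⟨⟨⟨-53,-144,96⟩,⟨144,19,108⟩,⟨-96,108,109⟩⟩,true,112,46,.leaf [(0,32761),(4,119),(5,204),(6,6)],.leaf [(0,32761),(4,119),(5,204),(6,6)]⟩,
⟨⟨⟨-53,-144,-96⟩,⟨144,19,-108⟩,⟨96,-108,109⟩⟩,true,112,135,.leaf [(4,4428),(6,2643),(15,2032),(18,32761)],.leaf [(0,57),(2,17),(6,1),(10,51)]⟩,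
⟨⟨⟨-51,-152,84⟩,⟨168,-21,64⟩,⟨-44,96,147⟩⟩,true,113,9,.leaf [(0,1267),(2,1629),(5,11),(7,3)],.leaf [(0,1267),(2,1629),(5,11),(7,3)]⟩,
⟨⟨⟨-51,-152,-84⟩,⟨-168,21,64⟩,⟨-44,96,-147⟩⟩,true,113,172,.leaf [(1,38915),(3,8688),(4,248),(5,173)],.leaf [(1,38915),(3,8688),(4,248),(5,173)]⟩,
⟨⟨⟨51,-108,136⟩,⟨172,51,-24⟩,⟨-24,136,117⟩⟩,true,115,63,.leaf [(0,169),(1,19),(2,75),(5,1)],.leaf [(0,169),(1,19),(2,75),(5,1)]⟩,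
⟨⟨⟨-51,108,136⟩,⟨172,51,24⟩,⟨-24,136,-117⟩⟩,true,115,118,.leaf [(2,905),(3,2534),(4,9),(5,14)],.leaf [(2,905),(3,2534),(4,9),(5,14)]⟩,
⟨⟨⟨-51,136,-108⟩,⟨24,117,136⟩,⟨172,24,-51⟩⟩,true,118,66,.leaf [(0,19),(1,94),(3,150),(4,1)],.leaf [(0,19),(1,94),(3,150),(4,1)]⟩,
⟨⟨⟨-51,136,108⟩,⟨-24,-117,136⟩,⟨172,24,51⟩⟩,true,118,115,.leaf [(0,154),(1,28),(2,99),(4,1)],.leaf [(0,154),(1,28),(2,99),(4,1)]⟩,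
⟨⟨⟨-147,64,84⟩,⟨-96,-21,-152⟩,⟨-44,-168,51⟩⟩,true,119,77,.leaf [(0,24),(1,135),(2,80),(7,1)],.leaf [(0,24),(1,135),(2,80),(7,1)]⟩,
⟨⟨⟨-147,64,-84⟩,⟨96,21,-152⟩,⟨-44,-168,-51⟩⟩,true,119,104,.leaf [(0,6516),(2,6697),(4,8),(14,17)],.leaf [(0,4344),(4,59),(7,40),(10,2353)]⟩,
⟨⟨⟨19,108,-144⟩,⟨108,109,96⟩,⟨144,-96,-53⟩⟩,true,120,21,.leaf [(1,1086),(3,1991),(4,12),(7,1)],.leaf [(1,1086),(3,1991),(4,12),(7,1)]⟩,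
⟨⟨⟨19,108,144⟩,⟨108,109,-96⟩,⟨-144,96,-53⟩⟩,true,120,160,.leaf [(1,181),(3,3077),(5,17),(7,1)],.leaf [(1,181),(3,3077),(5,17),(7,1)]⟩,
⟨⟨⟨109,-96,108⟩,⟨96,-53,-144⟩,⟨108,144,19⟩⟩,true,122,89,.leaf [(0,165),(1,89),(2,75),(5,1)],.leaf [(0,165),(1,89),(2,75),(5,1)]⟩,
⟨⟨⟨109,-96,-108⟩,⟨96,-53,144⟩,⟨-108,-144,19⟩⟩,true,122,92,.leaf [(1,16109),(3,22987),(4,149),(6,43)],.leaf [(1,16109),(3,22987),(4,149),(6,43)]⟩,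
⟨⟨⟨75,144,-80⟩,⟨-80,-45,-156⟩,⟨-144,100,45⟩⟩,true,125,11,.leaf [(0,1991),(2,11041),(4,59),(6,19)],.leaf [(0,1991),(2,11041),(4,59),(6,19)]⟩,
⟨⟨⟨-75,-144,-80⟩,⟨-80,-45,156⟩,⟨-144,100,-45⟩⟩,true,125,170,.leaf [(1,24254),(3,29865),(4,244),(5,99)],.leaf [(1,24254),(3,29865),(4,244),(5,99)]⟩,
⟨⟨⟨91,156,12⟩,⟨-84,37,156⟩,⟨132,-84,91⟩⟩,true,131,24,.leaf [(0,44),(1,144),(2,75),(4,1)],.leaf [(0,44),(1,144),(2,75),(4,1)]⟩,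
⟨⟨⟨91,156,-12⟩,⟨-84,37,-156⟩,⟨-132,84,91⟩⟩,true,131,157,.leaf [(0,1194),(2,161),(7,4),(18,79)],.leaf [(0,483),(2,398),(7,4),(10,79)]⟩,
⟨⟨⟨165,60,-44⟩,⟨-44,165,60⟩,⟨60,-44,165⟩⟩,true,132,48,.leaf [(1,2896),(2,19005),(4,44),(6,105)],.leaf [(1,2896),(2,19005),(4,44),(6,105)]⟩,
⟨⟨⟨-165,-60,-44⟩,⟨-44,165,-60⟩,⟨60,-44,-165⟩⟩,true,132,133,.leaf [(1,2715),(2,724),(5,19),(6,4)],.leaf [(1,2715),(2,724),(5,19),(6,4)]⟩,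
⟨⟨⟨-165,-44,60⟩,⟨-60,165,-44⟩,⟨-44,-60,-165⟩⟩,true,133,49,.leaf [(1,2353),(3,362),(5,13),(7,2)],.leaf [(1,2353),(3,362),(5,13),(7,2)]⟩,
⟨⟨⟨-165,-44,-60⟩,⟨60,-165,-44⟩,⟨-44,-60,165⟩⟩,true,133,132,.leaf [(0,2715),(3,724),(4,19),(7,4)],.leaf [(0,2715),(3,724),(4,19),(7,4)]⟩,
⟨⟨⟨51,-44,-168⟩,⟨84,-147,64⟩,⟨-152,-96,-21⟩⟩,true,134,18,.leaf [(0,103),(1,151),(3,81),(4,1)],.leaf [(0,103),(1,151),(3,81),(4,1)]⟩,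
⟨⟨⟨51,-44,168⟩,⟨-84,147,64⟩,⟨-152,-96,21⟩⟩,true,134,163,.leaf [(1,905),(3,6697),(5,35),(7,13)],.leaf [(1,905),(3,6697),(5,35),(7,13)]⟩,
⟨⟨⟨-53,-96,144⟩,⟨96,109,108⟩,⟨-144,108,19⟩⟩,true,135,69,.leaf [(0,204),(1,119),(3,6),(5,1)],.leaf [(0,204),(1,119),(3,6),(5,1)]⟩,
⟨⟨⟨-53,-96,-144⟩,⟨96,109,-108⟩,⟨144,-108,19⟩⟩,true,135,112,.leaf [(5,15795),(7,8721),(18,360371),(22,79)],.leaf [(1,1485),(3,480),(10,424),(15,1)]⟩,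
⟨⟨⟨45,-80,-156⟩,⟨-144,75,-80⟩,⟨100,144,-45⟩⟩,true,139,81,.leaf [(4,3183),(5,3816),(14,904),(18,32761)],.leaf [(2,89233),(4,227),(5,612),(10,12670)]⟩,
⟨⟨⟨45,-80,156⟩,⟨144,-75,-80⟩,⟨100,144,45⟩⟩,true,139,100,.leaf [(0,140),(1,111),(2,84),(5,1)],.leaf [(0,140),(1,111),(2,84),(5,1)]⟩,
⟨⟨⟨45,100,-144⟩,⟨-156,-45,-80⟩,⟨-80,144,75⟩⟩,true,143,33,.leaf [(0,4),(1,64),(2,141),(4,1)],.leaf [(0,4),(1,64),(2,141),(4,1)]⟩,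
⟨⟨⟨45,100,144⟩,⟨156,45,-80⟩,⟨-80,144,-75⟩⟩,true,143,148,.leaf [(0,44),(1,69),(3,150),(5,1)],.leaf [(0,44),(1,69),(3,150),(5,1)]⟩,
⟨⟨⟨-45,-144,100⟩,⟨-80,-75,-144⟩,⟨156,-80,-45⟩⟩,true,148,38,.leaf [(0,4),(1,145),(2,60),(5,1)],.leaf [(0,4),(1,145),(2,60),(5,1)]⟩,
⟨⟨⟨45,144,100⟩,⟨-80,-75,144⟩,⟨156,-80,45⟩⟩,true,148,143,.leaf [(0,69),(1,44),(2,150),(4,1)],.leaf [(0,69),(1,44),(2,150),(4,1)]⟩,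
⟨⟨⟨109,-12,-144⟩,⟨12,-179,24⟩,⟨-144,-24,-107⟩⟩,true,151,2,.leaf [(0,119),(1,168),(2,48),(4,1)],.leaf [(0,119),(1,168),(2,48),(4,1)]⟩,
⟨⟨⟨109,-12,144⟩,⟨12,-179,-24⟩,⟨144,24,-107⟩⟩,true,151,179,.leaf [(0,1267),(1,2172),(4,5),(5,12)],.leaf [(0,1267),(1,2172),(4,5),(5,12)]⟩,
⟨⟨⟨91,-12,-156⟩,⟨-132,91,-84⟩,⟨84,156,37⟩⟩,true,157,50,.leaf [(2,32761),(4,41),(5,101),(7,139)],.leaf [(2,32761),(4,41),(5,101),(7,139)]⟩,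
⟨⟨⟨91,-12,156⟩,⟨-132,91,84⟩,⟨-84,-156,37⟩⟩,true,157,131,.leaf [(1,306),(3,87),(15,1),(18,44)],.leaf [(1,1620),(3,540),(10,521),(14,1)]⟩,
⟨⟨⟨-117,-24,136⟩,⟨136,-51,108⟩,⟨24,172,51⟩⟩,true,158,70,.leaf [(0,30589),(3,4887),(4,211),(5,127)],.leaf [(0,30589),(3,4887),(4,211),(5,127)]⟩,
⟨⟨⟨117,24,136⟩,⟨136,-51,-108⟩,⟨24,172,-51⟩⟩,true,158,111,.leaf [(0,148),(1,121),(3,66),(5,1)],.leaf [(0,148),(1,121),(3,66),(5,1)]⟩,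
⟨⟨⟨19,144,-108⟩,⟨-144,-53,-96⟩,⟨-108,96,109⟩⟩,true,160,61,.leaf [(0,23),(1,12),(2,174),(4,1)],.leaf [(0,23),(1,12),(2,174),(4,1)]⟩,
⟨⟨⟨19,144,108⟩,⟨-144,-53,96⟩,⟨108,-96,109⟩⟩,true,160,120,.leaf [(0,181),(2,3077),(4,17),(6,1)],.leaf [(0,181),(2,3077),(4,17),(6,1)]⟩,
⟨⟨⟨147,-44,-96⟩,⟨-84,51,-152⟩,⟨64,168,21⟩⟩,true,161,88,.leaf [(2,65522),(4,670),(5,615),(15,151)],.leaf [(0,473),(2,258),(5,4),(10,117)]⟩,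
⟨⟨⟨147,-44,96⟩,⟨84,-51,-152⟩,⟨64,168,-21⟩⟩,true,161,93,.leaf [(0,206),(1,117),(2,6),(5,1)],.leaf [(0,206),(1,117),(2,6),(5,1)]⟩,
⟨⟨⟨19,-180,0⟩,⟨180,19,0⟩,⟨0,0,181⟩⟩,true,162,0,.R (.leaf [(0,108),(3,117),(18,20),(27,1)]) (.leaf [(0,189),(3,144),(18,32),(26,1)]) (.leaf [(5,108),(6,117),(23,20),(30,1)]),.leaf [(0,303),(3,76),(6,2),(10,19)]⟩,
⟨⟨⟨-51,-168,-44⟩,⟨-152,21,96⟩,⟨-84,64,-147⟩⟩,true,163,47,.leaf [(2,34571),(3,33485),(4,81),(5,215)],.leaf [(2,34571),(3,33485),(4,81),(5,215)]⟩,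
⟨⟨⟨51,168,-44⟩,⟨-152,21,-96⟩,⟨-84,64,147⟩⟩,true,163,134,.leaf [(0,905),(2,6697),(4,35),(6,13)],.leaf [(0,905),(2,6697),(4,35),(6,13)]⟩,
⟨⟨⟨-107,-24,144⟩,⟨24,-179,-12⟩,⟨144,12,109⟩⟩,true,166,90,.leaf [(2,32761),(4,90),(5,156),(6,65)],.leaf [(2,32761),(4,90),(5,156),(6,65)]⟩,
⟨⟨⟨-107,-24,-144⟩,⟨24,-179,12⟩,⟨-144,-12,109⟩⟩,true,166,91,.leaf [(0,155),(1,90),(3,66),(4,1)],.leaf [(0,155),(1,90),(3,66),(4,1)]⟩,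
⟨⟨⟨37,-156,-84⟩,⟨84,91,-132⟩,⟨156,-12,91⟩⟩,true,167,76,.leaf [(1,909),(2,204),(11,203),(15,2)],.leaf [(1,125),(2,69),(5,1),(10,75)]⟩,
⟨⟨⟨37,-156,84⟩,⟨84,91,132⟩,⟨-156,12,91⟩⟩,true,167,105,.leaf [(0,905),(3,181),(5,5),(6,1)],.leaf [(0,905),(3,181),(5,5),(6,1)]⟩,
⟨⟨⟨91,84,132⟩,⟨-156,37,84⟩,⟨12,-156,91⟩⟩,true,168,83,.leaf [(1,131044),(4,319),(6,562),(14,79)],.leaf [(4,4023),(10,131044),(15,1400),(22,77)]⟩,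
⟨⟨⟨91,84,-132⟩,⟨-156,37,-84⟩,⟨-12,156,91⟩⟩,true,168,98,.leaf [(2,32761),(4,119),(5,44),(7,100)],.leaf [(2,32761),(4,119),(5,44),(7,100)]⟩,
⟨⟨⟨-179,-24,12⟩,⟨24,-107,144⟩,⟨-12,144,109⟩⟩,true,169,6,.leaf [(0,83),(1,6),(3,126),(4,1)],.leaf [(0,83),(1,6),(3,126),(4,1)]⟩,
⟨⟨⟨-179,-24,-12⟩,⟨24,-107,-144⟩,⟨12,-144,109⟩⟩,true,169,175,.leaf [(4,2160),(6,2769),(15,1288),(18,32761)],.leaf [(0,12670),(4,143),(6,60),(10,7059)]⟩,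
⟨⟨⟨-75,-80,144⟩,⟨144,45,100⟩,⟨-80,156,45⟩⟩,true,170,56,.leaf [(0,170),(1,99),(2,66),(5,1)],.leaf [(0,170),(1,99),(2,66),(5,1)]⟩,
⟨⟨⟨-75,-80,-144⟩,⟨-144,-45,100⟩,⟨-80,156,-45⟩⟩,true,170,125,.leaf [(1,35114),(3,19005),(4,236),(5,35)],.leaf [(1,35114),(3,19005),(4,236),(5,35)]⟩,
⟨⟨⟨-21,-152,96⟩,⟨168,-51,-44⟩,⟨64,84,147⟩⟩,true,171,73,.leaf [(0,7059),(2,13213),(5,81),(7,17)],.leaf [(0,7059),(2,13213),(5,81),(7,17)]⟩,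
⟨⟨⟨-21,-152,-96⟩,⟨-168,51,-44⟩,⟨64,84,-147⟩⟩,true,171,108,.leaf [(0,50),(2,186),(3,51),(5,1)],.leaf [(0,50),(2,186),(3,51),(5,1)]⟩,
⟨⟨⟨51,84,-152⟩,⟨-44,-147,-96⟩,⟨-168,64,-21⟩⟩,true,172,68,.leaf [(0,96),(1,56),(2,135),(4,1)],.leaf [(0,96),(1,56),(2,135),(4,1)]⟩,
⟨⟨⟨-51,-84,-152⟩,⟨-44,-147,96⟩,⟨-168,64,21⟩⟩,true,172,113,.leaf [(0,63),(1,152),(3,96),(4,1)],.leaf [(0,63),(1,152),(3,96),(4,1)]⟩,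
⟨⟨⟨21,-168,64⟩,⟨-152,-51,-84⟩,⟨96,-44,-147⟩⟩,true,173,72,.leaf [(0,124),(1,205),(3,6),(5,1)],.leaf [(0,124),(1,205),(3,6),(5,1)]⟩,
⟨⟨⟨-21,168,64⟩,⟨-152,-51,84⟩,⟨96,-44,147⟩⟩,true,173,109,.leaf [(0,54),(1,20),(2,165),(4,1)],.leaf [(0,54),(1,20),(2,165),(4,1)]⟩,
⟨⟨⟨-179,-12,24⟩,⟨12,109,144⟩,⟨-24,144,-107⟩⟩,true,175,12,.leaf [(0,1267),(1,2172),(4,5),(5,12)],.leaf [(0,1267),(1,2172),(4,5),(5,12)]⟩,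
⟨⟨⟨-179,-12,-24⟩,⟨12,109,-144⟩,⟨24,-144,-107⟩⟩,true,175,169,.leaf [(5,3753),(7,759),(14,989),(18,32761)],.leaf [(1,1215),(3,660),(10,304),(15,1)]⟩,
⟨⟨⟨109,144,12⟩,⟨144,-107,-24⟩,⟨-12,24,-179⟩⟩,true,179,30,.leaf [(0,27331),(2,16290),(4,191),(5,36)],.leaf [(0,27331),(2,16290),(4,191),(5,36)]⟩,
⟨⟨⟨109,144,-12⟩,⟨144,-107,24⟩,⟨12,-24,-179⟩⟩,true,179,151,.leaf [(0,161),(1,36),(2,90),(4,1)],.leaf [(0,161),(1,36),(2,90),(4,1)]⟩]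

theorem primeOk_181 : PrimeOk 181 := primeOk (by norm_num) (by norm_num) (by norm_num) L181
  (by decide +kernel) (by decide +kernel)

def L257 : List Cls := [
⟨⟨⟨-257,0,0⟩,⟨0,255,-32⟩,⟨0,-32,-255⟩⟩,false,0,16,.leaf [(1,32639),(5,208),(7,49),(10,8224)],.leaf [(3,66049),(5,27),(7,256),(23,4)]⟩,
⟨⟨⟨-257,0,0⟩,⟨0,-255,-32⟩,⟨0,-32,255⟩⟩,false,0,241,.leaf [(0,32639),(4,208),(6,49),(11,8224)],.leaf [(0,63479),(4,256),(6,1),(10,2056)]⟩,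
⟨⟨⟨255,0,-32⟩,⟨0,-257,0⟩,⟨-32,0,-255⟩⟩,true,0,16,.leaf [(0,17),(1,32),(2,240),(4,1)],.leaf [(0,17),(1,32),(2,240),(4,1)]⟩,
⟨⟨⟨-255,0,-32⟩,⟨0,-257,0⟩,⟨-32,0,255⟩⟩,true,0,241,.leaf [(0,257),(1,17),(3,15),(4,1)],.leaf [(0,257),(1,17),(3,15),(4,1)]⟩,
⟨⟨⟨225,-32,-120⟩,⟨-32,225,-120⟩,⟨120,120,193⟩⟩,true,1,68,.leaf [(0,120),(1,240),(2,73),(6,1)],.leaf [(0,120),(1,240),(2,73),(6,1)]⟩,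
⟨⟨⟨225,-32,120⟩,⟨-32,225,120⟩,⟨-120,-120,193⟩⟩,true,1,189,.leaf [(2,771),(6,3),(11,2056),(15,8)],.leaf [(2,11051),(5,80),(6,147),(10,10280)]⟩,
⟨⟨⟨-57,-228,-104⟩,⟨36,-113,228⟩,⟨-248,36,57⟩⟩,true,4,92,.leaf [(1,11308),(3,57825),(4,264),(5,115)],.leaf [(1,11308),(3,57825),(4,264),(5,115)]⟩,
⟨⟨⟨57,228,-104⟩,⟨36,-113,-228⟩,⟨-248,36,-57⟩⟩,true,4,165,.leaf [(2,60),(4,3),(11,272),(18,25)],.leaf [(0,129),(2,181),(4,1),(10,31)]⟩,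
⟨⟨⟨49,-12,-252⟩,⟨-108,231,-32⟩,⟨228,112,39⟩⟩,true,5,105,.leaf [(1,1285),(2,257),(4,1),(7,5)],.leaf [(1,1285),(2,257),(4,1),(7,5)]⟩,
⟨⟨⟨49,-12,252⟩,⟨108,-231,-32⟩,⟨228,112,-39⟩⟩,true,5,152,.leaf [(0,118),(1,291),(2,6),(5,1)],.leaf [(0,118),(1,291),(2,6),(5,1)]⟩,
⟨⟨⟨63,184,-168⟩,⟨-248,63,-24⟩,⟨24,168,193⟩⟩,true,7,83,.leaf [(1,49344),(2,43433),(4,312),(6,23)],.leaf [(1,49344),(2,43433),(4,312),(6,23)]⟩,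
⟨⟨⟨63,184,168⟩,⟨-248,63,24⟩,⟨-24,-168,193⟩⟩,true,7,174,.leaf [(2,1365),(4,18),(11,772),(18,455)],.leaf [(0,168),(2,31),(6,1),(10,48)]⟩,
⟨⟨⟨207,-36,148⟩,⟨-132,-167,144⟩,⟨76,-192,-153⟩⟩,true,11,69,.leaf [(0,514),(1,23387),(4,98),(5,79)],.leaf [(0,514),(1,23387),(4,98),(5,79)]⟩,
⟨⟨⟨-207,36,148⟩,⟨-132,-167,-144⟩,⟨76,-192,153⟩⟩,true,11,188,.leaf [(0,156),(1,294),(3,7),(7,1)],.leaf [(0,156),(1,294),(3,7),(7,1)]⟩,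
⟨⟨⟨-39,-32,-252⟩,⟨112,-231,12⟩,⟨-228,-108,49⟩⟩,true,14,46,.leaf [(0,43),(2,156),(3,264),(4,1)],.leaf [(0,43),(2,156),(3,264),(4,1)]⟩,
⟨⟨⟨-39,-32,252⟩,⟨112,-231,-12⟩,⟨228,108,49⟩⟩,true,14,211,.leaf [(0,18761),(2,58596),(4,203),(5,264)],.leaf [(0,18761),(2,58596),(4,203),(5,264)]⟩,
⟨⟨⟨-167,-192,-36⟩,⟨144,-153,148⟩,⟨-132,76,207⟩⟩,true,15,51,.leaf [(0,66049),(4,240),(5,208),(6,57)],.leaf [(0,66049),(4,240),(5,208),(6,57)]⟩,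
⟨⟨⟨-167,-192,36⟩,⟨-144,153,148⟩,⟨-132,76,-207⟩⟩,true,15,206,.leaf [(1,5),(2,268),(3,238),(5,1)],.leaf [(1,5),(2,268),(3,238),(5,1)]⟩,
⟨⟨⟨255,-32,0⟩,⟨-32,-255,0⟩,⟨0,0,-257⟩⟩,true,16,0,.leaf [(1,514),(2,3855),(4,17),(5,2)],.leaf [(1,514),(2,3855),(4,17),(5,2)]⟩,
⟨⟨⟨135,-140,-168⟩,⟨-140,-207,60⟩,⟨-168,60,-185⟩⟩,true,18,73,.leaf [(0,10),(1,228),(2,57),(4,1)],.leaf [(0,10),(1,228),(2,57),(4,1)]⟩,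
⟨⟨⟨135,-140,168⟩,⟨-140,-207,-60⟩,⟨168,-60,-185⟩⟩,true,18,184,.leaf [(0,2056),(1,4883),(4,8),(5,19)],.leaf [(0,2056),(1,4883),(4,8),(5,19)]⟩,
⟨⟨⟨-113,-204,108⟩,⟨108,-153,-176⟩,⟨204,-32,153⟩⟩,true,20,65,.leaf [(0,6),(2,79),(6,1),(11,68)],.leaf [(0,159),(2,181),(6,1),(10,17)]⟩,
⟨⟨⟨-113,-204,-108⟩,⟨-108,153,-176⟩,⟨204,-32,-153⟩⟩,true,20,192,.leaf [(1,66049),(5,164),(7,176),(15,17)],.leaf [(1,245),(2,122),(5,1),(10,50)]⟩,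
⟨⟨⟨231,-32,-108⟩,⟨112,39,228⟩,⟨-12,-252,49⟩⟩,true,21,103,.leaf [(1,11308),(4,221),(6,2),(10,15677)],.leaf [(1,66049),(4,380),(6,20),(15,61)]⟩,
⟨⟨⟨231,-32,108⟩,⟨112,39,-228⟩,⟨12,252,49⟩⟩,true,21,154,.leaf [(0,281),(1,59),(2,3),(5,1)],.leaf [(0,281),(1,59),(2,3),(5,1)]⟩,
⟨⟨⟨31,168,-192⟩,⟨-168,159,112⟩,⟨192,112,129⟩⟩,true,22,85,.leaf [(0,9),(1,256),(3,48),(4,1)],.leaf [(0,9),(1,256),(3,48),(4,1)]⟩,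
⟨⟨⟨31,168,192⟩,⟨168,-159,112⟩,⟨192,112,-129⟩⟩,true,22,172,.leaf [(0,65792),(2,34695),(4,321),(5,80)],.leaf [(0,65792),(2,34695),(4,321),(5,80)]⟩,
⟨⟨⟨-113,228,-36⟩,⟨-36,-57,-248⟩,⟨-228,-104,57⟩⟩,true,23,64,.leaf [(0,13365),(3,10125),(18,2113),(23,1)],.leaf [(2,43),(3,303),(7,1),(10,81)]⟩,
⟨⟨⟨-113,228,36⟩,⟨36,57,-248⟩,⟨-228,-104,-57⟩⟩,true,23,193,.leaf [(7,90),(11,21074),(14,83),(18,4883)],.leaf [(0,75),(3,217),(7,1),(10,49)]⟩,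
⟨⟨⟨-129,112,-192⟩,⟨112,-159,-168⟩,⟨-192,-168,31⟩⟩,true,33,127,.leaf [(0,268),(1,24),(2,3),(4,1)],.leaf [(0,268),(1,24),(2,3),(4,1)]⟩,
⟨⟨⟨-129,112,192⟩,⟨112,-159,168⟩,⟨192,168,31⟩⟩,true,33,130,.leaf [(0,38036),(2,6939),(4,161),(5,24)],.leaf [(0,38036),(2,6939),(4,161),(5,24)]⟩,
⟨⟨⟨193,-120,-120⟩,⟨120,225,-32⟩,⟨120,-32,225⟩⟩,true,34,34,.leaf [(3,34695),(7,1755),(18,53456),(23,2)],.leaf [(1,11565),(5,585),(10,53456),(15,2)]⟩,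
⟨⟨⟨193,-120,120⟩,⟨-120,-225,-32⟩,⟨120,-32,-225⟩⟩,true,34,223,.leaf [(0,2827),(1,4883),(4,11),(5,19)],.leaf [(0,2827),(1,4883),(4,11),(5,19)]⟩,
⟨⟨⟨159,168,112⟩,⟨-168,31,192⟩,⟨112,-192,129⟩⟩,true,35,109,.leaf [(1,34695),(2,38036),(4,268),(7,55)],.leaf [(1,34695),(2,38036),(4,268),(7,55)]⟩,
⟨⟨⟨-159,-168,112⟩,⟨-168,31,-192⟩,⟨112,-192,-129⟩⟩,true,35,148,.leaf [(1,35209),(2,6168),(5,148),(7,27)],.leaf [(1,35209),(2,6168),(5,148),(7,27)]⟩,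
⟨⟨⟨231,-12,112⟩,⟨-108,49,228⟩,⟨-32,-252,39⟩⟩,true,40,55,.leaf [(1,66049),(4,336),(5,73),(7,144)],.leaf [(1,66049),(4,336),(5,73),(7,144)]⟩,
⟨⟨⟨-231,12,112⟩,⟨-108,49,-228⟩,⟨-32,-252,-39⟩⟩,true,40,202,.leaf [(1,48),(2,240),(3,25),(7,1)],.leaf [(1,48),(2,240),(3,25),(7,1)]⟩,
⟨⟨⟨-185,-132,-120⟩,⟨-132,-15,220⟩,⟨-120,220,-57⟩⟩,true,41,84,.leaf [(1,50629),(3,61680),(4,352),(5,117)],.leaf [(1,50629),(3,61680),(4,352),(5,117)]⟩,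
⟨⟨⟨-185,-132,120⟩,⟨132,15,220⟩,⟨-120,220,57⟩⟩,true,41,173,.leaf [(0,24415),(1,11822),(4,59),(5,94)],.leaf [(0,24415),(1,11822),(4,59),(5,94)]⟩,
⟨⟨⟨-185,-60,168⟩,⟨-60,-207,-140⟩,⟨168,-140,135⟩⟩,true,42,88,.leaf [(1,257),(2,2056),(5,1),(6,8)],.leaf [(1,257),(2,2056),(5,1),(6,8)]⟩,
⟨⟨⟨-185,-60,-168⟩,⟨60,207,-140⟩,⟨168,-140,-135⟩⟩,true,42,169,.leaf [(1,3),(3,460),(7,1),(18,40)],.leaf [(1,2430),(3,1089),(10,748),(15,1)]⟩,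
⟨⟨⟨49,-108,-228⟩,⟨12,-231,112⟩,⟨-252,-32,-39⟩⟩,true,45,95,.leaf [(0,123),(1,250),(3,90),(4,1)],.leaf [(0,123),(1,250),(3,90),(4,1)]⟩,
⟨⟨⟨49,-108,228⟩,⟨-12,231,112⟩,⟨-252,-32,39⟩⟩,true,45,162,.leaf [(0,257),(3,1285),(5,5),(6,1)],.leaf [(0,257),(3,1285),(5,5),(6,1)]⟩,
⟨⟨⟨-39,-252,-32⟩,⟨-228,49,-108⟩,⟨112,12,-231⟩⟩,true,46,14,.leaf [(1,43),(2,264),(3,156),(5,1)],.leaf [(1,43),(2,264),(3,156),(5,1)]⟩,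
⟨⟨⟨39,252,-32⟩,⟨-228,49,108⟩,⟨112,12,231⟩⟩,true,46,243,.leaf [(0,38),(1,140),(2,165),(4,1)],.leaf [(0,38),(1,140),(2,165),(4,1)]⟩,
⟨⟨⟨153,148,-144⟩,⟨76,-207,-132⟩,⟨-192,36,-167⟩⟩,true,48,120,.leaf [(0,145),(1,12),(2,210),(4,1)],.leaf [(0,145),(1,12),(2,210),(4,1)]⟩,
⟨⟨⟨153,148,144⟩,⟨76,-207,132⟩,⟨192,-36,-167⟩⟩,true,48,137,.leaf [(0,41891),(2,66306),(4,311),(5,12)],.leaf [(0,41891),(2,66306),(4,311),(5,12)]⟩,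
⟨⟨⟨39,112,-228⟩,⟨-32,231,108⟩,⟨252,12,49⟩⟩,true,49,93,.leaf [(1,11051),(3,7453),(4,49),(6,17)],.leaf [(1,11051),(3,7453),(4,49),(6,17)]⟩,
⟨⟨⟨39,112,228⟩,⟨-32,231,-108⟩,⟨-252,-12,49⟩⟩,true,49,164,.leaf [(0,72731),(1,6425),(5,235),(6,297)],.leaf [(0,72731),(1,6425),(5,235),(6,297)]⟩,
⟨⟨⟨-167,-36,-192⟩,⟨-132,207,76⟩,⟨144,148,-153⟩⟩,true,51,15,.leaf [(1,66049),(4,208),(5,240),(7,57)],.leaf [(1,66049),(4,208),(5,240),(7,57)]⟩,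
⟨⟨⟨-167,-36,192⟩,⟨132,-207,76⟩,⟨144,148,153⟩⟩,true,51,242,.leaf [(0,1799),(2,26214),(4,39),(5,116)],.leaf [(0,1799),(2,26214),(4,39),(5,116)]⟩,
⟨⟨⟨57,-120,220⟩,⟨120,-185,-132⟩,⟨220,132,15⟩⟩,true,52,76,.leaf [(1,58),(2,252),(3,147),(5,1)],.leaf [(1,58),(2,252),(3,147),(5,1)]⟩,
⟨⟨⟨-57,120,220⟩,⟨120,-185,132⟩,⟨220,132,-15⟩⟩,true,52,181,.leaf [(0,44975),(2,27756),(4,235),(5,88)],.leaf [(0,44975),(2,27756),(4,235),(5,88)]⟩,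
⟨⟨⟨-167,144,132⟩,⟨192,153,76⟩,⟨-36,148,-207⟩⟩,true,53,70,.leaf [(0,4),(1,237),(3,102),(5,1)],.leaf [(0,4),(1,237),(3,102),(5,1)]⟩,
⟨⟨⟨-167,144,-132⟩,⟨-192,-153,76⟩,⟨-36,148,207⟩⟩,true,53,187,.leaf [(0,240),(1,208),(2,57),(4,1)],.leaf [(0,240),(1,208),(2,57),(4,1)]⟩,
⟨⟨⟨231,112,-12⟩,⟨-32,39,-252⟩,⟨-108,228,49⟩⟩,true,55,40,.leaf [(0,66049),(4,73),(5,336),(6,144)],.leaf [(0,66049),(4,73),(5,336),(6,144)]⟩,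
⟨⟨⟨231,112,12⟩,⟨-32,39,252⟩,⟨108,-228,49⟩⟩,true,55,217,.leaf [(0,25),(1,240),(2,48),(4,1)],.leaf [(0,25),(1,240),(2,48),(4,1)]⟩,
⟨⟨⟨-153,-32,-204⟩,⟨-176,153,108⟩,⟨108,204,-113⟩⟩,true,59,87,.leaf [(1,55255),(3,1542),(4,236),(5,185)],.leaf [(1,55255),(3,1542),(4,236),(5,185)]⟩,
⟨⟨⟨-153,-32,204⟩,⟨-176,153,-108⟩,⟨-108,-204,-113⟩⟩,true,59,170,.leaf [(3,66049),(5,240),(6,208),(15,19)],.leaf [(3,21074),(5,30),(6,83),(10,4883)]⟩,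
⟨⟨⟨153,-176,-108⟩,⟨-32,-153,204⟩,⟨-204,-108,-113⟩⟩,true,61,90,.leaf [(1,12850),(3,8481),(4,68),(5,23)],.leaf [(1,12850),(3,8481),(4,68),(5,23)]⟩,
⟨⟨⟨153,-176,108⟩,⟨-32,-153,-204⟩,⟨204,108,-113⟩⟩,true,61,167,.leaf [(0,6),(2,278),(3,221),(5,1)],.leaf [(0,6),(2,278),(3,221),(5,1)]⟩,
⟨⟨⟨-113,-36,228⟩,⟨-228,57,-104⟩,⟨-36,-248,-57⟩⟩,true,64,23,.leaf [(2,330),(6,3),(10,143),(18,50)],.leaf [(3,15420),(6,3),(10,257),(15,20)]⟩,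
⟨⟨⟨-113,-36,-228⟩,⟨228,-57,-104⟩,⟨-36,-248,57⟩⟩,true,64,234,.leaf [(0,9801),(3,10557),(18,1837),(23,1)],.leaf [(0,9),(3,44),(6,2),(10,177)]⟩,
⟨⟨⟨-113,108,-204⟩,⟨204,153,-32⟩,⟨108,-176,-153⟩⟩,true,65,20,.leaf [(1,6),(3,79),(7,1),(10,68)],.leaf [(3,66049),(4,192),(7,70),(23,5)]⟩,
⟨⟨⟨-113,108,204⟩,⟨-204,-153,-32⟩,⟨108,-176,153⟩⟩,true,65,237,.leaf [(1,192),(2,70),(6,1),(18,5)],.leaf [(2,21074),(4,93),(6,26),(10,4369)]⟩,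
⟨⟨⟨-57,36,-248⟩,⟨-228,-113,36⟩,⟨-104,228,57⟩⟩,true,67,81,.leaf [(0,131),(1,284),(2,18),(4,1)],.leaf [(0,131),(1,284),(2,18),(4,1)]⟩,
⟨⟨⟨57,-36,-248⟩,⟨-228,-113,-36⟩,⟨-104,228,-57⟩⟩,true,67,176,.leaf [(0,2),(1,212),(2,75),(4,1)],.leaf [(0,2),(1,212),(2,75),(4,1)]⟩,
⟨⟨⟨225,-120,-32⟩,⟨120,193,120⟩,⟨-32,-120,225⟩⟩,true,68,1,.leaf [(0,240),(1,120),(3,73),(7,1)],.leaf [(0,240),(1,120),(3,73),(7,1)]⟩,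
⟨⟨⟨-225,120,-32⟩,⟨120,193,-120⟩,⟨-32,-120,-225⟩⟩,true,68,256,.leaf [(3,514),(4,4),(5,3),(15,1)],.leaf [(1,8916615),(4,1224),(23,3965),(31,68)]⟩,
⟨⟨⟨207,148,-36⟩,⟨76,-153,-192⟩,⟨-132,144,-167⟩⟩,true,69,11,.leaf [(0,37265),(2,1542),(4,131),(5,156)],.leaf [(0,37265),(2,1542),(4,131),(5,156)]⟩,
⟨⟨⟨207,148,36⟩,⟨76,-153,192⟩,⟨132,-144,-167⟩⟩,true,69,246,.leaf [(0,7),(2,294),(3,156),(4,1)],.leaf [(0,7),(2,294),(3,156),(4,1)]⟩,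
⟨⟨⟨-167,132,144⟩,⟨-36,-207,148⟩,⟨192,76,153⟩⟩,true,70,53,.leaf [(0,237),(1,4),(2,102),(4,1)],.leaf [(0,237),(1,4),(2,102),(4,1)]⟩,
⟨⟨⟨-167,132,-144⟩,⟨36,207,148⟩,⟨192,76,-153⟩⟩,true,70,204,.leaf [(1,66049),(4,112),(5,240),(7,105)],.leaf [(1,66049),(4,112),(5,240),(7,105)]⟩,
⟨⟨⟨-15,220,132⟩,⟨220,-57,120⟩,⟨132,120,-185⟩⟩,true,71,94,.leaf [(0,79670),(2,6939),(4,317),(5,12)],.leaf [(0,79670),(2,6939),(4,317),(5,12)]⟩,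
⟨⟨⟨-15,220,-132⟩,⟨220,-57,-120⟩,⟨-132,-120,-185⟩⟩,true,71,163,.leaf [(0,262),(1,12),(2,15),(4,1)],.leaf [(0,262),(1,12),(2,15),(4,1)]⟩,
⟨⟨⟨135,-168,-140⟩,⟨-168,-185,60⟩,⟨-140,60,-207⟩⟩,true,73,18,.leaf [(1,59881),(2,14649),(4,285),(5,43)],.leaf [(1,59881),(2,14649),(4,285),(5,43)]⟩,
⟨⟨⟨-135,168,-140⟩,⟨-168,-185,-60⟩,⟨-140,60,207⟩⟩,true,73,239,.leaf [(0,200),(1,80),(2,153),(4,1)],.leaf [(0,200),(1,80),(2,153),(4,1)]⟩,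
⟨⟨⟨57,220,-120⟩,⟨220,15,132⟩,⟨120,-132,-185⟩⟩,true,76,52,.leaf [(0,58),(2,147),(3,252),(4,1)],.leaf [(0,58),(2,147),(3,252),(4,1)]⟩,
⟨⟨⟨57,220,120⟩,⟨220,15,-132⟩,⟨-120,132,-185⟩⟩,true,76,205,.leaf [(3,66049),(4,108),(5,305),(6,20)],.leaf [(3,66049),(4,108),(5,305),(6,20)]⟩,
⟨⟨⟨-57,-248,36⟩,⟨-104,57,228⟩,⟨-228,36,-113⟩⟩,true,81,67,.leaf [(0,284),(1,131),(3,18),(5,1)],.leaf [(0,284),(1,131),(3,18),(5,1)]⟩,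
⟨⟨⟨-57,-248,-36⟩,⟨-104,57,-228⟩,⟨228,-36,-113⟩⟩,true,81,190,.leaf [(0,2),(1,77),(2,210),(5,1)],.leaf [(0,2),(1,77),(2,210),(5,1)]⟩,
⟨⟨⟨63,-168,184⟩,⟨24,193,168⟩,⟨-248,-24,63⟩⟩,true,83,7,.leaf [(0,49344),(3,43433),(5,312),(7,23)],.leaf [(0,49344),(3,43433),(5,312),(7,23)]⟩,
⟨⟨⟨-63,168,184⟩,⟨24,193,-168⟩,⟨-248,-24,-63⟩⟩,true,83,250,.leaf [(1,66049),(5,79),(7,216),(15,48)],.R (.leaf [(1,729),(10,315),(26,7),(35,5)]) (.leaf [(1,2916),(10,855),(26,58),(34,5)]) (.leaf [(1,43011),(10,8865),(26,197),(39,1)])⟩,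
⟨⟨⟨-185,-120,-132⟩,⟨-120,-57,220⟩,⟨-132,220,-15⟩⟩,true,84,41,.leaf [(1,46774),(3,65535),(4,340),(5,63)],.leaf [(1,46774),(3,65535),(4,340),(5,63)]⟩,
⟨⟨⟨-185,-120,132⟩,⟨120,57,220⟩,⟨-132,220,15⟩⟩,true,84,216,.leaf [(0,24158),(1,15163),(4,46),(5,95)],.leaf [(0,24158),(1,15163),(4,46),(5,95)]⟩,
⟨⟨⟨31,-192,168⟩,⟨192,129,112⟩,⟨-168,112,159⟩⟩,true,85,22,.leaf [(0,256),(1,9),(2,48),(5,1)],.leaf [(0,256),(1,9),(2,48),(5,1)]⟩,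
⟨⟨⟨31,-192,-168⟩,⟨-192,-129,112⟩,⟨-168,112,-159⟩⟩,true,85,235,.leaf [(1,69904),(3,14649),(4,304),(5,63)],.leaf [(1,69904),(3,14649),(4,304),(5,63)]⟩,
⟨⟨⟨-153,-204,-32⟩,⟨108,-113,204⟩,⟨-176,108,153⟩⟩,true,87,59,.leaf [(0,6682),(3,771),(4,26),(5,29)],.leaf [(0,6682),(3,771),(4,26),(5,29)]⟩,
⟨⟨⟨153,204,-32⟩,⟨108,-113,-204⟩,⟨-176,108,-153⟩⟩,true,87,198,.leaf [(0,504),(4,3),(11,208),(18,77)],.leaf [(0,185297),(4,850),(5,724),(10,14649)]⟩,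
⟨⟨⟨-185,168,-60⟩,⟨168,135,-140⟩,⟨-60,-140,-207⟩⟩,true,88,42,.leaf [(0,257),(3,2056),(4,1),(7,8)],.leaf [(0,257),(3,2056),(4,1),(7,8)]⟩,
⟨⟨⟨-185,168,60⟩,⟨-168,-135,-140⟩,⟨-60,-140,207⟩⟩,true,88,215,.leaf [(2,225),(11,217),(15,1),(18,49)],.leaf [(0,110),(2,143),(4,1),(10,50)]⟩,
⟨⟨⟨153,-108,-176⟩,⟨-204,-113,-108⟩,⟨-32,204,-153⟩⟩,true,90,61,.leaf [(1,12850),(2,45489),(4,237),(5,142)],.leaf [(1,12850),(2,45489),(4,237),(5,142)]⟩,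
⟨⟨⟨-153,108,-176⟩,⟨-204,-113,108⟩,⟨-32,204,153⟩⟩,true,90,196,.leaf [(0,221),(1,278),(3,6),(4,1)],.leaf [(0,221),(1,278),(3,6),(4,1)]⟩,
⟨⟨⟨207,76,-132⟩,⟨148,-153,144⟩,⟨-36,-192,-167⟩⟩,true,91,126,.leaf [(0,223),(1,276),(2,6),(4,1)],.leaf [(0,223),(1,276),(2,6),(4,1)]⟩,
⟨⟨⟨207,76,132⟩,⟨148,-153,-144⟩,⟨36,192,-167⟩⟩,true,91,131,.leaf [(0,2827),(2,1542),(4,13),(5,12)],.leaf [(0,2827),(2,1542),(4,13),(5,12)]⟩,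
⟨⟨⟨-57,-104,-228⟩,⟨-248,57,36⟩,⟨36,228,-113⟩⟩,true,92,4,.leaf [(1,5654),(2,2313),(4,31),(5,22)],.leaf [(1,5654),(2,2313),(4,31),(5,22)]⟩,
⟨⟨⟨-57,-104,228⟩,⟨-248,57,-36⟩,⟨-36,-228,-113⟩⟩,true,92,253,.leaf [(3,43947),(5,855),(10,59881),(14,43)],.leaf [(1,1080),(3,1419),(10,560),(15,1)]⟩,
⟨⟨⟨39,-228,112⟩,⟨252,49,12⟩,⟨-32,108,231⟩⟩,true,93,49,.leaf [(0,11051),(2,7453),(5,49),(7,17)],.leaf [(0,11051),(2,7453),(5,49),(7,17)]⟩,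
⟨⟨⟨-39,228,112⟩,⟨252,49,-12⟩,⟨-32,108,-231⟩⟩,true,93,208,.leaf [(0,6425),(3,26214),(4,115),(5,118)],.leaf [(0,6425),(3,26214),(4,115),(5,118)]⟩,
⟨⟨⟨-15,132,220⟩,⟨132,-185,120⟩,⟨220,120,-57⟩⟩,true,94,71,.leaf [(0,51914),(2,34695),(4,277),(5,100)],.leaf [(0,51914),(2,34695),(4,277),(5,100)]⟩,
⟨⟨⟨15,-132,220⟩,⟨132,-185,-120⟩,⟨220,120,57⟩⟩,true,94,186,.leaf [(1,58),(2,252),(3,105),(5,1)],.leaf [(1,58),(2,252),(3,105),(5,1)]⟩,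
⟨⟨⟨49,-228,-108⟩,⟨-252,-39,-32⟩,⟨12,112,-231⟩⟩,true,95,45,.leaf [(1,44461),(2,23130),(4,250),(5,207)],.leaf [(1,44461),(2,23130),(4,250),(5,207)]⟩,
⟨⟨⟨49,-228,108⟩,⟨252,39,-32⟩,⟨12,112,231⟩⟩,true,95,212,.leaf [(0,44461),(2,4626),(5,76),(6,123)],.leaf [(0,44461),(2,4626),(5,76),(6,123)]⟩,
⟨⟨⟨193,24,-168⟩,⟨168,-63,184⟩,⟨-24,-248,-63⟩⟩,true,96,99,.leaf [(0,87),(1,232),(3,120),(4,1)],.leaf [(0,87),(1,232),(3,120),(4,1)]⟩,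
⟨⟨⟨193,24,168⟩,⟨-168,63,184⟩,⟨-24,-248,63⟩⟩,true,96,158,.leaf [(4,162),(6,693),(10,66049),(15,28)],.leaf [(6,3159),(15,2079),(26,66049),(31,91)]⟩,
⟨⟨⟨153,192,76⟩,⟨144,-167,132⟩,⟨148,-36,-207⟩⟩,true,97,108,.leaf [(0,203),(1,56),(2,156),(4,1)],.leaf [(0,203),(1,56),(2,156),(4,1)]⟩,
⟨⟨⟨-153,-192,76⟩,⟨144,-167,-132⟩,⟨148,-36,207⟩⟩,true,97,149,.leaf [(0,66049),(4,311),(5,83),(7,267)],.leaf [(0,66049),(4,311),(5,83),(7,267)]⟩,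
⟨⟨⟨193,-168,24⟩,⟨-24,-63,-248⟩,⟨168,184,-63⟩⟩,true,99,96,.leaf [(0,232),(1,87),(2,120),(5,1)],.leaf [(0,232),(1,87),(2,120),(5,1)]⟩,
⟨⟨⟨193,-168,-24⟩,⟨24,63,-248⟩,⟨168,184,63⟩⟩,true,99,161,.leaf [(2,25443),(5,162),(11,14906),(14,29)],.leaf [(0,667),(2,654),(5,4),(10,87)]⟩,
⟨⟨⟨-207,-140,60⟩,⟨-140,135,-168⟩,⟨60,-168,-185⟩⟩,true,100,104,.leaf [(3,5654),(5,22),(6,31),(10,771)],.leaf [(3,66049),(5,131),(6,284),(15,6)]⟩,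
⟨⟨⟨-207,-140,-60⟩,⟨-140,135,168⟩,⟨-60,168,-185⟩⟩,true,100,153,.leaf [(0,2827),(1,4883),(4,11),(5,19)],.leaf [(0,2827),(1,4883),(4,11),(5,19)]⟩,
⟨⟨⟨231,-108,-32⟩,⟨-12,49,-252⟩,⟨112,228,39⟩⟩,true,103,21,.leaf [(0,11308),(5,221),(7,2),(11,15677)],.leaf [(0,243379),(5,926),(7,434),(10,15677)]⟩,
⟨⟨⟨-231,108,-32⟩,⟨-12,49,252⟩,⟨112,228,-39⟩⟩,true,103,236,.leaf [(1,3),(2,59),(3,281),(4,1)],.leaf [(1,3),(2,59),(3,281),(4,1)]⟩,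
⟨⟨⟨-207,60,-140⟩,⟨60,-185,-168⟩,⟨-140,-168,135⟩⟩,true,104,100,.leaf [(2,5654),(4,22),(7,31),(11,771)],.leaf [(0,221277),(4,910),(7,44),(10,6425)]⟩,
⟨⟨⟨207,-60,-140⟩,⟨60,-185,168⟩,⟨-140,-168,-135⟩⟩,true,104,157,.leaf [(0,125),(1,290),(3,18),(4,1)],.leaf [(0,125),(1,290),(3,18),(4,1)]⟩,
⟨⟨⟨49,-252,-12⟩,⟨228,39,112⟩,⟨-108,-32,231⟩⟩,true,105,5,.leaf [(0,1285),(3,257),(5,1),(6,5)],.leaf [(0,1285),(3,257),(5,1),(6,5)]⟩,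
⟨⟨⟨49,-252,12⟩,⟨-228,-39,112⟩,⟨-108,-32,-231⟩⟩,true,105,252,.leaf [(2,50629),(3,78385),(4,67),(5,295)],.leaf [(2,50629),(3,78385),(4,67),(5,295)]⟩,
⟨⟨⟨153,76,192⟩,⟨148,-207,-36⟩,⟨144,132,-167⟩⟩,true,108,97,.leaf [(0,57311),(2,57054),(4,359),(5,228)],.leaf [(0,57311),(2,57054),(4,359),(5,228)]⟩,
⟨⟨⟨153,76,-192⟩,⟨148,-207,36⟩,⟨-144,-132,-167⟩⟩,true,108,160,.leaf [(0,253),(1,228),(2,30),(4,1)],.leaf [(0,253),(1,228),(2,30),(4,1)]⟩,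
⟨⟨⟨159,112,168⟩,⟨112,129,-192⟩,⟨-168,192,31⟩⟩,true,109,35,.leaf [(0,34695),(3,38036),(5,268),(6,55)],.leaf [(0,34695),(3,38036),(5,268),(6,55)]⟩,
⟨⟨⟨159,112,-168⟩,⟨112,129,192⟩,⟨168,-192,31⟩⟩,true,109,222,.leaf [(1,51143),(3,35209),(4,241),(6,17)],.leaf [(1,51143),(3,35209),(4,241),(6,17)]⟩,
⟨⟨⟨-63,-248,24⟩,⟨184,-63,-168⟩,⟨168,-24,193⟩⟩,true,110,122,.leaf [(2,66049),(5,336),(6,73),(14,48)],.leaf [(1,183),(2,136),(5,1),(10,88)]⟩,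
⟨⟨⟨-63,-248,-24⟩,⟨184,-63,168⟩,⟨-168,24,193⟩⟩,true,110,135,.leaf [(0,66049),(4,307),(5,432),(14,60)],.leaf [(0,71189),(4,167),(5,432),(10,15420)]⟩,
⟨⟨⟨153,-144,148⟩,⟨-192,-167,36⟩,⟨76,-132,-207⟩⟩,true,120,48,.leaf [(0,257),(1,2056),(4,7),(5,8)],.leaf [(0,257),(1,2056),(4,7),(5,8)]⟩,
⟨⟨⟨-153,144,148⟩,⟨-192,-167,-36⟩,⟨76,-132,207⟩⟩,true,120,209,.leaf [(0,40092),(2,68105),(4,355),(7,184)],.leaf [(0,40092),(2,68105),(4,355),(7,184)]⟩,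
⟨⟨⟨-63,24,-248⟩,⟨168,193,-24⟩,⟨184,-168,-63⟩⟩,true,122,110,.leaf [(3,66049),(4,336),(7,73),(15,48)],.leaf [(3,7967),(4,24),(7,71),(10,6168)]⟩,
⟨⟨⟨63,-24,-248⟩,⟨168,193,24⟩,⟨184,-168,63⟩⟩,true,122,147,.leaf [(3,66049),(4,232),(7,87),(14,40)],.leaf [(0,132),(3,55),(7,1),(10,60)]⟩,
⟨⟨⟨207,-132,76⟩,⟨-36,-167,-192⟩,⟨148,144,-153⟩⟩,true,126,91,.leaf [(0,25186),(1,20303),(4,2),(5,91)],.leaf [(0,25186),(1,20303),(4,2),(5,91)]⟩,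
⟨⟨⟨-207,132,76⟩,⟨-36,-167,192⟩,⟨148,144,153⟩⟩,true,126,166,.leaf [(0,293),(1,116),(2,6),(4,1)],.leaf [(0,293),(1,116),(2,6),(4,1)]⟩,
⟨⟨⟨-129,-192,112⟩,⟨-192,31,-168⟩,⟨112,-168,-159⟩⟩,true,127,33,.leaf [(0,24),(1,268),(3,3),(5,1)],.leaf [(0,24),(1,268),(3,3),(5,1)]⟩,
⟨⟨⟨129,192,112⟩,⟨-192,31,168⟩,⟨112,-168,159⟩⟩,true,127,224,.leaf [(1,6939),(2,9509),(4,61),(7,13)],.leaf [(1,6939),(2,9509),(4,61),(7,13)]⟩,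
⟨⟨⟨-129,192,112⟩,⟨192,31,168⟩,⟨112,168,-159⟩⟩,true,130,33,.leaf [(0,9509),(3,6939),(4,61),(5,13)],.leaf [(0,9509),(3,6939),(4,61),(5,13)]⟩,
⟨⟨⟨129,-192,112⟩,⟨192,31,-168⟩,⟨112,168,159⟩⟩,true,130,224,.leaf [(0,57311),(2,41377),(5,271),(7,47)],.leaf [(0,57311),(2,41377),(5,271),(7,47)]⟩,
⟨⟨⟨207,132,76⟩,⟨36,-167,192⟩,⟨148,-144,-153⟩⟩,true,131,91,.leaf [(0,6),(2,293),(3,116),(4,1)],.leaf [(0,6),(2,293),(3,116),(4,1)]⟩,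
⟨⟨⟨-207,-132,76⟩,⟨36,-167,-192⟩,⟨148,-144,153⟩⟩,true,131,166,.leaf [(2,66049),(4,131),(5,237),(7,233)],.leaf [(2,66049),(4,131),(5,237),(7,233)]⟩,
⟨⟨⟨-63,-24,-248⟩,⟨-168,193,24⟩,⟨184,168,-63⟩⟩,true,135,110,.leaf [(1,66049),(4,432),(5,307),(15,60)],.leaf [(1,295),(2,72),(5,1),(10,120)]⟩,
⟨⟨⟨63,24,-248⟩,⟨-168,193,-24⟩,⟨184,168,63⟩⟩,true,135,147,.leaf [(2,37265),(4,95),(14,72),(18,4112)],.leaf [(1,265),(5,1),(10,144)]⟩,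
⟨⟨⟨153,144,148⟩,⟨192,-167,-36⟩,⟨76,132,-207⟩⟩,true,137,48,.leaf [(0,68105),(2,40092),(4,355),(5,184)],.leaf [(0,68105),(2,40092),(4,355),(5,184)]⟩,
⟨⟨⟨-153,-144,148⟩,⟨192,-167,36⟩,⟨76,132,207⟩⟩,true,137,209,.leaf [(0,6425),(2,92263),(5,355),(7,59)],.leaf [(0,6425),(2,92263),(5,355),(7,59)]⟩,
⟨⟨⟨63,-248,-24⟩,⟨184,63,-168⟩,⟨168,24,193⟩⟩,true,147,122,.leaf [(2,66049),(5,232),(6,87),(15,40)],.leaf [(2,43433),(5,224),(6,39),(10,10280)]⟩,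
⟨⟨⟨63,-248,24⟩,⟨184,63,168⟩,⟨-168,-24,193⟩⟩,true,147,135,.L (.leaf [(0,43),(2,108),(3,264),(4,1)]) (.leaf [(0,264),(2,136),(7,1),(11,61)]) (.leaf [(0,73),(1,288),(3,48),(4,1)]),.leaf [(0,180),(3,7),(5,1),(10,44)]⟩,
⟨⟨⟨-159,112,-168⟩,⟨112,-129,-192⟩,⟨-168,-192,31⟩⟩,true,148,35,.leaf [(0,35209),(3,6168),(4,148),(6,27)],.leaf [(0,35209),(3,6168),(4,148),(6,27)]⟩,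
⟨⟨⟨-159,112,168⟩,⟨112,-129,192⟩,⟨168,192,31⟩⟩,true,148,222,.leaf [(0,65792),(3,6939),(4,272),(5,3)],.leaf [(0,65792),(3,6939),(4,272),(5,3)]⟩,
⟨⟨⟨-153,76,-192⟩,⟨148,207,-36⟩,⟨144,-132,-167⟩⟩,true,149,97,.leaf [(1,66049),(4,83),(5,311),(6,267)],.leaf [(1,66049),(4,83),(5,311),(6,267)]⟩,
⟨⟨⟨-153,76,192⟩,⟨148,207,36⟩,⟨-144,132,-167⟩⟩,true,149,160,.leaf [(0,56),(1,212),(3,147),(5,1)],.leaf [(0,56),(1,212),(3,147),(5,1)]⟩,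
⟨⟨⟨49,252,-12⟩,⟨228,-39,112⟩,⟨108,-32,-231⟩⟩,true,152,5,.leaf [(0,291),(1,118),(3,6),(4,1)],.leaf [(0,291),(1,118),(3,6),(4,1)]⟩,
⟨⟨⟨49,252,12⟩,⟨-228,39,112⟩,⟨108,-32,231⟩⟩,true,152,252,.leaf [(1,82),(2,213),(3,18),(4,1)],.leaf [(1,82),(2,213),(3,18),(4,1)]⟩,
⟨⟨⟨-207,-60,-140⟩,⟨-60,-185,168⟩,⟨-140,168,135⟩⟩,true,153,100,.leaf [(1,18),(2,125),(3,290),(4,1)],.leaf [(1,18),(2,125),(3,290),(4,1)]⟩,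
⟨⟨⟨207,60,-140⟩,⟨-60,-185,-168⟩,⟨-140,168,-135⟩⟩,true,153,157,.leaf [(2,35723),(4,215),(5,81),(11,6425)],.leaf [(2,223076),(4,905),(5,72),(10,6425)]⟩,
⟨⟨⟨231,108,-32⟩,⟨12,49,252⟩,⟨112,-228,39⟩⟩,true,154,21,.leaf [(0,59),(1,281),(3,3),(4,1)],.leaf [(0,59),(1,281),(3,3),(4,1)]⟩,
⟨⟨⟨-231,-108,-32⟩,⟨12,49,-252⟩,⟨112,-228,-39⟩⟩,true,154,236,.leaf [(2,148032),(7,936),(11,43433),(15,23)],.leaf [(2,249547),(5,363),(7,919),(10,15677)]⟩,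
⟨⟨⟨207,-140,-60⟩,⟨-140,-135,-168⟩,⟨60,168,-185⟩⟩,true,157,104,.leaf [(0,290),(1,125),(2,18),(5,1)],.leaf [(0,290),(1,125),(2,18),(5,1)]⟩,
⟨⟨⟨207,-140,60⟩,⟨-140,-135,168⟩,⟨-60,-168,-185⟩⟩,true,157,153,.leaf [(3,35723),(4,81),(5,215),(10,6425)],.leaf [(1,66049),(4,317),(5,161),(14,9)]⟩,
⟨⟨⟨193,168,24⟩,⟨-24,63,-248⟩,⟨-168,184,63⟩⟩,true,158,96,.leaf [(5,162),(7,693),(11,66049),(14,28)],.leaf [(0,567),(2,754),(7,4),(10,87)]⟩,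
⟨⟨⟨193,168,-24⟩,⟨24,-63,-248⟩,⟨-168,184,-63⟩⟩,true,158,161,.leaf [(0,66049),(4,87),(5,232),(7,120)],.leaf [(0,66049),(4,87),(5,232),(7,120)]⟩,
⟨⟨⟨153,-192,76⟩,⟨-144,-167,-132⟩,⟨148,36,-207⟩⟩,true,160,108,.leaf [(0,228),(1,253),(3,30),(5,1)],.leaf [(0,228),(1,253),(3,30),(5,1)]⟩,
⟨⟨⟨-153,192,76⟩,⟨-144,-167,132⟩,⟨148,36,207⟩⟩,true,160,149,.leaf [(0,212),(1,56),(2,147),(4,1)],.leaf [(0,212),(1,56),(2,147),(4,1)]⟩,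
⟨⟨⟨193,-24,-168⟩,⟨168,63,184⟩,⟨24,-248,63⟩⟩,true,161,99,.leaf [(3,25443),(4,162),(10,14906),(15,29)],.leaf [(4,8019),(6,30780),(26,330245),(31,152)]⟩,
⟨⟨⟨193,-24,168⟩,⟨-168,-63,184⟩,⟨24,-248,-63⟩⟩,true,161,158,.leaf [(1,66049),(4,232),(5,87),(6,120)],.leaf [(1,66049),(4,232),(5,87),(6,120)]⟩,
⟨⟨⟨49,228,-108⟩,⟨-252,39,-32⟩,⟨-12,112,231⟩⟩,true,162,45,.leaf [(1,257),(2,1285),(4,5),(7,1)],.leaf [(1,257),(2,1285),(4,5),(7,1)]⟩,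
⟨⟨⟨49,228,108⟩,⟨252,-39,-32⟩,⟨-12,112,-231⟩⟩,true,162,212,.leaf [(0,17219),(3,1542),(4,81),(5,38)],.leaf [(0,17219),(3,1542),(4,81),(5,38)]⟩,
⟨⟨⟨-15,-132,220⟩,⟨-132,-185,-120⟩,⟨220,-120,-57⟩⟩,true,163,71,.leaf [(0,12),(1,262),(3,15),(5,1)],.leaf [(0,12),(1,262),(3,15),(5,1)]⟩,
⟨⟨⟨15,132,220⟩,⟨-132,-185,120⟩,⟨220,-120,57⟩⟩,true,163,186,.leaf [(2,66049),(4,317),(5,135),(7,35)],.leaf [(2,66049),(4,317),(5,135),(7,35)]⟩,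
⟨⟨⟨39,228,112⟩,⟨-252,49,-12⟩,⟨-32,-108,231⟩⟩,true,164,49,.leaf [(0,6425),(1,72731),(4,235),(7,297)],.leaf [(0,6425),(1,72731),(4,235),(7,297)]⟩,
⟨⟨⟨-39,-228,112⟩,⟨-252,49,12⟩,⟨-32,-108,-231⟩⟩,true,164,208,.leaf [(0,120),(1,235),(3,108),(5,1)],.leaf [(0,120),(1,235),(3,108),(5,1)]⟩,
⟨⟨⟨57,-104,228⟩,⟨-248,-57,36⟩,⟨36,-228,-113⟩⟩,true,165,4,.leaf [(3,735),(5,3),(10,122),(18,50)],.leaf [(1,3537),(3,195),(10,1495),(22,1)]⟩,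
⟨⟨⟨57,-104,-228⟩,⟨-248,-57,-36⟩,⟨-36,228,-113⟩⟩,true,165,253,.leaf [(1,4112),(2,3855),(4,31),(5,16)],.leaf [(1,4112),(2,3855),(4,31),(5,16)]⟩,
⟨⟨⟨-207,76,132⟩,⟨148,153,144⟩,⟨-36,192,-167⟩⟩,true,166,126,.leaf [(0,116),(1,293),(3,6),(5,1)],.leaf [(0,116),(1,293),(3,6),(5,1)]⟩,
⟨⟨⟨-207,76,-132⟩,⟨148,153,-144⟩,⟨36,-192,-167⟩⟩,true,166,131,.leaf [(3,66049),(4,237),(5,131),(6,233)],.leaf [(3,66049),(4,237),(5,131),(6,233)]⟩,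
⟨⟨⟨153,108,-176⟩,⟨204,-113,108⟩,⟨-32,-204,-153⟩⟩,true,167,61,.leaf [(1,6),(2,221),(3,278),(4,1)],.leaf [(1,6),(2,221),(3,278),(4,1)]⟩,
⟨⟨⟨-153,-108,-176⟩,⟨204,-113,-108⟩,⟨-32,-204,153⟩⟩,true,167,196,.leaf [(0,45489),(3,12850),(4,237),(7,142)],.leaf [(0,45489),(3,12850),(4,237),(7,142)]⟩,
⟨⟨⟨-185,-168,-60⟩,⟨168,-135,-140⟩,⟨60,-140,207⟩⟩,true,169,42,.leaf [(0,543),(2,10),(6,1),(18,50)],.leaf [(0,93),(2,160),(6,1),(10,50)]⟩,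
⟨⟨⟨-185,-168,60⟩,⟨-168,135,-140⟩,⟨60,-140,-207⟩⟩,true,169,215,.leaf [(0,25),(1,267),(2,3),(5,1)],.leaf [(0,25),(1,267),(2,3),(5,1)]⟩,
⟨⟨⟨-153,204,-32⟩,⟨-108,-113,-204⟩,⟨-176,-108,153⟩⟩,true,170,59,.leaf [(2,66049),(4,240),(7,208),(14,19)],.leaf [(2,54484),(4,243),(7,184),(10,4883)]⟩,
⟨⟨⟨153,-204,-32⟩,⟨-108,-113,204⟩,⟨-176,-108,-153⟩⟩,true,170,198,.leaf [(1,14392),(3,19275),(4,96),(5,91)],.leaf [(1,14392),(3,19275),(4,96),(5,91)]⟩,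
⟨⟨⟨31,192,168⟩,⟨192,-129,112⟩,⟨168,112,-159⟩⟩,true,172,22,.leaf [(0,72731),(2,27756),(4,327),(5,56)],.leaf [(0,72731),(2,27756),(4,327),(5,56)]⟩,
⟨⟨⟨31,192,-168⟩,⟨-192,129,112⟩,⟨168,112,159⟩⟩,true,172,235,.leaf [(0,60),(1,280),(2,3),(4,1)],.leaf [(0,60),(1,280),(2,3),(4,1)]⟩,
⟨⟨⟨-185,120,-132⟩,⟨-120,57,220⟩,⟨132,220,15⟩⟩,true,173,41,.leaf [(0,63),(1,175),(3,177),(4,1)],.leaf [(0,63),(1,175),(3,177),(4,1)]⟩,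
⟨⟨⟨-185,120,132⟩,⟨120,-57,220⟩,⟨132,220,-15⟩⟩,true,173,216,.leaf [(0,25957),(3,13878),(4,141),(5,10)],.leaf [(0,25957),(3,13878),(4,141),(5,10)]⟩,
⟨⟨⟨63,168,184⟩,⟨-24,193,-168⟩,⟨-248,24,63⟩⟩,true,174,7,.leaf [(3,549),(7,3),(10,136),(18,88)],.leaf [(1,1296),(10,265),(14,1)]⟩,
⟨⟨⟨-63,-168,184⟩,⟨-24,193,168⟩,⟨-248,24,-63⟩⟩,true,174,250,.leaf [(0,65),(2,127),(3,247),(5,1)],.leaf [(0,65),(2,127),(3,247),(5,1)]⟩,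
⟨⟨⟨57,-248,-36⟩,⟨-104,-57,228⟩,⟨-228,-36,-113⟩⟩,true,176,67,.leaf [(2,1799),(3,5654),(4,15),(5,22)],.leaf [(2,1799),(3,5654),(4,15),(5,22)]⟩,
⟨⟨⟨57,-248,36⟩,⟨-104,-57,-228⟩,⟨228,36,-113⟩⟩,true,176,190,.leaf [(1,18),(2,284),(3,131),(5,1)],.leaf [(1,18),(2,284),(3,131),(5,1)]⟩,
⟨⟨⟨-57,220,120⟩,⟨220,-15,132⟩,⟨120,132,-185⟩⟩,true,181,52,.leaf [(0,44975),(3,6939),(4,197),(5,15)],.leaf [(0,44975),(3,6939),(4,197),(5,15)]⟩,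
⟨⟨⟨-57,220,-120⟩,⟨220,-15,-132⟩,⟨-120,-132,-185⟩⟩,true,181,205,.leaf [(0,78385),(3,3084),(4,310),(6,27)],.leaf [(0,78385),(3,3084),(4,310),(6,27)]⟩,
⟨⟨⟨135,168,-140⟩,⟨168,-185,-60⟩,⟨-140,-60,-207⟩⟩,true,184,18,.leaf [(0,233),(1,80),(2,120),(4,1)],.leaf [(0,233),(1,80),(2,120),(4,1)]⟩,
⟨⟨⟨-135,-168,-140⟩,⟨168,-185,60⟩,⟨-140,-60,207⟩⟩,true,184,239,.leaf [(0,66049),(4,353),(5,233),(7,153)],.leaf [(0,66049),(4,353),(5,233),(7,153)]⟩,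
⟨⟨⟨15,220,-132⟩,⟨220,57,120⟩,⟨132,-120,-185⟩⟩,true,186,94,.leaf [(0,58),(2,105),(3,252),(4,1)],.leaf [(0,58),(2,105),(3,252),(4,1)]⟩,
⟨⟨⟨15,220,132⟩,⟨220,57,-120⟩,⟨-132,120,-185⟩⟩,true,186,163,.leaf [(3,66049),(4,135),(5,317),(6,35)],.leaf [(3,66049),(4,135),(5,317),(6,35)]⟩,
⟨⟨⟨-167,-132,144⟩,⟨-36,207,148⟩,⟨-192,76,-153⟩⟩,true,187,53,.leaf [(0,208),(1,240),(3,57),(5,1)],.leaf [(0,208),(1,240),(3,57),(5,1)]⟩,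
⟨⟨⟨-167,-132,-144⟩,⟨36,-207,148⟩,⟨-192,76,153⟩⟩,true,187,204,.leaf [(1,7),(2,75),(3,285),(4,1)],.leaf [(1,7),(2,75),(3,285),(4,1)]⟩,
⟨⟨⟨-207,148,36⟩,⟨76,153,-192⟩,⟨-132,-144,-167⟩⟩,true,188,11,.leaf [(0,294),(1,156),(2,7),(6,1)],.leaf [(0,294),(1,156),(2,7),(6,1)]⟩,
⟨⟨⟨-207,148,-36⟩,⟨76,153,192⟩,⟨132,144,-167⟩⟩,true,188,246,.leaf [(3,66049),(4,273),(5,35),(6,5)],.leaf [(3,66049),(4,273),(5,35),(6,5)]⟩,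
⟨⟨⟨225,120,-32⟩,⟨-120,193,-120⟩,⟨-32,120,225⟩⟩,true,189,1,.leaf [(3,771),(7,3),(10,2056),(14,8)],.leaf [(1,2187),(3,1638),(10,772),(15,1)]⟩,
⟨⟨⟨-225,-120,-32⟩,⟨-120,193,120⟩,⟨-32,120,-225⟩⟩,true,189,256,.leaf [(1,73),(2,240),(3,120),(5,1)],.leaf [(1,73),(2,240),(3,120),(5,1)]⟩,
⟨⟨⟨-57,-36,-248⟩,⟨228,-113,-36⟩,⟨-104,-228,57⟩⟩,true,190,81,.leaf [(0,77),(1,2),(3,210),(4,1)],.leaf [(0,77),(1,2),(3,210),(4,1)]⟩,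
⟨⟨⟨57,36,-248⟩,⟨228,-113,36⟩,⟨-104,-228,-57⟩⟩,true,190,176,.leaf [(0,18),(2,131),(3,284),(4,1)],.leaf [(0,18),(2,131),(3,284),(4,1)]⟩,
⟨⟨⟨-113,-108,-204⟩,⟨204,-153,-32⟩,⟨-108,-176,153⟩⟩,true,192,20,.leaf [(0,66049),(4,164),(6,176),(14,17)],.leaf [(0,20),(3,272),(4,1),(10,25)]⟩,
⟨⟨⟨-113,-108,204⟩,⟨-204,153,-32⟩,⟨-108,-176,-153⟩⟩,true,192,237,.leaf [(1,11),(3,74),(5,1),(10,68)],.leaf [(1,66049),(5,245),(6,122),(14,50)]⟩,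
⟨⟨⟨-113,36,228⟩,⟨-228,-57,-104⟩,⟨36,-248,57⟩⟩,true,193,23,.leaf [(6,729),(10,54484),(15,184),(18,4883)],.leaf [(1,69904),(4,265),(10,39835),(14,14)]⟩,
⟨⟨⟨-113,36,-228⟩,⟨228,57,-104⟩,⟨36,-248,-57⟩⟩,true,193,234,.leaf [(3,66049),(4,75),(7,217),(14,49)],.leaf [(3,23130),(10,21331),(15,82),(22,19)]⟩,
⟨⟨⟨-153,-176,108⟩,⟨-32,153,204⟩,⟨-204,108,-113⟩⟩,true,196,90,.leaf [(0,278),(1,221),(2,6),(5,1)],.leaf [(0,278),(1,221),(2,6),(5,1)]⟩,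
⟨⟨⟨-153,-176,-108⟩,⟨-32,153,-204⟩,⟨204,-108,-113⟩⟩,true,196,167,.leaf [(1,45489),(2,12850),(5,237),(6,142)],.leaf [(1,45489),(2,12850),(5,237),(6,142)]⟩,
⟨⟨⟨153,-32,204⟩,⟨-176,-153,108⟩,⟨108,-204,-113⟩⟩,true,198,87,.leaf [(1,472366),(4,2195),(5,1970),(18,14649)],.leaf [(1,154971),(4,252),(10,42148),(15,31)]⟩,
⟨⟨⟨153,-32,-204⟩,⟨-176,-153,-108⟩,⟨-108,204,-113⟩⟩,true,198,170,.leaf [(1,2056),(2,5397),(4,29),(5,8)],.leaf [(1,2056),(2,5397),(4,29),(5,8)]⟩,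
⟨⟨⟨-231,112,12⟩,⟨-32,-39,-252⟩,⟨-108,-228,49⟩⟩,true,202,40,.leaf [(0,48),(2,25),(3,240),(6,1)],.leaf [(0,48),(2,25),(3,240),(6,1)]⟩,
⟨⟨⟨-231,112,-12⟩,⟨-32,-39,252⟩,⟨108,228,49⟩⟩,true,202,217,.leaf [(0,43),(2,108),(3,264),(4,1)],.leaf [(0,43),(2,108),(3,264),(4,1)]⟩,
⟨⟨⟨-167,-144,132⟩,⟨192,-153,76⟩,⟨36,148,207⟩⟩,true,204,70,.leaf [(0,66049),(4,240),(5,112),(6,105)],.leaf [(0,66049),(4,240),(5,112),(6,105)]⟩,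
⟨⟨⟨-167,-144,-132⟩,⟨-192,153,76⟩,⟨36,148,-207⟩⟩,true,204,187,.leaf [(0,7),(2,285),(3,75),(5,1)],.leaf [(0,7),(2,285),(3,75),(5,1)]⟩,
⟨⟨⟨57,120,220⟩,⟨-120,-185,132⟩,⟨220,-132,15⟩⟩,true,205,76,.leaf [(2,66049),(4,305),(5,108),(7,20)],.leaf [(2,66049),(4,305),(5,108),(7,20)]⟩,
⟨⟨⟨-57,-120,220⟩,⟨-120,-185,-132⟩,⟨220,-132,-15⟩⟩,true,205,181,.leaf [(1,78385),(2,3084),(5,310),(7,27)],.leaf [(1,78385),(2,3084),(5,310),(7,27)]⟩,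
⟨⟨⟨-167,36,-192⟩,⟨-132,-207,76⟩,⟨-144,148,153⟩⟩,true,206,15,.leaf [(0,5),(2,238),(3,268),(4,1)],.leaf [(0,5),(2,238),(3,268),(4,1)]⟩,
⟨⟨⟨-167,36,192⟩,⟨132,207,76⟩,⟨-144,148,-153⟩⟩,true,206,242,.leaf [(0,112),(1,240),(3,105),(5,1)],.leaf [(0,112),(1,240),(3,105),(5,1)]⟩,
⟨⟨⟨-39,112,228⟩,⟨-32,-231,108⟩,⟨252,-12,49⟩⟩,true,208,93,.leaf [(0,6425),(2,40092),(4,179),(5,120)],.leaf [(0,6425),(2,40092),(4,179),(5,120)]⟩,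
⟨⟨⟨-39,112,-228⟩,⟨-32,-231,-108⟩,⟨-252,12,49⟩⟩,true,208,164,.leaf [(0,235),(1,120),(2,108),(4,1)],.leaf [(0,235),(1,120),(2,108),(4,1)]⟩,
⟨⟨⟨-153,148,144⟩,⟨76,207,-132⟩,⟨-192,-36,-167⟩⟩,true,209,120,.leaf [(1,40092),(3,68105),(5,355),(6,184)],.leaf [(1,40092),(3,68105),(5,355),(6,184)]⟩,
⟨⟨⟨-153,148,-144⟩,⟨76,207,132⟩,⟨192,36,-167⟩⟩,true,209,137,.leaf [(1,6425),(3,92263),(4,355),(6,59)],.leaf [(1,6425),(3,92263),(4,355),(6,59)]⟩,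
⟨⟨⟨-39,252,-32⟩,⟨228,49,108⟩,⟨112,-12,-231⟩⟩,true,211,14,.leaf [(0,203),(1,38),(3,102),(4,1)],.leaf [(0,203),(1,38),(3,102),(4,1)]⟩,
⟨⟨⟨39,-252,-32⟩,⟨228,49,-108⟩,⟨112,-12,231⟩⟩,true,211,243,.leaf [(0,86352),(1,46003),(5,43),(7,288)],.leaf [(0,86352),(1,46003),(5,43),(7,288)]⟩,
⟨⟨⟨49,108,-228⟩,⟨12,231,112⟩,⟨252,-32,39⟩⟩,true,212,95,.leaf [(1,44461),(3,4626),(4,76),(7,123)],.leaf [(1,44461),(3,4626),(4,76),(7,123)]⟩,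
⟨⟨⟨49,108,228⟩,⟨-12,-231,112⟩,⟨252,-32,-39⟩⟩,true,212,162,.leaf [(0,17219),(2,57054),(4,267),(5,116)],.leaf [(0,17219),(2,57054),(4,267),(5,116)]⟩,
⟨⟨⟨-185,60,168⟩,⟨-60,207,-140⟩,⟨-168,-140,-135⟩⟩,true,215,88,.leaf [(3,3687),(5,9),(10,100),(18,340)],.leaf [(1,1890),(3,1485),(10,628),(15,1)]⟩,
⟨⟨⟨-185,60,-168⟩,⟨60,-207,-140⟩,⟨-168,-140,135⟩⟩,true,215,169,.leaf [(0,267),(1,25),(3,3),(4,1)],.leaf [(0,267),(1,25),(3,3),(4,1)]⟩,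
⟨⟨⟨-185,132,-120⟩,⟨-132,15,220⟩,⟨120,220,57⟩⟩,true,216,84,.leaf [(1,85),(2,117),(3,255),(4,1)],.leaf [(1,85),(2,117),(3,255),(4,1)]⟩,
⟨⟨⟨-185,132,120⟩,⟨132,-15,220⟩,⟨120,220,-57⟩⟩,true,216,173,.leaf [(0,8995),(3,6939),(4,57),(5,7)],.leaf [(0,8995),(3,6939),(4,57),(5,7)]⟩,
⟨⟨⟨231,12,112⟩,⟨108,49,-228⟩,⟨-32,252,39⟩⟩,true,217,55,.leaf [(0,240),(1,25),(3,48),(5,1)],.leaf [(0,240),(1,25),(3,48),(5,1)]⟩,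
⟨⟨⟨-231,-12,112⟩,⟨108,49,228⟩,⟨-32,252,-39⟩⟩,true,217,202,.leaf [(0,9766),(1,9509),(4,26),(5,43)],.leaf [(0,9766),(1,9509),(4,26),(5,43)]⟩,
⟨⟨⟨159,-168,112⟩,⟨168,31,-192⟩,⟨112,192,129⟩⟩,true,222,109,.leaf [(0,51143),(2,35209),(5,241),(7,17)],.leaf [(0,51143),(2,35209),(5,241),(7,17)]⟩,
⟨⟨⟨-159,168,112⟩,⟨168,31,192⟩,⟨112,192,-129⟩⟩,true,222,148,.leaf [(0,38036),(3,34695),(4,268),(5,55)],.leaf [(0,38036),(3,34695),(4,268),(5,55)]⟩,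
⟨⟨⟨193,120,-120⟩,⟨120,-225,-32⟩,⟨-120,-32,-225⟩⟩,true,223,34,.leaf [(0,92),(2,253),(3,88),(4,1)],.leaf [(0,92),(2,253),(3,88),(4,1)]⟩,
⟨⟨⟨193,120,120⟩,⟨-120,225,-32⟩,⟨-120,-32,225⟩⟩,true,223,223,.leaf [(4,1701),(15,225),(18,66049),(23,7)],.leaf [(1,242865),(7,1530),(10,192236),(15,77)]⟩,
⟨⟨⟨129,112,192⟩,⟨112,159,-168⟩,⟨-192,168,31⟩⟩,true,224,127,.leaf [(0,6939),(3,9509),(5,61),(6,13)],.leaf [(0,6939),(3,9509),(5,61),(6,13)]⟩,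
⟨⟨⟨129,112,-192⟩,⟨112,159,168⟩,⟨192,-168,31⟩⟩,true,224,130,.leaf [(1,57311),(3,41377),(4,271),(6,47)],.leaf [(1,57311),(3,41377),(4,271),(6,47)]⟩,
⟨⟨⟨-113,-228,-36⟩,⟨-36,57,-248⟩,⟨228,-104,-57⟩⟩,true,234,64,.leaf [(1,301),(2,865),(5,5),(18,49)],.leaf [(1,413),(2,26),(5,1),(10,98)]⟩,
⟨⟨⟨-113,-228,36⟩,⟨36,-57,-248⟩,⟨228,-104,57⟩⟩,true,234,193,.leaf [(2,66049),(5,75),(6,217),(15,49)],.leaf [(0,5),(1,930),(5,2),(10,243)]⟩,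
⟨⟨⟨31,-168,-192⟩,⟨-168,-159,112⟩,⟨-192,112,-129⟩⟩,true,235,85,.leaf [(1,69133),(3,15420),(4,280),(5,9)],.leaf [(1,69133),(3,15420),(4,280),(5,9)]⟩,
⟨⟨⟨31,-168,192⟩,⟨168,159,112⟩,⟨-192,112,129⟩⟩,true,235,172,.leaf [(0,280),(1,60),(3,3),(5,1)],.leaf [(0,280),(1,60),(3,3),(5,1)]⟩,
⟨⟨⟨-231,-32,108⟩,⟨112,-39,228⟩,⟨-12,252,49⟩⟩,true,236,103,.leaf [(0,32639),(3,40092),(4,281),(5,108)],.leaf [(0,32639),(3,40092),(4,281),(5,108)]⟩,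
⟨⟨⟨-231,-32,-108⟩,⟨112,-39,-228⟩,⟨12,-252,49⟩⟩,true,236,154,.leaf [(3,148032),(6,936),(10,43433),(14,23)],.leaf [(3,66049),(4,264),(6,136),(15,61)]⟩,
⟨⟨⟨-113,204,108⟩,⟨108,153,-176⟩,⟨-204,-32,-153⟩⟩,true,237,65,.leaf [(0,12771),(3,7497),(18,1979),(23,1)],.leaf [(0,147),(3,145),(7,1),(10,25)]⟩,
⟨⟨⟨-113,204,-108⟩,⟨-108,-153,-176⟩,⟨-204,-32,153⟩⟩,true,237,192,.leaf [(0,11),(2,74),(4,1),(11,68)],.leaf [(0,164),(2,176),(4,1),(10,17)]⟩,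
⟨⟨⟨-135,-140,168⟩,⟨-140,207,60⟩,⟨-168,-60,-185⟩⟩,true,239,73,.leaf [(0,80),(1,200),(3,153),(5,1)],.leaf [(0,80),(1,200),(3,153),(5,1)]⟩,
⟨⟨⟨-135,-140,-168⟩,⟨-140,207,-60⟩,⟨168,60,-185⟩⟩,true,239,184,.leaf [(1,66049),(4,233),(5,353),(6,153)],.leaf [(1,66049),(4,233),(5,353),(6,153)]⟩,
⟨⟨⟨-255,-32,0⟩,⟨-32,255,0⟩,⟨0,0,-257⟩⟩,true,241,0,.leaf [(0,17),(1,257),(2,15),(5,1)],.leaf [(0,17),(1,257),(2,15),(5,1)]⟩,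
⟨⟨⟨-167,192,-36⟩,⟨144,153,148⟩,⟨132,76,-207⟩⟩,true,242,51,.leaf [(0,1799),(3,40092),(4,177),(5,44)],.leaf [(0,1799),(3,40092),(4,177),(5,44)]⟩,
⟨⟨⟨-167,192,36⟩,⟨-144,-153,148⟩,⟨132,76,207⟩⟩,true,242,206,.leaf [(0,240),(1,112),(2,105),(4,1)],.leaf [(0,240),(1,112),(2,105),(4,1)]⟩,
⟨⟨⟨39,-32,252⟩,⟨112,231,12⟩,⟨-228,108,49⟩⟩,true,243,46,.leaf [(0,140),(1,38),(3,165),(5,1)],.leaf [(0,140),(1,38),(3,165),(5,1)]⟩,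
⟨⟨⟨39,-32,-252⟩,⟨112,231,-12⟩,⟨228,-108,49⟩⟩,true,243,211,.leaf [(0,46003),(1,86352),(4,43),(6,288)],.leaf [(0,46003),(1,86352),(4,43),(6,288)]⟩,
⟨⟨⟨207,36,148⟩,⟨132,-167,-144⟩,⟨76,192,-153⟩⟩,true,246,69,.leaf [(1,7),(2,156),(3,294),(5,1)],.leaf [(1,7),(2,156),(3,294),(5,1)]⟩,
⟨⟨⟨-207,-36,148⟩,⟨132,-167,144⟩,⟨76,192,153⟩⟩,true,246,188,.leaf [(2,66049),(4,35),(5,273),(7,5)],.leaf [(2,66049),(4,35),(5,273),(7,5)]⟩,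
⟨⟨⟨-63,184,168⟩,⟨-248,-63,-24⟩,⟨24,-168,193⟩⟩,true,250,83,.leaf [(0,66049),(4,79),(6,216),(14,48)],.leaf [(2,37265),(4,180),(6,17),(10,9252)]⟩,
⟨⟨⟨-63,184,-168⟩,⟨-248,-63,24⟩,⟨-24,168,193⟩⟩,true,250,174,.leaf [(1,65),(2,247),(3,127),(4,1)],.leaf [(1,65),(2,247),(3,127),(4,1)]⟩,
⟨⟨⟨49,12,-252⟩,⟨-108,-231,-32⟩,⟨-228,112,-39⟩⟩,true,252,105,.leaf [(0,153),(1,220),(2,90),(4,1)],.leaf [(0,153),(1,220),(2,90),(4,1)]⟩,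
⟨⟨⟨49,12,252⟩,⟨108,231,-32⟩,⟨-228,112,39⟩⟩,true,252,152,.leaf [(0,82),(2,18),(3,213),(5,1)],.leaf [(0,82),(2,18),(3,213),(5,1)]⟩,
⟨⟨⟨-57,228,-104⟩,⟨-36,-113,-228⟩,⟨-248,-36,57⟩⟩,true,253,92,.leaf [(2,43947),(4,855),(11,59881),(15,43)],.leaf [(0,150),(2,160),(4,1),(10,31)]⟩,
⟨⟨⟨57,-228,-104⟩,⟨-36,-113,228⟩,⟨-248,-36,-57⟩⟩,true,253,165,.leaf [(1,20560),(3,37779),(4,192),(5,115)],.leaf [(1,20560),(3,37779),(4,192),(5,115)]⟩,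
⟨⟨⟨-225,-32,120⟩,⟨-32,-225,-120⟩,⟨120,-120,193⟩⟩,true,256,68,.leaf [(2,514),(4,3),(5,4),(14,1)],.leaf [(0,133),(4,1),(10,60)]⟩,
⟨⟨⟨-225,-32,-120⟩,⟨-32,-225,120⟩,⟨-120,120,193⟩⟩,true,256,189,.leaf [(0,73),(2,120),(3,240),(4,1)],.leaf [(0,73),(2,120),(3,240),(4,1)]⟩]

theorem primeOk_257 : PrimeOk 257 := primeOk (by norm_num) (by norm_num) (by norm_num) L257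
  (by decide +kernel) (by decide +kernel)

end Pool.Agent.Lib.H63.TSP
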