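import Mathlib
import Pool.Agent.Lib.H63.TSPPrime

/-!
# Generated certificates for the primes 67, 73, 191, 251
-/

set_option autoImplicit false

namespace Pool.Agent.Lib.H63.TSP

def L67 : List Cls := [
⟨⟨⟨49,-18,42⟩,⟨-18,49,42⟩,⟨-42,-42,31⟩⟩,true,1,20,.leaf [(3,2412),(6,33),(15,4),(18,67)],.R (.leaf [(1,729),(10,315),(26,7),(35,5)]) (.leaf [(1,2916),(10,855),(26,58),(34,5)]) (.R (.leaf [(1,5832),(10,1305),(26,116),(42,5)]) (.leaf [(10,1407),(23,35),(26,335),(47,1)]) (.leaf [(1,8019),(10,2250),(26,182),(43,5)]))⟩,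
⟨⟨⟨49,-18,-42⟩,⟨-18,49,-42⟩,⟨42,42,31⟩⟩,true,1,47,.leaf [(1,111),(2,190),(7,5),(18,14)],.leaf [(1,6767),(5,4),(7,57),(10,1608)]⟩,
⟨⟨⟨-15,-30,58⟩,⟨-50,-33,-30⟩,⟨42,-50,-15⟩⟩,true,2,14,.leaf [(2,47),(5,4),(10,82),(18,9)],.leaf [(1,1318761),(15,14850),(26,128908),(31,65)]⟩,
⟨⟨⟨15,30,58⟩,⟨-50,-33,30⟩,⟨42,-50,15⟩⟩,true,2,53,.leaf [(1,666),(2,1365),(15,10),(18,49)],.leaf [(1,32),(2,48),(4,1),(10,15)]⟩,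
⟨⟨⟨33,30,-50⟩,⟨-50,-15,-42⟩,⟨-30,58,15⟩⟩,true,7,33,.leaf [(2,4489),(4,78),(5,28),(6,13)],.leaf [(2,4489),(4,78),(5,28),(6,13)]⟩,
⟨⟨⟨-33,-30,-50⟩,⟨-50,-15,42⟩,⟨-30,58,-15⟩⟩,true,7,34,.leaf [(1,4556),(3,3015),(4,88),(5,15)],.leaf [(1,4556),(3,3015),(4,88),(5,15)]⟩,
⟨⟨⟨31,42,42⟩,⟨-42,49,-18⟩,⟨-42,-18,49⟩⟩,true,10,10,.leaf [(4,243),(15,144),(18,4489),(22,8)],.leaf [(1,1809),(7,45),(10,1340),(14,4)]⟩,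
⟨⟨⟨31,42,-42⟩,⟨-42,49,18⟩,⟨42,18,49⟩⟩,true,10,57,.leaf [(1,4489),(4,55),(7,13),(14,5)],.leaf [(1,33),(2,50),(7,1),(10,10)]⟩,
⟨⟨⟨33,-6,58⟩,⟨22,63,-6⟩,⟨-54,22,33⟩⟩,true,12,18,.leaf [(0,13467),(5,236),(6,121),(14,2)],.leaf [(0,6432),(5,112),(6,59),(10,67)]⟩,
⟨⟨⟨-33,6,58⟩,⟨22,63,6⟩,⟨-54,22,-33⟩⟩,true,12,49,.leaf [(0,16),(1,43),(3,48),(5,1)],.leaf [(0,16),(1,43),(3,48),(5,1)]⟩,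
⟨⟨⟨-15,58,-30⟩,⟨42,-15,-50⟩,⟨-50,-30,-33⟩⟩,true,14,2,.L (.leaf [(1,134),(2,603),(4,11),(5,2)]) (.leaf [(0,938),(2,3015),(5,4),(6,45)]) (.leaf [(1,16281),(6,135),(19,2345),(22,7)]),.leaf [(0,60),(2,8),(4,1),(10,5)]⟩,
⟨⟨⟨-15,58,30⟩,⟨-42,15,-50⟩,⟨-50,-30,33⟩⟩,true,14,65,.leaf [(2,4489),(4,115),(7,112),(18,536)],.leaf [(1,48),(2,11),(4,1),(10,32)]⟩,
⟨⟨⟨33,58,-6⟩,⟨-54,33,22⟩,⟨22,-6,63⟩⟩,true,18,12,.leaf [(1,13467),(4,236),(7,121),(15,2)],.leaf [(1,804),(4,11),(7,4),(10,67)]⟩,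
⟨⟨⟨33,58,6⟩,⟨54,-33,22⟩,⟨22,-6,-63⟩⟩,true,18,55,.leaf [(0,64),(1,16),(2,27),(4,1)],.leaf [(0,64),(1,16),(2,27),(4,1)]⟩,
⟨⟨⟨15,-50,-42⟩,⟨-30,33,-50⟩,⟨58,30,-15⟩⟩,true,19,24,.leaf [(2,333),(11,4),(14,2),(18,15)],.leaf [(0,47),(2,246),(5,4),(10,27)]⟩,
⟨⟨⟨15,-50,42⟩,⟨30,-33,-50⟩,⟨58,30,15⟩⟩,true,19,43,.leaf [(0,5),(2,75),(3,27),(5,1)],.leaf [(0,5),(2,75),(3,27),(5,1)]⟩,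
⟨⟨⟨49,42,-18⟩,⟨-42,31,-42⟩,⟨-18,42,49⟩⟩,true,20,1,.leaf [(2,19296),(7,336),(14,59),(18,67)],.leaf [(0,75),(2,230),(7,4),(10,31)]⟩,
⟨⟨⟨49,42,18⟩,⟨-42,31,42⟩,⟨18,-42,49⟩⟩,true,20,66,.leaf [(1,176),(2,125),(4,5),(18,14)],.leaf [(1,41004),(4,369),(10,7102),(14,17)]⟩,
⟨⟨⟨33,22,54⟩,⟨6,-63,22⟩,⟨58,-6,-33⟩⟩,true,23,26,.leaf [(0,1675),(2,4824),(4,87),(5,32)],.leaf [(0,1675),(2,4824),(4,87),(5,32)]⟩,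
⟨⟨⟨33,22,-54⟩,⟨-6,63,22⟩,⟨58,-6,33⟩⟩,true,23,41,.leaf [(3,737),(4,7),(7,3),(18,67)],.leaf [(1,675),(3,444),(10,280),(15,1)]⟩,
⟨⟨⟨15,-42,-50⟩,⟨58,-15,30⟩,⟨-30,-50,33⟩⟩,true,24,19,.leaf [(3,144),(6,3),(10,11),(18,32)],.leaf [(4,486),(10,13467),(22,119),(31,4)]⟩,
⟨⟨⟨-15,42,-50⟩,⟨58,-15,-30⟩,⟨-30,-50,-33⟩⟩,true,24,48,.leaf [(0,57),(1,2),(3,18),(4,1)],.leaf [(0,57),(1,2),(3,18),(4,1)]⟩,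
⟨⟨⟨33,54,22⟩,⟨58,-33,-6⟩,⟨6,22,-63⟩⟩,true,26,23,.leaf [(0,4690),(2,1809),(4,85),(5,28)],.leaf [(0,4690),(2,1809),(4,85),(5,28)]⟩,
⟨⟨⟨-33,-54,22⟩,⟨58,-33,6⟩,⟨6,22,63⟩⟩,true,26,44,.leaf [(2,30),(5,3),(11,67),(18,14)],.leaf [(0,33),(2,230),(5,4),(10,41)]⟩,
⟨⟨⟨63,22,6⟩,⟨6,-33,58⟩,⟨22,-54,-33⟩⟩,true,28,32,.leaf [(0,25),(1,52),(2,30),(4,1)],.leaf [(0,25),(1,52),(2,30),(4,1)]⟩,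
⟨⟨⟨63,22,-6⟩,⟨-6,33,58⟩,⟨22,-54,33⟩⟩,true,28,35,.leaf [(2,201),(3,536),(4,5),(7,8)],.leaf [(2,201),(3,536),(4,5),(7,8)]⟩,
⟨⟨⟨-63,-18,-14⟩,⟨-14,63,-18⟩,⟨18,-14,-63⟩⟩,true,29,30,.leaf [(1,603),(2,134),(5,11),(6,2)],.leaf [(1,603),(2,134),(5,11),(6,2)]⟩,
⟨⟨⟨63,18,-14⟩,⟨-14,63,18⟩,⟨18,-14,63⟩⟩,true,29,37,.leaf [(1,268),(2,3015),(4,14),(6,45)],.leaf [(1,268),(2,3015),(4,14),(6,45)]⟩,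
⟨⟨⟨-63,-14,-18⟩,⟨18,-63,-14⟩,⟨-14,-18,63⟩⟩,true,30,29,.leaf [(0,603),(3,134),(4,11),(7,2)],.leaf [(0,603),(3,134),(4,11),(7,2)]⟩,
⟨⟨⟨-63,-14,18⟩,⟨-18,63,-14⟩,⟨-14,-18,-63⟩⟩,true,30,38,.leaf [(1,536),(3,67),(5,8),(7,1)],.leaf [(1,536),(3,67),(5,8),(7,1)]⟩,
⟨⟨⟨63,6,22⟩,⟨22,-33,-54⟩,⟨6,58,-33⟩⟩,true,32,28,.leaf [(0,871),(1,335),(4,5),(5,13)],.leaf [(0,871),(1,335),(4,5),(5,13)]⟩,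
⟨⟨⟨-63,-6,22⟩,⟨22,-33,54⟩,⟨6,58,33⟩⟩,true,32,39,.leaf [(0,2479),(3,1809),(4,61),(5,13)],.leaf [(0,2479),(3,1809),(4,61),(5,13)]⟩,
⟨⟨⟨33,-50,30⟩,⟨-30,15,58⟩,⟨-50,-42,-15⟩⟩,true,33,7,.leaf [(3,4489),(4,28),(5,78),(7,13)],.leaf [(3,4489),(4,28),(5,78),(7,13)]⟩,
⟨⟨⟨33,-50,-30⟩,⟨30,-15,58⟩,⟨-50,-42,15⟩⟩,true,33,60,.leaf [(3,4489),(4,88),(5,63),(7,28)],.leaf [(3,4489),(4,88),(5,63),(7,28)]⟩,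
⟨⟨⟨-33,-50,-30⟩,⟨-30,-15,58⟩,⟨-50,42,-15⟩⟩,true,34,7,.leaf [(1,3350),(3,4221),(4,92),(5,35)],.leaf [(1,3350),(3,4221),(4,92),(5,35)]⟩,
⟨⟨⟨-33,-50,30⟩,⟨30,15,58⟩,⟨-50,42,15⟩⟩,true,34,60,.leaf [(0,871),(1,335),(4,5),(5,13)],.leaf [(0,871),(1,335),(4,5),(5,13)]⟩,
⟨⟨⟨63,-6,22⟩,⟨22,33,-54⟩,⟨-6,58,33⟩⟩,true,35,28,.leaf [(2,536),(3,201),(5,5),(6,8)],.leaf [(2,536),(3,201),(5,5),(6,8)]⟩,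
⟨⟨⟨-63,6,22⟩,⟨22,33,54⟩,⟨-6,58,-33⟩⟩,true,35,39,.leaf [(0,335),(1,536),(4,3),(5,8)],.leaf [(0,335),(1,536),(4,3),(5,8)]⟩,
⟨⟨⟨63,-14,18⟩,⟨18,63,-14⟩,⟨-14,18,63⟩⟩,true,37,29,.leaf [(0,268),(3,3015),(5,14),(7,45)],.leaf [(0,268),(3,3015),(5,14),(7,45)]⟩,
⟨⟨⟨63,-14,-18⟩,⟨-18,-63,-14⟩,⟨-14,18,-63⟩⟩,true,37,38,.leaf [(1,134),(2,603),(4,11),(5,2)],.leaf [(1,134),(2,603),(4,11),(5,2)]⟩,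
⟨⟨⟨-63,18,-14⟩,⟨-14,-63,-18⟩,⟨-18,-14,63⟩⟩,true,38,30,.leaf [(0,536),(2,67),(4,8),(6,1)],.leaf [(0,536),(2,67),(4,8),(6,1)]⟩,
⟨⟨⟨63,-18,-14⟩,⟨-14,-63,18⟩,⟨-18,-14,-63⟩⟩,true,38,37,.leaf [(1,32),(2,45),(4,1)],.leaf [(1,32),(2,45),(4,1)]⟩,
⟨⟨⟨-63,22,-6⟩,⟨6,33,58⟩,⟨22,54,-33⟩⟩,true,39,32,.leaf [(0,201),(1,536),(4,5),(5,8)],.leaf [(0,201),(1,536),(4,5),(5,8)]⟩,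
⟨⟨⟨-63,22,6⟩,⟨-6,-33,58⟩,⟨22,54,33⟩⟩,true,39,35,.leaf [(0,55),(1,25),(3,27),(4,1)],.leaf [(0,55),(1,25),(3,27),(4,1)]⟩,
⟨⟨⟨33,-54,22⟩,⟨58,33,-6⟩,⟨-6,22,63⟩⟩,true,41,23,.leaf [(2,1943),(5,16),(6,93),(18,536)],.leaf [(0,189),(2,74),(5,4),(10,41)]⟩,
⟨⟨⟨-33,54,22⟩,⟨58,33,6⟩,⟨-6,22,-63⟩⟩,true,41,44,.leaf [(3,4489),(4,72),(5,69),(6,8)],.leaf [(3,4489),(4,72),(5,69),(6,8)]⟩,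
⟨⟨⟨15,42,-50⟩,⟨58,15,30⟩,⟨30,-50,-33⟩⟩,true,43,19,.leaf [(1,5),(2,27),(3,75),(4,1)],.leaf [(1,5),(2,27),(3,75),(4,1)]⟩,
⟨⟨⟨-15,-42,-50⟩,⟨58,15,-30⟩,⟨30,-50,33⟩⟩,true,43,48,.leaf [(1,213),(3,295),(6,5),(18,27)],.leaf [(1,540),(3,171),(10,152),(15,1)]⟩,
⟨⟨⟨-33,22,-54⟩,⟨6,63,22⟩,⟨58,6,-33⟩⟩,true,44,26,.leaf [(3,737),(4,7),(5,3),(18,67)],.leaf [(1,1161),(3,84),(10,392),(23,1)]⟩,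
⟨⟨⟨-33,22,54⟩,⟨-6,-63,22⟩,⟨58,6,33⟩⟩,true,44,41,.leaf [(2,4489),(4,69),(5,72),(7,8)],.leaf [(2,4489),(4,69),(5,72),(7,8)]⟩,
⟨⟨⟨49,-42,-18⟩,⟨42,31,42⟩,⟨-18,-42,49⟩⟩,true,47,1,.leaf [(0,3996),(3,3357),(18,724),(23,1)],.leaf [(3,22512),(6,288),(10,3953),(22,1)]⟩,
⟨⟨⟨49,-42,18⟩,⟨42,31,-42⟩,⟨18,42,49⟩⟩,true,47,66,.leaf [(0,478),(2,13),(5,4),(18,31)],.leaf [(0,199),(2,106),(5,4),(10,31)]⟩,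
⟨⟨⟨-15,-50,42⟩,⟨-30,-33,-50⟩,⟨58,-30,-15⟩⟩,true,48,24,.leaf [(0,2),(1,57),(2,18),(5,1)],.leaf [(0,2),(1,57),(2,18),(5,1)]⟩,
⟨⟨⟨-15,-50,-42⟩,⟨30,33,-50⟩,⟨58,-30,15⟩⟩,true,48,43,.leaf [(0,65),(5,1),(11,5),(18,13)],.leaf [(0,219),(2,74),(7,4),(10,27)]⟩,
⟨⟨⟨-33,58,6⟩,⟨-54,-33,22⟩,⟨22,6,63⟩⟩,true,49,12,.leaf [(0,43),(1,16),(2,48),(4,1)],.leaf [(0,43),(1,16),(2,48),(4,1)]⟩,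
⟨⟨⟨-33,58,-6⟩,⟨54,33,22⟩,⟨22,6,-63⟩⟩,true,49,55,.leaf [(3,3350),(4,49),(5,30),(18,67)],.leaf [(3,4489),(4,74),(5,33),(10,134)]⟩,
⟨⟨⟨15,58,30⟩,⟨42,15,-50⟩,⟨-50,30,-33⟩⟩,true,53,2,.leaf [(0,1539),(3,2133),(18,323),(23,1)],.leaf [(0,1943),(4,93),(5,16),(10,1608)]⟩,
⟨⟨⟨15,58,-30⟩,⟨-42,-15,-50⟩,⟨-50,30,33⟩⟩,true,53,65,.leaf [(2,1809),(4,33),(11,134),(15,2)],.leaf [(0,3),(2,65),(4,1),(10,5)]⟩,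
⟨⟨⟨33,6,58⟩,⟨22,-63,-6⟩,⟨54,22,-33⟩⟩,true,55,18,.leaf [(0,335),(1,536),(4,3),(5,8)],.leaf [(0,335),(1,536),(4,3),(5,8)]⟩,
⟨⟨⟨-33,-6,58⟩,⟨22,-63,6⟩,⟨54,22,33⟩⟩,true,55,49,.leaf [(2,18358),(4,159),(5,320),(18,67)],.leaf [(2,9983),(4,93),(5,172),(10,134)]⟩,
⟨⟨⟨31,-42,42⟩,⟨42,49,18⟩,⟨-42,18,49⟩⟩,true,57,10,.leaf [(0,4489),(5,55),(6,13),(15,5)],.leaf [(0,55),(3,13),(5,1),(10,5)]⟩,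
⟨⟨⟨31,-42,-42⟩,⟨42,49,-18⟩,⟨42,-18,49⟩⟩,true,57,57,.leaf [(3,3015),(7,171),(18,1273),(22,5)],.leaf [(1,1005),(5,57),(10,1273),(14,5)]⟩,
⟨⟨⟨33,-30,-50⟩,⟨-50,15,-42⟩,⟨30,58,-15⟩⟩,true,60,33,.leaf [(2,4489),(4,63),(5,88),(6,28)],.leaf [(2,4489),(4,63),(5,88),(6,28)]⟩,
⟨⟨⟨-33,30,-50⟩,⟨-50,15,42⟩,⟨30,58,15⟩⟩,true,60,34,.leaf [(0,15),(1,62),(3,30),(4,1)],.leaf [(0,15),(1,62),(3,30),(4,1)]⟩,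
⟨⟨⟨-15,30,58⟩,⟨-50,33,-30⟩,⟨-42,-50,15⟩⟩,true,65,14,.R (.leaf [(0,108),(3,117),(18,20),(27,1)]) (.leaf [(0,189),(3,144),(18,32),(26,1)]) (.leaf [(0,756),(3,3735),(18,476),(31,1)]),.leaf [(0,111),(3,4),(6,2),(10,15)]⟩,
⟨⟨⟨15,-30,58⟩,⟨-50,33,30⟩,⟨-42,-50,-15⟩⟩,true,65,53,.leaf [(3,1809),(5,33),(10,134),(14,2)],.leaf [(1,16281),(5,1296),(26,2144),(31,25)]⟩,
⟨⟨⟨49,18,42⟩,⟨18,49,-42⟩,⟨-42,42,31⟩⟩,true,66,20,.R (.leaf [(0,108),(3,117),(18,20),(27,1)]) (.leaf [(0,189),(3,144),(18,32),(26,1)]) (.R (.leaf [(0,413343),(18,39150),(34,2405),(39,4)]) (.R (.leaf [(0,124659),(18,11571),(31,43),(43,119)]) (.leaf [(0,538002),(18,42441),(31,148),(42,119)]) (.R (.leaf [(0,1076004),(18,75243),(31,296),(50,119)]) (.leaf [(18,1407),(31,35),(34,335),(55,1)])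 (.leaf [(0,951345),(31,1191),(34,19775),(51,161)]))) (.leaf [(0,19683),(18,1623),(31,5),(35,17)])),.leaf [(0,10),(3,67),(5,1),(10,14)]⟩,
⟨⟨⟨49,18,-42⟩,⟨18,49,42⟩,⟨42,-42,31⟩⟩,true,66,47,.leaf [(1,179),(3,365),(4,5),(18,31)],.leaf [(1,378),(3,378),(10,137),(14,1)]⟩]

theorem primeOk_67 : PrimeOk 67 := primeOk (by norm_num) (by norm_num) (by norm_num) L67
  (by decide +kernel) (by decide +kernel)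

def L73 : List Cls := [
⟨⟨⟨73,0,0⟩,⟨0,55,-48⟩,⟨0,48,55⟩⟩,false,0,27,.leaf [(5,756),(7,1092),(14,467),(18,5329)],.leaf [(0,10001),(5,242),(7,50),(10,4015)]⟩,
⟨⟨⟨73,0,0⟩,⟨0,55,48⟩,⟨0,-48,55⟩⟩,false,0,46,.leaf [(4,1593),(6,330),(15,460),(18,5329)],.R (.leaf [(1,729),(10,315),(26,7),(35,5)]) (.leaf [(1,2916),(10,855),(26,58),(34,5)]) (.leaf [(1,125388),(10,28665),(26,1894),(38,5)])⟩,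
⟨⟨⟨55,0,-48⟩,⟨0,73,0⟩,⟨48,0,55⟩⟩,true,0,27,.leaf [(7,96),(10,2920),(14,45),(18,73)],.leaf [(1,11169),(7,78),(10,3212),(15,11)]⟩,
⟨⟨⟨55,0,48⟩,⟨0,73,0⟩,⟨-48,0,55⟩⟩,true,0,46,.leaf [(0,5329),(5,28),(6,7),(15,20)],.leaf [(3,132),(10,78),(14,1),(26,1)]⟩,
⟨⟨⟨1,-72,12⟩,⟨-72,1,12⟩,⟨-12,-12,-71⟩⟩,true,1,12,.leaf [(1,5),(2,60),(3,78),(5,1)],.leaf [(1,5),(2,60),(3,78),(5,1)]⟩,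
⟨⟨⟨1,-72,-12⟩,⟨-72,1,-12⟩,⟨12,12,-71⟩⟩,true,1,61,.leaf [(0,7),(2,77),(3,59),(5,1)],.leaf [(0,7),(2,77),(3,59),(5,1)]⟩,
⟨⟨⟨-71,12,12⟩,⟨-12,1,-72⟩,⟨-12,-72,1⟩⟩,true,6,6,.leaf [(0,47304),(6,837),(18,11315),(22,10)],.leaf [(3,10512),(4,351),(10,10439),(14,22)]⟩,
⟨⟨⟨-71,12,-12⟩,⟨-12,1,72⟩,⟨12,72,1⟩⟩,true,6,67,.leaf [(1,7),(2,11),(3,77),(4,1)],.leaf [(1,7),(2,11),(3,77),(4,1)]⟩,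
⟨⟨⟨33,12,64⟩,⟨-44,57,12⟩,⟨-48,-44,33⟩⟩,true,7,13,.L (.L (.leaf [(0,80),(1,63),(5,1)]) (.leaf [(0,584),(1,1241),(4,8),(7,9)]) (.L (.leaf [(0,803),(4,3),(5,7),(11,219)]) (.leaf [(1,29565),(5,2673),(27,8030),(30,4)]) (.leaf [(0,7373),(3,2336),(4,72),(6,53)]))) (.leaf [(0,621),(1,180),(11,140),(14,1)]) (.leaf [(0,2044),(3,6351),(4,84),(5,17)]),.leaf [(3,2701),(5,43),(6,55),(10,1387)]⟩,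
⟨⟨⟨-33,-12,64⟩,⟨-44,57,-12⟩,⟨-48,-44,-33⟩⟩,true,7,60,.leaf [(3,4015),(5,55),(6,31),(18,73)],.leaf [(3,1168),(5,16),(6,13),(10,73)]⟩,
⟨⟨⟨-9,-72,-8⟩,⟨-8,9,-72⟩,⟨72,-8,-9⟩⟩,true,8,9,.leaf [(1,657),(2,584),(5,17),(6,8)],.leaf [(1,657),(2,584),(5,17),(6,8)]⟩,
⟨⟨⟨9,72,-8⟩,⟨-8,9,72⟩,⟨72,-8,9⟩⟩,true,8,64,.leaf [(0,63),(1,80),(4,1)],.leaf [(0,63),(1,80),(4,1)]⟩,
⟨⟨⟨-9,-8,-72⟩,⟨72,-9,-8⟩,⟨-8,-72,9⟩⟩,true,9,8,.leaf [(0,657),(3,584),(4,17),(7,8)],.leaf [(0,657),(3,584),(4,17),(7,8)]⟩,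
⟨⟨⟨-9,-8,72⟩,⟨-72,9,-8⟩,⟨-8,-72,-9⟩⟩,true,9,65,.leaf [(1,365),(3,292),(5,5),(7,4)],.leaf [(1,365),(3,292),(5,5),(7,4)]⟩,
⟨⟨⟨63,36,-8⟩,⟨28,-57,-36⟩,⟨-24,28,-63⟩⟩,true,11,30,.leaf [(0,2701),(2,2190),(4,55),(5,28)],.leaf [(0,2701),(2,2190),(4,55),(5,28)]⟩,
⟨⟨⟨-63,-36,-8⟩,⟨28,-57,36⟩,⟨-24,28,63⟩⟩,true,11,43,.leaf [(0,61101),(5,360),(18,7300),(22,7)],.leaf [(0,13067),(4,206),(5,140),(10,219)]⟩,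
⟨⟨⟨1,12,-72⟩,⟨-12,-71,-12⟩,⟨-72,12,1⟩⟩,true,12,1,.leaf [(0,5),(2,78),(3,60),(4,1)],.leaf [(0,5),(2,78),(3,60),(4,1)]⟩,
⟨⟨⟨1,12,72⟩,⟨-12,-71,12⟩,⟨72,-12,1⟩⟩,true,12,72,.leaf [(2,5329),(4,78),(5,60),(6,5)],.leaf [(2,5329),(4,78),(5,60),(6,5)]⟩,
⟨⟨⟨33,64,12⟩,⟨-48,33,-44⟩,⟨-44,12,57⟩⟩,true,13,7,.leaf [(2,5621),(4,242),(7,116),(18,1387)],.leaf [(1,25623),(4,222),(10,8906),(15,11)]⟩,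
⟨⟨⟨33,64,-12⟩,⟨48,-33,-44⟩,⟨-44,12,-57⟩⟩,true,13,66,.leaf [(0,10658),(4,174),(5,115),(15,3)],.leaf [(0,16279),(4,258),(5,164),(10,219)]⟩,
⟨⟨⟨-57,-36,28⟩,⟨28,-63,-24⟩,⟨36,-8,63⟩⟩,true,16,20,.leaf [(4,1233),(5,1128),(15,440),(18,5329)],.leaf [(0,5621),(4,242),(5,116),(10,4161)]⟩,
⟨⟨⟨57,36,28⟩,⟨28,-63,24⟩,⟨36,-8,-63⟩⟩,true,16,53,.leaf [(0,3139),(2,5694),(4,91),(5,4)],.leaf [(0,3139),(2,5694),(4,91),(5,4)]⟩,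
⟨⟨⟨-63,24,28⟩,⟨-8,-63,36⟩,⟨36,28,57⟩⟩,true,17,32,.leaf [(0,75),(1,8),(2,12),(4,1)],.leaf [(0,75),(1,8),(2,12),(4,1)]⟩,
⟨⟨⟨63,-24,28⟩,⟨-8,-63,-36⟩,⟨36,28,-57⟩⟩,true,17,41,.leaf [(0,1898),(1,1825),(4,10),(5,29)],.leaf [(0,1898),(1,1825),(4,10),(5,29)]⟩,
⟨⟨⟨57,-12,-44⟩,⟨-44,-33,-48⟩,⟨-12,64,-33⟩⟩,true,19,21,.leaf [(2,5329),(4,87),(5,52),(6,10)],.leaf [(2,5329),(4,87),(5,52),(6,10)]⟩,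
⟨⟨⟨-57,12,-44⟩,⟨-44,-33,48⟩,⟨-12,64,33⟩⟩,true,19,52,.leaf [(0,45),(1,62),(3,30),(4,1)],.leaf [(0,45),(1,62),(3,30),(4,1)]⟩,
⟨⟨⟨-57,28,-36⟩,⟨36,63,-8⟩,⟨28,-24,-63⟩⟩,true,20,16,.leaf [(4,294),(5,1548),(14,343),(18,5329)],.R (.leaf [(1,1458),(10,420),(23,1),(35,5)]) (.leaf [(1,62694),(10,12075),(23,58),(34,35)]) (.R (.leaf [(1,125388),(10,21315),(23,116),(42,35)]) (.R (.leaf [(1,729),(10,336),(23,8),(51,7)]) (.leaf [(1,471663),(10,92085),(23,451),(50,35)]) (.leaf [(1,19711971),(4,213255),(23,46367),(54,35)])) (.leaf [(1,26973),(10,4980),(23,26),(43,5)]))⟩,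
⟨⟨⟨-57,28,36⟩,⟨-36,-63,-8⟩,⟨28,-24,63⟩⟩,true,20,57,.leaf [(0,438),(2,365),(4,9),(7,4)],.leaf [(0,438),(2,365),(4,9),(7,4)]⟩,
⟨⟨⟨57,-44,-12⟩,⟨-12,-33,64⟩,⟨-44,-48,-33⟩⟩,true,21,19,.leaf [(3,5329),(4,52),(5,87),(7,10)],.leaf [(3,5329),(4,52),(5,87),(7,10)]⟩,
⟨⟨⟨57,-44,12⟩,⟨12,33,64⟩,⟨-44,-48,33⟩⟩,true,21,54,.leaf [(3,5329),(4,76),(5,78),(7,67)],.leaf [(3,5329),(4,76),(5,78),(7,67)]⟩,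
⟨⟨⟨33,-44,48⟩,⟨-12,-57,-44⟩,⟨64,12,-33⟩⟩,true,23,28,.leaf [(0,53),(1,81),(2,3),(5,1)],.leaf [(0,53),(1,81),(2,3),(5,1)]⟩,
⟨⟨⟨33,-44,-48⟩,⟨12,57,-44⟩,⟨64,12,33⟩⟩,true,23,45,.leaf [(0,21316),(5,95),(7,258),(15,45)],.leaf [(2,9563),(5,243),(7,31),(10,5037)]⟩,
⟨⟨⟨55,-48,0⟩,⟨48,55,0⟩,⟨0,0,73⟩⟩,true,27,0,.leaf [(6,75),(11,2774),(15,42),(18,73)],.leaf [(0,28),(3,7),(5,1),(10,20)]⟩,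
⟨⟨⟨33,48,-44⟩,⟨64,-33,12⟩,⟨-12,-44,-57⟩⟩,true,28,23,.leaf [(0,81),(1,53),(3,3),(4,1)],.leaf [(0,81),(1,53),(3,3),(4,1)]⟩,
⟨⟨⟨-33,-48,-44⟩,⟨64,-33,-12⟩,⟨-12,-44,57⟩⟩,true,28,50,.leaf [(3,76869),(6,666),(18,8906),(23,11)],.leaf [(1,139941),(4,14445),(26,41683),(31,5)]⟩,
⟨⟨⟨63,-8,36⟩,⟨-24,-63,28⟩,⟨28,-36,-57⟩⟩,true,30,11,.leaf [(1,146),(2,219),(4,5),(5,2)],.leaf [(1,146),(2,219),(4,5),(5,2)]⟩,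
⟨⟨⟨63,-8,-36⟩,⟨24,63,28⟩,⟨28,-36,57⟩⟩,true,30,62,.leaf [(3,803),(4,7),(7,3),(18,73)],.leaf [(3,2774),(4,25),(7,42),(10,73)]⟩,
⟨⟨⟨-63,28,24⟩,⟨36,57,28⟩,⟨-8,36,-63⟩⟩,true,32,17,.leaf [(0,8),(1,75),(3,12),(5,1)],.leaf [(0,8),(1,75),(3,12),(5,1)]⟩,
⟨⟨⟨-63,28,-24⟩,⟨-36,-57,28⟩,⟨-8,36,63⟩⟩,true,32,56,.leaf [(0,82),(1,52),(2,3),(4,1)],.leaf [(0,82),(1,52),(2,3),(4,1)]⟩,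
⟨⟨⟨63,28,-24⟩,⟨36,-57,28⟩,⟨-8,-36,-63⟩⟩,true,41,17,.leaf [(0,3),(2,82),(3,52),(4,1)],.leaf [(0,3),(2,82),(3,52),(4,1)]⟩,
⟨⟨⟨63,28,24⟩,⟨-36,57,28⟩,⟨-8,-36,63⟩⟩,true,41,56,.leaf [(1,12),(2,8),(3,75),(7,1)],.leaf [(1,12),(2,8),(3,75),(7,1)]⟩,
⟨⟨⟨-63,-8,-36⟩,⟨-24,63,28⟩,⟨28,36,-57⟩⟩,true,43,11,.leaf [(1,49786),(4,505),(5,790),(18,219)],.leaf [(1,4015),(4,31),(5,55),(10,219)]⟩,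
⟨⟨⟨-63,-8,36⟩,⟨24,-63,28⟩,⟨28,36,57⟩⟩,true,43,62,.leaf [(0,5329),(4,87),(5,20),(7,12)],.leaf [(0,5329),(4,87),(5,20),(7,12)]⟩,
⟨⟨⟨33,-48,-44⟩,⟨64,33,12⟩,⟨12,-44,57⟩⟩,true,45,23,.leaf [(1,21316),(4,95),(6,258),(14,45)],.leaf [(1,478953),(22,45),(26,3139),(31,215)]⟩,
⟨⟨⟨-33,48,-44⟩,⟨64,33,-12⟩,⟨12,-44,-57⟩⟩,true,45,50,.leaf [(0,3285),(3,4088),(4,84),(6,25)],.leaf [(0,3285),(3,4088),(4,84),(6,25)]⟩,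
⟨⟨⟨55,48,0⟩,⟨-48,55,0⟩,⟨0,0,73⟩⟩,true,46,0,.leaf [(1,5329),(4,28),(7,7),(14,20)],.leaf [(1,87),(2,8),(7,1),(10,40)]⟩,
⟨⟨⟨-33,-44,-48⟩,⟨-12,57,-44⟩,⟨64,-12,-33⟩⟩,true,50,28,.leaf [(2,43289),(5,822),(7,10),(18,3285)],.leaf [(0,93),(2,50),(7,4),(10,81)]⟩,
⟨⟨⟨-33,-44,48⟩,⟨12,-57,-44⟩,⟨64,-12,33⟩⟩,true,50,45,.leaf [(1,3285),(2,4088),(5,84),(7,25)],.leaf [(1,3285),(2,4088),(5,84),(7,25)]⟩,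
⟨⟨⟨-57,-44,12⟩,⟨-12,33,64⟩,⟨-44,48,-33⟩⟩,true,52,19,.leaf [(0,1898),(1,1825),(4,10),(5,29)],.leaf [(0,1898),(1,1825),(4,10),(5,29)]⟩,
⟨⟨⟨-57,-44,-12⟩,⟨12,-33,64⟩,⟨-44,48,33⟩⟩,true,52,54,.leaf [(0,2117),(1,730),(4,25),(5,26)],.leaf [(0,2117),(1,730),(4,25),(5,26)]⟩,
⟨⟨⟨57,28,36⟩,⟨36,-63,-8⟩,⟨28,24,-63⟩⟩,true,53,16,.leaf [(0,365),(2,438),(4,9),(5,4)],.leaf [(0,365),(2,438),(4,9),(5,4)]⟩,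
⟨⟨⟨57,28,-36⟩,⟨-36,63,-8⟩,⟨28,24,63⟩⟩,true,53,57,.leaf [(1,36),(3,20),(4,1),(18,7)],.leaf [(1,648),(3,507),(10,256),(15,1)]⟩,
⟨⟨⟨57,12,-44⟩,⟨-44,33,-48⟩,⟨12,64,33⟩⟩,true,54,21,.leaf [(2,5329),(4,78),(5,76),(6,67)],.leaf [(2,5329),(4,78),(5,76),(6,67)]⟩,
⟨⟨⟨-57,-12,-44⟩,⟨-44,33,48⟩,⟨12,64,-33⟩⟩,true,54,52,.leaf [(1,4307),(3,2190),(4,76),(5,45)],.leaf [(1,4307),(3,2190),(4,76),(5,45)]⟩,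
⟨⟨⟨-63,-24,28⟩,⟨-8,63,36⟩,⟨-36,28,-57⟩⟩,true,56,32,.leaf [(0,52),(1,82),(3,3),(5,1)],.leaf [(0,52),(1,82),(3,3),(5,1)]⟩,
⟨⟨⟨63,24,28⟩,⟨-8,63,-36⟩,⟨-36,28,57⟩⟩,true,56,41,.leaf [(0,12),(2,75),(3,8),(6,1)],.leaf [(0,12),(2,75),(3,8),(6,1)]⟩,
⟨⟨⟨-57,36,28⟩,⟨28,63,-24⟩,⟨-36,-8,-63⟩⟩,true,57,20,.leaf [(1,438),(3,365),(5,9),(6,4)],.leaf [(1,438),(3,365),(5,9),(6,4)]⟩,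
⟨⟨⟨57,-36,28⟩,⟨28,63,24⟩,⟨-36,-8,63⟩⟩,true,57,53,.leaf [(0,75),(2,17),(6,1),(18,13)],.leaf [(2,2044),(5,56),(6,69),(10,1387)]⟩,
⟨⟨⟨-33,64,-12⟩,⟨-48,-33,-44⟩,⟨-44,-12,57⟩⟩,true,60,7,.leaf [(2,13067),(4,206),(7,140),(18,73)],.leaf [(2,4526),(4,71),(7,44),(10,73)]⟩,
⟨⟨⟨-33,64,12⟩,⟨48,33,-44⟩,⟨-44,-12,-57⟩⟩,true,60,66,.R (.leaf [(0,108),(3,117),(18,20),(27,1)]) (.leaf [(0,189),(3,144),(18,32),(26,1)]) (.leaf [(0,15695),(3,1095),(5,43),(30,9)]),.leaf [(0,9),(3,100),(4,2),(10,53)]⟩,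
⟨⟨⟨1,-12,-72⟩,⟨12,-71,12⟩,⟨-72,-12,1⟩⟩,true,61,1,.leaf [(1,7),(2,59),(3,77),(4,1)],.leaf [(1,7),(2,59),(3,77),(4,1)]⟩,
⟨⟨⟨1,-12,72⟩,⟨12,-71,-12⟩,⟨72,12,1⟩⟩,true,61,72,.leaf [(0,12),(1,71),(2,12),(5,1)],.leaf [(0,12),(1,71),(2,12),(5,1)]⟩,
⟨⟨⟨63,-36,-8⟩,⟨28,57,-36⟩,⟨24,28,63⟩⟩,true,62,30,.leaf [(2,16279),(5,164),(6,258),(18,73)],.leaf [(2,2920),(5,32),(6,45),(10,73)]⟩,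
⟨⟨⟨-63,36,-8⟩,⟨28,57,36⟩,⟨24,28,-63⟩⟩,true,62,43,.leaf [(1,5329),(4,20),(5,87),(6,12)],.leaf [(1,5329),(4,20),(5,87),(6,12)]⟩,
⟨⟨⟨9,-8,72⟩,⟨72,9,-8⟩,⟨-8,72,9⟩⟩,true,64,8,.leaf [(0,80),(1,63),(5,1)],.leaf [(0,80),(1,63),(5,1)]⟩,
⟨⟨⟨9,-8,-72⟩,⟨-72,-9,-8⟩,⟨-8,72,-9⟩⟩,true,64,65,.leaf [(1,584),(2,657),(4,17),(5,8)],.leaf [(1,584),(2,657),(4,17),(5,8)]⟩,
⟨⟨⟨-9,72,-8⟩,⟨-8,-9,-72⟩,⟨-72,-8,9⟩⟩,true,65,9,.leaf [(0,365),(2,292),(4,5),(6,4)],.leaf [(0,365),(2,292),(4,5),(6,4)]⟩,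
⟨⟨⟨9,-72,-8⟩,⟨-8,-9,72⟩,⟨-72,-8,-9⟩⟩,true,65,64,.leaf [(1,584),(3,4599),(4,64),(5,63)],.leaf [(1,584),(3,4599),(4,64),(5,63)]⟩,
⟨⟨⟨33,-12,64⟩,⟨-44,-57,12⟩,⟨48,-44,-33⟩⟩,true,66,13,.leaf [(1,10658),(4,115),(5,174),(14,3)],.leaf [(1,803),(4,7),(5,3),(10,219)]⟩,
⟨⟨⟨-33,12,64⟩,⟨-44,-57,-12⟩,⟨48,-44,33⟩⟩,true,66,60,.leaf [(2,9563),(5,130),(15,58),(18,1095)],.leaf [(1,10220),(4,109),(5,60),(10,4161)]⟩,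
⟨⟨⟨-71,-12,12⟩,⟨12,1,72⟩,⟨-12,72,1⟩⟩,true,67,6,.leaf [(0,949),(1,803),(4,11),(5,13)],.leaf [(0,949),(1,803),(4,11),(5,13)]⟩,
⟨⟨⟨-71,-12,-12⟩,⟨12,1,-72⟩,⟨12,-72,1⟩⟩,true,67,67,.leaf [(3,27594),(5,810),(18,9125),(22,7)],.leaf [(1,7884),(6,90),(10,4015),(14,11)]⟩,
⟨⟨⟨1,72,12⟩,⟨72,1,-12⟩,⟨-12,12,-71⟩⟩,true,72,12,.leaf [(3,5329),(4,60),(5,78),(7,5)],.leaf [(3,5329),(4,60),(5,78),(7,5)]⟩,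
⟨⟨⟨1,72,-12⟩,⟨72,1,12⟩,⟨12,-12,-71⟩⟩,true,72,61,.leaf [(0,71),(1,12),(3,12),(4,1)],.leaf [(0,71),(1,12),(3,12),(4,1)]⟩]

theorem primeOk_73 : PrimeOk 73 := primeOk (by norm_num) (by norm_num) (by norm_num) L73
  (by decide +kernel) (by decide +kernel)

def L191 : List Cls := [
⟨⟨⟨-21,-126,142⟩,⟨54,133,126⟩,⟨-182,54,21⟩⟩,true,6,66,.leaf [(0,180),(1,70),(3,51),(5,1)],.leaf [(0,180),(1,70),(3,51),(5,1)]⟩,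
⟨⟨⟨21,126,142⟩,⟨54,133,-126⟩,⟨-182,54,-21⟩⟩,true,6,125,.leaf [(3,675),(7,3),(10,25),(18,103)],.leaf [(1,182405),(5,1763),(14,685),(22,43)]⟩,
⟨⟨⟨43,-186,6⟩,⟨66,21,178⟩,⟨-174,-38,69⟩⟩,true,9,49,.leaf [(0,4775),(3,764),(5,20),(6,11)],.leaf [(0,4775),(3,764),(5,20),(6,11)]⟩,
⟨⟨⟨43,-186,-6⟩,⟨-66,-21,178⟩,⟨-174,-38,-69⟩⟩,true,9,142,.leaf [(1,8977),(3,28650),(4,148),(5,165)],.leaf [(1,8977),(3,28650),(4,148),(5,165)]⟩,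
⟨⟨⟨69,-74,-162⟩,⟨-146,-123,-6⟩,⟨-102,126,-101⟩⟩,true,10,89,.leaf [(1,4775),(2,1719),(4,31),(5,1)],.leaf [(1,4775),(2,1719),(4,31),(5,1)]⟩,
⟨⟨⟨69,-74,162⟩,⟨-146,-123,6⟩,⟨102,-126,-101⟩⟩,true,10,102,.leaf [(1,7640),(4,37),(5,112),(10,4011)],.leaf [(1,72962),(4,325),(5,490),(14,21)]⟩,
⟨⟨⟨133,126,54⟩,⟨54,21,-182⟩,⟨-126,142,-21⟩⟩,true,11,32,.leaf [(0,36481),(4,33),(5,154),(7,114)],.leaf [(0,36481),(4,33),(5,154),(7,114)]⟩,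
⟨⟨⟨133,126,-54⟩,⟨-54,-21,-182⟩,⟨-126,142,21⟩⟩,true,11,159,.leaf [(0,4775),(2,2101),(5,11),(7,25)],.leaf [(0,4775),(2,2101),(5,11),(7,25)]⟩,
⟨⟨⟨165,70,-66⟩,⟨34,-165,-90⟩,⟨-90,66,-155⟩⟩,true,12,76,.leaf [(0,7640),(2,13179),(4,89),(5,24)],.leaf [(0,7640),(2,13179),(4,89),(5,24)]⟩,
⟨⟨⟨165,70,66⟩,⟨34,-165,90⟩,⟨90,-66,-155⟩⟩,true,12,115,.leaf [(0,64),(1,24),(2,171),(4,1)],.leaf [(0,64),(1,24),(2,171),(4,1)]⟩,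
⟨⟨⟨-123,-126,-74⟩,⟨6,-101,162⟩,⟨-146,102,69⟩⟩,true,15,27,.leaf [(1,10123),(3,40110),(4,228),(5,25)],.leaf [(1,10123),(3,40110),(4,228),(5,25)]⟩,
⟨⟨⟨123,126,-74⟩,⟨6,-101,-162⟩,⟨-146,102,-69⟩⟩,true,15,164,.leaf [(4,792),(5,540),(11,36481),(15,55)],.leaf [(0,33),(2,172),(4,1),(10,22)]⟩,
⟨⟨⟨-165,34,-90⟩,⟨70,165,-66⟩,⟨66,-90,-155⟩⟩,true,16,70,.leaf [(1,36481),(4,5),(5,221),(6,141)],.leaf [(1,36481),(4,5),(5,221),(6,141)]⟩,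
⟨⟨⟨-165,34,90⟩,⟨70,165,66⟩,⟨-66,90,-155⟩⟩,true,16,121,.leaf [(0,56),(1,200),(3,45),(5,1)],.leaf [(0,56),(1,200),(3,45),(5,1)]⟩,
⟨⟨⟨171,42,-74⟩,⟨78,-11,174⟩,⟨34,-186,-27⟩⟩,true,17,61,.leaf [(0,53),(1,197),(3,51),(4,1)],.leaf [(0,53),(1,197),(3,51),(4,1)]⟩,
⟨⟨⟨-171,-42,-74⟩,⟨78,-11,-174⟩,⟨34,-186,27⟩⟩,true,17,130,.leaf [(2,11460),(7,75),(11,2101),(14,4)],.leaf [(0,135),(2,730),(7,4),(10,47)]⟩,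
⟨⟨⟨123,-146,6⟩,⟨-74,-69,-162⟩,⟨126,102,-101⟩⟩,true,19,28,.leaf [(0,176),(1,107),(2,72),(5,1)],.leaf [(0,176),(1,107),(2,72),(5,1)]⟩,
⟨⟨⟨123,-146,-6⟩,⟨-74,-69,162⟩,⟨-126,-102,-101⟩⟩,true,19,163,.leaf [(1,191),(3,1146),(4,4),(5,7)],.leaf [(1,191),(3,1146),(4,4),(5,7)]⟩,
⟨⟨⟨-21,-38,186⟩,⟨178,-69,6⟩,⟨66,174,43⟩⟩,true,20,73,.leaf [(2,43739),(3,27695),(4,9),(5,205)],.leaf [(2,43739),(3,27695),(4,9),(5,205)]⟩,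
⟨⟨⟨-21,-38,-186⟩,⟨178,-69,-6⟩,⟨-66,-174,43⟩⟩,true,20,118,.leaf [(0,31),(1,6),(3,174),(4,1)],.leaf [(0,31),(1,6),(3,174),(4,1)]⟩,
⟨⟨⟨-171,78,34⟩,⟨-42,-11,-186⟩,⟨-74,-174,27⟩⟩,true,23,59,.leaf [(1,393),(2,590),(7,5),(18,22)],.leaf [(1,237),(2,52),(7,1),(10,44)]⟩,
⟨⟨⟨171,-78,34⟩,⟨-42,-11,186⟩,⟨-74,-174,-27⟩⟩,true,23,132,.leaf [(1,36481),(4,228),(5,22),(7,69)],.leaf [(1,36481),(4,228),(5,22),(7,69)]⟩,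
⟨⟨⟨-69,-6,178⟩,⟨-174,43,-66⟩,⟨-38,-186,-21⟩⟩,true,25,86,.leaf [(1,36),(2,192),(3,121),(7,1)],.leaf [(1,36),(2,192),(3,121),(7,1)]⟩,
⟨⟨⟨69,6,178⟩,⟨-174,43,66⟩,⟨-38,-186,21⟩⟩,true,25,105,.leaf [(0,180),(1,174),(3,25),(7,1)],.leaf [(0,180),(1,174),(3,25),(7,1)]⟩,
⟨⟨⟨-123,-74,-126⟩,⟨-146,69,102⟩,⟨6,162,-101⟩⟩,true,27,15,.leaf [(1,37054),(3,13179),(4,236),(5,143)],.leaf [(1,37054),(3,13179),(4,236),(5,143)]⟩,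
⟨⟨⟨-123,-74,126⟩,⟨-146,69,-102⟩,⟨-6,-162,-101⟩⟩,true,27,176,.leaf [(3,36481),(5,203),(6,224),(14,24)],.leaf [(1,1269),(3,1212),(10,512),(15,1)]⟩,
⟨⟨⟨123,6,-146⟩,⟨126,-101,102⟩,⟨-74,-162,-69⟩⟩,true,28,19,.leaf [(0,107),(1,176),(3,72),(4,1)],.leaf [(0,107),(1,176),(3,72),(4,1)]⟩,
⟨⟨⟨-123,-6,-146⟩,⟨126,-101,-102⟩,⟨-74,-162,69⟩⟩,true,28,172,.leaf [(0,22920),(3,2101),(4,144),(7,55)],.leaf [(0,22920),(3,2101),(4,144),(7,55)]⟩,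
⟨⟨⟨-155,-66,-90⟩,⟨-90,165,34⟩,⟨66,70,-165⟩⟩,true,30,93,.leaf [(1,14325),(2,23684),(5,174),(7,5)],.leaf [(1,14325),(2,23684),(5,174),(7,5)]⟩,
⟨⟨⟨-155,-66,90⟩,⟨90,-165,34⟩,⟨66,70,165⟩⟩,true,30,98,.leaf [(0,36481),(4,174),(5,4),(6,81)],.leaf [(0,36481),(4,174),(5,4),(6,81)]⟩,
⟨⟨⟨-69,-38,174⟩,⟨178,-21,66⟩,⟨6,186,43⟩⟩,true,31,39,.leaf [(0,9),(2,215),(3,131),(5,1)],.leaf [(0,9),(2,215),(3,131),(5,1)]⟩,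
⟨⟨⟨-69,-38,-174⟩,⟨178,-21,-66⟩,⟨-6,-186,43⟩⟩,true,31,152,.leaf [(1,1528),(4,23),(6,152),(10,9359)],.leaf [(1,154328),(4,1000),(6,505),(26,9359)]⟩,
⟨⟨⟨133,54,126⟩,⟨-126,-21,142⟩,⟨54,-182,21⟩⟩,true,32,11,.leaf [(1,36481),(4,154),(5,33),(6,114)],.leaf [(1,36481),(4,154),(5,33),(6,114)]⟩,
⟨⟨⟨133,54,-126⟩,⟨126,21,142⟩,⟨54,-182,-21⟩⟩,true,32,180,.leaf [(0,33),(1,154),(3,114),(4,1)],.leaf [(0,33),(1,154),(3,114),(4,1)]⟩,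
⟨⟨⟨43,-66,174⟩,⟨186,21,-38⟩,⟨-6,178,69⟩⟩,true,34,84,.leaf [(0,199),(1,105),(2,45),(5,1)],.leaf [(0,199),(1,105),(2,45),(5,1)]⟩,
⟨⟨⟨43,-66,-174⟩,⟨-186,-21,-38⟩,⟨-6,178,-69⟩⟩,true,34,107,.leaf [(1,5539),(2,12606),(4,94),(5,69)],.leaf [(1,5539),(2,12606),(4,94),(5,69)]⟩,
⟨⟨⟨27,-174,-74⟩,⟨-186,-11,-42⟩,⟨34,78,-171⟩⟩,true,36,68,.leaf [(2,19673),(3,11078),(4,37),(5,102)],.leaf [(2,19673),(3,11078),(4,37),(5,102)]⟩,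
⟨⟨⟨-27,174,-74⟩,⟨-186,-11,42⟩,⟨34,78,171⟩⟩,true,36,123,.leaf [(1,45),(2,185),(3,71),(4,1)],.leaf [(1,45),(2,185),(3,71),(4,1)]⟩,
⟨⟨⟨-21,178,-66⟩,⟨-38,-69,-174⟩,⟨-186,-6,43⟩⟩,true,37,85,.leaf [(0,3056),(2,2865),(4,20),(6,9)],.leaf [(0,3056),(2,2865),(4,20),(6,9)]⟩,
⟨⟨⟨-21,178,66⟩,⟨-38,-69,174⟩,⟨186,6,43⟩⟩,true,37,106,.leaf [(0,169),(1,108),(2,78),(4,1)],.leaf [(0,169),(1,108),(2,78),(4,1)]⟩,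
⟨⟨⟨-69,174,-38⟩,⟨6,43,186⟩,⟨178,66,-21⟩⟩,true,39,31,.leaf [(1,9),(2,131),(3,215),(4,1)],.leaf [(1,9),(2,131),(3,215),(4,1)]⟩,
⟨⟨⟨69,-174,-38⟩,⟨6,43,-186⟩,⟨178,66,21⟩⟩,true,39,160,.leaf [(0,3820),(5,95),(7,86),(11,7067)],.leaf [(0,203),(2,698),(5,4),(10,59)]⟩,
⟨⟨⟨-101,162,6⟩,⟨102,69,-146⟩,⟨-126,-74,-123⟩⟩,true,40,51,.leaf [(3,109443),(7,483),(14,77),(22,11)],.leaf [(0,165),(3,278),(7,2),(10,11)]⟩,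
⟨⟨⟨-101,162,-6⟩,⟨-102,-69,-146⟩,⟨-126,-74,123⟩⟩,true,40,140,.leaf [(0,395),(2,11),(4,1),(18,35)],.leaf [(0,80),(2,116),(4,1),(10,35)]⟩,
⟨⟨⟨69,102,-146⟩,⟨162,-101,6⟩,⟨-74,-126,-123⟩⟩,true,43,92,.leaf [(0,203),(1,131),(3,21),(4,1)],.leaf [(0,203),(1,131),(3,21),(4,1)]⟩,
⟨⟨⟨-69,-102,-146⟩,⟨162,-101,-6⟩,⟨-74,-126,123⟩⟩,true,43,99,.leaf [(0,5157),(3,11651),(4,87),(7,23)],.leaf [(0,5157),(3,11651),(4,87),(7,23)]⟩,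
⟨⟨⟨-11,78,174⟩,⟨42,171,-74⟩,⟨-186,34,-27⟩⟩,true,45,71,.leaf [(3,36481),(5,180),(7,25),(15,8)],.leaf [(0,54),(3,85),(7,1),(10,58)]⟩,
⟨⟨⟨-11,78,-174⟩,⟨-42,-171,-74⟩,⟨-186,34,27⟩⟩,true,45,120,.leaf [(0,159),(1,100),(2,90),(4,1)],.leaf [(0,159),(1,100),(2,90),(4,1)]⟩,
⟨⟨⟨43,6,-186⟩,⟨-174,69,-38⟩,⟨66,178,21⟩⟩,true,49,9,.leaf [(1,4775),(2,764),(4,20),(7,11)],.leaf [(1,4775),(2,764),(4,20),(7,11)]⟩,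
⟨⟨⟨43,6,186⟩,⟨174,-69,-38⟩,⟨66,178,-21⟩⟩,true,49,182,.leaf [(0,172),(1,201),(3,6),(5,1)],.leaf [(0,172),(1,201),(3,6),(5,1)]⟩,
⟨⟨⟨-101,6,162⟩,⟨-126,-123,-74⟩,⟨102,-146,69⟩⟩,true,51,40,.leaf [(1,924),(2,1225),(6,10),(18,11)],.leaf [(1,132),(2,106),(6,1),(10,11)]⟩,
⟨⟨⟨-101,6,-162⟩,⟨126,123,-74⟩,⟨102,-146,-69⟩⟩,true,51,151,.leaf [(1,5157),(3,191),(7,17),(15,7)],.leaf [(1,756),(3,924),(10,467),(14,1)]⟩,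
⟨⟨⟨21,-54,-182⟩,⟨-126,133,-54⟩,⟨142,126,-21⟩⟩,true,52,55,.leaf [(2,21965),(4,20),(14,47),(18,1146)],.leaf [(1,43),(2,129),(5,1),(10,51)]⟩,
⟨⟨⟨-21,54,-182⟩,⟨-126,133,54⟩,⟨142,126,21⟩⟩,true,52,136,.leaf [(1,72),(4,15),(10,920),(18,53)],.leaf [(1,74490),(5,339),(10,35908),(15,25)]⟩,
⟨⟨⟨21,-182,-54⟩,⟨142,-21,126⟩,⟨-126,-54,133⟩⟩,true,55,52,.leaf [(0,11583),(3,9693),(18,1999),(23,1)],.leaf [(0,153),(3,38),(5,2),(10,103)]⟩,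
⟨⟨⟨21,-182,54⟩,⟨142,-21,-126⟩,⟨126,54,133⟩⟩,true,55,139,.leaf [(2,222),(5,3),(11,149),(18,22)],.leaf [(2,36290),(5,220),(6,61),(10,3247)]⟩,
⟨⟨⟨-171,34,78⟩,⟨-74,27,-174⟩,⟨-42,-186,-11⟩⟩,true,59,23,.leaf [(0,9153),(3,5481),(18,1477),(23,1)],.leaf [(0,39),(3,184),(6,1),(10,22)]⟩,
⟨⟨⟨-171,34,-78⟩,⟨-74,27,174⟩,⟨42,186,-11⟩⟩,true,59,168,.leaf [(0,7),(1,81),(3,171),(4,1)],.leaf [(0,7),(1,81),(3,171),(4,1)]⟩,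
⟨⟨⟨171,-74,42⟩,⟨34,-27,-186⟩,⟨78,174,-11⟩⟩,true,61,17,.leaf [(0,197),(1,53),(2,51),(5,1)],.leaf [(0,197),(1,53),(2,51),(5,1)]⟩,
⟨⟨⟨171,-74,-42⟩,⟨34,-27,186⟩,⟨-78,-174,-11⟩⟩,true,61,174,.leaf [(4,1431),(5,540),(10,72962),(14,65)],.leaf [(1,170181),(10,118420),(15,397),(31,10)]⟩,
⟨⟨⟨-21,142,-126⟩,⟨-182,21,54⟩,⟨54,126,133⟩⟩,true,66,6,.leaf [(0,70),(1,180),(2,51),(4,1)],.leaf [(0,70),(1,180),(2,51),(4,1)]⟩,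
⟨⟨⟨-21,142,126⟩,⟨-182,21,-54⟩,⟨-54,-126,133⟩⟩,true,66,185,.leaf [(0,36481),(4,160),(6,75),(15,72)],.leaf [(2,4393),(4,33),(6,13),(10,1719)]⟩,
⟨⟨⟨27,-74,-174⟩,⟨34,-171,78⟩,⟨-186,-42,-11⟩⟩,true,68,36,.leaf [(0,97),(1,171),(3,81),(4,1)],.leaf [(0,97),(1,171),(3,81),(4,1)]⟩,
⟨⟨⟨27,-74,174⟩,⟨34,-171,-78⟩,⟨186,42,-11⟩⟩,true,68,155,.leaf [(0,71),(1,185),(2,45),(5,1)],.leaf [(0,71),(1,185),(2,45),(5,1)]⟩,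
⟨⟨⟨-11,-186,42⟩,⟨174,-27,-74⟩,⟨78,34,171⟩⟩,true,69,83,.leaf [(5,441),(6,303),(11,36481),(14,53)],.leaf [(0,180),(2,25),(6,1),(10,8)]⟩,
⟨⟨⟨-11,-186,-42⟩,⟨-174,27,-74⟩,⟨78,34,-171⟩⟩,true,69,108,.leaf [(0,1),(2,219),(3,129),(5,1)],.leaf [(0,1),(2,219),(3,129),(5,1)]⟩,
⟨⟨⟨-165,-90,34⟩,⟨66,-155,-90⟩,⟨70,-66,165⟩⟩,true,70,16,.leaf [(0,36481),(4,221),(5,5),(7,141)],.leaf [(0,36481),(4,221),(5,5),(7,141)]⟩,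
⟨⟨⟨165,90,34⟩,⟨66,-155,90⟩,⟨70,-66,-165⟩⟩,true,70,175,.leaf [(0,45),(2,200),(3,56),(4,1)],.leaf [(0,45),(2,200),(3,56),(4,1)]⟩,
⟨⟨⟨-11,174,78⟩,⟨-186,-27,34⟩,⟨42,-74,171⟩⟩,true,71,45,.leaf [(2,36481),(4,180),(6,25),(14,8)],.leaf [(2,13561),(4,72),(6,1),(10,764)]⟩,
⟨⟨⟨-11,174,-78⟩,⟨186,27,34⟩,⟨42,-74,-171⟩⟩,true,71,146,.leaf [(0,147),(1,31),(3,81),(4,1)],.leaf [(0,147),(1,31),(3,81),(4,1)]⟩,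
⟨⟨⟨27,34,-186⟩,⟨-74,-171,-42⟩,⟨-174,78,-11⟩⟩,true,72,78,.leaf [(0,124),(1,144),(2,81),(4,1)],.leaf [(0,124),(1,144),(2,81),(4,1)]⟩,
⟨⟨⟨27,34,186⟩,⟨-74,-171,42⟩,⟨174,-78,-11⟩⟩,true,72,113,.leaf [(2,36481),(4,69),(5,52),(15,44)],.leaf [(2,50233),(4,321),(5,64),(10,8404)]⟩,
⟨⟨⟨-21,186,-38⟩,⟨66,43,174⟩,⟨178,6,-69⟩⟩,true,73,20,.leaf [(0,9),(2,134),(3,212),(4,1)],.leaf [(0,9),(2,134),(3,212),(4,1)]⟩,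
⟨⟨⟨21,-186,-38⟩,⟨66,43,-174⟩,⟨178,6,69⟩⟩,true,73,171,.leaf [(0,45840),(1,4393),(5,25),(7,228)],.leaf [(0,45840),(1,4393),(5,25),(7,228)]⟩,
⟨⟨⟨-101,-126,-102⟩,⟨-6,123,-146⟩,⟨162,-74,-69⟩⟩,true,75,88,.leaf [(1,79),(2,565),(5,5),(18,61)],.leaf [(1,180495),(5,486),(10,44312),(15,35)]⟩,
⟨⟨⟨-101,-126,102⟩,⟨6,-123,-146⟩,⟨162,-74,69⟩⟩,true,75,103,.leaf [(2,669),(6,6),(11,220),(18,11)],.leaf [(2,108488),(5,264),(6,389),(10,2101)]⟩,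
⟨⟨⟨165,-66,70⟩,⟨-90,-155,66⟩,⟨34,-90,-165⟩⟩,true,76,12,.leaf [(0,4393),(1,13370),(4,65),(5,58)],.leaf [(0,4393),(1,13370),(4,65),(5,58)]⟩,
⟨⟨⟨-165,66,70⟩,⟨-90,-155,-66⟩,⟨34,-90,165⟩⟩,true,76,179,.leaf [(0,27504),(2,27695),(4,235),(7,136)],.leaf [(0,27504),(2,27695),(4,235),(7,136)]⟩,
⟨⟨⟨27,-186,34⟩,⟨-174,-11,78⟩,⟨-74,-42,-171⟩⟩,true,78,72,.leaf [(2,2674),(3,4393),(4,2),(5,21)],.leaf [(2,2674),(3,4393),(4,2),(5,21)]⟩,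
⟨⟨⟨-27,186,34⟩,⟨-174,-11,-78⟩,⟨-74,-42,171⟩⟩,true,78,119,.leaf [(2,36481),(4,245),(7,101),(15,15)],.leaf [(1,12),(2,166),(4,1),(10,31)]⟩,
⟨⟨⟨-11,42,-186⟩,⟨78,171,34⟩,⟨174,-74,-27⟩⟩,true,83,69,.leaf [(4,441),(7,303),(10,36481),(15,53)],.leaf [(1,81),(3,699),(10,167),(14,1)]⟩,
⟨⟨⟨-11,42,186⟩,⟨-78,-171,34⟩,⟨174,-74,27⟩⟩,true,83,122,.leaf [(1,36481),(4,31),(5,147),(6,81)],.leaf [(1,36481),(4,31),(5,147),(6,81)]⟩,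
⟨⟨⟨43,174,-66⟩,⟨-6,69,178⟩,⟨186,-38,21⟩⟩,true,84,34,.leaf [(0,105),(1,199),(3,45),(4,1)],.leaf [(0,105),(1,199),(3,45),(4,1)]⟩,
⟨⟨⟨43,174,66⟩,⟨6,-69,178⟩,⟨186,-38,-21⟩⟩,true,84,157,.leaf [(0,159),(1,112),(2,84),(4,1)],.leaf [(0,159),(1,112),(2,84),(4,1)]⟩,
⟨⟨⟨-21,-66,178⟩,⟨-186,43,-6⟩,⟨-38,-174,-69⟩⟩,true,85,37,.leaf [(1,3056),(3,2865),(5,20),(7,9)],.leaf [(1,3056),(3,2865),(5,20),(7,9)]⟩,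
⟨⟨⟨21,66,178⟩,⟨-186,43,6⟩,⟨-38,-174,69⟩⟩,true,85,154,.leaf [(1,36481),(4,192),(5,121),(7,228)],.leaf [(1,36481),(4,192),(5,121),(7,228)]⟩,
⟨⟨⟨-69,178,-6⟩,⟨-38,-21,-186⟩,⟨-174,-66,43⟩⟩,true,86,25,.leaf [(0,36),(2,121),(3,192),(6,1)],.leaf [(0,36),(2,121),(3,192),(6,1)]⟩,
⟨⟨⟨-69,178,6⟩,⟨-38,-21,186⟩,⟨174,66,43⟩⟩,true,86,166,.leaf [(0,199),(1,174),(3,6),(4,1)],.leaf [(0,199),(1,174),(3,6),(4,1)]⟩,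
⟨⟨⟨-101,-102,-126⟩,⟨162,-69,-74⟩,⟨-6,-146,123⟩⟩,true,88,75,.leaf [(0,8316),(3,5040),(18,1391),(22,1)],.leaf [(0,16808),(4,55),(6,148),(10,6685)]⟩,
⟨⟨⟨-101,-102,126⟩,⟨-162,69,-74⟩,⟨-6,-146,-123⟩⟩,true,88,116,.leaf [(1,6112),(5,56),(6,11),(10,2101)],.leaf [(1,36481),(5,161),(6,77),(14,11)]⟩,
⟨⟨⟨69,-162,-74⟩,⟨-102,-101,126⟩,⟨-146,-6,-123⟩⟩,true,89,10,.leaf [(1,23875),(3,10314),(4,156),(5,61)],.leaf [(1,23875),(3,10314),(4,156),(5,61)]⟩,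
⟨⟨⟨-69,162,-74⟩,⟨-102,-101,-126⟩,⟨-146,-6,123⟩⟩,true,89,181,.leaf [(2,42975),(4,522),(11,23684),(14,5)],.leaf [(2,38200),(4,231),(7,136),(10,1337)]⟩,
⟨⟨⟨69,-146,102⟩,⟨-74,-123,-126⟩,⟨162,6,-101⟩⟩,true,92,43,.leaf [(0,131),(1,203),(2,21),(5,1)],.leaf [(0,131),(1,203),(2,21),(5,1)]⟩,
⟨⟨⟨69,-146,-102⟩,⟨-74,-123,126⟩,⟨-162,-6,-101⟩⟩,true,92,148,.leaf [(1,23302),(3,8595),(4,140),(5,23)],.leaf [(1,23302),(3,8595),(4,140),(5,23)]⟩,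
⟨⟨⟨-155,-90,-66⟩,⟨66,-165,70⟩,⟨-90,34,165⟩⟩,true,93,30,.leaf [(0,14325),(3,23684),(4,174),(6,5)],.leaf [(0,14325),(3,23684),(4,174),(6,5)]⟩,
⟨⟨⟨-155,-90,66⟩,⟨-66,165,70⟩,⟨-90,34,-165⟩⟩,true,93,161,.leaf [(0,124),(1,210),(3,21),(5,1)],.leaf [(0,124),(1,210),(3,21),(5,1)]⟩,
⟨⟨⟨-155,90,-66⟩,⟨66,165,70⟩,⟨90,34,-165⟩⟩,true,98,30,.leaf [(1,36481),(4,4),(5,174),(7,81)],.leaf [(1,36481),(4,4),(5,174),(7,81)]⟩,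
⟨⟨⟨-155,90,66⟩,⟨-66,-165,70⟩,⟨90,34,165⟩⟩,true,98,161,.leaf [(0,174),(1,4),(2,81),(4,1)],.leaf [(0,174),(1,4),(2,81),(4,1)]⟩,
⟨⟨⟨-69,-146,-102⟩,⟨-74,123,-126⟩,⟨162,-6,-101⟩⟩,true,99,43,.leaf [(1,5157),(2,11651),(5,87),(6,23)],.leaf [(1,5157),(2,11651),(5,87),(6,23)]⟩,
⟨⟨⟨-69,-146,102⟩,⟨-74,123,126⟩,⟨-162,6,-101⟩⟩,true,99,148,.leaf [(0,152),(1,131),(3,72),(5,1)],.leaf [(0,152),(1,131),(3,72),(5,1)]⟩,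
⟨⟨⟨69,162,-74⟩,⟨102,-101,-126⟩,⟨-146,6,-123⟩⟩,true,102,10,.leaf [(0,7640),(4,112),(5,37),(11,4011)],.leaf [(0,119375),(4,742),(5,460),(10,4011)]⟩,
⟨⟨⟨-69,-162,-74⟩,⟨102,-101,126⟩,⟨-146,6,123⟩⟩,true,102,181,.leaf [(3,36481),(4,228),(5,54),(7,31)],.leaf [(3,36481),(4,228),(5,54),(7,31)]⟩,
⟨⟨⟨-101,102,-126⟩,⟨162,69,-74⟩,⟨6,-146,-123⟩⟩,true,103,75,.leaf [(3,483),(7,3),(10,77),(18,11)],.leaf [(3,118611),(4,594),(10,20246),(15,23)]⟩,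
⟨⟨⟨-101,102,126⟩,⟨-162,-69,-74⟩,⟨6,-146,123⟩⟩,true,103,116,.leaf [(2,36481),(4,81),(6,115),(14,35)],.leaf [(2,3247),(4,27),(6,1),(10,1337)]⟩,
⟨⟨⟨69,178,6⟩,⟨-38,21,-186⟩,⟨-174,66,43⟩⟩,true,105,25,.leaf [(0,174),(1,180),(2,25),(6,1)],.leaf [(0,174),(1,180),(2,25),(6,1)]⟩,
⟨⟨⟨69,178,-6⟩,⟨-38,21,186⟩,⟨174,-66,43⟩⟩,true,105,166,.leaf [(0,121),(1,192),(2,36),(4,1)],.leaf [(0,121),(1,192),(2,36),(4,1)]⟩,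
⟨⟨⟨-21,66,178⟩,⟨186,43,6⟩,⟨-38,174,-69⟩⟩,true,106,37,.leaf [(2,23111),(3,39155),(4,61),(5,201)],.leaf [(2,23111),(3,39155),(4,61),(5,201)]⟩,
⟨⟨⟨21,-66,178⟩,⟨186,43,-6⟩,⟨-38,174,69⟩⟩,true,106,154,.leaf [(0,204),(1,109),(2,36),(5,1)],.leaf [(0,204),(1,109),(2,36),(5,1)]⟩,
⟨⟨⟨43,-174,-66⟩,⟨-6,-69,178⟩,⟨-186,-38,-21⟩⟩,true,107,34,.leaf [(1,5539),(3,22920),(4,136),(5,105)],.leaf [(1,5539),(3,22920),(4,136),(5,105)]⟩,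
⟨⟨⟨43,-174,66⟩,⟨6,69,178⟩,⟨-186,-38,21⟩⟩,true,107,157,.leaf [(0,3820),(3,2101),(5,25),(6,4)],.leaf [(0,3820),(3,2101),(5,25),(6,4)]⟩,
⟨⟨⟨-11,-42,-186⟩,⟨78,-171,34⟩,⟨-174,-74,27⟩⟩,true,108,69,.leaf [(1,1),(2,129),(3,219),(4,1)],.leaf [(1,1),(2,129),(3,219),(4,1)]⟩,
⟨⟨⟨-11,-42,186⟩,⟨-78,171,34⟩,⟨-174,-74,-27⟩⟩,true,108,122,.leaf [(5,648),(6,225),(10,36481),(14,160)],.leaf [(1,589),(3,220),(5,5),(26,32)]⟩,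
⟨⟨⟨27,186,34⟩,⟨174,-11,-78⟩,⟨-74,42,-171⟩⟩,true,113,72,.leaf [(3,36481),(4,52),(5,69),(14,44)],.leaf [(3,6685),(4,28),(5,33),(10,764)]⟩,
⟨⟨⟨-27,-186,34⟩,⟨174,-11,78⟩,⟨-74,42,171⟩⟩,true,113,119,.leaf [(0,36481),(4,185),(5,230),(7,114)],.leaf [(0,36481),(4,185),(5,230),(7,114)]⟩,
⟨⟨⟨165,66,70⟩,⟨90,-155,-66⟩,⟨34,90,-165⟩⟩,true,115,12,.leaf [(0,27695),(2,27504),(4,235),(5,136)],.leaf [(0,27695),(2,27504),(4,235),(5,136)]⟩,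
⟨⟨⟨-165,-66,70⟩,⟨90,-155,66⟩,⟨34,90,165⟩⟩,true,115,179,.leaf [(2,36481),(4,65),(5,210),(7,86)],.leaf [(2,36481),(4,65),(5,210),(7,86)]⟩,
⟨⟨⟨-101,126,-102⟩,⟨-6,-123,-146⟩,⟨-162,-74,69⟩⟩,true,116,88,.leaf [(0,6112),(4,56),(7,11),(11,2101)],.leaf [(0,118993),(4,422),(7,308),(10,2101)]⟩,
⟨⟨⟨-101,126,102⟩,⟨6,123,-146⟩,⟨-162,-74,-69⟩⟩,true,116,103,.leaf [(3,36481),(5,81),(7,115),(15,35)],.leaf [(3,8022),(7,42),(10,2483),(14,1)]⟩,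
⟨⟨⟨-21,-186,-38⟩,⟨-66,43,-174⟩,⟨178,-6,-69⟩⟩,true,118,20,.leaf [(0,6),(1,31),(2,174),(5,1)],.leaf [(0,6),(1,31),(2,174),(5,1)]⟩,
⟨⟨⟨21,186,-38⟩,⟨-66,43,174⟩,⟨178,-6,69⟩⟩,true,118,171,.leaf [(0,134),(1,212),(2,9),(4,1)],.leaf [(0,134),(1,212),(2,9),(4,1)]⟩,
⟨⟨⟨-27,34,186⟩,⟨-74,171,-42⟩,⟨-174,-78,-11⟩⟩,true,119,78,.leaf [(3,36481),(5,245),(6,101),(14,15)],.leaf [(3,4966),(5,26),(6,17),(10,573)]⟩,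
⟨⟨⟨-27,34,-186⟩,⟨-74,171,42⟩,⟨174,78,-11⟩⟩,true,119,113,.leaf [(1,36481),(4,230),(5,185),(6,114)],.leaf [(1,36481),(4,230),(5,185),(6,114)]⟩,
⟨⟨⟨-11,-174,78⟩,⟨-186,27,34⟩,⟨-42,-74,-171⟩⟩,true,120,45,.leaf [(0,100),(1,159),(3,90),(5,1)],.leaf [(0,100),(1,159),(3,90),(5,1)]⟩,
⟨⟨⟨-11,-174,-78⟩,⟨186,-27,34⟩,⟨-42,-74,171⟩⟩,true,120,146,.leaf [(0,27),(11,85),(15,1),(18,75)],.leaf [(0,31133),(4,13),(6,172),(10,1528)]⟩,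
⟨⟨⟨-165,90,34⟩,⟨-66,-155,90⟩,⟨70,66,165⟩⟩,true,121,16,.leaf [(0,200),(1,56),(2,45),(4,1)],.leaf [(0,200),(1,56),(2,45),(4,1)]⟩,
⟨⟨⟨165,-90,34⟩,⟨-66,-155,-90⟩,⟨70,66,-165⟩⟩,true,121,175,.leaf [(1,191),(2,7449),(4,45),(5,29)],.leaf [(1,191),(2,7449),(4,45),(5,29)]⟩,
⟨⟨⟨-11,186,42⟩,⟨174,27,-74⟩,⟨-78,34,-171⟩⟩,true,122,83,.leaf [(0,36481),(4,147),(5,31),(7,81)],.leaf [(0,36481),(4,147),(5,31),(7,81)]⟩,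
⟨⟨⟨-11,186,-42⟩,⟨-174,-27,-74⟩,⟨-78,34,171⟩⟩,true,122,108,.leaf [(4,648),(7,225),(11,36481),(15,160)],.leaf [(0,17),(2,188),(4,1),(10,8)]⟩,
⟨⟨⟨-27,-74,174⟩,⟨34,171,78⟩,⟨-186,42,-11⟩⟩,true,123,36,.leaf [(0,45),(2,71),(3,185),(5,1)],.leaf [(0,45),(2,71),(3,185),(5,1)]⟩,
⟨⟨⟨-27,-74,-174⟩,⟨34,171,-78⟩,⟨186,-42,-11⟩⟩,true,123,155,.leaf [(1,36481),(4,116),(5,197),(6,228)],.leaf [(1,36481),(4,116),(5,197),(6,228)]⟩,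
⟨⟨⟨21,142,126⟩,⟨-182,-21,54⟩,⟨54,-126,133⟩⟩,true,125,6,.leaf [(2,975),(4,9),(11,248),(18,100)],.leaf [(2,8404),(4,48),(6,19),(10,1719)]⟩,
⟨⟨⟨21,142,-126⟩,⟨-182,-21,-54⟩,⟨-54,126,133⟩⟩,true,125,185,.leaf [(0,16),(1,72),(2,147),(4,1)],.leaf [(0,16),(1,72),(2,147),(4,1)]⟩,
⟨⟨⟨-171,-74,-42⟩,⟨34,27,-186⟩,⟨78,-174,-11⟩⟩,true,130,17,.leaf [(3,11460),(6,75),(10,2101),(15,4)],.leaf [(1,4833),(3,2796),(10,2176),(23,1)]⟩,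
⟨⟨⟨-171,-74,42⟩,⟨34,27,186⟩,⟨-78,174,-11⟩⟩,true,130,174,.leaf [(0,4584),(1,3629),(4,16),(5,25)],.leaf [(0,4584),(1,3629),(4,16),(5,25)]⟩,
⟨⟨⟨171,34,-78⟩,⟨-74,-27,-174⟩,⟨-42,186,-11⟩⟩,true,132,23,.leaf [(0,36481),(4,22),(5,228),(6,69)],.leaf [(0,36481),(4,22),(5,228),(6,69)]⟩,
⟨⟨⟨171,34,78⟩,⟨-74,-27,174⟩,⟨42,-186,-11⟩⟩,true,132,168,.leaf [(1,72962),(4,547),(5,310),(14,51)],.leaf [(1,272),(2,17),(4,1),(10,44)]⟩,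
⟨⟨⟨-21,-182,54⟩,⟨142,21,126⟩,⟨-126,54,133⟩⟩,true,136,52,.leaf [(0,382),(4,7),(15,4),(18,191)],.leaf [(0,109825),(4,262),(5,732),(10,9741)]⟩,
⟨⟨⟨-21,-182,-54⟩,⟨142,21,-126⟩,⟨126,-54,133⟩⟩,true,136,139,.leaf [(1,109443),(5,100),(6,320),(15,121)],.leaf [(1,225),(2,25),(5,1),(10,103)]⟩,
⟨⟨⟨21,54,-182⟩,⟨126,133,54⟩,⟨142,-126,-21⟩⟩,true,139,55,.leaf [(3,816),(4,3),(10,17),(18,44)],.leaf [(3,46413),(7,513),(10,37627),(14,1)]⟩,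
⟨⟨⟨-21,-54,-182⟩,⟨126,133,-54⟩,⟨142,-126,21⟩⟩,true,139,136,.leaf [(0,109443),(4,100),(7,320),(14,121)],.leaf [(3,25021),(4,103),(7,159),(10,9359)]⟩,
⟨⟨⟨-101,-6,162⟩,⟨-126,123,-74⟩,⟨-102,-146,-69⟩⟩,true,140,40,.leaf [(1,17),(3,326),(5,1),(18,28)],.leaf [(1,891),(3,1044),(10,352),(15,1)]⟩,
⟨⟨⟨-101,-6,-162⟩,⟨126,-123,-74⟩,⟨-102,-146,69⟩⟩,true,140,151,.leaf [(0,80602),(3,58828),(4,623),(14,11)],.leaf [(0,223),(3,220),(4,2),(10,11)]⟩,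
⟨⟨⟨43,-6,-186⟩,⟨-174,-69,-38⟩,⟨-66,178,-21⟩⟩,true,142,9,.leaf [(1,8977),(2,4584),(4,64),(5,3)],.leaf [(1,8977),(2,4584),(4,64),(5,3)]⟩,
⟨⟨⟨43,-6,186⟩,⟨174,69,-38⟩,⟨-66,178,21⟩⟩,true,142,182,.leaf [(0,184),(1,120),(3,45),(5,1)],.leaf [(0,184),(1,120),(3,45),(5,1)]⟩,
⟨⟨⟨-11,-78,174⟩,⟨42,-171,-74⟩,⟨186,34,27⟩⟩,true,146,71,.leaf [(0,31),(1,147),(2,81),(5,1)],.leaf [(0,31),(1,147),(2,81),(5,1)]⟩,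
⟨⟨⟨-11,-78,-174⟩,⟨-42,171,-74⟩,⟨186,34,-27⟩⟩,true,146,120,.leaf [(1,1647),(7,15),(10,395),(18,53)],.leaf [(1,73917),(5,225),(10,26740),(14,4)]⟩,
⟨⟨⟨69,-102,-146⟩,⟨-162,-101,-6⟩,⟨-74,126,-123⟩⟩,true,148,92,.leaf [(1,11651),(2,5157),(4,87),(5,23)],.leaf [(1,11651),(2,5157),(4,87),(5,23)]⟩,
⟨⟨⟨-69,102,-146⟩,⟨-162,-101,6⟩,⟨-74,126,123⟩⟩,true,148,99,.leaf [(0,131),(1,152),(2,72),(4,1)],.leaf [(0,131),(1,152),(2,72),(4,1)]⟩,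
⟨⟨⟨-101,-162,6⟩,⟨102,-69,-146⟩,⟨126,-74,123⟩⟩,true,151,51,.leaf [(0,5157),(2,191),(6,17),(14,7)],.leaf [(0,81),(2,115),(6,1),(10,35)]⟩,
⟨⟨⟨-101,-162,-6⟩,⟨-102,69,-146⟩,⟨126,-74,-123⟩⟩,true,151,140,.leaf [(1,80602),(2,58828),(5,623),(15,11)],.leaf [(1,161),(2,77),(5,1),(10,11)]⟩,
⟨⟨⟨-69,-174,-38⟩,⟨-6,43,-186⟩,⟨178,-66,-21⟩⟩,true,152,31,.leaf [(0,1528),(5,23),(7,152),(11,9359)],.leaf [(0,639),(2,262),(7,4),(10,59)]⟩,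
⟨⟨⟨69,174,-38⟩,⟨-6,43,186⟩,⟨178,-66,21⟩⟩,true,152,160,.leaf [(0,131),(1,215),(3,9),(4,1)],.leaf [(0,131),(1,215),(3,9),(4,1)]⟩,
⟨⟨⟨21,178,66⟩,⟨-38,69,-174⟩,⟨-186,6,43⟩⟩,true,154,85,.leaf [(0,36481),(4,121),(5,192),(6,228)],.leaf [(0,36481),(4,121),(5,192),(6,228)]⟩,
⟨⟨⟨21,178,-66⟩,⟨-38,69,174⟩,⟨186,-6,43⟩⟩,true,154,106,.leaf [(0,109),(1,204),(3,36),(4,1)],.leaf [(0,109),(1,204),(3,36),(4,1)]⟩,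
⟨⟨⟨27,174,-74⟩,⟨186,-11,42⟩,⟨34,-78,-171⟩⟩,true,155,68,.leaf [(0,185),(1,71),(3,45),(4,1)],.leaf [(0,185),(1,71),(3,45),(4,1)]⟩,
⟨⟨⟨-27,-174,-74⟩,⟨186,-11,-42⟩,⟨34,-78,171⟩⟩,true,155,123,.leaf [(0,36481),(4,197),(5,116),(7,228)],.leaf [(0,36481),(4,197),(5,116),(7,228)]⟩,
⟨⟨⟨43,66,174⟩,⟨186,-21,-38⟩,⟨6,178,-69⟩⟩,true,157,84,.leaf [(0,43739),(2,1146),(4,243),(5,212)],.leaf [(0,43739),(2,1146),(4,243),(5,212)]⟩,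
⟨⟨⟨43,66,-174⟩,⟨-186,21,-38⟩,⟨6,178,69⟩⟩,true,157,107,.leaf [(1,3820),(2,2101),(4,25),(7,4)],.leaf [(1,3820),(2,2101),(4,25),(7,4)]⟩,
⟨⟨⟨133,-54,126⟩,⟨-126,21,142⟩,⟨-54,-182,-21⟩⟩,true,159,11,.leaf [(1,4775),(3,2101),(4,11),(6,25)],.leaf [(1,4775),(3,2101),(4,11),(6,25)]⟩,
⟨⟨⟨133,-54,-126⟩,⟨126,-21,142⟩,⟨-54,-182,21⟩⟩,true,159,180,.leaf [(1,2101),(3,4775),(4,25),(6,11)],.leaf [(1,2101),(3,4775),(4,25),(6,11)]⟩,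
⟨⟨⟨69,-38,-174⟩,⟨178,21,66⟩,⟨6,-186,43⟩⟩,true,160,39,.leaf [(1,3820),(4,95),(6,86),(10,7067)],.L (.leaf [(5,441),(6,303),(11,36481),(14,53)]) (.L (.leaf [(0,147),(1,31),(3,81),(4,1)]) (.leaf [(0,90),(1,249),(2,190),(7,1)]) (.L (.leaf [(0,199),(1,174),(3,6),(4,1)]) (.leaf [(0,36936),(2,13635),(27,808),(30,5)]) (.leaf [(0,157),(1,228),(3,36),(4,1)]))) (.leaf [(0,47559),(3,21392),(4,204),(6,71)])⟩,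
⟨⟨⟨69,-38,174⟩,⟨178,21,-66⟩,⟨-6,186,43⟩⟩,true,160,152,.leaf [(0,215),(1,131),(2,9),(5,1)],.leaf [(0,215),(1,131),(2,9),(5,1)]⟩,
⟨⟨⟨-155,66,-90⟩,⟨-90,-165,34⟩,⟨-66,70,165⟩⟩,true,161,93,.leaf [(0,210),(1,124),(2,21),(4,1)],.leaf [(0,210),(1,124),(2,21),(4,1)]⟩,
⟨⟨⟨-155,66,90⟩,⟨90,165,34⟩,⟨-66,70,-165⟩⟩,true,161,98,.leaf [(0,4),(1,174),(3,81),(5,1)],.leaf [(0,4),(1,174),(3,81),(5,1)]⟩,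
⟨⟨⟨123,-6,-146⟩,⟨-126,-101,-102⟩,⟨-74,162,-69⟩⟩,true,163,19,.leaf [(1,2101),(2,22920),(4,144),(5,55)],.leaf [(1,2101),(2,22920),(4,144),(5,55)]⟩,
⟨⟨⟨-123,6,-146⟩,⟨-126,-101,102⟩,⟨-74,162,69⟩⟩,true,163,172,.leaf [(0,107),(1,179),(3,69),(4,1)],.leaf [(0,107),(1,179),(3,69),(4,1)]⟩,
⟨⟨⟨123,-74,126⟩,⟨-146,-69,102⟩,⟨6,-162,-101⟩⟩,true,164,15,.leaf [(4,540),(5,792),(10,36481),(14,55)],.leaf [(4,36),(5,15),(15,10),(23,1)]⟩,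
⟨⟨⟨123,-74,-126⟩,⟨-146,-69,-102⟩,⟨-6,162,-101⟩⟩,true,164,176,.leaf [(1,191),(2,5730),(4,34),(5,25)],.leaf [(1,191),(2,5730),(4,34),(5,25)]⟩,
⟨⟨⟨-69,6,178⟩,⟨174,43,66⟩,⟨-38,186,-21⟩⟩,true,166,86,.leaf [(0,174),(1,199),(2,6),(5,1)],.leaf [(0,174),(1,199),(2,6),(5,1)]⟩,
⟨⟨⟨69,-6,178⟩,⟨174,43,-66⟩,⟨-38,186,21⟩⟩,true,166,105,.leaf [(0,192),(1,121),(3,36),(5,1)],.leaf [(0,192),(1,121),(3,36),(5,1)]⟩,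
⟨⟨⟨-171,-78,34⟩,⟨42,-11,186⟩,⟨-74,174,27⟩⟩,true,168,59,.leaf [(0,4775),(1,3056),(4,19),(5,24)],.leaf [(0,4775),(1,3056),(4,19),(5,24)]⟩,
⟨⟨⟨171,78,34⟩,⟨42,-11,-186⟩,⟨-74,174,-27⟩⟩,true,168,132,.leaf [(0,72962),(4,310),(5,547),(15,51)],.leaf [(0,74),(3,149),(5,1),(10,22)]⟩,
⟨⟨⟨21,-38,-186⟩,⟨178,69,6⟩,⟨66,-174,43⟩⟩,true,171,73,.leaf [(0,4393),(1,45840),(4,25),(6,228)],.leaf [(0,4393),(1,45840),(4,25),(6,228)]⟩,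
⟨⟨⟨21,-38,186⟩,⟨178,69,-6⟩,⟨-66,174,43⟩⟩,true,171,118,.leaf [(0,212),(1,134),(3,9),(5,1)],.leaf [(0,212),(1,134),(3,9),(5,1)]⟩,
⟨⟨⟨-123,-146,-6⟩,⟨-74,69,-162⟩,⟨126,-102,-101⟩⟩,true,172,28,.leaf [(1,22920),(2,2101),(5,144),(6,55)],.leaf [(1,22920),(2,2101),(5,144),(6,55)]⟩,
⟨⟨⟨-123,-146,6⟩,⟨-74,69,162⟩,⟨-126,102,-101⟩⟩,true,172,163,.leaf [(0,179),(1,107),(2,69),(5,1)],.leaf [(0,179),(1,107),(2,69),(5,1)]⟩,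
⟨⟨⟨171,-42,-74⟩,⟨-78,-11,-174⟩,⟨34,186,-27⟩⟩,true,174,61,.leaf [(4,540),(5,1431),(11,72962),(15,65)],.leaf [(0,683),(2,182),(5,4),(10,47)]⟩,
⟨⟨⟨-171,42,-74⟩,⟨-78,-11,174⟩,⟨34,186,27⟩⟩,true,174,130,.leaf [(1,51),(2,53),(3,197),(4,1)],.leaf [(1,51),(2,53),(3,197),(4,1)]⟩,
⟨⟨⟨165,34,90⟩,⟨70,-165,-66⟩,⟨66,90,-155⟩⟩,true,175,70,.leaf [(0,4584),(1,3629),(4,16),(5,25)],.leaf [(0,4584),(1,3629),(4,16),(5,25)]⟩,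
⟨⟨⟨165,34,-90⟩,⟨70,-165,66⟩,⟨-66,-90,-155⟩⟩,true,175,121,.leaf [(0,130),(1,156),(2,69),(4,1)],.leaf [(0,130),(1,156),(2,69),(4,1)]⟩,
⟨⟨⟨-123,126,-74⟩,⟨-6,-101,-162⟩,⟨-146,-102,69⟩⟩,true,176,27,.leaf [(2,36481),(4,203),(7,224),(15,24)],.leaf [(0,150),(2,55),(4,1),(10,22)]⟩,
⟨⟨⟨123,-126,-74⟩,⟨-6,-101,162⟩,⟨-146,-102,-69⟩⟩,true,176,164,.leaf [(1,955),(3,4584),(4,24),(5,25)],.leaf [(1,955),(3,4584),(4,24),(5,25)]⟩,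
⟨⟨⟨-165,70,66⟩,⟨34,165,-90⟩,⟨-90,-66,-155⟩⟩,true,179,76,.leaf [(1,27504),(3,27695),(5,235),(6,136)],.leaf [(1,27504),(3,27695),(5,235),(6,136)]⟩,
⟨⟨⟨-165,70,-66⟩,⟨34,165,90⟩,⟨90,66,-155⟩⟩,true,179,115,.leaf [(3,36481),(4,210),(5,65),(6,86)],.leaf [(3,36481),(4,210),(5,65),(6,86)]⟩,
⟨⟨⟨133,-126,54⟩,⟨54,-21,-182⟩,⟨126,142,21⟩⟩,true,180,32,.leaf [(0,154),(1,33),(2,114),(5,1)],.leaf [(0,154),(1,33),(2,114),(5,1)]⟩,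
⟨⟨⟨133,-126,-54⟩,⟨-54,21,-182⟩,⟨126,142,-21⟩⟩,true,180,159,.leaf [(0,2101),(2,4775),(5,25),(7,11)],.leaf [(0,2101),(2,4775),(5,25),(7,11)]⟩,
⟨⟨⟨-69,-74,162⟩,⟨-146,123,-6⟩,⟨-102,-126,-101⟩⟩,true,181,89,.leaf [(3,42975),(5,522),(10,23684),(15,5)],.leaf [(3,204),(6,3),(10,182),(26,7)]⟩,
⟨⟨⟨-69,-74,-162⟩,⟨-146,123,6⟩,⟨102,126,-101⟩⟩,true,181,102,.leaf [(2,36481),(4,54),(5,228),(6,31)],.leaf [(2,36481),(4,54),(5,228),(6,31)]⟩,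
⟨⟨⟨43,186,6⟩,⟨66,-21,178⟩,⟨174,-38,-69⟩⟩,true,182,49,.leaf [(0,201),(1,172),(2,6),(4,1)],.leaf [(0,201),(1,172),(2,6),(4,1)]⟩,
⟨⟨⟨43,186,-6⟩,⟨-66,21,178⟩,⟨174,-38,69⟩⟩,true,182,142,.leaf [(0,120),(1,184),(2,45),(4,1)],.leaf [(0,120),(1,184),(2,45),(4,1)]⟩,
⟨⟨⟨-21,126,142⟩,⟨-54,133,-126⟩,⟨-182,-54,21⟩⟩,true,185,66,.leaf [(1,36481),(5,160),(7,75),(14,72)],.leaf [(1,17763),(3,191),(7,89),(15,9)]⟩,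
⟨⟨⟨21,-126,142⟩,⟨-54,133,126⟩,⟨-182,-54,-21⟩⟩,true,185,125,.leaf [(0,72),(1,16),(3,147),(5,1)],.leaf [(0,72),(1,16),(3,147),(5,1)]⟩]

theorem primeOk_191 : PrimeOk 191 := primeOk (by norm_num) (by norm_num) (by norm_num) L191
  (by decide +kernel) (by decide +kernel)

def L251 : List Cls := [
⟨⟨⟨9,-242,66⟩,⟨-242,9,66⟩,⟨-66,-66,-233⟩⟩,true,1,91,.leaf [(0,176),(1,200),(3,99),(5,1)],.leaf [(0,176),(1,200),(3,99),(5,1)]⟩,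
⟨⟨⟨9,-242,-66⟩,⟨-242,9,-66⟩,⟨66,66,-233⟩⟩,true,1,160,.leaf [(0,209),(1,167),(2,99),(5,1)],.leaf [(0,209),(1,167),(2,99),(5,1)]⟩,
⟨⟨⟨201,-150,10⟩,⟨150,199,-30⟩,⟨10,30,249⟩⟩,true,3,50,.leaf [(0,36),(2,84),(3,259),(7,1)],.leaf [(0,36),(2,84),(3,259),(7,1)]⟩,
⟨⟨⟨-201,150,10⟩,⟨150,199,30⟩,⟨10,30,-249⟩⟩,true,3,201,.leaf [(3,399341),(4,755),(5,999),(18,31375)],.leaf [(1,2295),(3,990),(10,916),(15,1)]⟩,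
⟨⟨⟨-249,10,30⟩,⟨10,-201,150⟩,⟨30,150,199⟩⟩,true,5,15,.leaf [(0,211),(1,36),(3,84),(4,1)],.leaf [(0,211),(1,36),(3,84),(4,1)]⟩,
⟨⟨⟨-249,10,-30⟩,⟨10,-201,-150⟩,⟨-30,-150,199⟩⟩,true,5,236,.L (.leaf [(0,145),(1,234),(3,90),(4,1)]) (.leaf [(0,269),(1,215),(2,225),(5,1)]) (.leaf [(0,44),(1,269),(3,54),(5,1)]),.leaf [(0,169),(3,48),(4,1),(10,42)]⟩,
⟨⟨⟨-39,-234,82⟩,⟨54,73,234⟩,⟨-242,54,39⟩⟩,true,6,88,.leaf [(0,267),(1,43),(2,21),(5,1)],.leaf [(0,267),(1,43),(2,21),(5,1)]⟩,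
⟨⟨⟨39,234,82⟩,⟨54,73,-234⟩,⟨-242,54,-39⟩⟩,true,6,163,.leaf [(0,13014),(3,10980),(18,2165),(22,1)],.leaf [(4,917),(5,267),(7,127),(10,63001)]⟩,
⟨⟨⟨199,138,66⟩,⟨-102,39,226⟩,⟨114,-206,87⟩⟩,true,7,47,.leaf [(1,23092),(2,6777),(4,106),(6,21)],.leaf [(1,23092),(2,6777),(4,106),(6,21)]⟩,
⟨⟨⟨199,138,-66⟩,⟨102,-39,226⟩,⟨114,-206,-87⟩⟩,true,7,204,.leaf [(0,177),(1,283),(3,9),(4,1)],.leaf [(0,177),(1,283),(3,9),(4,1)]⟩,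
⟨⟨⟨249,-18,-26⟩,⟨18,-89,234⟩,⟨-26,-234,-87⟩⟩,true,9,13,.leaf [(0,50),(1,260),(2,21),(4,1)],.leaf [(0,50),(1,260),(2,21),(4,1)]⟩,
⟨⟨⟨-249,18,-26⟩,⟨18,-89,-234⟩,⟨-26,-234,87⟩⟩,true,9,238,.leaf [(2,23092),(3,1757),(4,20),(7,97)],.leaf [(2,23092),(3,1757),(4,20),(7,97)]⟩,
⟨⟨⟨201,-98,114⟩,⟨82,231,54⟩,⟨-126,-6,217⟩⟩,true,12,68,.leaf [(2,63001),(5,96),(6,256),(14,57)],.leaf [(0,48945),(5,416),(6,235),(10,20582)]⟩,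
⟨⟨⟨201,-98,-114⟩,⟨82,231,-54⟩,⟨126,6,217⟩⟩,true,12,183,.leaf [(0,9),(1,168),(2,124),(6,1)],.leaf [(0,9),(1,168),(2,124),(6,1)]⟩,
⟨⟨⟨249,-26,-18⟩,⟨-26,-87,-234⟩,⟨18,234,-89⟩⟩,true,13,9,.leaf [(0,24347),(1,5020),(4,7),(5,92)],.leaf [(0,24347),(1,5020),(4,7),(5,92)]⟩,
⟨⟨⟨249,-26,18⟩,⟨-26,-87,234⟩,⟨-18,-234,-89⟩⟩,true,13,242,.leaf [(0,1),(1,216),(2,60),(4,1)],.leaf [(0,1),(1,216),(2,60),(4,1)]⟩,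
⟨⟨⟨-249,30,10⟩,⟨30,199,150⟩,⟨10,150,-201⟩⟩,true,15,5,.leaf [(0,502),(1,1757),(4,2),(5,7)],.leaf [(0,502),(1,1757),(4,2),(5,7)]⟩,
⟨⟨⟨249,-30,10⟩,⟨30,199,-150⟩,⟨10,150,201⟩⟩,true,15,246,.leaf [(3,63001),(5,54),(7,235),(15,30)],.leaf [(0,235),(3,118),(5,2),(10,125)]⟩,
⟨⟨⟨-87,114,-206⟩,⟨-66,199,138⟩,⟨226,102,-39⟩⟩,true,16,112,.leaf [(4,774),(5,108),(10,63001),(14,43)],.leaf [(4,2187),(14,2160),(26,63001),(30,10)]⟩,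
⟨⟨⟨87,-114,-206⟩,⟨-66,199,-138⟩,⟨226,102,39⟩⟩,true,16,139,.leaf [(2,108),(11,160),(14,1),(18,85)],.leaf [(2,10291),(5,69),(7,13),(10,4769)]⟩,
⟨⟨⟨55,-210,126⟩,⟨-126,-135,-170⟩,⟨210,-26,-135⟩⟩,true,19,89,.leaf [(0,145),(1,261),(2,39),(5,1)],.leaf [(0,145),(1,261),(2,39),(5,1)]⟩,
⟨⟨⟨55,-210,-126⟩,⟨126,135,-170⟩,⟨210,-26,135⟩⟩,true,19,162,.L (.leaf [(0,12),(1,79),(3,234),(5,1)]) (.leaf [(0,300),(1,139),(2,84),(5,1)]) (.leaf [(1,14175),(10,1743),(19,1079),(22,1)]),.leaf [(0,34),(1,339),(5,1),(10,150)]⟩,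
⟨⟨⟨-87,-234,-26⟩,⟨234,-89,18⟩,⟨-26,-18,249⟩⟩,true,20,58,.leaf [(0,63001),(4,323),(5,239),(7,231)],.leaf [(0,63001),(4,323),(5,239),(7,231)]⟩,
⟨⟨⟨87,234,-26⟩,⟨234,-89,-18⟩,⟨-26,-18,-249⟩⟩,true,20,193,.leaf [(0,239),(1,8),(2,84),(4,1)],.leaf [(0,239),(1,8),(2,84),(4,1)]⟩,
⟨⟨⟨231,82,-54⟩,⟨-98,201,-114⟩,⟨6,126,217⟩⟩,true,21,78,.leaf [(1,9),(2,283),(3,159),(6,1)],.leaf [(1,9),(2,283),(3,159),(6,1)]⟩,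
⟨⟨⟨231,82,54⟩,⟨-98,201,114⟩,⟨-6,-126,217⟩⟩,true,21,173,.leaf [(2,81),(6,6),(11,548),(18,115)],.leaf [(2,4267),(4,3),(6,19),(10,753)]⟩,
⟨⟨⟨9,198,154⟩,⟨-198,-89,126⟩,⟨154,-126,153⟩⟩,true,22,45,.leaf [(2,63001),(4,287),(5,54),(7,26)],.leaf [(2,63001),(4,287),(5,54),(7,26)]⟩,
⟨⟨⟨-9,-198,154⟩,⟨-198,-89,-126⟩,⟨154,-126,-153⟩⟩,true,22,206,.leaf [(0,72),(1,271),(3,36),(5,1)],.leaf [(0,72),(1,271),(3,36),(5,1)]⟩,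
⟨⟨⟨199,102,114⟩,⟨138,-39,-206⟩,⟨-66,226,-87⟩⟩,true,27,104,.leaf [(0,94),(2,30),(3,201),(5,1)],.leaf [(0,94),(2,30),(3,201),(5,1)]⟩,
⟨⟨⟨199,102,-114⟩,⟨-138,39,-206⟩,⟨-66,226,87⟩⟩,true,27,147,.leaf [(0,8283),(2,14809),(5,9),(7,67)],.leaf [(0,8283),(2,14809),(5,9),(7,67)]⟩,
⟨⟨⟨-89,18,234⟩,⟨-18,249,-26⟩,⟨-234,-26,-87⟩⟩,true,28,113,.leaf [(3,1833),(5,9),(10,286),(18,22)],.leaf [(1,189),(3,927),(10,127),(14,1)]⟩,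
⟨⟨⟨-89,18,-234⟩,⟨18,-249,-26⟩,⟨-234,-26,87⟩⟩,true,28,138,.leaf [(0,267),(1,184),(3,24),(4,1)],.leaf [(0,267),(1,184),(3,24),(4,1)]⟩,
⟨⟨⟨231,-98,6⟩,⟨82,201,126⟩,⟨-54,-114,217⟩⟩,true,30,75,.leaf [(2,52961),(4,159),(6,464),(18,10542)],.leaf [(5,888),(6,603),(10,63001),(14,20)]⟩,
⟨⟨⟨231,-98,-6⟩,⟨82,201,-126⟩,⟨54,114,217⟩⟩,true,30,176,.leaf [(2,7530),(3,251),(5,19),(6,34)],.leaf [(2,7530),(3,251),(5,19),(6,34)]⟩,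
⟨⟨⟨-39,102,226⟩,⟨138,199,-66⟩,⟨-206,114,-87⟩⟩,true,36,65,.leaf [(0,12),(1,79),(3,234),(5,1)],.leaf [(0,12),(1,79),(3,234),(5,1)]⟩,
⟨⟨⟨39,-102,226⟩,⟨138,199,66⟩,⟨-206,114,87⟩⟩,true,36,186,.leaf [(0,216),(1,55),(3,84),(5,1)],.leaf [(0,216),(1,55),(3,84),(5,1)]⟩,
⟨⟨⟨-39,-54,-242⟩,⟨234,73,-54⟩,⟨82,-234,39⟩⟩,true,40,77,.leaf [(0,189003),(4,553),(7,668),(14,70)],.leaf [(0,15060),(4,49),(7,80),(10,1757)]⟩,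
⟨⟨⟨39,54,-242⟩,⟨234,73,54⟩,⟨82,-234,-39⟩⟩,true,40,174,.leaf [(1,5271),(3,42670),(4,180),(7,19)],.leaf [(1,5271),(3,42670),(4,180),(7,19)]⟩,
⟨⟨⟨-215,-30,-126⟩,⟨-126,105,190⟩,⟨30,226,-105⟩⟩,true,41,122,.leaf [(1,44176),(3,33885),(4,256),(5,135)],.leaf [(1,44176),(3,33885),(4,256),(5,135)]⟩,
⟨⟨⟨-215,-30,126⟩,⟨126,-105,190⟩,⟨30,226,105⟩⟩,true,41,129,.leaf [(0,45431),(3,18825),(4,261),(5,101)],.leaf [(0,45431),(3,18825),(4,261),(5,101)]⟩,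
⟨⟨⟨73,54,-234⟩,⟨234,39,82⟩,⟨54,-242,-39⟩⟩,true,42,69,.leaf [(0,15),(1,85),(3,231),(4,1)],.leaf [(0,15),(1,85),(3,231),(4,1)]⟩,
⟨⟨⟨73,54,234⟩,⟨-234,-39,82⟩,⟨54,-242,39⟩⟩,true,42,182,.leaf [(1,63001),(4,85),(5,15),(6,231)],.leaf [(1,63001),(4,85),(5,15),(6,231)]⟩,
⟨⟨⟨9,154,198⟩,⟨154,153,-126⟩,⟨-198,126,-89⟩⟩,true,45,22,.leaf [(3,63001),(4,54),(5,287),(6,26)],.leaf [(3,63001),(4,54),(5,287),(6,26)]⟩,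
⟨⟨⟨9,154,-198⟩,⟨154,153,126⟩,⟨198,-126,-89⟩⟩,true,45,229,.leaf [(0,1),(1,90),(3,234),(4,1)],.leaf [(0,1),(1,90),(3,234),(4,1)]⟩,
⟨⟨⟨-105,190,126⟩,⟨226,105,30⟩,⟨-30,126,-215⟩⟩,true,46,49,.leaf [(2,251),(3,4016),(4,15),(5,16)],.leaf [(2,251),(3,4016),(4,15),(5,16)]⟩,
⟨⟨⟨-105,190,-126⟩,⟨226,105,-30⟩,⟨30,-126,-215⟩⟩,true,46,202,.leaf [(3,63001),(4,306),(5,185),(6,110)],.leaf [(3,63001),(4,306),(5,185),(6,110)]⟩,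
⟨⟨⟨199,66,138⟩,⟨114,87,-206⟩,⟨-102,226,39⟩⟩,true,47,7,.leaf [(0,23092),(3,6777),(5,106),(7,21)],.leaf [(0,23092),(3,6777),(5,106),(7,21)]⟩,
⟨⟨⟨199,66,-138⟩,⟨-114,-87,-206⟩,⟨-102,226,-39⟩⟩,true,47,244,.leaf [(2,63001),(4,201),(5,30),(7,94)],.leaf [(2,63001),(4,201),(5,30),(7,94)]⟩,
⟨⟨⟨217,-126,-6⟩,⟨114,201,-98⟩,⟨54,82,231⟩⟩,true,48,74,.R (.leaf [(0,108),(3,117),(18,20),(27,1)]) (.leaf [(0,189),(3,144),(18,32),(26,1)]) (.leaf [(0,43443),(3,31572),(18,7478),(30,1)]),.leaf [(0,505),(2,90),(5,4),(10,237)]⟩,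
⟨⟨⟨217,-126,6⟩,⟨-114,-201,-98⟩,⟨54,82,-231⟩⟩,true,48,177,.leaf [(1,2761),(2,15060),(4,76),(5,45)],.leaf [(1,2761),(2,15060),(4,76),(5,45)]⟩,
⟨⟨⟨-105,126,190⟩,⟨-30,-215,126⟩,⟨226,30,105⟩⟩,true,49,46,.leaf [(0,4016),(2,18825),(4,85),(5,64)],.leaf [(0,4016),(2,18825),(4,85),(5,64)]⟩,
⟨⟨⟨105,-126,190⟩,⟨-30,-215,-126⟩,⟨226,30,-105⟩⟩,true,49,205,.leaf [(0,156),(1,286),(3,9),(5,1)],.leaf [(0,156),(1,286),(3,9),(5,1)]⟩,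
⟨⟨⟨201,10,-150⟩,⟨10,249,30⟩,⟨150,-30,199⟩⟩,true,50,3,.leaf [(1,36),(2,259),(3,84),(6,1)],.leaf [(1,36),(2,259),(3,84),(6,1)]⟩,
⟨⟨⟨201,10,150⟩,⟨10,249,-30⟩,⟨-150,30,199⟩⟩,true,50,248,.leaf [(5,552),(6,624),(11,63001),(15,83)],.leaf [(2,52961),(5,8),(6,231),(10,7028)]⟩,
⟨⟨⟨-89,-126,198⟩,⟨126,153,154⟩,⟨-198,154,9⟩⟩,true,55,57,.leaf [(0,280),(1,180),(3,9),(5,1)],.leaf [(0,280),(1,180),(3,9),(5,1)]⟩,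
⟨⟨⟨-89,-126,-198⟩,⟨-126,-153,154⟩,⟨-198,154,-9⟩⟩,true,55,194,.leaf [(0,27),(1,208),(3,144),(4,1)],.leaf [(0,27),(1,208),(3,144),(4,1)]⟩,
⟨⟨⟨-89,198,-126⟩,⟨-198,9,154⟩,⟨126,154,153⟩⟩,true,57,55,.leaf [(0,180),(1,280),(2,9),(4,1)],.leaf [(0,180),(1,280),(2,9),(4,1)]⟩,
⟨⟨⟨-89,198,126⟩,⟨198,-9,154⟩,⟨126,154,-153⟩⟩,true,57,196,.leaf [(0,45431),(3,13554),(4,225),(5,26)],.leaf [(0,45431),(3,13554),(4,225),(5,26)]⟩,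
⟨⟨⟨-87,-26,-234⟩,⟨-26,249,-18⟩,⟨234,18,-89⟩⟩,true,58,20,.leaf [(1,63001),(4,239),(5,323),(6,231)],.leaf [(1,63001),(4,239),(5,323),(6,231)]⟩,
⟨⟨⟨-87,-26,234⟩,⟨-26,249,18⟩,⟨-234,-18,-89⟩⟩,true,58,231,.leaf [(0,8),(1,92),(3,231),(5,1)],.leaf [(0,8),(1,92),(3,231),(5,1)]⟩,
⟨⟨⟨-105,226,-30⟩,⟨190,105,126⟩,⟨126,30,-215⟩⟩,true,60,72,.leaf [(0,11546),(3,18825),(4,110),(5,9)],.leaf [(0,11546),(3,18825),(4,110),(5,9)]⟩,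
⟨⟨⟨-105,226,30⟩,⟨190,105,-126⟩,⟨-126,-30,-215⟩⟩,true,60,179,.leaf [(0,63001),(4,256),(5,96),(6,171)],.leaf [(0,63001),(4,256),(5,96),(6,171)]⟩,
⟨⟨⟨-39,226,102⟩,⟨-206,-87,114⟩,⟨138,-66,199⟩⟩,true,65,36,.leaf [(0,79),(1,12),(2,234),(4,1)],.leaf [(0,79),(1,12),(2,234),(4,1)]⟩,
⟨⟨⟨-39,226,-102⟩,⟨-206,-87,-114⟩,⟨-138,66,199⟩⟩,true,65,215,.leaf [(0,1506),(2,4267),(4,18),(6,1)],.leaf [(0,1506),(2,4267),(4,18),(6,1)]⟩,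
⟨⟨⟨135,-126,-170⟩,⟨210,55,126⟩,⟨-26,-210,135⟩⟩,true,66,101,.leaf [(1,24096),(3,69025),(4,336),(7,181)],.leaf [(1,24096),(3,69025),(4,336),(7,181)]⟩,
⟨⟨⟨-135,126,-170⟩,⟨210,55,-126⟩,⟨-26,-210,-135⟩⟩,true,66,150,.leaf [(3,6777),(4,99),(11,16817),(14,59)],.leaf [(0,27),(3,548),(4,2),(10,115)]⟩,
⟨⟨⟨199,30,150⟩,⟨30,-249,10⟩,⟨150,10,-201⟩⟩,true,67,84,.leaf [(0,1255),(1,1757),(4,5),(5,7)],.leaf [(0,1255),(1,1757),(4,5),(5,7)]⟩,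
⟨⟨⟨199,30,-150⟩,⟨-30,249,10⟩,⟨150,10,201⟩⟩,true,67,167,.leaf [(4,81),(7,900),(10,126002),(14,557)],.R (.leaf [(1,729),(10,315),(26,7),(35,5)]) (.leaf [(1,2916),(10,855),(26,58),(34,5)]) (.leaf [(14,4293),(26,126002),(31,800),(38,39)])⟩,
⟨⟨⟨201,114,-98⟩,⟨-126,217,-6⟩,⟨82,54,231⟩⟩,true,68,12,.leaf [(3,63001),(4,96),(7,256),(15,57)],.leaf [(1,17496),(10,4185),(26,124),(30,1)]⟩,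
⟨⟨⟨-201,-114,-98⟩,⟨-126,217,6⟩,⟨82,54,-231⟩⟩,true,68,239,.leaf [(0,9),(1,133),(2,159),(5,1)],.leaf [(0,9),(1,133),(2,159),(5,1)]⟩,
⟨⟨⟨73,-234,54⟩,⟨54,-39,-242⟩,⟨234,82,39⟩⟩,true,69,42,.leaf [(0,85),(1,15),(2,231),(5,1)],.leaf [(0,85),(1,15),(2,231),(5,1)]⟩,
⟨⟨⟨73,-234,-54⟩,⟨-54,39,-242⟩,⟨234,82,-39⟩⟩,true,69,209,.leaf [(0,1255),(2,7781),(5,31),(7,5)],.leaf [(0,1255),(2,7781),(5,31),(7,5)]⟩,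
⟨⟨⟨87,66,226⟩,⟨114,199,-102⟩,⟨-206,138,39⟩⟩,true,70,118,.leaf [(0,3012),(3,21335),(5,90),(7,17)],.leaf [(0,3012),(3,21335),(5,90),(7,17)]⟩,
⟨⟨⟨-87,-66,226⟩,⟨114,199,102⟩,⟨-206,138,-39⟩⟩,true,70,133,.leaf [(0,204),(1,175),(3,90),(5,1)],.leaf [(0,204),(1,175),(3,90),(5,1)]⟩,
⟨⟨⟨-105,-30,226⟩,⟨126,-215,30⟩,⟨190,126,105⟩⟩,true,72,60,.leaf [(2,35893),(3,5773),(4,65),(5,153)],.leaf [(2,35893),(3,5773),(4,65),(5,153)]⟩,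
⟨⟨⟨105,30,226⟩,⟨126,-215,-30⟩,⟨190,126,-105⟩⟩,true,72,191,.leaf [(0,45431),(2,60240),(4,331),(5,256)],.leaf [(0,45431),(2,60240),(4,331),(5,256)]⟩,
⟨⟨⟨153,-126,154⟩,⟨126,-89,-198⟩,⟨154,198,9⟩⟩,true,73,106,.leaf [(0,234),(1,145),(2,90),(5,1)],.leaf [(0,234),(1,145),(2,90),(5,1)]⟩,
⟨⟨⟨-153,126,154⟩,⟨126,-89,198⟩,⟨154,198,-9⟩⟩,true,73,145,.leaf [(0,58985),(3,13554),(4,271),(5,10)],.leaf [(0,58985),(3,13554),(4,271),(5,10)]⟩,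
⟨⟨⟨217,-6,-126⟩,⟨54,231,82⟩,⟨114,-98,201⟩⟩,true,74,48,.leaf [(1,54),(2,47),(7,2),(18,51)],.leaf [(1,1809),(3,864),(10,832),(15,1)]⟩,
⟨⟨⟨217,-6,126⟩,⟨-54,-231,82⟩,⟨114,-98,-201⟩⟩,true,74,203,.leaf [(0,3765),(1,8534),(4,29),(5,30)],.leaf [(0,3765),(1,8534),(4,29),(5,30)]⟩,
⟨⟨⟨231,6,-98⟩,⟨-54,217,-114⟩,⟨82,126,201⟩⟩,true,75,30,.leaf [(3,361440),(4,2466),(18,97639),(22,11)],.leaf [(3,5773),(4,76),(5,393),(10,31124)]⟩,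
⟨⟨⟨-231,-6,-98⟩,⟨-54,217,114⟩,⟨82,126,-201⟩⟩,true,75,221,.leaf [(0,251),(1,7530),(4,19),(5,34)],.leaf [(0,251),(1,7530),(4,19),(5,34)]⟩,
⟨⟨⟨-39,-242,-54⟩,⟨82,39,-234⟩,⟨234,-54,73⟩⟩,true,77,40,.leaf [(1,189003),(5,553),(6,668),(15,70)],.leaf [(1,35391),(5,91),(6,41),(10,8785)]⟩,
⟨⟨⟨-39,-242,54⟩,⟨82,39,234⟩,⟨-234,54,73⟩⟩,true,77,211,.leaf [(0,23092),(1,1757),(4,20),(5,97)],.leaf [(0,23092),(1,1757),(4,20),(5,97)]⟩,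
⟨⟨⟨231,-54,82⟩,⟨6,217,126⟩,⟨-98,-114,201⟩⟩,true,78,21,.leaf [(0,9),(2,159),(3,283),(7,1)],.leaf [(0,9),(2,159),(3,283),(7,1)]⟩,
⟨⟨⟨-231,54,82⟩,⟨6,217,-126⟩,⟨-98,-114,-201⟩⟩,true,78,230,.leaf [(1,349894),(5,2590),(14,545),(18,7781)],.leaf [(1,792909),(7,1719),(10,241964),(15,134)]⟩,
⟨⟨⟨-233,-66,-66⟩,⟨66,9,-242⟩,⟨66,-242,9⟩⟩,true,80,80,.R (.leaf [(3,2205),(5,27),(18,928),(27,14)]) (.leaf [(3,1719),(5,27),(18,904),(26,8)]) (.leaf [(3,7371117),(5,13905),(23,4408),(30,80)]),.leaf [(1,1701027),(6,1545),(15,2299),(22,95)]⟩,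
⟨⟨⟨-233,-66,66⟩,⟨-66,-9,-242⟩,⟨66,-242,-9⟩⟩,true,80,171,.leaf [(6,60),(10,23092),(11,1757),(15,97)],.leaf [(1,117468),(6,282),(10,43925),(14,25)]⟩,
⟨⟨⟨-135,-26,210⟩,⟨-170,-135,-126⟩,⟨126,-210,55⟩⟩,true,82,110,.leaf [(4,63),(5,156),(10,4267),(18,3514)],.leaf [(1,120480),(4,822),(10,97639),(14,11)]⟩,
⟨⟨⟨-135,-26,-210⟩,⟨-170,-135,126⟩,⟨-126,210,55⟩⟩,true,82,141,.leaf [(0,109),(1,240),(3,96),(4,1)],.leaf [(0,109),(1,240),(3,96),(4,1)]⟩,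
⟨⟨⟨199,150,30⟩,⟨150,-201,10⟩,⟨30,10,-249⟩⟩,true,84,67,.leaf [(0,42419),(2,52710),(4,279),(5,20)],.leaf [(0,42419),(2,52710),(4,279),(5,20)]⟩,
⟨⟨⟨199,150,-30⟩,⟨-150,201,10⟩,⟨30,10,249⟩⟩,true,84,184,.leaf [(2,45933),(4,387),(15,80),(18,2510)],.leaf [(1,357),(2,16),(7,1),(10,144)]⟩,
⟨⟨⟨217,54,114⟩,⟨-6,231,-98⟩,⟨-126,82,201⟩⟩,true,87,100,.leaf [(0,2403),(3,4284),(18,434),(22,1)],.leaf [(2,7781),(5,45),(7,131),(10,11295)]⟩,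
⟨⟨⟨217,54,-114⟩,⟨6,-231,-98⟩,⟨-126,82,-201⟩⟩,true,87,151,.leaf [(0,45),(1,16),(2,240),(4,1)],.leaf [(0,45),(1,16),(2,240),(4,1)]⟩,
⟨⟨⟨-39,82,-234⟩,⟨-242,39,54⟩,⟨54,234,73⟩⟩,true,88,6,.leaf [(0,43),(1,267),(3,21),(4,1)],.leaf [(0,43),(1,267),(3,21),(4,1)]⟩,
⟨⟨⟨-39,82,234⟩,⟨-242,39,-54⟩,⟨-54,-234,73⟩⟩,true,88,245,.L (.L (.leaf [(1,1782),(10,660),(19,413),(31,1)]) (.leaf [(0,205),(1,336),(2,96),(4,1)]) (.leaf [(1,23845),(3,46686),(4,236),(5,161)])) (.leaf [(0,140),(1,344),(2,225),(4,1)]) (.leaf [(0,12),(1,246),(3,79),(7,1)]),.leaf [(0,36),(3,160),(6,1),(10,85)]⟩,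
⟨⟨⟨55,126,-210⟩,⟨210,-135,-26⟩,⟨-126,-170,-135⟩⟩,true,89,19,.leaf [(0,261),(1,145),(3,39),(4,1)],.leaf [(0,261),(1,145),(3,39),(4,1)]⟩,
⟨⟨⟨55,126,210⟩,⟨-210,135,-26⟩,⟨-126,-170,135⟩⟩,true,89,232,.leaf [(2,738),(3,36),(10,67),(14,1)],.leaf [(1,5022),(3,9630),(22,5),(26,31)]⟩,
⟨⟨⟨9,66,-242⟩,⟨-66,-233,-66⟩,⟨-242,66,9⟩⟩,true,91,1,.leaf [(0,200),(1,176),(2,99),(4,1)],.leaf [(0,200),(1,176),(2,99),(4,1)]⟩,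
⟨⟨⟨-9,-66,-242⟩,⟨-66,-233,66⟩,⟨-242,66,-9⟩⟩,true,91,250,.leaf [(0,167),(1,266),(3,42),(4,1)],.leaf [(0,167),(1,266),(3,42),(4,1)]⟩,
⟨⟨⟨-201,82,126⟩,⟨-98,-231,-6⟩,⟨114,-54,217⟩⟩,true,92,123,.leaf [(2,63001),(4,426),(5,448),(14,97)],.leaf [(0,175),(2,105),(4,1),(10,33)]⟩,
⟨⟨⟨-201,82,-126⟩,⟨-98,-231,6⟩,⟨-114,54,217⟩⟩,true,92,128,.leaf [(0,274),(1,132),(2,39),(4,1)],.leaf [(0,274),(1,132),(2,39),(4,1)]⟩,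
⟨⟨⟨39,-138,-206⟩,⟨102,199,-114⟩,⟨226,-66,87⟩⟩,true,93,117,.leaf [(0,63001),(5,185),(7,89),(14,97)],.leaf [(0,159),(3,61),(7,1),(10,45)]⟩,
⟨⟨⟨-39,138,-206⟩,⟨102,199,114⟩,⟨226,-66,-87⟩⟩,true,93,134,.leaf [(3,23092),(4,106),(10,2259),(14,7)],.leaf [(1,2403),(3,1260),(10,1000),(15,1)]⟩,
⟨⟨⟨217,114,54⟩,⟨-126,201,82⟩,⟨-6,-98,231⟩⟩,true,100,87,.leaf [(2,623),(3,1084),(4,6),(18,229)],.leaf [(1,196533),(7,999),(10,148592),(15,224)]⟩,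
⟨⟨⟨217,114,-54⟩,⟨126,-201,82⟩,⟨-6,-98,-231⟩⟩,true,100,164,.leaf [(0,44),(2,271),(3,136),(4,1)],.leaf [(0,44),(2,271),(3,136),(4,1)]⟩,
⟨⟨⟨135,-170,-126⟩,⟨-26,135,-210⟩,⟨210,126,55⟩⟩,true,101,66,.leaf [(0,24096),(2,69025),(5,336),(6,181)],.leaf [(0,24096),(2,69025),(5,336),(6,181)]⟩,
⟨⟨⟨135,-170,126⟩,⟨-26,135,210⟩,⟨-210,-126,55⟩⟩,true,101,185,.leaf [(0,15471),(3,13095),(18,2755),(23,1)],.leaf [(3,25602),(5,90),(10,4769),(14,1)]⟩,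
⟨⟨⟨199,114,102⟩,⟨-66,-87,226⟩,⟨138,-206,-39⟩⟩,true,104,27,.leaf [(1,94),(2,201),(3,30),(4,1)],.leaf [(1,94),(2,201),(3,30),(4,1)]⟩,
⟨⟨⟨199,114,-102⟩,⟨66,87,226⟩,⟨138,-206,39⟩⟩,true,104,224,.leaf [(0,27),(1,244),(3,84),(4,1)],.leaf [(0,27),(1,244),(3,84),(4,1)]⟩,
⟨⟨⟨153,154,-126⟩,⟨154,9,198⟩,⟨126,-198,-89⟩⟩,true,106,73,.leaf [(0,145),(1,234),(3,90),(4,1)],.leaf [(0,145),(1,234),(3,90),(4,1)]⟩,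
⟨⟨⟨153,154,126⟩,⟨154,9,-198⟩,⟨-126,198,-89⟩⟩,true,106,178,.leaf [(0,13554),(3,58985),(5,271),(6,10)],.leaf [(0,13554),(3,58985),(5,271),(6,10)]⟩,
⟨⟨⟨-135,210,-26⟩,⟨126,55,-210⟩,⟨-170,-126,-135⟩⟩,true,110,82,.leaf [(0,1219860),(7,11304),(18,424441),(22,41)],.leaf [(2,55),(3,216),(4,1),(10,100)]⟩,
⟨⟨⟨135,-210,-26⟩,⟨126,55,210⟩,⟨-170,-126,135⟩⟩,true,110,169,.leaf [(0,63001),(4,71),(5,230),(7,186)],.leaf [(0,63001),(4,71),(5,230),(7,186)]⟩,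
⟨⟨⟨-87,-206,114⟩,⟨226,-39,102⟩,⟨-66,138,199⟩⟩,true,112,16,.leaf [(4,108),(5,774),(11,63001),(15,43)],.leaf [(0,561),(2,730),(5,4),(10,85)]⟩,
⟨⟨⟨-87,-206,-114⟩,⟨226,-39,-102⟩,⟨66,-138,199⟩⟩,true,112,235,.leaf [(1,6),(3,406),(6,1),(18,49)],.leaf [(1,420174),(5,1446),(10,192517),(14,131)]⟩,
⟨⟨⟨-89,234,18⟩,⟨-234,-87,-26⟩,⟨-18,-26,249⟩⟩,true,113,28,.leaf [(2,1536),(4,9),(11,352),(18,11)],.leaf [(0,77),(2,233),(4,1),(10,11)]⟩,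
⟨⟨⟨-89,234,-18⟩,⟨234,87,-26⟩,⟨-18,-26,-249⟩⟩,true,113,223,.leaf [(3,63001),(4,208),(5,184),(7,83)],.leaf [(3,63001),(4,208),(5,184),(7,83)]⟩,
⟨⟨⟨39,-206,-138⟩,⟨226,87,-66⟩,⟨102,-114,199⟩⟩,true,117,93,.leaf [(1,63001),(4,185),(6,89),(15,97)],.leaf [(1,6561),(10,13095),(26,203),(31,5)]⟩,
⟨⟨⟨39,-206,138⟩,⟨226,87,66⟩,⟨-102,114,199⟩⟩,true,117,158,.leaf [(0,60993),(5,759),(11,45431),(14,1)],.leaf [(0,861),(2,358),(5,4),(10,61)]⟩,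
⟨⟨⟨87,226,66⟩,⟨-206,39,138⟩,⟨114,-102,199⟩⟩,true,118,70,.leaf [(1,3012),(2,21335),(4,90),(6,17)],.leaf [(1,3012),(2,21335),(4,90),(6,17)]⟩,
⟨⟨⟨87,226,-66⟩,⟨-206,39,-138⟩,⟨-114,102,199⟩⟩,true,118,181,.leaf [(0,251),(2,4518),(4,17),(6,6)],.leaf [(0,251),(2,4518),(4,17),(6,6)]⟩,
⟨⟨⟨-215,-126,-30⟩,⟨30,-105,226⟩,⟨-126,190,105⟩⟩,true,122,41,.leaf [(0,8534),(1,3765),(4,30),(5,29)],.leaf [(0,8534),(1,3765),(4,30),(5,29)]⟩,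
⟨⟨⟨-215,-126,30⟩,⟨-30,105,226⟩,⟨-126,190,-105⟩⟩,true,122,210,.leaf [(0,7279),(1,7530),(4,15),(5,34)],.leaf [(0,7279),(1,7530),(4,15),(5,34)]⟩,
⟨⟨⟨-201,126,82⟩,⟨114,217,-54⟩,⟨-98,-6,-231⟩⟩,true,123,92,.leaf [(3,63001),(4,448),(5,426),(15,97)],.R (.leaf [(1,729),(10,315),(26,7),(35,5)]) (.leaf [(1,2916),(10,855),(26,58),(34,5)]) (.L (.leaf [(0,156),(1,286),(3,9),(5,1)]) (.leaf [(0,461700),(1,335259),(34,1444),(47,5)]) (.leaf [(0,341),(1,176),(3,240),(4,1)]))⟩,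
⟨⟨⟨201,-126,82⟩,⟨114,217,54⟩,⟨-98,-6,231⟩⟩,true,123,159,.leaf [(2,42168),(3,83081),(5,39),(7,284)],.leaf [(2,42168),(3,83081),(5,39),(7,284)]⟩,
⟨⟨⟨-201,-126,82⟩,⟨-114,217,54⟩,⟨-98,6,-231⟩⟩,true,128,92,.leaf [(0,132),(1,274),(3,39),(5,1)],.leaf [(0,132),(1,274),(3,39),(5,1)]⟩,
⟨⟨⟨201,126,82⟩,⟨-114,217,-54⟩,⟨-98,6,231⟩⟩,true,128,159,.leaf [(4,555),(7,918),(10,63001),(15,110)],.L (.leaf [(0,9),(1,133),(2,159),(5,1)]) (.leaf [(0,91125),(1,76788),(34,575),(38,2)]) (.leaf [(0,1365),(1,2817),(10,665),(15,1)])⟩,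
⟨⟨⟨-215,126,-30⟩,⟨30,105,226⟩,⟨126,190,-105⟩⟩,true,129,41,.leaf [(0,5),(2,16),(3,256),(4,1)],.leaf [(0,5),(2,16),(3,256),(4,1)]⟩,
⟨⟨⟨-215,126,30⟩,⟨-30,-105,226⟩,⟨126,190,105⟩⟩,true,129,210,.leaf [(0,231),(1,121),(3,75),(4,1)],.leaf [(0,231),(1,121),(3,75),(4,1)]⟩,
⟨⟨⟨-87,226,-66⟩,⟨-206,-39,138⟩,⟨114,102,199⟩⟩,true,133,70,.leaf [(0,175),(1,204),(2,90),(4,1)],.leaf [(0,175),(1,204),(2,90),(4,1)]⟩,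
⟨⟨⟨-87,226,66⟩,⟨-206,-39,-138⟩,⟨-114,-102,199⟩⟩,true,133,181,.leaf [(0,4518),(2,251),(4,6),(6,17)],.leaf [(0,4518),(2,251),(4,6),(6,17)]⟩,
⟨⟨⟨-39,-206,138⟩,⟨226,-87,-66⟩,⟨102,114,199⟩⟩,true,134,93,.leaf [(2,23092),(5,106),(11,2259),(15,7)],.leaf [(0,297),(2,922),(5,4),(10,61)]⟩,
⟨⟨⟨-39,-206,-138⟩,⟨226,-87,66⟩,⟨-102,-114,199⟩⟩,true,134,158,.leaf [(4,3771),(5,1983),(15,1739),(18,63001)],.leaf [(4,57),(5,784),(6,8),(10,63001)]⟩,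
⟨⟨⟨-89,-234,18⟩,⟨-234,87,-26⟩,⟨18,-26,-249⟩⟩,true,138,28,.leaf [(0,184),(1,267),(2,24),(5,1)],.leaf [(0,184),(1,267),(2,24),(5,1)]⟩,
⟨⟨⟨-89,-234,-18⟩,⟨234,-87,-26⟩,⟨18,-26,249⟩⟩,true,138,223,.leaf [(0,123),(2,22),(6,1),(11,44)],.leaf [(0,222),(2,88),(6,1),(10,11)]⟩,
⟨⟨⟨87,-206,-114⟩,⟨226,39,102⟩,⟨-66,-138,199⟩⟩,true,139,16,.leaf [(3,72),(6,3),(10,76),(18,85)],.leaf [(3,15060),(5,276),(10,24347),(14,7)]⟩,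
⟨⟨⟨87,-206,114⟩,⟨226,39,-102⟩,⟨66,138,199⟩⟩,true,139,235,.leaf [(2,40662),(5,813),(11,58985),(14,10)],.leaf [(0,645),(2,646),(5,4),(10,85)]⟩,
⟨⟨⟨-135,-210,-26⟩,⟨-126,55,210⟩,⟨-170,126,-135⟩⟩,true,141,82,.leaf [(0,240),(1,109),(2,96),(5,1)],.leaf [(0,240),(1,109),(2,96),(5,1)]⟩,
⟨⟨⟨135,210,-26⟩,⟨-126,55,-210⟩,⟨-170,126,135⟩⟩,true,141,169,.leaf [(0,315),(2,70),(4,1),(18,46)],.leaf [(0,5),(1,416),(4,1),(10,150)]⟩,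
⟨⟨⟨-153,154,126⟩,⟨154,-9,198⟩,⟨126,198,-89⟩⟩,true,145,73,.leaf [(0,45431),(3,27108),(4,269),(5,36)],.leaf [(0,45431),(3,27108),(4,269),(5,36)]⟩,
⟨⟨⟨-153,154,-126⟩,⟨154,-9,-198⟩,⟨-126,-198,-89⟩⟩,true,145,178,.leaf [(2,53965),(3,81324),(4,90),(6,271)],.leaf [(2,53965),(3,81324),(4,90),(6,271)]⟩,
⟨⟨⟨199,-114,102⟩,⟨-66,87,226⟩,⟨-138,-206,39⟩⟩,true,147,27,.leaf [(1,8283),(3,14809),(4,9),(6,67)],.leaf [(1,8283),(3,14809),(4,9),(6,67)]⟩,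
⟨⟨⟨199,-114,-102⟩,⟨66,-87,226⟩,⟨-138,-206,-39⟩⟩,true,147,224,.leaf [(1,14809),(3,8283),(4,67),(6,9)],.leaf [(1,14809),(3,8283),(4,67),(6,9)]⟩,
⟨⟨⟨-135,-170,126⟩,⟨-26,-135,-210⟩,⟨210,-126,55⟩⟩,true,150,66,.leaf [(2,6777),(5,99),(10,16817),(15,59)],.leaf [(1,2082798),(5,5127),(10,422684),(23,71)]⟩,
⟨⟨⟨-135,-170,-126⟩,⟨-26,-135,210⟩,⟨-210,126,55⟩⟩,true,150,185,.leaf [(1,29116),(3,64005),(4,296),(5,35)],.leaf [(1,29116),(3,64005),(4,296),(5,35)]⟩,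
⟨⟨⟨217,-114,54⟩,⟨-126,-201,82⟩,⟨6,-98,-231⟩⟩,true,151,87,.leaf [(1,19829),(2,12048),(4,128),(5,57)],.leaf [(1,19829),(2,12048),(4,128),(5,57)]⟩,
⟨⟨⟨217,-114,-54⟩,⟨126,201,82⟩,⟨6,-98,231⟩⟩,true,151,164,.leaf [(0,2259),(4,9),(10,4016),(14,14)],.leaf [(1,5697),(3,4827),(10,2651),(22,1)]⟩,
⟨⟨⟨39,138,-206⟩,⟨-102,199,114⟩,⟨226,66,87⟩⟩,true,158,117,.leaf [(1,60993),(4,759),(10,45431),(15,1)],.leaf [(1,8505135),(4,52416),(23,2795),(31,32)]⟩,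
⟨⟨⟨-39,-138,-206⟩,⟨-102,199,-114⟩,⟨226,66,-87⟩⟩,true,158,134,.leaf [(4,3237),(5,4464),(14,664),(18,63001)],.leaf [(1,241),(2,114),(5,1),(10,90)]⟩,
⟨⟨⟨201,82,-126⟩,⟨-98,231,-6⟩,⟨114,54,217⟩⟩,true,159,123,.leaf [(2,83081),(3,42168),(4,39),(6,284)],.leaf [(2,83081),(3,42168),(4,39),(6,284)]⟩,
⟨⟨⟨201,82,126⟩,⟨-98,231,6⟩,⟨-114,-54,217⟩⟩,true,159,128,.leaf [(5,555),(6,918),(11,63001),(14,110)],.leaf [(0,72),(2,208),(6,1),(10,33)]⟩,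
⟨⟨⟨9,-66,-242⟩,⟨66,-233,66⟩,⟨-242,-66,9⟩⟩,true,160,1,.leaf [(0,167),(1,209),(3,99),(4,1)],.leaf [(0,167),(1,209),(3,99),(4,1)]⟩,
⟨⟨⟨-9,66,-242⟩,⟨66,-233,-66⟩,⟨-242,-66,-9⟩⟩,true,160,250,.leaf [(0,275),(1,176),(2,24),(4,1)],.leaf [(0,275),(1,176),(2,24),(4,1)]⟩,
⟨⟨⟨55,-126,-210⟩,⟨210,135,-26⟩,⟨126,-170,135⟩⟩,true,162,19,.leaf [(4,6372),(6,3201),(15,2776),(18,63001)],.leaf [(1,1080),(3,1320),(10,419),(14,1)]⟩,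
⟨⟨⟨55,-126,210⟩,⟨-210,-135,-26⟩,⟨126,-170,-135⟩⟩,true,162,232,.leaf [(1,63001),(4,145),(5,261),(6,39)],.leaf [(1,63001),(4,145),(5,261),(6,39)]⟩,
⟨⟨⟨39,82,234⟩,⟨-242,-39,54⟩,⟨54,-234,73⟩⟩,true,163,6,.leaf [(1,693),(2,1455),(15,5),(18,287)],.leaf [(1,1004),(4,22),(6,49),(10,4769)]⟩,
⟨⟨⟨39,82,-234⟩,⟨-242,-39,-54⟩,⟨-54,234,73⟩⟩,true,163,245,.leaf [(0,10),(1,180),(2,111),(4,1)],.leaf [(0,10),(1,180),(2,111),(4,1)]⟩,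
⟨⟨⟨217,-54,114⟩,⟨-6,-231,-98⟩,⟨126,82,-201⟩⟩,true,164,100,.leaf [(0,7279),(1,7530),(4,15),(5,34)],.leaf [(0,7279),(1,7530),(4,15),(5,34)]⟩,
⟨⟨⟨217,-54,-114⟩,⟨6,231,-98⟩,⟨126,82,201⟩⟩,true,164,151,.leaf [(1,2259),(5,9),(11,4016),(15,14)],.leaf [(0,46),(1,45),(5,1),(10,90)]⟩,
⟨⟨⟨199,-150,30⟩,⟨150,201,10⟩,⟨-30,10,249⟩⟩,true,167,67,.leaf [(5,81),(6,900),(11,126002),(15,557)],.leaf [(0,88),(3,69),(5,1),(10,72)]⟩,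
⟨⟨⟨199,-150,-30⟩,⟨-150,-201,10⟩,⟨-30,10,-249⟩⟩,true,167,184,.leaf [(1,40411),(2,36144),(4,304),(5,129)],.leaf [(1,40411),(2,36144),(4,304),(5,129)]⟩,
⟨⟨⟨135,-26,-210⟩,⟨-170,135,-126⟩,⟨126,210,55⟩⟩,true,169,110,.leaf [(1,63001),(4,230),(5,71),(6,186)],.leaf [(1,63001),(4,230),(5,71),(6,186)]⟩,
⟨⟨⟨135,-26,210⟩,⟨-170,135,126⟩,⟨-126,-210,55⟩⟩,true,169,141,.R (.leaf [(3,5175),(4,108),(18,3460),(27,11)]) (.leaf [(3,8388),(4,189),(18,6022),(26,11)]) (.leaf [(3,1716840),(4,38340),(18,1218103),(30,11)]),.leaf [(1,87),(3,13),(6,1),(10,109)]⟩,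
⟨⟨⟨-233,66,-66⟩,⟨66,-9,-242⟩,⟨-66,-242,-9⟩⟩,true,171,80,.leaf [(7,60),(10,1757),(11,23092),(14,97)],.leaf [(3,46686),(4,189),(10,31375),(15,50)]⟩,
⟨⟨⟨-233,66,66⟩,⟨-66,9,-242⟩,⟨-66,-242,9⟩⟩,true,171,171,.R (.leaf [(0,13905),(6,117),(18,4408),(27,80)]) (.leaf [(0,1350),(6,9),(18,376),(26,5)]) (.leaf [(0,1701027),(6,1719),(23,904),(31,8)]),.leaf [(3,613695),(4,7587),(10,720119),(23,95)]⟩,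
⟨⟨⟨231,54,82⟩,⟨-6,217,-126⟩,⟨-98,114,201⟩⟩,true,173,21,.R (.leaf [(3,4293),(18,800),(23,2),(27,39)]) (.leaf [(3,25785),(7,63),(18,1705),(26,71)]) (.leaf [(3,6248394),(7,15381),(18,422684),(31,71)]),.leaf [(3,20331),(5,135),(10,1255),(14,37)]⟩,
⟨⟨⟨-231,-54,82⟩,⟨-6,217,126⟩,⟨-98,114,-201⟩⟩,true,173,230,.leaf [(0,159),(1,283),(2,9),(5,1)],.leaf [(0,159),(1,283),(2,9),(5,1)]⟩,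
⟨⟨⟨39,-242,54⟩,⟨82,-39,-234⟩,⟨234,54,73⟩⟩,true,174,40,.leaf [(0,5271),(2,42670),(5,180),(6,19)],.leaf [(0,5271),(2,42670),(5,180),(6,19)]⟩,
⟨⟨⟨39,-242,-54⟩,⟨82,-39,234⟩,⟨-234,-54,73⟩⟩,true,174,211,.leaf [(3,63001),(4,36),(5,91),(15,70)],.leaf [(3,19829),(4,54),(5,77),(10,3514)]⟩,
⟨⟨⟨231,-6,-98⟩,⟨54,217,114⟩,⟨82,-126,201⟩⟩,true,176,30,.leaf [(2,251),(3,7530),(4,19),(7,34)],.leaf [(2,251),(3,7530),(4,19),(7,34)]⟩,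
⟨⟨⟨-231,6,-98⟩,⟨54,217,-114⟩,⟨82,-126,-201⟩⟩,true,176,221,.leaf [(4,4),(5,3),(7,2),(15,1)],.leaf [(1,304965),(7,1065),(10,148843),(22,11)]⟩,
⟨⟨⟨217,6,-126⟩,⟨54,-231,82⟩,⟨-114,-98,-201⟩⟩,true,177,48,.leaf [(0,141),(1,208),(2,96),(4,1)],.leaf [(0,141),(1,208),(2,96),(4,1)]⟩,
⟨⟨⟨217,6,126⟩,⟨-54,231,82⟩,⟨-114,-98,201⟩⟩,true,177,203,.leaf [(0,15552),(3,12069),(18,2704),(23,1)],.leaf [(1,1161),(3,267),(10,167),(14,1)]⟩,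
⟨⟨⟨153,126,154⟩,⟨-126,-89,198⟩,⟨154,-198,9⟩⟩,true,178,106,.leaf [(1,13554),(2,58985),(4,271),(7,10)],.leaf [(1,13554),(2,58985),(4,271),(7,10)]⟩,
⟨⟨⟨-153,-126,154⟩,⟨-126,-89,-198⟩,⟨154,-198,-9⟩⟩,true,178,145,.leaf [(2,81324),(3,53965),(5,90),(7,271)],.leaf [(2,81324),(3,53965),(5,90),(7,271)]⟩,
⟨⟨⟨-105,30,226⟩,⟨-126,-215,-30⟩,⟨190,-126,105⟩⟩,true,179,60,.leaf [(1,63001),(4,96),(5,256),(7,171)],.leaf [(1,63001),(4,96),(5,256),(7,171)]⟩,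
⟨⟨⟨105,-30,226⟩,⟨-126,-215,30⟩,⟨190,-126,-105⟩⟩,true,179,191,.leaf [(0,251),(1,7530),(4,19),(5,34)],.leaf [(0,251),(1,7530),(4,19),(5,34)]⟩,
⟨⟨⟨87,-66,226⟩,⟨-114,199,102⟩,⟨-206,-138,39⟩⟩,true,181,118,.leaf [(1,251),(3,4518),(5,17),(7,6)],.leaf [(1,251),(3,4518),(5,17),(7,6)]⟩,
⟨⟨⟨-87,66,226⟩,⟨-114,199,-102⟩,⟨-206,-138,-39⟩⟩,true,181,133,.leaf [(1,4518),(3,251),(5,6),(7,17)],.leaf [(1,4518),(3,251),(5,6),(7,17)]⟩,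
⟨⟨⟨73,234,54⟩,⟨54,39,-242⟩,⟨-234,82,-39⟩⟩,true,182,42,.leaf [(0,63001),(4,15),(5,85),(7,231)],.leaf [(0,63001),(4,15),(5,85),(7,231)]⟩,
⟨⟨⟨73,234,-54⟩,⟨-54,-39,-242⟩,⟨-234,82,39⟩⟩,true,182,209,.leaf [(0,7781),(2,1255),(5,5),(7,31)],.leaf [(0,7781),(2,1255),(5,5),(7,31)]⟩,
⟨⟨⟨201,-114,-98⟩,⟨126,217,6⟩,⟨82,-54,231⟩⟩,true,183,12,.leaf [(0,168),(1,9),(3,124),(7,1)],.leaf [(0,168),(1,9),(3,124),(7,1)]⟩,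
⟨⟨⟨-201,114,-98⟩,⟨126,217,-6⟩,⟨82,-54,-231⟩⟩,true,183,239,.leaf [(3,237),(5,9),(10,452),(18,212)],.leaf [(1,756),(3,612),(10,547),(14,1)]⟩,
⟨⟨⟨199,-30,150⟩,⟨30,249,10⟩,⟨-150,10,201⟩⟩,true,184,84,.leaf [(3,292917),(5,1233),(14,430),(18,17570)],.leaf [(3,70029),(5,81),(10,35140),(14,100)]⟩,
⟨⟨⟨199,-30,-150⟩,⟨-30,-249,10⟩,⟨-150,10,-201⟩⟩,true,184,167,.leaf [(1,85),(2,219),(3,75),(4,1)],.leaf [(1,85),(2,219),(3,75),(4,1)]⟩,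
⟨⟨⟨135,126,-170⟩,⟨-210,55,-126⟩,⟨-26,210,135⟩⟩,true,185,101,.leaf [(1,180),(2,257),(4,2),(18,23)],.leaf [(1,9538),(4,27),(5,22),(10,3765)]⟩,
⟨⟨⟨-135,-126,-170⟩,⟨-210,55,126⟩,⟨-26,210,-135⟩⟩,true,185,150,.leaf [(1,69025),(3,24096),(4,336),(5,181)],.leaf [(1,69025),(3,24096),(4,336),(5,181)]⟩,
⟨⟨⟨39,226,-102⟩,⟨-206,87,114⟩,⟨138,66,199⟩⟩,true,186,36,.leaf [(0,55),(1,216),(2,84),(4,1)],.leaf [(0,55),(1,216),(2,84),(4,1)]⟩,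
⟨⟨⟨39,226,102⟩,⟨-206,87,-114⟩,⟨-138,-66,199⟩⟩,true,186,215,.leaf [(0,246),(1,12),(2,67),(6,1)],.leaf [(0,246),(1,12),(2,67),(6,1)]⟩,
⟨⟨⟨105,226,30⟩,⟨190,-105,126⟩,⟨126,-30,-215⟩⟩,true,191,72,.leaf [(0,256),(1,96),(2,75),(4,1)],.leaf [(0,256),(1,96),(2,75),(4,1)]⟩,
⟨⟨⟨105,226,-30⟩,⟨190,-105,-126⟩,⟨-126,30,-215⟩⟩,true,191,179,.leaf [(0,40160),(2,2259),(4,185),(5,96)],.leaf [(0,40160),(2,2259),(4,185),(5,96)]⟩,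
⟨⟨⟨87,-26,234⟩,⟨-26,-249,-18⟩,⟨234,-18,-89⟩⟩,true,193,20,.leaf [(0,502),(1,1757),(4,2),(5,7)],.leaf [(0,502),(1,1757),(4,2),(5,7)]⟩,
⟨⟨⟨87,-26,-234⟩,⟨-26,-249,18⟩,⟨-234,18,-89⟩⟩,true,193,231,.leaf [(0,181),(1,252),(2,42),(4,1)],.leaf [(0,181),(1,252),(2,42),(4,1)]⟩,
⟨⟨⟨-89,-198,-126⟩,⟨-198,-9,154⟩,⟨-126,154,-153⟩⟩,true,194,55,.leaf [(1,67519),(3,36144),(4,352),(5,189)],.leaf [(1,67519),(3,36144),(4,352),(5,189)]⟩,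
⟨⟨⟨-89,-198,126⟩,⟨198,9,154⟩,⟨-126,154,153⟩⟩,true,194,196,.leaf [(0,63001),(4,180),(5,280),(6,9)],.leaf [(0,63001),(4,180),(5,280),(6,9)]⟩,
⟨⟨⟨-89,126,198⟩,⟨126,-153,154⟩,⟨198,154,-9⟩⟩,true,196,57,.leaf [(0,45431),(2,13554),(4,207),(5,44)],.leaf [(0,45431),(2,13554),(4,207),(5,44)]⟩,
⟨⟨⟨-89,126,-198⟩,⟨-126,153,154⟩,⟨198,154,9⟩⟩,true,196,194,.leaf [(1,63001),(4,280),(5,180),(7,9)],.leaf [(1,63001),(4,280),(5,180),(7,9)]⟩,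
⟨⟨⟨-201,10,150⟩,⟨10,-249,30⟩,⟨150,30,199⟩⟩,true,201,3,.leaf [(2,52961),(4,54),(5,380),(18,6275)],.leaf [(0,205),(2,24),(4,1),(10,30)]⟩,
⟨⟨⟨-201,10,-150⟩,⟨10,-249,-30⟩,⟨-150,-30,199⟩⟩,true,201,248,.leaf [(0,259),(1,84),(3,36),(4,1)],.leaf [(0,259),(1,84),(3,36),(4,1)]⟩,
⟨⟨⟨-105,-126,190⟩,⟨30,-215,-126⟩,⟨226,-30,105⟩⟩,true,202,46,.leaf [(2,63001),(4,185),(5,306),(7,110)],.leaf [(2,63001),(4,185),(5,306),(7,110)]⟩,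
⟨⟨⟨105,126,190⟩,⟨30,-215,126⟩,⟨226,-30,-105⟩⟩,true,202,205,.leaf [(0,30371),(2,60240),(4,295),(5,64)],.leaf [(0,30371),(2,60240),(4,295),(5,64)]⟩,
⟨⟨⟨217,126,-6⟩,⟨114,-201,-98⟩,⟨-54,82,-231⟩⟩,true,203,74,.leaf [(0,35642),(2,33885),(4,225),(5,92)],.leaf [(0,35642),(2,33885),(4,225),(5,92)]⟩,
⟨⟨⟨217,126,6⟩,⟨-114,201,-98⟩,⟨-54,82,231⟩⟩,true,203,177,.leaf [(5,5697),(7,4827),(14,2651),(18,63001)],.leaf [(0,56),(1,371),(7,1),(10,152)]⟩,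
⟨⟨⟨199,-66,138⟩,⟨114,-87,-206⟩,⟨102,226,-39⟩⟩,true,204,7,.leaf [(0,283),(1,177),(2,9),(5,1)],.leaf [(0,283),(1,177),(2,9),(5,1)]⟩,
⟨⟨⟨199,-66,-138⟩,⟨-114,87,-206⟩,⟨102,226,39⟩⟩,true,204,244,.leaf [(0,2259),(2,16817),(5,33),(7,59)],.leaf [(0,2259),(2,16817),(5,33),(7,59)]⟩,
⟨⟨⟨105,190,-126⟩,⟨226,-105,30⟩,⟨-30,-126,-215⟩⟩,true,205,49,.leaf [(0,286),(1,156),(2,9),(4,1)],.leaf [(0,286),(1,156),(2,9),(4,1)]⟩,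
⟨⟨⟨105,190,126⟩,⟨226,-105,-30⟩,⟨30,126,-215⟩⟩,true,205,202,.leaf [(0,71786),(2,18825),(4,341),(5,156)],.leaf [(0,71786),(2,18825),(4,341),(5,156)]⟩,
⟨⟨⟨-9,154,-198⟩,⟨154,-153,-126⟩,⟨-198,-126,-89⟩⟩,true,206,22,.leaf [(0,271),(1,72),(2,36),(4,1)],.leaf [(0,271),(1,72),(2,36),(4,1)]⟩,
⟨⟨⟨-9,154,198⟩,⟨154,-153,126⟩,⟨198,126,-89⟩⟩,true,206,229,.leaf [(0,58985),(2,27108),(4,287),(5,72)],.leaf [(0,58985),(2,27108),(4,287),(5,72)]⟩,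
⟨⟨⟨73,-54,-234⟩,⟨234,-39,82⟩,⟨-54,-242,39⟩⟩,true,209,69,.leaf [(1,1255),(3,7781),(4,31),(6,5)],.leaf [(1,1255),(3,7781),(4,31),(6,5)]⟩,
⟨⟨⟨73,-54,234⟩,⟨-234,39,82⟩,⟨-54,-242,-39⟩⟩,true,209,182,.leaf [(1,7781),(3,1255),(4,5),(6,31)],.leaf [(1,7781),(3,1255),(4,5),(6,31)]⟩,
⟨⟨⟨-215,30,-126⟩,⟨-126,-105,190⟩,⟨-30,226,105⟩⟩,true,210,122,.leaf [(1,46),(2,135),(3,270),(4,1)],.leaf [(1,46),(2,135),(3,270),(4,1)]⟩,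
⟨⟨⟨-215,30,126⟩,⟨126,105,190⟩,⟨-30,226,-105⟩⟩,true,210,129,.leaf [(0,2761),(1,4016),(4,5),(5,16)],.leaf [(0,2761),(1,4016),(4,5),(5,16)]⟩,
⟨⟨⟨-39,54,-242⟩,⟨-234,73,54⟩,⟨82,234,39⟩⟩,true,211,77,.leaf [(1,42670),(3,5271),(4,180),(5,19)],.leaf [(1,42670),(3,5271),(4,180),(5,19)]⟩,
⟨⟨⟨39,-54,-242⟩,⟨-234,73,-54⟩,⟨82,234,-39⟩⟩,true,211,174,.leaf [(2,63001),(4,91),(5,36),(14,70)],.leaf [(2,122237),(4,287),(5,612),(10,17570)]⟩,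
⟨⟨⟨-39,-102,226⟩,⟨-138,199,66⟩,⟨-206,-114,-87⟩⟩,true,215,65,.leaf [(1,1506),(3,4267),(5,18),(7,1)],.leaf [(1,1506),(3,4267),(5,18),(7,1)]⟩,
⟨⟨⟨39,102,226⟩,⟨-138,199,-66⟩,⟨-206,-114,87⟩⟩,true,215,186,.leaf [(0,12),(1,246),(3,67),(7,1)],.leaf [(0,12),(1,246),(3,67),(7,1)]⟩,
⟨⟨⟨-231,-98,-6⟩,⟨82,-201,126⟩,⟨-54,114,217⟩⟩,true,221,75,.leaf [(0,16817),(3,2259),(4,83),(5,39)],.leaf [(0,16817),(3,2259),(4,83),(5,39)]⟩,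
⟨⟨⟨-231,-98,6⟩,⟨82,-201,-126⟩,⟨54,-114,217⟩⟩,true,221,176,.leaf [(4,3),(5,4),(6,2),(14,1)],.leaf [(4,822),(5,700),(6,35),(10,63001)]⟩,
⟨⟨⟨-89,-18,234⟩,⟨-18,-249,-26⟩,⟨234,-26,87⟩⟩,true,223,113,.leaf [(2,63001),(4,184),(5,208),(6,83)],.leaf [(2,63001),(4,184),(5,208),(6,83)]⟩,
⟨⟨⟨-89,-18,-234⟩,⟨18,249,-26⟩,⟨234,-26,-87⟩⟩,true,223,138,.leaf [(1,123),(3,22),(7,1),(10,44)],.leaf [(1,567009),(7,1239),(14,220),(31,22)]⟩,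
⟨⟨⟨199,-102,114⟩,⟨138,39,-206⟩,⟨66,226,87⟩⟩,true,224,104,.leaf [(0,244),(1,27),(2,84),(5,1)],.leaf [(0,244),(1,27),(2,84),(5,1)]⟩,
⟨⟨⟨199,-102,-114⟩,⟨-138,-39,-206⟩,⟨66,226,-87⟩⟩,true,224,147,.leaf [(0,14809),(2,8283),(5,67),(7,9)],.leaf [(0,14809),(2,8283),(5,67),(7,9)]⟩,
⟨⟨⟨9,-198,154⟩,⟨198,-89,-126⟩,⟨154,126,153⟩⟩,true,229,45,.leaf [(0,90),(1,1),(2,234),(5,1)],.leaf [(0,90),(1,1),(2,234),(5,1)]⟩,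
⟨⟨⟨-9,198,154⟩,⟨198,-89,126⟩,⟨154,126,-153⟩⟩,true,229,206,.leaf [(0,72539),(2,13554),(4,307),(5,28)],.leaf [(0,72539),(2,13554),(4,307),(5,28)]⟩,
⟨⟨⟨-231,82,54⟩,⟨-98,-201,-114⟩,⟨6,-126,217⟩⟩,true,230,78,.L (.L (.leaf [(1,23092),(2,6777),(4,106),(6,21)]) (.leaf [(0,186),(1,292),(2,9),(4,1)]) (.L (.leaf [(0,35391),(4,91),(7,41),(11,8785)]) (.leaf [(0,236),(1,296),(2,255),(4,1)]) (.leaf [(0,180),(1,10),(3,291),(5,1)]))) (.leaf [(0,20),(1,296),(2,201),(4,1)]) (.leaf [(0,6777),(1,1255),(5,37),(14,15)]),.leaf [(0,46184),(4,224),(6,75),(10,8283)]⟩,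
⟨⟨⟨-231,82,-54⟩,⟨-98,-201,114⟩,⟨-6,126,217⟩⟩,true,230,173,.leaf [(0,283),(1,159),(3,9),(4,1)],.leaf [(0,283),(1,159),(3,9),(4,1)]⟩,
⟨⟨⟨-87,234,-26⟩,⟨-234,-89,-18⟩,⟨-26,18,249⟩⟩,true,231,58,.leaf [(0,92),(1,8),(2,231),(4,1)],.leaf [(0,92),(1,8),(2,231),(4,1)]⟩,
⟨⟨⟨87,-234,-26⟩,⟨-234,-89,18⟩,⟨-26,18,-249⟩⟩,true,231,193,.leaf [(2,53965),(3,59989),(4,71),(5,255)],.leaf [(2,53965),(3,59989),(4,71),(5,255)]⟩,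
⟨⟨⟨55,210,126⟩,⟨-126,135,-170⟩,⟨-210,-26,135⟩⟩,true,232,89,.leaf [(2,36),(3,738),(11,67),(15,1)],.leaf [(0,417),(2,58),(7,4),(10,261)]⟩,
⟨⟨⟨55,210,-126⟩,⟨126,-135,-170⟩,⟨-210,-26,-135⟩⟩,true,232,162,.leaf [(0,63001),(4,261),(5,145),(7,39)],.leaf [(0,63001),(4,261),(5,145),(7,39)]⟩,
⟨⟨⟨-87,-114,-206⟩,⟨66,199,-138⟩,⟨226,-102,-39⟩⟩,true,235,112,.leaf [(0,734),(2,149),(5,4),(18,167)],.leaf [(0,465),(2,154),(7,4),(10,245)]⟩,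
⟨⟨⟨87,114,-206⟩,⟨66,199,138⟩,⟨226,-102,39⟩⟩,true,235,139,.leaf [(3,40662),(4,813),(10,58985),(15,10)],.leaf [(4,9234),(7,4212),(26,63001),(30,247)]⟩,
⟨⟨⟨-249,-30,10⟩,⟨-30,199,-150⟩,⟨10,-150,-201⟩⟩,true,236,5,.leaf [(1,96635),(5,485),(7,156),(18,6024)],.leaf [(1,309),(2,55),(7,1),(10,125)]⟩,
⟨⟨⟨249,30,10⟩,⟨-30,199,150⟩,⟨10,-150,201⟩⟩,true,236,246,.leaf [(2,502),(3,1757),(4,2),(7,7)],.leaf [(2,502),(3,1757),(4,2),(7,7)]⟩,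
⟨⟨⟨-249,-26,18⟩,⟨-26,87,-234⟩,⟨18,-234,-89⟩⟩,true,238,9,.leaf [(2,1757),(3,23092),(5,20),(6,97)],.leaf [(2,1757),(3,23092),(5,20),(6,97)]⟩,
⟨⟨⟨-249,-26,-18⟩,⟨-26,87,234⟩,⟨-18,234,-89⟩⟩,true,238,242,.leaf [(0,1255),(1,1757),(4,5),(5,7)],.leaf [(0,1255),(1,1757),(4,5),(5,7)]⟩,
⟨⟨⟨-201,-98,-114⟩,⟨82,-231,54⟩,⟨-126,6,217⟩⟩,true,239,68,.leaf [(0,133),(1,9),(3,159),(4,1)],.leaf [(0,133),(1,9),(3,159),(4,1)]⟩,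
⟨⟨⟨-201,-98,114⟩,⟨82,-231,-54⟩,⟨126,-6,217⟩⟩,true,239,183,.leaf [(2,705),(5,6),(11,118),(18,125)],.leaf [(0,96133),(4,838),(5,300),(10,42921)]⟩,
⟨⟨⟨249,18,-26⟩,⟨-18,-89,-234⟩,⟨-26,234,-87⟩⟩,true,242,13,.leaf [(0,23092),(1,1757),(4,20),(5,97)],.leaf [(0,23092),(1,1757),(4,20),(5,97)]⟩,
⟨⟨⟨-249,-18,-26⟩,⟨-18,-89,234⟩,⟨-26,234,87⟩⟩,true,242,238,.leaf [(0,71),(1,50),(3,210),(4,1)],.leaf [(0,71),(1,50),(3,210),(4,1)]⟩,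
⟨⟨⟨199,-138,66⟩,⟨-102,-39,226⟩,⟨-114,-206,-87⟩⟩,true,244,47,.leaf [(3,63001),(4,30),(5,201),(6,94)],.leaf [(3,63001),(4,30),(5,201),(6,94)]⟩,
⟨⟨⟨199,-138,-66⟩,⟨102,39,226⟩,⟨-114,-206,87⟩⟩,true,244,204,.leaf [(1,2259),(3,16817),(4,33),(6,59)],.leaf [(1,2259),(3,16817),(4,33),(6,59)]⟩,
⟨⟨⟨-39,234,82⟩,⟨-54,73,-234⟩,⟨-242,-54,39⟩⟩,true,245,88,.leaf [(1,1584),(2,2670),(14,5),(18,11)],.leaf [(1,24),(2,76),(4,1),(10,85)]⟩,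
⟨⟨⟨39,-234,82⟩,⟨-54,73,234⟩,⟨-242,-54,-39⟩⟩,true,245,163,.leaf [(0,180),(1,10),(3,111),(5,1)],.leaf [(0,180),(1,10),(3,111),(5,1)]⟩,
⟨⟨⟨249,10,-30⟩,⟨10,201,150⟩,⟨30,-150,199⟩⟩,true,246,15,.leaf [(2,63001),(4,54),(6,235),(14,30)],.leaf [(1,216),(2,127),(6,1),(10,84)]⟩,
⟨⟨⟨249,10,30⟩,⟨10,201,-150⟩,⟨-30,150,199⟩⟩,true,246,236,.leaf [(2,1757),(3,502),(5,2),(6,7)],.leaf [(2,1757),(3,502),(5,2),(6,7)]⟩,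
⟨⟨⟨201,150,10⟩,⟨-150,199,30⟩,⟨10,-30,249⟩⟩,true,248,50,.leaf [(4,552),(7,624),(10,63001),(14,83)],.leaf [(1,753),(3,32630),(7,122),(15,15)]⟩,
⟨⟨⟨-201,-150,10⟩,⟨-150,199,-30⟩,⟨10,-30,-249⟩⟩,true,248,201,.leaf [(0,84),(1,259),(2,36),(5,1)],.leaf [(0,84),(1,259),(2,36),(5,1)]⟩,
⟨⟨⟨-9,-242,-66⟩,⟨-242,-9,66⟩,⟨-66,66,-233⟩⟩,true,250,91,.leaf [(2,69025),(3,63001),(4,99),(5,299)],.leaf [(2,69025),(3,63001),(4,99),(5,299)]⟩,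
⟨⟨⟨-9,-242,66⟩,⟨-242,-9,-66⟩,⟨66,-66,-233⟩⟩,true,250,160,.leaf [(0,176),(1,275),(3,24),(5,1)],.leaf [(0,176),(1,275),(3,24),(5,1)]⟩]

theorem primeOk_251 : PrimeOk 251 := primeOk (by norm_num) (by norm_num) (by norm_num) L251
  (by decide +kernel) (by decide +kernel)

end Pool.Agent.Lib.H63.TSP
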