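import Mathlib
import Pool.Agent.Lib.H63.TSPPrime

/-!
# Generated certificates for the primes 19, 127, 193, 241
-/

set_option autoImplicit false

namespace Pool.Agent.Lib.H63.TSP

def L19 : List Cls := [
⟨⟨⟨1,-18,6⟩,⟨-18,1,6⟩,⟨-6,-6,-17⟩⟩,true,1,6,.leaf [(0,12),(1,14),(3,9),(5,1)],.leaf [(0,12),(1,14),(3,9),(5,1)]⟩,
⟨⟨⟨1,-18,-6⟩,⟨-18,1,-6⟩,⟨6,6,-17⟩⟩,true,1,13,.leaf [(0,15),(1,11),(2,9),(5,1)],.leaf [(0,15),(1,11),(2,9),(5,1)]⟩,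
⟨⟨⟨-17,6,6⟩,⟨-6,1,-18⟩,⟨-6,-18,1⟩⟩,true,3,3,.leaf [(0,1539),(6,216),(18,608),(22,1)],.leaf [(3,684),(4,189),(10,1330),(14,5)]⟩,
⟨⟨⟨-17,6,-6⟩,⟨-6,1,18⟩,⟨6,18,1⟩⟩,true,3,16,.leaf [(0,5),(1,9),(3,15),(4,1)],.leaf [(0,5),(1,9),(3,15),(4,1)]⟩,
⟨⟨⟨1,6,-18⟩,⟨-6,-17,-6⟩,⟨-18,6,1⟩⟩,true,6,1,.leaf [(0,14),(1,12),(2,9),(4,1)],.leaf [(0,14),(1,12),(2,9),(4,1)]⟩,
⟨⟨⟨1,6,18⟩,⟨-6,-17,6⟩,⟨18,-6,1⟩⟩,true,6,18,.leaf [(2,361),(4,21),(5,12),(6,2)],.leaf [(2,361),(4,21),(5,12),(6,2)]⟩,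
⟨⟨⟨15,10,6⟩,⟨6,-15,10⟩,⟨10,-6,-15⟩⟩,true,7,8,.leaf [(0,6),(2,19),(3,4),(4,1)],.leaf [(0,6),(2,19),(3,4),(4,1)]⟩,
⟨⟨⟨15,10,-6⟩,⟨-6,15,10⟩,⟨10,-6,15⟩⟩,true,7,11,.leaf [(4,63),(7,36),(10,361),(14,2)],.leaf [(1,9234),(7,3105),(26,2356),(31,1)]⟩,
⟨⟨⟨15,6,10⟩,⟨10,-15,-6⟩,⟨6,10,-15⟩⟩,true,8,7,.leaf [(0,304),(2,285),(4,25),(5,16)],.leaf [(0,304),(2,285),(4,25),(5,16)]⟩,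
⟨⟨⟨-15,-6,10⟩,⟨10,-15,6⟩,⟨6,10,15⟩⟩,true,8,12,.leaf [(4,135),(5,126),(11,722),(14,7)],.leaf [(0,532),(4,37),(5,16),(10,57)]⟩,
⟨⟨⟨15,-6,10⟩,⟨10,15,-6⟩,⟨-6,10,15⟩⟩,true,11,7,.leaf [(5,63),(6,36),(11,361),(15,2)],.leaf [(2,361),(5,12),(6,23),(10,38)]⟩,
⟨⟨⟨-15,6,10⟩,⟨10,15,6⟩,⟨-6,10,-15⟩⟩,true,11,12,.leaf [(0,4),(1,19),(3,6),(5,1)],.leaf [(0,4),(1,19),(3,6),(5,1)]⟩,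
⟨⟨⟨-15,10,-6⟩,⟨6,15,10⟩,⟨10,6,-15⟩⟩,true,12,8,.leaf [(4,126),(5,135),(10,722),(15,7)],.leaf [(1,70794),(4,7155),(26,5947),(31,10)]⟩,
⟨⟨⟨-15,10,6⟩,⟨-6,-15,10⟩,⟨10,6,15⟩⟩,true,12,11,.leaf [(0,19),(1,4),(2,6),(4,1)],.leaf [(0,19),(1,4),(2,6),(4,1)]⟩,
⟨⟨⟨1,-6,-18⟩,⟨6,-17,6⟩,⟨-18,-6,1⟩⟩,true,13,1,.leaf [(0,11),(1,15),(3,9),(4,1)],.leaf [(0,11),(1,15),(3,9),(4,1)]⟩,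
⟨⟨⟨1,-6,18⟩,⟨6,-17,-6⟩,⟨18,6,1⟩⟩,true,13,18,.leaf [(0,6),(1,17),(2,6),(5,1)],.leaf [(0,6),(1,17),(2,6),(5,1)]⟩,
⟨⟨⟨-17,-6,6⟩,⟨6,1,18⟩,⟨-6,18,1⟩⟩,true,16,3,.leaf [(0,133),(1,95),(4,5),(5,7)],.leaf [(0,133),(1,95),(4,5),(5,7)]⟩,
⟨⟨⟨-17,-6,-6⟩,⟨6,1,-18⟩,⟨6,-18,1⟩⟩,true,16,16,.leaf [(3,2565),(5,1053),(18,2470),(22,2)],.leaf [(1,2052),(6,117),(10,1235),(14,10)]⟩,
⟨⟨⟨1,18,6⟩,⟨18,1,-6⟩,⟨-6,6,-17⟩⟩,true,18,6,.leaf [(3,361),(4,12),(5,21),(7,2)],.leaf [(3,361),(4,12),(5,21),(7,2)]⟩,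
⟨⟨⟨1,18,-6⟩,⟨18,1,6⟩,⟨6,-6,-17⟩⟩,true,18,13,.leaf [(0,17),(1,6),(3,6),(4,1)],.leaf [(0,17),(1,6),(3,6),(4,1)]⟩]

theorem primeOk_19 : PrimeOk 19 := primeOk (by norm_num) (by norm_num) (by norm_num) L19
  (by decide +kernel) (by decide +kernel)

def L127 : List Cls := [
⟨⟨⟨21,42,118⟩,⟨-98,-69,42⟩,⟨78,-98,21⟩⟩,true,2,54,.leaf [(1,774),(2,2805),(15,10),(18,121)],.leaf [(1,92),(2,69),(4,1),(10,42)]⟩,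
⟨⟨⟨-21,-42,118⟩,⟨-98,-69,-42⟩,⟨78,-98,-21⟩⟩,true,2,73,.leaf [(2,29),(5,4),(10,158),(18,19)],.L (.leaf [(0,524637),(18,10414),(23,164),(30,93)]) (.leaf [(0,137),(1,159),(2,93),(5,1)]) (.leaf [(0,5080),(3,7239),(4,48),(5,53)])⟩,
⟨⟨⟨-75,-98,30⟩,⟨102,-75,10⟩,⟨10,30,123⟩⟩,true,3,25,.leaf [(0,1143),(2,7493),(5,51),(7,31)],.leaf [(0,1143),(2,7493),(5,51),(7,31)]⟩,
⟨⟨⟨-75,-98,-30⟩,⟨-102,75,10⟩,⟨10,30,-123⟩⟩,true,3,102,.leaf [(0,68),(1,93),(2,60),(5,1)],.leaf [(0,68),(1,93),(2,60),(5,1)]⟩,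
⟨⟨⟨37,42,114⟩,⟨66,-107,18⟩,⟨102,54,-53⟩⟩,true,8,58,.leaf [(0,12319),(2,13716),(4,167),(5,96)],.leaf [(0,12319),(2,13716),(4,167),(5,96)]⟩,
⟨⟨⟨37,42,-114⟩,⟨66,-107,-18⟩,⟨-102,-54,-53⟩⟩,true,8,69,.leaf [(0,137),(1,96),(2,12),(4,1)],.leaf [(0,137),(1,96),(2,12),(4,1)]⟩,
⟨⟨⟨-107,-54,-42⟩,⟨-18,-53,114⟩,⟨-66,102,37⟩⟩,true,10,36,.leaf [(1,5207),(3,19050),(4,156),(5,1)],.leaf [(1,5207),(3,19050),(4,156),(5,1)]⟩,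
⟨⟨⟨-107,-54,42⟩,⟨-18,-53,-114⟩,⟨66,-102,37⟩⟩,true,10,91,.leaf [(1,241),(2,30),(5,5),(18,54)],.leaf [(1,108),(2,62),(6,1),(10,45)]⟩,
⟨⟨⟨-53,-54,102⟩,⟨-18,-107,-66⟩,⟨114,-42,37⟩⟩,true,13,46,.leaf [(1,635),(2,889),(5,7),(6,5)],.leaf [(1,635),(2,889),(5,7),(6,5)]⟩,
⟨⟨⟨-53,-54,-102⟩,⟨-18,-107,66⟩,⟨-114,42,37⟩⟩,true,13,81,.leaf [(0,53),(1,93),(3,75),(4,1)],.leaf [(0,53),(1,93),(3,75),(4,1)]⟩,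
⟨⟨⟨-107,66,18⟩,⟨42,37,114⟩,⟨54,102,-53⟩⟩,true,16,39,.leaf [(0,2159),(3,6858),(4,67),(5,6)],.leaf [(0,2159),(3,6858),(4,67),(5,6)]⟩,
⟨⟨⟨-107,66,-18⟩,⟨42,37,-114⟩,⟨-54,-102,-53⟩⟩,true,16,88,.R (.leaf [(0,108),(3,117),(18,20),(27,1)]) (.leaf [(0,189),(3,144),(18,32),(26,1)]) (.leaf [(0,8316),(3,1719),(18,1180),(31,1)]),.leaf [(3,45720),(4,486),(10,25019),(14,25)]⟩,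
⟨⟨⟨91,78,42⟩,⟨-42,91,-78⟩,⟨-78,42,91⟩⟩,true,19,20,.leaf [(0,64516),(5,133),(7,214),(15,133)],.leaf [(0,81),(2,266),(7,4),(10,133)]⟩,
⟨⟨⟨91,78,-42⟩,⟨-42,91,78⟩,⟨78,-42,91⟩⟩,true,19,107,.leaf [(1,283083),(4,2490),(15,65),(18,3302)],.leaf [(1,316230),(4,2229),(10,8255),(23,26)]⟩,
⟨⟨⟨91,42,78⟩,⟨-78,91,42⟩,⟨-42,-78,91⟩⟩,true,20,19,.leaf [(1,64516),(4,133),(6,214),(14,133)],.leaf [(1,297),(3,498),(10,244),(15,1)]⟩,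
⟨⟨⟨91,42,-78⟩,⟨-78,91,-42⟩,⟨42,78,91⟩⟩,true,20,108,.leaf [(2,681),(7,6),(11,26),(18,13)],.leaf [(1,39),(2,107),(7,1),(10,13)]⟩,
⟨⟨⟨-75,30,-98⟩,⟨10,123,30⟩,⟨102,10,-75⟩⟩,true,25,3,.leaf [(1,1143),(3,7493),(4,51),(6,31)],.leaf [(1,1143),(3,7493),(4,51),(6,31)]⟩,
⟨⟨⟨75,-30,-98⟩,⟨10,123,-30⟩,⟨102,10,75⟩⟩,true,25,124,.leaf [(1,60),(2,93),(3,68),(6,1)],.leaf [(1,60),(2,93),(3,68),(6,1)]⟩,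
⟨⟨⟨69,-42,-98⟩,⟨-98,21,-78⟩,⟨42,118,-21⟩⟩,true,27,63,.leaf [(2,16129),(4,132),(5,160),(6,55)],.leaf [(2,16129),(4,132),(5,160),(6,55)]⟩,
⟨⟨⟨-69,42,-98⟩,⟨-98,21,78⟩,⟨42,118,21⟩⟩,true,27,64,.leaf [(1,92),(2,21),(3,84),(4,1)],.leaf [(1,92),(2,21),(3,84),(4,1)]⟩,
⟨⟨⟨117,-26,-42⟩,⟨18,123,-26⟩,⟨46,18,117⟩⟩,true,28,55,.R (.leaf [(0,27945),(18,2081),(23,13),(27,93)]) (.leaf [(0,39609),(18,3248),(23,16),(26,93)]) (.leaf [(0,524637),(18,10414),(23,164),(30,93)]),.leaf [(3,63627),(7,441),(10,7112),(15,8)]⟩,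
⟨⟨⟨117,-26,42⟩,⟨-18,-123,-26⟩,⟨46,18,-117⟩⟩,true,28,72,.leaf [(0,5207),(1,5842),(4,31),(5,50)],.leaf [(0,5207),(1,5842),(4,31),(5,50)]⟩,
⟨⟨⟨-53,114,18⟩,⟨102,37,66⟩,⟨54,42,-107⟩⟩,true,29,38,.leaf [(0,1016),(3,1143),(4,16),(5,3)],.leaf [(0,1016),(3,1143),(4,16),(5,3)]⟩,
⟨⟨⟨-53,114,-18⟩,⟨102,37,-66⟩,⟨-54,-42,-107⟩⟩,true,29,89,.leaf [(0,889),(3,635),(4,5),(7,7)],.leaf [(0,889),(3,635),(4,5),(7,7)]⟩,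
⟨⟨⟨-117,46,-18⟩,⟨-42,-117,-26⟩,⟨-26,-18,123⟩⟩,true,30,49,.leaf [(0,11811),(2,5080),(4,105),(7,8)],.leaf [(0,11811),(2,5080),(4,105),(7,8)]⟩,
⟨⟨⟨-117,46,18⟩,⟨42,117,-26⟩,⟨-26,-18,-123⟩⟩,true,30,78,.leaf [(1,356),(3,605),(5,5),(18,64)],.leaf [(1,1350),(3,741),(10,532),(15,1)]⟩,
⟨⟨⟨75,10,102⟩,⟨-30,123,10⟩,⟨-98,-30,75⟩⟩,true,34,42,.leaf [(0,20),(1,110),(3,67),(7,1)],.leaf [(0,20),(1,110),(3,67),(7,1)]⟩,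
⟨⟨⟨75,10,-102⟩,⟨30,-123,10⟩,⟨-98,-30,-75⟩⟩,true,34,85,.leaf [(0,100),(1,112),(2,33),(4,1)],.leaf [(0,100),(1,112),(2,33),(4,1)]⟩,
⟨⟨⟨37,-102,-66⟩,⟨-114,-53,18⟩,⟨-42,54,-107⟩⟩,true,35,60,.leaf [(1,6985),(2,1143),(4,69),(5,29)],.leaf [(1,6985),(2,1143),(4,69),(5,29)]⟩,
⟨⟨⟨37,-102,66⟩,⟨-114,-53,-18⟩,⟨42,-54,-107⟩⟩,true,35,67,.leaf [(0,48),(1,113),(3,60),(5,1)],.leaf [(0,48),(1,113),(3,60),(5,1)]⟩,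
⟨⟨⟨-107,-42,-54⟩,⟨-66,37,102⟩,⟨-18,114,-53⟩⟩,true,36,10,.leaf [(1,12446),(3,11811),(4,156),(5,79)],.leaf [(1,12446),(3,11811),(4,156),(5,79)]⟩,
⟨⟨⟨-107,-42,54⟩,⟨-66,37,-102⟩,⟨18,-114,-53⟩⟩,true,36,117,.leaf [(1,32258),(5,79),(6,180),(15,63)],.leaf [(1,33147),(6,924),(10,30988),(23,103)]⟩,
⟨⟨⟨-53,18,114⟩,⟨54,-107,42⟩,⟨102,66,37⟩⟩,true,38,29,.leaf [(0,5080),(2,8001),(4,77),(5,72)],.leaf [(0,5080),(2,8001),(4,77),(5,72)]⟩,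
⟨⟨⟨-53,18,-114⟩,⟨54,-107,-42⟩,⟨-102,-66,37⟩⟩,true,38,98,.leaf [(0,80),(2,45),(3,72),(4,1)],.leaf [(0,80),(2,45),(3,72),(4,1)]⟩,
⟨⟨⟨-107,18,66⟩,⟨54,-53,102⟩,⟨42,114,37⟩⟩,true,39,16,.leaf [(0,12319),(3,5715),(4,137),(5,27)],.leaf [(0,12319),(3,5715),(4,137),(5,27)]⟩,
⟨⟨⟨-107,18,-66⟩,⟨54,-53,-102⟩,⟨-42,-114,37⟩⟩,true,39,111,.leaf [(3,117348),(4,261),(15,244),(18,13081)],.leaf [(0,79),(3,180),(4,2),(10,63)]⟩,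
⟨⟨⟨-21,-78,-98⟩,⟨118,21,-42⟩,⟨42,-98,69⟩⟩,true,40,47,.leaf [(1,393),(3,535),(6,5),(18,57)],.leaf [(1,945),(3,234),(10,260),(15,1)]⟩,
⟨⟨⟨21,78,-98⟩,⟨118,21,42⟩,⟨42,-98,-69⟩⟩,true,40,80,.leaf [(0,57),(1,50),(3,90),(4,1)],.leaf [(0,57),(1,50),(3,90),(4,1)]⟩,
⟨⟨⟨75,102,10⟩,⟨-98,75,-30⟩,⟨-30,10,123⟩⟩,true,42,34,.leaf [(0,110),(1,20),(2,67),(6,1)],.leaf [(0,110),(1,20),(2,67),(6,1)]⟩,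
⟨⟨⟨-75,-102,10⟩,⟨-98,75,30⟩,⟨-30,10,-123⟩⟩,true,42,93,.leaf [(0,100),(1,133),(2,12),(5,1)],.leaf [(0,100),(1,133),(2,12),(5,1)]⟩,
⟨⟨⟨-53,102,-54⟩,⟨114,37,-42⟩,⟨-18,-66,-107⟩⟩,true,46,13,.leaf [(0,635),(3,889),(4,7),(7,5)],.leaf [(0,635),(3,889),(4,7),(7,5)]⟩,
⟨⟨⟨-53,102,54⟩,⟨114,37,42⟩,⟨18,66,-107⟩⟩,true,46,114,.leaf [(0,4318),(3,8001),(4,98),(5,57)],.leaf [(0,4318),(3,8001),(4,98),(5,57)]⟩,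
⟨⟨⟨-21,-98,-78⟩,⟨42,69,-98⟩,⟨118,-42,21⟩⟩,true,47,40,.leaf [(0,626),(2,93),(5,4),(18,99)],.leaf [(0,417),(2,86),(7,4),(10,57)]⟩,
⟨⟨⟨-21,-98,78⟩,⟨-42,-69,-98⟩,⟨118,-42,-21⟩⟩,true,47,87,.leaf [(0,8),(1,99),(2,48),(5,1)],.leaf [(0,8),(1,99),(2,48),(5,1)]⟩,
⟨⟨⟨-117,-18,46⟩,⟨-26,123,-18⟩,⟨-42,-26,-117⟩⟩,true,49,30,.leaf [(1,11811),(3,5080),(5,105),(6,8)],.leaf [(1,11811),(3,5080),(5,105),(6,8)]⟩,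
⟨⟨⟨117,18,46⟩,⟨-26,123,18⟩,⟨-42,-26,117⟩⟩,true,49,97,.leaf [(2,1905),(6,21),(11,889),(15,5)],.leaf [(0,9),(2,116),(6,1),(10,16)]⟩,
⟨⟨⟨21,118,42⟩,⟨78,21,-98⟩,⟨-98,42,-69⟩⟩,true,54,2,.leaf [(0,2106),(3,3537),(18,494),(23,1)],.leaf [(0,2032),(4,39),(5,8),(10,1143)]⟩,
⟨⟨⟨21,118,-42⟩,⟨-78,-21,-98⟩,⟨-98,42,69⟩⟩,true,54,125,.leaf [(1,99),(4,3),(11,143),(18,31)],.leaf [(2,17399),(4,149),(7,8),(10,2032)]⟩,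
⟨⟨⟨117,-42,-26⟩,⟨46,117,18⟩,⟨18,-26,123⟩⟩,true,55,28,.leaf [(1,24),(2,95),(6,1),(18,4)],.leaf [(1,168),(2,35),(6,1),(10,40)]⟩,
⟨⟨⟨-117,42,-26⟩,⟨46,117,-18⟩,⟨18,-26,-123⟩⟩,true,55,99,.leaf [(1,17526),(3,889),(5,159),(6,68)],.leaf [(1,17526),(3,889),(5,159),(6,68)]⟩,
⟨⟨⟨123,30,10⟩,⟨10,-75,102⟩,⟨30,-98,-75⟩⟩,true,56,61,.leaf [(0,42),(1,92),(2,63),(4,1)],.leaf [(0,42),(1,92),(2,63),(4,1)]⟩,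
⟨⟨⟨-123,-30,10⟩,⟨10,-75,-102⟩,⟨30,-98,75⟩⟩,true,56,66,.leaf [(3,117),(10,107),(15,1),(18,13)],.leaf [(3,9144),(4,108),(10,5207),(14,1)]⟩,
⟨⟨⟨-123,-26,-18⟩,⟨18,-117,46⟩,⟨-26,42,117⟩⟩,true,57,59,.leaf [(0,91),(1,7),(3,57),(4,1)],.leaf [(0,91),(1,7),(3,57),(4,1)]⟩,
⟨⟨⟨-123,-26,18⟩,⟨-18,117,46⟩,⟨-26,42,-117⟩⟩,true,57,68,.leaf [(1,82),(2,68),(3,53),(5,1)],.leaf [(1,82),(2,68),(3,53),(5,1)]⟩,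
⟨⟨⟨37,114,42⟩,⟨102,-53,54⟩,⟨66,18,-107⟩⟩,true,58,8,.leaf [(0,122),(1,12),(2,45),(4,1)],.leaf [(0,122),(1,12),(2,45),(4,1)]⟩,
⟨⟨⟨37,114,-42⟩,⟨102,-53,-54⟩,⟨-66,-18,-107⟩⟩,true,58,119,.leaf [(0,7366),(2,1905),(4,65),(5,12)],.leaf [(0,7366),(2,1905),(4,65),(5,12)]⟩,
⟨⟨⟨-123,-18,-26⟩,⟨-26,117,42⟩,⟨18,46,-117⟩⟩,true,59,57,.leaf [(0,635),(1,5842),(4,19),(5,50)],.leaf [(0,635),(1,5842),(4,19),(5,50)]⟩,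
⟨⟨⟨123,18,-26⟩,⟨-26,117,-42⟩,⟨18,46,117⟩⟩,true,59,70,.leaf [(0,53),(1,68),(2,82),(6,1)],.leaf [(0,53),(1,68),(2,82),(6,1)]⟩,
⟨⟨⟨37,-66,-102⟩,⟨-42,-107,54⟩,⟨-114,18,-53⟩⟩,true,60,35,.leaf [(1,97),(2,41),(3,59),(4,1)],.leaf [(1,97),(2,41),(3,59),(4,1)]⟩,
⟨⟨⟨37,-66,102⟩,⟨-42,-107,-54⟩,⟨114,-18,-53⟩⟩,true,60,92,.leaf [(1,92),(2,48),(3,63),(5,1)],.leaf [(1,92),(2,48),(3,63),(5,1)]⟩,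
⟨⟨⟨123,10,30⟩,⟨30,-75,-98⟩,⟨10,102,-75⟩⟩,true,61,56,.leaf [(0,2159),(1,889),(4,7),(5,17)],.leaf [(0,2159),(1,889),(4,7),(5,17)]⟩,
⟨⟨⟨123,10,-30⟩,⟨-30,75,-98⟩,⟨10,102,75⟩⟩,true,61,71,.leaf [(3,140208),(5,72),(14,223),(18,13081)],.leaf [(0,121),(3,42),(5,2),(10,63)]⟩,
⟨⟨⟨69,-98,-42⟩,⟨42,-21,118⟩,⟨-98,-78,21⟩⟩,true,63,27,.leaf [(3,16129),(4,160),(5,132),(7,55)],.leaf [(3,16129),(4,160),(5,132),(7,55)]⟩,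
⟨⟨⟨69,-98,42⟩,⟨-42,21,118⟩,⟨-98,-78,-21⟩⟩,true,63,100,.leaf [(3,16129),(4,76),(5,153),(7,34)],.leaf [(3,16129),(4,76),(5,153),(7,34)]⟩,
⟨⟨⟨-69,-98,42⟩,⟨42,21,118⟩,⟨-98,78,21⟩⟩,true,64,27,.leaf [(0,2159),(1,889),(4,7),(5,17)],.leaf [(0,2159),(1,889),(4,7),(5,17)]⟩,
⟨⟨⟨-69,-98,-42⟩,⟨-42,-21,118⟩,⟨-98,78,-21⟩⟩,true,64,100,.leaf [(1,889),(3,1524),(4,16),(5,7)],.leaf [(1,889),(3,1524),(4,16),(5,7)]⟩,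
⟨⟨⟨-123,10,-30⟩,⟨30,75,-98⟩,⟨10,-102,-75⟩⟩,true,66,56,.leaf [(5,351),(11,53213),(14,478),(18,3302)],.leaf [(1,147),(2,29),(7,1),(10,63)]⟩,
⟨⟨⟨-123,10,30⟩,⟨-30,-75,-98⟩,⟨10,-102,75⟩⟩,true,66,71,.leaf [(2,2159),(3,889),(4,7),(7,17)],.leaf [(2,2159),(3,889),(4,7),(7,17)]⟩,
⟨⟨⟨37,66,-102⟩,⟨42,-107,-54⟩,⟨-114,-18,-53⟩⟩,true,67,35,.leaf [(0,113),(1,48),(2,60),(4,1)],.leaf [(0,113),(1,48),(2,60),(4,1)]⟩,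
⟨⟨⟨37,66,102⟩,⟨42,-107,54⟩,⟨114,18,-53⟩⟩,true,67,92,.leaf [(0,10795),(2,13716),(4,155),(5,48)],.leaf [(0,10795),(2,13716),(4,155),(5,48)]⟩,
⟨⟨⟨-123,18,-26⟩,⟨-26,-117,42⟩,⟨-18,46,117⟩⟩,true,68,57,.leaf [(0,82),(2,53),(3,68),(4,1)],.leaf [(0,82),(2,53),(3,68),(4,1)]⟩,
⟨⟨⟨123,-18,-26⟩,⟨-26,-117,-42⟩,⟨-18,46,-117⟩⟩,true,68,70,.leaf [(0,1397),(1,889),(4,7),(5,11)],.leaf [(0,1397),(1,889),(4,7),(5,11)]⟩,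
⟨⟨⟨37,-114,42⟩,⟨-102,-53,-54⟩,⟨66,-18,-107⟩⟩,true,69,8,.leaf [(0,96),(1,137),(3,12),(5,1)],.leaf [(0,96),(1,137),(3,12),(5,1)]⟩,
⟨⟨⟨37,-114,-42⟩,⟨-102,-53,54⟩,⟨-66,18,-107⟩⟩,true,69,119,.leaf [(1,14351),(3,2286),(4,132),(5,61)],.leaf [(1,14351),(3,2286),(4,132),(5,61)]⟩,
⟨⟨⟨123,-26,18⟩,⟨18,117,46⟩,⟨-26,-42,117⟩⟩,true,70,59,.leaf [(0,68),(1,53),(3,82),(7,1)],.leaf [(0,68),(1,53),(3,82),(7,1)]⟩,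
⟨⟨⟨123,-26,-18⟩,⟨-18,-117,46⟩,⟨-26,-42,-117⟩⟩,true,70,68,.leaf [(0,7),(1,64),(2,84),(4,1)],.leaf [(0,7),(1,64),(2,84),(4,1)]⟩,
⟨⟨⟨123,-30,10⟩,⟨10,75,102⟩,⟨-30,-98,75⟩⟩,true,71,61,.leaf [(2,194691),(4,3546),(15,1172),(18,13081)],.leaf [(1,178308),(6,846),(10,65405),(14,55)]⟩,
⟨⟨⟨-123,30,10⟩,⟨10,75,-102⟩,⟨-30,-98,-75⟩⟩,true,71,66,.leaf [(2,889),(3,2159),(5,7),(6,17)],.leaf [(2,889),(3,2159),(5,7),(6,17)]⟩,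
⟨⟨⟨117,42,-26⟩,⟨46,-117,18⟩,⟨-18,-26,-123⟩⟩,true,72,28,.leaf [(0,66),(1,44),(2,93),(4,1)],.leaf [(0,66),(1,44),(2,93),(4,1)]⟩,
⟨⟨⟨-117,-42,-26⟩,⟨46,-117,-18⟩,⟨-18,-26,123⟩⟩,true,72,99,.L (.L (.L (.L (.leaf [(0,68),(1,78),(3,75),(5,1)]) (.leaf [(1,2540),(2,14351),(4,90),(6,53)]) (.leaf [(0,128),(1,153),(3,60),(5,1)])) (.leaf [(0,21681),(5,27),(35,271),(42,5)]) (.leaf [(0,21209),(3,7112),(4,147),(6,8)])) (.leaf [(0,147),(1,140),(2,90),(4,1)]) (.L (.leaf [(0,5080),(2,11811),(4,105),(5,8)]) (.leaf [(5,4131),(18,20828),(23,82),(27,11811)]) (.leaf [(0,163),(1,48),(3,40),(6,1)]))) (.leaf [(0,77),(1,111),(2,153),(5,1)]) (.leaf [(0,97),(1,7),(3,147),(4,1)]),.leaf [(0,55),(3,88),(4,1),(10,20)]⟩,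
⟨⟨⟨-21,118,-42⟩,⟨78,-21,-98⟩,⟨-98,-42,-69⟩⟩,true,73,2,.L (.L (.L (.leaf [(0,98),(2,63),(3,36),(4,1)]) (.leaf [(0,2187),(18,90),(35,20),(42,1)]) (.leaf [(0,3937),(1,1397),(4,29),(5,25)])) (.leaf [(0,48006),(7,297),(11,6985),(14,50)]) (.leaf [(0,163),(1,115),(3,123),(4,1)])) (.leaf [(0,48),(1,8),(2,123),(4,1)]) (.leaf [(0,159),(1,137),(3,93),(4,1)]),.leaf [(3,9398),(4,85),(5,54),(10,3175)]⟩,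
⟨⟨⟨-21,118,42⟩,⟨-78,21,-98⟩,⟨-98,-42,69⟩⟩,true,73,125,.leaf [(1,48387),(4,188),(7,439),(15,62)],.leaf [(1,60),(2,47),(4,1),(10,50)]⟩,
⟨⟨⟨-117,18,46⟩,⟨-26,-123,-18⟩,⟨42,-26,117⟩⟩,true,78,30,.leaf [(0,216),(11,107),(15,1),(18,32)],.leaf [(0,100),(2,25),(4,1),(10,16)]⟩,
⟨⟨⟨117,-18,46⟩,⟨-26,-123,18⟩,⟨42,-26,-117⟩⟩,true,78,97,.leaf [(0,3937),(1,6350),(4,41),(5,46)],.leaf [(0,3937),(1,6350),(4,41),(5,46)]⟩,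
⟨⟨⟨21,-98,78⟩,⟨42,-69,-98⟩,⟨118,42,21⟩⟩,true,80,40,.leaf [(0,50),(1,57),(2,90),(5,1)],.leaf [(0,50),(1,57),(2,90),(5,1)]⟩,
⟨⟨⟨21,-98,-78⟩,⟨-42,69,-98⟩,⟨118,42,-21⟩⟩,true,80,87,.leaf [(2,270),(11,8),(14,1),(18,21)],.leaf [(0,29),(2,474),(5,4),(10,57)]⟩,
⟨⟨⟨-53,-102,-54⟩,⟨-114,37,42⟩,⟨-18,66,-107⟩⟩,true,81,13,.leaf [(2,4826),(3,2921),(4,10),(5,37)],.leaf [(2,4826),(3,2921),(4,10),(5,37)]⟩,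
⟨⟨⟨-53,-102,54⟩,⟨-114,37,-42⟩,⟨18,-66,-107⟩⟩,true,81,114,.leaf [(1,98),(2,36),(3,63),(5,1)],.leaf [(1,98),(2,36),(3,63),(5,1)]⟩,
⟨⟨⟨75,-102,10⟩,⟨-98,-75,-30⟩,⟨30,10,-123⟩⟩,true,85,34,.leaf [(0,112),(1,100),(3,33),(5,1)],.leaf [(0,112),(1,100),(3,33),(5,1)]⟩,
⟨⟨⟨-75,102,10⟩,⟨-98,-75,30⟩,⟨30,10,123⟩⟩,true,85,93,.leaf [(0,87),(1,20),(2,90),(4,1)],.leaf [(0,87),(1,20),(2,90),(4,1)]⟩,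
⟨⟨⟨-21,78,-98⟩,⟨118,-21,-42⟩,⟨-42,-98,-69⟩⟩,true,87,47,.leaf [(0,99),(1,8),(3,48),(4,1)],.leaf [(0,99),(1,8),(3,48),(4,1)]⟩,
⟨⟨⟨21,-78,-98⟩,⟨118,-21,42⟩,⟨-42,-98,69⟩⟩,true,87,80,.leaf [(3,180),(6,3),(10,47),(18,50)],.R (.leaf [(1,1944),(10,1257),(22,1),(35,16)]) (.leaf [(1,40554),(10,13133),(15,58),(34,69)]) (.R (.leaf [(1,30618),(10,11529),(39,2),(42,17)]) (.leaf [(1,435483),(4,21681),(39,271),(46,5)]) (.leaf [(1,1281582),(10,544536),(39,91),(43,493)]))⟩,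
⟨⟨⟨-107,-18,66⟩,⟨-54,-53,-102⟩,⟨42,-114,37⟩⟩,true,88,16,.leaf [(2,169),(6,2),(11,12),(18,15)],.leaf [(1,216),(2,8),(6,1),(10,63)]⟩,
⟨⟨⟨-107,-18,-66⟩,⟨-54,-53,102⟩,⟨-42,114,37⟩⟩,true,88,111,.leaf [(0,35),(1,75),(3,93),(4,1)],.leaf [(0,35),(1,75),(3,93),(4,1)]⟩,
⟨⟨⟨-53,-18,114⟩,⟨-54,-107,-42⟩,⟨102,-66,37⟩⟩,true,89,29,.leaf [(1,889),(2,635),(5,5),(6,7)],.leaf [(1,889),(2,635),(5,5),(6,7)]⟩,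
⟨⟨⟨-53,-18,-114⟩,⟨-54,-107,42⟩,⟨-102,66,37⟩⟩,true,89,98,.leaf [(0,89),(1,123),(3,33),(4,1)],.leaf [(0,89),(1,123),(3,33),(4,1)]⟩,
⟨⟨⟨-107,42,-54⟩,⟨66,37,-102⟩,⟨-18,-114,-53⟩⟩,true,91,10,.leaf [(0,3915),(3,2925),(18,547),(23,1)],.leaf [(3,64008),(4,486),(10,25019),(14,49)]⟩,
⟨⟨⟨-107,42,54⟩,⟨66,37,102⟩,⟨18,114,-53⟩⟩,true,91,117,.leaf [(0,1270),(3,3429),(4,38),(5,15)],.leaf [(0,1270),(3,3429),(4,38),(5,15)]⟩,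
⟨⟨⟨37,102,-66⟩,⟨114,-53,-18⟩,⟨-42,-54,-107⟩⟩,true,92,60,.leaf [(0,92),(2,63),(3,48),(4,1)],.leaf [(0,92),(2,63),(3,48),(4,1)]⟩,
⟨⟨⟨37,102,66⟩,⟨114,-53,18⟩,⟨42,54,-107⟩⟩,true,92,67,.leaf [(0,18796),(2,5715),(4,173),(5,48)],.leaf [(0,18796),(2,5715),(4,173),(5,48)]⟩,
⟨⟨⟨-75,10,-102⟩,⟨-30,-123,10⟩,⟨-98,30,75⟩⟩,true,93,42,.leaf [(0,133),(1,100),(3,12),(4,1)],.leaf [(0,133),(1,100),(3,12),(4,1)]⟩,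
⟨⟨⟨-75,10,102⟩,⟨30,123,10⟩,⟨-98,30,-75⟩⟩,true,93,85,.leaf [(0,20),(1,87),(3,90),(5,1)],.leaf [(0,20),(1,87),(3,90),(5,1)]⟩,
⟨⟨⟨117,46,18⟩,⟨-42,117,-26⟩,⟨-26,18,123⟩⟩,true,97,49,.leaf [(3,1905),(7,21),(10,889),(14,5)],.L (.L (.L (.L (.L (.leaf [(0,68),(1,78),(3,75),(5,1)]) (.leaf [(1,2540),(2,14351),(4,90),(6,53)]) (.leaf [(0,128),(1,153),(3,60),(5,1)])) (.leaf [(0,21681),(5,27),(35,271),(42,5)]) (.leaf [(0,21209),(3,7112),(4,147),(6,8)])) (.leaf [(0,147),(1,140),(2,90),(4,1)]) (.L (.leaf [(0,5080),(2,11811),(4,105),(5,8)]) (.leaf [(5,4131),(18,20828),(23,82),(27,11811)]) (.leaf [(0,163),(1,48),(3,40),(6,1)]))) (.leaf [(0,77),(1,111),(2,153),(5,1)]) (.leaf [(0,97),(1,7),(3,147),(4,1)])) (.leaf [(0,5842),(1,5207),(4,50),(5,31)])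 (.leaf [(0,675),(1,1269),(10,275),(15,1)])⟩,
⟨⟨⟨117,46,-18⟩,⟨42,-117,-26⟩,⟨-26,18,-123⟩⟩,true,97,78,.leaf [(0,5080),(2,11811),(4,105),(5,8)],.leaf [(0,5080),(2,11811),(4,105),(5,8)]⟩,
⟨⟨⟨-53,-114,18⟩,⟨-102,37,-66⟩,⟨54,-42,-107⟩⟩,true,98,38,.leaf [(1,80),(2,72),(3,45),(5,1)],.leaf [(1,80),(2,72),(3,45),(5,1)]⟩,
⟨⟨⟨-53,-114,-18⟩,⟨-102,37,66⟩,⟨-54,42,-107⟩⟩,true,98,89,.leaf [(0,123),(1,89),(2,33),(5,1)],.leaf [(0,123),(1,89),(2,33),(5,1)]⟩,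
⟨⟨⟨-117,-26,42⟩,⟨18,-123,-26⟩,⟨46,-18,117⟩⟩,true,99,55,.leaf [(0,17526),(2,889),(4,159),(7,68)],.leaf [(0,17526),(2,889),(4,159),(7,68)]⟩,
⟨⟨⟨-117,-26,-42⟩,⟨-18,123,-26⟩,⟨46,-18,-117⟩⟩,true,99,72,.leaf [(1,91),(2,28),(5,1),(18,4)],.leaf [(1,77343),(5,429),(10,11176),(15,16)]⟩,
⟨⟨⟨69,42,-98⟩,⟨-98,-21,-78⟩,⟨-42,118,21⟩⟩,true,100,63,.leaf [(2,16129),(4,153),(5,76),(6,34)],.leaf [(2,16129),(4,153),(5,76),(6,34)]⟩,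
⟨⟨⟨-69,-42,-98⟩,⟨-98,-21,78⟩,⟨-42,118,-21⟩⟩,true,100,64,.leaf [(1,15875),(3,10668),(4,160),(5,21)],.leaf [(1,15875),(3,10668),(4,160),(5,21)]⟩,
⟨⟨⟨-75,-30,-98⟩,⟨10,-123,30⟩,⟨-102,10,75⟩⟩,true,102,3,.leaf [(0,93),(1,68),(3,60),(4,1)],.leaf [(0,93),(1,68),(3,60),(4,1)]⟩,
⟨⟨⟨75,30,-98⟩,⟨10,-123,-30⟩,⟨-102,10,-75⟩⟩,true,102,124,.leaf [(0,78),(1,68),(2,75),(4,1)],.leaf [(0,78),(1,68),(2,75),(4,1)]⟩,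
⟨⟨⟨91,-42,78⟩,⟨78,91,-42⟩,⟨-42,78,91⟩⟩,true,107,19,.leaf [(0,7614),(3,6588),(18,1343),(22,1)],.leaf [(0,227),(3,26),(5,2),(10,13)]⟩,
⟨⟨⟨91,-42,-78⟩,⟨78,91,42⟩,⟨42,-78,91⟩⟩,true,107,108,.leaf [(3,64516),(4,81),(6,266),(14,133)],.leaf [(1,783),(3,192),(10,328),(15,1)]⟩,
⟨⟨⟨91,-78,42⟩,⟨42,91,78⟩,⟨-78,-42,91⟩⟩,true,108,20,.R (.leaf [(0,108),(3,117),(18,20),(27,1)]) (.leaf [(0,189),(3,144),(18,32),(26,1)]) (.leaf [(0,20061),(3,18999),(18,3661),(31,1)]),.leaf [(3,43434),(5,378),(10,13589),(14,19)]⟩,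
⟨⟨⟨91,-78,-42⟩,⟨42,91,-78⟩,⟨78,42,91⟩⟩,true,108,107,.leaf [(2,64516),(5,81),(7,266),(15,133)],.leaf [(0,133),(2,214),(5,4),(10,133)]⟩,
⟨⟨⟨-107,-66,18⟩,⟨-42,37,-114⟩,⟨54,-102,-53⟩⟩,true,111,39,.leaf [(2,217551),(5,3924),(14,962),(18,13081)],.leaf [(1,85725),(6,435),(10,21463),(15,79)]⟩,
⟨⟨⟨-107,-66,-18⟩,⟨-42,37,114⟩,⟨-54,102,-53⟩⟩,true,111,88,.leaf [(0,5207),(1,5842),(4,31),(5,50)],.leaf [(0,5207),(1,5842),(4,31),(5,50)]⟩,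
⟨⟨⟨-53,54,102⟩,⟨18,-107,66⟩,⟨114,42,37⟩⟩,true,114,46,.leaf [(0,4318),(2,5715),(4,65),(5,36)],.leaf [(0,4318),(2,5715),(4,65),(5,36)]⟩,
⟨⟨⟨-53,54,-102⟩,⟨18,-107,-66⟩,⟨-114,-42,37⟩⟩,true,114,81,.leaf [(0,98),(2,63),(3,36),(4,1)],.leaf [(0,98),(2,63),(3,36),(4,1)]⟩,
⟨⟨⟨-107,54,-42⟩,⟨18,-53,-114⟩,⟨-66,-102,37⟩⟩,true,117,36,.leaf [(0,32258),(4,79),(7,180),(14,63)],.leaf [(0,169),(3,36),(4,2),(10,45)]⟩,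
⟨⟨⟨-107,54,42⟩,⟨18,-53,114⟩,⟨66,102,37⟩⟩,true,117,91,.leaf [(0,80),(2,27),(3,72),(4,1)],.leaf [(0,80),(2,27),(3,72),(4,1)]⟩,
⟨⟨⟨37,-42,114⟩,⟨-66,-107,-18⟩,⟨102,-54,-53⟩⟩,true,119,58,.leaf [(1,1651),(2,381),(4,9),(5,17)],.leaf [(1,1651),(2,381),(4,9),(5,17)]⟩,
⟨⟨⟨37,-42,-114⟩,⟨-66,-107,18⟩,⟨-102,54,-53⟩⟩,true,119,69,.leaf [(1,85),(2,65),(3,47),(4,1)],.leaf [(1,85),(2,65),(3,47),(4,1)]⟩,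
⟨⟨⟨75,-98,-30⟩,⟨102,75,10⟩,⟨10,-30,123⟩⟩,true,124,25,.leaf [(0,60),(2,68),(3,93),(7,1)],.leaf [(0,60),(2,68),(3,93),(7,1)]⟩,
⟨⟨⟨75,-98,30⟩,⟨-102,-75,10⟩,⟨10,-30,-123⟩⟩,true,124,102,.leaf [(0,68),(1,78),(3,75),(5,1)],.leaf [(0,68),(1,78),(3,75),(5,1)]⟩,
⟨⟨⟨21,-42,118⟩,⟨-98,69,42⟩,⟨-78,-98,-21⟩⟩,true,125,54,.leaf [(0,7722),(3,5895),(18,1342),(23,1)],.leaf [(3,40005),(5,279),(10,1016),(15,40)]⟩,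
⟨⟨⟨-21,42,118⟩,⟨-98,69,-42⟩,⟨-78,-98,21⟩⟩,true,125,73,.leaf [(0,48387),(5,188),(6,439),(14,62)],.leaf [(0,90),(3,8),(6,1),(10,21)]⟩]

theorem primeOk_127 : PrimeOk 127 := primeOk (by norm_num) (by norm_num) (by norm_num) L127
  (by decide +kernel) (by decide +kernel)

def L193 : List Cls := [
⟨⟨⟨193,0,0⟩,⟨0,-95,-168⟩,⟨0,168,-95⟩⟩,false,0,81,.leaf [(0,3667),(1,965),(4,5),(5,19)],.leaf [(0,3667),(1,965),(4,5),(5,19)]⟩,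
⟨⟨⟨193,0,0⟩,⟨0,-95,168⟩,⟨0,-168,-95⟩⟩,false,0,112,.leaf [(0,35),(1,168),(2,60),(4,1)],.leaf [(0,35),(1,168),(2,60),(4,1)]⟩,
⟨⟨⟨-95,0,-168⟩,⟨0,193,0⟩,⟨168,0,-95⟩⟩,true,0,81,.leaf [(1,37249),(5,95),(7,168)],.leaf [(1,37249),(5,95),(7,168)]⟩,
⟨⟨⟨-95,0,168⟩,⟨0,193,0⟩,⟨-168,0,-95⟩⟩,true,0,112,.leaf [(1,95),(3,168),(5,1)],.leaf [(1,95),(3,168),(5,1)]⟩,
⟨⟨⟨121,-72,-132⟩,⟨-72,121,-132⟩,⟨132,132,49⟩⟩,true,1,34,.leaf [(2,53075),(5,150),(7,262),(18,1351)],.leaf [(2,64655),(5,303),(7,205),(10,9457)]⟩,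
⟨⟨⟨121,-72,132⟩,⟨-72,121,132⟩,⟨-132,-132,49⟩⟩,true,1,159,.leaf [(3,19107),(6,189),(10,7141),(15,5)],.leaf [(1,28950),(3,50566),(6,275),(22,7)]⟩,
⟨⟨⟨-57,180,40⟩,⟨-140,-15,-132⟩,⟨-120,-68,135⟩⟩,true,7,23,.leaf [(0,9071),(2,2509),(4,23),(6,43)],.leaf [(0,9071),(2,2509),(4,23),(6,43)]⟩,
⟨⟨⟨57,-180,40⟩,⟨-140,-15,132⟩,⟨-120,-68,-135⟩⟩,true,7,170,.leaf [(2,16019),(3,44969),(4,57),(5,227)],.leaf [(2,16019),(3,44969),(4,57),(5,227)]⟩,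
⟨⟨⟨-113,-132,84⟩,⟨-156,103,-48⟩,⟨-12,-96,-167⟩⟩,true,8,30,.leaf [(0,36),(1,194),(3,57),(5,1)],.leaf [(0,36),(1,194),(3,57),(5,1)]⟩,
⟨⟨⟨-113,-132,-84⟩,⟨-156,103,48⟩,⟨12,96,-167⟩⟩,true,8,163,.leaf [(0,93),(1,83),(2,135),(5,1)],.leaf [(0,93),(1,83),(2,135),(5,1)]⟩,
⟨⟨⟨57,184,12⟩,⟨168,-57,76⟩,⟨76,-12,-177⟩⟩,true,10,51,.leaf [(0,208),(1,64),(2,33),(4,1)],.leaf [(0,208),(1,64),(2,33),(4,1)]⟩,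
⟨⟨⟨57,184,-12⟩,⟨-168,57,76⟩,⟨76,-12,177⟩⟩,true,10,142,.leaf [(1,6369),(2,7141),(4,63),(7,5)],.leaf [(1,6369),(2,7141),(4,63),(7,5)]⟩,
⟨⟨⟨-15,-180,-68⟩,⟨-140,57,-120⟩,⟨132,40,-135⟩⟩,true,12,56,.leaf [(0,3),(2,217),(3,67),(5,1)],.leaf [(0,3),(2,217),(3,67),(5,1)]⟩,
⟨⟨⟨15,180,-68⟩,⟨-140,57,120⟩,⟨132,40,135⟩⟩,true,12,137,.leaf [(0,78),(1,188),(2,45),(4,1)],.leaf [(0,78),(1,188),(2,45),(4,1)]⟩,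
⟨⟨⟨-167,-48,-84⟩,⟨-96,103,132⟩,⟨12,156,-113⟩⟩,true,13,71,.leaf [(0,5983),(1,14861),(4,59),(5,73)],.leaf [(0,5983),(1,14861),(4,59),(5,73)]⟩,
⟨⟨⟨-167,-48,84⟩,⟨-96,103,-132⟩,⟨-12,-156,-113⟩⟩,true,13,122,.leaf [(1,502),(3,915),(5,5),(18,108)],.leaf [(1,837),(3,387),(10,473),(14,1)]⟩,
⟨⟨⟨-135,40,-132⟩,⟨120,-57,-140⟩,⟨-68,-180,15⟩⟩,true,14,31,.leaf [(0,111747),(4,751),(7,281),(15,55)],.leaf [(2,33389),(4,81),(7,232),(10,6948)]⟩,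
⟨⟨⟨-135,40,132⟩,⟨-120,57,-140⟩,⟨-68,-180,-15⟩⟩,true,14,162,.leaf [(1,90),(2,140),(3,27),(7,1)],.leaf [(1,90),(2,140),(3,27),(7,1)]⟩,
⟨⟨⟨-57,-140,120⟩,⟨-180,15,-68⟩,⟨40,-132,-135⟩⟩,true,16,69,.leaf [(0,8),(1,180),(3,75),(5,1)],.leaf [(0,8),(1,180),(3,75),(5,1)]⟩,
⟨⟨⟨-57,-140,-120⟩,⟨180,-15,-68⟩,⟨40,-132,135⟩⟩,true,16,124,.leaf [(0,37249),(4,195),(5,53),(7,225)],.leaf [(0,37249),(4,195),(5,53),(7,225)]⟩,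
⟨⟨⟨49,-132,-132⟩,⟨132,121,-72⟩,⟨132,-72,121⟩⟩,true,17,17,.leaf [(0,234495),(14,171),(18,29336),(22,40)],.leaf [(5,540),(6,234),(10,37249),(14,65)]⟩,
⟨⟨⟨49,-132,132⟩,⟨132,121,72⟩,⟨-132,72,121⟩⟩,true,17,176,.leaf [(0,198),(1,11),(2,6),(5,1)],.leaf [(0,198),(1,11),(2,6),(5,1)]⟩,
⟨⟨⟨-33,-48,184⟩,⟨-176,-63,-48⟩,⟨72,-176,-33⟩⟩,true,19,88,.leaf [(2,5983),(3,8878),(5,34),(14,15)],.leaf [(1,15309),(10,2700),(26,260),(31,1)]⟩,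
⟨⟨⟨33,48,184⟩,⟨-176,-63,48⟩,⟨72,-176,33⟩⟩,true,19,105,.leaf [(1,37249),(4,308),(5,375),(14,84)],.leaf [(1,203615),(4,631),(10,71989),(23,1)]⟩,
⟨⟨⟨153,-68,-96⟩,⟨36,177,-68⟩,⟨112,36,153⟩⟩,true,21,41,.L (.L (.leaf [(0,36),(1,194),(3,57),(5,1)]) (.leaf [(1,18335),(2,5211),(4,93),(5,73)]) (.L (.leaf [(0,6369),(3,7141),(5,63),(6,5)]) (.leaf [(0,208),(1,241),(2,144),(5,1)]) (.leaf [(0,3088),(3,2895),(4,16),(5,1)]))) (.leaf [(0,145),(1,265),(2,177),(5,1)]) (.leaf [(1,130275),(6,702),(10,5018),(15,139)]),.leaf [(3,25283),(5,24),(7,115),(10,6176)]⟩,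
⟨⟨⟨153,-68,96⟩,⟨-36,-177,-68⟩,⟨112,36,-153⟩⟩,true,21,152,.leaf [(0,11387),(1,14089),(4,31),(5,77)],.leaf [(0,11387),(1,14089),(4,31),(5,77)]⟩,
⟨⟨⟨-57,40,180⟩,⟨-120,135,-68⟩,⟨-140,-132,-15⟩⟩,true,23,7,.leaf [(1,9071),(3,2509),(5,23),(7,43)],.leaf [(1,9071),(3,2509),(5,23),(7,43)]⟩,
⟨⟨⟨-57,40,-180⟩,⟨120,-135,-68⟩,⟨-140,-132,15⟩⟩,true,23,186,.leaf [(0,175),(1,55),(3,57),(4,1)],.leaf [(0,175),(1,55),(3,57),(4,1)]⟩,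
⟨⟨⟨103,156,-48⟩,⟨132,-113,-84⟩,⟨-96,12,-167⟩⟩,true,24,52,.leaf [(0,18721),(2,8106),(4,119),(5,36)],.leaf [(0,18721),(2,8106),(4,119),(5,36)]⟩,
⟨⟨⟨103,156,48⟩,⟨132,-113,84⟩,⟨96,-12,-167⟩⟩,true,24,141,.leaf [(0,167),(1,36),(2,102),(4,1)],.leaf [(0,167),(1,36),(2,102),(4,1)]⟩,
⟨⟨⟨-167,-96,12⟩,⟨-48,103,156⟩,⟨-84,132,-113⟩⟩,true,26,45,.leaf [(0,11387),(1,14089),(4,31),(5,77)],.leaf [(0,11387),(1,14089),(4,31),(5,77)]⟩,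
⟨⟨⟨-167,-96,-12⟩,⟨-48,103,-156⟩,⟨84,-132,-113⟩⟩,true,26,148,.leaf [(1,1382),(2,105),(5,10),(18,93)],.leaf [(1,297),(3,423),(10,329),(14,1)]⟩,
⟨⟨⟨-113,-156,12⟩,⟨-132,103,96⟩,⟨-84,48,-167⟩⟩,true,27,87,.leaf [(1,2),(2,204),(3,177),(5,1)],.leaf [(1,2),(2,204),(3,177),(5,1)]⟩,
⟨⟨⟨-113,-156,-12⟩,⟨-132,103,-96⟩,⟨84,-48,-167⟩⟩,true,27,106,.leaf [(0,33),(1,155),(2,75),(5,1)],.leaf [(0,33),(1,155),(2,75),(5,1)]⟩,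
⟨⟨⟨-113,84,-132⟩,⟨-12,-167,-96⟩,⟨-156,-48,103⟩⟩,true,30,8,.leaf [(0,194),(1,36),(2,57),(4,1)],.leaf [(0,194),(1,36),(2,57),(4,1)]⟩,
⟨⟨⟨-113,84,132⟩,⟨-12,-167,96⟩,⟨156,48,103⟩⟩,true,30,185,.leaf [(2,37249),(4,177),(5,204),(6,2)],.leaf [(2,37249),(4,177),(5,204),(6,2)]⟩,
⟨⟨⟨-135,-132,40⟩,⟨-68,15,-180⟩,⟨120,-140,-57⟩⟩,true,31,14,.leaf [(1,111747),(5,751),(6,281),(14,55)],.leaf [(10,9843),(22,19),(26,579),(30,1)]⟩,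
⟨⟨⟨135,132,40⟩,⟨-68,15,180⟩,⟨120,-140,57⟩⟩,true,31,179,.leaf [(0,27),(1,140),(2,90),(4,1)],.leaf [(0,27),(1,140),(2,90),(4,1)]⟩,
⟨⟨⟨121,-132,-72⟩,⟨132,49,132⟩,⟨-72,-132,121⟩⟩,true,34,1,.leaf [(3,2654136),(4,8613),(18,241636),(22,151)],.leaf [(3,81832),(4,111),(6,356),(10,9457)]⟩,
⟨⟨⟨121,-132,72⟩,⟨132,49,-132⟩,⟨72,132,121⟩⟩,true,34,192,.leaf [(0,34),(2,34),(5,1),(11,49)],.leaf [(0,577),(2,430),(5,4),(10,49)]⟩,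
⟨⟨⟨-63,48,-176⟩,⟨-176,33,72⟩,⟨48,184,33⟩⟩,true,36,61,.leaf [(0,15),(1,188),(3,60),(4,1)],.leaf [(0,15),(1,188),(3,60),(4,1)]⟩,
⟨⟨⟨63,-48,-176⟩,⟨-176,33,-72⟩,⟨48,184,-33⟩⟩,true,36,132,.leaf [(2,37249),(4,195),(5,232),(6,52)],.leaf [(2,37249),(4,195),(5,232),(6,52)]⟩,
⟨⟨⟨153,-96,-68⟩,⟨112,153,36⟩,⟨36,-68,177⟩⟩,true,41,21,.leaf [(1,336),(2,505),(6,5),(18,44)],.leaf [(1,359559),(6,1017),(10,82025),(15,31)]⟩,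
⟨⟨⟨-153,96,-68⟩,⟨112,153,-36⟩,⟨36,-68,-177⟩⟩,true,41,172,.leaf [(3,37249),(4,219),(5,141),(6,143)],.leaf [(3,37249),(4,219),(5,141),(6,143)]⟩,
⟨⟨⟨-135,120,-68⟩,⟨40,-57,-180⟩,⟨-132,-140,15⟩⟩,true,42,92,.leaf [(0,22581),(3,1544),(4,108),(6,55)],.leaf [(0,22581),(3,1544),(4,108),(6,55)]⟩,
⟨⟨⟨135,-120,-68⟩,⟨40,-57,180⟩,⟨-132,-140,-15⟩⟩,true,42,101,.leaf [(4,567),(5,54),(10,37249),(15,14)],.leaf [(5,43011),(10,1063044),(26,264796),(31,119)]⟩,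
⟨⟨⟨-177,-68,-36⟩,⟨36,-153,112⟩,⟨-68,96,153⟩⟩,true,44,46,.leaf [(0,85),(1,10),(3,138),(4,1)],.leaf [(0,85),(1,10),(3,138),(4,1)]⟩,
⟨⟨⟨-177,-68,36⟩,⟨-36,153,112⟩,⟨-68,96,-153⟩⟩,true,44,147,.leaf [(0,122),(1,189),(2,42),(5,1)],.leaf [(0,122),(1,189),(2,42),(5,1)]⟩,
⟨⟨⟨-167,12,-96⟩,⟨-84,-113,132⟩,⟨-48,156,103⟩⟩,true,45,26,.leaf [(0,125),(1,135),(3,93),(4,1)],.leaf [(0,125),(1,135),(3,93),(4,1)]⟩,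
⟨⟨⟨-167,12,96⟩,⟨-84,-113,-132⟩,⟨48,-156,103⟩⟩,true,45,167,.leaf [(2,67743),(6,324),(11,1544),(14,55)],.leaf [(0,4),(1,352),(6,1),(10,97)]⟩,
⟨⟨⟨-177,-36,-68⟩,⟨-68,153,96⟩,⟨36,112,-153⟩⟩,true,46,44,.leaf [(0,2702),(1,14089),(4,46),(5,77)],.leaf [(0,2702),(1,14089),(4,46),(5,77)]⟩,
⟨⟨⟨177,36,-68⟩,⟨-68,153,-96⟩,⟨36,112,153⟩⟩,true,46,149,.leaf [(0,122),(1,164),(2,67),(6,1)],.leaf [(0,122),(1,164),(2,67),(6,1)]⟩,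
⟨⟨⟨-177,12,76⟩,⟨76,57,168⟩,⟨-12,184,-57⟩⟩,true,49,53,.leaf [(0,9650),(1,11773),(4,34),(5,65)],.leaf [(0,9650),(1,11773),(4,34),(5,65)]⟩,
⟨⟨⟨177,-12,76⟩,⟨76,57,-168⟩,⟨-12,184,57⟩⟩,true,49,140,.leaf [(0,196),(1,13),(3,6),(5,1)],.leaf [(0,196),(1,13),(3,6),(5,1)]⟩,
⟨⟨⟨103,132,96⟩,⟨156,-113,-12⟩,⟨48,84,-167⟩⟩,true,50,89,.leaf [(0,39565),(2,19686),(4,263),(5,108)],.leaf [(0,39565),(2,19686),(4,263),(5,108)]⟩,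
⟨⟨⟨103,132,-96⟩,⟨156,-113,12⟩,⟨-48,-84,-167⟩⟩,true,50,104,.leaf [(0,203),(1,108),(2,42),(4,1)],.leaf [(0,203),(1,108),(2,42),(4,1)]⟩,
⟨⟨⟨57,12,184⟩,⟨76,-177,-12⟩,⟨168,76,-57⟩⟩,true,51,10,.leaf [(2,20072),(3,10229),(4,72),(5,101)],.leaf [(2,20072),(3,10229),(4,72),(5,101)]⟩,
⟨⟨⟨-57,-12,184⟩,⟨76,-177,12⟩,⟨168,76,57⟩⟩,true,51,183,.leaf [(0,7141),(2,28950),(4,127),(5,172)],.leaf [(0,7141),(2,28950),(4,127),(5,172)]⟩,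
⟨⟨⟨103,-48,156⟩,⟨-96,-167,12⟩,⟨132,-84,-113⟩⟩,true,52,24,.leaf [(1,7720),(2,4053),(4,51),(5,56)],.leaf [(1,7720),(2,4053),(4,51),(5,56)]⟩,
⟨⟨⟨103,-48,-156⟩,⟨-96,-167,-12⟩,⟨-132,84,-113⟩⟩,true,52,169,.leaf [(0,32),(1,144),(2,87),(4,1)],.leaf [(0,32),(1,144),(2,87),(4,1)]⟩,
⟨⟨⟨-177,76,12⟩,⟨-12,-57,184⟩,⟨76,168,57⟩⟩,true,53,49,.leaf [(0,63),(2,70),(3,172),(4,1)],.leaf [(0,63),(2,70),(3,172),(4,1)]⟩,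
⟨⟨⟨-177,76,-12⟩,⟨12,57,184⟩,⟨76,168,-57⟩⟩,true,53,144,.leaf [(0,6),(2,13),(3,196),(4,1)],.leaf [(0,6),(2,13),(3,196),(4,1)]⟩,
⟨⟨⟨15,-140,132⟩,⟨180,57,40⟩,⟨-68,120,135⟩⟩,true,55,86,.leaf [(0,15247),(2,7913),(5,89),(7,1)],.leaf [(0,15247),(2,7913),(5,89),(7,1)]⟩,
⟨⟨⟨15,-140,-132⟩,⟨-180,-57,40⟩,⟨-68,120,-135⟩⟩,true,55,107,.leaf [(2,8878),(3,5983),(4,34),(5,45)],.leaf [(2,8878),(3,5983),(4,34),(5,45)]⟩,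
⟨⟨⟨-15,-68,-180⟩,⟨132,-135,40⟩,⟨-140,-120,57⟩⟩,true,56,12,.leaf [(1,3),(2,67),(3,217),(4,1)],.leaf [(1,3),(2,67),(3,217),(4,1)]⟩,
⟨⟨⟨-15,-68,180⟩,⟨-132,135,40⟩,⟨-140,-120,-57⟩⟩,true,56,181,.leaf [(1,4439),(3,8299),(5,47),(7,13)],.leaf [(1,4439),(3,8299),(5,47),(7,13)]⟩,
⟨⟨⟨-153,-36,112⟩,⟨-68,177,-36⟩,⟨-96,-68,-153⟩⟩,true,57,80,.leaf [(1,17949),(3,16984),(5,141),(6,32)],.leaf [(1,17949),(3,16984),(5,141),(6,32)]⟩,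
⟨⟨⟨153,36,112⟩,⟨-68,177,36⟩,⟨-96,-68,153⟩⟩,true,57,113,.leaf [(2,6369),(6,93),(11,9650),(15,34)],.leaf [(0,27),(2,149),(6,1),(10,37)]⟩,
⟨⟨⟨-57,168,76⟩,⟨184,57,12⟩,⟨-12,76,-177⟩⟩,true,58,63,.leaf [(2,193),(3,3088),(4,15),(5,16)],.leaf [(2,193),(3,3088),(4,15),(5,16)]⟩,
⟨⟨⟨57,-168,76⟩,⟨184,57,-12⟩,⟨-12,76,177⟩⟩,true,58,130,.leaf [(5,621),(11,37249),(14,32)],.leaf [(0,525),(2,350),(5,4),(10,101)]⟩,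
⟨⟨⟨33,-176,-72⟩,⟨-48,63,-176⟩,⟨184,48,-33⟩⟩,true,59,68,.leaf [(5,423),(7,417),(11,37249),(15,31)],.leaf [(0,107),(2,750),(5,4),(10,39)]⟩,
⟨⟨⟨33,-176,72⟩,⟨48,-63,-176⟩,⟨184,48,33⟩⟩,true,59,125,.leaf [(0,56),(1,39),(2,168),(5,1)],.leaf [(0,56),(1,39),(2,168),(5,1)]⟩,
⟨⟨⟨-63,-176,48⟩,⟨48,33,184⟩,⟨-176,72,33⟩⟩,true,61,36,.leaf [(0,3667),(1,965),(4,5),(5,19)],.leaf [(0,3667),(1,965),(4,5),(5,19)]⟩,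
⟨⟨⟨-63,-176,-48⟩,⟨-48,-33,184⟩,⟨-176,72,-33⟩⟩,true,61,157,.leaf [(1,17756),(3,37635),(4,248),(5,143)],.leaf [(1,17756),(3,37635),(4,248),(5,143)]⟩,
⟨⟨⟨-57,76,168⟩,⟨-12,-177,76⟩,⟨184,12,57⟩⟩,true,63,58,.leaf [(0,2509),(2,19686),(4,111),(5,92)],.leaf [(0,2509),(2,19686),(4,111),(5,92)]⟩,
⟨⟨⟨-57,76,-168⟩,⟨12,177,76⟩,⟨184,12,-57⟩⟩,true,63,135,.leaf [(3,23160),(4,75),(14,4),(18,1351)],.leaf [(1,5028615),(4,48312),(23,4805),(31,44)]⟩,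
⟨⟨⟨33,-72,-176⟩,⟨184,-33,48⟩,⟨-48,-176,63⟩⟩,true,68,59,.leaf [(4,423),(6,417),(10,37249),(14,31)],.leaf [(1,5886),(3,3831),(10,2428),(23,1)]⟩,
⟨⟨⟨-33,72,-176⟩,⟨184,-33,-48⟩,⟨-48,-176,-63⟩⟩,true,68,134,.leaf [(0,97),(2,8),(3,128),(4,1)],.leaf [(0,97),(2,8),(3,128),(4,1)]⟩,
⟨⟨⟨-57,120,-140⟩,⟨40,-135,-132⟩,⟨-180,-68,15⟩⟩,true,69,16,.leaf [(0,180),(1,8),(2,75),(4,1)],.leaf [(0,180),(1,8),(2,75),(4,1)]⟩,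
⟨⟨⟨57,-120,-140⟩,⟨40,-135,132⟩,⟨-180,-68,-15⟩⟩,true,69,177,.leaf [(0,15),(1,152),(3,120),(4,1)],.leaf [(0,15),(1,152),(3,120),(4,1)]⟩,
⟨⟨⟨-167,-84,-48⟩,⟨12,-113,156⟩,⟨-96,132,103⟩⟩,true,71,13,.leaf [(0,2),(2,27),(3,204),(4,1)],.leaf [(0,2),(2,27),(3,204),(4,1)]⟩,
⟨⟨⟨-167,-84,48⟩,⟨12,-113,-156⟩,⟨96,-132,103⟩⟩,true,71,180,.leaf [(4,4671),(6,3768),(15,2128),(18,37249)],.leaf [(2,8878),(4,6),(6,53),(10,1737)]⟩,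
⟨⟨⟨-153,112,-36⟩,⟨-96,-153,-68⟩,⟨-68,-36,177⟩⟩,true,80,57,.leaf [(0,17949),(2,16984),(4,141),(7,32)],.leaf [(0,17949),(2,16984),(4,141),(7,32)]⟩,
⟨⟨⟨-153,112,36⟩,⟨96,153,-68⟩,⟨-68,-36,-177⟩⟩,true,80,136,.leaf [(3,1893),(5,9),(10,227),(18,221)],.leaf [(1,2079),(3,1020),(10,760),(15,1)]⟩,
⟨⟨⟨-95,-168,0⟩,⟨168,-95,0⟩,⟨0,0,193⟩⟩,true,81,0,.leaf [(0,37249),(4,95),(6,168)],.leaf [(0,37249),(4,95),(6,168)]⟩,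
⟨⟨⟨-63,112,-144⟩,⟨-144,63,112⟩,⟨112,144,63⟩⟩,true,84,85,.leaf [(0,49),(1,193),(3,63),(4,1)],.leaf [(0,49),(1,193),(3,63),(4,1)]⟩,
⟨⟨⟨-63,112,144⟩,⟨144,-63,112⟩,⟨112,144,-63⟩⟩,true,84,108,.leaf [(0,37249),(4,207),(5,32)],.leaf [(0,37249),(4,207),(5,32)]⟩,
⟨⟨⟨-63,-144,112⟩,⟨112,63,144⟩,⟨-144,112,63⟩⟩,true,85,84,.leaf [(0,4439),(1,1351),(4,7),(5,23)],.leaf [(0,4439),(1,1351),(4,7),(5,23)]⟩,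
⟨⟨⟨63,144,112⟩,⟨112,63,-144⟩,⟨-144,112,-63⟩⟩,true,85,109,.leaf [(3,37249),(5,207),(6,32)],.leaf [(3,37249),(5,207),(6,32)]⟩,
⟨⟨⟨15,132,-140⟩,⟨-68,135,120⟩,⟨180,40,57⟩⟩,true,86,55,.leaf [(1,15247),(3,7913),(4,89),(6,1)],.leaf [(1,15247),(3,7913),(4,89),(6,1)]⟩,
⟨⟨⟨-15,-132,-140⟩,⟨-68,135,-120⟩,⟨180,40,-57⟩⟩,true,86,138,.leaf [(2,37249),(4,3),(5,220),(6,70)],.leaf [(2,37249),(4,3),(5,220),(6,70)]⟩,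
⟨⟨⟨-113,12,-156⟩,⟨-84,-167,48⟩,⟨-132,96,103⟩⟩,true,87,27,.leaf [(0,2),(2,177),(3,204),(4,1)],.leaf [(0,2),(2,177),(3,204),(4,1)]⟩,
⟨⟨⟨-113,12,156⟩,⟨-84,-167,-48⟩,⟨132,-96,103⟩⟩,true,87,166,.leaf [(2,37249),(4,93),(5,36),(6,158)],.leaf [(2,37249),(4,93),(5,36),(6,158)]⟩,
⟨⟨⟨-33,184,-48⟩,⟨72,-33,-176⟩,⟨-176,-48,-63⟩⟩,true,88,19,.leaf [(2,8878),(3,5983),(4,34),(15,15)],.leaf [(0,129),(2,56),(4,1),(10,32)]⟩,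
⟨⟨⟨-33,184,48⟩,⟨-72,33,-176⟩,⟨-176,-48,63⟩⟩,true,88,174,.leaf [(2,37249),(4,95),(14,56)],.leaf [(2,95),(4,1),(10,56)]⟩,
⟨⟨⟨103,96,132⟩,⟨48,-167,84⟩,⟨156,-12,-113⟩⟩,true,89,50,.leaf [(0,21616),(2,37635),(4,245),(5,48)],.leaf [(0,21616),(2,37635),(4,245),(5,48)]⟩,
⟨⟨⟨103,96,-132⟩,⟨48,-167,-84⟩,⟨-156,12,-113⟩⟩,true,89,143,.leaf [(0,80),(2,183),(3,48),(4,1)],.leaf [(0,80),(2,183),(3,48),(4,1)]⟩,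
⟨⟨⟨-135,-68,120⟩,⟨-132,15,-140⟩,⟨40,-180,-57⟩⟩,true,92,42,.leaf [(1,22581),(2,1544),(5,108),(7,55)],.leaf [(1,22581),(2,1544),(5,108),(7,55)]⟩,
⟨⟨⟨-135,-68,-120⟩,⟨132,-15,-140⟩,⟨40,-180,57⟩⟩,true,92,151,.leaf [(4,408),(7,684),(11,37249),(15,19)],.leaf [(0,243),(2,686),(7,4),(10,63)]⟩,
⟨⟨⟨135,-68,-120⟩,⟨-132,-15,-140⟩,⟨40,180,-57⟩⟩,true,101,42,.leaf [(4,54),(5,567),(11,37249),(14,14)],.leaf [(0,623),(2,306),(5,4),(10,63)]⟩,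
⟨⟨⟨135,-68,120⟩,⟨132,15,-140⟩,⟨40,180,57⟩⟩,true,101,151,.leaf [(0,203),(1,63),(2,45),(5,1)],.leaf [(0,203),(1,63),(2,45),(5,1)]⟩,
⟨⟨⟨103,-96,132⟩,⟨-48,-167,-84⟩,⟨156,12,-113⟩⟩,true,104,50,.leaf [(0,8878),(1,14861),(4,14),(5,73)],.leaf [(0,8878),(1,14861),(4,14),(5,73)]⟩,
⟨⟨⟨103,-96,-132⟩,⟨-48,-167,84⟩,⟨-156,-12,-113⟩⟩,true,104,143,.leaf [(0,68),(1,216),(2,3),(4,1)],.leaf [(0,68),(1,216),(2,3),(4,1)]⟩,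
⟨⟨⟨33,184,48⟩,⟨72,33,-176⟩,⟨-176,48,-63⟩⟩,true,105,19,.leaf [(0,37249),(4,375),(5,308),(15,84)],.leaf [(0,20651),(4,345),(5,112),(10,16212)]⟩,
⟨⟨⟨33,184,-48⟩,⟨-72,-33,-176⟩,⟨-176,48,63⟩⟩,true,105,174,.leaf [(0,312),(2,65),(4,1),(18,32)],.leaf [(0,24),(2,161),(4,1),(10,32)]⟩,
⟨⟨⟨-113,-12,-156⟩,⟨84,-167,-48⟩,⟨-132,-96,103⟩⟩,true,106,27,.leaf [(0,155),(1,33),(3,75),(4,1)],.leaf [(0,155),(1,33),(3,75),(4,1)]⟩,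
⟨⟨⟨-113,-12,156⟩,⟨84,-167,48⟩,⟨132,96,103⟩⟩,true,106,166,.leaf [(2,7913),(3,386),(4,19),(5,46)],.leaf [(2,7913),(3,386),(4,19),(5,46)]⟩,
⟨⟨⟨15,-132,-140⟩,⟨-68,-135,120⟩,⟨-180,40,-57⟩⟩,true,107,55,.leaf [(0,3),(1,173),(3,87),(4,1)],.leaf [(0,3),(1,173),(3,87),(4,1)]⟩,
⟨⟨⟨-15,132,-140⟩,⟨-68,-135,-120⟩,⟨-180,40,57⟩⟩,true,107,138,.leaf [(0,97),(2,170),(3,20),(4,1)],.leaf [(0,97),(2,170),(3,20),(4,1)]⟩,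
⟨⟨⟨-63,144,112⟩,⟨112,-63,144⟩,⟨144,112,-63⟩⟩,true,108,84,.leaf [(0,207),(1,32),(4,1)],.leaf [(0,207),(1,32),(4,1)]⟩,
⟨⟨⟨63,-144,112⟩,⟨112,-63,-144⟩,⟨144,112,63⟩⟩,true,108,109,.leaf [(0,63),(2,193),(3,49),(5,1)],.leaf [(0,63),(2,193),(3,49),(5,1)]⟩,
⟨⟨⟨63,112,144⟩,⟨-144,-63,112⟩,⟨112,-144,63⟩⟩,true,109,85,.leaf [(2,37249),(4,207),(7,32)],.leaf [(2,37249),(4,207),(7,32)]⟩,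
⟨⟨⟨63,112,-144⟩,⟨144,63,112⟩,⟨112,-144,-63⟩⟩,true,109,108,.leaf [(1,63),(2,49),(3,193),(4,1)],.leaf [(1,63),(2,49),(3,193),(4,1)]⟩,
⟨⟨⟨-95,168,0⟩,⟨-168,-95,0⟩,⟨0,0,193⟩⟩,true,112,0,.leaf [(0,95),(2,168),(4,1)],.leaf [(0,95),(2,168),(4,1)]⟩,
⟨⟨⟨153,112,36⟩,⟨-96,153,-68⟩,⟨-68,36,177⟩⟩,true,113,57,.leaf [(3,6369),(7,93),(10,9650),(14,34)],.leaf [(1,5616),(3,3792),(10,2387),(22,1)]⟩,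
⟨⟨⟨153,112,-36⟩,⟨96,-153,-68⟩,⟨-68,36,-177⟩⟩,true,113,136,.leaf [(0,16984),(2,17949),(4,141),(5,32)],.leaf [(0,16984),(2,17949),(4,141),(5,32)]⟩,
⟨⟨⟨-167,84,-48⟩,⟨-12,-113,-156⟩,⟨-96,-132,103⟩⟩,true,122,13,.R (.leaf [(0,47466),(15,39),(18,4214),(27,43)]) (.leaf [(0,60831),(15,48),(18,5504),(26,43)]) (.R (.R (.leaf [(0,40145544),(15,119133),(30,10664),(43,8299)]) (.leaf [(0,179435574),(15,557748),(30,49751),(42,8299)]) (.leaf [(0,153875619),(15,478053),(30,42871),(47,43)])) (.leaf [(0,2298051),(15,8028),(30,602),(34,8299)]) (.leaf [(0,44131959),(15,138177),(30,12427),(35,8299)])),.leaf [(0,149),(2,21),(4,1),(10,27)]⟩,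
⟨⟨⟨-167,84,48⟩,⟨-12,-113,156⟩,⟨96,132,103⟩⟩,true,122,180,.leaf [(0,197),(1,75),(3,33),(4,1)],.leaf [(0,197),(1,75),(3,33),(4,1)]⟩,
⟨⟨⟨-57,-120,-140⟩,⟨40,135,-132⟩,⟨180,-68,-15⟩⟩,true,124,16,.leaf [(1,37249),(4,53),(5,195),(6,225)],.leaf [(1,37249),(4,53),(5,195),(6,225)]⟩,
⟨⟨⟨57,120,-140⟩,⟨40,135,132⟩,⟨180,-68,15⟩⟩,true,124,177,.leaf [(1,2509),(3,2123),(4,17),(6,1)],.leaf [(1,2509),(3,2123),(4,17),(6,1)]⟩,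
⟨⟨⟨33,72,-176⟩,⟨184,33,48⟩,⟨48,-176,-63⟩⟩,true,125,59,.leaf [(0,39),(1,56),(3,168),(4,1)],.leaf [(0,39),(1,56),(3,168),(4,1)]⟩,
⟨⟨⟨-33,-72,-176⟩,⟨184,33,-48⟩,⟨48,-176,63⟩⟩,true,125,134,.leaf [(4,207),(6,543),(10,37249),(14,7)],.L (.leaf [(0,30),(1,92),(2,135),(4,1)]) (.L (.leaf [(0,2123),(3,9650),(4,31),(7,34)]) (.leaf [(0,34933),(2,28950),(4,251),(5,36)]) (.leaf [(0,228),(1,218),(3,135),(5,1)])) (.leaf [(1,37249),(4,152),(5,15),(6,120)])⟩,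
⟨⟨⟨57,76,-168⟩,⟨-12,177,76⟩,⟨184,-12,57⟩⟩,true,130,58,.leaf [(4,621),(10,37249),(15,32)],.leaf [(1,567),(3,957),(10,301),(14,1)]⟩,
⟨⟨⟨57,76,168⟩,⟨12,-177,76⟩,⟨184,-12,-57⟩⟩,true,130,135,.leaf [(0,13510),(2,35319),(4,225),(5,92)],.leaf [(0,13510),(2,35319),(4,225),(5,92)]⟩,
⟨⟨⟨63,-176,-48⟩,⟨48,-33,184⟩,⟨-176,-72,33⟩⟩,true,132,36,.leaf [(3,37249),(4,232),(5,195),(7,52)],.leaf [(3,37249),(4,232),(5,195),(7,52)]⟩,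
⟨⟨⟨63,-176,48⟩,⟨-48,33,184⟩,⟨-176,-72,-33⟩⟩,true,132,157,.leaf [(3,37249),(4,136),(5,228),(7,19)],.leaf [(3,37249),(4,136),(5,228),(7,19)]⟩,
⟨⟨⟨-33,-176,72⟩,⟨-48,-63,-176⟩,⟨184,-48,-33⟩⟩,true,134,68,.leaf [(1,97),(2,128),(3,8),(5,1)],.leaf [(1,97),(2,128),(3,8),(5,1)]⟩,
⟨⟨⟨-33,-176,-72⟩,⟨48,63,-176⟩,⟨184,-48,33⟩⟩,true,134,125,.leaf [(5,207),(7,543),(11,37249),(15,7)],.leaf [(0,711),(2,146),(7,4),(10,39)]⟩,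
⟨⟨⟨-57,-168,76⟩,⟨184,-57,12⟩,⟨12,76,177⟩⟩,true,135,63,.leaf [(2,1437),(5,6),(15,2),(18,49)],.leaf [(0,249),(2,626),(5,4),(10,101)]⟩,
⟨⟨⟨57,168,76⟩,⟨184,-57,-12⟩,⟨12,76,-177⟩⟩,true,135,130,.leaf [(0,3860),(2,579),(4,23),(5,8)],.leaf [(0,3860),(2,579),(4,23),(5,8)]⟩,
⟨⟨⟨-153,36,112⟩,⟨-68,-177,-36⟩,⟨96,-68,153⟩⟩,true,136,80,.leaf [(2,25283),(5,466),(15,42),(18,9071)],.leaf [(0,112),(2,64),(4,1),(10,37)]⟩,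
⟨⟨⟨153,-36,112⟩,⟨-68,-177,36⟩,⟨96,-68,-153⟩⟩,true,136,113,.leaf [(0,5983),(1,14861),(4,59),(5,73)],.leaf [(0,5983),(1,14861),(4,59),(5,73)]⟩,
⟨⟨⟨15,-68,180⟩,⟨132,135,40⟩,⟨-140,120,57⟩⟩,true,137,12,.leaf [(0,188),(1,78),(3,45),(5,1)],.leaf [(0,188),(1,78),(3,45),(5,1)]⟩,
⟨⟨⟨15,-68,-180⟩,⟨-132,-135,40⟩,⟨-140,120,-57⟩⟩,true,137,181,.leaf [(0,67),(1,217),(3,3),(4,1)],.leaf [(0,67),(1,217),(3,3),(4,1)]⟩,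
⟨⟨⟨-15,-140,-132⟩,⟨180,-57,40⟩,⟨-68,-120,135⟩⟩,true,138,86,.leaf [(3,37249),(4,220),(5,3),(7,70)],.leaf [(3,37249),(4,220),(5,3),(7,70)]⟩,
⟨⟨⟨-15,-140,132⟩,⟨-180,57,40⟩,⟨-68,-120,-135⟩⟩,true,138,107,.leaf [(1,97),(2,20),(3,170),(5,1)],.leaf [(1,97),(2,20),(3,170),(5,1)]⟩,
⟨⟨⟨177,76,-12⟩,⟨-12,57,184⟩,⟨76,-168,57⟩⟩,true,140,49,.leaf [(0,13),(1,196),(2,6),(4,1)],.leaf [(0,13),(1,196),(2,6),(4,1)]⟩,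
⟨⟨⟨177,76,12⟩,⟨12,-57,184⟩,⟨76,-168,-57⟩⟩,true,140,144,.leaf [(0,70),(1,172),(2,63),(4,1)],.leaf [(0,70),(1,172),(2,63),(4,1)]⟩,
⟨⟨⟨103,48,156⟩,⟨96,-167,-12⟩,⟨132,84,-113⟩⟩,true,141,24,.leaf [(0,28564),(2,35319),(4,269),(5,168)],.leaf [(0,28564),(2,35319),(4,269),(5,168)]⟩,
⟨⟨⟨103,48,-156⟩,⟨96,-167,12⟩,⟨-132,-84,-113⟩⟩,true,141,169,.leaf [(0,188),(1,168),(2,27),(4,1)],.leaf [(0,188),(1,168),(2,27),(4,1)]⟩,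
⟨⟨⟨57,-12,184⟩,⟨76,177,-12⟩,⟨-168,76,57⟩⟩,true,142,10,.leaf [(0,6369),(3,7141),(5,63),(6,5)],.leaf [(0,6369),(3,7141),(5,63),(6,5)]⟩,
⟨⟨⟨-57,12,184⟩,⟨76,177,12⟩,⟨-168,76,-57⟩⟩,true,142,183,.leaf [(0,64),(1,97),(3,144),(5,1)],.leaf [(0,64),(1,97),(3,144),(5,1)]⟩,
⟨⟨⟨103,-132,96⟩,⟨-156,-113,12⟩,⟨48,-84,-167⟩⟩,true,143,89,.leaf [(1,80),(2,48),(3,183),(5,1)],.leaf [(1,80),(2,48),(3,183),(5,1)]⟩,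
⟨⟨⟨103,-132,-96⟩,⟨-156,-113,-12⟩,⟨-48,84,-167⟩⟩,true,143,104,.leaf [(1,25283),(2,16791),(4,219),(5,97)],.leaf [(1,25283),(2,16791),(4,219),(5,97)]⟩,
⟨⟨⟨-177,-12,76⟩,⟨76,-57,168⟩,⟨12,184,57⟩⟩,true,144,53,.leaf [(0,10229),(3,9843),(4,101),(5,29)],.leaf [(0,10229),(3,9843),(4,101),(5,29)]⟩,
⟨⟨⟨177,12,76⟩,⟨76,-57,-168⟩,⟨12,184,-57⟩⟩,true,144,140,.leaf [(0,172),(1,70),(3,63),(5,1)],.leaf [(0,172),(1,70),(3,63),(5,1)]⟩,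
⟨⟨⟨-177,36,-68⟩,⟨-68,-153,96⟩,⟨-36,112,153⟩⟩,true,147,44,.leaf [(0,189),(1,122),(3,42),(4,1)],.leaf [(0,189),(1,122),(3,42),(4,1)]⟩,
⟨⟨⟨177,-36,-68⟩,⟨-68,-153,-96⟩,⟨-36,112,-153⟩⟩,true,147,149,.leaf [(0,2509),(1,965),(4,5),(5,13)],.leaf [(0,2509),(1,965),(4,5),(5,13)]⟩,
⟨⟨⟨-167,-12,-96⟩,⟨84,-113,-132⟩,⟨-48,-156,103⟩⟩,true,148,26,.leaf [(0,2781),(3,4167),(18,517),(23,1)],.leaf [(0,109),(3,300),(4,2),(10,93)]⟩,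
⟨⟨⟨-167,-12,96⟩,⟨84,-113,132⟩,⟨48,156,103⟩⟩,true,148,167,.leaf [(0,28564),(3,6369),(4,188),(5,57)],.leaf [(0,28564),(3,6369),(4,188),(5,57)]⟩,
⟨⟨⟨177,-68,36⟩,⟨36,153,112⟩,⟨-68,-96,153⟩⟩,true,149,46,.leaf [(0,164),(1,122),(3,67),(7,1)],.leaf [(0,164),(1,122),(3,67),(7,1)]⟩,
⟨⟨⟨177,-68,-36⟩,⟨-36,-153,112⟩,⟨-68,-96,-153⟩⟩,true,149,147,.leaf [(0,10),(1,148),(2,75),(4,1)],.leaf [(0,10),(1,148),(2,75),(4,1)]⟩,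
⟨⟨⟨-135,-120,-68⟩,⟨40,57,-180⟩,⟨132,-140,-15⟩⟩,true,151,92,.leaf [(5,408),(6,684),(10,37249),(14,19)],.leaf [(6,2187),(22,432),(26,37249),(31,32)]⟩,
⟨⟨⟨135,120,-68⟩,⟨40,57,180⟩,⟨132,-140,15⟩⟩,true,151,101,.leaf [(0,63),(1,203),(3,45),(4,1)],.leaf [(0,63),(1,203),(3,45),(4,1)]⟩,
⟨⟨⟨153,96,-68⟩,⟨112,-153,36⟩,⟨-36,-68,-177⟩⟩,true,152,21,.leaf [(0,156),(1,104),(2,93),(4,1)],.leaf [(0,156),(1,104),(2,93),(4,1)]⟩,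
⟨⟨⟨-153,-96,-68⟩,⟨112,-153,-36⟩,⟨-36,-68,177⟩⟩,true,152,172,.R (.leaf [(0,108),(3,117),(18,20),(27,1)]) (.leaf [(0,189),(3,144),(18,32),(26,1)]) (.leaf [(0,34128),(3,28224),(18,6179),(30,1)]),.leaf [(0,13),(3,208),(4,1),(10,44)]⟩,
⟨⟨⟨-63,-48,-176⟩,⟨-176,-33,72⟩,⟨-48,184,-33⟩⟩,true,157,61,.leaf [(1,40916),(3,14475),(4,232),(5,15)],.leaf [(1,40916),(3,14475),(4,232),(5,15)]⟩,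
⟨⟨⟨63,48,-176⟩,⟨-176,-33,-72⟩,⟨-48,184,33⟩⟩,true,157,132,.leaf [(2,37249),(4,228),(5,136),(6,19)],.leaf [(2,37249),(4,228),(5,136),(6,19)]⟩,
⟨⟨⟨121,132,-72⟩,⟨-132,49,-132⟩,⟨-72,132,121⟩⟩,true,159,1,.leaf [(2,19107),(7,189),(11,7141),(14,5)],.leaf [(0,381),(2,626),(7,4),(10,49)]⟩,
⟨⟨⟨121,132,72⟩,⟨-132,49,132⟩,⟨72,-132,121⟩⟩,true,159,192,.leaf [(1,37249),(4,34),(6,34),(15,49)],.leaf [(1,7720),(4,25),(6,4),(10,1351)]⟩,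
⟨⟨⟨-135,132,40⟩,⟨-68,-15,-180⟩,⟨-120,-140,57⟩⟩,true,162,14,.leaf [(0,90),(2,27),(3,140),(6,1)],.leaf [(0,90),(2,27),(3,140),(6,1)]⟩,
⟨⟨⟨135,-132,40⟩,⟨-68,-15,180⟩,⟨-120,-140,-57⟩⟩,true,162,179,.leaf [(3,9264),(4,909),(15,224),(18,11773)],.leaf [(1,1647),(3,693),(10,677),(14,1)]⟩,
⟨⟨⟨-113,-84,-132⟩,⟨12,-167,96⟩,⟨-156,48,103⟩⟩,true,163,8,.leaf [(0,83),(1,93),(3,135),(4,1)],.leaf [(0,83),(1,93),(3,135),(4,1)]⟩,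
⟨⟨⟨-113,-84,132⟩,⟨12,-167,-96⟩,⟨156,-48,103⟩⟩,true,163,185,.leaf [(1,2123),(2,9650),(5,31),(6,34)],.leaf [(1,2123),(2,9650),(5,31),(6,34)]⟩,
⟨⟨⟨-113,156,12⟩,⟨132,103,-96⟩,⟨-84,-48,-167⟩⟩,true,166,87,.leaf [(3,37249),(4,36),(5,93),(7,158)],.leaf [(3,37249),(4,36),(5,93),(7,158)]⟩,
⟨⟨⟨-113,156,-12⟩,⟨132,103,96⟩,⟨84,48,-167⟩⟩,true,166,106,.leaf [(0,965),(3,9843),(4,61),(5,21)],.leaf [(0,965),(3,9843),(4,61),(5,21)]⟩,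
⟨⟨⟨-167,96,12⟩,⟨48,103,-156⟩,⟨-84,-132,-113⟩⟩,true,167,45,.leaf [(3,67743),(7,324),(10,1544),(15,55)],.leaf [(1,147),(3,70),(7,5),(26,36)]⟩,
⟨⟨⟨-167,96,-12⟩,⟨48,103,156⟩,⟨84,132,-113⟩⟩,true,167,148,.leaf [(1,386),(3,6369),(4,36),(5,7)],.leaf [(1,386),(3,6369),(4,36),(5,7)]⟩,
⟨⟨⟨103,-156,-48⟩,⟨-132,-113,84⟩,⟨-96,-12,-167⟩⟩,true,169,52,.leaf [(1,39179),(2,579),(4,231),(5,73)],.leaf [(1,39179),(2,579),(4,231),(5,73)]⟩,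
⟨⟨⟨103,-156,48⟩,⟨-132,-113,-84⟩,⟨96,12,-167⟩⟩,true,169,141,.leaf [(0,168),(1,188),(3,27),(5,1)],.leaf [(0,168),(1,188),(3,27),(5,1)]⟩,
⟨⟨⟨57,40,-180⟩,⟨-120,-135,-68⟩,⟨-140,132,-15⟩⟩,true,170,7,.leaf [(1,57),(2,175),(3,55),(4,1)],.leaf [(1,57),(2,175),(3,55),(4,1)]⟩,
⟨⟨⟨57,40,180⟩,⟨120,135,-68⟩,⟨-140,132,15⟩⟩,true,170,186,.leaf [(0,92),(1,30),(3,135),(5,1)],.leaf [(0,92),(1,30),(3,135),(5,1)]⟩,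
⟨⟨⟨-153,-68,96⟩,⟨36,-177,-68⟩,⟨112,-36,153⟩⟩,true,172,41,.leaf [(2,37249),(4,141),(5,219),(7,143)],.leaf [(2,37249),(4,141),(5,219),(7,143)]⟩,
⟨⟨⟨-153,-68,-96⟩,⟨-36,177,-68⟩,⟨112,-36,-153⟩⟩,true,172,152,.leaf [(1,461),(2,380),(5,5),(18,44)],.leaf [(1,123),(2,11),(7,1),(10,93)]⟩,
⟨⟨⟨-33,48,184⟩,⟨-176,63,-48⟩,⟨-72,-176,33⟩⟩,true,174,88,.leaf [(3,37249),(5,95),(15,56)],.leaf [(0,105),(3,196),(6,2),(10,117)]⟩,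
⟨⟨⟨33,-48,184⟩,⟨-176,63,48⟩,⟨-72,-176,-33⟩⟩,true,174,105,.leaf [(3,369),(10,11),(15,1),(18,93)],.leaf [(1,837),(3,1026),(10,476),(15,1)]⟩,
⟨⟨⟨49,132,-132⟩,⟨-132,121,72⟩,⟨132,72,121⟩⟩,true,176,17,.leaf [(0,11),(1,198),(3,6),(4,1)],.leaf [(0,11),(1,198),(3,6),(4,1)]⟩,
⟨⟨⟨49,132,132⟩,⟨-132,121,-72⟩,⟨-132,-72,121⟩⟩,true,176,176,.leaf [(0,93798),(15,1476),(18,102869),(22,13)],.leaf [(4,27),(7,576),(10,37249),(14,8)]⟩,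
⟨⟨⟨57,-140,-120⟩,⟨-180,-15,-68⟩,⟨40,132,-135⟩⟩,true,177,69,.leaf [(1,10229),(2,23160),(4,152),(5,155)],.leaf [(1,10229),(2,23160),(4,152),(5,155)]⟩,
⟨⟨⟨57,-140,120⟩,⟨180,15,-68⟩,⟨40,132,135⟩⟩,true,177,124,.leaf [(0,2509),(2,2123),(5,17),(7,1)],.leaf [(0,2509),(2,2123),(5,17),(7,1)]⟩,
⟨⟨⟨135,40,132⟩,⟨120,57,-140⟩,⟨-68,180,15⟩⟩,true,179,31,.leaf [(0,140),(1,27),(3,90),(5,1)],.leaf [(0,140),(1,27),(3,90),(5,1)]⟩,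
⟨⟨⟨135,40,-132⟩,⟨-120,-57,-140⟩,⟨-68,180,-15⟩⟩,true,179,162,.leaf [(2,245689),(4,1622),(5,252),(18,10615)],.leaf [(0,44969),(4,63),(5,352),(10,10422)]⟩,
⟨⟨⟨-167,48,-84⟩,⟨96,103,-132⟩,⟨12,-156,-113⟩⟩,true,180,71,.R (.leaf [(3,12987),(7,36),(18,632),(27,91)]) (.leaf [(3,2457),(7,9),(18,119),(26,13)]) (.R (.L (.leaf [(4,1215),(11,135072),(26,12040),(42,43)]) (.leaf [(0,194),(1,36),(2,93),(4,1)]) (.leaf [(0,14089),(1,11387),(4,77),(5,31)])) (.leaf [(3,498636),(18,45225),(34,3826),(38,5)]) (.leaf [(3,38610),(7,153),(18,2140),(35,91)])),.leaf [(1,1080),(3,309),(10,208),(15,1)]⟩,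
⟨⟨⟨-167,48,84⟩,⟨96,103,132⟩,⟨-12,156,-113⟩⟩,true,180,122,.leaf [(0,386),(3,7527),(4,46),(5,27)],.leaf [(0,386),(3,7527),(4,46),(5,27)]⟩,
⟨⟨⟨-15,180,-68⟩,⟨-140,-57,-120⟩,⟨-132,40,135⟩⟩,true,181,56,.leaf [(0,4439),(2,8299),(4,47),(6,13)],.leaf [(0,4439),(2,8299),(4,47),(6,13)]⟩,
⟨⟨⟨15,-180,-68⟩,⟨-140,-57,120⟩,⟨-132,40,-135⟩⟩,true,181,137,.leaf [(1,32810),(3,16791),(4,220),(5,123)],.leaf [(1,32810),(3,16791),(4,220),(5,123)]⟩,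
⟨⟨⟨-57,184,-12⟩,⟨168,57,76⟩,⟨76,12,-177⟩⟩,true,183,51,.leaf [(0,7141),(3,6369),(4,63),(5,5)],.leaf [(0,7141),(3,6369),(4,63),(5,5)]⟩,
⟨⟨⟨-57,184,12⟩,⟨-168,-57,76⟩,⟨76,12,177⟩⟩,true,183,142,.leaf [(0,97),(1,64),(2,144),(4,1)],.leaf [(0,97),(1,64),(2,144),(4,1)]⟩,
⟨⟨⟨-113,132,84⟩,⟨156,103,48⟩,⟨-12,96,-167⟩⟩,true,185,30,.leaf [(3,37249),(4,204),(5,177),(7,2)],.leaf [(3,37249),(4,204),(5,177),(7,2)]⟩,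
⟨⟨⟨-113,132,-84⟩,⟨156,103,-48⟩,⟨12,-96,-167⟩⟩,true,185,163,.leaf [(0,2123),(3,9650),(4,31),(7,34)],.leaf [(0,2123),(3,9650),(4,31),(7,34)]⟩,
⟨⟨⟨-57,-180,40⟩,⟨-140,15,-132⟩,⟨120,-68,-135⟩⟩,true,186,23,.leaf [(0,55),(1,175),(2,57),(5,1)],.leaf [(0,55),(1,175),(2,57),(5,1)]⟩,
⟨⟨⟨57,180,40⟩,⟨-140,15,132⟩,⟨120,-68,135⟩⟩,true,186,170,.leaf [(0,30),(1,92),(2,135),(4,1)],.leaf [(0,30),(1,92),(2,135),(4,1)]⟩,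
⟨⟨⟨121,72,-132⟩,⟨72,121,132⟩,⟨132,-132,49⟩⟩,true,192,34,.leaf [(1,34),(3,34),(4,1),(10,49)],.leaf [(1,74498),(3,74498),(4,479),(14,49)]⟩,
⟨⟨⟨121,72,132⟩,⟨72,121,-132⟩,⟨-132,132,49⟩⟩,true,192,159,.leaf [(0,37249),(5,34),(7,34),(14,49)],.leaf [(0,479),(5,2),(7,2),(10,49)]⟩]

theorem primeOk_193 : PrimeOk 193 := primeOk (by norm_num) (by norm_num) (by norm_num) L193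
  (by decide +kernel) (by decide +kernel)

def L241 : List Cls := [
⟨⟨⟨241,0,0⟩,⟨0,-209,120⟩,⟨0,-120,-209⟩⟩,false,0,64,.leaf [(1,76),(2,209),(3,44),(4,1)],.leaf [(1,76),(2,209),(3,44),(4,1)]⟩,
⟨⟨⟨241,0,0⟩,⟨0,-209,-120⟩,⟨0,120,-209⟩⟩,false,0,177,.leaf [(0,4579),(1,2651),(4,11),(5,19)],.leaf [(0,4579),(1,2651),(4,11),(5,19)]⟩,
⟨⟨⟨-209,0,120⟩,⟨0,241,0⟩,⟨-120,0,-209⟩⟩,true,0,64,.leaf [(1,209),(3,120),(5,1)],.leaf [(1,209),(3,120),(5,1)]⟩,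
⟨⟨⟨-209,0,-120⟩,⟨0,241,0⟩,⟨120,0,-209⟩⟩,true,0,177,.leaf [(1,58081),(5,209),(7,120)],.leaf [(1,58081),(5,209),(7,120)]⟩,
⟨⟨⟨169,-72,156⟩,⟨-72,169,156⟩,⟨-156,-156,97⟩⟩,true,1,38,.leaf [(3,15424),(6,176),(10,11327),(14,15)],.leaf [(1,891),(3,912),(10,592),(15,1)]⟩,
⟨⟨⟨169,-72,-156⟩,⟨-72,169,-156⟩,⟨156,156,97⟩⟩,true,1,203,.leaf [(2,232324),(5,333),(7,818),(15,97)],.leaf [(1,92303),(5,7),(7,222),(10,20244)]⟩,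
⟨⟨⟨223,-36,-84⟩,⟨-36,169,-168⟩,⟨84,168,151⟩⟩,true,2,85,.leaf [(2,969),(7,6),(11,62),(18,85)],.leaf [(0,451),(2,130),(5,4),(10,235)]⟩,
⟨⟨⟨223,-36,84⟩,⟨-36,169,168⟩,⟨-84,-168,151⟩⟩,true,2,156,.leaf [(3,603),(10,119),(15,1),(18,85)],.leaf [(1,1809),(3,747),(10,467),(14,1)]⟩,
⟨⟨⟨-209,96,-72⟩,⟨-96,-47,216⟩,⟨72,216,79⟩⟩,true,3,58,.leaf [(1,16),(2,143),(3,272),(4,1)],.leaf [(1,16),(2,143),(3,272),(4,1)]⟩,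
⟨⟨⟨-209,96,72⟩,⟨-96,-47,-216⟩,⟨-72,-216,79⟩⟩,true,3,183,.leaf [(4,1107),(6,2994),(15,604),(18,58081)],.leaf [(0,56),(2,15),(4,1),(10,72)]⟩,
⟨⟨⟨159,-92,156⟩,⟨-132,-201,16⟩,⟨124,-96,-183⟩⟩,true,7,51,.leaf [(0,723),(1,2410),(4,7),(5,10)],.leaf [(0,723),(1,2410),(4,7),(5,10)]⟩,
⟨⟨⟨159,-92,-156⟩,⟨132,201,16⟩,⟨124,-96,183⟩⟩,true,7,190,.leaf [(3,58081),(4,174),(7,203),(14,26)],.leaf [(0,171),(3,95),(7,1),(10,17)]⟩,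
⟨⟨⟨-9,160,-180⟩,⟨240,-9,-20⟩,⟨-20,-180,-159⟩⟩,true,9,20,.leaf [(0,169),(1,40),(3,120),(4,1)],.leaf [(0,169),(1,40),(3,120),(4,1)]⟩,
⟨⟨⟨-9,160,180⟩,⟨-240,9,-20⟩,⟨-20,-180,159⟩⟩,true,9,221,.leaf [(1,2892),(2,5543),(4,33),(7,28)],.leaf [(1,2892),(2,5543),(4,33),(7,28)]⟩,
⟨⟨⟨-183,156,16⟩,⟨124,159,-132⟩,⟨-96,-92,-201⟩⟩,true,11,100,.leaf [(3,58081),(4,228),(5,297),(6,236)],.leaf [(3,58081),(4,228),(5,297),(6,236)]⟩,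
⟨⟨⟨183,-156,16⟩,⟨124,159,132⟩,⟨-96,-92,201⟩⟩,true,11,141,.leaf [(4,7227),(5,2289),(15,2081),(18,58081)],.leaf [(5,828),(6,558),(10,58081),(14,5)]⟩,
⟨⟨⟨159,-20,-180⟩,⟨180,-9,160⟩,⟨-20,-240,9⟩⟩,true,12,108,.leaf [(1,39765),(3,46754),(4,260),(7,11)],.leaf [(1,39765),(3,46754),(4,260),(7,11)]⟩,
⟨⟨⟨159,-20,180⟩,⟨-180,9,160⟩,⟨-20,-240,-9⟩⟩,true,12,133,.leaf [(1,241),(3,4097),(5,13),(7,11)],.leaf [(1,241),(3,4097),(5,13),(7,11)]⟩,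
⟨⟨⟨-15,16,-240⟩,⟨-240,15,16⟩,⟨16,240,15⟩⟩,true,15,16,.leaf [(0,1),(1,241),(3,15),(4,1)],.leaf [(0,1),(1,241),(3,15),(4,1)]⟩,
⟨⟨⟨-15,16,240⟩,⟨240,-15,16⟩,⟨16,240,-15⟩⟩,true,15,225,.leaf [(0,58081),(4,255),(5,224)],.leaf [(0,58081),(4,255),(5,224)]⟩,
⟨⟨⟨-15,-240,16⟩,⟨16,15,240⟩,⟨-240,16,15⟩⟩,true,16,15,.leaf [(0,4097),(1,241),(4,1),(5,17)],.leaf [(0,4097),(1,241),(4,1),(5,17)]⟩,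
⟨⟨⟨15,240,16⟩,⟨16,15,-240⟩,⟨-240,16,-15⟩⟩,true,16,226,.leaf [(3,58081),(5,255),(6,224)],.leaf [(3,58081),(5,255),(6,224)]⟩,
⟨⟨⟨151,-84,-168⟩,⟨84,223,-36⟩,⟨168,-36,169⟩⟩,true,17,34,.leaf [(3,119295),(7,21),(14,125),(18,4579)],.leaf [(1,2430),(3,1137),(10,940),(15,1)]⟩,
⟨⟨⟨151,-84,168⟩,⟨84,223,36⟩,⟨-168,36,169⟩⟩,true,17,207,.R (.leaf [(0,108),(3,117),(18,20),(27,1)]) (.leaf [(0,189),(3,144),(18,32),(26,1)]) (.leaf [(0,22248),(3,27747),(18,4840),(31,1)]),.leaf [(0,70),(3,199),(5,1),(10,50)]⟩,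
⟨⟨⟨97,156,156⟩,⟨-156,169,-72⟩,⟨-156,-72,169⟩⟩,true,19,19,.leaf [(4,486),(15,612),(18,58081),(22,17)],.leaf [(1,13014),(7,198),(10,18557),(14,7)]⟩,
⟨⟨⟨97,156,-156⟩,⟨-156,169,72⟩,⟨156,72,169⟩⟩,true,19,222,.leaf [(2,58081),(4,63),(7,209),(15,19)],.leaf [(1,63),(2,209),(7,1),(10,19)]⟩,
⟨⟨⟨-9,-180,160⟩,⟨-20,-159,-180⟩,⟨240,-20,-9⟩⟩,true,20,9,.leaf [(0,40),(1,169),(2,120),(5,1)],.leaf [(0,40),(1,169),(2,120),(5,1)]⟩,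
⟨⟨⟨9,180,160⟩,⟨-20,-159,180⟩,⟨240,-20,9⟩⟩,true,20,232,.leaf [(0,165),(1,20),(2,174),(4,1)],.leaf [(0,165),(1,20),(2,174),(4,1)]⟩,
⟨⟨⟨201,124,48⟩,⟨36,33,-236⟩,⟨-128,204,9⟩⟩,true,21,47,.leaf [(4,1374),(5,252),(14,661),(18,58081)],.leaf [(0,55),(3,498),(5,2),(10,105)]⟩,
⟨⟨⟨201,124,-48⟩,⟨-36,-33,-236⟩,⟨-128,204,-9⟩⟩,true,21,194,.leaf [(0,116162),(4,510),(5,793),(15,129)],.leaf [(0,110137),(4,498),(5,788),(10,31089)]⟩,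
⟨⟨⟨159,124,-132⟩,⟨156,-183,16⟩,⟨-92,-96,-201⟩⟩,true,22,31,.leaf [(0,226),(1,148),(2,81),(4,1)],.leaf [(0,226),(1,148),(2,81),(4,1)]⟩,
⟨⟨⟨159,124,132⟩,⟨-156,183,16⟩,⟨-92,-96,201⟩⟩,true,22,210,.leaf [(1,63),(3,158),(7,1),(10,28)],.leaf [(1,1071),(3,370),(7,5),(26,28)]⟩,
⟨⟨⟨33,36,-236⟩,⟨124,201,48⟩,⟨204,-128,9⟩⟩,true,23,117,.leaf [(1,17111),(3,15665),(4,79),(6,55)],.leaf [(1,17111),(3,15665),(4,79),(6,55)]⟩,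
⟨⟨⟨-33,-36,-236⟩,⟨124,201,-48⟩,⟨204,-128,-9⟩⟩,true,23,124,.leaf [(0,165),(1,270),(3,14),(6,1)],.leaf [(0,165),(1,270),(3,14),(6,1)]⟩,
⟨⟨⟨-201,36,-128⟩,⟨124,-33,-204⟩,⟨-48,-236,9⟩⟩,true,25,45,.leaf [(0,9399),(3,45308),(4,129),(6,166)],.leaf [(0,9399),(3,45308),(4,129),(6,166)]⟩,
⟨⟨⟨201,-36,-128⟩,⟨124,-33,204⟩,⟨-48,-236,-9⟩⟩,true,25,196,.leaf [(1,197),(3,123),(4,1),(10,3)],.leaf [(1,193282),(3,120018),(4,947),(14,3)]⟩,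
⟨⟨⟨-9,-20,-240⟩,⟨180,159,-20⟩,⟨160,-180,9⟩⟩,true,29,107,.R (.leaf [(0,108),(3,117),(18,20),(27,1)]) (.leaf [(0,189),(3,144),(18,32),(26,1)]) (.leaf [(0,11475),(3,20268),(18,2890),(30,1)]),.leaf [(0,46272),(4,49),(7,368),(10,18557)]⟩,
⟨⟨⟨-9,-20,240⟩,⟨-180,-159,-20⟩,⟨160,-180,-9⟩⟩,true,29,134,.leaf [(1,58081),(4,160),(5,289),(7,120)],.leaf [(1,58081),(4,160),(5,289),(7,120)]⟩,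
⟨⟨⟨159,-132,124⟩,⟨-92,-201,-96⟩,⟨156,16,-183⟩⟩,true,31,22,.leaf [(0,1687),(1,2410),(4,3),(5,10)],.leaf [(0,1687),(1,2410),(4,3),(5,10)]⟩,
⟨⟨⟨-159,132,124⟩,⟨-92,-201,96⟩,⟨156,16,183⟩⟩,true,31,219,.leaf [(0,130),(2,91),(4,1),(11,28)],.leaf [(0,193),(2,133),(4,1),(10,7)]⟩,
⟨⟨⟨-119,48,-204⟩,⟨-192,-119,84⟩,⟨-84,204,97⟩⟩,true,32,105,.leaf [(0,167),(1,264),(3,24),(4,1)],.leaf [(0,167),(1,264),(3,24),(4,1)]⟩,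
⟨⟨⟨-119,48,204⟩,⟨-192,-119,-84⟩,⟨84,-204,97⟩⟩,true,32,136,.leaf [(1,144),(2,101),(6,1),(18,6)],.leaf [(1,100),(2,70),(4,1),(10,97)]⟩,
⟨⟨⟨151,-168,-84⟩,⟨168,169,-36⟩,⟨84,-36,223⟩⟩,true,34,17,.leaf [(2,513),(11,95),(15,1),(18,17)],.leaf [(0,91),(2,130),(5,4),(10,307)]⟩,
⟨⟨⟨151,-168,84⟩,⟨168,169,36⟩,⟨-84,36,223⟩⟩,true,34,224,.R (.leaf [(0,108),(3,117),(18,20),(27,1)]) (.leaf [(0,189),(3,144),(18,32),(26,1)]) (.leaf [(0,21654),(3,9972),(18,3527),(30,1)]),.leaf [(0,323),(3,62),(5,2),(10,85)]⟩,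
⟨⟨⟨169,156,-72⟩,⟨-156,97,-156⟩,⟨-72,156,169⟩⟩,true,38,1,.leaf [(2,15424),(7,176),(11,11327),(15,15)],.leaf [(0,333),(2,818),(7,4),(10,97)]⟩,
⟨⟨⟨169,156,72⟩,⟨-156,97,156⟩,⟨72,-156,169⟩⟩,true,38,240,.leaf [(2,999),(10,818),(15,4),(18,97)],.leaf [(1,277632),(4,693),(10,51815),(14,16)]⟩,
⟨⟨⟨-9,-128,-204⟩,⟨48,-201,124⟩,⟨-236,-36,33⟩⟩,true,41,103,.leaf [(1,99),(2,73),(3,229),(4,1)],.leaf [(1,99),(2,73),(3,229),(4,1)]⟩,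
⟨⟨⟨-9,-128,204⟩,⟨-48,201,124⟩,⟨-236,-36,-33⟩⟩,true,41,138,.leaf [(0,92),(1,51),(3,186),(5,1)],.leaf [(0,92),(1,51),(3,186),(5,1)]⟩,
⟨⟨⟨105,-200,84⟩,⟨216,105,-20⟩,⟨-20,84,225⟩⟩,true,44,49,.leaf [(0,25787),(2,8917),(5,103),(7,47)],.leaf [(0,25787),(2,8917),(5,103),(7,47)]⟩,
⟨⟨⟨105,-200,-84⟩,⟨-216,-105,-20⟩,⟨-20,84,-225⟩⟩,true,44,192,.leaf [(1,3856),(2,2169),(4,25),(5,16)],.leaf [(1,3856),(2,2169),(4,25),(5,16)]⟩,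
⟨⟨⟨-201,-128,36⟩,⟨-48,9,-236⟩,⟨124,-204,-33⟩⟩,true,45,25,.leaf [(1,9399),(2,45308),(5,129),(7,166)],.leaf [(1,9399),(2,45308),(5,129),(7,166)]⟩,
⟨⟨⟨-201,-128,-36⟩,⟨48,-9,-236⟩,⟨124,-204,33⟩⟩,true,45,216,.leaf [(0,120),(2,200),(7,1),(11,3)],.leaf [(0,507),(2,818),(7,4),(10,3)]⟩,
⟨⟨⟨201,48,124⟩,⟨-128,9,204⟩,⟨36,-236,33⟩⟩,true,47,21,.leaf [(4,7713),(5,3477),(15,1769),(18,58081)],.leaf [(1,104112),(4,270),(10,20485),(14,11)]⟩,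
⟨⟨⟨-201,-48,124⟩,⟨-128,9,-204⟩,⟨36,-236,-33⟩⟩,true,47,220,.leaf [(3,399),(5,3),(10,109),(18,91)],.leaf [(1,1080),(3,1107),(10,320),(15,1)]⟩,
⟨⟨⟨105,84,-200⟩,⟨-20,225,84⟩,⟨216,-20,105⟩⟩,true,49,44,.leaf [(1,25787),(3,8917),(4,103),(6,47)],.leaf [(1,25787),(3,8917),(4,103),(6,47)]⟩,
⟨⟨⟨-105,-84,-200⟩,⟨-20,225,-84⟩,⟨216,-20,-105⟩⟩,true,49,197,.leaf [(1,2169),(2,3856),(5,25),(6,16)],.leaf [(1,2169),(2,3856),(5,25),(6,16)]⟩,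
⟨⟨⟨33,204,124⟩,⟨-236,9,48⟩,⟨36,-128,201⟩⟩,true,50,106,.leaf [(2,2805),(4,18),(11,460),(18,227)],.leaf [(0,165),(2,5),(6,1),(10,43)]⟩,
⟨⟨⟨-33,-204,124⟩,⟨-236,9,-48⟩,⟨36,-128,-201⟩⟩,true,50,135,.leaf [(0,76),(1,235),(3,90),(5,1)],.leaf [(0,76),(1,235),(3,90),(5,1)]⟩,
⟨⟨⟨159,156,-92⟩,⟨124,-183,-96⟩,⟨-132,16,-201⟩⟩,true,51,7,.leaf [(0,16870),(2,19521),(4,109),(5,4)],.leaf [(0,16870),(2,19521),(4,109),(5,4)]⟩,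
⟨⟨⟨-159,-156,-92⟩,⟨124,-183,96⟩,⟨-132,16,201⟩⟩,true,51,234,.L (.leaf [(0,174),(1,203),(2,78),(5,1)]) (.leaf [(0,5),(1,276),(2,90),(4,1)]) (.leaf [(0,323),(1,222),(3,114),(4,1)]),.leaf [(0,10),(3,256),(4,1),(10,17)]⟩,
⟨⟨⟨-183,124,96⟩,⟨-156,-159,-92⟩,⟨16,-132,201⟩⟩,true,52,118,.leaf [(0,31089),(2,54466),(4,297),(7,188)],.leaf [(0,31089),(2,54466),(4,297),(7,188)]⟩,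
⟨⟨⟨-183,124,-96⟩,⟨156,159,-92⟩,⟨16,-132,-201⟩⟩,true,52,123,.leaf [(4,663),(5,4896),(14,1216),(18,58081)],.leaf [(4,68769),(10,1149570),(26,594065),(31,68)]⟩,
⟨⟨⟨-9,-236,48⟩,⟨-204,33,124⟩,⟨-128,-36,-201⟩⟩,true,53,75,.leaf [(2,8917),(3,13978),(4,7),(5,54)],.leaf [(2,8917),(3,13978),(4,7),(5,54)]⟩,
⟨⟨⟨-9,-236,-48⟩,⟨204,-33,124⟩,⟨-128,-36,201⟩⟩,true,53,166,.leaf [(3,58081),(4,328),(5,99),(7,172)],.leaf [(3,58081),(4,328),(5,99),(7,172)]⟩,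
⟨⟨⟨79,-72,216⟩,⟨72,-209,-96⟩,⟨216,96,-47⟩⟩,true,54,79,.leaf [(0,147),(1,263),(2,21),(5,1)],.leaf [(0,147),(1,263),(2,21),(5,1)]⟩,
⟨⟨⟨79,-72,-216⟩,⟨72,-209,96⟩,⟨-216,-96,-47⟩⟩,true,54,162,.leaf [(0,137),(1,228),(3,84),(4,1)],.leaf [(0,137),(1,228),(3,84),(4,1)]⟩,
⟨⟨⟨-225,-84,-20⟩,⟨-20,105,-216⟩,⟨84,-200,-105⟩⟩,true,55,59,.leaf [(2,241),(3,4097),(5,1),(6,17)],.leaf [(2,241),(3,4097),(5,1),(6,17)]⟩,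
⟨⟨⟨225,84,-20⟩,⟨-20,105,216⟩,⟨84,-200,105⟩⟩,true,55,182,.leaf [(1,232324),(4,983),(6,18),(14,21)],.leaf [(1,228),(2,83),(6,1),(10,106)]⟩,
⟨⟨⟨-119,84,-192⟩,⟨204,97,-84⟩,⟨48,-204,-119⟩⟩,true,56,113,.leaf [(3,311),(7,1),(10,20),(18,20)],.leaf [(1,1566),(3,1278),(10,803),(14,1)]⟩,
⟨⟨⟨-119,84,192⟩,⟨204,97,84⟩,⟨-48,204,-119⟩⟩,true,56,128,.leaf [(0,120),(1,251),(3,60),(5,1)],.leaf [(0,120),(1,251),(3,60),(5,1)]⟩,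
⟨⟨⟨-209,-72,96⟩,⟨72,79,216⟩,⟨-96,216,-47⟩⟩,true,58,3,.leaf [(0,964),(3,13737),(4,68),(5,39)],.leaf [(0,964),(3,13737),(4,68),(5,39)]⟩,
⟨⟨⟨-209,-72,-96⟩,⟨72,79,-216⟩,⟨96,-216,-47⟩⟩,true,58,238,.leaf [(1,618),(2,172),(3,197),(15,1)],.leaf [(1,6183),(3,1857),(10,2051),(22,1)]⟩,
⟨⟨⟨-225,-20,-84⟩,⟨84,-105,-200⟩,⟨-20,-216,105⟩⟩,true,59,55,.leaf [(2,4097),(3,241),(4,1),(7,17)],.leaf [(2,4097),(3,241),(4,1),(7,17)]⟩,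
⟨⟨⟨-225,-20,84⟩,⟨-84,105,-200⟩,⟨-20,-216,-105⟩⟩,true,59,186,.leaf [(2,58081),(5,57),(7,209),(14,21)],.leaf [(1,39),(2,221),(7,1),(10,15)]⟩,
⟨⟨⟨-47,-216,96⟩,⟨-216,79,72⟩,⟨-96,-72,-209⟩⟩,true,61,80,.leaf [(1,56),(2,144),(3,249),(5,1)],.leaf [(1,56),(2,144),(3,249),(5,1)]⟩,
⟨⟨⟨-47,-216,-96⟩,⟨-216,79,-72⟩,⟨96,72,-209⟩⟩,true,61,161,.leaf [(0,16),(2,272),(3,113),(5,1)],.leaf [(0,16),(2,272),(3,113),(5,1)]⟩,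
⟨⟨⟨-209,120,0⟩,⟨-120,-209,0⟩,⟨0,0,241⟩⟩,true,64,0,.leaf [(0,209),(2,120),(4,1)],.leaf [(0,209),(2,120),(4,1)]⟩,
⟨⟨⟨201,132,16⟩,⟨-92,159,-156⟩,⟨-96,124,183⟩⟩,true,69,96,.leaf [(0,21),(2,270),(3,140),(6,1)],.leaf [(0,21),(2,270),(3,140),(6,1)]⟩,
⟨⟨⟨-201,-132,16⟩,⟨-92,159,156⟩,⟨-96,124,-183⟩⟩,true,69,145,.leaf [(0,175),(1,199),(2,81),(5,1)],.leaf [(0,175),(1,199),(2,81),(5,1)]⟩,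
⟨⟨⟨-201,-92,-96⟩,⟨-132,159,124⟩,⟨16,156,-183⟩⟩,true,70,94,.leaf [(0,723),(1,2410),(4,7),(5,10)],.leaf [(0,723),(1,2410),(4,7),(5,10)]⟩,
⟨⟨⟨-201,-92,96⟩,⟨132,-159,124⟩,⟨16,156,183⟩⟩,true,70,147,.leaf [(0,58081),(4,291),(5,161),(7,21)],.leaf [(0,58081),(4,291),(5,161),(7,21)]⟩,
⟨⟨⟨-9,48,-236⟩,⟨-128,-201,-36⟩,⟨-204,124,33⟩⟩,true,75,53,.leaf [(0,165),(1,200),(2,84),(4,1)],.leaf [(0,165),(1,200),(2,84),(4,1)]⟩,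
⟨⟨⟨9,-48,-236⟩,⟨-128,-201,36⟩,⟨-204,124,-33⟩⟩,true,75,188,.leaf [(0,144),(1,272),(2,9),(4,1)],.leaf [(0,144),(1,272),(2,9),(4,1)]⟩,
⟨⟨⟨169,168,36⟩,⟨-168,151,84⟩,⟨36,-84,223⟩⟩,true,78,120,.leaf [(4,63),(6,399),(10,58081),(14,193)],.leaf [(1,182919),(4,669),(10,53261),(15,119)]⟩,
⟨⟨⟨169,168,-36⟩,⟨-168,151,-84⟩,⟨-36,84,223⟩⟩,true,78,121,.leaf [(1,128),(2,545),(4,5),(18,92)],.leaf [(0,51),(2,770),(7,4),(10,187)]⟩,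
⟨⟨⟨79,216,-72⟩,⟨216,-47,96⟩,⟨72,-96,-209⟩⟩,true,79,54,.leaf [(0,263),(1,147),(3,21),(4,1)],.leaf [(0,263),(1,147),(3,21),(4,1)]⟩,
⟨⟨⟨79,216,72⟩,⟨216,-47,-96⟩,⟨-72,96,-209⟩⟩,true,79,187,.leaf [(3,58081),(4,120),(5,276),(7,5)],.leaf [(3,58081),(4,120),(5,276),(7,5)]⟩,
⟨⟨⟨-47,96,-216⟩,⟨-96,-209,-72⟩,⟨-216,72,79⟩⟩,true,80,61,.leaf [(0,56),(2,249),(3,144),(4,1)],.leaf [(0,56),(2,249),(3,144),(4,1)]⟩,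
⟨⟨⟨-47,96,216⟩,⟨-96,-209,72⟩,⟨216,-72,79⟩⟩,true,80,180,.leaf [(2,58081),(4,249),(5,144),(6,56)],.leaf [(2,58081),(4,249),(5,144),(6,56)]⟩,
⟨⟨⟨223,-84,-36⟩,⟨84,151,168⟩,⟨-36,-168,169⟩⟩,true,85,2,.leaf [(3,1197),(10,20),(15,1),(18,100)],.leaf [(1,1674),(3,954),(10,437),(14,1)]⟩,
⟨⟨⟨223,-84,36⟩,⟨84,151,-168⟩,⟨36,168,169⟩⟩,true,85,239,.leaf [(0,121223),(5,71),(7,269),(18,16147)],.leaf [(0,745),(2,130),(5,4),(10,133)]⟩,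
⟨⟨⟨-105,-20,216⟩,⟨-84,225,-20⟩,⟨-200,-84,-105⟩⟩,true,92,115,.leaf [(1,3133),(3,1928),(5,13),(7,8)],.leaf [(1,3133),(3,1928),(5,13),(7,8)]⟩,
⟨⟨⟨-105,-20,-216⟩,⟨84,-225,-20⟩,⟨-200,-84,105⟩⟩,true,92,126,.leaf [(0,205),(1,106),(3,90),(4,1)],.leaf [(0,205),(1,106),(3,90),(4,1)]⟩,
⟨⟨⟨-201,-96,-92⟩,⟨16,-183,156⟩,⟨-132,124,159⟩⟩,true,94,70,.leaf [(0,87),(1,59),(3,189),(4,1)],.leaf [(0,87),(1,59),(3,189),(4,1)]⟩,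
⟨⟨⟨201,96,-92⟩,⟨16,-183,-156⟩,⟨-132,124,-159⟩⟩,true,94,171,.leaf [(0,14701),(2,5784),(4,67),(5,64)],.leaf [(0,14701),(2,5784),(4,67),(5,64)]⟩,
⟨⟨⟨201,16,132⟩,⟨-96,183,124⟩,⟨-92,-156,159⟩⟩,true,96,69,.leaf [(1,21),(2,140),(3,270),(7,1)],.leaf [(1,21),(2,140),(3,270),(7,1)]⟩,
⟨⟨⟨201,16,-132⟩,⟨96,-183,124⟩,⟨-92,-156,-159⟩⟩,true,96,172,.leaf [(0,175),(1,256),(2,24),(4,1)],.leaf [(0,175),(1,256),(2,24),(4,1)]⟩,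
⟨⟨⟨97,204,-84⟩,⟨84,-119,-192⟩,⟨-204,48,-119⟩⟩,true,99,101,.leaf [(0,58081),(4,203),(5,174),(7,78)],.leaf [(0,58081),(4,203),(5,174),(7,78)]⟩,
⟨⟨⟨97,204,84⟩,⟨84,-119,192⟩,⟨204,-48,-119⟩⟩,true,99,140,.leaf [(0,209),(1,108),(2,114),(4,1)],.leaf [(0,209),(1,108),(2,114),(4,1)]⟩,
⟨⟨⟨-183,16,156⟩,⟨-96,-201,-92⟩,⟨124,-132,159⟩⟩,true,100,11,.leaf [(2,58081),(4,297),(5,228),(7,236)],.leaf [(2,58081),(4,297),(5,228),(7,236)]⟩,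
⟨⟨⟨-183,16,-156⟩,⟨96,201,-92⟩,⟨124,-132,-159⟩⟩,true,100,230,.leaf [(4,1140),(5,4680),(14,823),(18,58081)],.leaf [(7,7911),(10,696972),(23,398),(31,1)]⟩,
⟨⟨⟨97,-84,204⟩,⟨-204,-119,48⟩,⟨84,-192,-119⟩⟩,true,101,99,.leaf [(1,58081),(4,174),(5,203),(6,78)],.leaf [(1,58081),(4,174),(5,203),(6,78)]⟩,
⟨⟨⟨97,-84,-204⟩,⟨-204,-119,-48⟩,⟨-84,192,-119⟩⟩,true,101,142,.leaf [(1,24341),(2,21690),(4,186),(5,55)],.leaf [(1,24341),(2,21690),(4,186),(5,55)]⟩,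
⟨⟨⟨-9,-204,-128⟩,⟨-236,33,-36⟩,⟨48,124,-201⟩⟩,true,103,41,.leaf [(1,14701),(2,10122),(4,86),(5,93)],.leaf [(1,14701),(2,10122),(4,86),(5,93)]⟩,
⟨⟨⟨9,204,-128⟩,⟨-236,33,36⟩,⟨48,124,201⟩⟩,true,103,200,.leaf [(0,45),(1,164),(2,126),(4,1)],.leaf [(0,45),(1,164),(2,126),(4,1)]⟩,
⟨⟨⟨-119,-204,48⟩,⟨-84,97,204⟩,⟨-192,84,-119⟩⟩,true,105,32,.leaf [(0,264),(1,167),(2,24),(5,1)],.leaf [(0,264),(1,167),(2,24),(5,1)]⟩,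
⟨⟨⟨-119,-204,-48⟩,⟨-84,97,-204⟩,⟨192,-84,-119⟩⟩,true,105,209,.leaf [(5,6831),(7,4125),(14,2225),(18,58081)],.leaf [(1,311),(2,60),(5,1),(10,60)]⟩,
⟨⟨⟨33,124,204⟩,⟨36,201,-128⟩,⟨-236,48,9⟩⟩,true,106,50,.leaf [(3,351),(7,3),(10,146),(18,74)],.leaf [(1,2565),(3,1272),(10,880),(15,1)]⟩,
⟨⟨⟨33,124,-204⟩,⟨-36,-201,-128⟩,⟨-236,48,-9⟩⟩,true,106,191,.leaf [(0,90),(2,235),(3,76),(4,1)],.leaf [(0,90),(2,235),(3,76),(4,1)]⟩,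
⟨⟨⟨-9,-240,-20⟩,⟨160,9,-180⟩,⟨180,-20,159⟩⟩,true,107,29,.leaf [(2,110137),(5,788),(6,498),(18,10363)],.leaf [(1,117),(2,146),(5,1),(10,74)]⟩,
⟨⟨⟨9,240,-20⟩,⟨160,9,180⟩,⟨180,-20,-159⟩⟩,true,107,212,.leaf [(0,231),(1,140),(3,60),(4,1)],.leaf [(0,231),(1,140),(3,60),(4,1)]⟩,
⟨⟨⟨159,-180,-20⟩,⟨-20,9,-240⟩,⟨180,160,-9⟩⟩,true,108,12,.leaf [(0,39765),(2,46754),(5,260),(6,11)],.leaf [(0,39765),(2,46754),(5,260),(6,11)]⟩,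
⟨⟨⟨-159,180,-20⟩,⟨-20,9,240⟩,⟨180,160,9⟩⟩,true,108,229,.leaf [(0,25),(2,146),(3,260),(4,1)],.leaf [(0,25),(2,146),(3,260),(4,1)]⟩,
⟨⟨⟨-119,-192,84⟩,⟨48,-119,-204⟩,⟨204,-84,97⟩⟩,true,113,56,.leaf [(2,41),(6,1),(11,80),(18,10)],.leaf [(0,90),(2,191),(6,1),(10,30)]⟩,
⟨⟨⟨-119,-192,-84⟩,⟨48,-119,204⟩,⟨-204,84,97⟩⟩,true,113,185,.leaf [(1,6989),(3,59286),(4,276),(5,73)],.leaf [(1,6989),(3,59286),(4,276),(5,73)]⟩,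
⟨⟨⟨-105,216,-20⟩,⟨-200,-105,-84⟩,⟨-84,-20,225⟩⟩,true,115,92,.leaf [(0,3133),(2,1928),(4,13),(6,8)],.leaf [(0,3133),(2,1928),(4,13),(6,8)]⟩,
⟨⟨⟨105,-216,-20⟩,⟨-200,-105,84⟩,⟨-84,-20,-225⟩⟩,true,115,149,.leaf [(2,4097),(3,6266),(4,9),(5,26)],.leaf [(2,4097),(3,6266),(4,9),(5,26)]⟩,
⟨⟨⟨33,-236,36⟩,⟨204,9,-128⟩,⟨124,48,201⟩⟩,true,117,23,.leaf [(0,17111),(2,15665),(5,79),(7,55)],.leaf [(0,17111),(2,15665),(5,79),(7,55)]⟩,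
⟨⟨⟨33,-236,-36⟩,⟨-204,-9,-128⟩,⟨124,48,-201⟩⟩,true,117,218,.leaf [(0,14),(2,270),(3,165),(5,1)],.leaf [(0,14),(2,270),(3,165),(5,1)]⟩,
⟨⟨⟨-183,96,124⟩,⟨16,201,-132⟩,⟨-156,-92,-159⟩⟩,true,118,52,.leaf [(1,31089),(3,54466),(5,297),(6,188)],.leaf [(1,31089),(3,54466),(5,297),(6,188)]⟩,
⟨⟨⟨183,-96,124⟩,⟨16,201,132⟩,⟨-156,-92,159⟩⟩,true,118,189,.leaf [(0,174243),(5,992),(6,355),(14,200)],.leaf [(4,102),(5,700),(6,815),(10,58081)]⟩,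
⟨⟨⟨169,36,168⟩,⟨36,223,-84⟩,⟨-168,84,151⟩⟩,true,120,78,.leaf [(5,63),(7,399),(11,58081),(15,193)],.leaf [(5,84),(6,149),(7,772),(10,58081)]⟩,
⟨⟨⟨169,36,-168⟩,⟨36,223,84⟩,⟨168,-84,151⟩⟩,true,120,163,.leaf [(4,729),(7,564),(10,116162),(14,317)],.leaf [(1,1674),(3,759),(10,772),(15,1)]⟩,
⟨⟨⟨169,-36,168⟩,⟨-36,223,84⟩,⟨-168,-84,151⟩⟩,true,121,78,.leaf [(0,6021),(3,2655),(18,1021),(23,1)],.leaf [(1,3615),(5,3),(10,241),(14,5)]⟩,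
⟨⟨⟨169,-36,-168⟩,⟨-36,223,-84⟩,⟨168,84,151⟩⟩,true,121,163,.leaf [(1,357),(2,580),(7,5),(18,68)],.leaf [(1,77),(2,21),(5,1),(10,99)]⟩,
⟨⟨⟨-183,-96,124⟩,⟨16,-201,-132⟩,⟨156,-92,159⟩⟩,true,123,52,.leaf [(4,4203),(5,4026),(15,1214),(18,58081)],.leaf [(4,858),(5,388),(6,113),(10,58081)]⟩,
⟨⟨⟨183,96,124⟩,⟨16,-201,132⟩,⟨156,-92,-159⟩⟩,true,123,189,.leaf [(0,69),(1,8),(2,228),(4,1)],.leaf [(0,69),(1,8),(2,228),(4,1)]⟩,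
⟨⟨⟨-33,-236,-36⟩,⟨204,-9,-128⟩,⟨124,-48,201⟩⟩,true,124,23,.leaf [(0,270),(1,165),(2,14),(7,1)],.leaf [(0,270),(1,165),(2,14),(7,1)]⟩,
⟨⟨⟨-33,-236,36⟩,⟨-204,9,-128⟩,⟨124,-48,-201⟩⟩,true,124,218,.leaf [(0,134),(1,237),(2,54),(5,1)],.leaf [(0,134),(1,237),(2,54),(5,1)]⟩,
⟨⟨⟨-105,-216,-20⟩,⟨-200,105,-84⟩,⟨84,-20,-225⟩⟩,true,126,92,.leaf [(0,106),(1,205),(2,90),(5,1)],.leaf [(0,106),(1,205),(2,90),(5,1)]⟩,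
⟨⟨⟨105,216,-20⟩,⟨-200,105,84⟩,⟨84,-20,225⟩⟩,true,126,149,.leaf [(1,15424),(2,33981),(4,176),(6,45)],.leaf [(1,15424),(2,33981),(4,176),(6,45)]⟩,
⟨⟨⟨-119,192,84⟩,⟨-48,-119,204⟩,⟨204,84,97⟩⟩,true,128,56,.leaf [(0,251),(1,120),(2,60),(4,1)],.leaf [(0,251),(1,120),(2,60),(4,1)]⟩,
⟨⟨⟨-119,192,-84⟩,⟨-48,-119,-204⟩,⟨-204,-84,97⟩⟩,true,128,185,.leaf [(0,58081),(4,41),(7,240),(14,30)],.leaf [(0,161),(2,120),(4,1),(10,30)]⟩,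
⟨⟨⟨159,180,-20⟩,⟨-20,-9,-240⟩,⟨-180,160,9⟩⟩,true,133,12,.leaf [(0,241),(2,4097),(4,13),(6,11)],.leaf [(0,241),(2,4097),(4,13),(6,11)]⟩,
⟨⟨⟨-159,-180,-20⟩,⟨-20,-9,240⟩,⟨-180,160,-9⟩⟩,true,133,229,.leaf [(0,4579),(1,2651),(4,11),(5,19)],.leaf [(0,4579),(1,2651),(4,11),(5,19)]⟩,
⟨⟨⟨-9,240,-20⟩,⟨160,-9,-180⟩,⟨-180,-20,-159⟩⟩,true,134,29,.leaf [(0,58081),(4,289),(5,160),(6,120)],.leaf [(0,58081),(4,289),(5,160),(6,120)]⟩,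
⟨⟨⟨9,-240,-20⟩,⟨160,-9,180⟩,⟨-180,-20,159⟩⟩,true,134,212,.leaf [(0,2538),(3,5868),(18,799),(22,1)],.leaf [(0,122669),(4,62),(5,764),(10,31089)]⟩,
⟨⟨⟨-33,124,-204⟩,⟨36,-201,-128⟩,⟨-236,-48,9⟩⟩,true,135,50,.leaf [(0,235),(1,76),(2,90),(4,1)],.leaf [(0,235),(1,76),(2,90),(4,1)]⟩,
⟨⟨⟨-33,124,204⟩,⟨-36,201,-128⟩,⟨-236,-48,-9⟩⟩,true,135,191,.leaf [(1,58081),(5,28),(7,232),(15,23)],.leaf [(1,1674),(3,282),(10,517),(14,1)]⟩,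
⟨⟨⟨-119,204,48⟩,⟨84,97,-204⟩,⟨-192,-84,-119⟩⟩,true,136,32,.R (.leaf [(0,108),(3,117),(18,20),(27,1)]) (.leaf [(0,189),(3,144),(18,32),(26,1)]) (.R (.leaf [(0,334611),(18,33480),(34,1700),(38,1)]) (.R (.leaf [(18,1998),(31,3),(34,98),(43,1)]) (.leaf [(18,7911),(31,12),(34,398),(42,1)]) (.leaf [(18,383913),(31,579),(34,18557),(47,1)])) (.leaf [(0,43740),(18,9060),(31,7),(35,29)])),.leaf [(0,90),(3,191),(7,1),(10,30)]⟩,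
⟨⟨⟨-119,204,-48⟩,⟨84,97,204⟩,⟨192,84,-119⟩⟩,true,136,209,.leaf [(0,29),(2,78),(3,252),(4,1)],.leaf [(0,29),(2,78),(3,252),(4,1)]⟩,
⟨⟨⟨-9,204,-128⟩,⟨-236,-33,-36⟩,⟨-48,124,201⟩⟩,true,138,41,.leaf [(0,51),(1,92),(2,186),(4,1)],.leaf [(0,51),(1,92),(2,186),(4,1)]⟩,
⟨⟨⟨9,-204,-128⟩,⟨-236,-33,36⟩,⟨-48,124,-201⟩⟩,true,138,200,.leaf [(1,46754),(2,2169),(4,229),(5,126)],.leaf [(1,46754),(2,2169),(4,229),(5,126)]⟩,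
⟨⟨⟨97,84,204⟩,⟨204,-119,-48⟩,⟨84,192,-119⟩⟩,true,140,99,.leaf [(0,65311),(2,27474),(4,323),(5,252)],.leaf [(0,65311),(2,27474),(4,323),(5,252)]⟩,
⟨⟨⟨97,84,-204⟩,⟨204,-119,48⟩,⟨-84,-192,-119⟩⟩,true,140,142,.leaf [(0,203),(1,174),(3,78),(4,1)],.leaf [(0,203),(1,174),(3,78),(4,1)]⟩,
⟨⟨⟨183,16,-156⟩,⟨-96,201,-92⟩,⟨124,132,159⟩⟩,true,141,11,.leaf [(3,26510),(4,529),(5,210),(18,14701)],.leaf [(1,103),(3,46),(5,1),(10,116)]⟩,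
⟨⟨⟨183,16,156⟩,⟨96,-201,-92⟩,⟨124,132,-159⟩⟩,true,141,230,.leaf [(0,20003),(1,18316),(4,43),(5,92)],.leaf [(0,20003),(1,18316),(4,43),(5,92)]⟩,
⟨⟨⟨97,-204,-84⟩,⟨-84,-119,192⟩,⟨-204,-48,-119⟩⟩,true,142,101,.leaf [(1,24341),(3,21690),(4,156),(5,85)],.leaf [(1,24341),(3,21690),(4,156),(5,85)]⟩,
⟨⟨⟨97,-204,84⟩,⟨-84,-119,-192⟩,⟨204,48,-119⟩⟩,true,142,140,.leaf [(0,174),(1,203),(2,78),(5,1)],.leaf [(0,174),(1,203),(2,78),(5,1)]⟩,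
⟨⟨⟨-201,16,-132⟩,⟨-96,-183,124⟩,⟨-92,156,159⟩⟩,true,145,69,.leaf [(0,199),(1,175),(3,81),(4,1)],.leaf [(0,199),(1,175),(3,81),(4,1)]⟩,
⟨⟨⟨-201,16,132⟩,⟨96,183,124⟩,⟨-92,156,-159⟩⟩,true,145,172,.leaf [(0,140),(1,270),(3,21),(5,1)],.leaf [(0,140),(1,270),(3,21),(5,1)]⟩,
⟨⟨⟨-201,96,-92⟩,⟨16,183,156⟩,⟨132,124,-159⟩⟩,true,147,70,.leaf [(1,58081),(4,161),(5,291),(6,21)],.leaf [(1,58081),(4,161),(5,291),(6,21)]⟩,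
⟨⟨⟨201,-96,-92⟩,⟨16,183,-156⟩,⟨132,124,159⟩⟩,true,147,171,.leaf [(2,2410),(3,723),(5,7),(6,10)],.leaf [(2,2410),(3,723),(5,7),(6,10)]⟩,
⟨⟨⟨105,-20,-216⟩,⟨-84,-225,-20⟩,⟨-200,84,-105⟩⟩,true,149,115,.leaf [(0,106),(1,196),(2,99),(4,1)],.leaf [(0,106),(1,196),(2,99),(4,1)]⟩,
⟨⟨⟨105,-20,216⟩,⟨84,225,-20⟩,⟨-200,84,105⟩⟩,true,149,126,.leaf [(0,15424),(3,33981),(5,176),(7,45)],.leaf [(0,15424),(3,33981),(5,176),(7,45)]⟩,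
⟨⟨⟨223,84,-36⟩,⟨-84,151,-168⟩,⟨-36,168,169⟩⟩,true,156,2,.leaf [(2,210),(7,3),(11,199),(18,50)],.leaf [(2,105317),(5,3),(7,481),(10,16147)]⟩,
⟨⟨⟨223,84,36⟩,⟨-84,151,168⟩,⟨36,-168,169⟩⟩,true,156,239,.leaf [(4,6372),(6,2283),(15,1912),(18,58081)],.leaf [(1,6777),(3,2472),(10,2368),(23,1)]⟩,
⟨⟨⟨-47,-96,-216⟩,⟨96,-209,72⟩,⟨-216,-72,79⟩⟩,true,161,61,.leaf [(1,16),(2,113),(3,272),(4,1)],.leaf [(1,16),(2,113),(3,272),(4,1)]⟩,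
⟨⟨⟨-47,-96,216⟩,⟨96,-209,-72⟩,⟨216,72,79⟩⟩,true,161,180,.leaf [(0,21),(1,137),(2,147),(5,1)],.leaf [(0,21),(1,137),(2,147),(5,1)]⟩,
⟨⟨⟨79,-216,-72⟩,⟨-216,-47,-96⟩,⟨72,96,-209⟩⟩,true,162,54,.leaf [(0,228),(1,137),(2,84),(5,1)],.leaf [(0,228),(1,137),(2,84),(5,1)]⟩,
⟨⟨⟨79,-216,72⟩,⟨-216,-47,96⟩,⟨-72,-96,-209⟩⟩,true,162,187,.leaf [(1,5),(2,120),(3,276),(5,1)],.leaf [(1,5),(2,120),(3,276),(5,1)]⟩,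
⟨⟨⟨169,-168,36⟩,⟨168,151,-84⟩,⟨36,84,223⟩⟩,true,163,120,.leaf [(5,729),(6,564),(11,116162),(15,317)],.leaf [(0,583),(2,238),(5,4),(10,187)]⟩,
⟨⟨⟨169,-168,-36⟩,⟨168,151,84⟩,⟨-36,-84,223⟩⟩,true,163,121,.leaf [(0,6831),(3,7299),(18,1531),(23,1)],.leaf [(3,71577),(5,621),(10,52538),(14,22)]⟩,
⟨⟨⟨-9,-48,-236⟩,⟨-128,201,-36⟩,⟨204,124,-33⟩⟩,true,166,53,.leaf [(2,58081),(4,99),(5,328),(6,172)],.leaf [(2,58081),(4,99),(5,328),(6,172)]⟩,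
⟨⟨⟨9,48,-236⟩,⟨-128,201,36⟩,⟨204,124,33⟩⟩,true,166,188,.leaf [(1,58081),(4,290),(5,171),(6,126)],.leaf [(1,58081),(4,290),(5,171),(6,126)]⟩,
⟨⟨⟨201,-92,96⟩,⟨-132,-159,124⟩,⟨16,-156,-183⟩⟩,true,171,94,.leaf [(1,38801),(2,5784),(4,200),(5,119)],.leaf [(1,38801),(2,5784),(4,200),(5,119)]⟩,
⟨⟨⟨201,-92,-96⟩,⟨132,159,124⟩,⟨16,-156,183⟩⟩,true,171,147,.leaf [(2,723),(3,2410),(4,7),(7,10)],.leaf [(2,723),(3,2410),(4,7),(7,10)]⟩,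
⟨⟨⟨201,-132,16⟩,⟨-92,-159,-156⟩,⟨96,124,-183⟩⟩,true,172,96,.leaf [(0,10604),(1,7471),(4,4),(5,41)],.leaf [(0,10604),(1,7471),(4,4),(5,41)]⟩,
⟨⟨⟨-201,132,16⟩,⟨-92,-159,156⟩,⟨96,124,183⟩⟩,true,172,145,.leaf [(0,270),(1,140),(2,21),(4,1)],.leaf [(0,270),(1,140),(2,21),(4,1)]⟩,
⟨⟨⟨-209,-120,0⟩,⟨120,-209,0⟩,⟨0,0,241⟩⟩,true,177,0,.leaf [(0,58081),(4,209),(6,120)],.leaf [(0,58081),(4,209),(6,120)]⟩,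
⟨⟨⟨-47,216,96⟩,⟨216,79,-72⟩,⟨-96,72,-209⟩⟩,true,180,80,.leaf [(3,58081),(4,144),(5,249),(7,56)],.leaf [(3,58081),(4,144),(5,249),(7,56)]⟩,
⟨⟨⟨-47,216,-96⟩,⟨216,79,72⟩,⟨96,-72,-209⟩⟩,true,180,161,.leaf [(0,137),(1,21),(3,147),(4,1)],.leaf [(0,137),(1,21),(3,147),(4,1)]⟩,
⟨⟨⟨225,-20,84⟩,⟨84,105,-200⟩,⟨-20,216,105⟩⟩,true,182,55,.leaf [(0,232324),(5,983),(7,18),(15,21)],.leaf [(0,457),(3,18),(5,2),(10,15)]⟩,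
⟨⟨⟨225,-20,-84⟩,⟨-84,-105,-200⟩,⟨-20,216,-105⟩⟩,true,182,186,.leaf [(0,4097),(1,241),(4,1),(5,17)],.leaf [(0,4097),(1,241),(4,1),(5,17)]⟩,
⟨⟨⟨-209,72,96⟩,⟨-72,79,-216⟩,⟨-96,-216,-47⟩⟩,true,183,3,.leaf [(5,6183),(7,1857),(14,2051),(18,58081)],.leaf [(1,486),(3,633),(10,28),(15,1)]⟩,
⟨⟨⟨-209,72,-96⟩,⟨-72,79,216⟩,⟨96,216,-47⟩⟩,true,183,238,.leaf [(1,13496),(3,31089),(4,144),(5,7)],.leaf [(1,13496),(3,31089),(4,144),(5,7)]⟩,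
⟨⟨⟨-119,-84,-192⟩,⟨-204,97,84⟩,⟨48,204,-119⟩⟩,true,185,113,.leaf [(1,60491),(3,5784),(4,288),(5,181)],.leaf [(1,60491),(3,5784),(4,288),(5,181)]⟩,
⟨⟨⟨-119,-84,192⟩,⟨-204,97,-84⟩,⟨-48,-204,-119⟩⟩,true,185,128,.leaf [(1,58081),(5,41),(6,240),(15,30)],.R (.leaf [(10,1998),(23,3),(26,98),(35,1)]) (.leaf [(10,7911),(23,12),(26,398),(34,1)]) (.leaf [(10,383913),(23,579),(26,18557),(39,1)])⟩,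
⟨⟨⟨-225,84,-20⟩,⟨-20,-105,-216⟩,⟨-84,-200,105⟩⟩,true,186,59,.leaf [(3,58081),(4,57),(6,209),(15,21)],.leaf [(0,136),(3,16),(4,1),(10,53)]⟩,
⟨⟨⟨225,-84,-20⟩,⟨-20,-105,216⟩,⟨-84,-200,-105⟩⟩,true,186,182,.leaf [(0,6),(1,236),(2,15),(4,1)],.leaf [(0,6),(1,236),(2,15),(4,1)]⟩,
⟨⟨⟨79,72,216⟩,⟨-72,-209,96⟩,⟨216,-96,-47⟩⟩,true,187,79,.leaf [(2,58081),(4,276),(5,120),(6,5)],.leaf [(2,58081),(4,276),(5,120),(6,5)]⟩,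
⟨⟨⟨79,72,-216⟩,⟨-72,-209,-96⟩,⟨-216,96,-47⟩⟩,true,187,162,.leaf [(0,5),(2,276),(3,120),(4,1)],.leaf [(0,5),(2,276),(3,120),(4,1)]⟩,
⟨⟨⟨9,-236,-48⟩,⟨-204,-33,124⟩,⟨-128,36,-201⟩⟩,true,188,75,.leaf [(2,26992),(3,33499),(4,64),(5,147)],.leaf [(2,26992),(3,33499),(4,64),(5,147)]⟩,
⟨⟨⟨9,-236,48⟩,⟨204,33,124⟩,⟨-128,36,201⟩⟩,true,188,166,.leaf [(0,58081),(4,171),(5,290),(7,126)],.leaf [(0,58081),(4,171),(5,290),(7,126)]⟩,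
⟨⟨⟨183,124,-96⟩,⟨-156,159,-92⟩,⟨16,132,201⟩⟩,true,189,118,.leaf [(1,174243),(4,992),(7,355),(15,200)],.leaf [(14,1953),(23,828),(26,58081),(31,28)]⟩,
⟨⟨⟨183,124,96⟩,⟨156,-159,-92⟩,⟨16,132,-201⟩⟩,true,189,123,.leaf [(0,54466),(2,31089),(4,297),(5,188)],.leaf [(0,54466),(2,31089),(4,297),(5,188)]⟩,
⟨⟨⟨159,-156,-92⟩,⟨124,183,-96⟩,⟨132,16,201⟩⟩,true,190,7,.leaf [(2,58081),(5,174),(6,203),(15,26)],.leaf [(1,39765),(5,7),(6,125),(10,4579)]⟩,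
⟨⟨⟨-159,156,-92⟩,⟨124,183,96⟩,⟨132,16,-201⟩⟩,true,190,234,.leaf [(3,58081),(4,270),(5,69),(6,50)],.leaf [(3,58081),(4,270),(5,69),(6,50)]⟩,
⟨⟨⟨33,-204,124⟩,⟨-236,-9,48⟩,⟨-36,-128,-201⟩⟩,true,191,106,.leaf [(1,90),(2,76),(3,235),(5,1)],.leaf [(1,90),(2,76),(3,235),(5,1)]⟩,
⟨⟨⟨-33,204,124⟩,⟨-236,-9,-48⟩,⟨-36,-128,201⟩⟩,true,191,135,.leaf [(0,58081),(4,28),(6,232),(14,23)],.leaf [(0,42898),(4,37),(6,208),(10,5543)]⟩,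
⟨⟨⟨105,-84,-200⟩,⟨-20,-225,84⟩,⟨-216,-20,-105⟩⟩,true,192,44,.leaf [(0,141),(1,275),(3,9),(4,1)],.leaf [(0,141),(1,275),(3,9),(4,1)]⟩,
⟨⟨⟨-105,84,-200⟩,⟨-20,-225,-84⟩,⟨-216,-20,105⟩⟩,true,192,197,.leaf [(0,255),(1,116),(2,54),(4,1)],.leaf [(0,255),(1,116),(2,54),(4,1)]⟩,
⟨⟨⟨201,-48,124⟩,⟨-128,-9,204⟩,⟨-36,-236,-33⟩⟩,true,194,21,.leaf [(1,116162),(4,793),(5,510),(14,129)],.leaf [(1,5481),(3,1275),(10,1615),(22,1)]⟩,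
⟨⟨⟨-201,48,124⟩,⟨-128,-9,-204⟩,⟨-36,-236,33⟩⟩,true,194,220,.leaf [(3,58081),(5,171),(6,290),(14,42)],.leaf [(3,47236),(6,170),(10,8917),(22,1)]⟩,
⟨⟨⟨201,-128,-36⟩,⟨-48,-9,-236⟩,⟨124,204,-33⟩⟩,true,196,25,.leaf [(0,197),(2,123),(5,1),(11,3)],.leaf [(0,815),(2,510),(5,4),(10,3)]⟩,
⟨⟨⟨201,-128,36⟩,⟨48,9,-236⟩,⟨124,204,33⟩⟩,true,196,216,.leaf [(0,206),(1,3),(2,126),(5,1)],.leaf [(0,206),(1,3),(2,126),(5,1)]⟩,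
⟨⟨⟨-105,-200,-84⟩,⟨216,-105,-20⟩,⟨-20,-84,225⟩⟩,true,197,49,.leaf [(0,2169),(3,3856),(4,25),(7,16)],.leaf [(0,2169),(3,3856),(4,25),(7,16)]⟩,
⟨⟨⟨-105,-200,84⟩,⟨-216,105,-20⟩,⟨-20,-84,-225⟩⟩,true,197,192,.leaf [(0,116),(1,255),(3,54),(5,1)],.leaf [(0,116),(1,255),(3,54),(5,1)]⟩,
⟨⟨⟨9,-128,204⟩,⟨48,201,124⟩,⟨-236,36,33⟩⟩,true,200,103,.leaf [(0,164),(1,45),(3,126),(5,1)],.leaf [(0,164),(1,45),(3,126),(5,1)]⟩,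
⟨⟨⟨9,-128,-204⟩,⟨-48,-201,124⟩,⟨-236,36,-33⟩⟩,true,200,138,.leaf [(0,73),(1,229),(3,99),(4,1)],.leaf [(0,73),(1,229),(3,99),(4,1)]⟩,
⟨⟨⟨169,-156,-72⟩,⟨156,97,156⟩,⟨-72,-156,169⟩⟩,true,203,1,.leaf [(3,232324),(4,333),(6,818),(14,97)],.leaf [(0,27),(3,532),(6,2),(10,91)]⟩,
⟨⟨⟨169,-156,72⟩,⟨156,97,-156⟩,⟨72,156,169⟩⟩,true,203,240,.leaf [(0,1594),(2,139),(5,4),(18,97)],.leaf [(0,721),(2,430),(5,4),(10,97)]⟩,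
⟨⟨⟨151,168,-84⟩,⟨-168,169,36⟩,⟨84,36,223⟩⟩,true,207,17,.leaf [(1,160),(2,49),(4,1),(18,10)],.leaf [(1,201),(2,119),(7,1),(10,85)]⟩,
⟨⟨⟨151,168,84⟩,⟨-168,169,-36⟩,⟨-84,-36,223⟩⟩,true,207,224,.leaf [(0,130),(1,772),(2,13),(14,1)],.leaf [(0,11),(1,398),(7,2),(10,253)]⟩,
⟨⟨⟨-119,-48,-204⟩,⟨192,-119,-84⟩,⟨-84,-204,97⟩⟩,true,209,105,.R (.leaf [(3,6885),(15,12),(18,1496),(27,13)]) (.leaf [(3,11259),(15,21),(18,2579),(26,13)]) (.R (.leaf [(15,1593),(18,139539),(31,77),(34,241)]) (.leaf [(15,7911),(18,696972),(31,398),(39,1)]) (.leaf [(15,6615),(18,584184),(31,332),(35,241)])),.leaf [(0,41),(3,240),(4,1),(10,30)]⟩,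
⟨⟨⟨-119,-48,204⟩,⟨192,-119,84⟩,⟨84,204,97⟩⟩,true,209,136,.leaf [(2,65311),(3,23377),(4,29),(5,251)],.leaf [(2,65311),(3,23377),(4,29),(5,251)]⟩,
⟨⟨⟨159,132,124⟩,⟨-92,201,-96⟩,⟨-156,16,183⟩⟩,true,210,22,.leaf [(0,63),(2,158),(6,1),(11,28)],.leaf [(0,126),(2,200),(6,1),(10,7)]⟩,
⟨⟨⟨-159,-132,124⟩,⟨-92,201,96⟩,⟨-156,16,-183⟩⟩,true,210,219,.leaf [(0,148),(1,229),(3,78),(5,1)],.leaf [(0,148),(1,229),(3,78),(5,1)]⟩,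
⟨⟨⟨9,-20,240⟩,⟨180,-159,-20⟩,⟨160,180,9⟩⟩,true,212,107,.leaf [(2,69649),(3,42175),(4,91),(5,285)],.leaf [(2,69649),(3,42175),(4,91),(5,285)]⟩,
⟨⟨⟨9,-20,-240⟩,⟨-180,159,-20⟩,⟨160,180,-9⟩⟩,true,212,134,.leaf [(2,128694),(4,111),(14,208),(18,5543)],.leaf [(1,133),(2,109),(5,1),(10,91)]⟩,
⟨⟨⟨-201,-36,-128⟩,⟨124,33,-204⟩,⟨48,-236,-9⟩⟩,true,216,45,.leaf [(1,120),(3,200),(6,1),(10,3)],.leaf [(1,53502),(3,82663),(6,404),(15,3)]⟩,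
⟨⟨⟨201,36,-128⟩,⟨124,33,204⟩,⟨48,-236,9⟩⟩,true,216,196,.leaf [(0,3),(1,206),(3,126),(4,1)],.leaf [(0,3),(1,206),(3,126),(4,1)]⟩,
⟨⟨⟨33,-36,-236⟩,⟨124,-201,48⟩,⟨-204,-128,-9⟩⟩,true,218,117,.leaf [(1,14),(2,165),(3,270),(4,1)],.leaf [(1,14),(2,165),(3,270),(4,1)]⟩,
⟨⟨⟨-33,36,-236⟩,⟨124,-201,-48⟩,⟨-204,-128,9⟩⟩,true,218,124,.leaf [(0,237),(1,134),(3,54),(4,1)],.leaf [(0,237),(1,134),(3,54),(4,1)]⟩,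
⟨⟨⟨-159,124,132⟩,⟨156,183,16⟩,⟨-92,96,-201⟩⟩,true,219,31,.leaf [(1,130),(3,91),(5,1),(10,28)],.leaf [(1,3374),(3,4097),(5,11),(14,4)]⟩,
⟨⟨⟨-159,124,-132⟩,⟨-156,-183,16⟩,⟨-92,96,201⟩⟩,true,219,210,.leaf [(0,229),(1,148),(2,78),(4,1)],.leaf [(0,229),(1,148),(2,78),(4,1)]⟩,
⟨⟨⟨-201,124,-48⟩,⟨36,-33,-236⟩,⟨-128,-204,9⟩⟩,true,220,47,.leaf [(2,122669),(4,62),(7,764),(18,10363)],.leaf [(0,50610),(4,409),(7,80),(10,20003)]⟩,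
⟨⟨⟨-201,124,48⟩,⟨-36,33,-236⟩,⟨-128,-204,-9⟩⟩,true,220,194,.leaf [(2,58081),(4,171),(7,290),(15,42)],.leaf [(1,29643),(4,25),(7,77),(10,8435)]⟩,
⟨⟨⟨-9,180,160⟩,⟨-20,159,-180⟩,⟨-240,-20,9⟩⟩,true,221,9,.leaf [(0,2892),(3,5543),(5,33),(6,28)],.leaf [(0,2892),(3,5543),(5,33),(6,28)]⟩,
⟨⟨⟨9,-180,160⟩,⟨-20,159,180⟩,⟨-240,-20,-9⟩⟩,true,221,232,.leaf [(0,160),(1,40),(3,129),(5,1)],.leaf [(0,160),(1,40),(3,129),(5,1)]⟩,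
⟨⟨⟨97,-156,156⟩,⟨156,169,72⟩,⟨-156,72,169⟩⟩,true,222,19,.leaf [(3,58081),(5,63),(6,209),(14,19)],.leaf [(0,437),(3,50),(5,2),(10,19)]⟩,
⟨⟨⟨97,-156,-156⟩,⟨156,169,-72⟩,⟨156,-72,169⟩⟩,true,222,222,.leaf [(3,23859),(7,333),(18,8917),(22,11)],.leaf [(1,7953),(5,111),(10,8917),(14,11)]⟩,
⟨⟨⟨151,84,-168⟩,⟨-84,223,36⟩,⟨168,36,169⟩⟩,true,224,34,.leaf [(1,39),(2,170),(7,1),(18,10)],.leaf [(1,399),(2,20),(7,1),(10,100)]⟩,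
⟨⟨⟨151,84,168⟩,⟨-84,223,-36⟩,⟨-168,-36,169⟩⟩,true,224,207,.leaf [(0,772),(1,130),(3,13),(15,1)],.leaf [(7,513),(10,58081),(14,95),(23,17)]⟩,
⟨⟨⟨-15,240,16⟩,⟨16,-15,240⟩,⟨240,16,-15⟩⟩,true,225,15,.leaf [(0,255),(1,224),(4,1)],.leaf [(0,255),(1,224),(4,1)]⟩,
⟨⟨⟨15,-240,16⟩,⟨16,-15,-240⟩,⟨240,16,15⟩⟩,true,225,226,.leaf [(0,16),(1,1),(2,240),(5,1)],.leaf [(0,16),(1,1),(2,240),(5,1)]⟩,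
⟨⟨⟨15,16,240⟩,⟨-240,-15,16⟩,⟨16,-240,15⟩⟩,true,226,16,.leaf [(2,58081),(4,255),(7,224)],.leaf [(2,58081),(4,255),(7,224)]⟩,
⟨⟨⟨15,16,-240⟩,⟨240,15,16⟩,⟨16,-240,-15⟩⟩,true,226,225,.leaf [(0,1),(1,16),(3,240),(4,1)],.leaf [(0,1),(1,16),(3,240),(4,1)]⟩,
⟨⟨⟨-159,-20,180⟩,⟨180,9,160⟩,⟨-20,240,9⟩⟩,true,229,108,.leaf [(1,25),(2,260),(3,146),(5,1)],.leaf [(1,25),(2,260),(3,146),(5,1)]⟩,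
⟨⟨⟨-159,-20,-180⟩,⟨-180,-9,160⟩,⟨-20,240,-9⟩⟩,true,229,133,.leaf [(1,46754),(3,39765),(4,260),(5,11)],.leaf [(1,46754),(3,39765),(4,260),(5,11)]⟩,
⟨⟨⟨-183,-156,16⟩,⟨124,-159,-132⟩,⟨96,-92,201⟩⟩,true,230,100,.leaf [(5,9),(10,105317),(15,481),(18,16147)],.leaf [(4,837),(5,720),(10,58081),(14,26)]⟩,
⟨⟨⟨183,156,16⟩,⟨124,-159,132⟩,⟨96,-92,-201⟩⟩,true,230,141,.leaf [(0,70),(2,245),(3,116),(4,1)],.leaf [(0,70),(2,245),(3,116),(4,1)]⟩,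
⟨⟨⟨9,160,180⟩,⟨240,9,-20⟩,⟨-20,180,-159⟩⟩,true,232,20,.leaf [(0,5543),(3,2892),(4,33),(5,28)],.leaf [(0,5543),(3,2892),(4,33),(5,28)]⟩,
⟨⟨⟨9,160,-180⟩,⟨-240,-9,-20⟩,⟨-20,180,159⟩⟩,true,232,221,.leaf [(0,40),(1,160),(2,129),(4,1)],.leaf [(0,40),(1,160),(2,129),(4,1)]⟩,
⟨⟨⟨-159,-92,-156⟩,⟨-132,201,16⟩,⟨124,96,-183⟩⟩,true,234,51,.leaf [(1,203),(2,1025),(5,5),(18,17)],.leaf [(1,163),(2,154),(5,1),(10,34)]⟩,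
⟨⟨⟨-159,-92,156⟩,⟨132,-201,16⟩,⟨124,96,183⟩⟩,true,234,190,.leaf [(2,58081),(4,69),(5,270),(7,50)],.leaf [(2,58081),(4,69),(5,270),(7,50)]⟩,
⟨⟨⟨-209,-96,-72⟩,⟨96,-47,-216⟩,⟨72,-216,79⟩⟩,true,238,58,.leaf [(0,618),(2,197),(3,172),(14,1)],.leaf [(2,1687),(4,57),(6,92),(10,8676)]⟩,
⟨⟨⟨-209,-96,72⟩,⟨96,-47,216⟩,⟨-72,216,79⟩⟩,true,238,183,.leaf [(0,22172),(1,10363),(4,76),(5,83)],.leaf [(0,22172),(1,10363),(4,76),(5,83)]⟩,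
⟨⟨⟨223,36,-84⟩,⟨36,169,168⟩,⟨84,-168,151⟩⟩,true,239,85,.leaf [(4,6777),(6,2472),(15,2368),(18,58081)],.leaf [(1,918),(3,2406),(10,1121),(22,1)]⟩,
⟨⟨⟨223,36,84⟩,⟨36,169,-168⟩,⟨-84,168,151⟩⟩,true,239,156,.leaf [(5,918),(7,2406),(14,1121),(18,58081)],.leaf [(0,18557),(5,98),(7,50),(10,4579)]⟩,
⟨⟨⟨169,72,156⟩,⟨72,169,-156⟩,⟨-156,156,97⟩⟩,true,240,38,.leaf [(0,8208),(3,5409),(18,1504),(23,1)],.leaf [(0,527),(5,2),(7,2),(10,97)]⟩,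
⟨⟨⟨169,72,-156⟩,⟨72,169,156⟩,⟨156,-156,97⟩⟩,true,240,203,.leaf [(1,683),(3,1265),(4,5),(18,97)],.leaf [(1,1404),(3,1404),(10,527),(14,1)]⟩]

theorem primeOk_241 : PrimeOk 241 := primeOk (by norm_num) (by norm_num) (by norm_num) L241
  (by decide +kernel) (by decide +kernel)

end Pool.Agent.Lib.H63.TSP
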