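import Mathlib
import Pool.Agent.Lib.H63.TSPPrime

/-!
# Generated certificates for the primes 11, 23, 113, 197, 239
-/

set_option autoImplicit false

namespace Pool.Agent.Lib.H63.TSP

def L11 : List Cls := [
⟨⟨⟨9,-2,-6⟩,⟨-2,9,-6⟩,⟨6,6,7⟩⟩,true,1,3,.leaf [(1,6),(2,7),(3,6),(6,1)],.leaf [(1,6),(2,7),(3,6),(6,1)]⟩,
⟨⟨⟨9,-2,6⟩,⟨-2,9,6⟩,⟨-6,-6,7⟩⟩,true,1,8,.L (.leaf [(0,7),(1,6),(3,6),(4,1)]) (.leaf [(0,63),(1,24),(11,8),(14,1)]) (.leaf [(1,1863),(7,63),(19,196),(26,8)]),.leaf [(2,11),(5,4),(6,7),(10,22)]⟩,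
⟨⟨⟨9,-6,-2⟩,⟨6,7,6⟩,⟨-2,-6,9⟩⟩,true,3,1,.leaf [(0,6),(2,6),(3,7),(7,1)],.leaf [(0,6),(2,6),(3,7),(7,1)]⟩,
⟨⟨⟨-9,6,-2⟩,⟨6,7,-6⟩,⟨-2,-6,-9⟩⟩,true,3,10,.leaf [(3,22),(4,4),(5,3),(15,1)],.R (.leaf [(4,243),(10,585),(26,76),(35,8)]) (.leaf [(4,243),(10,423),(26,88),(34,2)]) (.leaf [(4,5589),(10,7623),(26,2156),(39,8)])⟩,
⟨⟨⟨7,6,6⟩,⟨-6,9,-2⟩,⟨-6,-2,9⟩⟩,true,4,4,.leaf [(4,243),(15,90),(18,605),(23,2)],.leaf [(1,297),(7,63),(10,308),(15,2)]⟩,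
⟨⟨⟨7,6,-6⟩,⟨6,-9,-2⟩,⟨-6,-2,-9⟩⟩,true,4,7,.leaf [(0,9),(1,4),(2,6),(4,1)],.leaf [(0,9),(1,4),(2,6),(4,1)]⟩,
⟨⟨⟨7,-6,6⟩,⟨-6,-9,-2⟩,⟨6,-2,-9⟩⟩,true,7,4,.leaf [(0,11),(1,22),(4,1),(5,2)],.leaf [(0,11),(1,22),(4,1),(5,2)]⟩,
⟨⟨⟨7,-6,-6⟩,⟨6,9,-2⟩,⟨6,-2,9⟩⟩,true,7,7,.leaf [(3,594),(7,135),(18,220),(23,1)],.leaf [(1,198),(5,45),(10,220),(15,1)]⟩,
⟨⟨⟨9,6,-2⟩,⟨-6,7,-6⟩,⟨-2,6,9⟩⟩,true,8,1,.leaf [(1,264),(4,125),(7,40),(18,121)],.leaf [(10,594),(23,36),(26,121),(30,1)]⟩,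
⟨⟨⟨-9,-6,-2⟩,⟨-6,7,6⟩,⟨-2,6,-9⟩⟩,true,8,10,.leaf [(0,6),(1,7),(2,6),(5,1)],.leaf [(0,6),(1,7),(2,6),(5,1)]⟩,
⟨⟨⟨-9,-2,6⟩,⟨-2,-9,-6⟩,⟨6,-6,7⟩⟩,true,10,3,.leaf [(2,22),(4,3),(5,4),(14,1)],.leaf [(0,4),(4,1),(10,3)]⟩,
⟨⟨⟨-9,-2,-6⟩,⟨-2,-9,6⟩,⟨-6,6,7⟩⟩,true,10,8,.leaf [(0,7),(1,6),(3,6),(4,1)],.leaf [(0,7),(1,6),(3,6),(4,1)]⟩]

theorem primeOk_11 : PrimeOk 11 := primeOk (by norm_num) (by norm_num) (by norm_num) L11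
  (by decide +kernel) (by decide +kernel)

def L23 : List Cls := [
⟨⟨⟨-3,-6,22⟩,⟨18,13,6⟩,⟨-14,18,3⟩⟩,true,2,8,.leaf [(0,24),(1,16),(3,3),(5,1)],.leaf [(0,24),(1,16),(3,3),(5,1)]⟩,
⟨⟨⟨3,6,22⟩,⟨18,13,-6⟩,⟨-14,18,-3⟩⟩,true,2,15,.leaf [(0,2),(2,10),(3,25),(5,1)],.leaf [(0,2),(2,10),(3,25),(5,1)]⟩,
⟨⟨⟨3,-14,18⟩,⟨22,-3,-6⟩,⟨6,18,13⟩⟩,true,3,6,.leaf [(0,17),(1,5),(2,15),(5,1)],.leaf [(0,17),(1,5),(2,15),(5,1)]⟩,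
⟨⟨⟨3,-14,-18⟩,⟨22,-3,6⟩,⟨-6,-18,13⟩⟩,true,3,17,.leaf [(4,54),(6,45),(10,529),(14,10)],.leaf [(1,1587),(4,132),(15,47),(23,2)]⟩,
⟨⟨⟨13,6,-18⟩,⟨-18,-3,-14⟩,⟨-6,22,3⟩⟩,true,4,11,.leaf [(2,529),(4,21),(5,9),(7,7)],.leaf [(2,529),(4,21),(5,9),(7,7)]⟩,
⟨⟨⟨13,6,18⟩,⟨18,3,-14⟩,⟨-6,22,-3⟩⟩,true,4,12,.leaf [(0,7),(2,9),(3,21),(5,1)],.leaf [(0,7),(2,9),(3,21),(5,1)]⟩,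
⟨⟨⟨3,18,-14⟩,⟨6,13,18⟩,⟨22,-6,-3⟩⟩,true,6,3,.leaf [(0,5),(1,17),(3,15),(4,1)],.leaf [(0,5),(1,17),(3,15),(4,1)]⟩,
⟨⟨⟨-3,-18,-14⟩,⟨6,13,-18⟩,⟨22,-6,3⟩⟩,true,6,20,.leaf [(5,27),(7,63),(11,529),(15,7)],.leaf [(0,75),(2,10),(7,4),(10,11)]⟩,
⟨⟨⟨-3,22,-6⟩,⟨-14,3,18⟩,⟨18,6,13⟩⟩,true,8,2,.leaf [(0,16),(1,24),(2,3),(4,1)],.leaf [(0,16),(1,24),(2,3),(4,1)]⟩,
⟨⟨⟨-3,22,6⟩,⟨-14,3,-18⟩,⟨-18,-6,13⟩⟩,true,8,21,.leaf [(0,46),(2,23),(4,1),(6,2)],.leaf [(0,46),(2,23),(4,1),(6,2)]⟩,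
⟨⟨⟨13,-18,6⟩,⟨-6,3,22⟩,⟨-18,-14,-3⟩⟩,true,11,4,.leaf [(3,529),(4,9),(5,21),(6,7)],.leaf [(3,529),(4,9),(5,21),(6,7)]⟩,
⟨⟨⟨13,-18,-6⟩,⟨6,-3,22⟩,⟨-18,-14,3⟩⟩,true,11,19,.leaf [(3,529),(4,18),(5,15),(6,10)],.leaf [(3,529),(4,18),(5,15),(6,10)]⟩,
⟨⟨⟨13,18,6⟩,⟨-6,-3,22⟩,⟨18,-14,3⟩⟩,true,12,4,.leaf [(1,7),(2,21),(3,9),(4,1)],.leaf [(1,7),(2,21),(3,9),(4,1)]⟩,
⟨⟨⟨13,18,-6⟩,⟨6,3,22⟩,⟨18,-14,-3⟩⟩,true,12,19,.leaf [(0,15),(1,25),(3,3),(4,1)],.leaf [(0,15),(1,25),(3,3),(4,1)]⟩,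
⟨⟨⟨3,22,6⟩,⟨-14,-3,18⟩,⟨18,-6,13⟩⟩,true,15,2,.leaf [(1,2),(2,25),(3,10),(4,1)],.leaf [(1,2),(2,25),(3,10),(4,1)]⟩,
⟨⟨⟨3,22,-6⟩,⟨-14,-3,-18⟩,⟨-18,6,13⟩⟩,true,15,21,.leaf [(0,23),(2,46),(4,2),(6,1)],.leaf [(0,23),(2,46),(4,2),(6,1)]⟩,
⟨⟨⟨3,-18,-14⟩,⟨-6,13,-18⟩,⟨22,6,-3⟩⟩,true,17,3,.leaf [(5,54),(7,45),(11,529),(15,10)],.leaf [(2,1219),(5,57),(7,1),(10,161)]⟩,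
⟨⟨⟨-3,18,-14⟩,⟨-6,13,18⟩,⟨22,6,3⟩⟩,true,17,20,.leaf [(0,5),(1,20),(3,12),(4,1)],.leaf [(0,5),(1,20),(3,12),(4,1)]⟩,
⟨⟨⟨13,-6,-18⟩,⟨-18,3,-14⟩,⟨6,22,-3⟩⟩,true,19,11,.leaf [(2,529),(4,15),(5,18),(7,10)],.leaf [(2,529),(4,15),(5,18),(7,10)]⟩,
⟨⟨⟨13,-6,18⟩,⟨18,-3,-14⟩,⟨6,22,3⟩⟩,true,19,12,.leaf [(0,25),(1,15),(2,3),(5,1)],.leaf [(0,25),(1,15),(2,3),(5,1)]⟩,
⟨⟨⟨-3,-14,-18⟩,⟨22,3,-6⟩,⟨6,-18,13⟩⟩,true,20,6,.leaf [(4,27),(6,63),(10,529),(14,7)],.leaf [(1,162),(3,33),(10,44),(15,1)]⟩,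
⟨⟨⟨-3,-14,18⟩,⟨22,3,6⟩,⟨-6,18,13⟩⟩,true,20,17,.leaf [(0,20),(1,5),(2,12),(5,1)],.leaf [(0,20),(1,5),(2,12),(5,1)]⟩,
⟨⟨⟨-3,6,22⟩,⟨-18,13,-6⟩,⟨-14,-18,3⟩⟩,true,21,8,.leaf [(1,46),(3,23),(5,1),(7,2)],.leaf [(1,46),(3,23),(5,1),(7,2)]⟩,
⟨⟨⟨3,-6,22⟩,⟨-18,13,6⟩,⟨-14,-18,-3⟩⟩,true,21,15,.leaf [(1,23),(3,46),(5,2),(7,1)],.leaf [(1,23),(3,46),(5,2),(7,1)]⟩]

theorem primeOk_23 : PrimeOk 23 := primeOk (by norm_num) (by norm_num) (by norm_num) L23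
  (by decide +kernel) (by decide +kernel)

def L113 : List Cls := [
⟨⟨⟨-113,0,0⟩,⟨0,15,112⟩,⟨0,112,-15⟩⟩,false,0,15,.leaf [(0,791),(1,904),(4,7),(5,8)],.leaf [(0,791),(1,904),(4,7),(5,8)]⟩,
⟨⟨⟨-113,0,0⟩,⟨0,-15,112⟩,⟨0,112,15⟩⟩,false,0,98,.leaf [(0,8),(2,7),(3,112),(4,1)],.leaf [(0,8),(2,7),(3,112),(4,1)]⟩,
⟨⟨⟨15,0,112⟩,⟨0,-113,0⟩,⟨112,0,-15⟩⟩,true,0,15,.leaf [(0,113),(1,904),(4,1),(5,8)],.leaf [(0,113),(1,904),(4,1),(5,8)]⟩,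
⟨⟨⟨-15,0,112⟩,⟨0,-113,0⟩,⟨112,0,15⟩⟩,true,0,98,.leaf [(2,12769),(4,113),(5,120),(7,8)],.leaf [(2,12769),(4,113),(5,120),(7,8)]⟩,
⟨⟨⟨81,-32,72⟩,⟨-32,81,72⟩,⟨-72,-72,49⟩⟩,true,1,26,.leaf [(0,339),(5,4),(6,2),(14,1)],.leaf [(5,201),(6,381),(10,12769),(15,5)]⟩,
⟨⟨⟨81,-32,-72⟩,⟨-32,81,-72⟩,⟨72,72,49⟩⟩,true,1,87,.leaf [(1,72),(2,49),(3,72),(6,1)],.leaf [(1,72),(2,49),(3,72),(6,1)]⟩,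
⟨⟨⟨-105,40,-12⟩,⟨40,87,-60⟩,⟨-12,-60,-95⟩⟩,true,5,55,.leaf [(2,1921),(3,2486),(5,10),(6,23)],.leaf [(2,1921),(3,2486),(5,10),(6,23)]⟩,
⟨⟨⟨-105,40,12⟩,⟨40,87,60⟩,⟨12,60,-95⟩⟩,true,5,58,.leaf [(0,113),(1,904),(4,1),(5,8)],.leaf [(0,113),(1,904),(4,1),(5,8)]⟩,
⟨⟨⟨-33,108,4⟩,⟨-84,-23,-72⟩,⟨-68,-24,87⟩⟩,true,7,17,.leaf [(2,12769),(4,117),(7,52),(14,10)],.leaf [(2,8701),(4,93),(7,28),(10,1130)]⟩,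
⟨⟨⟨33,-108,4⟩,⟨-84,-23,72⟩,⟨-68,-24,-87⟩⟩,true,7,96,.leaf [(1,7345),(3,6102),(4,84),(5,85)],.leaf [(1,7345),(3,6102),(4,84),(5,85)]⟩,
⟨⟨⟨9,-32,108⟩,⟨112,-9,-12⟩,⟨12,108,31⟩⟩,true,9,12,.leaf [(0,107),(1,77),(2,33),(5,1)],.leaf [(0,107),(1,77),(2,33),(5,1)]⟩,
⟨⟨⟨9,-32,-108⟩,⟨112,-9,12⟩,⟨-12,-108,31⟩⟩,true,9,101,.leaf [(4,27),(6,51),(10,2147),(18,113)],.leaf [(1,1215),(3,609),(10,455),(14,1)]⟩,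
⟨⟨⟨-87,60,40⟩,⟨-60,-95,12⟩,⟨40,-12,105⟩⟩,true,11,45,.leaf [(0,11865),(2,9266),(4,145),(7,28)],.leaf [(0,11865),(2,9266),(4,145),(7,28)]⟩,
⟨⟨⟨87,-60,40⟩,⟨-60,-95,-12⟩,⟨40,-12,-105⟩⟩,true,11,68,.leaf [(0,904),(1,1469),(4,8),(5,13)],.leaf [(0,904),(1,1469),(4,8),(5,13)]⟩,
⟨⟨⟨9,108,-32⟩,⟨12,31,108⟩,⟨112,-12,-9⟩⟩,true,12,9,.leaf [(0,77),(1,107),(3,33),(4,1)],.leaf [(0,77),(1,107),(3,33),(4,1)]⟩,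
⟨⟨⟨-9,-108,-32⟩,⟨12,31,-108⟩,⟨112,-12,9⟩⟩,true,12,104,.leaf [(5,162),(7,297),(11,12769),(14,4)],.leaf [(0,423),(2,34),(7,4),(10,23)]⟩,
⟨⟨⟨49,72,72⟩,⟨-72,81,-32⟩,⟨-72,-32,81⟩⟩,true,13,13,.leaf [(4,729),(15,1485),(18,63845),(23,11)],.leaf [(1,9153),(7,594),(10,24860),(15,5)]⟩,
⟨⟨⟨49,72,-72⟩,⟨72,-81,-32⟩,⟨-72,-32,-81⟩⟩,true,13,100,.leaf [(0,68),(2,85),(3,40),(4,1)],.leaf [(0,68),(2,85),(3,40),(4,1)]⟩,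
⟨⟨⟨15,112,0⟩,⟨112,-15,0⟩,⟨0,0,-113⟩⟩,true,15,0,.leaf [(0,112),(2,15),(4,1)],.leaf [(0,112),(2,15),(4,1)]⟩,
⟨⟨⟨-23,84,72⟩,⟨-108,-33,4⟩,⟨24,-68,87⟩⟩,true,16,46,.leaf [(2,12769),(4,90),(6,40),(14,11)],.leaf [(1,4),(2,99),(4,1),(10,18)]⟩,
⟨⟨⟨-23,84,-72⟩,⟨108,33,4⟩,⟨24,-68,-87⟩⟩,true,16,67,.leaf [(0,2260),(3,3503),(4,44),(7,1)],.leaf [(0,2260),(3,3503),(4,44),(7,1)]⟩,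
⟨⟨⟨-33,4,108⟩,⟨-68,87,-24⟩,⟨-84,-72,-23⟩⟩,true,17,7,.leaf [(3,12769),(5,117),(6,52),(15,10)],.leaf [(3,1243),(5,9),(6,10),(10,226)]⟩,
⟨⟨⟨-33,4,-108⟩,⟨-68,87,24⟩,⟨84,72,-23⟩⟩,true,17,106,.leaf [(1,12769),(4,137),(5,107),(6,45)],.leaf [(1,12769),(4,137),(5,107),(6,45)]⟩,
⟨⟨⟨-33,84,-68⟩,⟨-108,-23,24⟩,⟨4,72,87⟩⟩,true,18,50,.leaf [(0,62),(1,92),(2,45),(4,1)],.leaf [(0,62),(1,92),(2,45),(4,1)]⟩,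
⟨⟨⟨33,-84,-68⟩,⟨-108,-23,-24⟩,⟨4,72,-87⟩⟩,true,18,63,.leaf [(1,5989),(2,6102),(4,102),(5,79)],.leaf [(1,5989),(2,6102),(4,102),(5,79)]⟩,
⟨⟨⟨87,-68,-24⟩,⟨4,-33,108⟩,⟨-72,-84,-23⟩⟩,true,20,27,.leaf [(4,405),(5,144),(10,12769),(14,10)],.leaf [(5,36936),(10,291879),(26,151420),(30,35)]⟩,
⟨⟨⟨87,-68,24⟩,⟨4,-33,-108⟩,⟨72,84,-23⟩⟩,true,20,86,.leaf [(0,60),(2,92),(3,47),(5,1)],.leaf [(0,60),(2,92),(3,47),(5,1)]⟩,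
⟨⟨⟨9,112,12⟩,⟨-32,-9,108⟩,⟨108,-12,31⟩⟩,true,25,39,.leaf [(0,88),(1,96),(2,33),(4,1)],.leaf [(0,88),(1,96),(2,33),(4,1)]⟩,
⟨⟨⟨9,112,-12⟩,⟨-32,-9,-108⟩,⟨-108,12,31⟩⟩,true,25,74,.leaf [(0,452),(2,565),(4,5),(6,4)],.leaf [(0,452),(2,565),(4,5),(6,4)]⟩,
⟨⟨⟨81,72,-32⟩,⟨-72,49,-72⟩,⟨-32,72,81⟩⟩,true,26,1,.leaf [(1,339),(4,4),(7,2),(15,1)],.leaf [(1,20340),(4,105),(10,12769),(14,62)]⟩,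
⟨⟨⟨-81,-72,-32⟩,⟨-72,49,72⟩,⟨-32,72,-81⟩⟩,true,26,112,.leaf [(0,72),(1,49),(2,72),(5,1)],.leaf [(0,72),(1,49),(2,72),(5,1)]⟩,
⟨⟨⟨87,-24,-68⟩,⟨-72,-23,-84⟩,⟨4,108,-33⟩⟩,true,27,20,.leaf [(4,144),(5,405),(11,12769),(15,10)],.leaf [(0,395),(2,98),(5,4),(10,35)]⟩,
⟨⟨⟨-87,24,-68⟩,⟨-72,-23,84⟩,⟨4,108,33⟩⟩,true,27,93,.leaf [(0,47),(1,92),(3,60),(4,1)],.leaf [(0,47),(1,92),(3,60),(4,1)]⟩,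
⟨⟨⟨31,108,-12⟩,⟨12,9,112⟩,⟨108,-32,-9⟩⟩,true,29,47,.leaf [(0,99),(1,121),(3,3),(4,1)],.leaf [(0,99),(1,121),(3,3),(4,1)]⟩,
⟨⟨⟨31,108,12⟩,⟨-12,-9,112⟩,⟨108,-32,9⟩⟩,true,29,66,.leaf [(0,87),(1,100),(2,30),(4,1)],.leaf [(0,87),(1,100),(2,30),(4,1)]⟩,
⟨⟨⟨87,72,4⟩,⟨24,-23,-108⟩,⟨-68,84,-33⟩⟩,true,32,52,.leaf [(0,25538),(4,274),(5,349),(15,45)],.leaf [(0,25877),(4,286),(5,316),(10,5085)]⟩,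
⟨⟨⟨-87,-72,4⟩,⟨24,-23,108⟩,⟨-68,84,33⟩⟩,true,32,61,.leaf [(0,791),(3,6780),(4,73),(5,28)],.leaf [(0,791),(3,6780),(4,73),(5,28)]⟩,
⟨⟨⟨-95,-12,60⟩,⟨12,105,40⟩,⟨-60,40,-87⟩⟩,true,37,41,.leaf [(1,65),(2,52),(3,82),(5,1)],.leaf [(1,65),(2,52),(3,82),(5,1)]⟩,
⟨⟨⟨-95,-12,-60⟩,⟨-12,-105,40⟩,⟨-60,40,87⟩⟩,true,37,72,.leaf [(0,93),(1,55),(3,45),(4,1)],.leaf [(0,93),(1,55),(3,45),(4,1)]⟩,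
⟨⟨⟨9,12,112⟩,⟨108,31,-12⟩,⟨-32,108,-9⟩⟩,true,39,25,.leaf [(0,96),(1,88),(3,33),(5,1)],.leaf [(0,96),(1,88),(3,33),(5,1)]⟩,
⟨⟨⟨-9,-12,112⟩,⟨108,31,12⟩,⟨-32,108,9⟩⟩,true,39,88,.leaf [(0,120),(1,100),(3,3),(5,1)],.leaf [(0,120),(1,100),(3,3),(5,1)]⟩,
⟨⟨⟨-95,60,-12⟩,⟨-60,-87,40⟩,⟨12,40,105⟩⟩,true,41,37,.leaf [(0,65),(2,82),(3,52),(4,1)],.leaf [(0,65),(2,82),(3,52),(4,1)]⟩,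
⟨⟨⟨-95,60,12⟩,⟨60,87,40⟩,⟨12,40,-105⟩⟩,true,41,76,.leaf [(1,565),(3,113),(5,5),(7,1)],.leaf [(1,565),(3,113),(5,5),(7,1)]⟩,
⟨⟨⟨-23,-108,24⟩,⟨84,-33,-68⟩,⟨72,4,87⟩⟩,true,44,53,.leaf [(5,171),(6,249),(11,12769),(14,35)],.leaf [(0,90),(2,40),(6,1),(10,11)]⟩,
⟨⟨⟨-23,-108,-24⟩,⟨-84,33,-68⟩,⟨72,4,-87⟩⟩,true,44,60,.leaf [(0,40),(1,63),(2,72),(5,1)],.leaf [(0,40),(1,63),(2,72),(5,1)]⟩,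
⟨⟨⟨-87,40,60⟩,⟨40,105,-12⟩,⟨-60,12,-95⟩⟩,true,45,11,.leaf [(1,11865),(3,9266),(5,145),(6,28)],.leaf [(1,11865),(3,9266),(5,145),(6,28)]⟩,
⟨⟨⟨-87,40,-60⟩,⟨40,105,12⟩,⟨60,-12,-95⟩⟩,true,45,102,.leaf [(1,12769),(4,50),(5,155),(6,78)],.leaf [(1,12769),(4,50),(5,155),(6,78)]⟩,
⟨⟨⟨-23,72,84⟩,⟨24,87,-68⟩,⟨-108,4,-33⟩⟩,true,46,16,.leaf [(3,12769),(5,90),(7,40),(15,11)],.leaf [(0,99),(3,110),(7,2),(10,53)]⟩,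
⟨⟨⟨-23,72,-84⟩,⟨-24,-87,-68⟩,⟨-108,4,33⟩⟩,true,46,97,.leaf [(0,87),(1,16),(2,72),(4,1)],.leaf [(0,87),(1,16),(2,72),(4,1)]⟩,
⟨⟨⟨31,-12,108⟩,⟨108,-9,-32⟩,⟨12,112,9⟩⟩,true,47,29,.leaf [(0,121),(1,99),(2,3),(5,1)],.leaf [(0,121),(1,99),(2,3),(5,1)]⟩,
⟨⟨⟨31,-12,-108⟩,⟨-108,9,-32⟩,⟨12,112,-9⟩⟩,true,47,84,.leaf [(2,12769),(4,99),(5,102),(7,22)],.leaf [(2,12769),(4,99),(5,102),(7,22)]⟩,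
⟨⟨⟨-33,-68,84⟩,⟨4,87,72⟩,⟨-108,24,-23⟩⟩,true,50,18,.leaf [(0,92),(1,62),(3,45),(5,1)],.leaf [(0,92),(1,62),(3,45),(5,1)]⟩,
⟨⟨⟨-33,-68,-84⟩,⟨4,87,-72⟩,⟨108,-24,-23⟩⟩,true,50,95,.leaf [(1,6102),(2,5989),(5,102),(6,79)],.leaf [(1,6102),(2,5989),(5,102),(6,79)]⟩,
⟨⟨⟨87,4,72⟩,⟨-68,-33,84⟩,⟨24,-108,-23⟩⟩,true,52,32,.leaf [(1,25538),(4,349),(5,274),(14,45)],.leaf [(4,2241),(10,63845),(15,1040),(23,16)]⟩,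
⟨⟨⟨87,4,-72⟩,⟨-68,-33,-84⟩,⟨-24,108,-23⟩⟩,true,52,81,.leaf [(0,12769),(4,7),(5,132),(6,42)],.leaf [(0,12769),(4,7),(5,132),(6,42)]⟩,
⟨⟨⟨-23,24,-108⟩,⟨72,87,4⟩,⟨84,-68,-33⟩⟩,true,53,44,.leaf [(4,171),(7,249),(10,12769),(15,35)],.leaf [(1,297),(3,519),(10,209),(14,1)]⟩,
⟨⟨⟨-23,24,108⟩,⟨-72,-87,4⟩,⟨84,-68,33⟩⟩,true,53,69,.leaf [(1,4972),(2,113),(5,20),(6,31)],.leaf [(1,4972),(2,113),(5,20),(6,31)]⟩,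
⟨⟨⟨-105,-12,40⟩,⟨-12,-95,-60⟩,⟨40,-60,87⟩⟩,true,55,5,.leaf [(2,2486),(3,1921),(4,10),(7,23)],.leaf [(2,2486),(3,1921),(4,10),(7,23)]⟩,
⟨⟨⟨105,12,40⟩,⟨-12,-95,60⟩,⟨40,-60,-87⟩⟩,true,55,108,.leaf [(0,5),(1,20),(2,102),(4,1)],.leaf [(0,5),(1,20),(2,102),(4,1)]⟩,
⟨⟨⟨-105,12,40⟩,⟨12,-95,60⟩,⟨40,60,87⟩⟩,true,58,5,.leaf [(0,107),(1,5),(3,15),(4,1)],.leaf [(0,107),(1,5),(3,15),(4,1)]⟩,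
⟨⟨⟨105,-12,40⟩,⟨12,-95,-60⟩,⟨40,60,-87⟩⟩,true,58,108,.leaf [(0,2486),(1,1921),(4,10),(5,23)],.leaf [(0,2486),(1,1921),(4,10),(5,23)]⟩,
⟨⟨⟨-23,-24,-108⟩,⟨72,-87,4⟩,⟨-84,-68,33⟩⟩,true,60,44,.leaf [(0,63),(1,40),(3,72),(4,1)],.leaf [(0,63),(1,40),(3,72),(4,1)]⟩,
⟨⟨⟨-23,-24,108⟩,⟨-72,87,4⟩,⟨-84,-68,-33⟩⟩,true,60,69,.leaf [(3,4),(6,1),(10,33),(18,6)],.leaf [(1,648),(3,693),(10,304),(15,1)]⟩,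
⟨⟨⟨-87,4,-72⟩,⟨-68,33,84⟩,⟨24,108,-23⟩⟩,true,61,32,.leaf [(1,8023),(3,6780),(4,104),(5,29)],.leaf [(1,8023),(3,6780),(4,104),(5,29)]⟩,
⟨⟨⟨-87,4,72⟩,⟨-68,33,-84⟩,⟨-24,-108,-23⟩⟩,true,61,81,.leaf [(3,12769),(5,107),(6,137),(14,15)],.leaf [(3,8249),(5,7),(6,67),(10,1695)]⟩,
⟨⟨⟨33,-68,-84⟩,⟨4,-87,72⟩,⟨-108,-24,-23⟩⟩,true,63,18,.leaf [(1,83),(2,19),(3,73),(4,1)],.leaf [(1,83),(2,19),(3,73),(4,1)]⟩,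
⟨⟨⟨33,-68,84⟩,⟨4,-87,-72⟩,⟨108,24,-23⟩⟩,true,63,95,.leaf [(1,45),(2,92),(3,62),(5,1)],.leaf [(1,45),(2,92),(3,62),(5,1)]⟩,
⟨⟨⟨31,12,108⟩,⟨108,9,-32⟩,⟨-12,112,-9⟩⟩,true,66,29,.leaf [(0,100),(1,87),(3,30),(5,1)],.leaf [(0,100),(1,87),(3,30),(5,1)]⟩,
⟨⟨⟨31,12,-108⟩,⟨-108,-9,-32⟩,⟨-12,112,9⟩⟩,true,66,84,.leaf [(2,12769),(4,117),(5,87),(7,13)],.leaf [(2,12769),(4,117),(5,87),(7,13)]⟩,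
⟨⟨⟨-23,-72,84⟩,⟨24,-87,-68⟩,⟨108,4,33⟩⟩,true,67,16,.leaf [(1,2260),(2,3503),(5,44),(6,1)],.leaf [(1,2260),(2,3503),(5,44),(6,1)]⟩,
⟨⟨⟨-23,-72,-84⟩,⟨-24,87,-68⟩,⟨108,4,-33⟩⟩,true,67,97,.leaf [(1,144),(2,210),(14,1),(18,7)],.leaf [(1,161),(2,23),(5,1),(10,53)]⟩,
⟨⟨⟨87,40,-60⟩,⟨40,-105,-12⟩,⟨-60,-12,-95⟩⟩,true,68,11,.leaf [(0,73),(1,48),(2,72),(4,1)],.leaf [(0,73),(1,48),(2,72),(4,1)]⟩,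
⟨⟨⟨87,40,60⟩,⟨40,-105,12⟩,⟨60,12,-95⟩⟩,true,68,102,.leaf [(0,7571),(2,13560),(4,155),(5,48)],.leaf [(0,7571),(2,13560),(4,155),(5,48)]⟩,
⟨⟨⟨-23,108,24⟩,⟨84,33,-68⟩,⟨-72,4,-87⟩⟩,true,69,53,.leaf [(0,4972),(3,113),(4,20),(7,31)],.leaf [(0,4972),(3,113),(4,20),(7,31)]⟩,
⟨⟨⟨-23,108,-24⟩,⟨-84,-33,-68⟩,⟨-72,4,87⟩⟩,true,69,60,.leaf [(2,420),(4,9),(11,256),(18,35)],.leaf [(0,29),(2,101),(4,1),(10,11)]⟩,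
⟨⟨⟨-95,-60,-12⟩,⟨-60,87,40⟩,⟨-12,40,-105⟩⟩,true,72,37,.leaf [(0,55),(1,93),(2,45),(5,1)],.leaf [(0,55),(1,93),(2,45),(5,1)]⟩,
⟨⟨⟨-95,-60,12⟩,⟨60,-87,40⟩,⟨-12,40,105⟩⟩,true,72,76,.leaf [(0,12769),(4,117),(5,52),(6,30)],.leaf [(0,12769),(4,117),(5,52),(6,30)]⟩,
⟨⟨⟨9,-12,112⟩,⟨-108,31,12⟩,⟨-32,-108,-9⟩⟩,true,74,25,.leaf [(1,452),(3,565),(5,5),(7,4)],.leaf [(1,452),(3,565),(5,5),(7,4)]⟩,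
⟨⟨⟨-9,12,112⟩,⟨-108,31,-12⟩,⟨-32,-108,9⟩⟩,true,74,88,.leaf [(1,565),(3,452),(5,4),(7,5)],.leaf [(1,565),(3,452),(5,4),(7,5)]⟩,
⟨⟨⟨-95,12,60⟩,⟨12,-105,40⟩,⟨60,40,87⟩⟩,true,76,41,.leaf [(0,565),(2,113),(4,5),(6,1)],.leaf [(0,565),(2,113),(4,5),(6,1)]⟩,
⟨⟨⟨-95,12,-60⟩,⟨-12,105,40⟩,⟨60,40,-87⟩⟩,true,76,72,.leaf [(1,12769),(4,52),(5,117),(7,30)],.leaf [(1,12769),(4,52),(5,117),(7,30)]⟩,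
⟨⟨⟨87,-72,4⟩,⟨-24,-23,108⟩,⟨-68,-84,-33⟩⟩,true,81,52,.leaf [(1,12769),(4,132),(5,7),(7,42)],.leaf [(1,12769),(4,132),(5,7),(7,42)]⟩,
⟨⟨⟨-87,72,4⟩,⟨-24,-23,-108⟩,⟨-68,-84,33⟩⟩,true,81,61,.leaf [(2,12769),(4,107),(7,137),(15,15)],.leaf [(2,7006),(4,83),(7,68),(10,1695)]⟩,
⟨⟨⟨31,-108,-12⟩,⟨12,-9,112⟩,⟨-108,-32,9⟩⟩,true,84,47,.leaf [(3,12769),(4,102),(5,99),(6,22)],.leaf [(3,12769),(4,102),(5,99),(6,22)]⟩,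
⟨⟨⟨31,-108,12⟩,⟨-12,9,112⟩,⟨-108,-32,-9⟩⟩,true,84,66,.leaf [(3,12769),(4,87),(5,117),(6,13)],.leaf [(3,12769),(4,87),(5,117),(6,13)]⟩,
⟨⟨⟨87,24,-68⟩,⟨72,-23,84⟩,⟨4,-108,-33⟩⟩,true,86,20,.leaf [(1,60),(2,47),(3,92),(4,1)],.leaf [(1,60),(2,47),(3,92),(4,1)]⟩,
⟨⟨⟨-87,-24,-68⟩,⟨72,-23,-84⟩,⟨4,-108,33⟩⟩,true,86,93,.leaf [(4,261),(7,351),(11,12769),(14,13)],.leaf [(0,63),(2,430),(7,4),(10,35)]⟩,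
⟨⟨⟨81,-72,-32⟩,⟨72,49,72⟩,⟨-32,-72,81⟩⟩,true,87,1,.leaf [(0,72),(2,72),(3,49),(7,1)],.leaf [(0,72),(2,72),(3,49),(7,1)]⟩,
⟨⟨⟨-81,72,-32⟩,⟨72,49,-72⟩,⟨-32,-72,-81⟩⟩,true,87,112,.leaf [(3,226),(4,4),(5,3),(15,1)],.leaf [(3,624),(4,9),(10,272),(26,13)]⟩,
⟨⟨⟨-9,112,-12⟩,⟨-32,9,108⟩,⟨108,12,31⟩⟩,true,88,39,.leaf [(0,100),(1,120),(2,3),(4,1)],.leaf [(0,100),(1,120),(2,3),(4,1)]⟩,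
⟨⟨⟨-9,112,12⟩,⟨-32,9,-108⟩,⟨-108,-12,31⟩⟩,true,88,74,.leaf [(0,565),(2,452),(4,4),(6,5)],.leaf [(0,565),(2,452),(4,4),(6,5)]⟩,
⟨⟨⟨-87,-68,24⟩,⟨4,33,108⟩,⟨-72,84,-23⟩⟩,true,93,27,.leaf [(0,2486),(1,1921),(4,10),(5,23)],.leaf [(0,2486),(1,1921),(4,10),(5,23)]⟩,
⟨⟨⟨-87,-68,-24⟩,⟨4,33,-108⟩,⟨72,-84,-23⟩⟩,true,93,86,.leaf [(5,261),(6,351),(10,12769),(15,13)],.leaf [(6,2106),(22,240),(26,12769),(30,5)]⟩,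
⟨⟨⟨-33,-84,-68⟩,⟨108,-23,-24⟩,⟨4,-72,87⟩⟩,true,95,50,.leaf [(0,6102),(3,5989),(4,102),(7,79)],.leaf [(0,6102),(3,5989),(4,102),(7,79)]⟩,
⟨⟨⟨33,84,-68⟩,⟨108,-23,24⟩,⟨4,-72,-87⟩⟩,true,95,63,.leaf [(0,45),(2,62),(3,92),(4,1)],.leaf [(0,45),(2,62),(3,92),(4,1)]⟩,
⟨⟨⟨33,4,-108⟩,⟨-68,-87,-24⟩,⟨-84,72,-23⟩⟩,true,96,7,.leaf [(0,37),(1,84),(2,54),(4,1)],.leaf [(0,37),(1,84),(2,54),(4,1)]⟩,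
⟨⟨⟨33,4,108⟩,⟨-68,-87,24⟩,⟨84,-72,-23⟩⟩,true,96,106,.leaf [(1,60003),(5,435),(15,110),(18,452)],.leaf [(1,6554),(4,37),(5,22),(10,1695)]⟩,
⟨⟨⟨-23,-84,72⟩,⟨-108,33,4⟩,⟨-24,-68,-87⟩⟩,true,97,46,.leaf [(0,16),(1,87),(3,72),(5,1)],.leaf [(0,16),(1,87),(3,72),(5,1)]⟩,
⟨⟨⟨-23,-84,-72⟩,⟨108,-33,4⟩,⟨-24,-68,87⟩⟩,true,97,67,.leaf [(0,4671),(3,2448),(18,728),(22,1)],.leaf [(0,8588),(4,16),(6,91),(10,1243)]⟩,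
⟨⟨⟨-15,112,0⟩,⟨112,15,0⟩,⟨0,0,-113⟩⟩,true,98,0,.leaf [(3,12769),(4,120),(5,113),(6,8)],.leaf [(3,12769),(4,120),(5,113),(6,8)]⟩,
⟨⟨⟨49,-72,72⟩,⟨-72,-81,-32⟩,⟨72,-32,-81⟩⟩,true,100,13,.leaf [(0,565),(1,1469),(4,5),(5,13)],.leaf [(0,565),(1,1469),(4,5),(5,13)]⟩,
⟨⟨⟨49,-72,-72⟩,⟨72,81,-32⟩,⟨72,-32,81⟩⟩,true,100,100,.leaf [(3,9153),(7,81),(18,1808),(23,2)],.leaf [(1,3051),(5,27),(10,1808),(15,2)]⟩,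
⟨⟨⟨9,-108,-32⟩,⟨-12,31,-108⟩,⟨112,12,-9⟩⟩,true,101,9,.leaf [(5,1350),(7,1533),(11,81247),(18,3164)],.leaf [(0,11),(2,446),(5,4),(10,23)]⟩,
⟨⟨⟨-9,108,-32⟩,⟨-12,31,108⟩,⟨112,12,9⟩⟩,true,101,104,.leaf [(0,77),(1,110),(3,30),(4,1)],.leaf [(0,77),(1,110),(3,30),(4,1)]⟩,
⟨⟨⟨-87,-60,40⟩,⟨60,-95,-12⟩,⟨40,12,105⟩⟩,true,102,45,.leaf [(0,12769),(4,155),(5,50),(7,78)],.leaf [(0,12769),(4,155),(5,50),(7,78)]⟩,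
⟨⟨⟨87,60,40⟩,⟨60,-95,12⟩,⟨40,12,-105⟩⟩,true,102,68,.leaf [(0,9266),(2,11865),(4,145),(5,28)],.leaf [(0,9266),(2,11865),(4,145),(5,28)]⟩,
⟨⟨⟨-9,-32,-108⟩,⟨112,9,-12⟩,⟨12,-108,31⟩⟩,true,104,12,.leaf [(4,162),(6,297),(10,12769),(15,4)],.L (.L (.leaf [(0,65),(2,82),(3,52),(4,1)]) (.leaf [(0,78),(1,28),(2,105),(4,1)]) (.leaf [(0,100),(1,138),(3,45),(5,1)])) (.leaf [(0,50),(1,68),(2,135),(4,1)]) (.leaf [(1,12769),(4,102),(5,19),(6,54)])⟩,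
⟨⟨⟨-9,-32,108⟩,⟨112,9,12⟩,⟨-12,108,31⟩⟩,true,104,101,.leaf [(0,110),(1,77),(2,30),(5,1)],.leaf [(0,110),(1,77),(2,30),(5,1)]⟩,
⟨⟨⟨-33,-108,4⟩,⟨84,-23,72⟩,⟨-68,24,87⟩⟩,true,106,17,.leaf [(0,12769),(4,107),(5,137),(7,45)],.leaf [(0,12769),(4,107),(5,137),(7,45)]⟩,
⟨⟨⟨33,108,4⟩,⟨84,-23,-72⟩,⟨-68,24,-87⟩⟩,true,106,96,.L (.leaf [(0,65),(2,82),(3,52),(4,1)]) (.leaf [(0,78),(1,28),(2,105),(4,1)]) (.leaf [(0,100),(1,138),(3,45),(5,1)]),.leaf [(0,3164),(4,37),(5,16),(10,339)]⟩,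
⟨⟨⟨105,40,12⟩,⟨40,-87,-60⟩,⟨-12,60,-95⟩⟩,true,108,55,.leaf [(0,2599),(1,1130),(4,17),(5,22)],.leaf [(0,2599),(1,1130),(4,17),(5,22)]⟩,
⟨⟨⟨105,40,-12⟩,⟨40,-87,60⟩,⟨12,-60,-95⟩⟩,true,108,58,.leaf [(0,67),(1,72),(2,60),(4,1)],.leaf [(0,67),(1,72),(2,60),(4,1)]⟩,
⟨⟨⟨-81,-32,-72⟩,⟨-32,-81,72⟩,⟨-72,72,49⟩⟩,true,112,26,.leaf [(0,49),(1,72),(3,72),(4,1)],.leaf [(0,49),(1,72),(3,72),(4,1)]⟩,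
⟨⟨⟨-81,-32,72⟩,⟨-32,-81,-72⟩,⟨72,-72,49⟩⟩,true,112,87,.leaf [(2,226),(4,3),(5,4),(14,1)],.leaf [(1,2938),(4,125),(5,26),(10,5085)]⟩]

theorem primeOk_113 : PrimeOk 113 := primeOk (by norm_num) (by norm_num) (by norm_num) L113
  (by decide +kernel) (by decide +kernel)

def L197 : List Cls := [
⟨⟨⟨-197,0,0⟩,⟨0,-195,28⟩,⟨0,28,195⟩⟩,false,0,14,.leaf [(0,195),(1,13),(3,15),(4,1)],.leaf [(0,195),(1,13),(3,15),(4,1)]⟩,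
⟨⟨⟨-197,0,0⟩,⟨0,195,28⟩,⟨0,28,-195⟩⟩,false,0,183,.leaf [(0,197),(1,2758),(4,1),(5,14)],.leaf [(0,197),(1,2758),(4,1),(5,14)]⟩,
⟨⟨⟨-195,0,28⟩,⟨0,-197,0⟩,⟨28,0,195⟩⟩,true,0,14,.leaf [(0,41370),(2,2561),(4,223),(7,28)],.leaf [(0,41370),(2,2561),(4,223),(7,28)]⟩,
⟨⟨⟨195,0,28⟩,⟨0,-197,0⟩,⟨28,0,-195⟩⟩,true,0,183,.leaf [(0,2561),(1,2758),(4,13),(5,14)],.leaf [(0,2561),(1,2758),(4,13),(5,14)]⟩,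
⟨⟨⟨75,28,-180⟩,⟨172,-75,60⟩,⟨-60,-180,-53⟩⟩,true,3,37,.leaf [(1,20),(2,103),(3,220),(4,1)],.leaf [(1,20),(2,103),(3,220),(4,1)]⟩,
⟨⟨⟨75,28,180⟩,⟨172,-75,-60⟩,⟨60,180,-53⟩⟩,true,3,160,.leaf [(0,152),(1,185),(3,48),(5,1)],.leaf [(0,152),(1,185),(3,48),(5,1)]⟩,
⟨⟨⟨123,24,-152⟩,⟨72,163,84⟩,⟨136,-108,93⟩⟩,true,5,34,.leaf [(3,48265),(4,167),(7,77),(18,3349)],.leaf [(3,788),(4,1),(7,4),(10,197)]⟩,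
⟨⟨⟨-123,-24,-152⟩,⟨72,163,-84⟩,⟨136,-108,-93⟩⟩,true,5,163,.leaf [(4,627),(5,2736),(14,268),(18,38809)],.leaf [(0,41),(1,119),(7,1),(10,91)]⟩,
⟨⟨⟨189,-48,28⟩,⟨48,91,-168⟩,⟨28,168,99⟩⟩,true,6,95,.L (.leaf [(1,58),(2,84),(3,201),(5,1)]) (.leaf [(0,63),(1,13),(2,195),(5,1)]) (.leaf [(0,717),(1,1143),(10,149),(15,1)]),.leaf [(0,123913),(5,674),(7,110),(10,8471)]⟩,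
⟨⟨⟨-189,48,28⟩,⟨48,91,168⟩,⟨28,168,-99⟩⟩,true,6,102,.leaf [(0,197),(1,394),(4,1),(5,2)],.leaf [(0,197),(1,394),(4,1),(5,2)]⟩,
⟨⟨⟨93,-44,168⟩,⟨172,-3,-96⟩,⟨24,192,37⟩⟩,true,8,59,.leaf [(0,218),(1,131),(2,18),(5,1)],.leaf [(0,218),(1,131),(2,18),(5,1)]⟩,
⟨⟨⟨93,-44,-168⟩,⟨172,-3,96⟩,⟨-24,-192,37⟩⟩,true,8,138,.leaf [(3,3940),(4,51),(6,10),(10,2561)],.leaf [(1,155236),(4,431),(6,674),(14,61)]⟩,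
⟨⟨⟨37,-24,-192⟩,⟨-168,93,-44⟩,⟨96,172,-3⟩⟩,true,10,80,.leaf [(1,10835),(2,197),(4,35),(7,29)],.leaf [(1,10835),(2,197),(4,35),(7,29)]⟩,
⟨⟨⟨37,-24,192⟩,⟨168,-93,-44⟩,⟨96,172,3⟩⟩,true,10,117,.leaf [(0,163),(1,189),(2,33),(5,1)],.leaf [(0,163),(1,189),(2,33),(5,1)]⟩,
⟨⟨⟨-195,28,0⟩,⟨28,195,0⟩,⟨0,0,-197⟩⟩,true,14,0,.leaf [(1,41370),(3,2561),(5,223),(6,28)],.leaf [(1,41370),(3,2561),(5,223),(6,28)]⟩,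
⟨⟨⟨123,72,136⟩,⟨24,163,-108⟩,⟨-152,84,93⟩⟩,true,15,94,.leaf [(3,38809),(5,180),(7,100),(15,21)],.leaf [(3,125292),(10,51417),(14,238),(22,11)]⟩,
⟨⟨⟨-123,-72,136⟩,⟨24,163,108⟩,⟨-152,84,-93⟩⟩,true,15,103,.leaf [(0,156),(1,178),(3,51),(5,1)],.leaf [(0,156),(1,178),(3,51),(5,1)]⟩,
⟨⟨⟨-53,-60,-180⟩,⟨-180,75,28⟩,⟨60,172,-75⟩⟩,true,16,48,.leaf [(2,38809),(4,105),(5,225),(7,7)],.leaf [(2,38809),(4,105),(5,225),(7,7)]⟩,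
⟨⟨⟨-53,-60,180⟩,⟨180,-75,28⟩,⟨60,172,75⟩⟩,true,16,149,.leaf [(0,7),(2,225),(3,105),(5,1)],.leaf [(0,7),(2,225),(3,105),(5,1)]⟩,
⟨⟨⟨91,168,48⟩,⟨168,-99,28⟩,⟨48,28,-189⟩⟩,true,17,33,.leaf [(0,39794),(2,20685),(4,237),(5,20)],.leaf [(0,39794),(2,20685),(4,237),(5,20)]⟩,
⟨⟨⟨91,168,-48⟩,⟨-168,99,28⟩,⟨48,28,189⟩⟩,true,17,164,.leaf [(1,988),(2,975),(4,10),(18,57)],.leaf [(1,304),(2,12),(4,1),(10,57)]⟩,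
⟨⟨⟨163,108,24⟩,⟨84,-93,-152⟩,⟨-72,136,-123⟩⟩,true,20,92,.leaf [(0,13987),(1,788),(4,59),(5,76)],.leaf [(0,13987),(1,788),(4,59),(5,76)]⟩,
⟨⟨⟨163,108,-24⟩,⟨-84,93,-152⟩,⟨-72,136,123⟩⟩,true,20,105,.leaf [(2,95),(7,2),(11,122),(18,19)],.leaf [(0,207),(2,670),(7,4),(10,99)]⟩,
⟨⟨⟨-35,180,72⟩,⟨-180,-3,-80⟩,⟨-72,-80,165⟩⟩,true,23,88,.leaf [(2,38809),(4,126),(6,19),(14,38)],.leaf [(1,76),(2,126),(4,1),(10,57)]⟩,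
⟨⟨⟨-35,180,-72⟩,⟨180,3,-80⟩,⟨-72,-80,-165⟩⟩,true,23,109,.leaf [(0,985),(3,197),(4,5),(7,1)],.leaf [(0,985),(3,197),(4,5),(7,1)]⟩,
⟨⟨⟨93,136,108⟩,⟨-152,123,-24⟩,⟨-84,-72,163⟩⟩,true,29,52,.leaf [(0,7092),(6,228),(11,14381),(15,13)],.leaf [(0,138),(2,100),(6,1),(10,21)]⟩,
⟨⟨⟨93,136,-108⟩,⟨-152,123,24⟩,⟨84,72,163⟩⟩,true,29,145,.leaf [(1,30732),(2,15563),(4,201),(6,50)],.leaf [(1,30732),(2,15563),(4,201),(6,50)]⟩,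
⟨⟨⟨117,-116,-108⟩,⟨28,-117,156⟩,⟨-156,-108,-53⟩⟩,true,31,90,.leaf [(0,1),(1,177),(3,87),(4,1)],.leaf [(0,1),(1,177),(3,87),(4,1)]⟩,
⟨⟨⟨117,-116,108⟩,⟨28,-117,-156⟩,⟨156,108,-53⟩⟩,true,31,107,.leaf [(0,173),(1,161),(2,51),(5,1)],.leaf [(0,173),(1,161),(2,51),(5,1)]⟩,
⟨⟨⟨-3,-96,172⟩,⟨192,37,24⟩,⟨-44,168,93⟩⟩,true,32,74,.leaf [(0,192),(1,79),(2,72),(5,1)],.leaf [(0,192),(1,79),(2,72),(5,1)]⟩,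
⟨⟨⟨3,96,172⟩,⟨192,37,-24⟩,⟨-44,168,-93⟩⟩,true,32,123,.leaf [(2,20291),(3,44522),(4,73),(5,222)],.leaf [(2,20291),(3,44522),(4,73),(5,222)]⟩,
⟨⟨⟨91,48,168⟩,⟨48,-189,28⟩,⟨168,28,-99⟩⟩,true,33,17,.leaf [(0,19109),(2,41370),(4,267),(5,140)],.leaf [(0,19109),(2,41370),(4,267),(5,140)]⟩,
⟨⟨⟨91,48,-168⟩,⟨-48,189,28⟩,⟨168,28,99⟩⟩,true,33,180,.leaf [(1,918),(2,1045),(7,10),(18,57)],.leaf [(1,297),(2,19),(7,1),(10,57)]⟩,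
⟨⟨⟨123,-152,24⟩,⟨136,93,-108⟩,⟨72,84,163⟩⟩,true,34,5,.leaf [(2,86483),(5,436),(6,562),(18,3349)],.leaf [(2,31520),(5,184),(6,145),(10,3349)]⟩,
⟨⟨⟨123,-152,-24⟩,⟨136,93,108⟩,⟨-72,-84,163⟩⟩,true,34,192,.leaf [(4,3),(5,4),(6,2),(14,1)],.leaf [(3,60873),(5,540),(10,40976),(15,7)]⟩,
⟨⟨⟨75,-180,28⟩,⟨-60,-53,-180⟩,⟨172,60,-75⟩⟩,true,37,3,.leaf [(0,20),(2,220),(3,103),(5,1)],.leaf [(0,20),(2,220),(3,103),(5,1)]⟩,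
⟨⟨⟨-75,180,28⟩,⟨-60,-53,180⟩,⟨172,60,75⟩⟩,true,37,194,.leaf [(0,200),(1,152),(2,33),(4,1)],.leaf [(0,200),(1,152),(2,33),(4,1)]⟩,
⟨⟨⟨3,-80,180⟩,⟨-80,-165,-72⟩,⟨180,-72,-35⟩⟩,true,39,60,.leaf [(0,8),(1,200),(3,15),(5,1)],.leaf [(0,8),(1,200),(3,15),(5,1)]⟩,
⟨⟨⟨3,-80,-180⟩,⟨-80,-165,72⟩,⟨-180,72,-35⟩⟩,true,39,137,.leaf [(0,85),(1,210),(3,42),(4,1)],.leaf [(0,85),(1,210),(3,42),(4,1)]⟩,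
⟨⟨⟨37,-96,-168⟩,⟨-192,3,-44⟩,⟨24,172,-93⟩⟩,true,40,70,.leaf [(2,21473),(3,2561),(4,89),(5,113)],.leaf [(2,21473),(3,2561),(4,89),(5,113)]⟩,
⟨⟨⟨37,-96,168⟩,⟨192,-3,-44⟩,⟨24,172,93⟩⟩,true,40,127,.leaf [(0,178),(1,75),(2,90),(5,1)],.leaf [(0,178),(1,75),(2,90),(5,1)]⟩,
⟨⟨⟨-93,-152,84⟩,⟨136,-123,-72⟩,⟨108,24,163⟩⟩,true,44,69,.leaf [(2,38809),(4,12),(5,232),(14,25)],.leaf [(2,29353),(4,129),(5,244),(10,9850)]⟩,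
⟨⟨⟨-93,-152,-84⟩,⟨136,-123,72⟩,⟨-108,-24,163⟩⟩,true,44,128,.leaf [(0,12231),(3,10233),(18,2143),(23,1)],.leaf [(3,36445),(4,189),(5,109),(10,8471)]⟩,
⟨⟨⟨-165,-72,-80⟩,⟨-72,-35,180⟩,⟨-80,180,3⟩⟩,true,47,96,.leaf [(1,21079),(3,41370),(4,252),(5,37)],.leaf [(1,21079),(3,41370),(4,252),(5,37)]⟩,
⟨⟨⟨165,72,-80⟩,⟨-72,-35,-180⟩,⟨-80,180,-3⟩⟩,true,47,101,.leaf [(2,149),(4,2),(11,60),(18,35)],.leaf [(0,41764),(4,137),(5,344),(10,10047)]⟩,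
⟨⟨⟨-53,-180,-60⟩,⟨60,-75,172⟩,⟨-180,28,75⟩⟩,true,48,16,.leaf [(3,38809),(4,225),(5,105),(6,7)],.leaf [(3,38809),(4,225),(5,105),(6,7)]⟩,
⟨⟨⟨-53,-180,60⟩,⟨-60,75,172⟩,⟨-180,28,-75⟩⟩,true,48,181,.leaf [(0,208),(1,108),(3,27),(5,1)],.leaf [(0,208),(1,108),(3,27),(5,1)]⟩,
⟨⟨⟨-53,108,-156⟩,⟨156,117,28⟩,⟨108,-116,-117⟩⟩,true,50,81,.leaf [(1,144),(3,97),(7,1),(10,8)],.leaf [(3,38809),(4,180),(7,25),(14,4)]⟩,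
⟨⟨⟨-53,108,156⟩,⟨-156,-117,28⟩,⟨108,-116,117⟩⟩,true,50,116,.leaf [(2,38809),(4,162),(6,109),(14,2)],.leaf [(1,216),(2,1),(6,1),(10,8)]⟩,
⟨⟨⟨3,-44,192⟩,⟨172,-93,-24⟩,⟨96,168,37⟩⟩,true,51,64,.leaf [(2,46886),(3,29747),(4,18),(5,217)],.leaf [(2,46886),(3,29747),(4,18),(5,217)]⟩,
⟨⟨⟨3,-44,-192⟩,⟨172,-93,24⟩,⟨-96,-168,37⟩⟩,true,51,133,.leaf [(0,1),(2,48),(3,216),(4,1)],.leaf [(0,1),(2,48),(3,216),(4,1)]⟩,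
⟨⟨⟨93,108,136⟩,⟨-84,163,-72⟩,⟨-152,-24,123⟩⟩,true,52,29,.leaf [(1,7092),(7,228),(10,14381),(14,13)],.leaf [(1,2052),(3,1359),(10,784),(15,1)]⟩,
⟨⟨⟨-93,-108,136⟩,⟨-84,163,72⟩,⟨-152,-24,-123⟩⟩,true,52,168,.leaf [(1,58),(2,84),(3,201),(5,1)],.leaf [(1,58),(2,84),(3,201),(5,1)]⟩,
⟨⟨⟨99,28,-168⟩,⟨28,189,48⟩,⟨168,-48,91⟩⟩,true,56,58,.leaf [(1,15),(2,217),(3,105),(6,1)],.leaf [(1,15),(2,217),(3,105),(6,1)]⟩,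
⟨⟨⟨99,28,168⟩,⟨28,189,-48⟩,⟨-168,48,91⟩⟩,true,56,139,.leaf [(0,71511),(5,328),(6,263),(18,1576)],.leaf [(0,59691),(5,344),(6,247),(10,788)]⟩,
⟨⟨⟨99,-168,28⟩,⟨168,91,-48⟩,⟨28,48,189⟩⟩,true,58,56,.leaf [(0,15),(2,105),(3,217),(7,1)],.leaf [(0,15),(2,105),(3,217),(7,1)]⟩,
⟨⟨⟨-99,168,28⟩,⟨168,91,48⟩,⟨28,48,-189⟩⟩,true,58,141,.leaf [(3,38809),(4,232),(5,165),(15,4)],.leaf [(3,23837),(4,128),(5,69),(10,1576)]⟩,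
⟨⟨⟨93,168,-44⟩,⟨24,37,192⟩,⟨172,-96,-3⟩⟩,true,59,8,.leaf [(0,131),(1,218),(3,18),(4,1)],.leaf [(0,131),(1,218),(3,18),(4,1)]⟩,
⟨⟨⟨-93,-168,-44⟩,⟨24,37,-192⟩,⟨172,-96,3⟩⟩,true,59,189,.leaf [(0,69),(2,31),(7,1),(11,41)],.leaf [(0,645),(2,370),(7,4),(10,41)]⟩,
⟨⟨⟨3,180,-80⟩,⟨180,-35,-72⟩,⟨-80,-72,-165⟩⟩,true,60,39,.leaf [(0,200),(1,8),(2,15),(4,1)],.leaf [(0,200),(1,8),(2,15),(4,1)]⟩,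
⟨⟨⟨-3,-180,-80⟩,⟨180,-35,72⟩,⟨-80,-72,165⟩⟩,true,60,158,.leaf [(3,38809),(4,252),(5,42),(7,127)],.leaf [(3,38809),(4,252),(5,42),(7,127)]⟩,
⟨⟨⟨3,192,-44⟩,⟨96,37,168⟩,⟨172,-24,-93⟩⟩,true,64,51,.leaf [(0,155),(1,137),(3,75),(4,1)],.leaf [(0,155),(1,137),(3,75),(4,1)]⟩,
⟨⟨⟨-3,-192,-44⟩,⟨96,37,-168⟩,⟨172,-24,93⟩⟩,true,64,146,.leaf [(0,52008),(1,11623),(5,1),(7,240)],.leaf [(0,52008),(1,11623),(5,1),(7,240)]⟩,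
⟨⟨⟨-75,172,60⟩,⟨28,75,-180⟩,⟨-180,-60,-53⟩⟩,true,66,78,.leaf [(0,394),(2,197),(4,1),(6,2)],.leaf [(0,394),(2,197),(4,1),(6,2)]⟩,
⟨⟨⟨-75,172,-60⟩,⟨28,75,180⟩,⟨180,60,-53⟩⟩,true,66,119,.leaf [(1,20),(2,97),(3,220),(4,1)],.leaf [(1,20),(2,97),(3,220),(4,1)]⟩,
⟨⟨⟨-117,-156,28⟩,⟨108,-53,156⟩,⟨-116,108,117⟩⟩,true,67,89,.leaf [(0,4334),(3,591),(4,22),(5,25)],.leaf [(0,4334),(3,591),(4,22),(5,25)]⟩,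
⟨⟨⟨117,156,28⟩,⟨108,-53,-156⟩,⟨-116,108,-117⟩⟩,true,67,108,.leaf [(0,38809),(4,110),(5,20),(14,51)],.leaf [(0,86483),(4,562),(5,436),(10,10047)]⟩,
⟨⟨⟨-93,84,-152⟩,⟨108,163,24⟩,⟨136,-72,-123⟩⟩,true,69,44,.leaf [(3,38809),(4,232),(5,12),(15,25)],.leaf [(1,32805),(10,10152),(26,640),(31,1)]⟩,
⟨⟨⟨93,-84,-152⟩,⟨108,163,-24⟩,⟨136,-72,123⟩⟩,true,69,153,.leaf [(0,116427),(4,7),(7,581),(15,43)],.leaf [(0,261),(3,146),(7,2),(10,51)]⟩,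
⟨⟨⟨37,-168,-96⟩,⟨24,-93,172⟩,⟨-192,-44,3⟩⟩,true,70,40,.leaf [(1,5122),(3,20685),(4,124),(5,75)],.leaf [(1,5122),(3,20685),(4,124),(5,75)]⟩,
⟨⟨⟨37,-168,96⟩,⟨-24,93,172⟩,⟨-192,-44,-3⟩⟩,true,70,157,.leaf [(0,6895),(3,5713),(5,55),(6,1)],.leaf [(0,6895),(3,5713),(5,55),(6,1)]⟩,
⟨⟨⟨163,-84,72⟩,⟨-108,-93,136⟩,⟨-24,-152,-123⟩⟩,true,72,79,.leaf [(1,38809),(4,217),(5,99),(6,27)],.leaf [(1,38809),(4,217),(5,99),(6,27)]⟩,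
⟨⟨⟨163,-84,-72⟩,⟨108,93,136⟩,⟨-24,-152,123⟩⟩,true,72,118,.leaf [(3,891),(10,19),(15,1),(18,57)],.leaf [(3,8274),(6,57),(10,3743),(15,14)]⟩,
⟨⟨⟨-3,172,-96⟩,⟨-44,93,168⟩,⟨192,24,37⟩⟩,true,74,32,.leaf [(0,79),(1,192),(3,72),(4,1)],.leaf [(0,79),(1,192),(3,72),(4,1)]⟩,
⟨⟨⟨-3,172,96⟩,⟨-44,93,-168⟩,⟨-192,-24,37⟩⟩,true,74,165,.leaf [(0,38809),(4,103),(5,168),(6,240)],.leaf [(0,38809),(4,103),(5,168),(6,240)]⟩,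
⟨⟨⟨-93,24,172⟩,⟨-168,37,-96⟩,⟨-44,-192,3⟩⟩,true,76,85,.leaf [(1,72),(2,168),(3,103),(7,1)],.leaf [(1,72),(2,168),(3,103),(7,1)]⟩,
⟨⟨⟨93,-24,172⟩,⟨-168,37,96⟩,⟨-44,-192,-3⟩⟩,true,76,112,.leaf [(1,591),(3,2167),(5,9),(7,7)],.leaf [(1,591),(3,2167),(5,9),(7,7)]⟩,
⟨⟨⟨-75,60,172⟩,⟨-180,-53,-60⟩,⟨28,-180,75⟩⟩,true,78,66,.leaf [(1,394),(3,197),(5,1),(7,2)],.leaf [(1,394),(3,197),(5,1),(7,2)]⟩,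
⟨⟨⟨75,-60,172⟩,⟨-180,-53,60⟩,⟨28,-180,-75⟩⟩,true,78,131,.leaf [(1,197),(3,394),(5,2),(7,1)],.leaf [(1,197),(3,394),(5,2),(7,1)]⟩,
⟨⟨⟨163,72,-84⟩,⟨-24,-123,-152⟩,⟨-108,136,-93⟩⟩,true,79,72,.leaf [(0,38809),(4,99),(5,217),(7,27)],.leaf [(0,38809),(4,99),(5,217),(7,27)]⟩,
⟨⟨⟨163,72,84⟩,⟨24,123,-152⟩,⟨-108,136,93⟩⟩,true,79,125,.leaf [(0,155236),(5,571),(7,306),(15,99)],.leaf [(0,129),(2,526),(7,4),(10,177)]⟩,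
⟨⟨⟨37,-192,-24⟩,⟨96,-3,172⟩,⟨-168,-44,93⟩⟩,true,80,10,.leaf [(0,10835),(3,197),(5,35),(6,29)],.leaf [(0,10835),(3,197),(5,35),(6,29)]⟩,
⟨⟨⟨37,-192,24⟩,⟨-96,3,172⟩,⟨-168,-44,-93⟩⟩,true,80,187,.leaf [(2,6107),(3,22655),(4,59),(5,119)],.leaf [(2,6107),(3,22655),(4,59),(5,119)]⟩,
⟨⟨⟨-53,-156,108⟩,⟨108,-117,-116⟩,⟨156,28,117⟩⟩,true,81,50,.leaf [(0,144),(2,97),(6,1),(11,8)],.leaf [(0,162),(2,109),(6,1),(10,2)]⟩,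
⟨⟨⟨-53,-156,-108⟩,⟨-108,117,-116⟩,⟨156,28,-117⟩⟩,true,81,147,.leaf [(1,61),(2,940),(5,5),(18,4)],.leaf [(1,41),(2,176),(5,1),(10,8)]⟩,
⟨⟨⟨-93,172,24⟩,⟨-44,3,-192⟩,⟨-168,-96,37⟩⟩,true,85,76,.leaf [(0,72),(2,103),(3,168),(6,1)],.leaf [(0,72),(2,103),(3,168),(6,1)]⟩,
⟨⟨⟨-93,172,-24⟩,⟨-44,3,192⟩,⟨168,96,37⟩⟩,true,85,121,.leaf [(0,1),(2,168),(3,216),(4,1)],.leaf [(0,1),(2,168),(3,216),(4,1)]⟩,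
⟨⟨⟨-35,72,180⟩,⟨-72,165,-80⟩,⟨-180,-80,-3⟩⟩,true,88,23,.leaf [(3,38809),(5,126),(7,19),(15,38)],.leaf [(7,654),(10,38809),(14,131),(23,6)]⟩,
⟨⟨⟨-35,72,-180⟩,⟨72,-165,-80⟩,⟨-180,-80,3⟩⟩,true,88,174,.leaf [(0,222),(1,100),(2,15),(4,1)],.leaf [(0,222),(1,100),(2,15),(4,1)]⟩,
⟨⟨⟨-117,28,-156⟩,⟨-116,117,108⟩,⟨108,156,-53⟩⟩,true,89,67,.leaf [(1,22261),(3,2364),(4,128),(5,89)],.leaf [(1,22261),(3,2364),(4,128),(5,89)]⟩,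
⟨⟨⟨-117,28,156⟩,⟨-116,117,-108⟩,⟨-108,-156,-53⟩⟩,true,89,130,.leaf [(3,83922),(5,150),(18,6895),(22,11)],.leaf [(3,23246),(5,74),(6,117),(10,3349)]⟩,
⟨⟨⟨117,-108,-116⟩,⟨-156,-53,-108⟩,⟨28,156,-117⟩⟩,true,90,31,.leaf [(2,4334),(3,197),(4,22),(5,21)],.leaf [(2,4334),(3,197),(4,22),(5,21)]⟩,
⟨⟨⟨-117,108,-116⟩,⟨-156,-53,108⟩,⟨28,156,117⟩⟩,true,90,166,.leaf [(0,161),(1,212),(3,12),(4,1)],.leaf [(0,161),(1,212),(3,12),(4,1)]⟩,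
⟨⟨⟨163,24,108⟩,⟨-72,-123,136⟩,⟨84,-152,-93⟩⟩,true,92,20,.leaf [(1,3743),(2,1182),(4,26),(5,15)],.leaf [(1,3743),(2,1182),(4,26),(5,15)]⟩,
⟨⟨⟨163,24,-108⟩,⟨72,123,136⟩,⟨84,-152,93⟩⟩,true,92,177,.leaf [(1,138097),(4,1585),(15,375),(18,7683)],.leaf [(1,1458),(3,1194),(10,509),(14,1)]⟩,
⟨⟨⟨123,136,72⟩,⟨-152,93,84⟩,⟨24,-108,163⟩⟩,true,94,15,.leaf [(2,38809),(4,180),(6,100),(14,21)],.leaf [(2,25610),(4,90),(6,113),(10,4137)]⟩,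
⟨⟨⟨123,136,-72⟩,⟨-152,93,-84⟩,⟨-24,108,163⟩⟩,true,94,182,.leaf [(0,207),(1,156),(2,22),(6,1)],.leaf [(0,207),(1,156),(2,22),(6,1)]⟩,
⟨⟨⟨189,28,-48⟩,⟨28,99,168⟩,⟨48,-168,91⟩⟩,true,95,6,.leaf [(2,85301),(4,195),(6,548),(18,5910)],.leaf [(1,300),(2,22),(6,1),(10,105)]⟩,
⟨⟨⟨189,28,48⟩,⟨28,99,-168⟩,⟨-48,168,91⟩⟩,true,95,191,.leaf [(2,394),(3,197),(5,1),(6,2)],.leaf [(2,394),(3,197),(5,1),(6,2)]⟩,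
⟨⟨⟨-165,-80,-72⟩,⟨-80,3,180⟩,⟨-72,180,-35⟩⟩,true,96,47,.leaf [(1,24034),(3,38415),(4,260),(5,83)],.leaf [(1,24034),(3,38415),(4,260),(5,83)]⟩,
⟨⟨⟨-165,-80,72⟩,⟨-80,3,-180⟩,⟨72,-180,-35⟩⟩,true,96,150,.leaf [(3,32505),(6,105),(10,197),(15,29)],.leaf [(1,5724),(3,3003),(10,2368),(23,1)]⟩,
⟨⟨⟨165,-80,72⟩,⟨-80,-3,180⟩,⟨-72,-180,-35⟩⟩,true,101,47,.leaf [(3,105001),(5,208),(15,75),(18,7880)],.leaf [(3,1182),(5,6),(10,197),(14,1)]⟩,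
⟨⟨⟨165,-80,-72⟩,⟨-80,-3,-180⟩,⟨72,180,-35⟩⟩,true,101,150,.leaf [(0,41370),(2,21079),(5,252),(6,37)],.leaf [(0,41370),(2,21079),(5,252),(6,37)]⟩,
⟨⟨⟨-189,28,48⟩,⟨28,-99,168⟩,⟨48,168,91⟩⟩,true,102,6,.leaf [(0,127),(1,15),(3,105),(4,1)],.leaf [(0,127),(1,15),(3,105),(4,1)]⟩,
⟨⟨⟨-189,28,-48⟩,⟨28,-99,-168⟩,⟨-48,-168,91⟩⟩,true,102,191,.leaf [(0,38809),(4,202),(6,45),(14,30)],.leaf [(0,149),(3,180),(4,2),(10,105)]⟩,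
⟨⟨⟨-123,136,-72⟩,⟨-152,-93,84⟩,⟨24,108,163⟩⟩,true,103,15,.leaf [(0,178),(1,156),(2,51),(4,1)],.leaf [(0,178),(1,156),(2,51),(4,1)]⟩,
⟨⟨⟨-123,136,72⟩,⟨-152,-93,-84⟩,⟨-24,-108,163⟩⟩,true,103,182,.leaf [(0,38809),(4,121),(6,159),(14,21)],.leaf [(0,27974),(4,116),(6,129),(10,4137)]⟩,
⟨⟨⟨163,-24,108⟩,⟨-72,123,136⟩,⟨-84,-152,93⟩⟩,true,105,20,.leaf [(3,304),(6,1),(10,4),(18,19)],.leaf [(1,378),(3,549),(10,364),(15,1)]⟩,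
⟨⟨⟨163,-24,-108⟩,⟨72,-123,136⟩,⟨-84,-152,-93⟩⟩,true,105,177,.leaf [(0,99),(1,217),(3,27),(4,1)],.leaf [(0,99),(1,217),(3,27),(4,1)]⟩,
⟨⟨⟨117,108,-116⟩,⟨156,-53,108⟩,⟨28,-156,-117⟩⟩,true,107,31,.leaf [(0,161),(1,173),(3,51),(4,1)],.leaf [(0,161),(1,173),(3,51),(4,1)]⟩,
⟨⟨⟨-117,-108,-116⟩,⟨156,-53,-108⟩,⟨28,-156,117⟩⟩,true,107,166,.leaf [(0,4334),(1,197),(4,22),(7,21)],.leaf [(0,4334),(1,197),(4,22),(7,21)]⟩,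
⟨⟨⟨117,28,156⟩,⟨-116,-117,108⟩,⟨108,-156,-53⟩⟩,true,108,67,.leaf [(1,38809),(4,20),(5,110),(15,51)],.leaf [(1,48265),(4,167),(5,77),(10,10047)]⟩,
⟨⟨⟨117,28,-156⟩,⟨-116,-117,-108⟩,⟨-108,156,-53⟩⟩,true,108,130,.leaf [(1,788),(2,4137),(4,25),(5,4)],.leaf [(1,788),(2,4137),(4,25),(5,4)]⟩,
⟨⟨⟨-35,-72,180⟩,⟨-72,-165,-80⟩,⟨180,-80,3⟩⟩,true,109,23,.leaf [(1,985),(2,197),(5,5),(6,1)],.leaf [(1,985),(2,197),(5,5),(6,1)]⟩,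
⟨⟨⟨-35,-72,-180⟩,⟨72,165,-80⟩,⟨180,-80,-3⟩⟩,true,109,174,.leaf [(1,394),(4,19),(10,591),(15,6)],.leaf [(3,105198),(10,20291),(14,145),(23,6)]⟩,
⟨⟨⟨93,172,-24⟩,⟨-44,-3,-192⟩,⟨-168,96,37⟩⟩,true,112,76,.leaf [(0,591),(2,2167),(4,9),(6,7)],.leaf [(0,591),(2,2167),(4,9),(6,7)]⟩,
⟨⟨⟨93,172,24⟩,⟨-44,-3,192⟩,⟨168,-96,37⟩⟩,true,112,121,.leaf [(0,103),(1,168),(2,72),(4,1)],.leaf [(0,103),(1,168),(2,72),(4,1)]⟩,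
⟨⟨⟨-53,156,108⟩,⟨108,117,-116⟩,⟨-156,28,-117⟩⟩,true,116,50,.leaf [(3,38809),(5,162),(7,109),(15,2)],.leaf [(0,180),(3,25),(7,1),(10,4)]⟩,
⟨⟨⟨-53,156,-108⟩,⟨-108,-117,-116⟩,⟨-156,28,117⟩⟩,true,116,147,.leaf [(0,89),(2,152),(4,1),(11,8)],.leaf [(0,107),(2,164),(4,1),(10,2)]⟩,
⟨⟨⟨37,192,-24⟩,⟨96,3,172⟩,⟨168,-44,-93⟩⟩,true,117,10,.leaf [(0,189),(1,163),(3,33),(4,1)],.leaf [(0,189),(1,163),(3,33),(4,1)]⟩,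
⟨⟨⟨37,192,24⟩,⟨-96,-3,172⟩,⟨168,-44,93⟩⟩,true,117,187,.leaf [(0,105),(1,148),(2,90),(4,1)],.leaf [(0,105),(1,148),(2,90),(4,1)]⟩,
⟨⟨⟨163,-72,-84⟩,⟨-24,123,-152⟩,⟨108,136,93⟩⟩,true,118,72,.leaf [(2,3743),(7,20),(14,2),(18,197)],.leaf [(0,349),(2,306),(5,4),(10,177)]⟩,
⟨⟨⟨163,-72,84⟩,⟨24,-123,-152⟩,⟨108,136,-93⟩⟩,true,118,125,.leaf [(0,394),(2,591),(4,3),(5,4)],.leaf [(0,394),(2,591),(4,3),(5,4)]⟩,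
⟨⟨⟨-75,-60,172⟩,⟨180,-53,60⟩,⟨28,180,75⟩⟩,true,119,66,.leaf [(0,20),(2,220),(3,97),(5,1)],.leaf [(0,20),(2,220),(3,97),(5,1)]⟩,
⟨⟨⟨75,60,172⟩,⟨180,-53,-60⟩,⟨28,180,-75⟩⟩,true,119,131,.leaf [(0,120),(1,160),(3,87),(5,1)],.leaf [(0,120),(1,160),(3,87),(5,1)]⟩,
⟨⟨⟨-93,-24,172⟩,⟨168,37,96⟩,⟨-44,192,3⟩⟩,true,121,85,.leaf [(1,1),(2,216),(3,168),(5,1)],.leaf [(1,1),(2,216),(3,168),(5,1)]⟩,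
⟨⟨⟨93,24,172⟩,⟨168,37,-96⟩,⟨-44,192,-3⟩⟩,true,121,112,.leaf [(0,168),(1,103),(3,72),(5,1)],.leaf [(0,168),(1,103),(3,72),(5,1)]⟩,
⟨⟨⟨3,172,96⟩,⟨-44,-93,168⟩,⟨192,-24,37⟩⟩,true,123,32,.leaf [(0,73),(2,192),(3,72),(4,1)],.leaf [(0,73),(2,192),(3,72),(4,1)]⟩,
⟨⟨⟨3,172,-96⟩,⟨-44,-93,-168⟩,⟨-192,24,37⟩⟩,true,123,165,.leaf [(0,1379),(2,1773),(4,11),(6,3)],.leaf [(0,1379),(2,1773),(4,11),(6,3)]⟩,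
⟨⟨⟨163,84,72⟩,⟨-108,93,136⟩,⟨24,-152,123⟩⟩,true,125,79,.leaf [(1,155236),(4,571),(6,306),(14,99)],.leaf [(1,5400),(3,2103),(10,2056),(23,1)]⟩,
⟨⟨⟨163,84,-72⟩,⟨108,-93,136⟩,⟨24,-152,-123⟩⟩,true,125,118,.leaf [(0,165),(1,208),(2,12),(4,1)],.leaf [(0,165),(1,208),(2,12),(4,1)]⟩,
⟨⟨⟨37,168,-96⟩,⟨24,93,172⟩,⟨192,-44,-3⟩⟩,true,127,40,.leaf [(0,75),(1,178),(3,90),(4,1)],.leaf [(0,75),(1,178),(3,90),(4,1)]⟩,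
⟨⟨⟨37,168,96⟩,⟨-24,-93,172⟩,⟨192,-44,3⟩⟩,true,127,157,.leaf [(0,62),(2,199),(3,76),(4,1)],.leaf [(0,62),(2,199),(3,76),(4,1)]⟩,
⟨⟨⟨-93,-84,-152⟩,⟨-108,163,-24⟩,⟨136,72,-123⟩⟩,true,128,44,.leaf [(1,360),(2,264),(14,1),(18,11)],.leaf [(1,175),(2,105),(5,1),(10,51)]⟩,
⟨⟨⟨93,84,-152⟩,⟨-108,163,24⟩,⟨136,72,123⟩⟩,true,128,153,.leaf [(3,648),(10,1),(14,1),(18,8)],.leaf [(1,1512),(3,1323),(10,664),(15,1)]⟩,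
⟨⟨⟨-117,156,28⟩,⟨-108,-53,-156⟩,⟨-116,-108,117⟩⟩,true,130,89,.leaf [(2,106183),(4,574),(7,636),(18,3349)],.leaf [(2,21670),(4,139),(7,84),(10,3349)]⟩,
⟨⟨⟨117,-156,28⟩,⟨-108,-53,156⟩,⟨-116,-108,-117⟩⟩,true,130,108,.leaf [(2,985),(3,10441),(4,17),(5,57)],.leaf [(2,985),(3,10441),(4,17),(5,57)]⟩,
⟨⟨⟨75,172,-60⟩,⟨28,-75,-180⟩,⟨-180,60,-53⟩⟩,true,131,78,.leaf [(0,197),(2,394),(4,2),(6,1)],.leaf [(0,197),(2,394),(4,2),(6,1)]⟩,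
⟨⟨⟨75,172,60⟩,⟨28,-75,180⟩,⟨180,-60,-53⟩⟩,true,131,119,.leaf [(0,160),(1,120),(2,87),(4,1)],.leaf [(0,160),(1,120),(2,87),(4,1)]⟩,
⟨⟨⟨3,-192,-44⟩,⟨-96,37,-168⟩,⟨172,24,-93⟩⟩,true,133,51,.leaf [(1,1),(2,216),(3,48),(5,1)],.leaf [(1,1),(2,216),(3,48),(5,1)]⟩,
⟨⟨⟨-3,192,-44⟩,⟨-96,37,168⟩,⟨172,24,93⟩⟩,true,133,146,.leaf [(0,137),(1,212),(2,18),(4,1)],.leaf [(0,137),(1,212),(2,18),(4,1)]⟩,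
⟨⟨⟨3,-180,-80⟩,⟨-180,-35,72⟩,⟨-80,72,-165⟩⟩,true,137,39,.leaf [(2,8471),(3,7880),(4,25),(5,48)],.leaf [(2,8471),(3,7880),(4,25),(5,48)]⟩,
⟨⟨⟨-3,180,-80⟩,⟨-180,-35,-72⟩,⟨-80,72,165⟩⟩,true,137,158,.leaf [(0,23),(1,8),(2,192),(4,1)],.leaf [(0,23),(1,8),(2,192),(4,1)]⟩,
⟨⟨⟨93,-168,-44⟩,⟨-24,37,-192⟩,⟨172,96,-3⟩⟩,true,138,8,.leaf [(2,3940),(5,51),(7,10),(11,2561)],.leaf [(0,329),(2,686),(5,4),(10,41)]⟩,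
⟨⟨⟨-93,168,-44⟩,⟨-24,37,192⟩,⟨172,96,3⟩⟩,true,138,189,.leaf [(0,131),(1,149),(3,87),(4,1)],.leaf [(0,131),(1,149),(3,87),(4,1)]⟩,
⟨⟨⟨99,168,28⟩,⟨-168,91,48⟩,⟨28,-48,189⟩⟩,true,139,56,.leaf [(1,300819),(4,1760),(7,1195),(18,1576)],.leaf [(1,382968),(4,1107),(10,88847),(14,8)]⟩,
⟨⟨⟨-99,-168,28⟩,⟨-168,91,-48⟩,⟨28,-48,-189⟩⟩,true,139,141,.leaf [(0,105),(1,217),(2,15),(5,1)],.leaf [(0,105),(1,217),(2,15),(5,1)]⟩,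
⟨⟨⟨-99,28,168⟩,⟨28,-189,48⟩,⟨168,48,91⟩⟩,true,141,58,.leaf [(2,38809),(4,165),(5,232),(14,4)],.leaf [(2,100273),(4,417),(5,568),(10,1576)]⟩,
⟨⟨⟨-99,28,-168⟩,⟨28,-189,-48⟩,⟨-168,-48,91⟩⟩,true,141,139,.leaf [(0,217),(1,105),(3,15),(4,1)],.leaf [(0,217),(1,105),(3,15),(4,1)]⟩,
⟨⟨⟨93,-108,136⟩,⟨84,163,72⟩,⟨-152,24,123⟩⟩,true,145,29,.leaf [(0,30732),(3,15563),(5,201),(7,50)],.leaf [(0,30732),(3,15563),(5,201),(7,50)]⟩,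
⟨⟨⟨-93,108,136⟩,⟨84,163,-72⟩,⟨-152,24,-123⟩⟩,true,145,168,.leaf [(3,1947),(5,9),(10,206),(18,110)],.leaf [(1,38809),(5,427),(14,121),(22,7)]⟩,
⟨⟨⟨-3,-44,-192⟩,⟨172,93,-24⟩,⟨96,-168,37⟩⟩,true,146,64,.leaf [(0,11623),(1,52008),(4,1),(6,240)],.leaf [(0,11623),(1,52008),(4,1),(6,240)]⟩,
⟨⟨⟨-3,-44,192⟩,⟨172,93,24⟩,⟨-96,168,37⟩⟩,true,146,133,.leaf [(0,212),(1,137),(3,18),(5,1)],.leaf [(0,212),(1,137),(3,18),(5,1)]⟩,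
⟨⟨⟨-53,-108,-156⟩,⟨156,-117,28⟩,⟨-108,-116,117⟩⟩,true,147,81,.L (.leaf [(0,79),(1,192),(3,72),(4,1)]) (.leaf [(0,26),(1,59),(2,222),(5,1)]) (.leaf [(0,265),(1,192),(3,120),(4,1)]),.leaf [(0,5),(3,200),(4,1),(10,4)]⟩,
⟨⟨⟨-53,-108,156⟩,⟨-156,117,28⟩,⟨-108,-116,-117⟩⟩,true,147,116,.leaf [(1,89),(3,152),(5,1),(10,8)],.leaf [(1,661),(3,640),(5,5),(26,8)]⟩,
⟨⟨⟨-53,180,-60⟩,⟨60,75,172⟩,⟨180,28,-75⟩⟩,true,149,16,.leaf [(1,7),(2,105),(3,225),(4,1)],.leaf [(1,7),(2,105),(3,225),(4,1)]⟩,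
⟨⟨⟨-53,180,60⟩,⟨-60,-75,172⟩,⟨180,28,75⟩⟩,true,149,181,.leaf [(0,180),(1,112),(2,75),(4,1)],.leaf [(0,180),(1,112),(2,75),(4,1)]⟩,
⟨⟨⟨-165,72,-80⟩,⟨72,-35,-180⟩,⟨-80,-180,3⟩⟩,true,150,96,.leaf [(2,32505),(7,105),(11,197),(14,29)],.leaf [(2,26989),(4,117),(7,196),(10,6698)]⟩,
⟨⟨⟨165,-72,-80⟩,⟨72,-35,180⟩,⟨-80,-180,-3⟩⟩,true,150,101,.leaf [(1,41370),(3,21079),(4,252),(7,37)],.leaf [(1,41370),(3,21079),(4,252),(7,37)]⟩,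
⟨⟨⟨93,-152,-84⟩,⟨136,123,-72⟩,⟨108,-24,163⟩⟩,true,153,69,.leaf [(1,116427),(5,7),(6,581),(14,43)],.leaf [(1,21),(2,61),(5,1),(10,67)]⟩,
⟨⟨⟨93,-152,84⟩,⟨136,123,72⟩,⟨-108,24,163⟩⟩,true,153,128,.leaf [(2,540),(11,25),(15,1),(18,4)],.leaf [(0,1182),(5,8),(6,1),(10,197)]⟩,
⟨⟨⟨37,96,-168⟩,⟨-192,-3,-44⟩,⟨-24,172,93⟩⟩,true,157,70,.leaf [(1,6895),(2,5713),(4,55),(7,1)],.leaf [(1,6895),(2,5713),(4,55),(7,1)]⟩,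
⟨⟨⟨37,96,168⟩,⟨192,3,-44⟩,⟨-24,172,-93⟩⟩,true,157,127,.leaf [(0,23246),(3,6501),(4,138),(5,137)],.leaf [(0,23246),(3,6501),(4,138),(5,137)]⟩,
⟨⟨⟨-3,-80,-180⟩,⟨-80,165,-72⟩,⟨180,72,-35⟩⟩,true,158,60,.leaf [(2,38809),(4,42),(5,252),(6,127)],.leaf [(2,38809),(4,42),(5,252),(6,127)]⟩,
⟨⟨⟨-3,-80,180⟩,⟨-80,165,72⟩,⟨-180,-72,-35⟩⟩,true,158,137,.leaf [(0,8),(1,23),(3,192),(5,1)],.leaf [(0,8),(1,23),(3,192),(5,1)]⟩,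
⟨⟨⟨75,180,28⟩,⟨60,-53,180⟩,⟨172,-60,-75⟩⟩,true,160,3,.leaf [(0,185),(1,152),(2,48),(4,1)],.leaf [(0,185),(1,152),(2,48),(4,1)]⟩,
⟨⟨⟨-75,-180,28⟩,⟨60,-53,-180⟩,⟨172,-60,75⟩⟩,true,160,194,.leaf [(0,220),(1,103),(2,20),(7,1)],.leaf [(0,220),(1,103),(2,20),(7,1)]⟩,
⟨⟨⟨-123,-152,-24⟩,⟨136,-93,-108⟩,⟨72,-84,163⟩⟩,true,163,5,.leaf [(1,1863),(10,320),(15,5),(18,72)],.leaf [(1,15957),(5,216),(10,26792),(15,89)]⟩,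
⟨⟨⟨-123,-152,24⟩,⟨136,-93,108⟩,⟨-72,84,163⟩⟩,true,163,192,.leaf [(0,77618),(4,509),(5,516),(14,51)],.leaf [(0,106183),(4,574),(5,636),(10,10047)]⟩,
⟨⟨⟨91,-48,168⟩,⟨48,189,28⟩,⟨-168,28,99⟩⟩,true,164,17,.R (.leaf [(0,108),(3,117),(18,20),(27,1)]) (.leaf [(0,189),(3,144),(18,32),(26,1)]) (.leaf [(0,18927),(3,22509),(18,4159),(31,1)]),.leaf [(0,95),(3,366),(5,2),(10,57)]⟩,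
⟨⟨⟨91,-48,-168⟩,⟨-48,-189,28⟩,⟨-168,28,-99⟩⟩,true,164,180,.leaf [(0,99),(1,196),(2,42),(4,1)],.leaf [(0,99),(1,196),(2,42),(4,1)]⟩,
⟨⟨⟨-3,96,172⟩,⟨-192,37,-24⟩,⟨-44,-168,93⟩⟩,true,165,74,.leaf [(1,38809),(4,168),(5,103),(7,240)],.leaf [(1,38809),(4,168),(5,103),(7,240)]⟩,
⟨⟨⟨3,-96,172⟩,⟨-192,37,24⟩,⟨-44,-168,-93⟩⟩,true,165,123,.leaf [(1,1379),(3,1773),(5,11),(7,3)],.leaf [(1,1379),(3,1773),(5,11),(7,3)]⟩,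
⟨⟨⟨-117,-116,108⟩,⟨28,117,156⟩,⟨-156,108,-53⟩⟩,true,166,90,.leaf [(2,197),(3,788),(4,3),(5,4)],.leaf [(2,197),(3,788),(4,3),(5,4)]⟩,
⟨⟨⟨-117,-116,-108⟩,⟨28,117,-156⟩,⟨156,-108,-53⟩⟩,true,166,107,.leaf [(0,197),(1,4334),(5,22),(6,21)],.leaf [(0,197),(1,4334),(5,22),(6,21)]⟩,
⟨⟨⟨-93,136,-108⟩,⟨-152,-123,-24⟩,⟨-84,72,163⟩⟩,true,168,52,.leaf [(0,58),(2,201),(3,84),(4,1)],.leaf [(0,58),(2,201),(3,84),(4,1)]⟩,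
⟨⟨⟨-93,136,108⟩,⟨-152,-123,24⟩,⟨84,-72,163⟩⟩,true,168,145,.leaf [(2,462),(4,9),(11,536),(18,55)],.leaf [(0,79),(2,159),(4,1),(10,21)]⟩,
⟨⟨⟨-35,-180,72⟩,⟨-180,3,-80⟩,⟨72,-80,-165⟩⟩,true,174,88,.leaf [(0,100),(1,222),(3,15),(5,1)],.leaf [(0,100),(1,222),(3,15),(5,1)]⟩,
⟨⟨⟨-35,-180,-72⟩,⟨180,-3,-80⟩,⟨72,-80,165⟩⟩,true,174,109,.leaf [(0,394),(5,19),(11,591),(14,6)],.leaf [(0,126),(2,19),(6,1),(10,38)]⟩,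
⟨⟨⟨163,-108,24⟩,⟨84,93,-152⟩,⟨72,136,123⟩⟩,true,177,92,.leaf [(0,352),(5,1),(11,3),(18,24)],.leaf [(0,571),(2,306),(5,4),(10,99)]⟩,
⟨⟨⟨163,-108,-24⟩,⟨-84,-93,-152⟩,⟨72,136,-123⟩⟩,true,177,105,.leaf [(0,217),(1,99),(2,27),(5,1)],.leaf [(0,217),(1,99),(2,27),(5,1)]⟩,
⟨⟨⟨91,-168,48⟩,⟨168,99,28⟩,⟨-48,28,189⟩⟩,true,180,33,.leaf [(0,10746),(3,7956),(18,1703),(22,1)],.leaf [(0,81),(3,380),(6,2),(10,57)]⟩,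
⟨⟨⟨91,-168,-48⟩,⟨-168,-99,28⟩,⟨-48,28,-189⟩⟩,true,180,164,.leaf [(1,2561),(2,591),(4,17),(5,9)],.leaf [(1,2561),(2,591),(4,17),(5,9)]⟩,
⟨⟨⟨-53,60,-180⟩,⟨-180,-75,28⟩,⟨-60,172,75⟩⟩,true,181,48,.leaf [(0,108),(1,208),(2,27),(4,1)],.leaf [(0,108),(1,208),(2,27),(4,1)]⟩,
⟨⟨⟨-53,60,180⟩,⟨180,75,28⟩,⟨-60,172,-75⟩⟩,true,181,149,.leaf [(0,112),(1,180),(3,75),(5,1)],.leaf [(0,112),(1,180),(3,75),(5,1)]⟩,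
⟨⟨⟨123,-72,136⟩,⟨-24,163,108⟩,⟨-152,-84,93⟩⟩,true,182,94,.leaf [(0,156),(1,207),(3,22),(7,1)],.leaf [(0,156),(1,207),(3,22),(7,1)]⟩,
⟨⟨⟨-123,72,136⟩,⟨-24,163,-108⟩,⟨-152,-84,-93⟩⟩,true,182,103,.leaf [(1,38809),(5,121),(7,159),(15,21)],.leaf [(1,484029),(7,1749),(10,41764),(23,98)]⟩,
⟨⟨⟨195,28,0⟩,⟨28,-195,0⟩,⟨0,0,-197⟩⟩,true,183,0,.leaf [(0,28),(2,195),(4,1)],.leaf [(0,28),(2,195),(4,1)]⟩,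
⟨⟨⟨37,24,-192⟩,⟨-168,-93,-44⟩,⟨-96,172,3⟩⟩,true,187,80,.leaf [(0,30),(1,148),(2,87),(4,1)],.leaf [(0,30),(1,148),(2,87),(4,1)]⟩,
⟨⟨⟨37,24,192⟩,⟨168,93,-44⟩,⟨-96,172,-3⟩⟩,true,187,117,.leaf [(0,148),(1,105),(3,90),(5,1)],.leaf [(0,148),(1,105),(3,90),(5,1)]⟩,
⟨⟨⟨-93,-44,-168⟩,⟨172,3,-96⟩,⟨24,-192,37⟩⟩,true,189,59,.leaf [(1,69),(3,31),(6,1),(10,41)],.leaf [(3,155236),(4,735),(6,370),(14,61)]⟩,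
⟨⟨⟨-93,-44,168⟩,⟨172,3,96⟩,⟨-24,192,37⟩⟩,true,189,138,.leaf [(0,149),(1,131),(2,87),(5,1)],.leaf [(0,149),(1,131),(2,87),(5,1)]⟩,
⟨⟨⟨189,48,28⟩,⟨-48,91,168⟩,⟨28,-168,99⟩⟩,true,191,95,.leaf [(2,197),(3,394),(4,1),(7,2)],.leaf [(2,197),(3,394),(4,1),(7,2)]⟩,
⟨⟨⟨-189,-48,28⟩,⟨-48,91,-168⟩,⟨28,-168,-99⟩⟩,true,191,102,.leaf [(1,38809),(5,202),(7,45),(15,30)],.leaf [(2,105001),(5,39),(7,547),(10,8471)]⟩,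
⟨⟨⟨123,-24,-152⟩,⟨-72,163,-84⟩,⟨136,108,93⟩⟩,true,192,34,.leaf [(4,4),(5,3),(7,2),(15,1)],.leaf [(2,19897),(5,291),(7,7),(10,17927)]⟩,
⟨⟨⟨-123,24,-152⟩,⟨-72,163,84⟩,⟨136,108,-93⟩⟩,true,192,163,.leaf [(1,77618),(4,516),(5,509),(15,51)],.leaf [(1,27974),(5,50),(10,6895),(14,11)]⟩,
⟨⟨⟨-75,28,180⟩,⟨172,75,60⟩,⟨-60,180,-53⟩⟩,true,194,37,.leaf [(0,152),(1,200),(3,33),(5,1)],.leaf [(0,152),(1,200),(3,33),(5,1)]⟩,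
⟨⟨⟨-75,28,-180⟩,⟨172,75,-60⟩,⟨60,-180,-53⟩⟩,true,194,160,.leaf [(0,103),(1,220),(3,20),(6,1)],.leaf [(0,103),(1,220),(3,20),(6,1)]⟩]

theorem primeOk_197 : PrimeOk 197 := primeOk (by norm_num) (by norm_num) (by norm_num) L197
  (by decide +kernel) (by decide +kernel)

def L239 : List Cls := [
⟨⟨⟨171,138,94⟩,⟨18,-149,186⟩,⟨166,-126,-117⟩⟩,true,5,90,.leaf [(0,21),(2,266),(3,92),(4,1)],.leaf [(0,21),(2,266),(3,92),(4,1)]⟩,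
⟨⟨⟨-171,-138,94⟩,⟨18,-149,-186⟩,⟨166,-126,117⟩⟩,true,5,149,.leaf [(0,235),(1,211),(2,29),(7,1)],.leaf [(0,235),(1,211),(2,29),(7,1)]⟩,
⟨⟨⟨21,126,202⟩,⟨6,-203,126⟩,⟨238,-6,-21⟩⟩,true,6,21,.leaf [(0,21749),(2,41586),(4,223),(5,76)],.leaf [(0,21749),(2,41586),(4,223),(5,76)]⟩,
⟨⟨⟨-21,-126,202⟩,⟨6,-203,-126⟩,⟨238,-6,21⟩⟩,true,6,218,.leaf [(0,21),(1,181),(2,99),(5,1)],.leaf [(0,21),(1,181),(2,99),(5,1)]⟩,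
⟨⟨⟨165,-114,130⟩,⟨-150,-5,186⟩,⟨-86,-210,-75⟩⟩,true,8,37,.leaf [(3,57121),(4,36),(5,246),(7,85)],.leaf [(3,57121),(4,36),(5,246),(7,85)]⟩,
⟨⟨⟨-165,114,130⟩,⟨-150,-5,-186⟩,⟨-86,-210,75⟩⟩,true,8,202,.leaf [(0,25),(1,205),(2,71),(7,1)],.leaf [(0,25),(1,205),(2,71),(7,1)]⟩,
⟨⟨⟨-59,186,-138⟩,⟨66,-123,-194⟩,⟨-222,-86,-21⟩⟩,true,9,55,.leaf [(0,45171),(2,9560),(4,159),(7,56)],.leaf [(0,45171),(2,9560),(4,159),(7,56)]⟩,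
⟨⟨⟨-59,186,138⟩,⟨-66,123,-194⟩,⟨-222,-86,21⟩⟩,true,9,184,.leaf [(0,5643),(3,7956),(18,1346),(22,1)],.leaf [(0,15),(3,181),(7,1),(10,85)]⟩,
⟨⟨⟨-149,186,18⟩,⟨-126,-117,166⟩,⟨138,94,171⟩⟩,true,18,48,.leaf [(0,237),(1,148),(2,66),(4,1)],.leaf [(0,237),(1,148),(2,66),(4,1)]⟩,
⟨⟨⟨-149,186,-18⟩,⟨126,117,166⟩,⟨138,94,-171⟩⟩,true,18,191,.leaf [(0,10994),(3,33699),(4,174),(5,11)],.leaf [(0,10994),(3,33699),(4,174),(5,11)]⟩,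
⟨⟨⟨123,186,-86⟩,⟨-66,-59,-222⟩,⟨-194,138,21⟩⟩,true,19,112,.leaf [(2,103965),(4,471),(14,100),(18,6214)],.leaf [(2,89147),(4,431),(5,24),(10,15296)]⟩,
⟨⟨⟨-123,-186,-86⟩,⟨-66,-59,222⟩,⟨-194,138,-21⟩⟩,true,19,127,.leaf [(1,32026),(3,59511),(4,324),(5,127)],.leaf [(1,32026),(3,59511),(4,324),(5,127)]⟩,
⟨⟨⟨21,202,126⟩,⟨238,-21,-6⟩,⟨6,126,-203⟩⟩,true,21,6,.leaf [(0,3107),(3,717),(4,17),(5,9)],.leaf [(0,3107),(3,717),(4,17),(5,9)]⟩,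
⟨⟨⟨21,202,-126⟩,⟨238,-21,6⟩,⟨-6,-126,-203⟩⟩,true,21,233,.leaf [(0,223),(1,69),(3,63),(4,1)],.leaf [(0,223),(1,69),(3,63),(4,1)]⟩,
⟨⟨⟨-213,94,54⟩,⟨-86,-219,42⟩,⟨66,18,229⟩⟩,true,22,94,.leaf [(0,190),(2,75),(4,1),(11,12)],.leaf [(0,217),(2,93),(4,1),(10,3)]⟩,
⟨⟨⟨-213,94,-54⟩,⟨-86,-219,-42⟩,⟨-66,-18,229⟩⟩,true,22,145,.leaf [(0,226),(1,12),(2,87),(4,1)],.leaf [(0,226),(1,12),(2,87),(4,1)]⟩,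
⟨⟨⟨219,18,94⟩,⟨-42,229,54⟩,⟨-86,-66,213⟩⟩,true,23,67,.leaf [(1,63),(2,48),(3,244),(7,1)],.leaf [(1,63),(2,48),(3,244),(7,1)]⟩,
⟨⟨⟨-219,-18,94⟩,⟨-42,229,-54⟩,⟨-86,-66,-213⟩⟩,true,23,172,.leaf [(1,13145),(5,86),(7,15),(10,2868)],.leaf [(1,57121),(5,250),(7,75),(14,12)]⟩,
⟨⟨⟨-5,114,-210⟩,⟨-150,-165,-86⟩,⟨-186,130,75⟩⟩,true,25,42,.leaf [(0,5),(2,274),(3,124),(4,1)],.leaf [(0,5),(2,274),(3,124),(4,1)]⟩,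
⟨⟨⟨-5,114,210⟩,⟨150,165,-86⟩,⟨-186,130,-75⟩⟩,true,25,197,.leaf [(0,16),(1,60),(3,225),(5,1)],.leaf [(0,16),(1,60),(3,225),(5,1)]⟩,
⟨⟨⟨219,-42,-86⟩,⟨18,229,-66⟩,⟨94,54,213⟩⟩,true,26,76,.leaf [(3,57121),(5,33),(7,148),(14,48)],.leaf [(0,14),(3,29),(5,1),(10,82)]⟩,
⟨⟨⟨-219,42,-86⟩,⟨18,229,66⟩,⟨94,54,-213⟩⟩,true,26,163,.leaf [(1,3585),(5,3),(10,239),(14,5)],.L (.leaf [(2,34177),(3,13384),(4,77),(5,144)]) (.leaf [(0,1542267),(5,2358),(22,917),(31,154)]) (.leaf [(0,209),(1,35),(3,279),(4,1)])⟩,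
⟨⟨⟨165,-86,-150⟩,⟨130,-75,186⟩,⟨-114,-210,-5⟩⟩,true,27,86,.leaf [(1,158),(3,134),(4,1),(10,11)],.leaf [(1,158218),(3,123802),(4,851),(14,11)]⟩,
⟨⟨⟨165,-86,150⟩,⟨130,-75,-186⟩,⟨114,210,-5⟩⟩,true,27,153,.leaf [(0,251),(1,155),(2,45),(5,1)],.leaf [(0,251),(1,155),(2,45),(5,1)]⟩,
⟨⟨⟨-5,-150,-186⟩,⟨114,-165,130⟩,⟨-210,-86,75⟩⟩,true,30,85,.leaf [(1,91),(2,15),(3,225),(4,1)],.leaf [(1,91),(2,15),(3,225),(4,1)]⟩,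
⟨⟨⟨-5,-150,186⟩,⟨-114,165,130⟩,⟨-210,-86,-75⟩⟩,true,30,154,.leaf [(0,4),(2,60),(3,261),(5,1)],.leaf [(0,4),(2,60),(3,261),(5,1)]⟩,
⟨⟨⟨-21,-194,-138⟩,⟨-86,-123,186⟩,⟨-222,66,-59⟩⟩,true,32,109,.leaf [(1,40630),(3,38001),(4,260),(5,71)],.leaf [(1,40630),(3,38001),(4,260),(5,71)]⟩,
⟨⟨⟨-21,-194,138⟩,⟨-86,-123,-186⟩,⟨222,-66,-59⟩⟩,true,32,130,.leaf [(0,41),(1,197),(2,87),(5,1)],.leaf [(0,41),(1,197),(2,87),(5,1)]⟩,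
⟨⟨⟨165,130,-114⟩,⟨-86,-75,-210⟩,⟨-150,186,-5⟩⟩,true,37,8,.leaf [(2,57121),(4,246),(5,36),(6,85)],.leaf [(2,57121),(4,246),(5,36),(6,85)]⟩,
⟨⟨⟨165,130,114⟩,⟨-86,-75,210⟩,⟨150,-186,-5⟩⟩,true,37,231,.leaf [(0,25),(1,96),(2,180),(4,1)],.leaf [(0,25),(1,96),(2,180),(4,1)]⟩,
⟨⟨⟨-203,6,-126⟩,⟨-126,-21,202⟩,⟨-6,238,21⟩⟩,true,40,116,.leaf [(0,27),(1,139),(3,189),(4,1)],.leaf [(0,27),(1,139),(3,189),(4,1)]⟩,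
⟨⟨⟨-203,6,126⟩,⟨126,21,202⟩,⟨-6,238,-21⟩⟩,true,40,123,.leaf [(0,15535),(1,13862),(4,47),(5,70)],.leaf [(0,15535),(1,13862),(4,47),(5,70)]⟩,
⟨⟨⟨-5,-210,114⟩,⟨-186,75,130⟩,⟨-150,-86,-165⟩⟩,true,42,25,.leaf [(1,5),(2,124),(3,274),(5,1)],.leaf [(1,5),(2,124),(3,274),(5,1)]⟩,
⟨⟨⟨-5,-210,-114⟩,⟨186,-75,130⟩,⟨-150,-86,165⟩⟩,true,42,214,.leaf [(0,57121),(4,60),(5,64),(6,201)],.leaf [(0,57121),(4,60),(5,64),(6,201)]⟩,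
⟨⟨⟨-203,114,-54⟩,⟨-54,-171,-158⟩,⟨-114,-122,171⟩⟩,true,43,118,.leaf [(2,57121),(4,9),(6,157),(14,59)],.leaf [(0,191),(2,68),(4,1),(10,26)]⟩,
⟨⟨⟨-203,114,54⟩,⟨54,171,-158⟩,⟨-114,-122,-171⟩⟩,true,43,121,.L (.leaf [(0,240),(1,211),(2,24),(5,1)]) (.leaf [(0,38479),(1,6931),(4,197),(15,21)]) (.leaf [(0,287),(1,266),(3,174),(4,1)]),.leaf [(1,5238),(3,4137),(10,2548),(23,1)]⟩,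
⟨⟨⟨-75,210,-86⟩,⟨-186,-5,150⟩,⟨130,114,165⟩⟩,true,45,84,.leaf [(0,170),(1,236),(2,45),(4,1)],.leaf [(0,170),(1,236),(2,45),(4,1)]⟩,
⟨⟨⟨75,-210,-86⟩,⟨-186,-5,-150⟩,⟨130,114,-165⟩⟩,true,45,155,.leaf [(0,95),(2,229),(3,79),(5,1)],.leaf [(0,95),(2,229),(3,79),(5,1)]⟩,
⟨⟨⟨229,18,66⟩,⟨42,-219,-86⟩,⟨54,94,-213⟩⟩,true,46,89,.leaf [(0,7409),(1,5736),(4,21),(5,32)],.leaf [(0,7409),(1,5736),(4,21),(5,32)]⟩,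
⟨⟨⟨229,18,-66⟩,⟨-42,219,-86⟩,⟨54,94,213⟩⟩,true,46,150,.leaf [(5,4158),(7,4422),(14,1901),(18,57121)],.leaf [(4,83),(5,725),(7,167),(10,57121)]⟩,
⟨⟨⟨123,-194,66⟩,⟨-86,21,222⟩,⟨-186,-138,-59⟩⟩,true,47,53,.leaf [(3,12428),(4,33),(5,20),(18,1195)],.leaf [(3,90103),(4,48),(5,355),(10,9560)]⟩,
⟨⟨⟨123,-194,-66⟩,⟨-86,21,-222⟩,⟨186,138,-59⟩⟩,true,47,186,.leaf [(0,38001),(2,56404),(5,288),(6,7)],.leaf [(0,38001),(2,56404),(5,288),(6,7)]⟩,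
⟨⟨⟨-149,18,186⟩,⟨138,171,94⟩,⟨-126,166,-117⟩⟩,true,48,18,.leaf [(0,148),(1,237),(3,66),(5,1)],.leaf [(0,148),(1,237),(3,66),(5,1)]⟩,
⟨⟨⟨-149,18,-186⟩,⟨-138,-171,94⟩,⟨-126,166,117⟩⟩,true,48,221,.leaf [(0,189),(1,229),(3,51),(4,1)],.leaf [(0,189),(1,229),(3,51),(4,1)]⟩,
⟨⟨⟨-171,54,-158⟩,⟨-114,-203,54⟩,⟨-122,114,171⟩⟩,true,50,75,.leaf [(0,257),(1,206),(3,6),(4,1)],.leaf [(0,257),(1,206),(3,6),(4,1)]⟩,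
⟨⟨⟨171,-54,-158⟩,⟨-114,-203,-54⟩,⟨-122,114,-171⟩⟩,true,50,164,.leaf [(1,24856),(2,38001),(4,237),(5,16)],.leaf [(1,24856),(2,38001),(4,237),(5,16)]⟩,
⟨⟨⟨171,-122,-114⟩,⟨-158,-171,-54⟩,⟨-54,114,-203⟩⟩,true,51,79,.leaf [(1,478),(2,717),(4,5),(5,2)],.leaf [(1,478),(2,717),(4,5),(5,2)]⟩,
⟨⟨⟨171,-122,114⟩,⟨-158,-171,54⟩,⟨54,-114,-203⟩⟩,true,51,160,.leaf [(1,2390),(2,717),(4,13),(5,10)],.leaf [(1,2390),(2,717),(4,13),(5,10)]⟩,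
⟨⟨⟨229,-42,-54⟩,⟨-18,-219,94⟩,⟨-66,-86,-213⟩⟩,true,52,101,.leaf [(0,39),(1,148),(2,138),(4,1)],.leaf [(0,39),(1,148),(2,138),(4,1)]⟩,
⟨⟨⟨229,-42,54⟩,⟨18,219,94⟩,⟨-66,-86,213⟩⟩,true,52,138,.leaf [(4,108),(6,261),(10,57121),(14,208)],.leaf [(5,75087),(10,2741808),(23,6688),(31,59)]⟩,
⟨⟨⟨123,66,-194⟩,⟨-186,-59,-138⟩,⟨-86,222,21⟩⟩,true,53,47,.leaf [(2,240673),(4,1225),(5,408),(18,4780)],.leaf [(2,103487),(4,515),(5,312),(10,9560)]⟩,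
⟨⟨⟨-123,-66,-194⟩,⟨-186,-59,138⟩,⟨-86,222,-21⟩⟩,true,53,192,.leaf [(1,56404),(3,38001),(4,288),(5,7)],.leaf [(1,56404),(3,38001),(4,288),(5,7)]⟩,
⟨⟨⟨-59,-138,186⟩,⟨-222,-21,-86⟩,⟨66,-194,-123⟩⟩,true,55,9,.leaf [(1,45171),(3,9560),(5,159),(6,56)],.leaf [(1,45171),(3,9560),(5,159),(6,56)]⟩,
⟨⟨⟨-59,-138,-186⟩,⟨222,21,-86⟩,⟨66,-194,123⟩⟩,true,55,230,.leaf [(0,26051),(3,66920),(4,166),(14,85)],.leaf [(0,75),(3,92),(6,2),(10,159)]⟩,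
⟨⟨⟨-59,222,66⟩,⟨-138,21,-194⟩,⟨-186,-86,123⟩⟩,true,57,88,.leaf [(2,114242),(4,75),(7,92),(14,159)],.leaf [(2,79348),(4,573),(7,16),(10,38001)]⟩,
⟨⟨⟨-59,222,-66⟩,⟨138,-21,-194⟩,⟨-186,-86,-123⟩⟩,true,57,151,.leaf [(0,15296),(3,2629),(4,40),(7,41)],.leaf [(0,15296),(3,2629),(4,40),(7,41)]⟩,
⟨⟨⟨117,94,186⟩,⟨166,-171,-18⟩,⟨126,138,-149⟩⟩,true,58,69,.leaf [(0,56165),(2,41586),(4,335),(5,204)],.leaf [(0,56165),(2,41586),(4,335),(5,204)]⟩,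
⟨⟨⟨117,94,-186⟩,⟨166,-171,18⟩,⟨-126,-138,-149⟩⟩,true,58,170,.leaf [(0,259),(1,204),(2,6),(4,1)],.leaf [(0,259),(1,204),(2,6),(4,1)]⟩,
⟨⟨⟨-21,-86,-222⟩,⟨-194,-123,66⟩,⟨-138,186,-59⟩⟩,true,61,113,.leaf [(0,37),(1,249),(3,39),(4,1)],.leaf [(0,37),(1,249),(3,39),(4,1)]⟩,
⟨⟨⟨-21,-86,222⟩,⟨-194,-123,-66⟩,⟨138,-186,-59⟩⟩,true,61,126,.leaf [(1,114242),(4,343),(5,742),(14,87)],.leaf [(1,19513872),(22,7860),(26,535121),(30,145)]⟩,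
⟨⟨⟨-75,130,186⟩,⟨-86,165,-150⟩,⟨-210,-114,-5⟩⟩,true,62,74,.leaf [(0,12667),(1,1195),(5,17),(6,57)],.leaf [(0,12667),(1,1195),(5,17),(6,57)]⟩,
⟨⟨⟨-75,130,-186⟩,⟨-86,165,150⟩,⟨210,114,-5⟩⟩,true,62,165,.leaf [(1,9799),(3,10277),(4,59),(6,7)],.leaf [(1,9799),(3,10277),(4,59),(6,7)]⟩,
⟨⟨⟨171,18,166⟩,⟨138,-149,-126⟩,⟨94,186,-117⟩⟩,true,63,103,.leaf [(0,168),(1,187),(3,96),(5,1)],.leaf [(0,168),(1,187),(3,96),(5,1)]⟩,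
⟨⟨⟨-171,-18,166⟩,⟨138,-149,126⟩,⟨94,186,117⟩⟩,true,63,136,.leaf [(0,9560),(2,5019),(4,49),(5,40)],.leaf [(0,9560),(2,5019),(4,49),(5,40)]⟩,
⟨⟨⟨219,94,18⟩,⟨-86,213,-66⟩,⟨-42,54,229⟩⟩,true,67,23,.leaf [(0,63),(2,244),(3,48),(6,1)],.leaf [(0,63),(2,244),(3,48),(6,1)]⟩,
⟨⟨⟨219,94,-18⟩,⟨-86,213,66⟩,⟨42,-54,229⟩⟩,true,67,216,.leaf [(2,57121),(4,123),(6,202),(15,12)],.leaf [(2,48995),(4,75),(6,191),(10,717)]⟩,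
⟨⟨⟨21,-6,238⟩,⟨-126,-203,6⟩,⟨202,-126,-21⟩⟩,true,68,91,.leaf [(1,57121),(4,132),(5,286),(7,63)],.leaf [(1,57121),(4,132),(5,286),(7,63)]⟩,
⟨⟨⟨-21,6,238⟩,⟨-126,-203,-6⟩,⟨202,-126,21⟩⟩,true,68,148,.leaf [(1,57121),(4,120),(5,280),(7,99)],.leaf [(1,57121),(4,120),(5,280),(7,99)]⟩,
⟨⟨⟨117,186,94⟩,⟨126,-149,138⟩,⟨166,-18,-171⟩⟩,true,69,58,.leaf [(0,194),(1,44),(2,141),(4,1)],.leaf [(0,194),(1,44),(2,141),(4,1)]⟩,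
⟨⟨⟨-117,-186,94⟩,⟨126,-149,-138⟩,⟨166,-18,171⟩⟩,true,69,181,.leaf [(0,5736),(1,5975),(5,5),(7,24)],.leaf [(0,5736),(1,5975),(5,5),(7,24)]⟩,
⟨⟨⟨-213,-66,-86⟩,⟨-54,229,-42⟩,⟨94,-18,-219⟩⟩,true,71,107,.leaf [(1,97034),(2,88908),(5,713),(15,63)],.leaf [(1,560455),(5,1567),(10,85801),(22,5)]⟩,
⟨⟨⟨213,66,-86⟩,⟨-54,229,42⟩,⟨94,-18,219⟩⟩,true,71,132,.leaf [(3,57121),(4,120),(7,280),(15,33)],.leaf [(1,6912),(3,3288),(10,2777),(22,1)]⟩,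
⟨⟨⟨-75,186,130⟩,⟨-210,-5,-114⟩,⟨-86,-150,165⟩⟩,true,74,62,.leaf [(0,1195),(1,12667),(4,17),(7,57)],.leaf [(0,1195),(1,12667),(4,17),(7,57)]⟩,
⟨⟨⟨75,-186,130⟩,⟨-210,-5,114⟩,⟨-86,-150,-165⟩⟩,true,74,177,.leaf [(0,36),(1,85),(3,210),(5,1)],.leaf [(0,36),(1,85),(3,210),(5,1)]⟩,
⟨⟨⟨-171,-158,54⟩,⟨-122,171,114⟩,⟨-114,54,-203⟩⟩,true,75,50,.leaf [(0,206),(1,257),(2,6),(5,1)],.leaf [(0,206),(1,257),(2,6),(5,1)]⟩,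
⟨⟨⟨-171,-158,-54⟩,⟨-122,171,-114⟩,⟨114,-54,-203⟩⟩,true,75,189,.leaf [(1,38001),(2,24856),(5,237),(6,16)],.leaf [(1,38001),(2,24856),(5,237),(6,16)]⟩,
⟨⟨⟨219,-86,-42⟩,⟨94,213,54⟩,⟨18,-66,229⟩⟩,true,76,26,.leaf [(2,57121),(4,33),(6,148),(15,48)],.leaf [(1,384),(2,28),(6,1),(10,99)]⟩,
⟨⟨⟨219,-86,42⟩,⟨94,213,-54⟩,⟨-18,66,229⟩⟩,true,76,213,.leaf [(2,57121),(5,132),(6,286),(14,21)],.leaf [(2,38240),(5,120),(6,197),(10,5019)]⟩,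
⟨⟨⟨117,166,126⟩,⟨94,-171,138⟩,⟨186,-18,-149⟩⟩,true,77,93,.leaf [(0,163),(1,12),(2,174),(4,1)],.leaf [(0,163),(1,12),(2,174),(4,1)]⟩,
⟨⟨⟨117,166,-126⟩,⟨94,-171,-138⟩,⟨-186,18,-149⟩⟩,true,77,146,.leaf [(0,4541),(2,1434),(4,23),(5,12)],.leaf [(0,4541),(2,1434),(4,23),(5,12)]⟩,
⟨⟨⟨171,-114,-122⟩,⟨-54,-203,114⟩,⟨-158,-54,-171⟩⟩,true,79,51,.leaf [(0,50),(1,236),(2,39),(4,1)],.leaf [(0,50),(1,236),(2,39),(4,1)]⟩,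
⟨⟨⟨-171,114,-122⟩,⟨-54,-203,-114⟩,⟨-158,-54,171⟩⟩,true,79,188,.leaf [(0,221),(1,8),(2,96),(4,1)],.leaf [(0,221),(1,8),(2,96),(4,1)]⟩,
⟨⟨⟨-75,-86,210⟩,⟨130,165,114⟩,⟨-186,150,-5⟩⟩,true,84,45,.leaf [(0,236),(1,170),(3,45),(5,1)],.leaf [(0,236),(1,170),(3,45),(5,1)]⟩,
⟨⟨⟨-75,-86,-210⟩,⟨130,165,-114⟩,⟨186,-150,-5⟩⟩,true,84,194,.leaf [(0,79),(1,229),(3,95),(6,1)],.leaf [(0,79),(1,229),(3,95),(6,1)]⟩,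
⟨⟨⟨-5,-186,-150⟩,⟨-210,75,-86⟩,⟨114,130,-165⟩⟩,true,85,30,.leaf [(2,59989),(3,9799),(4,91),(5,265)],.leaf [(2,59989),(3,9799),(4,91),(5,265)]⟩,
⟨⟨⟨-5,-186,150⟩,⟨210,-75,-86⟩,⟨114,130,165⟩⟩,true,85,209,.leaf [(0,9799),(2,14340),(5,64),(6,15)],.leaf [(0,9799),(2,14340),(5,64),(6,15)]⟩,
⟨⟨⟨165,-150,-86⟩,⟨-114,-5,-210⟩,⟨130,186,-75⟩⟩,true,86,27,.leaf [(0,158),(2,134),(5,1),(11,11)],.leaf [(0,731),(2,602),(5,4),(10,11)]⟩,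
⟨⟨⟨-165,150,-86⟩,⟨-114,-5,210⟩,⟨130,186,75⟩⟩,true,86,212,.leaf [(0,155),(1,200),(3,96),(4,1)],.leaf [(0,155),(1,200),(3,96),(4,1)]⟩,
⟨⟨⟨-59,66,222⟩,⟨-186,123,-86⟩,⟨-138,-194,21⟩⟩,true,88,57,.leaf [(3,114242),(5,75),(6,92),(15,159)],.leaf [(1,2025),(3,627),(10,719),(14,1)]⟩,
⟨⟨⟨-59,66,-222⟩,⟨186,-123,-86⟩,⟨-138,-194,-21⟩⟩,true,88,182,.leaf [(0,189),(1,40),(3,96),(4,1)],.leaf [(0,189),(1,40),(3,96),(4,1)]⟩,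
⟨⟨⟨229,66,18⟩,⟨54,-213,94⟩,⟨42,-86,-219⟩⟩,true,89,46,.leaf [(0,90),(1,76),(2,189),(4,1)],.leaf [(0,90),(1,76),(2,189),(4,1)]⟩,
⟨⟨⟨229,66,-18⟩,⟨-54,213,94⟩,⟨42,-86,219⟩⟩,true,89,193,.leaf [(1,473),(3,675),(4,5),(18,147)],.leaf [(1,1242),(3,945),(10,700),(15,1)]⟩,
⟨⟨⟨171,94,138⟩,⟨166,-117,-126⟩,⟨18,186,-149⟩⟩,true,90,5,.leaf [(1,21),(2,92),(3,266),(5,1)],.leaf [(1,21),(2,92),(3,266),(5,1)]⟩,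
⟨⟨⟨171,94,-138⟩,⟨166,-117,126⟩,⟨-18,-186,-149⟩⟩,true,90,234,.leaf [(0,211),(1,240),(3,24),(4,1)],.leaf [(0,211),(1,240),(3,24),(4,1)]⟩,
⟨⟨⟨21,238,-6⟩,⟨202,-21,-126⟩,⟨-126,6,-203⟩⟩,true,91,68,.leaf [(0,57121),(4,286),(5,132),(6,63)],.leaf [(0,57121),(4,286),(5,132),(6,63)]⟩,
⟨⟨⟨21,238,6⟩,⟨202,-21,126⟩,⟨126,-6,-203⟩⟩,true,91,171,.leaf [(0,259),(1,99),(3,21),(4,1)],.leaf [(0,259),(1,99),(3,21),(4,1)]⟩,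
⟨⟨⟨117,126,166⟩,⟨186,-149,-18⟩,⟨94,138,-171⟩⟩,true,93,77,.leaf [(0,61184),(2,33699),(4,337),(5,184)],.leaf [(0,61184),(2,33699),(4,337),(5,184)]⟩,
⟨⟨⟨-117,-126,166⟩,⟨186,-149,18⟩,⟨94,138,171⟩⟩,true,93,162,.leaf [(0,8843),(2,80065),(5,337),(7,5)],.leaf [(0,8843),(2,80065),(5,337),(7,5)]⟩,
⟨⟨⟨-213,54,94⟩,⟨66,229,18⟩,⟨-86,42,-219⟩⟩,true,94,22,.leaf [(1,190),(3,75),(5,1),(10,12)],.leaf [(1,647690),(3,280347),(5,2957),(22,12)]⟩,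
⟨⟨⟨213,-54,94⟩,⟨66,229,-18⟩,⟨-86,42,219⟩⟩,true,94,217,.leaf [(0,11472),(3,38957),(5,99),(7,164)],.leaf [(0,11472),(3,38957),(5,99),(7,164)]⟩,
⟨⟨⟨-149,126,-138⟩,⟨-186,-117,94⟩,⟨-18,166,171⟩⟩,true,97,110,.leaf [(0,219),(1,232),(2,24),(4,1)],.leaf [(0,219),(1,232),(2,24),(4,1)]⟩,
⟨⟨⟨-149,126,138⟩,⟨186,117,94⟩,⟨-18,166,-171⟩⟩,true,97,129,.leaf [(0,1912),(3,9321),(4,48),(5,37)],.leaf [(0,1912),(3,9321),(4,48),(5,37)]⟩,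
⟨⟨⟨229,-54,-42⟩,⟨-66,-213,-86⟩,⟨-18,94,-219⟩⟩,true,101,52,.leaf [(0,19598),(1,12667),(4,46),(5,83)],.leaf [(0,19598),(1,12667),(4,46),(5,83)]⟩,
⟨⟨⟨229,-54,42⟩,⟨66,213,-86⟩,⟨-18,94,219⟩⟩,true,101,187,.leaf [(0,3618),(3,3636),(18,467),(22,1)],.leaf [(0,79),(3,99),(5,1),(10,69)]⟩,
⟨⟨⟨171,166,18⟩,⟨94,-117,186⟩,⟨138,-126,-149⟩⟩,true,103,63,.leaf [(0,187),(1,168),(2,96),(4,1)],.leaf [(0,187),(1,168),(2,96),(4,1)]⟩,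
⟨⟨⟨171,166,-18⟩,⟨94,-117,-186⟩,⟨-138,126,-149⟩⟩,true,103,176,.leaf [(0,57121),(4,235),(5,264),(6,24)],.leaf [(0,57121),(4,235),(5,264),(6,24)]⟩,
⟨⟨⟨-213,-86,-66⟩,⟨94,-219,-18⟩,⟨-54,-42,229⟩⟩,true,107,71,.leaf [(0,97034),(3,88908),(4,713),(14,63)],.leaf [(0,203),(3,348),(4,2),(10,63)]⟩,
⟨⟨⟨-213,-86,66⟩,⟨94,-219,18⟩,⟨54,42,229⟩⟩,true,107,168,.leaf [(4,1503),(5,2226),(15,926),(18,57121)],.leaf [(0,125953),(4,790),(5,348),(10,23661)]⟩,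
⟨⟨⟨-21,-138,-194⟩,⟨-222,-59,66⟩,⟨-86,186,-123⟩⟩,true,109,32,.leaf [(2,6931),(3,4063),(4,23),(5,27)],.leaf [(2,6931),(3,4063),(4,23),(5,27)]⟩,
⟨⟨⟨21,138,-194⟩,⟨-222,-59,-66⟩,⟨-86,186,123⟩⟩,true,109,207,.leaf [(1,87),(2,197),(3,41),(4,1)],.leaf [(1,87),(2,197),(3,41),(4,1)]⟩,
⟨⟨⟨-149,-138,126⟩,⟨-18,171,166⟩,⟨-186,94,-117⟩⟩,true,110,97,.leaf [(0,232),(1,219),(3,24),(5,1)],.leaf [(0,232),(1,219),(3,24),(5,1)]⟩,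
⟨⟨⟨-149,-138,-126⟩,⟨18,-171,166⟩,⟨-186,94,117⟩⟩,true,110,142,.leaf [(0,33),(1,79),(3,213),(4,1)],.leaf [(0,33),(1,79),(3,213),(4,1)]⟩,
⟨⟨⟨123,-86,186⟩,⟨-194,21,138⟩,⟨-66,-222,-59⟩⟩,true,112,19,.leaf [(3,59033),(4,168),(5,149),(18,7648)],.leaf [(1,1542267),(5,7110),(22,1100),(31,79)]⟩,
⟨⟨⟨123,-86,-186⟩,⟨-194,21,-138⟩,⟨66,222,-59⟩⟩,true,112,220,.leaf [(2,57121),(4,249),(5,288),(6,76)],.leaf [(2,57121),(4,249),(5,288),(6,76)]⟩,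
⟨⟨⟨-21,-222,-86⟩,⟨-138,-59,186⟩,⟨-194,66,-123⟩⟩,true,113,61,.leaf [(2,11233),(3,16969),(4,53),(5,69)],.leaf [(2,11233),(3,16969),(4,53),(5,69)]⟩,
⟨⟨⟨21,222,-86⟩,⟨-138,-59,-186⟩,⟨-194,66,123⟩⟩,true,113,178,.leaf [(2,203),(4,2),(11,116),(18,21)],.leaf [(2,62140),(4,295),(7,48),(10,6931)]⟩,
⟨⟨⟨-203,-126,6⟩,⟨-6,21,238⟩,⟨-126,202,-21⟩⟩,true,116,40,.leaf [(0,7409),(1,5736),(4,21),(5,32)],.leaf [(0,7409),(1,5736),(4,21),(5,32)]⟩,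
⟨⟨⟨-203,-126,-6⟩,⟨6,-21,238⟩,⟨-126,202,21⟩⟩,true,116,199,.leaf [(0,7648),(1,5019),(4,24),(5,31)],.leaf [(0,7648),(1,5019),(4,24),(5,31)]⟩,
⟨⟨⟨-203,-54,114⟩,⟨-114,171,-122⟩,⟨-54,-158,-171⟩⟩,true,118,43,.leaf [(3,57121),(5,9),(7,157),(15,59)],.leaf [(1,621),(3,87),(10,407),(14,1)]⟩,
⟨⟨⟨-203,-54,-114⟩,⟨114,-171,-122⟩,⟨-54,-158,171⟩⟩,true,118,196,.leaf [(0,57121),(4,191),(6,68),(14,26)],.leaf [(0,9),(2,157),(6,1),(10,59)]⟩,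
⟨⟨⟨-203,54,114⟩,⟨-114,-171,-122⟩,⟨54,-158,171⟩⟩,true,121,43,.leaf [(2,123563),(4,84),(6,629),(18,6214)],.leaf [(0,98),(2,68),(4,1),(10,59)]⟩,
⟨⟨⟨-203,54,-114⟩,⟨114,171,-122⟩,⟨54,-158,-171⟩⟩,true,121,196,.leaf [(3,21271),(5,24),(7,43),(18,1912)],.leaf [(1,6169068),(7,45945),(22,5032),(31,41)]⟩,
⟨⟨⟨-203,126,6⟩,⟨-6,-21,238⟩,⟨126,202,21⟩⟩,true,123,40,.leaf [(0,56),(2,91),(3,232),(4,1)],.leaf [(0,56),(2,91),(3,232),(4,1)]⟩,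
⟨⟨⟨-203,126,-6⟩,⟨6,21,238⟩,⟨126,202,-21⟩⟩,true,123,199,.leaf [(0,35),(2,70),(3,244),(4,1)],.leaf [(0,35),(2,70),(3,244),(4,1)]⟩,
⟨⟨⟨-21,222,-86⟩,⟨138,-59,-186⟩,⟨-194,-66,-123⟩⟩,true,126,61,.leaf [(0,114242),(4,742),(5,343),(15,87)],.leaf [(0,168017),(4,922),(5,244),(10,20793)]⟩,
⟨⟨⟨21,-222,-86⟩,⟨138,-59,186⟩,⟨-194,-66,123⟩⟩,true,126,178,.leaf [(3,57121),(4,324),(5,165),(7,94)],.leaf [(3,57121),(4,324),(5,165),(7,94)]⟩,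
⟨⟨⟨-123,-86,-186⟩,⟨-194,-21,138⟩,⟨-66,222,-59⟩⟩,true,127,19,.leaf [(1,58555),(3,32982),(4,308),(5,65)],.leaf [(1,58555),(3,32982),(4,308),(5,65)]⟩,
⟨⟨⟨-123,-86,186⟩,⟨-194,-21,-138⟩,⟨66,-222,-59⟩⟩,true,127,220,.leaf [(3,57121),(5,60),(6,64),(15,67)],.leaf [(1,7587),(3,3966),(10,2956),(23,1)]⟩,
⟨⟨⟨-149,138,126⟩,⟨-18,-171,166⟩,⟨186,94,117⟩⟩,true,129,97,.leaf [(0,240),(1,40),(2,69),(4,1)],.leaf [(0,240),(1,40),(2,69),(4,1)]⟩,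
⟨⟨⟨-149,138,-126⟩,⟨18,171,166⟩,⟨186,94,-117⟩⟩,true,129,142,.leaf [(1,57121),(4,148),(5,237),(7,66)],.leaf [(1,57121),(4,148),(5,237),(7,66)]⟩,
⟨⟨⟨-21,138,-194⟩,⟨222,-59,-66⟩,⟨-86,-186,-123⟩⟩,true,130,32,.leaf [(0,197),(1,41),(3,87),(4,1)],.leaf [(0,197),(1,41),(3,87),(4,1)]⟩,
⟨⟨⟨21,-138,-194⟩,⟨222,-59,66⟩,⟨-86,-186,123⟩⟩,true,130,207,.leaf [(0,6931),(1,4063),(4,23),(7,27)],.leaf [(0,6931),(1,4063),(4,23),(7,27)]⟩,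
⟨⟨⟨213,-86,66⟩,⟨94,219,-18⟩,⟨-54,42,229⟩⟩,true,132,71,.leaf [(2,57121),(5,120),(6,280),(14,33)],.leaf [(2,3346),(5,12),(6,19),(10,717)]⟩,
⟨⟨⟨213,-86,-66⟩,⟨94,219,18⟩,⟨54,-42,229⟩⟩,true,132,168,.leaf [(1,732),(2,1645),(6,10),(18,63)],.leaf [(1,300),(2,70),(6,1),(10,63)]⟩,
⟨⟨⟨-171,166,-18⟩,⟨94,117,186⟩,⟨138,126,-149⟩⟩,true,136,63,.leaf [(0,4780),(3,20793),(4,100),(5,3)],.leaf [(0,4780),(3,20793),(4,100),(5,3)]⟩,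
⟨⟨⟨-171,166,18⟩,⟨94,117,-186⟩,⟨-138,-126,-149⟩⟩,true,136,176,.leaf [(0,96),(2,187),(3,168),(6,1)],.leaf [(0,96),(2,187),(3,168),(6,1)]⟩,
⟨⟨⟨229,54,-42⟩,⟨-66,213,-86⟩,⟨18,94,219⟩⟩,true,138,52,.leaf [(5,108),(7,261),(11,57121),(15,208)],.leaf [(0,5),(1,395),(7,1),(10,143)]⟩,
⟨⟨⟨229,54,42⟩,⟨66,-213,-86⟩,⟨18,94,-219⟩⟩,true,138,187,.leaf [(0,7648),(1,5019),(4,24),(5,31)],.leaf [(0,7648),(1,5019),(4,24),(5,31)]⟩,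
⟨⟨⟨-149,-126,-138⟩,⟨-186,117,94⟩,⟨18,166,-171⟩⟩,true,142,110,.leaf [(2,31787),(3,9560),(4,23),(5,128)],.leaf [(2,31787),(3,9560),(4,23),(5,128)]⟩,
⟨⟨⟨-149,-126,138⟩,⟨186,-117,94⟩,⟨18,166,171⟩⟩,true,142,129,.leaf [(0,57121),(4,237),(5,148),(6,66)],.leaf [(0,57121),(4,237),(5,148),(6,66)]⟩,
⟨⟨⟨-213,-54,94⟩,⟨-66,229,-18⟩,⟨-86,-42,-219⟩⟩,true,145,22,.leaf [(0,12),(1,226),(3,87),(5,1)],.leaf [(0,12),(1,226),(3,87),(5,1)]⟩,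
⟨⟨⟨213,54,94⟩,⟨-66,229,18⟩,⟨-86,-42,219⟩⟩,true,145,217,.leaf [(1,63),(3,202),(7,1),(10,12)],.leaf [(1,234459),(3,567386),(7,2621),(22,12)]⟩,
⟨⟨⟨117,-126,166⟩,⟨-186,-149,18⟩,⟨94,-138,-171⟩⟩,true,146,77,.leaf [(0,478),(1,17447),(4,62),(5,79)],.leaf [(0,478),(1,17447),(4,62),(5,79)]⟩,
⟨⟨⟨-117,126,166⟩,⟨-186,-149,-18⟩,⟨94,-138,171⟩⟩,true,146,162,.leaf [(0,33699),(2,61184),(4,337),(7,184)],.leaf [(0,33699),(2,61184),(4,337),(7,184)]⟩,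
⟨⟨⟨-21,238,6⟩,⟨202,21,-126⟩,⟨-126,-6,-203⟩⟩,true,148,68,.leaf [(0,57121),(4,280),(5,120),(6,99)],.leaf [(0,57121),(4,280),(5,120),(6,99)]⟩,
⟨⟨⟨-21,238,-6⟩,⟨202,21,126⟩,⟨126,6,-203⟩⟩,true,148,171,.leaf [(0,217),(1,63),(3,69),(4,1)],.leaf [(0,217),(1,63),(3,69),(4,1)]⟩,
⟨⟨⟨-171,94,-138⟩,⟨166,117,-126⟩,⟨18,-186,-149⟩⟩,true,149,5,.leaf [(0,211),(1,235),(3,29),(6,1)],.leaf [(0,211),(1,235),(3,29),(6,1)]⟩,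
⟨⟨⟨-171,94,138⟩,⟨166,117,126⟩,⟨-18,186,-149⟩⟩,true,149,234,.leaf [(0,92),(1,266),(3,21),(5,1)],.leaf [(0,92),(1,266),(3,21),(5,1)]⟩,
⟨⟨⟨229,-66,18⟩,⟨54,213,94⟩,⟨-42,-86,219⟩⟩,true,150,46,.R (.leaf [(0,58320),(15,39),(18,5080),(27,59)]) (.leaf [(0,75087),(15,48),(18,6688),(26,59)]) (.leaf [(4,64152),(15,15720),(18,971057),(30,49)]),.leaf [(1,810),(3,402),(10,65),(14,1)]⟩,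
⟨⟨⟨229,-66,-18⟩,⟨-54,-213,94⟩,⟨-42,-86,-219⟩⟩,true,150,193,.leaf [(1,13862),(2,16491),(4,113),(5,6)],.leaf [(1,13862),(2,16491),(4,113),(5,6)]⟩,
⟨⟨⟨-59,-66,222⟩,⟨-186,-123,-86⟩,⟨138,-194,-21⟩⟩,true,151,57,.leaf [(1,15296),(2,2629),(5,40),(6,41)],.leaf [(1,15296),(2,2629),(5,40),(6,41)]⟩,
⟨⟨⟨-59,-66,-222⟩,⟨186,123,-86⟩,⟨138,-194,21⟩⟩,true,151,182,.leaf [(3,449559),(7,1719),(18,59750),(22,70)],.leaf [(1,1431),(3,126),(10,364),(15,1)]⟩,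
⟨⟨⟨165,150,-86⟩,⟨114,-5,210⟩,⟨130,-186,-75⟩⟩,true,153,27,.leaf [(0,155),(1,251),(3,45),(4,1)],.leaf [(0,155),(1,251),(3,45),(4,1)]⟩,
⟨⟨⟨-165,-150,-86⟩,⟨114,-5,-210⟩,⟨130,-186,75⟩⟩,true,153,212,.leaf [(0,123),(2,169),(7,1),(11,11)],.leaf [(0,591),(2,742),(7,4),(10,11)]⟩,
⟨⟨⟨-5,186,-150⟩,⟨-210,-75,-86⟩,⟨-114,130,165⟩⟩,true,154,30,.leaf [(1,4),(2,261),(3,60),(4,1)],.leaf [(1,4),(2,261),(3,60),(4,1)]⟩,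
⟨⟨⟨-5,186,150⟩,⟨210,75,-86⟩,⟨-114,130,-165⟩⟩,true,154,209,.leaf [(3,57121),(4,124),(5,274),(7,5)],.leaf [(3,57121),(4,124),(5,274),(7,5)]⟩,
⟨⟨⟨75,-86,-210⟩,⟨130,-165,114⟩,⟨-186,-150,-5⟩⟩,true,155,45,.leaf [(1,95),(2,79),(3,229),(4,1)],.leaf [(1,95),(2,79),(3,229),(4,1)]⟩,
⟨⟨⟨75,-86,210⟩,⟨130,-165,-114⟩,⟨186,150,-5⟩⟩,true,155,194,.leaf [(0,170),(1,215),(2,66),(5,1)],.leaf [(0,170),(1,215),(2,66),(5,1)]⟩,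
⟨⟨⟨171,114,-122⟩,⟨54,-203,-114⟩,⟨-158,54,-171⟩⟩,true,160,51,.leaf [(0,96),(2,221),(3,8),(4,1)],.leaf [(0,96),(2,221),(3,8),(4,1)]⟩,
⟨⟨⟨-171,-114,-122⟩,⟨54,-203,114⟩,⟨-158,54,171⟩⟩,true,160,188,.leaf [(0,89),(1,50),(3,186),(4,1)],.leaf [(0,89),(1,50),(3,186),(4,1)]⟩,
⟨⟨⟨-117,166,-126⟩,⟨94,171,138⟩,⟨186,18,-149⟩⟩,true,162,93,.leaf [(1,8843),(3,80065),(4,337),(6,5)],.leaf [(1,8843),(3,80065),(4,337),(6,5)]⟩,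
⟨⟨⟨-117,166,126⟩,⟨94,171,-138⟩,⟨-186,-18,-149⟩⟩,true,162,146,.leaf [(1,33699),(3,61184),(5,337),(6,184)],.leaf [(1,33699),(3,61184),(5,337),(6,184)]⟩,
⟨⟨⟨-219,-86,42⟩,⟨94,-213,54⟩,⟨18,66,229⟩⟩,true,163,26,.leaf [(0,3585),(4,3),(11,239),(15,5)],.leaf [(0,140293),(4,778),(5,372),(10,15057)]⟩,
⟨⟨⟨-219,-86,-42⟩,⟨94,-213,-54⟩,⟨-18,-66,229⟩⟩,true,163,213,.leaf [(3,228484),(4,813),(6,442),(14,211)],.leaf [(0,155),(3,372),(4,2),(10,99)]⟩,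
⟨⟨⟨171,-158,-54⟩,⟨-122,-171,114⟩,⟨-114,-54,-203⟩⟩,true,164,50,.leaf [(1,53536),(2,9321),(4,269),(5,56)],.leaf [(1,53536),(2,9321),(4,269),(5,56)]⟩,
⟨⟨⟨171,-158,54⟩,⟨-122,-171,-114⟩,⟨114,54,-203⟩⟩,true,164,189,.leaf [(0,16969),(1,17447),(4,17),(5,79)],.leaf [(0,16969),(1,17447),(4,17),(5,79)]⟩,
⟨⟨⟨-75,-186,130⟩,⟨210,-5,114⟩,⟨-86,150,165⟩⟩,true,165,62,.leaf [(0,9799),(2,10277),(5,59),(7,7)],.leaf [(0,9799),(2,10277),(5,59),(7,7)]⟩,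
⟨⟨⟨75,186,130⟩,⟨210,-5,-114⟩,⟨-86,150,-165⟩⟩,true,165,177,.leaf [(0,5975),(3,15774),(4,49),(5,94)],.leaf [(0,5975),(3,15774),(4,49),(5,94)]⟩,
⟨⟨⟨-213,66,-86⟩,⟨54,229,42⟩,⟨94,18,-219⟩⟩,true,168,107,.leaf [(4,2049),(5,6732),(14,1666),(18,57121)],.leaf [(1,2214),(3,1341),(10,964),(15,1)]⟩,
⟨⟨⟨213,-66,-86⟩,⟨54,229,-42⟩,⟨94,18,219⟩⟩,true,168,132,.L (.leaf [(1,190),(3,75),(5,1),(10,12)]) (.leaf [(0,2403),(11,1660),(15,4),(26,15)]) (.leaf [(1,342009),(6,1131),(10,48517),(15,161)]),.leaf [(0,33),(3,518),(7,2),(10,63)]⟩,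
⟨⟨⟨117,-186,94⟩,⟨-126,-149,-138⟩,⟨166,18,-171⟩⟩,true,170,58,.leaf [(0,204),(1,259),(3,6),(5,1)],.leaf [(0,204),(1,259),(3,6),(5,1)]⟩,
⟨⟨⟨-117,186,94⟩,⟨-126,-149,138⟩,⟨166,18,171⟩⟩,true,170,181,.leaf [(0,185),(1,44),(2,150),(4,1)],.leaf [(0,185),(1,44),(2,150),(4,1)]⟩,
⟨⟨⟨21,6,238⟩,⟨126,-203,-6⟩,⟨202,126,-21⟩⟩,true,171,91,.leaf [(0,33221),(2,50190),(4,259),(5,244)],.leaf [(0,33221),(2,50190),(4,259),(5,244)]⟩,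
⟨⟨⟨-21,-6,238⟩,⟨126,-203,6⟩,⟨202,126,21⟩⟩,true,171,148,.leaf [(2,34177),(3,13384),(4,77),(5,144)],.leaf [(2,34177),(3,13384),(4,77),(5,144)]⟩,
⟨⟨⟨-219,94,-18⟩,⟨-86,-213,-66⟩,⟨-42,-54,229⟩⟩,true,172,23,.leaf [(0,13145),(4,86),(6,15),(11,2868)],.leaf [(0,54014),(4,212),(6,87),(10,717)]⟩,
⟨⟨⟨-219,94,18⟩,⟨-86,-213,66⟩,⟨42,54,229⟩⟩,true,172,216,.leaf [(0,244),(1,48),(2,63),(4,1)],.leaf [(0,244),(1,48),(2,63),(4,1)]⟩,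
⟨⟨⟨171,-18,166⟩,⟨-138,-149,126⟩,⟨94,-186,-117⟩⟩,true,176,103,.leaf [(1,57121),(4,264),(5,235),(7,24)],.leaf [(1,57121),(4,264),(5,235),(7,24)]⟩,
⟨⟨⟨-171,18,166⟩,⟨-138,-149,-126⟩,⟨94,-186,117⟩⟩,true,176,136,.leaf [(1,96),(2,168),(3,187),(7,1)],.leaf [(1,96),(2,168),(3,187),(7,1)]⟩,
⟨⟨⟨75,130,-186⟩,⟨-86,-165,-150⟩,⟨-210,114,-5⟩⟩,true,177,74,.leaf [(0,85),(1,36),(2,210),(4,1)],.leaf [(0,85),(1,36),(2,210),(4,1)]⟩,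
⟨⟨⟨75,130,186⟩,⟨-86,-165,150⟩,⟨210,-114,-5⟩⟩,true,177,165,.leaf [(0,5975),(2,41586),(4,191),(5,36)],.leaf [(0,5975),(2,41586),(4,191),(5,36)]⟩,
⟨⟨⟨21,-86,222⟩,⟨-194,123,66⟩,⟨-138,-186,-59⟩⟩,true,178,113,.R (.leaf [(3,4485),(5,12),(18,232),(27,5)]) (.leaf [(3,7545),(5,21),(18,391),(26,5)]) (.leaf [(3,1681365),(5,4701),(18,85801),(30,5)]),.leaf [(3,57121),(5,313),(6,99),(14,29)]⟩,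
⟨⟨⟨21,-86,-222⟩,⟨-194,123,-66⟩,⟨138,186,-59⟩⟩,true,178,126,.leaf [(2,57121),(4,165),(5,324),(6,94)],.leaf [(2,57121),(4,165),(5,324),(6,94)]⟩,
⟨⟨⟨-117,94,-186⟩,⟨166,171,-18⟩,⟨126,-138,-149⟩⟩,true,181,69,.leaf [(0,5975),(1,5736),(4,5),(6,24)],.leaf [(0,5975),(1,5736),(4,5),(6,24)]⟩,
⟨⟨⟨-117,94,186⟩,⟨166,171,18⟩,⟨-126,138,-149⟩⟩,true,181,170,.leaf [(0,44),(1,185),(3,150),(5,1)],.leaf [(0,44),(1,185),(3,150),(5,1)]⟩,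
⟨⟨⟨-59,-222,66⟩,⟨-138,-21,-194⟩,⟨186,-86,-123⟩⟩,true,182,88,.leaf [(0,40),(1,189),(2,96),(5,1)],.leaf [(0,40),(1,189),(2,96),(5,1)]⟩,
⟨⟨⟨-59,-222,-66⟩,⟨138,21,-194⟩,⟨186,-86,123⟩⟩,true,182,151,.leaf [(0,31),(5,1),(11,65),(18,31)],.leaf [(0,75),(2,61),(6,1),(10,65)]⟩,
⟨⟨⟨-59,138,186⟩,⟨-222,21,-86⟩,⟨-66,-194,123⟩⟩,true,184,9,.leaf [(2,43976),(4,420),(6,521),(18,15535)],.leaf [(1,10038),(4,93),(10,7409),(15,14)]⟩,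
⟨⟨⟨-59,138,-186⟩,⟨222,-21,-86⟩,⟨-66,-194,-123⟩⟩,true,184,230,.leaf [(0,9560),(3,9799),(4,64),(7,11)],.leaf [(0,9560),(3,9799),(4,64),(7,11)]⟩,
⟨⟨⟨123,-66,-194⟩,⟨186,-59,138⟩,⟨-86,-222,21⟩⟩,true,186,47,.leaf [(1,38001),(3,56404),(4,288),(7,7)],.leaf [(1,38001),(3,56404),(4,288),(7,7)]⟩,
⟨⟨⟨-123,66,-194⟩,⟨186,-59,-138⟩,⟨-86,-222,-21⟩⟩,true,186,192,.leaf [(0,171363),(4,895),(7,368),(15,40)],.leaf [(0,69549),(4,365),(7,184),(10,4780)]⟩,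
⟨⟨⟨229,42,-54⟩,⟨-18,219,94⟩,⟨66,-86,213⟩⟩,true,187,101,.leaf [(1,368),(3,1080),(4,5),(18,177)],.leaf [(1,1431),(3,918),(10,748),(15,1)]⟩,
⟨⟨⟨229,42,54⟩,⟨18,-219,94⟩,⟨66,-86,-213⟩⟩,true,187,138,.leaf [(0,5),(2,256),(3,40),(4,1)],.leaf [(0,5),(2,256),(3,40),(4,1)]⟩,
⟨⟨⟨-171,-122,114⟩,⟨-158,171,-54⟩,⟨-54,-114,-203⟩⟩,true,188,79,.leaf [(0,8),(1,221),(3,96),(5,1)],.leaf [(0,8),(1,221),(3,96),(5,1)]⟩,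
⟨⟨⟨-171,-122,-114⟩,⟨-158,171,54⟩,⟨54,114,-203⟩⟩,true,188,160,.leaf [(0,50),(1,89),(2,186),(5,1)],.leaf [(0,50),(1,89),(2,186),(5,1)]⟩,
⟨⟨⟨-171,-54,-158⟩,⟨114,-203,-54⟩,⟨-122,-114,171⟩⟩,true,189,75,.leaf [(0,38001),(3,24856),(4,237),(7,16)],.leaf [(0,38001),(3,24856),(4,237),(7,16)]⟩,
⟨⟨⟨171,54,-158⟩,⟨114,-203,54⟩,⟨-122,-114,-171⟩⟩,true,189,164,.leaf [(1,6),(2,257),(3,206),(4,1)],.leaf [(1,6),(2,257),(3,206),(4,1)]⟩,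
⟨⟨⟨-149,-18,186⟩,⟨138,-171,94⟩,⟨126,166,117⟩⟩,true,191,18,.leaf [(0,478),(2,717),(4,3),(5,4)],.leaf [(0,478),(2,717),(4,3),(5,4)]⟩,
⟨⟨⟨-149,-18,-186⟩,⟨-138,171,94⟩,⟨126,166,-117⟩⟩,true,191,221,.leaf [(1,57121),(4,232),(5,219),(7,24)],.leaf [(1,57121),(4,232),(5,219),(7,24)]⟩,
⟨⟨⟨-123,-194,-66⟩,⟨-86,-21,222⟩,⟨-186,138,-59⟩⟩,true,192,53,.leaf [(1,35611),(3,58794),(4,332),(5,173)],.leaf [(1,35611),(3,58794),(4,332),(5,173)]⟩,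
⟨⟨⟨-123,-194,66⟩,⟨-86,-21,-222⟩,⟨186,-138,-59⟩⟩,true,192,186,.leaf [(1,171363),(5,895),(6,368),(14,40)],.leaf [(1,372123),(5,1023),(10,59272),(15,8)]⟩,
⟨⟨⟨229,-18,66⟩,⟨42,219,-86⟩,⟨-54,94,213⟩⟩,true,193,89,.R (.leaf [(0,108),(3,117),(18,20),(27,1)]) (.leaf [(0,189),(3,144),(18,32),(26,1)]) (.R (.leaf [(3,50301),(18,3975),(31,5),(34,49)]) (.leaf [(7,225261),(18,2741808),(31,6688),(39,59)]) (.leaf [(3,192456),(18,15720),(31,17),(35,49)])),.leaf [(0,65),(3,342),(5,2),(10,159)]⟩,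
⟨⟨⟨229,-18,-66⟩,⟨-42,-219,-86⟩,⟨-54,94,-213⟩⟩,true,193,150,.leaf [(0,19837),(1,10994),(4,53),(5,82)],.leaf [(0,19837),(1,10994),(4,53),(5,82)]⟩,
⟨⟨⟨-75,-210,-86⟩,⟨186,-5,-150⟩,⟨130,-114,165⟩⟩,true,194,84,.leaf [(0,229),(1,79),(2,95),(7,1)],.leaf [(0,229),(1,79),(2,95),(7,1)]⟩,
⟨⟨⟨75,210,-86⟩,⟨186,-5,150⟩,⟨130,-114,-165⟩⟩,true,194,155,.leaf [(0,215),(1,170),(3,66),(4,1)],.leaf [(0,215),(1,170),(3,66),(4,1)]⟩,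
⟨⟨⟨-203,-114,-54⟩,⟨-54,171,-158⟩,⟨114,-122,-171⟩⟩,true,196,118,.leaf [(1,57121),(5,191),(7,68),(15,26)],.leaf [(1,20793),(5,213),(10,21032),(14,112)]⟩,
⟨⟨⟨-203,-114,54⟩,⟨54,-171,-158⟩,⟨114,-122,171⟩⟩,true,196,121,.leaf [(2,208647),(6,1095),(15,184),(18,4780)],.leaf [(0,42),(2,217),(6,1),(10,26)]⟩,
⟨⟨⟨-5,210,114⟩,⟨-186,-75,130⟩,⟨150,-86,165⟩⟩,true,197,25,.leaf [(0,60),(1,16),(2,225),(4,1)],.leaf [(0,60),(1,16),(2,225),(4,1)]⟩,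
⟨⟨⟨-5,210,-114⟩,⟨186,75,130⟩,⟨150,-86,-165⟩⟩,true,197,214,.leaf [(0,41),(2,94),(3,244),(4,1)],.leaf [(0,41),(2,94),(3,244),(4,1)]⟩,
⟨⟨⟨-203,-6,-126⟩,⟨-126,21,202⟩,⟨6,238,-21⟩⟩,true,199,116,.leaf [(1,32026),(3,45171),(4,244),(5,27)],.leaf [(1,32026),(3,45171),(4,244),(5,27)]⟩,
⟨⟨⟨-203,-6,126⟩,⟨126,-21,202⟩,⟨6,238,21⟩⟩,true,199,123,.leaf [(0,33221),(3,33699),(4,279),(5,119)],.leaf [(0,33221),(3,33699),(4,279),(5,119)]⟩,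
⟨⟨⟨-165,130,114⟩,⟨-86,75,-210⟩,⟨-150,-186,-5⟩⟩,true,202,8,.leaf [(0,205),(1,25),(3,71),(6,1)],.leaf [(0,205),(1,25),(3,71),(6,1)]⟩,
⟨⟨⟨-165,130,-114⟩,⟨-86,75,210⟩,⟨150,186,-5⟩⟩,true,202,231,.leaf [(1,95),(2,55),(3,229),(4,1)],.leaf [(1,95),(2,55),(3,229),(4,1)]⟩,
⟨⟨⟨21,-194,138⟩,⟨-86,123,186⟩,⟨-222,-66,-59⟩⟩,true,207,109,.leaf [(0,87),(2,41),(3,197),(5,1)],.leaf [(0,87),(2,41),(3,197),(5,1)]⟩,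
⟨⟨⟨21,-194,-138⟩,⟨-86,123,-186⟩,⟨222,66,-59⟩⟩,true,207,130,.leaf [(0,4063),(1,6931),(5,23),(6,27)],.leaf [(0,4063),(1,6931),(5,23),(6,27)]⟩,
⟨⟨⟨-5,150,-186⟩,⟨114,165,130⟩,⟨210,-86,-75⟩⟩,true,209,85,.leaf [(1,9799),(3,14340),(4,64),(7,15)],.leaf [(1,9799),(3,14340),(4,64),(7,15)]⟩,
⟨⟨⟨-5,150,186⟩,⟨-114,-165,130⟩,⟨210,-86,75⟩⟩,true,209,154,.leaf [(2,57121),(4,274),(5,124),(6,5)],.leaf [(2,57121),(4,274),(5,124),(6,5)]⟩,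
⟨⟨⟨-165,-86,150⟩,⟨130,75,186⟩,⟨-114,210,-5⟩⟩,true,212,86,.leaf [(0,9560),(1,6931),(4,16),(5,41)],.leaf [(0,9560),(1,6931),(4,16),(5,41)]⟩,
⟨⟨⟨-165,-86,-150⟩,⟨130,75,-186⟩,⟨114,-210,-5⟩⟩,true,212,153,.leaf [(1,123),(3,169),(6,1),(10,11)],.leaf [(1,13623),(3,16969),(6,91),(14,1)]⟩,
⟨⟨⟨219,42,-86⟩,⟨-18,229,66⟩,⟨94,-54,213⟩⟩,true,213,76,.leaf [(3,57121),(4,132),(7,286),(15,21)],.leaf [(3,609),(7,3),(10,71),(26,7)]⟩,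
⟨⟨⟨-219,-42,-86⟩,⟨-18,229,-66⟩,⟨94,-54,-213⟩⟩,true,213,163,.leaf [(2,228484),(5,813),(7,442),(15,211)],.L (.leaf [(0,189),(1,40),(3,96),(4,1)]) (.leaf [(0,10),(1,201),(2,270),(5,1)]) (.leaf [(0,478),(1,16491),(5,31),(6,78)])⟩,
⟨⟨⟨-5,-114,-210⟩,⟨-150,165,-86⟩,⟨186,130,-75⟩⟩,true,214,42,.leaf [(1,57121),(4,64),(5,60),(7,201)],.leaf [(1,57121),(4,64),(5,60),(7,201)]⟩,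
⟨⟨⟨-5,-114,210⟩,⟨150,-165,-86⟩,⟨186,130,75⟩⟩,true,214,197,.leaf [(1,41),(2,244),(3,94),(5,1)],.leaf [(1,41),(2,244),(3,94),(5,1)]⟩,
⟨⟨⟨219,-18,94⟩,⟨42,229,-54⟩,⟨-86,66,213⟩⟩,true,216,67,.leaf [(3,57121),(5,123),(7,202),(14,12)],.leaf [(3,273177),(5,1242),(10,105160),(15,1)]⟩,
⟨⟨⟨-219,18,94⟩,⟨42,229,54⟩,⟨-86,66,-213⟩⟩,true,216,172,.leaf [(0,48),(1,244),(3,63),(5,1)],.leaf [(0,48),(1,244),(3,63),(5,1)]⟩,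
⟨⟨⟨213,94,-54⟩,⟨-86,219,42⟩,⟨66,-18,229⟩⟩,true,217,94,.leaf [(1,11472),(2,38957),(4,99),(6,164)],.leaf [(1,11472),(2,38957),(4,99),(6,164)]⟩,
⟨⟨⟨213,94,54⟩,⟨-86,219,-42⟩,⟨-66,18,229⟩⟩,true,217,145,.leaf [(0,63),(2,202),(6,1),(11,12)],.leaf [(0,90),(2,220),(6,1),(10,3)]⟩,
⟨⟨⟨-21,202,-126⟩,⟨238,21,-6⟩,⟨6,-126,-203⟩⟩,true,218,6,.leaf [(0,181),(1,21),(3,99),(4,1)],.leaf [(0,181),(1,21),(3,99),(4,1)]⟩,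
⟨⟨⟨-21,202,126⟩,⟨238,21,6⟩,⟨-6,126,-203⟩⟩,true,218,233,.leaf [(2,239),(3,956),(4,3),(5,4)],.leaf [(2,239),(3,956),(4,3),(5,4)]⟩,
⟨⟨⟨123,-186,-86⟩,⟨66,-59,222⟩,⟨-194,-138,21⟩⟩,true,220,112,.leaf [(3,57121),(4,288),(5,249),(7,76)],.leaf [(3,57121),(4,288),(5,249),(7,76)]⟩,
⟨⟨⟨-123,186,-86⟩,⟨66,-59,-222⟩,⟨-194,-138,-21⟩⟩,true,220,127,.leaf [(2,57121),(4,60),(7,64),(14,67)],.leaf [(0,183),(2,28),(4,1),(10,34)]⟩,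
⟨⟨⟨-149,-186,18⟩,⟨-126,117,166⟩,⟨-138,94,-171⟩⟩,true,221,48,.leaf [(0,229),(1,189),(2,51),(5,1)],.leaf [(0,229),(1,189),(2,51),(5,1)]⟩,
⟨⟨⟨-149,-186,-18⟩,⟨126,-117,166⟩,⟨-138,94,171⟩⟩,true,221,191,.leaf [(0,57121),(4,219),(5,232),(6,24)],.leaf [(0,57121),(4,219),(5,232),(6,24)]⟩,
⟨⟨⟨-59,-186,-138⟩,⟨66,123,-194⟩,⟨222,-86,21⟩⟩,true,230,55,.leaf [(1,26051),(2,66920),(5,166),(15,85)],.leaf [(1,149853),(5,573),(10,59750),(14,70)]⟩,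
⟨⟨⟨-59,-186,138⟩,⟨-66,-123,-194⟩,⟨222,-86,-21⟩⟩,true,230,184,.leaf [(1,9560),(2,9799),(5,64),(6,11)],.leaf [(1,9560),(2,9799),(5,64),(6,11)]⟩,
⟨⟨⟨165,114,130⟩,⟨150,-5,-186⟩,⟨-86,210,-75⟩⟩,true,231,37,.leaf [(0,96),(1,25),(3,180),(5,1)],.leaf [(0,96),(1,25),(3,180),(5,1)]⟩,
⟨⟨⟨-165,-114,130⟩,⟨150,-5,186⟩,⟨-86,210,75⟩⟩,true,231,202,.leaf [(0,9799),(1,3824),(4,29),(5,40)],.leaf [(0,9799),(1,3824),(4,29),(5,40)]⟩,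
⟨⟨⟨21,-126,202⟩,⟨-6,-203,-126⟩,⟨238,6,-21⟩⟩,true,233,21,.leaf [(0,69),(1,223),(2,63),(5,1)],.leaf [(0,69),(1,223),(2,63),(5,1)]⟩,
⟨⟨⟨-21,126,202⟩,⟨-6,-203,126⟩,⟨238,6,21⟩⟩,true,233,218,.leaf [(0,16730),(2,33699),(4,181),(5,76)],.leaf [(0,16730),(2,33699),(4,181),(5,76)]⟩,
⟨⟨⟨171,-138,94⟩,⟨-18,-149,-186⟩,⟨166,126,-117⟩⟩,true,234,90,.leaf [(0,240),(1,211),(2,24),(5,1)],.leaf [(0,240),(1,211),(2,24),(5,1)]⟩,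
⟨⟨⟨-171,138,94⟩,⟨-18,-149,186⟩,⟨166,126,117⟩⟩,true,234,149,.leaf [(0,266),(1,92),(2,21),(4,1)],.leaf [(0,266),(1,92),(2,21),(4,1)]⟩]

theorem primeOk_239 : PrimeOk 239 := primeOk (by norm_num) (by norm_num) (by norm_num) L239
  (by decide +kernel) (by decide +kernel)

end Pool.Agent.Lib.H63.TSP
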