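import Mathlib
import Pool.Agent.Lib.H63.TSPPrime

/-!
# Generated certificates for the primes 13, 137, 199, 233
-/

set_option autoImplicit false

namespace Pool.Agent.Lib.H63.TSP

def L13 : List Cls := [
⟨⟨⟨13,0,0⟩,⟨0,-5,-12⟩,⟨0,12,-5⟩⟩,false,0,5,.leaf [(0,65),(1,13),(4,1),(5,5)],.leaf [(0,65),(1,13),(4,1),(5,5)]⟩,
⟨⟨⟨13,0,0⟩,⟨0,-5,12⟩,⟨0,-12,-5⟩⟩,false,0,8,.leaf [(0,2),(1,12),(2,3),(4,1)],.leaf [(0,2),(1,12),(2,3),(4,1)]⟩,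
⟨⟨⟨-5,0,-12⟩,⟨0,13,0⟩,⟨12,0,-5⟩⟩,true,0,5,.leaf [(1,169),(5,5),(7,12)],.leaf [(1,169),(5,5),(7,12)]⟩,
⟨⟨⟨-5,0,12⟩,⟨0,13,0⟩,⟨-12,0,-5⟩⟩,true,0,8,.leaf [(1,5),(3,12),(5,1)],.leaf [(1,5),(3,12),(5,1)]⟩,
⟨⟨⟨-3,4,-12⟩,⟨-12,3,4⟩,⟨4,12,3⟩⟩,true,3,4,.leaf [(0,1),(1,13),(3,3),(4,1)],.leaf [(0,1),(1,13),(3,3),(4,1)]⟩,
⟨⟨⟨-3,4,12⟩,⟨12,-3,4⟩,⟨4,12,-3⟩⟩,true,3,9,.leaf [(0,169),(4,15),(5,8)],.leaf [(0,169),(4,15),(5,8)]⟩,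
⟨⟨⟨-3,-12,4⟩,⟨4,3,12⟩,⟨-12,4,3⟩⟩,true,4,3,.leaf [(0,65),(1,13),(4,1),(5,5)],.leaf [(0,65),(1,13),(4,1),(5,5)]⟩,
⟨⟨⟨3,12,4⟩,⟨4,3,-12⟩,⟨-12,4,-3⟩⟩,true,4,10,.leaf [(3,169),(5,15),(6,8)],.leaf [(3,169),(5,15),(6,8)]⟩,
⟨⟨⟨-5,-12,0⟩,⟨12,-5,0⟩,⟨0,0,13⟩⟩,true,5,0,.leaf [(0,169),(4,5),(6,12)],.leaf [(0,169),(4,5),(6,12)]⟩,
⟨⟨⟨-5,12,0⟩,⟨-12,-5,0⟩,⟨0,0,13⟩⟩,true,8,0,.leaf [(0,5),(2,12),(4,1)],.leaf [(0,5),(2,12),(4,1)]⟩,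
⟨⟨⟨-3,12,4⟩,⟨4,-3,12⟩,⟨12,4,-3⟩⟩,true,9,3,.leaf [(0,15),(1,8),(4,1)],.leaf [(0,15),(1,8),(4,1)]⟩,
⟨⟨⟨3,-12,4⟩,⟨4,-3,-12⟩,⟨12,4,3⟩⟩,true,9,10,.leaf [(0,4),(1,1),(2,12),(5,1)],.leaf [(0,4),(1,1),(2,12),(5,1)]⟩,
⟨⟨⟨3,4,12⟩,⟨-12,-3,4⟩,⟨4,-12,3⟩⟩,true,10,4,.leaf [(2,169),(4,15),(7,8)],.leaf [(2,169),(4,15),(7,8)]⟩,
⟨⟨⟨3,4,-12⟩,⟨12,3,4⟩,⟨4,-12,-3⟩⟩,true,10,9,.leaf [(0,1),(1,4),(3,12),(4,1)],.leaf [(0,1),(1,4),(3,12),(4,1)]⟩]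

theorem primeOk_13 : PrimeOk 13 := primeOk (by norm_num) (by norm_num) (by norm_num) L13
  (by decide +kernel) (by decide +kernel)

def L137 : List Cls := [
⟨⟨⟨-137,0,0⟩,⟨0,-105,88⟩,⟨0,88,105⟩⟩,false,0,37,.leaf [(0,77),(2,28),(3,88),(4,1)],.leaf [(0,77),(2,28),(3,88),(4,1)]⟩,
⟨⟨⟨-137,0,0⟩,⟨0,105,88⟩,⟨0,88,-105⟩⟩,false,0,100,.leaf [(0,548),(1,1507),(4,4),(5,11)],.leaf [(0,548),(1,1507),(4,4),(5,11)]⟩,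
⟨⟨⟨-105,0,88⟩,⟨0,-137,0⟩,⟨88,0,105⟩⟩,true,0,37,.leaf [(2,18769),(4,137),(5,165),(7,77)],.leaf [(2,18769),(4,137),(5,165),(7,77)]⟩,
⟨⟨⟨105,0,88⟩,⟨0,-137,0⟩,⟨88,0,-105⟩⟩,true,0,100,.leaf [(0,959),(1,1507),(4,7),(5,11)],.leaf [(0,959),(1,1507),(4,7),(5,11)]⟩,
⟨⟨⟨9,-128,48⟩,⟨-128,9,48⟩,⟨-48,-48,-119⟩⟩,true,1,51,.leaf [(0,80),(1,95),(3,72),(5,1)],.leaf [(0,80),(1,95),(3,72),(5,1)]⟩,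
⟨⟨⟨9,-128,-48⟩,⟨-128,9,-48⟩,⟨48,48,-119⟩⟩,true,1,86,.leaf [(0,104),(1,71),(2,72),(5,1)],.leaf [(0,104),(1,71),(2,72),(5,1)]⟩,
⟨⟨⟨33,132,16⟩,⟨36,7,-132⟩,⟨-128,36,-33⟩⟩,true,4,42,.L (.leaf [(2,3014),(3,3425),(4,10),(5,27)]) (.leaf [(0,21235),(1,4384),(4,80),(6,117)]) (.leaf [(0,185),(1,68),(3,60),(4,1)]),.leaf [(0,24797),(4,514),(5,244),(10,16029)]⟩,
⟨⟨⟨-33,-132,16⟩,⟨36,7,132⟩,⟨-128,36,33⟩⟩,true,4,95,.leaf [(0,2329),(1,274),(4,5),(5,18)],.leaf [(0,2329),(1,274),(4,5),(5,18)]⟩,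
⟨⟨⟨135,-12,-20⟩,⟨12,-65,120⟩,⟨-20,-120,-63⟩⟩,true,6,10,.leaf [(0,35),(1,140),(2,18),(4,1)],.leaf [(0,35),(1,140),(2,18),(4,1)]⟩,
⟨⟨⟨-135,12,-20⟩,⟨12,-65,-120⟩,⟨-20,-120,63⟩⟩,true,6,127,.leaf [(2,2329),(3,274),(4,5),(7,18)],.leaf [(2,2329),(3,274),(4,5),(7,18)]⟩,
⟨⟨⟨57,-12,124⟩,⟨-84,97,48⟩,⟨-92,-96,33⟩⟩,true,7,19,.leaf [(0,108),(1,150),(3,7),(7,1)],.leaf [(0,108),(1,150),(3,7),(7,1)]⟩,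
⟨⟨⟨-57,12,124⟩,⟨-84,97,-48⟩,⟨-92,-96,-33⟩⟩,true,7,118,.leaf [(1,1507),(3,411),(5,7),(7,9)],.leaf [(1,1507),(3,411),(5,7),(7,9)]⟩,
⟨⟨⟨57,-92,-84⟩,⟨124,33,48⟩,⟨-12,-96,97⟩⟩,true,8,49,.leaf [(1,336),(3,80),(6,5),(18,59)],.leaf [(1,1458),(3,834),(10,509),(14,1)]⟩,
⟨⟨⟨57,-92,84⟩,⟨124,33,-48⟩,⟨12,96,97⟩⟩,true,8,88,.leaf [(0,84),(2,52),(5,1),(11,13)],.leaf [(0,453),(2,286),(5,4),(10,13)]⟩,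
⟨⟨⟨135,-20,-12⟩,⟨-20,-63,-120⟩,⟨12,120,-65⟩⟩,true,10,6,.leaf [(0,2466),(1,685),(4,2),(5,17)],.leaf [(0,2466),(1,685),(4,2),(5,17)]⟩,
⟨⟨⟨135,-20,12⟩,⟨-20,-63,120⟩,⟨-12,-120,-65⟩⟩,true,10,131,.leaf [(1,3425),(2,1233),(4,31),(5,1)],.leaf [(1,3425),(2,1233),(4,31),(5,1)]⟩,
⟨⟨⟨-33,48,124⟩,⟨96,97,-12⟩,⟨-92,84,-57⟩⟩,true,11,17,.leaf [(0,36),(1,79),(3,102),(5,1)],.leaf [(0,36),(1,79),(3,102),(5,1)]⟩,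
⟨⟨⟨33,-48,124⟩,⟨96,97,12⟩,⟨-92,84,57⟩⟩,true,11,120,.leaf [(0,95),(2,37),(3,67),(5,1)],.leaf [(0,95),(2,37),(3,67),(5,1)]⟩,
⟨⟨⟨7,84,108⟩,⟨108,63,-56⟩,⟨-84,88,-63⟩⟩,true,12,35,.leaf [(0,4),(1,42),(3,129),(5,1)],.leaf [(0,4),(1,42),(3,129),(5,1)]⟩,
⟨⟨⟨7,84,-108⟩,⟨-108,-63,-56⟩,⟨-84,88,63⟩⟩,true,12,102,.leaf [(0,42),(1,52),(2,105),(4,1)],.leaf [(0,42),(1,52),(2,105),(4,1)]⟩,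
⟨⟨⟨97,-12,96⟩,⟨84,-57,-92⟩,⟨48,124,-33⟩⟩,true,14,25,.leaf [(0,136),(1,108),(3,21),(5,1)],.leaf [(0,136),(1,108),(3,21),(5,1)]⟩,
⟨⟨⟨97,-12,-96⟩,⟨-84,57,-92⟩,⟨48,124,33⟩⟩,true,14,112,.leaf [(2,18769),(4,27),(5,57),(7,115)],.leaf [(2,18769),(4,27),(5,57),(7,115)]⟩,
⟨⟨⟨-63,88,-84⟩,⟨-56,63,108⟩,⟨108,84,7⟩⟩,true,16,47,.leaf [(0,25),(1,105),(3,87),(4,1)],.leaf [(0,25),(1,105),(3,87),(4,1)]⟩,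
⟨⟨⟨-63,88,84⟩,⟨-56,63,-108⟩,⟨-108,-84,7⟩⟩,true,16,90,.leaf [(0,147),(1,24),(2,4),(6,1)],.leaf [(0,147),(1,24),(2,4),(6,1)]⟩,
⟨⟨⟨-33,124,48⟩,⟨-92,-57,84⟩,⟨96,-12,97⟩⟩,true,17,11,.leaf [(0,79),(1,36),(2,102),(4,1)],.leaf [(0,79),(1,36),(2,102),(4,1)]⟩,
⟨⟨⟨-33,124,-48⟩,⟨-92,-57,-84⟩,⟨-96,12,97⟩⟩,true,17,126,.leaf [(0,959),(2,1233),(4,11),(6,3)],.leaf [(0,959),(2,1233),(4,11),(6,3)]⟩,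
⟨⟨⟨57,124,-12⟩,⟨-92,33,-96⟩,⟨-84,48,97⟩⟩,true,19,7,.leaf [(0,150),(1,108),(2,7),(6,1)],.leaf [(0,150),(1,108),(2,7),(6,1)]⟩,
⟨⟨⟨57,124,12⟩,⟨-92,33,96⟩,⟨84,-48,97⟩⟩,true,19,130,.leaf [(0,13),(1,84),(2,78),(4,1)],.leaf [(0,13),(1,84),(2,78),(4,1)]⟩,
⟨⟨⟨-33,96,-92⟩,⟨48,97,84⟩,⟨124,-12,-57⟩⟩,true,22,36,.leaf [(1,45),(3,127),(4,1),(10,1)],.leaf [(1,23427),(3,63568),(4,496),(15,1)]⟩,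
⟨⟨⟨33,-96,-92⟩,⟨48,97,-84⟩,⟨124,-12,57⟩⟩,true,22,101,.leaf [(0,18769),(5,119),(7,59),(14,49)],.leaf [(0,5617),(5,14),(7,50),(10,959)]⟩,
⟨⟨⟨-65,12,-120⟩,⟨12,-135,-20⟩,⟨-120,-20,63⟩⟩,true,23,44,.leaf [(0,147),(1,85),(3,15),(4,1)],.leaf [(0,147),(1,85),(3,15),(4,1)]⟩,
⟨⟨⟨-65,12,120⟩,⟨-12,135,-20⟩,⟨-120,-20,-63⟩⟩,true,23,93,.leaf [(3,6987),(5,45),(10,1096),(14,8)],.leaf [(3,18769),(5,111),(7,64),(15,8)]⟩,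
⟨⟨⟨97,96,-12⟩,⟨48,-33,124⟩,⟨84,-92,-57⟩⟩,true,25,14,.leaf [(0,108),(1,136),(2,21),(4,1)],.leaf [(0,108),(1,136),(2,21),(4,1)]⟩,
⟨⟨⟨97,96,12⟩,⟨-48,33,124⟩,⟨84,-92,57⟩⟩,true,25,123,.leaf [(1,97),(2,63),(3,15),(4,1)],.leaf [(1,97),(2,63),(3,15),(4,1)]⟩,
⟨⟨⟨-33,-36,-128⟩,⟨132,7,-36⟩,⟨16,-132,33⟩⟩,true,26,62,.leaf [(0,56307),(4,385),(7,404),(14,10)],.leaf [(0,26304),(4,185),(7,208),(10,685)]⟩,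
⟨⟨⟨33,36,-128⟩,⟨132,7,36⟩,⟨16,-132,-33⟩⟩,true,26,75,.leaf [(0,29),(1,47),(3,117),(4,1)],.leaf [(0,29),(1,47),(3,117),(4,1)]⟩,
⟨⟨⟨63,120,-20⟩,⟨120,-65,-12⟩,⟨-20,-12,-135⟩⟩,true,28,41,.leaf [(0,125),(1,8),(2,60),(4,1)],.leaf [(0,125),(1,8),(2,60),(4,1)]⟩,
⟨⟨⟨-63,-120,-20⟩,⟨120,-65,12⟩,⟨-20,-12,135⟩⟩,true,28,96,.leaf [(0,18769),(4,185),(5,125),(7,117)],.leaf [(0,18769),(4,185),(5,125),(7,117)]⟩,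
⟨⟨⟨7,-36,132⟩,⟨-132,33,16⟩,⟨-36,-128,-33⟩⟩,true,34,58,.leaf [(1,12741),(3,1370),(5,3),(6,92)],.leaf [(1,12741),(3,1370),(5,3),(6,92)]⟩,
⟨⟨⟨7,-36,-132⟩,⟨132,-33,16⟩,⟨-36,-128,33⟩⟩,true,34,79,.leaf [(1,137),(3,3151),(4,23),(6,1)],.leaf [(1,137),(3,3151),(4,23),(6,1)]⟩,
⟨⟨⟨7,108,84⟩,⟨-84,-63,88⟩,⟨108,-56,63⟩⟩,true,35,12,.leaf [(0,42),(1,4),(2,129),(4,1)],.leaf [(0,42),(1,4),(2,129),(4,1)]⟩,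
⟨⟨⟨7,108,-84⟩,⟨84,63,88⟩,⟨108,-56,-63⟩⟩,true,35,125,.leaf [(0,45),(1,70),(3,102),(4,1)],.leaf [(0,45),(1,70),(3,102),(4,1)]⟩,
⟨⟨⟨-33,-92,96⟩,⟨124,-57,-12⟩,⟨48,84,97⟩⟩,true,36,22,.leaf [(0,45),(2,127),(5,1),(11,1)],.leaf [(0,189),(2,514),(5,4),(10,1)]⟩,
⟨⟨⟨-33,-92,-96⟩,⟨124,-57,12⟩,⟨-48,-84,97⟩⟩,true,36,115,.leaf [(3,78912),(4,621),(10,959),(14,56)],.leaf [(1,1361232),(4,22491),(26,133712),(30,25)]⟩,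
⟨⟨⟨-105,88,0⟩,⟨88,105,0⟩,⟨0,0,-137⟩⟩,true,37,0,.leaf [(3,18769),(4,165),(5,137),(6,77)],.leaf [(3,18769),(4,165),(5,137),(6,77)]⟩,
⟨⟨⟨97,84,-48⟩,⟨12,57,124⟩,⟨96,-92,33⟩⟩,true,39,56,.leaf [(0,27),(1,142),(3,30),(4,1)],.leaf [(0,27),(1,142),(3,30),(4,1)]⟩,
⟨⟨⟨97,84,48⟩,⟨-12,-57,124⟩,⟨96,-92,-33⟩⟩,true,39,81,.leaf [(0,54),(1,76),(2,87),(4,1)],.leaf [(0,54),(1,76),(2,87),(4,1)]⟩,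
⟨⟨⟨63,-20,120⟩,⟨-20,-135,-12⟩,⟨120,-12,-65⟩⟩,true,41,28,.leaf [(0,548),(1,1507),(4,4),(5,11)],.leaf [(0,548),(1,1507),(4,4),(5,11)]⟩,
⟨⟨⟨63,-20,-120⟩,⟨-20,-135,12⟩,⟨-120,12,-65⟩⟩,true,41,109,.leaf [(0,82),(1,132),(2,33),(4,1)],.leaf [(0,82),(1,132),(2,33),(4,1)]⟩,
⟨⟨⟨33,16,132⟩,⟨-128,-33,36⟩,⟨36,-132,7⟩⟩,true,42,4,.leaf [(1,117),(2,156),(15,1),(18,28)],.leaf [(1,205500),(4,933),(10,72062),(14,55)]⟩,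
⟨⟨⟨33,16,-132⟩,⟨-128,-33,-36⟩,⟨-36,132,7⟩⟩,true,42,133,.leaf [(1,1096),(2,2055),(4,23),(5,8)],.leaf [(1,1096),(2,2055),(4,23),(5,8)]⟩,
⟨⟨⟨-119,-48,-48⟩,⟨48,9,-128⟩,⟨48,-128,9⟩⟩,true,43,43,.R (.leaf [(3,909),(5,108),(18,1720),(27,5)]) (.leaf [(3,1287),(5,189),(18,2995),(26,5)]) (.leaf [(3,2195973),(5,4266),(23,2155),(30,20)]),.leaf [(1,506763),(6,474),(15,1261),(22,26)]⟩,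
⟨⟨⟨-119,-48,48⟩,⟨-48,-9,-128⟩,⟨48,-128,-9⟩⟩,true,43,94,.leaf [(1,37538),(5,19),(6,220),(15,95)],.leaf [(1,172620),(6,735),(10,59869),(14,38)]⟩,
⟨⟨⟨-65,-120,12⟩,⟨-120,63,-20⟩,⟨12,-20,-135⟩⟩,true,44,23,.leaf [(0,85),(1,147),(2,15),(5,1)],.leaf [(0,85),(1,147),(2,15),(5,1)]⟩,
⟨⟨⟨-65,-120,-12⟩,⟨120,-63,-20⟩,⟨12,-20,135⟩⟩,true,44,114,.leaf [(0,39),(2,16),(6,1),(11,32)],.leaf [(0,111),(2,64),(6,1),(10,8)]⟩,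
⟨⟨⟨-63,-84,88⟩,⟨108,7,84⟩,⟨-56,108,63⟩⟩,true,47,16,.leaf [(0,105),(1,25),(2,87),(5,1)],.leaf [(0,105),(1,25),(2,87),(5,1)]⟩,
⟨⟨⟨63,84,88⟩,⟨108,7,-84⟩,⟨-56,108,-63⟩⟩,true,47,121,.leaf [(1,4),(2,24),(3,147),(5,1)],.leaf [(1,4),(2,24),(3,147),(5,1)]⟩,
⟨⟨⟨57,-84,-92⟩,⟨-12,97,-96⟩,⟨124,48,33⟩⟩,true,49,8,.leaf [(0,504),(2,75),(14,1),(18,80)],.leaf [(0,5),(2,398),(5,4),(10,125)]⟩,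
⟨⟨⟨-57,84,-92⟩,⟨-12,97,96⟩,⟨124,48,-33⟩⟩,true,49,129,.leaf [(1,39),(3,97),(4,1),(10,13)],.leaf [(3,56307),(4,252),(14,52),(23,13)]⟩,
⟨⟨⟨9,48,-128⟩,⟨-48,-119,-48⟩,⟨-128,48,9⟩⟩,true,51,1,.leaf [(0,95),(1,80),(2,72),(4,1)],.leaf [(0,95),(1,80),(2,72),(4,1)]⟩,
⟨⟨⟨-9,-48,-128⟩,⟨-48,-119,48⟩,⟨-128,48,-9⟩⟩,true,51,136,.leaf [(0,71),(1,143),(3,33),(4,1)],.leaf [(0,71),(1,143),(3,33),(4,1)]⟩,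
⟨⟨⟨97,-48,84⟩,⟨96,33,-92⟩,⟨12,124,57⟩⟩,true,56,39,.leaf [(0,142),(1,27),(2,30),(5,1)],.leaf [(0,142),(1,27),(2,30),(5,1)]⟩,
⟨⟨⟨97,-48,-84⟩,⟨-96,-33,-92⟩,⟨12,124,-57⟩⟩,true,56,98,.leaf [(0,5891),(2,2877),(5,47),(7,9)],.leaf [(0,5891),(2,2877),(5,47),(7,9)]⟩,
⟨⟨⟨63,-108,-56⟩,⟨-84,7,-108⟩,⟨88,84,-63⟩⟩,true,57,60,.leaf [(0,87),(1,7),(2,105),(5,1)],.leaf [(0,87),(1,7),(2,105),(5,1)]⟩,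
⟨⟨⟨-63,108,-56⟩,⟨-84,7,108⟩,⟨88,84,63⟩⟩,true,57,77,.leaf [(0,101),(1,143),(3,21),(4,1)],.leaf [(0,101),(1,143),(3,21),(4,1)]⟩,
⟨⟨⟨7,132,-36⟩,⟨-36,-33,-128⟩,⟨-132,16,33⟩⟩,true,58,34,.leaf [(0,12741),(2,1370),(4,3),(7,92)],.leaf [(0,12741),(2,1370),(4,3),(7,92)]⟩,
⟨⟨⟨7,132,36⟩,⟨36,33,-128⟩,⟨-132,16,-33⟩⟩,true,58,103,.leaf [(0,18769),(4,3),(5,13),(7,135)],.leaf [(0,18769),(4,3),(5,13),(7,135)]⟩,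
⟨⟨⟨63,-56,-108⟩,⟨88,-63,84⟩,⟨-84,-108,7⟩⟩,true,60,57,.leaf [(0,7),(1,87),(3,105),(4,1)],.leaf [(0,7),(1,87),(3,105),(4,1)]⟩,
⟨⟨⟨63,-56,108⟩,⟨88,-63,-84⟩,⟨84,108,7⟩⟩,true,60,80,.leaf [(0,122),(1,101),(2,42),(5,1)],.leaf [(0,122),(1,101),(2,42),(5,1)]⟩,
⟨⟨⟨-33,-128,-36⟩,⟨16,33,-132⟩,⟨132,-36,7⟩⟩,true,62,26,.leaf [(1,56307),(5,385),(6,404),(15,10)],.leaf [(1,4521),(5,25),(6,17),(10,685)]⟩,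
⟨⟨⟨-33,-128,36⟩,⟨16,33,132⟩,⟨-132,36,7⟩⟩,true,62,111,.leaf [(0,146),(1,29),(2,18),(5,1)],.leaf [(0,146),(1,29),(2,18),(5,1)]⟩,
⟨⟨⟨33,-128,36⟩,⟨16,-33,-132⟩,⟨132,36,7⟩⟩,true,75,26,.leaf [(0,47),(1,29),(2,117),(5,1)],.leaf [(0,47),(1,29),(2,117),(5,1)]⟩,
⟨⟨⟨33,-128,-36⟩,⟨16,-33,132⟩,⟨-132,-36,7⟩⟩,true,75,111,.leaf [(3,18769),(4,108),(5,115),(15,10)],.leaf [(3,20413),(4,126),(5,145),(10,1370)]⟩,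
⟨⟨⟨-63,-56,108⟩,⟨88,63,84⟩,⟨-84,108,7⟩⟩,true,77,57,.leaf [(0,143),(1,101),(2,21),(5,1)],.leaf [(0,143),(1,101),(2,21),(5,1)]⟩,
⟨⟨⟨-63,-56,-108⟩,⟨88,63,-84⟩,⟨84,-108,7⟩⟩,true,77,80,.leaf [(0,7),(1,112),(3,80),(6,1)],.leaf [(0,7),(1,112),(3,80),(6,1)]⟩,
⟨⟨⟨7,-132,-36⟩,⟨-36,33,-128⟩,⟨132,16,-33⟩⟩,true,79,34,.leaf [(0,137),(2,3151),(5,23),(7,1)],.leaf [(0,137),(2,3151),(5,23),(7,1)]⟩,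
⟨⟨⟨7,-132,36⟩,⟨36,-33,-128⟩,⟨132,16,33⟩⟩,true,79,103,.leaf [(0,13),(1,3),(2,135),(5,1)],.leaf [(0,13),(1,3),(2,135),(5,1)]⟩,
⟨⟨⟨63,108,-56⟩,⟨84,7,108⟩,⟨88,-84,-63⟩⟩,true,80,60,.leaf [(0,101),(1,122),(3,42),(4,1)],.leaf [(0,101),(1,122),(3,42),(4,1)]⟩,
⟨⟨⟨-63,-108,-56⟩,⟨84,7,-108⟩,⟨88,-84,63⟩⟩,true,80,77,.leaf [(0,112),(1,7),(2,80),(7,1)],.leaf [(0,112),(1,7),(2,80),(7,1)]⟩,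
⟨⟨⟨97,48,84⟩,⟨96,-33,-92⟩,⟨-12,124,-57⟩⟩,true,81,39,.leaf [(0,76),(1,54),(3,87),(5,1)],.leaf [(0,76),(1,54),(3,87),(5,1)]⟩,
⟨⟨⟨97,48,-84⟩,⟨-96,33,-92⟩,⟨-12,124,57⟩⟩,true,81,98,.leaf [(0,2877),(2,5891),(5,9),(7,47)],.leaf [(0,2877),(2,5891),(5,9),(7,47)]⟩,
⟨⟨⟨9,-48,-128⟩,⟨48,-119,48⟩,⟨-128,-48,9⟩⟩,true,86,1,.leaf [(0,71),(1,104),(3,72),(4,1)],.leaf [(0,71),(1,104),(3,72),(4,1)]⟩,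
⟨⟨⟨-9,48,-128⟩,⟨48,-119,-48⟩,⟨-128,-48,-9⟩⟩,true,86,136,.leaf [(0,72),(2,95),(3,80),(4,1)],.leaf [(0,72),(2,95),(3,80),(4,1)]⟩,
⟨⟨⟨57,84,-92⟩,⟨12,97,96⟩,⟨124,-48,33⟩⟩,true,88,8,.leaf [(1,84),(3,52),(4,1),(10,13)],.leaf [(1,41511),(3,30277),(4,373),(14,13)]⟩,
⟨⟨⟨-57,-84,-92⟩,⟨12,97,-96⟩,⟨124,-48,-33⟩⟩,true,88,129,.leaf [(5,81),(7,360),(11,18769),(15,70)],.leaf [(0,273),(2,130),(7,4),(10,125)]⟩,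
⟨⟨⟨-63,84,88⟩,⟨-108,7,-84⟩,⟨-56,-108,63⟩⟩,true,90,16,.leaf [(0,24),(1,147),(3,4),(7,1)],.leaf [(0,24),(1,147),(3,4),(7,1)]⟩,
⟨⟨⟨63,-84,88⟩,⟨-108,7,84⟩,⟨-56,-108,-63⟩⟩,true,90,121,.leaf [(1,137),(3,1096),(5,8),(7,1)],.leaf [(1,137),(3,1096),(5,8),(7,1)]⟩,
⟨⟨⟨-65,120,12⟩,⟨-120,-63,-20⟩,⟨-12,-20,135⟩⟩,true,93,23,.leaf [(2,6987),(4,45),(11,1096),(15,8)],.leaf [(0,56),(2,119),(4,1),(10,8)]⟩,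
⟨⟨⟨-65,120,-12⟩,⟨120,63,-20⟩,⟨-12,-20,-135⟩⟩,true,93,114,.leaf [(3,18769),(4,100),(5,85),(7,62)],.leaf [(3,18769),(4,100),(5,85),(7,62)]⟩,
⟨⟨⟨-119,48,-48⟩,⟨48,-9,-128⟩,⟨-48,-128,-9⟩⟩,true,94,43,.leaf [(0,37538),(4,19),(7,220),(14,95)],.leaf [(0,19),(3,220),(4,2),(10,95)]⟩,
⟨⟨⟨-119,48,48⟩,⟨-48,9,-128⟩,⟨-48,-128,9⟩⟩,true,94,94,.R (.leaf [(0,4266),(6,117),(18,2155),(27,20)]) (.leaf [(0,1593),(6,36),(18,700),(26,5)]) (.leaf [(0,3547341),(6,1287),(23,2995),(31,5)]),.leaf [(3,394149),(4,2700),(15,1534),(23,65)]⟩,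
⟨⟨⟨-33,16,-132⟩,⟨-128,33,36⟩,⟨36,132,7⟩⟩,true,95,4,.leaf [(1,14659),(3,2466),(4,116),(5,17)],.leaf [(1,14659),(3,2466),(4,116),(5,17)]⟩,
⟨⟨⟨-33,16,132⟩,⟨-128,33,-36⟩,⟨-36,-132,7⟩⟩,true,95,133,.leaf [(3,18769),(5,185),(6,125),(14,39)],.leaf [(3,10275),(6,90),(10,4658),(15,1)]⟩,
⟨⟨⟨-63,-20,-120⟩,⟨-20,135,-12⟩,⟨120,12,-65⟩⟩,true,96,28,.leaf [(1,18769),(4,125),(5,185),(6,117)],.leaf [(1,18769),(4,125),(5,185),(6,117)]⟩,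
⟨⟨⟨-63,-20,120⟩,⟨-20,135,12⟩,⟨-120,-12,-65⟩⟩,true,96,109,.leaf [(0,8),(1,68),(3,117),(5,1)],.leaf [(0,8),(1,68),(3,117),(5,1)]⟩,
⟨⟨⟨97,-84,-48⟩,⟨12,-57,124⟩,⟨-96,-92,-33⟩⟩,true,98,56,.leaf [(1,5891),(3,2877),(4,47),(6,9)],.leaf [(1,5891),(3,2877),(4,47),(6,9)]⟩,
⟨⟨⟨97,-84,48⟩,⟨-12,57,124⟩,⟨-96,-92,33⟩⟩,true,98,81,.leaf [(1,2877),(3,5891),(4,9),(6,47)],.leaf [(1,2877),(3,5891),(4,9),(6,47)]⟩,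
⟨⟨⟨105,88,0⟩,⟨88,-105,0⟩,⟨0,0,-137⟩⟩,true,100,0,.leaf [(0,88),(2,105),(4,1)],.leaf [(0,88),(2,105),(4,1)]⟩,
⟨⟨⟨33,-92,-96⟩,⟨124,57,-12⟩,⟨48,-84,97⟩⟩,true,101,22,.leaf [(1,18769),(4,119),(6,59),(15,49)],.leaf [(1,11185776),(22,11280),(26,602663),(30,265)]⟩,
⟨⟨⟨33,-92,96⟩,⟨124,57,12⟩,⟨-48,84,97⟩⟩,true,101,115,.leaf [(0,126),(2,46),(5,1),(11,1)],.leaf [(0,513),(2,190),(5,4),(10,1)]⟩,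
⟨⟨⟨7,-108,84⟩,⟨-84,63,88⟩,⟨-108,-56,-63⟩⟩,true,102,12,.leaf [(0,52),(1,42),(3,105),(5,1)],.leaf [(0,52),(1,42),(3,105),(5,1)]⟩,
⟨⟨⟨7,-108,-84⟩,⟨84,-63,88⟩,⟨-108,-56,63⟩⟩,true,102,125,.leaf [(3,18769),(4,147),(5,45),(6,25)],.leaf [(3,18769),(4,147),(5,45),(6,25)]⟩,
⟨⟨⟨7,36,132⟩,⟨-132,-33,16⟩,⟨36,-128,33⟩⟩,true,103,58,.leaf [(1,18769),(4,13),(5,3),(6,135)],.leaf [(1,18769),(4,13),(5,3),(6,135)]⟩,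
⟨⟨⟨7,36,-132⟩,⟨132,33,16⟩,⟨36,-128,-33⟩⟩,true,103,79,.leaf [(0,3),(1,13),(3,135),(4,1)],.leaf [(0,3),(1,13),(3,135),(4,1)]⟩,
⟨⟨⟨63,-120,-20⟩,⟨-120,-65,12⟩,⟨-20,12,-135⟩⟩,true,109,41,.leaf [(2,3014),(3,3425),(4,10),(5,27)],.leaf [(2,3014),(3,3425),(4,10),(5,27)]⟩,
⟨⟨⟨-63,120,-20⟩,⟨-120,-65,-12⟩,⟨-20,12,135⟩⟩,true,109,96,.leaf [(0,68),(1,8),(2,117),(4,1)],.leaf [(0,68),(1,8),(2,117),(4,1)]⟩,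
⟨⟨⟨-33,36,-128⟩,⟨-132,7,36⟩,⟨16,132,33⟩⟩,true,111,62,.leaf [(0,29),(1,146),(3,18),(4,1)],.leaf [(0,29),(1,146),(3,18),(4,1)]⟩,
⟨⟨⟨33,-36,-128⟩,⟨-132,7,-36⟩,⟨16,132,-33⟩⟩,true,111,75,.leaf [(2,18769),(4,115),(5,108),(14,10)],.leaf [(2,41237),(4,275),(5,324),(10,1370)]⟩,
⟨⟨⟨97,-96,-12⟩,⟨48,33,124⟩,⟨-84,-92,57⟩⟩,true,112,14,.leaf [(3,18769),(4,57),(5,27),(6,115)],.leaf [(3,18769),(4,57),(5,27),(6,115)]⟩,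
⟨⟨⟨97,-96,12⟩,⟨-48,-33,124⟩,⟨-84,-92,-57⟩⟩,true,112,123,.leaf [(3,18769),(4,54),(5,141),(6,22)],.leaf [(3,18769),(4,54),(5,141),(6,22)]⟩,
⟨⟨⟨-65,-12,-120⟩,⟨12,135,-20⟩,⟨120,-20,-63⟩⟩,true,114,44,.leaf [(1,39),(3,16),(7,1),(10,32)],.leaf [(1,18769),(5,56),(7,119),(15,8)]⟩,
⟨⟨⟨-65,-12,120⟩,⟨-12,-135,-20⟩,⟨120,-20,63⟩⟩,true,114,93,.leaf [(2,18769),(4,85),(5,100),(6,62)],.leaf [(2,18769),(4,85),(5,100),(6,62)]⟩,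
⟨⟨⟨-33,-96,-92⟩,⟨-48,97,-84⟩,⟨124,12,-57⟩⟩,true,115,36,.leaf [(2,78912),(5,621),(11,959),(15,56)],.leaf [(4,191),(5,141),(7,481),(10,18769)]⟩,
⟨⟨⟨33,96,-92⟩,⟨-48,97,84⟩,⟨124,12,57⟩⟩,true,115,101,.leaf [(1,126),(3,46),(4,1),(10,1)],.leaf [(1,60417),(3,22468),(4,472),(15,1)]⟩,
⟨⟨⟨-57,124,12⟩,⟨-92,-33,-96⟩,⟨-84,-48,97⟩⟩,true,118,7,.leaf [(0,1507),(2,411),(4,7),(6,9)],.leaf [(0,1507),(2,411),(4,7),(6,9)]⟩,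
⟨⟨⟨-57,124,-12⟩,⟨-92,-33,96⟩,⟨84,48,97⟩⟩,true,118,130,.leaf [(0,7),(2,150),(3,108),(4,1)],.leaf [(0,7),(2,150),(3,108),(4,1)]⟩,
⟨⟨⟨33,124,-48⟩,⟨-92,57,84⟩,⟨96,12,97⟩⟩,true,120,11,.leaf [(1,95),(2,67),(3,37),(4,1)],.leaf [(1,95),(2,67),(3,37),(4,1)]⟩,
⟨⟨⟨33,124,48⟩,⟨-92,57,-84⟩,⟨-96,-12,97⟩⟩,true,120,126,.leaf [(0,138),(1,36),(2,43),(6,1)],.leaf [(0,138),(1,36),(2,43),(6,1)]⟩,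
⟨⟨⟨63,88,84⟩,⟨-56,-63,108⟩,⟨108,-84,7⟩⟩,true,121,47,.leaf [(0,4),(2,147),(3,24),(4,1)],.leaf [(0,4),(2,147),(3,24),(4,1)]⟩,
⟨⟨⟨63,88,-84⟩,⟨-56,-63,-108⟩,⟨-108,84,7⟩⟩,true,121,90,.leaf [(0,137),(2,1096),(4,8),(6,1)],.leaf [(0,137),(2,1096),(4,8),(6,1)]⟩,
⟨⟨⟨97,12,96⟩,⟨84,57,-92⟩,⟨-48,124,33⟩⟩,true,123,25,.leaf [(0,97),(2,15),(3,63),(5,1)],.leaf [(0,97),(2,15),(3,63),(5,1)]⟩,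
⟨⟨⟨97,12,-96⟩,⟨-84,-57,-92⟩,⟨-48,124,-33⟩⟩,true,123,112,.leaf [(2,18769),(4,141),(5,54),(7,22)],.leaf [(2,18769),(4,141),(5,54),(7,22)]⟩,
⟨⟨⟨7,-84,108⟩,⟨108,-63,-56⟩,⟨84,88,63⟩⟩,true,125,35,.leaf [(0,70),(1,45),(2,102),(5,1)],.leaf [(0,70),(1,45),(2,102),(5,1)]⟩,
⟨⟨⟨7,-84,-108⟩,⟨-108,63,-56⟩,⟨84,88,-63⟩⟩,true,125,102,.leaf [(2,18769),(4,45),(5,147),(7,25)],.leaf [(2,18769),(4,45),(5,147),(7,25)]⟩,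
⟨⟨⟨-33,-48,124⟩,⟨-96,97,12⟩,⟨-92,-84,-57⟩⟩,true,126,17,.leaf [(1,959),(3,1233),(5,11),(7,3)],.leaf [(1,959),(3,1233),(5,11),(7,3)]⟩,
⟨⟨⟨33,48,124⟩,⟨-96,97,-12⟩,⟨-92,-84,57⟩⟩,true,126,120,.leaf [(0,36),(1,138),(3,43),(7,1)],.leaf [(0,36),(1,138),(3,43),(7,1)]⟩,
⟨⟨⟨-135,-20,12⟩,⟨-20,63,-120⟩,⟨12,-120,-65⟩⟩,true,127,6,.leaf [(2,274),(3,2329),(5,5),(6,18)],.leaf [(2,274),(3,2329),(5,5),(6,18)]⟩,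
⟨⟨⟨-135,-20,-12⟩,⟨-20,63,120⟩,⟨-12,120,-65⟩⟩,true,127,131,.leaf [(0,959),(1,1507),(4,7),(5,11)],.leaf [(0,959),(1,1507),(4,7),(5,11)]⟩,
⟨⟨⟨-57,-92,84⟩,⟨124,-33,48⟩,⟨-12,96,97⟩⟩,true,129,49,.leaf [(0,39),(2,97),(5,1),(11,13)],.leaf [(0,273),(2,466),(5,4),(10,13)]⟩,
⟨⟨⟨-57,-92,-84⟩,⟨124,-33,-48⟩,⟨12,-96,97⟩⟩,true,129,88,.leaf [(4,81),(6,360),(10,18769),(14,70)],.leaf [(4,81),(15,24),(22,4),(30,1)]⟩,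
⟨⟨⟨57,12,124⟩,⟨84,97,-48⟩,⟨-92,96,33⟩⟩,true,130,19,.leaf [(0,84),(1,13),(3,78),(5,1)],.leaf [(0,84),(1,13),(3,78),(5,1)]⟩,
⟨⟨⟨-57,-12,124⟩,⟨84,97,48⟩,⟨-92,96,-33⟩⟩,true,130,118,.leaf [(1,7),(2,108),(3,150),(5,1)],.leaf [(1,7),(2,108),(3,150),(5,1)]⟩,
⟨⟨⟨135,12,-20⟩,⟨-12,-65,-120⟩,⟨-20,120,-63⟩⟩,true,131,10,.leaf [(0,2329),(1,274),(4,5),(5,18)],.leaf [(0,2329),(1,274),(4,5),(5,18)]⟩,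
⟨⟨⟨-135,-12,-20⟩,⟨-12,-65,120⟩,⟨-20,120,63⟩⟩,true,131,127,.leaf [(0,53),(1,35),(3,105),(4,1)],.leaf [(0,53),(1,35),(3,105),(4,1)]⟩,
⟨⟨⟨33,-132,16⟩,⟨-36,7,132⟩,⟨-128,-36,-33⟩⟩,true,133,42,.leaf [(2,548),(3,10001),(4,52),(5,81)],.leaf [(2,548),(3,10001),(4,52),(5,81)]⟩,
⟨⟨⟨-33,132,16⟩,⟨-36,7,-132⟩,⟨-128,-36,33⟩⟩,true,133,95,.leaf [(2,18769),(4,185),(7,125),(15,39)],.leaf [(1,4110),(4,25),(7,14),(10,1781)]⟩,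
⟨⟨⟨-9,-128,-48⟩,⟨-128,-9,48⟩,⟨-48,48,-119⟩⟩,true,136,51,.leaf [(1,20824),(3,4521),(4,176),(5,119)],.leaf [(1,20824),(3,4521),(4,176),(5,119)]⟩,
⟨⟨⟨-9,-128,48⟩,⟨-128,-9,-48⟩,⟨48,-48,-119⟩⟩,true,136,86,.leaf [(1,72),(2,80),(3,95),(5,1)],.leaf [(1,72),(2,80),(3,95),(5,1)]⟩]

theorem primeOk_137 : PrimeOk 137 := primeOk (by norm_num) (by norm_num) (by norm_num) L137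
  (by decide +kernel) (by decide +kernel)

def L199 : List Cls := [
⟨⟨⟨93,-26,-174⟩,⟨114,-141,82⟩,⟨-134,-138,-51⟩⟩,true,4,88,.leaf [(0,115),(1,175),(3,81),(4,1)],.leaf [(0,115),(1,175),(3,81),(4,1)]⟩,
⟨⟨⟨93,-26,174⟩,⟨-114,141,82⟩,⟨-134,-138,51⟩⟩,true,4,111,.leaf [(0,164),(1,215),(3,10),(7,1)],.leaf [(0,164),(1,215),(3,10),(7,1)]⟩,
⟨⟨⟨19,114,162⟩,⟨-6,163,-114⟩,⟨-198,6,19⟩⟩,true,6,19,.leaf [(5,2133),(7,1083),(14,1337),(18,39601)],.leaf [(0,60),(3,59),(7,1),(10,60)]⟩,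
⟨⟨⟨19,114,-162⟩,⟨-6,163,114⟩,⟨198,-6,19⟩⟩,true,6,180,.leaf [(1,25074),(3,11741),(4,108),(7,49)],.leaf [(1,25074),(3,11741),(4,108),(7,49)]⟩,
⟨⟨⟨51,-138,-134⟩,⟨82,141,-114⟩,⟨174,-26,93⟩⟩,true,9,52,.leaf [(0,995),(1,6368),(5,8),(6,33)],.leaf [(0,995),(1,6368),(5,8),(6,33)]⟩,
⟨⟨⟨-51,138,-134⟩,⟨82,141,114⟩,⟨174,-26,-93⟩⟩,true,9,147,.leaf [(1,5373),(3,17711),(4,93),(6,1)],.leaf [(1,5373),(3,17711),(4,93),(6,1)]⟩,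
⟨⟨⟨-93,-134,-114⟩,⟨-174,51,82⟩,⟨-26,138,-141⟩⟩,true,10,59,.leaf [(2,46367),(3,23681),(4,89),(5,231)],.leaf [(2,46367),(3,23681),(4,89),(5,231)]⟩,
⟨⟨⟨-93,-134,114⟩,⟨174,-51,82⟩,⟨-26,138,141⟩⟩,true,10,140,.leaf [(0,8159),(2,14925),(5,85),(7,9)],.leaf [(0,8159),(2,14925),(5,85),(7,9)]⟩,
⟨⟨⟨-141,-42,-134⟩,⟨-62,189,6⟩,⟨126,46,-147⟩⟩,true,13,32,.leaf [(1,39601),(4,167),(5,273),(6,99)],.leaf [(1,39601),(4,167),(5,273),(6,99)]⟩,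
⟨⟨⟨141,42,-134⟩,⟨-62,189,-6⟩,⟨126,46,147⟩⟩,true,13,167,.leaf [(2,54327),(3,34228),(4,6),(6,239)],.leaf [(2,54327),(3,34228),(4,6),(6,239)]⟩,
⟨⟨⟨-51,82,174⟩,⟨138,141,-26⟩,⟨-134,114,-93⟩⟩,true,14,20,.leaf [(1,76),(2,32),(3,191),(5,1)],.leaf [(1,76),(2,32),(3,191),(5,1)]⟩,
⟨⟨⟨-51,82,-174⟩,⟨-138,-141,-26⟩,⟨-134,114,93⟩⟩,true,14,179,.leaf [(1,6),(2,223),(3,142),(4,1)],.leaf [(1,6),(2,223),(3,142),(4,1)]⟩,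
⟨⟨⟨-3,154,-126⟩,⟨126,99,118⟩,⟨154,-78,-99⟩⟩,true,15,42,.leaf [(0,55),(1,85),(3,159),(4,1)],.leaf [(0,55),(1,85),(3,159),(4,1)]⟩,
⟨⟨⟨-3,154,126⟩,⟨-126,-99,118⟩,⟨154,-78,99⟩⟩,true,15,157,.leaf [(0,199),(2,4776),(4,27),(5,8)],.leaf [(0,199),(2,4776),(4,27),(5,8)]⟩,
⟨⟨⟨19,162,114⟩,⟨-198,19,6⟩,⟨-6,-114,163⟩⟩,true,19,6,.leaf [(4,3942),(6,2931),(15,1156),(18,39601)],.leaf [(1,256),(2,52),(4,1),(10,91)]⟩,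
⟨⟨⟨19,162,-114⟩,⟨-198,19,-6⟩,⟨6,114,163⟩⟩,true,19,193,.leaf [(1,91),(2,143),(3,17),(4,1)],.leaf [(1,91),(2,143),(3,17),(4,1)]⟩,
⟨⟨⟨-51,174,82⟩,⟨-134,-93,114⟩,⟨138,-26,141⟩⟩,true,20,14,.leaf [(0,76),(2,191),(3,32),(4,1)],.leaf [(0,76),(2,191),(3,32),(4,1)]⟩,
⟨⟨⟨51,-174,82⟩,⟨-134,-93,-114⟩,⟨138,-26,-141⟩⟩,true,20,185,.leaf [(0,142),(1,223),(2,6),(5,1)],.leaf [(0,142),(1,223),(2,6),(5,1)]⟩,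
⟨⟨⟨19,-198,-6⟩,⟨162,19,-114⟩,⟨114,6,163⟩⟩,true,21,73,.leaf [(0,39601),(5,256),(6,52),(14,91)],.leaf [(0,49),(2,598),(5,4),(10,169)]⟩,
⟨⟨⟨19,-198,6⟩,⟨162,19,114⟩,⟨-114,-6,163⟩⟩,true,21,126,.leaf [(0,39601),(4,17),(5,108),(6,126)],.leaf [(0,39601),(4,17),(5,108),(6,126)]⟩,
⟨⟨⟨-141,82,114⟩,⟨-138,-51,-134⟩,⟨-26,-174,93⟩⟩,true,22,50,.leaf [(0,66),(1,207),(2,26),(7,1)],.leaf [(0,66),(1,207),(2,26),(7,1)]⟩,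
⟨⟨⟨-141,82,-114⟩,⟨138,51,-134⟩,⟨-26,-174,-93⟩⟩,true,22,149,.L (.L (.leaf [(0,225),(1,140),(2,6),(4,1)]) (.leaf [(0,7960),(1,4577),(4,32),(5,37)]) (.leaf [(0,88),(1,184),(3,171),(5,1)])) (.leaf [(1,620),(2,112),(5,3),(11,41)]) (.leaf [(0,99),(1,215),(3,135),(4,1)]),.leaf [(0,16716),(4,259),(7,248),(10,14129)]⟩,
⟨⟨⟨-51,-30,190⟩,⟨-170,99,-30⟩,⟨-90,-170,-51⟩⟩,true,24,47,.leaf [(3,39601),(5,273),(6,167),(14,33)],.leaf [(3,372),(6,3),(10,217),(26,2)]⟩,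
⟨⟨⟨51,30,190⟩,⟨-170,99,30⟩,⟨-90,-170,51⟩⟩,true,24,152,.leaf [(3,39601),(5,267),(6,83),(14,57)],.leaf [(0,47163),(5,20),(6,682),(10,36815)]⟩,
⟨⟨⟨-141,-26,138⟩,⟨-114,-93,-134⟩,⟨82,-174,51⟩⟩,true,27,71,.leaf [(1,24),(2,200),(3,165),(7,1)],.leaf [(1,24),(2,200),(3,165),(7,1)]⟩,
⟨⟨⟨-141,-26,-138⟩,⟨114,93,-134⟩,⟨82,-174,-51⟩⟩,true,27,128,.leaf [(0,2466207),(7,5751),(18,266063),(23,49)],.leaf [(0,53133),(4,518),(7,748),(10,34825)]⟩,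
⟨⟨⟨163,114,6⟩,⟨-6,19,-198⟩,⟨-114,162,19⟩⟩,true,30,33,.leaf [(0,51),(2,125),(7,1),(11,25)],.leaf [(0,429),(2,650),(7,4),(10,25)]⟩,
⟨⟨⟨163,114,-6⟩,⟨-6,19,198⟩,⟨114,-162,19⟩⟩,true,30,166,.leaf [(0,65),(1,204),(2,30),(4,1)],.leaf [(0,65),(1,204),(2,30),(4,1)]⟩,
⟨⟨⟨-35,-90,174⟩,⟨-126,-125,-90⟩,⟨150,-126,-35⟩⟩,true,31,86,.leaf [(1,39601),(4,6),(5,185),(6,30)],.leaf [(1,39601),(4,6),(5,185),(6,30)]⟩,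
⟨⟨⟨-35,-90,-174⟩,⟨-126,-125,90⟩,⟨-150,126,-35⟩⟩,true,31,113,.leaf [(0,35),(1,195),(3,69),(4,1)],.leaf [(0,35),(1,195),(3,69),(4,1)]⟩,
⟨⟨⟨-141,-134,-42⟩,⟨126,-147,46⟩,⟨-62,6,189⟩⟩,true,32,13,.leaf [(0,39601),(4,273),(5,167),(7,99)],.leaf [(0,39601),(4,273),(5,167),(7,99)]⟩,
⟨⟨⟨-141,-134,42⟩,⟨-126,147,46⟩,⟨-62,6,-189⟩⟩,true,32,186,.leaf [(0,140),(1,225),(3,6),(5,1)],.leaf [(0,140),(1,225),(3,6),(5,1)]⟩,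
⟨⟨⟨163,6,114⟩,⟨-114,19,162⟩,⟨-6,-198,19⟩⟩,true,33,30,.leaf [(1,51),(3,125),(6,1),(10,25)],.leaf [(1,158404),(4,625),(6,454),(14,25)]⟩,
⟨⟨⟨163,6,-114⟩,⟨-114,19,-162⟩,⟨6,198,19⟩⟩,true,33,169,.leaf [(0,995),(2,1393),(5,5),(7,7)],.leaf [(0,995),(2,1393),(5,5),(7,7)]⟩,
⟨⟨⟨-99,118,126⟩,⟨78,-99,154⟩,⟨154,126,3⟩⟩,true,37,53,.leaf [(0,211),(1,28),(2,6),(4,1)],.leaf [(0,211),(1,28),(2,6),(4,1)]⟩,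
⟨⟨⟨-99,118,-126⟩,⟨-78,99,154⟩,⟨154,126,-3⟩⟩,true,37,146,.leaf [(0,19),(1,139),(3,141),(4,1)],.leaf [(0,19),(1,139),(3,141),(4,1)]⟩,
⟨⟨⟨-141,-126,-62⟩,⟨-134,147,6⟩,⟨42,46,-189⟩⟩,true,39,95,.leaf [(1,69),(2,172),(3,58),(5,1)],.leaf [(1,69),(2,172),(3,58),(5,1)]⟩,
⟨⟨⟨141,126,-62⟩,⟨-134,147,-6⟩,⟨42,46,189⟩⟩,true,39,104,.leaf [(2,4179),(3,1592),(4,9),(6,16)],.leaf [(2,4179),(3,1592),(4,9),(6,16)]⟩,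
⟨⟨⟨-3,-126,154⟩,⟨154,-99,-78⟩,⟨126,118,99⟩⟩,true,42,15,.leaf [(0,85),(1,55),(2,159),(5,1)],.leaf [(0,85),(1,55),(2,159),(5,1)]⟩,
⟨⟨⟨3,126,154⟩,⟨154,-99,78⟩,⟨126,118,-99⟩⟩,true,42,184,.leaf [(0,42586),(2,13731),(4,253),(5,76)],.leaf [(0,42586),(2,13731),(4,253),(5,76)]⟩,
⟨⟨⟨99,78,154⟩,⟨118,99,-126⟩,⟨-126,154,3⟩⟩,true,43,90,.leaf [(0,76),(1,1),(3,150),(5,1)],.leaf [(0,76),(1,1),(3,150),(5,1)]⟩,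
⟨⟨⟨-99,-78,154⟩,⟨118,99,126⟩,⟨-126,154,-3⟩⟩,true,43,109,.leaf [(0,208),(1,157),(2,24),(5,1)],.leaf [(0,208),(1,157),(2,24),(5,1)]⟩,
⟨⟨⟨189,-42,46⟩,⟨-62,-141,126⟩,⟨6,-134,-147⟩⟩,true,44,75,.leaf [(1,9154),(2,5373),(4,71),(5,18)],.leaf [(1,9154),(2,5373),(4,71),(5,18)]⟩,
⟨⟨⟨-189,42,46⟩,⟨-62,-141,-126⟩,⟨6,-134,147⟩⟩,true,44,124,.leaf [(0,39601),(4,190),(6,76),(14,35)],.leaf [(0,3184),(4,25),(6,4),(10,995)]⟩,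
⟨⟨⟨189,-62,6⟩,⟨-42,-141,-134⟩,⟨46,126,-147⟩⟩,true,46,79,.leaf [(0,5174),(1,2985),(4,6),(5,25)],.leaf [(0,5174),(1,2985),(4,6),(5,25)]⟩,
⟨⟨⟨189,-62,-6⟩,⟨42,141,-134⟩,⟨46,126,147⟩⟩,true,46,120,.leaf [(3,39601),(5,225),(7,50),(14,92)],.leaf [(3,3781),(5,9),(7,14),(10,796)]⟩,
⟨⟨⟨-51,190,-30⟩,⟨-90,-51,-170⟩,⟨-170,-30,99⟩⟩,true,47,24,.leaf [(2,39601),(4,273),(7,167),(15,33)],.leaf [(2,3184),(4,21),(7,8),(10,597)]⟩,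
⟨⟨⟨-51,190,30⟩,⟨90,51,-170⟩,⟨-170,-30,-99⟩⟩,true,47,175,.leaf [(4,1671),(5,4788),(14,1726),(18,39601)],.leaf [(0,177),(3,4),(4,2),(10,101)]⟩,
⟨⟨⟨-141,114,82⟩,⟨-26,93,-174⟩,⟨-138,-134,-51⟩⟩,true,50,22,.leaf [(0,207),(1,66),(3,26),(6,1)],.leaf [(0,207),(1,66),(3,26),(6,1)]⟩,
⟨⟨⟨141,-114,82⟩,⟨-26,93,174⟩,⟨-138,-134,51⟩⟩,true,50,177,.leaf [(3,272232),(4,999),(18,42188),(22,11)],.leaf [(1,1215),(3,702),(10,620),(15,1)]⟩,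
⟨⟨⟨-147,-134,6⟩,⟨126,-141,-62⟩,⟨46,-42,189⟩⟩,true,51,69,.leaf [(0,39601),(4,267),(5,83),(7,171)],.leaf [(0,39601),(4,267),(5,83),(7,171)]⟩,
⟨⟨⟨-147,-134,-6⟩,⟨-126,141,-62⟩,⟨46,-42,-189⟩⟩,true,51,130,.leaf [(0,41),(1,183),(2,51),(5,1)],.leaf [(0,41),(1,183),(2,51),(5,1)]⟩,
⟨⟨⟨51,-134,-138⟩,⟨174,93,-26⟩,⟨82,-114,141⟩⟩,true,52,9,.leaf [(0,6368),(1,995),(4,8),(7,33)],.leaf [(0,6368),(1,995),(4,8),(7,33)]⟩,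
⟨⟨⟨51,-134,138⟩,⟨-174,-93,-26⟩,⟨82,-114,-141⟩⟩,true,52,190,.leaf [(0,20),(1,165),(3,114),(5,1)],.leaf [(0,20),(1,165),(3,114),(5,1)]⟩,
⟨⟨⟨-99,126,118⟩,⟨154,3,126⟩,⟨78,154,-99⟩⟩,true,53,37,.leaf [(0,27661),(3,14925),(4,211),(5,61)],.leaf [(0,27661),(3,14925),(4,211),(5,61)]⟩,
⟨⟨⟨99,-126,118⟩,⟨154,3,-126⟩,⟨78,154,99⟩⟩,true,53,162,.leaf [(0,160),(1,19),(2,120),(5,1)],.leaf [(0,160),(1,19),(2,120),(5,1)]⟩,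
⟨⟨⟨-125,90,126⟩,⟨126,-35,150⟩,⟨90,174,-35⟩⟩,true,55,77,.leaf [(0,33034),(3,13731),(4,230),(5,51)],.leaf [(0,33034),(3,13731),(4,230),(5,51)]⟩,
⟨⟨⟨-125,90,-126⟩,⟨126,-35,-150⟩,⟨-90,-174,-35⟩⟩,true,55,122,.leaf [(3,39601),(4,276),(7,50),(15,75)],.leaf [(0,175),(3,252),(4,2),(10,75)]⟩,
⟨⟨⟨147,-126,46⟩,⟨-134,-141,42⟩,⟨6,-62,-189⟩⟩,true,56,68,.leaf [(0,1990),(1,5771),(4,26),(5,25)],.leaf [(0,1990),(1,5771),(4,26),(5,25)]⟩,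
⟨⟨⟨-147,126,46⟩,⟨-134,-141,-42⟩,⟨6,-62,189⟩⟩,true,56,131,.leaf [(0,39601),(4,157),(6,133),(14,17)],.leaf [(0,118),(2,127),(4,1),(10,22)]⟩,
⟨⟨⟨-99,-170,30⟩,⟨-30,51,190⟩,⟨-170,90,-51⟩⟩,true,58,60,.leaf [(0,5174),(1,2985),(4,6),(5,25)],.leaf [(0,5174),(1,2985),(4,6),(5,25)]⟩,
⟨⟨⟨-99,-170,-30⟩,⟨30,-51,190⟩,⟨-170,90,51⟩⟩,true,58,139,.leaf [(0,4975),(1,1194),(4,15),(5,26)],.leaf [(0,4975),(1,1194),(4,15),(5,26)]⟩,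
⟨⟨⟨-93,-114,-134⟩,⟨-26,-141,138⟩,⟨-174,82,51⟩⟩,true,59,10,.leaf [(1,89),(2,27),(3,183),(4,1)],.leaf [(1,89),(2,27),(3,183),(4,1)]⟩,
⟨⟨⟨93,114,-134⟩,⟨-26,-141,-138⟩,⟨-174,82,-51⟩⟩,true,59,189,.leaf [(0,4577),(2,12736),(4,68),(6,1)],.leaf [(0,4577),(2,12736),(4,68),(6,1)]⟩,
⟨⟨⟨-99,30,-170⟩,⟨-170,-51,90⟩,⟨-30,190,51⟩⟩,true,60,58,.leaf [(0,81),(1,206),(3,54),(4,1)],.leaf [(0,81),(1,206),(3,54),(4,1)]⟩,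
⟨⟨⟨99,-30,-170⟩,⟨-170,-51,-90⟩,⟨-30,190,-51⟩⟩,true,60,141,.leaf [(2,39601),(4,225),(5,160),(6,4)],.leaf [(2,39601),(4,225),(5,160),(6,4)]⟩,
⟨⟨⟨51,-170,90⟩,⟨-30,-99,-170⟩,⟨190,30,-51⟩⟩,true,63,72,.leaf [(0,101),(1,141),(2,99),(5,1)],.leaf [(0,101),(1,141),(2,99),(5,1)]⟩,
⟨⟨⟨51,-170,-90⟩,⟨30,99,-170⟩,⟨190,30,51⟩⟩,true,63,127,.leaf [(0,168155),(5,319),(7,255),(18,13731)],.leaf [(2,121589),(5,723),(7,19),(10,25671)]⟩,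
⟨⟨⟨147,46,-126⟩,⟨6,-189,-62⟩,⟨-134,42,-141⟩⟩,true,68,56,.leaf [(0,79),(1,64),(2,156),(4,1)],.leaf [(0,79),(1,64),(2,156),(4,1)]⟩,
⟨⟨⟨147,46,126⟩,⟨-6,189,-62⟩,⟨-134,42,141⟩⟩,true,68,143,.leaf [(3,39601),(5,150),(7,140),(15,17)],.leaf [(1,756),(3,12),(10,67),(14,1)]⟩,
⟨⟨⟨-147,6,-134⟩,⟨46,189,-42⟩,⟨126,-62,-141⟩⟩,true,69,51,.leaf [(1,39601),(4,83),(5,267),(6,171)],.leaf [(1,39601),(4,83),(5,267),(6,171)]⟩,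
⟨⟨⟨147,-6,-134⟩,⟨46,189,42⟩,⟨126,-62,141⟩⟩,true,69,148,.leaf [(1,51),(2,183),(3,41),(6,1)],.leaf [(1,51),(2,183),(3,41),(6,1)]⟩,
⟨⟨⟨-141,138,-26⟩,⟨82,51,-174⟩,⟨-114,-134,-93⟩⟩,true,71,27,.leaf [(0,24),(2,165),(3,200),(6,1)],.leaf [(0,24),(2,165),(3,200),(6,1)]⟩,
⟨⟨⟨141,-138,-26⟩,⟨82,51,174⟩,⟨-114,-134,93⟩⟩,true,71,172,.leaf [(3,79202),(4,687),(5,742),(14,175)],.leaf [(5,67068),(10,2756349),(26,387254),(30,73)]⟩,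
⟨⟨⟨51,90,-170⟩,⟨190,-51,30⟩,⟨-30,-170,-99⟩⟩,true,72,63,.leaf [(0,141),(1,101),(3,99),(4,1)],.leaf [(0,141),(1,101),(3,99),(4,1)]⟩,
⟨⟨⟨-51,-90,-170⟩,⟨190,-51,-30⟩,⟨-30,-170,99⟩⟩,true,72,136,.leaf [(4,819),(6,156),(10,39601),(15,256)],.leaf [(1,2106),(3,1026),(10,719),(14,1)]⟩,
⟨⟨⟨19,-6,-198⟩,⟨114,163,6⟩,⟨162,-114,19⟩⟩,true,73,21,.leaf [(1,39601),(4,256),(7,52),(15,91)],.leaf [(1,2133),(3,1083),(10,1337),(22,1)]⟩,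
⟨⟨⟨19,-6,198⟩,⟨114,163,-6⟩,⟨-162,114,19⟩⟩,true,73,178,.leaf [(0,61),(2,59),(3,179),(5,1)],.leaf [(0,61),(2,59),(3,179),(5,1)]⟩,
⟨⟨⟨189,46,-42⟩,⟨6,-147,-134⟩,⟨-62,126,-141⟩⟩,true,75,44,.leaf [(0,4975),(1,1194),(4,15),(5,26)],.leaf [(0,4975),(1,1194),(4,15),(5,26)]⟩,
⟨⟨⟨189,46,42⟩,⟨-6,147,-134⟩,⟨-62,126,141⟩⟩,true,75,155,.leaf [(0,2511),(3,999),(18,155),(23,1)],.leaf [(0,25),(3,342),(5,2),(10,135)]⟩,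
⟨⟨⟨-35,126,150⟩,⟨90,-125,126⟩,⟨174,90,-35⟩⟩,true,76,81,.leaf [(0,31840),(2,13731),(4,185),(5,24)],.leaf [(0,31840),(2,13731),(4,185),(5,24)]⟩,
⟨⟨⟨-35,126,-150⟩,⟨90,-125,-126⟩,⟨-174,-90,-35⟩⟩,true,76,118,.leaf [(0,200),(1,24),(2,51),(4,1)],.leaf [(0,200),(1,24),(2,51),(4,1)]⟩,
⟨⟨⟨-125,126,90⟩,⟨90,-35,174⟩,⟨126,150,-35⟩⟩,true,77,55,.leaf [(0,161),(1,15),(3,69),(4,1)],.leaf [(0,161),(1,15),(3,69),(4,1)]⟩,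
⟨⟨⟨-125,126,-90⟩,⟨90,-35,-174⟩,⟨-126,-150,-35⟩⟩,true,77,144,.leaf [(0,79202),(4,175),(7,252),(14,75)],.leaf [(0,253),(3,108),(4,2),(10,69)]⟩,
⟨⟨⟨189,6,-62⟩,⟨46,-147,126⟩,⟨-42,-134,-141⟩⟩,true,79,46,.leaf [(0,99),(1,188),(2,54),(4,1)],.leaf [(0,99),(1,188),(2,54),(4,1)]⟩,
⟨⟨⟨-189,-6,-62⟩,⟨46,-147,-126⟩,⟨-42,-134,141⟩⟩,true,79,153,.leaf [(3,158404),(4,441),(6,662),(14,99)],.leaf [(0,203),(3,188),(4,2),(10,79)]⟩,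
⟨⟨⟨-35,150,126⟩,⟨174,-35,90⟩,⟨90,126,-125⟩⟩,true,81,76,.leaf [(0,15920),(3,597),(4,88),(5,15)],.leaf [(0,15920),(3,597),(4,88),(5,15)]⟩,
⟨⟨⟨-35,150,-126⟩,⟨174,-35,-90⟩,⟨-90,-126,-125⟩⟩,true,81,123,.leaf [(0,185),(1,6),(3,30),(4,1)],.leaf [(0,185),(1,6),(3,30),(4,1)]⟩,
⟨⟨⟨-35,174,-90⟩,⟨150,-35,-126⟩,⟨-126,-90,-125⟩⟩,true,86,31,.leaf [(0,39601),(4,185),(5,6),(7,30)],.leaf [(0,39601),(4,185),(5,6),(7,30)]⟩,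
⟨⟨⟨-35,174,90⟩,⟨150,-35,126⟩,⟨126,90,-125⟩⟩,true,86,168,.leaf [(0,209),(1,30),(3,6),(4,1)],.leaf [(0,209),(1,30),(3,6),(4,1)]⟩,
⟨⟨⟨93,-174,-26⟩,⟨-134,-51,-138⟩,⟨114,82,-141⟩⟩,true,88,4,.leaf [(0,175),(1,115),(2,81),(5,1)],.leaf [(0,175),(1,115),(2,81),(5,1)]⟩,
⟨⟨⟨-93,174,-26⟩,⟨-134,-51,138⟩,⟨114,82,141⟩⟩,true,88,195,.leaf [(0,174),(1,164),(2,51),(4,1)],.leaf [(0,174),(1,164),(2,51),(4,1)]⟩,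
⟨⟨⟨99,154,78⟩,⟨-126,3,154⟩,⟨118,-126,99⟩⟩,true,90,43,.leaf [(0,1),(1,76),(2,150),(4,1)],.leaf [(0,1),(1,76),(2,150),(4,1)]⟩,
⟨⟨⟨99,154,-78⟩,⟨126,-3,154⟩,⟨118,-126,-99⟩⟩,true,90,156,.leaf [(0,157),(1,181),(3,51),(4,1)],.leaf [(0,157),(1,181),(3,51),(4,1)]⟩,
⟨⟨⟨-195,-30,-26⟩,⟨-26,195,-30⟩,⟨30,-26,-195⟩⟩,true,92,93,.leaf [(1,2985),(2,398),(5,17),(6,2)],.leaf [(1,2985),(2,398),(5,17),(6,2)]⟩,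
⟨⟨⟨195,30,-26⟩,⟨-26,195,30⟩,⟨30,-26,195⟩⟩,true,92,106,.leaf [(1,796),(2,32835),(4,26),(6,165)],.leaf [(1,796),(2,32835),(4,26),(6,165)]⟩,
⟨⟨⟨-195,-26,-30⟩,⟨30,-195,-26⟩,⟨-26,-30,195⟩⟩,true,93,92,.leaf [(0,2985),(3,398),(4,17),(7,2)],.leaf [(0,2985),(3,398),(4,17),(7,2)]⟩,
⟨⟨⟨-195,-26,30⟩,⟨-30,195,-26⟩,⟨-26,-30,-195⟩⟩,true,93,107,.leaf [(1,2786),(3,199),(5,14),(7,1)],.leaf [(1,2786),(3,199),(5,14),(7,1)]⟩,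
⟨⟨⟨-141,-62,-126⟩,⟨42,-189,46⟩,⟨-134,6,147⟩⟩,true,95,39,.leaf [(0,69),(2,58),(3,172),(4,1)],.leaf [(0,69),(2,58),(3,172),(4,1)]⟩,
⟨⟨⟨-141,-62,126⟩,⟨-42,189,46⟩,⟨-134,6,-147⟩⟩,true,95,160,.leaf [(0,68),(1,174),(3,99),(5,1)],.leaf [(0,68),(1,174),(3,99),(5,1)]⟩,
⟨⟨⟨141,-62,126⟩,⟨42,189,46⟩,⟨-134,-6,147⟩⟩,true,104,39,.leaf [(2,1592),(3,4179),(5,9),(7,16)],.leaf [(2,1592),(3,4179),(5,9),(7,16)]⟩,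
⟨⟨⟨141,-62,-126⟩,⟨-42,-189,46⟩,⟨-134,-6,-147⟩⟩,true,104,160,.leaf [(0,58),(1,172),(2,69),(4,1)],.leaf [(0,58),(1,172),(2,69),(4,1)]⟩,
⟨⟨⟨195,-26,30⟩,⟨30,195,-26⟩,⟨-26,30,195⟩⟩,true,106,92,.leaf [(0,796),(3,32835),(5,26),(7,165)],.leaf [(0,796),(3,32835),(5,26),(7,165)]⟩,
⟨⟨⟨195,-26,-30⟩,⟨-30,-195,-26⟩,⟨-26,30,-195⟩⟩,true,106,107,.leaf [(1,398),(2,2985),(4,17),(5,2)],.leaf [(1,398),(2,2985),(4,17),(5,2)]⟩,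
⟨⟨⟨-195,30,-26⟩,⟨-26,-195,-30⟩,⟨-30,-26,195⟩⟩,true,107,93,.leaf [(0,2786),(2,199),(4,14),(6,1)],.leaf [(0,2786),(2,199),(4,14),(6,1)]⟩,
⟨⟨⟨195,-30,-26⟩,⟨-26,-195,30⟩,⟨-30,-26,-195⟩⟩,true,107,106,.leaf [(1,56),(2,165),(4,1)],.leaf [(1,56),(2,165),(4,1)]⟩,
⟨⟨⟨-99,154,-78⟩,⟨-126,-3,154⟩,⟨118,126,99⟩⟩,true,109,43,.leaf [(0,157),(1,208),(3,24),(4,1)],.leaf [(0,157),(1,208),(3,24),(4,1)]⟩,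
⟨⟨⟨-99,154,78⟩,⟨126,3,154⟩,⟨118,126,-99⟩⟩,true,109,156,.leaf [(0,151),(1,1),(3,75),(4,1)],.leaf [(0,151),(1,1),(3,75),(4,1)]⟩,
⟨⟨⟨93,174,-26⟩,⟨-134,51,-138⟩,⟨-114,82,141⟩⟩,true,111,4,.leaf [(0,215),(1,164),(2,10),(6,1)],.leaf [(0,215),(1,164),(2,10),(6,1)]⟩,
⟨⟨⟨-93,-174,-26⟩,⟨-134,51,138⟩,⟨-114,82,-141⟩⟩,true,111,195,.leaf [(0,196),(1,115),(2,60),(5,1)],.leaf [(0,196),(1,115),(2,60),(5,1)]⟩,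
⟨⟨⟨-35,-174,-90⟩,⟨-150,-35,126⟩,⟨-126,90,-125⟩⟩,true,113,31,.leaf [(2,7960),(3,8557),(4,32),(5,47)],.leaf [(2,7960),(3,8557),(4,32),(5,47)]⟩,
⟨⟨⟨-35,-174,90⟩,⟨-150,-35,-126⟩,⟨126,-90,-125⟩⟩,true,113,168,.leaf [(0,69),(1,215),(2,15),(5,1)],.leaf [(0,69),(1,215),(2,15),(5,1)]⟩,
⟨⟨⟨-35,-150,126⟩,⟨-174,-35,-90⟩,⟨90,-126,-125⟩⟩,true,118,76,.leaf [(0,24),(1,200),(3,51),(5,1)],.leaf [(0,24),(1,200),(3,51),(5,1)]⟩,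
⟨⟨⟨-35,-150,-126⟩,⟨-174,-35,90⟩,⟨-90,126,-125⟩⟩,true,118,123,.leaf [(1,1990),(3,597),(4,12),(5,5)],.leaf [(1,1990),(3,597),(4,12),(5,5)]⟩,
⟨⟨⟨189,-6,-62⟩,⟨46,147,126⟩,⟨42,-134,141⟩⟩,true,120,46,.leaf [(2,39601),(4,225),(6,50),(15,92)],.leaf [(1,252),(2,62),(6,1),(10,79)]⟩,
⟨⟨⟨-189,6,-62⟩,⟨46,147,-126⟩,⟨42,-134,-141⟩⟩,true,120,153,.leaf [(2,2985),(3,5174),(5,6),(6,25)],.leaf [(2,2985),(3,5174),(5,6),(6,25)]⟩,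
⟨⟨⟨-125,-126,90⟩,⟨-90,-35,-174⟩,⟨126,-150,-35⟩⟩,true,122,55,.leaf [(2,39601),(5,276),(6,50),(14,75)],.leaf [(1,192),(2,92),(6,1),(10,69)]⟩,
⟨⟨⟨-125,-126,-90⟩,⟨-90,-35,174⟩,⟨-126,150,-35⟩⟩,true,122,144,.leaf [(1,29054),(3,38805),(4,276),(5,91)],.leaf [(1,29054),(3,38805),(4,276),(5,91)]⟩,
⟨⟨⟨-35,-126,150⟩,⟨-90,-125,-126⟩,⟨174,-90,-35⟩⟩,true,123,81,.leaf [(0,6),(1,185),(2,30),(5,1)],.leaf [(0,6),(1,185),(2,30),(5,1)]⟩,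
⟨⟨⟨-35,-126,-150⟩,⟨-90,-125,126⟩,⟨-174,90,-35⟩⟩,true,123,118,.leaf [(1,35621),(3,23880),(4,216),(5,1)],.leaf [(1,35621),(3,23880),(4,216),(5,1)]⟩,
⟨⟨⟨-189,46,42⟩,⟨6,147,-134⟩,⟨-62,-126,-141⟩⟩,true,124,44,.leaf [(1,39601),(5,190),(7,76),(15,35)],.leaf [(1,299097),(7,777),(10,100495),(14,55)]⟩,
⟨⟨⟨-189,46,-42⟩,⟨-6,-147,-134⟩,⟨-62,-126,141⟩⟩,true,124,155,.leaf [(2,4975),(3,1194),(4,15),(7,26)],.leaf [(2,4975),(3,1194),(4,15),(7,26)]⟩,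
⟨⟨⟨19,6,-198⟩,⟨-114,163,-6⟩,⟨162,114,19⟩⟩,true,126,21,.leaf [(1,39601),(4,108),(5,17),(7,126)],.leaf [(1,39601),(4,108),(5,17),(7,126)]⟩,
⟨⟨⟨19,6,198⟩,⟨-114,163,6⟩,⟨-162,-114,19⟩⟩,true,126,178,.leaf [(3,768),(6,3),(10,52),(18,91)],.leaf [(1,1080),(10,299),(14,1)]⟩,
⟨⟨⟨51,-90,-170⟩,⟨190,51,30⟩,⟨30,-170,99⟩⟩,true,127,63,.leaf [(1,2376),(6,15),(10,40),(18,109)],.leaf [(1,1404),(3,261),(10,464),(15,1)]⟩,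
⟨⟨⟨-51,90,-170⟩,⟨190,51,-30⟩,⟨30,-170,-99⟩⟩,true,127,136,.leaf [(0,13731),(3,39800),(4,240),(6,31)],.leaf [(0,13731),(3,39800),(4,240),(6,31)]⟩,
⟨⟨⟨-141,-138,-26⟩,⟨82,-51,-174⟩,⟨114,-134,93⟩⟩,true,128,27,.leaf [(1,17313),(5,413),(6,193),(18,6965)],.leaf [(1,155817),(5,306),(10,13532),(15,181)]⟩,
⟨⟨⟨141,138,-26⟩,⟨82,-51,174⟩,⟨114,-134,-93⟩⟩,true,128,172,.leaf [(0,165),(1,200),(2,24),(4,1)],.leaf [(0,165),(1,200),(2,24),(4,1)]⟩,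
⟨⟨⟨-147,-6,-134⟩,⟨46,-189,-42⟩,⟨-126,-62,141⟩⟩,true,130,51,.leaf [(0,183),(1,41),(3,51),(4,1)],.leaf [(0,183),(1,41),(3,51),(4,1)]⟩,
⟨⟨⟨147,6,-134⟩,⟨46,-189,42⟩,⟨-126,-62,-141⟩⟩,true,130,148,.leaf [(0,135),(1,176),(2,60),(4,1)],.leaf [(0,135),(1,176),(2,60),(4,1)]⟩,
⟨⟨⟨-147,46,126⟩,⟨6,189,-62⟩,⟨-134,-42,-141⟩⟩,true,131,56,.leaf [(1,39601),(5,157),(7,133),(15,17)],.leaf [(1,891),(3,93),(10,403),(14,1)]⟩,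
⟨⟨⟨-147,46,-126⟩,⟨-6,-189,-62⟩,⟨-134,-42,141⟩⟩,true,131,143,.leaf [(0,220),(1,64),(2,15),(4,1)],.leaf [(0,220),(1,64),(2,15),(4,1)]⟩,
⟨⟨⟨-51,-170,-90⟩,⟨-30,99,-170⟩,⟨190,-30,-51⟩⟩,true,136,72,.leaf [(5,819),(7,156),(11,39601),(14,256)],.leaf [(0,537),(2,122),(7,4),(10,141)]⟩,
⟨⟨⟨-51,-170,90⟩,⟨30,-99,-170⟩,⟨190,-30,51⟩⟩,true,136,127,.leaf [(1,13731),(2,39800),(5,240),(7,31)],.leaf [(1,13731),(2,39800),(5,240),(7,31)]⟩,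
⟨⟨⟨-99,-30,-170⟩,⟨-170,51,90⟩,⟨30,190,-51⟩⟩,true,139,58,.leaf [(1,36815),(3,10746),(4,220),(5,81)],.leaf [(1,36815),(3,10746),(4,220),(5,81)]⟩,
⟨⟨⟨99,30,-170⟩,⟨-170,51,-90⟩,⟨30,190,51⟩⟩,true,139,141,.leaf [(2,39601),(4,234),(5,220),(6,115)],.leaf [(2,39601),(4,234),(5,220),(6,115)]⟩,
⟨⟨⟨-93,114,-134⟩,⟨-26,141,138⟩,⟨174,82,-51⟩⟩,true,140,10,.leaf [(1,8159),(3,14925),(4,85),(6,9)],.leaf [(1,8159),(3,14925),(4,85),(6,9)]⟩,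
⟨⟨⟨93,-114,-134⟩,⟨-26,141,-138⟩,⟨174,82,51⟩⟩,true,140,189,.leaf [(0,23681),(1,46367),(5,89),(6,231)],.leaf [(0,23681),(1,46367),(5,89),(6,231)]⟩,
⟨⟨⟨99,-170,-30⟩,⟨-30,-51,190⟩,⟨-170,-90,-51⟩⟩,true,141,60,.leaf [(3,39601),(4,160),(5,225),(7,4)],.leaf [(3,39601),(4,160),(5,225),(7,4)]⟩,
⟨⟨⟨99,-170,30⟩,⟨30,51,190⟩,⟨-170,-90,51⟩⟩,true,141,139,.leaf [(3,39601),(4,220),(5,234),(7,115)],.leaf [(3,39601),(4,220),(5,234),(7,115)]⟩,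
⟨⟨⟨147,126,46⟩,⟨-134,141,42⟩,⟨-6,-62,189⟩⟩,true,143,68,.leaf [(2,39601),(4,150),(6,140),(14,17)],.leaf [(0,105),(2,140),(6,1),(10,22)]⟩,
⟨⟨⟨-147,-126,46⟩,⟨-134,141,-42⟩,⟨-6,-62,-189⟩⟩,true,143,131,.leaf [(0,64),(1,220),(3,15),(5,1)],.leaf [(0,64),(1,220),(3,15),(5,1)]⟩,
⟨⟨⟨-125,-90,126⟩,⟨-126,-35,-150⟩,⟨90,-174,-35⟩⟩,true,144,77,.leaf [(1,79202),(5,175),(6,252),(15,75)],.leaf [(1,276),(2,50),(6,1),(10,75)]⟩,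
⟨⟨⟨-125,-90,-126⟩,⟨-126,-35,150⟩,⟨-90,174,-35⟩⟩,true,144,122,.leaf [(1,3184),(3,2985),(4,24),(5,5)],.leaf [(1,3184),(3,2985),(4,24),(5,5)]⟩,
⟨⟨⟨-99,-126,118⟩,⟨154,-3,126⟩,⟨-78,154,99⟩⟩,true,146,37,.leaf [(0,3980),(3,597),(4,20),(5,23)],.leaf [(0,3980),(3,597),(4,20),(5,23)]⟩,
⟨⟨⟨99,126,118⟩,⟨154,-3,-126⟩,⟨-78,154,-99⟩⟩,true,146,162,.leaf [(1,6),(2,28),(3,211),(5,1)],.leaf [(1,6),(2,28),(3,211),(5,1)]⟩,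
⟨⟨⟨-51,-134,138⟩,⟨174,-93,-26⟩,⟨82,114,141⟩⟩,true,147,9,.leaf [(0,5373),(2,17711),(5,93),(7,1)],.leaf [(0,5373),(2,17711),(5,93),(7,1)]⟩,
⟨⟨⟨-51,-134,-138⟩,⟨-174,93,-26⟩,⟨82,114,-141⟩⟩,true,147,190,.leaf [(2,6368),(3,995),(4,8),(5,33)],.leaf [(2,6368),(3,995),(4,8),(5,33)]⟩,
⟨⟨⟨147,-134,-6⟩,⟨126,141,-62⟩,⟨46,42,189⟩⟩,true,148,69,.leaf [(0,51),(2,41),(3,183),(7,1)],.leaf [(0,51),(2,41),(3,183),(7,1)]⟩,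
⟨⟨⟨147,-134,6⟩,⟨-126,-141,-62⟩,⟨46,42,-189⟩⟩,true,148,130,.leaf [(0,5174),(1,4975),(4,10),(5,29)],.leaf [(0,5174),(1,4975),(4,10),(5,29)]⟩,
⟨⟨⟨-141,-114,82⟩,⟨-26,-93,-174⟩,⟨138,-134,51⟩⟩,true,149,22,.leaf [(1,112236),(5,1100),(6,235),(18,14129)],.leaf [(1,356409),(5,465),(15,178),(22,124)]⟩,
⟨⟨⟨141,114,82⟩,⟨-26,-93,174⟩,⟨138,-134,-51⟩⟩,true,149,177,.leaf [(0,66),(1,92),(2,141),(4,1)],.leaf [(0,66),(1,92),(2,141),(4,1)]⟩,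
⟨⟨⟨51,190,30⟩,⟨-90,51,-170⟩,⟨-170,30,99⟩⟩,true,152,24,.leaf [(2,39601),(4,267),(7,83),(15,57)],.leaf [(1,204),(2,38),(4,1),(10,101)]⟩,
⟨⟨⟨51,190,-30⟩,⟨90,-51,-170⟩,⟨-170,30,-99⟩⟩,true,152,175,.leaf [(0,967140),(4,2349),(18,79799),(22,4)],.leaf [(0,99301),(4,762),(5,404),(10,19701)]⟩,
⟨⟨⟨-189,-62,-6⟩,⟨-42,141,-134⟩,⟨46,-126,-147⟩⟩,true,153,79,.leaf [(2,158404),(5,441),(7,662),(15,99)],.leaf [(1,63),(2,134),(7,1),(10,54)]⟩,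
⟨⟨⟨-189,-62,6⟩,⟨42,-141,-134⟩,⟨46,-126,147⟩⟩,true,153,120,.leaf [(2,5174),(3,2985),(4,6),(7,25)],.leaf [(2,5174),(3,2985),(4,6),(7,25)]⟩,
⟨⟨⟨189,42,46⟩,⟨-62,141,126⟩,⟨-6,-134,147⟩⟩,true,155,75,.leaf [(2,59302),(4,372),(6,335),(18,6965)],.leaf [(1,60),(2,125),(6,1),(10,58)]⟩,
⟨⟨⟨-189,-42,46⟩,⟨-62,141,-126⟩,⟨-6,-134,-147⟩⟩,true,155,124,.leaf [(2,1194),(3,4975),(5,15),(6,26)],.leaf [(2,1194),(3,4975),(5,15),(6,26)]⟩,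
⟨⟨⟨99,-78,154⟩,⟨118,-99,-126⟩,⟨126,154,-3⟩⟩,true,156,90,.leaf [(0,181),(1,157),(2,51),(5,1)],.leaf [(0,181),(1,157),(2,51),(5,1)]⟩,
⟨⟨⟨-99,78,154⟩,⟨118,-99,126⟩,⟨126,154,3⟩⟩,true,156,109,.leaf [(0,27661),(2,1194),(4,151),(5,28)],.leaf [(0,27661),(2,1194),(4,151),(5,28)]⟩,
⟨⟨⟨-3,126,154⟩,⟨154,99,-78⟩,⟨-126,118,-99⟩⟩,true,157,15,.leaf [(1,199),(3,4776),(4,8),(5,27)],.leaf [(1,199),(3,4776),(4,8),(5,27)]⟩,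
⟨⟨⟨3,-126,154⟩,⟨154,99,78⟩,⟨-126,118,99⟩⟩,true,157,184,.leaf [(0,214),(1,55),(2,30),(5,1)],.leaf [(0,214),(1,55),(2,30),(5,1)]⟩,
⟨⟨⟨-141,126,-62⟩,⟨-134,-147,6⟩,⟨-42,46,189⟩⟩,true,160,95,.leaf [(0,174),(1,68),(2,99),(4,1)],.leaf [(0,174),(1,68),(2,99),(4,1)]⟩,
⟨⟨⟨141,-126,-62⟩,⟨-134,-147,-6⟩,⟨-42,46,-189⟩⟩,true,160,104,.leaf [(1,26069),(2,22089),(4,241),(5,99)],.leaf [(1,26069),(2,22089),(4,241),(5,99)]⟩,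
⟨⟨⟨99,118,-126⟩,⟨78,99,154⟩,⟨154,-126,3⟩⟩,true,162,53,.leaf [(0,19),(1,160),(3,120),(4,1)],.leaf [(0,19),(1,160),(3,120),(4,1)]⟩,
⟨⟨⟨99,118,126⟩,⟨-78,-99,154⟩,⟨154,-126,-3⟩⟩,true,162,146,.leaf [(0,6),(2,211),(3,28),(4,1)],.leaf [(0,6),(2,211),(3,28),(4,1)]⟩,
⟨⟨⟨163,-6,114⟩,⟨114,19,-162⟩,⟨-6,198,19⟩⟩,true,166,30,.leaf [(0,204),(1,65),(3,30),(5,1)],.leaf [(0,204),(1,65),(3,30),(5,1)]⟩,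
⟨⟨⟨163,-6,-114⟩,⟨114,19,162⟩,⟨6,-198,19⟩⟩,true,166,169,.leaf [(1,100),(3,76),(4,1),(10,25)],.leaf [(3,158404),(4,429),(6,650),(14,25)]⟩,
⟨⟨⟨141,-134,42⟩,⟨126,147,46⟩,⟨-62,-6,189⟩⟩,true,167,13,.leaf [(2,34228),(3,54327),(5,6),(7,239)],.leaf [(2,34228),(3,54327),(5,6),(7,239)]⟩,
⟨⟨⟨141,-134,-42⟩,⟨-126,-147,46⟩,⟨-62,-6,-189⟩⟩,true,167,186,.leaf [(1,33233),(2,13731),(4,239),(5,83)],.leaf [(1,33233),(2,13731),(4,239),(5,83)]⟩,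
⟨⟨⟨-35,90,174⟩,⟨126,-125,90⟩,⟨150,126,-35⟩⟩,true,168,86,.leaf [(0,33034),(2,14925),(4,209),(5,84)],.leaf [(0,33034),(2,14925),(4,209),(5,84)]⟩,
⟨⟨⟨-35,90,-174⟩,⟨126,-125,-90⟩,⟨-150,-126,-35⟩⟩,true,168,113,.leaf [(0,215),(1,69),(3,15),(4,1)],.leaf [(0,215),(1,69),(3,15),(4,1)]⟩,
⟨⟨⟨163,-114,6⟩,⟨6,19,198⟩,⟨-114,-162,19⟩⟩,true,169,33,.leaf [(1,995),(3,1393),(4,5),(6,7)],.leaf [(1,995),(3,1393),(4,5),(6,7)]⟩,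
⟨⟨⟨163,-114,-6⟩,⟨6,19,-198⟩,⟨114,162,19⟩⟩,true,169,166,.leaf [(0,100),(2,76),(5,1),(11,25)],.leaf [(0,625),(2,454),(5,4),(10,25)]⟩,
⟨⟨⟨141,-26,-138⟩,⟨-114,93,-134⟩,⟨82,174,51⟩⟩,true,172,71,.leaf [(2,79202),(4,742),(5,687),(15,175)],.leaf [(2,74824),(4,329),(5,744),(10,34825)]⟩,
⟨⟨⟨141,-26,138⟩,⟨114,-93,-134⟩,⟨82,174,-51⟩⟩,true,172,128,.leaf [(0,200),(1,165),(3,24),(5,1)],.leaf [(0,200),(1,165),(3,24),(5,1)]⟩,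
⟨⟨⟨-51,30,190⟩,⟨-170,-99,-30⟩,⟨90,-170,51⟩⟩,true,175,47,.leaf [(4,2691),(5,2343),(15,299),(18,39601)],.leaf [(1,200),(2,24),(4,1),(10,105)]⟩,
⟨⟨⟨51,-30,190⟩,⟨-170,-99,30⟩,⟨90,-170,-51⟩⟩,true,175,152,.leaf [(1,986841),(5,3570),(15,1555),(18,39004)],.L (.leaf [(1,92),(2,147),(3,36),(4,1)]) (.leaf [(0,152235),(1,81988),(4,515),(30,6)]) (.leaf [(3,39601),(4,68),(5,167),(7,106)])⟩,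
⟨⟨⟨141,82,-114⟩,⟨-138,51,-134⟩,⟨-26,174,93⟩⟩,true,177,50,.leaf [(2,9552),(4,75),(14,4),(18,995)],.leaf [(0,5771),(4,30),(5,124),(10,6567)]⟩,
⟨⟨⟨141,82,114⟩,⟨138,-51,-134⟩,⟨-26,174,-93⟩⟩,true,177,149,.leaf [(0,92),(1,66),(3,141),(5,1)],.leaf [(0,92),(1,66),(3,141),(5,1)]⟩,
⟨⟨⟨19,198,-6⟩,⟨-162,19,114⟩,⟨114,-6,163⟩⟩,true,178,73,.leaf [(1,61),(2,179),(3,59),(4,1)],.leaf [(1,61),(2,179),(3,59),(4,1)]⟩,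
⟨⟨⟨19,198,6⟩,⟨-162,19,-114⟩,⟨-114,6,163⟩⟩,true,178,126,.leaf [(2,903),(4,18),(11,956),(18,301)],.leaf [(0,429),(2,218),(7,4),(10,169)]⟩,
⟨⟨⟨-51,-174,82⟩,⟨-134,93,114⟩,⟨-138,-26,-141⟩⟩,true,179,14,.leaf [(0,6),(2,142),(3,223),(5,1)],.leaf [(0,6),(2,142),(3,223),(5,1)]⟩,
⟨⟨⟨51,174,82⟩,⟨-134,93,-114⟩,⟨-138,-26,141⟩⟩,true,179,185,.leaf [(0,191),(1,32),(2,76),(6,1)],.leaf [(0,191),(1,32),(2,76),(6,1)]⟩,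
⟨⟨⟨19,-162,114⟩,⟨198,19,-6⟩,⟨-6,114,163⟩⟩,true,180,6,.leaf [(0,25074),(2,11741),(5,108),(6,49)],.leaf [(0,25074),(2,11741),(5,108),(6,49)]⟩,
⟨⟨⟨19,-162,-114⟩,⟨198,19,6⟩,⟨6,-114,163⟩⟩,true,180,193,.R (.leaf [(0,108),(3,117),(18,20),(27,1)]) (.leaf [(0,189),(3,144),(18,32),(26,1)]) (.leaf [(0,9747),(3,9648),(18,2420),(30,1)]),.leaf [(0,195),(3,148),(6,2),(10,91)]⟩,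
⟨⟨⟨3,154,126⟩,⟨126,-99,118⟩,⟨154,78,-99⟩⟩,true,184,42,.leaf [(0,41392),(2,14925),(4,225),(5,8)],.leaf [(0,41392),(2,14925),(4,225),(5,8)]⟩,
⟨⟨⟨3,154,-126⟩,⟨-126,99,118⟩,⟨154,78,99⟩⟩,true,184,157,.leaf [(0,55),(1,214),(3,30),(4,1)],.leaf [(0,55),(1,214),(3,30),(4,1)]⟩,
⟨⟨⟨51,82,-174⟩,⟨138,-141,-26⟩,⟨-134,-114,-93⟩⟩,true,185,20,.leaf [(0,223),(1,142),(3,6),(4,1)],.leaf [(0,223),(1,142),(3,6),(4,1)]⟩,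
⟨⟨⟨51,82,174⟩,⟨-138,141,-26⟩,⟨-134,-114,93⟩⟩,true,185,179,.leaf [(0,32),(1,191),(3,76),(7,1)],.leaf [(0,32),(1,191),(3,76),(7,1)]⟩,
⟨⟨⟨-141,42,-134⟩,⟨-62,-189,6⟩,⟨-126,46,147⟩⟩,true,186,32,.leaf [(0,225),(1,140),(2,6),(4,1)],.leaf [(0,225),(1,140),(2,6),(4,1)]⟩,
⟨⟨⟨141,-42,-134⟩,⟨-62,-189,-6⟩,⟨-126,46,-147⟩⟩,true,186,167,.leaf [(1,92),(2,147),(3,36),(4,1)],.leaf [(1,92),(2,147),(3,36),(4,1)]⟩,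
⟨⟨⟨93,-134,114⟩,⟨-174,-51,82⟩,⟨-26,-138,-141⟩⟩,true,189,59,.leaf [(1,4577),(3,12736),(5,68),(7,1)],.leaf [(1,4577),(3,12736),(5,68),(7,1)]⟩,
⟨⟨⟨93,-134,-114⟩,⟨174,51,82⟩,⟨-26,-138,141⟩⟩,true,189,140,.leaf [(0,46367),(1,23681),(4,89),(7,231)],.leaf [(0,46367),(1,23681),(4,89),(7,231)]⟩,
⟨⟨⟨51,138,-134⟩,⟨82,-141,-114⟩,⟨-174,-26,-93⟩⟩,true,190,52,.leaf [(0,165),(1,20),(2,114),(4,1)],.leaf [(0,165),(1,20),(2,114),(4,1)]⟩,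
⟨⟨⟨-51,-138,-134⟩,⟨82,-141,114⟩,⟨-174,-26,93⟩⟩,true,190,147,.leaf [(0,3),(1,59),(3,189),(4,1)],.leaf [(0,3),(1,59),(3,189),(4,1)]⟩,
⟨⟨⟨19,-114,162⟩,⟨6,163,114⟩,⟨-198,-6,19⟩⟩,true,193,19,.leaf [(0,91),(2,17),(3,143),(5,1)],.leaf [(0,91),(2,17),(3,143),(5,1)]⟩,
⟨⟨⟨19,-114,-162⟩,⟨6,163,-114⟩,⟨198,6,19⟩⟩,true,193,180,.leaf [(2,269247),(7,12),(14,598),(18,18109)],.leaf [(1,299),(5,1),(10,120)]⟩,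
⟨⟨⟨-93,-26,174⟩,⟨114,141,82⟩,⟨-134,138,-51⟩⟩,true,195,88,.leaf [(0,164),(1,174),(3,51),(5,1)],.leaf [(0,164),(1,174),(3,51),(5,1)]⟩,
⟨⟨⟨-93,-26,-174⟩,⟨-114,-141,82⟩,⟨-134,138,51⟩⟩,true,195,111,.leaf [(0,115),(1,196),(3,60),(4,1)],.leaf [(0,115),(1,196),(3,60),(4,1)]⟩]

theorem primeOk_199 : PrimeOk 199 := primeOk (by norm_num) (by norm_num) (by norm_num) L199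
  (by decide +kernel) (by decide +kernel)

def L233 : List Cls := [
⟨⟨⟨-233,0,0⟩,⟨0,-105,208⟩,⟨0,208,105⟩⟩,false,0,89,.leaf [(0,65),(2,40),(3,208),(4,1)],.leaf [(0,65),(2,40),(3,208),(4,1)]⟩,
⟨⟨⟨-233,0,0⟩,⟨0,105,208⟩,⟨0,208,-105⟩⟩,false,0,144,.leaf [(0,1864),(1,3029),(4,8),(5,13)],.leaf [(0,1864),(1,3029),(4,8),(5,13)]⟩,
⟨⟨⟨-105,0,208⟩,⟨0,-233,0⟩,⟨208,0,105⟩⟩,true,0,89,.leaf [(2,54289),(4,233),(5,273),(7,65)],.leaf [(2,54289),(4,233),(5,273),(7,65)]⟩,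
⟨⟨⟨105,0,208⟩,⟨0,-233,0⟩,⟨208,0,-105⟩⟩,true,0,144,.leaf [(0,1165),(1,3029),(4,5),(5,13)],.leaf [(0,1165),(1,3029),(4,5),(5,13)]⟩,
⟨⟨⟨225,-8,60⟩,⟨-8,225,60⟩,⟨-60,-60,217⟩⟩,true,1,109,.leaf [(2,261),(6,3),(11,160),(18,50)],.leaf [(2,15611),(5,40),(6,103),(10,4660)]⟩,
⟨⟨⟨225,-8,-60⟩,⟨-8,225,-60⟩,⟨60,60,217⟩⟩,true,1,124,.leaf [(1,60),(2,217),(3,60),(6,1)],.leaf [(1,60),(2,217),(3,60),(6,1)]⟩,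
⟨⟨⟨1,-228,48⟩,⟨132,-39,-188⟩,⟨192,28,129⟩⟩,true,5,48,.leaf [(2,1173),(5,9),(11,389),(18,85)],.leaf [(0,49),(2,894),(5,4),(10,81)]⟩,
⟨⟨⟨1,-228,-48⟩,⟨-132,39,-188⟩,⟨192,28,-129⟩⟩,true,5,185,.leaf [(1,8),(2,256),(3,73),(5,1)],.leaf [(1,8),(2,256),(3,73),(5,1)]⟩,
⟨⟨⟨-231,12,28⟩,⟨12,-161,168⟩,⟨28,168,159⟩⟩,true,6,14,.leaf [(0,173),(1,35),(3,105),(4,1)],.leaf [(0,173),(1,35),(3,105),(4,1)]⟩,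
⟨⟨⟨231,-12,28⟩,⟨12,-161,-168⟩,⟨28,168,-159⟩⟩,true,6,219,.leaf [(0,22135),(1,10718),(4,35),(5,94)],.leaf [(0,22135),(1,10718),(4,35),(5,94)]⟩,
⟨⟨⟨63,208,84⟩,⟨-224,63,12⟩,⟨-12,-84,217⟩⟩,true,7,79,.leaf [(4,450),(6,510),(11,54289),(15,107)],.leaf [(0,192),(2,55),(6,1),(10,24)]⟩,
⟨⟨⟨63,208,-84⟩,⟨-224,63,-12⟩,⟨12,84,217⟩⟩,true,7,154,.leaf [(1,22368),(2,47765),(4,264),(6,35)],.leaf [(1,22368),(2,47765),(4,264),(6,35)]⟩,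
⟨⟨⟨153,132,-116⟩,⟨36,127,192⟩,⟨172,-144,63⟩⟩,true,10,83,.leaf [(0,5),(1,215),(3,93),(4,1)],.leaf [(0,5),(1,215),(3,93),(4,1)]⟩,
⟨⟨⟨-153,-132,-116⟩,⟨36,127,-192⟩,⟨172,-144,-63⟩⟩,true,10,150,.leaf [(2,234631),(5,2022),(7,250),(18,37979)],.leaf [(0,411),(2,514),(7,4),(10,179)]⟩,
⟨⟨⟨73,-216,48⟩,⟨168,87,136⟩,⟨-144,-8,183⟩⟩,true,13,23,.leaf [(0,466),(3,233),(5,1),(6,2)],.leaf [(0,466),(3,233),(5,1),(6,2)]⟩,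
⟨⟨⟨73,-216,-48⟩,⟨-168,-87,136⟩,⟨-144,-8,-183⟩⟩,true,13,210,.leaf [(1,38911),(3,16776),(4,208),(5,129)],.leaf [(1,38911),(3,16776),(4,208),(5,129)]⟩,
⟨⟨⟨-231,28,12⟩,⟨28,159,168⟩,⟨12,168,-161⟩⟩,true,14,6,.leaf [(0,1165),(1,3029),(4,5),(5,13)],.leaf [(0,1165),(1,3029),(4,5),(5,13)]⟩,
⟨⟨⟨-231,28,-12⟩,⟨28,159,-168⟩,⟨-12,-168,-161⟩⟩,true,14,227,.leaf [(2,10718),(3,22135),(5,35),(6,94)],.leaf [(2,10718),(3,22135),(5,35),(6,94)]⟩,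
⟨⟨⟨127,-192,36⟩,⟨-144,-63,172⟩,⟨-132,-116,-153⟩⟩,true,15,70,.leaf [(1,10951),(3,23766),(4,76),(5,129)],.leaf [(1,10951),(3,23766),(4,76),(5,129)]⟩,
⟨⟨⟨127,-192,-36⟩,⟨144,63,172⟩,⟨-132,-116,153⟩⟩,true,15,163,.leaf [(0,99957),(3,107180),(6,770),(14,3)],.leaf [(0,255),(3,284),(6,2),(10,3)]⟩,
⟨⟨⟨-87,-168,136⟩,⟨-216,73,-48⟩,⟨-8,-144,-183⟩⟩,true,18,52,.leaf [(0,24),(1,211),(3,108),(5,1)],.leaf [(0,24),(1,211),(3,108),(5,1)]⟩,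
⟨⟨⟨87,168,136⟩,⟨-216,73,48⟩,⟨-8,-144,183⟩⟩,true,18,181,.leaf [(0,14213),(1,58949),(4,211),(7,243)],.leaf [(0,14213),(1,58949),(4,211),(7,243)]⟩,
⟨⟨⟨55,-120,-192⟩,⟨120,183,-80⟩,⟨192,-80,105⟩⟩,true,19,77,.leaf [(2,64308),(3,3961),(7,22),(15,89)],.leaf [(5,5832),(10,260261),(14,1313),(26,932)]⟩,
⟨⟨⟨55,-120,192⟩,⟨-120,-183,-80⟩,⟨192,-80,-105⟩⟩,true,19,156,.leaf [(0,40),(1,237),(3,60),(5,1)],.leaf [(0,40),(1,237),(3,60),(5,1)]⟩,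
⟨⟨⟨63,-12,-224⟩,⟨84,217,12⟩,⟨208,-84,63⟩⟩,true,22,100,.leaf [(0,13986),(3,10332),(18,2399),(22,1)],.leaf [(0,12),(3,175),(7,1),(10,84)]⟩,
⟨⟨⟨-63,12,-224⟩,⟨84,217,-12⟩,⟨208,-84,-63⟩⟩,true,22,133,.leaf [(4,4),(5,3),(7,2),(15,1)],.leaf [(3,51),(7,3),(10,236),(26,4)]⟩,
⟨⟨⟨73,48,-216⟩,⟨-144,183,-8⟩,⟨168,136,87⟩⟩,true,23,13,.leaf [(1,466),(2,233),(4,1),(7,2)],.leaf [(1,466),(2,233),(4,1),(7,2)]⟩,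
⟨⟨⟨73,48,216⟩,⟨144,-183,-8⟩,⟨168,136,-87⟩⟩,true,23,220,.leaf [(0,44969),(2,44736),(4,303),(5,224)],.leaf [(0,44969),(2,44736),(4,303),(5,224)]⟩,
⟨⟨⟨-183,-48,136⟩,⟨-144,73,-168⟩,⟨-8,-216,-87⟩⟩,true,27,40,.leaf [(1,16543),(2,5592),(5,61),(7,60)],.leaf [(1,16543),(2,5592),(5,61),(7,60)]⟩,
⟨⟨⟨183,48,136⟩,⟨-144,73,168⟩,⟨-8,-216,87⟩⟩,true,27,193,.leaf [(2,2563),(3,3728),(4,5),(7,16)],.leaf [(2,2563),(3,3728),(4,5),(7,16)]⟩,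
⟨⟨⟨-39,228,28⟩,⟨-132,1,-192⟩,⟨-188,-48,129⟩⟩,true,30,65,.leaf [(2,54289),(4,180),(7,40),(14,49)],.leaf [(2,35416),(4,219),(7,16),(10,11417)]⟩,
⟨⟨⟨39,-228,28⟩,⟨-132,1,192⟩,⟨-188,-48,-129⟩⟩,true,30,168,.leaf [(1,22135),(3,43338),(4,180),(5,229)],.leaf [(1,22135),(3,43338),(4,180),(5,229)]⟩,
⟨⟨⟨63,-144,172⟩,⟨192,127,36⟩,⟨-116,132,153⟩⟩,true,31,73,.leaf [(0,237),(1,19),(2,39),(5,1)],.leaf [(0,237),(1,19),(2,39),(5,1)]⟩,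
⟨⟨⟨-63,144,172⟩,⟨192,127,-36⟩,⟨-116,132,-153⟩⟩,true,31,160,.leaf [(3,37513),(4,106),(5,189),(10,466)],.leaf [(3,54289),(4,160),(5,270),(15,1)]⟩,
⟨⟨⟨-129,-192,28⟩,⟨48,1,228⟩,⟨-188,132,39⟩⟩,true,34,63,.leaf [(0,21902),(1,8155),(4,46),(5,95)],.leaf [(0,21902),(1,8155),(4,46),(5,95)]⟩,
⟨⟨⟨129,192,28⟩,⟨48,1,-228⟩,⟨-188,132,-39⟩⟩,true,34,170,.leaf [(0,1365147),(4,2853),(18,147256),(22,56)],.leaf [(0,36115),(4,377),(5,272),(10,19572)]⟩,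
⟨⟨⟨73,-168,144⟩,⟨216,87,-8⟩,⟨-48,136,183⟩⟩,true,36,69,.leaf [(0,36115),(2,8388),(5,136),(6,39)],.leaf [(0,36115),(2,8388),(5,136),(6,39)]⟩,
⟨⟨⟨73,-168,-144⟩,⟨-216,-87,-8⟩,⟨-48,136,-183⟩⟩,true,36,164,.leaf [(1,36115),(2,16776),(4,232),(5,117)],.leaf [(1,36115),(2,16776),(4,232),(5,117)]⟩,
⟨⟨⟨39,-188,132⟩,⟨28,-129,-192⟩,⟨228,48,1⟩⟩,true,37,93,.leaf [(1,42),(2,236),(3,89),(5,1)],.leaf [(1,42),(2,236),(3,89),(5,1)]⟩,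
⟨⟨⟨39,-188,-132⟩,⟨28,-129,192⟩,⟨-228,-48,1⟩⟩,true,37,140,.leaf [(1,11650),(3,25863),(4,140),(5,59)],.leaf [(1,11650),(3,25863),(4,140),(5,59)]⟩,
⟨⟨⟨-161,12,168⟩,⟨12,-231,28⟩,⟨168,28,159⟩⟩,true,39,80,.leaf [(2,54289),(4,133),(5,196),(6,86)],.leaf [(2,54289),(4,133),(5,196),(6,86)]⟩,
⟨⟨⟨-161,12,-168⟩,⟨-12,231,28⟩,⟨168,28,-159⟩⟩,true,39,153,.leaf [(1,54289),(4,40),(5,180),(7,147)],.leaf [(1,54289),(4,40),(5,180),(7,147)]⟩,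
⟨⟨⟨-183,136,-48⟩,⟨-8,-87,-216⟩,⟨-144,-168,73⟩⟩,true,40,27,.leaf [(0,16543),(3,5592),(4,61),(6,60)],.leaf [(0,16543),(3,5592),(4,61),(6,60)]⟩,
⟨⟨⟨-183,136,48⟩,⟨-8,-87,216⟩,⟨144,168,73⟩⟩,true,40,206,.leaf [(0,223),(1,108),(3,60),(4,1)],.leaf [(0,223),(1,108),(3,60),(4,1)]⟩,
⟨⟨⟨1,-192,-132⟩,⟨-48,129,-188⟩,⟨228,28,-39⟩⟩,true,41,101,.leaf [(2,448525),(5,2154),(7,730),(18,18873)],.leaf [(1,107),(2,170),(5,1),(10,50)]⟩,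
⟨⟨⟨1,-192,132⟩,⟨48,-129,-188⟩,⟨228,28,39⟩⟩,true,41,132,.leaf [(0,43),(1,93),(2,177),(5,1)],.leaf [(0,43),(1,93),(2,177),(5,1)]⟩,
⟨⟨⟨-129,-188,48⟩,⟨28,39,228⟩,⟨-192,132,1⟩⟩,true,43,108,.leaf [(0,22135),(1,10718),(4,35),(5,94)],.leaf [(0,22135),(1,10718),(4,35),(5,94)]⟩,
⟨⟨⟨-129,-188,-48⟩,⟨28,39,-228⟩,⟨192,-132,1⟩⟩,true,43,125,.leaf [(1,162867),(5,865),(6,695),(14,73)],.leaf [(1,476019),(5,1122),(10,110908),(15,101)]⟩,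
⟨⟨⟨-183,-80,120⟩,⟨-80,-105,-192⟩,⟨120,-192,55⟩⟩,true,45,49,.leaf [(3,423),(10,133),(15,1),(18,3)],.leaf [(1,987687),(10,599276),(15,1553),(23,126)]⟩,
⟨⟨⟨-183,-80,-120⟩,⟨-80,-105,192⟩,⟨-120,192,55⟩⟩,true,45,184,.leaf [(1,92),(2,25),(3,220),(4,1)],.leaf [(1,92),(2,25),(3,220),(4,1)]⟩,
⟨⟨⟨127,144,-132⟩,⟨-192,63,-116⟩,⟨-36,172,153⟩⟩,true,47,54,.leaf [(2,27028),(4,60),(7,79),(11,699)],.leaf [(2,179410),(4,429),(7,460),(10,699)]⟩,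
⟨⟨⟨127,144,132⟩,⟨192,-63,-116⟩,⟨-36,172,-153⟩⟩,true,47,179,.leaf [(0,62444),(2,3495),(4,285),(5,248)],.leaf [(0,62444),(2,3495),(4,285),(5,248)]⟩,
⟨⟨⟨1,48,-228⟩,⟨192,129,28⟩,⟨132,-188,-39⟩⟩,true,48,5,.leaf [(3,321),(7,3),(10,170),(18,50)],.leaf [(1,11883),(4,30),(10,2330),(15,17)]⟩,
⟨⟨⟨1,48,228⟩,⟨-192,-129,28⟩,⟨132,-188,39⟩⟩,true,48,228,.leaf [(1,54289),(4,43),(5,93),(6,177)],.leaf [(1,54289),(4,43),(5,93),(6,177)]⟩,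
⟨⟨⟨-183,120,-80⟩,⟨120,55,-192⟩,⟨-80,-192,-105⟩⟩,true,49,45,.leaf [(2,765),(11,284),(14,2),(18,3)],.leaf [(4,833),(5,159),(7,691),(10,54289)]⟩,
⟨⟨⟨183,-120,-80⟩,⟨120,55,192⟩,⟨-80,-192,105⟩⟩,true,49,188,.leaf [(1,45435),(3,43804),(4,312),(7,175)],.leaf [(1,45435),(3,43804),(4,312),(7,175)]⟩,
⟨⟨⟨159,28,168⟩,⟨28,-231,12⟩,⟨168,12,-161⟩⟩,true,50,67,.leaf [(0,1864),(1,3029),(4,8),(5,13)],.leaf [(0,1864),(1,3029),(4,8),(5,13)]⟩,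
⟨⟨⟨159,28,-168⟩,⟨28,-231,-12⟩,⟨-168,-12,-161⟩⟩,true,50,166,.leaf [(1,14),(2,259),(3,142),(4,1)],.leaf [(1,14),(2,259),(3,142),(4,1)]⟩,
⟨⟨⟨-87,136,-168⟩,⟨-8,-183,-144⟩,⟨-216,-48,73⟩⟩,true,52,18,.leaf [(0,211),(1,24),(2,108),(4,1)],.leaf [(0,211),(1,24),(2,108),(4,1)]⟩,
⟨⟨⟨-87,136,168⟩,⟨-8,-183,144⟩,⟨216,48,73⟩⟩,true,52,215,.leaf [(0,14213),(2,13980),(4,95),(5,24)],.leaf [(0,14213),(2,13980),(4,95),(5,24)]⟩,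
⟨⟨⟨217,84,-12⟩,⟨12,-63,-224⟩,⟨-84,208,-63⟩⟩,true,53,59,.leaf [(0,54289),(4,75),(5,250),(7,42)],.leaf [(0,54289),(4,75),(5,250),(7,42)]⟩,
⟨⟨⟨217,84,12⟩,⟨-12,63,-224⟩,⟨-84,208,63⟩⟩,true,53,174,.leaf [(5,324),(7,495),(11,54289),(14,40)],.leaf [(0,243),(2,850),(7,4),(10,75)]⟩,
⟨⟨⟨127,-132,144⟩,⟨-36,153,172⟩,⟨-192,-116,63⟩⟩,true,54,47,.leaf [(3,27028),(5,60),(6,79),(10,699)],.leaf [(3,54289),(5,141),(6,133),(14,3)]⟩,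
⟨⟨⟨127,-132,-144⟩,⟨36,-153,172⟩,⟨-192,-116,-63⟩⟩,true,54,186,.leaf [(0,21),(1,214),(3,102),(4,1)],.leaf [(0,21),(1,214),(3,102),(4,1)]⟩,
⟨⟨⟨217,-12,84⟩,⟨-84,-63,208⟩,⟨12,-224,-63⟩⟩,true,59,53,.leaf [(1,54289),(4,250),(5,75),(6,42)],.leaf [(1,54289),(4,250),(5,75),(6,42)]⟩,
⟨⟨⟨217,-12,-84⟩,⟨84,63,208⟩,⟨12,-224,63⟩⟩,true,59,180,.leaf [(4,648),(6,99),(10,54289),(15,16)],.leaf [(1,1868427),(6,42930),(26,419866),(31,85)]⟩,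
⟨⟨⟨217,-60,-60⟩,⟨60,225,-8⟩,⟨60,-8,225⟩⟩,true,62,62,.leaf [(0,1321110),(7,10665),(18,404954),(23,77)],.leaf [(3,146790),(5,2295),(10,205972),(15,91)]⟩,
⟨⟨⟨217,-60,60⟩,⟨-60,-225,-8⟩,⟨60,-8,-225⟩⟩,true,62,171,.leaf [(0,3029),(1,3961),(4,13),(5,17)],.leaf [(0,3029),(1,3961),(4,13),(5,17)]⟩,
⟨⟨⟨-129,28,-192⟩,⟨-188,39,132⟩,⟨48,228,1⟩⟩,true,63,34,.leaf [(1,38212),(3,24465),(4,200),(5,11)],.leaf [(1,38212),(3,24465),(4,200),(5,11)]⟩,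
⟨⟨⟨-129,28,192⟩,⟨-188,39,-132⟩,⟨-48,-228,1⟩⟩,true,63,199,.R (.leaf [(3,457),(5,1),(18,48),(27,2)]) (.leaf [(3,2713),(5,7),(18,312),(26,8)]) (.leaf [(3,321773),(5,803),(18,36348),(30,4)]),.leaf [(3,204108),(6,846),(10,63143),(14,7)]⟩,
⟨⟨⟨-39,28,228⟩,⟨-188,129,-48⟩,⟨-132,-192,1⟩⟩,true,65,30,.leaf [(3,54289),(5,180),(6,40),(15,49)],.leaf [(0,189),(3,140),(6,2),(10,125)]⟩,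
⟨⟨⟨-39,28,-228⟩,⟨-188,129,48⟩,⟨132,192,1⟩⟩,true,65,203,.leaf [(1,54289),(4,278),(5,131),(6,42)],.leaf [(1,54289),(4,278),(5,131),(6,42)]⟩,
⟨⟨⟨159,168,28⟩,⟨168,-161,12⟩,⟨28,12,-231⟩⟩,true,67,50,.leaf [(0,43571),(2,39144),(4,259),(5,16)],.leaf [(0,43571),(2,39144),(4,259),(5,16)]⟩,
⟨⟨⟨-159,-168,28⟩,⟨168,-161,-12⟩,⟨28,12,231⟩⟩,true,67,183,.leaf [(0,233),(2,10951),(5,37),(7,29)],.leaf [(0,233),(2,10951),(5,37),(7,29)]⟩,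
⟨⟨⟨73,144,-168⟩,⟨-48,183,136⟩,⟨216,-8,87⟩⟩,true,69,36,.leaf [(1,36115),(3,8388),(4,136),(7,39)],.leaf [(1,36115),(3,8388),(4,136),(7,39)]⟩,
⟨⟨⟨73,144,168⟩,⟨48,-183,136⟩,⟨216,-8,-87⟩⟩,true,69,197,.leaf [(0,33785),(2,44736),(4,255),(5,32)],.leaf [(0,33785),(2,44736),(4,255),(5,32)]⟩,
⟨⟨⟨127,36,-192⟩,⟨-132,-153,-116⟩,⟨-144,172,-63⟩⟩,true,70,15,.leaf [(0,3),(1,76),(2,186),(4,1)],.leaf [(0,3),(1,76),(2,186),(4,1)]⟩,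
⟨⟨⟨127,36,192⟩,⟨132,153,-116⟩,⟨-144,172,63⟩⟩,true,70,218,.leaf [(0,221816),(3,209700),(5,1625),(23,3)],.leaf [(0,269),(3,270),(5,2),(10,3)]⟩,
⟨⟨⟨63,172,-144⟩,⟨-116,153,132⟩,⟨192,36,127⟩⟩,true,73,31,.leaf [(0,19),(1,237),(3,39),(4,1)],.leaf [(0,19),(1,237),(3,39),(4,1)]⟩,
⟨⟨⟨63,172,144⟩,⟨-116,153,-132⟩,⟨-192,-36,127⟩⟩,true,73,202,.leaf [(0,20271),(5,59),(6,103),(11,233)],.leaf [(0,93666),(5,272),(6,463),(10,233)]⟩,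
⟨⟨⟨55,-192,-120⟩,⟨192,105,-80⟩,⟨120,-80,183⟩⟩,true,77,19,.leaf [(2,3961),(3,64308),(6,22),(14,89)],.leaf [(3,24698),(5,6),(6,161),(10,14679)]⟩,
⟨⟨⟨55,-192,120⟩,⟨-192,-105,-80⟩,⟨120,-80,-183⟩⟩,true,77,214,.leaf [(0,112),(1,240),(3,63),(5,1)],.leaf [(0,112),(1,240),(3,63),(5,1)]⟩,
⟨⟨⟨63,84,208⟩,⟨-12,217,-84⟩,⟨-224,12,63⟩⟩,true,79,7,.leaf [(5,450),(7,510),(10,54289),(14,107)],.leaf [(1,2565),(3,1386),(10,940),(15,1)]⟩,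
⟨⟨⟨-63,-84,208⟩,⟨-12,217,84⟩,⟨-224,12,-63⟩⟩,true,79,226,.leaf [(1,7),(2,96),(3,264),(5,1)],.leaf [(1,7),(2,96),(3,264),(5,1)]⟩,
⟨⟨⟨-161,168,12⟩,⟨168,159,28⟩,⟨12,28,-231⟩⟩,true,80,39,.leaf [(3,54289),(4,196),(5,133),(7,86)],.leaf [(3,54289),(4,196),(5,133),(7,86)]⟩,
⟨⟨⟨-161,168,-12⟩,⟨-168,-159,28⟩,⟨12,28,231⟩⟩,true,80,194,.leaf [(0,180),(1,40),(2,147),(4,1)],.leaf [(0,180),(1,40),(2,147),(4,1)]⟩,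
⟨⟨⟨183,144,-8⟩,⟨-48,73,216⟩,⟨136,-168,87⟩⟩,true,81,112,.leaf [(0,32),(1,224),(2,39),(4,1)],.leaf [(0,32),(1,224),(2,39),(4,1)]⟩,
⟨⟨⟨-183,-144,-8⟩,⟨-48,73,-216⟩,⟨136,-168,-87⟩⟩,true,81,121,.leaf [(2,217156),(5,615),(7,718),(15,25)],.leaf [(2,173119),(5,435),(7,607),(10,5825)]⟩,
⟨⟨⟨-153,36,172⟩,⟨-132,127,-144⟩,⟨-116,-192,-63⟩⟩,true,82,107,.leaf [(1,12582),(2,19339),(7,118),(14,1)],.leaf [(1,117),(2,154),(7,1),(10,2)]⟩,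
⟨⟨⟨153,-36,172⟩,⟨-132,127,144⟩,⟨-116,-192,63⟩⟩,true,82,126,.leaf [(1,54289),(4,276),(5,58),(7,237)],.leaf [(1,54289),(4,276),(5,58),(7,237)]⟩,
⟨⟨⟨153,-116,132⟩,⟨172,63,-144⟩,⟨36,192,127⟩⟩,true,83,10,.leaf [(0,215),(1,5),(2,93),(5,1)],.leaf [(0,215),(1,5),(2,93),(5,1)]⟩,
⟨⟨⟨153,-116,-132⟩,⟨172,63,144⟩,⟨-36,-192,127⟩⟩,true,83,223,.leaf [(4,162),(6,231),(10,15611),(18,5126)],.leaf [(1,2565),(3,1455),(10,947),(14,1)]⟩,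
⟨⟨⟨105,-80,192⟩,⟨-80,183,120⟩,⟨-192,-120,55⟩⟩,true,88,115,.R (.leaf [(0,108),(3,117),(18,20),(27,1)]) (.leaf [(0,189),(3,144),(18,32),(26,1)]) (.leaf [(0,12096),(3,16749),(18,2240),(31,1)]),.leaf [(3,2563),(5,19),(6,30),(10,2330)]⟩,
⟨⟨⟨105,-80,-192⟩,⟨-80,183,-120⟩,⟨192,120,55⟩⟩,true,88,118,.leaf [(1,54289),(4,197),(5,137),(6,237)],.leaf [(1,54289),(4,197),(5,137),(6,237)]⟩,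
⟨⟨⟨-105,208,0⟩,⟨208,105,0⟩,⟨0,0,-233⟩⟩,true,89,0,.leaf [(3,54289),(4,273),(5,233),(6,65)],.leaf [(3,54289),(4,273),(5,233),(6,65)]⟩,
⟨⟨⟨39,132,-188⟩,⟨228,1,48⟩,⟨28,-192,-129⟩⟩,true,93,37,.leaf [(0,42),(2,89),(3,236),(4,1)],.leaf [(0,42),(2,89),(3,236),(4,1)]⟩,
⟨⟨⟨-39,-132,-188⟩,⟨228,1,-48⟩,⟨28,-192,129⟩⟩,true,93,196,.leaf [(0,11883),(3,5825),(4,69),(7,65)],.leaf [(0,11883),(3,5825),(4,69),(7,65)]⟩,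
⟨⟨⟨-63,-116,-192⟩,⟨172,-153,36⟩,⟨-144,-132,127⟩⟩,true,98,114,.leaf [(0,37),(1,15),(3,213),(4,1)],.leaf [(0,37),(1,15),(3,213),(4,1)]⟩,
⟨⟨⟨-63,-116,192⟩,⟨172,-153,-36⟩,⟨144,132,127⟩⟩,true,98,119,.leaf [(2,31222),(3,6757),(4,6),(5,125)],.leaf [(2,31222),(3,6757),(4,6),(5,125)]⟩,
⟨⟨⟨87,-8,-216⟩,⟨136,183,48⟩,⟨168,-144,73⟩⟩,true,99,110,.leaf [(1,56153),(3,22135),(4,175),(6,191)],.leaf [(1,56153),(3,22135),(4,175),(6,191)]⟩,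
⟨⟨⟨87,-8,216⟩,⟨136,183,-48⟩,⟨-168,144,73⟩⟩,true,99,123,.leaf [(0,152),(1,20),(3,123),(5,1)],.leaf [(0,152),(1,20),(3,123),(5,1)]⟩,
⟨⟨⟨63,-224,-12⟩,⟨208,63,-84⟩,⟨84,12,217⟩⟩,true,100,22,.leaf [(1,43338),(5,154),(6,479),(18,8155)],.leaf [(2,36581),(5,256),(6,67),(10,13048)]⟩,
⟨⟨⟨63,-224,12⟩,⟨208,63,84⟩,⟨-84,-12,217⟩⟩,true,100,211,.leaf [(2,487203),(4,126),(15,860),(18,20737)],.leaf [(2,118),(3,171),(5,1),(10,94)]⟩,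
⟨⟨⟨1,-132,-192⟩,⟨228,-39,28⟩,⟨-48,-188,129⟩⟩,true,101,41,.leaf [(4,864),(6,33),(15,928),(18,54289)],.leaf [(0,231),(3,116),(6,2),(10,111)]⟩,
⟨⟨⟨1,-132,192⟩,⟨-228,39,28⟩,⟨-48,-188,-129⟩⟩,true,101,192,.leaf [(1,25164),(3,17009),(5,93),(6,56)],.leaf [(1,25164),(3,17009),(5,93),(6,56)]⟩,
⟨⟨⟨-153,172,36⟩,⟨-116,-63,-192⟩,⟨-132,-144,127⟩⟩,true,107,82,.leaf [(0,12582),(3,19339),(6,118),(15,1)],.leaf [(0,108),(3,160),(6,1),(10,1)]⟩,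
⟨⟨⟨-153,172,-36⟩,⟨-116,-63,192⟩,⟨132,144,127⟩⟩,true,107,151,.leaf [(0,235),(1,213),(3,15),(4,1)],.leaf [(0,235),(1,213),(3,15),(4,1)]⟩,
⟨⟨⟨-129,48,-188⟩,⟨-192,1,132⟩,⟨28,228,39⟩⟩,true,108,43,.leaf [(0,47),(1,215),(3,105),(4,1)],.leaf [(0,47),(1,215),(3,105),(4,1)]⟩,
⟨⟨⟨129,-48,-188⟩,⟨-192,1,-132⟩,⟨28,228,-39⟩⟩,true,108,190,.leaf [(2,324),(11,160),(14,1),(18,1)],.leaf [(2,142130),(4,605),(5,684),(10,17009)]⟩,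
⟨⟨⟨225,60,-8⟩,⟨-60,217,-60⟩,⟨-8,60,225⟩⟩,true,109,1,.leaf [(3,168),(4,3),(10,11),(18,92)],.leaf [(1,675),(3,441),(10,37),(14,1)]⟩,
⟨⟨⟨-225,-60,-8⟩,⟨-60,217,60⟩,⟨-8,60,-225⟩⟩,true,109,232,.leaf [(0,60),(1,217),(2,60),(5,1)],.leaf [(0,60),(1,217),(2,60),(5,1)]⟩,
⟨⟨⟨87,-216,-8⟩,⟨168,73,-144⟩,⟨136,48,183⟩⟩,true,110,99,.leaf [(0,56153),(2,22135),(5,175),(7,191)],.leaf [(0,56153),(2,22135),(5,175),(7,191)]⟩,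
⟨⟨⟨-87,216,-8⟩,⟨168,73,144⟩,⟨136,48,-183⟩⟩,true,110,134,.leaf [(0,143),(1,20),(3,132),(4,1)],.leaf [(0,143),(1,20),(3,132),(4,1)]⟩,
⟨⟨⟨183,-8,144⟩,⟨136,87,-168⟩,⟨-48,216,73⟩⟩,true,112,81,.leaf [(0,224),(1,32),(3,39),(5,1)],.leaf [(0,224),(1,32),(3,39),(5,1)]⟩,
⟨⟨⟨183,-8,-144⟩,⟨136,87,168⟩,⟨48,-216,73⟩⟩,true,112,152,.leaf [(4,702),(6,72),(10,54289),(14,7)],.leaf [(1,178245),(6,330),(10,56386),(15,53)]⟩,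
⟨⟨⟨-63,-192,-116⟩,⟨-144,127,-132⟩,⟨172,36,-153⟩⟩,true,114,98,.leaf [(0,15),(1,37),(2,213),(5,1)],.leaf [(0,15),(1,37),(2,213),(5,1)]⟩,
⟨⟨⟨63,192,-116⟩,⟨-144,127,132⟩,⟨172,36,153⟩⟩,true,114,135,.leaf [(0,53),(1,248),(2,12),(4,1)],.leaf [(0,53),(1,248),(2,12),(4,1)]⟩,
⟨⟨⟨105,192,-80⟩,⟨-192,55,-120⟩,⟨-80,120,183⟩⟩,true,115,88,.leaf [(2,187),(4,1),(18,10)],.leaf [(1,360),(2,37),(4,1),(10,100)]⟩,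
⟨⟨⟨-105,-192,-80⟩,⟨-192,55,120⟩,⟨-80,120,-183⟩⟩,true,115,145,.leaf [(1,4660),(3,2097),(4,24),(5,19)],.leaf [(1,4660),(3,2097),(4,24),(5,19)]⟩,
⟨⟨⟨105,-192,-80⟩,⟨192,55,120⟩,⟨-80,-120,183⟩⟩,true,118,88,.leaf [(0,54289),(4,137),(5,197),(7,237)],.leaf [(0,54289),(4,137),(5,197),(7,237)]⟩,
⟨⟨⟨-105,192,-80⟩,⟨192,55,-120⟩,⟨-80,-120,-183⟩⟩,true,118,145,.leaf [(0,13095),(3,12060),(18,2402),(22,1)],.leaf [(0,87),(3,160),(4,1),(10,50)]⟩,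
⟨⟨⟨-63,192,-116⟩,⟨144,127,132⟩,⟨172,-36,-153⟩⟩,true,119,98,.leaf [(0,65),(1,53),(3,195),(4,1)],.leaf [(0,65),(1,53),(3,195),(4,1)]⟩,
⟨⟨⟨63,-192,-116⟩,⟨144,127,-132⟩,⟨172,-36,153⟩⟩,true,119,135,.leaf [(0,228),(1,15),(3,22),(7,1)],.leaf [(0,228),(1,15),(3,22),(7,1)]⟩,
⟨⟨⟨-183,-8,-144⟩,⟨136,-87,-168⟩,⟨-48,-216,73⟩⟩,true,121,81,.leaf [(3,217156),(4,615),(6,718),(14,25)],.leaf [(3,28892),(4,105),(6,26),(10,5825)]⟩,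
⟨⟨⟨-183,-8,144⟩,⟨136,-87,168⟩,⟨48,216,73⟩⟩,true,121,152,.leaf [(0,44969),(3,13980),(4,263),(5,108)],.leaf [(0,44969),(3,13980),(4,263),(5,108)]⟩,
⟨⟨⟨87,216,-8⟩,⟨-168,73,144⟩,⟨136,-48,183⟩⟩,true,123,99,.leaf [(0,20),(1,152),(2,123),(4,1)],.leaf [(0,20),(1,152),(2,123),(4,1)]⟩,
⟨⟨⟨-87,-216,-8⟩,⟨-168,73,-144⟩,⟨136,-48,-183⟩⟩,true,123,134,.leaf [(0,60),(1,175),(2,108),(5,1)],.leaf [(0,60),(1,175),(2,108),(5,1)]⟩,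
⟨⟨⟨225,-60,-8⟩,⟨60,217,60⟩,⟨-8,-60,225⟩⟩,true,124,1,.leaf [(0,60),(2,60),(3,217),(7,1)],.leaf [(0,60),(2,60),(3,217),(7,1)]⟩,
⟨⟨⟨-225,60,-8⟩,⟨60,217,-60⟩,⟨-8,-60,-225⟩⟩,true,124,232,.leaf [(1,54289),(5,247),(15,30)],.leaf [(1,4239),(3,1344),(10,896),(23,1)]⟩,
⟨⟨⟨-129,-48,-188⟩,⟨192,1,-132⟩,⟨28,-228,39⟩⟩,true,125,43,.leaf [(0,162867),(4,865),(7,695),(15,73)],.leaf [(0,150285),(4,754),(7,740),(10,17009)]⟩,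
⟨⟨⟨129,48,-188⟩,⟨192,1,132⟩,⟨28,-228,-39⟩⟩,true,125,190,.leaf [(0,47),(1,152),(3,168),(4,1)],.leaf [(0,47),(1,152),(3,168),(4,1)]⟩,
⟨⟨⟨153,172,-36⟩,⟨-116,63,-192⟩,⟨-132,144,127⟩⟩,true,126,82,.leaf [(0,54289),(4,58),(5,276),(6,237)],.leaf [(0,54289),(4,58),(5,276),(6,237)]⟩,
⟨⟨⟨153,172,36⟩,⟨-116,63,192⟩,⟨132,-144,127⟩⟩,true,126,151,.leaf [(1,784),(2,550),(4,5),(18,1)],.leaf [(1,164),(2,107),(4,1),(10,2)]⟩,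
⟨⟨⟨1,132,-192⟩,⟨228,39,28⟩,⟨48,-188,-129⟩⟩,true,132,41,.leaf [(0,93),(1,43),(3,177),(4,1)],.leaf [(0,93),(1,43),(3,177),(4,1)]⟩,
⟨⟨⟨1,132,192⟩,⟨-228,-39,28⟩,⟨48,-188,129⟩⟩,true,132,192,.leaf [(1,117),(2,561),(15,1),(18,17)],.leaf [(1,280),(2,60),(4,1),(10,111)]⟩,
⟨⟨⟨-63,-224,12⟩,⟨208,-63,-84⟩,⟨84,-12,217⟩⟩,true,133,22,.leaf [(4,3),(5,4),(6,2),(14,1)],.leaf [(1,75),(2,142),(5,1),(10,70)]⟩,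
⟨⟨⟨-63,-224,-12⟩,⟨208,-63,84⟩,⟨-84,12,217⟩⟩,true,133,211,.leaf [(0,54289),(4,355),(5,432),(14,84)],.leaf [(3,19106),(4,93),(5,98),(10,8155)]⟩,
⟨⟨⟨-87,-8,216⟩,⟨136,-183,48⟩,⟨168,144,73⟩⟩,true,134,110,.leaf [(0,19805),(2,30756),(4,143),(5,168)],.leaf [(0,19805),(2,30756),(4,143),(5,168)]⟩,
⟨⟨⟨-87,-8,-216⟩,⟨136,-183,-48⟩,⟨-168,-144,73⟩⟩,true,134,123,.leaf [(0,175),(1,60),(3,108),(4,1)],.leaf [(0,175),(1,60),(3,108),(4,1)]⟩,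
⟨⟨⟨63,-116,192⟩,⟨172,153,36⟩,⟨-144,132,127⟩⟩,true,135,114,.leaf [(0,248),(1,53),(3,12),(5,1)],.leaf [(0,248),(1,53),(3,12),(5,1)]⟩,
⟨⟨⟨63,-116,-192⟩,⟨172,153,-36⟩,⟨144,-132,127⟩⟩,true,135,119,.leaf [(0,15),(1,228),(2,22),(6,1)],.leaf [(0,15),(1,228),(2,22),(6,1)]⟩,
⟨⟨⟨39,-132,-188⟩,⟨-228,1,-48⟩,⟨28,192,-129⟩⟩,true,140,37,.leaf [(1,5825),(2,11883),(4,69),(5,65)],.leaf [(1,5825),(2,11883),(4,69),(5,65)]⟩,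
⟨⟨⟨-39,132,-188⟩,⟨-228,1,48⟩,⟨28,192,129⟩⟩,true,140,196,.leaf [(0,89),(1,236),(2,42),(4,1)],.leaf [(0,89),(1,236),(2,42),(4,1)]⟩,
⟨⟨⟨105,208,0⟩,⟨208,-105,0⟩,⟨0,0,-233⟩⟩,true,144,0,.leaf [(0,208),(2,105),(4,1)],.leaf [(0,208),(2,105),(4,1)]⟩,
⟨⟨⟨-105,-80,-192⟩,⟨-80,-183,120⟩,⟨-192,120,55⟩⟩,true,145,115,.leaf [(1,92),(2,103),(3,220),(4,1)],.leaf [(1,92),(2,103),(3,220),(4,1)]⟩,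
⟨⟨⟨-105,-80,192⟩,⟨-80,-183,-120⟩,⟨192,-120,55⟩⟩,true,145,118,.leaf [(1,177),(2,10),(5,1),(18,10)],.leaf [(1,56),(2,11),(4,1),(10,92)]⟩,
⟨⟨⟨-153,-116,-132⟩,⟨172,-63,-144⟩,⟨36,-192,127⟩⟩,true,150,10,.leaf [(3,1080),(6,3),(10,37),(18,100)],.leaf [(1,2403),(3,1401),(10,821),(14,1)]⟩,
⟨⟨⟨-153,-116,132⟩,⟨172,-63,144⟩,⟨-36,192,127⟩⟩,true,150,223,.leaf [(0,3262),(1,233),(4,14),(5,13)],.leaf [(0,3262),(1,233),(4,14),(5,13)]⟩,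
⟨⟨⟨-153,-36,172⟩,⟨132,127,144⟩,⟨-116,192,-63⟩⟩,true,151,107,.leaf [(0,213),(1,235),(2,15),(5,1)],.leaf [(0,213),(1,235),(2,15),(5,1)]⟩,
⟨⟨⟨153,36,172⟩,⟨132,127,-144⟩,⟨-116,192,63⟩⟩,true,151,126,.leaf [(0,126752),(3,89006),(5,799),(23,1)],.leaf [(0,155),(3,113),(5,1),(10,1)]⟩,
⟨⟨⟨183,-144,-8⟩,⟨48,73,-216⟩,⟨136,168,87⟩⟩,true,152,112,.leaf [(5,702),(7,72),(11,54289),(15,7)],.leaf [(0,195487),(5,686),(7,530),(10,5825)]⟩,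
⟨⟨⟨-183,144,-8⟩,⟨48,73,216⟩,⟨136,168,-87⟩⟩,true,152,121,.leaf [(0,71),(1,32),(3,192),(4,1)],.leaf [(0,71),(1,32),(3,192),(4,1)]⟩,
⟨⟨⟨-161,-168,12⟩,⟨168,-159,28⟩,⟨-12,28,231⟩⟩,true,153,39,.leaf [(0,54289),(4,180),(5,40),(6,147)],.leaf [(0,54289),(4,180),(5,40),(6,147)]⟩,
⟨⟨⟨-161,-168,-12⟩,⟨-168,159,28⟩,⟨-12,28,-231⟩⟩,true,153,194,.leaf [(0,133),(1,219),(2,63),(5,1)],.leaf [(0,133),(1,219),(2,63),(5,1)]⟩,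
⟨⟨⟨63,-84,208⟩,⟨12,217,84⟩,⟨-224,-12,63⟩⟩,true,154,7,.leaf [(0,22368),(3,47765),(5,264),(7,35)],.leaf [(0,22368),(3,47765),(5,264),(7,35)]⟩,
⟨⟨⟨-63,84,208⟩,⟨12,217,-84⟩,⟨-224,-12,-63⟩⟩,true,154,226,.leaf [(5,2169),(7,1878),(10,217156),(15,131)],.leaf [(1,6426),(3,4746),(10,2759),(22,1)]⟩,
⟨⟨⟨55,192,-120⟩,⟨192,-105,-80⟩,⟨-120,-80,-183⟩⟩,true,156,19,.leaf [(0,237),(1,40),(2,60),(4,1)],.leaf [(0,237),(1,40),(2,60),(4,1)]⟩,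
⟨⟨⟨55,192,120⟩,⟨-192,105,-80⟩,⟨-120,-80,183⟩⟩,true,156,214,.leaf [(0,106),(1,532),(2,301),(14,1)],.leaf [(0,49),(1,94),(7,2),(10,175)]⟩,
⟨⟨⟨-63,172,144⟩,⟨-116,-153,132⟩,⟨192,-36,127⟩⟩,true,160,31,.leaf [(2,37513),(4,189),(5,106),(11,466)],.leaf [(2,184303),(4,909),(5,532),(10,466)]⟩,
⟨⟨⟨-63,172,-144⟩,⟨-116,-153,-132⟩,⟨-192,36,127⟩⟩,true,160,202,.leaf [(0,142),(1,12),(2,183),(4,1)],.leaf [(0,142),(1,12),(2,183),(4,1)]⟩,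
⟨⟨⟨127,-36,-192⟩,⟨-132,153,-116⟩,⟨144,172,63⟩⟩,true,163,15,.leaf [(1,99957),(2,107180),(7,770),(15,3)],.leaf [(1,141),(2,133),(7,1),(10,3)]⟩,
⟨⟨⟨127,-36,192⟩,⟨132,-153,-116⟩,⟨144,172,-63⟩⟩,true,163,218,.leaf [(0,208),(1,240),(3,15),(5,1)],.leaf [(0,208),(1,240),(3,15),(5,1)]⟩,
⟨⟨⟨73,-144,-168⟩,⟨-48,-183,136⟩,⟨-216,-8,-87⟩⟩,true,164,36,.leaf [(0,39),(1,232),(3,72),(4,1)],.leaf [(0,39),(1,232),(3,72),(4,1)]⟩,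
⟨⟨⟨73,-144,168⟩,⟨48,183,136⟩,⟨-216,-8,87⟩⟩,true,164,197,.leaf [(0,233),(3,466),(5,2),(6,1)],.leaf [(0,233),(3,466),(5,2),(6,1)]⟩,
⟨⟨⟨159,-168,28⟩,⟨-168,-161,-12⟩,⟨28,-12,-231⟩⟩,true,166,50,.leaf [(0,14),(2,142),(3,259),(5,1)],.leaf [(0,14),(2,142),(3,259),(5,1)]⟩,
⟨⟨⟨-159,168,28⟩,⟨-168,-161,12⟩,⟨28,-12,231⟩⟩,true,166,183,.leaf [(0,39144),(2,43571),(4,259),(7,16)],.leaf [(0,39144),(2,43571),(4,259),(7,16)]⟩,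
⟨⟨⟨39,28,-228⟩,⟨-188,-129,-48⟩,⟨-132,192,1⟩⟩,true,168,30,.leaf [(0,55),(1,180),(2,102),(4,1)],.leaf [(0,55),(1,180),(2,102),(4,1)]⟩,
⟨⟨⟨39,28,228⟩,⟨-188,-129,48⟩,⟨132,-192,1⟩⟩,true,168,203,.leaf [(1,108578),(4,619),(5,850),(14,147)],.leaf [(1,320),(2,32),(4,1),(10,125)]⟩,
⟨⟨⟨129,28,192⟩,⟨-188,-39,132⟩,⟨48,-228,1⟩⟩,true,170,34,.leaf [(1,276571),(4,2600),(5,1445),(18,39144)],.leaf [(1,313152),(4,777),(10,89239),(14,44)]⟩,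
⟨⟨⟨129,28,-192⟩,⟨-188,-39,-132⟩,⟨-48,228,1⟩⟩,true,170,199,.leaf [(2,54289),(4,282),(5,180),(6,55)],.leaf [(2,54289),(4,282),(5,180),(6,55)]⟩,
⟨⟨⟨217,60,-60⟩,⟨60,-225,-8⟩,⟨-60,-8,-225⟩⟩,true,171,62,.leaf [(0,90),(1,52),(2,195),(4,1)],.leaf [(0,90),(1,52),(2,195),(4,1)]⟩,
⟨⟨⟨217,60,60⟩,⟨-60,225,-8⟩,⟨-60,-8,225⟩⟩,true,171,171,.leaf [(3,157275),(4,2592),(18,82016),(23,11)],.leaf [(1,346005),(7,1440),(10,193856),(15,143)]⟩,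
⟨⟨⟨217,12,84⟩,⟨-84,63,208⟩,⟨-12,-224,63⟩⟩,true,174,53,.leaf [(4,324),(6,495),(10,54289),(15,40)],.leaf [(1,1868427),(6,6966),(26,100190),(31,125)]⟩,
⟨⟨⟨217,12,-84⟩,⟨84,-63,208⟩,⟨-12,-224,-63⟩⟩,true,174,180,.leaf [(0,75),(1,250),(3,42),(4,1)],.leaf [(0,75),(1,250),(3,42),(4,1)]⟩,
⟨⟨⟨127,132,144⟩,⟨-36,-153,172⟩,⟨192,-116,-63⟩⟩,true,179,47,.leaf [(0,75),(1,28),(2,210),(4,1)],.leaf [(0,75),(1,28),(2,210),(4,1)]⟩,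
⟨⟨⟨127,132,-144⟩,⟨36,153,172⟩,⟨192,-116,63⟩⟩,true,179,186,.leaf [(1,33785),(4,95),(7,81),(10,699)],.leaf [(1,542890),(4,1372),(7,1305),(23,3)]⟩,
⟨⟨⟨217,-84,-12⟩,⟨12,63,-224⟩,⟨84,208,63⟩⟩,true,180,59,.leaf [(5,648),(7,99),(11,54289),(14,16)],.leaf [(0,775),(2,318),(5,4),(10,75)]⟩,
⟨⟨⟨217,-84,12⟩,⟨-12,-63,-224⟩,⟨84,208,-63⟩⟩,true,180,174,.leaf [(0,250),(1,75),(2,42),(5,1)],.leaf [(0,250),(1,75),(2,42),(5,1)]⟩,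
⟨⟨⟨87,136,168⟩,⟨-8,183,-144⟩,⟨-216,48,73⟩⟩,true,181,18,.leaf [(0,58949),(1,14213),(5,211),(6,243)],.leaf [(0,58949),(1,14213),(5,211),(6,243)]⟩,
⟨⟨⟨87,136,-168⟩,⟨-8,183,144⟩,⟨216,-48,73⟩⟩,true,181,215,.leaf [(1,67337),(3,33319),(4,319),(6,47)],.leaf [(1,67337),(3,33319),(4,319),(6,47)]⟩,
⟨⟨⟨-159,28,-168⟩,⟨28,231,12⟩,⟨168,-12,-161⟩⟩,true,183,67,.leaf [(1,233),(3,10951),(4,37),(6,29)],.leaf [(1,233),(3,10951),(4,37),(6,29)]⟩,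
⟨⟨⟨-159,28,168⟩,⟨28,231,-12⟩,⟨-168,12,-161⟩⟩,true,183,166,.leaf [(1,39144),(3,43571),(5,259),(6,16)],.leaf [(1,39144),(3,43571),(5,259),(6,16)]⟩,
⟨⟨⟨-183,-120,-80⟩,⟨-120,55,192⟩,⟨-80,192,-105⟩⟩,true,184,45,.leaf [(1,43804),(3,45435),(4,312),(5,175)],.leaf [(1,43804),(3,45435),(4,312),(5,175)]⟩,
⟨⟨⟨183,120,-80⟩,⟨-120,55,-192⟩,⟨-80,192,105⟩⟩,true,184,188,.leaf [(2,108578),(4,830),(5,399),(15,175)],.leaf [(4,593),(5,834),(7,142),(10,54289)]⟩,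
⟨⟨⟨1,-48,-228⟩,⟨192,-129,28⟩,⟨-132,-188,39⟩⟩,true,185,5,.leaf [(0,8),(2,73),(3,256),(4,1)],.leaf [(0,8),(2,73),(3,256),(4,1)]⟩,
⟨⟨⟨1,-48,228⟩,⟨-192,129,28⟩,⟨-132,-188,-39⟩⟩,true,185,228,.leaf [(1,54289),(5,107),(6,170),(14,50)],.leaf [(1,864),(3,33),(10,928),(23,1)]⟩,
⟨⟨⟨127,-144,-132⟩,⟨-192,-63,-116⟩,⟨36,172,-153⟩⟩,true,186,54,.leaf [(1,3728),(2,21669),(4,107),(5,96)],.leaf [(1,3728),(2,21669),(4,107),(5,96)]⟩,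
⟨⟨⟨127,-144,132⟩,⟨192,63,-116⟩,⟨36,172,153⟩⟩,true,186,179,.leaf [(0,33785),(5,95),(6,81),(11,699)],.leaf [(0,186167),(5,476),(6,450),(10,699)]⟩,
⟨⟨⟨183,-80,-120⟩,⟨-80,105,-192⟩,⟨120,192,55⟩⟩,true,188,49,.leaf [(0,45435),(2,43804),(5,312),(6,175)],.leaf [(0,45435),(2,43804),(5,312),(6,175)]⟩,
⟨⟨⟨183,-80,120⟩,⟨-80,105,192⟩,⟨-120,-192,55⟩⟩,true,188,184,.leaf [(3,108578),(4,399),(5,830),(14,175)],.leaf [(1,1242),(3,933),(10,692),(15,1)]⟩,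
⟨⟨⟨129,-188,-48⟩,⟨28,-39,228⟩,⟨-192,-132,1⟩⟩,true,190,108,.leaf [(3,351),(10,154),(15,1),(18,2)],.leaf [(3,9786),(5,42),(10,3029),(14,1)]⟩,
⟨⟨⟨129,-188,48⟩,⟨28,-39,-228⟩,⟨192,132,1⟩⟩,true,190,125,.leaf [(0,152),(1,47),(2,168),(5,1)],.leaf [(0,152),(1,47),(2,168),(5,1)]⟩,
⟨⟨⟨1,192,-132⟩,⟨-48,-129,-188⟩,⟨-228,28,39⟩⟩,true,192,101,.leaf [(0,25164),(2,17009),(4,93),(7,56)],.leaf [(0,25164),(2,17009),(4,93),(7,56)]⟩,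
⟨⟨⟨1,192,132⟩,⟨48,129,-188⟩,⟨-228,28,-39⟩⟩,true,192,132,.R (.leaf [(0,108),(3,117),(18,20),(27,1)]) (.leaf [(0,189),(3,144),(18,32),(26,1)]) (.leaf [(0,297),(3,2691),(18,961),(31,1)]),.leaf [(0,195),(3,7),(7,1),(10,25)]⟩,
⟨⟨⟨183,136,48⟩,⟨-8,87,-216⟩,⟨-144,168,73⟩⟩,true,193,27,.leaf [(2,3728),(3,2563),(5,5),(6,16)],.leaf [(2,3728),(3,2563),(5,5),(6,16)]⟩,
⟨⟨⟨183,136,-48⟩,⟨-8,87,216⟩,⟨144,-168,73⟩⟩,true,193,206,.leaf [(0,49),(1,252),(3,12),(4,1)],.leaf [(0,49),(1,252),(3,12),(4,1)]⟩,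
⟨⟨⟨-161,-12,168⟩,⟨12,231,28⟩,⟨-168,28,-159⟩⟩,true,194,80,.leaf [(0,40),(1,180),(3,147),(5,1)],.leaf [(0,40),(1,180),(3,147),(5,1)]⟩,
⟨⟨⟨-161,-12,-168⟩,⟨-12,-231,28⟩,⟨-168,28,159⟩⟩,true,194,153,.leaf [(0,219),(1,133),(3,63),(4,1)],.leaf [(0,219),(1,133),(3,63),(4,1)]⟩,
⟨⟨⟨-39,-188,-132⟩,⟨28,129,-192⟩,⟨228,-48,1⟩⟩,true,196,93,.leaf [(1,11883),(2,5825),(5,69),(6,65)],.leaf [(1,11883),(2,5825),(5,69),(6,65)]⟩,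
⟨⟨⟨-39,-188,132⟩,⟨28,129,192⟩,⟨-228,48,1⟩⟩,true,196,140,.leaf [(0,236),(1,89),(3,42),(5,1)],.leaf [(0,236),(1,89),(3,42),(5,1)]⟩,
⟨⟨⟨73,168,144⟩,⟨216,-87,-8⟩,⟨48,136,-183⟩⟩,true,197,69,.leaf [(0,64541),(2,13980),(4,327),(5,152)],.leaf [(0,64541),(2,13980),(4,327),(5,152)]⟩,
⟨⟨⟨73,168,-144⟩,⟨-216,87,-8⟩,⟨48,136,183⟩⟩,true,197,164,.leaf [(1,233),(2,466),(4,2),(7,1)],.leaf [(1,233),(2,466),(4,2),(7,1)]⟩,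
⟨⟨⟨-129,192,28⟩,⟨-48,1,-228⟩,⟨-188,-132,39⟩⟩,true,199,63,.leaf [(2,47765),(4,215),(7,432),(18,6524)],.leaf [(2,24931),(4,229),(7,96),(10,13048)]⟩,
⟨⟨⟨129,-192,28⟩,⟨-48,1,228⟩,⟨-188,-132,-39⟩⟩,true,199,170,.leaf [(3,54289),(4,180),(5,282),(7,55)],.leaf [(3,54289),(4,180),(5,282),(7,55)]⟩,
⟨⟨⟨63,144,172⟩,⟨-192,127,-36⟩,⟨-116,-132,153⟩⟩,true,202,73,.leaf [(1,20271),(4,59),(7,103),(10,233)],.leaf [(1,162867),(4,470),(7,799),(14,2)]⟩,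
⟨⟨⟨-63,-144,172⟩,⟨-192,127,36⟩,⟨-116,-132,-153⟩⟩,true,202,160,.leaf [(0,12),(1,142),(3,183),(5,1)],.leaf [(0,12),(1,142),(3,183),(5,1)]⟩,
⟨⟨⟨-39,-228,28⟩,⟨132,1,192⟩,⟨-188,48,129⟩⟩,true,203,65,.leaf [(0,54289),(4,131),(5,278),(7,42)],.leaf [(0,54289),(4,131),(5,278),(7,42)]⟩,
⟨⟨⟨39,228,28⟩,⟨132,1,-192⟩,⟨-188,48,-129⟩⟩,true,203,168,.leaf [(0,108578),(4,850),(5,619),(15,147)],.leaf [(0,102287),(4,814),(5,268),(10,34251)]⟩,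
⟨⟨⟨-183,48,136⟩,⟨144,73,168⟩,⟨-8,216,-87⟩⟩,true,206,40,.leaf [(0,2563),(1,3728),(4,5),(5,16)],.leaf [(0,2563),(1,3728),(4,5),(5,16)]⟩,
⟨⟨⟨183,-48,136⟩,⟨144,73,-168⟩,⟨-8,216,87⟩⟩,true,206,193,.leaf [(0,252),(1,49),(2,12),(5,1)],.leaf [(0,252),(1,49),(2,12),(5,1)]⟩,
⟨⟨⟨73,-48,-216⟩,⟨-144,-183,-8⟩,⟨-168,136,-87⟩⟩,true,210,13,.leaf [(0,63),(1,208),(2,72),(4,1)],.leaf [(0,63),(1,208),(2,72),(4,1)]⟩,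
⟨⟨⟨73,-48,216⟩,⟨144,183,-8⟩,⟨-168,136,87⟩⟩,true,210,220,.leaf [(0,184),(1,36),(3,93),(5,1)],.leaf [(0,184),(1,36),(3,93),(5,1)]⟩,
⟨⟨⟨63,12,-224⟩,⟨-84,217,-12⟩,⟨208,84,63⟩⟩,true,211,100,.leaf [(3,65240),(4,143),(14,20),(18,6291)],.leaf [(1,21203),(5,89),(10,11184),(15,6)]⟩,
⟨⟨⟨-63,-12,-224⟩,⟨-84,217,12⟩,⟨208,84,-63⟩⟩,true,211,133,.leaf [(1,54289),(4,432),(5,355),(15,84)],.leaf [(1,321773),(5,803),(10,109044),(22,12)]⟩,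
⟨⟨⟨55,120,-192⟩,⟨120,-183,-80⟩,⟨-192,-80,-105⟩⟩,true,214,77,.leaf [(0,240),(1,112),(2,63),(4,1)],.leaf [(0,240),(1,112),(2,63),(4,1)]⟩,
⟨⟨⟨55,120,192⟩,⟨-120,183,-80⟩,⟨-192,-80,105⟩⟩,true,214,156,.leaf [(0,532),(1,106),(3,301),(15,1)],.L (.leaf [(0,15),(1,37),(2,213),(5,1)]) (.leaf [(0,162867),(4,735),(15,392),(22,4)]) (.leaf [(0,24698),(1,44037),(7,161),(14,2)])⟩,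
⟨⟨⟨-87,168,136⟩,⟨216,73,48⟩,⟨-8,144,-183⟩⟩,true,215,52,.leaf [(0,14213),(3,30756),(4,187),(5,148)],.leaf [(0,14213),(3,30756),(4,187),(5,148)]⟩,
⟨⟨⟨87,-168,136⟩,⟨216,73,-48⟩,⟨-8,144,183⟩⟩,true,215,181,.leaf [(0,67337),(2,33319),(5,319),(7,47)],.leaf [(0,67337),(2,33319),(5,319),(7,47)]⟩,
⟨⟨⟨127,192,36⟩,⟨-144,63,172⟩,⟨132,-116,153⟩⟩,true,218,70,.leaf [(1,1372),(2,1305),(4,10),(18,3)],.leaf [(1,148),(2,126),(4,1),(10,3)]⟩,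
⟨⟨⟨127,192,-36⟩,⟨144,-63,172⟩,⟨132,-116,-153⟩⟩,true,218,163,.leaf [(0,240),(1,208),(2,15),(4,1)],.leaf [(0,240),(1,208),(2,15),(4,1)]⟩,
⟨⟨⟨231,28,-12⟩,⟨28,-159,168⟩,⟨12,-168,-161⟩⟩,true,219,6,.leaf [(1,98),(2,187),(3,82),(4,1)],.leaf [(1,98),(2,187),(3,82),(4,1)]⟩,
⟨⟨⟨231,28,12⟩,⟨28,-159,-168⟩,⟨-12,168,-161⟩⟩,true,219,227,.leaf [(0,21902),(1,8155),(4,46),(5,95)],.leaf [(0,21902),(1,8155),(4,46),(5,95)]⟩,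
⟨⟨⟨73,216,48⟩,⟨168,-87,136⟩,⟨144,-8,-183⟩⟩,true,220,23,.leaf [(0,243),(1,88),(2,60),(4,1)],.leaf [(0,243),(1,88),(2,60),(4,1)]⟩,
⟨⟨⟨73,216,-48⟩,⟨-168,87,136⟩,⟨144,-8,183⟩⟩,true,220,210,.leaf [(0,36),(1,184),(2,93),(4,1)],.leaf [(0,36),(1,184),(2,93),(4,1)]⟩,
⟨⟨⟨153,-132,-116⟩,⟨-36,127,-192⟩,⟨172,144,63⟩⟩,true,223,83,.leaf [(0,1221),(5,3),(11,53),(18,121)],.leaf [(0,335),(2,590),(5,4),(10,179)]⟩,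
⟨⟨⟨-153,132,-116⟩,⟨-36,127,192⟩,⟨172,144,-63⟩⟩,true,223,150,.leaf [(0,5),(1,98),(3,210),(4,1)],.leaf [(0,5),(1,98),(3,210),(4,1)]⟩,
⟨⟨⟨-63,208,-84⟩,⟨-224,-63,12⟩,⟨-12,84,217⟩⟩,true,226,79,.leaf [(0,7),(2,264),(3,96),(4,1)],.leaf [(0,7),(2,264),(3,96),(4,1)]⟩,
⟨⟨⟨-63,208,84⟩,⟨-224,-63,-12⟩,⟨12,-84,217⟩⟩,true,226,154,.leaf [(4,2169),(6,1878),(11,217156),(14,131)],.leaf [(0,31),(2,216),(4,1),(10,24)]⟩,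
⟨⟨⟨-231,-12,28⟩,⟨-12,-161,-168⟩,⟨28,-168,159⟩⟩,true,227,14,.leaf [(2,22135),(3,10718),(4,35),(7,94)],.leaf [(2,22135),(3,10718),(4,35),(7,94)]⟩,
⟨⟨⟨231,12,28⟩,⟨-12,-161,168⟩,⟨28,-168,-159⟩⟩,true,227,219,.leaf [(0,35),(1,140),(2,138),(4,1)],.leaf [(0,35),(1,140),(2,138),(4,1)]⟩,
⟨⟨⟨1,228,48⟩,⟨132,39,-188⟩,⟨-192,28,-129⟩⟩,true,228,48,.leaf [(0,54289),(4,93),(5,43),(7,177)],.leaf [(0,54289),(4,93),(5,43),(7,177)]⟩,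
⟨⟨⟨1,228,-48⟩,⟨-132,-39,-188⟩,⟨-192,28,129⟩⟩,true,228,185,.leaf [(0,54289),(4,107),(7,170),(15,50)],.leaf [(0,32),(2,200),(4,1),(10,35)]⟩,
⟨⟨⟨-225,-8,-60⟩,⟨-8,-225,60⟩,⟨-60,60,217⟩⟩,true,232,109,.leaf [(0,217),(1,60),(3,60),(4,1)],.leaf [(0,217),(1,60),(3,60),(4,1)]⟩,
⟨⟨⟨-225,-8,60⟩,⟨-8,-225,-60⟩,⟨60,-60,217⟩⟩,true,232,124,.leaf [(0,54289),(4,247),(14,30)],.leaf [(0,187),(4,1),(10,30)]⟩]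

theorem primeOk_233 : PrimeOk 233 := primeOk (by norm_num) (by norm_num) (by norm_num) L233
  (by decide +kernel) (by decide +kernel)

end Pool.Agent.Lib.H63.TSP
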