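import Mathlib
import Pool.Agent.Lib.H63.TSPPrime

/-!
# Generated certificates for the primes 59, 71, 223, 227
-/

set_option autoImplicit false

namespace Pool.Agent.Lib.H63.TSP

def L59 : List Cls := [
⟨⟨⟨9,-50,30⟩,⟨-50,9,30⟩,⟨-30,-30,-41⟩⟩,true,1,23,.leaf [(1,6),(2,20),(3,65),(5,1)],.leaf [(1,6),(2,20),(3,65),(5,1)]⟩,
⟨⟨⟨9,-50,-30⟩,⟨-50,9,-30⟩,⟨30,30,-41⟩⟩,true,1,36,.leaf [(0,35),(1,11),(2,45),(5,1)],.leaf [(0,35),(1,11),(2,45),(5,1)]⟩,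
⟨⟨⟨57,-6,-14⟩,⟨6,-41,42⟩,⟨-14,-42,-39⟩⟩,true,3,7,.leaf [(0,20),(1,56),(2,15),(4,1)],.leaf [(0,20),(1,56),(2,15),(4,1)]⟩,
⟨⟨⟨-57,6,-14⟩,⟨6,-41,-42⟩,⟨-14,-42,39⟩⟩,true,3,52,.leaf [(0,885),(2,1298),(4,25),(7,28)],.leaf [(0,885),(2,1298),(4,25),(7,28)]⟩,
⟨⟨⟨9,54,22⟩,⟨6,-23,54⟩,⟨58,-6,-9⟩⟩,true,6,9,.leaf [(0,53),(1,32),(2,24),(4,1)],.leaf [(0,53),(1,32),(2,24),(4,1)]⟩,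
⟨⟨⟨-9,-54,22⟩,⟨6,-23,-54⟩,⟨58,-6,9⟩⟩,true,6,50,.leaf [(1,1003),(2,3540),(5,70),(7,3)],.leaf [(1,1003),(2,3540),(5,70),(7,3)]⟩,
⟨⟨⟨57,-14,-6⟩,⟨-14,-39,-42⟩,⟨6,42,-41⟩⟩,true,7,3,.leaf [(0,1357),(1,590),(4,5),(5,22)],.leaf [(0,1357),(1,590),(4,5),(5,22)]⟩,
⟨⟨⟨57,-14,6⟩,⟨-14,-39,42⟩,⟨-6,-42,-41⟩⟩,true,7,56,.leaf [(1,1711),(2,885),(4,41),(5,5)],.leaf [(1,1711),(2,885),(4,41),(5,5)]⟩,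
⟨⟨⟨-39,42,-14⟩,⟨-42,-41,-6⟩,⟨-14,6,57⟩⟩,true,8,17,.leaf [(0,44),(1,8),(2,39),(4,1)],.leaf [(0,44),(1,8),(2,39),(4,1)]⟩,
⟨⟨⟨39,-42,-14⟩,⟨-42,-41,6⟩,⟨-14,6,-57⟩⟩,true,8,42,.leaf [(1,2773),(2,1416),(4,72),(5,31)],.leaf [(1,2773),(2,1416),(4,72),(5,31)]⟩,
⟨⟨⟨9,22,54⟩,⟨58,-9,-6⟩,⟨6,54,-23⟩⟩,true,9,6,.leaf [(2,413),(3,590),(4,3),(5,10)],.leaf [(2,413),(3,590),(4,3),(5,10)]⟩,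
⟨⟨⟨9,22,-54⟩,⟨58,-9,6⟩,⟨-6,-54,-23⟩⟩,true,9,53,.leaf [(0,31),(1,21),(3,39),(4,1)],.leaf [(0,31),(1,21),(3,39),(4,1)]⟩,
⟨⟨⟨-23,6,-54⟩,⟨-54,-9,22⟩,⟨-6,58,9⟩⟩,true,10,28,.leaf [(0,15),(1,61),(3,15),(4,1)],.leaf [(0,15),(1,61),(3,15),(4,1)]⟩,
⟨⟨⟨-23,6,54⟩,⟨54,9,22⟩,⟨-6,58,-9⟩⟩,true,10,31,.leaf [(0,49),(1,63),(2,3),(5,1)],.leaf [(0,49),(1,63),(2,3),(5,1)]⟩,
⟨⟨⟨9,58,-6⟩,⟨22,-9,-54⟩,⟨-54,6,-23⟩⟩,true,13,19,.leaf [(0,3481),(4,70),(5,60),(6,39)],.leaf [(0,3481),(4,70),(5,60),(6,39)]⟩,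
⟨⟨⟨9,58,6⟩,⟨22,-9,54⟩,⟨54,-6,-23⟩⟩,true,13,40,.leaf [(0,64),(1,48),(2,3),(4,1)],.leaf [(0,64),(1,48),(2,3),(4,1)]⟩,
⟨⟨⟨-39,-14,42⟩,⟨-14,57,6⟩,⟨-42,-6,-41⟩⟩,true,17,8,.leaf [(0,8),(1,44),(3,39),(5,1)],.leaf [(0,8),(1,44),(3,39),(5,1)]⟩,
⟨⟨⟨-39,-14,-42⟩,⟨-14,57,-6⟩,⟨42,6,-41⟩⟩,true,17,51,.leaf [(1,3481),(4,47),(5,83),(6,39)],.leaf [(1,3481),(4,47),(5,83),(6,39)]⟩,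
⟨⟨⟨-41,-30,-30⟩,⟨30,9,-50⟩,⟨30,-50,9⟩⟩,true,18,18,.leaf [(5,486),(14,45),(18,3481),(23,10)],.leaf [(1,3186),(6,9),(10,413),(15,14)]⟩,
⟨⟨⟨-41,-30,30⟩,⟨-30,-9,-50⟩,⟨30,-50,-9⟩⟩,true,18,41,.leaf [(1,3481),(5,26),(6,32),(15,13)],.leaf [(1,84),(2,13),(6,1),(10,26)]⟩,
⟨⟨⟨9,-6,58⟩,⟨-54,-23,6⟩,⟨22,-54,-9⟩⟩,true,19,13,.leaf [(1,3481),(4,60),(5,70),(7,39)],.leaf [(1,3481),(4,60),(5,70),(7,39)]⟩,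
⟨⟨⟨-9,6,58⟩,⟨-54,-23,-6⟩,⟨22,-54,9⟩⟩,true,19,46,.leaf [(1,3481),(4,48),(5,64),(7,51)],.leaf [(1,3481),(4,48),(5,64),(7,51)]⟩,
⟨⟨⟨-41,6,42⟩,⟨-6,57,-14⟩,⟨-42,-14,-39⟩⟩,true,20,22,.leaf [(3,5133),(5,288),(10,4720),(15,5)],.leaf [(5,1458),(7,6237),(26,13924),(31,7)]⟩,
⟨⟨⟨-41,6,-42⟩,⟨6,-57,-14⟩,⟨-42,-14,39⟩⟩,true,20,37,.leaf [(0,63),(1,22),(3,6),(4,1)],.leaf [(0,63),(1,22),(3,6),(4,1)]⟩,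
⟨⟨⟨-41,42,6⟩,⟨-42,-39,-14⟩,⟨-6,-14,57⟩⟩,true,22,20,.leaf [(2,5133),(4,288),(11,4720),(14,5)],.leaf [(0,35),(2,41),(4,1),(10,5)]⟩,
⟨⟨⟨-41,42,-6⟩,⟨42,39,-14⟩,⟨-6,-14,-57⟩⟩,true,22,39,.leaf [(3,3481),(4,28),(5,22),(7,41)],.leaf [(3,3481),(4,28),(5,22),(7,41)]⟩,
⟨⟨⟨9,30,-50⟩,⟨-30,-41,-30⟩,⟨-50,30,9⟩⟩,true,23,1,.leaf [(0,6),(2,65),(3,20),(4,1)],.leaf [(0,6),(2,65),(3,20),(4,1)]⟩,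
⟨⟨⟨-9,-30,-50⟩,⟨-30,-41,30⟩,⟨-50,30,-9⟩⟩,true,23,58,.leaf [(0,11),(1,56),(3,24),(4,1)],.leaf [(0,11),(1,56),(3,24),(4,1)]⟩,
⟨⟨⟨-23,-54,6⟩,⟨-6,9,58⟩,⟨-54,22,-9⟩⟩,true,28,10,.leaf [(0,1357),(1,590),(4,5),(5,22)],.leaf [(0,1357),(1,590),(4,5),(5,22)]⟩,
⟨⟨⟨-23,-54,-6⟩,⟨6,-9,58⟩,⟨-54,22,9⟩⟩,true,28,49,.leaf [(0,1298),(1,295),(4,10),(5,23)],.leaf [(0,1298),(1,295),(4,10),(5,23)]⟩,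
⟨⟨⟨-23,54,6⟩,⟨-6,-9,58⟩,⟨54,22,9⟩⟩,true,31,10,.leaf [(0,63),(1,49),(3,3),(4,1)],.leaf [(0,63),(1,49),(3,3),(4,1)]⟩,
⟨⟨⟨-23,54,-6⟩,⟨6,9,58⟩,⟨54,22,-9⟩⟩,true,31,49,.leaf [(0,5),(2,40),(3,64),(4,1)],.leaf [(0,5),(2,40),(3,64),(4,1)]⟩,
⟨⟨⟨9,-30,-50⟩,⟨30,-41,30⟩,⟨-50,-30,9⟩⟩,true,36,1,.leaf [(0,11),(1,35),(3,45),(4,1)],.leaf [(0,11),(1,35),(3,45),(4,1)]⟩,
⟨⟨⟨-9,30,-50⟩,⟨30,-41,-30⟩,⟨-50,-30,-9⟩⟩,true,36,58,.leaf [(0,65),(1,20),(2,6),(4,1)],.leaf [(0,65),(1,20),(2,6),(4,1)]⟩,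
⟨⟨⟨-41,-42,6⟩,⟨-42,39,-14⟩,⟨6,-14,-57⟩⟩,true,37,20,.leaf [(0,22),(1,63),(2,6),(5,1)],.leaf [(0,22),(1,63),(2,6),(5,1)]⟩,
⟨⟨⟨-41,-42,-6⟩,⟨42,-39,-14⟩,⟨6,-14,57⟩⟩,true,37,39,.leaf [(4,153),(6,690),(11,13924),(14,5)],.leaf [(0,36),(2,40),(6,1),(10,5)]⟩,
⟨⟨⟨-41,-6,42⟩,⟨-6,-57,-14⟩,⟨42,-14,39⟩⟩,true,39,22,.leaf [(2,3481),(4,22),(5,28),(6,41)],.leaf [(2,3481),(4,22),(5,28),(6,41)]⟩,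
⟨⟨⟨-41,-6,-42⟩,⟨6,57,-14⟩,⟨42,-14,-39⟩⟩,true,39,37,.leaf [(5,153),(7,690),(10,13924),(15,5)],.leaf [(7,1458),(14,675),(26,3481),(31,10)]⟩,
⟨⟨⟨9,6,58⟩,⟨54,-23,-6⟩,⟨22,54,-9⟩⟩,true,40,13,.leaf [(0,3599),(2,1416),(4,67),(5,64)],.leaf [(0,3599),(2,1416),(4,67),(5,64)]⟩,
⟨⟨⟨-9,-6,58⟩,⟨54,-23,6⟩,⟨22,54,9⟩⟩,true,40,46,.leaf [(2,2065),(3,1357),(4,5),(5,33)],.leaf [(2,2065),(3,1357),(4,5),(5,33)]⟩,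
⟨⟨⟨-41,30,-30⟩,⟨30,-9,-50⟩,⟨-30,-50,-9⟩⟩,true,41,18,.leaf [(0,3481),(4,26),(7,32),(14,13)],.leaf [(0,26),(3,32),(4,1),(10,13)]⟩,
⟨⟨⟨-41,30,30⟩,⟨-30,9,-50⟩,⟨-30,-50,9⟩⟩,true,41,41,.leaf [(3,531),(6,99),(18,649),(23,1)],.leaf [(1,177),(4,33),(10,649),(15,1)]⟩,
⟨⟨⟨39,-14,-42⟩,⟨-14,-57,6⟩,⟨-42,6,-41⟩⟩,true,42,8,.leaf [(0,19),(1,48),(2,24),(4,1)],.leaf [(0,19),(1,48),(2,24),(4,1)]⟩,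
⟨⟨⟨39,-14,42⟩,⟨-14,-57,-6⟩,⟨42,-6,-41⟩⟩,true,42,51,.leaf [(0,59),(1,118),(4,1),(5,2)],.leaf [(0,59),(1,118),(4,1),(5,2)]⟩,
⟨⟨⟨-9,58,6⟩,⟨22,9,-54⟩,⟨-54,-6,-23⟩⟩,true,46,19,.leaf [(0,3481),(4,64),(5,48),(6,51)],.leaf [(0,3481),(4,64),(5,48),(6,51)]⟩,
⟨⟨⟨-9,58,-6⟩,⟨22,9,54⟩,⟨54,6,-23⟩⟩,true,46,40,.leaf [(0,49),(1,39),(3,21),(4,1)],.leaf [(0,49),(1,39),(3,21),(4,1)]⟩,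
⟨⟨⟨-23,-6,-54⟩,⟨-54,9,22⟩,⟨6,58,-9⟩⟩,true,49,28,.leaf [(1,3304),(3,885),(4,64),(5,15)],.leaf [(1,3304),(3,885),(4,64),(5,15)]⟩,
⟨⟨⟨-23,-6,54⟩,⟨54,-9,22⟩,⟨6,58,9⟩⟩,true,49,31,.leaf [(0,3599),(3,177),(4,69),(5,53)],.leaf [(0,3599),(3,177),(4,69),(5,53)]⟩,
⟨⟨⟨-9,22,-54⟩,⟨58,9,-6⟩,⟨6,-54,-23⟩⟩,true,50,6,.leaf [(0,1003),(3,3540),(4,70),(6,3)],.leaf [(0,1003),(3,3540),(4,70),(6,3)]⟩,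
⟨⟨⟨-9,22,54⟩,⟨58,9,6⟩,⟨-6,54,-23⟩⟩,true,50,53,.leaf [(2,295),(3,472),(4,3),(5,8)],.leaf [(2,295),(3,472),(4,3),(5,8)]⟩,
⟨⟨⟨-39,-42,-14⟩,⟨42,-41,6⟩,⟨-14,-6,57⟩⟩,true,51,17,.leaf [(0,3481),(4,83),(5,47),(7,39)],.leaf [(0,3481),(4,83),(5,47),(7,39)]⟩,
⟨⟨⟨39,42,-14⟩,⟨42,-41,-6⟩,⟨-14,-6,-57⟩⟩,true,51,42,.leaf [(0,47),(1,8),(2,36),(4,1)],.leaf [(0,47),(1,8),(2,36),(4,1)]⟩,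
⟨⟨⟨-57,-14,6⟩,⟨-14,39,-42⟩,⟨6,-42,-41⟩⟩,true,52,3,.leaf [(1,885),(3,1298),(5,25),(6,28)],.leaf [(1,885),(3,1298),(5,25),(6,28)]⟩,
⟨⟨⟨-57,-14,-6⟩,⟨-14,39,42⟩,⟨-6,42,-41⟩⟩,true,52,56,.leaf [(0,59),(1,118),(4,1),(5,2)],.leaf [(0,59),(1,118),(4,1),(5,2)]⟩,
⟨⟨⟨9,-54,22⟩,⟨-6,-23,-54⟩,⟨58,6,-9⟩⟩,true,53,9,.leaf [(0,21),(1,31),(2,39),(5,1)],.leaf [(0,21),(1,31),(2,39),(5,1)]⟩,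
⟨⟨⟨-9,54,22⟩,⟨-6,-23,54⟩,⟨58,6,9⟩⟩,true,53,50,.leaf [(0,56),(1,32),(2,21),(4,1)],.leaf [(0,56),(1,32),(2,21),(4,1)]⟩,
⟨⟨⟨57,6,-14⟩,⟨-6,-41,-42⟩,⟨-14,42,-39⟩⟩,true,56,7,.leaf [(0,1298),(1,295),(4,10),(5,23)],.leaf [(0,1298),(1,295),(4,10),(5,23)]⟩,
⟨⟨⟨-57,-6,-14⟩,⟨-6,-41,42⟩,⟨-14,42,39⟩⟩,true,56,52,.leaf [(0,35),(1,20),(3,36),(4,1)],.leaf [(0,35),(1,20),(3,36),(4,1)]⟩,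
⟨⟨⟨-9,-50,-30⟩,⟨-50,-9,30⟩,⟨-30,30,-41⟩⟩,true,58,23,.leaf [(1,3835),(3,1416),(4,80),(5,41)],.leaf [(1,3835),(3,1416),(4,80),(5,41)]⟩,
⟨⟨⟨-9,-50,30⟩,⟨-50,-9,-30⟩,⟨30,-30,-41⟩⟩,true,58,36,.leaf [(0,20),(1,65),(3,6),(5,1)],.leaf [(0,20),(1,65),(3,6),(5,1)]⟩]

theorem primeOk_59 : PrimeOk 59 := primeOk (by norm_num) (by norm_num) (by norm_num) L59
  (by decide +kernel) (by decide +kernel)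

def L71 : List Cls := [
⟨⟨⟨19,-66,-18⟩,⟨54,3,46⟩,⟨-42,-26,51⟩⟩,true,4,14,.leaf [(0,355),(3,71),(5,1),(6,5)],.leaf [(0,355),(3,71),(5,1),(6,5)]⟩,
⟨⟨⟨19,-66,18⟩,⟨-54,-3,46⟩,⟨-42,-26,-51⟩⟩,true,4,57,.leaf [(2,1136),(3,3053),(4,8),(5,41)],.leaf [(2,1136),(3,3053),(4,8),(5,41)]⟩,
⟨⟨⟨-51,-42,-26⟩,⟨18,19,-66⟩,⟨46,-54,-3⟩⟩,true,5,20,.leaf [(2,213),(7,15),(11,355),(14,1)],.leaf [(0,153),(2,202),(7,4),(10,29)]⟩,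
⟨⟨⟨51,42,-26⟩,⟨18,19,66⟩,⟨46,-54,3⟩⟩,true,5,51,.leaf [(0,23),(1,74),(3,18),(4,1)],.leaf [(0,23),(1,74),(3,18),(4,1)]⟩,
⟨⟨⟨51,-18,46⟩,⟨-42,19,54⟩,⟨-26,-66,3⟩⟩,true,8,19,.leaf [(1,5041),(4,96),(5,31),(7,60)],.leaf [(1,5041),(4,96),(5,31),(7,60)]⟩,
⟨⟨⟨-51,18,46⟩,⟨-42,19,-54⟩,⟨-26,-66,-3⟩⟩,true,8,52,.leaf [(0,7),(1,43),(2,41),(7,1)],.leaf [(0,7),(1,43),(2,41),(7,1)]⟩,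
⟨⟨⟨19,-42,54⟩,⟨-18,51,46⟩,⟨-66,-26,3⟩⟩,true,9,29,.leaf [(0,71),(3,355),(5,5),(6,1)],.leaf [(0,71),(3,355),(5,5),(6,1)]⟩,
⟨⟨⟨19,-42,-54⟩,⟨18,-51,46⟩,⟨-66,-26,-3⟩⟩,true,9,42,.leaf [(0,9),(1,55),(3,45),(4,1)],.leaf [(0,9),(1,55),(3,45),(4,1)]⟩,
⟨⟨⟨-35,-30,-54⟩,⟨-54,45,10⟩,⟨30,46,-45⟩⟩,true,11,34,.leaf [(2,5041),(4,9),(5,75),(7,1)],.leaf [(2,5041),(4,9),(5,75),(7,1)]⟩,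
⟨⟨⟨-35,-30,54⟩,⟨54,-45,10⟩,⟨30,46,45⟩⟩,true,11,37,.leaf [(0,1),(2,75),(3,9),(5,1)],.leaf [(0,1),(2,75),(3,9),(5,1)]⟩,
⟨⟨⟨45,-54,10⟩,⟨-30,-35,-54⟩,⟨46,30,-45⟩⟩,true,13,16,.leaf [(0,69),(1,55),(2,15),(5,1)],.leaf [(0,69),(1,55),(2,15),(5,1)]⟩,
⟨⟨⟨-45,54,10⟩,⟨-30,-35,54⟩,⟨46,30,45⟩⟩,true,13,55,.leaf [(0,74),(1,44),(2,15),(4,1)],.leaf [(0,74),(1,44),(2,15),(4,1)]⟩,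
⟨⟨⟨19,-18,-66⟩,⟨-42,51,-26⟩,⟨54,46,3⟩⟩,true,14,4,.leaf [(1,355),(2,71),(4,1),(7,5)],.leaf [(1,355),(2,71),(4,1),(7,5)]⟩,
⟨⟨⟨19,-18,66⟩,⟨42,-51,-26⟩,⟨54,46,-3⟩⟩,true,14,67,.leaf [(0,49),(1,69),(2,15),(5,1)],.leaf [(0,49),(1,69),(2,15),(5,1)]⟩,
⟨⟨⟨3,-26,66⟩,⟨46,51,18⟩,⟨-54,42,19⟩⟩,true,15,22,.leaf [(0,68),(1,29),(3,18),(5,1)],.leaf [(0,68),(1,29),(3,18),(5,1)]⟩,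
⟨⟨⟨3,-26,-66⟩,⟨46,51,-18⟩,⟨54,-42,19⟩⟩,true,15,49,.leaf [(0,25),(1,79),(3,5),(6,1)],.leaf [(0,25),(1,79),(3,5),(6,1)]⟩,
⟨⟨⟨45,10,-54⟩,⟨46,-45,30⟩,⟨-30,-54,-35⟩⟩,true,16,13,.leaf [(0,55),(1,69),(3,15),(4,1)],.leaf [(0,55),(1,69),(3,15),(4,1)]⟩,
⟨⟨⟨45,10,54⟩,⟨46,-45,-30⟩,⟨30,54,-35⟩⟩,true,16,58,.leaf [(0,44),(1,59),(3,30),(5,1)],.leaf [(0,44),(1,59),(3,30),(5,1)]⟩,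
⟨⟨⟨-3,-54,46⟩,⟨-66,19,18⟩,⟨-26,-42,-51⟩⟩,true,18,32,.leaf [(0,12),(1,43),(3,54),(5,1)],.leaf [(0,12),(1,43),(3,54),(5,1)]⟩,
⟨⟨⟨3,54,46⟩,⟨-66,19,-18⟩,⟨-26,-42,51⟩⟩,true,18,39,.leaf [(0,497),(1,5396),(4,43),(7,84)],.leaf [(0,497),(1,5396),(4,43),(7,84)]⟩,
⟨⟨⟨51,46,-18⟩,⟨-26,3,-66⟩,⟨-42,54,19⟩⟩,true,19,8,.leaf [(0,5041),(4,31),(5,96),(6,60)],.leaf [(0,5041),(4,31),(5,96),(6,60)]⟩,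
⟨⟨⟨51,46,18⟩,⟨-26,3,66⟩,⟨42,-54,19⟩⟩,true,19,63,.leaf [(0,7),(1,48),(2,36),(4,1)],.leaf [(0,7),(1,48),(2,36),(4,1)]⟩,
⟨⟨⟨-51,-26,-42⟩,⟨46,-3,-54⟩,⟨18,-66,19⟩⟩,true,20,5,.leaf [(3,213),(6,15),(10,355),(15,1)],.L (.leaf [(0,7),(1,48),(2,36),(4,1)]) (.leaf [(0,195),(5,3),(11,59),(18,13)]) (.leaf [(0,1207),(1,1562),(4,23),(5,10)])⟩,
⟨⟨⟨-51,-26,42⟩,⟨46,-3,54⟩,⟨-18,66,19⟩⟩,true,20,66,.leaf [(0,1633),(1,710),(4,17),(5,22)],.leaf [(0,1633),(1,710),(4,17),(5,22)]⟩,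
⟨⟨⟨3,66,-26⟩,⟨-54,19,42⟩,⟨46,18,51⟩⟩,true,22,15,.leaf [(0,29),(1,68),(2,18),(4,1)],.leaf [(0,29),(1,68),(2,18),(4,1)]⟩,
⟨⟨⟨-3,-66,-26⟩,⟨-54,19,-42⟩,⟨46,18,-51⟩⟩,true,22,56,.leaf [(0,5),(2,79),(3,25),(5,1)],.leaf [(0,5),(2,79),(3,25),(5,1)]⟩,
⟨⟨⟨45,-30,46⟩,⟨-54,-35,30⟩,⟨10,-54,-45⟩⟩,true,23,31,.leaf [(1,5041),(4,84),(5,70),(7,15)],.leaf [(1,5041),(4,84),(5,70),(7,15)]⟩,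
⟨⟨⟨-45,30,46⟩,⟨-54,-35,-30⟩,⟨10,-54,45⟩⟩,true,23,40,.leaf [(0,24),(1,75),(3,16),(7,1)],.leaf [(0,24),(1,75),(3,16),(7,1)]⟩,
⟨⟨⟨19,54,-42⟩,⟨-66,3,-26⟩,⟨-18,46,51⟩⟩,true,29,9,.leaf [(1,71),(2,355),(4,5),(7,1)],.leaf [(1,71),(2,355),(4,5),(7,1)]⟩,
⟨⟨⟨19,54,42⟩,⟨66,-3,-26⟩,⟨-18,46,-51⟩⟩,true,29,62,.leaf [(2,568),(3,2911),(4,16),(5,43)],.leaf [(2,568),(3,2911),(4,16),(5,43)]⟩,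
⟨⟨⟨45,46,-30⟩,⟨10,-45,-54⟩,⟨-54,30,-35⟩⟩,true,31,23,.leaf [(0,5041),(4,70),(5,84),(6,15)],.leaf [(0,5041),(4,70),(5,84),(6,15)]⟩,
⟨⟨⟨45,46,30⟩,⟨10,-45,54⟩,⟨54,-30,-35⟩⟩,true,31,48,.leaf [(0,40),(1,24),(2,51),(4,1)],.leaf [(0,40),(1,24),(2,51),(4,1)]⟩,
⟨⟨⟨-3,46,-54⟩,⟨-26,-51,-42⟩,⟨-66,18,19⟩⟩,true,32,18,.leaf [(0,43),(1,12),(2,54),(4,1)],.leaf [(0,43),(1,12),(2,54),(4,1)]⟩,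
⟨⟨⟨-3,46,54⟩,⟨-26,-51,42⟩,⟨66,-18,19⟩⟩,true,32,53,.leaf [(0,497),(2,2130),(4,35),(5,12)],.leaf [(0,497),(2,2130),(4,35),(5,12)]⟩,
⟨⟨⟨-35,-54,-30⟩,⟨30,-45,46⟩,⟨-54,10,45⟩⟩,true,34,11,.leaf [(3,5041),(4,75),(5,9),(6,1)],.leaf [(3,5041),(4,75),(5,9),(6,1)]⟩,
⟨⟨⟨-35,-54,30⟩,⟨-30,45,46⟩,⟨-54,10,-45⟩⟩,true,34,60,.leaf [(0,4),(2,60),(3,75),(5,1)],.leaf [(0,4),(2,60),(3,75),(5,1)]⟩,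
⟨⟨⟨-35,54,-30⟩,⟨30,45,46⟩,⟨54,10,-45⟩⟩,true,37,11,.leaf [(1,1),(2,9),(3,75),(4,1)],.leaf [(1,1),(2,9),(3,75),(4,1)]⟩,
⟨⟨⟨-35,54,30⟩,⟨-30,-45,46⟩,⟨54,10,45⟩⟩,true,37,60,.leaf [(0,60),(1,16),(2,39),(4,1)],.leaf [(0,60),(1,16),(2,39),(4,1)]⟩,
⟨⟨⟨3,46,54⟩,⟨-26,51,-42⟩,⟨-66,-18,19⟩⟩,true,39,18,.leaf [(0,5396),(1,497),(5,43),(6,84)],.leaf [(0,5396),(1,497),(5,43),(6,84)]⟩,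
⟨⟨⟨3,46,-54⟩,⟨-26,51,42⟩,⟨66,18,19⟩⟩,true,39,53,.leaf [(1,6035),(3,3337),(4,97),(6,5)],.leaf [(1,6035),(3,3337),(4,97),(6,5)]⟩,
⟨⟨⟨-45,46,30⟩,⟨10,45,-54⟩,⟨-54,-30,-35⟩⟩,true,40,23,.leaf [(0,75),(1,24),(2,16),(6,1)],.leaf [(0,75),(1,24),(2,16),(6,1)]⟩,
⟨⟨⟨-45,46,-30⟩,⟨10,45,54⟩,⟨54,30,-35⟩⟩,true,40,48,.leaf [(0,1),(1,15),(3,69),(4,1)],.leaf [(0,1),(1,15),(3,69),(4,1)]⟩,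
⟨⟨⟨19,-54,-42⟩,⟨-66,-3,-26⟩,⟨18,46,-51⟩⟩,true,42,9,.leaf [(1,284),(2,639),(4,11),(5,12)],.leaf [(1,284),(2,639),(4,11),(5,12)]⟩,
⟨⟨⟨19,-54,42⟩,⟨66,3,-26⟩,⟨18,46,51⟩⟩,true,42,62,.leaf [(0,1420),(2,639),(5,16),(6,9)],.leaf [(0,1420),(2,639),(5,16),(6,9)]⟩,
⟨⟨⟨45,30,46⟩,⟨54,-35,-30⟩,⟨10,54,-45⟩⟩,true,48,31,.leaf [(0,24),(1,40),(3,51),(5,1)],.leaf [(0,24),(1,40),(3,51),(5,1)]⟩,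
⟨⟨⟨-45,-30,46⟩,⟨54,-35,30⟩,⟨10,54,45⟩⟩,true,48,40,.leaf [(0,14),(2,70),(3,1),(5,1)],.leaf [(0,14),(2,70),(3,1),(5,1)]⟩,
⟨⟨⟨3,-66,-26⟩,⟨54,19,-42⟩,⟨46,-18,51⟩⟩,true,49,15,.leaf [(0,79),(1,25),(2,5),(7,1)],.leaf [(0,79),(1,25),(2,5),(7,1)]⟩,
⟨⟨⟨-3,66,-26⟩,⟨54,19,42⟩,⟨46,-18,-51⟩⟩,true,49,56,.leaf [(0,47),(1,29),(3,39),(4,1)],.leaf [(0,47),(1,29),(3,39),(4,1)]⟩,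
⟨⟨⟨51,-26,42⟩,⟨46,3,-54⟩,⟨18,66,19⟩⟩,true,51,5,.leaf [(0,74),(1,23),(2,18),(5,1)],.leaf [(0,74),(1,23),(2,18),(5,1)]⟩,
⟨⟨⟨51,-26,-42⟩,⟨46,3,54⟩,⟨-18,-66,19⟩⟩,true,51,66,.leaf [(4,216),(6,36),(10,5041),(14,7)],.leaf [(1,15123),(4,195),(15,59),(22,13)]⟩,
⟨⟨⟨-51,46,18⟩,⟨-26,-3,-66⟩,⟨-42,-54,19⟩⟩,true,52,8,.leaf [(0,43),(1,7),(3,41),(6,1)],.leaf [(0,43),(1,7),(3,41),(6,1)]⟩,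
⟨⟨⟨-51,46,-18⟩,⟨-26,-3,66⟩,⟨42,54,19⟩⟩,true,52,63,.leaf [(1,5),(2,49),(3,79),(4,1)],.leaf [(1,5),(2,49),(3,79),(4,1)]⟩,
⟨⟨⟨-3,54,46⟩,⟨66,19,-18⟩,⟨-26,42,-51⟩⟩,true,53,32,.leaf [(0,497),(3,2769),(4,31),(5,49)],.leaf [(0,497),(3,2769),(4,31),(5,49)]⟩,
⟨⟨⟨3,-54,46⟩,⟨66,19,18⟩,⟨-26,42,51⟩⟩,true,53,39,.leaf [(0,6035),(2,3337),(5,97),(7,5)],.leaf [(0,6035),(2,3337),(5,97),(7,5)]⟩,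
⟨⟨⟨-45,10,54⟩,⟨46,45,30⟩,⟨-30,54,-35⟩⟩,true,55,13,.leaf [(0,44),(1,74),(3,15),(5,1)],.leaf [(0,44),(1,74),(3,15),(5,1)]⟩,
⟨⟨⟨-45,10,-54⟩,⟨46,45,-30⟩,⟨30,-54,-35⟩⟩,true,55,58,.leaf [(0,55),(1,70),(3,14),(6,1)],.leaf [(0,55),(1,70),(3,14),(6,1)]⟩,
⟨⟨⟨-3,-26,-66⟩,⟨46,-51,18⟩,⟨-54,-42,19⟩⟩,true,56,22,.leaf [(1,5),(2,25),(3,79),(4,1)],.leaf [(1,5),(2,25),(3,79),(4,1)]⟩,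
⟨⟨⟨-3,-26,66⟩,⟨46,-51,-18⟩,⟨54,42,19⟩⟩,true,56,49,.leaf [(0,29),(1,47),(2,39),(5,1)],.leaf [(0,29),(1,47),(2,39),(5,1)]⟩,
⟨⟨⟨19,18,-66⟩,⟨-42,-51,-26⟩,⟨-54,46,-3⟩⟩,true,57,4,.leaf [(0,24),(1,40),(2,45),(4,1)],.leaf [(0,24),(1,40),(2,45),(4,1)]⟩,
⟨⟨⟨19,18,66⟩,⟨42,51,-26⟩,⟨-54,46,3⟩⟩,true,57,67,.leaf [(0,28),(1,9),(3,54),(5,1)],.leaf [(0,28),(1,9),(3,54),(5,1)]⟩,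
⟨⟨⟨45,54,10⟩,⟨30,-35,54⟩,⟨46,-30,-45⟩⟩,true,58,16,.leaf [(0,59),(1,44),(2,30),(4,1)],.leaf [(0,59),(1,44),(2,30),(4,1)]⟩,
⟨⟨⟨-45,-54,10⟩,⟨30,-35,-54⟩,⟨46,-30,45⟩⟩,true,58,55,.leaf [(0,70),(1,55),(2,14),(7,1)],.leaf [(0,70),(1,55),(2,14),(7,1)]⟩,
⟨⟨⟨-35,30,-54⟩,⟨-54,-45,10⟩,⟨-30,46,45⟩⟩,true,60,34,.leaf [(1,4),(2,75),(3,60),(4,1)],.leaf [(1,4),(2,75),(3,60),(4,1)]⟩,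
⟨⟨⟨-35,30,54⟩,⟨54,45,10⟩,⟨-30,46,-45⟩⟩,true,60,37,.leaf [(0,16),(1,60),(3,39),(5,1)],.leaf [(0,16),(1,60),(3,39),(5,1)]⟩,
⟨⟨⟨19,42,54⟩,⟨-18,-51,46⟩,⟨66,-26,-3⟩⟩,true,62,29,.leaf [(0,1136),(2,3621),(4,57),(5,8)],.leaf [(0,1136),(2,3621),(4,57),(5,8)]⟩,
⟨⟨⟨19,42,-54⟩,⟨18,51,46⟩,⟨66,-26,3⟩⟩,true,62,42,.leaf [(1,1420),(3,639),(4,16),(7,9)],.leaf [(1,1420),(3,639),(4,16),(7,9)]⟩,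
⟨⟨⟨51,18,46⟩,⟨42,19,-54⟩,⟨-26,66,3⟩⟩,true,63,19,.leaf [(0,48),(1,7),(3,36),(5,1)],.leaf [(0,48),(1,7),(3,36),(5,1)]⟩,
⟨⟨⟨-51,-18,46⟩,⟨42,19,54⟩,⟨-26,66,-3⟩⟩,true,63,52,.leaf [(0,1562),(1,1207),(4,10),(5,23)],.leaf [(0,1562),(1,1207),(4,10),(5,23)]⟩,
⟨⟨⟨-51,42,-26⟩,⟨-18,19,66⟩,⟨46,54,-3⟩⟩,true,66,20,.leaf [(0,23),(1,41),(3,51),(4,1)],.leaf [(0,23),(1,41),(3,51),(4,1)]⟩,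
⟨⟨⟨51,-42,-26⟩,⟨-18,19,-66⟩,⟨46,54,3⟩⟩,true,66,51,.leaf [(5,216),(7,36),(11,5041),(15,7)],.leaf [(0,173),(2,182),(5,4),(10,29)]⟩,
⟨⟨⟨19,66,-18⟩,⟨54,-3,46⟩,⟨42,-26,-51⟩⟩,true,67,14,.leaf [(0,69),(1,49),(3,15),(4,1)],.leaf [(0,69),(1,49),(3,15),(4,1)]⟩,
⟨⟨⟨19,66,18⟩,⟨-54,3,46⟩,⟨42,-26,51⟩⟩,true,67,57,.leaf [(0,9),(1,28),(2,54),(4,1)],.leaf [(0,9),(1,28),(2,54),(4,1)]⟩]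

theorem primeOk_71 : PrimeOk 71 := primeOk (by norm_num) (by norm_num) (by norm_num) L71
  (by decide +kernel) (by decide +kernel)

def L223 : List Cls := [
⟨⟨⟨-21,-42,-218⟩,⟨-2,219,-42⟩,⟨222,-2,-21⟩⟩,true,2,21,.leaf [(1,669),(2,4460),(5,23),(6,20)],.leaf [(1,669),(2,4460),(5,23),(6,20)]⟩,
⟨⟨⟨21,42,-218⟩,⟨-2,219,42⟩,⟨222,-2,21⟩⟩,true,2,202,.leaf [(1,18063),(3,14941),(4,87),(6,59)],.leaf [(1,18063),(3,14941),(4,87),(6,59)]⟩,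
⟨⟨⟨-75,-2,-210⟩,⟨-198,75,70⟩,⟨70,210,-27⟩⟩,true,3,92,.leaf [(1,41255),(3,4014),(4,212),(5,77)],.leaf [(1,41255),(3,4014),(4,212),(5,77)]⟩,
⟨⟨⟨-75,-2,210⟩,⟨198,-75,70⟩,⟨70,210,27⟩⟩,true,3,131,.leaf [(0,36349),(2,6690),(4,183),(5,140)],.leaf [(0,36349),(2,6690),(4,183),(5,140)]⟩,
⟨⟨⟨-123,54,178⟩,⟨-2,213,-66⟩,⟨-186,-38,-117⟩⟩,true,5,33,.leaf [(1,20070),(3,48391),(5,267),(6,92)],.leaf [(1,20070),(3,48391),(5,267),(6,92)]⟩,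
⟨⟨⟨123,-54,178⟩,⟨-2,213,66⟩,⟨-186,-38,117⟩⟩,true,5,190,.R (.leaf [(0,47709),(6,117),(18,5546),(27,172)]) (.leaf [(0,17091),(6,36),(18,2024),(26,43)]) (.leaf [(0,3702915),(6,8460),(18,437972),(30,43)]),.leaf [(0,37464),(5,280),(6,293),(10,13603)]⟩,
⟨⟨⟨-11,102,-198⟩,⟨222,-11,-18⟩,⟨-18,-198,-101⟩⟩,true,11,18,.leaf [(0,83),(2,30),(3,180),(4,1)],.leaf [(0,83),(2,30),(3,180),(4,1)]⟩,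
⟨⟨⟨-11,102,198⟩,⟨222,-11,18⟩,⟨18,198,-101⟩⟩,true,11,205,.leaf [(0,19178),(3,3345),(4,106),(5,75)],.leaf [(0,19178),(3,3345),(4,106),(5,75)]⟩,
⟨⟨⟨-117,-66,178⟩,⟨-38,213,54⟩,⟨-186,-2,-123⟩⟩,true,12,69,.leaf [(1,84),(2,64),(3,217),(5,1)],.leaf [(1,84),(2,64),(3,217),(5,1)]⟩,
⟨⟨⟨117,66,178⟩,⟨-38,213,-54⟩,⟨-186,-2,123⟩⟩,true,12,154,.leaf [(0,149187),(5,788),(6,694),(14,59)],.leaf [(0,145173),(5,716),(6,742),(10,13157)]⟩,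
⟨⟨⟨-101,-198,-18⟩,⟨-18,-11,222⟩,⟨-198,102,-11⟩⟩,true,13,62,.leaf [(0,3791),(1,1561),(4,7),(5,17)],.leaf [(0,3791),(1,1561),(4,7),(5,17)]⟩,
⟨⟨⟨-101,-198,18⟩,⟨-18,-11,-222⟩,⟨198,-102,-11⟩⟩,true,13,161,.leaf [(1,9589),(5,23),(11,669),(15,9)],.leaf [(1,377),(2,9),(5,1),(10,87)]⟩,
⟨⟨⟨-27,-182,-126⟩,⟨126,-117,142⟩,⟨-182,-54,117⟩⟩,true,15,79,.leaf [(3,49729),(4,268),(5,90),(7,25)],.leaf [(3,49729),(4,268),(5,90),(7,25)]⟩,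
⟨⟨⟨-27,-182,126⟩,⟨-126,117,142⟩,⟨-182,-54,-117⟩⟩,true,15,144,.leaf [(0,20),(2,108),(3,243),(5,1)],.leaf [(0,20),(2,108),(3,243),(5,1)]⟩,
⟨⟨⟨-27,210,70⟩,⟨70,75,-198⟩,⟨-210,-2,-75⟩⟩,true,17,80,.leaf [(3,49729),(4,57),(5,285),(6,185)],.leaf [(3,49729),(4,57),(5,285),(6,185)]⟩,
⟨⟨⟨27,-210,70⟩,⟨70,75,198⟩,⟨-210,-2,75⟩⟩,true,17,143,.leaf [(0,49729),(4,1),(5,232),(14,6)],.leaf [(0,399),(3,58),(5,2),(10,17)]⟩,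
⟨⟨⟨-11,-198,102⟩,⟨-18,-101,-198⟩,⟨222,-18,-11⟩⟩,true,18,11,.leaf [(1,83),(2,180),(3,30),(5,1)],.leaf [(1,83),(2,180),(3,30),(5,1)]⟩,
⟨⟨⟨-11,-198,-102⟩,⟨-18,-101,198⟩,⟨-222,18,-11⟩⟩,true,18,212,.leaf [(1,18509),(3,37464),(4,216),(5,97)],.leaf [(1,18509),(3,37464),(4,216),(5,97)]⟩,
⟨⟨⟨-21,-218,-42⟩,⟨222,-21,-2⟩,⟨-2,-42,219⟩⟩,true,21,2,.leaf [(0,669),(3,4460),(4,23),(7,20)],.leaf [(0,669),(3,4460),(4,23),(7,20)]⟩,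
⟨⟨⟨-21,-218,42⟩,⟨-222,21,-2⟩,⟨-2,-42,-219⟩⟩,true,21,221,.leaf [(0,176),(1,228),(3,33),(5,1)],.leaf [(0,176),(1,228),(3,33),(5,1)]⟩,
⟨⟨⟨171,142,18⟩,⟨-138,171,-38⟩,⟨-38,18,219⟩⟩,true,23,94,.leaf [(1,36795),(4,425),(7,139),(18,6913)],.leaf [(1,2025),(3,1560),(10,808),(15,1)]⟩,
⟨⟨⟨171,142,-18⟩,⟨138,-171,-38⟩,⟨-38,18,-219⟩⟩,true,23,129,.leaf [(0,28990),(2,31443),(4,201),(5,20)],.leaf [(0,28990),(2,31443),(4,201),(5,20)]⟩,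
⟨⟨⟨-171,-38,138⟩,⟨18,-219,-38⟩,⟨142,-18,171⟩⟩,true,25,97,.leaf [(2,49729),(4,201),(5,267),(7,143)],.leaf [(2,49729),(4,201),(5,267),(7,143)]⟩,
⟨⟨⟨-171,-38,-138⟩,⟨-18,219,-38⟩,⟨142,-18,-171⟩⟩,true,25,126,.leaf [(4,2805),(5,6408),(14,1360),(18,49729)],.L (.leaf [(0,62),(2,57),(3,204),(4,1)]) (.L (.leaf [(1,49729),(4,280),(5,163),(7,240)]) (.leaf [(0,250),(1,268),(2,153),(4,1)]) (.leaf [(0,2899),(1,6690),(4,27),(5,2)])) (.leaf [(0,83),(1,255),(3,15),(4,1)])⟩,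
⟨⟨⟨-117,186,-38⟩,⟨178,123,54⟩,⟨66,-2,-213⟩⟩,true,27,88,.leaf [(3,49729),(4,267),(5,147),(6,35)],.leaf [(3,49729),(4,267),(5,147),(6,35)]⟩,
⟨⟨⟨117,-186,-38⟩,⟨178,123,-54⟩,⟨66,-2,213⟩⟩,true,27,135,.leaf [(1,149187),(5,7),(6,584),(14,112)],.leaf [(1,16725),(5,49),(6,44),(10,6244)]⟩,
⟨⟨⟨-165,-102,-110⟩,⟨-2,165,-150⟩,⟨150,-110,-123⟩⟩,true,29,75,.leaf [(1,15),(2,63),(3,245),(6,1)],.leaf [(1,15),(2,63),(3,245),(6,1)]⟩,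
⟨⟨⟨165,102,-110⟩,⟨-2,165,150⟩,⟨150,-110,123⟩⟩,true,29,148,.leaf [(1,20293),(3,2007),(4,89),(6,21)],.leaf [(1,20293),(3,2007),(4,89),(6,21)]⟩,
⟨⟨⟨133,-114,-138⟩,⟨42,187,-114⟩,⟨174,42,133⟩⟩,true,31,61,.leaf [(5,2700),(7,3252),(14,929),(18,49729)],.leaf [(1,41),(2,78),(5,1),(10,78)]⟩,
⟨⟨⟨133,-114,138⟩,⟨42,187,114⟩,⟨-174,-42,133⟩⟩,true,31,162,.leaf [(3,49729),(5,189),(6,119),(14,37)],.leaf [(3,41032),(5,144),(6,29),(10,8251)]⟩,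
⟨⟨⟨-123,178,54⟩,⟨-186,-117,-38⟩,⟨-2,-66,213⟩⟩,true,33,5,.leaf [(0,20070),(2,48391),(4,267),(7,92)],.leaf [(0,20070),(2,48391),(4,267),(7,92)]⟩,
⟨⟨⟨-123,178,-54⟩,⟨186,117,-38⟩,⟨-2,-66,-213⟩⟩,true,33,218,.L (.L (.leaf [(5,22869),(7,12891),(14,2849),(34,49729)]) (.leaf [(1,445554),(4,2133),(11,37910),(14,85)]) (.L (.leaf [(0,189),(1,92),(3,84),(4,1)]) (.leaf [(0,265),(1,133),(2,105),(5,1)]) (.leaf [(0,160),(1,265),(3,132),(5,1)]))) (.leaf [(0,130),(1,313),(2,150),(5,1)]) (.leaf [(0,201),(1,143),(3,267),(4,1)]),.leaf [(3,58649),(4,235),(5,3),(10,13603)]⟩,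
⟨⟨⟨187,114,42⟩,⟨-42,133,-174⟩,⟨-114,138,133⟩⟩,true,34,36,.leaf [(2,112392),(7,840),(14,293),(18,13603)],.leaf [(0,183),(2,650),(7,4),(10,175)]⟩,
⟨⟨⟨187,114,-42⟩,⟨-42,133,174⟩,⟨114,-138,133⟩⟩,true,34,187,.leaf [(1,588),(4,3),(10,22),(18,7)],.leaf [(1,1593),(3,1287),(10,533),(14,1)]⟩,
⟨⟨⟨-117,142,-126⟩,⟨54,-117,-182⟩,⟨-182,-126,27⟩⟩,true,35,104,.leaf [(4,804),(7,270),(11,49729),(15,25)],.leaf [(0,201),(2,44),(4,1),(10,14)]⟩,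
⟨⟨⟨-117,142,126⟩,⟨-54,117,-182⟩,⟨-182,-126,-27⟩⟩,true,35,119,.leaf [(1,49729),(5,76),(7,199),(15,32)],.leaf [(1,16056),(4,168),(10,17171),(14,17)]⟩,
⟨⟨⟨187,42,114⟩,⟨-114,133,138⟩,⟨-42,-174,133⟩⟩,true,36,34,.leaf [(4,4185),(6,942),(15,940),(18,49729)],.leaf [(1,1566),(3,3126),(10,899),(22,1)]⟩,
⟨⟨⟨187,42,-114⟩,⟨-114,133,-138⟩,⟨42,174,133⟩⟩,true,36,189,.leaf [(2,33004),(7,155),(11,1115),(15,6)],.leaf [(2,68015),(5,45),(7,307),(10,4237)]⟩,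
⟨⟨⟨-213,-66,-2⟩,⟨-38,117,186⟩,⟨-54,178,-123⟩⟩,true,38,89,.leaf [(1,446),(3,669),(4,4),(5,3)],.leaf [(1,446),(3,669),(4,4),(5,3)]⟩,
⟨⟨⟨213,66,-2⟩,⟨-38,117,-186⟩,⟨-54,178,123⟩⟩,true,38,134,.leaf [(2,3122),(3,2007),(5,5),(6,14)],.leaf [(2,3122),(3,2007),(5,5),(6,14)]⟩,
⟨⟨⟨187,-66,-102⟩,⟨102,187,66⟩,⟨66,-102,187⟩⟩,true,39,40,.leaf [(4,5724),(6,1761),(15,1984),(18,49729)],.leaf [(1,96228),(10,29025),(26,934),(30,5)]⟩,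
⟨⟨⟨187,-66,102⟩,⟨102,187,-66⟩,⟨-66,102,187⟩⟩,true,39,183,.leaf [(0,99458),(5,251),(6,170),(15,85)],.leaf [(0,251),(3,170),(5,2),(10,85)]⟩,
⟨⟨⟨187,-102,-66⟩,⟨66,187,-102⟩,⟨102,66,187⟩⟩,true,40,39,.leaf [(5,1161),(7,2847),(14,617),(18,49729)],.leaf [(0,253),(2,166),(5,4),(10,253)]⟩,
⟨⟨⟨187,-102,66⟩,⟨66,187,102⟩,⟨-102,-66,187⟩⟩,true,40,184,.leaf [(0,6426),(3,4977),(18,1294),(23,1)],.leaf [(3,92322),(5,594),(10,18509),(14,115)]⟩,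
⟨⟨⟨123,-186,-2⟩,⟨178,117,66⟩,⟨-54,-38,213⟩⟩,true,42,58,.leaf [(4,3),(5,4),(6,2),(14,1)],.leaf [(0,669),(5,8),(6,1),(10,446)]⟩,
⟨⟨⟨-123,186,-2⟩,⟨178,117,-66⟩,⟨-54,-38,-213⟩⟩,true,42,165,.leaf [(3,49729),(4,252),(5,267),(6,140)],.leaf [(3,49729),(4,252),(5,267),(6,140)]⟩,
⟨⟨⟨117,-182,-54⟩,⟨-126,-27,-182⟩,⟨142,126,-117⟩⟩,true,48,51,.leaf [(0,173),(1,63),(2,135),(5,1)],.leaf [(0,173),(1,63),(2,135),(5,1)]⟩,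
⟨⟨⟨117,-182,54⟩,⟨126,27,-182⟩,⟨142,126,117⟩⟩,true,48,172,.leaf [(0,3791),(2,2453),(5,19),(7,7)],.leaf [(0,3791),(2,2453),(5,19),(7,7)]⟩,
⟨⟨⟨213,-54,-38⟩,⟨-2,123,-186⟩,⟨66,178,117⟩⟩,true,50,93,.leaf [(2,20293),(3,10481),(5,61),(6,89)],.leaf [(2,20293),(3,10481),(5,61),(6,89)]⟩,
⟨⟨⟨-213,54,-38⟩,⟨-2,123,186⟩,⟨66,178,-117⟩⟩,true,50,130,.leaf [(0,1115),(1,3122),(4,9),(5,14)],.leaf [(0,1115),(1,3122),(4,9),(5,14)]⟩,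
⟨⟨⟨117,-54,-182⟩,⟨142,-117,126⟩,⟨-126,-182,-27⟩⟩,true,51,48,.leaf [(0,63),(1,173),(3,135),(4,1)],.leaf [(0,63),(1,173),(3,135),(4,1)]⟩,
⟨⟨⟨-117,54,-182⟩,⟨142,-117,-126⟩,⟨-126,-182,27⟩⟩,true,51,175,.leaf [(0,22077),(3,12488),(4,135),(6,16)],.leaf [(0,22077),(3,12488),(4,135),(6,16)]⟩,
⟨⟨⟨21,-2,-222⟩,⟨-42,-219,-2⟩,⟨-218,42,-21⟩⟩,true,53,85,.leaf [(0,187),(1,220),(2,30),(4,1)],.leaf [(0,187),(1,220),(2,30),(4,1)]⟩,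
⟨⟨⟨21,-2,222⟩,⟨42,219,-2⟩,⟨-218,42,21⟩⟩,true,53,138,.leaf [(0,44),(1,3),(3,198),(5,1)],.leaf [(0,44),(1,3),(3,198),(5,1)]⟩,
⟨⟨⟨123,-2,-186⟩,⟨-54,213,-38⟩,⟨178,66,117⟩⟩,true,58,42,.leaf [(4,4),(5,3),(7,2),(15,1)],.leaf [(1,2676),(5,84),(10,5129),(14,11)]⟩,
⟨⟨⟨123,-2,186⟩,⟨54,-213,-38⟩,⟨178,66,-117⟩⟩,true,58,181,.leaf [(0,2007),(1,3122),(4,5),(5,14)],.leaf [(0,2007),(1,3122),(4,5),(5,14)]⟩,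
⟨⟨⟨133,42,-174⟩,⟨-114,187,-42⟩,⟨138,114,133⟩⟩,true,59,106,.leaf [(1,18063),(2,118636),(7,566),(15,37)],.leaf [(1,189),(2,119),(7,1),(10,37)]⟩,
⟨⟨⟨133,42,174⟩,⟨-114,187,42⟩,⟨-138,-114,133⟩⟩,true,59,117,.leaf [(0,10152),(3,8568),(18,1645),(22,1)],.leaf [(1,2700),(3,3252),(10,929),(22,1)]⟩,
⟨⟨⟨133,-138,-114⟩,⟨174,133,42⟩,⟨42,-114,187⟩⟩,true,61,31,.leaf [(4,4590),(6,1113),(15,1780),(18,49729)],.leaf [(3,479004),(6,1953),(10,165466),(22,59)]⟩,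
⟨⟨⟨133,-138,114⟩,⟨174,133,-42⟩,⟨-42,114,187⟩⟩,true,61,192,.leaf [(0,99458),(5,275),(6,230),(15,37)],.leaf [(0,144727),(5,604),(6,154),(10,8251)]⟩,
⟨⟨⟨-101,-18,-198⟩,⟨-198,-11,102⟩,⟨-18,222,-11⟩⟩,true,62,13,.leaf [(1,47276),(3,23415),(4,240),(5,7)],.leaf [(1,47276),(3,23415),(4,240),(5,7)]⟩,
⟨⟨⟨-101,-18,198⟩,⟨-198,-11,-102⟩,⟨18,-222,-11⟩⟩,true,62,210,.leaf [(1,49729),(5,377),(6,9),(14,87)],.leaf [(1,1342683),(6,6855),(15,1015),(22,29)]⟩,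
⟨⟨⟨123,-110,150⟩,⟨150,165,-2⟩,⟨-110,102,165⟩⟩,true,68,110,.leaf [(0,33004),(3,3345),(5,155),(7,18)],.leaf [(0,33004),(3,3345),(5,155),(7,18)]⟩,
⟨⟨⟨123,-110,-150⟩,⟨-150,-165,-2⟩,⟨-110,102,-165⟩⟩,true,68,113,.leaf [(1,6913),(2,4014),(4,46),(5,7)],.leaf [(1,6913),(2,4014),(4,46),(5,7)]⟩,
⟨⟨⟨-117,178,-66⟩,⟨-186,-123,-2⟩,⟨-38,54,213⟩⟩,true,69,12,.leaf [(0,84),(2,217),(3,64),(4,1)],.leaf [(0,84),(2,217),(3,64),(4,1)]⟩,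
⟨⟨⟨-117,178,66⟩,⟨186,123,-2⟩,⟨-38,54,-213⟩⟩,true,69,211,.leaf [(3,1191),(5,9),(10,461),(18,131)],.leaf [(3,16056),(4,45),(10,1115),(14,16)]⟩,
⟨⟨⟨75,198,70⟩,⟨-2,75,-210⟩,⟨-210,70,27⟩⟩,true,74,105,.leaf [(0,49729),(4,163),(5,280),(6,240)],.leaf [(0,49729),(4,163),(5,280),(6,240)]⟩,
⟨⟨⟨-75,-198,70⟩,⟨-2,75,210⟩,⟨-210,70,-27⟩⟩,true,74,118,.leaf [(0,250),(1,97),(2,18),(5,1)],.leaf [(0,250),(1,97),(2,18),(5,1)]⟩,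
⟨⟨⟨-165,-110,-102⟩,⟨150,-123,-110⟩,⟨-2,-150,165⟩⟩,true,75,29,.leaf [(0,15),(2,245),(3,63),(7,1)],.leaf [(0,15),(2,245),(3,63),(7,1)]⟩,
⟨⟨⟨-165,-110,102⟩,⟨-150,123,-110⟩,⟨-2,-150,-165⟩⟩,true,75,194,.leaf [(1,2899),(3,446),(5,13),(7,2)],.leaf [(1,2899),(3,446),(5,13),(7,2)]⟩,
⟨⟨⟨-27,-126,-182⟩,⟨-182,117,-54⟩,⟨126,142,-117⟩⟩,true,79,15,.leaf [(2,49729),(4,90),(5,268),(6,25)],.leaf [(2,49729),(4,90),(5,268),(6,25)]⟩,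
⟨⟨⟨27,126,-182⟩,⟨-182,117,54⟩,⟨126,142,117⟩⟩,true,79,208,.leaf [(0,9),(1,227),(3,9),(4,1)],.leaf [(0,9),(1,227),(3,9),(4,1)]⟩,
⟨⟨⟨-27,70,210⟩,⟨-210,-75,-2⟩,⟨70,-198,75⟩⟩,true,80,17,.leaf [(2,49729),(4,285),(5,57),(7,185)],.leaf [(2,49729),(4,285),(5,57),(7,185)]⟩,
⟨⟨⟨-27,70,-210⟩,⟨210,75,-2⟩,⟨70,-198,-75⟩⟩,true,80,206,.L (.leaf [(0,48391),(2,20070),(4,267),(5,92)]) (.leaf [(0,1152),(1,84),(11,199),(15,1)]) (.leaf [(0,295),(1,225),(3,133),(6,1)]),.leaf [(3,11819),(4,52),(7,9),(10,892)]⟩,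
⟨⟨⟨-11,-222,-18⟩,⟨-102,-11,198⟩,⟨-198,18,-101⟩⟩,true,81,103,.leaf [(1,25868),(3,43485),(4,240),(5,211)],.leaf [(1,25868),(3,43485),(4,240),(5,211)]⟩,
⟨⟨⟨-11,-222,18⟩,⟨-102,-11,-198⟩,⟨198,-18,-101⟩⟩,true,81,120,.leaf [(1,62),(2,204),(3,57),(5,1)],.leaf [(1,62),(2,204),(3,57),(5,1)]⟩,
⟨⟨⟨165,150,-2⟩,⟨-110,123,150⟩,⟨102,-110,165⟩⟩,true,82,100,.leaf [(2,49729),(4,171),(6,152),(15,8)],.leaf [(2,12488),(4,36),(6,43),(10,223)]⟩,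
⟨⟨⟨-165,-150,-2⟩,⟨-110,123,-150⟩,⟨102,-110,-165⟩⟩,true,82,123,.leaf [(1,4683),(2,892),(5,25),(6,4)],.leaf [(1,4683),(2,892),(5,25),(6,4)]⟩,
⟨⟨⟨21,-222,-2⟩,⟨-218,-21,42⟩,⟨-42,-2,-219⟩⟩,true,85,53,.leaf [(2,4237),(3,4906),(4,3),(5,22)],.leaf [(2,4237),(3,4906),(4,3),(5,22)]⟩,
⟨⟨⟨-21,222,-2⟩,⟨-218,-21,-42⟩,⟨-42,-2,219⟩⟩,true,85,170,.leaf [(0,2453),(2,2230),(4,11),(6,10)],.leaf [(0,2453),(2,2230),(4,11),(6,10)]⟩,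
⟨⟨⟨-117,-38,186⟩,⟨66,-213,-2⟩,⟨178,54,123⟩⟩,true,88,27,.leaf [(2,49729),(4,147),(5,267),(7,35)],.leaf [(2,49729),(4,147),(5,267),(7,35)]⟩,
⟨⟨⟨-117,-38,-186⟩,⟨-66,213,-2⟩,⟨178,54,-123⟩⟩,true,88,196,.leaf [(4,3021),(5,6084),(14,1222),(18,49729)],.leaf [(1,1843095),(5,4575),(10,518029),(22,41)]⟩,
⟨⟨⟨-213,-2,-66⟩,⟨-54,-123,178⟩,⟨-38,186,117⟩⟩,true,89,38,.leaf [(0,18),(2,103),(3,244),(4,1)],.leaf [(0,18),(2,103),(3,244),(4,1)]⟩,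
⟨⟨⟨-213,-2,66⟩,⟨54,123,178⟩,⟨-38,186,-117⟩⟩,true,89,185,.leaf [(0,2007),(1,3122),(4,5),(5,14)],.leaf [(0,2007),(1,3122),(4,5),(5,14)]⟩,
⟨⟨⟨-75,-210,-2⟩,⟨70,-27,210⟩,⟨-198,70,75⟩⟩,true,92,3,.leaf [(0,6021),(1,446),(4,13),(5,30)],.leaf [(0,6021),(1,446),(4,13),(5,30)]⟩,
⟨⟨⟨75,210,-2⟩,⟨70,-27,-210⟩,⟨-198,70,-75⟩⟩,true,92,220,.leaf [(0,49729),(4,250),(5,268),(6,153)],.leaf [(0,49729),(4,250),(5,268),(6,153)]⟩,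
⟨⟨⟨213,-38,-54⟩,⟨66,117,178⟩,⟨-2,-186,123⟩⟩,true,93,50,.leaf [(2,10481),(3,20293),(4,61),(7,89)],.leaf [(2,10481),(3,20293),(4,61),(7,89)]⟩,
⟨⟨⟨213,-38,54⟩,⟨-66,-117,178⟩,⟨-2,-186,-123⟩⟩,true,93,173,.leaf [(1,10927),(2,2007),(4,61),(5,19)],.leaf [(1,10927),(2,2007),(4,61),(5,19)]⟩,
⟨⟨⟨171,18,142⟩,⟨-38,219,18⟩,⟨-138,-38,171⟩⟩,true,94,23,.leaf [(5,9),(6,705),(11,58649),(18,13603)],.leaf [(0,12),(2,185),(6,1),(10,40)]⟩,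
⟨⟨⟨-171,-18,142⟩,⟨-38,219,-18⟩,⟨-138,-38,-171⟩⟩,true,94,200,.leaf [(1,31443),(3,28990),(5,201),(6,20)],.leaf [(1,31443),(3,28990),(5,201),(6,20)]⟩,
⟨⟨⟨-171,138,-38⟩,⟨142,171,-18⟩,⟨18,-38,-219⟩⟩,true,97,25,.leaf [(3,49729),(4,267),(5,201),(6,143)],.leaf [(3,49729),(4,267),(5,201),(6,143)]⟩,
⟨⟨⟨171,-138,-38⟩,⟨142,171,18⟩,⟨18,-38,219⟩⟩,true,97,198,.leaf [(1,513),(2,540),(11,295),(15,2)],.leaf [(1,28767),(5,97),(6,98),(10,12934)]⟩,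
⟨⟨⟨165,-2,150⟩,⟨102,165,-110⟩,⟨-110,150,123⟩⟩,true,100,82,.leaf [(3,49729),(5,171),(7,152),(14,8)],.leaf [(3,84071),(5,261),(7,256),(10,1784)]⟩,
⟨⟨⟨165,-2,-150⟩,⟨-102,-165,-110⟩,⟨-110,150,-123⟩⟩,true,100,141,.leaf [(1,892),(2,4683),(4,25),(5,4)],.leaf [(1,892),(2,4683),(4,25),(5,4)]⟩,
⟨⟨⟨-219,-42,-2⟩,⟨-2,21,-222⟩,⟨42,-218,-21⟩⟩,true,101,111,.leaf [(3,345),(5,3),(10,28),(18,100)],.leaf [(1,1377),(3,864),(10,344),(15,1)]⟩,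
⟨⟨⟨219,42,-2⟩,⟨-2,21,222⟩,⟨42,-218,21⟩⟩,true,101,112,.leaf [(0,12),(1,224),(2,9),(4,1)],.leaf [(0,12),(1,224),(2,9),(4,1)]⟩,
⟨⟨⟨-219,-38,-18⟩,⟨18,-171,142⟩,⟨-38,138,171⟩⟩,true,102,107,.leaf [(0,133),(1,28),(3,132),(4,1)],.leaf [(0,133),(1,28),(3,132),(4,1)]⟩,
⟨⟨⟨-219,-38,18⟩,⟨-18,171,142⟩,⟨-38,138,-171⟩⟩,true,102,116,.leaf [(1,2899),(3,2676),(4,16),(5,19)],.leaf [(1,2899),(3,2676),(4,16),(5,19)]⟩,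
⟨⟨⟨-11,-18,-222⟩,⟨-198,-101,18⟩,⟨-102,198,-11⟩⟩,true,103,81,.leaf [(0,68),(1,240),(2,15),(4,1)],.leaf [(0,68),(1,240),(2,15),(4,1)]⟩,
⟨⟨⟨-11,-18,222⟩,⟨-198,-101,-18⟩,⟨102,-198,-11⟩⟩,true,103,142,.leaf [(1,49729),(4,30),(5,113),(6,150)],.leaf [(1,49729),(4,30),(5,113),(6,150)]⟩,
⟨⟨⟨-117,-126,142⟩,⟨-182,27,-126⟩,⟨54,-182,-117⟩⟩,true,104,35,.leaf [(5,804),(6,270),(10,49729),(14,25)],.R (.leaf [(1,729),(10,315),(26,7),(35,5)]) (.leaf [(1,2916),(10,855),(26,58),(34,5)]) (.leaf [(1,607257),(10,159120),(26,13256),(39,5)])⟩,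
⟨⟨⟨117,126,142⟩,⟨-182,27,126⟩,⟨54,-182,117⟩⟩,true,104,188,.leaf [(2,49729),(4,231),(6,44),(14,32)],.leaf [(2,6467),(4,21),(6,52),(10,3568)]⟩,
⟨⟨⟨75,70,198⟩,⟨-210,27,70⟩,⟨-2,-210,75⟩⟩,true,105,74,.leaf [(1,49729),(4,280),(5,163),(7,240)],.leaf [(1,49729),(4,280),(5,163),(7,240)]⟩,
⟨⟨⟨75,70,-198⟩,⟨210,-27,70⟩,⟨-2,-210,-75⟩⟩,true,105,149,.leaf [(1,18),(2,97),(3,250),(4,1)],.leaf [(1,18),(2,97),(3,250),(4,1)]⟩,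
⟨⟨⟨133,-174,42⟩,⟨138,133,114⟩,⟨-114,-42,187⟩⟩,true,106,59,.leaf [(0,18063),(3,118636),(6,566),(14,37)],.leaf [(0,45),(3,460),(6,2),(10,37)]⟩,
⟨⟨⟨133,-174,-42⟩,⟨138,133,-114⟩,⟨114,42,187⟩⟩,true,106,164,.R (.leaf [(0,3807),(14,3),(18,470),(27,4)]) (.leaf [(0,15957),(14,12),(18,1976),(26,13)]) (.leaf [(0,3233277),(14,2460),(18,405860),(30,13)]),.leaf [(0,241),(2,394),(5,4),(10,229)]⟩,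
⟨⟨⟨-219,-18,-38⟩,⟨-38,171,138⟩,⟨18,142,-171⟩⟩,true,107,102,.leaf [(0,6244),(1,19847),(4,44),(5,91)],.leaf [(0,6244),(1,19847),(4,44),(5,91)]⟩,
⟨⟨⟨219,18,-38⟩,⟨-38,171,-138⟩,⟨18,142,171⟩⟩,true,107,121,.leaf [(0,2676),(2,2899),(5,16),(6,19)],.leaf [(0,2676),(2,2899),(5,16),(6,19)]⟩,
⟨⟨⟨123,150,-110⟩,⟨-110,165,102⟩,⟨150,-2,165⟩⟩,true,110,68,.leaf [(1,33004),(2,3345),(4,155),(6,18)],.leaf [(1,33004),(2,3345),(4,155),(6,18)]⟩,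
⟨⟨⟨-123,-150,-110⟩,⟨-110,165,-102⟩,⟨150,-2,-165⟩⟩,true,110,155,.leaf [(1,4014),(2,6913),(5,46),(6,7)],.leaf [(1,4014),(2,6913),(5,46),(6,7)]⟩,
⟨⟨⟨-219,-2,-42⟩,⟨42,-21,-218⟩,⟨-2,-222,21⟩⟩,true,111,101,.leaf [(2,1197),(7,6),(11,58),(18,17)],.leaf [(2,27875),(4,5),(7,128),(10,892)]⟩,
⟨⟨⟨-219,-2,42⟩,⟨-42,21,-218⟩,⟨-2,-222,-21⟩⟩,true,111,122,.leaf [(1,9),(2,224),(3,12),(7,1)],.leaf [(1,9),(2,224),(3,12),(7,1)]⟩,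
⟨⟨⟨219,-2,42⟩,⟨42,21,-218⟩,⟨-2,222,21⟩⟩,true,112,101,.leaf [(0,224),(1,12),(3,9),(5,1)],.leaf [(0,224),(1,12),(3,9),(5,1)]⟩,
⟨⟨⟨219,-2,-42⟩,⟨-42,-21,-218⟩,⟨-2,222,-21⟩⟩,true,112,122,.leaf [(0,6690),(5,33),(11,2453),(14,10)],.leaf [(0,869),(2,6),(5,4),(10,21)]⟩,
⟨⟨⟨123,-150,-110⟩,⟨-110,-165,102⟩,⟨-150,-2,-165⟩⟩,true,113,68,.leaf [(1,50621),(2,4014),(4,238),(5,3)],.leaf [(1,50621),(2,4014),(4,238),(5,3)]⟩,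
⟨⟨⟨-123,150,-110⟩,⟨-110,-165,-102⟩,⟨-150,-2,165⟩⟩,true,113,155,.leaf [(0,168),(1,8),(2,147),(4,1)],.leaf [(0,168),(1,8),(2,147),(4,1)]⟩,
⟨⟨⟨-219,18,-38⟩,⟨-38,-171,138⟩,⟨-18,142,171⟩⟩,true,116,102,.leaf [(0,189),(1,92),(3,84),(4,1)],.leaf [(0,189),(1,92),(3,84),(4,1)]⟩,
⟨⟨⟨219,-18,-38⟩,⟨-38,-171,-138⟩,⟨-18,142,-171⟩⟩,true,116,121,.leaf [(0,3791),(1,1561),(4,7),(5,17)],.leaf [(0,3791),(1,1561),(4,7),(5,17)]⟩,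
⟨⟨⟨133,174,42⟩,⟨-138,133,-114⟩,⟨-114,42,187⟩⟩,true,117,59,.leaf [(2,435519),(7,2148),(14,742),(18,13157)],.leaf [(0,100),(1,235),(7,1),(10,116)]⟩,
⟨⟨⟨133,174,-42⟩,⟨-138,133,114⟩,⟨114,-42,187⟩⟩,true,117,164,.leaf [(1,134692),(2,34342),(4,649),(14,37)],.leaf [(1,304),(2,4),(4,1),(10,37)]⟩,
⟨⟨⟨-75,70,-198⟩,⟨-210,-27,70⟩,⟨-2,210,75⟩⟩,true,118,74,.leaf [(0,97),(1,250),(3,18),(4,1)],.leaf [(0,97),(1,250),(3,18),(4,1)]⟩,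
⟨⟨⟨-75,70,198⟩,⟨210,27,70⟩,⟨-2,210,-75⟩⟩,true,118,149,.leaf [(0,36349),(3,19401),(4,243),(5,185)],.leaf [(0,36349),(3,19401),(4,243),(5,185)]⟩,
⟨⟨⟨-117,126,142⟩,⟨-182,-27,-126⟩,⟨-54,-182,117⟩⟩,true,119,35,.leaf [(0,49729),(4,76),(6,199),(14,32)],.leaf [(0,45),(3,200),(6,1),(10,54)]⟩,
⟨⟨⟨117,-126,142⟩,⟨-182,-27,126⟩,⟨-54,-182,-117⟩⟩,true,119,188,.leaf [(3,14049),(5,75),(10,892),(14,4)],.leaf [(1,7182),(3,3705),(10,2740),(23,1)]⟩,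
⟨⟨⟨-11,18,-222⟩,⟨198,-101,-18⟩,⟨-102,-198,-11⟩⟩,true,120,81,.leaf [(0,62),(2,57),(3,204),(4,1)],.leaf [(0,62),(2,57),(3,204),(4,1)]⟩,
⟨⟨⟨-11,18,222⟩,⟨198,-101,18⟩,⟨102,198,-11⟩⟩,true,120,142,.leaf [(2,57757),(3,45046),(4,83),(5,266)],.leaf [(2,57757),(3,45046),(4,83),(5,266)]⟩,
⟨⟨⟨219,-38,18⟩,⟨18,171,142⟩,⟨-38,-138,171⟩⟩,true,121,107,.leaf [(1,2676),(3,2899),(4,16),(7,19)],.leaf [(1,2676),(3,2899),(4,16),(7,19)]⟩,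
⟨⟨⟨219,-38,-18⟩,⟨-18,-171,142⟩,⟨-38,-138,-171⟩⟩,true,121,116,.leaf [(0,28),(1,160),(2,105),(4,1)],.leaf [(0,28),(1,160),(2,105),(4,1)]⟩,
⟨⟨⟨-219,42,-2⟩,⟨-2,-21,-222⟩,⟨-42,-218,21⟩⟩,true,122,111,.leaf [(0,9),(2,12),(3,224),(6,1)],.leaf [(0,9),(2,12),(3,224),(6,1)]⟩,
⟨⟨⟨219,-42,-2⟩,⟨-2,-21,222⟩,⟨-42,-218,-21⟩⟩,true,122,112,.leaf [(1,6690),(4,33),(10,2453),(15,10)],.leaf [(1,577570),(4,2327),(10,20293),(31,10)]⟩,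
⟨⟨⟨-165,-2,-150⟩,⟨102,-165,-110⟩,⟨-110,-150,123⟩⟩,true,123,82,.leaf [(0,4683),(3,892),(4,25),(7,4)],.leaf [(0,4683),(3,892),(4,25),(7,4)]⟩,
⟨⟨⟨-165,-2,150⟩,⟨-102,165,-110⟩,⟨-110,-150,-123⟩⟩,true,123,141,.leaf [(1,49729),(5,184),(7,139),(14,8)],.leaf [(1,38579),(5,104),(7,113),(10,1784)]⟩,
⟨⟨⟨-171,-138,-38⟩,⟨142,-171,-18⟩,⟨-18,-38,219⟩⟩,true,126,25,.leaf [(4,1395),(5,1803),(15,935),(18,49729)],.leaf [(3,19624),(4,99),(5,32),(10,6467)]⟩,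
⟨⟨⟨171,138,-38⟩,⟨142,-171,18⟩,⟨-18,-38,-219⟩⟩,true,126,198,.leaf [(0,168),(1,56),(2,141),(4,1)],.leaf [(0,168),(1,56),(2,141),(4,1)]⟩,
⟨⟨⟨171,-18,142⟩,⟨-38,-219,18⟩,⟨138,-38,-171⟩⟩,true,129,23,.leaf [(1,446),(2,31443),(4,163),(5,66)],.leaf [(1,446),(2,31443),(4,163),(5,66)]⟩,
⟨⟨⟨-171,18,142⟩,⟨-38,-219,-18⟩,⟨138,-38,171⟩⟩,true,129,200,.leaf [(4,2583),(5,3189),(15,797),(18,49729)],.leaf [(0,145),(2,52),(4,1),(10,40)]⟩,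
⟨⟨⟨-213,-38,54⟩,⟨66,-117,178⟩,⟨-2,186,123⟩⟩,true,130,50,.leaf [(0,22969),(3,20070),(4,183),(5,38)],.leaf [(0,22969),(3,20070),(4,183),(5,38)]⟩,
⟨⟨⟨-213,-38,-54⟩,⟨-66,117,178⟩,⟨-2,186,-123⟩⟩,true,130,173,.leaf [(0,10481),(1,20293),(4,61),(5,89)],.leaf [(0,10481),(1,20293),(4,61),(5,89)]⟩,
⟨⟨⟨-75,210,-2⟩,⟨70,27,210⟩,⟨198,70,-75⟩⟩,true,131,3,.leaf [(0,183),(1,125),(3,87),(4,1)],.leaf [(0,183),(1,125),(3,87),(4,1)]⟩,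
⟨⟨⟨75,-210,-2⟩,⟨70,27,-210⟩,⟨198,70,75⟩⟩,true,131,220,.leaf [(0,4014),(2,41255),(5,212),(6,77)],.leaf [(0,4014),(2,41255),(5,212),(6,77)]⟩,
⟨⟨⟨213,-2,66⟩,⟨-54,123,178⟩,⟨-38,-186,117⟩⟩,true,134,38,.leaf [(2,2007),(3,3122),(4,5),(7,14)],.leaf [(2,2007),(3,3122),(4,5),(7,14)]⟩,
⟨⟨⟨213,-2,-66⟩,⟨54,-123,178⟩,⟨-38,-186,-117⟩⟩,true,134,185,.leaf [(0,103),(1,244),(2,18),(4,1)],.leaf [(0,103),(1,244),(2,18),(4,1)]⟩,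
⟨⟨⟨117,-38,-186⟩,⟨66,213,-2⟩,⟨178,-54,123⟩⟩,true,135,27,.leaf [(0,149187),(4,7),(7,584),(15,112)],.leaf [(0,51),(3,406),(7,2),(10,133)]⟩,
⟨⟨⟨117,-38,186⟩,⟨-66,-213,-2⟩,⟨178,-54,-123⟩⟩,true,135,196,.leaf [(1,4237),(2,9366),(4,58),(5,49)],.leaf [(1,4237),(2,9366),(4,58),(5,49)]⟩,
⟨⟨⟨21,222,-2⟩,⟨-218,21,42⟩,⟨42,-2,219⟩⟩,true,138,53,.leaf [(0,3),(1,44),(2,198),(4,1)],.leaf [(0,3),(1,44),(2,198),(4,1)]⟩,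
⟨⟨⟨-21,-222,-2⟩,⟨-218,21,-42⟩,⟨42,-2,-219⟩⟩,true,138,170,.leaf [(0,187),(1,217),(2,33),(5,1)],.leaf [(0,187),(1,217),(2,33),(5,1)]⟩,
⟨⟨⟨165,-150,-2⟩,⟨-110,-123,150⟩,⟨-102,-110,-165⟩⟩,true,141,100,.leaf [(1,7136),(3,3345),(4,40),(5,27)],.leaf [(1,7136),(3,3345),(4,40),(5,27)]⟩,
⟨⟨⟨-165,150,-2⟩,⟨-110,-123,-150⟩,⟨-102,-110,165⟩⟩,true,141,123,.leaf [(0,49729),(4,184),(6,139),(15,8)],.leaf [(0,36349),(4,124),(6,109),(10,446)]⟩,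
⟨⟨⟨-11,222,-18⟩,⟨102,-11,-198⟩,⟨-198,-18,-101⟩⟩,true,142,103,.leaf [(0,49729),(4,113),(5,30),(7,150)],.leaf [(0,49729),(4,113),(5,30),(7,150)]⟩,
⟨⟨⟨-11,222,18⟩,⟨102,-11,198⟩,⟨198,18,-101⟩⟩,true,142,120,.leaf [(0,233),(1,150),(3,30),(4,1)],.leaf [(0,233),(1,150),(3,30),(4,1)]⟩,
⟨⟨⟨27,70,-210⟩,⟨-210,75,-2⟩,⟨70,198,75⟩⟩,true,143,17,.leaf [(1,49729),(4,232),(5,1),(15,6)],.leaf [(1,115),(2,28),(5,1),(10,100)]⟩,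
⟨⟨⟨27,70,210⟩,⟨210,-75,-2⟩,⟨70,198,-75⟩⟩,true,143,206,.leaf [(2,4906),(3,5575),(4,10),(5,27)],.leaf [(2,4906),(3,5575),(4,10),(5,27)]⟩,
⟨⟨⟨-27,126,-182⟩,⟨-182,-117,-54⟩,⟨-126,142,117⟩⟩,true,144,15,.leaf [(1,20),(2,243),(3,108),(4,1)],.leaf [(1,20),(2,243),(3,108),(4,1)]⟩,
⟨⟨⟨27,-126,-182⟩,⟨-182,-117,54⟩,⟨-126,142,-117⟩⟩,true,144,208,.leaf [(1,58649),(3,4014),(4,268),(5,9)],.leaf [(1,58649),(3,4014),(4,268),(5,9)]⟩,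
⟨⟨⟨165,-110,102⟩,⟨150,123,-110⟩,⟨-2,150,165⟩⟩,true,148,29,.leaf [(0,20293),(2,2007),(5,89),(7,21)],.leaf [(0,20293),(2,2007),(5,89),(7,21)]⟩,
⟨⟨⟨165,-110,-102⟩,⟨-150,-123,-110⟩,⟨-2,150,-165⟩⟩,true,148,194,.leaf [(0,245),(1,63),(2,15),(5,1)],.leaf [(0,245),(1,63),(2,15),(5,1)]⟩,
⟨⟨⟨75,-198,70⟩,⟨-2,-75,-210⟩,⟨210,70,-27⟩⟩,true,149,105,.leaf [(0,18),(2,250),(3,97),(5,1)],.leaf [(0,18),(2,250),(3,97),(5,1)]⟩,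
⟨⟨⟨-75,198,70⟩,⟨-2,-75,210⟩,⟨210,70,27⟩⟩,true,149,118,.leaf [(0,243),(1,140),(2,30),(4,1)],.leaf [(0,243),(1,140),(2,30),(4,1)]⟩,
⟨⟨⟨117,178,66⟩,⟨-186,123,-2⟩,⟨-38,-54,213⟩⟩,true,154,12,.leaf [(1,149187),(4,788),(7,694),(15,59)],.leaf [(1,465624),(4,1128),(10,115291),(14,103)]⟩,
⟨⟨⟨117,178,-66⟩,⟨186,-123,-2⟩,⟨-38,-54,-213⟩⟩,true,154,211,.leaf [(0,217),(1,64),(2,84),(4,1)],.leaf [(0,217),(1,64),(2,84),(4,1)]⟩,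
⟨⟨⟨-123,-110,-150⟩,⟨150,-165,-2⟩,⟨-110,-102,165⟩⟩,true,155,110,.leaf [(0,4014),(3,6913),(4,46),(7,7)],.leaf [(0,4014),(3,6913),(4,46),(7,7)]⟩,
⟨⟨⟨-123,-110,150⟩,⟨-150,165,-2⟩,⟨-110,-102,-165⟩⟩,true,155,113,.leaf [(0,8),(1,168),(3,147),(5,1)],.leaf [(0,8),(1,168),(3,147),(5,1)]⟩,
⟨⟨⟨-101,18,-198⟩,⟨198,-11,-102⟩,⟨-18,-222,-11⟩⟩,true,161,13,.leaf [(0,9589),(4,23),(10,669),(14,9)],.leaf [(3,1150680),(4,4671),(10,181076),(22,29)]⟩,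
⟨⟨⟨-101,18,198⟩,⟨198,-11,102⟩,⟨18,222,-11⟩⟩,true,161,210,.leaf [(2,22523),(3,19178),(4,31),(5,106)],.leaf [(2,22523),(3,19178),(4,31),(5,106)]⟩,
⟨⟨⟨133,138,-114⟩,⟨-174,133,-42⟩,⟨42,114,187⟩⟩,true,162,31,.leaf [(2,49729),(4,189),(7,119),(15,37)],.leaf [(2,126218),(4,81),(7,532),(10,8251)]⟩,
⟨⟨⟨133,138,114⟩,⟨-174,133,42⟩,⟨-42,-114,187⟩⟩,true,162,192,.leaf [(2,897),(4,9),(10,7),(18,169)],.leaf [(1,30105),(7,99),(10,11596),(14,20)]⟩,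
⟨⟨⟨133,-42,-174⟩,⟨114,187,42⟩,⟨138,-114,133⟩⟩,true,164,106,.leaf [(3,41),(7,1),(10,26),(18,26)],.leaf [(1,675),(3,981),(10,227),(14,1)]⟩,
⟨⟨⟨133,-42,174⟩,⟨114,187,-42⟩,⟨-138,114,133⟩⟩,true,164,117,.leaf [(0,134692),(3,34342),(5,649),(15,37)],.leaf [(0,275),(3,230),(5,2),(10,37)]⟩,
⟨⟨⟨-123,-2,186⟩,⟨-54,-213,-38⟩,⟨178,-66,117⟩⟩,true,165,42,.leaf [(2,49729),(4,267),(5,252),(7,140)],.leaf [(2,49729),(4,267),(5,252),(7,140)]⟩,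
⟨⟨⟨-123,-2,-186⟩,⟨54,213,-38⟩,⟨178,-66,-117⟩⟩,true,165,181,.leaf [(4,1068),(5,3600),(14,445),(18,49729)],.leaf [(1,6426),(3,3666),(10,2069),(22,1)]⟩,
⟨⟨⟨-21,-2,222⟩,⟨-42,219,-2⟩,⟨-218,-42,-21⟩⟩,true,170,85,.leaf [(1,2453),(3,2230),(5,11),(7,10)],.leaf [(1,2453),(3,2230),(5,11),(7,10)]⟩,
⟨⟨⟨-21,-2,-222⟩,⟨42,-219,-2⟩,⟨-218,-42,21⟩⟩,true,170,138,.leaf [(0,217),(1,187),(3,33),(4,1)],.leaf [(0,217),(1,187),(3,33),(4,1)]⟩,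
⟨⟨⟨117,54,-182⟩,⟨142,117,126⟩,⟨126,-182,27⟩⟩,true,172,48,.leaf [(1,3791),(3,2453),(4,19),(6,7)],.leaf [(1,3791),(3,2453),(4,19),(6,7)]⟩,
⟨⟨⟨-117,-54,-182⟩,⟨142,117,-126⟩,⟨126,-182,-27⟩⟩,true,172,175,.leaf [(0,63),(1,198),(3,110),(6,1)],.leaf [(0,63),(1,198),(3,110),(6,1)]⟩,
⟨⟨⟨213,54,-38⟩,⟨-2,-123,-186⟩,⟨-66,178,-117⟩⟩,true,173,93,.leaf [(0,6021),(1,446),(4,13),(5,30)],.leaf [(0,6021),(1,446),(4,13),(5,30)]⟩,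
⟨⟨⟨-213,-54,-38⟩,⟨-2,-123,186⟩,⟨-66,178,117⟩⟩,true,173,130,.leaf [(0,69),(1,41),(3,183),(4,1)],.leaf [(0,69),(1,41),(3,183),(4,1)]⟩,
⟨⟨⟨-117,-182,54⟩,⟨-126,27,-182⟩,⟨142,-126,-117⟩⟩,true,175,51,.leaf [(1,22077),(2,12488),(5,135),(7,16)],.leaf [(1,22077),(2,12488),(5,135),(7,16)]⟩,
⟨⟨⟨-117,-182,-54⟩,⟨126,-27,-182⟩,⟨142,-126,117⟩⟩,true,175,172,.leaf [(0,198),(1,63),(2,110),(7,1)],.leaf [(0,198),(1,63),(2,110),(7,1)]⟩,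
⟨⟨⟨123,186,-2⟩,⟨178,-117,66⟩,⟨54,-38,-213⟩⟩,true,181,58,.leaf [(0,213),(1,68),(2,90),(4,1)],.leaf [(0,213),(1,68),(2,90),(4,1)]⟩,
⟨⟨⟨-123,-186,-2⟩,⟨178,-117,-66⟩,⟨54,-38,213⟩⟩,true,181,165,.leaf [(4,4689),(5,3378),(15,1742),(18,49729)],.leaf [(4,624),(5,760),(6,65),(10,49729)]⟩,
⟨⟨⟨187,102,-66⟩,⟨-66,187,102⟩,⟨102,-66,187⟩⟩,true,183,39,.leaf [(1,99458),(4,251),(7,170),(14,85)],.leaf [(1,266931),(7,714),(10,113284),(15,151)]⟩,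
⟨⟨⟨187,102,66⟩,⟨-66,187,-102⟩,⟨-102,66,187⟩⟩,true,183,184,.leaf [(5,3915),(7,3657),(14,2069),(18,49729)],.leaf [(2,34565),(5,87),(7,385),(10,26983)]⟩,
⟨⟨⟨187,66,-102⟩,⟨-102,187,-66⟩,⟨66,102,187⟩⟩,true,184,40,.leaf [(2,753),(7,6),(11,170),(18,85)],.leaf [(1,255),(2,83),(7,1),(10,85)]⟩,
⟨⟨⟨187,66,102⟩,⟨-102,187,66⟩,⟨-66,-102,187⟩⟩,true,184,183,.leaf [(4,3294),(6,627),(15,532),(18,49729)],.leaf [(1,5724),(3,1761),(10,1984),(23,1)]⟩,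
⟨⟨⟨-213,66,-2⟩,⟨-38,-117,186⟩,⟨54,178,123⟩⟩,true,185,89,.leaf [(0,183),(1,98),(3,90),(4,1)],.leaf [(0,183),(1,98),(3,90),(4,1)]⟩,
⟨⟨⟨213,-66,-2⟩,⟨-38,-117,-186⟩,⟨54,178,-123⟩⟩,true,185,134,.leaf [(0,6690),(1,2899),(4,2),(5,27)],.leaf [(0,6690),(1,2899),(4,2),(5,27)]⟩,
⟨⟨⟨187,-42,114⟩,⟨114,133,-138⟩,⟨-42,174,133⟩⟩,true,187,34,.leaf [(0,486),(11,140),(14,1),(18,35)],.leaf [(2,9143),(5,21),(7,67),(10,4237)]⟩,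
⟨⟨⟨187,-42,-114⟩,⟨114,133,138⟩,⟨42,-174,133⟩⟩,true,187,189,.leaf [(4,4995),(6,1320),(15,1864),(18,49729)],.R (.leaf [(1,110079),(10,47187),(30,7),(35,503)]) (.leaf [(1,597780),(10,214425),(30,58),(34,503)]) (.leaf [(6,143127),(10,5818293),(30,5546),(39,172)])⟩,
⟨⟨⟨117,142,126⟩,⟨54,117,-182⟩,⟨-182,126,27⟩⟩,true,188,104,.leaf [(3,49729),(5,231),(7,44),(15,32)],.leaf [(4,735),(5,360),(10,49729),(22,14)]⟩,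
⟨⟨⟨117,142,-126⟩,⟨-54,-117,-182⟩,⟨-182,126,-27⟩⟩,true,188,119,.leaf [(2,14049),(4,75),(11,892),(15,4)],.leaf [(0,30),(2,215),(4,1),(10,14)]⟩,
⟨⟨⟨187,-114,42⟩,⟨42,133,174⟩,⟨-114,-138,133⟩⟩,true,189,36,.leaf [(3,33004),(6,155),(10,1115),(14,6)],.leaf [(1,810),(3,435),(10,508),(15,1)]⟩,
⟨⟨⟨187,-114,-42⟩,⟨42,133,-174⟩,⟨114,138,133⟩⟩,true,189,187,.leaf [(5,1566),(7,3126),(14,899),(18,49729)],.leaf [(0,475),(2,358),(5,4),(10,175)]⟩,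
⟨⟨⟨123,178,-54⟩,⟨-186,117,-38⟩,⟨-2,66,213⟩⟩,true,190,5,.leaf [(1,169257),(4,1265),(7,595),(18,13603)],.leaf [(1,511785),(4,1389),(10,116629),(15,55)]⟩,
⟨⟨⟨123,178,54⟩,⟨186,-117,-38⟩,⟨-2,66,-213⟩⟩,true,190,218,.leaf [(0,48391),(2,20070),(4,267),(5,92)],.leaf [(0,48391),(2,20070),(4,267),(5,92)]⟩,
⟨⟨⟨133,114,-138⟩,⟨-42,187,114⟩,⟨174,-42,133⟩⟩,true,192,61,.leaf [(1,99458),(4,275),(7,230),(14,37)],.leaf [(1,242847),(7,588),(10,67792),(15,43)]⟩,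
⟨⟨⟨133,114,138⟩,⟨-42,187,-114⟩,⟨-174,42,133⟩⟩,true,192,162,.R (.leaf [(0,108),(3,117),(18,20),(27,1)]) (.leaf [(0,189),(3,144),(18,32),(26,1)]) (.leaf [(0,29268),(3,17856),(18,4181),(30,1)]),.leaf [(3,223),(6,39),(7,131),(10,8697)]⟩,
⟨⟨⟨-165,102,-110⟩,⟨-2,-165,-150⟩,⟨-150,-110,123⟩⟩,true,194,75,.leaf [(0,2899),(2,446),(4,13),(6,2)],.leaf [(0,2899),(2,446),(4,13),(6,2)]⟩,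
⟨⟨⟨165,-102,-110⟩,⟨-2,-165,150⟩,⟨-150,-110,-123⟩⟩,true,194,148,.leaf [(0,63),(1,245),(3,15),(4,1)],.leaf [(0,63),(1,245),(3,15),(4,1)]⟩,
⟨⟨⟨-117,-186,-38⟩,⟨178,-123,54⟩,⟨-66,-2,213⟩⟩,true,196,88,.leaf [(4,2043),(5,1344),(15,1208),(18,49729)],.leaf [(0,68015),(4,470),(5,716),(10,34119)]⟩,
⟨⟨⟨117,186,-38⟩,⟨178,-123,-54⟩,⟨-66,-2,-213⟩⟩,true,196,135,.leaf [(0,32335),(2,18732),(4,175),(5,16)],.leaf [(0,32335),(2,18732),(4,175),(5,16)]⟩,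
⟨⟨⟨171,-38,-138⟩,⟨18,219,-38⟩,⟨142,18,171⟩⟩,true,198,97,.leaf [(0,513),(3,540),(10,295),(14,2)],.leaf [(3,18063),(7,75),(10,3791),(22,1)]⟩,
⟨⟨⟨171,-38,138⟩,⟨-18,-219,-38⟩,⟨142,18,-171⟩⟩,true,198,126,.leaf [(0,13603),(1,19847),(4,47),(5,91)],.leaf [(0,13603),(1,19847),(4,47),(5,91)]⟩,
⟨⟨⟨-171,142,-18⟩,⟨-138,-171,-38⟩,⟨-38,-18,219⟩⟩,true,200,94,.leaf [(0,31443),(2,28990),(4,201),(7,20)],.leaf [(0,31443),(2,28990),(4,201),(7,20)]⟩,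
⟨⟨⟨-171,142,18⟩,⟨138,171,-38⟩,⟨-38,-18,-219⟩⟩,true,200,129,.leaf [(4,1095),(5,5220),(14,1606),(18,49729)],.leaf [(1,7155),(3,4125),(10,2519),(22,1)]⟩,
⟨⟨⟨21,-218,42⟩,⟨222,21,-2⟩,⟨-2,42,219⟩⟩,true,202,2,.leaf [(0,18063),(2,14941),(5,87),(7,59)],.leaf [(0,18063),(2,14941),(5,87),(7,59)]⟩,
⟨⟨⟨21,-218,-42⟩,⟨-222,-21,-2⟩,⟨-2,42,-219⟩⟩,true,202,221,.leaf [(1,4460),(2,669),(4,23),(5,20)],.leaf [(1,4460),(2,669),(4,23),(5,20)]⟩,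
⟨⟨⟨-11,198,102⟩,⟨18,-101,198⟩,⟨222,18,-11⟩⟩,true,205,11,.leaf [(0,212),(1,96),(2,87),(4,1)],.leaf [(0,212),(1,96),(2,87),(4,1)]⟩,
⟨⟨⟨-11,198,-102⟩,⟨18,-101,-198⟩,⟨-222,-18,-11⟩⟩,true,205,212,.leaf [(0,38356),(2,12711),(4,113),(7,96)],.leaf [(0,38356),(2,12711),(4,113),(7,96)]⟩,
⟨⟨⟨-27,-210,70⟩,⟨70,-75,-198⟩,⟨210,-2,75⟩⟩,true,206,80,.leaf [(1,18),(2,2165),(5,10),(18,17)],.leaf [(1,63),(2,191),(5,1),(10,17)]⟩,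
⟨⟨⟨27,210,70⟩,⟨70,-75,198⟩,⟨210,-2,-75⟩⟩,true,206,143,.leaf [(0,228),(1,128),(2,57),(4,1)],.leaf [(0,228),(1,128),(2,57),(4,1)]⟩,
⟨⟨⟨27,-182,126⟩,⟨126,117,142⟩,⟨-182,54,117⟩⟩,true,208,79,.leaf [(0,227),(1,9),(2,9),(5,1)],.leaf [(0,227),(1,9),(2,9),(5,1)]⟩,
⟨⟨⟨27,-182,-126⟩,⟨-126,-117,142⟩,⟨-182,54,-117⟩⟩,true,208,144,.leaf [(1,42593),(3,20070),(4,236),(5,65)],.leaf [(1,42593),(3,20070),(4,236),(5,65)]⟩,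
⟨⟨⟨-101,198,-18⟩,⟨18,-11,-222⟩,⟨-198,-102,-11⟩⟩,true,210,62,.leaf [(0,49729),(4,377),(7,9),(15,87)],.leaf [(0,105),(3,406),(7,2),(10,87)]⟩,
⟨⟨⟨-101,198,18⟩,⟨18,-11,222⟩,⟨198,102,-11⟩⟩,true,210,161,.leaf [(0,209),(1,147),(3,57),(4,1)],.leaf [(0,209),(1,147),(3,57),(4,1)]⟩,
⟨⟨⟨-117,66,178⟩,⟨-38,-213,54⟩,⟨186,-2,123⟩⟩,true,211,69,.leaf [(2,279419),(4,1182),(5,1708),(18,13157)],.leaf [(2,138260),(4,687),(5,592),(10,13157)]⟩,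
⟨⟨⟨117,-66,178⟩,⟨-38,-213,-54⟩,⟨186,-2,-123⟩⟩,true,211,154,.leaf [(1,446),(2,7359),(4,37),(5,30)],.leaf [(1,446),(2,7359),(4,37),(5,30)]⟩,
⟨⟨⟨-11,-102,-198⟩,⟨-222,-11,18⟩,⟨-18,198,-101⟩⟩,true,212,18,.leaf [(1,18509),(2,3345),(4,105),(5,43)],.leaf [(1,18509),(2,3345),(4,105),(5,43)]⟩,
⟨⟨⟨-11,-102,198⟩,⟨-222,-11,-18⟩,⟨18,-198,-101⟩⟩,true,212,205,.leaf [(1,38356),(3,12711),(5,113),(6,96)],.leaf [(1,38356),(3,12711),(5,113),(6,96)]⟩,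
⟨⟨⟨-123,-54,178⟩,⟨-2,-213,-66⟩,⟨186,-38,117⟩⟩,true,218,33,.leaf [(2,173494),(4,537),(5,1256),(18,13603)],.leaf [(2,61325),(4,525),(5,316),(10,27206)]⟩,
⟨⟨⟨123,54,178⟩,⟨-2,-213,66⟩,⟨186,-38,-117⟩⟩,true,218,190,.leaf [(0,12265),(2,56196),(4,295),(5,112)],.leaf [(0,12265),(2,56196),(4,295),(5,112)]⟩,
⟨⟨⟨75,-2,210⟩,⟨-198,-75,70⟩,⟨70,-210,-27⟩⟩,true,220,92,.leaf [(1,49729),(4,268),(5,250),(7,153)],.leaf [(1,49729),(4,268),(5,250),(7,153)]⟩,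
⟨⟨⟨75,-2,-210⟩,⟨198,75,70⟩,⟨70,-210,27⟩⟩,true,220,131,.leaf [(1,4014),(3,41255),(4,212),(7,77)],.leaf [(1,4014),(3,41255),(4,212),(7,77)]⟩,
⟨⟨⟨-21,42,-218⟩,⟨-2,-219,-42⟩,⟨-222,-2,21⟩⟩,true,221,21,.leaf [(0,228),(1,176),(2,33),(4,1)],.leaf [(0,228),(1,176),(2,33),(4,1)]⟩,
⟨⟨⟨21,-42,-218⟩,⟨-2,-219,42⟩,⟨-222,-2,-21⟩⟩,true,221,202,.leaf [(0,177),(1,230),(3,30),(4,1)],.leaf [(0,177),(1,230),(3,30),(4,1)]⟩]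

theorem primeOk_223 : PrimeOk 223 := primeOk (by norm_num) (by norm_num) (by norm_num) L223
  (by decide +kernel) (by decide +kernel)

def L227 : List Cls := [
⟨⟨⟨225,-2,-30⟩,⟨-2,225,-30⟩,⟨30,30,223⟩⟩,true,1,15,.leaf [(0,30),(1,60),(2,193),(6,1)],.leaf [(0,30),(1,60),(2,193),(6,1)]⟩,
⟨⟨⟨225,-2,30⟩,⟨-2,225,30⟩,⟨-30,-30,223⟩⟩,true,1,212,.leaf [(2,1362),(6,6),(11,227),(15,1)],.leaf [(2,16571),(5,20),(6,87),(10,2270)]⟩,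
⟨⟨⟨-63,-126,178⟩,⟨162,97,126⟩,⟨-146,162,63⟩⟩,true,2,26,.leaf [(0,243),(1,115),(2,45),(5,1)],.leaf [(0,243),(1,115),(2,45),(5,1)]⟩,
⟨⟨⟨63,126,178⟩,⟨162,97,-126⟩,⟨-146,162,-63⟩⟩,true,2,201,.leaf [(0,2),(2,34),(3,241),(5,1)],.leaf [(0,2),(2,34),(3,241),(5,1)]⟩,
⟨⟨⟨79,-138,162⟩,⟨198,111,-2⟩,⟨-78,142,159⟩⟩,true,4,94,.leaf [(0,220),(1,3),(2,60),(5,1)],.leaf [(0,220),(1,3),(2,60),(5,1)]⟩,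
⟨⟨⟨79,-138,-162⟩,⟨-198,-111,-2⟩,⟨-78,142,-159⟩⟩,true,4,133,.leaf [(2,14755),(3,8626),(4,55),(5,58)],.leaf [(2,14755),(3,8626),(4,55),(5,58)]⟩,
⟨⟨⟨33,198,106⟩,⟨54,97,-198⟩,⟨-218,54,-33⟩⟩,true,6,72,.leaf [(4,2526),(5,4572),(14,1843),(18,51529)],.leaf [(1,90),(3,10),(4,1),(10,101)]⟩,
⟨⟨⟨-33,-198,106⟩,⟨54,97,198⟩,⟨-218,54,33⟩⟩,true,6,155,.leaf [(0,252),(1,70),(3,3),(5,1)],.leaf [(0,252),(1,70),(3,3),(5,1)]⟩,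
⟨⟨⟨63,214,-42⟩,⟨-218,63,-6⟩,⟨6,42,223⟩⟩,true,7,75,.leaf [(1,10896),(2,49259),(4,240),(6,47)],.leaf [(1,10896),(2,49259),(4,240),(6,47)]⟩,
⟨⟨⟨63,214,42⟩,⟨-218,63,6⟩,⟨-6,-42,223⟩⟩,true,7,152,.leaf [(0,13847),(4,11),(6,162),(11,8172)],.leaf [(0,204),(2,61),(6,1),(10,12)]⟩,
⟨⟨⟨97,-198,54⟩,⟨54,-33,-218⟩,⟨198,106,33⟩⟩,true,12,38,.leaf [(0,91),(2,213),(3,21),(5,1)],.leaf [(0,91),(2,213),(3,21),(5,1)]⟩,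
⟨⟨⟨97,-198,-54⟩,⟨-54,33,-218⟩,⟨198,106,-33⟩⟩,true,12,189,.leaf [(0,1589),(2,6583),(5,29),(7,7)],.leaf [(0,1589),(2,6583),(5,29),(7,7)]⟩,
⟨⟨⟨97,126,-162⟩,⟨-162,-63,-146⟩,⟨-126,178,63⟩⟩,true,13,113,.leaf [(2,51529),(4,225),(5,27),(7,25)],.leaf [(2,51529),(4,225),(5,27),(7,25)]⟩,
⟨⟨⟨97,126,162⟩,⟨162,63,-146⟩,⟨-126,178,-63⟩⟩,true,13,114,.leaf [(0,52),(1,27),(3,198),(5,1)],.leaf [(0,52),(1,27),(3,198),(5,1)]⟩,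
⟨⟨⟨79,198,-78⟩,⟨-138,111,142⟩,⟨162,-2,159⟩⟩,true,14,22,.leaf [(0,45),(1,220),(2,42),(4,1)],.leaf [(0,45),(1,220),(2,42),(4,1)]⟩,
⟨⟨⟨79,198,78⟩,⟨138,-111,142⟩,⟨162,-2,-159⟩⟩,true,14,205,.leaf [(0,216),(1,64),(2,93),(4,1)],.leaf [(0,216),(1,64),(2,93),(4,1)]⟩,
⟨⟨⟨225,-30,-2⟩,⟨30,223,30⟩,⟨-2,-30,225⟩⟩,true,15,1,.leaf [(0,60),(1,30),(3,193),(7,1)],.leaf [(0,60),(1,30),(3,193),(7,1)]⟩,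
⟨⟨⟨-225,30,-2⟩,⟨30,223,-30⟩,⟨-2,-30,-225⟩⟩,true,15,226,.leaf [(1,51529),(5,238),(15,15)],.leaf [(1,103058),(5,341),(23,15)]⟩,
⟨⟨⟨-111,-182,-78⟩,⟨-182,129,-42⟩,⟨78,42,-209⟩⟩,true,18,105,.leaf [(1,48),(2,224),(3,83),(5,1)],.leaf [(1,48),(2,224),(3,83),(5,1)]⟩,
⟨⟨⟨-111,-182,78⟩,⟨-182,129,42⟩,⟨-78,-42,-209⟩⟩,true,18,122,.leaf [(0,140),(1,230),(3,57),(5,1)],.leaf [(0,140),(1,230),(3,57),(5,1)]⟩,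
⟨⟨⟨-33,54,-218⟩,⟨-198,97,54⟩,⟨106,198,33⟩⟩,true,19,41,.leaf [(1,51529),(4,249),(5,61),(14,3)],.leaf [(1,5675),(4,21),(5,11),(10,681)]⟩,
⟨⟨⟨33,-54,-218⟩,⟨-198,97,-54⟩,⟨106,198,-33⟩⟩,true,19,186,.leaf [(1,348899),(4,2535),(5,965),(18,27921)],.leaf [(1,104420),(4,249),(5,260),(10,27921)]⟩,
⟨⟨⟨-159,-2,-162⟩,⟨142,-111,-138⟩,⟨-78,-198,79⟩⟩,true,20,31,.leaf [(3,206116),(4,651),(6,634),(14,1)],.leaf [(3,44492),(4,141),(6,134),(10,227)]⟩,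
⟨⟨⟨-159,-2,162⟩,⟨142,-111,138⟩,⟨78,198,79⟩⟩,true,20,196,.leaf [(0,12485),(3,681),(4,65),(5,27)],.leaf [(0,12485),(3,681),(4,65),(5,27)]⟩,
⟨⟨⟨-177,142,6⟩,⟨34,33,222⟩,⟨138,174,-47⟩⟩,true,21,100,.leaf [(0,52),(2,57),(3,216),(4,1)],.leaf [(0,52),(2,57),(3,216),(4,1)]⟩,
⟨⟨⟨-177,142,-6⟩,⟨34,33,-222⟩,⟨-138,-174,-47⟩⟩,true,21,127,.leaf [(0,45),(2,130),(3,228),(6,1)],.leaf [(0,45),(2,130),(3,228),(6,1)]⟩,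
⟨⟨⟨79,-78,198⟩,⟨162,159,-2⟩,⟨-138,142,111⟩⟩,true,22,14,.leaf [(0,220),(1,45),(3,42),(5,1)],.leaf [(0,220),(1,45),(3,42),(5,1)]⟩,
⟨⟨⟨79,-78,-198⟩,⟨-162,-159,-2⟩,⟨-138,142,-111⟩⟩,true,22,213,.leaf [(0,18),(1,196),(2,63),(4,1)],.leaf [(0,18),(1,196),(2,63),(4,1)]⟩,
⟨⟨⟨-65,-198,90⟩,⟨-198,15,-110⟩,⟨90,-110,-177⟩⟩,true,24,51,.leaf [(0,88),(1,255),(3,12),(5,1)],.leaf [(0,88),(1,255),(3,12),(5,1)]⟩,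
⟨⟨⟨-65,-198,-90⟩,⟨198,-15,-110⟩,⟨90,-110,177⟩⟩,true,24,176,.leaf [(6,501),(11,39271),(15,137),(18,9307)],.leaf [(0,123),(2,40),(6,1),(10,50)]⟩,
⟨⟨⟨-63,178,-126⟩,⟨-146,63,162⟩,⟨162,126,97⟩⟩,true,26,2,.leaf [(0,115),(1,243),(3,45),(4,1)],.leaf [(0,115),(1,243),(3,45),(4,1)]⟩,
⟨⟨⟨-63,178,126⟩,⟨-146,63,-162⟩,⟨-162,-126,97⟩⟩,true,26,225,.leaf [(0,241),(1,34),(3,2),(6,1)],.leaf [(0,241),(1,34),(3,2),(6,1)]⟩,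
⟨⟨⟨-177,138,34⟩,⟨6,-47,222⟩,⟨142,174,33⟩⟩,true,30,37,.leaf [(0,185),(1,95),(3,93),(4,1)],.leaf [(0,185),(1,95),(3,93),(4,1)]⟩,
⟨⟨⟨177,-138,34⟩,⟨6,-47,-222⟩,⟨142,174,-33⟩⟩,true,30,190,.leaf [(0,207),(1,67),(2,105),(5,1)],.leaf [(0,207),(1,67),(2,105),(5,1)]⟩,
⟨⟨⟨-159,-162,-2⟩,⟨-78,79,-198⟩,⟨142,-138,-111⟩⟩,true,31,20,.leaf [(2,206116),(5,651),(7,634),(15,1)],.leaf [(2,144145),(5,453),(7,445),(10,227)]⟩,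
⟨⟨⟨159,162,-2⟩,⟨-78,79,198⟩,⟨142,-138,111⟩⟩,true,31,207,.leaf [(0,23),(1,200),(2,60),(4,1)],.leaf [(0,23),(1,200),(2,60),(4,1)]⟩,
⟨⟨⟨-129,-42,-182⟩,⟨-42,-209,78⟩,⟨-182,78,111⟩⟩,true,32,63,.leaf [(1,3),(2,167),(3,257),(4,1)],.leaf [(1,3),(2,167),(3,257),(4,1)]⟩,
⟨⟨⟨129,42,-182⟩,⟨-42,-209,-78⟩,⟨-182,78,-111⟩⟩,true,32,164,.leaf [(1,12),(2,251),(3,92),(4,1)],.leaf [(1,12),(2,251),(3,92),(4,1)]⟩,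
⟨⟨⟨111,142,138⟩,⟨-2,159,-162⟩,⟨-198,78,79⟩⟩,true,34,81,.leaf [(0,52664),(1,16571),(5,193),(6,216)],.leaf [(0,52664),(1,16571),(5,193),(6,216)]⟩,
⟨⟨⟨111,142,-138⟩,⟨-2,159,162⟩,⟨198,-78,79⟩⟩,true,34,146,.leaf [(1,62879),(3,27013),(4,301),(6,17)],.leaf [(1,62879),(3,27013),(4,301),(6,17)]⟩,
⟨⟨⟨-63,-162,-146⟩,⟨126,97,-162⟩,⟨178,-126,63⟩⟩,true,35,96,.leaf [(0,176379),(2,99653),(7,857),(15,83)],.leaf [(0,723),(2,346),(7,4),(10,83)]⟩,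
⟨⟨⟨63,162,-146⟩,⟨126,97,162⟩,⟨178,-126,-63⟩⟩,true,35,131,.leaf [(1,90),(2,65),(3,218),(4,1)],.leaf [(1,90),(2,65),(3,218),(4,1)]⟩,
⟨⟨⟨-33,174,142⟩,⟨-222,-47,6⟩,⟨34,-138,177⟩⟩,true,36,92,.leaf [(0,2724),(2,62879),(4,319),(7,136)],.leaf [(0,2724),(2,62879),(4,319),(7,136)]⟩,
⟨⟨⟨33,-174,142⟩,⟨-222,-47,-6⟩,⟨34,-138,-177⟩⟩,true,36,135,.leaf [(0,36),(1,178),(3,141),(5,1)],.leaf [(0,36),(1,178),(3,141),(5,1)]⟩,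
⟨⟨⟨-177,34,138⟩,⟨142,33,174⟩,⟨6,222,-47⟩⟩,true,37,30,.leaf [(0,26786),(3,36093),(4,278),(5,141)],.leaf [(0,26786),(3,36093),(4,278),(5,141)]⟩,
⟨⟨⟨-177,34,-138⟩,⟨142,33,-174⟩,⟨-6,-222,-47⟩⟩,true,37,197,.leaf [(0,12031),(3,49032),(4,172),(6,177)],.leaf [(0,12031),(3,49032),(4,172),(6,177)]⟩,
⟨⟨⟨97,54,-198⟩,⟨198,33,106⟩,⟨54,-218,-33⟩⟩,true,38,12,.leaf [(1,91),(2,21),(3,213),(4,1)],.leaf [(1,91),(2,21),(3,213),(4,1)]⟩,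
⟨⟨⟨97,54,198⟩,⟨-198,-33,106⟩,⟨54,-218,33⟩⟩,true,38,215,.leaf [(1,51529),(4,112),(5,21),(6,192)],.leaf [(1,51529),(4,112),(5,21),(6,192)]⟩,
⟨⟨⟨-33,-218,54⟩,⟨106,33,198⟩,⟨-198,54,97⟩⟩,true,41,19,.leaf [(0,51529),(4,61),(5,249),(15,3)],.leaf [(0,157765),(4,214),(5,780),(10,681)]⟩,
⟨⟨⟨-33,-218,-54⟩,⟨106,33,-198⟩,⟨198,-54,97⟩⟩,true,41,208,.leaf [(2,118721),(5,844),(6,358),(18,9307)],.leaf [(1,285),(2,55),(5,1),(10,109)]⟩,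
⟨⟨⟨-33,-222,34⟩,⟨174,-47,-138⟩,⟨142,6,177⟩⟩,true,48,54,.leaf [(0,5448),(1,3859),(5,4),(7,21)],.leaf [(0,5448),(1,3859),(5,4),(7,21)]⟩,
⟨⟨⟨33,222,34⟩,⟨174,-47,138⟩,⟨142,6,-177⟩⟩,true,48,173,.leaf [(0,257),(1,104),(2,12),(4,1)],.leaf [(0,257),(1,104),(2,12),(4,1)]⟩,
⟨⟨⟨-65,90,-198⟩,⟨90,-177,-110⟩,⟨-198,-110,15⟩⟩,true,51,24,.leaf [(0,255),(1,88),(2,12),(4,1)],.leaf [(0,255),(1,88),(2,12),(4,1)]⟩,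
⟨⟨⟨-65,90,198⟩,⟨-90,177,-110⟩,⟨-198,-110,-15⟩⟩,true,51,203,.leaf [(5,5130),(7,2442),(14,2315),(18,51529)],.R (.leaf [(1,119556),(10,41832),(31,7),(35,589)]) (.leaf [(1,622566),(10,139869),(31,58),(34,589)]) (.leaf [(7,324),(14,117),(31,20),(38,1)])⟩,
⟨⟨⟨-47,-174,138⟩,⟨222,-33,34⟩,⟨-6,142,177⟩⟩,true,52,84,.leaf [(0,31099),(2,31326),(5,172),(6,39)],.leaf [(0,31099),(2,31326),(5,172),(6,39)]⟩,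
⟨⟨⟨-47,-174,-138⟩,⟨-222,33,34⟩,⟨-6,142,-177⟩⟩,true,52,143,.leaf [(1,31099),(2,681),(4,157),(5,105)],.leaf [(1,31099),(2,681),(4,157),(5,105)]⟩,
⟨⟨⟨-47,6,-222⟩,⟨-138,177,34⟩,⟨174,142,-33⟩⟩,true,53,82,.leaf [(1,51529),(4,172),(5,102),(7,105)],.leaf [(1,51529),(4,172),(5,102),(7,105)]⟩,
⟨⟨⟨-47,6,222⟩,⟨138,-177,34⟩,⟨174,142,33⟩⟩,true,53,145,.leaf [(0,26786),(2,33369),(4,189),(5,188)],.leaf [(0,26786),(2,33369),(4,189),(5,188)]⟩,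
⟨⟨⟨-33,34,-222⟩,⟨142,177,6⟩,⟨174,-138,-47⟩⟩,true,54,48,.leaf [(0,3859),(1,5448),(4,4),(6,21)],.leaf [(0,3859),(1,5448),(4,4),(6,21)]⟩,
⟨⟨⟨-33,34,222⟩,⟨142,177,-6⟩,⟨-174,138,-47⟩⟩,true,54,179,.leaf [(1,12),(2,104),(3,257),(5,1)],.leaf [(1,12),(2,104),(3,257),(5,1)]⟩,
⟨⟨⟨-111,-198,-2⟩,⟨-138,79,-162⟩,⟨142,-78,-159⟩⟩,true,57,90,.leaf [(0,12),(1,157),(2,108),(5,1)],.leaf [(0,12),(1,157),(2,108),(5,1)]⟩,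
⟨⟨⟨111,198,-2⟩,⟨-138,79,162⟩,⟨142,-78,159⟩⟩,true,57,137,.leaf [(0,17),(1,164),(2,102),(4,1)],.leaf [(0,17),(1,164),(2,102),(4,1)]⟩,
⟨⟨⟨159,142,78⟩,⟨-2,111,-198⟩,⟨-162,138,79⟩⟩,true,58,99,.leaf [(0,454),(2,5675),(4,10),(6,23)],.leaf [(0,454),(2,5675),(4,10),(6,23)]⟩,
⟨⟨⟨159,142,-78⟩,⟨-2,111,198⟩,⟨162,-138,79⟩⟩,true,58,128,.leaf [(0,31),(1,234),(3,42),(4,1)],.leaf [(0,31),(1,234),(3,42),(4,1)]⟩,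
⟨⟨⟨-129,-182,-42⟩,⟨-182,111,78⟩,⟨-42,78,-209⟩⟩,true,63,32,.leaf [(0,227),(1,454),(4,1),(5,2)],.leaf [(0,227),(1,454),(4,1),(5,2)]⟩,
⟨⟨⟨-129,-182,42⟩,⟨-182,111,-78⟩,⟨42,-78,-209⟩⟩,true,63,195,.leaf [(0,92),(1,251),(2,12),(5,1)],.leaf [(0,92),(1,251),(2,12),(5,1)]⟩,
⟨⟨⟨63,-218,-6⟩,⟨214,63,-42⟩,⟨42,6,223⟩⟩,true,65,108,.leaf [(2,51529),(5,112),(6,21),(15,64)],.leaf [(2,32915),(5,272),(6,87),(10,14528)]⟩,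
⟨⟨⟨63,-218,6⟩,⟨214,63,42⟩,⟨-42,-6,223⟩⟩,true,65,119,.leaf [(0,30),(3,100),(6,1),(18,37)],.leaf [(2,123),(3,139),(5,1),(10,89)]⟩,
⟨⟨⟨33,106,198⟩,⟨-218,-33,54⟩,⟨54,-198,97⟩⟩,true,72,6,.leaf [(4,3177),(5,2262),(15,290),(18,51529)],.leaf [(2,3859),(4,33),(6,46),(10,4086)]⟩,
⟨⟨⟨33,106,-198⟩,⟨-218,-33,-54⟩,⟨-54,198,97⟩⟩,true,72,221,.leaf [(0,16),(1,144),(2,123),(4,1)],.leaf [(0,16),(1,144),(2,123),(4,1)]⟩,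
⟨⟨⟨63,-42,214⟩,⟨6,223,42⟩,⟨-218,-6,63⟩⟩,true,75,7,.leaf [(0,10896),(3,49259),(5,240),(7,47)],.leaf [(0,10896),(3,49259),(5,240),(7,47)]⟩,
⟨⟨⟨-63,42,214⟩,⟨6,223,-42⟩,⟨-218,-6,-63⟩⟩,true,75,220,.leaf [(3,11123),(5,126),(7,59),(10,8172)],.leaf [(1,1001),(5,5),(26,48)]⟩,
⟨⟨⟨-209,42,78⟩,⟨-42,129,-182⟩,⟨-78,-182,-111⟩⟩,true,78,80,.leaf [(1,6129),(3,28375),(7,73),(15,35)],.leaf [(1,1323),(3,537),(10,641),(14,1)]⟩,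
⟨⟨⟨-209,42,-78⟩,⟨42,-129,-182⟩,⟨-78,-182,111⟩⟩,true,78,147,.L (.L (.L (.leaf [(5,390015),(7,316710),(39,4601),(42,206116)]) (.leaf [(0,273),(1,213),(2,73),(7,1)]) (.leaf [(0,267),(1,100),(3,12),(4,1)])) (.leaf [(0,16),(1,144),(2,267),(4,1)]) (.leaf [(0,272),(1,197),(3,240),(5,1)])) (.leaf [(0,185),(1,308),(2,210),(4,1)]) (.leaf [(1,162),(10,21),(19,14),(26,1)]),.leaf [(0,125),(3,80),(4,1),(10,46)]⟩,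
⟨⟨⟨-209,78,42⟩,⟨-78,-111,-182⟩,⟨-42,-182,129⟩⟩,true,80,78,.leaf [(0,6129),(2,28375),(6,73),(14,35)],.leaf [(0,104),(2,29),(4,1),(10,56)]⟩,
⟨⟨⟨-209,78,-42⟩,⟨78,111,-182⟩,⟨-42,-182,-129⟩⟩,true,80,149,.leaf [(0,13824),(3,11088),(18,2453),(22,1)],.leaf [(1,63423),(10,25110),(26,554),(31,5)]⟩,
⟨⟨⟨111,138,142⟩,⟨-198,79,78⟩,⟨-2,-162,159⟩⟩,true,81,34,.leaf [(0,16571),(1,52664),(4,193),(7,216)],.leaf [(0,16571),(1,52664),(4,193),(7,216)]⟩,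
⟨⟨⟨-111,-138,142⟩,⟨-198,79,-78⟩,⟨-2,-162,-159⟩⟩,true,81,193,.leaf [(1,5221),(3,2270),(5,25),(7,2)],.leaf [(1,5221),(3,2270),(5,25),(7,2)]⟩,
⟨⟨⟨-47,-222,6⟩,⟨174,-33,142⟩,⟨-138,34,177⟩⟩,true,82,53,.leaf [(0,51529),(4,102),(5,172),(6,105)],.leaf [(0,51529),(4,102),(5,172),(6,105)]⟩,
⟨⟨⟨-47,-222,-6⟩,⟨-174,33,142⟩,⟨-138,34,-177⟩⟩,true,82,174,.leaf [(2,45400),(3,58339),(4,88),(5,265)],.leaf [(2,45400),(3,58339),(4,88),(5,265)]⟩,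
⟨⟨⟨-15,-110,-198⟩,⟨-110,177,-90⟩,⟨198,90,-65⟩⟩,true,83,104,.leaf [(2,51529),(4,48),(5,288),(6,115)],.leaf [(2,51529),(4,48),(5,288),(6,115)]⟩,
⟨⟨⟨-15,-110,198⟩,⟨-110,177,90⟩,⟨-198,-90,-65⟩⟩,true,83,123,.leaf [(0,20),(1,50),(3,213),(5,1)],.leaf [(0,20),(1,50),(3,213),(5,1)]⟩,
⟨⟨⟨-47,138,-174⟩,⟨-6,177,142⟩,⟨222,34,-33⟩⟩,true,84,52,.leaf [(1,31099),(3,31326),(4,172),(7,39)],.leaf [(1,31099),(3,31326),(4,172),(7,39)]⟩,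
⟨⟨⟨-47,138,174⟩,⟨6,-177,142⟩,⟨222,34,33⟩⟩,true,84,175,.leaf [(0,19976),(2,21111),(4,141),(5,32)],.leaf [(0,19976),(2,21111),(4,141),(5,32)]⟩,
⟨⟨⟨177,90,-110⟩,⟨-90,-65,-198⟩,⟨-110,198,-15⟩⟩,true,89,93,.leaf [(2,375),(4,3),(11,80),(18,46)],.leaf [(0,118721),(4,358),(5,844),(10,27921)]⟩,
⟨⟨⟨-177,-90,-110⟩,⟨-90,-65,198⟩,⟨-110,198,15⟩⟩,true,89,134,.leaf [(1,31099),(3,54480),(4,288),(5,25)],.leaf [(1,31099),(3,54480),(4,288),(5,25)]⟩,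
⟨⟨⟨-111,-2,-198⟩,⟨142,-159,-78⟩,⟨-138,-162,79⟩⟩,true,90,57,.leaf [(0,157),(1,12),(3,108),(4,1)],.leaf [(0,157),(1,12),(3,108),(4,1)]⟩,
⟨⟨⟨-111,-2,198⟩,⟨142,-159,78⟩,⟨138,162,79⟩⟩,true,90,170,.leaf [(0,19295),(2,19068),(4,119),(5,120)],.leaf [(0,19295),(2,19068),(4,119),(5,120)]⟩,
⟨⟨⟨-33,142,174⟩,⟨34,177,-138⟩,⟨-222,6,-47⟩⟩,true,92,36,.leaf [(1,2724),(3,62879),(5,319),(6,136)],.leaf [(1,2724),(3,62879),(5,319),(6,136)]⟩,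
⟨⟨⟨-33,142,-174⟩,⟨34,177,138⟩,⟨222,-6,-47⟩⟩,true,92,191,.leaf [(1,39725),(3,61063),(4,319),(6,35)],.leaf [(1,39725),(3,61063),(4,319),(6,35)]⟩,
⟨⟨⟨177,-110,90⟩,⟨-110,-15,198⟩,⟨-90,-198,-65⟩⟩,true,93,89,.leaf [(3,255829),(4,588),(5,655),(18,22700)],.leaf [(1,7506),(3,4173),(10,2788),(23,1)]⟩,
⟨⟨⟨177,-110,-90⟩,⟨-110,-15,-198⟩,⟨90,198,-65⟩⟩,true,93,138,.leaf [(0,54480),(2,31099),(5,288),(6,25)],.leaf [(0,54480),(2,31099),(5,288),(6,25)]⟩,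
⟨⟨⟨79,162,-138⟩,⟨-78,159,142⟩,⟨198,-2,111⟩⟩,true,94,4,.leaf [(0,3),(1,220),(3,60),(4,1)],.leaf [(0,3),(1,220),(3,60),(4,1)]⟩,
⟨⟨⟨79,162,138⟩,⟨78,-159,142⟩,⟨198,-2,-111⟩⟩,true,94,223,.leaf [(0,162),(1,4),(2,159),(4,1)],.leaf [(0,162),(1,4),(2,159),(4,1)]⟩,
⟨⟨⟨-63,-146,-162⟩,⟨178,63,-126⟩,⟨126,-162,97⟩⟩,true,96,35,.leaf [(1,176379),(3,99653),(6,857),(14,83)],.leaf [(1,1944),(3,735),(10,560),(15,1)]⟩,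
⟨⟨⟨-63,-146,162⟩,⟨178,63,126⟩,⟨-126,162,97⟩⟩,true,96,192,.leaf [(0,218),(1,65),(2,90),(5,1)],.leaf [(0,218),(1,65),(2,90),(5,1)]⟩,
⟨⟨⟨159,78,142⟩,⟨-162,79,138⟩,⟨-2,-198,111⟩⟩,true,99,58,.leaf [(1,454),(3,5675),(5,10),(7,23)],.leaf [(1,454),(3,5675),(5,10),(7,23)]⟩,
⟨⟨⟨-159,-78,142⟩,⟨-162,79,-138⟩,⟨-2,-198,-111⟩⟩,true,99,169,.leaf [(1,5675),(3,454),(5,23),(7,10)],.leaf [(1,5675),(3,454),(5,23),(7,10)]⟩,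
⟨⟨⟨-177,6,142⟩,⟨138,-47,174⟩,⟨34,222,33⟩⟩,true,100,21,.leaf [(0,39044),(3,21111),(4,268),(5,115)],.leaf [(0,39044),(3,21111),(4,268),(5,115)]⟩,
⟨⟨⟨177,-6,142⟩,⟨138,-47,-174⟩,⟨34,222,-33⟩⟩,true,100,206,.leaf [(0,228),(1,130),(3,45),(5,1)],.leaf [(0,228),(1,130),(3,45),(5,1)]⟩,
⟨⟨⟨223,42,6⟩,⟨-6,63,-218⟩,⟨-42,214,63⟩⟩,true,103,112,.leaf [(5,405),(7,396),(11,51529),(14,40)],.leaf [(0,81),(2,874),(7,4),(10,69)]⟩,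
⟨⟨⟨223,42,-6⟩,⟨6,-63,-218⟩,⟨-42,214,-63⟩⟩,true,103,115,.leaf [(0,51529),(4,69),(5,253),(7,3)],.leaf [(0,51529),(4,69),(5,253),(7,3)]⟩,
⟨⟨⟨-15,-198,-110⟩,⟨198,-65,90⟩,⟨-110,-90,177⟩⟩,true,104,83,.leaf [(3,51529),(4,288),(5,48),(7,115)],.leaf [(3,51529),(4,288),(5,48),(7,115)]⟩,
⟨⟨⟨15,198,-110⟩,⟨198,-65,-90⟩,⟨-110,-90,-177⟩⟩,true,104,144,.leaf [(0,233),(1,20),(2,30),(4,1)],.leaf [(0,233),(1,20),(2,30),(4,1)]⟩,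
⟨⟨⟨-111,-78,-182⟩,⟨78,-209,42⟩,⟨-182,-42,129⟩⟩,true,105,18,.leaf [(0,48),(2,83),(3,224),(4,1)],.leaf [(0,48),(2,83),(3,224),(4,1)]⟩,
⟨⟨⟨111,78,-182⟩,⟨78,-209,-42⟩,⟨-182,-42,-129⟩⟩,true,105,209,.leaf [(0,197),(1,140),(2,90),(4,1)],.leaf [(0,197),(1,140),(2,90),(4,1)]⟩,
⟨⟨⟨223,30,30⟩,⟨-30,225,-2⟩,⟨-30,-2,225⟩⟩,true,106,106,.leaf [(3,306450),(4,2511),(18,91481),(23,26)],.leaf [(1,398385),(7,1395),(10,197036),(15,182)]⟩,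
⟨⟨⟨223,30,-30⟩,⟨30,-225,-2⟩,⟨-30,-2,-225⟩⟩,true,106,121,.leaf [(0,45),(1,28),(2,210),(4,1)],.leaf [(0,45),(1,28),(2,210),(4,1)]⟩,
⟨⟨⟨63,-6,-218⟩,⟨42,223,6⟩,⟨214,-42,63⟩⟩,true,108,65,.leaf [(3,51529),(4,112),(7,21),(14,64)],.leaf [(3,157311),(7,819),(10,69008),(15,32)]⟩,
⟨⟨⟨-63,6,-218⟩,⟨42,223,-6⟩,⟨214,-42,-63⟩⟩,true,108,162,.leaf [(1,51529),(4,432),(5,397),(15,120)],.leaf [(3,6129),(7,111),(10,8626),(22,2)]⟩,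
⟨⟨⟨223,6,42⟩,⟨-42,63,214⟩,⟨-6,-218,63⟩⟩,true,112,103,.leaf [(4,405),(6,396),(10,51529),(15,40)],.leaf [(1,7281252),(6,36855),(26,475111),(31,460)]⟩,
⟨⟨⟨223,6,-42⟩,⟨42,-63,214⟩,⟨-6,-218,-63⟩⟩,true,112,124,.leaf [(0,69),(1,253),(3,3),(4,1)],.leaf [(0,69),(1,253),(3,3),(4,1)]⟩,
⟨⟨⟨97,-162,126⟩,⟨-126,63,178⟩,⟨-162,-146,-63⟩⟩,true,113,13,.leaf [(3,51529),(4,27),(5,225),(6,25)],.leaf [(3,51529),(4,27),(5,225),(6,25)]⟩,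
⟨⟨⟨97,-162,-126⟩,⟨126,-63,178⟩,⟨-162,-146,63⟩⟩,true,113,214,.leaf [(3,51529),(4,216),(5,99),(6,88)],.leaf [(3,51529),(4,216),(5,99),(6,88)]⟩,
⟨⟨⟨97,162,126⟩,⟨-126,-63,178⟩,⟨162,-146,63⟩⟩,true,114,13,.leaf [(0,27),(1,52),(2,198),(4,1)],.leaf [(0,27),(1,52),(2,198),(4,1)]⟩,
⟨⟨⟨97,162,-126⟩,⟨126,63,178⟩,⟨162,-146,-63⟩⟩,true,114,214,.leaf [(1,88),(2,99),(3,216),(4,1)],.leaf [(1,88),(2,99),(3,216),(4,1)]⟩,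
⟨⟨⟨223,-6,42⟩,⟨-42,-63,214⟩,⟨6,-218,-63⟩⟩,true,115,103,.leaf [(1,51529),(4,253),(5,69),(6,3)],.leaf [(1,51529),(4,253),(5,69),(6,3)]⟩,
⟨⟨⟨223,-6,-42⟩,⟨42,63,214⟩,⟨6,-218,63⟩⟩,true,115,124,.leaf [(4,567),(6,198),(10,51529),(15,28)],.leaf [(1,3640626),(6,40905),(26,435613),(31,190)]⟩,
⟨⟨⟨63,6,-218⟩,⟨-42,223,-6⟩,⟨214,42,63⟩⟩,true,119,65,.leaf [(2,7718),(4,56),(14,65),(18,4767)],.leaf [(1,1589),(5,83),(10,4086),(14,18)]⟩,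
⟨⟨⟨-63,-6,-218⟩,⟨-42,223,6⟩,⟨214,42,-63⟩⟩,true,119,162,.leaf [(1,51529),(4,432),(5,373),(15,96)],.leaf [(1,34992),(26,1001),(30,5)]⟩,
⟨⟨⟨223,-30,30⟩,⟨-30,-225,-2⟩,⟨30,-2,-225⟩⟩,true,121,106,.leaf [(0,1589),(1,1816),(4,7),(5,8)],.leaf [(0,1589),(1,1816),(4,7),(5,8)]⟩,
⟨⟨⟨223,-30,-30⟩,⟨30,225,-2⟩,⟨30,-2,225⟩⟩,true,121,121,.leaf [(0,183870),(7,945),(18,41314),(23,13)],.leaf [(3,112365),(5,1080),(10,101696),(15,77)]⟩,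
⟨⟨⟨-111,78,-182⟩,⟨-78,-209,-42⟩,⟨-182,42,129⟩⟩,true,122,18,.leaf [(0,230),(1,140),(2,57),(4,1)],.leaf [(0,230),(1,140),(2,57),(4,1)]⟩,
⟨⟨⟨111,-78,-182⟩,⟨-78,-209,42⟩,⟨-182,42,-129⟩⟩,true,122,209,.leaf [(0,83),(1,224),(2,48),(4,1)],.leaf [(0,83),(1,224),(2,48),(4,1)]⟩,
⟨⟨⟨-15,198,-110⟩,⟨-198,-65,-90⟩,⟨-110,90,177⟩⟩,true,123,83,.leaf [(0,50),(1,20),(2,213),(4,1)],.leaf [(0,50),(1,20),(2,213),(4,1)]⟩,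
⟨⟨⟨15,-198,-110⟩,⟨-198,-65,90⟩,⟨-110,90,-177⟩⟩,true,123,144,.leaf [(1,55615),(3,10896),(4,288),(5,133)],.leaf [(1,55615),(3,10896),(4,288),(5,133)]⟩,
⟨⟨⟨223,-42,6⟩,⟨-6,-63,-218⟩,⟨42,214,-63⟩⟩,true,124,112,.leaf [(0,253),(1,69),(2,3),(5,1)],.leaf [(0,253),(1,69),(2,3),(5,1)]⟩,
⟨⟨⟨223,-42,-6⟩,⟨6,63,-218⟩,⟨42,214,63⟩⟩,true,124,115,.leaf [(5,567),(7,198),(11,51529),(14,28)],.leaf [(0,805),(2,150),(5,4),(10,69)]⟩,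
⟨⟨⟨-177,-6,142⟩,⟨-138,-47,-174⟩,⟨34,-222,33⟩⟩,true,127,21,.leaf [(1,45),(2,228),(3,130),(7,1)],.leaf [(1,45),(2,228),(3,130),(7,1)]⟩,
⟨⟨⟨177,6,142⟩,⟨-138,-47,174⟩,⟨34,-222,-33⟩⟩,true,127,206,.leaf [(1,51529),(4,312),(5,172),(7,105)],.leaf [(1,51529),(4,312),(5,172),(7,105)]⟩,
⟨⟨⟨159,-78,142⟩,⟨162,79,-138⟩,⟨-2,198,111⟩⟩,true,128,58,.leaf [(0,234),(1,31),(2,42),(5,1)],.leaf [(0,234),(1,31),(2,42),(5,1)]⟩,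
⟨⟨⟨-159,78,142⟩,⟨162,79,138⟩,⟨-2,198,-111⟩⟩,true,128,169,.leaf [(0,108),(1,253),(2,12),(5,1)],.leaf [(0,108),(1,253),(2,12),(5,1)]⟩,
⟨⟨⟨63,-146,162⟩,⟨178,-63,-126⟩,⟨126,162,97⟩⟩,true,131,35,.leaf [(0,90),(2,218),(3,65),(5,1)],.leaf [(0,90),(2,218),(3,65),(5,1)]⟩,
⟨⟨⟨63,-146,-162⟩,⟨178,-63,126⟩,⟨-126,-162,97⟩⟩,true,131,192,.leaf [(3,269676),(4,2187),(10,93070),(14,121)],.leaf [(1,772935),(4,7896),(15,2365),(23,196)]⟩,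
⟨⟨⟨79,-162,-138⟩,⟨-78,-159,142⟩,⟨-198,-2,-111⟩⟩,true,133,4,.leaf [(1,34504),(3,10215),(4,160),(5,3)],.leaf [(1,34504),(3,10215),(4,160),(5,3)]⟩,
⟨⟨⟨79,-162,138⟩,⟨78,159,142⟩,⟨-198,-2,111⟩⟩,true,133,223,.leaf [(0,1135),(3,1589),(5,7),(6,5)],.leaf [(0,1135),(3,1589),(5,7),(6,5)]⟩,
⟨⟨⟨-177,-110,-90⟩,⟨-110,15,198⟩,⟨-90,198,-65⟩⟩,true,134,89,.leaf [(1,37909),(3,47670),(4,308),(5,125)],.leaf [(1,37909),(3,47670),(4,308),(5,125)]⟩,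
⟨⟨⟨-177,-110,90⟩,⟨-110,15,-198⟩,⟨90,-198,-65⟩⟩,true,134,138,.leaf [(3,104420),(5,260),(6,249),(18,9307)],.leaf [(1,2160),(3,1536),(10,917),(14,1)]⟩,
⟨⟨⟨33,142,-174⟩,⟨34,-177,-138⟩,⟨-222,-6,-47⟩⟩,true,135,36,.leaf [(0,178),(1,36),(2,141),(4,1)],.leaf [(0,178),(1,36),(2,141),(4,1)]⟩,
⟨⟨⟨33,142,174⟩,⟨34,-177,138⟩,⟨222,6,-47⟩⟩,true,135,191,.leaf [(0,29510),(2,36093),(4,221),(5,36)],.leaf [(0,29510),(2,36093),(4,221),(5,36)]⟩,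
⟨⟨⟨111,-2,198⟩,⟨142,159,-78⟩,⟨-138,162,79⟩⟩,true,137,57,.leaf [(0,164),(1,17),(3,102),(5,1)],.leaf [(0,164),(1,17),(3,102),(5,1)]⟩,
⟨⟨⟨111,-2,-198⟩,⟨142,159,78⟩,⟨138,-162,79⟩⟩,true,137,170,.leaf [(1,49259),(3,13393),(4,157),(6,161)],.leaf [(1,49259),(3,13393),(4,157),(6,161)]⟩,
⟨⟨⟨177,-90,-110⟩,⟨90,-65,198⟩,⟨-110,-198,-15⟩⟩,true,138,93,.leaf [(1,54480),(3,31099),(4,288),(7,25)],.leaf [(1,54480),(3,31099),(4,288),(7,25)]⟩,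
⟨⟨⟨-177,90,-110⟩,⟨90,-65,-198⟩,⟨-110,-198,15⟩⟩,true,138,134,.leaf [(2,657),(7,6),(11,134),(18,109)],.leaf [(2,41314),(4,151),(7,252),(10,9307)]⟩,
⟨⟨⟨-47,-138,-174⟩,⟨-6,-177,142⟩,⟨-222,34,33⟩⟩,true,143,52,.leaf [(0,39),(1,157),(3,159),(4,1)],.leaf [(0,39),(1,157),(3,159),(4,1)]⟩,
⟨⟨⟨-47,-138,174⟩,⟨6,177,142⟩,⟨-222,34,-33⟩⟩,true,143,175,.leaf [(0,70),(2,102),(3,207),(5,1)],.leaf [(0,70),(2,102),(3,207),(5,1)]⟩,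
⟨⟨⟨15,-110,198⟩,⟨-110,-177,-90⟩,⟨198,-90,-65⟩⟩,true,144,104,.leaf [(0,20),(1,233),(3,30),(5,1)],.leaf [(0,20),(1,233),(3,30),(5,1)]⟩,
⟨⟨⟨15,-110,-198⟩,⟨-110,-177,90⟩,⟨-198,90,-65⟩⟩,true,144,123,.leaf [(0,67),(1,240),(3,48),(4,1)],.leaf [(0,67),(1,240),(3,48),(4,1)]⟩,
⟨⟨⟨-47,222,6⟩,⟨174,33,142⟩,⟨138,34,-177⟩⟩,true,145,53,.leaf [(0,189),(1,52),(3,84),(4,1)],.leaf [(0,189),(1,52),(3,84),(4,1)]⟩,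
⟨⟨⟨-47,222,-6⟩,⟨-174,-33,142⟩,⟨138,34,177⟩⟩,true,145,174,.leaf [(1,10),(2,255),(3,138),(4,1)],.leaf [(1,10),(2,255),(3,138),(4,1)]⟩,
⟨⟨⟨111,-138,142⟩,⟨198,79,-78⟩,⟨-2,162,159⟩⟩,true,146,34,.leaf [(0,62879),(2,27013),(5,301),(7,17)],.leaf [(0,62879),(2,27013),(5,301),(7,17)]⟩,
⟨⟨⟨-111,138,142⟩,⟨198,79,78⟩,⟨-2,162,-159⟩⟩,true,146,193,.leaf [(0,16571),(3,33369),(4,217),(5,157)],.leaf [(0,16571),(3,33369),(4,217),(5,157)]⟩,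
⟨⟨⟨-209,-78,42⟩,⟨-78,111,-182⟩,⟨42,-182,-129⟩⟩,true,147,78,.leaf [(1,691),(3,580),(5,5),(18,104)],.leaf [(1,1269),(3,990),(10,340),(15,1)]⟩,
⟨⟨⟨-209,-78,-42⟩,⟨78,-111,-182⟩,⟨42,-182,129⟩⟩,true,147,149,.leaf [(0,51529),(4,104),(6,29),(14,56)],.leaf [(2,16571),(4,27),(6,125),(10,7945)]⟩,
⟨⟨⟨-209,-42,78⟩,⟨-42,-129,-182⟩,⟨78,-182,111⟩⟩,true,149,80,.leaf [(4,4914),(6,4479),(15,2212),(18,51529)],.leaf [(1,264),(2,79),(6,1),(10,92)]⟩,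
⟨⟨⟨-209,-42,-78⟩,⟨42,129,-182⟩,⟨78,-182,-111⟩⟩,true,149,147,.leaf [(1,51529),(5,104),(7,29),(15,56)],.leaf [(1,837),(3,843),(10,557),(14,1)]⟩,
⟨⟨⟨63,42,214⟩,⟨-6,223,-42⟩,⟨-218,6,63⟩⟩,true,152,7,.leaf [(1,13847),(5,11),(7,162),(10,8172)],.leaf [(1,51529),(5,25),(7,162),(14,36)]⟩,
⟨⟨⟨-63,-42,214⟩,⟨-6,223,42⟩,⟨-218,6,-63⟩⟩,true,152,220,.leaf [(0,48),(1,85),(3,192),(5,1)],.leaf [(0,48),(1,85),(3,192),(5,1)]⟩,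
⟨⟨⟨-33,106,-198⟩,⟨-218,33,54⟩,⟨54,198,97⟩⟩,true,155,6,.leaf [(0,70),(1,252),(2,3),(4,1)],.leaf [(0,70),(1,252),(2,3),(4,1)]⟩,
⟨⟨⟨-33,106,198⟩,⟨-218,33,-54⟩,⟨-54,-198,97⟩⟩,true,155,221,.L (.leaf [(5,15579),(7,7545),(14,4145),(26,51529)]) (.leaf [(0,1135),(1,227),(4,5),(5,1)]) (.leaf [(0,16571),(3,47670),(4,213),(5,98)]),.leaf [(0,13847),(4,56),(6,129),(10,8172)]⟩,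
⟨⟨⟨-63,-218,6⟩,⟨214,-63,-42⟩,⟨42,-6,223⟩⟩,true,162,108,.leaf [(0,51529),(4,397),(5,432),(14,120)],.leaf [(1,3),(2,157),(5,1),(10,55)]⟩,
⟨⟨⟨-63,-218,-6⟩,⟨214,-63,42⟩,⟨-42,6,223⟩⟩,true,162,119,.leaf [(0,51529),(4,373),(5,432),(14,96)],.leaf [(0,37001),(4,245),(5,432),(10,21792)]⟩,
⟨⟨⟨129,-182,42⟩,⟨-182,-111,78⟩,⟨-42,-78,-209⟩⟩,true,164,32,.leaf [(1,20884),(3,681),(4,104),(5,71)],.leaf [(1,20884),(3,681),(4,104),(5,71)]⟩,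
⟨⟨⟨129,-182,-42⟩,⟨-182,-111,-78⟩,⟨42,78,-209⟩⟩,true,164,195,.leaf [(0,257),(1,167),(2,3),(5,1)],.leaf [(0,257),(1,167),(2,3),(5,1)]⟩,
⟨⟨⟨-159,142,-78⟩,⟨-2,-111,-198⟩,⟨-162,-138,79⟩⟩,true,169,99,.leaf [(0,5675),(2,454),(4,23),(6,10)],.leaf [(0,5675),(2,454),(4,23),(6,10)]⟩,
⟨⟨⟨-159,142,78⟩,⟨-2,-111,198⟩,⟨162,138,79⟩⟩,true,169,128,.leaf [(0,253),(1,108),(3,12),(4,1)],.leaf [(0,253),(1,108),(3,12),(4,1)]⟩,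
⟨⟨⟨-111,198,-2⟩,⟨138,79,162⟩,⟨142,78,-159⟩⟩,true,170,90,.leaf [(0,119),(1,17),(3,147),(4,1)],.leaf [(0,119),(1,17),(3,147),(4,1)]⟩,
⟨⟨⟨111,-198,-2⟩,⟨138,79,-162⟩,⟨142,78,159⟩⟩,true,170,137,.leaf [(0,49259),(2,13393),(5,157),(7,161)],.leaf [(0,49259),(2,13393),(5,157),(7,161)]⟩,
⟨⟨⟨33,34,222⟩,⟨142,-177,6⟩,⟨174,138,-47⟩⟩,true,173,48,.leaf [(0,39044),(2,40179),(4,269),(5,216)],.leaf [(0,39044),(2,40179),(4,269),(5,216)]⟩,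
⟨⟨⟨33,34,-222⟩,⟨142,-177,-6⟩,⟨-174,-138,-47⟩⟩,true,173,179,.leaf [(0,211),(1,159),(3,57),(4,1)],.leaf [(0,211),(1,159),(3,57),(4,1)]⟩,
⟨⟨⟨-47,-6,-222⟩,⟨-138,-177,34⟩,⟨-174,142,33⟩⟩,true,174,82,.leaf [(0,168),(1,256),(2,3),(4,1)],.leaf [(0,168),(1,256),(2,3),(4,1)]⟩,
⟨⟨⟨-47,-6,222⟩,⟨138,177,34⟩,⟨-174,142,-33⟩⟩,true,174,145,.leaf [(0,10),(2,138),(3,255),(5,1)],.leaf [(0,10),(2,138),(3,255),(5,1)]⟩,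
⟨⟨⟨-47,174,138⟩,⟨222,33,34⟩,⟨6,142,-177⟩⟩,true,175,84,.leaf [(0,4994),(3,4767),(4,42),(5,29)],.leaf [(0,4994),(3,4767),(4,42),(5,29)]⟩,
⟨⟨⟨-47,174,-138⟩,⟨-222,-33,34⟩,⟨6,142,177⟩⟩,true,175,143,.leaf [(1,70),(2,207),(3,102),(4,1)],.leaf [(1,70),(2,207),(3,102),(4,1)]⟩,
⟨⟨⟨-65,-90,-198⟩,⟨90,177,-110⟩,⟨198,-110,-15⟩⟩,true,176,24,.leaf [(3,855),(7,3),(10,55),(18,109)],.leaf [(1,29160),(10,6660),(26,503),(30,1)]⟩,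
⟨⟨⟨-65,-90,198⟩,⟨-90,-177,-110⟩,⟨198,-110,15⟩⟩,true,176,203,.leaf [(1,454),(2,227),(5,2),(6,1)],.leaf [(1,454),(2,227),(5,2),(6,1)]⟩,
⟨⟨⟨-33,222,34⟩,⟨-174,-47,138⟩,⟨142,-6,177⟩⟩,true,179,54,.leaf [(0,12),(2,257),(3,104),(4,1)],.leaf [(0,12),(2,257),(3,104),(4,1)]⟩,
⟨⟨⟨33,-222,34⟩,⟨-174,-47,-138⟩,⟨142,-6,-177⟩⟩,true,179,173,.leaf [(0,159),(1,211),(2,57),(5,1)],.leaf [(0,159),(1,211),(2,57),(5,1)]⟩,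
⟨⟨⟨33,-218,-54⟩,⟨106,-33,198⟩,⟨-198,-54,97⟩⟩,true,186,19,.L (.L (.leaf [(4,9720),(6,8613),(31,560),(34,51529)]) (.leaf [(0,465),(1,55),(4,1),(11,159)]) (.L (.leaf [(0,207),(1,67),(2,105),(5,1)]) (.leaf [(0,278),(1,188),(2,93),(4,1)]) (.leaf [(0,185),(1,278),(3,90),(4,1)]))) (.leaf [(0,98),(1,308),(2,123),(4,1)]) (.leaf [(0,288),(1,115),(3,240),(5,1)]),.leaf [(0,219),(3,134),(5,2),(10,109)]⟩,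
⟨⟨⟨33,-218,54⟩,⟨106,-33,-198⟩,⟨198,54,97⟩⟩,true,186,208,.leaf [(2,51529),(5,253),(6,69),(15,1)],.leaf [(2,43130),(5,212),(6,57),(10,227)]⟩,
⟨⟨⟨97,-54,-198⟩,⟨198,-33,106⟩,⟨-54,-218,33⟩⟩,true,189,12,.leaf [(1,1589),(3,6583),(4,29),(6,7)],.leaf [(1,1589),(3,6583),(4,29),(6,7)]⟩,
⟨⟨⟨97,-54,198⟩,⟨-198,33,106⟩,⟨-54,-218,-33⟩⟩,true,189,215,.leaf [(1,6583),(3,1589),(4,7),(6,29)],.leaf [(1,6583),(3,1589),(4,7),(6,29)]⟩,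
⟨⟨⟨177,34,-138⟩,⟨142,-33,174⟩,⟨6,-222,-47⟩⟩,true,190,30,.leaf [(0,67),(1,207),(3,105),(4,1)],.leaf [(0,67),(1,207),(3,105),(4,1)]⟩,
⟨⟨⟨177,34,138⟩,⟨142,-33,-174⟩,⟨-6,222,-47⟩⟩,true,190,197,.leaf [(0,188),(1,95),(3,90),(5,1)],.leaf [(0,188),(1,95),(3,90),(5,1)]⟩,
⟨⟨⟨-33,-174,142⟩,⟨222,-47,-6⟩,⟨34,138,177⟩⟩,true,191,92,.leaf [(0,39725),(2,61063),(5,319),(7,35)],.leaf [(0,39725),(2,61063),(5,319),(7,35)]⟩,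
⟨⟨⟨33,174,142⟩,⟨222,-47,6⟩,⟨34,138,-177⟩⟩,true,191,135,.leaf [(0,62879),(2,2724),(4,319),(5,136)],.leaf [(0,62879),(2,2724),(4,319),(5,136)]⟩,
⟨⟨⟨-63,162,-146⟩,⟨-126,97,162⟩,⟨178,126,63⟩⟩,true,192,96,.leaf [(0,65),(1,218),(3,90),(4,1)],.leaf [(0,65),(1,218),(3,90),(4,1)]⟩,
⟨⟨⟨63,-162,-146⟩,⟨-126,97,-162⟩,⟨178,126,-63⟩⟩,true,192,131,.leaf [(2,269676),(5,2187),(11,93070),(15,121)],.leaf [(0,263),(2,806),(5,4),(10,83)]⟩,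
⟨⟨⟨-111,142,-138⟩,⟨-2,-159,-162⟩,⟨-198,-78,79⟩⟩,true,193,81,.leaf [(0,5221),(2,2270),(4,25),(6,2)],.leaf [(0,5221),(2,2270),(4,25),(6,2)]⟩,
⟨⟨⟨-111,142,138⟩,⟨-2,-159,162⟩,⟨198,78,79⟩⟩,true,193,146,.leaf [(0,217),(1,24),(2,84),(4,1)],.leaf [(0,217),(1,24),(2,84),(4,1)]⟩,
⟨⟨⟨-129,42,-182⟩,⟨42,-209,-78⟩,⟨-182,-78,111⟩⟩,true,195,63,.leaf [(0,251),(1,92),(3,12),(4,1)],.leaf [(0,251),(1,92),(3,12),(4,1)]⟩,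
⟨⟨⟨129,-42,-182⟩,⟨42,-209,78⟩,⟨-182,-78,-111⟩⟩,true,195,164,.leaf [(0,167),(1,257),(3,3),(4,1)],.leaf [(0,167),(1,257),(3,3),(4,1)]⟩,
⟨⟨⟨-159,162,-2⟩,⟨78,79,198⟩,⟨142,138,-111⟩⟩,true,196,20,.leaf [(0,83),(1,23),(3,177),(4,1)],.leaf [(0,83),(1,23),(3,177),(4,1)]⟩,
⟨⟨⟨159,-162,-2⟩,⟨78,79,-198⟩,⟨142,138,111⟩⟩,true,196,207,.leaf [(0,206116),(5,635),(7,650),(15,1)],.leaf [(0,179557),(5,554),(7,566),(10,227)]⟩,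
⟨⟨⟨-177,-138,34⟩,⟨-6,-47,-222⟩,⟨142,-174,33⟩⟩,true,197,37,.leaf [(1,12031),(2,49032),(5,172),(7,177)],.leaf [(1,12031),(2,49032),(5,172),(7,177)]⟩,
⟨⟨⟨177,138,34⟩,⟨-6,-47,222⟩,⟨142,-174,-33⟩⟩,true,197,190,.leaf [(0,95),(1,188),(2,90),(4,1)],.leaf [(0,95),(1,188),(2,90),(4,1)]⟩,
⟨⟨⟨63,178,126⟩,⟨-146,-63,162⟩,⟨162,-126,97⟩⟩,true,201,2,.leaf [(1,2),(2,241),(3,34),(4,1)],.leaf [(1,2),(2,241),(3,34),(4,1)]⟩,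
⟨⟨⟨63,178,-126⟩,⟨-146,-63,-162⟩,⟨-162,126,97⟩⟩,true,201,225,.leaf [(0,227),(2,1816),(4,8),(6,1)],.leaf [(0,227),(2,1816),(4,8),(6,1)]⟩,
⟨⟨⟨-65,198,90⟩,⟨-198,-15,-110⟩,⟨-90,-110,177⟩⟩,true,203,51,.leaf [(4,999),(6,906),(11,60836),(18,39271)],.leaf [(1,40),(2,153),(4,1),(10,60)]⟩,
⟨⟨⟨-65,198,-90⟩,⟨198,15,-110⟩,⟨-90,-110,-177⟩⟩,true,203,176,.leaf [(0,454),(3,227),(4,2),(7,1)],.leaf [(0,454),(3,227),(4,2),(7,1)]⟩,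
⟨⟨⟨79,78,198⟩,⟨162,-159,-2⟩,⟨138,142,-111⟩⟩,true,205,14,.leaf [(2,13166),(3,12485),(4,38),(5,65)],.leaf [(2,13166),(3,12485),(4,38),(5,65)]⟩,
⟨⟨⟨79,78,-198⟩,⟨-162,159,-2⟩,⟨138,142,111⟩⟩,true,205,213,.leaf [(1,1589),(2,1135),(4,5),(7,7)],.leaf [(1,1589),(2,1135),(4,5),(7,7)]⟩,
⟨⟨⟨177,142,-6⟩,⟨34,-33,222⟩,⟨138,-174,-47⟩⟩,true,206,100,.leaf [(0,130),(1,228),(2,45),(4,1)],.leaf [(0,130),(1,228),(2,45),(4,1)]⟩,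
⟨⟨⟨177,142,6⟩,⟨34,-33,-222⟩,⟨-138,174,-47⟩⟩,true,206,127,.leaf [(0,51529),(4,172),(5,312),(6,105)],.leaf [(0,51529),(4,172),(5,312),(6,105)]⟩,
⟨⟨⟨159,-2,162⟩,⟨142,111,-138⟩,⟨-78,198,79⟩⟩,true,207,31,.leaf [(0,200),(1,23),(3,60),(5,1)],.leaf [(0,200),(1,23),(3,60),(5,1)]⟩,
⟨⟨⟨159,-2,-162⟩,⟨142,111,138⟩,⟨78,-198,79⟩⟩,true,207,196,.leaf [(1,206116),(4,635),(6,650),(14,1)],.leaf [(1,9080),(4,25),(6,28),(10,227)]⟩,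
⟨⟨⟨-33,-54,-218⟩,⟨198,97,-54⟩,⟨106,-198,33⟩⟩,true,208,41,.R (.leaf [(0,108),(3,117),(18,20),(27,1)]) (.leaf [(0,189),(3,144),(18,32),(26,1)]) (.leaf [(0,37557),(3,35037),(18,6961),(31,1)]),.leaf [(3,39271),(4,167),(7,137),(10,9307)]⟩,
⟨⟨⟨33,54,-218⟩,⟨198,97,54⟩,⟨106,-198,-33⟩⟩,true,208,186,.leaf [(3,51529),(4,253),(7,69),(14,1)],.leaf [(3,11350),(4,55),(7,18),(10,227)]⟩,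
⟨⟨⟨111,-182,78⟩,⟨-182,-129,-42⟩,⟨78,-42,-209⟩⟩,true,209,105,.leaf [(0,227),(1,454),(4,1),(5,2)],.leaf [(0,227),(1,454),(4,1),(5,2)]⟩,
⟨⟨⟨111,-182,-78⟩,⟨-182,-129,42⟩,⟨-78,42,-209⟩⟩,true,209,122,.leaf [(1,47443),(2,10896),(4,272),(5,113)],.leaf [(1,47443),(2,10896),(4,272),(5,113)]⟩,
⟨⟨⟨225,30,-2⟩,⟨-30,223,-30⟩,⟨-2,30,225⟩⟩,true,212,1,.leaf [(3,1362),(7,6),(10,227),(14,1)],.leaf [(1,2457),(3,1458),(10,892),(15,1)]⟩,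
⟨⟨⟨-225,-30,-2⟩,⟨-30,223,30⟩,⟨-2,30,-225⟩⟩,true,212,226,.leaf [(0,30),(1,223),(2,30),(5,1)],.leaf [(0,30),(1,223),(2,30),(5,1)]⟩,
⟨⟨⟨79,-198,-78⟩,⟨-138,-111,142⟩,⟨-162,-2,-159⟩⟩,true,213,22,.leaf [(1,35866),(3,14301),(4,196),(5,87)],.leaf [(1,35866),(3,14301),(4,196),(5,87)]⟩,
⟨⟨⟨79,-198,78⟩,⟨138,111,142⟩,⟨-162,-2,159⟩⟩,true,213,205,.leaf [(0,1589),(3,1135),(5,5),(6,7)],.leaf [(0,1589),(3,1135),(5,5),(6,7)]⟩,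
⟨⟨⟨97,-126,-162⟩,⟨-162,63,-146⟩,⟨126,178,-63⟩⟩,true,214,113,.leaf [(2,51529),(4,99),(5,216),(7,88)],.leaf [(2,51529),(4,99),(5,216),(7,88)]⟩,
⟨⟨⟨97,-126,162⟩,⟨162,-63,-146⟩,⟨126,178,63⟩⟩,true,214,114,.leaf [(0,88),(2,216),(3,99),(5,1)],.leaf [(0,88),(2,216),(3,99),(5,1)]⟩,
⟨⟨⟨97,198,54⟩,⟨54,33,-218⟩,⟨-198,106,-33⟩⟩,true,215,38,.leaf [(0,51529),(4,21),(5,112),(7,192)],.leaf [(0,51529),(4,21),(5,112),(7,192)]⟩,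
⟨⟨⟨97,198,-54⟩,⟨-54,-33,-218⟩,⟨-198,106,33⟩⟩,true,215,189,.leaf [(0,6583),(2,1589),(5,7),(7,29)],.leaf [(0,6583),(2,1589),(5,7),(7,29)]⟩,
⟨⟨⟨-63,214,42⟩,⟨-218,-63,-6⟩,⟨6,-42,223⟩⟩,true,220,75,.leaf [(2,11123),(4,126),(6,59),(11,8172)],.leaf [(0,49),(2,216),(4,1),(10,12)]⟩,
⟨⟨⟨-63,214,-42⟩,⟨-218,-63,6⟩,⟨-6,42,223⟩⟩,true,220,152,.leaf [(0,85),(1,48),(2,192),(4,1)],.leaf [(0,85),(1,48),(2,192),(4,1)]⟩,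
⟨⟨⟨33,-198,106⟩,⟨-54,97,198⟩,⟨-218,-54,-33⟩⟩,true,221,72,.leaf [(0,144),(1,16),(3,123),(5,1)],.leaf [(0,144),(1,16),(3,123),(5,1)]⟩,
⟨⟨⟨-33,198,106⟩,⟨-54,97,-198⟩,⟨-218,-54,33⟩⟩,true,221,155,.leaf [(3,9),(7,3),(10,157),(18,55)],.leaf [(1,73548),(4,486),(10,54707),(14,11)]⟩,
⟨⟨⟨79,138,162⟩,⟨198,-111,-2⟩,⟨78,142,-159⟩⟩,true,223,94,.leaf [(2,20203),(3,29737),(4,79),(5,133)],.leaf [(2,20203),(3,29737),(4,79),(5,133)]⟩,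
⟨⟨⟨79,138,-162⟩,⟨-198,111,-2⟩,⟨78,142,159⟩⟩,true,223,133,.leaf [(1,1135),(2,1589),(4,7),(7,5)],.leaf [(1,1135),(2,1589),(4,7),(7,5)]⟩,
⟨⟨⟨-63,126,178⟩,⟨-162,97,-126⟩,⟨-146,-162,63⟩⟩,true,225,26,.leaf [(0,34),(1,241),(2,2),(7,1)],.leaf [(0,34),(1,241),(2,2),(7,1)]⟩,
⟨⟨⟨63,-126,178⟩,⟨-162,97,126⟩,⟨-146,-162,-63⟩⟩,true,225,201,.leaf [(1,227),(3,1816),(5,8),(7,1)],.leaf [(1,227),(3,1816),(5,8),(7,1)]⟩,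
⟨⟨⟨-225,-2,30⟩,⟨-2,-225,-30⟩,⟨30,-30,223⟩⟩,true,226,15,.leaf [(0,51529),(4,238),(14,15)],.leaf [(0,208),(4,1),(10,15)]⟩,
⟨⟨⟨-225,-2,-30⟩,⟨-2,-225,30⟩,⟨-30,30,223⟩⟩,true,226,212,.leaf [(0,223),(1,30),(3,30),(4,1)],.leaf [(0,223),(1,30),(3,30),(4,1)]⟩]

theorem primeOk_227 : PrimeOk 227 := primeOk (by norm_num) (by norm_num) (by norm_num) L227
  (by decide +kernel) (by decide +kernel)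

end Pool.Agent.Lib.H63.TSP
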