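import Mathlib
import Pool.Agent.Lib.H63.TSPRun

/-!
# `Pat (6n+1)` holds for every non-representable `n`
-/

set_option autoImplicit false

namespace Pool.Agent.Lib.H63.TSP

lemma exists_prim {r : ℕ} (hr : r.Prime) (h2 : r ≠ 2) : ∃ x y z : ℤ, x ^ 2 + y ^ 2 + z ^ 2 = 2 * r ^ 2 ∧
    ¬((r : ℤ) ∣ x ∧ (r : ℤ) ∣ y ∧ (r : ℤ) ∣ z) := by
  obtain ⟨a', b', c', d', h⟩ := Nat.sum_four_squares r
  obtain ⟨a, ha⟩ : ∃ a : ℤ, a = a' := ⟨_, rfl⟩
  obtain ⟨b, hb⟩ : ∃ b : ℤ, b = b' := ⟨_, rfl⟩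
  obtain ⟨c, hc⟩ : ∃ c : ℤ, c = c' := ⟨_, rfl⟩
  obtain ⟨d, hd⟩ : ∃ d : ℤ, d = d' := ⟨_, rfl⟩
  have hn : a ^ 2 + b ^ 2 + c ^ 2 + d ^ 2 = (r : ℤ) := by
    rw [ha, hb, hc, hd]; exact_mod_cast h
  by_contra hcon
  push Not at hcon
  have hrp : Prime (r : ℤ) := Nat.prime_iff_prime_int.1 hr
  have hodd : ¬ (r : ℤ) ∣ 2 := by
    intro h3
    have h4 : r ∣ 2 := by exact_mod_cast h3
    exact h2 ((Nat.prime_dvd_prime_iff_eq hr Nat.prime_two).1 h4)
  have half : ∀ u v : ℤ, (r : ℤ) ∣ u + v → (r : ℤ) ∣ u - v → (r : ℤ) ∣ u ∧ (r : ℤ) ∣ v := by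
    intro u v h3 h4
    have h5 : (r : ℤ) ∣ 2 * u := by
      have := dvd_add h3 h4; rwa [show u + v + (u - v) = 2 * u by ring] at this
    have h6 : (r : ℤ) ∣ 2 * v := by
      have := dvd_sub h3 h4; rwa [show u + v - (u - v) = 2 * v by ring] at this
    exact ⟨(hrp.dvd_or_dvd h5).resolve_left hodd, (hrp.dvd_or_dvd h6).resolve_left hodd⟩
  have p12 := hcon ((a^2+b^2-c^2-d^2) + 2*(b*c+a*d)) (2*(b*c-a*d) + (a^2-b^2+c^2-d^2))
    (2*(b*d+a*c) + 2*(c*d-a*b)) (by rw [← hn]; ring)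
  have m12 := hcon ((a^2+b^2-c^2-d^2) - 2*(b*c+a*d)) (2*(b*c-a*d) - (a^2-b^2+c^2-d^2))
    (2*(b*d+a*c) - 2*(c*d-a*b)) (by rw [← hn]; ring)
  have p13 := hcon ((a^2+b^2-c^2-d^2) + 2*(b*d-a*c)) (2*(b*c-a*d) + 2*(c*d+a*b))
    (2*(b*d+a*c) + (a^2-b^2-c^2+d^2)) (by rw [← hn]; ring)
  have m13 := hcon ((a^2+b^2-c^2-d^2) - 2*(b*d-a*c)) (2*(b*c-a*d) - 2*(c*d+a*b))
    (2*(b*d+a*c) - (a^2-b^2-c^2+d^2)) (by rw [← hn]; ring)
  have d1 := (half _ _ p12.1 m12.1).1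
  have d2 := (half _ _ p12.2.1 m12.2.1).2
  have d3 := (half _ _ p13.2.2 m13.2.2).2
  have four : ∀ t : ℤ, (r : ℤ) ∣ 4 * t ^ 2 → (r : ℤ) ∣ t := by
    intro t ht
    rw [show 4 * t ^ 2 = 2 * (2 * t ^ 2) by ring] at ht
    exact hrp.dvd_of_dvd_pow (((hrp.dvd_or_dvd ((hrp.dvd_or_dvd ht).resolve_left hodd))).resolve_left
      hodd)
  have hr' : (r : ℤ) ∣ r := dvd_refl _
  have ea : (r : ℤ) ∣ a := four a (by
    have := dvd_add (dvd_add (dvd_add d1 d2) d3) hr'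
    rw [show (a^2+b^2-c^2-d^2) + (a^2-b^2+c^2-d^2) + (a^2-b^2-c^2+d^2) + (r : ℤ) = 4 * a ^ 2 by
      rw [← hn]; ring] at this
    exact this)
  have eb : (r : ℤ) ∣ b := four b (by
    have := dvd_add (dvd_sub (dvd_sub d1 d2) d3) hr'
    rw [show (a^2+b^2-c^2-d^2) - (a^2-b^2+c^2-d^2) - (a^2-b^2-c^2+d^2) + (r : ℤ) = 4 * b ^ 2 by
      rw [← hn]; ring] at this
    exact this)
  have ec : (r : ℤ) ∣ c := four c (by
    have := dvd_add (dvd_sub (dvd_sub d2 d1) d3) hr'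
    rw [show (a^2-b^2+c^2-d^2) - (a^2+b^2-c^2-d^2) - (a^2-b^2-c^2+d^2) + (r : ℤ) = 4 * c ^ 2 by
      rw [← hn]; ring] at this
    exact this)
  have ed : (r : ℤ) ∣ d := four d (by
    have := dvd_add (dvd_sub (dvd_sub d3 d1) d2) hr'
    rw [show (a^2-b^2-c^2+d^2) - (a^2+b^2-c^2-d^2) - (a^2-b^2+c^2-d^2) + (r : ℤ) = 4 * d ^ 2 by
      rw [← hn]; ring] at this
    exact this)
  obtain ⟨a1, ha1⟩ := ea
  obtain ⟨b1, hb1⟩ := eb
  obtain ⟨c1, hc1⟩ := ec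
  obtain ⟨d1', hd1⟩ := ed
  have h7 : (r : ℤ) * (r * (a1 ^ 2 + b1 ^ 2 + c1 ^ 2 + d1' ^ 2)) = r * 1 := by
    rw [ha1, hb1, hc1, hd1] at hn
    linear_combination hn
  have hr0 : (r : ℤ) ≠ 0 := hrp.ne_zero
  have h8 := mul_left_cancel₀ hr0 h7
  exact hrp.not_isUnit (isUnit_of_dvd_one ⟨_, h8.symm⟩)

lemma exists_prim_even {r : ℕ} (hr : r.Prime) (h2 : r ≠ 2) : ∃ x y z : ℤ, x % 2 = 0 ∧
    x ^ 2 + y ^ 2 + z ^ 2 = 2 * r ^ 2 ∧ ¬((r : ℤ) ∣ x ∧ (r : ℤ) ∣ y ∧ (r : ℤ) ∣ z) := by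
  obtain ⟨x, y, z, h, h1⟩ := exists_prim hr h2
  rcases exists_even (m := (r : ℤ) ^ 2) h with h3 | h3 | h3
  · exact ⟨x, y, z, h3, h, h1⟩
  · exact ⟨y, x, z, h3, by linarith, fun h4 => h1 ⟨h4.2.1, h4.1, h4.2.2⟩⟩
  · exact ⟨z, y, x, h3, by linarith, fun h4 => h1 ⟨h4.2.2, h4.2.1, h4.1⟩⟩

lemma rep_zero : Rep 0 := ⟨0, 0, 0, rfl⟩

/-- the case of squares -/
lemma pat_of_square {n : ℕ} (hb : Bad (6 * n + 1)) {c : ℕ} (hc : ((c : ℤ)) ^ 2 = 6 * n + 1)
    (hn : n ≠ 0) : Pat (6 * n + 1) := by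
  by_contra hpat
  have hm3 : (6 * (n : ℤ) + 1) % 3 = 1 := by omega
  have hm2 : (6 * (n : ℤ) + 1) % 2 = 1 := by omega
  have tri := fun (v : V) (hv : X (6 * n + 1) v) => trichotomy hm3 hm2 hb hpat hv
  have hc6 : c % 6 = 1 ∨ c % 6 = 5 := by
    have h6 : ((c : ℤ) * c) % 6 = 1 := by rw [← pow_two, hc]; omega
    have h7 : (c * c) % 6 = 1 := by exact_mod_cast h6
    have hlt : c % 6 < 6 := Nat.mod_lt _ (by norm_num)
    rw [Nat.mul_mod] at h7
    interval_cases hcc : c % 6 <;> simp_all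
  rcases hc6 with hc6 | hc6
  swap
  · -- c = 5 mod 6
    have hX : X (6 * n + 1) ⟨0, -c, c⟩ := by
      refine ⟨?_, ?_, ?_, ?_⟩ <;> simp only
      · rw [← hc]; ring
      · norm_num
      · omega
      · omega
    have := (hb _ hX).1
    simp only at this
    omega
  have hc1 : 1 < c := by
    rcases Nat.lt_or_ge 1 c with h | h
    · exact h
    · exfalso
      have : c = 1 := by omega
      subst this
      apply hn
      have : (6 * (n : ℤ) + 1) = 1 := by rw [← hc]; norm_num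
      omega
  by_cases h25 : 25 ∣ c
  · obtain ⟨d, rfl⟩ := h25
    have hd : d % 6 = 1 := by omega
    have hX : X (6 * n + 1) ⟨d * (-32), d * (-1), d * (-15)⟩ := by
      refine ⟨?_, ?_, ?_, ?_⟩ <;> simp only
      · rw [← hc]; push_cast; ring
      · omega
      · omega
      · omega
    have := (hb _ hX).2
    simp only at this
    omega
  · -- a prime factor r ≥ 7 of c
    obtain ⟨r, hr, hrc, hr5⟩ : ∃ r : ℕ, r.Prime ∧ r ∣ c ∧ r ≠ 5 := by
      by_cases h5 : 5 ∣ c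
      · obtain ⟨d, rfl⟩ := h5
        have hd1 : d ≠ 1 := by rintro rfl; omega
        refine ⟨d.minFac, Nat.minFac_prime hd1, (Nat.minFac_dvd d).mul_left 5, ?_⟩
        intro h
        apply h25
        have : 5 ∣ d := h ▸ Nat.minFac_dvd d
        exact Nat.mul_dvd_mul_left 5 this
      · refine ⟨c.minFac, Nat.minFac_prime (by omega), Nat.minFac_dvd c, ?_⟩
        intro h
        exact h5 (h ▸ Nat.minFac_dvd c)
    have hr2 : r ≠ 2 := by rintro rfl; omega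
    have hrp : Prime (r : ℤ) := Nat.prime_iff_prime_int.1 hr
    have hr0 : (r : ℤ) ≠ 0 := hrp.ne_zero
    obtain ⟨c', rfl⟩ := hrc
    have hc'0 : (c' : ℤ) ≠ 0 := by
      intro h
      have h' : c' = 0 := by exact_mod_cast h
      rw [h'] at hc1
      omega
    push_cast at hc
    obtain ⟨x, y, z, hx, hsum, hnd⟩ := exists_prim_even hr hr2
    obtain ⟨v, hv, he, hp, hq⟩ := X_of_sum (m := 6 * n + 1) (x := c' * x) (y := c' * y)
      (z := c' * z) (by omega) (by rw [Int.mul_emod, hx]; simp) (by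
        rw [← hc]; linear_combination (c' : ℤ) ^ 2 * hsum)
    -- transfer divisibility through squares
    have tr : ∀ t s : ℤ, s ^ 2 = (c' * t) ^ 2 → ∀ k : ℤ, k ∣ s → k ∣ c' * t := by
      intro t s hs k hk
      rcases sq_eq_sq_iff_eq_or_eq_neg.1 hs with h | h
      · rw [← h]; exact hk
      · rw [show (c' : ℤ) * t = -s by rw [h]; ring]; exact (dvd_neg).2 hk
    rcases tri v hv with ⟨h1, h2⟩ | ⟨k, hk, k1, k2, k3⟩
    · -- axis
      rw [h1] at he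
      have hx0 : x = 0 := by
        have h3 : (c' * x) ^ 2 = 0 := by rw [← he]; norm_num
        have h4 := pow_eq_zero_iff (two_ne_zero) |>.1 h3
        exact (mul_eq_zero.1 h4).resolve_left hc'0
      have h5 : y ^ 2 = z ^ 2 := by
        have h3 : v.p ^ 2 = v.q ^ 2 := by
          have : v.p = - v.q := by linarith
          rw [this]; ring
        have h4 : (c' : ℤ) ^ 2 * y ^ 2 = (c' : ℤ) ^ 2 * z ^ 2 := by
          rw [← mul_pow, ← mul_pow, ← hp, ← hq, h3]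
        exact mul_left_cancel₀ (pow_ne_zero 2 hc'0) h4
      rw [hx0] at hsum
      have h6 : y ^ 2 = (r : ℤ) ^ 2 := by linarith
      have h7 : z ^ 2 = (r : ℤ) ^ 2 := by linarith
      apply hnd
      refine ⟨by rw [hx0]; exact dvd_zero _, ?_, ?_⟩
      · rcases sq_eq_sq_iff_eq_or_eq_neg.1 h6 with h | h <;> rw [h]
        exact (dvd_neg).2 (dvd_refl _)
      · rcases sq_eq_sq_iff_eq_or_eq_neg.1 h7 with h | h <;> rw [h]
        exact (dvd_neg).2 (dvd_refl _)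
    · -- special shape
      have hk' : (5 * k) ^ 2 = ((r : ℤ) * c') ^ 2 := by rw [hc, ← hk]; ring
      have key : ∀ t s : ℤ, s ^ 2 = (c' * t) ^ 2 → k ∣ s → (r : ℤ) ∣ t := by
        intro t s hs hks
        have h3 := tr t s hs k hks
        have h4 : (r : ℤ) * c' ∣ 5 * (c' * t) := by
          have h5 : 5 * k ∣ 5 * (c' * t) := mul_dvd_mul_left 5 h3
          rcases sq_eq_sq_iff_eq_or_eq_neg.1 hk' with h | h
          · rw [← h]; exact h5
          · rw [show (r : ℤ) * c' = -(5 * k) by rw [h]; ring]; exact (neg_dvd).2 h5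
        have h6 : (r : ℤ) ∣ 5 * t := by
          obtain ⟨w, hw⟩ := h4
          refine ⟨w, mul_left_cancel₀ hc'0 ?_⟩
          linear_combination hw
        rcases hrp.dvd_or_dvd h6 with h7 | h7
        · exfalso
          have h8 : r ∣ 5 := by exact_mod_cast h7
          exact hr5 ((Nat.prime_dvd_prime_iff_eq hr (by norm_num)).1 h8)
        · exact h7
      exact hnd ⟨key x _ he k1, key y _ hp k2, key z _ hq k3⟩

/-- every non-representable `n` has the pattern property -/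
theorem pat_of_not_rep {n : ℕ} (h : ¬ Rep n) : Bad (6 * n + 1) ∧ Pat (6 * n + 1) := by
  have hb := bad_of_not_rep h
  refine ⟨hb, ?_⟩
  by_contra hpat
  have hn : n ≠ 0 := by
    rintro rfl
    exact h rep_zero
  obtain ⟨v, hv⟩ := X_nonempty n
  have : ∃ c : ℕ, ((c : ℤ)) ^ 2 = 6 * n + 1 := by
    rcases trichotomy (by omega) (by omega) hb hpat hv with ⟨h1, h2⟩ | ⟨k, hk, -⟩
    · refine ⟨v.p.natAbs, ?_⟩
      have h3 := hv.1
      have h4 : v.q = - v.p := by linarith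
      rw [h1, h4] at h3
      rw [Int.natAbs_sq]
      linarith [h3, neg_sq v.p]
    · refine ⟨(5 * k).natAbs, ?_⟩
      rw [Int.natAbs_sq, ← hk]; ring
  obtain ⟨c, hc⟩ := this
  exact hpat (pat_of_square hb hc hn)

end Pool.Agent.Lib.H63.TSP
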