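import Mathlib
import Pool.Agent.Lib.H63.TSPSquare
import Pool.Agent.Lib.H63.TSPData00
import Pool.Agent.Lib.H63.TSPData01
import Pool.Agent.Lib.H63.TSPData02
import Pool.Agent.Lib.H63.TSPData03
import Pool.Agent.Lib.H63.TSPData04
import Pool.Agent.Lib.H63.TSPData05
import Pool.Agent.Lib.H63.TSPData06
import Pool.Agent.Lib.H63.TSPData07
import Pool.Agent.Lib.H63.TSPData08
import Pool.Agent.Lib.H63.TSPData09
import Pool.Agent.Lib.H63.TSPData10
import Pool.Agent.Lib.H63.TSPData11
import Pool.Agent.Lib.H63.TSPData12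
import Pool.Agent.Lib.H63.TSPData13

/-!
# All primes `5 ≤ p < 300` other than 139
-/

set_option autoImplicit false

namespace Pool.Agent.Lib.H63.TSP

/-- the primes with certificates -/
def goodPrimes : List ℕ := [5, 7, 11, 13, 17, 19, 23, 29, 31, 37, 41, 43, 47, 53, 59, 61, 67, 71, 73, 79, 83, 89, 97, 101, 103, 107, 109, 113, 127, 131, 137, 149, 151, 157, 163, 167, 173, 179, 181, 191, 193, 197, 199, 211, 223, 227, 229, 233, 239, 241, 251, 257, 263, 269, 271, 277, 281, 283, 293]

lemma mem_goodPrimes {p : ℕ} (hp : p.Prime) (h5 : 5 ≤ p) (h300 : p < 300) (h139 : p ≠ 139) :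
    p ∈ goodPrimes := by
  have key : ∀ p ∈ List.range 300, p ∈ goodPrimes ∨ p < 5 ∨ p = 139 ∨
      (∃ d ∈ [2, 3, 5, 7, 11, 13, 17], d ∣ p ∧ d < p) := by decide +kernel
  rcases key p (List.mem_range.2 h300) with h | h | h | ⟨d, hd, hdp, hlt⟩
  · exact h
  · omega
  · exact absurd h h139
  · exfalso
    rcases (Nat.dvd_prime hp).1 hdp with h | h
    · subst h; simp at hd
    · omega

theorem goodPrimes_ok : ∀ p ∈ goodPrimes, PrimeOk p := by
  intro p hp
  simp only [goodPrimes, List.mem_cons, List.not_mem_nil, or_false] at hp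
  rcases hp with rfl | rfl | rfl | rfl | rfl | rfl | rfl | rfl | rfl | rfl | rfl | rfl | rfl | rfl | rfl | rfl | rfl | rfl | rfl | rfl | rfl | rfl | rfl | rfl | rfl | rfl | rfl | rfl | rfl | rfl | rfl | rfl | rfl | rfl | rfl | rfl | rfl | rfl | rfl | rfl | rfl | rfl | rfl | rfl | rfl | rfl | rfl | rfl | rfl | rfl | rfl | rfl | rfl | rfl | rfl | rfl | rfl | rfl | rfl
  · exact primeOk_5
  · exact primeOk_7
  · exact primeOk_11
  · exact primeOk_13
  · exact primeOk_17
  · exact primeOk_19
  · exact primeOk_23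
  · exact primeOk_29
  · exact primeOk_31
  · exact primeOk_37
  · exact primeOk_41
  · exact primeOk_43
  · exact primeOk_47
  · exact primeOk_53
  · exact primeOk_59
  · exact primeOk_61
  · exact primeOk_67
  · exact primeOk_71
  · exact primeOk_73
  · exact primeOk_79
  · exact primeOk_83
  · exact primeOk_89
  · exact primeOk_97
  · exact primeOk_101
  · exact primeOk_103
  · exact primeOk_107
  · exact primeOk_109
  · exact primeOk_113
  · exact primeOk_127
  · exact primeOk_131
  · exact primeOk_137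
  · exact primeOk_149
  · exact primeOk_151
  · exact primeOk_157
  · exact primeOk_163
  · exact primeOk_167
  · exact primeOk_173
  · exact primeOk_179
  · exact primeOk_181
  · exact primeOk_191
  · exact primeOk_193
  · exact primeOk_197
  · exact primeOk_199
  · exact primeOk_211
  · exact primeOk_223
  · exact primeOk_227
  · exact primeOk_229
  · exact primeOk_233
  · exact primeOk_239
  · exact primeOk_241
  · exact primeOk_251
  · exact primeOk_257
  · exact primeOk_263
  · exact primeOk_269
  · exact primeOk_271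
  · exact primeOk_277
  · exact primeOk_281
  · exact primeOk_283
  · exact primeOk_293

theorem rep_of_prime {n p : ℕ} (hp : p.Prime) (h5 : 5 ≤ p) (h300 : p < 300) (h139 : p ≠ 139)
    (h : IsSquare ((-2 * (6 * n + 1) : ℤ) : ZMod p)) : Rep n := by
  by_contra hcon
  obtain ⟨hb, hpat⟩ := pat_of_not_rep hcon
  exact goodPrimes_ok p (mem_goodPrimes hp h5 h300 h139) _ (by omega) hb hpat h

end Pool.Agent.Lib.H63.TSP
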