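import Mathlib
import Pool.Agent.Lib.H63.TSPCert
import Pool.Agent.Lib.H63.TSPDisc

/-!
# Counting vectors of `X m` by a weighted automaton of possible words
-/

set_option autoImplicit false

namespace Pool.Agent.Lib.H63.TSP

/-! ### encoding of words by numbers -/

def digit : J → ℕ
  | .E => 1
  | .P => 2
  | .Q => 3

def enc : List J → ℕ
  | [] => 0
  | j :: w => digit j + 4 * enc w

def letterOf (n : ℕ) : J := if n = 1 then .E else if n = 2 then .P else .Q

def dec : ℕ → ℕ → List J
  | 0, _ => []
  | f + 1, n => if n = 0 then [] else letterOf (n % 4) :: dec f (n / 4)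

lemma enc_inj : ∀ w w' : List J, enc w = enc w' → w = w'
  | [], [], _ => rfl
  | [], j :: w', h => by cases j <;> simp [enc, digit] at h <;> omega
  | j :: w, [], h => by cases j <;> simp [enc, digit] at h <;> omega
  | j :: w, k :: w', h => by
    simp only [enc] at h
    have h1 : digit j = digit k := by
      cases j <;> cases k <;> simp only [digit] at h ⊢ <;> omega
    have h2 : enc w = enc w' := by omega
    rw [enc_inj w w' h2]
    cases j <;> cases k <;> simp [digit] at h1 ⊢

/-! ### the two search trees -/

/-- forbidden words with certificates -/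
inductive Fb where
  | nil
  | node (l : Fb) (key : ℕ) (cert : List (ℕ × ℕ)) (r : Fb)

/-- states with weights and transitions -/
inductive Tb where
  | nil
  | node (l : Tb) (key h a b c : ℕ) (r : Tb)

def Fb.find : Fb → ℕ → Bool
  | .nil, _ => false
  | .node l k _ r, x => if x = k then true else if x < k then l.find x else r.find x

def Fb.check : Fb → Bool
  | .nil => true
  | .node l k c r => l.check && r.check && fark (rowsW I3 (dec 64 k)) c && decide (enc (dec 64 k) = k)

lemma Fb.find_spec : ∀ (t : Fb) (w : List J), t.check = true → t.find (enc w) = true →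
    ∃ c, fark (rowsW I3 w) c = true
  | .nil, _, _, h => by simp [Fb.find] at h
  | .node l k c r, w, hc, h => by
    simp only [Fb.check, Bool.and_eq_true, decide_eq_true_eq] at hc
    obtain ⟨⟨⟨h1, h2⟩, h3⟩, h4⟩ := hc
    simp only [Fb.find] at h
    split_ifs at h with h5 h6
    · have : w = dec 64 k := enc_inj _ _ (by rw [h4, h5])
      rw [this]; exact ⟨c, h3⟩
    · exact l.find_spec w h1 h
    · exact r.find_spec w h2 h

def Tb.find : Tb → ℕ → ℕ
  | .nil, _ => 0
  | .node l k h _ _ _ r, x => if x = k then h else if x < k then l.find x else r.find x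

def Tb.all (p : ℕ → ℕ → ℕ → ℕ → ℕ → Bool) : Tb → Bool
  | .nil => true
  | .node l k h a b c r => l.all p && r.all p && p k h a b c

lemma Tb.find_spec {p : ℕ → ℕ → ℕ → ℕ → ℕ → Bool} : ∀ (t : Tb) (x : ℕ), t.all p = true →
    t.find x ≠ 0 → ∃ a b c, p x (t.find x) a b c = true
  | .nil, _, _, h => by simp [Tb.find] at h
  | .node l k h a b c r, x, hc, hne => by
    simp only [Tb.all, Bool.and_eq_true] at hc
    obtain ⟨⟨h1, h2⟩, h3⟩ := hc
    simp only [Tb.find] at hne ⊢
    split_ifs at hne ⊢ with h5 h6
    · subst h5; exact ⟨a, b, c, h3⟩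
    · exact l.find_spec x h1 hne
    · exact r.find_spec x h2 hne

/-- the value of a transition: `t = 2 d + flag`, drop `d` letters of `w ++ [j]`; flag `1` means the
result is a forbidden word. Returns `(ok, weight)`. -/
def trans (T : Tb) (Fo : Fb) (w : List J) (j : J) (t : ℕ) : Bool × ℕ :=
  if t % 2 = 1 then (Fo.find (enc ((w ++ [j]).drop (t / 2))), 0)
  else (decide (T.find (enc ((w ++ [j]).drop (t / 2))) ≠ 0), T.find (enc ((w ++ [j]).drop (t / 2))))

/-- the check at a node -/
def nodeOk (T : Tb) (Fo : Fb) (S N D : ℕ) (key h a b c : ℕ) : Bool :=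
  let w := dec 64 key
  let x := trans T Fo w .E a
  let y := trans T Fo w .P b
  let z := trans T Fo w .Q c
  decide (enc w = key) && decide (S ≤ h) && x.1 && y.1 && z.1 &&
    decide (D * (x.2 + y.2 + z.2) ≤ N * h)

def tableOk (T : Tb) (Fo : Fb) (S N D : ℕ) : Bool := Fo.check && T.all (nodeOk T Fo S N D)

/-- `w` is the list of letters read before reaching `v` -/
def St (m : ℤ) (w : List J) (v : V) : Prop :=
  ∃ u : V, X m u ∧ word w.length u = w ∧ F^[w.length] u = v

lemma word_append (a b : ℕ) (v : V) : word (a + b) v = word a v ++ word b (F^[a] v) := by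
  induction a generalizing v with
  | zero => simp [word]
  | succ a ih =>
    rw [show a + 1 + b = (a + b) + 1 by ring]
    simp only [word, List.cons_append, Function.iterate_succ, Function.comp]
    rw [ih (F v)]

lemma St_drop {m : ℤ} {w : List J} {v : V} (h : St m w v) (d : ℕ) : St m (w.drop d) v := by
  obtain ⟨u, hu, hw, hv⟩ := h
  rcases le_or_gt d w.length with hd | hd
  · refine ⟨F^[d] u, X_iter hu d, ?_, ?_⟩
    · have h1 : w.length = d + (w.drop d).length := by simp; omega
      have h2 : word (d + (w.drop d).length) u = w := by rw [← h1]; exact hw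
      rw [word_append] at h2
      have h3 : (word d u ++ word (w.drop d).length (F^[d] u)).drop d = w.drop d := by rw [h2]
      rw [List.drop_append_of_le_length (by rw [word_length])] at h3
      have h4 : (word d u).drop d = [] := by
        apply List.drop_eq_nil_of_le; rw [word_length]
      rw [h4, List.nil_append] at h3
      exact h3
    · rw [← Function.iterate_add_apply]
      have : (w.drop d).length + d = w.length := by simp; omega
      rw [this]; exact hv
  · have h0 : w.drop d = [] := List.drop_eq_nil_of_le hd.le
    rw [h0]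
    exact ⟨v, by rw [← hv]; exact X_iter hu _, rfl, rfl⟩

lemma St_snoc {m : ℤ} {w : List J} {v : V} (h : St m w v) : St m (w ++ [letter v]) (F v) := by
  obtain ⟨u, hu, hw, hv⟩ := h
  refine ⟨u, hu, ?_, ?_⟩
  · rw [List.length_append, word_append, hw]
    simp [word, hv]
  · rw [List.length_append]
    simp only [List.length_singleton]
    rw [Function.iterate_succ_apply', hv]

lemma F_injOn {m : ℤ} {u v : V} (hu : X m u) (hv : X m v) (h : F u = F v) : u = v := by
  rw [← Finv_F hu, ← Finv_F hv, h]

/-- the contribution of one letter -/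
lemma trans_bound {m : ℤ} (hb : Bad m) {T : Tb} {Fo : Fb} (hF : Fo.check = true)
    {w : List J} {j : J} {t : ℕ} (ht : (trans T Fo w j t).1 = true)
    {P Q' : ℕ} (IH : ∀ (w' : List J) (s : Finset V), T.find (enc w') ≠ 0 →
      (∀ v ∈ s, X m v ∧ St m w' v) → P * s.card ≤ Q' * T.find (enc w'))
    {s : Finset V} (hs : ∀ v ∈ s, X m v ∧ St m w v ∧ letter v = j) :
    P * s.card ≤ Q' * (trans T Fo w j t).2 := by
  have hcard : (s.image F).card = s.card :=
    Finset.card_image_of_injOn (fun u hu v hv h => F_injOn (hs u hu).1 (hs v hv).1 h)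
  have himg : ∀ v ∈ s.image F, X m v ∧ St m ((w ++ [j]).drop (t / 2)) v := by
    intro v hv
    obtain ⟨u, hu, rfl⟩ := Finset.mem_image.mp hv
    obtain ⟨h1, h2, h3⟩ := hs u hu
    refine ⟨X_F h1, ?_⟩
    apply St_drop
    rw [← h3]
    exact St_snoc h2
  unfold trans at ht ⊢
  split_ifs at ht ⊢ with hpar
  · -- forbidden
    obtain ⟨c, hc⟩ := Fo.find_spec _ hF ht
    have hempty : s.image F = ∅ := by
      rw [Finset.eq_empty_iff_forall_notMem]
      intro v hv
      obtain ⟨h1, u, hu, hw, -⟩ := himg v hv
      exact impossible hb hc hu hw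
    rw [← hcard, hempty]; simp
  · simp only [ne_eq, decide_not, Bool.not_eq_eq_eq_not, Bool.not_true, decide_eq_false_iff_not] at ht
    have := IH _ (s.image F) ht himg
    rw [hcard] at this
    exact this

/-- the counting theorem -/
theorem count_bound {m : ℤ} (hb : Bad m) {T : Tb} {Fo : Fb} {S N D : ℕ}
    (hT : tableOk T Fo S N D = true) :
    ∀ (K : ℕ) (w : List J) (s : Finset V), T.find (enc w) ≠ 0 →
      (∀ v ∈ s, X m v ∧ St m w v) → (∀ u ∈ s, ∀ v ∈ s, word K u = word K v → u = v) →
      D ^ K * S * s.card ≤ N ^ K * T.find (enc w) := by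
  rw [tableOk, Bool.and_eq_true] at hT
  obtain ⟨hF, hall⟩ := hT
  intro K
  induction K with
  | zero =>
    intro w s hw hs hinj
    obtain ⟨a, b, c, habc⟩ := T.find_spec _ hall hw
    simp only [nodeOk, Bool.and_eq_true, decide_eq_true_eq] at habc
    have hS : S ≤ T.find (enc w) := habc.1.1.1.1.2
    have hcard : s.card ≤ 1 := Finset.card_le_one.mpr (fun u hu v hv => hinj u hu v hv rfl)
    calc D ^ 0 * S * s.card ≤ 1 * S * 1 := by rw [pow_zero]; exact Nat.mul_le_mul_left _ hcard
      _ = S := by ring
      _ ≤ N ^ 0 * T.find (enc w) := by rw [pow_zero, one_mul]; exact hS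
  | succ K ih =>
    intro w s hw hs hinj
    obtain ⟨a, b, c, habc⟩ := T.find_spec _ hall hw
    simp only [nodeOk, Bool.and_eq_true, decide_eq_true_eq] at habc
    obtain ⟨⟨⟨⟨⟨h1, h2⟩, h3⟩, h4⟩, h5⟩, h6⟩ := habc
    have hdec : dec 64 (enc w) = w := enc_inj _ _ h1
    rw [hdec] at h3 h4 h5 h6
    -- split s
    have hsplit : s.card = (s.filter (fun v => letter v = .E)).card
        + (s.filter (fun v => letter v = .P)).card + (s.filter (fun v => letter v = .Q)).card := by
      have e1 : s.card = (s.filter (fun v => letter v = .E)).card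
          + (s.filter (fun v => ¬ letter v = .E)).card :=
        (Finset.card_filter_add_card_filter_not (s := s) (fun v => letter v = .E)).symm
      have e2 : (s.filter (fun v => ¬ letter v = .E)).card
          = (s.filter (fun v => letter v = .P)).card + (s.filter (fun v => letter v = .Q)).card := by
        rw [← Finset.card_union_of_disjoint]
        · congr 1
          ext v
          simp only [Finset.mem_filter, Finset.mem_union]
          constructor
          · rintro ⟨hv, hl⟩
            cases h : letter v
            · exact absurd h hl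
            · exact Or.inl ⟨hv, rfl⟩
            · exact Or.inr ⟨hv, rfl⟩
          · rintro (⟨hv, hl⟩ | ⟨hv, hl⟩) <;> exact ⟨hv, by rw [hl]; decide⟩
        · rw [Finset.disjoint_left]
          intro v hv hv'
          simp only [Finset.mem_filter] at hv hv'
          rw [hv.2] at hv'
          exact absurd hv'.2 (by decide)
      rw [e1, e2]; ring
    -- inductive bound for images: need injectivity of `word K` on them, so restate
    have main : ∀ (j : J) (t : ℕ), (trans T Fo w j t).1 = true →
        D ^ K * S * (s.filter (fun v => letter v = j)).card ≤ N ^ K * (trans T Fo w j t).2 := by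
      intro j t ht
      have hcard : ((s.filter (fun v => letter v = j)).image F).card
          = (s.filter (fun v => letter v = j)).card :=
        Finset.card_image_of_injOn (fun u hu v hv h => by
          have hu' := Finset.mem_filter.mp (Finset.mem_coe.mp hu)
          have hv' := Finset.mem_filter.mp (Finset.mem_coe.mp hv)
          exact F_injOn (hs u hu'.1).1 (hs v hv'.1).1 h)
      have himg : ∀ v ∈ (s.filter (fun v => letter v = j)).image F,
          X m v ∧ St m ((w ++ [j]).drop (t / 2)) v := by
        intro v hv
        obtain ⟨u, hu, rfl⟩ := Finset.mem_image.mp hv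
        obtain ⟨hu1, hu2⟩ := Finset.mem_filter.mp hu
        refine ⟨X_F (hs u hu1).1, ?_⟩
        apply St_drop
        rw [← hu2]
        exact St_snoc (hs u hu1).2
      have hinj' : ∀ u ∈ (s.filter (fun v => letter v = j)).image F,
          ∀ v ∈ (s.filter (fun v => letter v = j)).image F, word K u = word K v → u = v := by
        intro u hu v hv huv
        obtain ⟨u', hu', rfl⟩ := Finset.mem_image.mp hu
        obtain ⟨v', hv', rfl⟩ := Finset.mem_image.mp hv
        obtain ⟨hu1, hu2⟩ := Finset.mem_filter.mp hu'
        obtain ⟨hv1, hv2⟩ := Finset.mem_filter.mp hv'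
        have : u' = v' := hinj u' hu1 v' hv1 (by simp only [word]; rw [hu2, hv2, huv])
        rw [this]
      unfold trans at ht ⊢
      split_ifs at ht ⊢ with hpar
      · obtain ⟨c', hc'⟩ := Fo.find_spec _ hF ht
        have hempty : (s.filter (fun v => letter v = j)).image F = ∅ := by
          rw [Finset.eq_empty_iff_forall_notMem]
          intro v hv
          obtain ⟨_, u, hu, hw', -⟩ := himg v hv
          exact impossible hb hc' hu hw'
        rw [← hcard, hempty]; simp
      · simp only [ne_eq, decide_not, Bool.not_eq_eq_eq_not, Bool.not_true,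
          decide_eq_false_iff_not] at ht
        have := ih _ ((s.filter (fun v => letter v = j)).image F) ht himg hinj'
        rw [hcard] at this
        exact this
    have mE := main .E a h3
    have mP := main .P b h4
    have mQ := main .Q c h5
    rw [hsplit]
    calc D ^ (K + 1) * S * ((s.filter (fun v => letter v = .E)).card
          + (s.filter (fun v => letter v = .P)).card + (s.filter (fun v => letter v = .Q)).card)
        = D * (D ^ K * S * (s.filter (fun v => letter v = .E)).card
          + D ^ K * S * (s.filter (fun v => letter v = .P)).card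
          + D ^ K * S * (s.filter (fun v => letter v = .Q)).card) := by ring
      _ ≤ D * (N ^ K * (trans T Fo w .E a).2 + N ^ K * (trans T Fo w .P b).2
          + N ^ K * (trans T Fo w .Q c).2) :=
          Nat.mul_le_mul_left _ (Nat.add_le_add (Nat.add_le_add mE mP) mQ)
      _ = N ^ K * (D * ((trans T Fo w .E a).2 + (trans T Fo w .P b).2
          + (trans T Fo w .Q c).2)) := by ring
      _ ≤ N ^ K * (N * T.find (enc w)) := Nat.mul_le_mul_left _ h6
      _ = N ^ (K + 1) * T.find (enc w) := by ring

end Pool.Agent.Lib.H63.TSP
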