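import Mathlib
import Pool.Agent.Lib.H63.TSPPrime

/-!
# Generated certificates for the primes 43, 97, 211, 229
-/

set_option autoImplicit false

namespace Pool.Agent.Lib.H63.TSP

def L43 : List Cls := [
⟨⟨⟨25,-18,-30⟩,⟨-18,25,-30⟩,⟨30,30,7⟩⟩,true,1,16,.leaf [(2,7396),(5,99),(7,134),(15,7)],.leaf [(2,473),(5,9),(7,7),(10,43)]⟩,
⟨⟨⟨25,-18,30⟩,⟨-18,25,30⟩,⟨-30,-30,7⟩⟩,true,1,27,.leaf [(1,9),(3,23),(6,1),(10,7)],.leaf [(1,1548),(3,3053),(6,88),(15,7)]⟩,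
⟨⟨⟨-9,-18,-38⟩,⟨-2,39,-18⟩,⟨42,-2,-9⟩⟩,true,2,9,.leaf [(1,129),(2,344),(5,11),(6,8)],.leaf [(1,129),(2,344),(5,11),(6,8)]⟩,
⟨⟨⟨9,18,-38⟩,⟨-2,39,18⟩,⟨42,-2,9⟩⟩,true,2,34,.leaf [(1,731),(3,473),(4,19),(6,7)],.leaf [(1,731),(3,473),(4,19),(6,7)]⟩,
⟨⟨⟨-9,-2,-42⟩,⟨18,-39,-2⟩,⟨-38,-18,9⟩⟩,true,5,19,.leaf [(0,37),(1,25),(3,15),(4,1)],.leaf [(0,37),(1,25),(3,15),(4,1)]⟩,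
⟨⟨⟨-9,-2,42⟩,⟨-18,39,-2⟩,⟨-38,-18,-9⟩⟩,true,5,24,.leaf [(1,215),(3,172),(5,5),(7,4)],.leaf [(1,215),(3,172),(5,5),(7,4)]⟩,
⟨⟨⟨7,42,6⟩,⟨-6,7,-42⟩,⟨-42,6,7⟩⟩,true,6,7,.leaf [(0,7740),(7,210),(11,559),(15,13)],.leaf [(0,153),(2,26),(7,4),(10,13)]⟩,
⟨⟨⟨7,42,-6⟩,⟨-6,7,42⟩,⟨42,-6,7⟩⟩,true,6,36,.leaf [(0,35),(1,48),(4,1)],.leaf [(0,35),(1,48),(4,1)]⟩,
⟨⟨⟨7,6,42⟩,⟨-42,7,6⟩,⟨-6,-42,7⟩⟩,true,7,6,.leaf [(1,7740),(6,210),(10,559),(14,13)],.leaf [(10,2322),(15,324),(26,1505),(30,1)]⟩,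
⟨⟨⟨7,6,-42⟩,⟨-42,7,-6⟩,⟨6,42,7⟩⟩,true,7,37,.leaf [(1,215),(2,43),(4,5),(7,1)],.leaf [(1,215),(2,43),(4,5),(7,1)]⟩,
⟨⟨⟨7,-30,-30⟩,⟨30,25,-18⟩,⟨30,-18,25⟩⟩,true,8,8,.leaf [(0,10449),(14,45),(18,1505),(22,7)],.leaf [(5,108),(6,63),(10,1849),(14,14)]⟩,
⟨⟨⟨7,-30,30⟩,⟨30,25,18⟩,⟨-30,18,25⟩⟩,true,8,35,.leaf [(0,45),(1,5),(2,3),(5,1)],.leaf [(0,45),(1,5),(2,3),(5,1)]⟩,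
⟨⟨⟨-9,-38,-18⟩,⟨42,-9,-2⟩,⟨-2,-18,39⟩⟩,true,9,2,.leaf [(0,129),(3,344),(4,11),(7,8)],.leaf [(0,129),(3,344),(4,11),(7,8)]⟩,
⟨⟨⟨-9,-38,18⟩,⟨-42,9,-2⟩,⟨-2,-18,-39⟩⟩,true,9,41,.leaf [(0,20),(1,42),(3,15),(5,1)],.leaf [(0,20),(1,42),(3,15),(5,1)]⟩,
⟨⟨⟨25,-30,-18⟩,⟨30,7,30⟩,⟨-18,-30,25⟩⟩,true,16,1,.leaf [(3,7396),(4,99),(6,134),(14,7)],.leaf [(3,3784),(4,36),(6,71),(10,301)]⟩,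
⟨⟨⟨25,-30,18⟩,⟨30,7,-30⟩,⟨18,30,25⟩⟩,true,16,42,.leaf [(0,16),(2,16),(5,1),(11,7)],.leaf [(0,127),(2,106),(5,4),(10,7)]⟩,
⟨⟨⟨-39,-18,-2⟩,⟨-2,9,-42⟩,⟨18,-38,-9⟩⟩,true,17,21,.leaf [(3,645),(6,15),(10,43),(15,1)],.leaf [(1,129),(3,7783),(6,179),(14,9)]⟩,
⟨⟨⟨39,18,-2⟩,⟨-2,9,42⟩,⟨18,-38,9⟩⟩,true,17,22,.leaf [(0,6),(1,44),(2,3),(4,1)],.leaf [(0,6),(1,44),(2,3),(4,1)]⟩,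
⟨⟨⟨-9,-42,-2⟩,⟨-38,9,-18⟩,⟨18,-2,-39⟩⟩,true,19,5,.leaf [(0,25),(1,37),(2,15),(5,1)],.leaf [(0,25),(1,37),(2,15),(5,1)]⟩,
⟨⟨⟨9,42,-2⟩,⟨-38,9,18⟩,⟨18,-2,39⟩⟩,true,19,38,.leaf [(0,3),(1,20),(2,30),(4,1)],.leaf [(0,3),(1,20),(2,30),(4,1)]⟩,
⟨⟨⟨-39,-2,-18⟩,⟨18,-9,-38⟩,⟨-2,-42,9⟩⟩,true,21,17,.leaf [(2,645),(7,15),(11,43),(14,1)],.leaf [(2,1505),(4,1),(7,36),(10,86)]⟩,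
⟨⟨⟨-39,-2,18⟩,⟨-18,9,-38⟩,⟨-2,-42,-9⟩⟩,true,21,26,.leaf [(1,3),(2,44),(3,6),(7,1)],.leaf [(1,3),(2,44),(3,6),(7,1)]⟩,
⟨⟨⟨39,-2,18⟩,⟨18,9,-38⟩,⟨-2,42,9⟩⟩,true,22,17,.leaf [(0,44),(1,6),(3,3),(5,1)],.leaf [(0,44),(1,6),(3,3),(5,1)]⟩,
⟨⟨⟨39,-2,-18⟩,⟨-18,-9,-38⟩,⟨-2,42,-9⟩⟩,true,22,26,.leaf [(4,36),(5,81),(11,1849),(14,20)],.leaf [(0,161),(2,6),(5,4),(10,9)]⟩,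
⟨⟨⟨-9,42,-2⟩,⟨-38,-9,-18⟩,⟨-18,-2,39⟩⟩,true,24,5,.leaf [(0,215),(2,172),(4,5),(6,4)],.leaf [(0,215),(2,172),(4,5),(6,4)]⟩,
⟨⟨⟨9,-42,-2⟩,⟨-38,-9,18⟩,⟨-18,-2,-39⟩⟩,true,24,38,.leaf [(2,301),(3,430),(4,3),(5,10)],.leaf [(2,301),(3,430),(4,3),(5,10)]⟩,
⟨⟨⟨-39,18,-2⟩,⟨-2,-9,-42⟩,⟨-18,-38,9⟩⟩,true,26,21,.leaf [(0,3),(2,6),(3,44),(6,1)],.leaf [(0,3),(2,6),(3,44),(6,1)]⟩,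
⟨⟨⟨39,-18,-2⟩,⟨-2,-9,42⟩,⟨-18,-38,-9⟩⟩,true,26,22,.leaf [(4,81),(5,36),(10,1849),(15,20)],.leaf [(4,36),(5,15),(15,10),(23,1)]⟩,
⟨⟨⟨25,30,-18⟩,⟨-30,7,-30⟩,⟨-18,30,25⟩⟩,true,27,1,.leaf [(0,9),(2,23),(7,1),(11,7)],.leaf [(0,99),(2,134),(7,4),(10,7)]⟩,
⟨⟨⟨25,30,18⟩,⟨-30,7,30⟩,⟨18,-30,25⟩⟩,true,27,42,.leaf [(1,1849),(4,16),(6,16),(15,7)],.leaf [(1,2236),(4,34),(6,13),(10,301)]⟩,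
⟨⟨⟨9,-38,18⟩,⟨42,9,-2⟩,⟨-2,18,39⟩⟩,true,34,2,.leaf [(0,731),(2,473),(5,19),(7,7)],.leaf [(0,731),(2,473),(5,19),(7,7)]⟩,
⟨⟨⟨9,-38,-18⟩,⟨-42,-9,-2⟩,⟨-2,18,-39⟩⟩,true,34,41,.leaf [(1,344),(2,129),(4,11),(5,8)],.leaf [(1,344),(2,129),(4,11),(5,8)]⟩,
⟨⟨⟨7,30,-30⟩,⟨-30,25,18⟩,⟨30,18,25⟩⟩,true,35,8,.leaf [(0,5),(1,45),(3,3),(4,1)],.leaf [(0,5),(1,45),(3,3),(4,1)]⟩,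
⟨⟨⟨7,30,30⟩,⟨-30,25,-18⟩,⟨-30,-18,25⟩⟩,true,35,35,.leaf [(0,10449),(15,360),(18,6020),(22,7)],.leaf [(4,27),(7,252),(10,3698),(14,7)]⟩,
⟨⟨⟨7,-6,42⟩,⟨42,7,-6⟩,⟨-6,42,7⟩⟩,true,36,6,.leaf [(0,48),(1,35),(5,1)],.leaf [(0,48),(1,35),(5,1)]⟩,
⟨⟨⟨7,-6,-42⟩,⟨42,7,6⟩,⟨6,-42,7⟩⟩,true,36,37,.leaf [(3,8256),(4,198),(10,559),(14,13)],.leaf [(4,5832),(6,5508),(26,12943),(30,17)]⟩,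
⟨⟨⟨7,-42,6⟩,⟨6,7,42⟩,⟨-42,-6,7⟩⟩,true,37,7,.leaf [(0,215),(3,43),(5,5),(6,1)],.leaf [(0,215),(3,43),(5,5),(6,1)]⟩,
⟨⟨⟨7,-42,-6⟩,⟨6,7,-42⟩,⟨42,6,7⟩⟩,true,37,36,.leaf [(2,8256),(5,198),(11,559),(15,13)],.leaf [(0,13),(2,166),(5,4),(10,13)]⟩,
⟨⟨⟨9,-2,42⟩,⟨18,39,-2⟩,⟨-38,18,9⟩⟩,true,38,19,.leaf [(0,20),(1,3),(3,30),(5,1)],.leaf [(0,20),(1,3),(3,30),(5,1)]⟩,
⟨⟨⟨9,-2,-42⟩,⟨-18,-39,-2⟩,⟨-38,18,-9⟩⟩,true,38,24,.leaf [(0,25),(1,40),(2,12),(4,1)],.leaf [(0,25),(1,40),(2,12),(4,1)]⟩,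
⟨⟨⟨-9,18,-38⟩,⟨-2,-39,-18⟩,⟨-42,-2,9⟩⟩,true,41,9,.leaf [(0,42),(1,20),(2,15),(4,1)],.leaf [(0,42),(1,20),(2,15),(4,1)]⟩,
⟨⟨⟨9,-18,-38⟩,⟨-2,-39,18⟩,⟨-42,-2,-9⟩⟩,true,41,34,.leaf [(0,21),(1,44),(3,12),(4,1)],.leaf [(0,21),(1,44),(3,12),(4,1)]⟩,
⟨⟨⟨25,18,-30⟩,⟨18,25,30⟩,⟨30,-30,7⟩⟩,true,42,16,.leaf [(1,16),(3,16),(4,1),(10,7)],.leaf [(1,3698),(3,3698),(4,113),(14,7)]⟩,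
⟨⟨⟨25,18,30⟩,⟨18,25,-30⟩,⟨-30,30,7⟩⟩,true,42,27,.leaf [(0,1849),(5,16),(7,16),(14,7)],.leaf [(0,113),(5,2),(7,2),(10,7)]⟩]

theorem primeOk_43 : PrimeOk 43 := primeOk (by norm_num) (by norm_num) (by norm_num) L43
  (by decide +kernel) (by decide +kernel)

def L97 : List Cls := [
⟨⟨⟨97,0,0⟩,⟨0,-65,-72⟩,⟨0,72,-65⟩⟩,false,0,22,.leaf [(0,1261),(1,485),(4,5),(5,13)],.leaf [(0,1261),(1,485),(4,5),(5,13)]⟩,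
⟨⟨⟨97,0,0⟩,⟨0,-65,72⟩,⟨0,-72,-65⟩⟩,false,0,75,.leaf [(0,20),(1,72),(2,45),(4,1)],.leaf [(0,20),(1,72),(2,45),(4,1)]⟩,
⟨⟨⟨-65,0,-72⟩,⟨0,97,0⟩,⟨72,0,-65⟩⟩,true,0,22,.leaf [(1,9409),(5,65),(7,72)],.leaf [(1,9409),(5,65),(7,72)]⟩,
⟨⟨⟨-65,0,72⟩,⟨0,97,0⟩,⟨-72,0,-65⟩⟩,true,0,75,.leaf [(1,65),(3,72),(5,1)],.leaf [(1,65),(3,72),(5,1)]⟩,
⟨⟨⟨25,-72,-60⟩,⟨-72,25,-60⟩,⟨60,60,-47⟩⟩,true,1,17,.leaf [(0,4559),(2,9409),(5,107),(7,13)],.leaf [(0,4559),(2,9409),(5,107),(7,13)]⟩,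
⟨⟨⟨25,-72,60⟩,⟨-72,25,60⟩,⟨-60,-60,-47⟩⟩,true,1,80,.leaf [(0,12),(1,17),(3,90),(5,1)],.leaf [(0,12),(1,17),(3,90),(5,1)]⟩,
⟨⟨⟨7,-48,84⟩,⟨-96,7,12⟩,⟨-12,-84,-47⟩⟩,true,7,12,.leaf [(1,5626),(3,3201),(5,41),(6,36)],.leaf [(1,5626),(3,3201),(5,41),(6,36)]⟩,
⟨⟨⟨7,-48,-84⟩,⟨-96,7,-12⟩,⟨12,84,-47⟩⟩,true,7,85,.leaf [(1,1649),(2,3201),(4,45),(5,43)],.leaf [(1,1649),(2,3201),(4,45),(5,43)]⟩,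
⟨⟨⟨-47,12,-84⟩,⟨-84,7,48⟩,⟨12,96,7⟩⟩,true,8,41,.leaf [(0,5),(1,87),(3,45),(4,1)],.leaf [(0,5),(1,87),(3,45),(4,1)]⟩,
⟨⟨⟨-47,12,84⟩,⟨-84,7,-48⟩,⟨-12,-96,7⟩⟩,true,8,56,.leaf [(2,9409),(5,24),(6,44),(14,33)],.leaf [(1,636417),(15,4077),(26,50537),(30,25)]⟩,
⟨⟨⟨-63,-48,-56⟩,⟨16,63,-72⟩,⟨72,-56,-33⟩⟩,true,10,44,.leaf [(0,15),(1,48),(3,80),(6,1)],.leaf [(0,15),(1,48),(3,80),(6,1)]⟩,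
⟨⟨⟨63,48,-56⟩,⟨16,63,72⟩,⟨72,-56,33⟩⟩,true,10,53,.leaf [(1,3395),(3,1261),(4,37),(6,5)],.leaf [(1,3395),(3,1261),(4,37),(6,5)]⟩,
⟨⟨⟨33,72,-56⟩,⟨-56,63,48⟩,⟨72,16,63⟩⟩,true,11,13,.leaf [(0,9),(1,101),(3,3),(4,1)],.leaf [(0,9),(1,101),(3,3),(4,1)]⟩,
⟨⟨⟨-33,-72,-56⟩,⟨-56,63,-48⟩,⟨72,16,-63⟩⟩,true,11,84,.leaf [(1,1164),(2,8051),(5,92),(6,5)],.leaf [(1,1164),(2,8051),(5,92),(6,5)]⟩,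
⟨⟨⟨7,84,-48⟩,⟨-12,-47,-84⟩,⟨-96,12,7⟩⟩,true,12,7,.leaf [(0,5626),(2,3201),(4,41),(7,36)],.leaf [(0,5626),(2,3201),(4,41),(7,36)]⟩,
⟨⟨⟨7,84,48⟩,⟨-12,-47,84⟩,⟨96,-12,7⟩⟩,true,12,90,.leaf [(0,74),(1,36),(2,57),(4,1)],.leaf [(0,74),(1,36),(2,57),(4,1)]⟩,
⟨⟨⟨33,-56,72⟩,⟨72,63,16⟩,⟨-56,48,63⟩⟩,true,13,11,.leaf [(0,101),(1,9),(2,3),(5,1)],.leaf [(0,101),(1,9),(2,3),(5,1)]⟩,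
⟨⟨⟨33,-56,-72⟩,⟨-72,-63,16⟩,⟨-56,48,-63⟩⟩,true,13,86,.leaf [(1,8051),(2,1164),(4,92),(5,5)],.leaf [(1,8051),(2,1164),(4,92),(5,5)]⟩,
⟨⟨⟨7,-96,-12⟩,⟨-48,7,-84⟩,⟨84,12,-47⟩⟩,true,14,26,.leaf [(0,33),(1,35),(2,75),(5,1)],.leaf [(0,33),(1,35),(2,75),(5,1)]⟩,
⟨⟨⟨7,-96,12⟩,⟨-48,7,84⟩,⟨-84,-12,-47⟩⟩,true,14,71,.leaf [(1,3686),(3,8439),(4,84),(5,103)],.leaf [(1,3686),(3,8439),(4,84),(5,103)]⟩,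
⟨⟨⟨-63,-72,16⟩,⟨-56,33,-72⟩,⟨48,-56,-63⟩⟩,true,15,29,.leaf [(1,1455),(2,194),(5,17),(6,2)],.leaf [(1,1455),(2,194),(5,17),(6,2)]⟩,
⟨⟨⟨63,72,16⟩,⟨-56,33,72⟩,⟨48,-56,63⟩⟩,true,15,68,.leaf [(2,9409),(4,99),(6,44),(15,8)],.leaf [(2,3589),(4,27),(6,26),(10,194)]⟩,
⟨⟨⟨25,-60,-72⟩,⟨60,-47,60⟩,⟨-72,-60,25⟩⟩,true,17,1,.leaf [(1,4559),(3,9409),(4,107),(6,13)],.leaf [(1,4559),(3,9409),(4,107),(6,13)]⟩,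
⟨⟨⟨25,-60,72⟩,⟨60,-47,-60⟩,⟨72,60,25⟩⟩,true,17,96,.leaf [(0,60),(1,47),(2,60),(5,1)],.leaf [(0,60),(1,47),(2,60),(5,1)]⟩,
⟨⟨⟨81,52,-12⟩,⟨-12,39,88⟩,⟨52,-72,39⟩⟩,true,21,25,.leaf [(0,10),(1,100),(2,3),(4,1)],.leaf [(0,10),(1,100),(2,3),(4,1)]⟩,
⟨⟨⟨81,52,12⟩,⟨12,-39,88⟩,⟨52,-72,-39⟩⟩,true,21,72,.leaf [(0,49),(1,76),(2,42),(4,1)],.leaf [(0,49),(1,76),(2,42),(4,1)]⟩,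
⟨⟨⟨-65,-72,0⟩,⟨72,-65,0⟩,⟨0,0,97⟩⟩,true,22,0,.leaf [(0,9409),(4,65),(6,72)],.leaf [(0,9409),(4,65),(6,72)]⟩,
⟨⟨⟨81,-12,52⟩,⟨52,39,-72⟩,⟨-12,88,39⟩⟩,true,25,21,.leaf [(0,100),(1,10),(3,3),(5,1)],.leaf [(0,100),(1,10),(3,3),(5,1)]⟩,
⟨⟨⟨-81,12,52⟩,⟨52,39,72⟩,⟨-12,88,-39⟩⟩,true,25,76,.leaf [(0,679),(1,970),(4,3),(5,10)],.leaf [(0,679),(1,970),(4,3),(5,10)]⟩,
⟨⟨⟨7,-12,-96⟩,⟨84,-47,12⟩,⟨-48,-84,7⟩⟩,true,26,14,.leaf [(0,35),(1,33),(3,75),(4,1)],.leaf [(0,35),(1,33),(3,75),(4,1)]⟩,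
⟨⟨⟨7,-12,96⟩,⟨84,-47,-12⟩,⟨48,84,7⟩⟩,true,26,83,.leaf [(0,7954),(2,5529),(4,89),(5,108)],.leaf [(0,7954),(2,5529),(4,89),(5,108)]⟩,
⟨⟨⟨-39,72,52⟩,⟨88,39,12⟩,⟨-12,52,-81⟩⟩,true,28,31,.leaf [(2,97),(3,970),(4,9),(5,10)],.leaf [(2,97),(3,970),(4,9),(5,10)]⟩,
⟨⟨⟨39,-72,52⟩,⟨88,39,-12⟩,⟨-12,52,81⟩⟩,true,28,66,.leaf [(0,10476),(5,522),(11,13871),(15,7)],.leaf [(0,321),(2,146),(5,4),(10,29)]⟩,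
⟨⟨⟨-63,16,-72⟩,⟨48,-63,-56⟩,⟨-56,-72,33⟩⟩,true,29,15,.leaf [(0,1455),(3,194),(4,17),(7,2)],.leaf [(0,1455),(3,194),(4,17),(7,2)]⟩,
⟨⟨⟨-63,16,72⟩,⟨-48,63,-56⟩,⟨-56,-72,-33⟩⟩,true,29,82,.leaf [(1,103499),(5,620),(7,905),(18,776)],.leaf [(1,10961),(5,44),(7,83),(10,776)]⟩,
⟨⟨⟨-39,52,72⟩,⟨-12,-81,52⟩,⟨88,12,39⟩⟩,true,31,28,.leaf [(0,970),(2,2619),(4,33),(5,20)],.leaf [(0,970),(2,2619),(4,33),(5,20)]⟩,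
⟨⟨⟨-39,52,-72⟩,⟨12,81,52⟩,⟨88,12,-39⟩⟩,true,31,69,.leaf [(4,81),(10,3589),(14,26),(18,194)],.leaf [(1,783),(3,498),(10,364),(15,1)]⟩,
⟨⟨⟨33,88,24⟩,⟨24,-33,88⟩,⟨88,-24,-33⟩⟩,true,35,36,.leaf [(0,88),(1,64),(2,33),(4,1)],.leaf [(0,88),(1,64),(2,33),(4,1)]⟩,
⟨⟨⟨33,88,-24⟩,⟨-24,33,88⟩,⟨88,-24,33⟩⟩,true,35,61,.leaf [(0,55),(1,112),(4,1)],.leaf [(0,55),(1,112),(4,1)]⟩,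
⟨⟨⟨33,24,88⟩,⟨88,-33,-24⟩,⟨24,88,-33⟩⟩,true,36,35,.leaf [(2,1067),(3,1358),(4,3),(5,14)],.leaf [(2,1067),(3,1358),(4,3),(5,14)]⟩,
⟨⟨⟨-33,-24,88⟩,⟨88,-33,24⟩,⟨24,88,33⟩⟩,true,36,62,.leaf [(2,112),(3,55),(5,1)],.leaf [(2,112),(3,55),(5,1)]⟩,
⟨⟨⟨-39,12,88⟩,⟨52,81,12⟩,⟨-72,52,-39⟩⟩,true,37,45,.leaf [(0,40),(1,67),(3,60),(5,1)],.leaf [(0,40),(1,67),(3,60),(5,1)]⟩,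
⟨⟨⟨39,-12,88⟩,⟨52,81,-12⟩,⟨-72,52,39⟩⟩,true,37,52,.leaf [(0,64),(1,1),(3,48),(5,1)],.leaf [(0,64),(1,1),(3,48),(5,1)]⟩,
⟨⟨⟨-47,60,60⟩,⟨-60,25,-72⟩,⟨-60,-72,25⟩⟩,true,40,40,.leaf [(3,41904),(6,513),(18,9215),(22,10)],.leaf [(1,13968),(4,171),(10,9215),(14,10)]⟩,
⟨⟨⟨-47,60,-60⟩,⟨-60,25,72⟩,⟨60,72,25⟩⟩,true,40,57,.leaf [(0,35),(1,90),(3,42),(4,1)],.leaf [(0,35),(1,90),(3,42),(4,1)]⟩,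
⟨⟨⟨-47,-84,12⟩,⟨12,7,96⟩,⟨-84,48,7⟩⟩,true,41,8,.leaf [(0,1261),(1,485),(4,5),(5,13)],.leaf [(0,1261),(1,485),(4,5),(5,13)]⟩,
⟨⟨⟨-47,-84,-12⟩,⟨12,7,-96⟩,⟨84,-48,7⟩⟩,true,41,89,.leaf [(1,9215),(5,31),(11,679),(15,25)],.leaf [(1,24),(2,44),(6,1),(10,33)]⟩,
⟨⟨⟨-63,-56,-48⟩,⟨72,-33,-56⟩,⟨16,-72,63⟩⟩,true,44,10,.leaf [(0,48),(1,15),(2,80),(7,1)],.leaf [(0,48),(1,15),(2,80),(7,1)]⟩,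
⟨⟨⟨-63,-56,48⟩,⟨-72,33,-56⟩,⟨16,-72,-63⟩⟩,true,44,87,.leaf [(1,776),(3,97),(5,8),(7,1)],.leaf [(1,776),(3,97),(5,8),(7,1)]⟩,
⟨⟨⟨-39,88,12⟩,⟨-72,-39,52⟩,⟨52,12,81⟩⟩,true,45,37,.leaf [(0,67),(1,40),(2,60),(4,1)],.leaf [(0,67),(1,40),(2,60),(4,1)]⟩,
⟨⟨⟨-39,88,-12⟩,⟨72,39,52⟩,⟨52,12,-81⟩⟩,true,45,60,.leaf [(0,49),(1,1),(3,63),(4,1)],.leaf [(0,49),(1,1),(3,63),(4,1)]⟩,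
⟨⟨⟨39,88,-12⟩,⟨-72,39,52⟩,⟨52,-12,81⟩⟩,true,52,37,.leaf [(0,1),(1,64),(2,48),(4,1)],.leaf [(0,1),(1,64),(2,48),(4,1)]⟩,
⟨⟨⟨39,88,12⟩,⟨72,-39,52⟩,⟨52,-12,-81⟩⟩,true,52,60,.leaf [(0,60),(2,67),(3,40),(4,1)],.leaf [(0,60),(2,67),(3,40),(4,1)]⟩,
⟨⟨⟨63,-56,48⟩,⟨72,33,-56⟩,⟨16,72,63⟩⟩,true,53,10,.leaf [(0,3395),(2,1261),(5,37),(7,5)],.leaf [(0,3395),(2,1261),(5,37),(7,5)]⟩,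
⟨⟨⟨63,-56,-48⟩,⟨-72,-33,-56⟩,⟨16,72,-63⟩⟩,true,53,87,.leaf [(0,95),(1,15),(2,33),(5,1)],.leaf [(0,95),(1,15),(2,33),(5,1)]⟩,
⟨⟨⟨-47,84,12⟩,⟨-12,7,-96⟩,⟨-84,-48,7⟩⟩,true,56,8,.leaf [(3,9409),(4,24),(7,44),(15,33)],.leaf [(0,29),(2,21),(4,1),(10,27)]⟩,
⟨⟨⟨-47,84,-12⟩,⟨-12,7,96⟩,⟨84,48,7⟩⟩,true,56,89,.leaf [(0,77),(1,75),(3,33),(4,1)],.leaf [(0,77),(1,75),(3,33),(4,1)]⟩,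
⟨⟨⟨-47,-60,60⟩,⟨60,25,72⟩,⟨-60,72,25⟩⟩,true,57,40,.leaf [(0,1649),(1,679),(4,7),(5,17)],.leaf [(0,1649),(1,679),(4,7),(5,17)]⟩,
⟨⟨⟨-47,-60,-60⟩,⟨60,25,-72⟩,⟨60,-72,25⟩⟩,true,57,57,.leaf [(5,972),(14,1170),(18,47045),(22,13)],.leaf [(1,10476),(6,522),(10,19691),(14,7)]⟩,
⟨⟨⟨-39,-12,88⟩,⟨52,-81,12⟩,⟨72,52,39⟩⟩,true,60,45,.leaf [(0,2134),(2,6111),(4,49),(5,76)],.leaf [(0,2134),(2,6111),(4,49),(5,76)]⟩,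
⟨⟨⟨39,12,88⟩,⟨52,-81,-12⟩,⟨72,52,-39⟩⟩,true,60,52,.leaf [(2,9700),(3,7081),(4,60),(5,103)],.leaf [(2,9700),(3,7081),(4,60),(5,103)]⟩,
⟨⟨⟨33,-24,88⟩,⟨88,33,-24⟩,⟨-24,88,33⟩⟩,true,61,35,.leaf [(0,112),(1,55),(5,1)],.leaf [(0,112),(1,55),(5,1)]⟩,
⟨⟨⟨-33,24,88⟩,⟨88,33,24⟩,⟨-24,88,-33⟩⟩,true,61,62,.leaf [(0,55),(3,57),(4,1),(5,1)],.leaf [(0,55),(3,57),(4,1),(5,1)]⟩,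
⟨⟨⟨-33,88,-24⟩,⟨24,33,88⟩,⟨88,24,-33⟩⟩,true,62,36,.leaf [(2,55),(3,112),(4,1)],.leaf [(2,55),(3,112),(4,1)]⟩,
⟨⟨⟨-33,88,24⟩,⟨-24,-33,88⟩,⟨88,24,33⟩⟩,true,62,61,.leaf [(0,97),(1,64),(2,24),(4,1)],.leaf [(0,97),(1,64),(2,24),(4,1)]⟩,
⟨⟨⟨39,52,-72⟩,⟨-12,81,52⟩,⟨88,-12,39⟩⟩,true,66,28,.leaf [(1,10476),(4,522),(10,13871),(14,7)],.R (.leaf [(10,891),(26,44),(30,1),(35,8)]) (.leaf [(10,729),(26,56),(30,1),(34,2)]) (.leaf [(10,149283),(26,9700),(30,209),(39,8)])⟩,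
⟨⟨⟨39,52,72⟩,⟨12,-81,52⟩,⟨88,-12,-39⟩⟩,true,66,69,.leaf [(0,4753),(2,8730),(4,111),(5,20)],.leaf [(0,4753),(2,8730),(4,111),(5,20)]⟩,
⟨⟨⟨63,16,72⟩,⟨48,63,-56⟩,⟨-56,72,33⟩⟩,true,68,15,.leaf [(3,9409),(5,99),(7,44),(14,8)],.leaf [(3,20273),(5,171),(7,100),(10,776)]⟩,
⟨⟨⟨63,16,-72⟩,⟨-48,-63,-56⟩,⟨-56,72,-33⟩⟩,true,68,82,.leaf [(1,194),(2,1455),(4,17),(5,2)],.leaf [(1,194),(2,1455),(4,17),(5,2)]⟩,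
⟨⟨⟨-39,-72,52⟩,⟨88,-39,12⟩,⟨12,52,81⟩⟩,true,69,31,.leaf [(5,513),(11,20273),(15,100),(18,776)],.leaf [(0,117),(2,350),(5,4),(10,29)]⟩,
⟨⟨⟨39,72,52⟩,⟨88,-39,-12⟩,⟨12,52,-81⟩⟩,true,69,66,.leaf [(2,679),(3,1552),(4,9),(5,16)],.leaf [(2,679),(3,1552),(4,9),(5,16)]⟩,
⟨⟨⟨7,12,-96⟩,⟨-84,-47,-12⟩,⟨-48,84,7⟩⟩,true,71,14,.leaf [(0,26),(1,84),(2,33),(4,1)],.leaf [(0,26),(1,84),(2,33),(4,1)]⟩,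
⟨⟨⟨7,12,96⟩,⟨-84,-47,12⟩,⟨48,-84,7⟩⟩,true,71,83,.leaf [(1,9409),(4,24),(5,41),(6,72)],.leaf [(1,9409),(4,24),(5,41),(6,72)]⟩,
⟨⟨⟨81,12,52⟩,⟨52,-39,-72⟩,⟨12,88,-39⟩⟩,true,72,21,.leaf [(0,76),(1,49),(3,42),(5,1)],.leaf [(0,76),(1,49),(3,42),(5,1)]⟩,
⟨⟨⟨-81,-12,52⟩,⟨52,-39,72⟩,⟨12,88,39⟩⟩,true,72,76,.leaf [(0,7081),(3,2619),(4,103),(5,43)],.leaf [(0,7081),(3,2619),(4,103),(5,43)]⟩,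
⟨⟨⟨-65,72,0⟩,⟨-72,-65,0⟩,⟨0,0,97⟩⟩,true,75,0,.leaf [(0,65),(2,72),(4,1)],.leaf [(0,65),(2,72),(4,1)]⟩,
⟨⟨⟨-81,52,12⟩,⟨-12,-39,88⟩,⟨52,72,39⟩⟩,true,76,25,.leaf [(0,91),(1,49),(3,27),(4,1)],.leaf [(0,91),(1,49),(3,27),(4,1)]⟩,
⟨⟨⟨-81,52,-12⟩,⟨12,39,88⟩,⟨52,72,-39⟩⟩,true,76,72,.leaf [(0,13),(1,10),(3,90),(4,1)],.leaf [(0,13),(1,10),(3,90),(4,1)]⟩,
⟨⟨⟨25,60,-72⟩,⟨-60,-47,-60⟩,⟨-72,60,25⟩⟩,true,80,1,.leaf [(0,17),(1,12),(2,90),(4,1)],.leaf [(0,17),(1,12),(2,90),(4,1)]⟩,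
⟨⟨⟨25,60,72⟩,⟨-60,-47,60⟩,⟨72,-60,25⟩⟩,true,80,96,.leaf [(2,9409),(4,102),(5,12),(6,5)],.leaf [(2,9409),(4,102),(5,12),(6,5)]⟩,
⟨⟨⟨-63,72,16⟩,⟨-56,-33,-72⟩,⟨-48,-56,63⟩⟩,true,82,29,.L (.leaf [(2,9409),(5,24),(6,44),(14,33)]) (.leaf [(0,50),(1,132),(2,45),(4,1)]) (.leaf [(0,108),(1,110),(3,33),(5,1)]),.leaf [(0,5917),(4,40),(6,49),(10,194)]⟩,
⟨⟨⟨63,-72,16⟩,⟨-56,-33,72⟩,⟨-48,-56,-63⟩⟩,true,82,68,.leaf [(1,776),(3,3201),(4,16),(5,39)],.leaf [(1,776),(3,3201),(4,16),(5,39)]⟩,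
⟨⟨⟨7,96,-12⟩,⟨48,7,84⟩,⟨84,-12,-47⟩⟩,true,83,26,.leaf [(0,89),(1,72),(3,24),(4,1)],.leaf [(0,89),(1,72),(3,24),(4,1)]⟩,
⟨⟨⟨7,96,12⟩,⟨48,7,-84⟩,⟨-84,12,-47⟩⟩,true,83,71,.leaf [(0,9409),(4,41),(5,24),(7,72)],.leaf [(0,9409),(4,41),(5,24),(7,72)]⟩,
⟨⟨⟨-33,-56,-72⟩,⟨72,-63,16⟩,⟨-56,-48,63⟩⟩,true,84,11,.leaf [(0,1164),(3,8051),(4,92),(7,5)],.leaf [(0,1164),(3,8051),(4,92),(7,5)]⟩,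
⟨⟨⟨-33,-56,72⟩,⟨-72,63,16⟩,⟨-56,-48,-63⟩⟩,true,84,86,.leaf [(0,8),(1,60),(3,75),(5,1)],.leaf [(0,8),(1,60),(3,75),(5,1)]⟩,
⟨⟨⟨7,-84,-48⟩,⟨12,-47,84⟩,⟨-96,-12,7⟩⟩,true,85,7,.leaf [(1,1649),(3,5820),(4,72),(5,37)],.leaf [(1,1649),(3,5820),(4,72),(5,37)]⟩,
⟨⟨⟨7,-84,48⟩,⟨12,-47,-84⟩,⟨96,12,7⟩⟩,true,85,90,.leaf [(0,24),(1,41),(2,72),(5,1)],.leaf [(0,24),(1,41),(2,72),(5,1)]⟩,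
⟨⟨⟨33,-72,-56⟩,⟨-56,-63,48⟩,⟨-72,16,-63⟩⟩,true,86,13,.leaf [(1,8051),(3,1164),(4,88),(5,9)],.leaf [(1,8051),(3,1164),(4,88),(5,9)]⟩,
⟨⟨⟨-33,72,-56⟩,⟨-56,-63,-48⟩,⟨-72,16,63⟩⟩,true,86,84,.leaf [(0,60),(1,8),(2,75),(4,1)],.leaf [(0,60),(1,8),(2,75),(4,1)]⟩,
⟨⟨⟨-63,48,-56⟩,⟨16,-63,-72⟩,⟨-72,-56,33⟩⟩,true,87,44,.leaf [(0,776),(2,97),(4,8),(6,1)],.leaf [(0,776),(2,97),(4,8),(6,1)]⟩,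
⟨⟨⟨63,-48,-56⟩,⟨16,-63,72⟩,⟨-72,-56,-33⟩⟩,true,87,53,.leaf [(0,15),(1,95),(3,33),(4,1)],.leaf [(0,15),(1,95),(3,33),(4,1)]⟩,
⟨⟨⟨-47,-12,-84⟩,⟨84,7,-48⟩,⟨12,-96,7⟩⟩,true,89,41,.leaf [(0,9215),(4,31),(10,679),(14,25)],.leaf [(1,408564),(4,62775),(26,233867),(30,10)]⟩,
⟨⟨⟨-47,-12,84⟩,⟨84,7,48⟩,⟨-12,96,7⟩⟩,true,89,56,.leaf [(0,75),(1,77),(2,33),(5,1)],.leaf [(0,75),(1,77),(2,33),(5,1)]⟩,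
⟨⟨⟨7,48,84⟩,⟨96,7,-12⟩,⟨-12,84,-47⟩⟩,true,90,12,.leaf [(0,2813),(3,1164),(4,37),(5,36)],.leaf [(0,2813),(3,1164),(4,37),(5,36)]⟩,
⟨⟨⟨7,48,-84⟩,⟨96,7,12⟩,⟨12,-84,-47⟩⟩,true,90,85,.leaf [(0,41),(1,24),(3,72),(4,1)],.leaf [(0,41),(1,24),(3,72),(4,1)]⟩,
⟨⟨⟨25,72,-60⟩,⟨72,25,60⟩,⟨60,-60,-47⟩⟩,true,96,17,.leaf [(0,47),(1,60),(3,60),(4,1)],.leaf [(0,47),(1,60),(3,60),(4,1)]⟩,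
⟨⟨⟨25,72,60⟩,⟨72,25,-60⟩,⟨-60,60,-47⟩⟩,true,96,80,.leaf [(3,9409),(4,12),(5,102),(7,5)],.leaf [(3,9409),(4,12),(5,102),(7,5)]⟩]

theorem primeOk_97 : PrimeOk 97 := primeOk (by norm_num) (by norm_num) (by norm_num) L97
  (by decide +kernel) (by decide +kernel)

def L211 : List Cls := [
⟨⟨⟨49,-162,126⟩,⟨-162,49,126⟩,⟨-126,-126,-113⟩⟩,true,1,93,.leaf [(0,36),(1,50),(3,189),(5,1)],.leaf [(0,36),(1,50),(3,189),(5,1)]⟩,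
⟨⟨⟨49,-162,-126⟩,⟨-162,49,-126⟩,⟨126,126,-113⟩⟩,true,1,118,.leaf [(0,23843),(2,44521),(5,239),(7,13)],.leaf [(0,23843),(2,44521),(5,239),(7,13)]⟩,
⟨⟨⟨193,-54,-66⟩,⟨-54,49,-198⟩,⟨66,198,31⟩⟩,true,3,74,.leaf [(0,1055),(2,21733),(5,35),(7,97)],.leaf [(0,1055),(2,21733),(5,35),(7,97)]⟩,
⟨⟨⟨193,-54,66⟩,⟨-54,49,198⟩,⟨-66,-198,31⟩⟩,true,3,137,.leaf [(1,7385),(3,20467),(4,5),(6,103)],.leaf [(1,7385),(3,20467),(4,5),(6,103)]⟩,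
⟨⟨⟨129,94,-138⟩,⟨114,-177,-14⟩,⟨-122,-66,-159⟩⟩,true,4,48,.leaf [(0,190),(1,124),(2,81),(4,1)],.leaf [(0,190),(1,124),(2,81),(4,1)]⟩,
⟨⟨⟨129,94,138⟩,⟨-114,177,-14⟩,⟨-122,-66,159⟩⟩,true,4,163,.leaf [(1,75),(3,110),(7,1),(10,28)],.leaf [(1,4431),(3,4853),(7,31),(15,1)]⟩,
⟨⟨⟨-81,-194,-18⟩,⟨114,-63,166⟩,⟨-158,54,129⟩⟩,true,5,94,.leaf [(0,44521),(4,177),(5,251),(7,39)],.leaf [(0,44521),(4,177),(5,251),(7,39)]⟩,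
⟨⟨⟨-81,-194,18⟩,⟨-114,63,166⟩,⟨-158,54,-129⟩⟩,true,5,117,.leaf [(0,236),(1,147),(2,12),(5,1)],.leaf [(0,236),(1,147),(2,12),(5,1)]⟩,
⟨⟨⟨159,58,-126⟩,⟨102,81,166⟩,⟨94,-186,33⟩⟩,true,7,43,.leaf [(1,18357),(3,16880),(4,128),(7,23)],.leaf [(1,18357),(3,16880),(4,128),(7,23)]⟩,
⟨⟨⟨159,58,126⟩,⟨-102,-81,166⟩,⟨94,-186,-33⟩⟩,true,7,168,.leaf [(1,44521),(4,268),(5,181),(7,54)],.leaf [(1,44521),(4,268),(5,181),(7,54)]⟩,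
⟨⟨⟨-177,-14,114⟩,⟨-66,-159,-122⟩,⟨94,-138,129⟩⟩,true,12,53,.leaf [(2,16669),(3,13082),(4,29),(7,82)],.leaf [(2,16669),(3,13082),(4,29),(7,82)]⟩,
⟨⟨⟨-177,-14,-114⟩,⟨66,159,-122⟩,⟨94,-138,-129⟩⟩,true,12,158,.leaf [(4,557),(5,2049),(7,841),(18,44521)],.leaf [(1,105),(2,65),(7,1),(10,87)]⟩,
⟨⟨⟨-15,-210,-14⟩,⟨-14,15,-210⟩,⟨210,-14,-15⟩⟩,true,14,15,.leaf [(1,3165),(2,2954),(5,29),(6,14)],.leaf [(1,3165),(2,2954),(5,29),(6,14)]⟩,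
⟨⟨⟨15,210,-14⟩,⟨-14,15,210⟩,⟨210,-14,15⟩⟩,true,14,196,.leaf [(0,195),(1,224),(4,1)],.leaf [(0,195),(1,224),(4,1)]⟩,
⟨⟨⟨-15,-14,-210⟩,⟨210,-15,-14⟩,⟨-14,-210,15⟩⟩,true,15,14,.leaf [(0,3165),(3,2954),(4,29),(7,14)],.leaf [(0,3165),(3,2954),(4,29),(7,14)]⟩,
⟨⟨⟨-15,-14,210⟩,⟨-210,15,-14⟩,⟨-14,-210,-15⟩⟩,true,15,197,.leaf [(1,1688),(3,1477),(5,8),(7,7)],.leaf [(1,1688),(3,1477),(5,8),(7,7)]⟩,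
⟨⟨⟨31,198,66⟩,⟨-198,49,-54⟩,⟨-66,-54,193⟩⟩,true,20,77,.leaf [(4,2673),(11,139682),(15,394),(18,36503)],.leaf [(0,52),(1,109),(7,1),(10,92)]⟩,
⟨⟨⟨31,198,-66⟩,⟨-198,49,54⟩,⟨66,54,193⟩⟩,true,20,134,.leaf [(0,20),(1,120),(2,129),(4,1)],.leaf [(0,20),(1,120),(2,129),(4,1)]⟩,
⟨⟨⟨-159,-122,-66⟩,⟨-138,129,94⟩,⟨-14,114,-177⟩⟩,true,22,88,.leaf [(0,633),(1,1688),(4,5),(5,8)],.leaf [(0,633),(1,1688),(4,5),(5,8)]⟩,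
⟨⟨⟨-159,-122,66⟩,⟨138,-129,94⟩,⟨-14,114,177⟩⟩,true,22,123,.leaf [(0,44521),(4,267),(5,179),(7,51)],.leaf [(0,44521),(4,267),(5,179),(7,51)]⟩,
⟨⟨⟨33,126,166⟩,⟨94,-159,102⟩,⟨186,58,-81⟩⟩,true,23,37,.leaf [(0,35659),(2,30384),(4,247),(5,64)],.leaf [(0,35659),(2,30384),(4,247),(5,64)]⟩,
⟨⟨⟨-33,-126,166⟩,⟨94,-159,-102⟩,⟨186,58,81⟩⟩,true,23,174,.leaf [(0,25),(1,85),(2,159),(5,1)],.leaf [(0,25),(1,85),(2,159),(5,1)]⟩,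
⟨⟨⟨-81,166,102⟩,⟨186,33,94⟩,⟨58,126,-159⟩⟩,true,24,30,.leaf [(2,5275),(3,12871),(4,55),(5,51)],.leaf [(2,5275),(3,12871),(4,55),(5,51)]⟩,
⟨⟨⟨-81,166,-102⟩,⟨-186,-33,94⟩,⟨58,126,159⟩⟩,true,24,181,.leaf [(0,145),(1,196),(2,54),(4,1)],.leaf [(0,145),(1,196),(2,54),(4,1)]⟩,
⟨⟨⟨-159,138,-14⟩,⟨-122,-129,114⟩,⟨66,94,177⟩⟩,true,27,89,.leaf [(0,216),(1,128),(2,51),(4,1)],.leaf [(0,216),(1,128),(2,51),(4,1)]⟩,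
⟨⟨⟨159,-138,-14⟩,⟨-122,-129,-114⟩,⟨66,94,-177⟩⟩,true,27,122,.leaf [(0,232),(1,151),(3,12),(5,1)],.leaf [(0,232),(1,151),(3,12),(5,1)]⟩,
⟨⟨⟨-81,-158,-114⟩,⟨18,-129,166⟩,⟨-194,54,63⟩⟩,true,28,103,.leaf [(1,14981),(3,39246),(4,212),(5,29)],.leaf [(1,14981),(3,39246),(4,212),(5,29)]⟩,
⟨⟨⟨-81,-158,114⟩,⟨-18,129,166⟩,⟨-194,54,-63⟩⟩,true,28,108,.leaf [(0,212),(1,138),(3,39),(5,1)],.leaf [(0,212),(1,138),(3,39),(5,1)]⟩,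
⟨⟨⟨-81,102,166⟩,⟨58,-159,126⟩,⟨186,94,33⟩⟩,true,30,24,.leaf [(0,21100),(2,13293),(4,133),(5,40)],.leaf [(0,21100),(2,13293),(4,133),(5,40)]⟩,
⟨⟨⟨81,-102,166⟩,⟨58,-159,-126⟩,⟨186,94,-33⟩⟩,true,30,187,.leaf [(0,145),(1,199),(2,51),(5,1)],.leaf [(0,145),(1,199),(2,51),(5,1)]⟩,
⟨⟨⟨63,54,-194⟩,⟨166,-129,18⟩,⟨-114,-158,-81⟩⟩,true,31,84,.leaf [(0,183),(1,146),(3,66),(4,1)],.leaf [(0,183),(1,146),(3,66),(4,1)]⟩,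
⟨⟨⟨-63,-54,-194⟩,⟨166,-129,-18⟩,⟨-114,-158,81⟩⟩,true,31,127,.leaf [(0,75),(1,11),(3,165),(4,1)],.leaf [(0,75),(1,11),(3,165),(4,1)]⟩,
⟨⟨⟨175,114,-30⟩,⟨30,-95,-186⟩,⟨-114,150,-95⟩⟩,true,32,36,.leaf [(0,44521),(4,125),(5,225),(7,39)],.leaf [(0,44521),(4,125),(5,225),(7,39)]⟩,
⟨⟨⟨175,114,30⟩,⟨30,-95,186⟩,⟨114,-150,-95⟩⟩,true,32,175,.leaf [(0,110),(1,156),(2,99),(4,1)],.leaf [(0,110),(1,156),(2,99),(4,1)]⟩,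
⟨⟨⟨-95,30,186⟩,⟨114,175,30⟩,⟨-150,114,-95⟩⟩,true,33,78,.leaf [(1,71),(2,84),(3,210),(5,1)],.leaf [(1,71),(2,84),(3,210),(5,1)]⟩,
⟨⟨⟨-95,30,-186⟩,⟨114,175,-30⟩,⟨150,-114,-95⟩⟩,true,33,133,.leaf [(3,9495),(7,87),(10,2954),(14,14)],.leaf [(1,1755),(3,498),(10,556),(15,1)]⟩,
⟨⟨⟨129,166,-18⟩,⟨54,-63,-194⟩,⟨-158,114,-81⟩⟩,true,34,98,.leaf [(0,927),(4,3),(11,80),(18,112)],.leaf [(0,51695),(4,339),(5,304),(10,10128)]⟩,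
⟨⟨⟨129,166,18⟩,⟨-54,63,-194⟩,⟨-158,114,81⟩⟩,true,34,113,.L (.L (.L (.leaf [(0,38191),(3,13293),(4,237),(5,41)]) (.leaf [(0,163),(1,292),(2,186),(4,1)]) (.leaf [(0,139),(1,180),(3,220),(6,1)])) (.leaf [(0,28063),(1,8440),(4,100),(6,63)]) (.leaf [(0,217),(1,154),(3,246),(4,1)])) (.leaf [(0,249),(1,120),(2,20),(6,1)]) (.leaf [(0,264),(1,65),(3,204),(5,1)]),.leaf [(4,1410),(5,1215),(10,89042),(15,23)]⟩,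
⟨⟨⟨175,-30,114⟩,⟨-114,-95,150⟩,⟨30,-186,-95⟩⟩,true,36,32,.leaf [(1,44521),(4,225),(5,125),(6,39)],.leaf [(1,44521),(4,225),(5,125),(6,39)]⟩,
⟨⟨⟨175,-30,-114⟩,⟨-114,-95,-150⟩,⟨-30,186,-95⟩⟩,true,36,179,.leaf [(0,2321),(2,211),(5,11),(7,1)],.leaf [(0,2321),(2,211),(5,11),(7,1)]⟩,
⟨⟨⟨33,166,126⟩,⟨186,-81,58⟩,⟨94,102,-159⟩⟩,true,37,23,.leaf [(0,52750),(2,13293),(4,285),(5,68)],.leaf [(0,52750),(2,13293),(4,285),(5,68)]⟩,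
⟨⟨⟨33,166,-126⟩,⟨-186,81,58⟩,⟨94,102,159⟩⟩,true,37,188,.leaf [(0,25),(1,184),(2,60),(4,1)],.leaf [(0,25),(1,184),(2,60),(4,1)]⟩,
⟨⟨⟨-177,94,66⟩,⟨-114,-129,-122⟩,⟨-14,-138,159⟩⟩,true,40,64,.leaf [(2,17302),(3,6119),(4,62),(7,79)],.leaf [(2,17302),(3,6119),(4,62),(7,79)]⟩,
⟨⟨⟨-177,94,-66⟩,⟨114,129,-122⟩,⟨-14,-138,-159⟩⟩,true,40,147,.leaf [(5,9477),(7,11124),(18,356168),(23,121)],.leaf [(4,669),(7,711),(10,44521),(15,49)]⟩,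
⟨⟨⟨-95,114,-150⟩,⟨30,175,114⟩,⟨186,30,-95⟩⟩,true,41,46,.leaf [(1,44521),(4,84),(5,155),(7,126)],.leaf [(1,44521),(4,84),(5,155),(7,126)]⟩,
⟨⟨⟨-95,114,150⟩,⟨30,175,-114⟩,⟨-186,-30,-95⟩⟩,true,41,165,.leaf [(3,44521),(5,147),(7,113),(15,21)],.leaf [(3,65621),(5,42),(7,283),(10,17724)]⟩,
⟨⟨⟨-63,-114,166⟩,⟨-194,81,-18⟩,⟨-54,-158,-129⟩⟩,true,42,61,.leaf [(1,42),(3,77),(5,1),(10,44)],.leaf [(1,19623),(3,25531),(5,149),(15,11)]⟩,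
⟨⟨⟨63,114,166⟩,⟨-194,81,18⟩,⟨-54,-158,129⟩⟩,true,42,150,.leaf [(0,44521),(4,169),(5,7),(15,111)],.leaf [(0,117),(2,32),(6,1),(10,46)]⟩,
⟨⟨⟨159,-126,58⟩,⟨94,33,-186⟩,⟨102,166,81⟩⟩,true,43,7,.leaf [(0,18357),(2,16880),(5,128),(6,23)],.leaf [(0,18357),(2,16880),(5,128),(6,23)]⟩,
⟨⟨⟨-159,126,58⟩,⟨94,33,186⟩,⟨102,166,-81⟩⟩,true,43,204,.leaf [(0,5275),(3,7596),(4,55),(5,4)],.leaf [(0,5275),(3,7596),(4,55),(5,4)]⟩,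
⟨⟨⟨33,186,94⟩,⟨166,-81,102⟩,⟨126,58,-159⟩⟩,true,44,54,.leaf [(0,204),(1,8),(2,63),(4,1)],.leaf [(0,204),(1,8),(2,63),(4,1)]⟩,
⟨⟨⟨-33,-186,94⟩,⟨166,-81,-102⟩,⟨126,58,159⟩⟩,true,44,157,.leaf [(2,91152),(5,423),(11,1055),(15,40)],.leaf [(0,105),(2,806),(5,4),(10,65)]⟩,
⟨⟨⟨81,58,186⟩,⟨-102,-159,94⟩,⟨166,-126,-33⟩⟩,true,45,57,.leaf [(2,44521),(4,261),(5,81),(7,41)],.leaf [(2,44521),(4,261),(5,81),(7,41)]⟩,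
⟨⟨⟨81,58,-186⟩,⟨102,159,94⟩,⟨166,-126,33⟩⟩,true,45,154,.leaf [(3,44521),(4,268),(7,181),(15,18)],.leaf [(3,48741),(7,279),(10,22577),(14,5)]⟩,
⟨⟨⟨-95,-150,114⟩,⟨186,-95,30⟩,⟨30,114,175⟩⟩,true,46,41,.leaf [(0,44521),(4,155),(5,84),(6,126)],.leaf [(0,44521),(4,155),(5,84),(6,126)]⟩,
⟨⟨⟨-95,-150,-114⟩,⟨186,-95,-30⟩,⟨-30,-114,175⟩⟩,true,46,170,.leaf [(0,44521),(4,92),(6,168),(14,21)],.leaf [(0,4642),(4,11),(6,24),(10,633)]⟩,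
⟨⟨⟨129,-138,94⟩,⟨-122,-159,-66⟩,⟨114,-14,-177⟩⟩,true,48,4,.leaf [(0,1055),(1,1688),(4,3),(5,8)],.leaf [(0,1055),(1,1688),(4,3),(5,8)]⟩,
⟨⟨⟨-129,138,94⟩,⟨-122,-159,66⟩,⟨114,-14,177⟩⟩,true,48,207,.leaf [(0,82),(2,103),(4,1),(11,28)],.leaf [(0,145),(2,145),(4,1),(10,7)]⟩,
⟨⟨⟨-177,114,-14⟩,⟨94,129,-138⟩,⟨-66,-122,-159⟩⟩,true,53,12,.leaf [(2,13082),(3,16669),(5,29),(6,82)],.leaf [(2,13082),(3,16669),(5,29),(6,82)]⟩,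
⟨⟨⟨177,-114,-14⟩,⟨94,129,138⟩,⟨-66,-122,159⟩⟩,true,53,199,.leaf [(4,162),(6,219),(10,5486),(18,6119)],.leaf [(5,639),(6,351),(10,44521),(15,59)]⟩,
⟨⟨⟨33,94,186⟩,⟨126,-159,58⟩,⟨166,102,-81⟩⟩,true,54,44,.leaf [(0,38191),(2,30384),(4,267),(5,128)],.leaf [(0,38191),(2,30384),(4,267),(5,128)]⟩,
⟨⟨⟨33,94,-186⟩,⟨-126,159,58⟩,⟨166,102,81⟩⟩,true,54,167,.leaf [(1,119637),(4,1278),(10,48530),(15,55)],.leaf [(1,12459339),(14,52020),(26,1386692),(31,155)]⟩,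
⟨⟨⟨159,94,-102⟩,⟨126,-33,166⟩,⟨58,-186,-81⟩⟩,true,55,75,.leaf [(0,127),(1,214),(3,54),(4,1)],.leaf [(0,127),(1,214),(3,54),(4,1)]⟩,
⟨⟨⟨159,94,102⟩,⟨-126,33,166⟩,⟨58,-186,81⟩⟩,true,55,136,.leaf [(1,15192),(2,11183),(4,123),(7,40)],.leaf [(1,15192),(2,11183),(4,123),(7,40)]⟩,
⟨⟨⟨81,186,58⟩,⟨166,-33,-126⟩,⟨-102,94,-159⟩⟩,true,57,45,.leaf [(3,44521),(4,81),(5,261),(6,41)],.leaf [(3,44521),(4,81),(5,261),(6,41)]⟩,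
⟨⟨⟨-81,-186,58⟩,⟨166,-33,126⟩,⟨-102,94,159⟩⟩,true,57,166,.leaf [(0,90),(5,3),(11,215),(18,22)],.leaf [(0,66676),(4,259),(5,400),(10,5697)]⟩,
⟨⟨⟨-129,114,-122⟩,⟨94,177,66⟩,⟨138,-14,-159⟩⟩,true,58,86,.leaf [(3,44521),(4,216),(5,21),(6,56)],.leaf [(3,44521),(4,216),(5,21),(6,56)]⟩,
⟨⟨⟨129,-114,-122⟩,⟨94,177,-66⟩,⟨138,-14,159⟩⟩,true,58,125,.leaf [(0,14),(1,188),(2,49),(6,1)],.leaf [(0,14),(1,188),(2,49),(6,1)]⟩,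
⟨⟨⟨-113,-126,-126⟩,⟨126,49,-162⟩,⟨126,-162,49⟩⟩,true,59,59,.leaf [(5,2916),(14,2295),(18,222605),(22,34)],.leaf [(1,68364),(6,1161),(10,99803),(14,22)]⟩,
⟨⟨⟨-113,-126,126⟩,⟨126,49,162⟩,⟨-126,162,49⟩⟩,true,59,152,.leaf [(0,5275),(1,2321),(4,11),(5,25)],.leaf [(0,5275),(1,2321),(4,11),(5,25)]⟩,
⟨⟨⟨-63,166,-114⟩,⟨-54,-129,-158⟩,⟨-194,-18,81⟩⟩,true,61,42,.leaf [(0,42),(2,77),(4,1),(11,44)],.leaf [(0,141),(2,143),(4,1),(10,11)]⟩,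
⟨⟨⟨-63,166,114⟩,⟨54,129,-158⟩,⟨-194,-18,-81⟩⟩,true,61,169,.leaf [(1,578562),(5,5370),(14,2195),(18,36503)],.leaf [(1,5940),(3,4260),(10,2177),(22,1)]⟩,
⟨⟨⟨-177,66,94⟩,⟨-14,159,-138⟩,⟨-114,-122,-129⟩⟩,true,64,40,.leaf [(2,6119),(3,17302),(5,62),(6,79)],.leaf [(2,6119),(3,17302),(5,62),(6,79)]⟩,
⟨⟨⟨177,-66,94⟩,⟨-14,159,138⟩,⟨-114,-122,129⟩⟩,true,64,171,.leaf [(4,3),(5,4),(6,2),(14,1)],.leaf [(5,396),(6,627),(10,44521),(22,14)]⟩,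
⟨⟨⟨49,54,-198⟩,⟨54,193,66⟩,⟨198,-66,31⟩⟩,true,70,95,.leaf [(1,44521),(4,148),(7,133),(15,34)],.R (.leaf [(1,729),(10,315),(26,7),(35,5)]) (.leaf [(1,801),(7,3),(10,77),(34,1)]) (.leaf [(1,370332),(10,89550),(26,9511),(38,5)])⟩,
⟨⟨⟨49,54,198⟩,⟨54,193,-66⟩,⟨-198,66,31⟩⟩,true,70,116,.leaf [(3,9495),(7,69),(14,175),(18,12449)],.leaf [(0,111),(3,58),(7,2),(10,129)]⟩,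
⟨⟨⟨193,-66,-54⟩,⟨66,31,198⟩,⟨-54,-198,49⟩⟩,true,74,3,.leaf [(1,1055),(3,21733),(4,35),(6,97)],.leaf [(1,1055),(3,21733),(4,35),(6,97)]⟩,
⟨⟨⟨193,-66,54⟩,⟨66,31,-198⟩,⟨54,198,49⟩⟩,true,74,208,.leaf [(0,204),(1,5),(2,60),(5,1)],.leaf [(0,204),(1,5),(2,60),(5,1)]⟩,
⟨⟨⟨159,-102,94⟩,⟨58,-81,-186⟩,⟨126,166,-33⟩⟩,true,75,55,.leaf [(0,214),(1,127),(2,54),(5,1)],.leaf [(0,214),(1,127),(2,54),(5,1)]⟩,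
⟨⟨⟨-159,102,94⟩,⟨58,-81,186⟩,⟨126,166,33⟩⟩,true,75,156,.leaf [(0,183),(1,29),(3,63),(4,1)],.leaf [(0,183),(1,29),(3,63),(4,1)]⟩,
⟨⟨⟨31,66,198⟩,⟨-66,193,-54⟩,⟨-198,-54,49⟩⟩,true,77,20,.leaf [(5,4212),(10,169222),(14,1727),(18,36503)],.leaf [(1,1566),(3,1407),(10,652),(15,1)]⟩,
⟨⟨⟨31,66,-198⟩,⟨-66,193,54⟩,⟨198,54,49⟩⟩,true,77,191,.leaf [(1,44943),(3,4220),(4,120),(7,127)],.leaf [(1,44943),(3,4220),(4,120),(7,127)]⟩,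
⟨⟨⟨-95,186,30⟩,⟨-150,-95,114⟩,⟨114,30,175⟩⟩,true,78,33,.leaf [(0,71),(2,210),(3,84),(4,1)],.leaf [(0,71),(2,210),(3,84),(4,1)]⟩,
⟨⟨⟨-95,186,-30⟩,⟨-150,-95,-114⟩,⟨-114,-30,175⟩⟩,true,78,178,.leaf [(2,4431),(4,639),(11,29329),(15,97)],.leaf [(0,92),(2,168),(4,1),(10,21)]⟩,
⟨⟨⟨-129,54,-158⟩,⟨166,63,-114⟩,⟨18,-194,-81⟩⟩,true,83,101,.leaf [(0,117),(1,213),(3,59),(6,1)],.leaf [(0,117),(1,213),(3,59),(6,1)]⟩,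
⟨⟨⟨129,-54,-158⟩,⟨166,63,114⟩,⟨18,-194,81⟩⟩,true,83,110,.leaf [(4,972),(6,609),(10,78703),(18,5908)],.leaf [(1,182304),(6,225),(10,58025),(15,112)]⟩,
⟨⟨⟨63,-194,54⟩,⟨-114,-81,-158⟩,⟨166,18,-129⟩⟩,true,84,31,.leaf [(0,146),(1,183),(2,66),(5,1)],.leaf [(0,146),(1,183),(2,66),(5,1)]⟩,
⟨⟨⟨63,-194,-54⟩,⟨114,81,-158⟩,⟨166,18,129⟩⟩,true,84,180,.leaf [(0,13715),(2,2321),(5,25),(7,61)],.leaf [(0,13715),(2,2321),(5,25),(7,61)]⟩,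
⟨⟨⟨-129,-122,114⟩,⟨138,-159,-14⟩,⟨94,66,177⟩⟩,true,86,58,.leaf [(2,44521),(4,21),(5,216),(7,56)],.leaf [(2,44521),(4,21),(5,216),(7,56)]⟩,
⟨⟨⟨-129,-122,-114⟩,⟨-138,159,-14⟩,⟨94,66,-177⟩⟩,true,86,153,.leaf [(0,14),(1,63),(2,174),(5,1)],.leaf [(0,14),(1,63),(2,174),(5,1)]⟩,
⟨⟨⟨-159,-66,-122⟩,⟨-14,-177,114⟩,⟨-138,94,129⟩⟩,true,88,22,.leaf [(0,10),(2,101),(3,236),(4,1)],.leaf [(0,10),(2,101),(3,236),(4,1)]⟩,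
⟨⟨⟨159,66,-122⟩,⟨-14,-177,-114⟩,⟨-138,94,-129⟩⟩,true,88,189,.leaf [(0,39),(1,8),(2,204),(4,1)],.leaf [(0,39),(1,8),(2,204),(4,1)]⟩,
⟨⟨⟨-159,-14,138⟩,⟨66,177,94⟩,⟨-122,114,-129⟩⟩,true,89,27,.leaf [(0,128),(1,216),(3,51),(5,1)],.leaf [(0,128),(1,216),(3,51),(5,1)]⟩,
⟨⟨⟨-159,-14,-138⟩,⟨-66,-177,94⟩,⟨-122,114,129⟩⟩,true,89,184,.leaf [(0,163),(1,151),(3,81),(4,1)],.leaf [(0,163),(1,151),(3,81),(4,1)]⟩,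
⟨⟨⟨49,126,-162⟩,⟨-126,-113,-126⟩,⟨-162,126,49⟩⟩,true,93,1,.leaf [(0,50),(1,36),(2,189),(4,1)],.leaf [(0,50),(1,36),(2,189),(4,1)]⟩,
⟨⟨⟨49,126,162⟩,⟨-126,-113,126⟩,⟨162,-126,49⟩⟩,true,93,210,.leaf [(2,44521),(4,225),(5,36),(6,14)],.leaf [(2,44521),(4,225),(5,36),(6,14)]⟩,
⟨⟨⟨-81,-18,-194⟩,⟨-158,129,54⟩,⟨114,166,-63⟩⟩,true,94,5,.leaf [(1,44521),(4,251),(5,177),(6,39)],.leaf [(1,44521),(4,251),(5,177),(6,39)]⟩,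
⟨⟨⟨81,18,-194⟩,⟨-158,129,-54⟩,⟨114,166,63⟩⟩,true,94,206,.leaf [(1,44521),(4,215),(5,51),(6,111)],.leaf [(1,44521),(4,215),(5,51),(6,111)]⟩,
⟨⟨⟨49,-198,54⟩,⟨198,31,-66⟩,⟨54,66,193⟩⟩,true,95,70,.leaf [(0,44521),(5,148),(6,133),(14,34)],.leaf [(0,379),(2,538),(5,4),(10,139)]⟩,
⟨⟨⟨49,-198,-54⟩,⟨198,31,66⟩,⟨-54,-66,193⟩⟩,true,95,141,.leaf [(0,270),(11,119),(15,1),(18,98)],.leaf [(0,150),(3,80),(6,1),(10,17)]⟩,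
⟨⟨⟨129,-18,166⟩,⟨-158,-81,114⟩,⟨54,-194,-63⟩⟩,true,98,34,.leaf [(5,1503),(10,142847),(15,493),(18,13293)],.leaf [(1,17935),(4,50),(10,4642),(23,1)]⟩,
⟨⟨⟨-129,18,166⟩,⟨-158,-81,-114⟩,⟨54,-194,63⟩⟩,true,98,177,.leaf [(3,127022),(5,463),(18,19412),(23,1)],.leaf [(4,597),(5,4),(6,218),(10,44521)]⟩,
⟨⟨⟨-129,-158,54⟩,⟨18,-81,-194⟩,⟨166,-114,63⟩⟩,true,101,83,.leaf [(0,213),(1,117),(2,59),(7,1)],.leaf [(0,213),(1,117),(2,59),(7,1)]⟩,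
⟨⟨⟨-129,-158,-54⟩,⟨-18,81,-194⟩,⟨166,-114,-63⟩⟩,true,101,128,.leaf [(2,44521),(5,327),(7,23),(14,63)],.leaf [(2,142847),(5,501),(7,493),(10,13293)]⟩,
⟨⟨⟨-81,-114,-158⟩,⟨-194,63,54⟩,⟨18,166,-129⟩⟩,true,103,28,.leaf [(1,51695),(3,2532),(4,280),(5,177)],.leaf [(1,51695),(3,2532),(4,280),(5,177)]⟩,
⟨⟨⟨81,114,-158⟩,⟨-194,63,-54⟩,⟨18,166,129⟩⟩,true,103,183,.leaf [(1,38824),(2,23421),(4,251),(6,60)],.leaf [(1,38824),(2,23421),(4,251),(6,60)]⟩,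
⟨⟨⟨-81,114,-158⟩,⟨-194,-63,54⟩,⟨-18,166,129⟩⟩,true,108,28,.leaf [(0,138),(1,212),(2,39),(4,1)],.leaf [(0,138),(1,212),(2,39),(4,1)]⟩,
⟨⟨⟨81,-114,-158⟩,⟨-194,-63,-54⟩,⟨-18,166,-129⟩⟩,true,108,183,.leaf [(1,14981),(2,22155),(4,175),(5,111)],.leaf [(1,14981),(2,22155),(4,175),(5,111)]⟩,
⟨⟨⟨129,-158,-54⟩,⟨18,81,-194⟩,⟨166,114,63⟩⟩,true,110,83,.leaf [(0,207413),(5,475),(7,267),(18,13293)],.leaf [(0,150443),(5,502),(7,618),(10,13293)]⟩,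
⟨⟨⟨129,-158,54⟩,⟨-18,-81,-194⟩,⟨166,114,-63⟩⟩,true,110,128,.leaf [(0,176),(1,117),(2,96),(5,1)],.leaf [(0,176),(1,117),(2,96),(5,1)]⟩,
⟨⟨⟨129,18,166⟩,⟨-158,81,114⟩,⟨-54,-194,63⟩⟩,true,113,34,.leaf [(1,15403),(4,170),(15,25),(18,4642)],.leaf [(1,3165),(5,23),(6,175),(10,12449)]⟩,
⟨⟨⟨-129,-18,166⟩,⟨-158,81,-114⟩,⟨-54,-194,-63⟩⟩,true,113,177,.leaf [(3,44521),(5,149),(6,144),(15,32)],.leaf [(3,167112),(6,765),(10,51695),(14,4)]⟩,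
⟨⟨⟨49,198,54⟩,⟨-198,31,66⟩,⟨54,-66,193⟩⟩,true,116,70,.leaf [(2,389928),(4,2259),(15,128),(18,6119)],.leaf [(1,148),(2,133),(4,1),(10,34)]⟩,
⟨⟨⟨49,198,-54⟩,⟨-198,31,-66⟩,⟨-54,66,193⟩⟩,true,116,141,.leaf [(2,44521),(4,150),(7,80),(14,17)],.leaf [(0,399),(2,518),(7,4),(10,139)]⟩,
⟨⟨⟨-81,18,-194⟩,⟨-158,-129,54⟩,⟨-114,166,63⟩⟩,true,117,5,.leaf [(0,147),(1,236),(3,12),(4,1)],.leaf [(0,147),(1,236),(3,12),(4,1)]⟩,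
⟨⟨⟨81,-18,-194⟩,⟨-158,-129,-54⟩,⟨-114,166,-63⟩⟩,true,117,206,.leaf [(0,6),(1,140),(2,105),(4,1)],.leaf [(0,6),(1,140),(2,105),(4,1)]⟩,
⟨⟨⟨49,-126,-162⟩,⟨126,-113,126⟩,⟨-162,-126,49⟩⟩,true,118,1,.leaf [(1,23843),(3,44521),(4,239),(6,13)],.leaf [(1,23843),(3,44521),(4,239),(6,13)]⟩,
⟨⟨⟨49,-126,162⟩,⟨126,-113,-126⟩,⟨162,126,49⟩⟩,true,118,210,.leaf [(0,13),(2,239),(3,113),(5,1)],.leaf [(0,13),(2,239),(3,113),(5,1)]⟩,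
⟨⟨⟨159,-14,-138⟩,⟨66,-177,94⟩,⟨-122,-114,-129⟩⟩,true,122,27,.leaf [(0,151),(1,232),(2,12),(4,1)],.leaf [(0,151),(1,232),(2,12),(4,1)]⟩,
⟨⟨⟨159,-14,138⟩,⟨-66,177,94⟩,⟨-122,-114,129⟩⟩,true,122,184,.leaf [(0,128),(1,179),(3,88),(7,1)],.leaf [(0,128),(1,179),(3,88),(7,1)]⟩,
⟨⟨⟨-159,66,-122⟩,⟨-14,177,114⟩,⟨138,94,-129⟩⟩,true,123,22,.leaf [(1,44521),(4,179),(5,267),(6,51)],.leaf [(1,44521),(4,179),(5,267),(6,51)]⟩,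
⟨⟨⟨159,-66,-122⟩,⟨-14,177,-114⟩,⟨138,94,129⟩⟩,true,123,189,.leaf [(0,101),(1,236),(2,10),(6,1)],.leaf [(0,101),(1,236),(2,10),(6,1)]⟩,
⟨⟨⟨129,-122,-114⟩,⟨138,159,-14⟩,⟨94,-66,177⟩⟩,true,125,58,.leaf [(0,188),(1,14),(3,49),(7,1)],.leaf [(0,188),(1,14),(3,49),(7,1)]⟩,
⟨⟨⟨129,-122,114⟩,⟨-138,-159,-14⟩,⟨94,-66,-177⟩⟩,true,125,153,.leaf [(0,633),(1,1688),(4,5),(5,8)],.leaf [(0,633),(1,1688),(4,5),(5,8)]⟩,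
⟨⟨⟨-63,-194,-54⟩,⟨-114,81,-158⟩,⟨166,-18,-129⟩⟩,true,127,31,.leaf [(0,11),(1,75),(2,165),(5,1)],.leaf [(0,11),(1,75),(2,165),(5,1)]⟩,
⟨⟨⟨-63,-194,54⟩,⟨114,-81,-158⟩,⟨166,-18,129⟩⟩,true,127,180,.leaf [(0,2321),(2,13715),(5,61),(7,25)],.leaf [(0,2321),(2,13715),(5,61),(7,25)]⟩,
⟨⟨⟨-129,-54,-158⟩,⟨166,-63,-114⟩,⟨-18,-194,81⟩⟩,true,128,101,.leaf [(3,44521),(4,327),(6,23),(15,63)],.leaf [(3,524124),(4,2241),(10,99170),(14,103)]⟩,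
⟨⟨⟨129,54,-158⟩,⟨166,-63,114⟩,⟨-18,-194,-81⟩⟩,true,128,110,.leaf [(0,117),(1,176),(3,96),(4,1)],.leaf [(0,117),(1,176),(3,96),(4,1)]⟩,
⟨⟨⟨-95,-186,30⟩,⟨150,-95,-114⟩,⟨114,-30,175⟩⟩,true,133,33,.leaf [(2,9495),(6,87),(11,2954),(15,14)],.leaf [(0,147),(2,113),(6,1),(10,21)]⟩,
⟨⟨⟨-95,-186,-30⟩,⟨150,-95,114⟩,⟨-114,30,175⟩⟩,true,133,178,.leaf [(0,44521),(4,149),(5,144),(6,96)],.leaf [(0,44521),(4,149),(5,144),(6,96)]⟩,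
⟨⟨⟨31,-66,198⟩,⟨66,193,54⟩,⟨-198,54,49⟩⟩,true,134,20,.leaf [(0,120),(1,20),(3,129),(5,1)],.leaf [(0,120),(1,20),(3,129),(5,1)]⟩,
⟨⟨⟨31,-66,-198⟩,⟨66,193,-54⟩,⟨198,-54,49⟩⟩,true,134,191,.leaf [(1,44521),(4,280),(7,49),(15,100)],.leaf [(1,564003),(10,83134),(14,662),(23,173)]⟩,
⟨⟨⟨159,102,94⟩,⟨58,81,-186⟩,⟨-126,166,33⟩⟩,true,136,55,.leaf [(0,15192),(3,11183),(5,123),(6,40)],.leaf [(0,15192),(3,11183),(5,123),(6,40)]⟩,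
⟨⟨⟨-159,-102,94⟩,⟨58,81,186⟩,⟨-126,166,-33⟩⟩,true,136,156,.leaf [(0,16669),(1,13082),(4,29),(5,82)],.leaf [(0,16669),(1,13082),(4,29),(5,82)]⟩,
⟨⟨⟨193,66,-54⟩,⟨-66,31,-198⟩,⟨-54,198,49⟩⟩,true,137,3,.leaf [(0,8440),(2,29751),(4,5),(7,144)],.leaf [(0,8440),(2,29751),(4,5),(7,144)]⟩,
⟨⟨⟨193,66,54⟩,⟨-66,31,198⟩,⟨54,-198,49⟩⟩,true,137,208,.leaf [(1,30384),(2,1055),(4,141),(6,40)],.leaf [(1,30384),(2,1055),(4,141),(6,40)]⟩,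
⟨⟨⟨49,-54,-198⟩,⟨-54,193,-66⟩,⟨198,66,31⟩⟩,true,141,95,.leaf [(1,233577),(7,1239),(14,58),(18,2954)],.leaf [(1,127022),(5,463),(10,58236),(15,3)]⟩,
⟨⟨⟨49,-54,198⟩,⟨-54,193,66⟩,⟨-198,-66,31⟩⟩,true,141,116,.leaf [(3,44521),(5,150),(6,80),(15,17)],.leaf [(1,5535),(3,3729),(10,1823),(22,1)]⟩,
⟨⟨⟨-177,-66,94⟩,⟨-14,-159,-138⟩,⟨114,-122,129⟩⟩,true,147,40,.leaf [(4,525),(5,2380),(6,614),(18,44521)],.leaf [(0,1477),(4,94),(5,28),(10,5697)]⟩,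
⟨⟨⟨177,66,94⟩,⟨-14,-159,138⟩,⟨114,-122,-129⟩⟩,true,147,171,.leaf [(1,5),(2,225),(3,39),(4,1)],.leaf [(1,5),(2,225),(3,39),(4,1)]⟩,
⟨⟨⟨63,166,114⟩,⟨-54,129,-158⟩,⟨-194,18,81⟩⟩,true,150,42,.leaf [(1,44521),(4,7),(5,169),(14,111)],.R (.leaf [(1,729),(10,315),(26,7),(35,5)]) (.leaf [(1,2916),(10,855),(26,58),(34,5)]) (.leaf [(1,123201),(10,8280),(26,1288),(39,5)])⟩,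
⟨⟨⟨63,166,-114⟩,⟨54,-129,-158⟩,⟨-194,18,-81⟩⟩,true,150,169,.leaf [(0,33),(2,86),(4,1),(11,44)],.leaf [(0,132),(2,152),(4,1),(10,11)]⟩,
⟨⟨⟨-113,126,-126⟩,⟨-126,49,162⟩,⟨126,162,49⟩⟩,true,152,59,.leaf [(0,77),(1,189),(3,99),(4,1)],.leaf [(0,77),(1,189),(3,99),(4,1)]⟩,
⟨⟨⟨-113,126,126⟩,⟨-126,49,-162⟩,⟨-126,-162,49⟩⟩,true,152,152,.leaf [(3,341820),(6,2349),(18,85666),(22,35)],.leaf [(1,113940),(4,783),(10,85666),(14,35)]⟩,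
⟨⟨⟨-129,-114,-122⟩,⟨94,-177,66⟩,⟨-138,-14,159⟩⟩,true,153,86,.leaf [(0,63),(1,14),(3,174),(4,1)],.leaf [(0,63),(1,14),(3,174),(4,1)]⟩,
⟨⟨⟨129,114,-122⟩,⟨94,-177,-66⟩,⟨-138,-14,-159⟩⟩,true,153,125,.leaf [(0,156),(1,56),(2,135),(4,1)],.leaf [(0,156),(1,56),(2,135),(4,1)]⟩,
⟨⟨⟨81,-186,58⟩,⟨166,33,-126⟩,⟨102,94,159⟩⟩,true,154,45,.leaf [(2,44521),(5,268),(6,181),(14,18)],.leaf [(2,43255),(5,244),(6,139),(10,3798)]⟩,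
⟨⟨⟨-81,186,58⟩,⟨166,33,126⟩,⟨102,94,-159⟩⟩,true,154,166,.leaf [(0,22366),(3,13293),(4,154),(5,13)],.leaf [(0,22366),(3,13293),(4,154),(5,13)]⟩,
⟨⟨⟨-159,94,102⟩,⟨126,33,166⟩,⟨58,186,-81⟩⟩,true,156,75,.leaf [(0,11183),(3,15192),(4,123),(5,40)],.leaf [(0,11183),(3,15192),(4,123),(5,40)]⟩,
⟨⟨⟨-159,94,-102⟩,⟨-126,-33,166⟩,⟨58,186,81⟩⟩,true,156,136,.leaf [(0,127),(1,181),(3,87),(4,1)],.leaf [(0,127),(1,181),(3,87),(4,1)]⟩,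
⟨⟨⟨-33,94,-186⟩,⟨126,159,58⟩,⟨166,-102,-81⟩⟩,true,157,44,.leaf [(3,91152),(4,423),(10,1055),(14,40)],.leaf [(1,5622939),(4,33723),(26,298987),(31,91)]⟩,
⟨⟨⟨-33,94,186⟩,⟨-126,-159,58⟩,⟨166,-102,81⟩⟩,true,157,167,.leaf [(2,44521),(4,285),(5,144),(7,80)],.leaf [(2,44521),(4,285),(5,144),(7,80)]⟩,
⟨⟨⟨-177,-114,-14⟩,⟨94,-129,-138⟩,⟨66,-122,159⟩⟩,true,158,12,.L (.L (.leaf [(2,775425),(4,6174),(15,1520),(34,6119)]) (.leaf [(0,249),(1,120),(2,20),(6,1)]) (.leaf [(0,264),(1,65),(3,204),(5,1)])) (.leaf [(0,149),(1,63),(2,201),(5,1)]) (.leaf [(0,1477),(3,844),(4,6),(6,1)]),.leaf [(4,729),(10,29751),(22,16),(26,3376)]⟩,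
⟨⟨⟨177,114,-14⟩,⟨94,-129,138⟩,⟨66,-122,-159⟩⟩,true,158,199,.leaf [(0,4),(2,239),(3,152),(4,1)],.leaf [(0,4),(2,239),(3,152),(4,1)]⟩,
⟨⟨⟨129,138,94⟩,⟨-122,159,-66⟩,⟨-114,-14,177⟩⟩,true,163,4,.leaf [(0,75),(2,110),(6,1),(11,28)],.leaf [(0,138),(2,152),(6,1),(10,7)]⟩,
⟨⟨⟨-129,-138,94⟩,⟨-122,159,66⟩,⟨-114,-14,-177⟩⟩,true,163,207,.leaf [(0,124),(1,205),(3,66),(5,1)],.leaf [(0,124),(1,205),(3,66),(5,1)]⟩,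
⟨⟨⟨-95,150,114⟩,⟨-186,-95,-30⟩,⟨30,-114,175⟩⟩,true,165,41,.leaf [(2,44521),(4,147),(6,113),(14,21)],.leaf [(2,29329),(4,147),(6,41),(10,4431)]⟩,
⟨⟨⟨-95,150,-114⟩,⟨-186,-95,30⟩,⟨-30,114,175⟩⟩,true,165,170,.leaf [(0,5),(2,240),(3,144),(4,1)],.leaf [(0,5),(2,240),(3,144),(4,1)]⟩,
⟨⟨⟨-81,58,-186⟩,⟨-102,159,94⟩,⟨166,126,-33⟩⟩,true,166,57,.leaf [(4,2742),(5,5868),(14,1201),(18,44521)],.leaf [(1,119637),(5,27),(10,29962),(14,98)]⟩,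
⟨⟨⟨-81,58,186⟩,⟨102,-159,94⟩,⟨166,126,33⟩⟩,true,166,154,.leaf [(0,22366),(2,17091),(4,153),(5,92)],.leaf [(0,22366),(2,17091),(4,153),(5,92)]⟩,
⟨⟨⟨33,-186,94⟩,⟨166,81,102⟩,⟨-126,58,159⟩⟩,true,167,54,.leaf [(0,119637),(5,1278),(11,48530),(14,55)],.leaf [(0,741),(2,170),(5,4),(10,65)]⟩,
⟨⟨⟨-33,186,94⟩,⟨166,81,-102⟩,⟨-126,58,-159⟩⟩,true,167,157,.leaf [(3,44521),(4,144),(5,285),(6,80)],.leaf [(3,44521),(4,144),(5,285),(6,80)]⟩,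
⟨⟨⟨159,126,58⟩,⟨94,-33,-186⟩,⟨-102,166,-81⟩⟩,true,168,7,.leaf [(0,44521),(4,181),(5,268),(6,54)],.leaf [(0,44521),(4,181),(5,268),(6,54)]⟩,
⟨⟨⟨-159,-126,58⟩,⟨94,-33,186⟩,⟨-102,166,81⟩⟩,true,168,204,.leaf [(0,17302),(1,6119),(4,62),(5,79)],.leaf [(0,17302),(1,6119),(4,62),(5,79)]⟩,
⟨⟨⟨-63,114,166⟩,⟨-194,-81,-18⟩,⟨54,-158,129⟩⟩,true,169,61,.leaf [(0,348150),(4,993),(15,100),(18,36503)],.leaf [(2,8018),(4,54),(6,7),(10,2743)]⟩,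
⟨⟨⟨63,-114,166⟩,⟨-194,-81,18⟩,⟨54,-158,-129⟩⟩,true,169,150,.leaf [(1,33),(3,86),(5,1),(10,44)],.leaf [(3,133563),(5,126),(15,77),(22,44)]⟩,
⟨⟨⟨-95,-114,-150⟩,⟨-30,175,-114⟩,⟨186,-30,-95⟩⟩,true,170,46,.leaf [(1,44521),(5,92),(7,168),(15,21)],.leaf [(1,2321),(5,1),(10,422),(14,2)]⟩,
⟨⟨⟨-95,-114,150⟩,⟨-30,175,114⟩,⟨-186,30,-95⟩⟩,true,170,165,.leaf [(1,5),(2,144),(3,240),(5,1)],.leaf [(1,5),(2,144),(3,240),(5,1)]⟩,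
⟨⟨⟨177,94,-66⟩,⟨-114,129,-122⟩,⟨-14,138,159⟩⟩,true,171,64,.leaf [(4,4),(5,3),(7,2),(15,1)],.R (.leaf [(5,729),(10,47070),(26,2450),(35,49)]) (.leaf [(5,2916),(10,184311),(26,10094),(34,49)]) (.leaf [(5,559143),(10,35114409),(26,1933393),(39,49)])⟩,
⟨⟨⟨177,94,66⟩,⟨114,-129,-122⟩,⟨-14,138,-159⟩⟩,true,171,147,.leaf [(0,17302),(1,6119),(4,62),(5,79)],.leaf [(0,17302),(1,6119),(4,62),(5,79)]⟩,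
⟨⟨⟨-33,166,-126⟩,⟨186,81,58⟩,⟨94,-102,-159⟩⟩,true,174,23,.leaf [(0,85),(1,25),(3,159),(4,1)],.leaf [(0,85),(1,25),(3,159),(4,1)]⟩,
⟨⟨⟨-33,166,126⟩,⟨-186,-81,58⟩,⟨94,-102,159⟩⟩,true,174,188,.leaf [(0,13293),(2,52750),(4,285),(7,68)],.leaf [(0,13293),(2,52750),(4,285),(7,68)]⟩,
⟨⟨⟨175,30,114⟩,⟨114,-95,-150⟩,⟨30,186,-95⟩⟩,true,175,32,.leaf [(0,156),(1,110),(3,99),(5,1)],.leaf [(0,156),(1,110),(3,99),(5,1)]⟩,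
⟨⟨⟨175,30,-114⟩,⟨114,-95,150⟩,⟨-30,-186,-95⟩⟩,true,175,179,.leaf [(0,125),(1,225),(3,39),(4,1)],.leaf [(0,125),(1,225),(3,39),(4,1)]⟩,
⟨⟨⟨-129,166,18⟩,⟨54,63,-194⟩,⟨-158,-114,-81⟩⟩,true,177,98,.leaf [(2,272190),(5,720),(14,647),(18,6119)],.leaf [(4,767),(5,60),(7,340),(10,44521)]⟩,
⟨⟨⟨-129,166,-18⟩,⟨-54,-63,-194⟩,⟨-158,-114,81⟩⟩,true,177,113,.leaf [(2,44521),(4,149),(7,144),(14,32)],.leaf [(2,32705),(4,205),(7,144),(10,6752)]⟩,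
⟨⟨⟨-95,-30,186⟩,⟨-114,175,-30⟩,⟨-150,-114,-95⟩⟩,true,178,78,.leaf [(3,4431),(5,639),(10,29329),(14,97)],.leaf [(1,2321),(3,5064),(5,22),(15,3)]⟩,
⟨⟨⟨-95,-30,-186⟩,⟨-114,175,30⟩,⟨150,114,-95⟩⟩,true,178,133,.leaf [(1,44521),(4,144),(5,149),(7,96)],.leaf [(1,44521),(4,144),(5,149),(7,96)]⟩,
⟨⟨⟨175,-114,-30⟩,⟨-30,-95,186⟩,⟨-114,-150,-95⟩⟩,true,179,36,.leaf [(1,2321),(3,211),(4,11),(6,1)],.leaf [(1,2321),(3,211),(4,11),(6,1)]⟩,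
⟨⟨⟨175,-114,30⟩,⟨-30,-95,-186⟩,⟨114,150,-95⟩⟩,true,179,175,.leaf [(0,225),(1,125),(2,39),(5,1)],.leaf [(0,225),(1,125),(2,39),(5,1)]⟩,
⟨⟨⟨63,-54,-194⟩,⟨166,129,18⟩,⟨114,-158,81⟩⟩,true,180,84,.leaf [(1,13715),(3,2321),(4,25),(6,61)],.leaf [(1,13715),(3,2321),(4,25),(6,61)]⟩,
⟨⟨⟨-63,54,-194⟩,⟨166,129,-18⟩,⟨114,-158,-81⟩⟩,true,180,127,.leaf [(1,2321),(3,13715),(4,61),(6,25)],.leaf [(1,2321),(3,13715),(4,61),(6,25)]⟩,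
⟨⟨⟨-81,-102,166⟩,⟨58,159,126⟩,⟨-186,94,-33⟩⟩,true,181,24,.leaf [(0,196),(1,145),(3,54),(5,1)],.leaf [(0,196),(1,145),(3,54),(5,1)]⟩,
⟨⟨⟨81,102,166⟩,⟨58,159,-126⟩,⟨-186,94,33⟩⟩,true,181,187,.leaf [(0,12871),(1,5275),(5,55),(6,51)],.leaf [(0,12871),(1,5275),(5,55),(6,51)]⟩,
⟨⟨⟨81,-158,114⟩,⟨18,129,166⟩,⟨-194,-54,63⟩⟩,true,183,103,.leaf [(0,38824),(3,23421),(5,251),(7,60)],.leaf [(0,38824),(3,23421),(5,251),(7,60)]⟩,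
⟨⟨⟨81,-158,-114⟩,⟨-18,-129,166⟩,⟨-194,-54,-63⟩⟩,true,183,108,.leaf [(1,14981),(3,12660),(4,104),(5,29)],.leaf [(1,14981),(3,12660),(4,104),(5,29)]⟩,
⟨⟨⟨-159,-138,-14⟩,⟨-122,129,114⟩,⟨-66,94,-177⟩⟩,true,184,89,.leaf [(0,151),(1,163),(2,81),(5,1)],.leaf [(0,151),(1,163),(2,81),(5,1)]⟩,
⟨⟨⟨159,138,-14⟩,⟨-122,129,-114⟩,⟨-66,94,177⟩⟩,true,184,122,.leaf [(0,179),(1,128),(2,88),(6,1)],.leaf [(0,179),(1,128),(2,88),(6,1)]⟩,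
⟨⟨⟨81,166,-102⟩,⟨186,-33,94⟩,⟨58,-126,-159⟩⟩,true,187,30,.leaf [(0,199),(1,145),(3,51),(4,1)],.leaf [(0,199),(1,145),(3,51),(4,1)]⟩,
⟨⟨⟨81,166,102⟩,⟨-186,33,94⟩,⟨58,-126,159⟩⟩,true,187,181,.leaf [(0,5275),(1,12871),(4,55),(7,51)],.leaf [(0,5275),(1,12871),(4,55),(7,51)]⟩,
⟨⟨⟨33,-126,166⟩,⟨94,159,102⟩,⟨-186,58,81⟩⟩,true,188,37,.leaf [(0,184),(1,25),(3,60),(5,1)],.leaf [(0,184),(1,25),(3,60),(5,1)]⟩,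
⟨⟨⟨-33,126,166⟩,⟨94,159,-102⟩,⟨-186,58,-81⟩⟩,true,188,174,.leaf [(1,13293),(3,52750),(5,285),(6,68)],.leaf [(1,13293),(3,52750),(5,285),(6,68)]⟩,
⟨⟨⟨159,-122,66⟩,⟨-138,-129,94⟩,⟨-14,-114,-177⟩⟩,true,189,88,.leaf [(1,37769),(2,2532),(4,212),(5,131)],.leaf [(1,37769),(2,2532),(4,212),(5,131)]⟩,
⟨⟨⟨159,-122,-66⟩,⟨138,129,94⟩,⟨-14,-114,177⟩⟩,true,189,123,.leaf [(0,236),(1,101),(3,10),(7,1)],.leaf [(0,236),(1,101),(3,10),(7,1)]⟩,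
⟨⟨⟨31,-198,66⟩,⟨198,49,54⟩,⟨-66,54,193⟩⟩,true,191,77,.leaf [(0,44943),(2,4220),(5,120),(6,127)],.leaf [(0,44943),(2,4220),(5,120),(6,127)]⟩,
⟨⟨⟨31,-198,-66⟩,⟨198,49,-54⟩,⟨66,-54,193⟩⟩,true,191,134,.leaf [(0,44521),(5,280),(6,49),(14,100)],.leaf [(0,99),(3,80),(6,1),(10,50)]⟩,
⟨⟨⟨15,-14,210⟩,⟨210,15,-14⟩,⟨-14,210,15⟩⟩,true,196,14,.leaf [(0,224),(1,195),(5,1)],.leaf [(0,224),(1,195),(5,1)]⟩,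
⟨⟨⟨15,-14,-210⟩,⟨-210,-15,-14⟩,⟨-14,210,-15⟩⟩,true,196,197,.leaf [(1,2954),(2,3165),(4,29),(5,14)],.leaf [(1,2954),(2,3165),(4,29),(5,14)]⟩,
⟨⟨⟨-15,210,-14⟩,⟨-14,-15,-210⟩,⟨-210,-14,15⟩⟩,true,197,15,.leaf [(0,1688),(2,1477),(4,8),(6,7)],.leaf [(0,1688),(2,1477),(4,8),(6,7)]⟩,
⟨⟨⟨15,-210,-14⟩,⟨-14,-15,210⟩,⟨-210,-14,-15⟩⟩,true,197,196,.leaf [(1,2954),(3,41145),(4,196),(5,195)],.leaf [(1,2954),(3,41145),(4,196),(5,195)]⟩,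
⟨⟨⟨177,-14,-114⟩,⟨-66,159,-122⟩,⟨94,138,129⟩⟩,true,199,53,.leaf [(4,1803),(5,36),(14,206),(18,44521)],.leaf [(4,263),(5,735),(7,175),(10,44521)]⟩,
⟨⟨⟨177,-14,114⟩,⟨66,-159,-122⟩,⟨94,138,-129⟩⟩,true,199,158,.leaf [(0,16669),(1,13082),(4,29),(5,82)],.leaf [(0,16669),(1,13082),(4,29),(5,82)]⟩,
⟨⟨⟨-159,58,126⟩,⟨102,-81,166⟩,⟨94,186,33⟩⟩,true,204,43,.leaf [(0,38191),(3,13293),(4,237),(5,41)],.leaf [(0,38191),(3,13293),(4,237),(5,41)]⟩,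
⟨⟨⟨-159,58,-126⟩,⟨-102,81,166⟩,⟨94,186,-33⟩⟩,true,204,168,.leaf [(1,16880),(3,18357),(4,128),(5,23)],.leaf [(1,16880),(3,18357),(4,128),(5,23)]⟩,
⟨⟨⟨81,-194,18⟩,⟨114,63,166⟩,⟨-158,-54,129⟩⟩,true,206,94,.leaf [(0,44521),(4,51),(5,215),(7,111)],.leaf [(0,44521),(4,51),(5,215),(7,111)]⟩,
⟨⟨⟨81,-194,-18⟩,⟨-114,-63,166⟩,⟨-158,-54,-129⟩⟩,true,206,117,.leaf [(1,18146),(3,22155),(4,140),(5,131)],.leaf [(1,18146),(3,22155),(4,140),(5,131)]⟩,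
⟨⟨⟨-129,94,138⟩,⟨114,177,-14⟩,⟨-122,66,-159⟩⟩,true,207,48,.leaf [(1,82),(3,103),(5,1),(10,28)],.leaf [(1,28696),(3,24265),(5,184),(15,7)]⟩,
⟨⟨⟨-129,94,-138⟩,⟨-114,-177,-14⟩,⟨-122,66,159⟩⟩,true,207,163,.leaf [(0,205),(1,124),(2,66),(4,1)],.leaf [(0,205),(1,124),(2,66),(4,1)]⟩,
⟨⟨⟨193,54,-66⟩,⟨54,49,198⟩,⟨66,-198,31⟩⟩,true,208,74,.leaf [(0,5),(1,204),(3,60),(4,1)],.leaf [(0,5),(1,204),(3,60),(4,1)]⟩,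
⟨⟨⟨193,54,66⟩,⟨54,49,-198⟩,⟨-66,198,31⟩⟩,true,208,137,.leaf [(0,30384),(3,1055),(5,141),(7,40)],.leaf [(0,30384),(3,1055),(5,141),(7,40)]⟩,
⟨⟨⟨49,162,126⟩,⟨162,49,-126⟩,⟨-126,126,-113⟩⟩,true,210,93,.leaf [(3,44521),(4,36),(5,225),(7,14)],.leaf [(3,44521),(4,36),(5,225),(7,14)]⟩,
⟨⟨⟨49,162,-126⟩,⟨162,49,126⟩,⟨126,-126,-113⟩⟩,true,210,118,.leaf [(1,13),(2,113),(3,239),(4,1)],.leaf [(1,13),(2,113),(3,239),(4,1)]⟩]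

theorem primeOk_211 : PrimeOk 211 := primeOk (by norm_num) (by norm_num) (by norm_num) L211
  (by decide +kernel) (by decide +kernel)

def L229 : List Cls := [
⟨⟨⟨229,0,0⟩,⟨0,-221,-60⟩,⟨0,60,-221⟩⟩,false,0,107,.leaf [(0,3893),(1,2977),(4,13),(5,17)],.leaf [(0,3893),(1,2977),(4,13),(5,17)]⟩,
⟨⟨⟨229,0,0⟩,⟨0,-221,60⟩,⟨0,-60,-221⟩⟩,false,0,122,.leaf [(0,26),(1,60),(2,195),(4,1)],.leaf [(0,26),(1,60),(2,195),(4,1)]⟩,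
⟨⟨⟨-221,0,-60⟩,⟨0,229,0⟩,⟨60,0,-221⟩⟩,true,0,107,.leaf [(1,52441),(5,221),(7,60)],.leaf [(1,52441),(5,221),(7,60)]⟩,
⟨⟨⟨-221,0,60⟩,⟨0,229,0⟩,⟨-60,0,-221⟩⟩,true,0,122,.leaf [(1,221),(3,60),(5,1)],.leaf [(1,221),(3,60),(5,1)]⟩,
⟨⟨⟨157,-144,84⟩,⟨-144,-59,168⟩,⟨-84,-168,-131⟩⟩,true,2,37,.leaf [(1,52441),(4,216),(5,47),(6,96)],.leaf [(1,52441),(4,216),(5,47),(6,96)]⟩,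
⟨⟨⟨157,-144,-84⟩,⟨-144,-59,-168⟩,⟨84,168,-131⟩⟩,true,2,192,.leaf [(0,216),(1,47),(2,96),(5,1)],.leaf [(0,216),(1,47),(2,96),(5,1)]⟩,
⟨⟨⟨-21,-84,-212⟩,⟨4,-213,84⟩,⟨-228,4,21⟩⟩,true,4,21,.leaf [(0,129),(1,200),(3,96),(4,1)],.leaf [(0,129),(1,200),(3,96),(4,1)]⟩,
⟨⟨⟨21,84,-212⟩,⟨4,-213,-84⟩,⟨-228,4,-21⟩⟩,true,4,208,.leaf [(0,204),(1,128),(2,93),(4,1)],.leaf [(0,204),(1,128),(2,93),(4,1)]⟩,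
⟨⟨⟨-99,192,76⟩,⟨-32,69,-216⟩,⟨-204,-104,-3⟩⟩,true,5,64,.leaf [(0,261),(1,135),(3,5),(6,1)],.leaf [(0,261),(1,135),(3,5),(6,1)]⟩,
⟨⟨⟨99,-192,76⟩,⟨-32,69,216⟩,⟨-204,-104,3⟩⟩,true,5,165,.leaf [(3,110607),(5,6),(15,89),(18,10076)],.leaf [(3,124805),(4,105),(5,517),(10,18091)]⟩,
⟨⟨⟨-221,48,-36⟩,⟨-48,-59,216⟩,⟨36,216,67⟩⟩,true,6,110,.leaf [(0,14),(2,93),(3,252),(4,1)],.leaf [(0,14),(2,93),(3,252),(4,1)]⟩,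
⟨⟨⟨-221,48,36⟩,⟨-48,-59,-216⟩,⟨-36,-216,67⟩⟩,true,6,119,.leaf [(0,32060),(2,29541),(4,4),(14,63)],.leaf [(0,5038),(4,140),(6,33),(10,10305)]⟩,
⟨⟨⟨99,204,-32⟩,⟨76,-3,216⟩,⟨192,-104,-69⟩⟩,true,9,39,.leaf [(0,207),(1,239),(3,9),(4,1)],.leaf [(0,207),(1,239),(3,9),(4,1)]⟩,
⟨⟨⟨-99,-204,-32⟩,⟨76,-3,-216⟩,⟨192,-104,69⟩⟩,true,9,190,.leaf [(1,157323),(5,841),(6,758),(14,118)],.leaf [(5,18468),(10,786615),(22,2185),(30,46)]⟩,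
⟨⟨⟨-27,-176,144⟩,⟨144,99,148⟩,⟨-176,108,99⟩⟩,true,15,71,.leaf [(0,239),(1,45),(2,45),(5,1)],.leaf [(0,239),(1,45),(2,45),(5,1)]⟩,
⟨⟨⟨-27,-176,-144⟩,⟨-144,-99,148⟩,⟨-176,108,-99⟩⟩,true,15,158,.leaf [(1,50609),(3,28854),(4,284),(5,77)],.leaf [(1,50609),(3,28854),(4,284),(5,77)]⟩,
⟨⟨⟨-195,120,4⟩,⟨-104,-165,-120⟩,⟨-60,-104,195⟩⟩,true,17,54,.leaf [(0,36640),(4,85),(6,4),(18,2519)],.leaf [(0,42136),(4,172),(6,97),(10,2519)]⟩,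
⟨⟨⟨195,-120,4⟩,⟨-104,-165,120⟩,⟨-60,-104,-195⟩⟩,true,17,175,.leaf [(1,40991),(2,11679),(4,235),(5,69)],.leaf [(1,40991),(2,11679),(4,235),(5,69)]⟩,
⟨⟨⟨99,148,-144⟩,⟨-108,-99,-176⟩,⟨-176,144,27⟩⟩,true,20,61,.leaf [(2,14427),(4,69),(11,458),(15,2)],.leaf [(0,12),(2,227),(4,1),(10,8)]⟩,
⟨⟨⟨99,148,144⟩,⟨108,99,-176⟩,⟨-176,144,-27⟩⟩,true,20,168,.leaf [(0,9160),(3,84501),(5,410),(15,27)],.leaf [(4,3720),(5,936),(10,262205),(22,31)]⟩,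
⟨⟨⟨-21,-212,-84⟩,⟨-228,21,4⟩,⟨4,84,-213⟩⟩,true,21,4,.leaf [(1,5038),(2,687),(4,25),(5,22)],.leaf [(1,5038),(2,687),(4,25),(5,22)]⟩,
⟨⟨⟨-21,-212,84⟩,⟨228,-21,4⟩,⟨4,84,213⟩⟩,true,21,225,.leaf [(0,15801),(2,19007),(5,99),(7,43)],.leaf [(0,15801),(2,19007),(5,99),(7,43)]⟩,
⟨⟨⟨21,4,228⟩,⟨-84,213,4⟩,⟨-212,-84,21⟩⟩,true,22,109,.leaf [(0,1832),(1,6183),(5,1),(7,24)],.leaf [(0,1832),(1,6183),(5,1),(7,24)]⟩,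
⟨⟨⟨21,4,-228⟩,⟨84,-213,4⟩,⟨-212,-84,-21⟩⟩,true,22,120,.leaf [(0,217),(1,193),(3,39),(4,1)],.leaf [(0,217),(1,193),(3,39),(4,1)]⟩,
⟨⟨⟨-171,76,-132⟩,⟨36,213,76⟩,⟨148,36,-171⟩⟩,true,25,53,.leaf [(4,18),(10,3206),(14,13),(18,229)],.leaf [(1,1971),(3,1254),(10,892),(15,1)]⟩,
⟨⟨⟨-171,76,132⟩,⟨-36,-213,76⟩,⟨148,36,171⟩⟩,true,25,176,.leaf [(2,52441),(4,249),(5,264),(7,80)],.leaf [(2,52441),(4,249),(5,264),(7,80)]⟩,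
⟨⟨⟨-165,-104,-120⟩,⟨120,-195,4⟩,⟨-104,-60,195⟩⟩,true,27,84,.leaf [(0,28854),(3,34121),(4,254),(7,35)],.leaf [(0,28854),(3,34121),(4,254),(7,35)]⟩,
⟨⟨⟨-165,-104,120⟩,⟨-120,195,4⟩,⟨-104,-60,-195⟩⟩,true,27,145,.leaf [(0,44),(1,210),(3,105),(5,1)],.leaf [(0,44),(1,210),(3,105),(5,1)]⟩,
⟨⟨⟨195,-104,60⟩,⟨120,165,-104⟩,⟨4,120,195⟩⟩,true,30,106,.leaf [(0,3664),(3,10305),(5,20),(7,51)],.leaf [(0,3664),(3,10305),(5,20),(7,51)]⟩,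
⟨⟨⟨195,-104,-60⟩,⟨-120,-165,-104⟩,⟨4,120,-195⟩⟩,true,30,123,.leaf [(0,16717),(1,8702),(4,17),(5,70)],.leaf [(0,16717),(1,8702),(4,17),(5,70)]⟩,
⟨⟨⟨-131,-168,84⟩,⟨168,-59,144⟩,⟨-84,144,157⟩⟩,true,31,99,.leaf [(0,52441),(4,209),(5,228),(6,18)],.leaf [(0,52441),(4,209),(5,228),(6,18)]⟩,
⟨⟨⟨-131,-168,-84⟩,⟨168,-59,-144⟩,⟨84,-144,157⟩⟩,true,31,130,.leaf [(2,169002),(6,813),(15,392),(18,13511)],.leaf [(0,75),(2,95),(6,1),(10,57)]⟩,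
⟨⟨⟨69,216,-32⟩,⟨-104,3,-204⟩,⟨-192,76,99⟩⟩,true,33,46,.leaf [(0,6641),(2,15343),(4,59),(6,43)],.leaf [(0,6641),(2,15343),(4,59),(6,43)]⟩,
⟨⟨⟨-69,-216,-32⟩,⟨-104,3,204⟩,⟨-192,76,-99⟩⟩,true,33,183,.leaf [(1,458),(3,687),(4,4),(5,3)],.leaf [(1,458),(3,687),(4,4),(5,3)]⟩,
⟨⟨⟨171,-140,-60⟩,⟨60,-21,220⟩,⟨-140,-180,21⟩⟩,true,34,80,.leaf [(3,52441),(4,280),(5,255),(7,136)],.leaf [(3,52441),(4,280),(5,255),(7,136)]⟩,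
⟨⟨⟨171,-140,60⟩,⟨-60,21,220⟩,⟨-140,-180,-21⟩⟩,true,34,149,.leaf [(1,52441),(4,280),(5,25),(7,144)],.leaf [(1,52441),(4,280),(5,25),(7,144)]⟩,
⟨⟨⟨69,-104,-192⟩,⟨216,3,76⟩,⟨-32,-204,99⟩⟩,true,35,47,.leaf [(1,11679),(3,60914),(4,308),(7,107)],.leaf [(1,11679),(3,60914),(4,308),(7,107)]⟩,
⟨⟨⟨69,-104,192⟩,⟨-216,-3,76⟩,⟨-32,-204,-99⟩⟩,true,35,182,.leaf [(1,8015),(3,16717),(5,77),(7,25)],.leaf [(1,8015),(3,16717),(5,77),(7,25)]⟩,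
⟨⟨⟨157,84,-144⟩,⟨-84,-131,-168⟩,⟨-144,168,-59⟩⟩,true,37,2,.leaf [(0,52441),(4,47),(5,216),(7,96)],.leaf [(0,52441),(4,47),(5,216),(7,96)]⟩,
⟨⟨⟨157,84,144⟩,⟨-84,-131,168⟩,⟨144,-168,-59⟩⟩,true,37,227,.leaf [(1,5496),(2,46487),(4,216),(6,1)],.leaf [(1,5496),(2,46487),(4,216),(6,1)]⟩,
⟨⟨⟨-59,48,-216⟩,⟨-48,-221,-36⟩,⟨-216,36,67⟩⟩,true,38,58,.leaf [(0,230),(1,180),(2,39),(4,1)],.leaf [(0,230),(1,180),(2,39),(4,1)]⟩,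
⟨⟨⟨-59,48,216⟩,⟨-48,-221,36⟩,⟨216,-36,67⟩⟩,true,38,171,.leaf [(2,52441),(4,219),(5,180),(6,50)],.leaf [(2,52441),(4,219),(5,180),(6,50)]⟩,
⟨⟨⟨99,-32,204⟩,⟨192,-69,-104⟩,⟨76,216,-3⟩⟩,true,39,9,.leaf [(0,239),(1,207),(2,9),(5,1)],.leaf [(0,239),(1,207),(2,9),(5,1)]⟩,
⟨⟨⟨99,-32,-204⟩,⟨-192,69,-104⟩,⟨76,216,3⟩⟩,true,39,220,.leaf [(2,152972),(4,1099),(5,792),(18,13511)],.leaf [(2,108775),(4,335),(5,684),(10,27022)]⟩,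
⟨⟨⟨69,-32,216⟩,⟨-192,99,76⟩,⟨-104,-204,3⟩⟩,true,46,33,.leaf [(1,6641),(3,15343),(5,59),(7,43)],.leaf [(1,6641),(3,15343),(5,59),(7,43)]⟩,
⟨⟨⟨69,-32,-216⟩,⟨192,-99,76⟩,⟨-104,-204,-3⟩⟩,true,46,196,.leaf [(1,51),(2,67),(3,241),(4,1)],.leaf [(1,51),(2,67),(3,241),(4,1)]⟩,
⟨⟨⟨69,-192,-104⟩,⟨-32,99,-204⟩,⟨216,76,3⟩⟩,true,47,35,.leaf [(0,11679),(2,60914),(5,308),(6,107)],.leaf [(0,11679),(2,60914),(5,308),(6,107)]⟩,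
⟨⟨⟨-69,192,-104⟩,⟨-32,99,204⟩,⟨216,76,-3⟩⟩,true,47,194,.leaf [(1,89),(2,93),(3,219),(4,1)],.leaf [(1,89),(2,93),(3,219),(4,1)]⟩,
⟨⟨⟨171,-36,148⟩,⟨76,213,-36⟩,⟨-132,76,171⟩⟩,true,48,108,.leaf [(5,657),(6,540),(11,52441),(15,50)],.leaf [(2,49006),(5,84),(6,269),(10,8015)]⟩,
⟨⟨⟨-171,36,148⟩,⟨76,213,36⟩,⟨-132,76,-171⟩⟩,true,48,121,.leaf [(0,40),(1,199),(3,120),(5,1)],.leaf [(0,40),(1,199),(3,120),(5,1)]⟩,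
⟨⟨⟨-3,76,-216⟩,⟨-204,-99,-32⟩,⟨-104,192,69⟩⟩,true,51,72,.leaf [(0,79),(1,184),(2,96),(4,1)],.leaf [(0,79),(1,184),(2,96),(4,1)]⟩,
⟨⟨⟨-3,76,216⟩,⟨204,99,-32⟩,⟨-104,192,-69⟩⟩,true,51,157,.leaf [(1,34),(2,116),(3,251),(5,1)],.leaf [(1,34),(2,116),(3,251),(5,1)]⟩,
⟨⟨⟨213,84,4⟩,⟨4,-21,228⟩,⟨84,-212,-21⟩⟩,true,52,57,.leaf [(0,60),(1,224),(2,45),(4,1)],.leaf [(0,60),(1,224),(2,45),(4,1)]⟩,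
⟨⟨⟨-213,-84,4⟩,⟨4,-21,-228⟩,⟨84,-212,21⟩⟩,true,52,172,.leaf [(3,4809),(6,21),(10,1145),(15,5)],.leaf [(1,2376),(3,1584),(10,911),(14,1)]⟩,
⟨⟨⟨-171,-132,76⟩,⟨148,-171,36⟩,⟨36,76,213⟩⟩,true,53,25,.leaf [(5,639),(11,64349),(15,118),(18,10076)],.leaf [(0,12137),(4,83),(5,56),(10,2748)]⟩,
⟨⟨⟨171,132,76⟩,⟨148,-171,-36⟩,⟨36,76,-213⟩⟩,true,53,204,.leaf [(0,44884),(2,36411),(4,289),(5,112)],.leaf [(0,44884),(2,36411),(4,289),(5,112)]⟩,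
⟨⟨⟨-195,4,120⟩,⟨-60,195,-104⟩,⟨-104,-120,-165⟩⟩,true,54,17,.leaf [(1,469679),(5,1730),(7,1415),(18,10076)],.leaf [(1,36869),(5,2),(7,89),(10,10076)]⟩,
⟨⟨⟨-195,4,-120⟩,⟨60,-195,-104⟩,⟨-104,-120,165⟩⟩,true,54,212,.leaf [(0,4809),(3,458),(4,23),(7,2)],.leaf [(0,4809),(3,458),(4,23),(7,2)]⟩,
⟨⟨⟨-213,-36,76⟩,⟨76,-171,132⟩,⟨36,148,171⟩⟩,true,55,62,.leaf [(0,31831),(3,4809),(4,169),(5,49)],.leaf [(0,31831),(3,4809),(4,169),(5,49)]⟩,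
⟨⟨⟨213,36,76⟩,⟨76,-171,-132⟩,⟨36,148,-171⟩⟩,true,55,167,.leaf [(0,5267),(1,2977),(4,13),(5,23)],.leaf [(0,5267),(1,2977),(4,13),(5,23)]⟩,
⟨⟨⟨213,4,84⟩,⟨84,-21,-212⟩,⟨4,228,-21⟩⟩,true,57,52,.leaf [(0,224),(1,60),(3,45),(5,1)],.leaf [(0,224),(1,60),(3,45),(5,1)]⟩,
⟨⟨⟨213,4,-84⟩,⟨-84,21,-212⟩,⟨4,228,21⟩⟩,true,57,177,.leaf [(4,2328),(5,792),(14,451),(18,52441)],.leaf [(0,761),(2,30),(5,4),(10,105)]⟩,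
⟨⟨⟨-59,-216,48⟩,⟨-216,67,36⟩,⟨-48,-36,-221⟩⟩,true,58,38,.leaf [(0,180),(1,230),(3,39),(5,1)],.leaf [(0,180),(1,230),(3,39),(5,1)]⟩,
⟨⟨⟨-59,-216,-48⟩,⟨-216,67,-36⟩,⟨48,36,-221⟩⟩,true,58,191,.leaf [(0,159),(1,173),(2,93),(5,1)],.leaf [(0,159),(1,173),(2,93),(5,1)]⟩,
⟨⟨⟨99,-144,148⟩,⟨-176,27,144⟩,⟨-108,-176,-99⟩⟩,true,61,20,.leaf [(3,14427),(5,69),(10,458),(14,2)],.leaf [(1,564),(3,415),(5,5),(26,32)]⟩,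
⟨⟨⟨-99,144,148⟩,⟨-176,27,-144⟩,⟨-108,-176,99⟩⟩,true,61,209,.leaf [(0,171063),(3,33892),(6,815),(14,54)],.leaf [(0,144),(3,104),(6,1),(10,27)]⟩,
⟨⟨⟨-213,76,-36⟩,⟨36,171,148⟩,⟨76,132,-171⟩⟩,true,62,55,.leaf [(0,1603),(1,18320),(4,35),(5,88)],.leaf [(0,1603),(1,18320),(4,35),(5,88)]⟩,
⟨⟨⟨-213,76,36⟩,⟨-36,-171,148⟩,⟨76,132,171⟩⟩,true,62,174,.leaf [(0,247),(1,91),(3,21),(4,1)],.leaf [(0,247),(1,91),(3,21),(4,1)]⟩,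
⟨⟨⟨-99,76,192⟩,⟨-204,-3,-104⟩,⟨-32,-216,69⟩⟩,true,64,5,.leaf [(0,135),(1,261),(2,5),(7,1)],.leaf [(0,135),(1,261),(2,5),(7,1)]⟩,
⟨⟨⟨-99,76,-192⟩,⟨204,3,-104⟩,⟨-32,-216,-69⟩⟩,true,64,224,.leaf [(0,157323),(4,919),(7,473),(15,79)],.leaf [(0,85875),(4,542),(7,460),(10,18091)]⟩,
⟨⟨⟨21,220,60⟩,⟨180,21,-140⟩,⟨-140,60,-171⟩⟩,true,65,101,.leaf [(0,52441),(4,399),(5,260),(15,60)],.leaf [(0,43739),(4,321),(5,40),(10,13740)]⟩,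
⟨⟨⟨21,220,-60⟩,⟨-180,-21,-140⟩,⟨-140,60,171⟩⟩,true,65,128,.leaf [(2,52441),(4,221),(14,20)],.leaf [(2,221),(4,1),(10,20)]⟩,
⟨⟨⟨-3,-204,-104⟩,⟨76,-99,192⟩,⟨-216,-32,69⟩⟩,true,68,111,.leaf [(3,104882),(4,543),(5,322),(14,7)],.leaf [(3,49922),(4,237),(5,154),(10,1603)]⟩,
⟨⟨⟨3,204,-104⟩,⟨76,-99,-192⟩,⟨-216,-32,-69⟩⟩,true,68,118,.leaf [(0,7099),(2,5267),(4,37),(6,11)],.leaf [(0,7099),(2,5267),(4,37),(6,11)]⟩,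
⟨⟨⟨-27,144,-176⟩,⟨-176,99,108⟩,⟨144,148,99⟩⟩,true,71,15,.leaf [(0,45),(1,239),(3,45),(4,1)],.leaf [(0,45),(1,239),(3,45),(4,1)]⟩,
⟨⟨⟨27,-144,-176⟩,⟨-176,99,-108⟩,⟨144,148,-99⟩⟩,true,71,214,.leaf [(2,52441),(4,126),(5,292),(6,49)],.leaf [(2,52441),(4,126),(5,292),(6,49)]⟩,
⟨⟨⟨-3,-216,76⟩,⟨-104,69,192⟩,⟨-204,-32,-99⟩⟩,true,72,51,.leaf [(0,184),(1,79),(3,96),(5,1)],.leaf [(0,184),(1,79),(3,96),(5,1)]⟩,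
⟨⟨⟨3,216,76⟩,⟨-104,69,-192⟩,⟨-204,-32,99⟩⟩,true,72,178,.leaf [(0,251),(1,116),(2,34),(6,1)],.leaf [(0,251),(1,116),(2,34),(6,1)]⟩,
⟨⟨⟨-21,-180,-140⟩,⟨220,21,-60⟩,⟨60,-140,171⟩⟩,true,74,83,.leaf [(3,209764),(4,873),(6,2),(14,231)],.leaf [(1,5643),(3,4722),(10,2356),(23,1)]⟩,
⟨⟨⟨21,180,-140⟩,⟨220,21,60⟩,⟨60,-140,-171⟩⟩,true,74,146,.leaf [(0,79),(2,80),(3,200),(4,1)],.leaf [(0,79),(2,80),(3,200),(4,1)]⟩,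
⟨⟨⟨67,216,-36⟩,⟨216,-59,48⟩,⟨36,-48,-221⟩⟩,true,75,102,.leaf [(0,254),(1,84),(2,21),(4,1)],.leaf [(0,254),(1,84),(2,21),(4,1)]⟩,
⟨⟨⟨67,216,36⟩,⟨216,-59,-48⟩,⟨-36,48,-221⟩⟩,true,75,127,.leaf [(0,51754),(2,4809),(4,257),(5,84)],.leaf [(0,51754),(2,4809),(4,257),(5,84)]⟩,
⟨⟨⟨171,-60,-140⟩,⟨-140,21,-180⟩,⟨60,220,-21⟩⟩,true,80,34,.leaf [(2,52441),(4,255),(5,280),(6,136)],.leaf [(2,52441),(4,255),(5,280),(6,136)]⟩,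
⟨⟨⟨-171,60,-140⟩,⟨-140,21,180⟩,⟨60,220,21⟩⟩,true,80,195,.leaf [(0,39),(1,164),(3,156),(4,1)],.leaf [(0,39),(1,164),(3,156),(4,1)]⟩,
⟨⟨⟨-21,-140,-180⟩,⟨60,171,-140⟩,⟨220,-60,21⟩⟩,true,83,74,.leaf [(2,209764),(5,873),(7,2),(15,231)],.leaf [(0,639),(2,2),(7,4),(10,159)]⟩,
⟨⟨⟨-21,-140,180⟩,⟨-60,-171,-140⟩,⟨220,-60,-21⟩⟩,true,83,155,.leaf [(0,20),(1,201),(2,60),(5,1)],.leaf [(0,20),(1,201),(2,60),(5,1)]⟩,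
⟨⟨⟨-165,-120,-104⟩,⟨-104,195,-60⟩,⟨120,4,-195⟩⟩,true,84,27,.leaf [(1,28854),(2,34121),(5,254),(6,35)],.leaf [(1,28854),(2,34121),(5,254),(6,35)]⟩,
⟨⟨⟨165,120,-104⟩,⟨-104,195,60⟩,⟨120,4,195⟩⟩,true,84,202,.leaf [(1,28396),(2,17175),(4,149),(6,90)],.leaf [(1,28396),(2,17175),(4,149),(6,90)]⟩,
⟨⟨⟨85,204,60⟩,⟨-60,85,-204⟩,⟨-204,60,85⟩⟩,true,94,95,.leaf [(0,209764),(5,145),(7,766),(15,145)],.leaf [(0,621),(2,290),(7,4),(10,145)]⟩,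
⟨⟨⟨85,204,-60⟩,⟨-60,85,204⟩,⟨204,-60,85⟩⟩,true,94,134,.leaf [(0,119),(1,264),(4,1)],.leaf [(0,119),(1,264),(4,1)]⟩,
⟨⟨⟨85,60,204⟩,⟨-204,85,60⟩,⟨-60,-204,85⟩⟩,true,95,94,.leaf [(1,209764),(4,145),(6,766),(14,145)],.leaf [(3,194421),(10,57708),(15,266),(23,13)]⟩,
⟨⟨⟨85,60,-204⟩,⟨-204,85,-60⟩,⟨60,204,85⟩⟩,true,95,135,.leaf [(1,1603),(2,1145),(4,7),(7,5)],.leaf [(1,1603),(2,1145),(4,7),(7,5)]⟩,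
⟨⟨⟨-59,-168,144⟩,⟨168,-131,-84⟩,⟨144,84,157⟩⟩,true,96,114,.leaf [(0,4122),(2,14885),(5,60),(6,13)],.leaf [(0,4122),(2,14885),(5,60),(6,13)]⟩,
⟨⟨⟨-59,-168,-144⟩,⟨168,-131,84⟩,⟨-144,-84,157⟩⟩,true,96,115,.leaf [(0,2977),(3,13740),(4,65),(6,18)],.leaf [(0,2977),(3,13740),(4,65),(6,18)]⟩,
⟨⟨⟨-131,84,-168⟩,⟨-84,157,144⟩,⟨168,144,-59⟩⟩,true,99,31,.leaf [(1,52441),(4,228),(5,209),(7,18)],.leaf [(1,52441),(4,228),(5,209),(7,18)]⟩,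
⟨⟨⟨-131,84,168⟩,⟨-84,157,-144⟩,⟨-168,-144,-59⟩⟩,true,99,198,.leaf [(3,52441),(5,75),(7,95),(15,57)],.leaf [(1,3105),(3,975),(10,437),(22,1)]⟩,
⟨⟨⟨99,-176,-108⟩,⟨-144,27,-176⟩,⟨148,144,-99⟩⟩,true,100,103,.leaf [(0,113),(2,171),(5,1),(11,9)],.leaf [(0,533),(2,738),(5,4),(10,9)]⟩,
⟨⟨⟨99,-176,108⟩,⟨144,-27,-176⟩,⟨148,144,99⟩⟩,true,100,126,.leaf [(0,140),(1,9),(2,180),(5,1)],.leaf [(0,140),(1,9),(2,180),(5,1)]⟩,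
⟨⟨⟨21,60,220⟩,⟨-140,-171,60⟩,⟨180,-140,21⟩⟩,true,101,65,.leaf [(1,52441),(4,260),(5,399),(14,60)],.leaf [(1,20),(2,186),(4,1),(10,45)]⟩,
⟨⟨⟨-21,-60,220⟩,⟨-140,-171,-60⟩,⟨180,-140,-21⟩⟩,true,101,164,.leaf [(1,52441),(4,110),(5,321),(14,30)],.leaf [(1,24503),(4,49),(10,10763),(15,11)]⟩,
⟨⟨⟨67,-36,216⟩,⟨36,-221,-48⟩,⟨216,48,-59⟩⟩,true,102,75,.leaf [(0,84),(1,254),(3,21),(5,1)],.leaf [(0,84),(1,254),(3,21),(5,1)]⟩,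
⟨⟨⟨67,-36,-216⟩,⟨36,-221,48⟩,⟨-216,-48,-59⟩⟩,true,102,154,.leaf [(0,185),(1,240),(3,24),(4,1)],.leaf [(0,185),(1,240),(3,24),(4,1)]⟩,
⟨⟨⟨99,-108,-176⟩,⟨148,-99,144⟩,⟨-144,-176,27⟩⟩,true,103,100,.leaf [(1,113),(3,171),(4,1),(10,9)],.leaf [(1,15572),(3,26793),(4,112),(15,9)]⟩,
⟨⟨⟨-99,108,-176⟩,⟨148,-99,-144⟩,⟨-144,-176,-27⟩⟩,true,103,129,.leaf [(0,39159),(3,7328),(4,189),(6,4)],.leaf [(0,39159),(3,7328),(4,189),(6,4)]⟩,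
⟨⟨⟨195,60,-104⟩,⟨4,195,120⟩,⟨120,-104,165⟩⟩,true,106,30,.leaf [(1,3664),(2,10305),(4,20),(6,51)],.leaf [(1,3664),(2,10305),(4,20),(6,51)]⟩,
⟨⟨⟨-195,-60,-104⟩,⟨4,195,-120⟩,⟨120,-104,-165⟩⟩,true,106,199,.leaf [(2,8702),(3,16717),(5,17),(6,70)],.leaf [(2,8702),(3,16717),(5,17),(6,70)]⟩,
⟨⟨⟨-221,-60,0⟩,⟨60,-221,0⟩,⟨0,0,229⟩⟩,true,107,0,.leaf [(0,52441),(4,221),(6,60)],.leaf [(0,52441),(4,221),(6,60)]⟩,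
⟨⟨⟨171,148,-36⟩,⟨-132,171,76⟩,⟨76,-36,213⟩⟩,true,108,48,.leaf [(4,657),(7,540),(10,52441),(14,50)],.leaf [(1,11664),(10,4500),(26,1367),(30,5)]⟩,
⟨⟨⟨171,148,36⟩,⟨132,-171,76⟩,⟨76,-36,-213⟩⟩,true,108,181,.leaf [(0,160),(1,40),(2,159),(4,1)],.leaf [(0,160),(1,40),(2,159),(4,1)]⟩,
⟨⟨⟨21,228,4⟩,⟨-212,21,-84⟩,⟨-84,4,213⟩⟩,true,109,22,.leaf [(0,6183),(1,1832),(4,1),(6,24)],.leaf [(0,6183),(1,1832),(4,1),(6,24)]⟩,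
⟨⟨⟨-21,-228,4⟩,⟨-212,21,84⟩,⟨-84,4,-213⟩⟩,true,109,207,.leaf [(2,3893),(3,4580),(4,3),(5,20)],.leaf [(2,3893),(3,4580),(4,3),(5,20)]⟩,
⟨⟨⟨-221,-36,48⟩,⟨36,67,216⟩,⟨-48,216,-59⟩⟩,true,110,6,.leaf [(0,16717),(1,18320),(4,53),(5,88)],.leaf [(0,16717),(1,18320),(4,53),(5,88)]⟩,
⟨⟨⟨-221,-36,-48⟩,⟨36,67,-216⟩,⟨48,-216,-59⟩⟩,true,110,223,.leaf [(5,3915),(7,669),(14,803),(18,52441)],.leaf [(1,864),(3,363),(10,88),(15,1)]⟩,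
⟨⟨⟨-3,-104,-204⟩,⟨-216,69,-32⟩,⟨76,192,-99⟩⟩,true,111,68,.leaf [(2,104882),(4,322),(5,543),(15,7)],.leaf [(2,119080),(4,329),(5,600),(10,1603)]⟩,
⟨⟨⟨-3,-104,204⟩,⟨216,-69,-32⟩,⟨76,192,99⟩⟩,true,111,161,.leaf [(0,56),(2,240),(3,105),(5,1)],.leaf [(0,56),(2,240),(3,105),(5,1)]⟩,
⟨⟨⟨-59,144,-168⟩,⟨144,157,84⟩,⟨168,-84,-131⟩⟩,true,114,96,.leaf [(1,4122),(3,14885),(4,60),(7,13)],.leaf [(1,4122),(3,14885),(4,60),(7,13)]⟩,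
⟨⟨⟨-59,144,168⟩,⟨144,157,-84⟩,⟨-168,84,-131⟩⟩,true,114,133,.leaf [(1,1145),(3,4351),(5,19),(7,5)],.leaf [(1,1145),(3,4351),(5,19),(7,5)]⟩,
⟨⟨⟨-59,-144,-168⟩,⟨-144,157,-84⟩,⟨168,84,-131⟩⟩,true,115,96,.leaf [(1,2977),(2,13740),(5,65),(7,18)],.leaf [(1,2977),(2,13740),(5,65),(7,18)]⟩,
⟨⟨⟨-59,-144,168⟩,⟨-144,157,84⟩,⟨-168,-84,-131⟩⟩,true,115,133,.leaf [(1,65),(2,60),(3,234),(5,1)],.leaf [(1,65),(2,60),(3,234),(5,1)]⟩,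
⟨⟨⟨3,-104,204⟩,⟨-216,-69,-32⟩,⟨76,-192,-99⟩⟩,true,118,68,.leaf [(1,7099),(3,5267),(5,37),(7,11)],.leaf [(1,7099),(3,5267),(5,37),(7,11)]⟩,
⟨⟨⟨3,-104,-204⟩,⟨216,69,-32⟩,⟨76,-192,99⟩⟩,true,118,161,.leaf [(0,157323),(4,448),(7,776),(14,7)],.leaf [(0,151827),(4,434),(7,772),(10,1603)]⟩,
⟨⟨⟨-221,36,48⟩,⟨-36,67,-216⟩,⟨-48,-216,-59⟩⟩,true,119,6,.leaf [(1,32060),(3,29541),(5,4),(15,63)],.leaf [(1,3213),(3,3804),(10,1744),(23,1)]⟩,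
⟨⟨⟨-221,36,-48⟩,⟨-36,67,216⟩,⟨48,216,-59⟩⟩,true,119,223,.leaf [(1,11450),(3,36411),(4,180),(5,31)],.leaf [(1,11450),(3,36411),(4,180),(5,31)]⟩,
⟨⟨⟨21,-228,4⟩,⟨-212,-21,-84⟩,⟨84,4,-213⟩⟩,true,120,22,.leaf [(0,193),(1,217),(2,39),(5,1)],.leaf [(0,193),(1,217),(2,39),(5,1)]⟩,
⟨⟨⟨-21,228,4⟩,⟨-212,-21,84⟩,⟨84,4,213⟩⟩,true,120,207,.leaf [(0,69),(1,80),(2,180),(4,1)],.leaf [(0,69),(1,80),(2,180),(4,1)]⟩,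
⟨⟨⟨-171,148,36⟩,⟨-132,-171,76⟩,⟨76,36,213⟩⟩,true,121,48,.leaf [(0,199),(1,40),(2,120),(4,1)],.leaf [(0,199),(1,40),(2,120),(4,1)]⟩,
⟨⟨⟨-171,148,-36⟩,⟨132,171,76⟩,⟨76,36,-213⟩⟩,true,121,181,.leaf [(3,3664),(4,20),(10,3435),(14,17)],.leaf [(1,1890),(3,813),(10,796),(15,1)]⟩,
⟨⟨⟨-221,60,0⟩,⟨-60,-221,0⟩,⟨0,0,229⟩⟩,true,122,0,.leaf [(0,221),(2,60),(4,1)],.leaf [(0,221),(2,60),(4,1)]⟩,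
⟨⟨⟨195,-60,-104⟩,⟨4,-195,120⟩,⟨-120,-104,-165⟩⟩,true,123,30,.leaf [(0,84),(1,224),(2,51),(4,1)],.leaf [(0,84),(1,224),(2,51),(4,1)]⟩,
⟨⟨⟨-195,60,-104⟩,⟨4,-195,-120⟩,⟨-120,-104,165⟩⟩,true,123,199,.leaf [(0,3206),(2,229),(4,14),(6,1)],.leaf [(0,3206),(2,229),(4,14),(6,1)]⟩,
⟨⟨⟨99,108,-176⟩,⟨148,99,144⟩,⟨144,-176,-27⟩⟩,true,126,100,.leaf [(0,9),(1,140),(3,180),(4,1)],.leaf [(0,9),(1,140),(3,180),(4,1)]⟩,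
⟨⟨⟨-99,-108,-176⟩,⟨148,99,-144⟩,⟨144,-176,27⟩⟩,true,126,129,.leaf [(1,162),(3,122),(6,1),(10,9)],.leaf [(1,1053),(3,475),(6,5),(26,9)]⟩,
⟨⟨⟨67,36,216⟩,⟨-36,-221,48⟩,⟨216,-48,-59⟩⟩,true,127,75,.leaf [(0,1603),(1,18320),(4,35),(5,88)],.leaf [(0,1603),(1,18320),(4,35),(5,88)]⟩,
⟨⟨⟨67,36,-216⟩,⟨-36,-221,-48⟩,⟨-216,48,-59⟩⟩,true,127,154,.leaf [(1,7),(2,257),(3,161),(4,1)],.leaf [(1,7),(2,257),(3,161),(4,1)]⟩,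
⟨⟨⟨21,-60,220⟩,⟨-140,171,60⟩,⟨-180,-140,-21⟩⟩,true,128,65,.leaf [(3,52441),(5,221),(15,20)],.leaf [(0,39),(3,8),(6,1),(10,72)]⟩,
⟨⟨⟨-21,60,220⟩,⟨-140,171,-60⟩,⟨-180,-140,21⟩⟩,true,128,164,.leaf [(0,11286),(3,9675),(18,2146),(23,1)],.leaf [(3,38701),(5,139),(6,160),(10,9160)]⟩,
⟨⟨⟨-99,-176,108⟩,⟨-144,-27,-176⟩,⟨148,-144,-99⟩⟩,true,129,103,.leaf [(1,39159),(2,7328),(5,189),(7,4)],.leaf [(1,39159),(2,7328),(5,189),(7,4)]⟩,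
⟨⟨⟨-99,-176,-108⟩,⟨144,27,-176⟩,⟨148,-144,99⟩⟩,true,129,126,.leaf [(0,162),(2,122),(7,1),(11,9)],.leaf [(0,729),(2,542),(7,4),(10,9)]⟩,
⟨⟨⟨-131,-84,-168⟩,⟨84,157,-144⟩,⟨168,-144,-59⟩⟩,true,130,31,.leaf [(5,3105),(7,975),(14,437),(18,52441)],.leaf [(1,1971),(3,768),(10,568),(15,1)]⟩,
⟨⟨⟨-131,-84,168⟩,⟨84,157,144⟩,⟨-168,144,-59⟩⟩,true,130,198,.leaf [(0,228),(1,209),(3,18),(5,1)],.leaf [(0,228),(1,209),(3,18),(5,1)]⟩,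
⟨⟨⟨-59,168,144⟩,⟨-168,-131,84⟩,⟨144,-84,157⟩⟩,true,133,114,.leaf [(0,1145),(2,4351),(4,19),(6,5)],.leaf [(0,1145),(2,4351),(4,19),(6,5)]⟩,
⟨⟨⟨-59,168,-144⟩,⟨-168,-131,-84⟩,⟨-144,84,157⟩⟩,true,133,115,.leaf [(0,65),(2,234),(3,60),(4,1)],.leaf [(0,65),(2,234),(3,60),(4,1)]⟩,
⟨⟨⟨85,-60,204⟩,⟨204,85,-60⟩,⟨-60,204,85⟩⟩,true,134,94,.leaf [(0,264),(1,119),(5,1)],.leaf [(0,264),(1,119),(5,1)]⟩,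
⟨⟨⟨85,-60,-204⟩,⟨204,85,60⟩,⟨60,-204,85⟩⟩,true,134,135,.leaf [(3,209764),(4,621),(6,290),(14,145)],.leaf [(6,807),(10,52441),(15,219),(23,13)]⟩,
⟨⟨⟨85,-204,60⟩,⟨60,85,204⟩,⟨-204,-60,85⟩⟩,true,135,95,.leaf [(0,1603),(3,1145),(5,7),(6,5)],.leaf [(0,1603),(3,1145),(5,7),(6,5)]⟩,
⟨⟨⟨85,-204,-60⟩,⟨60,85,-204⟩,⟨204,60,85⟩⟩,true,135,134,.leaf [(2,209764),(5,621),(7,290),(15,145)],.leaf [(0,145),(2,766),(5,4),(10,145)]⟩,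
⟨⟨⟨-165,120,-104⟩,⟨-104,-195,-60⟩,⟨-120,4,195⟩⟩,true,145,27,.leaf [(0,210),(1,44),(2,105),(4,1)],.leaf [(0,210),(1,44),(2,105),(4,1)]⟩,
⟨⟨⟨165,-120,-104⟩,⟨-104,-195,60⟩,⟨-120,4,-195⟩⟩,true,145,202,.leaf [(1,8473),(2,4122),(4,50),(5,3)],.leaf [(1,8473),(2,4122),(4,50),(5,3)]⟩,
⟨⟨⟨21,-140,180⟩,⟨60,-171,-140⟩,⟨220,60,21⟩⟩,true,146,74,.leaf [(1,79),(2,200),(3,80),(5,1)],.leaf [(1,79),(2,200),(3,80),(5,1)]⟩,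
⟨⟨⟨21,-140,-180⟩,⟨-60,171,-140⟩,⟨220,60,-21⟩⟩,true,146,155,.leaf [(0,209764),(5,233),(7,642),(15,231)],.leaf [(0,10763),(5,46),(7,114),(10,7557)]⟩,
⟨⟨⟨171,60,-140⟩,⟨-140,-21,-180⟩,⟨-60,220,21⟩⟩,true,149,34,.leaf [(0,52441),(4,25),(5,280),(6,144)],.leaf [(0,52441),(4,25),(5,280),(6,144)]⟩,
⟨⟨⟨-171,-60,-140⟩,⟨-140,-21,180⟩,⟨-60,220,-21⟩⟩,true,149,195,.leaf [(1,40304),(3,44655),(4,280),(5,39)],.leaf [(1,40304),(3,44655),(4,280),(5,39)]⟩,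
⟨⟨⟨67,-216,-36⟩,⟨-216,-59,-48⟩,⟨36,48,-221⟩⟩,true,154,102,.leaf [(0,240),(1,185),(2,24),(5,1)],.leaf [(0,240),(1,185),(2,24),(5,1)]⟩,
⟨⟨⟨67,-216,36⟩,⟨-216,-59,48⟩,⟨-36,-48,-221⟩⟩,true,154,127,.leaf [(2,36869),(3,58166),(4,7),(5,226)],.leaf [(2,36869),(3,58166),(4,7),(5,226)]⟩,
⟨⟨⟨-21,180,-140⟩,⟨220,-21,-60⟩,⟨-60,-140,-171⟩⟩,true,155,83,.leaf [(0,201),(1,20),(3,60),(4,1)],.leaf [(0,201),(1,20),(3,60),(4,1)]⟩,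
⟨⟨⟨21,-180,-140⟩,⟨220,-21,60⟩,⟨-60,-140,171⟩⟩,true,155,146,.leaf [(1,209764),(4,233),(6,642),(14,231)],.L (.leaf [(0,210),(1,236),(2,9),(4,1)]) (.L (.leaf [(1,4122),(3,14885),(4,60),(7,13)]) (.leaf [(0,174),(1,299),(2,234),(5,1)]) (.leaf [(0,228),(1,209),(3,246),(5,1)])) (.leaf [(0,292),(1,118),(3,51),(5,1)])⟩,
⟨⟨⟨-3,216,76⟩,⟨-104,-69,192⟩,⟨204,-32,99⟩⟩,true,157,51,.leaf [(0,34),(2,251),(3,116),(4,1)],.leaf [(0,34),(2,251),(3,116),(4,1)]⟩,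
⟨⟨⟨3,-216,76⟩,⟨-104,-69,-192⟩,⟨204,-32,-99⟩⟩,true,157,178,.leaf [(1,96),(2,184),(3,79),(5,1)],.leaf [(1,96),(2,184),(3,79),(5,1)]⟩,
⟨⟨⟨-27,-144,-176⟩,⟨-176,-99,108⟩,⟨-144,148,-99⟩⟩,true,158,15,.leaf [(1,58853),(3,20610),(4,292),(5,45)],.leaf [(1,58853),(3,20610),(4,292),(5,45)]⟩,
⟨⟨⟨27,144,-176⟩,⟨-176,-99,-108⟩,⟨-144,148,99⟩⟩,true,158,214,.leaf [(0,54),(1,68),(2,189),(4,1)],.leaf [(0,54),(1,68),(2,189),(4,1)]⟩,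
⟨⟨⟨-3,204,-104⟩,⟨76,99,192⟩,⟨216,-32,-69⟩⟩,true,161,111,.leaf [(1,56),(2,105),(3,240),(4,1)],.leaf [(1,56),(2,105),(3,240),(4,1)]⟩,
⟨⟨⟨3,-204,-104⟩,⟨76,99,-192⟩,⟨216,-32,69⟩⟩,true,161,118,.leaf [(1,157323),(5,448),(6,776),(15,7)],.leaf [(1,17175),(5,49),(6,65),(10,1603)]⟩,
⟨⟨⟨-21,220,-60⟩,⟨180,-21,-140⟩,⟨-140,-60,-171⟩⟩,true,164,101,.leaf [(0,52441),(4,321),(5,110),(15,30)],.leaf [(3,7099),(4,32),(5,21),(10,1832)]⟩,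
⟨⟨⟨-21,220,60⟩,⟨-180,21,-140⟩,⟨-140,-60,171⟩⟩,true,164,128,.leaf [(2,12137),(4,83),(7,56),(18,916)],.leaf [(1,120),(2,119),(4,1),(10,80)]⟩,
⟨⟨⟨99,76,-192⟩,⟨-204,3,-104⟩,⟨-32,216,69⟩⟩,true,165,5,.leaf [(2,126408),(4,516),(14,97),(18,2519)],.leaf [(2,54502),(4,281),(5,372),(10,18091)]⟩,
⟨⟨⟨99,76,192⟩,⟨204,-3,-104⟩,⟨-32,216,-69⟩⟩,true,165,224,.leaf [(0,5),(2,135),(3,261),(5,1)],.leaf [(0,5),(2,135),(3,261),(5,1)]⟩,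
⟨⟨⟨213,76,36⟩,⟨36,-171,148⟩,⟨76,-132,-171⟩⟩,true,167,55,.leaf [(1,21),(2,247),(3,91),(4,1)],.leaf [(1,21),(2,247),(3,91),(4,1)]⟩,
⟨⟨⟨213,76,-36⟩,⟨-36,171,148⟩,⟨76,-132,171⟩⟩,true,167,174,.leaf [(1,4809),(3,18320),(4,56),(7,95)],.leaf [(1,4809),(3,18320),(4,56),(7,95)]⟩,
⟨⟨⟨99,144,148⟩,⟨-176,-27,144⟩,⟨108,-176,99⟩⟩,true,168,20,.leaf [(1,9160),(2,84501),(4,410),(14,27)],.leaf [(1,212),(2,117),(4,1),(10,54)]⟩,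
⟨⟨⟨-99,-144,148⟩,⟨-176,-27,-144⟩,⟨108,-176,-99⟩⟩,true,168,209,.leaf [(5,876),(6,378),(10,52441),(14,49)],.L (.leaf [(1,40991),(2,11679),(4,235),(5,69)]) (.leaf [(0,12743163),(7,33075),(30,2975),(39,13)]) (.leaf [(1,4580),(3,11679),(4,16),(7,45)])⟩,
⟨⟨⟨-59,216,48⟩,⟨216,67,-36⟩,⟨-48,36,-221⟩⟩,true,171,38,.leaf [(3,52441),(4,180),(5,219),(7,50)],.leaf [(3,52441),(4,180),(5,219),(7,50)]⟩,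
⟨⟨⟨-59,216,-48⟩,⟨216,67,36⟩,⟨48,-36,-221⟩⟩,true,171,191,.leaf [(3,52441),(4,252),(5,159),(7,14)],.leaf [(3,52441),(4,252),(5,159),(7,14)]⟩,
⟨⟨⟨-213,4,-84⟩,⟨84,21,-212⟩,⟨4,-228,-21⟩⟩,true,172,52,.leaf [(2,4809),(7,21),(11,1145),(14,5)],.leaf [(2,27251),(4,25),(7,144),(10,4580)]⟩,
⟨⟨⟨-213,4,84⟩,⟨-84,-21,-212⟩,⟨4,-228,21⟩⟩,true,172,177,.leaf [(1,45),(2,224),(3,60),(7,1)],.leaf [(1,45),(2,224),(3,60),(7,1)]⟩,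
⟨⟨⟨-213,36,76⟩,⟨76,171,132⟩,⟨-36,148,-171⟩⟩,true,174,62,.leaf [(0,8015),(1,20152),(4,7),(5,80)],.leaf [(0,8015),(1,20152),(4,7),(5,80)]⟩,
⟨⟨⟨213,-36,76⟩,⟨76,171,-132⟩,⟨-36,148,171⟩⟩,true,174,167,.leaf [(0,4809),(2,18320),(5,56),(6,95)],.leaf [(0,4809),(2,18320),(5,56),(6,95)]⟩,
⟨⟨⟨195,4,-120⟩,⟨-60,-195,-104⟩,⟨-104,120,-165⟩⟩,true,175,17,.leaf [(1,458),(2,4809),(4,23),(5,2)],.leaf [(1,458),(2,4809),(4,23),(5,2)]⟩,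
⟨⟨⟨195,4,120⟩,⟨60,195,-104⟩,⟨-104,120,165⟩⟩,true,175,212,.leaf [(3,167399),(5,51),(7,454),(18,10076)],.leaf [(3,64349),(5,213),(7,118),(10,10076)]⟩,
⟨⟨⟨-171,132,76⟩,⟨148,171,36⟩,⟨-36,76,-213⟩⟩,true,176,25,.leaf [(3,52441),(4,264),(5,249),(6,80)],.leaf [(3,52441),(4,264),(5,249),(6,80)]⟩,
⟨⟨⟨171,-132,76⟩,⟨148,171,-36⟩,⟨-36,76,213⟩⟩,true,176,204,.leaf [(2,43739),(5,40),(6,321),(18,4580)],.leaf [(0,693),(2,2),(5,4),(10,137)]⟩,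
⟨⟨⟨213,-84,4⟩,⟨4,21,228⟩,⟨-84,-212,21⟩⟩,true,177,57,.leaf [(4,6849),(5,2145),(15,1925),(18,52441)],.leaf [(1,2376),(3,1296),(10,953),(14,1)]⟩,
⟨⟨⟨-213,84,4⟩,⟨4,21,-228⟩,⟨-84,-212,-21⟩⟩,true,177,172,.leaf [(0,45),(2,60),(3,224),(6,1)],.leaf [(0,45),(2,60),(3,224),(6,1)]⟩,
⟨⟨⟨3,76,216⟩,⟨-204,99,-32⟩,⟨-104,-192,69⟩⟩,true,178,72,.leaf [(0,116),(1,251),(3,34),(7,1)],.leaf [(0,116),(1,251),(3,34),(7,1)]⟩,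
⟨⟨⟨3,76,-216⟩,⟨204,-99,-32⟩,⟨-104,-192,-69⟩⟩,true,178,157,.leaf [(0,96),(2,79),(3,184),(4,1)],.leaf [(0,96),(2,79),(3,184),(4,1)]⟩,
⟨⟨⟨171,36,148⟩,⟨76,-213,-36⟩,⟨132,76,-171⟩⟩,true,181,108,.leaf [(0,16717),(1,18320),(4,53),(5,88)],.leaf [(0,16717),(1,18320),(4,53),(5,88)]⟩,
⟨⟨⟨-171,-36,148⟩,⟨76,-213,36⟩,⟨132,76,171⟩⟩,true,181,121,.leaf [(2,3664),(5,20),(11,3435),(15,17)],.leaf [(0,27709),(4,166),(5,28),(10,4809)]⟩,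
⟨⟨⟨69,192,-104⟩,⟨-32,-99,-204⟩,⟨-216,76,-3⟩⟩,true,182,35,.leaf [(0,8015),(2,16717),(4,77),(6,25)],.leaf [(0,8015),(2,16717),(4,77),(6,25)]⟩,
⟨⟨⟨-69,-192,-104⟩,⟨-32,-99,204⟩,⟨-216,76,3⟩⟩,true,182,194,.leaf [(1,24503),(3,48090),(4,268),(5,93)],.leaf [(1,24503),(3,48090),(4,268),(5,93)]⟩,
⟨⟨⟨-69,-32,-216⟩,⟨-192,-99,76⟩,⟨-104,204,3⟩⟩,true,183,33,.leaf [(0,67),(1,241),(3,51),(4,1)],.leaf [(0,67),(1,241),(3,51),(4,1)]⟩,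
⟨⟨⟨-69,-32,216⟩,⟨192,99,76⟩,⟨-104,204,-3⟩⟩,true,183,196,.leaf [(0,236),(1,210),(3,9),(5,1)],.leaf [(0,236),(1,210),(3,9),(5,1)]⟩,
⟨⟨⟨-99,-32,-204⟩,⟨192,69,-104⟩,⟨76,-216,-3⟩⟩,true,190,9,.leaf [(0,157323),(4,841),(7,758),(15,118)],.leaf [(0,56334),(4,271),(7,392),(10,13511)]⟩,
⟨⟨⟨-99,-32,204⟩,⟨-192,-69,-104⟩,⟨76,-216,3⟩⟩,true,190,220,.leaf [(1,8473),(3,2519),(5,31),(7,23)],.leaf [(1,8473),(3,2519),(5,31),(7,23)]⟩,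
⟨⟨⟨-59,-48,-216⟩,⟨48,-221,36⟩,⟨-216,-36,67⟩⟩,true,191,58,.leaf [(0,173),(1,159),(3,93),(4,1)],.leaf [(0,173),(1,159),(3,93),(4,1)]⟩,
⟨⟨⟨-59,-48,216⟩,⟨48,-221,-36⟩,⟨216,36,67⟩⟩,true,191,171,.leaf [(2,52441),(4,159),(5,252),(6,14)],.leaf [(2,52441),(4,159),(5,252),(6,14)]⟩,
⟨⟨⟨157,-84,-144⟩,⟨84,-131,168⟩,⟨-144,-168,-59⟩⟩,true,192,2,.leaf [(0,47),(1,216),(3,96),(4,1)],.leaf [(0,47),(1,216),(3,96),(4,1)]⟩,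
⟨⟨⟨157,-84,144⟩,⟨84,-131,-168⟩,⟨144,168,-59⟩⟩,true,192,227,.leaf [(0,234),(1,203),(2,18),(5,1)],.leaf [(0,234),(1,203),(2,18),(5,1)]⟩,
⟨⟨⟨-69,-104,192⟩,⟨216,-3,76⟩,⟨-32,204,99⟩⟩,true,194,47,.leaf [(0,89),(2,219),(3,93),(5,1)],.leaf [(0,89),(2,219),(3,93),(5,1)]⟩,
⟨⟨⟨-69,-104,-192⟩,⟨-216,3,76⟩,⟨-32,204,-99⟩⟩,true,194,182,.leaf [(1,60914),(3,11679),(4,308),(5,107)],.leaf [(1,60914),(3,11679),(4,308),(5,107)]⟩,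
⟨⟨⟨-171,-140,60⟩,⟨60,21,220⟩,⟨-140,180,21⟩⟩,true,195,80,.leaf [(0,5267),(1,2977),(4,13),(5,23)],.leaf [(0,5267),(1,2977),(4,13),(5,23)]⟩,
⟨⟨⟨-171,-140,-60⟩,⟨-60,-21,220⟩,⟨-140,180,-21⟩⟩,true,195,149,.leaf [(1,26564),(3,58395),(4,320),(5,119)],.leaf [(1,26564),(3,58395),(4,320),(5,119)]⟩,
⟨⟨⟨69,-216,-32⟩,⟨-104,-3,-204⟩,⟨192,76,-99⟩⟩,true,196,46,.leaf [(0,51),(2,241),(3,67),(5,1)],.leaf [(0,51),(2,241),(3,67),(5,1)]⟩,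
⟨⟨⟨-69,216,-32⟩,⟨-104,-3,204⟩,⟨192,76,99⟩⟩,true,196,183,.leaf [(0,210),(1,236),(2,9),(4,1)],.leaf [(0,210),(1,236),(2,9),(4,1)]⟩,
⟨⟨⟨-131,168,84⟩,⟨-168,-59,-144⟩,⟨-84,-144,157⟩⟩,true,198,99,.leaf [(2,52441),(4,75),(6,95),(14,57)],.leaf [(0,38),(2,132),(4,1),(10,57)]⟩,
⟨⟨⟨-131,168,-84⟩,⟨-168,-59,144⟩,⟨84,144,157⟩⟩,true,198,130,.leaf [(0,209),(1,228),(2,18),(4,1)],.leaf [(0,209),(1,228),(2,18),(4,1)]⟩,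
⟨⟨⟨-195,-104,-60⟩,⟨120,-165,-104⟩,⟨4,-120,195⟩⟩,true,199,106,.leaf [(2,16717),(3,8702),(4,17),(7,70)],.leaf [(2,16717),(3,8702),(4,17),(7,70)]⟩,
⟨⟨⟨-195,-104,60⟩,⟨-120,165,-104⟩,⟨4,-120,-195⟩⟩,true,199,123,.leaf [(1,3206),(3,229),(5,14),(7,1)],.leaf [(1,3206),(3,229),(5,14),(7,1)]⟩,
⟨⟨⟨165,-104,120⟩,⟨120,195,4⟩,⟨-104,60,195⟩⟩,true,202,84,.leaf [(0,28396),(3,17175),(5,149),(7,90)],.leaf [(0,28396),(3,17175),(5,149),(7,90)]⟩,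
⟨⟨⟨165,-104,-120⟩,⟨-120,-195,4⟩,⟨-104,60,-195⟩⟩,true,202,145,.leaf [(1,34121),(2,28854),(4,254),(5,35)],.leaf [(1,34121),(2,28854),(4,254),(5,35)]⟩,
⟨⟨⟨171,76,132⟩,⟨36,-213,76⟩,⟨148,-36,-171⟩⟩,true,204,53,.leaf [(0,20839),(2,60456),(4,303),(5,56)],.leaf [(0,20839),(2,60456),(4,303),(5,56)]⟩,
⟨⟨⟨171,76,-132⟩,⟨-36,213,76⟩,⟨148,-36,171⟩⟩,true,204,176,.leaf [(3,20),(4,1),(10,62),(18,15)],.leaf [(1,2349),(3,1506),(10,964),(15,1)]⟩,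
⟨⟨⟨-21,4,-228⟩,⟨-84,-213,4⟩,⟨-212,84,21⟩⟩,true,207,109,.leaf [(0,193),(1,232),(2,24),(4,1)],.leaf [(0,193),(1,232),(2,24),(4,1)]⟩,
⟨⟨⟨-21,4,228⟩,⟨84,213,4⟩,⟨-212,84,-21⟩⟩,true,207,120,.leaf [(0,80),(1,69),(3,180),(5,1)],.leaf [(0,80),(1,69),(3,180),(5,1)]⟩,
⟨⟨⟨21,-212,84⟩,⟨-228,-21,4⟩,⟨4,-84,-213⟩⟩,true,208,4,.leaf [(0,128),(1,204),(3,93),(5,1)],.leaf [(0,128),(1,204),(3,93),(5,1)]⟩,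
⟨⟨⟨21,-212,-84⟩,⟨228,21,4⟩,⟨4,-84,213⟩⟩,true,208,225,.leaf [(0,687),(3,5038),(4,25),(7,22)],.leaf [(0,687),(3,5038),(4,25),(7,22)]⟩,
⟨⟨⟨-99,148,144⟩,⟨-108,99,-176⟩,⟨-176,-144,27⟩⟩,true,209,61,.leaf [(1,171063),(2,33892),(7,815),(15,54)],.leaf [(1,181368),(7,528),(10,21755),(14,29)]⟩,
⟨⟨⟨-99,148,-144⟩,⟨108,-99,-176⟩,⟨-176,-144,-27⟩⟩,true,209,168,.leaf [(4,876),(7,378),(11,52441),(15,49)],.leaf [(0,219),(2,20),(4,1),(10,8)]⟩,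
⟨⟨⟨-195,-120,4⟩,⟨-104,165,-120⟩,⟨60,-104,-195⟩⟩,true,212,54,.leaf [(1,4809),(2,458),(5,23),(6,2)],.leaf [(1,4809),(2,458),(5,23),(6,2)]⟩,
⟨⟨⟨195,120,4⟩,⟨-104,165,120⟩,⟨60,-104,195⟩⟩,true,212,175,.leaf [(2,112210),(4,345),(6,404),(18,2519)],.leaf [(2,3206),(4,6),(6,13),(10,229)]⟩,
⟨⟨⟨27,-176,-144⟩,⟨144,-99,148⟩,⟨-176,-108,99⟩⟩,true,214,71,.leaf [(3,52441),(4,292),(5,126),(7,49)],.leaf [(3,52441),(4,292),(5,126),(7,49)]⟩,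
⟨⟨⟨27,-176,144⟩,⟨-144,99,148⟩,⟨-176,-108,-99⟩⟩,true,214,158,.leaf [(0,68),(1,54),(3,189),(5,1)],.leaf [(0,68),(1,54),(3,189),(5,1)]⟩,
⟨⟨⟨99,-204,-32⟩,⟨76,3,216⟩,⟨-192,-104,69⟩⟩,true,220,39,.L (.leaf [(0,39),(1,164),(3,156),(4,1)]) (.leaf [(0,370980),(7,795),(11,100073),(23,46)]) (.leaf [(0,280),(1,136),(3,255),(5,1)]),.leaf [(3,41449),(4,27),(5,191),(10,13511)]⟩,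
⟨⟨⟨-99,204,-32⟩,⟨76,3,-216⟩,⟨-192,-104,-69⟩⟩,true,220,190,.leaf [(0,8473),(2,2519),(4,31),(6,23)],.leaf [(0,8473),(2,2519),(4,31),(6,23)]⟩,
⟨⟨⟨-221,-48,-36⟩,⟨48,-59,-216⟩,⟨36,-216,67⟩⟩,true,223,110,.leaf [(4,3213),(6,3804),(15,1744),(18,52441)],.leaf [(2,916),(4,96),(6,95),(10,10305)]⟩,
⟨⟨⟨-221,-48,36⟩,⟨48,-59,216⟩,⟨-36,216,67⟩⟩,true,223,119,.leaf [(0,12595),(3,36411),(4,209),(5,39)],.leaf [(0,12595),(3,36411),(4,209),(5,39)]⟩,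
⟨⟨⟨-99,-192,76⟩,⟨-32,-69,-216⟩,⟨204,-104,3⟩⟩,true,224,64,.leaf [(1,157323),(5,919),(6,473),(14,79)],.leaf [(1,93432),(5,256),(6,17),(10,18091)]⟩,
⟨⟨⟨99,192,76⟩,⟨-32,-69,216⟩,⟨204,-104,-3⟩⟩,true,224,165,.leaf [(1,5),(2,261),(3,135),(4,1)],.leaf [(1,5),(2,261),(3,135),(4,1)]⟩,
⟨⟨⟨-21,84,-212⟩,⟨4,213,84⟩,⟨228,4,-21⟩⟩,true,225,21,.leaf [(1,15801),(3,19007),(4,99),(6,43)],.leaf [(1,15801),(3,19007),(4,99),(6,43)]⟩,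
⟨⟨⟨21,-84,-212⟩,⟨4,213,-84⟩,⟨228,4,21⟩⟩,true,225,208,.leaf [(1,687),(2,5038),(5,25),(6,22)],.leaf [(1,687),(2,5038),(5,25),(6,22)]⟩,
⟨⟨⟨157,144,84⟩,⟨144,-59,-168⟩,⟨-84,168,-131⟩⟩,true,227,37,.leaf [(0,5496),(3,46487),(5,216),(7,1)],.leaf [(0,5496),(3,46487),(5,216),(7,1)]⟩,
⟨⟨⟨157,144,-84⟩,⟨144,-59,168⟩,⟨84,-168,-131⟩⟩,true,227,192,.leaf [(0,203),(1,234),(3,18),(4,1)],.leaf [(0,203),(1,234),(3,18),(4,1)]⟩]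

theorem primeOk_229 : PrimeOk 229 := primeOk (by norm_num) (by norm_num) (by norm_num) L229
  (by decide +kernel) (by decide +kernel)

end Pool.Agent.Lib.H63.TSP
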