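import Mathlib
import Pool.Agent.Lib.H63.TSPCount

/-!
# The number of representations by three squares is at most `12` times the size of `X m`
-/

set_option autoImplicit false

namespace Pool.Agent.Lib.H63.TSP

lemma X_bound {m : ℤ} {v : V} (h : X m v) :
    v.e ∈ Set.Icc (-(2 * m)) (2 * m) ∧ v.p ∈ Set.Icc (-(2 * m)) (2 * m) ∧
      v.q ∈ Set.Icc (-(2 * m)) (2 * m) := by
  have h1 := h.1
  have key : ∀ x : ℤ, x ^ 2 ≤ 2 * m → x ∈ Set.Icc (-(2 * m)) (2 * m) := by
    intro x hx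
    have h0 : 0 ≤ 2 * m := le_trans (sq_nonneg x) hx
    constructor
    · by_contra hc
      have h2 : x < 0 := by push Not at hc; linarith
      have h3 : 2 * m + 1 ≤ -x := by push Not at hc; omega
      nlinarith
    · by_contra hc
      have h3 : 2 * m + 1 ≤ x := by push Not at hc; omega
      nlinarith
  refine ⟨key _ ?_, key _ ?_, key _ ?_⟩ <;>
    nlinarith [sq_nonneg v.e, sq_nonneg v.p, sq_nonneg v.q]

/-- the finite set of vectors of `X m` -/
noncomputable def XF (m : ℤ) : Finset V := by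
  classical
  exact (((Finset.Icc (-(2 * m)) (2 * m)) ×ˢ (Finset.Icc (-(2 * m)) (2 * m)) ×ˢ
    (Finset.Icc (-(2 * m)) (2 * m))).image (fun t => (⟨t.1, t.2.1, t.2.2⟩ : V))).filter
      (fun v => X m v)

lemma mem_XF {m : ℤ} {v : V} : v ∈ XF m ↔ X m v := by
  classical
  unfold XF
  rw [Finset.mem_filter, Finset.mem_image]
  constructor
  · rintro ⟨-, h⟩; exact h
  · intro h
    refine ⟨⟨(v.e, v.p, v.q), ?_, rfl⟩, h⟩
    have := X_bound h
    simp only [Set.mem_Icc] at this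
    simp only [Finset.mem_product, Finset.mem_Icc]
    exact this

/-- the set of representations as a sum of three squares -/
def R3 (N : ℤ) : Set (ℤ × ℤ × ℤ) := {t | t.1 ^ 2 + t.2.1 ^ 2 + t.2.2 ^ 2 = N}

/-- sign multiplication -/
def sgn (b : Bool) (x : ℤ) : ℤ := if b then x else -x

lemma sgn_sgn (b : Bool) (x : ℤ) : sgn b (sgn b x) = x := by
  cases b <;> simp [sgn]

lemma sgn_sq (b : Bool) (x : ℤ) : (sgn b x) ^ 2 = x ^ 2 := by
  cases b <;> simp [sgn]

/-- re-attach signs (avoiding the coordinate divisible by three) and permute the even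
coordinate to position `i` -/
def spread (i : Fin 3) (b c : Bool) (v : V) : ℤ × ℤ × ℤ :=
  let w : V := match letter v with
    | .E => ⟨v.e, sgn b v.p, sgn c v.q⟩
    | .P => ⟨sgn b v.e, v.p, sgn c v.q⟩
    | .Q => ⟨sgn b v.e, sgn c v.p, v.q⟩
  match i with
  | 0 => (w.e, w.p, w.q)
  | 1 => (w.p, w.e, w.q)
  | 2 => (w.p, w.q, w.e)

lemma spread_surj {m : ℤ} (hm : m % 6 = 1) {x y z : ℤ} (hx : x % 2 = 0)
    (h : x ^ 2 + y ^ 2 + z ^ 2 = 2 * m) :
    ∃ (b c : Bool) (v : V), X m v ∧ (match letter v with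
    | .E => (⟨v.e, sgn b v.p, sgn c v.q⟩ : V)
    | .P => ⟨sgn b v.e, v.p, sgn c v.q⟩
    | .Q => ⟨sgn b v.e, sgn c v.p, v.q⟩) = ⟨x, y, z⟩ := by
  have key : ∀ t : ℤ, t ^ 2 % 3 = if t % 3 = 0 then 0 else 1 := by
    intro t
    have : t % 3 = 0 ∨ t % 3 = 1 ∨ t % 3 = 2 := by omega
    rcases this with h | h | h <;> simp [pow_two, Int.mul_emod, h]
  have kx := key x
  have ky := key y
  have kz := key z
  have hsum : (x ^ 2 + y ^ 2 + z ^ 2) % 3 = 2 := by rw [h]; omega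
  have hneg : ∀ t : ℤ, t % 3 ≠ 0 → (∃ b, (sgn b t) % 3 = 1 ∧ (t % 2 = 0 → sgn b t % 2 = 0)) ∧
      (∃ b, (sgn b t) % 3 = 2 ∧ (t % 2 = 0 → sgn b t % 2 = 0)) := by
    intro t ht
    have : t % 3 = 1 ∨ t % 3 = 2 := by omega
    rcases this with h | h
    · exact ⟨⟨true, by simp [sgn, h], by simp [sgn]⟩, ⟨false, by simp [sgn]; omega, by simp [sgn]⟩⟩
    · exact ⟨⟨false, by simp [sgn]; omega, by simp [sgn]⟩, ⟨true, by simp [sgn, h], by simp [sgn]⟩⟩
  by_cases h3x : x % 3 = 0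
  · rw [if_pos h3x] at kx
    have h3y : y % 3 ≠ 0 := by intro h0; rw [if_pos h0] at ky; split_ifs at kz <;> omega
    have h3z : z % 3 ≠ 0 := by intro h0; rw [if_pos h0] at kz; split_ifs at ky <;> omega
    obtain ⟨b, hb, -⟩ := (hneg y h3y).1
    obtain ⟨c, hc, -⟩ := (hneg z h3z).2
    have hX : X m ⟨x, sgn b y, sgn c z⟩ := ⟨by simp only [sgn_sq]; exact h, hx, by simp only; omega,
      by simp only; omega⟩
    refine ⟨b, c, _, hX, ?_⟩
    rw [letter_eq hX .E h3x]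
    simp only [sgn_sgn]
  · rw [if_neg h3x] at kx
    by_cases h3y : y % 3 = 0
    · rw [if_pos h3y] at ky
      have h3z : z % 3 ≠ 0 := by intro h0; rw [if_pos h0] at kz; omega
      obtain ⟨b, hb, hb2⟩ := (hneg x h3x).2
      obtain ⟨c, hc, -⟩ := (hneg z h3z).1
      have hX : X m ⟨sgn b x, y, sgn c z⟩ := ⟨by simp only [sgn_sq]; exact h, hb2 hx,
        by simp only; omega, by simp only; omega⟩
      refine ⟨b, c, _, hX, ?_⟩
      rw [letter_eq hX .P h3y]
      simp only [sgn_sgn]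
    · rw [if_neg h3y] at ky
      have h3z : z % 3 = 0 := by
        by_contra h0; rw [if_neg h0] at kz; omega
      obtain ⟨b, hb, hb2⟩ := (hneg x h3x).1
      obtain ⟨c, hc, -⟩ := (hneg y h3y).2
      have hX : X m ⟨sgn b x, sgn c y, z⟩ := ⟨by simp only [sgn_sq]; exact h, hb2 hx,
        by simp only; omega, by simp only; omega⟩
      refine ⟨b, c, _, hX, ?_⟩
      rw [letter_eq hX .Q h3z]
      simp only [sgn_sgn]

lemma R3_subset {m : ℤ} (hm : m % 6 = 1) :
    R3 (2 * m) ⊆ (((Finset.univ : Finset (Fin 3 × Bool × Bool)) ×ˢ XF m).image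
      (fun t => spread t.1.1 t.1.2.1 t.1.2.2 t.2) : Finset (ℤ × ℤ × ℤ)) := by
  rintro ⟨x, y, z⟩ h
  simp only [R3, Set.mem_setOf_eq] at h
  rw [Finset.mem_coe, Finset.mem_image]
  rcases exists_even h with hx | hy | hz
  · obtain ⟨b, c, v, hv, hw⟩ := spread_surj hm hx h
    refine ⟨((0, b, c), v), ?_, ?_⟩
    · rw [Finset.mem_product]; exact ⟨Finset.mem_univ _, mem_XF.2 hv⟩
    · simp only [spread]
      rw [hw]
  · obtain ⟨b, c, v, hv, hw⟩ := spread_surj (x := y) (y := x) (z := z) hm hy (by linarith)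
    refine ⟨((1, b, c), v), ?_, ?_⟩
    · rw [Finset.mem_product]; exact ⟨Finset.mem_univ _, mem_XF.2 hv⟩
    · simp only [spread]
      rw [hw]
  · obtain ⟨b, c, v, hv, hw⟩ := spread_surj (x := z) (y := x) (z := y) hm hz (by linarith)
    refine ⟨((2, b, c), v), ?_, ?_⟩
    · rw [Finset.mem_product]; exact ⟨Finset.mem_univ _, mem_XF.2 hv⟩
    · simp only [spread]
      rw [hw]

lemma R3_finite {m : ℤ} (hm : m % 6 = 1) : (R3 (2 * m)).Finite :=
  Set.Finite.subset (Finset.finite_toSet _) (R3_subset hm)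

lemma R3_card {m : ℤ} (hm : m % 6 = 1) : (R3 (2 * m)).ncard ≤ 12 * (XF m).card := by
  calc (R3 (2 * m)).ncard ≤ (((((Finset.univ : Finset (Fin 3 × Bool × Bool)) ×ˢ XF m).image
      (fun t => spread t.1.1 t.1.2.1 t.1.2.2 t.2) : Finset (ℤ × ℤ × ℤ))) : Set (ℤ × ℤ × ℤ)).ncard :=
        Set.ncard_le_ncard (R3_subset hm) (Finset.finite_toSet _)
    _ = (((Finset.univ : Finset (Fin 3 × Bool × Bool)) ×ˢ XF m).image
      (fun t => spread t.1.1 t.1.2.1 t.1.2.2 t.2)).card := Set.ncard_coe_finset _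
    _ ≤ ((Finset.univ : Finset (Fin 3 × Bool × Bool)) ×ˢ XF m).card := Finset.card_image_le
    _ = 12 * (XF m).card := by rw [Finset.card_product]; simp

end Pool.Agent.Lib.H63.TSP
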